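import Mathlib
import Pool.Agent.Helper57.PairDefs

/-!
# Merged library file (short import chain), part Z
-/

/-! ### Helper57.Zeta.Polar -/

section

open Complex Filter Topology MeasureTheory Set Metric

open scoped ENNReal

namespace Pool.Agent.Helper57.Zeta

/-- polar coordinates around a centre, for nonnegative functions -/
lemma lintegral_ball_polar (f : ℂ → ℝ≥0∞) (hf : Measurable f) (c : ℂ) (R : ℝ) :
    ∫⁻ z in ball c R, f z =
      ∫⁻ r in Ioo 0 R, ENNReal.ofReal r * ∫⁻ θ in Ioo (-Real.pi) Real.pi, f (circleMap c r θ) := by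
  have h1 : ∫⁻ z in ball c R, f z = ∫⁻ z, (ball (0:ℂ) R).indicator (fun z => f (c + z)) z := by
    rw [← lintegral_indicator measurableSet_ball]
    rw [← lintegral_add_left_eq_self _ c]
    congr 1
    ext z
    by_cases hz : z ∈ ball (0:ℂ) R
    · rw [indicator_of_mem hz, indicator_of_mem]
      rw [mem_ball, dist_eq_norm] at hz ⊢
      simpa using hz
    · rw [indicator_of_notMem hz, indicator_of_notMem]
      rw [mem_ball, dist_eq_norm] at hz ⊢
      simpa using hz
  rw [h1, ← Complex.lintegral_comp_polarCoord_symm]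
  have h2 : polarCoord.target = Ioi (0:ℝ) ×ˢ Ioo (-Real.pi) Real.pi := rfl
  rw [h2, Measure.volume_eq_prod, ← Measure.prod_restrict]
  have hmeas : Measurable (fun p : ℝ × ℝ => ENNReal.ofReal p.1 •
      (ball (0:ℂ) R).indicator (fun z => f (c + z)) (Complex.polarCoord.symm p)) := by
    have hc : Measurable (fun p : ℝ × ℝ => Complex.polarCoord.symm p) := by
      have : (fun p : ℝ × ℝ => Complex.polarCoord.symm p) =
          fun p : ℝ × ℝ => (p.1 : ℂ) * (Real.cos p.2 + Real.sin p.2 * Complex.I) := by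
        ext p; rw [Complex.polarCoord_symm_apply]
      rw [this]
      fun_prop
    simp only [smul_eq_mul]
    apply Measurable.mul
    · fun_prop
    · have h3 : Measurable ((ball (0:ℂ) R).indicator (fun z => f (c + z))) :=
        (hf.comp (measurable_const_add c)).indicator measurableSet_ball
      exact h3.comp hc
  rw [lintegral_prod _ hmeas.aemeasurable]
  rw [← lintegral_indicator measurableSet_Ioi, ← lintegral_indicator measurableSet_Ioo]
  congr 1
  ext r
  by_cases hr : r ∈ Ioo 0 R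
  · rw [indicator_of_mem hr, indicator_of_mem (show r ∈ Ioi (0:ℝ) from hr.1)]
    simp only [smul_eq_mul]
    rw [lintegral_const_mul']
    · congr 1
      apply lintegral_congr
      intro θ
      rw [indicator_of_mem]
      · congr 1
        rw [Complex.polarCoord_symm_apply, circleMap]
        simp only [Complex.exp_mul_I]
        push_cast
        rfl
      · rw [mem_ball, dist_zero_right, Complex.norm_polarCoord_symm]
        simp only
        rw [abs_of_pos hr.1]
        exact hr.2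
    · exact ENNReal.ofReal_ne_top
  · rw [indicator_of_notMem hr]
    by_cases hr0 : r ∈ Ioi (0:ℝ)
    · rw [indicator_of_mem hr0]
      simp only [smul_eq_mul]
      have hR : R ≤ r := by
        by_contra hcon
        exact hr ⟨hr0, not_le.mp hcon⟩
      have : ∀ θ : ℝ, ENNReal.ofReal r * (ball (0:ℂ) R).indicator (fun z => f (c + z))
          (Complex.polarCoord.symm (r, θ)) = 0 := by
        intro θ
        rw [indicator_of_notMem, mul_zero]
        rw [mem_ball, dist_zero_right, Complex.norm_polarCoord_symm]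
        simp only
        rw [abs_of_pos hr0]
        exact not_lt.mpr hR
      simp only [this, lintegral_zero]
    · rw [indicator_of_notMem hr0]

end Pool.Agent.Helper57.Zeta

end

/-! ### Helper57.Zeta.Jensen -/

section

open Complex Filter Topology MeasureTheory Set Metric

namespace Pool.Agent.Helper57.Zeta

/-- the zeros of f in the closed disc of centre c and radius R -/
def zset (f : ℂ → ℂ) (c : ℂ) (R : ℝ) : Set ℂ := {u | f u = 0 ∧ ‖u - c‖ ≤ R}

variable {f : ℂ → ℂ}

lemma order_ne_top (hf : Differentiable ℂ f) {a : ℂ} (ha : f a ≠ 0) (u : ℂ) :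
    analyticOrderAt f u ≠ ⊤ := by
  have h1 : AnalyticOnNhd ℂ f univ := fun z _ => hf.analyticAt z
  apply h1.analyticOrderAt_ne_top_of_isPreconnected isPreconnected_univ (mem_univ a) (mem_univ u)
  rw [(hf.analyticAt a).analyticOrderAt_eq_zero.mpr ha]
  exact ENat.zero_ne_top

lemma divisor_eq (hf : Differentiable ℂ f) {a : ℂ} (ha : f a ≠ 0) (c : ℂ) (R : ℝ) {u : ℂ}
    (hu : u ∈ closedBall c |R|) :
    MeromorphicOn.divisor f (closedBall c |R|) u = (analyticOrderNatAt f u : ℤ) := by
  have h1 : AnalyticOnNhd ℂ f (closedBall c |R|) := fun z _ => hf.analyticAt z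
  rw [MeromorphicOn.AnalyticOnNhd.divisor_apply h1 hu, ← Nat.cast_analyticOrderNatAt (order_ne_top hf ha u)]
  rfl

lemma order_pos_iff (hf : Differentiable ℂ f) {a : ℂ} (ha : f a ≠ 0) (u : ℂ) :
    analyticOrderNatAt f u ≠ 0 ↔ f u = 0 := by
  constructor
  · exact apply_eq_zero_of_analyticOrderNatAt_ne_zero
  · intro h h0
    have h1 := Nat.cast_analyticOrderNatAt (order_ne_top hf ha u)
    rw [h0] at h1
    have h2 := ((hf.analyticAt u).analyticOrderAt_eq_zero).mp h1.symm
    exact h2 h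

lemma zset_finite (hf : Differentiable ℂ f) {a : ℂ} (ha : f a ≠ 0) (c : ℂ) (R : ℝ) :
    (zset f c R).Finite := by
  rcases lt_or_ge R 0 with hR | hR
  · convert Set.finite_empty
    ext u
    simp only [zset, mem_ofPred_eq, mem_empty_iff_false, iff_false, not_and, not_le]
    intro _
    exact lt_of_lt_of_le hR (norm_nonneg _)
  have h := (MeromorphicOn.divisor f (closedBall c |R|)).finiteSupport (isCompact_closedBall c |R|)
  apply h.subset
  intro u hu
  have hu2 : u ∈ closedBall c |R| := by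
    rw [mem_closedBall, dist_eq_norm, abs_of_nonneg hR]; exact hu.2
  rw [Function.mem_support, divisor_eq hf ha c R hu2]
  exact_mod_cast (order_pos_iff hf ha u).mpr hu.1

lemma jensen_formula (hf : Differentiable ℂ f) {c : ℂ} (hc : f c ≠ 0) {R : ℝ} (hR : 0 < R) :
    Real.circleAverage (fun z => Real.log ‖f z‖) c R =
      ∑ u ∈ (zset_finite hf hc c R).toFinset,
        (analyticOrderNatAt f u : ℝ) * Real.log (R / ‖u - c‖) + Real.log ‖f c‖ := by
  have h1 : AnalyticOnNhd ℂ f (closedBall c |R|) := fun z _ => hf.analyticAt z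
  rw [h1.circleAverage_log_norm hR.ne' hc]
  congr 1
  rw [finsum_eq_sum_of_support_subset (s := (zset_finite hf hc c R).toFinset)]
  · apply Finset.sum_congr rfl
    intro u hu
    rw [Set.Finite.mem_toFinset] at hu
    have hu2 : u ∈ closedBall c |R| := by
      rw [mem_closedBall, dist_eq_norm, abs_of_nonneg hR.le]; exact hu.2
    rw [divisor_eq hf hc c R hu2, norm_sub_rev c u, div_eq_mul_inv]
    push_cast
    rfl
  · intro u hu
    rw [Function.mem_support] at hu
    have hd : MeromorphicOn.divisor f (closedBall c |R|) u ≠ 0 := by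
      intro h0; apply hu; rw [h0]; simp
    have hu2 : u ∈ closedBall c |R| :=
      (MeromorphicOn.divisor f (closedBall c |R|)).supportWithinDomain hd
    rw [Finset.mem_coe, Set.Finite.mem_toFinset]
    rw [divisor_eq hf hc c R hu2] at hd
    have hd' : analyticOrderNatAt f u ≠ 0 := by exact_mod_cast hd
    refine ⟨(order_pos_iff hf hc u).mp hd', ?_⟩
    rw [mem_closedBall, dist_eq_norm, abs_of_nonneg hR.le] at hu2
    exact hu2

/-- number of zeros in the disc, with multiplicity -/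
noncomputable def ncount (f : ℂ → ℂ) (c : ℂ) (R : ℝ) : ℝ :=
  ∑ᶠ u ∈ zset f c R, (analyticOrderNatAt f u : ℝ)

lemma ncount_eq (hf : Differentiable ℂ f) {a : ℂ} (ha : f a ≠ 0) (c : ℂ) (R : ℝ) :
    ncount f c R = ∑ u ∈ (zset_finite hf ha c R).toFinset, (analyticOrderNatAt f u : ℝ) := by
  unfold ncount
  rw [finsum_mem_eq_finite_toFinset_sum _ (zset_finite hf ha c R)]

lemma ncount_nonneg (f : ℂ → ℂ) (c : ℂ) (R : ℝ) : 0 ≤ ncount f c R := by
  unfold ncount
  apply finsum_nonneg
  intro u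
  apply finsum_nonneg
  intro _
  positivity

lemma jensen_lower (hf : Differentiable ℂ f) {c : ℂ} (hc : f c ≠ 0) {R : ℝ} (hR : 0 < R) :
    Real.log ‖f c‖ ≤ Real.circleAverage (fun z => Real.log ‖f z‖) c R := by
  rw [jensen_formula hf hc hR]
  have : 0 ≤ ∑ u ∈ (zset_finite hf hc c R).toFinset,
        (analyticOrderNatAt f u : ℝ) * Real.log (R / ‖u - c‖) := by
    apply Finset.sum_nonneg
    intro u hu
    rw [Set.Finite.mem_toFinset] at hu
    apply mul_nonneg (Nat.cast_nonneg _)
    apply Real.log_nonneg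
    have hne : u ≠ c := by rintro rfl; exact hc hu.1
    have : 0 < ‖u - c‖ := norm_pos_iff.mpr (sub_ne_zero.mpr hne)
    rw [le_div_iff₀ this, one_mul]
    exact hu.2
  linarith

/-- Two-sided comparison between circle averages and the number of zeros. -/
lemma jensen_compare (hf : Differentiable ℂ f) {c : ℂ} (hc : f c ≠ 0) {r R : ℝ} (hr : 0 < r)
    (hrR : r ≤ R) :
    ncount f c r * Real.log (R / r) ≤
      Real.circleAverage (fun z => Real.log ‖f z‖) c R -
        Real.circleAverage (fun z => Real.log ‖f z‖) c r ∧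
    Real.circleAverage (fun z => Real.log ‖f z‖) c R -
        Real.circleAverage (fun z => Real.log ‖f z‖) c r ≤ ncount f c R * Real.log (R / r) := by
  have hR : 0 < R := lt_of_lt_of_le hr hrR
  have hsub : (zset_finite hf hc c r).toFinset ⊆ (zset_finite hf hc c R).toFinset := by
    intro u hu
    rw [Set.Finite.mem_toFinset] at hu ⊢
    exact ⟨hu.1, hu.2.trans hrR⟩
  rw [jensen_formula hf hc hR, jensen_formula hf hc hr, ncount_eq hf hc c r, ncount_eq hf hc c R,
    Finset.sum_mul, Finset.sum_mul]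
  have hlr : 0 ≤ Real.log (R / r) := Real.log_nonneg (by rw [le_div_iff₀ hr]; linarith)
  have hpos : ∀ u ∈ (zset_finite hf hc c R).toFinset, 0 < ‖u - c‖ ∧ ‖u - c‖ ≤ R := by
    intro u hu
    rw [Set.Finite.mem_toFinset] at hu
    have hne : u ≠ c := by rintro rfl; exact hc hu.1
    exact ⟨norm_pos_iff.mpr (sub_ne_zero.mpr hne), hu.2⟩
  -- split the sum over the big disc
  have hsplit : ∀ g : ℂ → ℝ, ∑ u ∈ (zset_finite hf hc c R).toFinset, g u =
      ∑ u ∈ (zset_finite hf hc c r).toFinset, g u +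
      ∑ u ∈ (zset_finite hf hc c R).toFinset \ (zset_finite hf hc c r).toFinset, g u := by
    intro g
    rw [add_comm, Finset.sum_sdiff hsub]
  have e1 : ∑ u ∈ (zset_finite hf hc c R).toFinset,
        (analyticOrderNatAt f u : ℝ) * Real.log (R / ‖u - c‖) -
      ∑ u ∈ (zset_finite hf hc c r).toFinset,
        (analyticOrderNatAt f u : ℝ) * Real.log (r / ‖u - c‖) =
      ∑ u ∈ (zset_finite hf hc c r).toFinset, (analyticOrderNatAt f u : ℝ) * Real.log (R / r) +
      ∑ u ∈ (zset_finite hf hc c R).toFinset \ (zset_finite hf hc c r).toFinset,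
        (analyticOrderNatAt f u : ℝ) * Real.log (R / ‖u - c‖) := by
    rw [hsplit]
    have : ∑ u ∈ (zset_finite hf hc c r).toFinset,
          (analyticOrderNatAt f u : ℝ) * Real.log (R / r) =
        ∑ u ∈ (zset_finite hf hc c r).toFinset,
          (analyticOrderNatAt f u : ℝ) * Real.log (R / ‖u - c‖) -
        ∑ u ∈ (zset_finite hf hc c r).toFinset,
          (analyticOrderNatAt f u : ℝ) * Real.log (r / ‖u - c‖) := by
      rw [← Finset.sum_sub_distrib]
      apply Finset.sum_congr rfl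
      intro u hu
      have hu' := hpos u (hsub hu)
      rw [← mul_sub, Real.log_div hR.ne' hr.ne', Real.log_div hR.ne' hu'.1.ne',
        Real.log_div hr.ne' hu'.1.ne']
      ring
    rw [this]; ring
  have hD : ∀ u ∈ (zset_finite hf hc c R).toFinset \ (zset_finite hf hc c r).toFinset,
      0 ≤ (analyticOrderNatAt f u : ℝ) * Real.log (R / ‖u - c‖) ∧
      (analyticOrderNatAt f u : ℝ) * Real.log (R / ‖u - c‖) ≤
        (analyticOrderNatAt f u : ℝ) * Real.log (R / r) := by
    intro u hu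
    rw [Finset.mem_sdiff] at hu
    have hu' := hpos u hu.1
    have hur : r < ‖u - c‖ := by
      by_contra hcon
      apply hu.2
      rw [Set.Finite.mem_toFinset]
      have h1 := hu.1
      rw [Set.Finite.mem_toFinset] at h1
      exact ⟨h1.1, not_lt.mp hcon⟩
    constructor
    · apply mul_nonneg (Nat.cast_nonneg _)
      apply Real.log_nonneg
      rw [le_div_iff₀ hu'.1]; linarith only [hu', hu'.2]
    · apply mul_le_mul_of_nonneg_left _ (Nat.cast_nonneg _)
      apply Real.log_le_log (div_pos hR hu'.1)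
      apply div_le_div_of_nonneg_left hR.le hr hur.le
  have h0 : 0 ≤ ∑ u ∈ (zset_finite hf hc c R).toFinset \ (zset_finite hf hc c r).toFinset,
        (analyticOrderNatAt f u : ℝ) * Real.log (R / ‖u - c‖) :=
    Finset.sum_nonneg fun u hu => (hD u hu).1
  have h1 : ∑ u ∈ (zset_finite hf hc c R).toFinset \ (zset_finite hf hc c r).toFinset,
        (analyticOrderNatAt f u : ℝ) * Real.log (R / ‖u - c‖) ≤
      ∑ u ∈ (zset_finite hf hc c R).toFinset \ (zset_finite hf hc c r).toFinset,
        (analyticOrderNatAt f u : ℝ) * Real.log (R / r) :=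
    Finset.sum_le_sum fun u hu => (hD u hu).2
  have e2 := hsplit fun u => (analyticOrderNatAt f u : ℝ) * Real.log (R / r)
  constructor
  · linarith
  · linarith only [hf, hc, e1, h1, e2]

lemma circleAverage_log_mono (hf : Differentiable ℂ f) {c : ℂ} (hc : f c ≠ 0) {r R : ℝ} (hr : 0 < r)
    (hrR : r ≤ R) :
    Real.circleAverage (fun z => Real.log ‖f z‖) c r ≤
      Real.circleAverage (fun z => Real.log ‖f z‖) c R := by
  have h := (jensen_compare hf hc hr hrR).1
  have h1 := ncount_nonneg f c r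
  have h2 : 0 ≤ Real.log (R / r) := Real.log_nonneg (by rw [le_div_iff₀ hr]; linarith)
  nlinarith only [h, h1, h2, mul_nonneg h1 h2]

end Pool.Agent.Helper57.Zeta

end

/-! ### Helper57.Zeta.Xi -/

section

open Complex Filter Topology MeasureTheory Set

namespace Pool.Agent.Helper57.Zeta

/-- The entire function s(s-1)Λ(s). -/
noncomputable def xi (s : ℂ) : ℂ := s * (s - 1) * completedRiemannZeta₀ s + 1

lemma differentiable_xi : Differentiable ℂ xi := by
  unfold xi
  exact ((differentiable_id.mul (differentiable_id.sub_const 1)).mul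
    differentiable_completedZeta₀).add_const 1

lemma xi_one_sub (s : ℂ) : xi (1 - s) = xi s := by
  unfold xi
  rw [completedRiemannZeta₀_one_sub]
  ring

lemma xi_eq {s : ℂ} (h0 : s ≠ 0) (h1 : s ≠ 1) :
    xi s = s * (s - 1) * completedRiemannZeta s := by
  unfold xi
  rw [completedRiemannZeta_eq]
  have h2 : (1 : ℂ) - s ≠ 0 := sub_ne_zero.mpr (Ne.symm h1)
  field_simp
  ring

lemma xi_eq_zeta {s : ℂ} (h0 : 0 < s.re) (h1 : s ≠ 1) :
    xi s = s * (s - 1) * (Gammaℝ s * riemannZeta s) := by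
  have hs0 : s ≠ 0 := by
    rintro rfl; simp at h0
  have hG : Gammaℝ s ≠ 0 := Gammaℝ_ne_zero_of_re_pos h0
  rw [xi_eq hs0 h1, riemannZeta_def_of_ne_zero hs0]
  field_simp

lemma xi_one : xi 1 = 1 := by simp [xi]

lemma analyticAt_xi (s : ℂ) : AnalyticAt ℂ xi s := differentiable_xi.analyticAt s

/-- zeros of xi lie in the open critical strip -/
lemma xi_ne_zero_of_one_le_re {s : ℂ} (h : 1 ≤ s.re) : xi s ≠ 0 := by
  rcases eq_or_ne s 1 with rfl | h1
  · simp [xi_one]
  · have h0 : 0 < s.re := by linarith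
    have hs0 : s ≠ 0 := by
      rintro rfl; simp at h0
    rw [xi_eq_zeta h0 h1]
    exact mul_ne_zero (mul_ne_zero hs0 (sub_ne_zero.mpr h1))
      (mul_ne_zero (Gammaℝ_ne_zero_of_re_pos h0) (riemannZeta_ne_zero_of_one_le_re h))

lemma xi_ne_zero_of_re_le_zero {s : ℂ} (h : s.re ≤ 0) : xi s ≠ 0 := by
  rw [← xi_one_sub]
  apply xi_ne_zero_of_one_le_re
  simp; linarith

lemma xi_eq_zero_iff {s : ℂ} : xi s = 0 ↔ (0 < s.re ∧ s.re < 1 ∧ riemannZeta s = 0) := by
  constructor
  · intro h
    have h1 : s.re < 1 := by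
      by_contra h1; exact xi_ne_zero_of_one_le_re (not_lt.mp h1) h
    have h0 : 0 < s.re := by
      by_contra h0; exact xi_ne_zero_of_re_le_zero (not_lt.mp h0) h
    refine ⟨h0, h1, ?_⟩
    have hs1 : s ≠ 1 := by rintro rfl; simp at h1
    have hs0 : s ≠ 0 := by rintro rfl; simp at h0
    rw [xi_eq_zeta h0 hs1] at h
    have := mul_ne_zero hs0 (sub_ne_zero.mpr hs1)
    have hG := Gammaℝ_ne_zero_of_re_pos h0
    simpa [hs0, sub_ne_zero.mpr hs1, hG] using h
  · rintro ⟨h0, h1, h⟩
    have hs1 : s ≠ 1 := by rintro rfl; simp at h1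
    rw [xi_eq_zeta h0 hs1, h]; simp

/-- The multiplicities of zeros of xi and of zeta in the critical strip agree. -/
lemma analyticOrderAt_xi {s : ℂ} (h0 : 0 < s.re) (h1 : s.re < 1) :
    analyticOrderAt xi s = analyticOrderAt riemannZeta s := by
  have hs1 : s ≠ 1 := by rintro rfl; simp at h1
  have hs0 : s ≠ 0 := by rintro rfl; simp at h0
  have hz : AnalyticAt ℂ riemannZeta s := analyticOn_riemannZeta s hs1
  have hopen : IsOpen {z : ℂ | 0 < z.re ∧ z.re < 1} :=
    (isOpen_lt continuous_const continuous_re).inter (isOpen_lt continuous_re continuous_const)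
  have hGan : AnalyticAt ℂ (fun z : ℂ => z * (z - 1) * Gammaℝ z) s := by
    have hd : DifferentiableOn ℂ (fun z : ℂ => z * (z - 1) * Gammaℝ z) {z : ℂ | 0 < z.re ∧ z.re < 1} := by
      intro z hz
      apply DifferentiableAt.differentiableWithinAt
      have hG : DifferentiableAt ℂ Gammaℝ z := by
        have : Gammaℝ = fun z : ℂ => (Real.pi : ℂ) ^ (-z / 2) * Gamma (z / 2) := by
          ext z; rw [Gammaℝ_def]
        rw [this]
        apply DifferentiableAt.mul
        · apply DifferentiableAt.const_cpow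
          · fun_prop
          · left; exact_mod_cast Real.pi_ne_zero
        · apply DifferentiableAt.comp (g := Gamma) (f := fun z : ℂ => z / 2)
          · apply differentiableAt_Gamma
            intro m hm
            have : (z / 2).re = -(m : ℝ) := by rw [hm]; simp
            have h2 : (z / 2).re = z.re / 2 := by simp
            rw [h2] at this
            have hz1 := hz.1
            have : z.re = -2 * (m : ℝ) := by linarith only [this, hz1]
            have hm0 : (0 : ℝ) ≤ m := Nat.cast_nonneg m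
            linarith
          · fun_prop
      exact (differentiableAt_id.mul (differentiableAt_id.sub_const 1)).mul hG
    exact hd.analyticAt (hopen.mem_nhds ⟨h0, h1⟩)
  have heq : xi =ᶠ[𝓝 s] fun z => (z * (z - 1) * Gammaℝ z) * riemannZeta z := by
    filter_upwards [hopen.mem_nhds (show s ∈ {z : ℂ | 0 < z.re ∧ z.re < 1} from ⟨h0, h1⟩)] with z hz
    have hz1 : z ≠ 1 := by rintro rfl; simp at hz
    rw [xi_eq_zeta hz.1 hz1]; ring
  rw [analyticOrderAt_congr heq]
  have : (fun z => (z * (z - 1) * Gammaℝ z) * riemannZeta z) =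
      (fun z : ℂ => z * (z - 1) * Gammaℝ z) * riemannZeta := rfl
  rw [this, analyticOrderAt_mul hGan hz]
  have hne : (fun z : ℂ => z * (z - 1) * Gammaℝ z) s ≠ 0 := by
    exact mul_ne_zero (mul_ne_zero hs0 (sub_ne_zero.mpr hs1)) (Gammaℝ_ne_zero_of_re_pos h0)
  rw [(hGan.analyticOrderAt_eq_zero).mpr hne, zero_add]

/-- conjugation symmetry of Λ₀: we use the real kernel -/
lemma completedRiemannZeta₀_eq_mellin (s : ℂ) :
    completedRiemannZeta₀ s =
      (mellin (HurwitzZeta.hurwitzEvenFEPair 0).f_modif (s / 2)) / 2 := rfl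

lemma f_modif_conj (t : ℝ) :
    starRingEnd ℂ ((HurwitzZeta.hurwitzEvenFEPair 0).f_modif t) =
      (HurwitzZeta.hurwitzEvenFEPair 0).f_modif t := by
  unfold WeakFEPair.f_modif
  simp only [Pi.add_apply, map_add, HurwitzZeta.hurwitzEvenFEPair, if_true]
  congr 1
  · by_cases h : t ∈ Ioi (1:ℝ)
    · simp [indicator_of_mem h]
    · simp [indicator_of_notMem h]
  · by_cases h : t ∈ Ioo (0:ℝ) 1
    · simp only [indicator_of_mem h]
      simp
    · simp [indicator_of_notMem h]

lemma completedRiemannZeta₀_conj (s : ℂ) :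
    completedRiemannZeta₀ (starRingEnd ℂ s) = starRingEnd ℂ (completedRiemannZeta₀ s) := by
  rw [completedRiemannZeta₀_eq_mellin, completedRiemannZeta₀_eq_mellin]
  rw [map_div₀]
  congr 1
  · unfold mellin
    rw [← integral_conj]
    apply setIntegral_congr_fun measurableSet_Ioi
    intro t ht
    simp only [smul_eq_mul, map_mul]
    rw [f_modif_conj]
    congr 1
    have ht0 : (0:ℝ) < t := ht
    have h2 : (starRingEnd ℂ) 2 = 2 := map_ofNat _ 2
    have hc : (starRingEnd ℂ) s / 2 - 1 = (starRingEnd ℂ) (s / 2 - 1) := by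
      simp [map_div₀, h2]
    rw [hc, cpow_conj]
    · simp
    · rw [arg_ofReal_of_nonneg ht0.le]
      exact Real.pi_pos.ne
  · exact (Complex.conj_ofReal 2).symm

lemma xi_conj (s : ℂ) : xi (starRingEnd ℂ s) = starRingEnd ℂ (xi s) := by
  unfold xi
  rw [completedRiemannZeta₀_conj]
  simp

end Pool.Agent.Helper57.Zeta

end

/-! ### Helper57.Zeta.GammaBd -/

section

open Complex Filter Topology MeasureTheory Set

namespace Pool.Agent.Helper57.Zeta

lemma gamma_upper {x : ℝ} (hx : 1 / 4 ≤ x) : Real.Gamma x ≤ 16 * (x + 2) ^ (x + 2) := by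
  have hx0 : 0 < x := by linarith
  have h1 : Real.Gamma (x + 2) = (x + 1) * (x * Real.Gamma x) := by
    rw [show x + 2 = (x + 1) + 1 by ring, Real.Gamma_add_one (by linarith only [hx0] : x + 1 ≠ 0),
      Real.Gamma_add_one hx0.ne']
  have hG : 0 < Real.Gamma x := Real.Gamma_pos_of_pos hx0
  have h2 : Real.Gamma x ≤ 16 * Real.Gamma (x + 2) := by
    rw [h1]
    have : 1 ≤ 16 * ((x + 1) * x) := by nlinarith only [hx, hx0]
    nlinarith only [hG, this]
  refine h2.trans ?_
  have h3 : Real.Gamma (x + 2) ≤ (x + 2) ^ (x + 2) := by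
    set n : ℕ := ⌈x⌉₊ with hn
    have hn1 : x ≤ n := Nat.le_ceil x
    have hn2 : (n : ℝ) < x + 1 := Nat.ceil_lt_add_one hx0.le
    have h4 : Real.Gamma (x + 2) ≤ Real.Gamma ((n : ℝ) + 2) := by
      apply Real.Gamma_strictMonoOn_Ici.monotoneOn
      · simp; linarith only [hx0]
      · simp
      · linarith only [hn1]
    have h5 : Real.Gamma ((n : ℝ) + 2) = ((n + 1).factorial : ℝ) := by
      have := Real.Gamma_nat_eq_factorial (n + 1)
      rw [← this]; push_cast; ring_nf
    rw [h5] at h4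
    refine h4.trans ?_
    have h6 : ((n + 1).factorial : ℝ) ≤ ((n : ℝ) + 1) ^ (n + 1) := by
      have := Nat.factorial_le_pow (n + 1)
      calc ((n + 1).factorial : ℝ) ≤ (((n + 1) ^ (n + 1) : ℕ) : ℝ) := by exact_mod_cast this
        _ = _ := by push_cast; ring
    refine h6.trans ?_
    calc ((n : ℝ) + 1) ^ (n + 1) ≤ (x + 2) ^ (n + 1) := by
          apply pow_le_pow_left₀ (by positivity); linarith only [hn2]
      _ = (x + 2) ^ (((n + 1 : ℕ) : ℝ)) := by rw [Real.rpow_natCast]
      _ ≤ (x + 2) ^ (x + 2) := by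
          apply Real.rpow_le_rpow_of_exponent_le (by linarith only [hx0])
          push_cast; linarith only [hn2]
  linarith only [h3]

lemma gamma_lower {x : ℝ} (hx : 0 < x) : x ^ x * Real.exp (-x) ≤ Real.Gamma (x + 1) := by
  rw [Real.Gamma_eq_integral (by linarith)]
  have hint : IntegrableOn (fun t : ℝ => Real.exp (-t) * t ^ (x + 1 - 1)) (Ioi 0) :=
    Real.GammaIntegral_convergent (by linarith)
  have h1 : ∫ t in Ioi x, x ^ x * Real.exp (-t) = x ^ x * Real.exp (-x) := by
    rw [integral_const_mul, integral_exp_neg_Ioi]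
  rw [← h1]
  calc ∫ t in Ioi x, x ^ x * Real.exp (-t) ≤ ∫ t in Ioi x, Real.exp (-t) * t ^ (x + 1 - 1) := by
        apply setIntegral_mono_on
        · apply Integrable.const_mul
          exact integrableOn_exp_neg_Ioi x
        · exact hint.mono_set (Ioi_subset_Ioi hx.le)
        · exact measurableSet_Ioi
        · intro t ht
          rw [mul_comm]
          apply mul_le_mul_of_nonneg_left _ (Real.exp_pos _).le
          rw [add_sub_cancel_right]
          exact Real.rpow_le_rpow hx.le (le_of_lt ht) hx.le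
    _ ≤ ∫ t in Ioi 0, Real.exp (-t) * t ^ (x + 1 - 1) := by
        apply setIntegral_mono_set hint
        · filter_upwards [ae_restrict_mem measurableSet_Ioi] with t ht
          have : (0:ℝ) < t := ht
          positivity
        · exact (Ioi_subset_Ioi hx.le).eventuallyLE

lemma norm_Gamma_one_add_I (y : ℝ) : Real.exp (-(Real.pi * |y| / 2)) ≤ ‖Gamma (1 + I * y)‖ := by
  rcases eq_or_ne y 0 with rfl | hy
  · simp
  have hy' : (y : ℂ) ≠ 0 := by exact_mod_cast hy
  have h1 : Gamma (1 + I * y) * Gamma (1 - I * y) = Real.pi * y / Complex.sinh (Real.pi * y) := by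
    have h2 := Complex.Gamma_mul_Gamma_one_sub (-(I * y))
    have h3 : Gamma (-(I * y) + 1) = -(I * y) * Gamma (-(I * y)) := by
      apply Complex.Gamma_add_one
      simp [hy]
    have h4 : (1 : ℂ) - -(I * y) = 1 + I * y := by ring
    have h5 : (1 : ℂ) - I * y = -(I * y) + 1 := by ring
    rw [h5, h3, mul_comm, mul_assoc, ← h4, h2]
    have h6 : Complex.sin (Real.pi * -(I * y)) = -(Complex.sinh (Real.pi * y) * I) := by
      rw [show (Real.pi : ℂ) * -(I * y) = -((Real.pi * y) * I) by ring, Complex.sin_neg,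
        Complex.sin_mul_I]
    rw [h6]
    have h7 : Complex.sinh (Real.pi * y) ≠ 0 := by
      have : Real.sinh (Real.pi * y) ≠ 0 := by
        rw [Ne, Real.sinh_eq_zero]
        exact mul_ne_zero Real.pi_ne_zero hy
      intro h
      apply this
      have h8 : ((Real.sinh (Real.pi * y) : ℝ) : ℂ) = Complex.sinh (Real.pi * y) := by
        push_cast; rfl
      rw [h] at h8
      exact_mod_cast h8
    have hI : (I : ℂ) ≠ 0 := I_ne_zero
    field_simp
  have h2 : Gamma (1 - I * y) = starRingEnd ℂ (Gamma (1 + I * y)) := by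
    rw [← Complex.Gamma_conj]
    congr 1
    simp [sub_eq_add_neg]
  rw [h2, Complex.mul_conj] at h1
  have h3 : ‖Gamma (1 + I * y)‖ ^ 2 = Real.pi * y / Real.sinh (Real.pi * y) := by
    rw [Complex.normSq_eq_norm_sq] at h1
    have : (((Real.pi * y / Real.sinh (Real.pi * y) : ℝ)) : ℂ) =
        Real.pi * y / Complex.sinh (Real.pi * y) := by push_cast; rfl
    rw [← this] at h1
    exact_mod_cast h1
  have h4 : Real.pi * y / Real.sinh (Real.pi * y) =
      Real.pi * |y| / Real.sinh (Real.pi * |y|) := by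
    rcases abs_choice y with h | h
    · rw [h]
    · rw [h]
      rw [show Real.pi * -y = -(Real.pi * y) by ring, Real.sinh_neg, neg_div_neg_eq]
  have hu : 0 < Real.pi * |y| := mul_pos Real.pi_pos (abs_pos.mpr hy)
  set u := Real.pi * |y| with hudef
  have hs : 0 < Real.sinh u := Real.sinh_pos_iff.mpr hu
  have h5 : Real.exp (-u) ≤ u / Real.sinh u := by
    rw [le_div_iff₀ hs, Real.sinh_eq]
    have h6 : Real.exp (-u) * ((Real.exp u - Real.exp (-u)) / 2) =
        (1 - Real.exp (-(2 * u))) / 2 := by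
      rw [show -(2 * u) = -u + -u by ring, Real.exp_add]
      have : Real.exp (-u) * Real.exp u = 1 := by rw [← Real.exp_add]; simp
      linear_combination (1/2) * this
    rw [h6]
    have := Real.add_one_le_exp (-(2 * u))
    linarith only [this]
  have h6 : (Real.exp (-(u / 2))) ^ 2 = Real.exp (-u) := by
    rw [← Real.exp_nat_mul]; congr 1; push_cast; ring
  have h7 : (Real.exp (-(u / 2))) ^ 2 ≤ ‖Gamma (1 + I * y)‖ ^ 2 := by
    rw [h6, h3, h4]; exact h5
  exact (pow_le_pow_iff_left₀ (Real.exp_pos _).le (norm_nonneg _) two_ne_zero).mp h7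

lemma norm_Gamma_ge {x y : ℝ} (hx : 1 ≤ x) :
    Real.Gamma x * Real.exp (-(Real.pi * |y| / 2)) ≤ ‖Gamma (x + I * y)‖ := by
  rcases eq_or_lt_of_le hx with rfl | hx1
  · simpa using norm_Gamma_one_add_I y
  have hb : 0 < x - 1 := by linarith
  have h1 := Complex.Gamma_mul_Gamma_eq_betaIntegral (s := 1 + I * y) (t := ((x - 1 : ℝ) : ℂ))
    (by simp) (by simpa using hb)
  have hsum : (1 + I * y : ℂ) + ((x - 1 : ℝ) : ℂ) = x + I * y := by push_cast; ring
  rw [hsum] at h1
  have h2 : ‖Complex.betaIntegral (1 + I * y) ((x - 1 : ℝ) : ℂ)‖ ≤ 1 / (x - 1) := by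
    unfold Complex.betaIntegral
    have h3 : ∀ t ∈ Ioo (0:ℝ) 1, ‖(t : ℂ) ^ ((1 + I * y : ℂ) - 1) * (1 - (t:ℂ)) ^ (((x - 1 : ℝ) : ℂ) - 1)‖ =
        (1 - t) ^ (x - 1 - 1) := by
      intro t ht
      rw [norm_mul]
      have e1 : ‖(t : ℂ) ^ ((1 + I * y : ℂ) - 1)‖ = 1 := by
        rw [Complex.norm_cpow_eq_rpow_re_of_pos ht.1]
        simp
      have e2 : ‖(1 - (t:ℂ)) ^ (((x - 1 : ℝ) : ℂ) - 1)‖ = (1 - t) ^ (x - 1 - 1) := by
        have : (1 - (t:ℂ)) = ((1 - t : ℝ) : ℂ) := by push_cast; rfl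
        rw [this, Complex.norm_cpow_eq_rpow_re_of_pos (by linarith [ht.2])]
        simp
      rw [e1, e2, one_mul]
    calc _ ≤ ∫ t in (0:ℝ)..1, ‖(t : ℂ) ^ ((1 + I * y : ℂ) - 1) * (1 - (t:ℂ)) ^ (((x - 1 : ℝ) : ℂ) - 1)‖ :=
          intervalIntegral.norm_integral_le_integral_norm (by norm_num)
      _ = ∫ t in (0:ℝ)..1, (1 - t) ^ (x - 1 - 1) := by
          rw [intervalIntegral.integral_of_le (by norm_num), intervalIntegral.integral_of_le (by norm_num),
            integral_Ioc_eq_integral_Ioo, integral_Ioc_eq_integral_Ioo]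
          exact setIntegral_congr_fun measurableSet_Ioo h3
      _ = 1 / (x - 1) := by
          rw [intervalIntegral.integral_comp_sub_left (fun u => u ^ (x - 1 - 1)) 1]
          simp only [sub_self, sub_zero]
          rw [integral_rpow (Or.inl (by linarith))]
          simp only [sub_add_cancel, Real.one_rpow]
          rw [Real.zero_rpow hb.ne']
          ring
  have h4 : ‖Gamma (1 + I * y)‖ * ‖Gamma ((x - 1 : ℝ) : ℂ)‖ =
      ‖Gamma (x + I * y)‖ * ‖Complex.betaIntegral (1 + I * y) ((x - 1 : ℝ) : ℂ)‖ := by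
    rw [← norm_mul, ← norm_mul, h1]
  have h5 : ‖Gamma ((x - 1 : ℝ) : ℂ)‖ = Real.Gamma (x - 1) := by
    rw [Complex.Gamma_ofReal, Complex.norm_real, Real.norm_of_nonneg]
    exact (Real.Gamma_pos_of_pos hb).le
  have h6 : Real.Gamma x = (x - 1) * Real.Gamma (x - 1) := by
    have := Real.Gamma_add_one hb.ne'
    rwa [sub_add_cancel] at this
  rw [h5] at h4
  have h7 := norm_Gamma_one_add_I y
  have hG : 0 < Real.Gamma (x - 1) := Real.Gamma_pos_of_pos hb
  have h8 : ‖Gamma (1 + I * y)‖ * Real.Gamma (x - 1) ≤ ‖Gamma (x + I * y)‖ * (1 / (x - 1)) := by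
    rw [h4]
    exact mul_le_mul_of_nonneg_left h2 (norm_nonneg _)
  have h9 : ‖Gamma (1 + I * y)‖ * Real.Gamma (x - 1) * (x - 1) ≤ ‖Gamma (x + I * y)‖ := by
    calc _ ≤ ‖Gamma (x + I * y)‖ * (1 / (x - 1)) * (x - 1) :=
          mul_le_mul_of_nonneg_right h8 hb.le
      _ = _ := by field_simp
  rw [h6]
  calc (x - 1) * Real.Gamma (x - 1) * Real.exp (-(Real.pi * |y| / 2))
      ≤ (x - 1) * Real.Gamma (x - 1) * ‖Gamma (1 + I * y)‖ := by
        apply mul_le_mul_of_nonneg_left h7; positivity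
    _ = ‖Gamma (1 + I * y)‖ * Real.Gamma (x - 1) * (x - 1) := by ring
    _ ≤ _ := h9

/-- lower bound for the archimedean factor in the half plane Re s ≥ 2 -/
lemma log_norm_Gammaℝ_ge {s : ℂ} (hs : 2 ≤ s.re) :
    s.re / 2 * Real.log ‖s‖ - 4 * ‖s‖ ≤ Real.log ‖Gammaℝ s‖ := by
  have hσ : 0 < s.re := by linarith
  set x : ℝ := s.re / 2 with hx
  have hx1 : 1 ≤ x := by rw [hx]; linarith only [hs]
  have hx0 : 0 < x := by linarith
  have hs2 : s / 2 = x + I * ((s.im / 2 : ℝ) : ℂ) := by
    apply Complex.ext <;> simp [hx]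
  have hnorm : ‖Gammaℝ s‖ = Real.pi ^ (-x) * ‖Gamma (s / 2)‖ := by
    rw [Gammaℝ_def, norm_mul, Complex.norm_cpow_eq_rpow_re_of_pos Real.pi_pos]
    congr 2
    simp [hx]; ring
  have hG : Real.Gamma x * Real.exp (-(Real.pi * |s.im / 2| / 2)) ≤ ‖Gamma (s / 2)‖ := by
    rw [hs2]; exact norm_Gamma_ge hx1
  have hGx : 0 < Real.Gamma x := Real.Gamma_pos_of_pos hx0
  have hpos : 0 < Real.Gamma x * Real.exp (-(Real.pi * |s.im / 2| / 2)) := by positivity
  have hlog1 : Real.log (Real.Gamma x) - Real.pi * |s.im / 2| / 2 ≤ Real.log ‖Gamma (s / 2)‖ := by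
    have := Real.log_le_log hpos hG
    rw [Real.log_mul hGx.ne' (Real.exp_pos _).ne', Real.log_exp] at this
    linarith only [this]
  have hgl : x * Real.log x - x - Real.log x ≤ Real.log (Real.Gamma x) := by
    have h1 := gamma_lower hx0
    rw [Real.Gamma_add_one hx0.ne'] at h1
    have h2 : 0 < x ^ x * Real.exp (-x) := by positivity
    have h3 := Real.log_le_log h2 h1
    rw [Real.log_mul (by positivity) (Real.exp_pos _).ne', Real.log_exp,
      Real.log_mul hx0.ne' hGx.ne', Real.log_rpow hx0] at h3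
    linarith only [h3]
  have hsn : 0 < ‖s‖ := by
    rw [norm_pos_iff]; rintro rfl; simp at hσ
  have hlogπ : Real.log Real.pi ≤ 1.2 := by
    have h1 : Real.pi < 3.15 := Real.pi_lt_d2
    have h2 : Real.log Real.pi ≤ Real.log (Real.exp 1.2) := by
      apply Real.log_le_log Real.pi_pos
      have h3 : (3.15 : ℝ) ≤ Real.exp 1.2 := by
        have h4 := Real.quadratic_le_exp_of_nonneg (x := 0.6) (by norm_num)
        have h5 : Real.exp 1.2 = Real.exp 0.6 * Real.exp 0.6 := by
          rw [← Real.exp_add]; norm_num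
        have h6 : (1.78 : ℝ) ≤ Real.exp 0.6 := by norm_num at h4 ⊢; linarith only [h4]
        rw [h5]
        nlinarith only [h4]
      linarith only [h1, h3]
    rwa [Real.log_exp] at h2
  have hlog : Real.log ‖Gammaℝ s‖ = -x * Real.log Real.pi + Real.log ‖Gamma (s / 2)‖ := by
    rw [hnorm, Real.log_mul (by positivity), Real.log_rpow Real.pi_pos]
    have : 0 < ‖Gamma (s / 2)‖ := lt_of_lt_of_le hpos hG
    exact this.ne'
  have hre : s.re ≤ ‖s‖ := Complex.re_le_norm s
  have him : |s.im| ≤ ‖s‖ := Complex.abs_im_le_norm s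
  have hxs : x * Real.log ‖s‖ ≤ x * Real.log x + ‖s‖ := by
    have h1 : Real.log (‖s‖ / x) ≤ ‖s‖ / x := by
      have := Real.log_le_sub_one_of_pos (div_pos hsn hx0)
      linarith only [this]
    rw [Real.log_div hsn.ne' hx0.ne'] at h1
    have h2 : x * (Real.log ‖s‖ - Real.log x) ≤ x * (‖s‖ / x) :=
      mul_le_mul_of_nonneg_left h1 hx0.le
    have h3 : x * (‖s‖ / x) = ‖s‖ := by field_simp
    linarith only [h2, h3]
  have hlx : Real.log x ≤ x := by
    have := Real.log_le_sub_one_of_pos hx0; linarith only [this]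
  have hpi4 : Real.pi * |s.im / 2| / 2 ≤ 0.8 * ‖s‖ := by
    have h1 : Real.pi < 3.15 := Real.pi_lt_d2
    have h2 : |s.im / 2| = |s.im| / 2 := by rw [abs_div]; norm_num
    rw [h2]
    have h3 : 0 ≤ |s.im| := abs_nonneg _
    nlinarith only [hs, hre, him, h1, Real.pi_pos]
  have hxpi : x * Real.log Real.pi ≤ 0.6 * ‖s‖ := by
    have : x * Real.log Real.pi ≤ x * 1.2 := mul_le_mul_of_nonneg_left hlogπ hx0.le
    have : x ≤ ‖s‖ / 2 := by rw [hx]; linarith only [hre]
    linarith
  have hx2 : x ≤ ‖s‖ / 2 := by rw [hx]; linarith only [hre]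
  rw [hlog]
  linarith only [hs, hx, hlog1, hgl, hre, hxs, hlx, hpi4, hxpi]

lemma norm_zeta_ge {s : ℂ} (hs : 2 ≤ s.re) : 1 / 4 ≤ ‖riemannZeta s‖ := by
  have h1 : 1 < s.re := by linarith
  rw [zeta_eq_tsum_one_div_nat_add_one_cpow h1]
  have hsum : Summable (fun n : ℕ => 1 / ((n : ℂ) + 1) ^ s) := by
    have := (Complex.summable_one_div_nat_cpow (p := s)).mpr h1
    have h2 := (summable_nat_add_iff 1).mpr this
    simpa using h2
  rw [hsum.tsum_eq_zero_add]
  have hb : ∀ n : ℕ, ‖1 / (((n + 1 : ℕ) : ℂ) + 1) ^ s‖ ≤ 1 / ((n : ℝ) + 2) ^ 2 := by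
    intro n
    rw [norm_div, norm_one]
    have : (((n + 1 : ℕ) : ℂ) + 1) = (((n : ℝ) + 2 : ℝ) : ℂ) := by push_cast; ring
    rw [this, Complex.norm_cpow_eq_rpow_re_of_pos (by positivity)]
    apply one_div_le_one_div_of_le (by positivity)
    have : ((n : ℝ) + 2) ^ 2 = ((n : ℝ) + 2) ^ (2 : ℝ) := by norm_cast
    rw [this]
    apply Real.rpow_le_rpow_of_exponent_le _ hs
    have : (0:ℝ) ≤ n := Nat.cast_nonneg n
    linarith only []
  have hS : HasSum (fun n : ℕ => 1 / ((n : ℝ) + 2) ^ 2) (Real.pi ^ 2 / 6 - 1) := by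
    have h := hasSum_zeta_two
    have h2 := (hasSum_nat_add_iff' 2).mpr h
    have e1 : Real.pi ^ 2 / 6 - 1 =
        Real.pi ^ 2 / 6 - ∑ i ∈ Finset.range 2, 1 / ((i : ℕ) : ℝ) ^ 2 := by
      simp [Finset.sum_range_succ]
    have e2 : (fun n : ℕ => 1 / ((n : ℝ) + 2) ^ 2) = fun n : ℕ => 1 / (((n + 2 : ℕ)) : ℝ) ^ 2 := by
      ext n; push_cast; ring
    rw [e1, e2]
    exact h2
  have h3 : ‖∑' n : ℕ, 1 / (((n + 1 : ℕ) : ℂ) + 1) ^ s‖ ≤ Real.pi ^ 2 / 6 - 1 :=
    tsum_of_norm_bounded hS hb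
  have h4 : Real.pi ^ 2 / 6 - 1 ≤ 3 / 4 := by
    have := Real.pi_lt_d2
    have h0 := Real.pi_pos
    nlinarith only [this, h0]
  have h5 : ‖(1 / (((0 : ℕ) : ℂ) + 1) ^ s : ℂ)‖ = 1 := by simp
  have h6 := norm_sub_le_norm_add (1 / (((0 : ℕ) : ℂ) + 1) ^ s : ℂ)
    (∑' n : ℕ, 1 / (((n + 1 : ℕ) : ℂ) + 1) ^ s)
  rw [h5] at h6
  linarith only [h3, h4, h6]

lemma log_norm_xi_ge {s : ℂ} (hs : 2 ≤ s.re) :
    s.re / 2 * Real.log ‖s‖ - 4 * ‖s‖ - 2 ≤ Real.log ‖xi s‖ := by
  have hs1 : s ≠ 1 := by rintro rfl; norm_num at hs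
  have hs0 : s ≠ 0 := by rintro rfl; norm_num at hs
  rw [xi_eq_zeta (by linarith only [hs]) hs1]
  have hG : Gammaℝ s ≠ 0 := Gammaℝ_ne_zero_of_re_pos (by linarith)
  have hz := norm_zeta_ge hs
  have hGn : 0 < ‖Gammaℝ s‖ := norm_pos_iff.mpr hG
  have h1 : 1 ≤ ‖s‖ * ‖s - 1‖ := by
    have h2 : 2 ≤ ‖s‖ := hs.trans (Complex.re_le_norm s)
    have h3 : 1 ≤ ‖s - 1‖ := by
      have := Complex.re_le_norm (s - 1)
      simp at this; linarith only [hs, this]
    nlinarith only [h2, h3]
  have h2 : ‖Gammaℝ s‖ * (1 / 4) ≤ ‖s * (s - 1) * (Gammaℝ s * riemannZeta s)‖ := by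
    rw [norm_mul, norm_mul, norm_mul]
    have h3 : ‖Gammaℝ s‖ * (1 / 4) ≤ ‖Gammaℝ s‖ * ‖riemannZeta s‖ :=
      mul_le_mul_of_nonneg_left hz hGn.le
    have h4 : 0 ≤ ‖Gammaℝ s‖ * ‖riemannZeta s‖ := by positivity
    nlinarith only [hGn, h1, h3]
  have h3 := Real.log_le_log (by positivity) h2
  rw [Real.log_mul hGn.ne' (by norm_num)] at h3
  have h4 := log_norm_Gammaℝ_ge hs
  have h5 : -2 ≤ Real.log (1 / 4) := by
    rw [one_div, Real.log_inv]
    have : Real.log 4 ≤ 2 := by
      have h6 : Real.log 4 = 2 * Real.log 2 := by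
        rw [show (4:ℝ) = 2 ^ 2 by norm_num, Real.log_pow]; norm_num
      have := Real.log_two_lt_d9
      linarith only [h6, this]
    linarith only [this]
  linarith only [h3, h4, h5]

end Pool.Agent.Helper57.Zeta

end

/-! ### Helper57.Zeta.XiUpper -/

section

open Complex Filter Topology MeasureTheory Set

namespace Pool.Agent.Helper57.Zeta

/-- exponential decay of the theta kernel minus its constant term -/
lemma evenKernel_sub_one_bound {t : ℝ} (ht : 1 ≤ t) :
    |HurwitzZeta.evenKernel 0 t - 1| ≤ 4 * Real.exp (-(Real.pi * t)) := by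
  have ht0 : 0 < t := by linarith only [ht]
  rw [HurwitzZeta.evenKernel_eq_cosKernel_of_zero]
  have h := HurwitzZeta.hasSum_nat_cosKernel₀ 0 ht0
  simp only [mul_zero, zero_mul, Real.cos_zero, mul_one] at h
  have h' : HasSum (fun n : ℕ => 2 * Real.exp (-Real.pi * ((n : ℝ) + 1) ^ 2 * t))
      (HurwitzZeta.cosKernel 0 t - 1) := by
    simpa using h
  set q := Real.exp (-(Real.pi * t)) with hq
  have hq0 : 0 < q := Real.exp_pos _
  have hq1 : q ≤ 1 / 2 := by
    have h1 : Real.pi * t ≥ 1 := by nlinarith only [ht, Real.pi_gt_three]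
    have h2 : q ≤ Real.exp (-1) := Real.exp_le_exp.mpr (by linarith)
    have h3 : Real.exp (-1) < 1 / 2 := by
      have := Real.exp_neg_one_lt_d9; linarith
    linarith only [h2, h3]
  have hg : HasSum (fun n : ℕ => 2 * q * q ^ n) (2 * q * (1 - q)⁻¹) :=
    (hasSum_geometric_of_lt_one hq0.le (by linarith only [hq0, hq1])).mul_left _
  have hb : ∀ n : ℕ, ‖2 * Real.exp (-Real.pi * ((n : ℝ) + 1) ^ 2 * t)‖ ≤ 2 * q * q ^ n := by
    intro n
    rw [Real.norm_of_nonneg (by positivity)]
    have h1 : 2 * q * q ^ n = 2 * Real.exp (-(Real.pi * t) * ((n : ℝ) + 1)) := by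
      rw [mul_assoc, ← pow_succ', hq, ← Real.exp_nat_mul]
      congr 2; push_cast; ring
    rw [h1]
    apply mul_le_mul_of_nonneg_left _ (by norm_num)
    apply Real.exp_le_exp.mpr
    have hn : (0:ℝ) ≤ n := Nat.cast_nonneg n
    have hpt : 0 < Real.pi * t := mul_pos Real.pi_pos ht0
    nlinarith only [hq0, hq1, hn, hpt, mul_nonneg hpt.le (mul_nonneg hn (by linarith only [hq0, hq1] : (0:ℝ) ≤ (n:ℝ) + 1))]
  have h2 : ‖HurwitzZeta.cosKernel 0 t - 1‖ ≤ 2 * q * (1 - q)⁻¹ := by
    rw [← h'.tsum_eq]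
    exact tsum_of_norm_bounded hg hb
  rw [Real.norm_eq_abs] at h2
  refine h2.trans ?_
  have h3 : (1 - q)⁻¹ ≤ 2 := by
    rw [inv_le_comm₀ (by linarith only [hq0, hq1]) (by norm_num)]
    linarith only [hq1]
  nlinarith only [hq0, h3]

lemma mellinConvergent_f_modif (s : ℂ) :
    MellinConvergent (HurwitzZeta.hurwitzEvenFEPair 0).f_modif s :=
  ((HurwitzZeta.hurwitzEvenFEPair 0).isStrongFEPair_toStrongFEPair.hasMellin s).1

lemma f_modif_of_gt_one {t : ℝ} (ht : 1 < t) :
    (HurwitzZeta.hurwitzEvenFEPair 0).f_modif t = ((HurwitzZeta.evenKernel 0 t - 1 : ℝ) : ℂ) := by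
  unfold WeakFEPair.f_modif
  rw [Pi.add_apply, indicator_of_mem (show t ∈ Ioi (1:ℝ) from ht),
    indicator_of_notMem (by simp; intro _; linarith), add_zero]
  simp [HurwitzZeta.hurwitzEvenFEPair]

/-- the constant part of the bound -/
noncomputable def K0 : ℝ :=
  ∫ t in Ioc (0:ℝ) 1, t ^ ((1:ℝ) / 4 - 1) * ‖(HurwitzZeta.hurwitzEvenFEPair 0).f_modif t‖

lemma K0_nonneg : 0 ≤ K0 := by
  unfold K0
  apply setIntegral_nonneg measurableSet_Ioc
  intro t ht
  have : 0 < t := ht.1
  positivity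

lemma norm_completedZeta₀_le {s : ℂ} (hs : 1 / 2 ≤ s.re) :
    ‖completedRiemannZeta₀ s‖ ≤ K0 + 4 * Real.Gamma (s.re / 2) := by
  set F := (HurwitzZeta.hurwitzEvenFEPair 0).f_modif with hF
  set x : ℝ := s.re / 2 with hx
  have hx4 : 1 / 4 ≤ x := by rw [hx]; linarith only [hs]
  have hx0 : 0 < x := by linarith only [hs, hx]
  have hnorm : ∀ (z : ℂ), ∀ t ∈ Ioi (0:ℝ), ‖(t : ℂ) ^ (z - 1) • F t‖ = t ^ (z.re - 1) * ‖F t‖ := by
    intro z t ht
    rw [norm_smul, Complex.norm_cpow_eq_rpow_re_of_pos ht]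
    simp
  have hint : IntegrableOn (fun t : ℝ => t ^ (x - 1) * ‖F t‖) (Ioi 0) := by
    have h1 := (mellinConvergent_f_modif (x : ℂ)).norm
    refine IntegrableOn.congr_fun h1 ?_ measurableSet_Ioi
    intro t ht
    simpa only [ofReal_re] using hnorm (x : ℂ) t ht
  have hint0 : IntegrableOn (fun t : ℝ => t ^ ((1:ℝ) / 4 - 1) * ‖F t‖) (Ioi 0) := by
    have h1 := (mellinConvergent_f_modif (((1:ℝ) / 4 : ℝ) : ℂ)).norm
    refine IntegrableOn.congr_fun h1 ?_ measurableSet_Ioi
    intro t ht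
    simpa only [ofReal_re] using hnorm (((1:ℝ) / 4 : ℝ) : ℂ) t ht
  have h1 : ‖mellin F (s / 2)‖ ≤ ∫ t in Ioi (0:ℝ), t ^ (x - 1) * ‖F t‖ := by
    unfold mellin
    refine (norm_integral_le_integral_norm _).trans (le_of_eq ?_)
    apply setIntegral_congr_fun measurableSet_Ioi
    intro t ht
    have := hnorm (s / 2) t ht
    simp only
    rw [this]
    have h2 : (s / 2).re = x := by simp [hx]
    rw [h2]
  have hsplit : ∫ t in Ioi (0:ℝ), t ^ (x - 1) * ‖F t‖ =
      (∫ t in Ioc (0:ℝ) 1, t ^ (x - 1) * ‖F t‖) + ∫ t in Ioi (1:ℝ), t ^ (x - 1) * ‖F t‖ := by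
    rw [← setIntegral_union]
    · rw [Ioc_union_Ioi_eq_Ioi zero_le_one]
    · exact Ioc_disjoint_Ioi le_rfl
    · exact measurableSet_Ioi
    · exact hint.mono_set Ioc_subset_Ioi_self
    · exact hint.mono_set (Ioi_subset_Ioi zero_le_one)
  have hA : (∫ t in Ioc (0:ℝ) 1, t ^ (x - 1) * ‖F t‖) ≤ K0 := by
    unfold K0
    apply setIntegral_mono_on (hint.mono_set Ioc_subset_Ioi_self)
      (hint0.mono_set Ioc_subset_Ioi_self) measurableSet_Ioc
    intro t ht
    apply mul_le_mul_of_nonneg_right _ (norm_nonneg _)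
    exact Real.rpow_le_rpow_of_exponent_ge ht.1 ht.2 (by linarith only [hs, hx])
  have hG := Real.integral_rpow_mul_exp_neg_mul_Ioi hx0 Real.pi_pos
  have hGint : IntegrableOn (fun t : ℝ => t ^ (x - 1) * Real.exp (-(Real.pi * t))) (Ioi 0) := by
    have h2 := integrableOn_rpow_mul_exp_neg_mul_rpow (s := x - 1) (p := 1) (b := Real.pi)
      (by linarith only [hx0]) one_pos Real.pi_pos
    refine h2.congr_fun ?_ measurableSet_Ioi
    intro t ht
    simp
  have hB : (∫ t in Ioi (1:ℝ), t ^ (x - 1) * ‖F t‖) ≤ 4 * Real.Gamma x := by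
    calc (∫ t in Ioi (1:ℝ), t ^ (x - 1) * ‖F t‖)
        ≤ ∫ t in Ioi (1:ℝ), 4 * (t ^ (x - 1) * Real.exp (-(Real.pi * t))) := by
          apply setIntegral_mono_on (hint.mono_set (Ioi_subset_Ioi zero_le_one))
            ((hGint.mono_set (Ioi_subset_Ioi zero_le_one)).const_mul 4) measurableSet_Ioi
          intro t ht
          have ht1 : 1 < t := ht
          rw [hF, f_modif_of_gt_one ht1, Complex.norm_real, Real.norm_eq_abs]
          have h3 := evenKernel_sub_one_bound ht1.le
          have h4 : 0 ≤ t ^ (x - 1) := by positivity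
          nlinarith only [h3, h4]
      _ ≤ ∫ t in Ioi (0:ℝ), 4 * (t ^ (x - 1) * Real.exp (-(Real.pi * t))) := by
          apply setIntegral_mono_set (hGint.const_mul 4)
          · filter_upwards [ae_restrict_mem measurableSet_Ioi] with t ht
            have : (0:ℝ) < t := ht
            positivity
          · exact (Ioi_subset_Ioi zero_le_one).eventuallyLE
      _ = 4 * ((1 / Real.pi) ^ x * Real.Gamma x) := by
          rw [integral_const_mul, hG]
      _ ≤ 4 * Real.Gamma x := by
          have h5 : (1 / Real.pi) ^ x ≤ 1 := by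
            apply Real.rpow_le_one (by positivity) _ hx0.le
            rw [div_le_one Real.pi_pos]
            linarith only [Real.pi_gt_three]
          have h6 := Real.Gamma_pos_of_pos hx0
          nlinarith only [h5, h6]
  rw [completedRiemannZeta₀_eq_mellin, norm_div]
  have h2 : ‖(2:ℂ)‖ = 2 := by simp
  rw [h2]
  have hG0 := Real.Gamma_pos_of_pos hx0
  have hK := K0_nonneg
  have : ‖mellin F (s / 2)‖ ≤ K0 + 4 * Real.Gamma x := by
    rw [hsplit] at h1; linarith only [h1, hA, hB]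
  have h7 : ‖mellin F (s / 2)‖ / 2 ≤ (K0 + 4 * Real.Gamma x) / 2 := by linarith only [h1, hsplit, hA, hB]
  linarith only [h1, hsplit, hA, hB, hG0, hK]

/-- Upper bound for log⁺|xi| in the whole plane. -/
lemma posLog_xi_le : ∃ C : ℝ, 0 ≤ C ∧ ∀ z : ℂ,
    Real.posLog ‖xi (1 / 2 + z)‖ ≤ |z.re| / 2 * Real.log (‖z‖ + 3) + C * (‖z‖ + 1) := by
  refine ⟨20 + Real.log (K0 + 65), by
    have : 0 ≤ Real.log (K0 + 65) := Real.log_nonneg (by linarith only [K0_nonneg])
    linarith, ?_⟩
  -- reduce to Re z ≥ 0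
  have key : ∀ z : ℂ, 0 ≤ z.re → Real.posLog ‖xi (1 / 2 + z)‖ ≤
      z.re / 2 * Real.log (‖z‖ + 3) + (20 + Real.log (K0 + 65)) * (‖z‖ + 1) := by
    intro z hz
    set s : ℂ := 1 / 2 + z with hs
    have hsre : s.re = 1 / 2 + z.re := by simp [hs]
    have hs2 : 1 / 2 ≤ s.re := by rw [hsre]; linarith only [hz]
    have h1 := norm_completedZeta₀_le hs2
    have hx4 : 1 / 4 ≤ s.re / 2 := by linarith only [hz, hsre]
    have h2 := gamma_upper hx4
    set y : ℝ := s.re / 2 + 2 with hy
    have hy2 : 2 ≤ y := by rw [hy]; linarith only [hz, hsre]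
    have hyy : 1 ≤ y ^ y := Real.one_le_rpow (by linarith only [hz, hsre, hy]) (by linarith only [hz, hsre, hy])
    have hK := K0_nonneg
    have hLam : ‖completedRiemannZeta₀ s‖ ≤ (K0 + 64) * y ^ y := by
      have : K0 ≤ K0 * y ^ y := le_mul_of_one_le_right hK hyy
      nlinarith only [h1, h2, this]
    have hsn : ‖s‖ ≤ ‖z‖ + 1 := by
      calc ‖s‖ ≤ ‖(1 / 2 : ℂ)‖ + ‖z‖ := norm_add_le _ _
        _ ≤ ‖z‖ + 1 := by norm_num; linarith only []
    have hsn1 : ‖s - 1‖ ≤ ‖z‖ + 1 := by
      have : s - 1 = z + (-(1/2)) := by rw [hs]; ring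
      rw [this]
      calc _ ≤ ‖z‖ + ‖(-(1 / 2) : ℂ)‖ := norm_add_le _ _
        _ ≤ ‖z‖ + 1 := by norm_num
    have hzn := norm_nonneg z
    have hA : ‖xi s‖ ≤ (‖z‖ + 1) ^ 2 * ((K0 + 65) * y ^ y) := by
      unfold xi
      calc ‖s * (s - 1) * completedRiemannZeta₀ s + 1‖
          ≤ ‖s * (s - 1) * completedRiemannZeta₀ s‖ + ‖(1:ℂ)‖ := norm_add_le _ _
        _ = ‖s‖ * ‖s - 1‖ * ‖completedRiemannZeta₀ s‖ + 1 := by
            rw [norm_mul, norm_mul, norm_one]
        _ ≤ (‖z‖ + 1) * (‖z‖ + 1) * ((K0 + 64) * y ^ y) + 1 := by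
            gcongr
        _ ≤ (‖z‖ + 1) ^ 2 * ((K0 + 65) * y ^ y) := by
            have h3 : 1 ≤ (‖z‖ + 1) ^ 2 := by nlinarith only [hzn]
            have h4 : 1 ≤ (‖z‖ + 1) ^ 2 * y ^ y := by nlinarith only [hyy, h3]
            nlinarith only [h4]
    have hApos : 1 ≤ (‖z‖ + 1) ^ 2 * ((K0 + 65) * y ^ y) := by
      have h3 : 1 ≤ (‖z‖ + 1) ^ 2 := by nlinarith only [hzn]
      have h4 : 1 ≤ (K0 + 65) * y ^ y := by nlinarith only [hyy, hK]
      nlinarith only [h3, h4]
    have hpl : Real.posLog ‖xi s‖ ≤ Real.log ((‖z‖ + 1) ^ 2 * ((K0 + 65) * y ^ y)) := by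
      rw [← Real.posLog_eq_log (x := (‖z‖ + 1) ^ 2 * ((K0 + 65) * y ^ y))
        (by rw [abs_of_nonneg (by linarith only [hApos])]; exact hApos)]
      exact Real.posLog_le_posLog (norm_nonneg _) hA
    rw [Real.log_mul (by positivity) (by positivity), Real.log_mul (by positivity) (by positivity),
      Real.log_pow, Real.log_rpow (by linarith only [hz, hsre, hy])] at hpl
    push_cast at hpl
    have hl1 : Real.log (‖z‖ + 1) ≤ ‖z‖ := by
      have := Real.log_le_sub_one_of_pos (show 0 < ‖z‖ + 1 by linarith only [hzn]); linarith only [this]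
    have hl3 : Real.log (‖z‖ + 3) ≤ ‖z‖ + 2 := by
      have := Real.log_le_sub_one_of_pos (show 0 < ‖z‖ + 3 by linarith only [hzn]); linarith only [this]
    have hl30 : 0 ≤ Real.log (‖z‖ + 3) := Real.log_nonneg (by linarith only [hzn])
    have hzre : z.re ≤ ‖z‖ := Complex.re_le_norm z
    have hy3 : y ≤ ‖z‖ + 3 := by rw [hy, hsre]; linarith only [hzn, hzre]
    have hly : Real.log y ≤ Real.log (‖z‖ + 3) := Real.log_le_log (by linarith only [hz, hsre, hy]) hy3
    have hyl : y * Real.log y ≤ (z.re / 2 + 9 / 4) * Real.log (‖z‖ + 3) := by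
      have : y = z.re / 2 + 9 / 4 := by rw [hy, hsre]; ring
      rw [← this]
      exact mul_le_mul_of_nonneg_left hly (by linarith only [hz, hsre, hy])
    have hK65 : 0 ≤ Real.log (K0 + 65) := Real.log_nonneg (by linarith only [hK])
    nlinarith only [hzn, hpl, hl1, hl3, hyl, hK65]
  intro z
  rcases le_or_gt 0 z.re with hz | hz
  · rw [abs_of_nonneg hz]; exact key z hz
  · have h := key (-z) (by simp; linarith)
    have h2 : xi (1 / 2 + z) = xi (1 / 2 + -z) := by
      rw [← xi_one_sub]; congr 1; ring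
    rw [h2, abs_of_neg hz]
    simpa using h

/-- Lower bound for log|xi| away from the strip. -/
lemma log_xi_ge_aux {z : ℂ} (hz : 3 / 2 ≤ |z.re|) :
    |z.re| / 2 * Real.log ‖z‖ - 6 * (‖z‖ + 1) ≤ Real.log ‖xi (1 / 2 + z)‖ := by
  have key : ∀ z : ℂ, 3 / 2 ≤ z.re → z.re / 2 * Real.log ‖z‖ - 6 * (‖z‖ + 1) ≤
      Real.log ‖xi (1 / 2 + z)‖ := by
    intro z hz
    set s : ℂ := 1 / 2 + z with hs
    have hsre : s.re = 1 / 2 + z.re := by simp [hs]
    have h1 := log_norm_xi_ge (s := s) (by rw [hsre]; linarith only [hz])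
    have hzn : z.re ≤ ‖z‖ := Complex.re_le_norm z
    have hz0 : 0 < ‖z‖ := by linarith only [hz, hzn]
    have hsz : ‖z‖ ≤ ‖s‖ := by
      have h2 : ‖z‖ ^ 2 ≤ ‖s‖ ^ 2 := by
        rw [← Complex.normSq_eq_norm_sq, ← Complex.normSq_eq_norm_sq, Complex.normSq_apply,
          Complex.normSq_apply]
        have : s.im = z.im := by simp [hs]
        rw [this, hsre]
        nlinarith only [hz]
      exact (pow_le_pow_iff_left₀ (norm_nonneg _) (norm_nonneg _) two_ne_zero).mp h2
    have hsn : ‖s‖ ≤ ‖z‖ + 1 / 2 := by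
      calc ‖s‖ ≤ ‖(1 / 2 : ℂ)‖ + ‖z‖ := norm_add_le _ _
        _ = ‖z‖ + 1 / 2 := by norm_num; ring
    have hs2 : 2 ≤ s.re := by rw [hsre]; linarith only [hz]
    have hs1 : 1 ≤ ‖s‖ := by
      have := Complex.re_le_norm s; linarith only [hz, hsre, this]
    have hl : 0 ≤ Real.log ‖s‖ := Real.log_nonneg hs1
    have hl2 : Real.log ‖z‖ ≤ Real.log ‖s‖ := Real.log_le_log hz0 hsz
    have h3 : z.re / 2 * Real.log ‖z‖ ≤ s.re / 2 * Real.log ‖s‖ := by
      calc z.re / 2 * Real.log ‖z‖ ≤ z.re / 2 * Real.log ‖s‖ :=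
            mul_le_mul_of_nonneg_left hl2 (by linarith only [hz])
        _ ≤ s.re / 2 * Real.log ‖s‖ := by
            apply mul_le_mul_of_nonneg_right _ hl
            rw [hsre]; linarith only []
    linarith only [hz, h1, hzn, hsn, h3]
  rcases le_or_gt 0 z.re with h0 | h0
  · rw [abs_of_nonneg h0] at hz ⊢
    exact key z hz
  · rw [abs_of_neg h0] at hz ⊢
    have h := key (-z) (by simpa using hz)
    have h2 : xi (1 / 2 + z) = xi (1 / 2 + -z) := by
      rw [← xi_one_sub]; congr 1; ring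
    rw [h2]
    simpa using h

end Pool.Agent.Helper57.Zeta

end

/-! ### Helper57.Zeta.Strip -/

section

open Complex Filter Topology MeasureTheory Set Metric

open scoped ENNReal

namespace Pool.Agent.Helper57.Zeta

variable {f : ℂ → ℂ}

lemma circleIntegrable_log (hf : Differentiable ℂ f) (c : ℂ) (r : ℝ) :
    CircleIntegrable (fun z => Real.log ‖f z‖) c r := by
  apply MeromorphicOn.circleIntegrable_log_norm
  exact fun z _ => (hf.analyticAt z).meromorphicAt

lemma circleIntegrable_posLog (hf : Differentiable ℂ f) (c : ℂ) (r : ℝ) :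
    CircleIntegrable (fun z => Real.posLog ‖f z‖) c r := by
  apply MeromorphicOn.circleIntegrable_posLog_norm
  exact fun z _ => (hf.analyticAt z).meromorphicAt

lemma lintegral_circle_neglog (hf : Differentiable ℂ f) (c : ℂ) (r : ℝ) :
    ∫⁻ θ in Ioo (-Real.pi) Real.pi, ENNReal.ofReal (Real.posLog ‖f (circleMap c r θ)‖⁻¹) =
      ENNReal.ofReal (2 * Real.pi * (Real.circleAverage (fun z => Real.posLog ‖f z‖) c r -
        Real.circleAverage (fun z => Real.log ‖f z‖) c r)) := by
  have h1 := circleIntegrable_log hf c r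
  have h2 := circleIntegrable_posLog hf c r
  have hpt : ∀ x : ℝ, Real.posLog x⁻¹ = Real.posLog x - Real.log x := by
    intro x; have := Real.posLog_sub_posLog_inv (x := x); linarith only [this]
  have hper : Function.Periodic (fun θ => Real.posLog ‖f (circleMap c r θ)‖⁻¹) (2 * Real.pi) := by
    intro θ
    simp only
    rw [periodic_circleMap c r θ]
  have hii : IntervalIntegrable (fun θ => Real.posLog ‖f (circleMap c r θ)‖⁻¹) volume 0
      (2 * Real.pi) := by
    have : (fun θ => Real.posLog ‖f (circleMap c r θ)‖⁻¹) =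
        fun θ => Real.posLog ‖f (circleMap c r θ)‖ - Real.log ‖f (circleMap c r θ)‖ := by
      ext θ; rw [hpt]
    rw [this]
    exact IntervalIntegrable.sub h2 h1
  have hii2 : IntervalIntegrable (fun θ => Real.posLog ‖f (circleMap c r θ)‖⁻¹) volume (-Real.pi)
      Real.pi := by
    apply hper.intervalIntegrable₀ (by positivity) hii
  have hint : IntegrableOn (fun θ => Real.posLog ‖f (circleMap c r θ)‖⁻¹)
      (Ioo (-Real.pi) Real.pi) := by
    rw [intervalIntegrable_iff_integrableOn_Ioo_of_le (by linarith only [Real.pi_pos])] at hii2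
    exact hii2
  rw [← ofReal_integral_eq_lintegral_ofReal hint]
  · congr 1
    rw [← integral_Ioc_eq_integral_Ioo, ← intervalIntegral.integral_of_le (by linarith only [Real.pi_pos])]
    have h3 := hper.intervalIntegral_add_eq (-Real.pi) 0
    rw [show -Real.pi + 2 * Real.pi = Real.pi by ring, zero_add] at h3
    rw [h3]
    rw [Real.circleAverage_def, Real.circleAverage_def]
    simp only [smul_eq_mul]
    rw [← mul_sub, ← intervalIntegral.integral_sub h2 h1]
    rw [← mul_assoc, mul_inv_cancel₀ (by positivity), one_mul]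
    apply intervalIntegral.integral_congr
    intro θ _
    simp only
    rw [hpt]
  · filter_upwards with θ
    exact Real.posLog_nonneg

lemma measurable_neglog (hf : Differentiable ℂ f) :
    Measurable (fun z => ENNReal.ofReal (Real.posLog ‖f z‖⁻¹)) := by
  have h1 : Measurable (fun z => ‖f z‖⁻¹) := (hf.continuous.norm.measurable).inv
  exact ENNReal.measurable_ofReal.comp (Real.continuous_posLog.measurable.comp h1)

lemma lintegral_ball_neglog (hf : Differentiable ℂ f) {c : ℂ} (hc : f c ≠ 0) {R M : ℝ}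
    (hR : 0 < R) (hM : ∀ z ∈ closedBall c R, Real.posLog ‖f z‖ ≤ M) :
    ∫⁻ z in ball c R, ENNReal.ofReal (Real.posLog ‖f z‖⁻¹) ≤
      ENNReal.ofReal (R * (R * (2 * Real.pi * (M - Real.log ‖f c‖)))) := by
  rw [lintegral_ball_polar _ (measurable_neglog hf)]
  have hM0 : 0 ≤ M - Real.log ‖f c‖ := by
    have h1 := hM c (mem_closedBall_self hR.le)
    have h2 : Real.log ‖f c‖ ≤ Real.posLog ‖f c‖ := by
      rw [Real.posLog_apply]; exact le_max_right _ _
    linarith
  calc _ ≤ ∫⁻ r in Ioo 0 R, ENNReal.ofReal (R * (2 * Real.pi * (M - Real.log ‖f c‖))) := by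
        apply setLIntegral_mono' measurableSet_Ioo
        intro r hr
        rw [lintegral_circle_neglog hf c r, ENNReal.ofReal_mul hR.le]
        apply mul_le_mul'
        · exact ENNReal.ofReal_le_ofReal hr.2.le
        · apply ENNReal.ofReal_le_ofReal
          apply mul_le_mul_of_nonneg_left _ (by positivity)
          have h1 := jensen_lower hf hc hr.1
          have h2 : Real.circleAverage (fun z => Real.posLog ‖f z‖) c r ≤ M := by
            apply Real.circleAverage_mono_on_of_le_circle (circleIntegrable_posLog hf c r)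
            intro z hz
            apply hM
            rw [mem_sphere] at hz
            rw [mem_closedBall, hz, abs_of_pos hr.1]
            exact hr.2.le
          linarith only [h1, h2]
    _ = _ := by
        rw [setLIntegral_const, Real.volume_Ioo, sub_zero, mul_comm,
          ← ENNReal.ofReal_mul hR.le]

lemma lintegral_biUnion_finset_le' {ι : Type*} (I : Finset ι) (S : ι → Set ℂ) (w : ℂ → ℝ≥0∞) :
    ∫⁻ z in ⋃ k ∈ I, S k, w z ≤ ∑ k ∈ I, ∫⁻ z in S k, w z := by
  classical
  induction I using Finset.induction_on with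
  | empty => simp
  | insert a s ha ih =>
    rw [Finset.sum_insert ha, Finset.set_biUnion_insert]
    exact (lintegral_union_le w _ _).trans (add_le_add le_rfl ih)

/-- small discs covering the strip -/
lemma disc_bound : ∃ C : ℝ, 0 ≤ C ∧ ∀ (c : ℂ), (c.re = 2 ∨ c.re = -1) →
    ∫⁻ z in ball c 2, ENNReal.ofReal (Real.posLog ‖xi z‖⁻¹) ≤ ENNReal.ofReal (C * (|c.im| + 1)) := by
  obtain ⟨C, hC0, hC⟩ := posLog_xi_le
  refine ⟨4 * (2 * Real.pi * (2 * 8 + C * 7 + 10)), by positivity, ?_⟩
  intro c hc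
  have hre : |c.re - 1/2| = 3 / 2 := by
    rcases hc with h | h <;> rw [h] <;> norm_num
  -- lower bound at the centre
  have hlow : -(4 * (|c.im| + 2)) - 2 ≤ Real.log ‖xi c‖ := by
    have key : ∀ c : ℂ, c.re = 2 → -(4 * (|c.im| + 2)) - 2 ≤ Real.log ‖xi c‖ := by
      intro c h
      have h1 := log_norm_xi_ge (s := c) (by rw [h])
      have h2 : ‖c‖ ≤ |c.im| + 2 := by
        have := Complex.norm_le_abs_re_add_abs_im c
        rw [h] at this
        norm_num at this; linarith only [this]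
      have h3 : 1 ≤ ‖c‖ := by
        have := Complex.re_le_norm c; rw [h] at this; linarith only [this]
      have h4 : 0 ≤ Real.log ‖c‖ := Real.log_nonneg h3
      rw [h] at h1
      linarith only [h1, h2, h4]
    rcases hc with h | h
    · exact key c h
    · have := key (1 - c) (by simp [h]; norm_num)
      rw [xi_one_sub] at this
      simpa using this
  have hne : xi c ≠ 0 := by
    rcases hc with h | h
    · exact xi_ne_zero_of_one_le_re (by rw [h]; norm_num)
    · exact xi_ne_zero_of_re_le_zero (by rw [h]; norm_num)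
  have hup : ∀ z ∈ closedBall c 2, Real.posLog ‖xi z‖ ≤ (2 * 8 + C * 7) * (|c.im| + 1) := by
    intro z hz
    rw [mem_closedBall, dist_eq_norm] at hz
    have h1 := hC (z - 1 / 2)
    rw [show (1 / 2 : ℂ) + (z - 1 / 2) = z by ring] at h1
    have hn : ‖z - 1 / 2‖ ≤ |c.im| + 6 := by
      have e : z - 1 / 2 = (z - c) + (c - 1 / 2) := by ring
      have h3 : ‖c - 1 / 2‖ ≤ |c.im| + 3 / 2 := by
        have := Complex.norm_le_abs_re_add_abs_im (c - 1/2)
        have h4 : (c - 1 / 2).re = c.re - 1 / 2 := by simp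
        have h5 : (c - 1 / 2).im = c.im := by simp
        rw [h4, h5, hre] at this
        linarith only [this]
      rw [e]
      have := norm_add_le (z - c) (c - 1 / 2)
      linarith only [hz, h3, this]
    have hr : |(z - 1 / 2).re| ≤ 4 := by
      have e : (z - 1 / 2).re = (z - c).re + (c.re - 1 / 2) := by simp
      rw [e]
      have h4 := Complex.abs_re_le_norm (z - c)
      have h5 := abs_add_le (z - c).re (c.re - 1 / 2)
      rw [hre] at h5
      linarith only [hz, h4, h5]
    have hi : 0 ≤ |c.im| := abs_nonneg _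
    have hn0 := norm_nonneg (z - 1 / 2)
    have hl : Real.log (‖z - 1 / 2‖ + 3) ≤ ‖z - 1 / 2‖ + 2 := by
      have := Real.log_le_sub_one_of_pos (show 0 < ‖z - 1 / 2‖ + 3 by linarith only [hn0]); linarith only [this]
    have hl0 : 0 ≤ Real.log (‖z - 1 / 2‖ + 3) := Real.log_nonneg (by linarith only [hn0])
    have h6 : |(z - 1 / 2).re| / 2 * Real.log (‖z - 1 / 2‖ + 3) ≤ 2 * (|c.im| + 8) := by
      have : |(z - 1 / 2).re| / 2 ≤ 2 := by linarith only [hr]
      nlinarith only [hn, hr, hl, hl0]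
    have h7 : C * (‖z - 1 / 2‖ + 1) ≤ C * (|c.im| + 7) := mul_le_mul_of_nonneg_left (by linarith only [hn]) hC0
    nlinarith only [hC0, h1, hi, h6, h7, mul_nonneg hC0 hi]
  refine (lintegral_ball_neglog differentiable_xi hne (by norm_num) hup).trans ?_
  apply ENNReal.ofReal_le_ofReal
  have hi : 0 ≤ |c.im| := abs_nonneg _
  have e : (2:ℝ) * (2 * (2 * Real.pi * ((2 * 8 + C * 7) * (|c.im| + 1) - Real.log ‖xi c‖))) =
      4 * (2 * Real.pi * ((2 * 8 + C * 7) * (|c.im| + 1) - Real.log ‖xi c‖)) := by ring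
  rw [e]
  have e2 : 4 * (2 * Real.pi * (2 * 8 + C * 7 + 10)) * (|c.im| + 1) =
      4 * (2 * Real.pi * ((2 * 8 + C * 7 + 10) * (|c.im| + 1))) := by ring
  rw [e2]
  apply mul_le_mul_of_nonneg_left _ (by norm_num)
  apply mul_le_mul_of_nonneg_left _ (by positivity)
  nlinarith only [hlow, hi]

/-- The open vertical strip |Re z - 1/2| < 3/2. -/
def strip : Set ℂ := {z | |z.re - 1 / 2| < 3 / 2}

lemma measurableSet_strip : MeasurableSet strip := by
  unfold strip
  exact (isOpen_lt (by fun_prop) continuous_const).measurableSet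

lemma strip_bound : ∃ C : ℝ, 0 ≤ C ∧ ∀ R : ℝ, 1 ≤ R →
    ∫⁻ z in ball 2 R ∩ strip, ENNReal.ofReal (Real.posLog ‖xi z‖⁻¹) ≤
      ENNReal.ofReal (C * R ^ 2) := by
  obtain ⟨C, hC0, hC⟩ := disc_bound
  refine ⟨60 * C, by positivity, ?_⟩
  intro R hR
  set N : ℕ := ⌈R⌉₊ + 1 with hN
  have hN1 : R + 1 ≤ N := by
    rw [hN]; push_cast; have := Nat.le_ceil R; linarith
  have hN2 : (N : ℝ) ≤ R + 2 := by
    rw [hN]; push_cast; have := Nat.ceil_lt_add_one (show 0 ≤ R by linarith only [hR]); linarith only [this]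
  set w : ℂ → ℝ≥0∞ := fun z => ENNReal.ofReal (Real.posLog ‖xi z‖⁻¹) with hw
  set I : Finset ℤ := Finset.Icc (-(N:ℤ)) N with hI
  have hcover : ball (2:ℂ) R ∩ strip ⊆ ⋃ k ∈ I, (ball (2 + (k:ℝ) * Complex.I) 2 ∪ ball (-1 + (k:ℝ) * Complex.I) 2) := by
    intro z hz
    obtain ⟨hz1, hz2⟩ := hz
    rw [mem_ball, dist_eq_norm] at hz1
    have him : |z.im| < R := by
      have := Complex.abs_im_le_norm (z - 2)
      simp at this
      linarith only [hz1, this]
    have hz2' : |z.re - 1 / 2| < 3 / 2 := hz2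
    rw [abs_lt] at hz2' him
    set k : ℤ := round z.im with hk
    have hk1 : |z.im - k| ≤ 1 / 2 := abs_sub_round z.im
    rw [abs_le] at hk1
    have hkI : k ∈ I := by
      rw [hI, Finset.mem_Icc]
      constructor
      · have : (-(N:ℝ)) ≤ (k:ℝ) := by linarith only [hN1, him, hk1]
        exact_mod_cast this
      · have : (k:ℝ) ≤ (N:ℝ) := by linarith only [hN1, him, hk1]
        exact_mod_cast this
    rw [mem_iUnion₂]
    refine ⟨k, hkI, ?_⟩
    rcases le_or_gt (1/2) z.re with h | h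
    · left
      rw [mem_ball, dist_eq_norm]
      have h1 := Complex.sq_norm (z - (2 + (k:ℝ) * Complex.I))
      rw [Complex.normSq_apply] at h1
      have h2 : (z - (2 + (k:ℝ) * Complex.I)).re = z.re - 2 := by simp
      have h3 : (z - (2 + (k:ℝ) * Complex.I)).im = z.im - k := by simp
      rw [h2, h3] at h1
      have h4 : ‖z - (2 + (k:ℝ) * Complex.I)‖ ^ 2 < 2 ^ 2 := by
        rw [h1]; nlinarith only [hz2', hk1, h]
      exact lt_of_pow_lt_pow_left₀ 2 (by norm_num) h4
    · right
      rw [mem_ball, dist_eq_norm]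
      have h1 := Complex.sq_norm (z - (-1 + (k:ℝ) * Complex.I))
      rw [Complex.normSq_apply] at h1
      have h2 : (z - (-1 + (k:ℝ) * Complex.I)).re = z.re + 1 := by simp
      have h3 : (z - (-1 + (k:ℝ) * Complex.I)).im = z.im - k := by simp
      rw [h2, h3] at h1
      have h4 : ‖z - (-1 + (k:ℝ) * Complex.I)‖ ^ 2 < 2 ^ 2 := by
        rw [h1]; nlinarith only [hz2', hk1, h]
      exact lt_of_pow_lt_pow_left₀ 2 (by norm_num) h4
  calc ∫⁻ z in ball 2 R ∩ strip, w z
      ≤ ∫⁻ z in ⋃ k ∈ I, (ball (2 + (k:ℝ) * Complex.I) 2 ∪ ball (-1 + (k:ℝ) * Complex.I) 2), w z :=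
        lintegral_mono_set hcover
    _ ≤ ∑ k ∈ I, ∫⁻ z in (ball (2 + (k:ℝ) * Complex.I) 2 ∪ ball (-1 + (k:ℝ) * Complex.I) 2), w z := by
        exact lintegral_biUnion_finset_le' I _ w
    _ ≤ ∑ k ∈ I, ENNReal.ofReal (2 * (C * (N + 1))) := by
        apply Finset.sum_le_sum
        intro k hk
        have hkN : |(k:ℝ)| ≤ N := by
          rw [hI, Finset.mem_Icc] at hk
          rw [abs_le]
          constructor
          · have := hk.1; exact_mod_cast this
          · have := hk.2; exact_mod_cast this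
        refine (lintegral_union_le w _ _).trans ?_
        have h1 := hC (2 + (k:ℝ) * Complex.I) (Or.inl (by simp))
        have h2 := hC (-1 + (k:ℝ) * Complex.I) (Or.inr (by simp))
        have h3 : (2 + (k:ℝ) * Complex.I).im = k := by simp
        have h4 : (-1 + (k:ℝ) * Complex.I).im = k := by simp
        rw [h3] at h1
        rw [h4] at h2
        have h5 : ENNReal.ofReal (C * (|(k:ℝ)| + 1)) ≤ ENNReal.ofReal (C * (N + 1)) :=
          ENNReal.ofReal_le_ofReal (mul_le_mul_of_nonneg_left (by linarith only [hkN]) hC0)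
        rw [two_mul, ENNReal.ofReal_add (by positivity) (by positivity)]
        exact add_le_add (h1.trans h5) (h2.trans h5)
    _ = ENNReal.ofReal ((2 * N + 1) * (2 * (C * (N + 1)))) := by
        rw [Finset.sum_const, hI, Int.card_Icc]
        have : ((N:ℤ) + 1 - -(N:ℤ)).toNat = 2 * N + 1 := by omega
        have e3 : (2 * (N:ℝ) + 1) = ((2 * N + 1 : ℕ) : ℝ) := by push_cast; ring
        rw [this, nsmul_eq_mul, e3, ENNReal.ofReal_mul (Nat.cast_nonneg _),
          ENNReal.ofReal_natCast]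
    _ ≤ ENNReal.ofReal (60 * C * R ^ 2) := by
        apply ENNReal.ofReal_le_ofReal
        have h1 : (2 * (N:ℝ) + 1) ≤ 7 * R := by linarith only [hR, hN2]
        have h2 : (N:ℝ) + 1 ≤ 4 * R := by linarith only [hR, hN2]
        have h3 : (2 * (N:ℝ) + 1) * ((N:ℝ) + 1) ≤ (7 * R) * (4 * R) := by
          apply mul_le_mul h1 h2 (by positivity) (by positivity)
        nlinarith only [hC0, h3, mul_le_mul_of_nonneg_left h3 hC0, mul_nonneg hC0 (sq_nonneg R)]

end Pool.Agent.Helper57.Zeta

end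

/-! ### Helper57.Zeta.CircleAvg -/

section

open Complex Filter Topology MeasureTheory Set Metric

open scoped ENNReal

namespace Pool.Agent.Helper57.Zeta

lemma integral_abs_cos : ∫ θ in (0:ℝ)..(2 * Real.pi), |Real.cos θ| = 4 := by
  have hper : Function.Periodic (fun θ => |Real.cos θ|) (2 * Real.pi) := by
    intro θ; simp only [Real.cos_add_two_pi]
  have h1 := hper.intervalIntegral_add_eq 0 (-(Real.pi / 2))
  rw [zero_add] at h1
  rw [h1, show -(Real.pi / 2) + 2 * Real.pi = 3 * Real.pi / 2 by ring]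
  have hc : Continuous (fun θ => |Real.cos θ|) := Real.continuous_cos.abs
  rw [← intervalIntegral.integral_add_adjacent_intervals (b := Real.pi / 2)
    (hc.intervalIntegrable _ _) (hc.intervalIntegrable _ _)]
  have h2 : ∫ θ in (-(Real.pi / 2))..(Real.pi / 2), |Real.cos θ| = 2 := by
    have : ∫ θ in (-(Real.pi / 2))..(Real.pi / 2), |Real.cos θ| =
        ∫ θ in (-(Real.pi / 2))..(Real.pi / 2), Real.cos θ := by
      apply intervalIntegral.integral_congr
      intro θ hθ
      rw [uIcc_of_le (by linarith [Real.pi_pos])] at hθ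
      simp only
      exact abs_of_nonneg (Real.cos_nonneg_of_mem_Icc hθ)
    rw [this, integral_cos]
    simp; norm_num
  have h3 : ∫ θ in (Real.pi / 2)..(3 * Real.pi / 2), |Real.cos θ| = 2 := by
    have : ∫ θ in (Real.pi / 2)..(3 * Real.pi / 2), |Real.cos θ| =
        ∫ θ in (Real.pi / 2)..(3 * Real.pi / 2), -Real.cos θ := by
      apply intervalIntegral.integral_congr
      intro θ hθ
      rw [uIcc_of_le (by linarith only [Real.pi_pos])] at hθ
      simp only
      apply abs_of_nonpos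
      apply Real.cos_nonpos_of_pi_div_two_le_of_le hθ.1
      linarith only [hθ, hθ.2]
    rw [this, intervalIntegral.integral_neg, integral_cos]
    have e : Real.sin (3 * Real.pi / 2) = -1 := by
      rw [show 3 * Real.pi / 2 = Real.pi / 2 + Real.pi by ring, Real.sin_add_pi, Real.sin_pi_div_two]
    rw [e, Real.sin_pi_div_two]; norm_num
  rw [h2, h3]; norm_num

lemma circleAverage_abs_re (c : ℂ) {R : ℝ} (hR : 0 ≤ R) :
    Real.circleAverage (fun z => |(z - c).re|) c R = 2 / Real.pi * R := by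
  rw [Real.circleAverage_def]
  have : ∀ θ : ℝ, |(circleMap c R θ - c).re| = R * |Real.cos θ| := by
    intro θ
    rw [circleMap]
    simp only [add_sub_cancel_left]
    rw [Complex.exp_mul_I]
    have e : ((R:ℂ) * (Complex.cos θ + Complex.sin θ * Complex.I)).re = R * Real.cos θ := by
      rw [Complex.re_ofReal_mul]
      congr 1
      rw [← Complex.ofReal_cos, ← Complex.ofReal_sin, Complex.add_re, Complex.ofReal_re,
        Complex.re_ofReal_mul, Complex.I_re]
      ring
    rw [e, abs_mul, abs_of_nonneg hR]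
  simp only [this]
  rw [intervalIntegral.integral_const_mul, integral_abs_cos]
  have := Real.pi_ne_zero
  simp only [smul_eq_mul]
  field_simp
  ring

lemma circleAverage_eq_Ioo (f : ℂ → ℝ) (c : ℂ) (r : ℝ) :
    Real.circleAverage f c r = (2 * Real.pi)⁻¹ * ∫ θ in Ioo (-Real.pi) Real.pi, f (circleMap c r θ) := by
  rw [Real.circleAverage_def, smul_eq_mul]
  congr 1
  have hper : Function.Periodic (fun θ => f (circleMap c r θ)) (2 * Real.pi) := by
    intro θ; simp only; rw [periodic_circleMap c r θ]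
  have h1 := hper.intervalIntegral_add_eq 0 (-Real.pi)
  rw [zero_add] at h1
  rw [h1, show -Real.pi + 2 * Real.pi = Real.pi by ring,
    intervalIntegral.integral_of_le (by linarith only [Real.pi_pos]), integral_Ioc_eq_integral_Ioo]

lemma integrableOn_Ioo_of_circleIntegrable {f : ℂ → ℝ} {c : ℂ} {r : ℝ}
    (h : CircleIntegrable f c r) :
    IntegrableOn (fun θ => f (circleMap c r θ)) (Ioo (-Real.pi) Real.pi) := by
  have hper : Function.Periodic (fun θ => f (circleMap c r θ)) (2 * Real.pi) := by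
    intro θ; simp only; rw [periodic_circleMap c r θ]
  have h1 : IntervalIntegrable (fun θ => f (circleMap c r θ)) volume (-Real.pi) Real.pi :=
    hper.intervalIntegrable₀ (by positivity) h _ _
  rwa [intervalIntegrable_iff_integrableOn_Ioo_of_le (by linarith [Real.pi_pos])] at h1

/-- the average of log|xi| over the circle of centre 2 and radius R -/
noncomputable def Av (R : ℝ) : ℝ := Real.circleAverage (fun z => Real.log ‖xi z‖) 2 R

lemma Av_upper : ∃ C : ℝ, 0 ≤ C ∧ ∀ R : ℝ, 5 ≤ R → Av R ≤ R / Real.pi * Real.log R + C * R := by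
  obtain ⟨C, hC0, hC⟩ := posLog_xi_le
  refine ⟨3 + 2 * C, by positivity, ?_⟩
  intro R hR
  have hR0 : 0 < R := by linarith
  have hpt : ∀ z ∈ sphere (2:ℂ) |R|, Real.log ‖xi z‖ ≤
      (|(z - 2).re| + 3 / 2) / 2 * Real.log (R + 5) + C * (R + 5 / 2) := by
    intro z hz
    rw [abs_of_pos hR0, mem_sphere, dist_eq_norm] at hz
    have h1 := hC (z - 1 / 2)
    rw [show (1 / 2 : ℂ) + (z - 1 / 2) = z by ring] at h1
    have h2 : Real.log ‖xi z‖ ≤ Real.posLog ‖xi z‖ := by
      rw [Real.posLog_apply]; exact le_max_right _ _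
    have hn : ‖z - 1 / 2‖ ≤ R + 3 / 2 := by
      have e : z - 1 / 2 = (z - 2) + (3 / 2) := by ring
      rw [e]
      have := norm_add_le (z - 2) (3 / 2)
      rw [hz] at this
      norm_num at this ⊢; linarith only [this]
    have hr : |(z - 1 / 2).re| ≤ |(z - 2).re| + 3 / 2 := by
      have e : (z - 1 / 2).re = (z - 2).re + 3 / 2 := by simp; ring
      rw [e]
      have := abs_add_le (z - 2).re (3 / 2)
      rw [abs_of_pos (show (0:ℝ) < 3 / 2 by norm_num)] at this
      exact this
    have hn0 := norm_nonneg (z - 1 / 2)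
    have hl0 : 0 ≤ Real.log (‖z - 1 / 2‖ + 3) := Real.log_nonneg (by linarith only [hn0])
    have hl1 : Real.log (‖z - 1 / 2‖ + 3) ≤ Real.log (R + 5) :=
      Real.log_le_log (by linarith only [hn0]) (by linarith only [hn])
    have h3 : |(z - 1 / 2).re| / 2 * Real.log (‖z - 1 / 2‖ + 3) ≤
        (|(z - 2).re| + 3 / 2) / 2 * Real.log (R + 5) := by
      apply mul_le_mul _ hl1 hl0 (by positivity)
      linarith only [hr]
    have h4 : C * (‖z - 1 / 2‖ + 1) ≤ C * (R + 5 / 2) :=
      mul_le_mul_of_nonneg_left (by linarith only [hn]) hC0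
    linarith only [h1, h2, h3, h4]
  have hg : Continuous (fun z : ℂ => (|(z - 2).re| + 3 / 2) / 2 * Real.log (R + 5) + C * (R + 5 / 2)) := by
    fun_prop
  have hgi : CircleIntegrable (fun z : ℂ => (|(z - 2).re| + 3 / 2) / 2 * Real.log (R + 5) + C * (R + 5 / 2)) 2 R :=
    hg.continuousOn.circleIntegrable hR0.le
  have h1 : Av R ≤ Real.circleAverage (fun z : ℂ => (|(z - 2).re| + 3 / 2) / 2 * Real.log (R + 5) + C * (R + 5 / 2)) 2 R :=
    Real.circleAverage_mono (circleIntegrable_log differentiable_xi 2 R) hgi hpt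
  have hge : (fun z : ℂ => (|(z - 2).re| + 3 / 2) / 2 * Real.log (R + 5) + C * (R + 5 / 2)) =
      fun z : ℂ => (Real.log (R + 5) / 2) • |(z - 2).re| + (3 / 4 * Real.log (R + 5) + C * (R + 5 / 2)) := by
    ext z; simp only [smul_eq_mul]; ring
  have hc1 : Continuous (fun z : ℂ => |(z - 2).re|) := by fun_prop
  have h2 : Real.circleAverage (fun z : ℂ => (|(z - 2).re| + 3 / 2) / 2 * Real.log (R + 5) + C * (R + 5 / 2)) 2 R =
      Real.log (R + 5) / 2 * (2 / Real.pi * R) + (3 / 4 * Real.log (R + 5) + C * (R + 5 / 2)) := by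
    rw [hge]
    rw [Real.circleAverage_fun_add]
    · rw [Real.circleAverage_fun_smul, circleAverage_abs_re 2 hR0.le, Real.circleAverage_const]
      rfl
    · apply Continuous.continuousOn _ |>.circleIntegrable hR0.le
      fun_prop
    · exact circleIntegrable_const _ _ _
  rw [h2] at h1
  have hlog : Real.log (R + 5) ≤ Real.log R + 1 := by
    have h3 : Real.log (R + 5) ≤ Real.log (2 * R) := Real.log_le_log (by linarith only [hR]) (by linarith only [hR])
    rw [Real.log_mul (by norm_num) hR0.ne'] at h3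
    have := Real.log_two_lt_d9
    linarith only [h3, this]
  have hlR : Real.log R ≤ R := by
    have := Real.log_le_sub_one_of_pos hR0; linarith only [this]
  have hpi := Real.pi_gt_three
  have hRpi : R / Real.pi ≤ R / 3 := by
    apply div_le_div_of_nonneg_left hR0.le (by norm_num) hpi.le
  have h5 : Real.log (R + 5) / 2 * (2 / Real.pi * R) = R / Real.pi * Real.log (R + 5) := by
    field_simp
  rw [h5] at h1
  have h6 : R / Real.pi * Real.log (R + 5) ≤ R / Real.pi * (Real.log R + 1) :=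
    mul_le_mul_of_nonneg_left hlog (by positivity)
  nlinarith only [hC0, hR, h1, hlog, hlR, hRpi, h6]

/-- pointwise lower bound on circles centred at 2 -/
lemma log_xi_circle_lower {r : ℝ} (hr : 5 ≤ r) {z : ℂ} (hz : ‖z - 2‖ = r) :
    (|(z - 2).re| - 3 / 2) / 2 * Real.log (r - 3 / 2) - 6 * (r + 3) -
      strip.indicator (fun z => Real.posLog ‖xi z‖⁻¹) z ≤ Real.log ‖xi z‖ := by
  have hl0 : 0 ≤ Real.log (r - 3 / 2) := Real.log_nonneg (by linarith)
  have hlr : Real.log (r - 3 / 2) ≤ r := by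
    have := Real.log_le_sub_one_of_pos (show 0 < r - 3 / 2 by linarith only [hr]); linarith only [this]
  by_cases hs : z ∈ strip
  · rw [indicator_of_mem hs]
    have h1 : |z.re - 1 / 2| < 3 / 2 := hs
    have h2 : |(z - 2).re| ≤ 3 := by
      have e : (z - 2).re = (z.re - 1 / 2) + (-(3 / 2)) := by simp; ring
      rw [e]
      have := abs_add_le (z.re - 1 / 2) (-(3 / 2))
      rw [abs_neg, abs_of_pos (show (0:ℝ) < 3 / 2 by norm_num)] at this
      linarith only [h1, this]
    have h3 := Real.posLog_sub_posLog_inv (x := ‖xi z‖)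
    have h4 : 0 ≤ Real.posLog ‖xi z‖ := Real.posLog_nonneg
    have h5 : (|(z - 2).re| - 3 / 2) / 2 * Real.log (r - 3 / 2) ≤ 1 * r := by
      calc (|(z - 2).re| - 3 / 2) / 2 * Real.log (r - 3 / 2) ≤ 1 * Real.log (r - 3 / 2) := by
            apply mul_le_mul_of_nonneg_right _ hl0; linarith only [h2]
        _ ≤ 1 * r := by linarith only [hlr]
    linarith only [hr, h3, h4, h5]
  · rw [indicator_of_notMem hs]
    have h1 : 3 / 2 ≤ |z.re - 1 / 2| := not_lt.mp hs
    have h2 := log_xi_ge_aux (z := z - 1 / 2) (by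
      have : (z - 1 / 2).re = z.re - 1 / 2 := by simp
      rw [this]; exact h1)
    rw [show (1 / 2 : ℂ) + (z - 1 / 2) = z by ring] at h2
    have hn : ‖z - 1 / 2‖ ≤ r + 3 / 2 := by
      have e : z - 1 / 2 = (z - 2) + (3 / 2) := by ring
      rw [e]
      have := norm_add_le (z - 2) (3 / 2)
      rw [hz] at this
      norm_num at this ⊢; linarith only [this]
    have hn2 : r - 3 / 2 ≤ ‖z - 1 / 2‖ := by
      have e : z - 2 = (z - 1 / 2) + (-(3 / 2)) := by ring
      have := norm_add_le (z - 1 / 2) (-(3 / 2))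
      rw [← e, hz] at this
      norm_num at this ⊢; linarith only [this]
    have hr1 : |(z - 2).re| - 3 / 2 ≤ |(z - 1 / 2).re| := by
      have e : (z - 2).re = (z - 1 / 2).re + (-(3 / 2)) := by simp; ring
      rw [e]
      have := abs_add_le (z - 1 / 2).re (-(3 / 2))
      rw [abs_neg, abs_of_pos (show (0:ℝ) < 3 / 2 by norm_num)] at this
      linarith only [this]
    have h3 : (|(z - 2).re| - 3 / 2) / 2 * Real.log (r - 3 / 2) ≤
        |(z - 1 / 2).re| / 2 * Real.log ‖z - 1 / 2‖ := by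
      calc (|(z - 2).re| - 3 / 2) / 2 * Real.log (r - 3 / 2)
          ≤ |(z - 1 / 2).re| / 2 * Real.log (r - 3 / 2) := by
            apply mul_le_mul_of_nonneg_right _ hl0; linarith only [hr1]
        _ ≤ _ := by
            apply mul_le_mul_of_nonneg_left _ (by positivity)
            exact Real.log_le_log (by linarith only [hr]) hn2
    linarith only [h2, hn, h3]

lemma good_radius (δ : ℝ) (hδ : 0 < δ) (hδ1 : δ < 1) : ∃ C : ℝ, 0 ≤ C ∧ ∀ R : ℝ, 1 ≤ R →
    ∃ r ∈ Ioo ((1 - δ) * R) R,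
      ∫⁻ θ in Ioo (-Real.pi) Real.pi, ENNReal.ofReal
        (strip.indicator (fun z => Real.posLog ‖xi z‖⁻¹) (circleMap 2 r θ)) ≤ ENNReal.ofReal C := by
  obtain ⟨C, hC0, hC⟩ := strip_bound
  have h1δ : 0 < 1 - δ := by linarith
  refine ⟨(C + 1) / (δ * (1 - δ)), by positivity, ?_⟩
  intro R hR
  have hR0 : 0 < R := by linarith only [hδ, hδ1, hR]
  by_contra hcon
  push Not at hcon
  set W : ℂ → ℝ≥0∞ := fun z => ENNReal.ofReal (strip.indicator (fun z => Real.posLog ‖xi z‖⁻¹) z)
    with hW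
  have hWeq : W = strip.indicator (fun z => ENNReal.ofReal (Real.posLog ‖xi z‖⁻¹)) := by
    ext z
    by_cases hz : z ∈ strip
    · simp [hW, hz]
    · simp [hW, hz]
  have hWm : Measurable W := by
    rw [hWeq]
    exact (measurable_neglog differentiable_xi).indicator measurableSet_strip
  have h1 : ∫⁻ z in ball 2 R, W z ≤ ENNReal.ofReal (C * R ^ 2) := by
    rw [hWeq, setLIntegral_indicator measurableSet_strip, inter_comm]
    exact hC R hR
  rw [lintegral_ball_polar W hWm] at h1
  have h2 : ENNReal.ofReal ((C + 1) * R ^ 2) ≤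
      ∫⁻ r in Ioo 0 R, ENNReal.ofReal r * ∫⁻ θ in Ioo (-Real.pi) Real.pi, W (circleMap 2 r θ) := by
    calc ENNReal.ofReal ((C + 1) * R ^ 2)
        = ∫⁻ r in Ioo ((1 - δ) * R) R,
            ENNReal.ofReal (((1 - δ) * R) * ((C + 1) / (δ * (1 - δ)))) := by
          rw [setLIntegral_const, Real.volume_Ioo, ← ENNReal.ofReal_mul (by positivity)]
          congr 1
          field_simp
          ring
      _ ≤ ∫⁻ r in Ioo ((1 - δ) * R) R,
            ENNReal.ofReal r * ∫⁻ θ in Ioo (-Real.pi) Real.pi, W (circleMap 2 r θ) := by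
          apply setLIntegral_mono' measurableSet_Ioo
          intro r hr
          rw [ENNReal.ofReal_mul (by positivity)]
          apply mul_le_mul'
          · exact ENNReal.ofReal_le_ofReal hr.1.le
          · exact (hcon r hr).le
      _ ≤ _ := by
          apply lintegral_mono_set
          intro r hr
          exact ⟨lt_trans (by positivity) hr.1, hr.2⟩
  have h3 := h2.trans h1
  rw [ENNReal.ofReal_le_ofReal_iff (by positivity)] at h3
  nlinarith only [hR0, h3, sq_nonneg R, mul_pos hR0 hR0]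

lemma Av_lower (δ : ℝ) (hδ : 0 < δ) (hδ1 : δ < 1) : ∃ C : ℝ, 0 ≤ C ∧ ∃ R₀ : ℝ, ∀ R : ℝ, R₀ ≤ R →
    (1 - δ) / Real.pi * (R * Real.log R) - C * R ≤ Av R := by
  obtain ⟨C, hC0, hC⟩ := good_radius δ hδ hδ1
  have h1δ : 0 < 1 - δ := by linarith
  set K : ℝ := Real.log (2 / (1 - δ)) with hK
  have hK0 : 0 ≤ K := Real.log_nonneg (by rw [le_div_iff₀ h1δ]; linarith only [hδ, hδ1])
  refine ⟨K + 20 + C, by positivity, max 5 (5 / (1 - δ)), ?_⟩
  intro R hR
  have hR5 : 5 ≤ R := le_trans (le_max_left _ _) hR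
  have hR0 : 0 < R := by linarith
  have hRδ : 5 ≤ (1 - δ) * R := by
    have := le_trans (le_max_right _ _) hR
    rw [div_le_iff₀ h1δ] at this
    linarith only [this]
  obtain ⟨r, hr, hrW⟩ := hC R (by linarith only [hδ, hδ1, hR5])
  have hr5 : 5 ≤ r := by linarith only [hRδ, hr, hr.1]
  have hr0 : 0 < r := by linarith only [hδ, hδ1, hr5]
  have hmono : Av r ≤ Av R :=
    circleAverage_log_mono differentiable_xi (xi_ne_zero_of_one_le_re (by norm_num)) hr0 hr.2.le
  refine le_trans ?_ hmono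
  -- lower bound for Av r
  set Wr : ℝ → ℝ := fun θ => strip.indicator (fun z => Real.posLog ‖xi z‖⁻¹) (circleMap 2 r θ) with hWr
  have hW0 : ∀ θ, 0 ≤ Wr θ := by
    intro θ
    apply indicator_nonneg
    intro z _
    exact Real.posLog_nonneg
  have hWmeas : Measurable Wr := by
    have hm : Measurable (strip.indicator (fun z => Real.posLog ‖xi z‖⁻¹)) := by
      apply Measurable.indicator _ measurableSet_strip
      exact Real.continuous_posLog.measurable.comp (differentiable_xi.continuous.norm.measurable).inv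
    exact hm.comp (continuous_circleMap 2 r).measurable
  have hWint : IntegrableOn Wr (Ioo (-Real.pi) Real.pi) := by
    refine ⟨hWmeas.aestronglyMeasurable, ?_⟩
    rw [hasFiniteIntegral_iff_ofReal (by filter_upwards with θ; exact hW0 θ)]
    exact lt_of_le_of_lt hrW ENNReal.ofReal_lt_top
  have hWle : ∫ θ in Ioo (-Real.pi) Real.pi, Wr θ ≤ C := by
    rw [integral_eq_lintegral_of_nonneg_ae (by filter_upwards with θ; exact hW0 θ)
      hWmeas.aestronglyMeasurable]
    apply ENNReal.toReal_le_of_le_ofReal hC0 hrW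
  set g : ℂ → ℝ := fun z => (|(z - 2).re| - 3 / 2) / 2 * Real.log (r - 3 / 2) - 6 * (r + 3) with hg
  have hgc : Continuous g := by rw [hg]; fun_prop
  have hgi : CircleIntegrable g 2 r := hgc.continuousOn.circleIntegrable hr0.le
  have hG := integrableOn_Ioo_of_circleIntegrable hgi
  have hF := integrableOn_Ioo_of_circleIntegrable (circleIntegrable_log differentiable_xi 2 r)
  have h1 : (∫ θ in Ioo (-Real.pi) Real.pi, g (circleMap 2 r θ)) -
      ∫ θ in Ioo (-Real.pi) Real.pi, Wr θ ≤
      ∫ θ in Ioo (-Real.pi) Real.pi, Real.log ‖xi (circleMap 2 r θ)‖ := by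
    rw [← integral_sub hG hWint]
    apply integral_mono (hG.sub hWint) hF
    intro θ
    simp only
    have := log_xi_circle_lower hr5 (z := circleMap 2 r θ) (by
      rw [circleMap_sub_center, norm_circleMap_zero, abs_of_pos hr0])
    exact this
  have h2 : Real.circleAverage g 2 r - C ≤ Av r := by
    unfold Av
    rw [circleAverage_eq_Ioo, circleAverage_eq_Ioo]
    have h3 : (2 * Real.pi)⁻¹ * C ≤ C := by
      have : (2 * Real.pi)⁻¹ ≤ 1 := by
        rw [inv_le_one₀ (by positivity)]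
        linarith only [hδ, hδ1, Real.pi_gt_three]
      nlinarith only [hδ, hδ1, hC0, this]
    have h4 : (2 * Real.pi)⁻¹ * ((∫ θ in Ioo (-Real.pi) Real.pi, g (circleMap 2 r θ)) - C) ≤
        (2 * Real.pi)⁻¹ * ∫ θ in Ioo (-Real.pi) Real.pi, Real.log ‖xi (circleMap 2 r θ)‖ := by
      apply mul_le_mul_of_nonneg_left _ (by positivity)
      linarith only [hWle, h1]
    rw [mul_sub] at h4
    linarith only [h3, h4]
  have hgav : Real.circleAverage g 2 r = r / Real.pi * Real.log (r - 3 / 2) -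
      (3 / 4 * Real.log (r - 3 / 2) + 6 * (r + 3)) := by
    have hge : g = fun z : ℂ => (Real.log (r - 3 / 2) / 2) • |(z - 2).re| +
        (-(3 / 4 * Real.log (r - 3 / 2) + 6 * (r + 3))) := by
      ext z; simp only [smul_eq_mul, hg]; ring
    rw [hge, Real.circleAverage_fun_add]
    · rw [Real.circleAverage_fun_smul, circleAverage_abs_re 2 hr0.le, Real.circleAverage_const]
      simp only [smul_eq_mul]
      have := Real.pi_ne_zero
      field_simp
      ring
    · apply Continuous.continuousOn _ |>.circleIntegrable hr0.le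
      fun_prop
    · exact circleIntegrable_const _ _ _
  rw [hgav] at h2
  -- final numeric estimates
  have hr32 : (1 - δ) / 2 * R ≤ r - 3 / 2 := by
    have := hr.1
    nlinarith only [hδ, hδ1, hRδ, this]
  have hl1 : Real.log R - K ≤ Real.log (r - 3 / 2) := by
    have h5 : Real.log ((1 - δ) / 2 * R) ≤ Real.log (r - 3 / 2) :=
      Real.log_le_log (by positivity) hr32
    rw [Real.log_mul (by positivity) hR0.ne'] at h5
    have h6 : Real.log ((1 - δ) / 2) = -K := by
      rw [hK, ← Real.log_inv, inv_div]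
    rw [h6] at h5
    linarith only [h5]
  have hl2 : Real.log (r - 3 / 2) ≤ R := by
    have := Real.log_le_sub_one_of_pos (show 0 < r - 3 / 2 by linarith only [hδ, hδ1, hr5])
    linarith only [hδ, hδ1, hr, this, hr.2]
  have hl0 : 0 ≤ Real.log (r - 3 / 2) := Real.log_nonneg (by linarith only [hδ, hδ1, hr5])
  have hpi := Real.pi_gt_three
  have h7 : (1 - δ) / Real.pi * R * Real.log (r - 3 / 2) ≤ r / Real.pi * Real.log (r - 3 / 2) := by
    apply mul_le_mul_of_nonneg_right _ hl0
    rw [div_mul_eq_mul_div]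
    apply div_le_div_of_nonneg_right hr.1.le (by linarith only [hδ, hδ1, hpi])
  have h8 : (1 - δ) / Real.pi * R * (Real.log R - K) ≤ (1 - δ) / Real.pi * R * Real.log (r - 3 / 2) :=
    mul_le_mul_of_nonneg_left hl1 (by positivity)
  have h9 : (1 - δ) / Real.pi * R * K ≤ R * K := by
    apply mul_le_mul_of_nonneg_right _ hK0
    have : (1 - δ) / Real.pi ≤ 1 := by
      rw [div_le_one (by linarith only [hδ, hδ1, hpi])]; linarith only [hδ, hδ1, hpi]
    nlinarith only [hδ, hδ1, hR5, this]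
  have h10 : C ≤ C * R := by nlinarith only [hδ, hδ1, hC0, hR5]
  have hrR := hr.2
  nlinarith only [hδ, hδ1, hr5, h2, hl2, h7, h8, h9, h10, hrR]

end Pool.Agent.Helper57.Zeta

end

/-! ### Helper57.Zeta.Rvm -/

section

open Complex Filter Topology MeasureTheory Set Metric

open Pool.Agent.Helper57.PC

namespace Pool.Agent.Helper57.Zeta

lemma xi_two_ne : xi 2 ≠ 0 := xi_ne_zero_of_one_le_re (by norm_num)

lemma ncount_lower (ε : ℝ) (hε : 0 < ε) (hε1 : ε < 1) : ∃ R₀ : ℝ, ∀ R : ℝ, R₀ ≤ R →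
    (1 - ε) * (R / Real.pi * Real.log R) ≤ ncount xi 2 R := by
  set h : ℝ := ε / 2 with hh
  have h0 : 0 < h := by positivity
  have h1 : h < 1 := by rw [hh]; linarith only [hε1]
  set δ : ℝ := h ^ 2 / 2 with hδ
  have hδ0 : 0 < δ := by positivity
  have hδ1 : δ < 1 := by rw [hδ]; nlinarith only [hε1, hh, h0]
  obtain ⟨C1, hC1, hU⟩ := Av_upper
  obtain ⟨C2, hC2, R2, hL⟩ := Av_lower δ hδ0 hδ1
  -- the error constant
  set C3 : ℝ := (C1 + C2) / h with hC3
  have hC30 : 0 ≤ C3 := by positivity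
  have hlog : Tendsto Real.log atTop atTop := Real.tendsto_log_atTop
  obtain ⟨R3, hR3⟩ := (hlog.eventually_ge_atTop (C3 * Real.pi / h)).exists_forall_of_atTop
  set lam : ℝ := Real.exp h with hlam
  have hlam1 : 1 < lam := by rw [hlam]; exact Real.one_lt_exp_iff.mpr h0
  have hlampos : 0 < lam := by linarith only [hlam1]
  refine ⟨max (max R2 R3) (max (5 * lam) 5), ?_⟩
  intro R hR
  have hRR2 : R2 ≤ R := le_trans (le_trans (le_max_left _ _) (le_max_left _ _)) hR
  have hRR3 : R3 ≤ R := le_trans (le_trans (le_max_right _ _) (le_max_left _ _)) hR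
  have hRl : 5 * lam ≤ R := le_trans (le_trans (le_max_left _ _) (le_max_right _ _)) hR
  have hR5 : 5 ≤ R := le_trans (le_trans (le_max_right _ _) (le_max_right _ _)) hR
  have hR0 : 0 < R := by linarith only [hlam1, hRl]
  have hlogR := hR3 R hRR3
  have hlogR0 : 0 < Real.log R := Real.log_pos (by linarith only [hlam1, hRl])
  have hr5 : 5 ≤ R / lam := by rw [le_div_iff₀ hlampos]; exact hRl
  have hrR : R / lam ≤ R := div_le_self hR0.le hlam1.le
  have hJ := (jensen_compare differentiable_xi xi_two_ne (r := R / lam) (R := R) (by positivity) hrR).2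
  have hlr : Real.log (R / (R / lam)) = h := by
    have : R / (R / lam) = lam := by field_simp
    rw [this, hlam, Real.log_exp]
  rw [hlr] at hJ
  have hU' := hU (R / lam) hr5
  have hL' := hL R hRR2
  unfold Av at hU' hL'
  have hpi := Real.pi_pos
  -- upper for R/lam
  have hlogr : Real.log (R / lam) ≤ Real.log R := Real.log_le_log (by positivity) hrR
  have hU2 : R / lam / Real.pi * Real.log (R / lam) ≤ R / lam / Real.pi * Real.log R :=
    mul_le_mul_of_nonneg_left hlogr (by positivity)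
  have hinv : R / lam ≤ R * (1 - h + h ^ 2 / 2) := by
    rw [div_eq_mul_inv]
    apply mul_le_mul_of_nonneg_left _ hR0.le
    rw [hlam, ← Real.exp_neg]
    -- exp(-h) ≤ 1 - h + h²/2
    have h3 : Real.exp h ≥ 1 + h + h ^ 2 / 2 := Real.quadratic_le_exp_of_nonneg h0.le
    have h4 : Real.exp (-h) * Real.exp h = 1 := by rw [← Real.exp_add]; simp
    have h5 : 0 < Real.exp (-h) := Real.exp_pos _
    have h6 : (1 - h + h ^ 2 / 2) * (1 + h + h ^ 2 / 2) = 1 + h ^ 4 / 4 := by ring
    by_contra hcon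
    push Not at hcon
    have h7 : 0 < 1 - h + h ^ 2 / 2 := by nlinarith only [hε1, hh, h0, hδ, hδ0]
    have h8 : (1 - h + h ^ 2 / 2) * (1 + h + h ^ 2 / 2) < Real.exp (-h) * Real.exp h := by
      calc _ ≤ (1 - h + h ^ 2 / 2) * Real.exp h := mul_le_mul_of_nonneg_left h3 h7.le
        _ < _ := mul_lt_mul_of_pos_right hcon (Real.exp_pos _)
    rw [h6, h4] at h8
    nlinarith only [h0, h8, pow_pos h0 4]
  have hU3 : R / lam / Real.pi * Real.log R ≤ (1 - h + h ^ 2 / 2) * (R / Real.pi * Real.log R) := by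
    calc R / lam / Real.pi * Real.log R ≤ (R * (1 - h + h ^ 2 / 2)) / Real.pi * Real.log R := by
          apply mul_le_mul_of_nonneg_right _ hlogR0.le
          exact div_le_div_of_nonneg_right hinv hpi.le
      _ = _ := by ring
  have hC1R : C1 * (R / lam) ≤ C1 * R := mul_le_mul_of_nonneg_left hrR hC1
  set X : ℝ := R / Real.pi * Real.log R with hX
  have hL2 : (1 - δ) / Real.pi * (R * Real.log R) = (1 - δ) * X := by rw [hX]; ring
  rw [hL2] at hL'
  have hmain : (h - h ^ 2) * X - (C1 + C2) * R ≤ ncount xi 2 R * h := by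
    have : (h - h ^ 2) * X = (1 - δ) * X - (1 - h + h ^ 2 / 2) * X := by rw [hδ]; ring
    rw [this]; linarith only [hJ, hU', hU2, hC1R, hL', hU3]
  have hXR : (C1 + C2) * R ≤ h ^ 2 * X := by
    have h7 : C3 * Real.pi ≤ h * Real.log R := by
      rw [div_le_iff₀ h0] at hlogR; linarith only [hlogR]
    have h8 : C1 + C2 = C3 * h := by rw [hC3]; field_simp
    rw [h8, hX]
    have h9 : C3 ≤ h * Real.log R / Real.pi := by rw [le_div_iff₀ hpi]; exact h7
    calc C3 * h * R ≤ (h * Real.log R / Real.pi) * h * R := by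
          apply mul_le_mul_of_nonneg_right _ hR0.le
          exact mul_le_mul_of_nonneg_right h9 h0.le
      _ = _ := by ring
  have h10 : (h - 2 * h ^ 2) * X ≤ ncount xi 2 R * h := by
    have : (h - 2 * h ^ 2) * X = (h - h ^ 2) * X - h ^ 2 * X := by ring
    rw [this]; linarith only [hmain, hXR]
  have h11 : h * ((1 - ε) * X) ≤ h * ncount xi 2 R := by
    have : h * ((1 - ε) * X) = (h - 2 * h ^ 2) * X := by rw [hh]; ring
    rw [this]; linarith only [hmain, hXR]
  exact le_of_mul_le_mul_left h11 h0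

lemma ncount_upper (ε : ℝ) (hε : 0 < ε) (hε1 : ε < 1) : ∃ R₀ : ℝ, ∀ R : ℝ, R₀ ≤ R →
    ncount xi 2 R ≤ (1 + ε) * (R / Real.pi * Real.log R) := by
  set h : ℝ := ε / 8 with hh
  have h0 : 0 < h := by positivity
  have h1 : h < 1 / 8 := by rw [hh]; linarith only [hε1]
  set δ : ℝ := h ^ 2 with hδ
  have hδ0 : 0 < δ := by positivity
  have hδ1 : δ < 1 := by rw [hδ]; nlinarith only [hε1, hh, h0]
  obtain ⟨C1, hC1, hU⟩ := Av_upper
  obtain ⟨C2, hC2, R2, hL⟩ := Av_lower δ hδ0 hδ1
  set lam : ℝ := Real.exp h with hlam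
  have hlam1 : 1 < lam := by rw [hlam]; exact Real.one_lt_exp_iff.mpr h0
  have hlampos : 0 < lam := by linarith only [hlam1]
  have hlam2 : lam ≤ 1 + h + h ^ 2 := by
    have := Real.abs_exp_sub_one_sub_id_le (x := h) (by rw [abs_of_pos h0]; linarith only [hε, hε1, hh])
    rw [abs_le] at this
    rw [hlam]; linarith only [this, this.2]
  have hlam3 : lam ≤ 2 := by nlinarith only [hε, hε1, hh, hδ1, hlam2]
  set C3 : ℝ := (2 + 2 * C1 + C2) / h with hC3
  have hC30 : 0 ≤ C3 := by positivity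
  have hlog : Tendsto Real.log atTop atTop := Real.tendsto_log_atTop
  obtain ⟨R3, hR3⟩ := (hlog.eventually_ge_atTop (C3 * Real.pi / h)).exists_forall_of_atTop
  refine ⟨max (max R2 R3) 5, ?_⟩
  intro R hR
  have hRR2 : R2 ≤ R := le_trans (le_trans (le_max_left _ _) (le_max_left _ _)) hR
  have hRR3 : R3 ≤ R := le_trans (le_trans (le_max_right _ _) (le_max_left _ _)) hR
  have hR5 : 5 ≤ R := le_trans (le_max_right _ _) hR
  have hR0 : 0 < R := by linarith only [hR5]
  have hlogR := hR3 R hRR3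
  have hlogR0 : 0 < Real.log R := Real.log_pos (by linarith only [hR5])
  have hrR : R ≤ lam * R := by nlinarith only [hε1, hh, h0, hlam1, hR5]
  have hJ := (jensen_compare differentiable_xi xi_two_ne (r := R) (R := lam * R) (by positivity) hrR).1
  have hlr : Real.log (lam * R / R) = h := by
    have : lam * R / R = lam := by field_simp
    rw [this, hlam, Real.log_exp]
  rw [hlr] at hJ
  have hU' := hU (lam * R) (by linarith only [hR5, hrR])
  have hL' := hL R hRR2
  unfold Av at hU' hL'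
  have hpi := Real.pi_pos
  have hpi3 := Real.pi_gt_three
  set X : ℝ := R / Real.pi * Real.log R with hX
  have hX0 : 0 ≤ X := by rw [hX]; positivity
  have hU2 : lam * R / Real.pi * Real.log (lam * R) ≤ lam * X + 2 * R := by
    rw [Real.log_mul hlampos.ne' hR0.ne', hlam, Real.log_exp, ← hlam]
    have e : lam * R / Real.pi * (h + Real.log R) = lam * X + lam * h * R / Real.pi := by
      rw [hX]; ring
    rw [e]
    have h4 : lam * h * R / Real.pi ≤ 2 * R := by
      rw [div_le_iff₀ hpi]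
      have h5 : lam * h ≤ 1 := by nlinarith only [hε, hε1, hh, h0, hδ0, hlam1, hlam2]
      nlinarith only [hε, hε1, hh, h0, hδ0, hδ1, hlam2, hR5, hrR, hpi, hpi3]
    linarith only [h4]
  have hL2 : (1 - δ) / Real.pi * (R * Real.log R) = (1 - δ) * X := by rw [hX]; ring
  rw [hL2] at hL'
  have hC1R : C1 * (lam * R) ≤ 2 * C1 * R := by
    nlinarith only [hε1, hh, h0, hC1, hlam3, hR0, mul_nonneg hC1 hR0.le]
  have hmain : ncount xi 2 R * h ≤ (lam - 1 + δ) * X + (2 + 2 * C1 + C2) * R := by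
    linarith only [hJ, hU', hL', hU2, hC1R]
  have hXR : (2 + 2 * C1 + C2) * R ≤ h ^ 2 * X := by
    have h7 : C3 * Real.pi ≤ h * Real.log R := by
      rw [div_le_iff₀ h0] at hlogR; linarith only [hlogR]
    have h8 : 2 + 2 * C1 + C2 = C3 * h := by rw [hC3]; field_simp
    rw [h8, hX]
    have h9 : C3 ≤ h * Real.log R / Real.pi := by rw [le_div_iff₀ hpi]; exact h7
    calc C3 * h * R ≤ (h * Real.log R / Real.pi) * h * R := by
          apply mul_le_mul_of_nonneg_right _ hR0.le
          exact mul_le_mul_of_nonneg_right h9 h0.le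
      _ = _ := by ring
  have h10 : ncount xi 2 R * h ≤ (h + 3 * h ^ 2) * X := by
    have h12 : (lam - 1 + δ) * X ≤ (h + 2 * h ^ 2) * X := by
      apply mul_le_mul_of_nonneg_right _ hX0
      rw [hδ]; linarith only [hlam2]
    have h13 : (h + 3 * h ^ 2) * X = (h + 2 * h ^ 2) * X + h ^ 2 * X := by ring
    rw [h13]
    linarith only [hJ, hU', hL', hU2, hC1R, hXR, h12]
  have h11 : h * ncount xi 2 R ≤ h * ((1 + ε) * X) := by
    have h14 : h * ((1 + ε) * X) = (h + 3 * h ^ 2) * X + 5 * (h ^ 2 * X) := by rw [hh]; ring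
    rw [h14]
    have h15 := mul_nonneg (sq_nonneg h) hX0
    linarith only [h10, h15]
  exact le_of_mul_le_mul_left h11 h0

lemma isNontrivialZero_iff {ρ : ℂ} : IsNontrivialZero ρ ↔ xi ρ = 0 := by
  rw [xi_eq_zero_iff]
  unfold IsNontrivialZero
  tauto

lemma mult_eq {ρ : ℂ} (h : IsNontrivialZero ρ) : mult ρ = analyticOrderNatAt xi ρ := by
  unfold mult analyticOrderNatAt
  rw [analyticOrderAt_xi h.2.1 h.2.2]

lemma order_one_sub (ρ : ℂ) : analyticOrderNatAt xi (1 - ρ) = analyticOrderNatAt xi ρ := by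
  unfold analyticOrderNatAt
  congr 1
  have h1 : (fun z => xi (1 - z)) = xi := by ext z; exact xi_one_sub z
  have hg : AnalyticAt ℂ (fun z : ℂ => 1 - z) ρ := by fun_prop
  have h2 := analyticOrderAt_comp_of_deriv_ne_zero (f := xi) hg (by
    have : deriv (fun z : ℂ => 1 - z) ρ = -1 := by
      simp
    rw [this]; norm_num)
  have h3 : xi ∘ (fun z : ℂ => 1 - z) = xi := h1
  rw [h3] at h2
  exact h2.symm

/-- all nontrivial zeros with |γ| ≤ T -/
def zsym (T : ℝ) : Set ℂ := {ρ | xi ρ = 0 ∧ |ρ.im| ≤ T}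

lemma zsym_subset (T : ℝ) : zsym T ⊆ zset xi 2 (T + 2) := by
  intro ρ hρ
  refine ⟨hρ.1, ?_⟩
  have h := xi_eq_zero_iff.mp hρ.1
  have h1 := Complex.norm_le_abs_re_add_abs_im (ρ - 2)
  have h2 : (ρ - 2).re = ρ.re - 2 := by simp
  have h3 : (ρ - 2).im = ρ.im := by simp
  rw [h2, h3] at h1
  have h4 : |ρ.re - 2| ≤ 2 := by rw [abs_le]; constructor <;> linarith only [h, h.1, h.2.1]
  linarith only [hρ, h1, h4, hρ.2]

lemma zset_subset_zsym (R : ℝ) : zset xi 2 R ⊆ zsym R := by
  intro ρ hρ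
  refine ⟨hρ.1, ?_⟩
  have := Complex.abs_im_le_norm (ρ - 2)
  have h3 : (ρ - 2).im = ρ.im := by simp
  rw [h3] at this
  exact this.trans hρ.2

lemma zsym_finite (T : ℝ) : (zsym T).Finite :=
  (zset_finite differentiable_xi xi_two_ne 2 (T + 2)).subset (zsym_subset T)

lemma zerosUpTo_subset (T : ℝ) : zerosUpTo T ⊆ zsym T := by
  intro ρ hρ
  exact ⟨isNontrivialZero_iff.mp hρ.1, by rw [abs_of_nonneg hρ.2.1]; exact hρ.2.2⟩

lemma zerosUpTo_finite (T : ℝ) : (zerosUpTo T).Finite := (zsym_finite T).subset (zerosUpTo_subset T)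

/-- the finite set of zeros with ordinates in [0,T] -/
noncomputable def Zf (T : ℝ) : Finset ℂ := (zerosUpTo_finite T).toFinset

lemma mem_Zf {T : ℝ} {ρ : ℂ} : ρ ∈ Zf T ↔ IsNontrivialZero ρ ∧ 0 ≤ ρ.im ∧ ρ.im ≤ T := by
  unfold Zf
  rw [Set.Finite.mem_toFinset]; rfl

/-- N(T) with multiplicity -/
noncomputable def NT (T : ℝ) : ℝ := ∑ ρ ∈ Zf T, (mult ρ : ℝ)

lemma NT_nonneg (T : ℝ) : 0 ≤ NT T := Finset.sum_nonneg fun _ _ => Nat.cast_nonneg _

lemma sum_zsym_le (T : ℝ) :
    ∑ u ∈ (zsym_finite T).toFinset, (analyticOrderNatAt xi u : ℝ) ≤ 2 * NT T := by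
  classical
  set S := (zsym_finite T).toFinset with hS
  have h1 : ∑ u ∈ S.filter (fun u => 0 ≤ u.im), (analyticOrderNatAt xi u : ℝ) = NT T := by
    unfold NT
    apply Finset.sum_congr
    · ext u
      rw [Finset.mem_filter, mem_Zf, hS, Set.Finite.mem_toFinset, isNontrivialZero_iff]
      constructor
      · rintro ⟨⟨h1, h2⟩, h3⟩
        exact ⟨h1, h3, (le_abs_self _).trans h2⟩
      · rintro ⟨h1, h2, h3⟩
        exact ⟨⟨h1, by rw [abs_of_nonneg h2]; exact h3⟩, h2⟩
    · intro u hu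
      rw [mem_Zf] at hu
      rw [mult_eq hu.1]
  have h2 : ∑ u ∈ S.filter (fun u => ¬ 0 ≤ u.im), (analyticOrderNatAt xi u : ℝ) ≤ NT T := by
    rw [← h1]
    have h3 : ∑ u ∈ S.filter (fun u => ¬ 0 ≤ u.im), (analyticOrderNatAt xi u : ℝ) =
        ∑ u ∈ (S.filter (fun u => ¬ 0 ≤ u.im)).image (fun u => 1 - u),
          (analyticOrderNatAt xi u : ℝ) := by
      rw [Finset.sum_image]
      · apply Finset.sum_congr rfl
        intro u _
        rw [order_one_sub]
      · intro a _ b _ hab
        simpa using hab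
    rw [h3]
    apply Finset.sum_le_sum_of_subset_of_nonneg
    · intro v hv
      rw [Finset.mem_image] at hv
      obtain ⟨u, hu, rfl⟩ := hv
      rw [Finset.mem_filter, hS, Set.Finite.mem_toFinset] at hu
      rw [Finset.mem_filter, hS, Set.Finite.mem_toFinset]
      obtain ⟨⟨h4, h5⟩, h6⟩ := hu
      have h7 : (1 - u).im = -u.im := by simp
      refine ⟨⟨?_, ?_⟩, ?_⟩
      · rw [xi_one_sub]; exact h4
      · rw [h7, abs_neg]; exact h5
      · rw [h7]; linarith only [h6, not_le.mp h6]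
    · intro u _ _
      positivity
  rw [← Finset.sum_filter_add_sum_filter_not S (fun u => 0 ≤ u.im)]
  linarith only [h1, h2]

/-- twice the count is at most the symmetric count plus the zeros of height zero -/
lemma two_NT_le (T : ℝ) :
    2 * NT T ≤ ∑ u ∈ (zsym_finite T).toFinset, (analyticOrderNatAt xi u : ℝ) + NT 0 := by
  classical
  set S := (zsym_finite T).toFinset with hS
  have h1 : ∑ u ∈ S.filter (fun u => 0 ≤ u.im), (analyticOrderNatAt xi u : ℝ) = NT T := by
    unfold NT
    apply Finset.sum_congr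
    · ext u
      rw [Finset.mem_filter, mem_Zf, hS, Set.Finite.mem_toFinset, isNontrivialZero_iff]
      constructor
      · rintro ⟨⟨h1, h2⟩, h3⟩
        exact ⟨h1, h3, (le_abs_self _).trans h2⟩
      · rintro ⟨h1, h2, h3⟩
        exact ⟨⟨h1, by rw [abs_of_nonneg h2]; exact h3⟩, h2⟩
    · intro u hu
      rw [mem_Zf] at hu
      rw [mult_eq hu.1]
  have h2 : NT T ≤ ∑ u ∈ S.filter (fun u => ¬ 0 ≤ u.im), (analyticOrderNatAt xi u : ℝ) + NT 0 := by
    have h3 : NT T = ∑ u ∈ (Zf T).filter (fun u => u.im = 0), (mult u : ℝ) +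
        ∑ u ∈ (Zf T).filter (fun u => ¬ u.im = 0), (mult u : ℝ) := by
      unfold NT
      rw [Finset.sum_filter_add_sum_filter_not]
    have h4 : ∑ u ∈ (Zf T).filter (fun u => u.im = 0), (mult u : ℝ) ≤ NT 0 := by
      unfold NT
      apply Finset.sum_le_sum_of_subset_of_nonneg
      · intro u hu
        rw [Finset.mem_filter, mem_Zf] at hu
        rw [mem_Zf]
        exact ⟨hu.1.1, by rw [hu.2], by rw [hu.2]⟩
      · intro u _ _; positivity
    have h5 : ∑ u ∈ (Zf T).filter (fun u => ¬ u.im = 0), (mult u : ℝ) ≤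
        ∑ u ∈ S.filter (fun u => ¬ 0 ≤ u.im), (analyticOrderNatAt xi u : ℝ) := by
      have h6 : ∑ u ∈ (Zf T).filter (fun u => ¬ u.im = 0), (mult u : ℝ) =
          ∑ u ∈ ((Zf T).filter (fun u => ¬ u.im = 0)).image (fun u => 1 - u),
            (analyticOrderNatAt xi u : ℝ) := by
        rw [Finset.sum_image]
        · apply Finset.sum_congr rfl
          intro u hu
          rw [Finset.mem_filter, mem_Zf] at hu
          rw [order_one_sub, mult_eq hu.1.1]
        · intro a _ b _ hab
          simpa using hab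
      rw [h6]
      apply Finset.sum_le_sum_of_subset_of_nonneg
      · intro v hv
        rw [Finset.mem_image] at hv
        obtain ⟨u, hu, rfl⟩ := hv
        rw [Finset.mem_filter, mem_Zf] at hu
        rw [Finset.mem_filter, hS, Set.Finite.mem_toFinset]
        obtain ⟨⟨h7, h8, h9⟩, h10⟩ := hu
        have h11 : (1 - u).im = -u.im := by simp
        refine ⟨⟨?_, ?_⟩, ?_⟩
        · rw [xi_one_sub]; exact isNontrivialZero_iff.mp h7
        · rw [h11, abs_neg, abs_of_nonneg h8]; exact h9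
        · rw [h11]
          have : 0 < u.im := lt_of_le_of_ne h8 (Ne.symm h10)
          linarith only [this]
      · intro u _ _; positivity
    linarith
  rw [← Finset.sum_filter_add_sum_filter_not S (fun u => 0 ≤ u.im)]
  linarith

/-- N(T) ≥ (1-ε) (T/2π) log T -/
theorem NT_lower (ε : ℝ) (hε : 0 < ε) : ∃ T₀ : ℝ, ∀ T : ℝ, T₀ ≤ T →
    (1 - ε) * (T * Real.log T / (2 * Real.pi)) ≤ NT T := by
  rcases le_or_gt 1 ε with h1 | h1
  · refine ⟨1, fun T hT => ?_⟩
    have h2 : 0 ≤ T * Real.log T / (2 * Real.pi) := by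
      have := Real.log_nonneg hT
      have := Real.pi_pos
      positivity
    have := NT_nonneg T
    nlinarith
  obtain ⟨R₀, hR₀⟩ := ncount_lower ε hε h1
  refine ⟨R₀, fun T hT => ?_⟩
  have h2 := hR₀ T hT
  have h3 : ncount xi 2 T ≤ 2 * NT T := by
    rw [ncount_eq differentiable_xi xi_two_ne 2 T]
    refine le_trans ?_ (sum_zsym_le T)
    apply Finset.sum_le_sum_of_subset_of_nonneg
    · intro u hu
      rw [Set.Finite.mem_toFinset] at hu ⊢
      exact zset_subset_zsym T hu
    · intro u _ _; positivity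
  have h4 : (1 - ε) * (T / Real.pi * Real.log T) =
      2 * ((1 - ε) * (T * Real.log T / (2 * Real.pi))) := by
    field_simp
  rw [h4] at h2
  linarith only [h2, h3]

/-- N(T) ≤ (1+ε) (T/2π) log T -/
theorem NT_upper (ε : ℝ) (hε : 0 < ε) : ∃ T₀ : ℝ, ∀ T : ℝ, T₀ ≤ T →
    NT T ≤ (1 + ε) * (T * Real.log T / (2 * Real.pi)) := by
  set e : ℝ := min (ε / 8) (1 / 2) with he
  have he0 : 0 < e := by rw [he]; positivity
  have he1 : e < 1 := lt_of_le_of_lt (min_le_right _ _) (by norm_num)
  have he2 : e ≤ ε / 8 := min_le_left _ _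
  have he3 : e ≤ 1 / 2 := min_le_right _ _
  obtain ⟨R₀, hR₀⟩ := ncount_upper e he0 he1
  set c : ℝ := NT 0 with hc
  have hc0 : 0 ≤ c := NT_nonneg 0
  refine ⟨max (max (R₀ + 2) 5) (max (2 / e) (Real.pi * c / e)), fun T hT => ?_⟩
  have hT1 : R₀ + 2 ≤ T := le_trans (le_trans (le_max_left _ _) (le_max_left _ _)) hT
  have hT2 : 5 ≤ T := le_trans (le_trans (le_max_right _ _) (le_max_left _ _)) hT
  have hT3 : 2 / e ≤ T := le_trans (le_trans (le_max_left _ _) (le_max_right _ _)) hT
  have hT4 : Real.pi * c / e ≤ T := le_trans (le_trans (le_max_right _ _) (le_max_right _ _)) hT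
  have hT0 : 0 < T := by linarith only [he0, he1, hT2]
  have h1 := two_NT_le T
  have h2 : ∑ u ∈ (zsym_finite T).toFinset, (analyticOrderNatAt xi u : ℝ) ≤ ncount xi 2 (T + 2) := by
    rw [ncount_eq differentiable_xi xi_two_ne 2 (T + 2)]
    apply Finset.sum_le_sum_of_subset_of_nonneg
    · intro u hu
      rw [Set.Finite.mem_toFinset] at hu ⊢
      exact zsym_subset T hu
    · intro u _ _; positivity
  have h3 := hR₀ (T + 2) (by linarith only [he0, he1, hT1])
  have hlogT : 1 ≤ Real.log T := by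
    have h5 : Real.log (Real.exp 1) ≤ Real.log T := by
      apply Real.log_le_log (Real.exp_pos 1)
      have := Real.exp_one_lt_d9; linarith only [he0, he1, hT2, this]
    rwa [Real.log_exp] at h5
  have hlog2 : Real.log (T + 2) ≤ (1 + e) * Real.log T := by
    have h6 : T + 2 ≤ T * (1 + e) := by
      rw [div_le_iff₀ he0] at hT3; linarith only [hT3]
    have h7 : Real.log (T + 2) ≤ Real.log (T * (1 + e)) := Real.log_le_log (by linarith only [he0, he1, hT2]) h6
    rw [Real.log_mul hT0.ne' (by linarith only [he0, he1])] at h7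
    have h8 : Real.log (1 + e) ≤ e := by
      have := Real.log_le_sub_one_of_pos (show 0 < 1 + e by linarith only [he0, he1]); linarith only [this]
    nlinarith only [he0, hlogT, h7, h8]
  have hpi := Real.pi_pos
  have h9 : (T + 2) / Real.pi * Real.log (T + 2) ≤ (1 + e) ^ 2 * (T / Real.pi * Real.log T) := by
    have h6 : T + 2 ≤ T * (1 + e) := by
      rw [div_le_iff₀ he0] at hT3; linarith only [hT3]
    have h10 : (T + 2) / Real.pi ≤ T * (1 + e) / Real.pi := div_le_div_of_nonneg_right h6 hpi.le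
    have h11 : 0 ≤ Real.log (T + 2) := Real.log_nonneg (by linarith only [he0, he1, hT2])
    calc (T + 2) / Real.pi * Real.log (T + 2) ≤ T * (1 + e) / Real.pi * ((1 + e) * Real.log T) := by
          apply mul_le_mul h10 hlog2 h11 (by positivity)
      _ = _ := by ring
  have h12 : c ≤ e * (T / Real.pi * Real.log T) := by
    rw [div_le_iff₀ he0] at hT4
    have h13 : c ≤ T * e / Real.pi := by rw [le_div_iff₀ hpi]; linarith only [hT4]
    calc c ≤ T * e / Real.pi * 1 := by linarith only [h13]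
      _ ≤ T * e / Real.pi * Real.log T := by
          apply mul_le_mul_of_nonneg_left hlogT (by positivity)
      _ = _ := by ring
  set X : ℝ := T / Real.pi * Real.log T with hX
  have hX0 : 0 ≤ X := by rw [hX]; positivity
  have h14 : T * Real.log T / (2 * Real.pi) = X / 2 := by rw [hX]; field_simp
  rw [h14]
  have h15 : 2 * NT T ≤ (1 + e) * ((1 + e) ^ 2 * X) + e * X := by
    have h16 : (1 + e) * ((T + 2) / Real.pi * Real.log (T + 2)) ≤ (1 + e) * ((1 + e) ^ 2 * X) :=
      mul_le_mul_of_nonneg_left h9 (by linarith only [he0, he1])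
    linarith only [h1, h2, h3, h12, h16]
  have h17 : (1 + e) * (1 + e) ^ 2 + e ≤ 1 + ε := by nlinarith only [he0, he1, he2, sq_nonneg e]
  have h18 : (1 + e) * ((1 + e) ^ 2 * X) + e * X ≤ (1 + ε) * X := by
    have : (1 + e) * ((1 + e) ^ 2 * X) + e * X = ((1 + e) * (1 + e) ^ 2 + e) * X := by ring
    rw [this]
    exact mul_le_mul_of_nonneg_right h17 hX0
  linarith only [h15, h18]

end Pool.Agent.Helper57.Zeta

end

/-! ### Helper57.PC.Count -/

section

open Filter Topology MeasureTheory Set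

open Pool.Agent.Helper57.Zeta

namespace Pool.Agent.Helper57.PC

/-- normalised difference of ordinates -/
noncomputable def nd (T : ℝ) (p : ℂ × ℂ) : ℝ := (p.1.im - p.2.im) * Real.log T / (2 * Real.pi)

open Classical in
lemma pairCount_eq (T a b : ℝ) :
    pairCount T a b = ∑ p ∈ Zf T ×ˢ Zf T,
      if nd T p ∈ Icc a b then (mult p.1 : ℝ) * (mult p.2 : ℝ) else 0 := by
  unfold pairCount
  rw [finsum_mem_eq_sum_of_inter_support_eq
    (t := (Zf T ×ˢ Zf T).filter (fun p => nd T p ∈ Icc a b))]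
  · rw [Finset.sum_filter]
  · ext p
    simp only [mem_inter_iff, mem_ofPred_eq, Finset.coe_filter, Finset.mem_product]
    constructor
    · rintro ⟨⟨h1, h2, h3⟩, h4⟩
      refine ⟨⟨⟨mem_Zf.mpr h1, mem_Zf.mpr h2⟩, h3⟩, h4⟩
    · rintro ⟨⟨⟨h1, h2⟩, h3⟩, h4⟩
      exact ⟨⟨mem_Zf.mp h1, mem_Zf.mp h2, h3⟩, h4⟩

lemma pairCount_nonneg (T a b : ℝ) : 0 ≤ pairCount T a b := by
  classical
  rw [pairCount_eq]
  apply Finset.sum_nonneg
  intro p _
  split_ifs <;> positivity

lemma pairCount_mono (T : ℝ) {a b a' b' : ℝ} (ha : a' ≤ a) (hb : b ≤ b') :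
    pairCount T a b ≤ pairCount T a' b' := by
  classical
  rw [pairCount_eq, pairCount_eq]
  apply Finset.sum_le_sum
  intro p _
  by_cases h : nd T p ∈ Icc a b
  · rw [if_pos h, if_pos ⟨ha.trans h.1, h.2.trans hb⟩]
  · rw [if_neg h]
    split_ifs <;> positivity

lemma pairCount_split (T : ℝ) (a b c : ℝ) :
    pairCount T a c ≤ pairCount T a b + pairCount T b c := by
  classical
  rw [pairCount_eq, pairCount_eq, pairCount_eq, ← Finset.sum_add_distrib]
  apply Finset.sum_le_sum
  intro p _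
  have hm : (0:ℝ) ≤ (mult p.1 : ℝ) * (mult p.2 : ℝ) := by positivity
  by_cases h : nd T p ∈ Icc a c
  · rw [if_pos h]
    rcases le_total (nd T p) b with h1 | h1
    · rw [if_pos (show nd T p ∈ Icc a b from ⟨h.1, h1⟩)]
      split_ifs <;> linarith
    · rw [if_pos (show nd T p ∈ Icc b c from ⟨h1, h.2⟩)]
      split_ifs <;> linarith
  · rw [if_neg h]
    split_ifs <;> linarith

lemma pairCount_neg (T a b : ℝ) : pairCount T (-b) (-a) = pairCount T a b := by
  classical
  rw [pairCount_eq, pairCount_eq]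
  have hnd : ∀ p : ℂ × ℂ, nd T p.swap = - nd T p := by
    intro p; unfold nd; simp only [Prod.fst_swap, Prod.snd_swap]; ring
  refine Finset.sum_bij' (fun p _ => p.swap) (fun p _ => p.swap) ?_ ?_ ?_ ?_ ?_
  · intro p hp
    rw [Finset.mem_product] at hp ⊢
    exact ⟨hp.2, hp.1⟩
  · intro p hp
    rw [Finset.mem_product] at hp ⊢
    exact ⟨hp.2, hp.1⟩
  · intro p _; exact Prod.swap_swap p
  · intro p _; exact Prod.swap_swap p
  · intro p _
    have h1 : nd T p ∈ Icc (-b) (-a) ↔ nd T p.swap ∈ Icc a b := by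
      rw [hnd]
      constructor
      · rintro ⟨h1, h2⟩; exact ⟨by linarith, by linarith⟩
      · rintro ⟨h1, h2⟩; exact ⟨by linarith, by linarith⟩
    by_cases h : nd T p ∈ Icc (-b) (-a)
    · rw [if_pos h, if_pos (h1.mp h)]
      simp only [Prod.fst_swap, Prod.snd_swap]; ring
    · rw [if_neg h, if_neg (fun h2 => h (h1.mpr h2))]

/-- the normalisation -/
noncomputable def SN (T : ℝ) : ℝ := T * Real.log T / (2 * Real.pi)

end Pool.Agent.Helper57.PC

end

/-! ### Helper57.PC.Sinc -/

section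

open MeasureTheory Set

namespace Pool.Agent.Helper57.PC

/-- sinc squared -/
noncomputable def sq (u : ℝ) : ℝ := (Real.sin (Real.pi * u) / (Real.pi * u)) ^ 2

lemma pcDensity_eq (u : ℝ) : pcDensity u = 1 - sq u := rfl

lemma sq_nonneg' (u : ℝ) : 0 ≤ sq u := sq_nonneg _

lemma sq_le_one (u : ℝ) : sq u ≤ 1 := by
  unfold sq
  rw [sq_le_one_iff_abs_le_one, abs_div]
  rcases eq_or_ne (Real.pi * u) 0 with h | h
  · rw [h]; simp
  · rw [div_le_one (abs_pos.mpr h)]
    exact Real.abs_sin_le_abs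

lemma measurable_sq : Measurable sq := by
  unfold sq
  fun_prop

lemma ii_of_bdd {f : ℝ → ℝ} (hm : Measurable f) (hb : ∀ x, ‖f x‖ ≤ 1) (a b : ℝ) :
    IntervalIntegrable f volume a b := by
  have h1 : IntervalIntegrable (fun _ : ℝ => (1:ℝ)) volume a b := intervalIntegrable_const
  apply h1.mono_fun hm.aestronglyMeasurable
  filter_upwards with u
  rw [norm_one]
  exact hb u

lemma norm_sq_le_one (u : ℝ) : ‖sq u‖ ≤ 1 := by
  rw [Real.norm_of_nonneg (sq_nonneg' u)]
  exact sq_le_one u

lemma intervalIntegrable_sq (a b : ℝ) : IntervalIntegrable sq volume a b :=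
  ii_of_bdd measurable_sq norm_sq_le_one a b

lemma pcDensity_nonneg (u : ℝ) : 0 ≤ pcDensity u := by
  rw [pcDensity_eq]; linarith [sq_le_one u]

lemma pcDensity_le_one (u : ℝ) : pcDensity u ≤ 1 := by
  rw [pcDensity_eq]; linarith [sq_nonneg' u]

lemma intervalIntegrable_pcDensity (a b : ℝ) : IntervalIntegrable pcDensity volume a b := by
  have : pcDensity = fun u => 1 - sq u := rfl
  rw [this]
  exact intervalIntegrable_const.sub (intervalIntegrable_sq a b)

/-- The Fejér kernel identity as a finite trigonometric sum: 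
(sin (π n x))² / (sin (π x))² integrates to n over a period. We use the form
∫_{-1/2}^{1/2} |∑_{k<n} e(kx)|² dx = n. -/
lemma fejer_integral (n : ℕ) :
    ∫ x in (-(1/2):ℝ)..(1/2), ‖∑ k ∈ Finset.range n, Complex.exp (2 * Real.pi * Complex.I * k * x)‖ ^ 2
      = n := by
  -- expand the square
  have e1 : ∀ x : ℝ, ((‖∑ k ∈ Finset.range n, Complex.exp (2 * Real.pi * Complex.I * k * x)‖ ^ 2 : ℝ) : ℂ) =
      ∑ k ∈ Finset.range n, ∑ l ∈ Finset.range n,
        Complex.exp (2 * Real.pi * Complex.I * ((k:ℂ) - l) * x) := by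
    intro x
    rw [← Complex.normSq_eq_norm_sq, ← Complex.mul_conj, map_sum, Finset.sum_mul_sum]
    apply Finset.sum_congr rfl; intro k _
    apply Finset.sum_congr rfl; intro l _
    rw [← Complex.exp_conj, ← Complex.exp_add]
    congr 1
    simp only [map_mul, Complex.conj_ofReal, Complex.conj_I, map_natCast, map_ofNat]
    ring
  have e2 : ∀ m : ℤ, ∫ x in (-(1/2):ℝ)..(1/2), Complex.exp (2 * Real.pi * Complex.I * (m:ℂ) * x) =
      if m = 0 then 1 else 0 := by
    intro m
    split_ifs with h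
    · rw [h]; simp; norm_num
    · have hc : (2 * Real.pi * Complex.I * (m:ℂ)) ≠ 0 := by
        have : (m:ℂ) ≠ 0 := by exact_mod_cast h
        have hpi : (Real.pi : ℂ) ≠ 0 := by exact_mod_cast Real.pi_ne_zero
        simp [this, hpi]
      rw [integral_exp_mul_complex hc]
      have h1 : Complex.exp (2 * Real.pi * Complex.I * (m:ℂ) * ((1/2 : ℝ):ℂ)) =
          Complex.exp (2 * Real.pi * Complex.I * (m:ℂ) * ((-(1/2) : ℝ):ℂ)) := by
        have : 2 * Real.pi * Complex.I * (m:ℂ) * ((1/2 : ℝ):ℂ) =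
            2 * Real.pi * Complex.I * (m:ℂ) * ((-(1/2) : ℝ):ℂ) + m * (2 * Real.pi * Complex.I) := by
          push_cast; ring
        rw [this]
        exact Complex.exp_periodic.int_mul m _
      rw [h1]; simp
  have e3 : ((∫ x in (-(1/2):ℝ)..(1/2),
      ‖∑ k ∈ Finset.range n, Complex.exp (2 * Real.pi * Complex.I * k * x)‖ ^ 2 : ℝ) : ℂ) = (n : ℂ) := by
    rw [← intervalIntegral.integral_ofReal]
    simp only [e1]
    rw [intervalIntegral.integral_finsetSum]
    · have : ∀ k ∈ Finset.range n, ∫ x in (-(1/2):ℝ)..(1/2), ∑ l ∈ Finset.range n,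
          Complex.exp (2 * Real.pi * Complex.I * ((k:ℂ) - l) * x) = 1 := by
        intro k hk
        rw [intervalIntegral.integral_finsetSum]
        · have e4 : ∀ l ∈ Finset.range n, ∫ x in (-(1/2):ℝ)..(1/2),
              Complex.exp (2 * Real.pi * Complex.I * ((k:ℂ) - l) * x) =
              if l = k then 1 else 0 := by
            intro l _
            have := e2 ((k:ℤ) - l)
            push_cast at this
            rw [this]
            by_cases h : l = k
            · rw [h]; simp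
            · rw [if_neg h, if_neg]
              intro h2; apply h; omega
          rw [Finset.sum_congr rfl e4]
          simp [Finset.mem_range.mp hk]
        · intro l _
          apply Continuous.intervalIntegrable
          fun_prop
      rw [Finset.sum_congr rfl this]
      simp
    · intro k _
      apply Continuous.intervalIntegrable
      fun_prop
  exact_mod_cast e3

/-- pointwise closed form of the Fejér sum -/
lemma fejer_pointwise (n : ℕ) (x : ℝ) (hx : Real.sin (Real.pi * x) ≠ 0) :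
    ‖∑ k ∈ Finset.range n, Complex.exp (2 * Real.pi * Complex.I * k * x)‖ ^ 2 =
      Real.sin (Real.pi * n * x) ^ 2 / Real.sin (Real.pi * x) ^ 2 := by
  set q : ℂ := Complex.exp (2 * Real.pi * Complex.I * x) with hq
  have hterm : ∀ k : ℕ, Complex.exp (2 * Real.pi * Complex.I * k * x) = q ^ k := by
    intro k
    rw [hq, ← Complex.exp_nat_mul]; congr 1; ring
  have hnorm : ∀ y : ℝ, ‖Complex.exp (2 * Real.pi * Complex.I * y) - 1‖ ^ 2 =
      4 * Real.sin (Real.pi * y) ^ 2 := by
    intro y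
    have h1 : Complex.exp (2 * Real.pi * Complex.I * y) =
        ((Real.cos (2 * (Real.pi * y)) : ℝ) : ℂ) + (Real.sin (2 * (Real.pi * y)) : ℝ) * Complex.I := by
      rw [show (2 * Real.pi * Complex.I * y : ℂ) = ((2 * (Real.pi * y) : ℝ) : ℂ) * Complex.I by
        push_cast; ring, Complex.exp_mul_I]
      push_cast; rfl
    rw [h1, ← Complex.normSq_eq_norm_sq, Complex.normSq_apply]
    simp only [Complex.sub_re, Complex.add_re, Complex.ofReal_re, Complex.mul_re, Complex.I_re,
      mul_zero, Complex.ofReal_im, Complex.I_im, mul_one, sub_self, add_zero, Complex.one_re,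
      Complex.sub_im, Complex.add_im, Complex.mul_im, zero_add, Complex.one_im, sub_zero]
    have h2 := Real.sin_sq_add_cos_sq (2 * (Real.pi * y))
    have h3 : Real.cos (2 * (Real.pi * y)) = 1 - 2 * Real.sin (Real.pi * y) ^ 2 := by
      rw [Real.cos_two_mul, Real.cos_sq']; ring
    nlinarith
  have hq1 : q ≠ 1 := by
    intro h
    have := hnorm x
    rw [← hq, h] at this
    simp at this
    exact hx this
  rw [Finset.sum_congr rfl fun k _ => hterm k, geom_sum_eq hq1, norm_div, div_pow]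
  have h4 : ‖q ^ n - 1‖ ^ 2 = 4 * Real.sin (Real.pi * n * x) ^ 2 := by
    have : q ^ n = Complex.exp (2 * Real.pi * Complex.I * ((n * x : ℝ) : ℂ)) := by
      rw [hq, ← Complex.exp_nat_mul]; congr 1; push_cast; ring
    rw [this, hnorm]; congr 3; ring
  rw [h4, hnorm]
  field_simp

/-- sin(y)² ≥ y²/(1+y²) type inequality: 1/sin² y ≤ 1/y² + 1 on (0, π/2]. -/
lemma inv_sin_sq_le {y : ℝ} (hy : y ≠ 0) (hy2 : |y| ≤ Real.pi / 2) :
    1 / Real.sin y ^ 2 ≤ 1 / y ^ 2 + 1 := by
  -- reduce to y > 0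
  wlog h : 0 < y with H
  · have := H (y := -y) (neg_ne_zero.mpr hy) (by rwa [abs_neg]) (by
      rcases lt_or_gt_of_ne hy with h1 | h1
      · linarith only [h1]
      · exact absurd h1 h)
    simpa using this
  rw [abs_of_pos h] at hy2
  -- use y ≤ tan y, i.e. cos y ≤ sin y / y
  have hs : 0 < Real.sin y := Real.sin_pos_of_pos_of_lt_pi h (by linarith [Real.pi_pos])
  have hcos : y * Real.cos y ≤ Real.sin y := by
    rcases eq_or_lt_of_le hy2 with h1 | h1
    · rw [h1, Real.cos_pi_div_two, mul_zero]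
      rw [h1] at hs; exact hs.le
    · have hc : 0 < Real.cos y := Real.cos_pos_of_mem_Ioo ⟨by linarith [Real.pi_pos], h1⟩
      have := Real.le_tan h.le h1
      rw [Real.tan_eq_sin_div_cos, le_div_iff₀ hc] at this
      exact this
  have hcos0 : 0 ≤ Real.cos y := Real.cos_nonneg_of_mem_Icc ⟨by linarith [Real.pi_pos], hy2⟩
  have h2 := Real.sin_sq_add_cos_sq y
  have h3 : (y * Real.cos y) ^ 2 ≤ Real.sin y ^ 2 := by
    apply pow_le_pow_left₀ (by positivity) hcos
  rw [div_add_one (by positivity), div_le_div_iff₀ (by positivity) (by positivity)]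
  nlinarith only [h2, h3]

/-- ∫_{-N/2}^{N/2} sinc² ≥ 1 - 1/N. -/
lemma integral_sq_ge (N : ℕ) (hN : 0 < N) :
    1 - 1 / (N:ℝ) ≤ ∫ u in (-((N:ℝ)/2))..((N:ℝ)/2), sq u := by
  have hN0 : (0:ℝ) < N := by exact_mod_cast hN
  have hsub : ∫ u in (-((N:ℝ)/2))..((N:ℝ)/2), sq u =
      N * ∫ x in (-(1/2):ℝ)..(1/2), sq (N * x) := by
    have := intervalIntegral.integral_comp_mul_left (a := (-(1/2):ℝ)) (b := 1/2) (fun u => sq u) hN0.ne'
    rw [this, smul_eq_mul, ← mul_assoc, mul_inv_cancel₀ hN0.ne', one_mul]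
    congr 1 <;> ring
  have hpt : ∀ x ∈ Icc (-(1/2):ℝ) (1/2), x ≠ 0 →
      ‖∑ k ∈ Finset.range N, Complex.exp (2 * Real.pi * Complex.I * k * x)‖ ^ 2 ≤
        (N:ℝ) ^ 2 * sq (N * x) + 1 := by
    intro x hx hx0
    have hpx : |Real.pi * x| ≤ Real.pi / 2 := by
      rw [abs_mul, abs_of_pos Real.pi_pos]
      have : |x| ≤ 1 / 2 := abs_le.mpr hx
      nlinarith only [this, Real.pi_pos]
    have hpx0 : Real.pi * x ≠ 0 := mul_ne_zero Real.pi_ne_zero hx0
    have hsin : Real.sin (Real.pi * x) ≠ 0 := by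
      intro h
      have := Real.sin_eq_zero_iff_of_lt_of_lt (x := Real.pi * x)
        (by rw [abs_le] at hpx; linarith only [hpx, Real.pi_pos, hpx.1])
        (by rw [abs_le] at hpx; linarith only [hpx, Real.pi_pos, hpx.2])
      exact hpx0 (this.mp h)
    rw [fejer_pointwise N x hsin]
    have h1 := inv_sin_sq_le hpx0 hpx
    set s := Real.sin (Real.pi * N * x) ^ 2 with hs
    have hs0 : 0 ≤ s := sq_nonneg _
    have hs1 : s ≤ 1 := by rw [hs]; exact Real.sin_sq_le_one _
    have h2 : (N:ℝ) ^ 2 * sq (N * x) = s / (Real.pi * x) ^ 2 := by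
      unfold sq
      rw [hs, show Real.pi * (N * x) = Real.pi * N * x by ring]
      field_simp
    rw [h2]
    calc s / Real.sin (Real.pi * x) ^ 2 = s * (1 / Real.sin (Real.pi * x) ^ 2) := by ring
      _ ≤ s * (1 / (Real.pi * x) ^ 2 + 1) := mul_le_mul_of_nonneg_left h1 hs0
      _ = s / (Real.pi * x) ^ 2 + s := by ring
      _ ≤ s / (Real.pi * x) ^ 2 + 1 := by linarith only [hs1]
  have hint : IntervalIntegrable (fun x => (N:ℝ) ^ 2 * sq (N * x) + 1) volume (-(1/2)) (1/2) := by
    apply IntervalIntegrable.add _ intervalIntegrable_const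
    apply IntervalIntegrable.const_mul
    exact ii_of_bdd (measurable_sq.comp (measurable_const_mul _)) (fun x => norm_sq_le_one _) _ _
  have hmono : ∫ x in (-(1/2):ℝ)..(1/2),
      ‖∑ k ∈ Finset.range N, Complex.exp (2 * Real.pi * Complex.I * k * x)‖ ^ 2 ≤
      ∫ x in (-(1/2):ℝ)..(1/2), ((N:ℝ) ^ 2 * sq (N * x) + 1) := by
    apply intervalIntegral.integral_mono_ae_restrict (by norm_num)
    · apply Continuous.intervalIntegrable
      fun_prop
    · exact hint
    · have h0 : ∀ᵐ x : ℝ ∂(volume.restrict (Icc (-(1/2):ℝ) (1/2))), x ≠ 0 :=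
        ae_restrict_of_ae (by
          rw [ae_iff]
          simp)
      filter_upwards [h0, ae_restrict_mem measurableSet_Icc] with x h1 h2
      exact hpt x h2 h1
  rw [fejer_integral N] at hmono
  rw [intervalIntegral.integral_add] at hmono
  · rw [intervalIntegral.integral_const_mul] at hmono
    simp only [intervalIntegral.integral_const, smul_eq_mul, mul_one] at hmono
    rw [hsub]
    have h3 : (N:ℝ) ≤ N * (N * ∫ x in (-(1/2):ℝ)..(1/2), sq (N * x)) + 1 := by
      calc (N:ℝ) ≤ (N:ℝ) ^ 2 * (∫ x in (-(1/2):ℝ)..(1/2), sq (N * x)) + (1 / 2 - -(1/2)) := hmono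
        _ = _ := by ring
    have h4 : 1 ≤ (N * ∫ x in (-(1/2):ℝ)..(1/2), sq (N * x)) + 1 / N := by
      have h5 : (N:ℝ) * 1 ≤ N * ((N * ∫ x in (-(1/2):ℝ)..(1/2), sq (N * x)) + 1 / N) := by
        rw [mul_add, mul_one_div, div_self hN0.ne', mul_one]; exact h3
      exact le_of_mul_le_mul_left h5 hN0
    linarith only [h4]
  · apply IntervalIntegrable.const_mul
    exact ii_of_bdd (measurable_sq.comp (measurable_const_mul _)) (fun x => norm_sq_le_one _) _ _
  · exact intervalIntegrable_const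

lemma sq_even (u : ℝ) : sq (-u) = sq u := by
  unfold sq
  rw [show Real.pi * -u = -(Real.pi * u) by ring, Real.sin_neg, neg_div_neg_eq]

end Pool.Agent.Helper57.PC

end

/-! ### Helper57.PC.UpperHalf -/

section

open Filter Topology MeasureTheory Set

open Pool.Agent.Helper57.Zeta

namespace Pool.Agent.Helper57.PC

lemma SN_pos {T : ℝ} (hT : 1 < T) : 0 < SN T := by
  unfold SN
  have := Real.log_pos hT
  have := Real.pi_pos
  positivity

end Pool.Agent.Helper57.PC

end

/-! ### Helper57.LH.ZetaBd -/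

section

namespace Pool.Agent.Helper57.LH

open Complex Set MeasureTheory Filter Topology

open Pool.Agent.Helper57.Zeta

/-- the entire function (s-1)ζ(s) (in the right half plane) -/
noncomputable def Zt (s : ℂ) : ℂ := xi s * ((Real.pi : ℂ) ^ (s / 2) * (Gamma (1 + s / 2))⁻¹ / 2)

lemma differentiable_Zt : Differentiable ℂ Zt := by
  unfold Zt
  have h1 : Differentiable ℂ (fun s : ℂ => (Real.pi : ℂ) ^ (s / 2)) := by
    intro s
    exact (differentiableAt_id.div_const 2).const_cpow (Or.inl (by exact_mod_cast Real.pi_ne_zero))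
  have h2 : Differentiable ℂ (fun s : ℂ => (Gamma (1 + s / 2))⁻¹) :=
    Complex.differentiable_one_div_Gamma.comp (by fun_prop)
  exact differentiable_xi.mul ((h1.mul h2).div_const 2)

lemma Zt_eq {s : ℂ} (h0 : 0 < s.re) (h1 : s ≠ 1) : Zt s = (s - 1) * riemannZeta s := by
  unfold Zt
  rw [xi_eq_zeta h0 h1, Gammaℝ_def, add_comm (1:ℂ), Complex.Gamma_add_one (s / 2) (by
    intro h; rw [div_eq_zero_iff] at h; rcases h with h | h
    · rw [h] at h0; simp at h0
    · norm_num at h)]
  have hG : Gamma (s / 2) ≠ 0 := Complex.Gamma_ne_zero_of_re_pos (by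
    rw [show s / 2 = ((1/2 : ℝ) : ℂ) * s by push_cast; ring, Complex.re_ofReal_mul]; linarith)
  have hs0 : s ≠ 0 := by rintro rfl; simp at h0
  have hpi : (Real.pi : ℂ) ≠ 0 := by exact_mod_cast Real.pi_ne_zero
  have e : (Real.pi : ℂ) ^ (-s / 2) * (Real.pi : ℂ) ^ (s / 2) = 1 := by
    rw [← Complex.cpow_add _ _ hpi]
    rw [show -s / 2 + s / 2 = 0 by ring, Complex.cpow_zero]
  calc s * (s - 1) * ((Real.pi : ℂ) ^ (-s / 2) * Gamma (s / 2) * riemannZeta s) *
      ((Real.pi : ℂ) ^ (s / 2) * (s / 2 * Gamma (s / 2))⁻¹ / 2)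
      = (s - 1) * riemannZeta s * ((Real.pi : ℂ) ^ (-s / 2) * (Real.pi : ℂ) ^ (s / 2)) * (s * Gamma (s / 2) * (s / 2 * Gamma (s / 2))⁻¹ / 2) := by ring
    _ = (s - 1) * riemannZeta s * 1 * 1 := by
        rw [e]
        congr 1
        field_simp
    _ = _ := by ring

/-- the remainder integral -/
noncomputable def Jf1 (s : ℂ) : ℂ := ∫ t in Ioi (1:ℝ), ((Int.fract t : ℝ) : ℂ) * (t:ℂ) ^ (-(s + 1))

lemma norm_fr (s : ℂ) {t : ℝ} (ht : 1 < t) : ‖((Int.fract t : ℝ) : ℂ) * (t:ℂ) ^ (-(s + 1))‖ ≤ t ^ (-(s.re + 1)) := by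
  rw [norm_mul, Complex.norm_cpow_eq_rpow_re_of_pos (by linarith), Complex.norm_real,
    Real.norm_of_nonneg (Int.fract_nonneg t)]
  have h1 := (Int.fract_lt_one t).le
  have h2 : 0 ≤ t ^ ((-(s + 1)).re) := Real.rpow_nonneg (by linarith only [ht]) _
  have e : (-(s + 1)).re = -(s.re + 1) := by simp
  rw [e] at h2 ⊢
  calc Int.fract t * t ^ (-(s.re + 1)) ≤ 1 * t ^ (-(s.re + 1)) := by gcongr
    _ = _ := one_mul _

lemma aesm_fr (s : ℂ) : AEStronglyMeasurable (fun t : ℝ => ((Int.fract t : ℝ) : ℂ) * (t:ℂ) ^ (-(s + 1))) (volume.restrict (Ioi 1)) := by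
  apply AEStronglyMeasurable.mul
  · apply Measurable.aestronglyMeasurable
    exact Complex.measurable_ofReal.comp measurable_fract
  · apply ContinuousOn.aestronglyMeasurable _ measurableSet_Ioi
    intro x hx
    have hx1 : (1:ℝ) < x := hx
    exact (Complex.continuousAt_ofReal_cpow_const _ _ (Or.inr (by linarith))).continuousWithinAt

lemma integrableOn_fr {s : ℂ} (hs : 0 < s.re) :
    IntegrableOn (fun t : ℝ => ((Int.fract t : ℝ) : ℂ) * (t:ℂ) ^ (-(s + 1))) (Ioi 1) := by
  refine (integrableOn_Ioi_rpow_of_lt (a := -(s.re + 1)) (by linarith only [hs]) one_pos).mono' (aesm_fr s) ?_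
  filter_upwards [ae_restrict_mem measurableSet_Ioi] with t ht
  exact norm_fr s ht

lemma norm_Jf1_le {s : ℂ} (hs : 0 < s.re) : ‖Jf1 s‖ ≤ 1 / s.re := by
  unfold Jf1
  refine (norm_integral_le_of_norm_le (integrableOn_Ioi_rpow_of_lt (a := -(s.re + 1)) (by linarith only [hs]) one_pos) (by
    filter_upwards [ae_restrict_mem measurableSet_Ioi] with t ht
    exact norm_fr s ht)).trans ?_
  rw [integral_Ioi_rpow_of_lt (by linarith) one_pos]
  rw [Real.one_rpow, show -(s.re + 1) + 1 = -s.re by ring, neg_div_neg_eq]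

lemma differentiableOn_Jf1 : DifferentiableOn ℂ Jf1 {s | 0 < s.re} := by
  intro s0 hs0
  have hs0' : 0 < s0.re := hs0
  apply DifferentiableAt.differentiableWithinAt
  have key := hasDerivAt_integral_of_dominated_loc_of_deriv_le (μ := volume.restrict (Ioi (1:ℝ)))
      (F := fun s (t:ℝ) => ((Int.fract t : ℝ) : ℂ) * (t:ℂ) ^ (-(s + 1)))
      (F' := fun s (t:ℝ) => ((Int.fract t : ℝ) : ℂ) * ((t:ℂ) ^ (-(s + 1)) * Complex.log t * (-1)))
      (x₀ := s0) (s := Metric.ball s0 (s0.re / 2))
      (bound := fun t : ℝ => t ^ (-(s0.re / 2 + 1)) * Real.log t)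
      (Metric.ball_mem_nhds _ (by linarith)) ?_ ?_ ?_ ?_ ?_ ?_
  · exact key.2.differentiableAt
  · exact Eventually.of_forall fun s => aesm_fr s
  · exact integrableOn_fr hs0'
  · have e : (fun t : ℝ => ((Int.fract t : ℝ) : ℂ) * ((t:ℂ) ^ (-(s0 + 1)) * Complex.log t * (-1))) =
        fun t : ℝ => (((Int.fract t : ℝ) : ℂ) * (t:ℂ) ^ (-(s0 + 1))) * (-Complex.log t) := by
      funext t; ring
    rw [e]
    apply (aesm_fr s0).mul
    apply ContinuousOn.aestronglyMeasurable _ measurableSet_Ioi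
    intro x hx
    have hx1 : (1:ℝ) < x := hx
    apply ContinuousAt.continuousWithinAt
    apply ContinuousAt.neg
    apply ContinuousAt.clog
    · fun_prop
    · left; simp; linarith only [hx1]
  · filter_upwards [ae_restrict_mem measurableSet_Ioi] with t ht s hs
    have ht1 : (1:ℝ) < t := ht
    rw [← mul_assoc, ← mul_assoc, norm_mul, norm_mul, norm_neg, norm_one, mul_one]
    have h1 := norm_fr s ht1
    have h2 : ‖Complex.log t‖ = Real.log t := by
      rw [← Complex.ofReal_log (by linarith only [ht1]), Complex.norm_real, Real.norm_of_nonneg (Real.log_nonneg ht1.le)]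
    rw [h2]
    have h3 : t ^ (-(s.re + 1)) ≤ t ^ (-(s0.re / 2 + 1)) := by
      apply Real.rpow_le_rpow_of_exponent_le ht1.le
      rw [Metric.mem_ball, dist_eq_norm] at hs
      have := (Complex.abs_re_le_norm (s - s0)).trans hs.le
      rw [Complex.sub_re, abs_le] at this
      linarith
    have h4 : 0 ≤ Real.log t := Real.log_nonneg ht1.le
    gcongr
    exact h1.trans h3
  · have hi : IntegrableOn (fun t : ℝ => (4 / s0.re) * t ^ (-(s0.re / 4 + 1))) (Ioi 1) :=
      (integrableOn_Ioi_rpow_of_lt (by linarith only [hs0']) one_pos).const_mul _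
    refine hi.mono' ?_ ?_
    · apply ContinuousOn.aestronglyMeasurable _ measurableSet_Ioi
      intro x hx
      have hx1 : (1:ℝ) < x := hx
      apply ContinuousAt.continuousWithinAt
      apply ContinuousAt.mul
      · exact Real.continuousAt_rpow_const _ _ (Or.inl (by linarith))
      · exact Real.continuousAt_log (by linarith)
    · filter_upwards [ae_restrict_mem measurableSet_Ioi] with t ht
      have ht1 : (1:ℝ) < t := ht
      have h4 : 0 ≤ Real.log t := Real.log_nonneg ht1.le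
      have h5 : 0 ≤ t ^ (-(s0.re / 2 + 1)) := Real.rpow_nonneg (by linarith) _
      rw [Real.norm_of_nonneg (by positivity)]
      have h6 : Real.log t ≤ t ^ (s0.re / 4) / (s0.re / 4) := Real.log_le_rpow_div (by linarith) (by linarith only [hs0'])
      calc t ^ (-(s0.re / 2 + 1)) * Real.log t ≤ t ^ (-(s0.re / 2 + 1)) * (t ^ (s0.re / 4) / (s0.re / 4)) := by gcongr
        _ = (4 / s0.re) * (t ^ (-(s0.re / 2 + 1)) * t ^ (s0.re / 4)) := by field_simp
        _ = _ := by
            rw [← Real.rpow_add (by linarith only [ht1])]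
            congr 2
            ring
  · filter_upwards [ae_restrict_mem measurableSet_Ioi] with t ht s hs
    have ht1 : (1:ℝ) < t := ht
    have ht0 : (t:ℂ) ≠ 0 := by
      have : t ≠ 0 := by linarith
      exact_mod_cast this
    apply HasDerivAt.const_mul
    have h1 : HasDerivAt (fun s : ℂ => -(s + 1)) (-1) s := by
      have := ((hasDerivAt_id s).add_const 1).fun_neg
      exact this
    exact h1.const_cpow (Or.inl ht0)

lemma zeta_eq_J {s : ℂ} (hs : 1 < s.re) : riemannZeta s = s / (s - 1) - s * Jf1 s := by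
  have h1 := LSeries_eq_mul_integral (1 : ℕ → ℂ) (r := 1) zero_le_one (s := s) hs
    (LSeriesHasSum_one hs).LSeriesSummable (by
      apply Asymptotics.IsBigO.of_bound 1
      filter_upwards with n
      simp)
  rw [LSeries_one_eq_riemannZeta hs] at h1
  rw [h1]
  have hs0 : s ≠ 0 := by rintro rfl; simp at hs; linarith
  have hs1 : s - 1 ≠ 0 := by
    intro h
    have := congrArg Complex.re h
    simp at this
    linarith only [hs, this]
  have e1 : ∫ t in Ioi (1:ℝ), (∑ k ∈ Finset.Icc 1 ⌊t⌋₊, (1 : ℕ → ℂ) k) * (t:ℂ) ^ (-(s + 1)) =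
      ∫ t in Ioi (1:ℝ), ((t:ℂ) ^ (-s) - ((Int.fract t : ℝ) : ℂ) * (t:ℂ) ^ (-(s + 1))) := by
    refine setIntegral_congr_fun measurableSet_Ioi (fun t ht => ?_)
    have ht1 : (1:ℝ) < t := ht
    have ht0 : (t:ℂ) ≠ 0 := by
      have : t ≠ 0 := by linarith
      exact_mod_cast this
    simp only [Pi.one_apply, Finset.sum_const, Nat.card_Icc, nsmul_eq_mul, mul_one, Nat.add_sub_cancel]
    have e2 : ((⌊t⌋₊ : ℕ) : ℂ) = (t:ℂ) - ((Int.fract t : ℝ) : ℂ) := by
      have h3 : ((⌊t⌋₊ : ℕ) : ℝ) = t - Int.fract t := by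
        rw [Int.self_sub_fract, natCast_floor_eq_intCast_floor (by linarith)]
      have h4 : ((⌊t⌋₊ : ℕ) : ℂ) = (((⌊t⌋₊ : ℕ) : ℝ) : ℂ) := by push_cast; rfl
      rw [h4, h3]; push_cast; ring
    rw [e2, sub_mul]
    congr 1
    rw [show -s = 1 + -(s + 1) by ring, Complex.cpow_add _ _ ht0, Complex.cpow_one]
  rw [e1, integral_sub (integrableOn_Ioi_cpow_of_lt (by simp; linarith) one_pos) (integrableOn_fr (by linarith)),
    integral_Ioi_cpow_of_lt (by simp; linarith) one_pos]
  unfold Jf1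
  simp only [Complex.ofReal_one, Complex.one_cpow]
  rw [show -s + 1 = -(s - 1) by ring, neg_div_neg_eq]
  ring

lemma Zt_eq_J {s : ℂ} (hs : 0 < s.re) : Zt s = s - s * (s - 1) * Jf1 s := by
  have hU : IsOpen {s : ℂ | 0 < s.re} := isOpen_lt continuous_const Complex.continuous_re
  have hUc : IsPreconnected {s : ℂ | 0 < s.re} := (convex_halfSpace_re_gt 0).isPreconnected
  have hf : AnalyticOnNhd ℂ Zt {s | 0 < s.re} := differentiable_Zt.differentiableOn.analyticOnNhd hU
  have hg : AnalyticOnNhd ℂ (fun s => s - s * (s - 1) * Jf1 s) {s | 0 < s.re} := by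
    apply DifferentiableOn.analyticOnNhd _ hU
    have := differentiableOn_Jf1
    fun_prop
  have hev : Zt =ᶠ[𝓝 2] (fun s => s - s * (s - 1) * Jf1 s) := by
    have : ∀ᶠ s : ℂ in 𝓝 2, 1 < s.re := by
      refine (isOpen_lt continuous_const Complex.continuous_re).mem_nhds ?_
      simp only [mem_ofPred_eq]
      norm_num
    filter_upwards [this] with s hs
    have hs1 : s ≠ 1 := by rintro rfl; simp at hs
    have hs2 : s - 1 ≠ 0 := sub_ne_zero.mpr hs1
    rw [Zt_eq (by linarith) hs1, zeta_eq_J hs]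
    field_simp
  exact hf.eqOn_of_preconnected_of_eventuallyEq hg hUc (by simp) hev hs

/-- polynomial growth -/
theorem norm_Zt_le {s : ℂ} (hs : 1 / 4 ≤ s.re) : ‖Zt s‖ ≤ 5 * (1 + ‖s‖) ^ 2 := by
  have hs0 : 0 < s.re := by linarith
  rw [Zt_eq_J hs0]
  have h1 := norm_Jf1_le hs0
  have h2 : 1 / s.re ≤ 4 := by
    rw [div_le_iff₀ hs0]; linarith only [hs]
  have h3 : ‖s - 1‖ ≤ ‖s‖ + 1 := by
    have := norm_sub_le s 1; simpa using this
  calc ‖s - s * (s - 1) * Jf1 s‖ ≤ ‖s‖ + ‖s * (s - 1) * Jf1 s‖ := norm_sub_le _ _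
    _ = ‖s‖ + ‖s‖ * ‖s - 1‖ * ‖Jf1 s‖ := by rw [norm_mul, norm_mul]
    _ ≤ ‖s‖ + ‖s‖ * (‖s‖ + 1) * 4 := by gcongr; linarith only [h1, h2]
    _ ≤ _ := by nlinarith only [norm_nonneg s]

end Pool.Agent.Helper57.LH

end

/-! ### Helper57.LH.DivZ -/

section

namespace Pool.Agent.Helper57.LH

open Complex Set MeasureTheory Filter Topology Metric

open Pool.Agent.Helper57.Zeta

lemma div_point {f : ℂ → ℂ} (hf : Differentiable ℂ f) {b : ℂ} (hb : f b ≠ 0) (a : ℂ) :
    ∃ g : ℂ → ℂ, Differentiable ℂ g ∧ (∀ z, f z = (z - a) ^ (analyticOrderNatAt f a) * g z) ∧ g a ≠ 0 := by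
  classical
  obtain ⟨g0, hg0, hg0a, hev⟩ := (hf.analyticAt a).analyticOrderAt_ne_top.mp (order_ne_top hf hb a)
  set n := analyticOrderNatAt f a with hn
  set G : ℂ → ℂ := fun z => if z = a then g0 a else f z / (z - a) ^ n with hG
  have hGa : G a = g0 a := by simp [hG]
  have hGn : ∀ z, z ≠ a → G z = f z / (z - a) ^ n := by
    intro z hz; simp [hG, hz]
  refine ⟨G, ?_, ?_, by rw [hGa]; exact hg0a⟩
  · intro z
    rcases eq_or_ne z a with rfl | hz
    · have : G =ᶠ[𝓝 z] g0 := by
        filter_upwards [hev] with w hw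
        rcases eq_or_ne w z with rfl | hwz
        · exact hGa
        · rw [hGn w hwz, hw, smul_eq_mul, mul_div_cancel_left₀ _ (pow_ne_zero _ (sub_ne_zero.mpr hwz))]
      exact hg0.differentiableAt.congr_of_eventuallyEq this
    · have : G =ᶠ[𝓝 z] fun w => f w / (w - a) ^ n := by
        filter_upwards [isOpen_ne.mem_nhds hz] with w hw
        exact hGn w hw
      apply DifferentiableAt.congr_of_eventuallyEq _ this
      exact (hf z).div (by fun_prop) (pow_ne_zero _ (sub_ne_zero.mpr hz))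
  · intro z
    rcases eq_or_ne z a with rfl | hz
    · rw [hGa]
      have := hev.self_of_nhds
      simpa using this
    · rw [hGn z hz, mul_div_cancel₀ _ (pow_ne_zero _ (sub_ne_zero.mpr hz))]

lemma order_div {f g : ℂ → ℂ} (hg : Differentiable ℂ g) {a : ℂ} {n : ℕ}
    (h : ∀ z, f z = (z - a) ^ n * g z) {z : ℂ} (hz : z ≠ a) : analyticOrderNatAt g z = analyticOrderNatAt f z := by
  unfold analyticOrderNatAt
  congr 1
  have e : f = (fun z => (z - a) ^ n) * g := by
    funext w; rw [h w]; rfl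
  have hp : AnalyticAt ℂ (fun z => (z - a) ^ n) z := by fun_prop
  rw [e, analyticOrderAt_mul hp (hg.analyticAt z), hp.analyticOrderAt_eq_zero.mpr, zero_add]
  exact pow_ne_zero _ (sub_ne_zero.mpr hz)

/-- dividing out finitely many zeros of an entire function -/
lemma div_finset {f : ℂ → ℂ} (hf : Differentiable ℂ f) {b : ℂ} (hb : f b ≠ 0) (S : Finset ℂ) :
    ∃ g : ℂ → ℂ, Differentiable ℂ g ∧ (∀ z, f z = (∏ a ∈ S, (z - a) ^ (analyticOrderNatAt f a)) * g z) ∧
      (∀ a ∈ S, g a ≠ 0) ∧ (∀ z, z ∉ S → analyticOrderNatAt g z = analyticOrderNatAt f z) := by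
  classical
  induction S using Finset.induction_on with
  | empty =>
    refine ⟨f, hf, ?_, ?_, ?_⟩
    · intro z; simp
    · intro a ha; simp at ha
    · intro z _; rfl
  | insert a S ha ih =>
    obtain ⟨g, hg, hfg, hgS, hord⟩ := ih
    have hgb : g b ≠ 0 := by
      intro h
      apply hb
      rw [hfg b, h, mul_zero]
    obtain ⟨g', hg', hgg', hg'a⟩ := div_point hg hgb a
    rw [hord a ha] at hgg'
    refine ⟨g', hg', ?_, ?_, ?_⟩
    · intro z
      rw [Finset.prod_insert ha, hfg z, hgg' z]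
      ring
    · intro c hc
      rw [Finset.mem_insert] at hc
      rcases hc with rfl | hc
      · exact hg'a
      · intro h0
        apply hgS c hc
        rw [hgg' c, h0, mul_zero]
    · intro z hz
      rw [Finset.mem_insert, not_or] at hz
      rw [order_div hg' hgg' hz.1, hord z hz.2]

end Pool.Agent.Helper57.LH

end

/-! ### Helper57.LH.BCL -/

section

namespace Pool.Agent.Helper57.LH

open Complex Set MeasureTheory Filter Topology Metric

/-- logarithm of a nonvanishing function on a ball, with the Borel-Caratheodory bound. -/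
lemma log_bound {h : ℂ → ℂ} (hh : Differentiable ℂ h) {c : ℂ} {R M : ℝ} (hR : 0 < R) (hM : 0 < M)
    (hne : ∀ z ∈ ball c R, h z ≠ 0) (hb : ∀ z ∈ ball c R, ‖h z‖ ≤ ‖h c‖ * Real.exp M) :
    ∃ G : ℂ → ℂ, G c = 0 ∧ (∀ z ∈ ball c R, HasDerivAt G (logDeriv h z) z) ∧
      ∀ z ∈ closedBall c (R / 2), ‖G z‖ ≤ 2 * M := by
  have hφ : DifferentiableOn ℂ (logDeriv h) (ball c R) := by
    intro z hz
    have h1 : DifferentiableAt ℂ (deriv h) z := (hh.analyticAt z).deriv.differentiableAt
    exact (h1.div (hh z) (hne z hz)).differentiableWithinAt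
  obtain ⟨G, hGc, hG⟩ := (hφ.isExactOn_ball).with_val_at c 0
  have hcR : c ∈ ball c R := mem_ball_self hR
  have hconst : ∀ z ∈ ball c R, h z * cexp (-(G z)) = h c := by
    intro z hz
    have hd : ∀ w ∈ ball c R, HasDerivAt (fun w => h w * cexp (-(G w))) 0 w := by
      intro w hw
      have h1 := ((hh w).hasDerivAt).mul ((hG w hw).fun_neg.cexp)
      have e : deriv h w * cexp (-(G w)) + h w * (cexp (-(G w)) * -(logDeriv h w)) = 0 := by
        rw [logDeriv_apply]
        have := hne w hw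
        field_simp
        ring
      rw [e] at h1
      exact h1
    have := (isOpen_ball (x := c) (ε := R)).is_const_of_deriv_eq_zero (convex_ball c R).isPreconnected
      (f := fun w => h w * cexp (-(G w))) (fun w hw => (hd w hw).differentiableAt.differentiableWithinAt)
      (fun w hw => (hd w hw).deriv) hz hcR
    simp only [hGc, neg_zero, Complex.exp_zero, mul_one] at this
    exact this
  have hre : ∀ z ∈ ball c R, (G z).re ≤ M := by
    intro z hz
    have h1 := congrArg norm (hconst z hz)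
    rw [norm_mul, Complex.norm_exp, Complex.neg_re] at h1
    have h2 := hb z hz
    have hc0 : 0 < ‖h c‖ := norm_pos_iff.mpr (hne c hcR)
    have h3 : ‖h c‖ ≤ ‖h c‖ * Real.exp (M + -(G z).re) := by
      rw [Real.exp_add, ← mul_assoc]
      calc ‖h c‖ = ‖h z‖ * Real.exp (-(G z).re) := h1.symm
        _ ≤ _ := by gcongr
    have h4 : 1 ≤ Real.exp (M + -(G z).re) := by
      by_contra hlt
      push Not at hlt
      nlinarith
    have h5 := Real.one_le_exp_iff.mp h4
    linarith only [h5]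
  refine ⟨G, hGc, hG, ?_⟩
  intro z hz
  rw [mem_closedBall, dist_eq_norm] at hz
  have hsub : ∀ w ∈ ball (0:ℂ) R, c + w ∈ ball c R := by
    intro w hw
    rw [mem_ball, dist_eq_norm, add_sub_cancel_left]
    rwa [mem_ball, dist_zero_right] at hw
  have hBC := Complex.borelCaratheodory_zero (f := fun w => G (c + w)) (M := M) (R := R) (z := z - c) hM (by
      intro w hw
      have h1 := (hG (c + w) (hsub w hw)).differentiableAt
      exact (DifferentiableAt.comp w h1 (by fun_prop)).differentiableWithinAt)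
    (fun w hw => hre _ (hsub w hw)) hR (by rw [mem_ball, dist_zero_right]; linarith only [hR, hz]) (by simpa using hGc)
  simp only [add_sub_cancel] at hBC
  refine hBC.trans ?_
  rw [div_le_iff₀ (by linarith only [hR, hz])]
  have := norm_nonneg (z - c)
  nlinarith only [hM, hz]

/-- bound of the derivative of the logarithmic derivative -/
lemma logDeriv_bound {h : ℂ → ℂ} (hh : Differentiable ℂ h) {c : ℂ} {R M : ℝ} (hR : 0 < R) (hM : 0 < M)
    (hne : ∀ z ∈ ball c R, h z ≠ 0) (hb : ∀ z ∈ ball c R, ‖h z‖ ≤ ‖h c‖ * Real.exp M)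
    {z : ℂ} (hz : ‖z - c‖ ≤ R / 8) : ‖deriv (logDeriv h) z‖ ≤ 64 * M / R ^ 2 := by
  obtain ⟨G, hGc, hG, hGb⟩ := log_bound hh hR hM hne hb
  have hφ : DifferentiableOn ℂ (logDeriv h) (ball c R) := by
    intro z hz
    have h1 : DifferentiableAt ℂ (deriv h) z := (hh.analyticAt z).deriv.differentiableAt
    exact (h1.div (hh z) (hne z hz)).differentiableWithinAt
  have h1 : ∀ w, ‖w - c‖ ≤ R / 4 → ‖logDeriv h w‖ ≤ 2 * M / (R / 4) := by
    intro w hw
    have hsub : closedBall w (R / 4) ⊆ closedBall c (R / 2) := by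
      intro u hu
      rw [mem_closedBall, dist_eq_norm] at hu ⊢
      have := norm_add_le (u - w) (w - c)
      rw [sub_add_sub_cancel] at this
      linarith
    have hsub2 : closedBall c (R / 2) ⊆ ball c R := closedBall_subset_ball (by linarith only [hR])
    have hw2 : w ∈ ball c R := by rw [mem_ball, dist_eq_norm]; linarith
    rw [← (hG w hw2).deriv]
    apply Complex.norm_deriv_le_of_forall_mem_sphere_norm_le (by positivity)
    · apply DifferentiableOn.diffContOnCl
      intro u hu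
      rw [closure_ball w (by positivity)] at hu
      exact (hG u (hsub2 (hsub hu))).differentiableAt.differentiableWithinAt
    · intro u hu
      exact hGb u (hsub (sphere_subset_closedBall hu))
  have hsub : closedBall z (R / 8) ⊆ closedBall c (R / 4) := by
    intro u hu
    rw [mem_closedBall, dist_eq_norm] at hu ⊢
    have := norm_add_le (u - z) (z - c)
    rw [sub_add_sub_cancel] at this
    linarith only [hz, hu, this]
  have h2 := Complex.norm_deriv_le_of_forall_mem_sphere_norm_le (f := logDeriv h) (c := z) (R := R / 8)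
    (C := 2 * M / (R / 4)) (by positivity) (by
      apply DifferentiableOn.diffContOnCl
      intro u hu
      rw [closure_ball z (by positivity)] at hu
      have hu2 : u ∈ ball c R := closedBall_subset_ball (by linarith only [hR]) (hsub hu)
      exact ((hφ u hu2).differentiableAt (isOpen_ball.mem_nhds hu2)).differentiableWithinAt) (by
      intro u hu
      have := hsub (sphere_subset_closedBall hu)
      rw [mem_closedBall, dist_eq_norm] at this
      exact h1 u this)
  refine h2.trans (le_of_eq ?_)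
  field_simp
  norm_num

end Pool.Agent.Helper57.LH

end

/-! ### Helper57.LH.PartFrac -/

section

namespace Pool.Agent.Helper57.LH

open Complex Set MeasureTheory Filter Topology Metric

open Pool.Agent.Helper57.Zeta

/-- zeros of xi in the disc of radius R about 1/2 -/
noncomputable def ZR (R : ℝ) : Finset ℂ := (zset_finite differentiable_xi xi_two_ne (1/2) R).toFinset

/-- multiplicity -/
noncomputable def mx (ρ : ℂ) : ℝ := (analyticOrderNatAt xi ρ : ℝ)

lemma mx_nonneg (ρ : ℂ) : 0 ≤ mx ρ := Nat.cast_nonneg _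

lemma mem_ZR {R : ℝ} {ρ : ℂ} : ρ ∈ ZR R ↔ xi ρ = 0 ∧ ‖ρ - 1 / 2‖ ≤ R := by
  unfold ZR
  rw [Set.Finite.mem_toFinset]; rfl

lemma ZR_symm {R : ℝ} {ρ : ℂ} (h : ρ ∈ ZR R) : 1 - ρ ∈ ZR R := by
  rw [mem_ZR] at h ⊢
  refine ⟨by rw [xi_one_sub]; exact h.1, ?_⟩
  rw [show 1 - ρ - 1 / 2 = -(ρ - 1 / 2) by ring, norm_neg]
  exact h.2

/-- growth constant -/
noncomputable def Cx : ℝ := posLog_xi_le.choose

lemma Cx_nonneg : 0 ≤ Cx := posLog_xi_le.choose_spec.1

/-- bound for log |xi| on the circle of radius 3R -/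
noncomputable def MR (R : ℝ) : ℝ := 3 * R / 2 * Real.log (3 * R + 3) + Cx * (3 * R + 1) + |Real.log ‖xi 2‖| + 1

lemma MR_pos {R : ℝ} (hR : 0 ≤ R) : 0 < MR R := by
  unfold MR
  have := Cx_nonneg
  have := abs_nonneg (Real.log ‖xi 2‖)
  have : 0 ≤ Real.log (3 * R + 3) := Real.log_nonneg (by linarith)
  positivity

lemma norm_xi_le {R : ℝ} (hR : 0 ≤ R) {s : ℂ} (hs : ‖s - 1 / 2‖ = 3 * R) :
    ‖xi s‖ ≤ Real.exp (3 * R / 2 * Real.log (3 * R + 3) + Cx * (3 * R + 1)) := by
  have h := posLog_xi_le.choose_spec.2 (s - 1 / 2)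
  rw [show 1 / 2 + (s - 1 / 2) = s by ring, hs] at h
  have hre : |(s - 1 / 2).re| ≤ 3 * R := by rw [← hs]; exact Complex.abs_re_le_norm _
  have hl : 0 ≤ Real.log (3 * R + 3) := Real.log_nonneg (by linarith only [hR])
  rcases eq_or_ne (xi s) 0 with h0 | h0
  · rw [h0, norm_zero]; positivity
  · have h1 : Real.log ‖xi s‖ ≤ Real.posLog ‖xi s‖ := le_max_right _ _
    have h2 : |(s - 1 / 2).re| / 2 * Real.log (3 * R + 3) ≤ 3 * R / 2 * Real.log (3 * R + 3) := by gcongr
    rw [← Real.log_le_iff_le_exp (norm_pos_iff.mpr h0)]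
    have h3 : posLog_xi_le.choose * (3 * R + 1) = Cx * (3 * R + 1) := rfl
    linarith

lemma prod_symm {R : ℝ} (s : ℂ) :
    ∏ a ∈ ZR R, (1 - s - a) ^ (analyticOrderNatAt xi a) =
      (∏ a ∈ ZR R, (-1 : ℂ) ^ (analyticOrderNatAt xi a)) * ∏ a ∈ ZR R, (s - a) ^ (analyticOrderNatAt xi a) := by
  rw [← Finset.prod_mul_distrib]
  refine Finset.prod_bij' (fun a _ => 1 - a) (fun a _ => 1 - a) (fun a ha => ZR_symm ha) (fun a ha => ZR_symm ha)
    (fun a _ => by ring) (fun a _ => by ring) (fun a _ => ?_)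
  rw [order_one_sub, ← mul_pow]
  congr 1
  ring

/-- finite partial fraction expansion with error term -/
theorem pf_finite {R : ℝ} (hR : 24 ≤ R) {s : ℂ} (hs : ‖s - 2‖ ≤ R / 16) (hxs : xi s ≠ 0) :
    ‖logDeriv xi s - ∑ ρ ∈ ZR R, mx ρ / (s - ρ)‖ ≤ ‖s - 1 / 2‖ * (256 * MR R / R ^ 2) := by
  have hR0 : 0 < R := by linarith only [hR]
  obtain ⟨h, hh, hfac, hS, _⟩ := div_finset differentiable_xi xi_two_ne (ZR R)
  set P : ℂ → ℂ := fun z => ∏ a ∈ ZR R, (z - a) ^ (analyticOrderNatAt xi a) with hP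
  have hfac' : ∀ z, xi z = P z * h z := hfac
  -- nonvanishing
  have hne : ∀ z, ‖z - 1 / 2‖ ≤ R → h z ≠ 0 := by
    intro z hz h0
    have h1 : xi z = 0 := by rw [hfac', h0, mul_zero]
    exact hS z (mem_ZR.mpr ⟨h1, hz⟩) h0
  have hball : ∀ z ∈ ball (2:ℂ) (R / 2), ‖z - 1 / 2‖ ≤ R := by
    intro z hz
    rw [mem_ball, dist_eq_norm] at hz
    have h1 := norm_add_le (z - 2) (3 / 2)
    rw [show z - 2 + 3 / 2 = z - 1 / 2 by ring] at h1
    have h2 : ‖(3 / 2 : ℂ)‖ = 3 / 2 := by
      rw [norm_div, Complex.norm_ofNat, Complex.norm_ofNat]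
    rw [h2] at h1
    linarith only [hR, hz, h1]
  -- growth
  have hP2 : P 2 ≠ 0 := by
    intro h0
    exact xi_two_ne (by rw [hfac', h0, zero_mul])
  have hgrow : ∀ z ∈ ball (2:ℂ) (R / 2), ‖h z‖ ≤ ‖h 2‖ * Real.exp (MR R) := by
    intro z hz
    have hU : z ∈ closure (ball (1/2 : ℂ) (3 * R)) := by
      apply subset_closure
      rw [mem_ball, dist_eq_norm]
      have := hball z hz
      linarith only [hR, this]
    refine Complex.norm_le_of_forall_mem_frontier_norm_le (U := ball (1/2 : ℂ) (3 * R)) isBounded_ball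
      hh.diffContOnCl ?_ hU
    intro w hw
    rw [frontier_ball _ (by positivity), mem_sphere, dist_eq_norm] at hw
    have hPw : ‖P 2‖ ≤ ‖P w‖ := by
      simp only [hP, norm_prod, norm_pow]
      apply Finset.prod_le_prod
      · intro i _; positivity
      · intro i hi
        rw [mem_ZR] at hi
        apply pow_le_pow_left₀ (norm_nonneg _)
        have h1 : ‖2 - i‖ ≤ 3 / 2 + R := by
          have h2 := norm_add_le (3 / 2 : ℂ) (-(i - 1 / 2))
          rw [show (3 / 2 : ℂ) + -(i - 1 / 2) = 2 - i by ring, norm_neg, norm_div, Complex.norm_ofNat, Complex.norm_ofNat] at h2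
          linarith only [hi, h2, hi.2]
        have h3 : 3 * R - R ≤ ‖w - i‖ := by
          have h4 := norm_sub_norm_le (w - 1 / 2) (i - 1 / 2)
          rw [show w - 1 / 2 - (i - 1 / 2) = w - i by ring, hw] at h4
          linarith only [hi, h4, hi.2]
        linarith only [hR, h1, h3]
    have hPw0 : 0 < ‖P 2‖ := norm_pos_iff.mpr hP2
    have h5 : ‖xi w‖ = ‖P w‖ * ‖h w‖ := by rw [hfac', norm_mul]
    have h6 : ‖xi 2‖ = ‖P 2‖ * ‖h 2‖ := by rw [hfac', norm_mul]
    have h7 := norm_xi_le hR0.le hw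
    have hxi2 : 0 < ‖xi 2‖ := norm_pos_iff.mpr xi_two_ne
    have h8 : Real.exp (3 * R / 2 * Real.log (3 * R + 3) + Cx * (3 * R + 1)) ≤ ‖xi 2‖ * Real.exp (MR R) := by
      have h9 : ‖xi 2‖ = Real.exp (Real.log ‖xi 2‖) := (Real.exp_log hxi2).symm
      rw [h9, ← Real.exp_add]
      apply Real.exp_le_exp.mpr
      unfold MR
      have := neg_abs_le (Real.log ‖xi 2‖)
      linarith only [this]
    have h10 : ‖P 2‖ * ‖h w‖ ≤ ‖P 2‖ * (‖h 2‖ * Real.exp (MR R)) := by
      calc ‖P 2‖ * ‖h w‖ ≤ ‖P w‖ * ‖h w‖ := by gcongr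
        _ = ‖xi w‖ := h5.symm
        _ ≤ _ := h7
        _ ≤ _ := h8
        _ = _ := by rw [h6]; ring
    exact le_of_mul_le_mul_left h10 hPw0
  -- symmetry
  set ε : ℂ := ∏ a ∈ ZR R, (-1 : ℂ) ^ (analyticOrderNatAt xi a) with hε
  have hε2 : ε * ε = 1 := by
    rw [hε, ← Finset.prod_mul_distrib]
    apply Finset.prod_eq_one
    intro a _
    rw [← mul_pow]; norm_num
  have hPs : ∀ z, P (1 - z) = ε * P z := fun z => prod_symm z
  have hsym : ∀ z, h (1 - z) = ε * h z := by
    have hdense : Dense {z : ℂ | z ∉ ZR R} := by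
      have : ((ZR R : Finset ℂ) : Set ℂ).Countable := (ZR R).countable_toSet
      exact this.dense_compl ℂ
    have hext : (fun z => h (1 - z)) = fun z => ε * h z := by
      apply Continuous.ext_on hdense (by have := hh.continuous; fun_prop) (by have := hh.continuous; fun_prop)
      intro z hz
      have hPz : P z ≠ 0 := by
        rw [hP]
        simp only
        rw [Finset.prod_ne_zero_iff]
        intro a ha
        apply pow_ne_zero
        rw [sub_ne_zero]
        rintro rfl
        exact hz ha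
      have h1 : P (1 - z) * h (1 - z) = P z * h z := by
        rw [← hfac', ← hfac', xi_one_sub]
      rw [hPs] at h1
      have h2 : P z * (h (1 - z) - ε * h z) = 0 := by
        have h3 : ε * (P z * (h (1 - z) - ε * h z)) = 0 := by
          calc ε * (P z * (h (1 - z) - ε * h z)) = ε * P z * h (1 - z) - (ε * ε) * (P z * h z) := by ring
            _ = 0 := by rw [h1, hε2]; ring
        have hε0 : ε ≠ 0 := by
          intro h0; rw [h0] at hε2; simp at hε2
        exact (mul_eq_zero.mp h3).resolve_left hε0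
      have h4 := (mul_eq_zero.mp h2).resolve_left hPz
      exact sub_eq_zero.mp h4
    exact fun z => congrFun hext z
  have hhalf : h (1/2) ≠ 0 := hne _ (by simp; linarith only [hR])
  have hε1 : ε = 1 := by
    have h1 := hsym (1/2)
    rw [show (1:ℂ) - 1/2 = 1/2 by norm_num] at h1
    have h2 : (ε - 1) * h (1/2) = 0 := by rw [sub_mul, one_mul, ← h1, sub_self]
    exact sub_eq_zero.mp ((mul_eq_zero.mp h2).resolve_right hhalf)
  have hder : deriv h (1/2) = 0 := by
    have h1 : deriv (fun z => h (1 - z)) (1/2) = - deriv h (1/2) := by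
      rw [deriv_comp_const_sub]
      norm_num
    have h2 : (fun z => h (1 - z)) = h := by
      funext z; rw [hsym, hε1, one_mul]
    rw [h2] at h1
    have h3 : 2 * deriv h (1/2) = 0 := by linear_combination h1
    simpa using h3
  have hφ0 : logDeriv h (1/2) = 0 := by rw [logDeriv_apply, hder, zero_div]
  -- mean value
  have hMR := MR_pos hR0.le
  have hder2 : ∀ z ∈ closedBall (2:ℂ) (R / 16), ‖deriv (logDeriv h) z‖ ≤ 256 * MR R / R ^ 2 := by
    intro z hz
    rw [mem_closedBall, dist_eq_norm] at hz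
    have := logDeriv_bound hh (c := 2) (R := R / 2) (by positivity) hMR (fun z hz => hne z (hball z hz)) hgrow
      (z := z) (by linarith only [hz])
    refine this.trans (le_of_eq ?_)
    field_simp
    norm_num
  have hmv := Convex.norm_image_sub_le_of_norm_deriv_le (s := closedBall (2:ℂ) (R / 16)) (f := logDeriv h)
    (x := 1/2) (y := s) (by
      intro z hz
      have hz2 : ‖z - 1 / 2‖ ≤ R := hball z (closedBall_subset_ball (by linarith only [hR]) hz)
      have h1 : DifferentiableAt ℂ (deriv h) z := (hh.analyticAt z).deriv.differentiableAt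
      exact h1.div (hh z) (hne z hz2)) hder2 (convex_closedBall _ _) (by
      rw [mem_closedBall, dist_eq_norm]
      rw [show (1/2 : ℂ) - 2 = -(3/2) by norm_num, norm_neg, norm_div, Complex.norm_ofNat, Complex.norm_ofNat]
      linarith only [hR]) (by rw [mem_closedBall, dist_eq_norm]; exact hs)
  rw [hφ0, sub_zero] at hmv
  -- logarithmic derivative of the product
  have hsR : ‖s - 1 / 2‖ ≤ R := hball s (by rw [mem_ball, dist_eq_norm]; linarith only [hR, hs])
  have hlog : logDeriv xi s = ∑ ρ ∈ ZR R, mx ρ / (s - ρ) + logDeriv h s := by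
    have e1 : xi = fun z => P z * h z := funext hfac'
    have hPs0 : P s ≠ 0 := by
      intro h0; exact hxs (by rw [hfac', h0, zero_mul])
    have hfac0 : ∀ a ∈ ZR R, (s - a) ^ (analyticOrderNatAt xi a) ≠ 0 := by
      intro a ha
      apply pow_ne_zero
      rw [sub_ne_zero]
      rintro rfl
      exact hxs (mem_ZR.mp ha).1
    have hPd : DifferentiableAt ℂ P s := by
      rw [hP]; fun_prop
    rw [e1, logDeriv_mul s hPs0 (hne s hsR) hPd (hh s)]
    congr 1
    have h2 := logDeriv_prod (s := ZR R) (f := fun a z => (z - a) ^ (analyticOrderNatAt xi a)) (x := s) hfac0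
      (fun i _ => by fun_prop)
    rw [hP]
    rw [h2]
    refine Finset.sum_congr rfl fun a ha => ?_
    rw [logDeriv_fun_pow (f := fun z => z - a) (by fun_prop)]
    rw [logDeriv_apply]
    simp only [deriv_sub_const, deriv_id'', mx]
    push_cast
    ring
  rw [hlog, add_sub_cancel_left, mul_comm]
  exact hmv

end Pool.Agent.Helper57.LH

end

/-! ### Helper57.LH.PF2 -/

section

namespace Pool.Agent.Helper57.LH

open Complex Set MeasureTheory Filter Topology Metric

open Pool.Agent.Helper57.Zeta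

/-- the type of zeros of xi -/
abbrev ZS := {ρ : ℂ // xi ρ = 0}

lemma log_le_two_sqrt {x : ℝ} (hx : 0 < x) : Real.log x ≤ 2 * Real.sqrt x := by
  have h1 : Real.log x = 2 * Real.log (Real.sqrt x) := by
    rw [Real.log_sqrt hx.le]; ring
  rw [h1]
  have h2 := Real.log_le_sub_one_of_pos (Real.sqrt_pos.mpr hx)
  linarith

lemma MR_le {R : ℝ} (hR : 24 ≤ R) : MR R / R ^ 2 ≤ (6 + 4 * Cx + |Real.log ‖xi 2‖| + 1) / Real.sqrt R := by
  have hR0 : 0 < R := by linarith only [hR]
  have hs := Real.sqrt_pos.mpr hR0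
  have hss := Real.sq_sqrt hR0.le
  have hs1 : 1 ≤ Real.sqrt R := by
    rw [Real.one_le_sqrt]; linarith only [hR]
  have h1 : Real.log (3 * R + 3) ≤ 4 * Real.sqrt R := by
    have h2 := log_le_two_sqrt (show 0 < 3 * R + 3 by linarith)
    have h3 : Real.sqrt (3 * R + 3) ≤ 2 * Real.sqrt R := by
      have h4 : Real.sqrt (3 * R + 3) ≤ Real.sqrt (2 ^ 2 * R) := Real.sqrt_le_sqrt (by linarith)
      rw [Real.sqrt_mul (by norm_num), Real.sqrt_sq (by norm_num)] at h4
      exact h4
    linarith only [h2, h3]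
  have hC := Cx_nonneg
  have hA := abs_nonneg (Real.log ‖xi 2‖)
  set A := |Real.log ‖xi 2‖|
  have hRs : R ≤ R * Real.sqrt R := by nlinarith only [hR, hs1]
  have h5 : MR R ≤ (6 + 4 * Cx + A + 1) * (R * Real.sqrt R) := by
    unfold MR
    have e1 : 3 * R / 2 * Real.log (3 * R + 3) ≤ 6 * (R * Real.sqrt R) := by
      calc 3 * R / 2 * Real.log (3 * R + 3) ≤ 3 * R / 2 * (4 * Real.sqrt R) := by gcongr
        _ = _ := by ring
    have e2 : Cx * (3 * R + 1) ≤ 4 * Cx * (R * Real.sqrt R) := by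
      calc Cx * (3 * R + 1) ≤ Cx * (4 * R) := by gcongr; linarith only [hR]
        _ ≤ Cx * (4 * (R * Real.sqrt R)) := by gcongr
        _ = _ := by ring
    have e3 : A + 1 ≤ (A + 1) * (R * Real.sqrt R) := by
      have : 1 ≤ R * Real.sqrt R := by linarith only [hR, hRs]
      nlinarith only [hR, hA, hRs]
    calc 3 * R / 2 * Real.log (3 * R + 3) + Cx * (3 * R + 1) + |Real.log ‖xi 2‖| + 1
        ≤ 6 * (R * Real.sqrt R) + 4 * Cx * (R * Real.sqrt R) + (A + 1) * (R * Real.sqrt R) := by linarith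
      _ = _ := by ring
  rw [div_le_div_iff₀ (by positivity) hs]
  calc MR R * Real.sqrt R ≤ (6 + 4 * Cx + A + 1) * (R * Real.sqrt R) * Real.sqrt R := by gcongr
    _ = (6 + 4 * Cx + A + 1) * (R * Real.sqrt R ^ 2) := by ring
    _ = _ := by rw [hss]; ring

/-- partial fraction expansion as a limit -/
theorem pf_tendsto {s : ℂ} (hxs : xi s ≠ 0) :
    Tendsto (fun R : ℝ => ∑ ρ ∈ ZR R, mx ρ / (s - ρ)) atTop (𝓝 (logDeriv xi s)) := by
  rw [tendsto_iff_norm_sub_tendsto_zero]
  set K := ‖s - 1 / 2‖ * (256 * (6 + 4 * Cx + |Real.log ‖xi 2‖| + 1)) with hK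
  have hlim : Tendsto (fun R : ℝ => K / Real.sqrt R) atTop (𝓝 0) :=
    Tendsto.div_atTop tendsto_const_nhds Real.tendsto_sqrt_atTop
  refine squeeze_zero' (Eventually.of_forall fun _ => norm_nonneg _) ?_ hlim
  filter_upwards [eventually_ge_atTop 24, eventually_ge_atTop (16 * ‖s - 2‖)] with R hR1 hR2
  rw [norm_sub_rev]
  refine (pf_finite hR1 (by linarith only [hR2]) hxs).trans ?_
  have h1 := MR_le hR1
  rw [hK]
  calc ‖s - 1 / 2‖ * (256 * MR R / R ^ 2) = ‖s - 1 / 2‖ * (256 * (MR R / R ^ 2)) := by ring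
    _ ≤ ‖s - 1 / 2‖ * (256 * ((6 + 4 * Cx + |Real.log ‖xi 2‖| + 1) / Real.sqrt R)) := by gcongr
    _ = _ := by ring

lemma re_pos_term {s : ℂ} (hs : 1 ≤ s.re) {ρ : ℂ} (hρ : xi ρ = 0) : 0 ≤ (1 / (s - ρ)).re := by
  have h1 := (xi_eq_zero_iff.mp hρ).2.1
  rw [one_div, Complex.inv_re]
  apply div_nonneg _ (Complex.normSq_nonneg _)
  rw [Complex.sub_re]; linarith

/-- partial fraction expansion of the real part -/
theorem pf_hasSum {s : ℂ} (hs : 1 ≤ s.re) :
    HasSum (fun ρ : ZS => mx ρ * (1 / (s - ρ)).re) (logDeriv xi s).re := by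
  classical
  have hxs : xi s ≠ 0 := xi_ne_zero_of_one_le_re hs
  have hnn : ∀ ρ : ZS, 0 ≤ mx ρ * (1 / (s - ρ)).re := fun ρ => mul_nonneg (mx_nonneg _) (re_pos_term hs ρ.2)
  have hT : Tendsto (fun R : ℝ => ∑ ρ ∈ ZR R, mx ρ * (1 / (s - ρ)).re) atTop (𝓝 (logDeriv xi s).re) := by
    have h1 := (Complex.continuous_re.tendsto _).comp (pf_tendsto hxs)
    refine h1.congr fun R => ?_
    simp only [Function.comp_apply, Complex.re_sum]
    refine Finset.sum_congr rfl fun ρ _ => ?_
    rw [show mx ρ / (s - ρ) = (mx ρ : ℂ) * (1 / (s - ρ)) by ring, Complex.re_ofReal_mul]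
  have hsub : ∀ R : ℝ, ∑ ρ ∈ ZR R, mx ρ * (1 / (s - ρ)).re = ∑ ρ ∈ (ZR R).subtype (fun ρ => xi ρ = 0), mx ρ * (1 / (s - (ρ:ℂ))).re := by
    intro R
    rw [Finset.sum_subtype_of_mem (f := fun ρ : ℂ => mx ρ * (1 / (s - ρ)).re)]
    intro x hx
    exact (mem_ZR.mp hx).1
  apply hasSum_of_isLUB_of_nonneg _ hnn
  constructor
  · rintro _ ⟨F, rfl⟩
    -- choose R large
    refine ge_of_tendsto hT ?_
    obtain ⟨R0, hR0⟩ : ∃ R0 : ℝ, ∀ ρ ∈ F, ‖(ρ : ℂ) - 1 / 2‖ ≤ R0 := by
      refine ⟨∑ ρ ∈ F, ‖(ρ : ℂ) - 1 / 2‖, fun ρ hρ => ?_⟩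
      exact Finset.single_le_sum (f := fun ρ : ZS => ‖(ρ : ℂ) - 1 / 2‖) (fun i _ => norm_nonneg _) hρ
    filter_upwards [eventually_ge_atTop R0] with R hR
    rw [hsub]
    apply Finset.sum_le_sum_of_subset_of_nonneg
    · intro ρ hρ
      rw [Finset.mem_subtype, mem_ZR]
      exact ⟨ρ.2, (hR0 ρ hρ).trans hR⟩
    · intro i _ _; exact hnn i
  · intro b hb
    refine le_of_tendsto hT (Eventually.of_forall fun R => ?_)
    rw [hsub]
    exact hb ⟨_, rfl⟩

/-- conjugation preserves multiplicities -/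
lemma order_conj (ρ : ℂ) : analyticOrderNatAt xi (starRingEnd ℂ ρ) = analyticOrderNatAt xi ρ := by
  obtain ⟨g, hg, hfg, hga⟩ := div_point differentiable_xi xi_two_ne ρ
  set n := analyticOrderNatAt xi ρ with hn
  have hg' : Differentiable ℂ (fun z => starRingEnd ℂ (g (starRingEnd ℂ z))) := by
    intro z
    have h1 := ((hg (starRingEnd ℂ z)).hasDerivAt.conj_conj).differentiableAt
    rw [Complex.conj_conj] at h1
    exact h1
  have h1 : ∀ z, xi z = (z - starRingEnd ℂ ρ) ^ n * starRingEnd ℂ (g (starRingEnd ℂ z)) := by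
    intro z
    have h2 := xi_conj (starRingEnd ℂ z)
    rw [Complex.conj_conj] at h2
    rw [h2, hfg, map_mul, map_pow, map_sub, Complex.conj_conj]
  have h3 : analyticOrderAt xi (starRingEnd ℂ ρ) = n := by
    rw [(analyticAt_xi _).analyticOrderAt_eq_natCast]
    refine ⟨_, hg'.analyticAt _, ?_, Eventually.of_forall fun z => ?_⟩
    · simp only [Complex.conj_conj]
      exact (map_ne_zero _).mpr hga
    · simp only [smul_eq_mul]
      exact h1 z
  unfold analyticOrderNatAt
  rw [h3]
  rfl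

/-- reflection in the critical line -/
noncomputable def refl : ZS ≃ ZS where
  toFun ρ := ⟨1 - starRingEnd ℂ ρ, by rw [xi_one_sub, xi_conj, ρ.2, map_zero]⟩
  invFun ρ := ⟨1 - starRingEnd ℂ ρ, by rw [xi_one_sub, xi_conj, ρ.2, map_zero]⟩
  left_inv ρ := by ext; simp
  right_inv ρ := by ext; simp

lemma refl_re (ρ : ZS) : (refl ρ : ℂ).re = 1 - (ρ : ℂ).re := by simp [refl]

lemma refl_im (ρ : ZS) : (refl ρ : ℂ).im = (ρ : ℂ).im := by simp [refl]

lemma refl_mx (ρ : ZS) : mx (refl ρ) = mx ρ := by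
  unfold mx
  have : ((refl ρ : ZS) : ℂ) = 1 - starRingEnd ℂ (ρ:ℂ) := rfl
  rw [this, order_one_sub, order_conj]

end Pool.Agent.Helper57.LH

end

/-! ### Helper57.LH.Done -/

section

namespace Pool.Agent.Helper57.LH

open Set MeasureTheory Filter Topology

open Pool.Agent.Helper57.Zeta

open Pool.Agent.Helper57.PC

/-- weighted pair sums -/
noncomputable def WP (T : ℝ) (φ : ℝ → ℝ) : ℝ := ∑ p ∈ Zf T ×ˢ Zf T, (mult p.1 : ℝ) * (mult p.2 : ℝ) * φ (nd T p)

lemma WP_mono {T : ℝ} {φ ψ : ℝ → ℝ} (h : ∀ x, φ x ≤ ψ x) : WP T φ ≤ WP T ψ := by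
  unfold WP
  refine Finset.sum_le_sum fun p _ => ?_
  have := h (nd T p)
  gcongr

lemma WP_nonneg {T : ℝ} {φ : ℝ → ℝ} (h : ∀ x, 0 ≤ φ x) : 0 ≤ WP T φ := by
  unfold WP
  refine Finset.sum_nonneg fun p _ => ?_
  have := h (nd T p)
  positivity

lemma WP_add (T : ℝ) (φ ψ : ℝ → ℝ) : WP T (fun x => φ x + ψ x) = WP T φ + WP T ψ := by
  unfold WP
  rw [← Finset.sum_add_distrib]
  refine Finset.sum_congr rfl fun p _ => ?_
  ring

lemma WP_smul (T c : ℝ) (φ : ℝ → ℝ) : WP T (fun x => c * φ x) = c * WP T φ := by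
  unfold WP
  rw [Finset.mul_sum]
  refine Finset.sum_congr rfl fun p _ => ?_
  ring

lemma WP_neg (T : ℝ) (φ : ℝ → ℝ) : WP T (fun x => φ (-x)) = WP T φ := by
  unfold WP
  have hnd : ∀ p : ℂ × ℂ, nd T p.swap = - nd T p := by
    intro p; unfold nd; simp only [Prod.fst_swap, Prod.snd_swap]; ring
  refine Finset.sum_bij' (fun p _ => p.swap) (fun p _ => p.swap) ?_ ?_ ?_ ?_ ?_
  · intro p hp
    rw [Finset.mem_product] at hp ⊢
    exact ⟨hp.2, hp.1⟩
  · intro p hp
    rw [Finset.mem_product] at hp ⊢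
    exact ⟨hp.2, hp.1⟩
  · intro p _; exact Prod.swap_swap p
  · intro p _; exact Prod.swap_swap p
  · intro p _
    rw [hnd]
    simp only [Prod.fst_swap, Prod.snd_swap]
    ring

/-- indicator functions -/
noncomputable def ic (S : Set ℝ) : ℝ → ℝ := S.indicator (fun _ => 1)

open Classical in
lemma ic_apply (S : Set ℝ) (x : ℝ) : ic S x = if x ∈ S then 1 else 0 := by
  unfold ic
  rw [indicator_apply]

lemma ic_nonneg (S : Set ℝ) (x : ℝ) : 0 ≤ ic S x := indicator_nonneg (fun _ _ => zero_le_one) x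

lemma ic_le_one (S : Set ℝ) (x : ℝ) : ic S x ≤ 1 := by
  classical
  rw [ic_apply]; split_ifs <;> norm_num

lemma ic_mono {S S' : Set ℝ} (h : S ⊆ S') (x : ℝ) : ic S x ≤ ic S' x :=
  indicator_le_indicator_of_subset h (fun _ => zero_le_one) x

lemma pairCount_WP (T a b : ℝ) : pairCount T a b = WP T (ic (Icc a b)) := by
  classical
  rw [pairCount_eq]
  unfold WP
  refine Finset.sum_congr rfl fun p _ => ?_
  rw [ic_apply]
  split_ifs <;> simp

/-- the lower half of the pair correlation conjecture, along a filter -/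
def LowHalf (l : Filter ℝ) : Prop := ∀ α β : ℝ, 0 < α → α < β → ∀ δ : ℝ, 0 < δ → ∀ᶠ T : ℝ in l,
  ((∫ u in α..β, pcDensity u) - δ) * SN T ≤ pairCount T α β

lemma int_F_le {a b : ℝ} (hab : a ≤ b) : ∫ u in a..b, pcDensity u ≤ b - a := by
  have h := intervalIntegral.integral_mono_on hab (intervalIntegrable_pcDensity a b) (intervalIntegrable_const (c := (1:ℝ)))
    (fun x _ => pcDensity_le_one x)
  simpa using h

lemma int_F_nonneg {a b : ℝ} (hab : a ≤ b) : 0 ≤ ∫ u in a..b, pcDensity u :=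
  intervalIntegral.integral_nonneg hab fun u _ => pcDensity_nonneg u

/-- half-open version -/
lemma lower_Ioc {l : Filter ℝ} (hl : l ≤ atTop) (hLH : LowHalf l) {α β : ℝ} (hα : 0 < α) (hαβ : α < β) {δ : ℝ} (hδ : 0 < δ) :
    ∀ᶠ T : ℝ in l, ((∫ u in α..β, pcDensity u) - δ) * SN T ≤ WP T (ic (Ioc α β)) := by
  set θ : ℝ := min (δ / 2) ((β - α) / 2) with hθ
  have hθ0 : 0 < θ := by rw [hθ]; apply lt_min <;> linarith
  have hθ1 : θ ≤ δ / 2 := min_le_left _ _
  have hθ2 : θ ≤ (β - α) / 2 := min_le_right _ _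
  have h1 := hLH (α + θ) β (by linarith only [hα, hθ0]) (by linarith) (δ / 2) (by linarith only [hθ0, hθ1])
  filter_upwards [h1, hl (eventually_gt_atTop 1)] with T hT hT1
  have hS := SN_pos hT1
  have h2 : pairCount T (α + θ) β ≤ WP T (ic (Ioc α β)) := by
    rw [pairCount_WP]
    apply WP_mono
    apply ic_mono
    intro x hx
    exact ⟨by linarith only [hθ0, hx, hx.1], hx.2⟩
  have h3 : (∫ u in α..β, pcDensity u) ≤ (∫ u in (α + θ)..β, pcDensity u) + θ := by
    rw [← intervalIntegral.integral_add_adjacent_intervals (intervalIntegrable_pcDensity α (α + θ)) (intervalIntegrable_pcDensity (α + θ) β)]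
    have := int_F_le (show α ≤ α + θ by linarith only [hθ0])
    linarith only [this]
  have h4 : ((∫ u in α..β, pcDensity u) - δ) * SN T ≤ ((∫ u in (α + θ)..β, pcDensity u) - δ / 2) * SN T := by
    apply mul_le_mul_of_nonneg_right _ hS.le
    linarith only [hθ1, h3]
  linarith only [hT, h2, h4]

/-- lower bounds for step functions -/
lemma lower_step {l : Filter ℝ} (hl : l ≤ atTop) (hLH : LowHalf l) (x : ℕ → ℝ) (hx : ∀ k, x k < x (k + 1)) (hx0 : 0 < x 0)
    (c : ℕ → ℝ) (hc : ∀ k, 0 ≤ c k) (n : ℕ) : ∀ δ : ℝ, 0 < δ → ∀ᶠ T : ℝ in l,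
    ((∑ k ∈ Finset.range n, c k * ∫ u in (x k)..(x (k + 1)), pcDensity u) - δ) * SN T ≤
      ∑ k ∈ Finset.range n, c k * WP T (ic (Ioc (x k) (x (k + 1)))) := by
  have hxpos : ∀ k, 0 < x k := by
    intro k
    induction k with
    | zero => exact hx0
    | succ k ih => exact ih.trans (hx k)
  induction n with
  | zero =>
    intro δ hδ
    filter_upwards [hl (eventually_gt_atTop 1)] with T hT1
    have hS := SN_pos hT1
    simp only [Finset.range_zero, Finset.sum_empty, zero_sub]
    nlinarith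
  | succ n ih =>
    intro δ hδ
    have hcn := hc n
    filter_upwards [ih (δ / 2) (by linarith only [hδ]), lower_Ioc hl hLH (hxpos n) (hx n) (δ := δ / (2 * (c n + 1))) (by positivity),
      hl (eventually_gt_atTop 1)] with T h1 h2 hT1
    have hS := SN_pos hT1
    rw [Finset.sum_range_succ, Finset.sum_range_succ]
    have h3 : c n * (((∫ u in (x n)..(x (n + 1)), pcDensity u) - δ / (2 * (c n + 1))) * SN T) ≤ c n * WP T (ic (Ioc (x n) (x (n + 1)))) := by
      gcongr
    have h4 : c n * (δ / (2 * (c n + 1))) ≤ δ / 2 := by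
      rw [← mul_div_assoc, div_le_div_iff₀ (by positivity) (by norm_num)]
      nlinarith only [hδ]
    have h5 : (c n * (∫ u in (x n)..(x (n + 1)), pcDensity u) - δ / 2) * SN T ≤ c n * (((∫ u in (x n)..(x (n + 1)), pcDensity u) - δ / (2 * (c n + 1))) * SN T) := by
      rw [← mul_assoc, mul_sub]
      apply mul_le_mul_of_nonneg_right _ hS.le
      linarith only [h4]
    calc (∑ k ∈ Finset.range n, c k * (∫ u in (x k)..(x (k + 1)), pcDensity u) + c n * (∫ u in (x n)..(x (n + 1)), pcDensity u) - δ) * SN T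
        = (∑ k ∈ Finset.range n, c k * (∫ u in (x k)..(x (k + 1)), pcDensity u) - δ / 2) * SN T + (c n * (∫ u in (x n)..(x (n + 1)), pcDensity u) - δ / 2) * SN T := by ring
      _ ≤ _ := by linarith only [h1, h3, h5]

lemma step_le (x : ℕ → ℝ) (hx : ∀ k, x k < x (k + 1)) (c : ℕ → ℝ) (h : ℝ → ℝ) (n : ℕ)
    (hh : ∀ y ∈ Icc (x 0) (x n), 0 ≤ h y) (hc : ∀ k < n, ∀ y ∈ Ioc (x k) (x (k + 1)), c k ≤ h y) (y : ℝ) :
    ∑ k ∈ Finset.range n, c k * ic (Ioc (x k) (x (k + 1))) y ≤ (Ioc (x 0) (x n)).indicator h y := by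
  classical
  have hmono : StrictMono x := strictMono_nat_of_lt_succ hx
  induction n with
  | zero => simp
  | succ n ih =>
    rw [Finset.sum_range_succ]
    have ih' := ih (fun y hy => hh y ⟨hy.1, hy.2.trans (hx n).le⟩) (fun k hk => hc k (by omega))
    by_cases hy : y ∈ Ioc (x n) (x (n + 1))
    · have h1 : (Ioc (x 0) (x n)).indicator h y = 0 := by
        rw [indicator_of_notMem]
        intro hy'
        exact absurd hy'.2 (not_le.mpr hy.1)
      have h2 : (Ioc (x 0) (x (n + 1))).indicator h y = h y := by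
        rw [indicator_of_mem]
        exact ⟨lt_of_le_of_lt (hmono.monotone (Nat.zero_le n)) hy.1, hy.2⟩
      rw [h1] at ih'
      rw [h2, ic_apply, if_pos hy]
      have := hc n (by omega) y hy
      linarith
    · rw [ic_apply, if_neg hy, mul_zero, add_zero]
      refine ih'.trans ?_
      by_cases hy2 : y ∈ Ioc (x 0) (x n)
      · rw [indicator_of_mem hy2, indicator_of_mem]
        exact ⟨hy2.1, hy2.2.trans (hx n).le⟩
      · rw [indicator_of_notMem hy2]
        apply indicator_nonneg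
        intro z hz
        exact hh z ⟨hz.1.le, hz.2⟩

lemma WP_sum {ι : Type*} (T : ℝ) (s : Finset ι) (c : ι → ℝ) (φ : ι → ℝ → ℝ) :
    WP T (fun y => ∑ k ∈ s, c k * φ k y) = ∑ k ∈ s, c k * WP T (φ k) := by
  unfold WP
  simp_rw [Finset.mul_sum]
  rw [Finset.sum_comm]
  refine Finset.sum_congr rfl fun k _ => Finset.sum_congr rfl fun p _ => ?_
  ring

/-- Lower bounds for continuous functions. -/
theorem lower_cont {l : Filter ℝ} (hl : l ≤ atTop) (hLH : LowHalf l) {a b : ℝ} (ha : 0 < a) (hab : a < b) {h : ℝ → ℝ}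
    (hhc : Continuous h) (hh : ∀ y ∈ Icc a b, 0 ≤ h y) {δ : ℝ} (hδ : 0 < δ) :
    ∀ᶠ T : ℝ in l, ((∫ u in a..b, h u * pcDensity u) - δ) * SN T ≤ WP T ((Ioc a b).indicator h) := by
  have hba : 0 < b - a := by linarith only [hab]
  set η := δ / (4 * (b - a)) with hη
  have hη0 : 0 < η := by rw [hη]; positivity
  have huc := isCompact_Icc.uniformContinuousOn_of_continuous (s := Icc a b) hhc.continuousOn
  rw [Metric.uniformContinuousOn_iff] at huc
  obtain ⟨r, hr, hur⟩ := huc η hη0
  obtain ⟨n, hn⟩ := exists_nat_gt ((b - a) / r)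
  have hn0 : (0:ℝ) < n := lt_trans (by positivity) hn
  set d := (b - a) / n with hd
  have hd0 : 0 < d := by rw [hd]; positivity
  have hdr : d < r := by
    rw [hd, div_lt_iff₀ hn0]
    rw [div_lt_iff₀ hr] at hn
    linarith only [hn]
  set x : ℕ → ℝ := fun k => a + k * d with hx
  have hx1 : ∀ k, x k < x (k + 1) := by
    intro k
    rw [hx]; simp only; push_cast; linarith only [hd0]
  have hx0 : x 0 = a := by rw [hx]; simp
  have hxn : x n = b := by
    rw [hx]; simp only; rw [hd]; field_simp; ring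
  have hmono : StrictMono x := strictMono_nat_of_lt_succ hx1
  have hcell : ∀ k < n, ∀ y ∈ Icc (x k) (x (k + 1)), |h y - h (x k)| < η := by
    intro k hk y hy
    have h1 : a ≤ x k := by rw [← hx0]; exact hmono.monotone (Nat.zero_le k)
    have h2 : x (k + 1) ≤ b := by rw [← hxn]; exact hmono.monotone (by omega)
    have h3 := hur y ⟨h1.trans hy.1, hy.2.trans h2⟩ (x k) ⟨h1, (hx1 k).le.trans h2⟩ (by
      rw [Real.dist_eq, abs_of_nonneg (by linarith only [hy, hy.1])]
      have h4 : x (k + 1) - x k = d := by rw [hx]; simp only; push_cast; ring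
      linarith only [hdr, hy, h4, hy.2])
    rwa [Real.dist_eq] at h3
  set c : ℕ → ℝ := fun k => max 0 (h (x k) - η) with hc
  have hc0 : ∀ k, 0 ≤ c k := fun k => le_max_left _ _
  have hstep := lower_step hl hLH x hx1 (by rw [hx0]; exact ha) c hc0 n (δ / 2) (by linarith only [hδ])
  filter_upwards [hstep, hl (eventually_gt_atTop 1)] with T hT hT1
  have hS := SN_pos hT1
  -- upper bound for the step sum
  have h1 : ∑ k ∈ Finset.range n, c k * WP T (ic (Ioc (x k) (x (k + 1)))) ≤ WP T ((Ioc a b).indicator h) := by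
    rw [← WP_sum]
    apply WP_mono
    intro y
    have := step_le x hx1 c h n (by rw [hx0, hxn]; exact hh) (by
      intro k hk y hy
      rw [hc]
      apply max_le
      · apply hh
        have h1 : a ≤ x k := by rw [← hx0]; exact hmono.monotone (Nat.zero_le k)
        have h2 : x (k + 1) ≤ b := by rw [← hxn]; exact hmono.monotone (by omega)
        exact ⟨h1.trans hy.1.le, hy.2.trans h2⟩
      · have := (abs_lt.mp (hcell k hk y ⟨hy.1.le, hy.2⟩)).1
        linarith only [this]) y
    rwa [hx0, hxn] at this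
  -- lower bound for the integrals
  have hi : ∀ a b : ℝ, IntervalIntegrable (fun u => h u * pcDensity u) volume a b := fun a b =>
    (intervalIntegrable_pcDensity a b).continuousOn_mul hhc.continuousOn
  have h2 : (∫ u in a..b, h u * pcDensity u) - δ / 2 ≤ ∑ k ∈ Finset.range n, c k * ∫ u in (x k)..(x (k + 1)), pcDensity u := by
    have e1 : ∫ u in a..b, h u * pcDensity u = ∑ k ∈ Finset.range n, ∫ u in (x k)..(x (k + 1)), h u * pcDensity u := by
      rw [intervalIntegral.sum_integral_adjacent_intervals (fun k _ => hi _ _), hx0, hxn]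
    rw [e1]
    have h3 : ∀ k ∈ Finset.range n, (∫ u in (x k)..(x (k + 1)), h u * pcDensity u) ≤ c k * (∫ u in (x k)..(x (k + 1)), pcDensity u) + 2 * η * d := by
      intro k hk
      rw [Finset.mem_range] at hk
      have h4 : ∫ u in (x k)..(x (k + 1)), h u * pcDensity u ≤ ∫ u in (x k)..(x (k + 1)), (c k * pcDensity u + 2 * η) := by
        apply intervalIntegral.integral_mono_on (hx1 k).le (hi _ _)
          (((intervalIntegrable_pcDensity _ _).const_mul _).add intervalIntegrable_const)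
        intro u hu
        have h5 := (abs_lt.mp (hcell k hk u hu)).2
        have h6 : h u ≤ c k + 2 * η := by
          have : h (x k) - η ≤ c k := le_max_right _ _
          linarith only [h5, this]
        have h7 := pcDensity_nonneg u
        have h8 := pcDensity_le_one u
        nlinarith only [hη0, h6, h7, h8]
      rw [intervalIntegral.integral_add ((intervalIntegrable_pcDensity _ _).const_mul _) intervalIntegrable_const,
        intervalIntegral.integral_const_mul, intervalIntegral.integral_const, smul_eq_mul] at h4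
      have h9 : x (k + 1) - x k = d := by rw [hx]; simp only; push_cast; ring
      rw [h9] at h4
      linarith only [h4]
    have h10 := Finset.sum_le_sum h3
    rw [Finset.sum_add_distrib, Finset.sum_const, Finset.card_range, nsmul_eq_mul] at h10
    have h11 : (n:ℝ) * (2 * η * d) = δ / 2 := by
      rw [hη, hd]; field_simp; ring
    linarith only [h10, h11]
  have h3 : ((∫ u in a..b, h u * pcDensity u) - δ) * SN T ≤ ((∑ k ∈ Finset.range n, c k * ∫ u in (x k)..(x (k + 1)), pcDensity u) - δ / 2) * SN T := by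
    apply mul_le_mul_of_nonneg_right _ hS.le
    linarith only [h2]
  linarith only [hT, h1, h3]

end Pool.Agent.Helper57.LH

end
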