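import Pool.Agent.Helper57.M.E

/-!
# Merged library file (short import chain), part G
-/

/-! ### Helper4.PC.Tri -/

section

namespace Pool.Agent.Helper4.PC

open Set MeasureTheory Filter Topology

open Pool.Agent.Helper57.LH (sc sc_cont sc_even sc_integrable sc_nonneg sc_le_one sc_integral sc_eq sc_zero sc_decay Gm gs gs_eq)

/-- the triangle function -/
noncomputable def tri (ξ : ℝ) : ℝ := max 0 (1 - |ξ|)

lemma tri_cont : Continuous tri := by unfold tri; fun_prop

lemma tri_nonneg (ξ : ℝ) : 0 ≤ tri ξ := le_max_left _ _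

lemma tri_le_one (ξ : ℝ) : tri ξ ≤ 1 := by
  unfold tri
  apply max_le (by norm_num)
  linarith only [abs_nonneg ξ]

lemma tri_even (ξ : ℝ) : tri (-ξ) = tri ξ := by unfold tri; rw [abs_neg]

lemma tri_zero_of {ξ : ℝ} (h : 1 ≤ |ξ|) : tri ξ = 0 := by
  unfold tri; rw [max_eq_left]; linarith

lemma tri_of {ξ : ℝ} (h : |ξ| ≤ 1) : tri ξ = 1 - |ξ| := by
  unfold tri; rw [max_eq_right]; linarith

lemma tri_compact : HasCompactSupport tri := by
  apply HasCompactSupport.of_support_subset_isCompact (isCompact_Icc (a := -1) (b := 1))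
  intro x hx
  by_contra h
  apply hx
  apply tri_zero_of
  by_contra h2
  push Not at h2
  exact h (abs_le.mp h2.le)

lemma tri_integrable : Integrable tri := tri_cont.integrable_of_hasCompactSupport tri_compact

lemma CT_tri (u : ℝ) : CT tri u = sc u := by
  unfold CT sc
  have h1 : (fun ξ => tri ξ * Real.cos (2 * Real.pi * u * ξ)) = fun ξ => (fun x => max 0 (1 - x) * Real.cos (2 * Real.pi * u * x)) |ξ| := by
    funext ξ
    unfold tri
    simp only
    congr 1
    rcases abs_choice ξ with h | h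
    · rw [h]
    · rw [h, ← Real.cos_neg]; congr 1; ring
  rw [h1, integral_comp_abs (f := fun x => max 0 (1 - x) * Real.cos (2 * Real.pi * u * x)), gs_eq]
  have h2 : ∫ x in Ioi (0:ℝ), max 0 (1 - x) * Real.cos (2 * Real.pi * u * x) = ∫ x in (0:ℝ)..1, (1 - x) * Real.cos (2 * Real.pi * u * x) := by
    rw [intervalIntegral.integral_of_le zero_le_one]
    rw [setIntegral_eq_of_subset_of_forall_sdiff_eq_zero (s := Ioc 0 1) measurableSet_Ioi Ioc_subset_Ioi_self]
    · apply setIntegral_congr_fun measurableSet_Ioc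
      intro x hx
      simp only
      rw [max_eq_right (by linarith [hx.2])]
    · intro x hx
      have h1 : 0 < x := hx.1
      have h3 : 1 < x := by
        by_contra h4
        push Not at h4
        exact hx.2 ⟨h1, h4⟩
      rw [max_eq_left (by linarith only [h3]), zero_mul]
  rw [h2]
  have hpi : (2 * Real.pi) ≠ 0 := by positivity
  have h3 := intervalIntegral.integral_comp_mul_left (a := (0:ℝ)) (b := 1) (fun x => (1 - x / (2 * Real.pi)) * (Real.cosh (0 * x) * Real.cos (u * x))) hpi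
  rw [mul_zero, mul_one, smul_eq_mul] at h3
  have h4 : ∫ x in (0:ℝ)..(2 * Real.pi), (1 - x / (2 * Real.pi)) * (Real.cosh (0 * x) * Real.cos (u * x)) =
      (2 * Real.pi) * ∫ x in (0:ℝ)..1, (1 - x) * Real.cos (2 * Real.pi * u * x) := by
    have h5 : ∫ x in (0:ℝ)..1, (1 - x) * Real.cos (2 * Real.pi * u * x) = ∫ x in (0:ℝ)..1, (1 - (2 * Real.pi * x) / (2 * Real.pi)) * (Real.cosh (0 * (2 * Real.pi * x)) * Real.cos (u * (2 * Real.pi * x))) := by
      apply intervalIntegral.integral_congr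
      intro x _
      simp only
      rw [zero_mul, Real.cosh_zero, one_mul, mul_div_cancel_left₀ _ hpi]
      congr 2; ring
    rw [h5, h3, ← mul_assoc, mul_inv_cancel₀ hpi, one_mul]
  rw [h4, ← mul_assoc, div_mul_cancel₀ _ hpi]

lemma CT_tri_fun : CT tri = sc := funext CT_tri

lemma CT_sc (x : ℝ) : CT sc x = tri x := by
  have h := CT_CT tri_cont tri_integrable tri_even (by rw [CT_tri_fun]; exact sc_integrable) x
  rwa [CT_tri_fun] at h

lemma CT_sc_fun : CT sc = tri := funext CT_sc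

lemma conv_even_eq {A S : ℝ → ℝ} (hA : Integrable A) (hS : Integrable S) (hSe : ∀ x, S (-x) = S x) (u : ℝ) :
    ∫ s, S s * CT A (u - s) = CT (fun ξ => A ξ * CT S ξ) u := by
  rw [CT_mul_CT hA hS]
  have h : ∫ s, S s * CT A (-u - s) = ∫ s, S s * CT A (u - s) := by
    rw [← integral_neg_eq_self (fun s => S s * CT A (-u - s)) volume]
    congr 1; funext s
    rw [hSe, ← CT_even A (u - s)]
    congr 2; ring
  rw [h]; ring

lemma CT_tri_sq (y : ℝ) : CT (fun ξ => tri ξ ^ 2) y = Gm y := by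
  have h := conv_even_eq tri_integrable sc_integrable sc_even y
  rw [CT_tri_fun, CT_sc_fun] at h
  unfold Gm
  rw [h]
  congr 1; funext ξ; ring

/-- convolution square of the triangle -/
noncomputable def tri2 (y : ℝ) : ℝ := ∫ s, tri s * tri (y - s)

lemma scsq_integrable : Integrable (fun x => sc x ^ 2) := by
  refine sc_integrable.mono' (sc_cont.pow 2).aestronglyMeasurable ?_
  filter_upwards with x
  rw [Real.norm_of_nonneg (sq_nonneg _)]
  have := sc_le_one x
  have := sc_nonneg x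
  nlinarith

lemma CT_scsq (y : ℝ) : CT (fun x => sc x ^ 2) y = tri2 y := by
  have h := conv_even_eq sc_integrable tri_integrable tri_even y
  rw [CT_tri_fun, CT_sc_fun] at h
  unfold tri2
  rw [h]
  congr 1; funext ξ; ring

lemma CT_scsq_fun : CT (fun x => sc x ^ 2) = tri2 := funext CT_scsq

lemma tri2_nonneg (y : ℝ) : 0 ≤ tri2 y := integral_nonneg fun s => mul_nonneg (tri_nonneg _) (tri_nonneg _)

lemma tri2_zero_of {y : ℝ} (hy : 2 ≤ |y|) : tri2 y = 0 := by
  unfold tri2
  have : ∀ s, tri s * tri (y - s) = 0 := by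
    intro s
    rcases le_or_gt 1 |s| with h | h
    · rw [tri_zero_of h, zero_mul]
    · have h2 : 1 ≤ |y - s| := by
        have := abs_sub_abs_le_abs_sub y s
        linarith
      rw [tri_zero_of h2, mul_zero]
  simp_rw [this]
  simp

lemma tri2_cont : Continuous tri2 := by rw [← CT_scsq_fun]; exact CT_cont scsq_integrable

lemma tri2_compact : HasCompactSupport tri2 := by
  apply HasCompactSupport.of_support_subset_isCompact (isCompact_Icc (a := -2) (b := 2))
  intro x hx
  by_contra h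
  apply hx
  apply tri2_zero_of
  by_contra h2
  push Not at h2
  exact h (abs_le.mp h2.le)

lemma tri2_integrable : Integrable tri2 := tri2_cont.integrable_of_hasCompactSupport tri2_compact

lemma CT_tri2 (x : ℝ) : CT tri2 x = sc x ^ 2 := by
  have h := CT_CT (A := fun x => sc x ^ 2) (sc_cont.pow 2) scsq_integrable (fun x => by rw [sc_even]) (by rw [CT_scsq_fun]; exact tri2_integrable) x
  rwa [CT_scsq_fun] at h

lemma tri_integral : ∫ ξ, tri ξ = 1 := by
  have h := CT_tri 0
  rw [sc_zero, integral_CT_zero 0 rfl] at h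
  exact h

lemma tri2_le_one (y : ℝ) : tri2 y ≤ 1 := by
  unfold tri2
  rw [← tri_integral]
  apply integral_mono_of_nonneg
  · filter_upwards with s; exact mul_nonneg (tri_nonneg _) (tri_nonneg _)
  · exact tri_integrable
  · filter_upwards with s
    exact mul_le_of_le_one_right (tri_nonneg _) (tri_le_one _)

/-- the kernels B·tri(Bξ)² -/
noncomputable def gh (B ξ : ℝ) : ℝ := B * tri (B * ξ) ^ 2

lemma gh_nonneg {B : ℝ} (hB : 0 ≤ B) (ξ : ℝ) : 0 ≤ gh B ξ := by unfold gh; positivity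

lemma tri_sq_integrable : Integrable (fun ξ => tri ξ ^ 2) := by
  apply (tri_cont.pow 2).integrable_of_hasCompactSupport
  have := tri_compact.comp_left (g := fun x : ℝ => x ^ 2) (by simp)
  exact this

lemma gh_integrable {B : ℝ} (hB : 0 < B) : Integrable (gh B) := by
  unfold gh
  exact (tri_sq_integrable.comp_mul_left' hB.ne').const_mul B

lemma CT_gh {B : ℝ} (hB : 0 < B) (u : ℝ) : CT (gh B) u = Gm (u / B) := by
  unfold gh
  rw [CT_const_mul, CT_scale (fun ξ => tri ξ ^ 2) hB, CT_tri_sq, ← mul_assoc, mul_one_div, div_self hB.ne', one_mul]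

lemma gh_lower {B ξ : ℝ} (hB : 0 < B) (h : |ξ| ≤ 1 / (2 * B)) : B / 4 ≤ gh B ξ := by
  unfold gh
  have h1 : |B * ξ| ≤ 1 / 2 := by
    rw [abs_mul, abs_of_pos hB]
    calc B * |ξ| ≤ B * (1 / (2 * B)) := by gcongr
      _ = 1 / 2 := by field_simp
  have h2 : 1 / 2 ≤ tri (B * ξ) := by rw [tri_of (by linarith only [h1])]; linarith only [h1]
  have h3 : (1 / 2 : ℝ) ^ 2 ≤ tri (B * ξ) ^ 2 := by gcongr
  nlinarith only [hB, h3]

end Pool.Agent.Helper4.PC

end

/-! ### Helper4.PC.Tail -/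

section

namespace Pool.Agent.Helper4.PC

open Set MeasureTheory Filter Topology

open Pool.Agent.Helper57.LH (sc sc_cont sc_even sc_integrable sc_nonneg sc_le_one sc_integral sc_eq sc_zero sc_decay Gm Gm_nonneg Gm_zero_pos Gm_even scsc_integrable)

open Pool.Agent.Helper57

lemma sc_mul (t : ℝ) : sc t * (Real.pi * t) ^ 2 = Real.sin (Real.pi * t) ^ 2 := by
  by_cases h : t = 0
  · rw [h]; simp
  · rw [sc_eq h]
    unfold PC.sq
    have : Real.pi * t ≠ 0 := mul_ne_zero Real.pi_ne_zero h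
    field_simp

lemma sc_lower {x : ℝ} (hx : |x| ≤ 1 / 2) : (2 / Real.pi) ^ 2 ≤ sc x := by
  have hpi := Real.pi_pos
  by_cases h : x = 0
  · rw [h, sc_zero]
    have h3 : 2 / Real.pi ≤ 1 := by
      rw [div_le_one hpi]; linarith only [Real.pi_gt_three]
    have h4 : 0 ≤ 2 / Real.pi := by positivity
    nlinarith only [h3, h4]
  · have h0 : 0 < |x| := abs_pos.mpr h
    have h1 : sc x = sc |x| := by
      rcases abs_choice x with h | h
      · rw [h]
      · rw [h, sc_even]
    rw [h1, sc_eq h0.ne']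
    unfold PC.sq
    have h2 : 2 / Real.pi * (Real.pi * |x|) ≤ Real.sin (Real.pi * |x|) := by
      apply Real.mul_le_sin (by positivity)
      nlinarith only [hx, hpi]
    have h3 : 2 / Real.pi ≤ Real.sin (Real.pi * |x|) / (Real.pi * |x|) := by
      rw [le_div_iff₀ (by positivity)]; exact h2
    have h4 : 0 ≤ 2 / Real.pi := by positivity
    gcongr

lemma int_sin_sq (a : ℝ) : ∫ t in (a - 1 / 2)..(a + 1 / 2), Real.sin (Real.pi * t) ^ 2 = 1 / 2 := by
  have hpi := Real.pi_pos
  have h := intervalIntegral.integral_comp_mul_left (a := a - 1 / 2) (b := a + 1 / 2) (fun t => Real.sin t ^ 2) hpi.ne'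
  rw [h, integral_sin_sq, smul_eq_mul]
  have e1 : Real.pi * (a - 1 / 2) = Real.pi * a - Real.pi / 2 := by ring
  have e2 : Real.pi * (a + 1 / 2) = Real.pi * a + Real.pi / 2 := by ring
  rw [e1, e2, Real.sin_sub_pi_div_two, Real.cos_sub_pi_div_two, Real.sin_add_pi_div_two, Real.cos_add_pi_div_two]
  field_simp
  ring

lemma Gm_lower (y : ℝ) : 1 / (Real.pi ^ 4 * (1 + y ^ 2)) ≤ Gm y := by
  have hpi := Real.pi_pos
  have h1 : ∫ x in Icc (-(1/2):ℝ) (1/2), sc x * sc (y - x) ≤ Gm y := by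
    unfold Pool.Agent.Helper57.LH.Gm
    exact setIntegral_le_integral (scsc_integrable y) (by filter_upwards with x; exact mul_nonneg (sc_nonneg _) (sc_nonneg _))
  refine le_trans ?_ h1
  have hsi : ∀ a b, IntervalIntegrable sc volume a b := fun a b => sc_cont.intervalIntegrable a b
  have h2 : ∫ x in Icc (-(1/2):ℝ) (1/2), (2 / Real.pi) ^ 2 * sc (y - x) ≤ ∫ x in Icc (-(1/2):ℝ) (1/2), sc x * sc (y - x) := by
    apply setIntegral_mono_on
    · exact ((sc_integrable.comp_sub_left y).const_mul _).integrableOn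
    · exact (scsc_integrable y).integrableOn
    · exact measurableSet_Icc
    · intro x hx
      exact mul_le_mul_of_nonneg_right (sc_lower (abs_le.mpr hx)) (sc_nonneg _)
  refine le_trans ?_ h2
  rw [integral_const_mul]
  have h3 : ∫ x in Icc (-(1/2):ℝ) (1/2), sc (y - x) = ∫ t in (y - 1 / 2)..(y + 1 / 2), sc t := by
    rw [integral_Icc_eq_integral_Ioc, ← intervalIntegral.integral_of_le (by norm_num), intervalIntegral.integral_comp_sub_left (fun x => sc x) y]
    congr 1; ring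
  rw [h3]
  have h4 : ∫ t in (y - 1 / 2)..(y + 1 / 2), (1 / (Real.pi * (|y| + 1 / 2)) ^ 2) * Real.sin (Real.pi * t) ^ 2 ≤ ∫ t in (y - 1 / 2)..(y + 1 / 2), sc t := by
    apply intervalIntegral.integral_mono_on (by linarith only []) (Continuous.intervalIntegrable (by fun_prop) _ _) (hsi _ _)
    intro t ht
    rw [← sc_mul, one_div, ← div_eq_inv_mul, div_le_iff₀ (by positivity)]
    apply mul_le_mul_of_nonneg_left _ (sc_nonneg _)
    rw [mul_pow, mul_pow, ← sq_abs t]
    have h5 : |t| ≤ |y| + 1 / 2 := by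
      rw [abs_le]
      constructor
      · linarith only [ht, neg_abs_le y, ht.1]
      · linarith only [ht, le_abs_self y, ht.2]
    gcongr
  rw [intervalIntegral.integral_const_mul, int_sin_sq] at h4
  have h6 : (2 / Real.pi) ^ 2 * (1 / (Real.pi * (|y| + 1 / 2)) ^ 2 * (1 / 2)) ≤ (2 / Real.pi) ^ 2 * ∫ t in (y - 1 / 2)..(y + 1 / 2), sc t := by gcongr
  refine le_trans ?_ h6
  have h7 : (2 / Real.pi) ^ 2 * (1 / (Real.pi * (|y| + 1 / 2)) ^ 2 * (1 / 2)) = 2 / (Real.pi ^ 4 * (|y| + 1 / 2) ^ 2) := by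
    field_simp
  rw [h7, div_le_div_iff₀ (by positivity) (by positivity)]
  have h8 : (|y| + 1 / 2) ^ 2 ≤ 2 * (1 + y ^ 2) := by
    rw [← sq_abs y]
    nlinarith only [sq_nonneg (|y| - 1 / 2)]
  have h9 : 0 < Real.pi ^ 4 := by positivity
  nlinarith only [h8, h9]

/-- the normalising constant -/
noncomputable def g0 : ℝ := ∫ x, sc x ^ 2

lemma g0_eq : g0 = Gm 0 := by
  unfold g0 Pool.Agent.Helper57.LH.Gm
  congr 1; funext x
  rw [zero_sub, sc_even, pow_two]

lemma g0_pos : 0 < g0 := by rw [g0_eq]; exact Gm_zero_pos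

/-- the smoothing kernel -/
noncomputable def kk (B u : ℝ) : ℝ := (1 / (g0 * B)) * sc (u / B) ^ 2

lemma kk_nonneg {B : ℝ} (hB : 0 < B) (u : ℝ) : 0 ≤ kk B u := by
  have := g0_pos
  unfold kk; positivity

lemma kk_even (B u : ℝ) : kk B (-u) = kk B u := by unfold kk; rw [neg_div, sc_even]

lemma kk_integrable {B : ℝ} (hB : 0 < B) : Integrable (kk B) := by
  unfold kk
  exact (scsq_integrable.comp_div hB.ne').const_mul _

lemma kk_integral {B : ℝ} (hB : 0 < B) : ∫ u, kk B u = 1 := by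
  unfold kk
  rw [integral_const_mul, Measure.integral_comp_div (fun x => sc x ^ 2) B, abs_of_pos hB, smul_eq_mul]
  change 1 / (g0 * B) * (B * g0) = 1
  have := g0_pos
  field_simp

/-- the tail of the kernel -/
lemma kk_tail {B : ℝ} (hB : 0 < B) {d : ℝ} (hd : 0 ≤ d) : ∫ u in Ici d, kk B u ≤ 5 * Real.pi ^ 4 / g0 * Gm (d / B) := by
  have hpi := Real.pi_pos
  have hg := g0_pos
  have h1 : ∀ u ∈ Ici d, kk B u ≤ 5 / (g0 * (1 + (d / B) ^ 2)) * ((1 / B) * sc (u / B)) := by
    intro u hu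
    have hu' : d ≤ u := hu
    unfold kk
    have h2 : sc (u / B) ≤ 5 / (1 + (d / B) ^ 2) := by
      refine (sc_decay _).trans ?_
      unfold Pool.Agent.Helper57.LH.Kd
      rw [← div_eq_mul_inv]
      have h3 : (d / B) ^ 2 ≤ (2 * Real.pi * (u / B)) ^ 2 := by
        apply pow_le_pow_left₀ (by positivity)
        have h4 : d / B ≤ u / B := by gcongr
        have h5 : 0 ≤ u / B := le_trans (by positivity) h4
        have h6 : 1 ≤ 2 * Real.pi := by linarith only [hpi, Real.pi_gt_three]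
        nlinarith only [h4, h5, h6]
      gcongr
    have h7 := sc_nonneg (u / B)
    calc 1 / (g0 * B) * sc (u / B) ^ 2 = (1 / (g0 * B)) * (sc (u / B) * sc (u / B)) := by ring
      _ ≤ (1 / (g0 * B)) * (5 / (1 + (d / B) ^ 2) * sc (u / B)) := by gcongr
      _ = _ := by field_simp
  have hsi : Integrable (fun u => (1 / B) * sc (u / B)) := (sc_integrable.comp_div hB.ne').const_mul _
  have h2 : ∫ u in Ici d, kk B u ≤ ∫ u in Ici d, 5 / (g0 * (1 + (d / B) ^ 2)) * ((1 / B) * sc (u / B)) :=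
    setIntegral_mono_on (kk_integrable hB).integrableOn (hsi.const_mul _).integrableOn measurableSet_Ici h1
  rw [integral_const_mul] at h2
  have h3 : ∫ u in Ici d, (1 / B) * sc (u / B) ≤ 1 := by
    have h4 : ∫ u, (1 / B) * sc (u / B) = 1 := by
      rw [integral_const_mul, Measure.integral_comp_div (fun x => sc x) B, abs_of_pos hB, smul_eq_mul, sc_integral]
      field_simp
    refine le_trans (setIntegral_le_integral hsi ?_) h4.le
    filter_upwards with u
    have := sc_nonneg (u / B)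
    positivity
  have h4 : 5 / (g0 * (1 + (d / B) ^ 2)) * ∫ u in Ici d, (1 / B) * sc (u / B) ≤ 5 / (g0 * (1 + (d / B) ^ 2)) * 1 := by gcongr
  refine h2.trans (h4.trans ?_)
  have h5 := Gm_lower (d / B)
  calc 5 / (g0 * (1 + (d / B) ^ 2)) * 1 = 5 * Real.pi ^ 4 / g0 * (1 / (Real.pi ^ 4 * (1 + (d / B) ^ 2))) := by field_simp
    _ ≤ _ := by gcongr

end Pool.Agent.Helper4.PC

end

/-! ### Helper4.PC.Win -/

section

namespace Pool.Agent.Helper4.PC

open Set MeasureTheory Filter Topology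

open Pool.Agent.Helper57.LH (Gm Gm_nonneg Gm_even ic ic_apply Gm_integrable)

open Pool.Agent.Helper57

open scoped Convolution

/-- indicator of the window -/
noncomputable def Sw (α β : ℝ) : ℝ → ℝ := (Icc α β).indicator (fun _ => 1)

lemma Sw_integrable (α β : ℝ) : Integrable (Sw α β) := by
  unfold Sw
  rw [integrable_indicator_iff measurableSet_Icc]
  exact integrableOn_const (by simp)

lemma Sw_integral {α β : ℝ} (h : α ≤ β) : ∫ s, Sw α β s = β - α := by
  unfold Sw
  rw [integral_indicator measurableSet_Icc, setIntegral_const]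
  simp [Measure.real, h]

/-- the smoothed window -/
noncomputable def Wf (B α β u : ℝ) : ℝ := ∫ s, Sw α β s * kk B (u - s)

lemma Wf_eq (B α β u : ℝ) : Wf B α β u = ∫ s in Icc (u - β) (u - α), kk B s := by
  unfold Wf Sw
  have h1 : (fun s => (Icc α β).indicator (fun _ => (1:ℝ)) s * kk B (u - s)) = (Icc α β).indicator (fun s => kk B (u - s)) := by
    funext s
    by_cases hs : s ∈ Icc α β
    · rw [indicator_of_mem hs, indicator_of_mem hs, one_mul]
    · rw [indicator_of_notMem hs, indicator_of_notMem hs, zero_mul]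
  rw [h1, integral_indicator measurableSet_Icc]
  have h : MeasurePreserving (fun y : ℝ => u - y) volume volume := Measure.measurePreserving_sub_left volume u
  have h2 := h.setIntegral_preimage_emb (MeasurableEquiv.subLeft u).measurableEmbedding (kk B) (Icc (u - β) (u - α))
  rw [← h2]
  congr 2
  ext y
  simp only [mem_Icc, mem_preimage]
  constructor
  · rintro ⟨h1, h2⟩; constructor <;> linarith
  · rintro ⟨h1, h2⟩; constructor <;> linarith

lemma kk_neg_set (B : ℝ) (s : Set ℝ) : ∫ x in (fun x => -x) ⁻¹' s, kk B x = ∫ x in s, kk B x := by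
  have h : MeasurePreserving (fun y : ℝ => -y) volume volume := Measure.measurePreserving_neg volume
  have h2 := h.setIntegral_preimage_emb (MeasurableEquiv.neg ℝ).measurableEmbedding (kk B) s
  simp only [kk_even] at h2
  exact h2

/-- the constant -/
noncomputable def C3 : ℝ := 5 * Real.pi ^ 4 / g0

lemma C3_pos : 0 < C3 := by
  have := g0_pos
  unfold C3
  positivity

/-- the smoothed window is close to the window -/
theorem Wf_close {B : ℝ} (hB : 0 < B) (α β u : ℝ) :
    |ic (Icc α β) u - Wf B α β u| ≤ C3 * Gm ((u - α) / B) + C3 * Gm ((u - β) / B) := by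
  classical
  have hk0 := kk_nonneg hB
  have hki := kk_integrable hB
  have hc3 := C3_pos
  have hnn : ∀ s : Set ℝ, 0 ≤ ∫ x in s, kk B x := fun s => integral_nonneg fun x => hk0 x
  have hmono : ∀ s t : Set ℝ, s ⊆ t → ∫ x in s, kk B x ≤ ∫ x in t, kk B x := by
    intro s t hst
    apply setIntegral_mono_set hki.integrableOn
    · filter_upwards with x; exact hk0 x
    · apply LE.le.eventuallyLE; exact hst
  have hG1 := Gm_nonneg ((u - α) / B)
  have hG2 := Gm_nonneg ((u - β) / B)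
  have hGe : ∀ a b : ℝ, Gm ((a - b) / B) = Gm ((b - a) / B) := by
    intro a b
    rw [← Gm_even]
    congr 1; ring
  rw [Wf_eq, ic_apply]
  by_cases h1 : u < α
  · rw [if_neg (fun h => absurd h.1 (not_le.mpr h1)), zero_sub, abs_neg, abs_of_nonneg (hnn _)]
    have h2 : ∫ x in Icc (u - β) (u - α), kk B x ≤ ∫ x in Ici (α - u), kk B x := by
      rw [← kk_neg_set B (Ici (α - u))]
      apply hmono
      intro x hx
      simp only [mem_preimage, mem_Ici]
      linarith only [hx, hx.2]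
    have h3 := kk_tail hB (show 0 ≤ α - u by linarith only [h1])
    rw [hGe α u] at h3
    change _ ≤ C3 * _ at h3
    have h4 : 0 ≤ C3 * Gm ((u - β) / B) := by positivity
    linarith only [h2, h3, h4]
  · by_cases h2 : β < u
    · rw [if_neg (fun h => absurd h.2 (not_le.mpr h2)), zero_sub, abs_neg, abs_of_nonneg (hnn _)]
      have h3 : ∫ x in Icc (u - β) (u - α), kk B x ≤ ∫ x in Ici (u - β), kk B x := by
        apply hmono
        intro x hx
        exact hx.1
      have h4 := kk_tail hB (show 0 ≤ u - β by linarith only [h2])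
      change _ ≤ C3 * _ at h4
      have h5 : 0 ≤ C3 * Gm ((u - α) / B) := by positivity
      linarith only [h3, h4, h5]
    · push Not at h1 h2
      rw [if_pos ⟨h1, h2⟩]
      have h3 := integral_add_compl (measurableSet_Icc (a := u - β) (b := u - α)) hki
      rw [kk_integral hB] at h3
      have h4 : 1 - ∫ x in Icc (u - β) (u - α), kk B x = ∫ x in (Icc (u - β) (u - α))ᶜ, kk B x := by linarith only [h3]
      rw [h4, abs_of_nonneg (hnn _)]
      have h5 : ∫ x in (Icc (u - β) (u - α))ᶜ, kk B x ≤ ∫ x in ((fun x => -x) ⁻¹' (Ici (β - u)) ∪ Ici (u - α)), kk B x := by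
        apply hmono
        intro x hx
        rw [mem_compl_iff, mem_Icc, not_and_or, not_le, not_le] at hx
        rcases hx with hx | hx
        · left
          simp only [mem_preimage, mem_Ici]; linarith
        · right; exact hx.le
      have h6 : ∫ x in ((fun x => -x) ⁻¹' (Ici (β - u)) ∪ Ici (u - α)), kk B x ≤ (∫ x in (fun x => -x) ⁻¹' (Ici (β - u)), kk B x) + ∫ x in Ici (u - α), kk B x := by
        have hu : ((fun x : ℝ => -x) ⁻¹' (Ici (β - u)) ∪ Ici (u - α)) = ((fun x : ℝ => -x) ⁻¹' (Ici (β - u)) ∪ (Ici (u - α) \ ((fun x : ℝ => -x) ⁻¹' (Ici (β - u))))) := by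
          rw [union_diff_self]
        have hm1 : MeasurableSet ((fun x : ℝ => -x) ⁻¹' (Ici (β - u))) := measurableSet_Ici.preimage measurable_neg
        rw [hu, setIntegral_union disjoint_sdiff_right (measurableSet_Ici.diff hm1) hki.integrableOn hki.integrableOn]
        have := hmono _ _ (diff_subset (s := Ici (u - α)) (t := ((fun x : ℝ => -x) ⁻¹' (Ici (β - u)))))
        linarith only [this]
      rw [kk_neg_set] at h6
      have h7 := kk_tail hB (show 0 ≤ β - u by linarith)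
      have h8 := kk_tail hB (show 0 ≤ u - α by linarith only [h1])
      rw [hGe β u] at h7
      change _ ≤ C3 * _ at h7
      change _ ≤ C3 * _ at h8
      linarith only [h5, h6, h7, h8]

lemma Wf_conv (B α β : ℝ) : Wf B α β = (Sw α β ⋆[ContinuousLinearMap.mul ℝ ℝ, volume] kk B) := by
  funext y
  rw [convolution_def]
  rfl

lemma Wf_integrable {B : ℝ} (hB : 0 < B) (α β : ℝ) : Integrable (Wf B α β) := by
  rw [Wf_conv]
  exact Integrable.integrable_convolution _ (Sw_integrable α β) (kk_integrable hB)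

lemma Wf_integral {B : ℝ} (hB : 0 < B) {α β : ℝ} (h : α ≤ β) : ∫ y, Wf B α β y = β - α := by
  rw [Wf_conv, integral_convolution _ (Sw_integrable α β) (kk_integrable hB), Sw_integral h, kk_integral hB]
  simp

/-- the kernel on the Fourier side -/
noncomputable def Ak (B ξ : ℝ) : ℝ := (1 / g0) * tri2 (B * ξ)

lemma Ak_integrable {B : ℝ} (hB : 0 < B) : Integrable (Ak B) := by
  unfold Ak
  exact (tri2_integrable.comp_mul_left' hB.ne').const_mul _

lemma CT_Ak {B : ℝ} (hB : 0 < B) (u : ℝ) : CT (Ak B) u = kk B u := by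
  unfold Ak kk
  rw [CT_const_mul, CT_scale tri2 hB, CT_tri2, ← mul_assoc]
  congr 1
  have := g0_pos
  field_simp

lemma CT_Ak_fun {B : ℝ} (hB : 0 < B) : CT (Ak B) = kk B := funext (CT_Ak hB)

/-- Fourier side of the smoothed window -/
noncomputable def Aw (B α β ξ : ℝ) : ℝ := Ak B ξ * CT (Sw α β) ξ

lemma Aw_integrable {B : ℝ} (hB : 0 < B) (α β : ℝ) : Integrable (Aw B α β) := by
  refine ((Ak_integrable hB).norm.mul_const (∫ ξ, |Sw α β ξ|)).mono'
    ((Ak_integrable hB).aestronglyMeasurable.mul (CT_cont (Sw_integrable α β)).aestronglyMeasurable) ?_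
  filter_upwards with ξ
  unfold Aw
  rw [norm_mul]
  exact mul_le_mul_of_nonneg_left (CT_abs_le (Sw_integrable α β) _) (norm_nonneg _)

lemma CT_Aw {B : ℝ} (hB : 0 < B) (α β u : ℝ) : CT (Aw B α β) u = (1 / 2) * (Wf B α β u + Wf B α β (-u)) := by
  unfold Aw
  rw [CT_mul_CT (Ak_integrable hB) (Sw_integrable α β), CT_Ak_fun hB]
  rfl

lemma CT_Aw_integral {B : ℝ} (hB : 0 < B) {α β : ℝ} (hab : α ≤ β) : ∫ u, CT (Aw B α β) u = β - α := by
  have h : CT (Aw B α β) = fun u => (1 / 2) * (Wf B α β u + Wf B α β (-u)) := funext (CT_Aw hB α β)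
  rw [h, integral_const_mul, integral_add (Wf_integrable hB α β) (Wf_integrable hB α β).comp_neg,
    integral_neg_eq_self (Wf B α β) volume, Wf_integral hB hab]
  ring

lemma CT_Sw {α β : ℝ} (hab : α ≤ β) (ξ : ℝ) : CT (Sw α β) ξ = ∫ s in α..β, Real.cos (2 * Real.pi * ξ * s) := by
  unfold CT Sw
  have h1 : (fun s => (Icc α β).indicator (fun _ => (1:ℝ)) s * Real.cos (2 * Real.pi * ξ * s)) = (Icc α β).indicator (fun s => Real.cos (2 * Real.pi * ξ * s)) := by
    funext s
    by_cases hs : s ∈ Icc α β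
    · rw [indicator_of_mem hs, indicator_of_mem hs, one_mul]
    · rw [indicator_of_notMem hs, indicator_of_notMem hs, zero_mul]
  rw [h1, integral_indicator measurableSet_Icc, integral_Icc_eq_integral_Ioc, ← intervalIntegral.integral_of_le hab]

lemma CT_Sw_le {α β : ℝ} (hab : α ≤ β) (ξ : ℝ) : |CT (Sw α β) ξ| ≤ β - α := by
  refine (CT_abs_le (Sw_integrable α β) ξ).trans (le_of_eq ?_)
  rw [← Sw_integral hab]
  congr 1; funext s
  apply abs_of_nonneg
  exact indicator_nonneg (fun _ _ => zero_le_one) _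

lemma CT_Sw_le' {α β : ℝ} (hab : α ≤ β) (ξ : ℝ) : |CT (Sw α β) ξ| * |ξ| ≤ 1 / Real.pi := by
  have hpi := Real.pi_pos
  by_cases h : ξ = 0
  · rw [h, abs_zero, mul_zero]; positivity
  · rw [CT_Sw hab]
    have hc : 2 * Real.pi * ξ ≠ 0 := by positivity
    have h1 := intervalIntegral.integral_comp_mul_left (a := α) (b := β) Real.cos hc
    rw [h1, integral_cos, smul_eq_mul, abs_mul]
    have h2 : |Real.sin (2 * Real.pi * ξ * β) - Real.sin (2 * Real.pi * ξ * α)| ≤ 2 := by
      refine (abs_sub _ _).trans ?_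
      linarith only [Real.abs_sin_le_one (2 * Real.pi * ξ * β), Real.abs_sin_le_one (2 * Real.pi * ξ * α)]
    have h3 : |(2 * Real.pi * ξ)⁻¹| = (2 * Real.pi * |ξ|)⁻¹ := by
      rw [abs_inv, abs_mul, abs_of_pos (show 0 < 2 * Real.pi by positivity)]
    rw [h3]
    have h4 : 0 < |ξ| := abs_pos.mpr h
    calc (2 * Real.pi * |ξ|)⁻¹ * |Real.sin (2 * Real.pi * ξ * β) - Real.sin (2 * Real.pi * ξ * α)| * |ξ|
        ≤ (2 * Real.pi * |ξ|)⁻¹ * 2 * |ξ| := by gcongr
      _ = 1 / Real.pi := by field_simp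

/-- dyadic domination -/
lemma dyad {B₀ : ℝ} (hB : 0 < B₀) (J : ℕ) : ∀ ξ a : ℝ, |ξ| ≤ 1 / (2 * B₀) → a ≤ 2 * (2 ^ J * B₀) → a * |ξ| ≤ 1 / Real.pi → 
    a ≤ 8 * ∑ i ∈ Finset.range (J + 1), gh (2 ^ i * B₀) ξ := by
  induction J with
  | zero =>
    intro ξ a h1 h2 _
    have h3 := gh_lower hB h1
    simp only [zero_add, Finset.range_one, Finset.sum_singleton, pow_zero, one_mul] at h2 ⊢
    linarith only [h3, h2]
  | succ J ih =>
    intro ξ a h1 h2 h3
    have hpos : ∀ i : ℕ, 0 < 2 ^ i * B₀ := fun i => by positivity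
    have hsum : 0 ≤ ∑ i ∈ Finset.range (J + 1), gh (2 ^ i * B₀) ξ := Finset.sum_nonneg fun i _ => gh_nonneg (hpos i).le ξ
    rw [Finset.sum_range_succ]
    by_cases h4 : |ξ| ≤ 1 / (2 * (2 ^ (J + 1) * B₀))
    · have h5 := gh_lower (hpos (J + 1)) h4
      linarith only [h2, hsum, h5]
    · push Not at h4
      have h6 := gh_nonneg (hpos (J + 1)).le ξ
      have h7 := ih ξ a h1 ?_ h3
      · linarith only [h6, h7]
      · by_contra hc
        push Not at hc
        have h8 : 2 * (2 ^ J * B₀) * (1 / (2 * (2 ^ (J + 1) * B₀))) < a * |ξ| := by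
          apply mul_lt_mul'' hc h4 (by positivity) (by positivity)
        have h9 : 2 * (2 ^ J * B₀) * (1 / (2 * (2 ^ (J + 1) * B₀))) = 1 / 2 := by
          rw [pow_succ]; field_simp
        have h10 : 1 / Real.pi < 1 / 2 := by
          apply one_div_lt_one_div_of_lt (by norm_num); linarith only [Real.pi_gt_three]
        linarith only [h3, h8, h9, h10]

/-- domination of the window -/
lemma Aw_dom {B₀ : ℝ} (hB : 0 < B₀) {α β : ℝ} (hab : α ≤ β) (J : ℕ) (hJ : β - α ≤ 2 * (2 ^ J * B₀)) (ξ : ℝ) :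
    |Aw (4 * B₀) α β ξ| ≤ ∑ i ∈ Finset.range (J + 1), (8 / g0) * gh (2 ^ i * B₀) ξ := by
  have hg := g0_pos
  have hpos : ∀ i : ℕ, 0 < 2 ^ i * B₀ := fun i => by positivity
  rw [← Finset.mul_sum]
  have hsum : 0 ≤ ∑ i ∈ Finset.range (J + 1), gh (2 ^ i * B₀) ξ := Finset.sum_nonneg fun i _ => gh_nonneg (hpos i).le ξ
  unfold Aw Ak
  rw [abs_mul, abs_mul, abs_of_pos (show 0 < 1 / g0 by positivity), abs_of_nonneg (tri2_nonneg _)]
  by_cases h : |ξ| ≤ 1 / (2 * B₀)
  · have h1 := dyad hB J ξ (|CT (Sw α β) ξ|) h ((CT_Sw_le hab ξ).trans hJ) (CT_Sw_le' hab ξ)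
    have h2 := tri2_le_one (4 * B₀ * ξ)
    have h3 := tri2_nonneg (4 * B₀ * ξ)
    calc 1 / g0 * tri2 (4 * B₀ * ξ) * |CT (Sw α β) ξ| ≤ 1 / g0 * 1 * (8 * ∑ i ∈ Finset.range (J + 1), gh (2 ^ i * B₀) ξ) := by gcongr
      _ = _ := by ring
  · push Not at h
    have h2 : tri2 (4 * B₀ * ξ) = 0 := by
      apply tri2_zero_of
      rw [abs_mul, abs_of_pos (by positivity)]
      rw [div_lt_iff₀ (by positivity)] at h
      linarith only [h]
    rw [h2, mul_zero, zero_mul]
    positivity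

end Pool.Agent.Helper4.PC

end

/-! ### Helper4.PC.Main -/

section

namespace Pool.Agent.Helper4.PC

open Set MeasureTheory Filter Topology

open Pool.Agent.Helper57.LH (Gm Gm_nonneg Gm_even Gm_integral Gm_integrable ic ic_apply ic_nonneg WP WP_mono WP_nonneg WP_add WP_smul WP_neg WP_sum gB gB_cont gB_le gB_nonneg pair_bound pairCount_WP)

open Pool.Agent.Helper57.PC

open Pool.Agent.Helper57.Zeta

lemma CT_gh_fun {B : ℝ} (hB : 0 < B) : CT (gh B) = gB B := funext (CT_gh hB)

lemma gB_integral {B : ℝ} (hB : 0 < B) : ∫ u, gB B u = B := by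
  unfold gB
  rw [Measure.integral_comp_div (fun x => Gm x) B, abs_of_pos hB, smul_eq_mul, Gm_integral, mul_one]

/-- translated kernels are dominated by the central one -/
theorem WP_shift {B : ℝ} (hB : 0 < B) (T v : ℝ) : WP T (fun u => Gm ((u - v) / B)) ≤ WP T (gB B) := by
  have hA : Integrable (fun ξ => gh B ξ * Real.cos (2 * Real.pi * v * ξ)) := CT_int (gh_integrable hB) v
  have h := II_dom (muT T) hA (gh_integrable hB) (fun ξ => by
    rw [abs_mul, abs_of_nonneg (gh_nonneg hB.le ξ)]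
    exact mul_le_of_le_one_right (gh_nonneg hB.le ξ) (Real.abs_cos_le_one _))
  rw [II_muT, II_muT, CT_gh_fun hB] at h
  have h2 : CT (fun ξ => gh B ξ * Real.cos (2 * Real.pi * v * ξ)) = fun u => (1 / 2) * (Gm ((u - v) / B) + Gm ((u + v) / B)) := by
    funext u
    rw [CT_mod (gh_integrable hB), CT_gh hB, CT_gh hB]
  rw [h2, WP_smul, WP_add] at h
  have h3 : WP T (fun u => Gm ((u + v) / B)) = WP T (fun u => Gm ((u - v) / B)) := by
    rw [← WP_neg T (fun u => Gm ((u + v) / B))]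
    congr 1; funext u
    rw [← Gm_even]
    congr 1; ring
  rw [h3] at h
  have h4 := le_abs_self (1 / 2 * (WP T (fun u => Gm ((u - v) / B)) + WP T (fun u => Gm ((u - v) / B))))
  linarith only [h, h4]

lemma sum_geom (c : ℝ) (hc : 0 ≤ c) (J : ℕ) : ∑ i ∈ Finset.range (J + 1), c / (2 ^ i) ≤ 2 * c := by
  have h : ∀ J : ℕ, ∑ i ∈ Finset.range (J + 1), c / (2 ^ i) = 2 * c - c / 2 ^ J := by
    intro J
    induction J with
    | zero => simp; ring
    | succ J ih =>
      rw [Finset.sum_range_succ, ih, pow_succ]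
      field_simp
      ring
  rw [h]
  have : 0 ≤ c / 2 ^ J := by positivity
  linarith

lemma QQ_sum (μ ν : Measure ℝ) {ι : Type*} (s : Finset ι) [IsFiniteMeasure μ] [IsFiniteMeasure ν] (c : ℝ) (A : ι → ℝ → ℝ) (hA : ∀ i ∈ s, Integrable (A i)) :
    QQ μ ν (CT (fun ξ => ∑ i ∈ s, c * A i ξ)) = ∑ i ∈ s, c * QQ μ ν (CT (A i)) := by
  rw [QQ_eq μ ν (integrable_finsetSum _ fun i hi => (hA i hi).const_mul c)]
  have h1 : ∀ i ∈ s, c * QQ μ ν (CT (A i)) = ∫ ξ, c * (A i ξ * DD μ ν ξ) := by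
    intro i hi
    rw [QQ_eq μ ν (hA i hi), integral_const_mul]
  rw [Finset.sum_congr rfl h1, ← integral_finsetSum _ (fun i hi => (DD_int μ ν (hA i hi)).const_mul c)]
  congr 1; funext ξ
  rw [Finset.sum_mul]
  apply Finset.sum_congr rfl
  intro i _
  ring

end Pool.Agent.Helper4.PC

end

/-! ### Helper4.PC.NVb -/

section

namespace Pool.Agent.Helper4.PC

open Set MeasureTheory Filter Topology

open Pool.Agent.Helper57.LH (sc sc_cont sc_even sc_integrable sc_nonneg sc_le_one sc_integral sc_eq sc_zero sc_decay sc_ae Gm Gm_nonneg Gm_even Gm_integral Gm_integrable Gm_cont Gm_le WP WP_mono WP_nonneg WP_add WP_smul WP_neg WP_sum gB gB_cont gB_le gB_nonneg pair_bound)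

open Pool.Agent.Helper57.PC

open Pool.Agent.Helper57.Zeta

lemma pcDensity_measurable : Measurable pcDensity := by
  have : pcDensity = fun u => 1 - Pool.Agent.Helper57.PC.sq u := by funext u; exact pcDensity_eq u
  rw [this]
  exact measurable_const.sub measurable_sq

lemma Gm_zero_le_one : Gm 0 ≤ 1 := by
  rw [← g0_eq]
  unfold g0
  rw [← sc_integral]
  apply integral_mono scsq_integrable sc_integrable
  intro x
  have := sc_nonneg x
  have := sc_le_one x
  simp only
  nlinarith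

lemma Gs_integrable {B : ℝ} (hB : 0 < B) (v : ℝ) : Integrable (fun u => Gm ((u - v) / B)) :=
  (Gm_integrable.comp_div hB.ne').comp_sub_right v

end Pool.Agent.Helper4.PC

end

/-! ### Helper4.PC.NVc -/

section

namespace Pool.Agent.Helper4.PC

open Set MeasureTheory Filter Topology

open scoped Convolution

open Pool.Agent.Helper57.LH (sc sc_cont sc_even sc_integrable sc_nonneg sc_le_one sc_integral sc_eq sc_zero sc_decay sc_ae Gm Gm_nonneg Gm_even Gm_integral Gm_integrable Gm_cont Gm_le WP WP_mono WP_nonneg WP_add WP_smul WP_neg WP_sum gB gB_cont gB_le gB_nonneg pair_bound)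

open Pool.Agent.Helper57.PC

open Pool.Agent.Helper57.Zeta

/-- the triangle -/
noncomputable def Tr (X u : ℝ) : ℝ := X * tri (u / X)

lemma CT_Tr {X : ℝ} (hX : 0 < X) (ξ : ℝ) : CT (Tr X) ξ = X ^ 2 * sc (X * ξ) := by
  have h := CT_scale tri (B := 1 / X) (by positivity) ξ
  have e : (fun ξ => tri (1 / X * ξ)) = fun ξ => tri (ξ / X) := by funext ξ; congr 1; ring
  rw [e] at h
  unfold Tr
  rw [CT_const_mul, h, CT_tri, one_div_one_div, div_div_eq_mul_div, div_one, mul_comm ξ X]
  ring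

end Pool.Agent.Helper4.PC

end

/-! ### Helper4.PC.NVe -/

section

namespace Pool.Agent.Helper4.PC

open Set MeasureTheory Filter Topology

open scoped Convolution

open Pool.Agent.Helper57.LH (sc sc_cont sc_even sc_integrable sc_nonneg sc_le_one sc_integral sc_eq sc_zero sc_decay sc_ae Gm Gm_nonneg Gm_even Gm_integral Gm_integrable Gm_cont Gm_le WP WP_mono WP_nonneg WP_add WP_smul WP_neg WP_sum gB gB_cont gB_le gB_nonneg pair_bound ic ic_apply ic_nonneg ic_le_one pairCount_WP)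

open Pool.Agent.Helper57.PC

open Pool.Agent.Helper57.Zeta

lemma Tr_int_ic {X : ℝ} (hX : 0 < X) (u : ℝ) : Tr X u = ∫ β in (0:ℝ)..X, ic (Icc (-β) β) u := by
  classical
  have e1 : ∀ β, ic (Icc (-β) β) u = ic (Ici |u|) β := by
    intro β
    rw [ic_apply, ic_apply]
    congr 1
    rw [eq_iff_iff, mem_Icc, mem_Ici, abs_le]
  simp_rw [e1]
  rw [intervalIntegral.integral_of_le hX.le]
  unfold Pool.Agent.Helper57.LH.ic
  rw [integral_indicator measurableSet_Ici, setIntegral_const, smul_eq_mul, mul_one, measureReal_restrict_apply measurableSet_Ici]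
  unfold Tr tri
  have e : |u / X| = |u| / X := by rw [abs_div, abs_of_pos hX]
  rw [e, mul_max_of_nonneg _ _ hX.le, mul_zero, mul_sub, mul_one, mul_div_cancel₀ _ hX.ne']
  rcases (abs_nonneg u).eq_or_lt with h0 | h0
  · have : Ici |u| ∩ Ioc 0 X = Ioc 0 X := by
      apply inter_eq_right.mpr
      intro x hx
      rw [← h0]; exact hx.1.le
    rw [this, ← h0, Real.volume_real_Ioc_of_le hX.le]
    simp [hX.le]
  · have : Ici |u| ∩ Ioc 0 X = Icc |u| X := by
      ext x
      simp only [mem_inter_iff, mem_Ici, mem_Ioc, mem_Icc]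
      constructor
      · rintro ⟨h1, h2, h3⟩; exact ⟨h1, h3⟩
      · rintro ⟨h1, h2⟩; exact ⟨h1, by linarith only [h0, h1], h2⟩
    rw [this]
    rcases le_or_gt |u| X with h1 | h1
    · rw [Real.volume_real_Icc_of_le h1, max_eq_right (by linarith only [h1])]
    · rw [Icc_eq_empty (not_le.mpr h1), max_eq_left (by linarith)]
      simp

lemma ic_beta_int (u c d : ℝ) : IntervalIntegrable (fun β => ic (Icc (-β) β) u) volume c d := by
  have e1 : (fun β => ic (Icc (-β) β) u) = fun β => ic (Ici |u|) β := by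
    classical
    funext β
    rw [ic_apply, ic_apply]
    congr 1
    rw [eq_iff_iff, mem_Icc, mem_Ici, abs_le]
  rw [e1, intervalIntegrable_iff]
  unfold uIoc
  apply Integrable.of_bound (C := 1)
  · exact (measurable_const.indicator measurableSet_Ici).aestronglyMeasurable
  · filter_upwards with x
    rw [Real.norm_of_nonneg (ic_nonneg _ _)]
    exact ic_le_one _ _

end Pool.Agent.Helper4.PC

end

/-! ### Helper4.PC.Unif -/

section

namespace Pool.Agent.Helper4.PC

open Set MeasureTheory Filter Topology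

open Pool.Agent.Helper57.LH (Gm ic ic_apply ic_nonneg ic_le_one WP WP_mono WP_nonneg WP_add WP_smul pairCount_WP int_F_le int_sq_le_half)

open Pool.Agent.Helper57.PC

open Pool.Agent.Helper57.Zeta

lemma int_F_close {α β : ℝ} (hα : 0 ≤ α) (hαβ : α ≤ β) : |(∫ u in α..β, pcDensity u) - (β - α)| ≤ 1 / 2 := by
  have h1 := int_sq_le_half hα hαβ
  have h2 : ∫ u in α..β, pcDensity u = (β - α) - ∫ u in α..β, Pool.Agent.Helper57.PC.sq u := by
    have h3 : ∫ u in α..β, pcDensity u = ∫ u in α..β, (1 - Pool.Agent.Helper57.PC.sq u) := by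
      apply intervalIntegral.integral_congr
      intro u _
      exact pcDensity_eq u
    rw [h3, intervalIntegral.integral_sub intervalIntegrable_const (intervalIntegrable_sq α β)]
    simp
  have h4 : 0 ≤ ∫ u in α..β, Pool.Agent.Helper57.PC.sq u := intervalIntegral.integral_nonneg hαβ fun u _ => Pool.Agent.Helper57.PC.sq_nonneg' u
  rw [h2, abs_le]
  constructor <;> linarith

lemma integral_WP (T : ℝ) {c d : ℝ} (f : ℝ → ℝ → ℝ) (hf : ∀ u, IntervalIntegrable (fun s => f s u) volume c d) :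
    ∫ s in c..d, WP T (f s) = WP T (fun u => ∫ s in c..d, f s u) := by
  unfold Pool.Agent.Helper57.LH.WP
  rw [intervalIntegral.integral_finsetSum]
  · apply Finset.sum_congr rfl
    intro p _
    rw [intervalIntegral.integral_const_mul]
  · intro p _
    exact (hf _).const_mul _

end Pool.Agent.Helper4.PC

end

/-! ### Helper4.PU.Wt -/

section

namespace Pool.Agent.Helper4.PU

open Set MeasureTheory Filter Topology

open scoped Convolution

open Pool.Agent.Helper57.LH (sc sc_cont sc_even sc_integrable sc_nonneg sc_le_one sc_integral sc_eq sc_zero sc_decay Gm Gm_nonneg Gm_even Gm_integrable Gm_conv gB)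

open Pool.Agent.Helper57

open Pool.Agent.Helper4.PC

/-- the weight -/
noncomputable def om (s : ℝ) : ℝ := 1 + Real.sqrt |s|

lemma om_ge (s : ℝ) : 1 ≤ om s := by
  unfold om
  have := Real.sqrt_nonneg |s|
  linarith

lemma om_pos (s : ℝ) : 0 < om s := lt_of_lt_of_le one_pos (om_ge s)

lemma om_cont : Continuous om := by
  unfold om
  exact continuous_const.add (Real.continuous_sqrt.comp continuous_abs)

lemma om_add (x y : ℝ) : om (x + y) ≤ om x * om y := by
  unfold om
  have h1 : Real.sqrt |x + y| ≤ Real.sqrt |x| + Real.sqrt |y| := by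
    refine (Real.sqrt_le_sqrt (abs_add_le x y)).trans ?_
    rw [Real.sqrt_le_left (by positivity)]
    have h2 := Real.sq_sqrt (abs_nonneg x)
    have h3 := Real.sq_sqrt (abs_nonneg y)
    have h4 := Real.sqrt_nonneg |x|
    have h5 := Real.sqrt_nonneg |y|
    nlinarith [mul_nonneg h4 h5]
  have h4 := Real.sqrt_nonneg |x|
  have h5 := Real.sqrt_nonneg |y|
  nlinarith only [h1, h4, h5, mul_nonneg h4 h5]

lemma om_neg (s : ℝ) : om (-s) = om s := by unfold om; rw [abs_neg]

lemma om_mul {B : ℝ} (hB : 1 ≤ B) (s : ℝ) : om (B * s) ≤ B * om s := by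
  unfold om
  rw [abs_mul, abs_of_pos (by linarith), Real.sqrt_mul (by linarith)]
  have h1 : Real.sqrt B ≤ B := by
    rw [Real.sqrt_le_left (by linarith)]
    nlinarith only [hB]
  have h2 := Real.sqrt_nonneg |s|
  nlinarith

lemma om_mono {x y : ℝ} (h : |x| ≤ |y|) : om x ≤ om y := by
  unfold om
  have := Real.sqrt_le_sqrt h
  linarith

/-- weighted L¹ bound -/
def Wb (M : ℝ) (φ : ℝ → ℝ) : Prop := Integrable (fun s => om s * φ s) ∧ ∫ s, om s * |φ s| ≤ M

lemma Wb.meas {M : ℝ} {φ : ℝ → ℝ} (h : Wb M φ) : AEStronglyMeasurable φ volume := by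
  have h1 : φ = fun s => (om s)⁻¹ * (om s * φ s) := by
    funext s
    rw [← mul_assoc, inv_mul_cancel₀ (om_pos s).ne', one_mul]
  rw [h1]
  exact (om_cont.inv₀ (fun s => (om_pos s).ne')).aestronglyMeasurable.mul h.1.aestronglyMeasurable

lemma Wb.absint {M : ℝ} {φ : ℝ → ℝ} (h : Wb M φ) : Integrable (fun s => om s * |φ s|) := by
  have := h.1.abs
  refine this.congr ?_
  filter_upwards with s
  rw [abs_mul, abs_of_pos (om_pos s)]

lemma Wb.int {M : ℝ} {φ : ℝ → ℝ} (h : Wb M φ) : Integrable φ := by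
  refine h.absint.mono' h.meas ?_
  filter_upwards with s
  rw [Real.norm_eq_abs]
  have := om_ge s
  nlinarith [abs_nonneg (φ s)]

lemma Wb.norm_le {M : ℝ} {φ : ℝ → ℝ} (h : Wb M φ) : ∫ s, |φ s| ≤ M := by
  refine le_trans ?_ h.2
  apply integral_mono h.int.abs h.absint
  intro s
  simp only
  have := om_ge s
  nlinarith [abs_nonneg (φ s)]

lemma Wb.nonneg {M : ℝ} {φ : ℝ → ℝ} (h : Wb M φ) : 0 ≤ M :=
  (integral_nonneg fun _ => abs_nonneg _).trans h.norm_le

lemma Wb.mono {M M' : ℝ} {φ : ℝ → ℝ} (h : Wb M φ) (hM : M ≤ M') : Wb M' φ := ⟨h.1, h.2.trans hM⟩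

lemma Wb.add {M M' : ℝ} {φ ψ : ℝ → ℝ} (h : Wb M φ) (h' : Wb M' ψ) : Wb (M + M') (fun s => φ s + ψ s) := by
  refine ⟨?_, ?_⟩
  · refine (h.1.add h'.1).congr ?_
    filter_upwards with s
    simp only [Pi.add_apply]; ring
  · have h1 : ∫ s, om s * |φ s + ψ s| ≤ ∫ s, (om s * |φ s| + om s * |ψ s|) := by
      apply integral_mono_of_nonneg
      · filter_upwards with s
        have := om_pos s
        positivity
      · exact h.absint.add h'.absint
      · filter_upwards with s
        have := om_pos s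
        have := abs_add_le (φ s) (ψ s)
        nlinarith
    rw [integral_add h.absint h'.absint] at h1
    linarith [h.2, h'.2]

lemma Wb.smul {M : ℝ} {φ : ℝ → ℝ} (h : Wb M φ) (c : ℝ) : Wb (|c| * M) (fun s => c * φ s) := by
  refine ⟨?_, ?_⟩
  · refine (h.1.const_mul c).congr ?_
    filter_upwards with s
    ring
  · have : ∀ s, om s * |c * φ s| = |c| * (om s * |φ s|) := by
      intro s; rw [abs_mul]; ring
    simp_rw [this]
    rw [integral_const_mul]
    exact mul_le_mul_of_nonneg_left h.2 (abs_nonneg c)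

lemma Wb.neg {M : ℝ} {φ : ℝ → ℝ} (h : Wb M φ) : Wb M (fun s => φ (-s)) := by
  refine ⟨?_, ?_⟩
  · have := h.1.comp_neg
    refine this.congr ?_
    filter_upwards with s
    rw [om_neg]
  · have := integral_neg_eq_self (fun s => om s * |φ s|) volume
    simp only [om_neg] at this
    rw [this]
    exact h.2

lemma Wb.scale {M : ℝ} {φ : ℝ → ℝ} (h : Wb M φ) {B : ℝ} (hB : 1 ≤ B) : Wb (B ^ 2 * M) (fun s => φ (s / B)) := by
  have hB0 : 0 < B := by linarith
  have i1 : Integrable (fun s => om (s / B) * |φ (s / B)|) := h.absint.comp_div hB0.ne'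
  have hle : ∀ s, om s ≤ B * om (s / B) := by
    intro s
    have := om_mul hB (s / B)
    rwa [mul_div_cancel₀ _ hB0.ne'] at this
  refine ⟨?_, ?_⟩
  · refine (i1.const_mul B).mono' (om_cont.aestronglyMeasurable.mul (h.int.comp_div hB0.ne').aestronglyMeasurable) ?_
    filter_upwards with s
    rw [norm_mul, Real.norm_of_nonneg (om_pos s).le, Real.norm_eq_abs]
    have := hle s
    have := abs_nonneg (φ (s / B))
    nlinarith
  · have h1 : ∫ s, om s * |φ (s / B)| ≤ ∫ s, B * (om (s / B) * |φ (s / B)|) := by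
      apply integral_mono_of_nonneg
      · filter_upwards with s
        have := om_pos s
        positivity
      · exact i1.const_mul _
      · filter_upwards with s
        have := hle s
        have := abs_nonneg (φ (s / B))
        nlinarith
    rw [integral_const_mul, Measure.integral_comp_div (fun s => om s * |φ s|) B, abs_of_pos hB0, smul_eq_mul] at h1
    have h2 : B * (B * ∫ s, om s * |φ s|) ≤ B * (B * M) := by
      gcongr
      exact h.2
    calc ∫ s, om s * |φ (s / B)| ≤ B * (B * M) := h1.trans h2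
      _ = _ := by ring

lemma Wb_of_le {M : ℝ} {φ ψ : ℝ → ℝ} (h : Wb M ψ) (hm : AEStronglyMeasurable φ volume) (hle : ∀ s, |φ s| ≤ |ψ s|) : Wb M φ := by
  refine ⟨?_, ?_⟩
  · refine h.absint.mono' (om_cont.aestronglyMeasurable.mul hm) ?_
    filter_upwards with s
    rw [norm_mul, Real.norm_of_nonneg (om_pos s).le, Real.norm_eq_abs]
    exact mul_le_mul_of_nonneg_left (hle s) (om_pos s).le
  · refine le_trans ?_ h.2
    apply integral_mono_of_nonneg
    · filter_upwards with s
      have := om_pos s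
      positivity
    · exact h.absint
    · filter_upwards with s
      exact mul_le_mul_of_nonneg_left (hle s) (om_pos s).le

lemma Wb.conv {M M' : ℝ} {φ ψ : ℝ → ℝ} (h : Wb M φ) (h' : Wb M' ψ) : Wb (M * M') (φ ⋆[ContinuousLinearMap.mul ℝ ℝ, volume] ψ) := by
  have hM := h.nonneg
  have hM' := h'.nonneg
  set F : ℝ → ℝ := fun s => om s * |φ s| with hF
  set G : ℝ → ℝ := fun s => om s * |ψ s| with hG
  have iF : Integrable F := h.absint
  have iG : Integrable G := h'.absint
  have iFG : Integrable (F ⋆[ContinuousLinearMap.mul ℝ ℝ, volume] G) := Integrable.integrable_convolution _ iF iG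
  have iab : Integrable ((fun s => |φ s|) ⋆[ContinuousLinearMap.mul ℝ ℝ, volume] (fun s => |ψ s|)) :=
    Integrable.integrable_convolution _ h.int.abs h'.int.abs
  have icv : Integrable (φ ⋆[ContinuousLinearMap.mul ℝ ℝ, volume] ψ) := Integrable.integrable_convolution _ h.int h'.int
  have hae : ∀ᵐ x : ℝ, om x * |(φ ⋆[ContinuousLinearMap.mul ℝ ℝ, volume] ψ) x| ≤ (F ⋆[ContinuousLinearMap.mul ℝ ℝ, volume] G) x := by
    have h1 := Integrable.ae_convolution_exists (L := ContinuousLinearMap.mul ℝ ℝ) (μ := (volume : Measure ℝ)) (ν := volume) iF iG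
    filter_upwards [h1] with x hx
    have h2 : Integrable (fun t => F t * G (x - t)) := hx
    rw [convolution_def, convolution_def]
    simp only [ContinuousLinearMap.mul_apply']
    have h3 : |∫ t, φ t * ψ (x - t)| ≤ ∫ t, |φ t * ψ (x - t)| := norm_integral_le_integral_norm (μ := volume) (fun t => φ t * ψ (x - t))
    have hox := om_pos x
    calc om x * |∫ t, φ t * ψ (x - t)| ≤ om x * ∫ t, |φ t * ψ (x - t)| := by gcongr
      _ = ∫ t, om x * |φ t * ψ (x - t)| := by rw [integral_const_mul]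
      _ ≤ ∫ t, F t * G (x - t) := by
          apply integral_mono_of_nonneg
          · filter_upwards with t
            positivity
          · exact h2
          · filter_upwards with t
            rw [hF, hG]
            simp only
            rw [abs_mul]
            have h4 := om_add t (x - t)
            rw [add_sub_cancel] at h4
            have h5 := mul_nonneg (abs_nonneg (φ t)) (abs_nonneg (ψ (x - t)))
            nlinarith only [h4, h5]
  refine ⟨?_, ?_⟩
  · refine iFG.mono' (om_cont.aestronglyMeasurable.mul icv.aestronglyMeasurable) ?_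
    filter_upwards [hae] with x hx
    rwa [norm_mul, Real.norm_of_nonneg (om_pos x).le, Real.norm_eq_abs]
  · have h1 : ∫ x, om x * |(φ ⋆[ContinuousLinearMap.mul ℝ ℝ, volume] ψ) x| ≤ ∫ x, (F ⋆[ContinuousLinearMap.mul ℝ ℝ, volume] G) x := by
      apply integral_mono_of_nonneg
      · filter_upwards with s
        have := om_pos s
        positivity
      · exact iFG
      · exact hae
    rw [integral_convolution _ iF iG] at h1
    simp only [ContinuousLinearMap.mul_apply'] at h1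
    refine h1.trans ?_
    have h2 : 0 ≤ ∫ x, F x := integral_nonneg fun s => mul_nonneg (om_pos s).le (abs_nonneg _)
    have h3 : 0 ≤ ∫ x, G x := integral_nonneg fun s => mul_nonneg (om_pos s).le (abs_nonneg _)
    exact mul_le_mul h.2 h'.2 h3 hM

lemma om_le_rpow (s : ℝ) : om s ≤ 2 * (1 + |s|) ^ (1/2 : ℝ) := by
  unfold om
  rw [← Real.sqrt_eq_rpow]
  have h1 : Real.sqrt |s| ≤ Real.sqrt (1 + |s|) := Real.sqrt_le_sqrt (by linarith)
  have h2 : 1 ≤ Real.sqrt (1 + |s|) := by
    rw [Real.one_le_sqrt]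
    linarith only [abs_nonneg s]
  linarith

lemma exists_Wb_sc : ∃ W : ℝ, 0 < W ∧ Wb W sc := by
  have hi : Integrable (fun s : ℝ => (1 + ‖s‖) ^ (-(3/2) : ℝ)) := integrable_one_add_norm (by
    simp only [Module.finrank_self, Nat.cast_one]; norm_num)
  have hle : ∀ s, om s * |sc s| ≤ 20 * (1 + ‖s‖) ^ (-(3/2) : ℝ) := by
    intro s
    have h1 := om_le_rpow s
    have h2 : sc s ≤ 10 * (1 + |s|) ^ (-(2) : ℝ) := by
      refine (sc_decay s).trans ?_
      unfold Pool.Agent.Helper57.LH.Kd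
      have hpi := Real.pi_gt_three
      have h3 : (1 + |s|) ^ 2 ≤ 2 * (1 + (2 * Real.pi * s) ^ 2) := by
        have h4 : s ^ 2 ≤ (2 * Real.pi * s) ^ 2 := by
          rw [mul_pow]
          have : 1 ≤ (2 * Real.pi) ^ 2 := by nlinarith only [hpi]
          nlinarith only [this, sq_nonneg s]
        nlinarith [sq_abs s, sq_nonneg (1 - |s|)]
      have h5 : (1 + |s|) ^ (-(2) : ℝ) = ((1 + |s|) ^ 2)⁻¹ := by
        rw [Real.rpow_neg (by positivity)]
        norm_num
      rw [h5]
      have h6 : (1 + (2 * Real.pi * s) ^ 2)⁻¹ ≤ 2 * ((1 + |s|) ^ 2)⁻¹ := by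
        rw [← div_eq_mul_inv, inv_eq_one_div, div_le_div_iff₀ (by positivity) (by positivity)]
        linarith only [h3]
      linarith only [h6]
    have h0 := sc_nonneg s
    rw [abs_of_nonneg h0, Real.norm_eq_abs]
    have h7 : (1 + |s|) ^ (-(3/2) : ℝ) = (1 + |s|) ^ (1/2 : ℝ) * (1 + |s|) ^ (-(2) : ℝ) := by
      rw [← Real.rpow_add (by positivity)]
      norm_num
    rw [h7]
    calc om s * sc s ≤ (2 * (1 + |s|) ^ (1/2 : ℝ)) * (10 * (1 + |s|) ^ (-(2) : ℝ)) := by gcongr
      _ = _ := by ring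
  have i1 : Integrable (fun s => om s * sc s) := by
    refine (hi.const_mul 20).mono' (om_cont.mul sc_cont).aestronglyMeasurable ?_
    filter_upwards with s
    rw [norm_mul, Real.norm_of_nonneg (om_pos s).le, Real.norm_eq_abs]
    exact hle s
  refine ⟨(∫ s, om s * |sc s|) + 1, ?_, i1, by linarith⟩
  have : 0 ≤ ∫ s, om s * |sc s| := integral_nonneg fun s => mul_nonneg (om_pos s).le (abs_nonneg _)
  linarith

/-- the basic constant -/
noncomputable def W0 : ℝ := exists_Wb_sc.choose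

lemma W0_pos : 0 < W0 := exists_Wb_sc.choose_spec.1

lemma Wb_sc : Wb W0 sc := exists_Wb_sc.choose_spec.2

lemma Wb_scsq : Wb W0 (fun x => sc x ^ 2) := by
  apply Wb_of_le Wb_sc
  · apply Continuous.aestronglyMeasurable
    exact sc_cont.pow 2
  · intro s
    have h1 := sc_nonneg s
    have h2 := sc_le_one s
    rw [abs_of_nonneg h1, abs_of_nonneg (sq_nonneg (sc s))]
    nlinarith

lemma Wb_Gm : Wb (W0 ^ 2) Gm := by
  rw [Gm_conv, pow_two]
  exact Wb_sc.conv Wb_sc

lemma Wb_gB {B : ℝ} (hB : 1 ≤ B) : Wb (B ^ 2 * W0 ^ 2) (gB B) := Wb_Gm.scale hB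

lemma Wb_kk {B : ℝ} (hB : 1 ≤ B) : Wb (B * W0 / g0) (kk B) := by
  have hg := g0_pos
  have h := (Wb_scsq.scale hB).smul (1 / (g0 * B))
  rw [abs_of_pos (by positivity)] at h
  have e : 1 / (g0 * B) * (B ^ 2 * W0) = B * W0 / g0 := by field_simp
  rw [e] at h
  exact h

lemma Wb_Sw {α β R : ℝ} (hab : α ≤ β) (h1 : |α| ≤ R) (h2 : |β| ≤ R) : Wb ((β - α) * om R) (Sw α β) := by
  have hle : ∀ s, om s * |Sw α β s| ≤ om R * Sw α β s := by
    intro s
    unfold Sw
    by_cases h : s ∈ Icc α β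
    · rw [indicator_of_mem h, abs_one]
      have h3 : |s| ≤ |R| := by
        rw [abs_of_nonneg ((abs_nonneg α).trans h1)]
        rw [abs_le] at h1 h2 ⊢
        exact ⟨by linarith only [h1, h, h.1, h1.1], by linarith [h.2, h2.2]⟩
      have := om_mono h3
      linarith
    · rw [indicator_of_notMem h, abs_zero]
      simp
  have hi := Sw_integrable α β
  refine ⟨?_, ?_⟩
  · refine (hi.const_mul (om R)).mono' (om_cont.aestronglyMeasurable.mul hi.aestronglyMeasurable) ?_
    filter_upwards with s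
    rw [norm_mul, Real.norm_of_nonneg (om_pos s).le, Real.norm_eq_abs]
    exact hle s
  · have h3 : ∫ s, om s * |Sw α β s| ≤ ∫ s, om R * Sw α β s := by
      apply integral_mono_of_nonneg
      · filter_upwards with s
        have := om_pos s
        positivity
      · exact hi.const_mul _
      · filter_upwards with s; exact hle s
    rw [integral_const_mul, Sw_integral hab] at h3
    linarith

lemma Wb_Wf {B α β R : ℝ} (hB : 1 ≤ B) (hab : α ≤ β) (h1 : |α| ≤ R) (h2 : |β| ≤ R) :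
    Wb ((β - α) * om R * (B * W0 / g0)) (Wf B α β) := by
  rw [Wf_conv]
  exact (Wb_Sw hab h1 h2).conv (Wb_kk hB)

lemma Wb_CT_Aw {B α β R : ℝ} (hB : 1 ≤ B) (hab : α ≤ β) (h1 : |α| ≤ R) (h2 : |β| ≤ R) :
    Wb ((β - α) * om R * (B * W0 / g0)) (CT (Aw B α β)) := by
  have e : CT (Aw B α β) = fun u => (1 / 2) * (Wf B α β u + Wf B α β (-u)) := funext (CT_Aw (by linarith) α β)
  rw [e]
  have h := Wb_Wf hB hab h1 h2
  have h3 := (h.add h.neg).smul (1 / 2)
  rw [abs_of_pos (by norm_num)] at h3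
  refine h3.mono (le_of_eq (by ring))

end Pool.Agent.Helper4.PU

end

/-! ### Helper4.PU.Asy -/

section

namespace Pool.Agent.Helper4.PU

open Set MeasureTheory Filter Topology

open Pool.Agent.Helper57.Zeta

open Pool.Agent.Helper57.PC

open Pool.Agent.Helper57.LH (WP CLA CLA_pos one_le_log Gm gB log_pow_le NT_le_ev)

open Pool.Agent.Helper4.PC

/-- the mean square of the density, relative to log T -/
noncomputable def AT (T : ℝ) : ℝ :=
  ((Real.log T - Real.log (2 * Real.pi)) ^ 2 - 2 * (Real.log T - Real.log (2 * Real.pi)) + 2) / Real.log T ^ 2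

noncomputable def ell : ℝ := Real.log (2 * Real.pi)

lemma ell_nonneg : 0 ≤ ell := Real.log_nonneg (by linarith only [Real.pi_gt_three])

end Pool.Agent.Helper4.PU

end

/-! ### Helper4.PU.Long -/

section

namespace Pool.Agent.Helper4.PU

open Set MeasureTheory Filter Topology

open Pool.Agent.Helper57.Zeta

open Pool.Agent.Helper57.PC

open Pool.Agent.Helper4.PC

lemma pairCount_super (T : ℝ) {a b c : ℝ} (hab : a ≤ b) (hbc : b ≤ c) :
    pairCount T a b + pairCount T b c ≤ pairCount T a c + pairCount T b b := by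
  classical
  rw [pairCount_eq, pairCount_eq, pairCount_eq, pairCount_eq, ← Finset.sum_add_distrib, ← Finset.sum_add_distrib]
  apply Finset.sum_le_sum
  intro p _
  have hm : (0:ℝ) ≤ (mult p.1 : ℝ) * (mult p.2 : ℝ) := by positivity
  simp only [mem_Icc]
  by_cases h1 : a ≤ nd T p ∧ nd T p ≤ b
  · rw [if_pos h1, if_pos (show a ≤ nd T p ∧ nd T p ≤ c from ⟨h1.1, h1.2.trans hbc⟩)]
    by_cases h2 : b ≤ nd T p ∧ nd T p ≤ c
    · rw [if_pos h2, if_pos (show b ≤ nd T p ∧ nd T p ≤ b from ⟨h2.1, h1.2⟩)]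
    · rw [if_neg h2]
      split_ifs <;> linarith
  · rw [if_neg h1]
    by_cases h2 : b ≤ nd T p ∧ nd T p ≤ c
    · rw [if_pos h2, if_pos (show a ≤ nd T p ∧ nd T p ≤ c from ⟨hab.trans h2.1, h2.2⟩)]
      split_ifs <;> linarith
    · rw [if_neg h2]
      split_ifs <;> linarith

end Pool.Agent.Helper4.PU

end

/-! ### Helper57.LS.Local -/

section

namespace Pool.Agent.Helper57.LS

open Set MeasureTheory Filter Topology

open Pool.Agent.Helper57.LH

open Pool.Agent.Helper57.Zeta

open Pool.Agent.Helper57.PC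

open Pool.Agent.Helper4.PC (gh gh_integrable CT_gh Gs_integrable WP_shift Gm_lower)

lemma K_int : Integrable (fun y : ℝ => (1 + y ^ 2)⁻¹) := integrable_inv_one_add_sq

lemma sc_K (w : ℝ) : sc w ≤ 5 * (1 + w ^ 2)⁻¹ := by
  refine (sc_decay w).trans ?_
  unfold Kd
  have hpi := Real.pi_gt_three
  have h1 : w ^ 2 ≤ (2 * Real.pi * w) ^ 2 := by
    rw [mul_pow]
    have : 1 ≤ (2 * Real.pi) ^ 2 := by nlinarith
    nlinarith only [this, sq_nonneg w]
  gcongr

lemma K_pair (x y : ℝ) : (1 + x ^ 2)⁻¹ * (1 + (y - x) ^ 2)⁻¹ ≤ (1 + (y / 2) ^ 2)⁻¹ * ((1 + x ^ 2)⁻¹ + (1 + (y - x) ^ 2)⁻¹) := by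
  have p1 : 0 < (1 + x ^ 2)⁻¹ := by positivity
  have p2 : 0 < (1 + (y - x) ^ 2)⁻¹ := by positivity
  have p3 : 0 < (1 + (y / 2) ^ 2)⁻¹ := by positivity
  rcases le_total ((y / 2) ^ 2) (x ^ 2) with h | h
  · have h1 : (1 + x ^ 2)⁻¹ ≤ (1 + (y / 2) ^ 2)⁻¹ := by gcongr
    calc (1 + x ^ 2)⁻¹ * (1 + (y - x) ^ 2)⁻¹ ≤ (1 + (y / 2) ^ 2)⁻¹ * (1 + (y - x) ^ 2)⁻¹ := by gcongr
      _ ≤ _ := by
        apply mul_le_mul_of_nonneg_left _ p3.le
        linarith only [p1]
  · have h2 : (y / 2) ^ 2 ≤ (y - x) ^ 2 := by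
      have h3 := sq_le_sq.mp h
      rw [sq_le_sq]
      have h4 : |y| ≤ |y - x| + |x| := by
        calc |y| = |(y - x) + x| := by ring_nf
          _ ≤ _ := abs_add_le _ _
      have h5 : |y / 2| = |y| / 2 := by rw [abs_div]; norm_num
      rw [h5] at h3 ⊢
      linarith only [h3, h4]
    have h1 : (1 + (y - x) ^ 2)⁻¹ ≤ (1 + (y / 2) ^ 2)⁻¹ := by gcongr
    calc (1 + x ^ 2)⁻¹ * (1 + (y - x) ^ 2)⁻¹ ≤ (1 + x ^ 2)⁻¹ * (1 + (y / 2) ^ 2)⁻¹ := by gcongr
      _ = (1 + (y / 2) ^ 2)⁻¹ * (1 + x ^ 2)⁻¹ := mul_comm _ _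
      _ ≤ _ := by
        apply mul_le_mul_of_nonneg_left _ p3.le
        linarith only [p2]

lemma Gm_upper (y : ℝ) : Gm y ≤ 200 * Real.pi * (1 + y ^ 2)⁻¹ := by
  unfold Gm
  have hpi := Real.pi_pos
  have hK2 : Integrable (fun x : ℝ => (1 + (y - x) ^ 2)⁻¹) := K_int.comp_sub_left y
  have h1 : ∫ x, sc x * sc (y - x) ≤ ∫ x, 25 * ((1 + (y / 2) ^ 2)⁻¹ * ((1 + x ^ 2)⁻¹ + (1 + (y - x) ^ 2)⁻¹)) := by
    apply integral_mono (scsc_integrable y)
    · exact ((K_int.add hK2).const_mul _).const_mul _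
    · intro x
      simp only
      have a1 := sc_K x
      have a2 := sc_K (y - x)
      have b1 := sc_nonneg x
      have b2 := sc_nonneg (y - x)
      have := K_pair x y
      calc sc x * sc (y - x) ≤ (5 * (1 + x ^ 2)⁻¹) * (5 * (1 + (y - x) ^ 2)⁻¹) := by gcongr
        _ = 25 * ((1 + x ^ 2)⁻¹ * (1 + (y - x) ^ 2)⁻¹) := by ring
        _ ≤ _ := by gcongr
  refine h1.trans ?_
  have h2 : ∫ x : ℝ, (1 + (y - x) ^ 2)⁻¹ = Real.pi := by
    rw [← integral_univ_inv_one_add_sq]
    exact integral_sub_left_eq_self (fun x : ℝ => (1 + x ^ 2)⁻¹) volume y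
  rw [integral_const_mul, integral_const_mul, integral_add K_int hK2, h2, integral_univ_inv_one_add_sq]
  have h3 : (1 + (y / 2) ^ 2)⁻¹ ≤ 4 * (1 + y ^ 2)⁻¹ := by
    rw [← div_eq_mul_inv, inv_le_comm₀ (by positivity) (by positivity), inv_div]
    have : (y / 2) ^ 2 = y ^ 2 / 4 := by ring
    rw [this]
    linarith only []
  calc 25 * ((1 + (y / 2) ^ 2)⁻¹ * (Real.pi + Real.pi)) ≤ 25 * ((4 * (1 + y ^ 2)⁻¹) * (Real.pi + Real.pi)) := by gcongr
    _ = _ := by ring

lemma Gm_lower' (y : ℝ) : (1 + y ^ 2)⁻¹ ≤ Real.pi ^ 4 * Gm y := by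
  have h := Gm_lower y
  have hpi := Real.pi_pos
  calc (1 + y ^ 2)⁻¹ = Real.pi ^ 4 * (1 / (Real.pi ^ 4 * (1 + y ^ 2))) := by field_simp
    _ ≤ _ := by gcongr

/-- domination of a wide kernel by narrow ones -/
lemma wide {B B₀ : ℝ} (hB₀ : 0 < B₀) (hB : B₀ ≤ B) (u : ℝ) :
    (1 + (u / B) ^ 2)⁻¹ ≤ (6 / B₀) * ∫ v, (1 + (v / B) ^ 2)⁻¹ * (1 + ((u - v) / B₀) ^ 2)⁻¹ := by
  have hB0 : 0 < B := by linarith
  have hint : Integrable (fun v => (1 + (v / B) ^ 2)⁻¹ * (1 + ((u - v) / B₀) ^ 2)⁻¹) := by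
    have h1 : Integrable (fun v : ℝ => (1 + (v / B) ^ 2)⁻¹) := K_int.comp_div hB0.ne'
    refine h1.mono' ?_ ?_
    · apply Continuous.aestronglyMeasurable
      apply Continuous.mul
      · apply Continuous.inv₀ (by fun_prop); intro v; positivity
      · apply Continuous.inv₀ (by fun_prop); intro v; positivity
    · filter_upwards with v
      rw [Real.norm_of_nonneg (by positivity)]
      have : (1 + ((u - v) / B₀) ^ 2)⁻¹ ≤ 1 := inv_le_one_of_one_le₀ (by nlinarith only [sq_nonneg ((u - v) / B₀)])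
      have h2 : 0 < (1 + (v / B) ^ 2)⁻¹ := by positivity
      nlinarith only [this, h2]
  have h1 : ∫ v in Icc u (u + B₀), (1 / 6) * (1 + (u / B) ^ 2)⁻¹ ≤ ∫ v in Icc u (u + B₀), (1 + (v / B) ^ 2)⁻¹ * (1 + ((u - v) / B₀) ^ 2)⁻¹ := by
    apply setIntegral_mono_on _ hint.integrableOn measurableSet_Icc
    · intro v hv
      have hv1 : 0 ≤ v - u := by linarith [hv.1]
      have hv2 : v - u ≤ B₀ := by linarith [hv.2]
      have h2 : 1 / 2 ≤ (1 + ((u - v) / B₀) ^ 2)⁻¹ := by
        rw [one_div]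
        apply inv_anti₀ (by positivity)
        have : ((u - v) / B₀) ^ 2 ≤ 1 := by
          rw [div_pow, div_le_one (by positivity)]
          nlinarith only [hB₀, hv1, hv2]
        linarith
      have h3 : (1 / 3) * (1 + (u / B) ^ 2)⁻¹ ≤ (1 + (v / B) ^ 2)⁻¹ := by
        have e : (1 / 3) * (1 + (u / B) ^ 2)⁻¹ = (3 * (1 + (u / B) ^ 2))⁻¹ := by rw [mul_inv]; norm_num
        rw [e]
        apply inv_anti₀ (by positivity)
        have h4 : (v / B) ^ 2 ≤ 2 * (u / B) ^ 2 + 2 := by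
          have e2 : v / B = u / B + (v - u) / B := by ring
          have h5 : (v - u) / B ≤ 1 := by rw [div_le_one hB0]; linarith only [hB, hv2]
          have h6 : 0 ≤ (v - u) / B := by positivity
          rw [e2]
          nlinarith only [h5, h6, sq_nonneg (u / B - (v - u) / B)]
        linarith only [h4, sq_nonneg (u / B)]
      have p1 : 0 < (1 + (u / B) ^ 2)⁻¹ := by positivity
      calc (1 / 6) * (1 + (u / B) ^ 2)⁻¹ = ((1 / 3) * (1 + (u / B) ^ 2)⁻¹) * (1 / 2) := by ring
        _ ≤ _ := by gcongr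
    · apply (continuous_const (y := (1 / 6) * (1 + (u / B) ^ 2)⁻¹)).continuousOn.integrableOn_compact isCompact_Icc
  rw [setIntegral_const, Real.volume_real_Icc_of_le (by linarith only [hB₀]), smul_eq_mul, add_sub_cancel_left] at h1
  have h2 : ∫ v in Icc u (u + B₀), (1 + (v / B) ^ 2)⁻¹ * (1 + ((u - v) / B₀) ^ 2)⁻¹ ≤ ∫ v, (1 + (v / B) ^ 2)⁻¹ * (1 + ((u - v) / B₀) ^ 2)⁻¹ :=
    setIntegral_le_integral hint (Eventually.of_forall fun v => by positivity)
  have h3 := h1.trans h2
  calc (1 + (u / B) ^ 2)⁻¹ = (6 / B₀) * (B₀ * ((1 / 6) * (1 + (u / B) ^ 2)⁻¹)) := by field_simp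
    _ ≤ _ := by gcongr

lemma WP_integral (T : ℝ) (f : ℝ → ℝ → ℝ) (hf : ∀ u, Integrable (fun v => f v u)) :
    WP T (fun u => ∫ v, f v u) = ∫ v, WP T (f v) := by
  unfold WP
  rw [integral_finsetSum]
  · refine Finset.sum_congr rfl fun p _ => ?_
    rw [integral_const_mul]
  · intro p _
    exact (hf _).const_mul _

/-- uniform bound for all kernels -/
theorem uni : ∃ C : ℝ, 0 < C ∧ ∀ᶠ T : ℝ in atTop, ∀ B : ℝ, 0 < B → ∀ v : ℝ, WP T (fun u => Gm ((u - v) / B)) ≤ C * (1 + B) * SN T := by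
  obtain ⟨C, hC, h⟩ := pair_bound
  have hpi := Real.pi_pos
  set D : ℝ := 9600 + C / 9600 with hD
  have hD0 : 0 < D := by rw [hD]; positivity
  refine ⟨1200 * Real.pi ^ 6 * D, by positivity, ?_⟩
  filter_upwards [h 9600 le_rfl, eventually_gt_atTop 1] with T hT hT1 B hB v
  have hS := SN_pos hT1
  have hT' : WP T (gB 9600) ≤ SN T * D := hT
  refine (WP_shift hB T v).trans ?_
  have hpi1 : 1 ≤ Real.pi := by linarith only [hpi, Real.pi_gt_three]
  rcases le_total B 9600 with hB1 | hB1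
  · have h1 : ∀ u, gB B u ≤ 200 * Real.pi ^ 5 * gB 9600 u := by
      intro u
      unfold gB
      have a1 := Gm_upper (u / B)
      have a2 := Gm_lower' (u / 9600)
      have a3 : (1 + (u / B) ^ 2)⁻¹ ≤ (1 + (u / 9600) ^ 2)⁻¹ := by
        apply inv_anti₀ (by positivity)
        have : (u / 9600) ^ 2 ≤ (u / B) ^ 2 := by
          rw [div_pow, div_pow]
          gcongr
        linarith only [this]
      calc Gm (u / B) ≤ 200 * Real.pi * (1 + (u / B) ^ 2)⁻¹ := a1
        _ ≤ 200 * Real.pi * (Real.pi ^ 4 * Gm (u / 9600)) := by gcongr; exact a3.trans a2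
        _ = _ := by ring
    have h2 := WP_mono (T := T) h1
    rw [WP_smul] at h2
    have hp56 : Real.pi ^ 5 ≤ Real.pi ^ 6 := pow_le_pow_right₀ hpi1 (by norm_num)
    calc WP T (gB B) ≤ 200 * Real.pi ^ 5 * WP T (gB 9600) := h2
      _ ≤ 200 * Real.pi ^ 5 * (SN T * D) := by gcongr
      _ ≤ 1200 * Real.pi ^ 6 * (SN T * D) := by gcongr; norm_num
      _ = 1200 * Real.pi ^ 6 * D * 1 * SN T := by ring
      _ ≤ 1200 * Real.pi ^ 6 * D * (1 + B) * SN T := by gcongr; linarith only [hB]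
  · have hBp : 0 < B := hB
    have hK1 : Integrable (fun v : ℝ => (1 + (v / B) ^ 2)⁻¹) := K_int.comp_div hBp.ne'
    have hGi : ∀ u, Integrable (fun v : ℝ => (1 + (v / B) ^ 2)⁻¹ * Gm ((u - v) / 9600)) := by
      intro u
      refine (hK1.mul_const (Gm 0)).mono' ?_ ?_
      · apply Continuous.aestronglyMeasurable
        apply Continuous.mul
        · apply Continuous.inv₀ (by fun_prop); intro v; positivity
        · exact Gm_cont.comp (by fun_prop)
      · filter_upwards with v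
        have p1 : 0 < (1 + (v / B) ^ 2)⁻¹ := by positivity
        rw [Real.norm_of_nonneg (mul_nonneg p1.le (Gm_nonneg _))]
        have := Gm_le ((u - v) / 9600)
        gcongr
    have h1 : ∀ u, gB B u ≤ (200 * Real.pi * (6 / 9600) * Real.pi ^ 4) * ∫ v, (1 + (v / B) ^ 2)⁻¹ * Gm ((u - v) / 9600) := by
      intro u
      unfold gB
      have a1 := Gm_upper (u / B)
      have a2 := wide (B₀ := 9600) (by norm_num) hB1 u
      have a3 : ∫ v, (1 + (v / B) ^ 2)⁻¹ * (1 + ((u - v) / 9600) ^ 2)⁻¹ ≤ ∫ v, (1 + (v / B) ^ 2)⁻¹ * (Real.pi ^ 4 * Gm ((u - v) / 9600)) := by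
        apply integral_mono_of_nonneg
        · exact Eventually.of_forall fun v => by positivity
        · have := (hGi u).const_mul (Real.pi ^ 4)
          refine this.congr ?_
          filter_upwards with v
          ring
        · exact Eventually.of_forall fun v => by
            simp only
            have := Gm_lower' ((u - v) / 9600)
            gcongr
      have a4 : ∫ v, (1 + (v / B) ^ 2)⁻¹ * (Real.pi ^ 4 * Gm ((u - v) / 9600)) = Real.pi ^ 4 * ∫ v, (1 + (v / B) ^ 2)⁻¹ * Gm ((u - v) / 9600) := by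
        rw [← integral_const_mul]
        congr 1
        funext v
        ring
      rw [a4] at a3
      calc Gm (u / B) ≤ 200 * Real.pi * (1 + (u / B) ^ 2)⁻¹ := a1
        _ ≤ 200 * Real.pi * ((6 / 9600) * (Real.pi ^ 4 * ∫ v, (1 + (v / B) ^ 2)⁻¹ * Gm ((u - v) / 9600))) := by
            gcongr
            exact a2.trans (by gcongr)
        _ = _ := by ring
    have h2 := WP_mono (T := T) h1
    rw [WP_smul, WP_integral T (fun v u => (1 + (v / B) ^ 2)⁻¹ * Gm ((u - v) / 9600)) hGi] at h2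
    have h3 : ∫ v, WP T (fun u => (1 + (v / B) ^ 2)⁻¹ * Gm ((u - v) / 9600)) ≤ ∫ v, (1 + (v / B) ^ 2)⁻¹ * (SN T * D) := by
      apply integral_mono_of_nonneg
      · exact Eventually.of_forall fun v => WP_nonneg fun u => mul_nonneg (by positivity) (Gm_nonneg _)
      · exact hK1.mul_const _
      · exact Eventually.of_forall fun v => by
          simp only
          rw [WP_smul]
          apply mul_le_mul_of_nonneg_left _ (by positivity)
          exact (WP_shift (by norm_num) T v).trans hT'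
    have h4 : ∫ v : ℝ, (1 + (v / B) ^ 2)⁻¹ * (SN T * D) = B * Real.pi * (SN T * D) := by
      rw [integral_mul_const, Measure.integral_comp_div (fun y : ℝ => (1 + y ^ 2)⁻¹) B, integral_univ_inv_one_add_sq, abs_of_pos hBp, smul_eq_mul]
    rw [h4] at h3
    calc WP T (gB B) ≤ (200 * Real.pi * (6 / 9600) * Real.pi ^ 4) * ∫ v, WP T (fun u => (1 + (v / B) ^ 2)⁻¹ * Gm ((u - v) / 9600)) := h2
      _ ≤ (200 * Real.pi * (6 / 9600) * Real.pi ^ 4) * (B * Real.pi * (SN T * D)) := by gcongr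
      _ = (1200 / 9600) * Real.pi ^ 6 * D * B * SN T := by ring
      _ ≤ 1200 * Real.pi ^ 6 * D * (1 + B) * SN T := by
          gcongr
          · norm_num
          · linarith only []

end Pool.Agent.Helper57.LS

end

/-! ### Helper57.LS.Super -/

section

namespace Pool.Agent.Helper57.LS

open Set MeasureTheory Filter Topology

open Pool.Agent.Helper57.LH

open Pool.Agent.Helper57.Zeta

open Pool.Agent.Helper57.PC

open Pool.Agent.Helper4.PC (gh gh_integrable CT_gh Gs_integrable WP_shift Gm_lower pcDensity_measurable)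

open scoped SchwartzMap FourierTransform

lemma WP_integral' {α : Type*} [MeasurableSpace α] (μ : Measure α) (T : ℝ) (f : α → ℝ → ℝ) (hf : ∀ u, Integrable (fun v => f v u) μ) :
    WP T (fun u => ∫ v, f v u ∂μ) = ∫ v, WP T (f v) ∂μ := by
  unfold WP
  rw [integral_finsetSum]
  · refine Finset.sum_congr rfl fun p _ => ?_
    rw [integral_const_mul]
  · intro p _
    exact (hf _).const_mul _

lemma sch_comp_int (g : 𝓢(ℝ, ℝ)) {R : ℝ} (hR : 0 < R) (s : ℝ) : Integrable (fun u => g ((u - s) / R)) :=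
  (g.integrable.comp_div hR.ne').comp_sub_right s

lemma wg_cont (g : 𝓢(ℝ, ℝ)) : Continuous (wg g) := wt_cont _

lemma wg_int (g : 𝓢(ℝ, ℝ)) (k : ℕ) : IntegrableOn (fun x => |wg g x| * x ^ k) (Ioi 0) := wt_int _ k

end Pool.Agent.Helper57.LS

end

/-! ### Helper57.LS.SuperGen -/

section

namespace Pool.Agent.Helper57.LS

open Set MeasureTheory Filter Topology

open Pool.Agent.Helper57.LH

open Pool.Agent.Helper57.Zeta

open Pool.Agent.Helper57.PC

open Pool.Agent.Helper4.PC (gh gh_integrable CT_gh Gs_integrable WP_shift Gm_lower pcDensity_measurable)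

open scoped SchwartzMap FourierTransform

section gen

variable {X : Type*} [MeasurableSpace X] {μ : Measure X} [SFinite μ] {w B v : X → ℝ}

lemma gK_meas (hw : Measurable w) (hBm : Measurable B) (hv : Measurable v) (u : ℝ) : Measurable (fun x => w x * Gm ((u - v x) / B x)) :=
  hw.mul (Gm_cont.measurable.comp ((measurable_const.sub hv).div hBm))

lemma gK_int (hw : Measurable w) (hBm : Measurable B) (hv : Measurable v) (hB : ∀ᵐ x ∂μ, 0 < B x)
    (h1 : Integrable (fun x => |w x| * (1 + B x)) μ) (u : ℝ) : Integrable (fun x => w x * Gm ((u - v x) / B x)) μ := by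
  refine (h1.mul_const (Gm 0)).mono' (gK_meas hw hBm hv u).aestronglyMeasurable ?_
  filter_upwards [hB] with x hx
  rw [norm_mul, Real.norm_eq_abs, Real.norm_of_nonneg (Gm_nonneg _)]
  have h2 := Gm_le ((u - v x) / B x)
  have h3 := Gm_nonneg ((u - v x) / B x)
  calc |w x| * Gm ((u - v x) / B x) ≤ |w x| * 1 * Gm 0 := by rw [mul_one]; gcongr
    _ ≤ |w x| * (1 + B x) * Gm 0 := by
        gcongr
        · exact h3.trans h2
        · linarith only [hx]

lemma Gs_integral {b : ℝ} (hb : 0 < b) (c : ℝ) : ∫ u, Gm ((u - c) / b) = b := by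
  have h4 : ∫ u, (fun x => Gm (x / b)) (u - c) = ∫ u, Gm (u / b) := integral_sub_right_eq_self (fun x => Gm (x / b)) c
  have h5 : ∫ u, Gm (u / b) = b := by
    rw [Measure.integral_comp_div Gm b, Gm_integral, abs_of_pos hb, smul_eq_mul, mul_one]
  rw [h5] at h4; exact h4

end gen

end Pool.Agent.Helper57.LS

end

/-! ### Helper57.LS.OddC -/

section

namespace Pool.Agent.Helper57.LS

open Set MeasureTheory Filter Topology

open Pool.Agent.Helper57.LH

open scoped SchwartzMap FourierTransform ContDiff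

/-- primitive of an odd Schwartz function -/
noncomputable def prG (g : 𝓢(ℝ, ℝ)) (y : ℝ) : ℝ := ∫ t in Iic y, g t

lemma prG_deriv (g : 𝓢(ℝ, ℝ)) (y : ℝ) : HasDerivAt (prG g) (g y) y := by
  have h : prG g = fun y => prG g 0 + ∫ t in (0:ℝ)..y, g t := by
    funext y
    unfold prG
    have := intervalIntegral.integral_Iic_sub_Iic (a := 0) (b := y) (f := g) (μ := volume) g.integrable.integrableOn g.integrable.integrableOn
    linarith only [this]
  rw [h]
  exact (intervalIntegral.integral_hasDerivAt_right (g.continuous.intervalIntegrable _ _)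
    (g.continuous.stronglyMeasurableAtFilter _ _) g.continuous.continuousAt).const_add _

lemma prG_decay (g : 𝓢(ℝ, ℝ)) (hg : ∀ x, g (-x) = -g x) (k : ℕ) (y : ℝ) : |y| ^ k * |prG g y| ≤ ∫ t, |t| ^ k * |g t| := by
  have hi : Integrable (fun t : ℝ => |t| ^ k * |g t|) := g.integrable_pow_mul volume k
  -- the left half line
  have hneg : ∀ y : ℝ, y ≤ 0 → |y| ^ k * |prG g y| ≤ ∫ t, |t| ^ k * |g t| := by
    intro y hy
    unfold prG
    have h1 : |∫ t in Iic y, g t| ≤ ∫ t in Iic y, |g t| := abs_integral_le_integral_abs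
    have h2 : |y| ^ k * ∫ t in Iic y, |g t| ≤ ∫ t in Iic y, |t| ^ k * |g t| := by
      rw [← integral_const_mul]
      apply setIntegral_mono_on (g.integrable.abs.integrableOn.const_mul _) hi.integrableOn measurableSet_Iic
      intro t ht
      have ht' : t ≤ y := ht
      have h3 : |y| ≤ |t| := by
        rw [abs_of_nonpos hy, abs_of_nonpos (ht'.trans hy)]
        linarith
      gcongr
    have h3 : ∫ t in Iic y, |t| ^ k * |g t| ≤ ∫ t, |t| ^ k * |g t| :=
      setIntegral_le_integral hi (Eventually.of_forall fun t => by positivity)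
    calc |y| ^ k * |∫ t in Iic y, g t| ≤ |y| ^ k * ∫ t in Iic y, |g t| := by gcongr
      _ ≤ _ := h2.trans h3
  rcases le_total y 0 with hy | hy
  · exact hneg y hy
  · -- evenness
    have he : prG g y = prG g (-y) := by
      unfold prG
      have h1 := intervalIntegral.integral_Iic_sub_Iic (a := -y) (b := y) (f := g) (μ := volume) g.integrable.integrableOn g.integrable.integrableOn
      have h2 : ∫ t in (-y)..y, g t = 0 := by
        have h3 : ∫ t in (-y)..y, g (-t) = ∫ t in (-y)..y, g t := by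
          rw [intervalIntegral.integral_comp_neg]; simp
        simp_rw [hg] at h3
        rw [intervalIntegral.integral_neg] at h3
        linarith only [h3]
      linarith
    rw [he]
    have := hneg (-y) (by linarith)
    rwa [abs_neg] at this

/-- the primitive as a Schwartz function -/
noncomputable def prS (g : 𝓢(ℝ, ℝ)) (hg : ∀ x, g (-x) = -g x) : 𝓢(ℝ, ℝ) where
  toFun := prG g
  smooth' := by
    have hd : deriv (prG g) = g := funext fun y => (prG_deriv g y).deriv
    rw [contDiff_infty_iff_deriv, hd]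
    exact ⟨fun y => (prG_deriv g y).differentiableAt, g.smooth _⟩
  decay' := by
    intro k n
    have hd : deriv (prG g) = g := funext fun y => (prG_deriv g y).deriv
    cases n with
    | zero =>
      refine ⟨∫ t, |t| ^ k * |g t|, fun x => ?_⟩
      rw [norm_iteratedFDeriv_zero, Real.norm_eq_abs, Real.norm_eq_abs]
      exact prG_decay g hg k x
    | succ m =>
      obtain ⟨C, hC⟩ := g.decay' k m
      refine ⟨C, fun x => ?_⟩
      have h := hC x
      rw [norm_iteratedFDeriv_eq_norm_iteratedDeriv] at h ⊢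
      rw [iteratedDeriv_succ', hd]
      exact h

lemma prS_apply (g : 𝓢(ℝ, ℝ)) (hg : ∀ x, g (-x) = -g x) (y : ℝ) : prS g hg y = prG g y := rfl

lemma prG_even (g : 𝓢(ℝ, ℝ)) (hg : ∀ x, g (-x) = -g x) (y : ℝ) : prG g (-y) = prG g y := by
  unfold prG
  have h1 := intervalIntegral.integral_Iic_sub_Iic (a := -y) (b := y) (f := g) (μ := volume) g.integrable.integrableOn g.integrable.integrableOn
  have h2 : ∫ t in (-y)..y, g t = 0 := by
    have h3 : ∫ t in (-y)..y, g (-t) = ∫ t in (-y)..y, g t := by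
      rw [intervalIntegral.integral_comp_neg]; simp
    simp_rw [hg] at h3
    rw [intervalIntegral.integral_neg] at h3
    linarith only [h3]
  linarith

/-- representation of an odd Schwartz function by the odd kernel -/
theorem odd_rep (g : 𝓢(ℝ, ℝ)) (hg : ∀ x, g (-x) = -g x) (u : ℝ) :
    g u = ∫ x in Ioi (0:ℝ), (-(2 * Real.pi) * wg (prS g hg) x * x ^ 2) * Ho (x * u) := by
  have hG : ∀ y, prG g y = ∫ x in Ioi (0:ℝ), wg (prS g hg) x * x * Gm (x * y) := by
    intro y
    have h := super (prS g hg) y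
    rw [prS_apply, prS_apply, prG_even g hg] at h
    linarith
  have hGm : ∀ z : ℝ, |Gm z| ≤ Gm 0 := fun z => by rw [abs_of_nonneg (Gm_nonneg z)]; exact Gm_le z
  have h := hasDerivAt_integral_of_dominated_loc_of_deriv_le (μ := volume.restrict (Ioi (0:ℝ)))
    (F := fun y x => wg (prS g hg) x * x * Gm (x * y)) (F' := fun y x => wg (prS g hg) x * x * (x * (-(2 * Real.pi) * Ho (x * y))))
    (x₀ := u) (s := univ) (bound := fun x => (4 * Real.pi) * (|wg (prS g hg) x| * x ^ 2)) univ_mem ?_ ?_ ?_ ?_ ?_ ?_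
  · have h1 := (prG_deriv g u)
    have h2 : prG g = fun y => ∫ x in Ioi (0:ℝ), wg (prS g hg) x * x * Gm (x * y) := funext hG
    rw [h2] at h1
    rw [h1.unique h.2]
    congr 1
    funext x
    ring
  · filter_upwards with y
    apply Continuous.aestronglyMeasurable
    exact ((wg_cont _).mul continuous_id).mul (Gm_cont.comp (by fun_prop))
  · have h1 := (wg_int (prS g hg) 1).mul_const (Gm 0)
    refine h1.mono' ?_ ?_
    · apply Continuous.aestronglyMeasurable
      exact ((wg_cont _).mul continuous_id).mul (Gm_cont.comp (by fun_prop))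
    · rw [ae_restrict_iff' measurableSet_Ioi]
      filter_upwards with x hx
      have hx0 : 0 < x := hx
      rw [norm_mul, norm_mul, Real.norm_eq_abs, Real.norm_eq_abs, Real.norm_eq_abs, abs_of_pos hx0, pow_one]
      have := hGm (x * u)
      gcongr
  · apply Continuous.aestronglyMeasurable
    exact ((wg_cont _).mul continuous_id).mul (continuous_id.mul (continuous_const.mul (Ho_cont.comp (by fun_prop))))
  · rw [ae_restrict_iff' measurableSet_Ioi]
    filter_upwards with x hx y _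
    have hx0 : 0 < x := hx
    have hpi := Real.pi_pos
    rw [norm_mul, norm_mul, norm_mul, norm_mul, Real.norm_eq_abs, Real.norm_eq_abs, Real.norm_eq_abs, Real.norm_eq_abs, abs_of_pos hx0, abs_neg, abs_of_pos (by positivity : 0 < 2 * Real.pi)]
    have := Ho_bound (x * y)
    calc |wg (prS g hg) x| * x * (x * (2 * Real.pi * |Ho (x * y)|)) ≤ |wg (prS g hg) x| * x * (x * (2 * Real.pi * 2)) := by gcongr
      _ = _ := by ring
  · exact (wg_int (prS g hg) 2).const_mul _
  · filter_upwards with x y _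
    have h1 : HasDerivAt (fun y : ℝ => x * y) x y := by simpa using (hasDerivAt_id y).const_mul x
    have h2 := (Gm_hasDeriv (x * y)).comp y h1
    have h3 : HasDerivAt (fun y => Gm (x * y)) (x * (-(2 * Real.pi) * Ho (x * y))) y := by
      refine h2.congr_deriv ?_
      ring
    exact h3.const_mul _

end Pool.Agent.Helper57.LS

end

/-! ### Helper57.LS.AllG -/

section

namespace Pool.Agent.Helper57.LS

open Set MeasureTheory Filter Topology

open Pool.Agent.Helper57.LH

open Pool.Agent.Helper57.Zeta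

open Pool.Agent.Helper57.PC

open Pool.Agent.Helper4.PC (gh gh_integrable CT_gh Gs_integrable WP_shift Gm_lower pcDensity_measurable)

open scoped SchwartzMap FourierTransform

/-- the odd multiplier -/
noncomputable def a1 (a : 𝓢(ℝ, ℝ)) (t : ℝ) : ℝ := (a t - a (-t)) / 2

lemma a1_int (a : 𝓢(ℝ, ℝ)) : Integrable (a1 a) := by
  have h1 : Integrable (fun t => a t) := a.integrable
  exact (h1.sub h1.comp_neg).div_const 2

lemma a1_cont (a : 𝓢(ℝ, ℝ)) : Continuous (a1 a) := by
  unfold a1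
  have := a.continuous
  fun_prop

lemma Ho_conv' (a : 𝓢(ℝ, ℝ)) (ha : ∀ ξ ∈ Icc (0:ℝ) 1, ∫ t, a t * Real.sin (2 * Real.pi * t * ξ) = ξ) (z : ℝ) :
    Ho z = ∫ t, a1 a t * Gm (z - t) := by
  rw [Ho_conv a ha]
  have hb : ∀ (f : ℝ → ℝ), Integrable f → ∀ z : ℝ, Integrable (fun t => f t * Gm (z - t)) := by
    intro f hf z
    refine (hf.norm.mul_const (Gm 0)).mono' (hf.aestronglyMeasurable.mul (Gm_cont.comp (by fun_prop)).aestronglyMeasurable) ?_
    filter_upwards with t
    rw [norm_mul, Real.norm_of_nonneg (Gm_nonneg _)]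
    have := Gm_le (z - t)
    gcongr
  have hA : Integrable (fun t => a t) := a.integrable
  have i1 := hb _ hA z
  have i2 := hb _ hA.comp_neg z
  have i3 : Integrable (fun t => a t * Gm (z + t)) := by
    have := i2.comp_neg
    simpa using this
  have e1 : ∫ t, a (-t) * Gm (z - t) = ∫ t, a t * Gm (z + t) := by
    rw [← integral_neg_eq_self (fun t => a t * Gm (z + t)) volume]
    rfl
  have e2 : ∫ t, a1 a t * Gm (z - t) = ((∫ t, a t * Gm (z - t)) - ∫ t, a (-t) * Gm (z - t)) / 2 := by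
    rw [← integral_sub i1 i2, ← integral_div]
    congr 1
    funext t
    unfold a1
    ring
  rw [e2, e1, ← integral_sub i1 i3, ← integral_div]
  congr 1
  funext t
  ring

/-- negation as a Schwartz map operation -/
noncomputable def ngS (g : 𝓢(ℝ, ℝ)) : 𝓢(ℝ, ℝ) := SchwartzMap.compCLMOfContinuousLinearEquiv ℝ (LinearIsometryEquiv.neg ℝ (E := ℝ)) g

lemma ngS_apply (g : 𝓢(ℝ, ℝ)) (x : ℝ) : ngS g x = g (-x) := by
  unfold ngS
  rw [SchwartzMap.compCLMOfContinuousLinearEquiv_apply]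
  rfl

noncomputable def evS (g : 𝓢(ℝ, ℝ)) : 𝓢(ℝ, ℝ) := (1 / 2 : ℝ) • (g + ngS g)

noncomputable def odS (g : 𝓢(ℝ, ℝ)) : 𝓢(ℝ, ℝ) := (1 / 2 : ℝ) • (g - ngS g)

lemma evS_apply (g : 𝓢(ℝ, ℝ)) (x : ℝ) : evS g x = (g x + g (-x)) / 2 := by
  unfold evS
  rw [SchwartzMap.smul_apply, SchwartzMap.add_apply, ngS_apply, smul_eq_mul]
  ring

lemma odS_apply (g : 𝓢(ℝ, ℝ)) (x : ℝ) : odS g x = (g x - g (-x)) / 2 := by
  unfold odS
  rw [SchwartzMap.smul_apply, SchwartzMap.sub_apply, ngS_apply, smul_eq_mul]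
  ring

end Pool.Agent.Helper57.LS

end

/-! ### Helper57.UB.Ident -/

section

namespace Pool.Agent.Helper57.UB

open Set MeasureTheory Filter Topology

open Pool.Agent.Helper57.LH

open Pool.Agent.Helper57.LS

open Pool.Agent.Helper4.PC (Tr)

lemma Tr_def (X u : ℝ) : Tr X u = X * tri (u / X) := rfl

lemma sc_sin (w : ℝ) : Real.pi ^ 2 * w ^ 2 * sc w = Real.sin (Real.pi * w) ^ 2 := by
  have hpi := Real.pi_pos
  by_cases h : w = 0
  · rw [h]; simp
  · rw [sc_eq h]
    unfold PC.sq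
    field_simp

/-- the frequency side of the triangle -/
noncomputable def Aw (X u ξ : ℝ) : ℝ := X ^ 2 * sc (X * ξ) * Real.cos (2 * Real.pi * u * ξ)

/-- second difference weight -/
noncomputable def Ww (X u ξ : ℝ) : ℝ := 2 * (1 - Real.cos (2 * Real.pi * X * ξ)) * Real.cos (2 * Real.pi * u * ξ)

lemma Ww_eq (X u ξ : ℝ) : Ww X u ξ = 4 * Real.pi ^ 2 * ξ ^ 2 * Aw X u ξ := by
  unfold Ww Aw
  have h := sc_sin (X * ξ)
  have h2 : Real.cos (2 * Real.pi * X * ξ) = 1 - 2 * Real.sin (Real.pi * (X * ξ)) ^ 2 := by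
    rw [show 2 * Real.pi * X * ξ = 2 * (Real.pi * (X * ξ)) by ring, Real.cos_two_mul, Real.cos_sq']
    ring
  rw [h2, ← h]
  ring

lemma Aw_cont (X u : ℝ) : Continuous (Aw X u) := by
  unfold Aw
  have := sc_cont
  fun_prop

lemma Ww_cont (X u : ℝ) : Continuous (Ww X u) := by
  unfold Ww
  fun_prop

lemma Ww_abs (X u ξ : ℝ) : |Ww X u ξ| ≤ 4 := by
  unfold Ww
  rw [abs_mul, abs_mul, abs_two]
  have h1 := Real.abs_cos_le_one (2 * Real.pi * u * ξ)
  have h2 : |1 - Real.cos (2 * Real.pi * X * ξ)| ≤ 2 := by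
    rw [abs_le]
    have := Real.cos_le_one (2 * Real.pi * X * ξ)
    have := Real.neg_one_le_cos (2 * Real.pi * X * ξ)
    constructor <;> linarith
  calc 2 * |1 - Real.cos (2 * Real.pi * X * ξ)| * |Real.cos (2 * Real.pi * u * ξ)| ≤ 2 * 2 * 1 := by gcongr
    _ = 4 := by norm_num

lemma Aw_integrable {X : ℝ} (hX : 0 < X) (u : ℝ) : Integrable (Aw X u) := by
  have h1 : Integrable (fun ξ => X ^ 2 * sc (X * ξ)) := (sc_integrable.comp_mul_left' hX.ne').const_mul _
  refine h1.mono' (Aw_cont X u).aestronglyMeasurable ?_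
  filter_upwards with ξ
  unfold Aw
  rw [Real.norm_eq_abs, abs_mul, abs_of_nonneg (mul_nonneg (by positivity) (sc_nonneg _))]
  exact mul_le_of_le_one_right (mul_nonneg (by positivity) (sc_nonneg _)) (Real.abs_cos_le_one _)

lemma Tr_eq {X : ℝ} (hX : 0 < X) (u : ℝ) : Tr X u = ∫ ξ, Aw X u ξ := by
  rw [Tr_def]
  unfold Aw
  rw [← sc_FT (u / X)]
  have h1 := Measure.integral_comp_mul_left (fun x => sc x * Real.cos (2 * Real.pi * (u / X) * x)) X
  rw [abs_of_pos (by positivity), smul_eq_mul] at h1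
  have h2 : ∫ ξ, X ^ 2 * sc (X * ξ) * Real.cos (2 * Real.pi * u * ξ) = X ^ 2 * ∫ ξ, sc (X * ξ) * Real.cos (2 * Real.pi * (u / X) * (X * ξ)) := by
    rw [← integral_const_mul]
    congr 1
    funext ξ
    rw [show 2 * Real.pi * (u / X) * (X * ξ) = 2 * Real.pi * u * ξ by field_simp]
    ring
  rw [h2, h1]
  field_simp

/-- the kernel at scale `B` -/
lemma Gm_scale {B : ℝ} (hB : 0 < B) (y : ℝ) : Gm (y / B) = ∫ ξ, B * tri (B * ξ) ^ 2 * Real.cos (2 * Real.pi * y * ξ) := by
  rw [Gm_int]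
  have h1 := Measure.integral_comp_mul_left (fun v => tri v ^ 2 * Real.cos (2 * Real.pi * (y / B) * v)) B
  rw [abs_of_pos (by positivity), smul_eq_mul] at h1
  have h2 : ∫ ξ, B * tri (B * ξ) ^ 2 * Real.cos (2 * Real.pi * y * ξ) = B * ∫ ξ, tri (B * ξ) ^ 2 * Real.cos (2 * Real.pi * (y / B) * (B * ξ)) := by
    rw [← integral_const_mul]
    congr 1
    funext ξ
    rw [show 2 * Real.pi * (y / B) * (B * ξ) = 2 * Real.pi * y * ξ by field_simp]
    ring
  rw [h2, h1]
  field_simp

lemma trisq_integrable {B : ℝ} (hB : 0 < B) : Integrable (fun ξ => B * tri (B * ξ) ^ 2) := by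
  have h1 : Integrable (fun x => tri x ^ 2) := by
    refine tri_integrable.mono' (tri_cont.pow 2).aestronglyMeasurable ?_
    filter_upwards with x
    rw [Real.norm_of_nonneg (by positivity)]
    have := tri_nonneg x
    have := tri_le_one x
    nlinarith
  exact (h1.comp_mul_left' hB.ne').const_mul _

lemma trisq_integral {B : ℝ} (hB : 0 < B) : ∫ ξ, B * tri (B * ξ) ^ 2 ≤ 2 := by
  rw [integral_const_mul]
  have h1 := Measure.integral_comp_mul_left (fun v => tri v ^ 2) B
  rw [abs_of_pos (by positivity), smul_eq_mul] at h1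
  rw [h1, ← mul_assoc, mul_inv_cancel₀ hB.ne', one_mul]
  have h2 := tri_half 2 two_ne_zero (fun _ => 1) (fun _ => rfl)
  simp only [mul_one] at h2
  rw [h2]
  have h3 : ∫ v in (0:ℝ)..1, (1 - v) ^ 2 ≤ ∫ v in (0:ℝ)..1, (1:ℝ) := by
    apply intervalIntegral.integral_mono_on zero_le_one
    · apply Continuous.intervalIntegrable; fun_prop
    · apply Continuous.intervalIntegrable; fun_prop
    · intro x hx
      have h4 : 0 ≤ 1 - x := by linarith [hx.2]
      have h5 : 1 - x ≤ 1 := by linarith only [hx, hx.1]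
      exact pow_le_one₀ h4 h5
  simp only [intervalIntegral.integral_const, smul_eq_mul, mul_one, sub_zero] at h3
  linarith only [h3]

lemma cos_int {B : ℝ} (hB : 0 < B) (a : ℝ) : Integrable (fun ξ => B * tri (B * ξ) ^ 2 * Real.cos (a * ξ)) := by
  refine (trisq_integrable hB).mono' ?_ ?_
  · have := tri_cont
    exact Continuous.aestronglyMeasurable (by fun_prop)
  · filter_upwards with ξ
    rw [norm_mul, Real.norm_of_nonneg (by positivity), Real.norm_eq_abs]
    exact mul_le_of_le_one_right (by positivity) (Real.abs_cos_le_one _)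

/-- second difference of the kernel -/
noncomputable def Dl (X B u : ℝ) : ℝ := 2 * Gm (u / B) - Gm ((u - X) / B) - Gm ((u + X) / B)

lemma Dl_eq {B : ℝ} (hB : 0 < B) (X u : ℝ) : Dl X B u = ∫ ξ, B * tri (B * ξ) ^ 2 * Ww X u ξ := by
  unfold Dl
  rw [Gm_scale hB, Gm_scale hB, Gm_scale hB, ← integral_const_mul, ← integral_sub, ← integral_sub]
  · congr 1
    funext ξ
    unfold Ww
    have e1 : Real.cos (2 * Real.pi * (u - X) * ξ) + Real.cos (2 * Real.pi * (u + X) * ξ) = 2 * Real.cos (2 * Real.pi * u * ξ) * Real.cos (2 * Real.pi * X * ξ) := by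
      rw [show 2 * Real.pi * (u - X) * ξ = 2 * Real.pi * u * ξ - 2 * Real.pi * X * ξ by ring,
        show 2 * Real.pi * (u + X) * ξ = 2 * Real.pi * u * ξ + 2 * Real.pi * X * ξ by ring, Real.cos_sub, Real.cos_add]
      ring
    linear_combination (-(B * tri (B * ξ) ^ 2)) * e1
  · exact ((cos_int hB _).const_mul _).sub (cos_int hB _)
  · exact cos_int hB _
  · exact (cos_int hB _).const_mul _
  · exact cos_int hB _

lemma Tr_integrable {X : ℝ} (hX : 0 < X) : Integrable (Tr X) := by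
  exact (tri_integrable.comp_div hX.ne').const_mul _

lemma Tr_even (X u : ℝ) : Tr X (-u) = Tr X u := by
  rw [Tr_def, Tr_def, neg_div, tri_even]

lemma Tr_cos {X : ℝ} (hX : 0 < X) (w : ℝ) : ∫ x, Tr X x * Real.cos (2 * Real.pi * w * x) = X ^ 2 * sc (X * w) := by
  simp_rw [Tr_def]
  have h1 := Measure.integral_comp_mul_left (fun x => X * tri (x / X) * Real.cos (2 * Real.pi * w * x)) X
  rw [abs_of_pos (by positivity), smul_eq_mul] at h1
  have h2 : ∫ x, X * tri (X * x / X) * Real.cos (2 * Real.pi * w * (X * x)) = X * sc (X * w) := by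
    rw [← sc_int, ← integral_const_mul]
    congr 1
    funext x
    rw [mul_div_cancel_left₀ _ hX.ne', show 2 * Real.pi * w * (X * x) = 2 * Real.pi * (X * w) * x by ring]
    ring
  rw [h2] at h1
  obtain ⟨J, hJ⟩ : ∃ J, J = ∫ y, X * tri (y / X) * Real.cos (2 * Real.pi * w * y) := ⟨_, rfl⟩
  rw [← hJ] at h1 ⊢
  field_simp at h1
  linarith only [h1]

/-- the smoothed triangle -/
lemma conv_eq {X b : ℝ} (hX : 0 < X) (hb : 0 < b) (u : ℝ) :
    ∫ v, Tr X v * Gm ((u - v) / b) = ∫ ξ, b * tri (b * ξ) ^ 2 * Aw X u ξ := by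
  have h1 := conv_tri (Tr_integrable hX) (Tr_even X) (trisq_integrable hb) u
  have h2 : ∀ v, Tr X v * Gm ((u - v) / b) = Tr X v * ∫ ξ, b * tri (b * ξ) ^ 2 * Real.cos (2 * Real.pi * (u - v) * ξ) := by
    intro v; rw [Gm_scale hb]
  simp_rw [h2]
  rw [h1]
  congr 1
  funext ξ
  rw [Tr_cos hX]
  unfold Aw
  ring

end Pool.Agent.Helper57.UB

end

/-! ### Helper57.UB.Fub -/

section

namespace Pool.Agent.Helper57.UB

open Set MeasureTheory Filter Topology

open Pool.Agent.Helper57.LH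

open Pool.Agent.Helper57.LS

open Pool.Agent.Helper4.PC (Tr)

lemma swap_int {θ : ℝ → ℝ} (hθm : Measurable θ) {c d : ℝ} (hc : 0 ≤ c) (hθ : ∀ B ∈ Ioc c d, |θ B| ≤ 1) (X u : ℝ) :
    Integrable (Function.uncurry fun B ξ : ℝ => θ B * (B * tri (B * ξ) ^ 2) * Ww X u ξ) ((volume.restrict (Ioc c d)).prod volume) := by
  have hm : AEStronglyMeasurable (Function.uncurry fun B ξ : ℝ => θ B * (B * tri (B * ξ) ^ 2) * Ww X u ξ) ((volume.restrict (Ioc c d)).prod volume) := by
    apply Measurable.aestronglyMeasurable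
    have h1 := tri_cont.measurable
    have h2 := (Ww_cont X u).measurable
    have h3 : Measurable fun p : ℝ × ℝ => θ p.1 := hθm.comp measurable_fst
    have h4 : Measurable fun p : ℝ × ℝ => tri (p.1 * p.2) := h1.comp (measurable_fst.mul measurable_snd)
    have h5 : Measurable fun p : ℝ × ℝ => Ww X u p.2 := h2.comp measurable_snd
    exact (h3.mul (measurable_fst.mul (h4.pow_const 2))).mul h5
  have hbd : ∀ B ∈ Ioc c d, ∀ ξ, ‖θ B * (B * tri (B * ξ) ^ 2) * Ww X u ξ‖ ≤ 4 * (B * tri (B * ξ) ^ 2) := by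
    intro B hB ξ
    have hB0 : 0 < B := lt_of_le_of_lt hc hB.1
    have h1 : 0 ≤ B * tri (B * ξ) ^ 2 := by positivity
    rw [norm_mul, norm_mul, Real.norm_of_nonneg h1, Real.norm_eq_abs, Real.norm_eq_abs]
    have h2 := hθ B hB
    have h3 := Ww_abs X u ξ
    calc |θ B| * (B * tri (B * ξ) ^ 2) * |Ww X u ξ| ≤ 1 * (B * tri (B * ξ) ^ 2) * 4 := by gcongr
      _ = _ := by ring
  have hi : ∀ B ∈ Ioc c d, Integrable (fun ξ => θ B * (B * tri (B * ξ) ^ 2) * Ww X u ξ) := by
    intro B hB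
    have hB0 : 0 < B := lt_of_le_of_lt hc hB.1
    refine ((trisq_integrable hB0).const_mul 4).mono' ?_ (Eventually.of_forall (hbd B hB))
    have := tri_cont
    have := Ww_cont X u
    exact Continuous.aestronglyMeasurable (by fun_prop)
  rw [integrable_prod_iff hm]
  constructor
  · rw [ae_restrict_iff' measurableSet_Ioc]
    filter_upwards with B hB
    exact hi B hB
  · have hconst : Integrable (fun _ : ℝ => (8:ℝ)) (volume.restrict (Ioc c d)) := by
      rw [← IntegrableOn, integrableOn_const_iff]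
      right
      exact measure_Ioc_lt_top
    refine hconst.mono' hm.norm.integral_prod_right' ?_
    rw [ae_restrict_iff' measurableSet_Ioc]
    filter_upwards with B hB
    have hB0 : 0 < B := lt_of_le_of_lt hc hB.1
    rw [Real.norm_of_nonneg (integral_nonneg fun _ => norm_nonneg _)]
    simp only [Function.uncurry]
    calc ∫ ξ, ‖θ B * (B * tri (B * ξ) ^ 2) * Ww X u ξ‖ ≤ ∫ ξ, 4 * (B * tri (B * ξ) ^ 2) :=
          integral_mono (hi B hB).norm ((trisq_integrable hB0).const_mul 4) (hbd B hB)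
      _ ≤ 8 := by
          rw [integral_const_mul]
          have := trisq_integral hB0
          linarith

lemma swap {θ : ℝ → ℝ} (hθm : Measurable θ) {c d : ℝ} (hc : 0 ≤ c) (hcd : c ≤ d) (hθ : ∀ B ∈ Ioc c d, |θ B| ≤ 1) (X u : ℝ) :
    ∫ B in c..d, θ B * Dl X B u = ∫ ξ, (∫ B in c..d, θ B * (B * tri (B * ξ) ^ 2)) * Ww X u ξ := by
  rw [intervalIntegral.integral_of_le hcd]
  have h1 : ∫ B in Ioc c d, θ B * Dl X B u = ∫ B in Ioc c d, ∫ ξ, θ B * (B * tri (B * ξ) ^ 2) * Ww X u ξ := by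
    apply setIntegral_congr_fun measurableSet_Ioc
    intro B hB
    have hB0 : 0 < B := lt_of_le_of_lt hc hB.1
    simp only
    rw [Dl_eq hB0, ← integral_const_mul]
    congr 1
    funext ξ
    ring
  rw [h1, integral_integral_swap (swap_int hθm hc hθ X u)]
  congr 1
  funext ξ
  rw [integral_mul_const, intervalIntegral.integral_of_le hcd]

lemma tri_abs (v : ℝ) : |tri v| ≤ 1 := by
  rw [abs_of_nonneg (tri_nonneg v)]; exact tri_le_one v

lemma tri_mul_abs (v : ℝ) : |v| * tri v ≤ 1 := by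
  rcases le_total |v| 1 with h | h
  · have := tri_nonneg v
    have := tri_le_one v
    have := abs_nonneg v
    nlinarith
  · rw [tri_zero_of h]; norm_num

/-- a product of a bounded continuous function with the weight is integrable -/
lemma bd_int {X : ℝ} (hX : 0 < X) (u : ℝ) {M : ℝ → ℝ} (hM : Continuous M) {K : ℝ} (hK : ∀ ξ, |M ξ| ≤ K) :
    Integrable (fun ξ => M ξ * Aw X u ξ) :=
  (Aw_integrable hX u).bdd_mul (c := K) hM.aestronglyMeasurable (Eventually.of_forall fun ξ => by rw [Real.norm_eq_abs]; exact hK ξ)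

lemma low_eq {X b : ℝ} (hb : 0 < b) (u : ℝ) :
    3 / Real.pi ^ 2 * ∫ B in (0:ℝ)..b, Dl X B u = ∫ ξ, (1 - tri (b * ξ) ^ 3 * (1 + 3 * (b * |ξ|))) * Aw X u ξ := by
  have hpi := Real.pi_pos
  have h1 := swap (θ := fun _ => 1) measurable_const le_rfl hb.le (fun _ _ => by simp) X u
  simp only [one_mul] at h1
  rw [h1, ← integral_const_mul]
  congr 1
  funext ξ
  have h2 := mult_low hb ξ
  simp only [one_mul] at h2
  rw [Ww_eq, ← h2]
  obtain ⟨J, hJ⟩ : ∃ J, J = ∫ B in (0:ℝ)..b, B * tri (B * ξ) ^ 2 := ⟨_, rfl⟩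
  rw [← hJ]
  field_simp
  ring

lemma mid_eq {X b : ℝ} (hb : 0 < b) (u : ℝ) :
    3 / Real.pi ^ 2 * ∫ B in b..(2 * b), (b / B - 1) * Dl X B u =
      ∫ ξ, (4 * (b * |ξ|) * (tri (b * ξ) ^ 3 - tri (2 * b * ξ) ^ 3) - tri (b * ξ) ^ 3 * (1 + 3 * (b * |ξ|)) + tri (2 * b * ξ) ^ 3 * (1 + 6 * (b * |ξ|))) * Aw X u ξ := by
  have hpi := Real.pi_pos
  have h1 := swap (θ := fun B => b / B - 1) (by fun_prop) hb.le (by linarith : b ≤ 2 * b) (fun B hB => by
    have hB0 : 0 < B := lt_trans hb hB.1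
    have h3 : b / B ≤ 1 := by rw [div_le_one hB0]; exact hB.1.le
    have h4 : 0 ≤ b / B := by positivity
    rw [abs_le]; constructor <;> linarith) X u
  rw [h1, ← integral_const_mul]
  congr 1
  funext ξ
  have h2 := mult_mid hb ξ
  rw [Ww_eq, ← h2]
  obtain ⟨J, hJ⟩ : ∃ J, J = ∫ B in b..(2 * b), (b / B - 1) * (B * tri (B * ξ) ^ 2) := ⟨_, rfl⟩
  rw [← hJ]
  field_simp
  ring

/-- the exact decomposition of the triangle into kernels -/
theorem ident {X b : ℝ} (hX : 0 < X) (hb : 0 < b) (u : ℝ) :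
    Tr X u = 2 / b * (∫ v, Tr X v * Gm ((u - v) / b)) - 1 / (2 * b) * (∫ v, Tr X v * Gm ((u - v) / (2 * b))) +
      3 / Real.pi ^ 2 * (∫ B in (0:ℝ)..b, Dl X B u) + 3 / Real.pi ^ 2 * (∫ B in b..(2 * b), (b / B - 1) * Dl X B u) -
      b / (2 * Real.pi ^ 2) * Dl X b u + b / (2 * Real.pi ^ 2) * Dl X (2 * b) u := by
  have hpi := Real.pi_pos
  have htc := tri_cont
  have h2b : 0 < 2 * b := by positivity
  set M1 : ℝ → ℝ := fun ξ => 2 * tri (b * ξ) ^ 2 with hM1
  set M2 : ℝ → ℝ := fun ξ => tri (2 * b * ξ) ^ 2 with hM2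
  set M3 : ℝ → ℝ := fun ξ => 1 - tri (b * ξ) ^ 3 * (1 + 3 * (b * |ξ|)) with hM3
  set M4 : ℝ → ℝ := fun ξ => 4 * (b * |ξ|) * (tri (b * ξ) ^ 3 - tri (2 * b * ξ) ^ 3) - tri (b * ξ) ^ 3 * (1 + 3 * (b * |ξ|)) + tri (2 * b * ξ) ^ 3 * (1 + 6 * (b * |ξ|)) with hM4
  set M5 : ℝ → ℝ := fun ξ => 2 * (b * |ξ|) ^ 2 * tri (b * ξ) ^ 2 with hM5
  set M6 : ℝ → ℝ := fun ξ => 4 * (b * |ξ|) ^ 2 * tri (2 * b * ξ) ^ 2 with hM6
  have e1 : 2 / b * (∫ v, Tr X v * Gm ((u - v) / b)) = ∫ ξ, M1 ξ * Aw X u ξ := by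
    rw [conv_eq hX hb, ← integral_const_mul]
    congr 1
    funext ξ
    rw [hM1]
    field_simp
  have e2 : 1 / (2 * b) * (∫ v, Tr X v * Gm ((u - v) / (2 * b))) = ∫ ξ, M2 ξ * Aw X u ξ := by
    rw [conv_eq hX h2b, ← integral_const_mul]
    congr 1
    funext ξ
    rw [hM2]
    field_simp
  have e3 : 3 / Real.pi ^ 2 * (∫ B in (0:ℝ)..b, Dl X B u) = ∫ ξ, M3 ξ * Aw X u ξ := low_eq hb u
  have e4 : 3 / Real.pi ^ 2 * (∫ B in b..(2 * b), (b / B - 1) * Dl X B u) = ∫ ξ, M4 ξ * Aw X u ξ := mid_eq hb u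
  have e5 : b / (2 * Real.pi ^ 2) * Dl X b u = ∫ ξ, M5 ξ * Aw X u ξ := by
    rw [Dl_eq hb, ← integral_const_mul]
    congr 1
    funext ξ
    rw [hM5, Ww_eq]
    simp only
    rw [mul_pow, sq_abs]
    field_simp
    try ring
  have e6 : b / (2 * Real.pi ^ 2) * Dl X (2 * b) u = ∫ ξ, M6 ξ * Aw X u ξ := by
    rw [Dl_eq h2b, ← integral_const_mul]
    congr 1
    funext ξ
    rw [hM6, Ww_eq]
    simp only
    rw [mul_pow, sq_abs]
    field_simp
    try ring
  have t1 : ∀ ξ, |b * |ξ| * tri (b * ξ)| ≤ 1 := by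
    intro ξ
    rw [abs_of_nonneg (mul_nonneg (by positivity) (tri_nonneg _))]
    have := tri_mul_abs (b * ξ)
    rwa [abs_mul, abs_of_pos hb] at this
  have t2 : ∀ ξ, |b * |ξ| * tri (2 * b * ξ)| ≤ 1 := by
    intro ξ
    rw [abs_of_nonneg (mul_nonneg (by positivity) (tri_nonneg _))]
    have := tri_mul_abs (2 * b * ξ)
    rw [abs_mul, abs_of_pos h2b] at this
    have h3 : 0 ≤ b * |ξ| * tri (2 * b * ξ) := mul_nonneg (by positivity) (tri_nonneg _)
    linarith only [this]
  have p1 : ∀ (k : ℕ) (v : ℝ), |tri v ^ k| ≤ 1 := by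
    intro k v
    rw [abs_pow]
    exact pow_le_one₀ (abs_nonneg _) (tri_abs v)
  have i1 : Integrable (fun ξ => M1 ξ * Aw X u ξ) := by
    apply bd_int hX u (by rw [hM1]; fun_prop) (K := 2)
    intro ξ
    rw [hM1]
    simp only
    rw [abs_mul, abs_two]
    have := p1 2 (b * ξ)
    linarith only [this]
  have i2 : Integrable (fun ξ => M2 ξ * Aw X u ξ) := by
    apply bd_int hX u (by rw [hM2]; fun_prop) (K := 1)
    intro ξ
    exact p1 2 _
  have q1 : ∀ ξ, |tri (b * ξ) ^ 3 * (b * |ξ|)| ≤ 1 := by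
    intro ξ
    rw [show tri (b * ξ) ^ 3 * (b * |ξ|) = tri (b * ξ) ^ 2 * (b * |ξ| * tri (b * ξ)) by ring, abs_mul]
    exact mul_le_one₀ (p1 2 _) (abs_nonneg _) (t1 ξ)
  have q2 : ∀ ξ, |tri (2 * b * ξ) ^ 3 * (b * |ξ|)| ≤ 1 := by
    intro ξ
    rw [show tri (2 * b * ξ) ^ 3 * (b * |ξ|) = tri (2 * b * ξ) ^ 2 * (b * |ξ| * tri (2 * b * ξ)) by ring, abs_mul]
    exact mul_le_one₀ (p1 2 _) (abs_nonneg _) (t2 ξ)
  have i3 : Integrable (fun ξ => M3 ξ * Aw X u ξ) := by
    apply bd_int hX u (by rw [hM3]; fun_prop) (K := 5)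
    intro ξ
    rw [hM3]
    simp only
    have a1 := abs_le.mp (p1 3 (b * ξ))
    have a2 := abs_le.mp (q1 ξ)
    rw [abs_le]
    constructor <;> nlinarith only [a1, a2, a1.1, a1.2, a2.1, a2.2]
  have i4 : Integrable (fun ξ => M4 ξ * Aw X u ξ) := by
    apply bd_int hX u (by rw [hM4]; fun_prop) (K := 20)
    intro ξ
    rw [hM4]
    simp only
    have a1 := abs_le.mp (p1 3 (b * ξ))
    have a2 := abs_le.mp (q1 ξ)
    have a3 := abs_le.mp (p1 3 (2 * b * ξ))
    have a4 := abs_le.mp (q2 ξ)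
    rw [abs_le]
    constructor <;> nlinarith only [a1, a2, a3, a4, a1.1, a1.2, a2.1, a2.2, a3.1, a3.2, a4.1, a4.2]
  have i5 : Integrable (fun ξ => M5 ξ * Aw X u ξ) := by
    apply bd_int hX u (by rw [hM5]; fun_prop) (K := 2)
    intro ξ
    rw [hM5]
    simp only
    rw [show 2 * (b * |ξ|) ^ 2 * tri (b * ξ) ^ 2 = 2 * (b * |ξ| * tri (b * ξ)) ^ 2 by ring, abs_mul, abs_two, abs_pow]
    have := pow_le_one₀ (n := 2) (abs_nonneg _) (t1 ξ)
    linarith only [this]
  have i6 : Integrable (fun ξ => M6 ξ * Aw X u ξ) := by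
    apply bd_int hX u (by rw [hM6]; fun_prop) (K := 4)
    intro ξ
    rw [hM6]
    simp only
    rw [show 4 * (b * |ξ|) ^ 2 * tri (2 * b * ξ) ^ 2 = 4 * (b * |ξ| * tri (2 * b * ξ)) ^ 2 by ring, abs_mul, abs_of_pos (by norm_num : (0:ℝ) < 4), abs_pow]
    have := pow_le_one₀ (n := 2) (abs_nonneg _) (t2 ξ)
    linarith only [this]
  rw [e1, e2, e3, e4, e5, e6, Tr_eq hX]
  have j12 : Integrable (fun ξ => M1 ξ * Aw X u ξ - M2 ξ * Aw X u ξ) := i1.sub i2
  have j3 : Integrable (fun ξ => M1 ξ * Aw X u ξ - M2 ξ * Aw X u ξ + M3 ξ * Aw X u ξ) := j12.add i3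
  have j4 : Integrable (fun ξ => M1 ξ * Aw X u ξ - M2 ξ * Aw X u ξ + M3 ξ * Aw X u ξ + M4 ξ * Aw X u ξ) := j3.add i4
  have j5 : Integrable (fun ξ => M1 ξ * Aw X u ξ - M2 ξ * Aw X u ξ + M3 ξ * Aw X u ξ + M4 ξ * Aw X u ξ - M5 ξ * Aw X u ξ) := j4.sub i5
  rw [← integral_sub i1 i2, ← integral_add j12 i3, ← integral_add j3 i4, ← integral_sub j4 i5, ← integral_add j5 i6]
  congr 1
  funext ξ
  have h := mult_sum hb ξ
  rw [hM1, hM2, hM3, hM4, hM5, hM6]
  simp only
  linear_combination (-(Aw X u ξ)) * h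

end Pool.Agent.Helper57.UB

end

/-! ### Helper57.UB.Wid -/

section

namespace Pool.Agent.Helper57.UB

open Set MeasureTheory Filter Topology

open Pool.Agent.Helper57.LH

open Pool.Agent.Helper57.LS

open Pool.Agent.Helper57.UV

open Pool.Agent.Helper4.PC (Tr)

open Pool.Agent.Helper57.PC (SN SN_pos)

open Pool.Agent.Helper4.PU (AT)

/-- pair sums of the kernel -/
noncomputable def GW (T B v : ℝ) : ℝ := WP T (fun u => Gm ((u - v) / B))

/-- pair sums of the second difference -/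
noncomputable def DW (T X B : ℝ) : ℝ := WP T (Dl X B)

lemma Gm_abs (y : ℝ) : |Gm y| ≤ 1 := by
  rw [abs_of_nonneg (Gm_nonneg y)]
  exact (Gm_le y).trans Pool.Agent.Helper4.PC.Gm_zero_le_one

lemma DW_eq (T X B : ℝ) : DW T X B = 2 * GW T B 0 - GW T B X - GW T B (-X) := by
  unfold DW GW WP Dl
  rw [Finset.mul_sum, ← Finset.sum_sub_distrib, ← Finset.sum_sub_distrib]
  refine Finset.sum_congr rfl fun p _ => ?_
  simp only [sub_zero, sub_neg_eq_add]
  ring

lemma Dl_abs (X B u : ℝ) : |Dl X B u| ≤ 4 := by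
  unfold Dl
  have h1 := abs_le.mp (Gm_abs (u / B))
  have h2 := abs_le.mp (Gm_abs ((u - X) / B))
  have h3 := abs_le.mp (Gm_abs ((u + X) / B))
  rw [abs_le]
  constructor <;> linarith only [h1, h2, h3, h1.1, h1.2, h2.1, h2.2, h3.1, h3.2]

lemma Dl_meas (X u : ℝ) : Measurable (fun B => Dl X B u) := by
  unfold Dl
  have h := Gm_cont.measurable
  have h1 : ∀ y : ℝ, Measurable fun B : ℝ => Gm (y / B) := fun y => h.comp (by fun_prop)
  exact (((h1 u).const_mul 2).sub (h1 (u - X))).sub (h1 (u + X))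

lemma Dl_ii (X u : ℝ) {θ : ℝ → ℝ} (hθm : Measurable θ) {c d : ℝ} (hcd : c ≤ d) (hθ : ∀ B ∈ Ioc c d, |θ B| ≤ 1) :
    IntegrableOn (fun B => θ B * Dl X B u) (Ioc c d) := by
  have hconst : Integrable (fun _ : ℝ => (4:ℝ)) (volume.restrict (Ioc c d)) := by
    rw [← IntegrableOn, integrableOn_const_iff]
    right
    exact measure_Ioc_lt_top
  refine hconst.mono' (hθm.mul (Dl_meas X u)).aestronglyMeasurable ?_
  rw [ae_restrict_iff' measurableSet_Ioc]
  filter_upwards with B hB
  rw [norm_mul, Real.norm_eq_abs, Real.norm_eq_abs]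
  have h1 := hθ B hB
  have h2 := Dl_abs X B u
  calc |θ B| * |Dl X B u| ≤ 1 * 4 := by gcongr
    _ = 4 := one_mul _

lemma WP_Dl_int (T X : ℝ) {θ : ℝ → ℝ} (hθm : Measurable θ) {c d : ℝ} (hcd : c ≤ d) (hθ : ∀ B ∈ Ioc c d, |θ B| ≤ 1) :
    WP T (fun u => ∫ B in c..d, θ B * Dl X B u) = ∫ B in c..d, θ B * DW T X B := by
  simp_rw [intervalIntegral.integral_of_le hcd]
  rw [WP_integral' (volume.restrict (Ioc c d)) T (fun B u => θ B * Dl X B u) (fun u => Dl_ii X u hθm hcd hθ)]
  congr 1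
  funext B
  unfold DW
  exact WP_smul T (θ B) (Dl X B)

lemma TrG_int {X : ℝ} (hX : 0 < X) (b u : ℝ) : Integrable (fun v => Tr X v * Gm ((u - v) / b)) := by
  refine (Tr_integrable hX).mul_bdd (c := 1) ?_ ?_
  · have := Gm_cont
    exact Continuous.aestronglyMeasurable (by fun_prop)
  · filter_upwards with v
    rw [Real.norm_eq_abs]
    exact Gm_abs _

lemma WP_conv {X : ℝ} (hX : 0 < X) (T b : ℝ) : WP T (fun u => ∫ v, Tr X v * Gm ((u - v) / b)) = ∫ v, Tr X v * GW T b v := by
  rw [WP_integral T (fun v u => Tr X v * Gm ((u - v) / b)) (fun u => TrG_int hX b u)]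
  congr 1
  funext v
  exact WP_smul T (Tr X v) _

/-- the exact decomposition for pair sums -/
theorem WP_ident {X b : ℝ} (hX : 0 < X) (hb : 0 < b) (T : ℝ) :
    WP T (Tr X) = 2 / b * (∫ v, Tr X v * GW T b v) - 1 / (2 * b) * (∫ v, Tr X v * GW T (2 * b) v) +
      3 / Real.pi ^ 2 * (∫ B in (0:ℝ)..b, DW T X B) + 3 / Real.pi ^ 2 * (∫ B in b..(2 * b), (b / B - 1) * DW T X B) -
      b / (2 * Real.pi ^ 2) * DW T X b + b / (2 * Real.pi ^ 2) * DW T X (2 * b) := by
  have e0 : WP T (Tr X) = WP T (fun u => 2 / b * (∫ v, Tr X v * Gm ((u - v) / b)) + (-(1 / (2 * b))) * (∫ v, Tr X v * Gm ((u - v) / (2 * b))) +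
      3 / Real.pi ^ 2 * (∫ B in (0:ℝ)..b, Dl X B u) + 3 / Real.pi ^ 2 * (∫ B in b..(2 * b), (b / B - 1) * Dl X B u) +
      (-(b / (2 * Real.pi ^ 2))) * Dl X b u + b / (2 * Real.pi ^ 2) * Dl X (2 * b) u) := by
    refine congrArg (WP T) (funext fun u => ?_)
    rw [ident hX hb u]
    ring
  rw [e0, WP_add, WP_add, WP_add, WP_add, WP_add, WP_smul, WP_smul, WP_smul, WP_smul, WP_smul, WP_smul, WP_conv hX, WP_conv hX]
  have h1 := WP_Dl_int T X (θ := fun _ => 1) measurable_const hb.le (fun _ _ => by simp)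
  simp only [one_mul] at h1
  have h2 := WP_Dl_int T X (θ := fun B => b / B - 1) (by fun_prop) (by linarith only [hb] : b ≤ 2 * b) (fun B hB => by
    have hB0 : 0 < B := lt_trans hb hB.1
    have h3 : b / B ≤ 1 := by rw [div_le_one hB0]; exact hB.1.le
    have h4 : 0 ≤ b / B := by positivity
    rw [abs_le]; constructor <;> linarith)
  rw [h1, h2]
  have h3 : WP T (fun x => Dl X b x) = DW T X b := rfl
  have h4 : WP T (fun x => Dl X (2 * b) x) = DW T X (2 * b) := rfl
  rw [h3, h4]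
  ring

end Pool.Agent.Helper57.UB

end
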