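import Pool.Agent.Helper57.M.F
import Pool.Agent.Helper57.M.G

/-!
# Merged library file (short import chain), part H
-/

/-! ### Helper4.PU.BE -/

section

namespace Pool.Agent.Helper4.PU

open Set MeasureTheory Filter Topology

open Pool.Agent.Helper57.Zeta

open Pool.Agent.Helper57.PC

open Pool.Agent.Helper57.LH (WP WP_mono WP_nonneg WP_add WP_smul WP_neg WP_sum CLA CLA_pos one_le_log Gm Gm_nonneg gB gB_cont gB_le gB_nonneg log_pow_le NT_le_ev ic ic_apply ic_nonneg ic_le_one pairCount_WP)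



open Pool.Agent.Helper4.PC

noncomputable def CAT : ℝ := 2 * (1 + ell) + (ell ^ 2 + 2 * ell + 2)

lemma CAT_pos : 0 < CAT := by
  have := ell_nonneg
  unfold CAT; positivity

lemma AT_close {T : ℝ} (hT : 3 ≤ T) : |AT T - 1| ≤ CAT / Real.log T := by
  have hL := one_le_log hT
  have hell := ell_nonneg
  set L := Real.log T with hLd
  have hL0 : 0 < L := by linarith only [hL]
  have e : AT T - 1 = (-(2 * (1 + ell)) * L + (ell ^ 2 + 2 * ell + 2)) / L ^ 2 := by
    unfold AT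
    rw [← hLd]
    change ((L - ell) ^ 2 - 2 * (L - ell) + 2) / L ^ 2 - 1 = _
    field_simp
    ring
  rw [e, abs_div, abs_of_pos (by positivity : 0 < L ^ 2), div_le_div_iff₀ (by positivity) hL0]
  have h1 : |-(2 * (1 + ell)) * L + (ell ^ 2 + 2 * ell + 2)| ≤ CAT * L := by
    refine (abs_add_le _ _).trans ?_
    rw [abs_mul, abs_neg, abs_of_nonneg (by positivity : 0 ≤ 2 * (1 + ell)), abs_of_pos hL0, abs_of_nonneg (by positivity : 0 ≤ ell ^ 2 + 2 * ell + 2)]
    unfold CAT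
    nlinarith only [hell, hL, mul_nonneg (by positivity : 0 ≤ ell ^ 2 + 2 * ell + 2) (by linarith only [hL] : 0 ≤ L - 1)]
  calc |-(2 * (1 + ell)) * L + (ell ^ 2 + 2 * ell + 2)| * L ≤ (CAT * L) * L := by gcongr
    _ = CAT * L ^ 2 := by ring

end Pool.Agent.Helper4.PU

end

/-! ### Helper4.PU.NVU -/

section

namespace Pool.Agent.Helper4.PU

open Set MeasureTheory Filter Topology

open scoped Convolution

open Pool.Agent.Helper57.LH (sc sc_cont sc_even sc_integrable sc_nonneg sc_le_one sc_integral sc_eq sc_zero sc_decay sc_ae Gm Gm_nonneg Gm_even Gm_integral Gm_integrable Gm_cont Gm_le WP WP_mono WP_nonneg WP_add WP_smul WP_neg WP_sum gB gB_cont gB_le gB_nonneg one_le_log)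



open Pool.Agent.Helper57.PC

open Pool.Agent.Helper57.Zeta

open Pool.Agent.Helper4.PC

lemma Gs_int_eq {B : ℝ} (hB : 0 < B) (v : ℝ) : ∫ u, Gm ((u - v) / B) = B := by
  rw [integral_sub_right_eq_self (fun u => Gm (u / B)) v, Measure.integral_comp_div (fun x => Gm x) B, abs_of_pos hB, smul_eq_mul, Gm_integral, mul_one]

lemma Tr_integral {X : ℝ} (hX : 0 < X) : ∫ u, Tr X u = X ^ 2 := by
  have h2 := CT_Tr hX 0
  rw [mul_zero, sc_zero, mul_one] at h2
  rw [← h2]
  unfold CT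
  congr 1; funext u
  simp

end Pool.Agent.Helper4.PU

end

/-! ### Helper4.PU.Final -/

section

namespace Pool.Agent.Helper4.PU

open Set MeasureTheory Filter Topology

open Pool.Agent.Helper57.LH (WP WP_mono WP_nonneg WP_add WP_smul WP_neg WP_sum one_le_log ic ic_apply pairCount_WP)

open Pool.Agent.Helper57.PC

open Pool.Agent.Helper57.Zeta

open Pool.Agent.Helper4.PC

lemma hasDeriv_sqlog {x : ℝ} (hx : x ≠ 0) : HasDerivAt (fun s : ℝ => s * Real.log s ^ 2 - 2 * (s * Real.log s) + 2 * s) (Real.log x ^ 2) x := by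
  have h1 := Real.hasDerivAt_log hx
  have h2 := (hasDerivAt_id x).mul (h1.pow 2)
  have h3 := ((hasDerivAt_id x).mul h1).const_mul 2
  have h4 := (hasDerivAt_id x).const_mul (2:ℝ)
  have h5 := (h2.sub h3).add h4
  refine h5.congr_deriv ?_
  simp only [id, Pi.pow_apply]
  field_simp
  ring

lemma cont_sqlog : Continuous (fun s : ℝ => s * Real.log s ^ 2 - 2 * (s * Real.log s) + 2 * s) := by
  have h1 : Continuous (fun s : ℝ => s * Real.log s) := Real.continuous_mul_log
  have h2 : Continuous (fun s : ℝ => s * Real.log s ^ 2) := by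
    rw [continuous_iff_continuousAt]
    intro x
    by_cases hx : x = 0
    · rw [hx]
      have e : (fun s : ℝ => s * Real.log s ^ 2) = fun s => (4 * (Real.sqrt |s| * Real.log (Real.sqrt |s|)) ^ 2) * SignType.sign s := by
        funext s
        rcases lt_trichotomy s 0 with hs | hs | hs
        · have h3 : |s| = -s := abs_of_neg hs
          have h4 : Real.log (Real.sqrt |s|) = Real.log s / 2 := by
            rw [Real.log_sqrt (abs_nonneg s), Real.log_abs]
          rw [h4, mul_pow, Real.sq_sqrt (abs_nonneg s), h3, sign_neg hs]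
          simp
          ring
        · rw [hs]; simp
        · have h3 : |s| = s := abs_of_pos hs
          have h4 : Real.log (Real.sqrt |s|) = Real.log s / 2 := by
            rw [Real.log_sqrt (abs_nonneg s), Real.log_abs]
          rw [h4, mul_pow, Real.sq_sqrt (abs_nonneg s), h3, sign_pos hs]
          simp
          ring
      have hc : Continuous (fun s : ℝ => 4 * (Real.sqrt |s| * Real.log (Real.sqrt |s|)) ^ 2) := by
        apply continuous_const.mul
        apply Continuous.pow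
        exact Real.continuous_mul_log.comp (Real.continuous_sqrt.comp continuous_abs)
      have h5 : Tendsto (fun s : ℝ => 4 * (Real.sqrt |s| * Real.log (Real.sqrt |s|)) ^ 2) (𝓝 0) (𝓝 0) := by
        have := hc.tendsto 0
        simpa using this
      rw [e]
      have h7 : Tendsto (fun s : ℝ => (4 * (Real.sqrt |s| * Real.log (Real.sqrt |s|)) ^ 2) * ((SignType.sign s : SignType) : ℝ)) (𝓝 0) (𝓝 0) → ContinuousAt (fun s : ℝ => (4 * (Real.sqrt |s| * Real.log (Real.sqrt |s|)) ^ 2) * ((SignType.sign s : SignType) : ℝ)) 0 := by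
        intro h
        unfold ContinuousAt
        simpa using h
      apply h7
      apply squeeze_zero_norm (a := fun s : ℝ => 4 * (Real.sqrt |s| * Real.log (Real.sqrt |s|)) ^ 2) _ h5
      intro s
      rw [norm_mul]
      have h6 : ‖((SignType.sign s : SignType) : ℝ)‖ ≤ 1 := by
        rcases lt_trichotomy s 0 with hs | hs | hs
        · rw [sign_neg hs]; simp
        · rw [hs]; simp
        · rw [sign_pos hs]; simp
      rw [Real.norm_of_nonneg (by positivity)]
      exact mul_le_of_le_one_right (by positivity) h6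
    · exact (continuousAt_id.mul ((Real.continuousAt_log hx).pow 2))
  exact (h2.sub (continuous_const.mul h1)).add (by fun_prop)

lemma int_sqlog {b : ℝ} (hb : 0 ≤ b) : ∫ s in (0:ℝ)..b, Real.log s ^ 2 = b * Real.log b ^ 2 - 2 * (b * Real.log b) + 2 * b := by
  have hd : ∀ x ∈ Ioo (0:ℝ) b, HasDerivAt (fun s : ℝ => s * Real.log s ^ 2 - 2 * (s * Real.log s) + 2 * s) (Real.log x ^ 2) x :=
    fun x hx => hasDeriv_sqlog hx.1.ne'
  have hi := intervalIntegral.integrableOn_deriv_of_nonneg cont_sqlog.continuousOn hd (fun x _ => sq_nonneg _)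
  have := intervalIntegral.integral_eq_sub_of_hasDerivAt_of_le hb cont_sqlog.continuousOn hd (by
    rw [intervalIntegrable_iff_integrableOn_Ioc_of_le hb]; exact hi)
  rw [this]
  simp

/-- the mean square of the density of the ordinates -/
lemma AT_eq {T : ℝ} (hT : 0 < T) : AT T = (∫ t in (0:ℝ)..T, Real.log (t / (2 * Real.pi)) ^ 2) / (T * Real.log T ^ 2) := by
  have hpi := Real.pi_pos
  have h1 := intervalIntegral.integral_comp_div (a := 0) (b := T) (fun s => Real.log s ^ 2) (show (2 * Real.pi) ≠ 0 by positivity)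
  rw [h1, zero_div, int_sqlog (by positivity), smul_eq_mul, Real.log_div hT.ne' (by positivity)]
  unfold AT
  have e : 2 * Real.pi * (T / (2 * Real.pi) * (Real.log T - Real.log (2 * Real.pi)) ^ 2 -
      2 * (T / (2 * Real.pi) * (Real.log T - Real.log (2 * Real.pi))) + 2 * (T / (2 * Real.pi))) =
      T * ((Real.log T - Real.log (2 * Real.pi)) ^ 2 - 2 * (Real.log T - Real.log (2 * Real.pi)) + 2) := by
    field_simp
  rw [e]
  rw [mul_div_mul_left _ _ hT.ne']

end Pool.Agent.Helper4.PU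

end

/-! ### Helper57.UV.LawW -/

section

namespace Pool.Agent.Helper57.UV

open Set MeasureTheory Filter Topology

open Pool.Agent.Helper57.LH

open Pool.Agent.Helper57.Zeta

open Pool.Agent.Helper57.LS

open Pool.Agent.Helper57.US

open Pool.Agent.Helper57.PC (SN SN_pos)

open Pool.Agent.Helper4.PU (AT)

/-- powers of `T` used below -/
lemma powers {T : ℝ} (hT : 1 ≤ T) : T ^ (3/4 : ℝ) ≤ T ^ (15/16 : ℝ) ∧ T / T ^ (3/4 : ℝ) ≤ T ^ (15/16 : ℝ) ∧ T ^ (1/100 : ℝ) ≤ T ^ (3/4 : ℝ) ∧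
    T ^ (-(1/16) : ℝ) * T = T ^ (15/16 : ℝ) ∧ T ^ (-(3/8) : ℝ) * T = T ^ (5/8 : ℝ) ∧ T ^ (5/8 : ℝ) ≤ T ^ (3/4 : ℝ) ∧
    (Real.sqrt T) ^ (-(3/4) : ℝ) = T ^ (-(3/8) : ℝ) ∧ Real.sqrt T ≤ T ^ (3/4 : ℝ) ∧ (T ^ (-(3/8) : ℝ)) ^ 2 * T ^ (3/4 : ℝ) = 1 ∧
    (T ^ (1/100 : ℝ)) ^ 5 * T ^ (15/16 : ℝ) = T ^ (79/80 : ℝ) ∧ (T ^ (1/100 : ℝ)) ^ 2 = T ^ (1/50 : ℝ) := by
  have hT0 : 0 < T := by linarith
  have hmono : ∀ {s t : ℝ}, s ≤ t → T ^ s ≤ T ^ t := fun h => Real.rpow_le_rpow_of_exponent_le hT h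
  refine ⟨hmono (by norm_num), ?_, hmono (by norm_num), ?_, ?_, hmono (by norm_num), ?_, ?_, ?_, ?_, ?_⟩
  · nth_rewrite 1 [← Real.rpow_one T]
    rw [← Real.rpow_sub hT0]
    exact hmono (by norm_num)
  · nth_rewrite 2 [← Real.rpow_one T]
    rw [← Real.rpow_add hT0]; norm_num
  · nth_rewrite 2 [← Real.rpow_one T]
    rw [← Real.rpow_add hT0]; norm_num
  · rw [Real.sqrt_eq_rpow, ← Real.rpow_mul hT0.le]; norm_num
  · rw [Real.sqrt_eq_rpow]; exact hmono (by norm_num)
  · rw [← Real.rpow_natCast, ← Real.rpow_mul hT0.le, ← Real.rpow_add hT0]; norm_num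
  · rw [← Real.rpow_natCast, ← Real.rpow_mul hT0.le, ← Real.rpow_add hT0]; norm_num
  · rw [← Real.rpow_natCast, ← Real.rpow_mul hT0.le]; norm_num

lemma kc_bd {T L a δ C Cl N : ℝ} (hL0 : 0 ≤ L) (hC : 0 ≤ C) (hCl : 0 ≤ Cl)
    (hs : Real.sqrt T ≤ a) (hδ : |δ| ≤ a) (hp : (Real.sqrt T) ^ (-(3/4) : ℝ) * T ≤ a) (hN : N ≤ T * L) :
    (4 * Cl * L) * (2 * a + 2 * |δ| + 2 * Real.sqrt T) + 4 * (Real.sqrt T) ^ (-(3/4) : ℝ) * N * C ≤ (24 * Cl + 4 * C) * L * a := by
  have h1 : (4 * Cl * L) * (2 * a + 2 * |δ| + 2 * Real.sqrt T) ≤ (4 * Cl * L) * (6 * a) := by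
    gcongr
    linarith only [hs, hδ]
  have h2 : 4 * (Real.sqrt T) ^ (-(3/4) : ℝ) * N * C ≤ 4 * C * L * a := by
    calc 4 * (Real.sqrt T) ^ (-(3/4) : ℝ) * N * C ≤ 4 * (Real.sqrt T) ^ (-(3/4) : ℝ) * (T * L) * C := by gcongr
      _ = 4 * C * L * ((Real.sqrt T) ^ (-(3/4) : ℝ) * T) := by ring
      _ ≤ 4 * C * L * a := by gcongr
  linarith only [h1, h2]

lemma SN_bd {T L y B X a D N : ℝ} (hB0 : 0 < B) (hB : B ≤ y) (hX0 : 0 < X) (hX : 1 / X ≤ y) (hT0 : 0 < T) (ha0 : 0 < a) (hy : 0 ≤ y)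
    (hpa : (T ^ (-(3/8) : ℝ)) ^ 2 * a = 1) (hpT : T ^ (-(3/8) : ℝ) * T ≤ D) (hN0 : 0 ≤ N) (hN : N ≤ T * L) :
    Real.sqrt (2 * B * (1 / (a * X))) * N ≤ 2 * L * y * D := by
  have hp : 0 < T ^ (-(3/8) : ℝ) := Real.rpow_pos_of_pos hT0 _
  have h1 : Real.sqrt (2 * B * (1 / (a * X))) ≤ 2 * y * T ^ (-(3/8) : ℝ) := by
    apply Real.sqrt_le_iff.mpr
    refine ⟨by positivity, ?_⟩
    have e1 : 2 * B * (1 / (a * X)) = 2 * B * (1 / X) * (1 / a) := by field_simp
    have e2 : 1 / a = (T ^ (-(3/8) : ℝ)) ^ 2 := by rw [div_eq_iff ha0.ne']; exact hpa.symm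
    rw [e1, e2]
    calc 2 * B * (1 / X) * (T ^ (-(3/8) : ℝ)) ^ 2 ≤ 2 * y * y * (T ^ (-(3/8) : ℝ)) ^ 2 := by gcongr
      _ ≤ (2 * y * T ^ (-(3/8) : ℝ)) ^ 2 := by
          have : 0 ≤ y * y * (T ^ (-(3/8) : ℝ)) ^ 2 := by positivity
          have e3 : (2 * y * T ^ (-(3/8) : ℝ)) ^ 2 = 2 * y * y * (T ^ (-(3/8) : ℝ)) ^ 2 + 2 * (y * y * (T ^ (-(3/8) : ℝ)) ^ 2) := by ring
          linarith only [this]
  calc Real.sqrt (2 * B * (1 / (a * X))) * N ≤ (2 * y * T ^ (-(3/8) : ℝ)) * (T * L) := by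
        exact mul_le_mul h1 hN hN0 (by positivity)
    _ = 2 * L * y * (T ^ (-(3/8) : ℝ) * T) := by ring
    _ ≤ 2 * L * y * D := by
        have hL : 0 ≤ L := by
          have : 0 ≤ T * L := hN0.trans hN
          exact nonneg_of_mul_nonneg_right this hT0
        gcongr

lemma lam_mono {E l G T w A q S N C kc β α C' : ℝ} (hE : 0 ≤ E) (hl : 0 ≤ l) (hβα : β - α ≤ T) (hw : 0 ≤ w) (hG : 0 ≤ G) (hA : 0 ≤ A) (hq : 0 ≤ q)
    (hS : 0 ≤ S) (hC : C ≤ C') (hN : 0 ≤ N) :
    40 * E * (l * (β - α) + G) + w * G * (β - α) + 16 * A * q * S * C * N + 8 * A * q * G * kc ≤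
      40 * E * (l * T + G) + w * G * T + 16 * A * q * S * C' * N + 8 * A * q * G * kc := by
  gcongr

lemma sqrt_KT {K T B : ℝ} (hK : 0 ≤ K) (hT : 0 ≤ T) (hB : 1 ≤ B) :
    2 * (Real.sqrt (K * (T / B ^ 2)) * Real.sqrt (9 * T)) + K * (T / B ^ 2) ≤ (6 * Real.sqrt K + K) * (T / B) := by
  have hB0 : 0 < B := by linarith only [hB]
  have h1 : Real.sqrt (K * (T / B ^ 2)) * Real.sqrt (9 * T) = 3 * Real.sqrt K * (T / B) := by
    rw [← Real.sqrt_mul (by positivity)]
    have e : K * (T / B ^ 2) * (9 * T) = K * (3 * (T / B)) ^ 2 := by field_simp; ring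
    rw [e, Real.sqrt_mul hK, Real.sqrt_sq (by positivity)]
    ring
  have h2 : T / B ^ 2 ≤ T / B := div_le_div_of_nonneg_left hT hB0 (le_self_pow₀ hB (by norm_num))
  rw [h1]
  have h3 : K * (T / B ^ 2) ≤ K * (T / B) := by gcongr
  linarith

theorem Y_corrV : ∃ C : ℝ, 0 < C ∧ ∀ᶠ T : ℝ in atTop, ∀ B v : ℝ, 9600 ≤ B → B ≤ T ^ (1/100 : ℝ) → |v| ≤ T ^ (1/100 : ℝ) →
    |(∫ t, Yf (ZT T) (Real.log T / B) t * Yf (ZT T) (Real.log T / B) (t + -(2 * Real.pi * v / Real.log T))) -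
      T * (AT T * B ^ 2 + PXc (Real.log T / B) (2 * Real.pi * v / Real.log T))| ≤ C * (T / B) := by
  obtain ⟨K, hK, hE2⟩ := E_l2V
  have hCLA := CLA_pos
  have hC1 := C1_nonneg
  have hCT := CT2_nonneg
  have hpi := Real.pi_pos
  obtain ⟨Cc, hCc⟩ : ∃ Cc, Cc = CT2 + C1 := ⟨_, rfl⟩
  obtain ⟨Ck, hCk⟩ : ∃ Ck, Ck = 24 * CLA + 4 * C1 := ⟨_, rfl⟩
  have hCc0 : 0 ≤ Cc := by rw [hCc]; positivity
  have hCk0 : 0 ≤ Ck := by rw [hCk]; positivity
  obtain ⟨M0, hM0⟩ : ∃ M0, M0 = 2 * (80 + 50 + 13 * Cc + 32 * Cc + 8 * Ck) + (100 * CLA * Ck + 81) := ⟨_, rfl⟩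
  refine ⟨6 * Real.sqrt K + K + 1, by positivity, ?_⟩
  have hl := Real.tendsto_log_atTop
  filter_upwards [hE2, eventually_ge_atTop (1600:ℝ), hl.eventually_ge_atTop 40, NT_le_ev, log_pow_le M0 3 (s := 79/80) (by norm_num),
    log_pow_le 8 0 (s := 3/4) (by norm_num), log_pow_le 32 0 (s := 1/100) (by norm_num)] with T g1 g2 g3 g4 g5 g6 g7 B v hB hBy hvy
  have hT0 : 0 < T := by linarith
  have hT1 : 1 ≤ T := by linarith only [g7, hB, hBy]
  have hT3 : 3 ≤ T := by linarith only [g7, hB, hBy]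
  have hB0 : 0 < B := by linarith only [hB]
  have g1' := g1 B hB hBy
  have e7 : Real.exp (Real.log T / B) = T ^ (1 / B) := by
    rw [Real.rpow_def_of_pos hT0]; congr 1; ring
  have e8 : Real.exp (3 * (Real.log T / B)) = T ^ (3 / B) := by
    rw [Real.rpow_def_of_pos hT0]; congr 1; ring
  have hATd : AT T = ((Real.log T - Real.log (2 * Real.pi)) ^ 2 - 2 * (Real.log T - Real.log (2 * Real.pi)) + 2) / Real.log T ^ 2 := rfl
  obtain ⟨pw1, pw2, pw3, pw4, pw5, pw6, pw7, pw8, pw9, pw10, pw11⟩ := powers hT1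
  have hD1 : 1 ≤ T ^ (15/16 : ℝ) := Real.one_le_rpow hT1 (by norm_num)
  have hy1 : 1 ≤ T ^ (1/100 : ℝ) := Real.one_le_rpow hT1 (by norm_num)
  obtain ⟨L, hL⟩ : ∃ L, L = Real.log T := ⟨_, rfl⟩
  obtain ⟨X, hX⟩ : ∃ X, X = L / B := ⟨_, rfl⟩
  rw [← hL] at g1' g3 g4 g5 hATd ⊢
  rw [← hX] at g1' ⊢
  rw [← hL, ← hX] at e7 e8
  rw [pow_zero, mul_one] at g6 g7
  have hL1 : 1 ≤ L := by linarith only [g3]
  have hL0 : 0 < L := by linarith only [g3]
  have hX0 : 0 < X := by rw [hX]; positivity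
  obtain ⟨hrX, hqX⟩ := scale_facts (T := T) (L := L) (B := B) (X := X) hT1 hL1 hB0 hBy hX
  have hexpX : Real.exp X ≤ T ^ (1/100 : ℝ) := by
    rw [e7]
    apply Real.rpow_le_rpow_of_exponent_le hT1
    have : 1 / B ≤ 1 / 9600 := one_div_le_one_div_of_le (by norm_num) hB
    linarith only [this]
  have hexp3X : Real.exp (3 * X) ≤ T ^ (1/100 : ℝ) := by
    rw [e8]
    apply Real.rpow_le_rpow_of_exponent_le hT1
    have : 3 / B ≤ 3 / 9600 := by gcongr
    linarith only [this]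
  obtain ⟨a, ha⟩ : ∃ a, a = T ^ (3/4 : ℝ) := ⟨_, rfl⟩
  obtain ⟨y, hy⟩ : ∃ y, y = T ^ (1/100 : ℝ) := ⟨_, rfl⟩
  obtain ⟨D, hD⟩ : ∃ D, D = T ^ (15/16 : ℝ) := ⟨_, rfl⟩
  obtain ⟨q, hq⟩ : ∃ q, q = T ^ (1/50 : ℝ) := ⟨_, rfl⟩
  rw [← ha] at g1' g6 pw1 pw2 pw3 pw6 pw8 pw9
  rw [← hy] at hBy hvy pw3 pw10 pw11 hy1 hrX hexpX hexp3X g7
  rw [← hD] at pw1 pw2 pw4 pw10 hD1
  rw [← hq] at hqX pw11
  have hq1 : 1 ≤ q := by rw [← pw11]; exact one_le_pow₀ hy1
  have hsT20 : 40 ≤ Real.sqrt T := by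
    rw [Real.le_sqrt (by norm_num) hT0.le]
    linarith only [hB, g7, hBy]
  have ha40 : 40 ≤ a := hsT20.trans pw8
  have ha0 : 0 < a := by linarith only [hB, pw3, hBy]
  have hXy : 1 / X ≤ y := by rw [div_le_iff₀ hX0]; exact hrX
  obtain ⟨δ, hδ⟩ : ∃ δ : ℝ, δ = -(2 * Real.pi * v / L) := ⟨_, rfl⟩
  have hδ' : 2 * Real.pi * v / L = -δ := by rw [hδ]; ring
  rw [hδ', neg_neg]
  have hδabs : |δ| ≤ y := by
    rw [hδ, abs_neg, abs_div, abs_mul, abs_of_pos (by positivity : 0 < 2 * Real.pi), abs_of_pos hL0, div_le_iff₀ hL0]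
    have h2 : 2 * Real.pi ≤ 40 := by linarith only [Real.pi_lt_four]
    calc 2 * Real.pi * |v| ≤ 40 * y := by gcongr
      _ = y * 40 := by ring
      _ ≤ y * L := by gcongr
  have hδa : |δ| ≤ a := hδabs.trans pw3
  have hδ0 := abs_nonneg δ
  have hδ1 := le_abs_self δ
  have hδ2 := neg_abs_le δ
  have h8a : 8 * a ≤ T := g6
  have hmid : a + |δ| ≤ T - a - |δ| := by linarith only [hB, g6, g7, hBy, hδabs]
  have hNT0 : 0 ≤ NT T := by
    rw [← sum_ZT_mx]
    exact Finset.sum_nonneg fun ρ _ => mx_nonneg _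
  -- prime sum
  have hPS : ∫ t in Icc a (T - a), PS X t ^ 2 ≤ 9 * T := by
    rw [integral_Icc_eq_integral_Ioc, ← intervalIntegral.integral_of_le (by linarith only [hB, g6, g7, hBy] : a ≤ T - a)]
    refine (PS_sq hX0 (by linarith only [hB, g6, g7, hBy])).trans ?_
    have : 32 * Real.exp (3 * X) ≤ T := by
      calc 32 * Real.exp (3 * X) ≤ 32 * y := by gcongr
        _ ≤ T := g7
    linarith only [hB, g7, hexp3X, pw3, hBy]
  -- complement mass
  obtain ⟨kc, hkc⟩ : ∃ kc, kc = (4 * CLA * L) * (2 * a + 2 * |δ| + 2 * Real.sqrt T) + 4 * (Real.sqrt T) ^ (-(3/4) : ℝ) * NT T * C1 := ⟨_, rfl⟩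
  have hZT : ∀ ρ ∈ ZT T, 0 ≤ (ρ:ℂ).im ∧ (ρ:ℂ).im ≤ T := fun ρ hρ => mem_ZT.mp hρ
  have hk1 : ∫ t in (Icc (a + |δ|) (T - a - |δ|))ᶜ, KS (ZT T) t ≤ kc := by
    refine (KS_compl hT3 (by linarith only [hsT20] : 1 ≤ Real.sqrt T) (by linarith only [hB, pw3, hBy, hδ0]) (by linarith only [hB, pw3, hBy, hδ0]) hZT).trans (le_of_eq ?_)
    rw [sum_ZT_mx, ← hL, hkc]
    ring
  have hk2 : ∫ t in (Icc (a + |δ| + δ) (T - a - |δ| + δ))ᶜ, KS (ZT T) t ≤ kc := by
    refine (KS_compl hT3 (by linarith only [hsT20] : 1 ≤ Real.sqrt T) (by linarith only [hB, pw3, hBy, hδ2]) (by linarith only [hB, pw3, hBy, hδ1]) hZT).trans (le_of_eq ?_)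
    rw [sum_ZT_mx, ← hL, hkc]
    ring
  have hkc0 : 0 ≤ kc := (integral_nonneg fun t => KS_nonneg _ _).trans hk1
  have hkcb : kc ≤ Ck * L * a := by
    rw [hkc, hCk]
    apply kc_bd hL0.le hC1 hCLA.le pw8 hδa _ g4
    rw [pw7, pw5]
    exact pw6
  -- pointwise bound for the linear statistics
  obtain ⟨w, hw⟩ : ∃ w, w = 50 * y ^ 2 / a + (5 + 8 * AX X) * q * (CT2 * T ^ (-(1/16) : ℝ)) := ⟨_, rfl⟩
  have hAX0 := AX_nonneg X
  have hTm : 0 < T ^ (-(1/16) : ℝ) := Real.rpow_pos_of_pos hT0 _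
  have hw0 : 0 ≤ w := by
    rw [hw]
    have hq0 : 0 ≤ q := by linarith only [hq1]
    positivity
  have hpt : ∀ t, a ≤ t → t ≤ T - a → |bt T X t - PS X t - Yv T X t| ≤ w := by
    intro t ht1 ht2
    have hexpt : Real.exp (X / 2) ≤ t := by
      have : Real.exp (X / 2) ≤ Real.exp X := Real.exp_le_exp.mpr (by linarith only [hX0])
      linarith only [hexpX, pw3, ht1, this]
    have h1 := MT_bt (T := T) (X := X) (r := y) (t := t) hX0 hy1 hrX (by rw [← ha]; linarith only [hB, pw3, hBy]) (by rw [← ha]; exact ht1) (by linarith only [hB, pw3, hBy, ht2]) hexpt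
    have h2 := Yv_approx (T := T) (X := X) (q := q) (t := t) hT1 (by rw [← ha]; linarith only [hB, pw3, hBy]) hX0 hq1 hqX (by rw [← ha]; exact ht1) (by rw [← ha]; exact ht2)
    rw [← ha] at h1
    have e : bt T X t - PS X t - Yv T X t = -(MT X t / X - bt T X t) + (MT X t / X - PS X t - Yv T X t) := by ring
    rw [e, hw]
    refine (abs_add_le _ _).trans ?_
    rw [abs_neg]
    exact add_le_add h1 h2
  have hbb := bt_bound hT1 (by rw [← ha]; linarith only [hB, pw3, hBy] : 8 ≤ T ^ (3/4 : ℝ)) hL hB0 hL0 hX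
  have hlip := bt_lip hT0 hX0
  rw [← ha] at hlip
  have hbc := bt_cont hT0 X
  obtain ⟨l, hl'⟩ : ∃ l, l = 1 / (a * X) := ⟨_, rfl⟩
  have hl0 : 0 ≤ l := by rw [hl']; positivity
  have hlipd : ∀ d s t : ℝ, |bt T X (s + d) - bt T X (t + d)| ≤ l * |s - t| := by
    intro d s t
    have := hlip (s + d) (t + d)
    rw [add_sub_add_right_eq_sub] at this
    refine this.trans (le_of_eq ?_)
    rw [hl']; ring
  obtain ⟨lam, hlam⟩ : ∃ lam, lam = 40 * Real.exp X * (l * T + B) + w * B * T + 16 * AX X * q * Real.sqrt (2 * B * l) * Cc * NT T + 8 * AX X * q * B * kc := ⟨_, rfl⟩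
  have hq0 : 0 ≤ q := by linarith only [hq1]
  have hE0 := (Real.exp_pos X).le
  have hl1 : |(∫ t in Icc (a + |δ|) (T - a - |δ|), Yf (ZT T) X t * bt T X (t + δ)) - ∫ t in Icc (a + |δ|) (T - a - |δ|), bt T X t * bt T X (t + δ)| ≤ lam := by
    refine (lin_stat (g := fun t => bt T X (t + δ)) hX0 hq1 hqX hT0 hmid (hbc.comp (by fun_prop)) (fun t => hbb _) (hlipd δ) hl0
      (fun t ht => hpt t (by linarith only [hδ0, ht, ht.1]) (by linarith only [hδ0, ht, ht.2])) hk1).trans ?_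
    rw [hlam]
    exact lam_mono hE0 hl0 (by linarith only [hB, pw3, hBy, hδ0]) hw0 hB0.le hAX0 hq0 (Real.sqrt_nonneg _) (by rw [hCc]; linarith only [hCT]) hNT0
  have hl2 : |(∫ t in Icc (a + |δ| + δ) (T - a - |δ| + δ), Yf (ZT T) X t * bt T X (t + -δ)) - ∫ t in Icc (a + |δ| + δ) (T - a - |δ| + δ), bt T X t * bt T X (t + -δ)| ≤ lam := by
    refine (lin_stat (g := fun t => bt T X (t + -δ)) hX0 hq1 hqX hT0 (by linarith only [hB, g6, g7, hBy, hδabs]) (hbc.comp (by fun_prop)) (fun t => hbb _) (hlipd (-δ)) hl0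
      (fun t ht => hpt t (by linarith only [hδ2, ht, ht.1]) (by linarith only [hδ1, ht, ht.2])) hk2).trans ?_
    rw [hlam]
    exact lam_mono hE0 hl0 (by linarith only [hB, pw3, hBy, hδ0]) hw0 hB0.le hAX0 hq0 (Real.sqrt_nonneg _) (by rw [hCc]; linarith only [hCT]) hNT0
  have hY0 : ∀ t, Yf (ZT T) X t ≤ 5 * q * (4 * CLA * L) := by
    intro t
    refine (Yf_q hX0 hq1 hqX t).trans ?_
    have := KS_le_log hT3 hZT t
    rw [← hL] at this
    gcongr
  have hcorr := corr_v (T := T) (X := X) (q := q) (a := a) (b := T - a) (δ := δ) (η := K * (T / B ^ 2)) (p := 9 * T) (lam := lam) (kc := kc) (Y0 := 5 * q * (4 * CLA * L))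
    hX0 hq1 hqX hT0 g1' hPS hl1 hl2 hk1 hY0
  have hbt2 := btbt (T := T) (X := X) (L := L) (B := B) (δ := δ) hT1 (by rw [← ha]; linarith only [hB, pw3, hBy]) hL hL1 hB0 hX (by rw [← ha]; exact hmid)
  rw [← ha] at hbt2
  have hPPc := PS_cross hX0 δ (a + |δ|) (T - a - |δ|)
  rw [intervalIntegral.integral_of_le hmid, ← integral_Icc_eq_integral_Ioc] at hPPc
  have hPx := PXc_abs hX0 (-δ)
  have hPe : PXc X (-δ) = 1 / 2 * ∑ n ∈ Finset.range (NX X + 1), ap X n ^ 2 * Real.cos (δ * Real.log n) := by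
    unfold PXc
    congr 1
    refine Finset.sum_congr rfl fun n _ => ?_
    rw [neg_mul, Real.cos_neg]
  -- bookkeeping
  have hs1 := small1 (L := L) (y := y) (D := D) (B := B) (E := Real.exp X) (w := w) (G := B) (l := l) (q := q) (A := AX X) (S := Real.sqrt (2 * B * l))
    (C := Cc) (N := NT T) (kc := kc) (Ck := Ck) (a := a) (T := T) hL1 hy1 hB0.le hBy hexpX rfl (by positivity) (by
      rw [hl']
      have e : 1 / (a * X) * T = 1 / X * (T / a) := by field_simp
      rw [e]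
      gcongr) pw11.symm hAX0 (by
      unfold AX
      have h1 : X / 2 ≤ L := by
        rw [hX, div_div]
        apply div_le_self hL0.le
        linarith only [hB]
      have h2 : Real.exp (X / 2) ≤ y := by
        have : Real.exp (X / 2) ≤ Real.exp X := Real.exp_le_exp.mpr (by linarith only [hX0])
        linarith only [hexpX, this]
      gcongr) hCc0 (by positivity) (by
      rw [hl']
      exact SN_bd hB0 hBy hX0 hXy hT0 ha0 (by linarith only [hB, hBy]) pw9 (by rw [pw5]; linarith only [pw6, pw1]) hNT0 g4) hkc0 hkcb pw1 hCk0 hD1 (by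
      rw [hw]
      have e : (50 * y ^ 2 / a + (5 + 8 * AX X) * q * (CT2 * T ^ (-(1/16) : ℝ))) * T = 50 * y ^ 2 * (T / a) + (5 + 8 * AX X) * q * (CT2 * (T ^ (-(1/16) : ℝ) * T)) := by ring
      rw [e, pw4, ← pw11]
      have : CT2 ≤ Cc := by rw [hCc]; linarith only [hC1]
      gcongr)
  rw [← hlam] at hs1
  have hs2 := small2 (L := L) (y := y) (D := D) (B := B) (q := q) (kc := kc) (Ck := Ck) (a := a) (X := X) (δ := δ) (T := T) (Cl := CLA)
    hL1 hy1 hD1 hB0.le hBy pw11.symm hkcb pw1 hCk0 hCLA.le hX0 ha0 hXy hδabs pw2 hT0.le pw3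
  have hZ : M0 * (L ^ 3 * y ^ 5 * D) ≤ T := by
    calc M0 * (L ^ 3 * y ^ 5 * D) = M0 * L ^ 3 * (y ^ 5 * D) := by ring
      _ = M0 * L ^ 3 * T ^ (79/80 : ℝ) := by rw [pw10]
      _ ≤ T := g5
  have hs3 : (2 * lam + ((5 * q * (4 * CLA * L)) * (5 * q * kc) + (B * (|δ| / (a * X)) * T + 12 * B ^ 2 * (a + |δ|)) + 40 * y + 8 * (a + |δ|))) ≤ T / B := by
    rw [le_div_iff₀ hB0]
    rw [hM0] at hZ
    linarith only [hs1, hs2, hZ]
  have hKT := sqrt_KT (K := K) (T := T) (B := B) hK.le hT0.le (by linarith only [hB])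
  set G := ∫ t, Yf (ZT T) X t * Yf (ZT T) X (t + δ)
  set Q := ∫ t in Icc (a + |δ|) (T - a - |δ|), bt T X t * bt T X (t + δ)
  set PP := ∫ t in Icc (a + |δ|) (T - a - |δ|), PS X t * PS X (t + δ)
  have hmain : T * (AT T * B ^ 2) = 1 / X ^ 2 * (T * ((L - Real.log (2 * Real.pi)) ^ 2 - 2 * (L - Real.log (2 * Real.pi)) + 2)) := by
    rw [hATd, hX]
    field_simp
  have hPP2 : |PP - T * PXc X (-δ)| ≤ 40 * y + 8 * (a + |δ|) := by
    have e : PP - T * PXc X (-δ) = (PP - (T - a - |δ| - (a + |δ|)) / 2 * ∑ n ∈ Finset.range (NX X + 1), ap X n ^ 2 * Real.cos (δ * Real.log n)) -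
        (2 * a + 2 * |δ|) * PXc X (-δ) := by
      rw [hPe]
      ring
    rw [e]
    refine (abs_sub _ _).trans ?_
    rw [abs_mul, abs_of_nonneg (by linarith only [hB, pw3, hBy, hδ0] : 0 ≤ 2 * a + 2 * |δ|)]
    have h1 : (2 * a + 2 * |δ|) * |PXc X (-δ)| ≤ (2 * a + 2 * |δ|) * 4 := by gcongr
    have h2 : 40 * Real.exp (3 * X) ≤ 40 * y := by gcongr
    linarith only [hexp3X, hPPc, h1]
  have a1 := abs_le.mp hcorr
  have a2 := abs_le.mp hbt2
  have a3 := abs_le.mp hPP2
  have e : G - T * (AT T * B ^ 2 + PXc X (-δ)) = (G - (Q + PP)) + (Q - T * (AT T * B ^ 2)) + (PP - T * PXc X (-δ)) := by ring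
  rw [e, hmain]
  have hfin : (6 * Real.sqrt K + K + 1) * (T / B) = (6 * Real.sqrt K + K) * (T / B) + T / B := by ring
  rw [hfin, abs_le]
  constructor <;> linarith only [hs3, hKT, a1, a2, a3, a1.1, a1.2, a2.1, a2.2, a3.1, a3.2]

end Pool.Agent.Helper57.UV

end

/-! ### Helper57.UV.Full -/

section

namespace Pool.Agent.Helper57.UV

open Set MeasureTheory Filter Topology

open Pool.Agent.Helper57.LH

open Pool.Agent.Helper57.Zeta

open Pool.Agent.Helper57.LS

open Pool.Agent.Helper57.US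

open Pool.Agent.Helper57.PC (SN SN_pos mult nd)

open Pool.Agent.Helper4.PU (AT)

/-- The kernel law at all scales up to a power of `T`, with the exact prime term. -/
def ULawP (C : ℝ) : Prop := ∀ᶠ T : ℝ in atTop, ∀ B v : ℝ, 9600 ≤ B → B ≤ T ^ (1/100 : ℝ) → |v| ≤ T ^ (1/100 : ℝ) →
    |WP T (fun u => Gm ((u - v) / B)) - SN T * (AT T * B + PXc (Real.log T / B) (2 * Real.pi * v / Real.log T) / B)| ≤ C * (SN T / B ^ 2)

theorem ULawP_holds : ∃ C : ℝ, 0 ≤ C ∧ ULawP C := by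
  obtain ⟨C, hC, h⟩ := Y_corrV
  refine ⟨C, hC.le, ?_⟩
  unfold ULawP
  filter_upwards [h, eventually_ge_atTop 3] with T hT hT3 B v hB hBL hv
  have hT' := hT B v hB hBL hv
  have hB0 : 0 < B := by linarith only [hB]
  have hLog := one_le_log hT3
  have hL0 : 0 < Real.log T := by linarith only [hLog]
  have hX0 : 0 < Real.log T / B := by positivity
  have hpi := Real.pi_pos
  have hT0 : 0 < T := by linarith only [hT3]
  rw [Yf_corr_eq T _ hX0] at hT'
  have e1 : WP T (fun u => Gm ((u - v) / B)) =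
      ∑ p ∈ Zf T ×ˢ Zf T, (mult p.1 : ℝ) * (mult p.2 : ℝ) * Gm (Real.log T / B / (2 * Real.pi) * (p.1.im - p.2.im + -(2 * Real.pi * v / Real.log T))) := by
    unfold WP
    refine Finset.sum_congr rfl fun p _ => ?_
    have e3 : (nd T p - v) / B = Real.log T / B / (2 * Real.pi) * (p.1.im - p.2.im + -(2 * Real.pi * v / Real.log T)) := by
      unfold nd
      field_simp
      ring
    simp only [e3]
  rw [e1]
  set Sg := ∑ p ∈ Zf T ×ˢ Zf T, (mult p.1 : ℝ) * (mult p.2 : ℝ) * Gm (Real.log T / B / (2 * Real.pi) * (p.1.im - p.2.im + -(2 * Real.pi * v / Real.log T)))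
  set P := PXc (Real.log T / B) (2 * Real.pi * v / Real.log T)
  have e2 : Sg - SN T * (AT T * B + P / B) = (Real.log T / B / (2 * Real.pi)) * (2 * Real.pi / (Real.log T / B) * Sg - T * (AT T * B ^ 2 + P)) := by
    unfold SN
    field_simp
  rw [e2, abs_mul, abs_of_pos (by positivity)]
  calc Real.log T / B / (2 * Real.pi) * |2 * Real.pi / (Real.log T / B) * Sg - T * (AT T * B ^ 2 + P)|
      ≤ Real.log T / B / (2 * Real.pi) * (C * (T / B)) := by gcongr
    _ = C * (SN T / B ^ 2) := by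
        unfold SN
        field_simp

end Pool.Agent.Helper57.UV

end

/-! ### Helper4.PF.Dens -/

section

namespace Pool.Agent.Helper4.PF

open Set MeasureTheory Filter Topology

open Pool.Agent.Helper57.Zeta

open Pool.Agent.Helper57.PC

open Pool.Agent.Helper57.LH (one_le_log)

open Pool.Agent.Helper4.PC

open Pool.Agent.Helper4.PU

/-- the density of the rescaled ordinates -/
noncomputable def dd (T : ℝ) : ℝ → ℝ := (Icc (Real.log T) (SN T)).indicator (fun x => Real.log (x / Real.log T) / Real.log T)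

/-- standing assumption -/
structure Big (T : ℝ) : Prop where
  h3 : 3 ≤ T
  h4 : 7 ≤ T

lemma Big.L0 {T : ℝ} (h : Big T) : 1 ≤ Real.log T := one_le_log h.h3

lemma Big.Lpos {T : ℝ} (h : Big T) : 0 < Real.log T := by linarith [h.L0]

lemma Big.S0 {T : ℝ} (h : Big T) : 0 < SN T := SN_pos (by linarith [h.h3])

lemma Big.SL {T : ℝ} (h : Big T) : SN T / Real.log T = T / (2 * Real.pi) := by
  have := h.Lpos
  have hpi := Real.pi_pos
  unfold SN
  field_simp

lemma Big.LS {T : ℝ} (h : Big T) : Real.log T ≤ SN T := by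
  have hL := h.Lpos
  have hpi := Real.pi_pos
  have hpi2 := Real.pi_lt_d2
  have h4 := h.h4
  unfold SN
  rw [le_div_iff₀ (by positivity)]
  nlinarith only [hL, hpi2, h4]

lemma dd_of_mem {T x : ℝ} (hx : x ∈ Icc (Real.log T) (SN T)) : dd T x = Real.log (x / Real.log T) / Real.log T := by
  unfold dd
  rw [indicator_of_mem hx]

lemma dd_of_notMem {T x : ℝ} (hx : x ∉ Icc (Real.log T) (SN T)) : dd T x = 0 := by
  unfold dd
  rw [indicator_of_notMem hx]

lemma dd_nonneg {T : ℝ} (h : Big T) (x : ℝ) : 0 ≤ dd T x := by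
  have hL := h.Lpos
  by_cases hx : x ∈ Icc (Real.log T) (SN T)
  · rw [dd_of_mem hx]
    apply div_nonneg _ hL.le
    apply Real.log_nonneg
    rw [one_le_div hL]
    exact hx.1
  · rw [dd_of_notMem hx]

lemma dd_mono {T x y : ℝ} (h : Big T) (hxy : x ≤ y) (hy : y ≤ SN T) : dd T x ≤ dd T y := by
  have hL := h.Lpos
  by_cases hx : x ∈ Icc (Real.log T) (SN T)
  · rw [dd_of_mem hx, dd_of_mem ⟨hx.1.trans hxy, hy⟩]
    apply div_le_div_of_nonneg_right _ hL.le
    apply Real.log_le_log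
    · have := hx.1
      exact div_pos (by linarith only [hL, this]) hL
    · gcongr
  · rw [dd_of_notMem hx]
    exact dd_nonneg h y

lemma dd_gt {T x : ℝ} (hx : SN T < x) : dd T x = 0 := dd_of_notMem (fun h => absurd h.2 (not_le.mpr hx))

lemma dd_lt {T x : ℝ} (hx : x < Real.log T) : dd T x = 0 := dd_of_notMem (fun h => absurd h.1 (not_le.mpr hx))

lemma dd_le_one {T : ℝ} (h : Big T) (x : ℝ) : dd T x ≤ 1 := by
  have hL := h.Lpos
  have hell := ell_nonneg
  by_cases hx : x ∈ Icc (Real.log T) (SN T)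
  · refine (dd_mono h hx.2 le_rfl).trans ?_
    rw [dd_of_mem ⟨h.LS, le_rfl⟩, h.SL, Real.log_div (by linarith [h.h3]) (by positivity)]
    rw [div_le_one hL]
    change Real.log T - ell ≤ Real.log T
    linarith
  · rw [dd_of_notMem hx]; norm_num

lemma dd_measurable (T : ℝ) : Measurable (dd T) := by
  unfold dd
  apply Measurable.indicator _ measurableSet_Icc
  fun_prop

lemma dd_integrable {T : ℝ} (h : Big T) : Integrable (dd T) := by
  have h1 : Integrable ((Icc (Real.log T) (SN T)).indicator (fun _ => (1:ℝ))) := by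
    rw [integrable_indicator_iff measurableSet_Icc]
    exact integrableOn_const (by simp)
  refine h1.mono' (dd_measurable T).aestronglyMeasurable ?_
  filter_upwards with x
  rw [Real.norm_of_nonneg (dd_nonneg h x)]
  by_cases hx : x ∈ Icc (Real.log T) (SN T)
  · rw [indicator_of_mem hx]; exact dd_le_one h x
  · rw [indicator_of_notMem hx, dd_of_notMem hx]

lemma dd_sq_integrable {T : ℝ} (h : Big T) : Integrable (fun x => dd T x ^ 2) := by
  refine (dd_integrable h).mono' ((dd_measurable T).pow_const 2).aestronglyMeasurable ?_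
  filter_upwards with x
  have h1 := dd_nonneg h x
  have h2 := dd_le_one h x
  rw [Real.norm_of_nonneg (by positivity)]
  nlinarith

/-- primitive of the density -/
noncomputable def HH (T x : ℝ) : ℝ := x / Real.log T * (Real.log (x / Real.log T) - 1) + 1

lemma HH_deriv {T x : ℝ} (h : Big T) (hx : 0 < x) : HasDerivAt (HH T) (Real.log (x / Real.log T) / Real.log T) x := by
  have hL := h.Lpos
  have h0 : 0 < x / Real.log T := by positivity
  have h1 : HasDerivAt (fun y : ℝ => y / Real.log T) (1 / Real.log T) x := (hasDerivAt_id x).div_const _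
  have h2 : HasDerivAt (fun y : ℝ => Real.log (y / Real.log T)) ((1 / Real.log T) / (x / Real.log T)) x := h1.log h0.ne'
  have h3 := (h1.mul (h2.sub_const 1)).add_const 1
  refine h3.congr_deriv ?_
  field_simp
  ring

lemma dd_int_Icc {T x : ℝ} (h : Big T) (h1 : Real.log T ≤ x) (h2 : x ≤ SN T) : ∫ y in Iic x, dd T y = HH T x := by
  have hL := h.Lpos
  have e1 : ∫ y in Iic x, dd T y = ∫ y in (Real.log T)..x, Real.log (y / Real.log T) / Real.log T := by
    rw [intervalIntegral.integral_of_le h1, ← integral_Icc_eq_integral_Ioc, ← integral_indicator measurableSet_Iic,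
      ← integral_indicator measurableSet_Icc]
    congr 1; funext y
    by_cases hy : y ∈ Icc (Real.log T) x
    · rw [indicator_of_mem hy, indicator_of_mem (show y ∈ Iic x from hy.2), dd_of_mem ⟨hy.1, hy.2.trans h2⟩]
    · rw [indicator_of_notMem hy]
      by_cases hy2 : y ∈ Iic x
      · rw [indicator_of_mem hy2, dd_lt]
        by_contra hc
        push Not at hc
        exact hy ⟨hc, hy2⟩
      · rw [indicator_of_notMem hy2]
  rw [e1]
  have hd : ∀ y ∈ uIcc (Real.log T) x, HasDerivAt (HH T) (Real.log (y / Real.log T) / Real.log T) y := by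
    intro y hy
    rw [uIcc_of_le h1] at hy
    exact HH_deriv h (by linarith only [hL, hy, hy.1])
  rw [intervalIntegral.integral_eq_sub_of_hasDerivAt hd]
  · unfold HH
    rw [div_self hL.ne', Real.log_one]
    ring
  · apply ContinuousOn.intervalIntegrable
    rw [uIcc_of_le h1]
    apply ContinuousOn.div_const
    apply ContinuousOn.log
    · exact (continuous_id.div_const (Real.log T)).continuousOn
    · intro y hy
      have : 0 < y := by linarith only [hL, hy, hy.1]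
      positivity

lemma dd_integral_le {T : ℝ} (h : Big T) : ∫ y, dd T y ≤ SN T := by
  have h1 : ∫ y, dd T y ≤ ∫ y, (Icc (Real.log T) (SN T)).indicator (fun _ => (1:ℝ)) y := by
    apply integral_mono (dd_integrable h)
    · rw [integrable_indicator_iff measurableSet_Icc]
      exact integrableOn_const (by simp)
    · intro x
      by_cases hx : x ∈ Icc (Real.log T) (SN T)
      · rw [indicator_of_mem hx]; exact dd_le_one h x
      · rw [indicator_of_notMem hx, dd_of_notMem hx]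
  rw [integral_indicator measurableSet_Icc, setIntegral_const] at h1
  have h2 : volume.real (Icc (Real.log T) (SN T)) = SN T - Real.log T := by
    simp [Measure.real, h.LS]
  rw [h2, smul_eq_mul, mul_one] at h1
  linarith [h.Lpos]

/-- the second moment -/
lemma dd_sq_integral {T : ℝ} (h : Big T) : ∫ y, dd T y ^ 2 = SN T * AT T - 2 / Real.log T := by
  have hL := h.Lpos
  have hpi := Real.pi_pos
  have e1 : ∫ y, dd T y ^ 2 = ∫ y in (Real.log T)..(SN T), (1 / Real.log T ^ 2) * (fun s => Real.log s ^ 2) (y / Real.log T) := by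
    rw [intervalIntegral.integral_of_le h.LS, ← integral_Icc_eq_integral_Ioc, ← integral_indicator measurableSet_Icc]
    congr 1; funext y
    by_cases hy : y ∈ Icc (Real.log T) (SN T)
    · rw [indicator_of_mem hy, dd_of_mem hy]
      simp only
      rw [div_pow]; ring
    · rw [indicator_of_notMem hy, dd_of_notMem hy]; ring
  rw [e1, intervalIntegral.integral_const_mul, intervalIntegral.integral_comp_div (fun s => Real.log s ^ 2) hL.ne', div_self hL.ne', h.SL]
  have e2 : ∫ s in (1:ℝ)..(T / (2 * Real.pi)), Real.log s ^ 2 = (∫ s in (0:ℝ)..(T / (2 * Real.pi)), Real.log s ^ 2) - ∫ s in (0:ℝ)..1, Real.log s ^ 2 := by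
    have hi : ∀ b : ℝ, 0 ≤ b → IntervalIntegrable (fun s => Real.log s ^ 2) volume 0 b := by
      intro b hb
      rw [intervalIntegrable_iff_integrableOn_Ioc_of_le hb]
      exact intervalIntegral.integrableOn_deriv_of_nonneg cont_sqlog.continuousOn (fun x hx => hasDeriv_sqlog hx.1.ne') (fun x _ => sq_nonneg _)
    rw [intervalIntegral.integral_interval_sub_left (hi _ (by have := h.h3; positivity)) (hi 1 zero_le_one)]
  rw [e2, int_sqlog (by have := h.h3; positivity), int_sqlog zero_le_one, Real.log_one, smul_eq_mul]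
  rw [Real.log_div (by linarith only [h, h.h3]) (by positivity)]
  unfold AT SN
  field_simp
  ring

end Pool.Agent.Helper4.PF

end

/-! ### Helper4.PF.Nu -/

section

namespace Pool.Agent.Helper4.PF

open Set MeasureTheory Filter Topology

open Pool.Agent.Helper57.Zeta

open Pool.Agent.Helper57.PC

open Pool.Agent.Helper57.LH (one_le_log)

open Pool.Agent.Helper4.PC

open Pool.Agent.Helper4.PU

lemma dd_shift_integrable {T : ℝ} (h : Big T) (s : ℝ) : Integrable (fun x => dd T (x - s)) := (dd_integrable h).comp_sub_right s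

lemma tail_le {T s : ℝ} (h : Big T) (hs : 0 ≤ s) : ∫ x in Ioi (SN T), dd T (x - s) ≤ s := by
  have h1 : ∫ x in Ioi (SN T), dd T (x - s) ≤ ∫ x, (Icc (SN T) (SN T + s)).indicator (fun _ => (1:ℝ)) x := by
    rw [← integral_indicator measurableSet_Ioi]
    apply integral_mono
    · exact (dd_shift_integrable h s).indicator measurableSet_Ioi
    · rw [integrable_indicator_iff measurableSet_Icc]
      exact integrableOn_const (by simp)
    · intro x
      simp only
      by_cases hx : x ∈ Icc (SN T) (SN T + s)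
      · rw [indicator_of_mem hx]
        by_cases hx2 : x ∈ Ioi (SN T)
        · rw [indicator_of_mem hx2]; exact dd_le_one h _
        · rw [indicator_of_notMem hx2]; norm_num
      · rw [indicator_of_notMem hx]
        by_cases hx2 : x ∈ Ioi (SN T)
        · rw [indicator_of_mem hx2, dd_gt]
          by_contra hc
          push Not at hc
          exact hx ⟨le_of_lt hx2, by linarith⟩
        · rw [indicator_of_notMem hx2]
  rw [integral_indicator measurableSet_Icc, setIntegral_const] at h1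
  have h2 : volume.real (Icc (SN T) (SN T + s)) = s := by
    simp [Measure.real, hs]
  rwa [h2, smul_eq_mul, mul_one] at h1

lemma tail_le' {T s : ℝ} (h : Big T) : ∫ x in Ioi (SN T), dd T (x - s) ≤ SN T := by
  have h1 : ∫ x in Ioi (SN T), dd T (x - s) ≤ ∫ x, dd T (x - s) :=
    setIntegral_le_integral (dd_shift_integrable h s) (Eventually.of_forall fun x => dd_nonneg h _)
  have h2 := integral_sub_right_eq_self (μ := volume) (dd T) s
  rw [h2] at h1
  exact h1.trans (dd_integral_le h)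

lemma trans_pos {T s : ℝ} (h : Big T) (hs : 0 ≤ s) : ∫ x, |dd T (x - s) - dd T x| ≤ 2 * min s (SN T) := by
  have e : ∀ x, |dd T (x - s) - dd T x| = (dd T x - dd T (x - s)) + 2 * (Ioi (SN T)).indicator (fun x => dd T (x - s)) x := by
    intro x
    by_cases hx : x ∈ Ioi (SN T)
    · rw [indicator_of_mem hx, dd_gt hx, sub_zero, abs_of_nonneg (dd_nonneg h _)]
      ring
    · rw [indicator_of_notMem hx, mul_zero, add_zero, abs_sub_comm, abs_of_nonneg]
      have := dd_mono h (x := x - s) (y := x) (by linarith) (by simpa using hx)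
      linarith
  simp_rw [e]
  have i1 : Integrable (fun x => dd T x - dd T (x - s)) := (dd_integrable h).sub (dd_shift_integrable h s)
  have i2 := ((dd_shift_integrable h s).indicator (measurableSet_Ioi (a := SN T))).const_mul 2
  have h0 := integral_sub_right_eq_self (μ := volume) (dd T) s
  rw [integral_add i1 i2, integral_sub (dd_integrable h) (dd_shift_integrable h s), h0, sub_self, zero_add,
    integral_const_mul, integral_indicator measurableSet_Ioi]
  have h1 := tail_le h hs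
  have h2 := tail_le' (s := s) h
  have := le_min h1 h2
  linarith only [this]

lemma trans_le {T : ℝ} (h : Big T) (s : ℝ) : ∫ x, |dd T (x - s) - dd T x| ≤ 2 * min |s| (SN T) := by
  rcases le_total 0 s with hs | hs
  · rw [abs_of_nonneg hs]; exact trans_pos h hs
  · rw [abs_of_nonpos hs]
    have h1 := trans_pos h (s := -s) (by linarith)
    have h2 := integral_sub_right_eq_self (fun x => |dd T (x - s) - dd T x|) (-s) (μ := volume)
    rw [← h2]
    refine le_trans (le_of_eq ?_) h1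
    congr 1; funext x
    rw [abs_sub_comm, sub_neg_eq_add, add_sub_cancel_right]

lemma min_le_sqrt {a b : ℝ} (ha : 0 ≤ a) (hb : 0 ≤ b) : min a b ≤ Real.sqrt a * Real.sqrt b := by
  have h1 := Real.sqrt_nonneg a
  have h2 := Real.sqrt_nonneg b
  rcases le_total a b with h | h
  · rw [min_eq_left h]
    have h3 := Real.sqrt_le_sqrt h
    calc a = Real.sqrt a * Real.sqrt a := (Real.mul_self_sqrt ha).symm
      _ ≤ _ := by gcongr
  · rw [min_eq_right h]
    have h3 := Real.sqrt_le_sqrt h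
    calc b = Real.sqrt b * Real.sqrt b := (Real.mul_self_sqrt hb).symm
      _ ≤ _ := by gcongr

/-- correlation of the density with itself -/
lemma corr_le {T : ℝ} (h : Big T) (s : ℝ) :
    |(∫ x, dd T (x - s) * dd T x) - ∫ x, dd T x ^ 2| ≤ 2 * (Real.sqrt (SN T) * om s) := by
  have i1 : Integrable (fun x => dd T (x - s) * dd T x) := by
    refine (dd_integrable h).mono' ((dd_shift_integrable h s).aestronglyMeasurable.mul (dd_integrable h).aestronglyMeasurable) ?_
    filter_upwards with x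
    rw [norm_mul, Real.norm_of_nonneg (dd_nonneg h _), Real.norm_of_nonneg (dd_nonneg h _)]
    have h1 := dd_le_one h (x - s)
    have h2 := dd_nonneg h x
    nlinarith only [h1, h2]
  rw [← integral_sub i1 (dd_sq_integrable h)]
  have e : ∀ x, dd T (x - s) * dd T x - dd T x ^ 2 = dd T x * (dd T (x - s) - dd T x) := fun x => by ring
  simp_rw [e]
  refine (norm_integral_le_integral_norm (μ := volume) (fun x => dd T x * (dd T (x - s) - dd T x))).trans ?_
  have h3 : ∫ x, ‖dd T x * (dd T (x - s) - dd T x)‖ ≤ ∫ x, |dd T (x - s) - dd T x| := by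
    apply integral_mono_of_nonneg
    · filter_upwards with x; exact norm_nonneg _
    · exact ((dd_shift_integrable h s).sub (dd_integrable h)).abs
    · filter_upwards with x
      rw [norm_mul, Real.norm_of_nonneg (dd_nonneg h _)]
      exact mul_le_of_le_one_left (norm_nonneg _) (dd_le_one h x)
  refine h3.trans ((trans_le h s).trans ?_)
  have h4 := min_le_sqrt (abs_nonneg s) h.S0.le
  have h5 : Real.sqrt |s| ≤ om s := by unfold om; linarith
  have h6 := Real.sqrt_nonneg (SN T)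
  have h7 : Real.sqrt |s| * Real.sqrt (SN T) ≤ Real.sqrt (SN T) * om s := by
    rw [mul_comm]; gcongr
  linarith only [h4, h7]

/-- the model measure -/
noncomputable def nuS (T : ℝ) : Measure ℝ := volume.withDensity (fun x => ENNReal.ofReal (dd T x))

lemma nuS_finite {T : ℝ} (h : Big T) : IsFiniteMeasure (nuS T) := by
  unfold nuS
  apply isFiniteMeasure_withDensity_ofReal
  exact (dd_integrable h).hasFiniteIntegral

lemma integral_nuS {T : ℝ} (h : Big T) (f : ℝ → ℝ) : ∫ x, f x ∂(nuS T) = ∫ x, dd T x * f x := by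
  unfold nuS
  rw [integral_withDensity_eq_integral_toReal_smul]
  · congr 1; funext x
    rw [ENNReal.toReal_ofReal (dd_nonneg h x), smul_eq_mul]
  · exact (dd_measurable T).ennreal_ofReal
  · filter_upwards with x
    exact ENNReal.ofReal_lt_top

lemma nuS_real {T : ℝ} (h : Big T) {s : Set ℝ} (hs : MeasurableSet s) : (nuS T).real s = ∫ x in s, dd T x := by
  have := nuS_finite h
  have e : (nuS T).real s = ∫ x, s.indicator (fun _ => (1:ℝ)) x ∂(nuS T) := by
    rw [integral_indicator hs, setIntegral_const, smul_eq_mul, mul_one]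
  rw [e, integral_nuS h, ← integral_indicator hs]
  congr 1; funext x
  by_cases hx : x ∈ s
  · rw [indicator_of_mem hx, indicator_of_mem hx, mul_one]
  · rw [indicator_of_notMem hx, indicator_of_notMem hx, mul_zero]

end Pool.Agent.Helper4.PF

end

/-! ### Helper4.PF.QQs -/

section

namespace Pool.Agent.Helper4.PF

open Set MeasureTheory Filter Topology

open Pool.Agent.Helper57.Zeta

open Pool.Agent.Helper57.PC

open Pool.Agent.Helper57.LH (one_le_log WP)

open Pool.Agent.Helper4.PC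

open Pool.Agent.Helper4.PU

/-- Kolmogorov distance -/
def Kd (μ ν : Measure ℝ) (E : ℝ) : Prop := ∀ x : ℝ, |μ.real (Iic x) - ν.real (Iic x)| ≤ E

lemma Kd.Ioc {μ ν : Measure ℝ} [IsFiniteMeasure μ] [IsFiniteMeasure ν] {E : ℝ} (h : Kd μ ν E) (a b : ℝ) :
    |μ.real (Ioc a b) - ν.real (Ioc a b)| ≤ 2 * E := by
  have hE : 0 ≤ E := (abs_nonneg _).trans (h 0)
  rcases le_total a b with hab | hab
  · have e : ∀ (κ : Measure ℝ) [IsFiniteMeasure κ], κ.real (Set.Ioc a b) = κ.real (Iic b) - κ.real (Iic a) := by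
      intro κ _
      have h1 : Iic b = Iic a ∪ Set.Ioc a b := (Iic_union_Ioc_eq_Iic hab).symm
      rw [h1, measureReal_union _ measurableSet_Ioc]
      · ring
      · rw [Set.disjoint_left]
        intro x hx hx2
        exact absurd hx2.1 (not_lt.mpr hx)
    rw [e μ, e ν]
    have h1 := abs_le.mp (h a)
    have h2 := abs_le.mp (h b)
    rw [abs_le]
    constructor <;> linarith only [h1, h2, h1.1, h1.2, h2.1, h2.2]
  · rw [Ioc_eq_empty (not_lt.mpr hab)]
    simp only [measureReal_empty, sub_self, abs_zero]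
    linarith

/-- functions whose level sets are intervals -/
theorem Kd.layer {μ ν : Measure ℝ} [IsFiniteMeasure μ] [IsFiniteMeasure ν] {E : ℝ} (h : Kd μ ν E) {f : ℝ → ℝ} (hm : Measurable f)
    (h0 : ∀ x, 0 ≤ f x) (h1 : ∀ x, f x ≤ 1) (hI : ∀ t > 0, ∃ a b : ℝ, {x | t < f x} = Set.Ioc a b) :
    |∫ x, f x ∂μ - ∫ x, f x ∂ν| ≤ 2 * E := by
  have hE : 0 ≤ E := (abs_nonneg _).trans (h 0)
  have hint : ∀ (κ : Measure ℝ) [IsFiniteMeasure κ], Integrable f κ := by
    intro κ _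
    apply Integrable.of_bound (C := 1) hm.aestronglyMeasurable
    filter_upwards with x
    rw [Real.norm_of_nonneg (h0 x)]
    exact h1 x
  have hlc : ∀ (κ : Measure ℝ) [IsFiniteMeasure κ], ∫ x, f x ∂κ = ∫ t in Set.Ioc 0 1, κ.real {x | t < f x} := by
    intro κ _
    rw [(hint κ).integral_eq_integral_meas_lt (Eventually.of_forall h0)]
    apply setIntegral_eq_of_subset_of_forall_sdiff_eq_zero measurableSet_Ioi Ioc_subset_Ioi_self
    intro t ht
    have h3 : {x | t < f x} = ∅ := by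
      ext x
      simp only [Set.mem_ofPred_eq, mem_empty_iff_false, iff_false, not_lt]
      have h4 : 1 < t := by
        by_contra hc
        push Not at hc
        exact ht.2 ⟨ht.1, hc⟩
      linarith only [h1, h4, h1 x]
    rw [h3, measureReal_empty]
  have hii : ∀ (κ : Measure ℝ) [IsFiniteMeasure κ], IntegrableOn (fun t => κ.real {x | t < f x}) (Set.Ioc 0 1) := by
    intro κ _
    have hmeas : Measurable (fun t => κ.real {x | t < f x}) := by
      apply Antitone.measurable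
      intro s t hst
      exact measureReal_mono (fun x hx => lt_of_le_of_lt hst hx)
    apply Integrable.of_bound (C := κ.real univ) hmeas.aestronglyMeasurable
    filter_upwards with t
    rw [Real.norm_of_nonneg measureReal_nonneg]
    exact measureReal_mono (subset_univ _)
  rw [hlc μ, hlc ν, ← integral_sub (hii μ) (hii ν)]
  have hb : ∀ t ∈ Set.Ioc (0:ℝ) 1, ‖μ.real {x | t < f x} - ν.real {x | t < f x}‖ ≤ 2 * E := by
    intro t ht
    obtain ⟨a, b, hab⟩ := hI t ht.1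
    rw [hab]
    exact h.Ioc a b
  have := norm_setIntegral_le_of_norm_le_const (μ := volume) (s := Set.Ioc (0:ℝ) 1) (by simp) hb
  rw [Real.norm_eq_abs] at this
  simpa using this

lemma dd_level {T : ℝ} (h : Big T) (s : ℝ) {t : ℝ} (ht : 0 < t) :
    {x | t < dd T (x - s)} = Set.Ioc (s + Real.log T * Real.exp (t * Real.log T)) (s + SN T) := by
  have hL := h.Lpos
  ext x
  simp only [Set.mem_ofPred_eq, Set.mem_Ioc]
  constructor
  · intro hx
    have h1 : x - s ∈ Icc (Real.log T) (SN T) := by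
      by_contra hc
      rw [dd_of_notMem hc] at hx
      linarith
    rw [dd_of_mem h1, lt_div_iff₀ hL, Real.lt_log_iff_exp_lt (div_pos (by linarith only [hL, h1, h1.1]) hL), lt_div_iff₀ hL] at hx
    constructor
    · linarith
    · linarith [h1.2]
  · rintro ⟨h1, h2⟩
    have h3 : 1 ≤ Real.exp (t * Real.log T) := Real.one_le_exp (by positivity)
    have h4 : x - s ∈ Icc (Real.log T) (SN T) := ⟨by nlinarith only [hL, h1, h3], by linarith⟩
    rw [dd_of_mem h4, lt_div_iff₀ hL, Real.lt_log_iff_exp_lt (div_pos (by linarith [h4.1]) hL), lt_div_iff₀ hL]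
    linarith

/-- the averages of the translated density -/
noncomputable def Pm (T : ℝ) (μ : Measure ℝ) (s : ℝ) : ℝ := ∫ x, dd T (x - s) ∂μ

lemma Pm_close {T E : ℝ} (h : Big T) (hK : Kd (muT T) (nuS T) E) (s : ℝ) : |Pm T (muT T) s - Pm T (nuS T) s| ≤ 2 * E := by
  have := nuS_finite h
  unfold Pm
  apply hK.layer ((dd_measurable T).comp (by fun_prop)) (fun x => dd_nonneg h _) (fun x => dd_le_one h _)
  intro t ht
  exact ⟨_, _, dd_level h s ht⟩

lemma Pm_nu {T : ℝ} (h : Big T) (s : ℝ) : |Pm T (nuS T) s - ∫ x, dd T x ^ 2| ≤ 2 * (Real.sqrt (SN T) * om s) := by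
  have := corr_le h s
  unfold Pm
  rw [integral_nuS h]
  have e : ∫ x, dd T x * dd T (x - s) = ∫ x, dd T (x - s) * dd T x := by
    congr 1; funext x; ring
  rw [e]
  exact this

lemma II_eq {T : ℝ} (h : Big T) (μ : Measure ℝ) [IsFiniteMeasure μ] {φ : ℝ → ℝ} (hφ : Integrable φ) :
    II μ (nuS T) φ = ∫ s, φ s * Pm T μ s := by
  unfold II Pm
  have e1 : ∀ x, ∫ y, φ (x - y) ∂(nuS T) = ∫ s, φ s * dd T (x - s) := by
    intro x
    rw [integral_nuS h]
    have := integral_sub_left_eq_self (fun s => φ s * dd T (x - s)) volume x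
    rw [← this]
    congr 1; funext y
    rw [sub_sub_cancel]; ring
  simp_rw [e1]
  rw [integral_integral_swap]
  · congr 1; funext s
    rw [integral_const_mul]
  · have h0 : Integrable (fun q : ℝ × ℝ => (1:ℝ) * φ q.2) (μ.prod volume) := (integrable_const (1:ℝ)).mul_prod hφ
    refine h0.norm.mono' ?_ ?_
    · have e : (Function.uncurry fun (x s : ℝ) => φ s * dd T (x - s)) = fun q : ℝ × ℝ => ((1:ℝ) * φ q.2) * dd T (q.1 - q.2) := by
        funext q; simp only [Function.uncurry]; ring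
      rw [e]
      exact h0.aestronglyMeasurable.mul ((dd_measurable T).comp (by fun_prop)).aestronglyMeasurable
    · filter_upwards with q
      simp only [Function.uncurry, one_mul]
      rw [norm_mul, Real.norm_of_nonneg (dd_nonneg h _)]
      exact mul_le_of_le_one_right (norm_nonneg _) (dd_le_one h _)

lemma Pm_meas (T : ℝ) (μ : Measure ℝ) [IsFiniteMeasure μ] : AEStronglyMeasurable (fun s => Pm T μ s) volume := by
  unfold Pm
  have h1 : StronglyMeasurable (Function.uncurry fun (s x : ℝ) => dd T (x - s)) := by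
    apply Measurable.stronglyMeasurable
    exact (dd_measurable T).comp (by fun_prop)
  exact h1.integral_prod_right.aestronglyMeasurable

lemma Pm_bdd {T : ℝ} (h : Big T) (μ : Measure ℝ) [IsFiniteMeasure μ] (s : ℝ) : |Pm T μ s| ≤ μ.real univ := by
  unfold Pm
  have h1 := norm_integral_le_of_norm_le_const (μ := μ) (f := fun x => dd T (x - s)) (C := 1)
    (by filter_upwards with x; rw [Real.norm_of_nonneg (dd_nonneg h _)]; exact dd_le_one h _)
  rwa [one_mul] at h1

lemma Pm_int {T : ℝ} (h : Big T) (μ : Measure ℝ) [IsFiniteMeasure μ] {φ : ℝ → ℝ} (hφ : Integrable φ) : Integrable (fun s => φ s * Pm T μ s) := by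
  refine (hφ.norm.mul_const (μ.real univ)).mono' (hφ.aestronglyMeasurable.mul (Pm_meas T μ)) ?_
  filter_upwards with s
  rw [norm_mul]
  exact mul_le_mul_of_nonneg_left (Pm_bdd h μ s) (norm_nonneg _)

/-- the quadratic form of `μ_T - ν*_T` is the pair sum minus its exact mean value, up to a power saving -/
theorem QQs {T E : ℝ} (h : Big T) (hK : Kd (muT T) (nuS T) E) {φ : ℝ → ℝ} {M N : ℝ} (hW : Wb M φ) (hN : ∫ s, |φ s| ≤ N) :
    |QQ (muT T) (nuS T) φ - (WP T φ - SN T * AT T * ∫ s, φ s)| ≤ 2 * Real.sqrt (SN T) * M + (4 * E + 2) * N := by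
  have := nuS_finite h
  have hE : 0 ≤ E := (abs_nonneg _).trans (hK 0)
  have hL := h.L0
  have hφ := hW.int
  set D := ∫ x, dd T x ^ 2 with hD
  have hDe : D = SN T * AT T - 2 / Real.log T := dd_sq_integral h
  unfold QQ
  rw [II_muT, II_eq h _ hφ, II_eq h _ hφ]
  have i1 := Pm_int h (muT T) hφ
  have i2 := Pm_int h (nuS T) hφ
  have iD : Integrable (fun s => φ s * D) := hφ.mul_const _
  have e1 : WP T φ - 2 * (∫ s, φ s * Pm T (muT T) s) + (∫ s, φ s * Pm T (nuS T) s) - (WP T φ - SN T * AT T * ∫ s, φ s) =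
      (-2) * (∫ s, φ s * (Pm T (muT T) s - Pm T (nuS T) s)) - (∫ s, φ s * (Pm T (nuS T) s - D)) + (2 / Real.log T) * ∫ s, φ s := by
    have a1 : ∫ s, φ s * (Pm T (muT T) s - Pm T (nuS T) s) = (∫ s, φ s * Pm T (muT T) s) - ∫ s, φ s * Pm T (nuS T) s := by
      rw [← integral_sub i1 i2]
      congr 1; funext s; ring
    have a2 : ∫ s, φ s * (Pm T (nuS T) s - D) = (∫ s, φ s * Pm T (nuS T) s) - (∫ s, φ s) * D := by
      rw [← integral_mul_const, ← integral_sub i2 iD]
      congr 1; funext s; ring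
    rw [a1, a2, hDe]
    ring
  rw [e1]
  have b1 : |∫ s, φ s * (Pm T (muT T) s - Pm T (nuS T) s)| ≤ 2 * E * N := by
    refine (norm_integral_le_integral_norm (μ := volume) (fun s => φ s * (Pm T (muT T) s - Pm T (nuS T) s))).trans ?_
    calc ∫ s, ‖φ s * (Pm T (muT T) s - Pm T (nuS T) s)‖ ≤ ∫ s, |φ s| * (2 * E) := by
          apply integral_mono_of_nonneg
          · filter_upwards with s; exact norm_nonneg _
          · exact hφ.abs.mul_const _
          · filter_upwards with s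
            rw [norm_mul]
            exact mul_le_mul_of_nonneg_left (Pm_close h hK s) (norm_nonneg _)
      _ = (∫ s, |φ s|) * (2 * E) := integral_mul_const _ _
      _ ≤ N * (2 * E) := by gcongr
      _ = _ := by ring
  have b2 : |∫ s, φ s * (Pm T (nuS T) s - D)| ≤ 2 * Real.sqrt (SN T) * M := by
    refine (norm_integral_le_integral_norm (μ := volume) (fun s => φ s * (Pm T (nuS T) s - D))).trans ?_
    calc ∫ s, ‖φ s * (Pm T (nuS T) s - D)‖ ≤ ∫ s, (2 * Real.sqrt (SN T)) * (om s * |φ s|) := by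
          apply integral_mono_of_nonneg
          · filter_upwards with s; exact norm_nonneg _
          · exact hW.absint.const_mul _
          · filter_upwards with s
            rw [norm_mul, Real.norm_eq_abs, Real.norm_eq_abs]
            have h1 := Pm_nu h s
            calc |φ s| * |Pm T (nuS T) s - D| ≤ |φ s| * (2 * (Real.sqrt (SN T) * om s)) := by gcongr
              _ = _ := by ring
      _ = (2 * Real.sqrt (SN T)) * ∫ s, om s * |φ s| := integral_const_mul _ _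
      _ ≤ _ := by
          have := hW.2
          gcongr
  have b3 : |(2 / Real.log T) * ∫ s, φ s| ≤ 2 * N := by
    rw [abs_mul, abs_of_pos (by positivity)]
    have a1 : |∫ s, φ s| ≤ N := (norm_integral_le_integral_norm (μ := volume) φ).trans hN
    have a2 : 2 / Real.log T ≤ 2 := div_le_self (by norm_num) hL
    gcongr
  have c1 := abs_le.mp b1
  have c2 := abs_le.mp b2
  have c3 := abs_le.mp b3
  rw [abs_le]
  constructor
  · nlinarith only [c1, c2, c3, c1.1, c1.2, c2.1, c2.2, c3.1, c3.2]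
  · nlinarith only [c1, c2, c3, c1.1, c1.2, c2.1, c2.2, c3.1, c3.2]

end Pool.Agent.Helper4.PF

end

/-! ### Helper4.PF.Rvm -/

section

namespace Pool.Agent.Helper4.PF

open Set MeasureTheory Filter Topology

open Pool.Agent.Helper57.Zeta

open Pool.Agent.Helper57.PC

open Pool.Agent.Helper57.LH (one_le_log WP)

open Pool.Agent.Helper4.PC

open Pool.Agent.Helper4.PU

/-- Riemann-von Mangoldt with a power saving -/
def NLP (θ C : ℝ) : Prop := ∀ t : ℝ, 3 ≤ t → |NT t - t / (2 * Real.pi) * (Real.log (t / (2 * Real.pi)) - 1)| ≤ C * t ^ θ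

lemma NT_mono' {s t : ℝ} (h : s ≤ t) : NT s ≤ NT t := by
  unfold NT
  apply Finset.sum_le_sum_of_subset_of_nonneg
  · intro ρ hρ
    rw [mem_Zf] at hρ ⊢
    exact ⟨hρ.1, hρ.2.1, hρ.2.2.trans h⟩
  · intro ρ _ _
    exact Nat.cast_nonneg _

lemma muT_Iic {T x : ℝ} (h : Big T) (hx : x ≤ SN T) : (muT T).real (Iic x) = NT (x * (2 * Real.pi) / Real.log T) := by
  classical
  have hL := h.Lpos
  have hpi := Real.pi_pos
  rw [muT_real T measurableSet_Iic]
  have hs : Zf (x * (2 * Real.pi) / Real.log T) ⊆ Zf T := by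
    intro ρ hρ
    rw [mem_Zf] at hρ ⊢
    refine ⟨hρ.1, hρ.2.1, hρ.2.2.trans ?_⟩
    rw [div_le_iff₀ hL]
    unfold SN at hx
    rwa [le_div_iff₀ (by positivity)] at hx
  unfold NT
  rw [← Finset.sum_subset hs]
  · apply Finset.sum_congr rfl
    intro ρ hρ
    rw [mem_Zf] at hρ
    have h2 : xp T ρ ∈ Iic x := by
      unfold xp
      rw [mem_Iic, div_le_iff₀ (by positivity)]
      have := hρ.2.2
      rwa [le_div_iff₀ hL] at this
    rw [indicator_of_mem h2, mul_one]
  · intro ρ hρ hρ2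
    rw [mem_Zf] at hρ hρ2
    have h2 : xp T ρ ∉ Iic x := by
      intro hc
      apply hρ2
      refine ⟨hρ.1, hρ.2.1, ?_⟩
      unfold xp at hc
      rw [mem_Iic, div_le_iff₀ (by positivity)] at hc
      rwa [le_div_iff₀ hL]
    rw [indicator_of_notMem h2, mul_zero]

lemma muT_Iic_ge {T x : ℝ} (hx : SN T ≤ x) (h : Big T) : (muT T).real (Iic x) = (muT T).real (Iic (SN T)) := by
  have hL := h.Lpos
  rw [muT_real T measurableSet_Iic, muT_real T measurableSet_Iic]
  apply Finset.sum_congr rfl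
  intro ρ hρ
  have h2 : xp T ρ ∈ Iic (SN T) := by
    rw [mem_Zf] at hρ
    unfold xp SN
    rw [mem_Iic]
    have := hρ.2.2
    gcongr
  rw [indicator_of_mem h2, indicator_of_mem (show xp T ρ ∈ Iic x from le_trans h2 hx)]

lemma nuS_Iic_ge {T x : ℝ} (hx : SN T ≤ x) (h : Big T) : (nuS T).real (Iic x) = (nuS T).real (Iic (SN T)) := by
  rw [nuS_real h measurableSet_Iic, nuS_real h measurableSet_Iic]
  apply setIntegral_eq_of_subset_of_forall_sdiff_eq_zero measurableSet_Iic (Iic_subset_Iic.mpr hx)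
  intro y hy
  apply dd_gt
  simpa using hy.2

lemma nuS_Iic_lt {T x : ℝ} (hx : x < Real.log T) (h : Big T) : (nuS T).real (Iic x) = 0 := by
  rw [nuS_real h measurableSet_Iic]
  apply setIntegral_eq_zero_of_forall_eq_zero
  intro y hy
  apply dd_lt
  exact lt_of_le_of_lt hy hx

theorem kd_law {θ C T : ℝ} (hθ : 0 ≤ θ) (hC : 0 ≤ C) (hN : NLP θ C) (h : Big T) : Kd (muT T) (nuS T) (C * T ^ θ + 1) := by
  have hL := h.Lpos
  have hpi := Real.pi_pos
  have hpi3 := Real.pi_gt_three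
  have hpi2 := Real.pi_lt_d2
  have key : ∀ x : ℝ, x ≤ SN T → |(muT T).real (Iic x) - (nuS T).real (Iic x)| ≤ C * T ^ θ + 1 := by
    intro x hx
    rw [muT_Iic h hx]
    rcases le_or_gt (Real.log T) x with h1 | h1
    · rw [nuS_real h measurableSet_Iic, dd_int_Icc h h1 hx]
      set t := x * (2 * Real.pi) / Real.log T with ht
      have ht1 : 2 * Real.pi ≤ t := by
        rw [ht, le_div_iff₀ hL]
        nlinarith only [hpi, h1]
      have ht2 : t ≤ T := by
        rw [ht, div_le_iff₀ hL]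
        unfold SN at hx
        rwa [le_div_iff₀ (by positivity)] at hx
      have h2 := hN t (by linarith only [hpi3, hpi2, ht1])
      have e : t / (2 * Real.pi) = x / Real.log T := by
        rw [ht]; field_simp
      rw [e] at h2
      have e2 : NT t - HH T x = (NT t - x / Real.log T * (Real.log (x / Real.log T) - 1)) - 1 := by
        unfold HH; ring
      rw [e2]
      refine (abs_sub _ _).trans ?_
      rw [abs_one]
      have h3 : C * t ^ θ ≤ C * T ^ θ := by
        have : 0 ≤ t := by linarith only [hpi3, hpi2, ht1]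
        gcongr
      linarith only [h2, h3]
    · rw [nuS_Iic_lt h1 h, sub_zero, abs_of_nonneg (NT_nonneg _)]
      have h2 : NT (x * (2 * Real.pi) / Real.log T) ≤ NT (2 * Real.pi) := by
        apply NT_mono'
        rw [div_le_iff₀ hL]
        nlinarith only [hpi, h1]
      have h3 := (abs_le.mp (hN (2 * Real.pi) (by linarith only [hpi3, hpi2]))).2
      rw [div_self (by positivity), Real.log_one] at h3
      have h4 : C * (2 * Real.pi) ^ θ ≤ C * T ^ θ := by
        have := h.h4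
        gcongr
        linarith only [hpi3, hpi2, this]
      linarith
  intro x
  rcases le_total x (SN T) with hx | hx
  · exact key x hx
  · rw [muT_Iic_ge hx h, nuS_Iic_ge hx h]
    exact key _ le_rfl

end Pool.Agent.Helper4.PF

end

/-! ### Helper4.PF.Pack -/

section

namespace Pool.Agent.Helper4.PF

open Set MeasureTheory Filter Topology

open Pool.Agent.Helper57.Zeta

open Pool.Agent.Helper57.PC

open Pool.Agent.Helper57.LH (WP WP_mono WP_nonneg WP_add WP_smul WP_neg WP_sum CLA CLA_pos one_le_log Gm Gm_nonneg gB gB_cont gB_le gB_nonneg log_pow_le NT_le_ev ic ic_apply ic_nonneg ic_le_one pairCount_WP)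

open Pool.Agent.Helper4.PC

open Pool.Agent.Helper4.PU

/-- the central kernel law at all scales up to a power of T -/
def ULP (c C : ℝ) : Prop := ∀ᶠ T : ℝ in atTop, ∀ B : ℝ, 9600 ≤ B → B ≤ T ^ c →
  |WP T (gB B) - SN T * (AT T * B)| ≤ C * (SN T / B)

/-- all the input on the central kernels in one package -/
def PackP (c K T : ℝ) : Prop := Big T ∧ CAT ≤ Real.log T ∧ 9600 * 4 ≤ T ^ c ∧
  (∀ B : ℝ, 9600 ≤ B → B ≤ T ^ c → WP T (gB B) ≤ K * (SN T * B) ∧ QQ (muT T) (nuS T) (gB B) ≤ K * (SN T / B)) ∧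
  (∀ (φ : ℝ → ℝ) (M N : ℝ), Wb M φ → ∫ s, |φ s| ≤ N → M ≤ T ^ (2/5 : ℝ) → N ≤ T ^ c →
    |QQ (muT T) (nuS T) φ - (WP T φ - SN T * AT T * ∫ s, φ s)| ≤ SN T / T ^ c)

lemma pow_small (k : ℝ) {s : ℝ} (hs : 0 < s) : ∀ᶠ T : ℝ in atTop, k ≤ T ^ s :=
  (tendsto_rpow_atTop hs).eventually_ge_atTop k

lemma gB_abs_int {B : ℝ} (hB : 0 < B) : ∫ s, |gB B s| = B := by
  have e : (fun s => |gB B s|) = gB B := by
    funext s
    exact abs_of_nonneg (gB_nonneg B s)
  rw [e, gB_integral hB]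

theorem exists_packP {c θ C C' : ℝ} (hc : 0 < c) (hc1 : c ≤ 1/20) (hθ : 0 ≤ θ) (hcθ : 2 * c + θ < 1) (hC : 0 ≤ C) (hC' : 0 ≤ C')
    (hU : ULP c C) (hN : NLP θ C') : ∃ K : ℝ, 1 ≤ K ∧ ∀ᶠ T : ℝ in atTop, PackP c K T := by
  have hl := Real.tendsto_log_atTop
  have hell := ell_nonneg
  have hpi := Real.pi_pos
  have hpi4 := Real.pi_lt_four
  refine ⟨3 + C, by linarith only [hc, hc1, hC], ?_⟩
  filter_upwards [hU, eventually_ge_atTop (7:ℝ), hl.eventually_ge_atTop CAT, pow_small (9600 * 4) hc,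
    log_pow_le 32 1 (s := 19/20) (by norm_num), pow_small (8 * (4 * C' + 6)) (s := 1 - (2 * c + θ)) (by linarith only [hcθ]),
    pow_small (W0 ^ 2) (s := 3/10) (by norm_num), hl.eventually_ge_atTop 1, hl.eventually_ge_atTop (16 * (4 * C' + 6))] with T g1 g2 g3 g4 g5 g6 g7 g8 g9
  have hb : Big T := ⟨by linarith only [hc, hc1, g2], g2⟩
  have hT0 : 0 < T := by linarith only [hc, hc1, g2]
  have hT1 : 1 ≤ T := by linarith only [hc, hc1, g2]
  have hS := hb.S0
  have hL0 := hb.Lpos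
  have hW0 := W0_pos
  have hTc : 0 < T ^ c := by positivity
  -- the general comparison
  have hgen : ∀ (φ : ℝ → ℝ) (M N : ℝ), Wb M φ → ∫ s, |φ s| ≤ N → M ≤ T ^ (2/5 : ℝ) → N ≤ T ^ c →
    |QQ (muT T) (nuS T) φ - (WP T φ - SN T * AT T * ∫ s, φ s)| ≤ SN T / T ^ c := by
    intro φ M N hW hN1 hM hN2
    refine (QQs hb (kd_law hθ hC' hN hb) hW hN1).trans ?_
    have hM0 := hW.nonneg
    have hN0 : 0 ≤ N := (integral_nonneg fun _ => abs_nonneg _).trans hN1
    have hSe : SN T = T * Real.log T / (2 * Real.pi) := rfl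
    -- first term
    have a1 : Real.sqrt (SN T) ≤ T ^ (1/2 : ℝ) * Real.log T := by
      rw [Real.sqrt_le_left (by positivity), mul_pow, ← Real.rpow_natCast (T ^ (1/2 : ℝ)), ← Real.rpow_mul hT0.le]
      norm_num
      rw [hSe]
      have h1 : T * Real.log T / (2 * Real.pi) ≤ T * Real.log T := div_le_self (by positivity) (by linarith only [hc, hc1, Real.pi_gt_three])
      have h2 : Real.log T ≤ Real.log T ^ 2 := by nlinarith only [hc, hc1, hC', g8, g9]
      nlinarith only [hc, hc1, g2, h1, h2]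
    have a2 : 2 * Real.sqrt (SN T) * M ≤ (SN T / T ^ c) / 2 := by
      have h1 : 2 * Real.sqrt (SN T) * M ≤ 2 * (T ^ (1/2 : ℝ) * Real.log T) * T ^ (2/5 : ℝ) := by gcongr
      refine h1.trans ?_
      have e1 : T ^ (1/2 : ℝ) * T ^ (2/5 : ℝ) = T ^ (9/10 : ℝ) := by
        rw [← Real.rpow_add hT0]; norm_num
      have e2 : 2 * (T ^ (1/2 : ℝ) * Real.log T) * T ^ (2/5 : ℝ) = 2 * Real.log T * T ^ (9/10 : ℝ) := by rw [← e1]; ring
      rw [e2, hSe, le_div_iff₀ (by norm_num), le_div_iff₀ hTc, le_div_iff₀ (by positivity)]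
      have h3 : T ^ c ≤ T ^ (1/20 : ℝ) := Real.rpow_le_rpow_of_exponent_le hT1 hc1
      have e3 : T ^ (9/10 : ℝ) * T ^ (1/20 : ℝ) = T ^ (19/20 : ℝ) := by
        rw [← Real.rpow_add hT0]; norm_num
      have h4 : 32 * T ^ (19/20 : ℝ) ≤ T := by
        have : 32 * Real.log T ^ 1 * T ^ (19/20 : ℝ) ≤ T := g5
        rw [pow_one] at this
        refine le_trans ?_ this
        have h5 : 32 * 1 ≤ 32 * Real.log T := by gcongr
        have h6 : 0 < T ^ (19/20 : ℝ) := by positivity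
        nlinarith only [hc, hc1, g8, h6]
      calc 2 * Real.log T * T ^ (9/10 : ℝ) * 2 * T ^ c * (2 * Real.pi) ≤ 2 * Real.log T * T ^ (9/10 : ℝ) * 2 * T ^ (1/20 : ℝ) * (2 * 4) := by gcongr
        _ = Real.log T * (32 * (T ^ (9/10 : ℝ) * T ^ (1/20 : ℝ))) := by ring
        _ = Real.log T * (32 * T ^ (19/20 : ℝ)) := by rw [e3]
        _ ≤ Real.log T * T := by gcongr
        _ = _ := by ring
    have a3 : (4 * (C' * T ^ θ + 1) + 2) * N ≤ (SN T / T ^ c) / 2 := by
      have h1 : (1:ℝ) ≤ T ^ θ := Real.one_le_rpow hT1 hθ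
      have h2 : (4 * (C' * T ^ θ + 1) + 2) * N ≤ ((4 * C' + 6) * T ^ θ) * T ^ c := by
        have : 4 * (C' * T ^ θ + 1) + 2 ≤ (4 * C' + 6) * T ^ θ := by nlinarith only [h1]
        gcongr
      refine h2.trans ?_
      rw [hSe, le_div_iff₀ (by norm_num), le_div_iff₀ hTc, le_div_iff₀ (by positivity)]
      have e1 : T ^ θ * T ^ c * T ^ c = T ^ (2 * c + θ) := by
        rw [← Real.rpow_add hT0, ← Real.rpow_add hT0]; congr 1; ring
      have e2 : T ^ (2 * c + θ) ≤ T := by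
        calc T ^ (2 * c + θ) ≤ T ^ (1:ℝ) := Real.rpow_le_rpow_of_exponent_le hT1 hcθ.le
          _ = T := Real.rpow_one T
      calc (4 * C' + 6) * T ^ θ * T ^ c * 2 * T ^ c * (2 * Real.pi) ≤ (4 * C' + 6) * T ^ θ * T ^ c * 2 * T ^ c * (2 * 4) := by gcongr
        _ = (16 * (4 * C' + 6)) * (T ^ θ * T ^ c * T ^ c) := by ring
        _ = (16 * (4 * C' + 6)) * T ^ (2 * c + θ) := by rw [e1]
        _ ≤ Real.log T * T := by gcongr
        _ = _ := by ring
    have a4 : 4 * (C' * T ^ θ + 1) + 2 = (4 * (C' * T ^ θ + 1) + 2) := rfl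
    linarith only [a2, a3]
  refine ⟨hb, g3, g4, ?_, hgen⟩
  intro B hB hBc
  have hB0 : 0 < B := by linarith only [hc, hc1, hB]
  have hAT := abs_le.mp (AT_close hb.h3)
  have hCAT : CAT / Real.log T ≤ 1 := by rw [div_le_one hL0]; exact g3
  have h1 := abs_le.mp (g1 B hB hBc)
  have hSB : 0 ≤ SN T / B := by positivity
  constructor
  · have h2 : SN T * (AT T * B) ≤ SN T * (2 * B) := by
      gcongr
      linarith only [hAT, hCAT, hAT.2]
    have h3 : SN T / B ≤ SN T * B := by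
      rw [div_le_iff₀ hB0]
      have : 1 ≤ B * B := by nlinarith only [hc, hc1, hB]
      calc SN T = SN T * 1 := (mul_one _).symm
        _ ≤ SN T * (B * B) := by gcongr
        _ = _ := by ring
    have h4 : C * (SN T / B) ≤ C * (SN T * B) := by gcongr
    have h5 : 0 ≤ SN T * B := by positivity
    nlinarith only [h1, hSB, h2, h3, h4, h1.2]
  · have hM : B ^ 2 * W0 ^ 2 ≤ T ^ (2/5 : ℝ) := by
      have h2 : B ^ 2 ≤ T ^ (1/10 : ℝ) := by
        have h3 : B ≤ T ^ (1/20 : ℝ) := hBc.trans (Real.rpow_le_rpow_of_exponent_le hT1 hc1)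
        calc B ^ 2 ≤ (T ^ (1/20 : ℝ)) ^ 2 := by gcongr
          _ = T ^ (1/10 : ℝ) := by rw [← Real.rpow_natCast, ← Real.rpow_mul hT0.le]; norm_num
      have e : T ^ (2/5 : ℝ) = T ^ (1/10 : ℝ) * T ^ (3/10 : ℝ) := by
        rw [← Real.rpow_add hT0]; norm_num
      rw [e]
      gcongr
    have h2 := abs_le.mp (hgen (gB B) _ B (Wb_gB (by linarith only [hc, hc1, hB])) (gB_abs_int hB0).le hM hBc)
    rw [gB_integral hB0] at h2
    have h3 : SN T / T ^ c ≤ SN T / B := by gcongr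
    have e : SN T * AT T * B = SN T * (AT T * B) := by ring
    rw [e] at h2
    have h4 : (3 + C) * (SN T / B) = 3 * (SN T / B) + C * (SN T / B) := by ring
    rw [h4]
    linarith only [h1, hSB, h2, h3, h1.2, h2.2]

end Pool.Agent.Helper4.PF

end

/-! ### Helper57.UV.Inputs -/

section

namespace Pool.Agent.Helper57.UV

open Set MeasureTheory Filter Topology

open Pool.Agent.Helper57.LH

open Pool.Agent.Helper57.Zeta

open Pool.Agent.Helper57.LS

open Pool.Agent.Helper57.US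

open Pool.Agent.Helper57.PC (SN SN_pos mult nd)

open Pool.Agent.Helper4.PU (AT)

open Pool.Agent.Helper4.PF (ULP NLP NT_mono')

/-- central kernels -/
theorem ULP_holds : ∃ C : ℝ, 0 ≤ C ∧ ULP (1/100) C := by
  obtain ⟨C, hC, h⟩ := ULawP_holds
  refine ⟨C + 4, by linarith, ?_⟩
  unfold ULP
  unfold ULawP at h
  filter_upwards [h, eventually_ge_atTop 3] with T hT hT3 B hB hBT
  have hS := SN_pos (T := T) (by linarith only [hT3])
  have hB0 : 0 < B := by linarith only [hB]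
  have hL := one_le_log hT3
  have h1 := hT B 0 hB hBT (by rw [abs_zero]; positivity)
  have h2 := PXc_abs (X := Real.log T / B) (by positivity) (2 * Real.pi * 0 / Real.log T)
  have e1 : (fun u => Gm ((u - 0) / B)) = gB B := by
    funext u
    unfold gB
    rw [sub_zero]
  rw [e1] at h1
  set P := PXc (Real.log T / B) (2 * Real.pi * 0 / Real.log T)
  have e : WP T (gB B) - SN T * (AT T * B) = (WP T (gB B) - SN T * (AT T * B + P / B)) + SN T * (P / B) := by ring
  rw [e]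
  refine (abs_add_le _ _).trans ?_
  rw [abs_mul, abs_of_pos hS, abs_div, abs_of_pos hB0]
  have h3 : SN T / B ^ 2 ≤ SN T / B := div_le_div_of_nonneg_left hS.le hB0 (le_self_pow₀ (by linarith only [hB]) (by norm_num))
  have h4 : SN T * (|P| / B) ≤ 4 * (SN T / B) := by
    calc SN T * (|P| / B) ≤ SN T * (4 / B) := by gcongr
      _ = _ := by ring
  have h5 : C * (SN T / B ^ 2) ≤ C * (SN T / B) := by gcongr
  linarith only [h1, h4, h5]

/-- Riemann-von Mangoldt with a power saving, for large heights -/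
theorem NL_ex : ∃ C : ℝ, 0 ≤ C ∧ ∀ᶠ T : ℝ in atTop, |NT T - T / (2 * Real.pi) * (Real.log (T / (2 * Real.pi)) - 1)| ≤ C * T ^ (15/16 : ℝ) := by
  have hCLA := CLA_pos
  have hC1 := C1_nonneg
  have hCT := CT2_nonneg
  have hpi := Real.pi_pos
  have hA1 := AX_nonneg 1
  obtain ⟨Ck, hCk⟩ : ∃ Ck, Ck = 24 * CLA + 4 * C1 := ⟨_, rfl⟩
  have hCk0 : 0 ≤ Ck := by rw [hCk]; positivity
  refine ⟨40 * Real.exp 1 + (50 + (5 + 8 * AX 1) * CT2) + 8 * AX 1 * Ck + 5 * Ck + 6, by positivity, ?_⟩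
  have hl := Real.tendsto_log_atTop
  filter_upwards [eventually_ge_atTop (1600:ℝ), hl.eventually_ge_atTop 40, NT_le_ev, log_pow_le 4 0 (s := 3/4) (by norm_num),
    log_pow_le 1 1 (s := 13/16) (by norm_num)] with T g2 g3 g4 g6 g7
  have hT0 : 0 < T := by linarith only [g2]
  have hT1 : 1 ≤ T := by linarith only [g2]
  have hT3 : 3 ≤ T := by linarith only [g2]
  obtain ⟨pw1, pw2, pw3, pw4, pw5, pw6, pw7, pw8, pw9, pw10, pw11⟩ := powers hT1
  have hD1 : 1 ≤ T ^ (15/16 : ℝ) := Real.one_le_rpow hT1 (by norm_num)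
  have hLa : Real.log T * T ^ (3/4 : ℝ) ≤ T ^ (15/16 : ℝ) := by
    have h1 : Real.log T * T ^ (13/16 : ℝ) ≤ T := by simpa using g7
    have e1 : T ^ (13/16 : ℝ) = T ^ (3/4 : ℝ) * T ^ (1/16 : ℝ) := by rw [← Real.rpow_add hT0]; norm_num
    have e2 : T = T ^ (15/16 : ℝ) * T ^ (1/16 : ℝ) := by rw [← Real.rpow_add hT0]; norm_num
    have hp : 0 < T ^ (1/16 : ℝ) := by positivity
    have h3 : Real.log T * T ^ (3/4 : ℝ) * T ^ (1/16 : ℝ) ≤ T ^ (15/16 : ℝ) * T ^ (1/16 : ℝ) := by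
      rw [← e2, mul_assoc, ← e1]
      exact h1
    exact le_of_mul_le_mul_right h3 hp
  obtain ⟨L, hL⟩ : ∃ L, L = Real.log T := ⟨_, rfl⟩
  rw [← hL] at g3 g4 hLa
  rw [pow_zero, mul_one] at g6
  have hL1 : 1 ≤ L := by linarith only [g3]
  have hL0 : 0 < L := by linarith only [g3]
  obtain ⟨a, ha⟩ : ∃ a, a = T ^ (3/4 : ℝ) := ⟨_, rfl⟩
  obtain ⟨D, hD⟩ : ∃ D, D = T ^ (15/16 : ℝ) := ⟨_, rfl⟩
  rw [← ha] at g6 pw1 pw2 pw3 pw6 pw8 pw9 hLa
  rw [← hD] at pw1 pw2 pw4 pw10 hD1 hLa ⊢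
  have hsT20 : 40 ≤ Real.sqrt T := by
    rw [Real.le_sqrt (by norm_num) hT0.le]
    linarith only [g2]
  have ha40 : 40 ≤ a := hsT20.trans pw8
  have ha0 : 0 < a := by linarith only [pw8, hsT20]
  have hmid : a ≤ T - a := by linarith only [g2, g6]
  have hNT0 : 0 ≤ NT T := by
    rw [← sum_ZT_mx]
    exact Finset.sum_nonneg fun ρ _ => mx_nonneg _
  have hZT : ∀ ρ ∈ ZT T, 0 ≤ (ρ:ℂ).im ∧ (ρ:ℂ).im ≤ T := fun ρ hρ => mem_ZT.mp hρ
  obtain ⟨kc, hkc⟩ : ∃ kc, kc = (4 * CLA * L) * (2 * a + 2 * |(0:ℝ)| + 2 * Real.sqrt T) + 4 * (Real.sqrt T) ^ (-(3/4) : ℝ) * NT T * C1 := ⟨_, rfl⟩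
  have hk1 : ∫ t in (Icc a (T - a))ᶜ, KS (ZT T) t ≤ kc := by
    refine (KS_compl hT3 (by linarith only [hsT20] : 1 ≤ Real.sqrt T) (by linarith only [pw8, hsT20]) (by linarith only [pw8, hsT20]) hZT).trans (le_of_eq ?_)
    rw [sum_ZT_mx, ← hL, hkc, abs_zero]
    ring
  have hkcb : kc ≤ Ck * L * a := by
    rw [hkc, hCk]
    apply kc_bd hL0.le hC1 hCLA.le pw8 (by rw [abs_zero]; linarith only [pw8, hsT20]) _ g4
    rw [pw7, pw5]
    exact pw6
  have hkcD : kc ≤ Ck * D := by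
    refine hkcb.trans ?_
    calc Ck * L * a = Ck * (L * a) := by ring
      _ ≤ Ck * D := by gcongr
  obtain ⟨w, hw⟩ : ∃ w, w = 50 * 1 ^ 2 / a + (5 + 8 * AX 1) * 1 * (CT2 * T ^ (-(1/16) : ℝ)) := ⟨_, rfl⟩
  have hpt : ∀ t ∈ Icc a (T - a), |bt T 1 t - PS 1 t - Yv T 1 t| ≤ w := by
    intro t ht
    have hexpt : Real.exp (1 / 2) ≤ t := by
      have h1 : Real.exp (1 / 2) ≤ Real.exp 1 := Real.exp_le_exp.mpr (by norm_num)
      have := Real.exp_one_lt_d9
      linarith only [pw8, hsT20, ht, h1, this, ht.1]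
    have h1 := MT_bt (T := T) (X := 1) (r := 1) (t := t) one_pos le_rfl (by norm_num) (by rw [← ha]; linarith only [pw8, hsT20]) (by rw [← ha]; exact ht.1) (by linarith only [pw8, hsT20, ht, ht.2]) hexpt
    have h2 := Yv_approx (T := T) (X := 1) (q := 1) (t := t) hT1 (by rw [← ha]; linarith only [pw8, hsT20]) one_pos le_rfl (by norm_num) (by rw [← ha]; exact ht.1) (by rw [← ha]; exact ht.2)
    rw [← ha] at h1
    have e : bt T 1 t - PS 1 t - Yv T 1 t = -(MT 1 t / 1 - bt T 1 t) + (MT 1 t / 1 - PS 1 t - Yv T 1 t) := by ring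
    rw [e, hw]
    refine (abs_add_le _ _).trans ?_
    rw [abs_neg]
    exact add_le_add h1 h2
  have hls := lin_stat (T := T) (X := 1) (q := 1) (α := a) (β := T - a) (w0 := w) (G := 1) (l := 0) (kc := kc) (g := fun _ => 1)
    one_pos le_rfl (by norm_num) hT0 hmid continuous_const (fun t => by norm_num) (fun s t => by norm_num) le_rfl hpt hk1
  simp only [mul_one, zero_mul, mul_zero, Real.sqrt_zero, zero_add, add_zero] at hls
  -- the density integral
  have hI : ∫ t in Icc a (T - a), bt T 1 t = ((T - a) * Real.log ((T - a) / (2 * Real.pi)) - (T - a)) - (a * Real.log (a / (2 * Real.pi)) - a) := by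
    rw [← int_log2pi ha0 hmid, intervalIntegral.integral_of_le hmid, ← integral_Icc_eq_integral_Ioc]
    apply setIntegral_congr_fun measurableSet_Icc
    intro t ht
    simp only
    unfold bt
    rw [cl_eq (by rw [← ha]; exact ht.1) (by linarith only [pw8, hsT20, ht, ht.2]), div_one]
  have hF := int_log2pi (a := T - a) (b := T) (by linarith only [g2, g6]) (by linarith only [pw8, hsT20])
  have hF2 : |∫ t in (T - a)..T, Real.log (t / (2 * Real.pi))| ≤ L * a := by
    have h := intervalIntegral.norm_integral_le_of_norm_le_const (a := T - a) (b := T) (C := L) (f := fun t => Real.log (t / (2 * Real.pi))) (by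
      intro t ht
      rw [uIoc_of_le (by linarith only [pw8, hsT20])] at ht
      rw [Real.norm_eq_abs]
      exact log2pi_abs hL (by linarith only [g3]) (by linarith only [g2, g6, ht, ht.1]) ht.2)
    rw [Real.norm_eq_abs, sub_sub_cancel, abs_of_pos ha0] at h
    exact h
  have ha2 : |a * Real.log (a / (2 * Real.pi)) - a| ≤ 2 * (L * a) := by
    have h1 := log2pi_abs (T := T) (L := L) (t := a) hL (by linarith only [g3]) (by linarith only [pw8, hsT20]) (by linarith only [g2, g6])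
    have e : a * Real.log (a / (2 * Real.pi)) - a = a * (Real.log (a / (2 * Real.pi)) - 1) := by ring
    rw [e, abs_mul, abs_of_pos ha0]
    have h2 : |Real.log (a / (2 * Real.pi)) - 1| ≤ 2 * L := by
      refine (abs_sub _ _).trans ?_
      rw [abs_one]
      linarith only [g3, h1]
    calc a * |Real.log (a / (2 * Real.pi)) - 1| ≤ a * (2 * L) := by gcongr
      _ = _ := by ring
  -- total mass
  have hYi : Integrable (Yf (ZT T) 1) := Yf_integrable _ one_pos
  have s1 := integral_add_compl (μ := volume) (s := Icc a (T - a)) measurableSet_Icc hYi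
  have htot : ∫ t, Yf (ZT T) 1 t = 2 * Real.pi / 1 * NT T := Yf_integral T one_pos
  rw [htot, div_one] at s1
  have hYn : ∀ t, 0 ≤ Yf (ZT T) 1 t := Yf_nonneg _ one_pos
  have hc0 : 0 ≤ ∫ t in (Icc a (T - a))ᶜ, Yf (ZT T) 1 t := integral_nonneg fun t => hYn t
  have hc1 : ∫ t in (Icc a (T - a))ᶜ, Yf (ZT T) 1 t ≤ 5 * kc := by
    have h1 : ∫ t in (Icc a (T - a))ᶜ, Yf (ZT T) 1 t ≤ ∫ t in (Icc a (T - a))ᶜ, 5 * KS (ZT T) t := by
      apply setIntegral_mono_on hYi.integrableOn ((KS_integrable _).const_mul 5).integrableOn measurableSet_Icc.compl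
      intro t _
      have := Yf_q (F := ZT T) (X := 1) (q := 1) one_pos le_rfl (by norm_num) t
      linarith only [this]
    rw [integral_const_mul] at h1
    linarith only [hk1, h1]
  rw [hI] at hls
  have hwT : w * (T - a - a) ≤ (50 + (5 + 8 * AX 1) * CT2) * D := by
    have hTm : 0 < T ^ (-(1/16) : ℝ) := Real.rpow_pos_of_pos hT0 _
    have hw0 : 0 ≤ w := by rw [hw]; positivity
    calc w * (T - a - a) ≤ w * T := by
          gcongr
          linarith only [pw8, hsT20]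
      _ = 50 * (T / a) + (5 + 8 * AX 1) * (CT2 * (T ^ (-(1/16) : ℝ) * T)) := by rw [hw]; ring
      _ ≤ 50 * D + (5 + 8 * AX 1) * (CT2 * D) := by rw [pw4]; gcongr
      _ = _ := by ring
  have hk5 : 5 * kc ≤ 5 * Ck * D := by linarith only [hkcD]
  have hk8 : 8 * AX 1 * kc ≤ 8 * AX 1 * Ck * D := by
    calc 8 * AX 1 * kc ≤ 8 * AX 1 * (Ck * D) := by gcongr
      _ = _ := by ring
  have hE1 : 40 * Real.exp 1 ≤ 40 * Real.exp 1 * D := le_mul_of_one_le_right (by positivity) hD1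
  set Y1 := ∫ t in Icc a (T - a), Yf (ZT T) 1 t
  set Y2 := ∫ t in (Icc a (T - a))ᶜ, Yf (ZT T) 1 t
  have b1 := abs_le.mp hls
  have b2 := abs_le.mp hF2
  have b3 := abs_le.mp ha2
  rw [hF] at b2
  have hmain : |2 * Real.pi * NT T - T * (Real.log (T / (2 * Real.pi)) - 1)| ≤
      (40 * Real.exp 1 + (50 + (5 + 8 * AX 1) * CT2) + 8 * AX 1 * Ck + 5 * Ck + 6) * D := by
    have e : (40 * Real.exp 1 + (50 + (5 + 8 * AX 1) * CT2) + 8 * AX 1 * Ck + 5 * Ck + 6) * D = 40 * Real.exp 1 * D + (50 + (5 + 8 * AX 1) * CT2) * D +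
      8 * AX 1 * Ck * D + 5 * Ck * D + 6 * D := by ring
    rw [e]
    have e2 : T * (Real.log (T / (2 * Real.pi)) - 1) = T * Real.log (T / (2 * Real.pi)) - T := by ring
    rw [e2, ← s1, abs_le]
    constructor <;> linarith [b1.1, b1.2, b2.1, b2.2, b3.1, b3.2]
  have e : NT T - T / (2 * Real.pi) * (Real.log (T / (2 * Real.pi)) - 1) = (2 * Real.pi * NT T - T * (Real.log (T / (2 * Real.pi)) - 1)) / (2 * Real.pi) := by
    field_simp
  rw [e, abs_div, abs_of_pos (by positivity : 0 < 2 * Real.pi)]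
  refine le_trans ?_ hmain
  apply div_le_self (abs_nonneg _)
  linarith only [hpi, Real.pi_gt_three]

theorem NLP_holds : ∃ C : ℝ, 0 ≤ C ∧ NLP (15/16) C := by
  obtain ⟨C, hC, h⟩ := NL_ex
  obtain ⟨T0, hT0⟩ := eventually_atTop.mp h
  have hpi := Real.pi_pos
  obtain ⟨M, hM⟩ : ∃ M, M = max T0 3 := ⟨_, rfl⟩
  have hM0 : T0 ≤ M := by rw [hM]; exact le_max_left _ _
  have hM3 : 3 ≤ M := by rw [hM]; exact le_max_right _ _
  have hNn : ∀ t, 0 ≤ NT t := fun t => by
    rw [← sum_ZT_mx]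
    exact Finset.sum_nonneg fun ρ _ => mx_nonneg _
  have hN0 := hNn M
  refine ⟨C + NT M + M * (M + 1), by positivity, ?_⟩
  intro t ht
  have ht0 : 0 < t := by linarith
  have hp : 1 ≤ t ^ (15/16 : ℝ) := Real.one_le_rpow (by linarith only [ht]) (by norm_num)
  rcases le_total M t with hMt | hMt
  · refine (hT0 t (by linarith only [hM0, hMt])).trans ?_
    have h1 : 0 ≤ NT M + M * (M + 1) := by positivity
    have h2 : 0 ≤ (NT M + M * (M + 1)) * t ^ (15/16 : ℝ) := by positivity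
    linarith only [h2]
  · have h1 : NT t ≤ NT M := NT_mono' hMt
    have h2 := hNn t
    have h3 : |t / (2 * Real.pi) * (Real.log (t / (2 * Real.pi)) - 1)| ≤ M * (M + 1) := by
      rw [abs_mul, abs_of_pos (by positivity : 0 < t / (2 * Real.pi))]
      have h4 : t / (2 * Real.pi) ≤ M := by
        rw [div_le_iff₀ (by positivity)]
        nlinarith only [hpi, hM3, hMt, Real.pi_gt_three]
      have h5 : |Real.log (t / (2 * Real.pi)) - 1| ≤ M + 1 := by
        have h6 : Real.log (t / (2 * Real.pi)) ≤ t / (2 * Real.pi) - 1 := Real.log_le_sub_one_of_pos (by positivity)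
        have h7 : -(2 * Real.pi / t - 1) ≤ Real.log (t / (2 * Real.pi)) := by
          have h8 : Real.log (2 * Real.pi / t) ≤ 2 * Real.pi / t - 1 := Real.log_le_sub_one_of_pos (by positivity)
          have h9 : Real.log (t / (2 * Real.pi)) = -Real.log (2 * Real.pi / t) := by
            rw [← Real.log_inv, inv_div]
          linarith only [h8, h9]
        have h10 : 2 * Real.pi / t ≤ 3 := by
          rw [div_le_iff₀ ht0]
          nlinarith only [ht, Real.pi_lt_four]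
        rw [abs_le]
        constructor <;> linarith
      gcongr
    have h4 : |NT t - t / (2 * Real.pi) * (Real.log (t / (2 * Real.pi)) - 1)| ≤ NT M + M * (M + 1) := by
      refine (abs_sub _ _).trans ?_
      rw [abs_of_nonneg h2]
      linarith only [h1, h3]
    refine h4.trans ?_
    have h5 : 0 ≤ NT M + M * (M + 1) := by positivity
    calc NT M + M * (M + 1) ≤ (C + NT M + M * (M + 1)) * 1 := by linarith only [hC]
      _ ≤ _ := by gcongr

end Pool.Agent.Helper57.UV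

end

/-! ### Helper57.UB.Dens -/

section

namespace Pool.Agent.Helper57.UB

open Set MeasureTheory Filter Topology

open Pool.Agent.Helper57.LH

open Pool.Agent.Helper57.LS

open Pool.Agent.Helper57.UV

open Pool.Agent.Helper4.PU (AT AT_close CAT CAT_pos)

open scoped ArithmeticFunction

/-- the arithmetic sum of cosines -/
noncomputable def PT (L u : ℝ) : ℝ := 2 / L ^ 2 * ∑ n ∈ Finset.range (NX L + 1), Λ n ^ 2 / n * Real.cos (2 * Real.pi * u * (Real.log n / L))

/-- the correction to the density -/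
noncomputable def KD (T u : ℝ) : ℝ := AT T - 1 + PT (Real.log T) u - 2 * ∫ t in (0:ℝ)..1, t * Real.cos (2 * Real.pi * u * t)

lemma hc_deriv (δ y : ℝ) : HasDerivAt (fun y => y * Real.cos (δ * y)) (Real.cos (δ * y) + y * (-Real.sin (δ * y) * δ)) y := by
  have h3 : HasDerivAt (fun y : ℝ => Real.cos (δ * y)) (-Real.sin (δ * y) * δ) y := by
    have h4 : HasDerivAt (fun y : ℝ => δ * y) δ y := by simpa using (hasDerivAt_id y).const_mul δ
    exact h4.cos
  have h5 := (hasDerivAt_id y).fun_mul h3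
  refine h5.congr_deriv ?_
  simp only [id]
  ring

/-- general partial summation against the von Mangoldt function -/
lemma psum_gen {X : ℝ} (hX : 0 < X) {h h' : ℝ → ℝ} (hd : ∀ y, HasDerivAt h (h' y) y) (hc : Continuous h') (h0 : h 0 = 0) {K : ℝ} (hK : ∀ y, 0 ≤ y → y ≤ X → |h' y| ≤ K) :
    |(∑ n ∈ Finset.range (NX X + 1), (Λ n / n) * h (Real.log n)) - ∫ y in (0:ℝ)..X, h y| ≤ CMe * (|h X| + K * X) := by
  set S := Finset.range (NX X + 1) with hS
  have hlog : ∀ n ∈ S, 0 ≤ Real.log n ∧ Real.log n ≤ X := by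
    intro n hn
    rw [hS, Finset.mem_range] at hn
    refine ⟨Real.log_natCast_nonneg n, ?_⟩
    rcases Nat.eq_zero_or_pos n with rfl | hn0
    · simpa using hX.le
    have h1 : (0:ℝ) < n := by exact_mod_cast hn0
    have h2 : (n:ℝ) ≤ Real.exp X := (Nat.le_floor_iff (Real.exp_pos X).le).mp (by unfold NX at hn; omega)
    rwa [Real.log_le_iff_le_exp h1]
  have hii : ∀ a : ℝ, IntervalIntegrable (fun y => if a ≤ y then h' y else 0) volume 0 X := by
    intro a
    have h0 : (fun y => if a ≤ y then h' y else 0) = (Ici a).indicator h' := by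
      funext y
      by_cases h : a ≤ y
      · rw [if_pos h, indicator_of_mem (mem_Ici.mpr h)]
      · rw [if_neg h, indicator_of_notMem (fun h' => h (mem_Ici.mp h'))]
    rw [h0, intervalIntegrable_iff]
    rw [IntegrableOn, integrable_indicator_iff measurableSet_Ici]
    have : IntegrableOn h' (uIoc 0 X) := intervalIntegrable_iff.mp (hc.intervalIntegrable _ _)
    exact this.integrable.integrableOn
  have hrep : ∀ a : ℝ, 0 ≤ a → a ≤ X → h a = h X - ∫ y in (0:ℝ)..X, (if a ≤ y then h' y else 0) := by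
    intro a ha haX
    have h1 : ∫ y in a..X, h' y = h X - h a :=
      intervalIntegral.integral_eq_sub_of_hasDerivAt (fun y _ => hd y) (hc.intervalIntegrable _ _)
    have h2 : ∫ y in (0:ℝ)..X, (if a ≤ y then h' y else 0) = ∫ y in a..X, h' y := by
      rw [intervalIntegral.integral_of_le hX.le, intervalIntegral.integral_of_le haX, ← integral_indicator measurableSet_Ioc,
        ← integral_indicator measurableSet_Ioc]
      apply integral_congr_ae
      have : ∀ᵐ y : ℝ, y ≠ a := by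
        rw [ae_iff]; simp
      filter_upwards [this] with y hy
      by_cases h3 : y ∈ Ioc 0 X
      · rw [indicator_of_mem h3]
        by_cases h4 : a ≤ y
        · have h5 : y ∈ Ioc a X := ⟨lt_of_le_of_ne h4 (Ne.symm hy), h3.2⟩
          rw [if_pos h4, indicator_of_mem h5]
        · rw [if_neg h4, indicator_of_notMem (fun h => h4 h.1.le)]
      · rw [indicator_of_notMem h3]
        by_cases h4 : y ∈ Ioc a X
        · exact absurd ⟨lt_of_le_of_lt ha h4.1, h4.2⟩ h3
        · rw [indicator_of_notMem h4]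
    rw [h2, h1]
    ring
  have e1 : ∑ n ∈ S, (Λ n / n) * h (Real.log n) = h X * Me X - ∫ y in (0:ℝ)..X, h' y * Me y := by
    have e2 : ∀ n ∈ S, (Λ n / n) * h (Real.log n) = h X * (Λ n / n) - ∫ y in (0:ℝ)..X, (Λ n / n) * (if Real.log n ≤ y then h' y else 0) := by
      intro n hn
      obtain ⟨h1, h2⟩ := hlog n hn
      rw [hrep _ h1 h2, intervalIntegral.integral_const_mul]
      ring
    rw [Finset.sum_congr rfl e2, Finset.sum_sub_distrib, ← intervalIntegral.integral_finsetSum (fun n _ => (hii _).const_mul _), ← Finset.mul_sum]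
    congr 1
    apply intervalIntegral.integral_congr
    intro y hy
    rw [uIcc_of_le hX.le] at hy
    simp only
    rw [← Me_eq hy.2 hy.1, Finset.mul_sum]
    refine Finset.sum_congr rfl fun n _ => ?_
    split_ifs <;> ring
  have hMi : IntervalIntegrable (fun y => h' y * Me y) volume 0 X := by
    have h1 : IntervalIntegrable (fun y => ∑ n ∈ S, (Λ n / n) * (if Real.log n ≤ y then h' y else 0)) volume 0 X := by
      have := IntervalIntegrable.sum S (fun n _ => (hii (Real.log n)).const_mul (Λ n / (n:ℝ)))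
      refine this.congr_ae ?_
      filter_upwards with y
      simp
    refine h1.congr ?_
    intro y hy
    rw [uIoc_of_le hX.le] at hy
    simp only
    rw [← Me_eq hy.2 hy.1.le, Finset.mul_sum]
    refine Finset.sum_congr rfl fun n _ => ?_
    split_ifs <;> ring
  have hyi : IntervalIntegrable (fun y => h' y * y) volume 0 X := by
    apply Continuous.intervalIntegrable
    exact hc.mul continuous_id
  have e3 : ∫ y in (0:ℝ)..X, h' y * y = X * h X - ∫ y in (0:ℝ)..X, h y := by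
    have h1 := intervalIntegral.integral_mul_deriv_eq_deriv_mul (a := 0) (b := X) (u := fun y => y) (v := h) (u' := fun _ => 1) (v' := h')
      (fun y _ => hasDerivAt_id y) (fun y _ => hd y) (by simp) (hc.intervalIntegrable _ _)
    rw [h0] at h1
    simp only [mul_zero, sub_zero, one_mul] at h1
    rw [← h1]
    apply intervalIntegral.integral_congr
    intro y _
    simp only
    ring
  have e4 : (∑ n ∈ S, (Λ n / n) * h (Real.log n)) - ∫ y in (0:ℝ)..X, h y = h X * (Me X - X) - ∫ y in (0:ℝ)..X, h' y * (Me y - y) := by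
    have e5 : ∫ y in (0:ℝ)..X, h' y * (Me y - y) = (∫ y in (0:ℝ)..X, h' y * Me y) - ∫ y in (0:ℝ)..X, h' y * y := by
      rw [← intervalIntegral.integral_sub hMi hyi]
      apply intervalIntegral.integral_congr
      intro y _
      simp only
      ring
    rw [e5, e3, e1]
    ring
  have hCM := CMe_pos
  have h5 := intervalIntegral.norm_integral_le_of_norm_le_const (a := 0) (b := X) (C := CMe * K) (f := fun y => h' y * (Me y - y)) (by
    intro y hy
    rw [uIoc_of_le hX.le] at hy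
    rw [norm_mul, Real.norm_eq_abs, Real.norm_eq_abs, mul_comm]
    have h6 := hK y hy.1.le hy.2
    have h7 := mertens hy.1.le
    unfold Me
    gcongr)
  rw [sub_zero, abs_of_pos hX, Real.norm_eq_abs] at h5
  rw [e4]
  have h8 : |h X * (Me X - X)| ≤ |h X| * CMe := by
    rw [abs_mul]
    have h7 := mertens hX.le
    unfold Me
    gcongr
  calc _ ≤ |h X * (Me X - X)| + |∫ y in (0:ℝ)..X, h' y * (Me y - y)| := abs_sub _ _
    _ ≤ |h X| * CMe + CMe * K * X := add_le_add h8 h5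
    _ = _ := by ring

lemma cos_int_scale {L : ℝ} (hL : 0 < L) (u : ℝ) : ∫ y in (0:ℝ)..L, y * Real.cos (2 * Real.pi * u / L * y) = L ^ 2 * ∫ t in (0:ℝ)..1, t * Real.cos (2 * Real.pi * u * t) := by
  have h1 := intervalIntegral.integral_comp_mul_left (a := 0) (b := 1) (fun y => y * Real.cos (2 * Real.pi * u / L * y)) hL.ne'
  rw [mul_zero, mul_one, smul_eq_mul] at h1
  have h2 : ∫ y in (0:ℝ)..L, y * Real.cos (2 * Real.pi * u / L * y) = L * ∫ t in (0:ℝ)..1, (L * t) * Real.cos (2 * Real.pi * u / L * (L * t)) := by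
    rw [h1, ← mul_assoc, mul_inv_cancel₀ hL.ne', one_mul]
  rw [h2, ← intervalIntegral.integral_const_mul, ← intervalIntegral.integral_const_mul]
  apply intervalIntegral.integral_congr
  intro t _
  simp only
  rw [show 2 * Real.pi * u / L * (L * t) = 2 * Real.pi * u * t by field_simp]
  ring

/-- the prime sum agrees with the linear form factor up to `O((1+|u|)/L)` -/
lemma PT_close {L : ℝ} (hL : 1 ≤ L) (u : ℝ) : |PT L u - 2 * ∫ t in (0:ℝ)..1, t * Real.cos (2 * Real.pi * u * t)| ≤ (2 * CNP + 4 * CMe + 4 * Real.pi * CMe * |u|) / L := by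
  have hL0 : 0 < L := by linarith only [hL]
  have hpi := Real.pi_pos
  have hCM := CMe_pos
  set δ : ℝ := 2 * Real.pi * u / L with hδ
  have h1 := psum_gen hL0 (hc_deriv δ) (by fun_prop) (by simp) (K := 1 + |δ| * L) (by
    intro y hy0 hyL
    refine (abs_add_le _ _).trans ?_
    have a1 := Real.abs_cos_le_one (δ * y)
    have a2 := Real.abs_sin_le_one (δ * y)
    have a3 : |y * (-Real.sin (δ * y) * δ)| ≤ |δ| * L := by
      rw [abs_mul, abs_mul, abs_neg, abs_of_nonneg hy0]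
      calc y * (|Real.sin (δ * y)| * |δ|) ≤ L * (1 * |δ|) := by gcongr
        _ = _ := by ring
    linarith only [a1, a3])
  rw [cos_int_scale hL0] at h1
  have h2 : |(∑ n ∈ Finset.range (NX L + 1), Λ n ^ 2 / n * Real.cos (2 * Real.pi * u * (Real.log n / L))) - ∑ n ∈ Finset.range (NX L + 1), (Λ n / n) * (Real.log n * Real.cos (δ * Real.log n))| ≤ L * CNP := by
    rw [← Finset.sum_sub_distrib]
    refine (Finset.abs_sum_le_sum_abs _ _).trans ?_
    have h3 : ∀ n ∈ Finset.range (NX L + 1), |Λ n ^ 2 / n * Real.cos (2 * Real.pi * u * (Real.log n / L)) - (Λ n / n) * (Real.log n * Real.cos (δ * Real.log n))| ≤ L * (aN n / n) := by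
      intro n hn
      rw [Finset.mem_range] at hn
      have e1 : 2 * Real.pi * u * (Real.log n / L) = δ * Real.log n := by rw [hδ]; field_simp
      rw [e1]
      rcases Nat.eq_zero_or_pos n with rfl | hn0
      · simp
      have hn0' : (0:ℝ) < n := by exact_mod_cast hn0
      have h4 : (n:ℝ) ≤ Real.exp L := (Nat.le_floor_iff (Real.exp_pos L).le).mp (by unfold NX at hn; omega)
      have h5 : Real.log n ≤ L := by rwa [Real.log_le_iff_le_exp hn0']
      have e2 : Λ n ^ 2 / n * Real.cos (δ * Real.log n) - (Λ n / n) * (Real.log n * Real.cos (δ * Real.log n)) = (Λ n * (Λ n - Real.log n) / n) * Real.cos (δ * Real.log n) := by ring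
      rw [e2, abs_mul]
      have h6 : |Λ n * (Λ n - Real.log n) / n| ≤ L * (aN n / n) := by
        unfold aN
        split_ifs with hp
        · rw [ArithmeticFunction.vonMangoldt_apply_prime hp, sub_self]; simp
        · have h9 := @ArithmeticFunction.vonMangoldt_nonneg n
          have h10 := @ArithmeticFunction.vonMangoldt_le_log n
          rw [abs_div, abs_mul, abs_of_nonneg h9, abs_of_nonpos (by linarith only [h10]), abs_of_pos hn0']
          calc Λ n * -(Λ n - Real.log n) / n ≤ Λ n * L / n := by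
                gcongr
                linarith only [h5, h9]
            _ = _ := by ring
      have h7 := Real.abs_cos_le_one (δ * Real.log n)
      have h8 : 0 ≤ L * (aN n / n) := by
        have := aN_nonneg n
        positivity
      calc _ ≤ L * (aN n / n) * 1 := by gcongr
        _ = _ := mul_one _
    refine (Finset.sum_le_sum h3).trans ?_
    rw [← Finset.mul_sum]
    have := nonprime_sum (NX L)
    gcongr
  have h9 : |L * Real.cos (δ * L)| ≤ L := by
    rw [abs_mul, abs_of_pos hL0]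
    have := Real.abs_cos_le_one (δ * L)
    nlinarith only [hL, this]
  unfold PT
  obtain ⟨A, hA⟩ : ∃ A, A = ∑ n ∈ Finset.range (NX L + 1), Λ n ^ 2 / n * Real.cos (2 * Real.pi * u * (Real.log n / L)) := ⟨_, rfl⟩
  obtain ⟨B, hB⟩ : ∃ B, B = ∑ n ∈ Finset.range (NX L + 1), (Λ n / n) * (Real.log n * Real.cos (δ * Real.log n)) := ⟨_, rfl⟩
  obtain ⟨J, hJ⟩ : ∃ J, J = ∫ t in (0:ℝ)..1, t * Real.cos (2 * Real.pi * u * t) := ⟨_, rfl⟩
  rw [← hA, ← hB] at h2
  rw [← hB, ← hJ] at h1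
  rw [← hA, ← hJ]
  have e : 2 / L ^ 2 * A - 2 * J = 2 / L ^ 2 * ((A - B) + (B - L ^ 2 * J)) := by
    field_simp
    ring
  have hδL : |δ| * L = 2 * Real.pi * |u| := by
    rw [hδ, abs_div, abs_mul, abs_of_pos (by positivity : 0 < 2 * Real.pi), abs_of_pos hL0]
    field_simp
  rw [e, abs_mul, abs_of_pos (by positivity)]
  have h10 : |(A - B) + (B - L ^ 2 * J)| ≤ L * CNP + CMe * (L + (1 + 2 * Real.pi * |u|) * L) := by
    refine (abs_add_le _ _).trans (add_le_add h2 (h1.trans ?_))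
    rw [hδL]
    gcongr
  calc 2 / L ^ 2 * |(A - B) + (B - L ^ 2 * J)| ≤ 2 / L ^ 2 * (L * CNP + CMe * (L + (1 + 2 * Real.pi * |u|) * L)) := by gcongr
    _ = _ := by
        field_simp
        ring

/-- the correction is small -/
theorem KD_small {T : ℝ} (hT : 3 ≤ T) (u : ℝ) : |KD T u| ≤ (CAT + 2 * CNP + 4 * CMe + 4 * Real.pi * CMe) * (1 + |u|) / Real.log T := by
  have hL := one_le_log hT
  have hL0 : 0 < Real.log T := by linarith
  have h1 := AT_close hT
  have h2 := PT_close hL u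
  have hCM := CMe_pos
  have hCN := CNP_nonneg
  have hCA := CAT_pos
  have hpi := Real.pi_pos
  unfold KD
  have e : AT T - 1 + PT (Real.log T) u - 2 * (∫ t in (0:ℝ)..1, t * Real.cos (2 * Real.pi * u * t)) = (AT T - 1) + (PT (Real.log T) u - 2 * ∫ t in (0:ℝ)..1, t * Real.cos (2 * Real.pi * u * t)) := by ring
  rw [e]
  refine (abs_add_le _ _).trans ((add_le_add h1 h2).trans ?_)
  rw [← add_div]
  apply div_le_div_of_nonneg_right _ hL0.le
  have h3 : 0 ≤ |u| := abs_nonneg u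
  nlinarith only [hCM, hCN, hCA, hpi, h3, mul_nonneg hCA.le h3, mul_nonneg hCN h3, mul_nonneg hCM.le h3, mul_nonneg hpi.le hCM.le]

end Pool.Agent.Helper57.UB

end

/-! ### Helper57.UB.KerK -/

section

namespace Pool.Agent.Helper57.UB

open Set MeasureTheory Filter Topology

open Pool.Agent.Helper57.LH

open Pool.Agent.Helper57.LS

open Pool.Agent.Helper57.UV

open Pool.Agent.Helper57.PC (pcDensity pcDensity_le_one pcDensity_nonneg SN SN_pos)

open Pool.Agent.Helper4.PU (AT AT_close CAT CAT_pos)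

open Pool.Agent.Helper4.PC (Gs_integrable pcDensity_measurable)

open scoped ArithmeticFunction

lemma Gm_abs' (y : ℝ) : |Gm y| ≤ 1 := by
  rw [abs_of_nonneg (Gm_nonneg y)]
  exact (Gm_le y).trans Pool.Agent.Helper4.PC.Gm_zero_le_one

lemma tri_sq_integrable : Integrable (fun v => tri v ^ 2) := by
  have := trisq_integrable one_pos
  simpa using this

/-- transform of the kernel -/
lemma Gm_cos (w : ℝ) : ∫ x, Gm x * Real.cos (2 * Real.pi * w * x) = tri w ^ 2 := by
  have h := inv_even (f := fun v => tri v ^ 2) (g := Gm) tri_sq_integrable (tri_cont.pow 2) (fun v => by rw [tri_even]) Gm_integrable Gm_even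
    (fun w => by rw [Gm_int]) w
  exact h

lemma GmB_cos {B : ℝ} (hB : 0 < B) (w : ℝ) : ∫ x, Gm (x / B) * Real.cos (2 * Real.pi * w * x) = B * tri (B * w) ^ 2 := by
  have h1 := Measure.integral_comp_div (fun x => Gm x * Real.cos (2 * Real.pi * (B * w) * x)) B
  rw [Gm_cos, abs_of_pos hB, smul_eq_mul] at h1
  rw [← h1]
  congr 1
  funext x
  rw [show 2 * Real.pi * (B * w) * (x / B) = 2 * Real.pi * w * x by field_simp]

lemma GmB_integrable {B : ℝ} (hB : 0 < B) : Integrable (fun x => Gm (x / B)) := Gm_integrable.comp_div hB.ne'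

lemma GmB_even (B x : ℝ) : Gm (-x / B) = Gm (x / B) := by rw [neg_div, Gm_even]

lemma Gs_cos {B : ℝ} (hB : 0 < B) (v ξ : ℝ) : ∫ u, Gm ((u - v) / B) * Real.cos (2 * Real.pi * u * ξ) = B * tri (B * ξ) ^ 2 * Real.cos (2 * Real.pi * v * ξ) := by
  have h1 := integral_sub_left_eq_self (fun u => Gm ((u - v) / B) * Real.cos (2 * Real.pi * u * ξ)) volume v
  rw [← h1]
  have h2 := int_shift_cos (GmB_integrable hB) (fun x => GmB_even B x) v ξ
  rw [GmB_cos hB] at h2
  have h3 : ∀ x, Gm ((v - x - v) / B) * Real.cos (2 * Real.pi * (v - x) * ξ) = Gm (x / B) * Real.cos (2 * Real.pi * (v - x) * ξ) := by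
    intro x
    rw [show v - x - v = -x by ring, GmB_even]
  simp_rw [h3]
  rw [h2]
  ring

/-- box indicator -/
noncomputable def bx (t : ℝ) : ℝ := (Icc (-1:ℝ) 1).indicator (fun _ => 1) t

lemma bx_int : Integrable bx := by
  unfold bx
  rw [integrable_indicator_iff measurableSet_Icc]
  exact integrableOn_const (by simp)

lemma bx_cos (u : ℝ) : ∫ t, bx t * Real.cos (2 * Real.pi * u * t) = 2 * ∫ t in (0:ℝ)..1, Real.cos (2 * Real.pi * u * t) := by
  have h1 : ∫ t, bx t * Real.cos (2 * Real.pi * u * t) = ∫ t in (-1:ℝ)..1, Real.cos (2 * Real.pi * u * t) := by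
    rw [intervalIntegral.integral_of_le (by norm_num), ← integral_Icc_eq_integral_Ioc, ← integral_indicator measurableSet_Icc]
    congr 1
    funext t
    unfold bx
    by_cases h : t ∈ Icc (-1:ℝ) 1
    · rw [indicator_of_mem h, indicator_of_mem h, one_mul]
    · rw [indicator_of_notMem h, indicator_of_notMem h, zero_mul]
  have hci : ∀ a b : ℝ, IntervalIntegrable (fun t => Real.cos (2 * Real.pi * u * t)) volume a b := by
    intro a b; apply Continuous.intervalIntegrable; fun_prop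
  rw [h1, ← intervalIntegral.integral_add_adjacent_intervals (hci (-1) 0) (hci 0 1)]
  have h2 : ∫ t in (-1:ℝ)..0, Real.cos (2 * Real.pi * u * t) = ∫ t in (0:ℝ)..1, Real.cos (2 * Real.pi * u * t) := by
    have h3 := intervalIntegral.integral_comp_neg (a := 0) (b := 1) (fun t => Real.cos (2 * Real.pi * u * t))
    rw [neg_zero] at h3
    rw [← h3]
    apply intervalIntegral.integral_congr
    intro t _
    simp only
    rw [mul_neg, Real.cos_neg]
  rw [h2]
  ring

/-- the kernel against the band limited delta -/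
lemma Gs_box {B : ℝ} (hB : 0 < B) (v : ℝ) : ∫ u, Gm ((u - v) / B) * (2 * ∫ t in (0:ℝ)..1, Real.cos (2 * Real.pi * u * t)) = ∫ t, bx t * (Real.cos (2 * Real.pi * v * t) * (B * tri (B * t) ^ 2)) := by
  have h1 := integral_sub_left_eq_self (fun u => Gm ((u - v) / B) * (2 * ∫ t in (0:ℝ)..1, Real.cos (2 * Real.pi * u * t))) volume v
  rw [← h1]
  have h2 := conv_tri (GmB_integrable hB) (fun x => GmB_even B x) bx_int v
  simp_rw [GmB_cos hB] at h2
  rw [← h2]
  congr 1
  funext x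
  rw [show v - x - v = -x by ring, GmB_even, bx_cos]

/-- for scale at least one the band limit is invisible -/
lemma Gs_box_eq {B : ℝ} (hB : 1 ≤ B) (v : ℝ) : ∫ u, Gm ((u - v) / B) * (2 * ∫ t in (0:ℝ)..1, Real.cos (2 * Real.pi * u * t)) = Gm ((0 - v) / B) := by
  have hB0 : 0 < B := by linarith
  rw [Gs_box hB0, zero_sub, GmB_even, Gm_scale hB0]
  congr 1
  funext t
  unfold bx
  by_cases h : t ∈ Icc (-1:ℝ) 1
  · rw [indicator_of_mem h]; ring
  · rw [indicator_of_notMem h]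
    have h1 : 1 ≤ |B * t| := by
      rw [abs_mul, abs_of_pos hB0]
      have h2 : 1 < |t| := by
        by_contra h3
        push Not at h3
        exact h (abs_le.mp h3)
      nlinarith only [hB, h2]
    rw [tri_zero_of h1]
    ring

/-- the density splits -/
lemma dens_eq {T u : ℝ} (hu : u ≠ 0) : pcDensity u + KD T u = AT T + PT (Real.log T) u - 2 * ∫ t in (0:ℝ)..1, Real.cos (2 * Real.pi * u * t) := by
  have h1 : pcDensity u = 1 - sc u := by
    rw [sc_eq hu]
    rfl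
  have h2 := sc_tri u
  have h3 : ∫ v in (0:ℝ)..1, (1 - v) * Real.cos (2 * Real.pi * u * v) = (∫ v in (0:ℝ)..1, Real.cos (2 * Real.pi * u * v)) - ∫ v in (0:ℝ)..1, v * Real.cos (2 * Real.pi * u * v) := by
    rw [← intervalIntegral.integral_sub]
    · apply intervalIntegral.integral_congr
      intro v _
      simp only
      ring
    · apply Continuous.intervalIntegrable; fun_prop
    · apply Continuous.intervalIntegrable; fun_prop
  rw [h1, h2, h3]
  unfold KD
  ring

lemma PT_cont (L : ℝ) : Continuous (PT L) := by unfold PT; fun_prop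

lemma PT_abs {L : ℝ} (hL : 1 ≤ L) (u : ℝ) : |PT L u| ≤ 2 * (1 + CMe) := by
  have hL0 : 0 < L := by linarith only [hL]
  have hCM := CMe_pos
  unfold PT
  rw [abs_mul, abs_of_pos (by positivity)]
  have h1 : |∑ n ∈ Finset.range (NX L + 1), Λ n ^ 2 / n * Real.cos (2 * Real.pi * u * (Real.log n / L))| ≤ L * (L + CMe) := by
    refine (Finset.abs_sum_le_sum_abs _ _).trans ?_
    have h2 : ∀ n ∈ Finset.range (NX L + 1), |Λ n ^ 2 / n * Real.cos (2 * Real.pi * u * (Real.log n / L))| ≤ L * (Λ n / n) := by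
      intro n hn
      rw [Finset.mem_range] at hn
      have h9 := @ArithmeticFunction.vonMangoldt_nonneg n
      rcases Nat.eq_zero_or_pos n with rfl | hn0
      · simp
      have hn0' : (0:ℝ) < n := by exact_mod_cast hn0
      have h4 : (n:ℝ) ≤ Real.exp L := (Nat.le_floor_iff (Real.exp_pos L).le).mp (by unfold NX at hn; omega)
      have h5 : Real.log n ≤ L := by rwa [Real.log_le_iff_le_exp hn0']
      have h10 := @ArithmeticFunction.vonMangoldt_le_log n
      rw [abs_mul, abs_of_nonneg (by positivity)]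
      have h7 := Real.abs_cos_le_one (2 * Real.pi * u * (Real.log n / L))
      calc Λ n ^ 2 / n * |Real.cos (2 * Real.pi * u * (Real.log n / L))| ≤ Λ n ^ 2 / n * 1 := by gcongr
        _ = Λ n * (Λ n / n) := by ring
        _ ≤ L * (Λ n / n) := by
            gcongr
            linarith only [h5, h10]
    refine (Finset.sum_le_sum h2).trans ?_
    rw [← Finset.mul_sum]
    have h8 := (abs_le.mp (mertens hL0.le)).2
    gcongr
    linarith only [h8]
  calc 2 / L ^ 2 * _ ≤ 2 / L ^ 2 * (L * (L + CMe)) := by gcongr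
    _ = 2 * (1 + CMe / L) := by field_simp
    _ ≤ 2 * (1 + CMe) := by
        gcongr
        exact div_le_self hCM.le hL

lemma bc_cont : Continuous (fun u : ℝ => 2 * ∫ t in (0:ℝ)..1, Real.cos (2 * Real.pi * u * t)) := by
  apply Continuous.mul continuous_const
  exact intervalIntegral.continuous_parametric_intervalIntegral_of_continuous' (f := fun u t => Real.cos (2 * Real.pi * u * t)) (by
    unfold Function.uncurry; fun_prop) 0 1

lemma bc_abs (u : ℝ) : |2 * ∫ t in (0:ℝ)..1, Real.cos (2 * Real.pi * u * t)| ≤ 2 := by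
  rw [abs_mul, abs_two]
  have h := intervalIntegral.norm_integral_le_of_norm_le_const (a := 0) (b := 1) (C := 1) (f := fun t => Real.cos (2 * Real.pi * u * t)) (by
    intro t _
    exact Real.abs_cos_le_one _)
  rw [Real.norm_eq_abs, sub_zero, abs_one, mul_one] at h
  linarith only [h]

lemma Gs_bdmul {B : ℝ} (hB : 0 < B) (v : ℝ) {ρ : ℝ → ℝ} (hρ : AEStronglyMeasurable ρ) {M : ℝ} (hM : ∀ u, |ρ u| ≤ M) : Integrable (fun u => Gm ((u - v) / B) * ρ u) :=
  (Gs_integrable hB v).mul_bdd (c := M) hρ (Eventually.of_forall fun u => by rw [Real.norm_eq_abs]; exact hM u)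

/-- integral of the kernel against the density -/
lemma Gs_dens {T B : ℝ} (hL : 1 ≤ Real.log T) (hB : 0 < B) (v : ℝ) :
    ∫ u, Gm ((u - v) / B) * (pcDensity u + KD T u) = AT T * B + 2 / Real.log T ^ 2 * (∑ n ∈ Finset.range (NX (Real.log T) + 1), Λ n ^ 2 / n * (B * tri (B * (Real.log n / Real.log T)) ^ 2 * Real.cos (2 * Real.pi * v * (Real.log n / Real.log T)))) -
      ∫ u, Gm ((u - v) / B) * (2 * ∫ t in (0:ℝ)..1, Real.cos (2 * Real.pi * u * t)) := by
  have e1 : ∫ u, Gm ((u - v) / B) * (pcDensity u + KD T u) = ∫ u, (Gm ((u - v) / B) * AT T + Gm ((u - v) / B) * PT (Real.log T) u - Gm ((u - v) / B) * (2 * ∫ t in (0:ℝ)..1, Real.cos (2 * Real.pi * u * t))) := by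
    apply integral_congr_ae
    have : ∀ᵐ u : ℝ, u ≠ 0 := by
      rw [ae_iff]; simp
    filter_upwards [this] with u hu
    rw [dens_eq hu]
    ring
  have i1 : Integrable (fun u => Gm ((u - v) / B) * AT T) := (Gs_integrable hB v).mul_const _
  have i2 : Integrable (fun u => Gm ((u - v) / B) * PT (Real.log T) u) := Gs_bdmul hB v (PT_cont _).aestronglyMeasurable (PT_abs hL)
  have i3 : Integrable (fun u => Gm ((u - v) / B) * (2 * ∫ t in (0:ℝ)..1, Real.cos (2 * Real.pi * u * t))) := Gs_bdmul hB v bc_cont.aestronglyMeasurable bc_abs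
  have i12 : Integrable (fun u => Gm ((u - v) / B) * AT T + Gm ((u - v) / B) * PT (Real.log T) u) := i1.add i2
  rw [e1, integral_sub i12 i3, integral_add i1 i2, integral_mul_const, Pool.Agent.Helper4.PU.Gs_int_eq hB]
  congr 2
  · ring
  · unfold PT
    have e2 : ∀ u, Gm ((u - v) / B) * (2 / Real.log T ^ 2 * ∑ n ∈ Finset.range (NX (Real.log T) + 1), Λ n ^ 2 / n * Real.cos (2 * Real.pi * u * (Real.log n / Real.log T))) =
        2 / Real.log T ^ 2 * ∑ n ∈ Finset.range (NX (Real.log T) + 1), Λ n ^ 2 / n * (Gm ((u - v) / B) * Real.cos (2 * Real.pi * u * (Real.log n / Real.log T))) := by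
      intro u
      rw [Finset.mul_sum, Finset.mul_sum, Finset.mul_sum]
      refine Finset.sum_congr rfl fun n _ => ?_
      ring
    simp_rw [e2]
    rw [integral_const_mul, integral_finsetSum]
    · congr 1
      refine Finset.sum_congr rfl fun n _ => ?_
      rw [integral_const_mul, Gs_cos hB]
    · intro n _
      apply Integrable.const_mul
      exact Gs_bdmul hB v (Continuous.aestronglyMeasurable (by fun_prop)) (fun u => Real.abs_cos_le_one _)

/-- the deviation from the arithmetic density -/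
noncomputable def EF (T : ℝ) (ρ φ : ℝ → ℝ) : ℝ := WP T φ - SN T * (φ 0 + ∫ u, φ u * ρ u)

/-- the density -/
noncomputable def rh (T u : ℝ) : ℝ := pcDensity u + KD T u

/-- prediction for kernels of scale at least one -/
lemma pred_eq {T B : ℝ} (hL : 1 ≤ Real.log T) (hB : 1 ≤ B) (v : ℝ) :
    Gm ((0 - v) / B) + ∫ u, Gm ((u - v) / B) * rh T u = AT T * B + PXc (Real.log T / B) (2 * Real.pi * v / Real.log T) / B := by
  have hB0 : 0 < B := by linarith
  have hL0 : 0 < Real.log T := by linarith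
  unfold rh
  rw [Gs_dens hL hB0, Gs_box_eq hB, PXc_fixed (B0 := 1) hL0 one_pos hB, div_one]
  have e : 2 / Real.log T ^ 2 * (∑ n ∈ Finset.range (NX (Real.log T) + 1), Λ n ^ 2 / n * (B * tri (B * (Real.log n / Real.log T)) ^ 2 * Real.cos (2 * Real.pi * v * (Real.log n / Real.log T)))) =
      (∑ n ∈ Finset.range (NX (Real.log T) + 1), 2 * (Λ n ^ 2 / n) * (B ^ 2 / Real.log T ^ 2) * mp (1 - B * (Real.log n / Real.log T)) ^ 2 * Real.cos (2 * Real.pi * v / Real.log T * Real.log n)) / B := by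
    rw [Finset.mul_sum, Finset.sum_div]
    refine Finset.sum_congr rfl fun n _ => ?_
    have h1 : 0 ≤ Real.log n / Real.log T := div_nonneg (Real.log_natCast_nonneg n) hL0.le
    rw [tri_mp hB0.le, abs_of_nonneg h1, show 2 * Real.pi * v / Real.log T * Real.log n = 2 * Real.pi * v * (Real.log n / Real.log T) by ring]
    field_simp
  rw [e]
  ring

/-- trivial bound for the prediction -/
lemma pred_bd {T B : ℝ} (hT : 3 ≤ T) (hA : |AT T| ≤ 2) (hB : 0 < B) (v : ℝ) :
    |Gm ((0 - v) / B) + ∫ u, Gm ((u - v) / B) * rh T u| ≤ (6 + 2 * CMe) * (1 + B) := by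
  have hL := one_le_log hT
  have hCM := CMe_pos
  have h1 := Gm_abs' ((0 - v) / B)
  have h2 : |∫ u, Gm ((u - v) / B) * rh T u| ≤ (6 + 2 * CMe) * B := by
    have e1 : ∫ u, Gm ((u - v) / B) * rh T u = ∫ u, Gm ((u - v) / B) * (AT T + PT (Real.log T) u - 2 * ∫ t in (0:ℝ)..1, Real.cos (2 * Real.pi * u * t)) := by
      apply integral_congr_ae
      have : ∀ᵐ u : ℝ, u ≠ 0 := by
        rw [ae_iff]; simp
      filter_upwards [this] with u hu
      unfold rh
      rw [dens_eq hu]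
    have h3 : ∀ u, ‖Gm ((u - v) / B) * (AT T + PT (Real.log T) u - 2 * ∫ t in (0:ℝ)..1, Real.cos (2 * Real.pi * u * t))‖ ≤ Gm ((u - v) / B) * (6 + 2 * CMe) := by
      intro u
      rw [norm_mul, Real.norm_of_nonneg (Gm_nonneg _), Real.norm_eq_abs]
      have a1 := PT_abs hL u
      have a2 := bc_abs u
      have a3 : |AT T + PT (Real.log T) u - 2 * ∫ t in (0:ℝ)..1, Real.cos (2 * Real.pi * u * t)| ≤ 6 + 2 * CMe := by
        refine (abs_sub _ _).trans ?_
        have := abs_add_le (AT T) (PT (Real.log T) u)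
        linarith only [hA, a1, a2, this]
      have := Gm_nonneg ((u - v) / B)
      gcongr
    have h4 := norm_integral_le_of_norm_le ((Gs_integrable hB v).mul_const (6 + 2 * CMe)) (Eventually.of_forall h3)
    rw [integral_mul_const, Pool.Agent.Helper4.PU.Gs_int_eq hB, Real.norm_eq_abs] at h4
    rw [e1]
    linarith only [h4]
  refine (abs_add_le _ _).trans ?_
  linarith

end Pool.Agent.Helper57.UB

end

/-! ### Helper57.UB.Top -/

section

namespace Pool.Agent.Helper57.UB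

open Set MeasureTheory Filter Topology

open Pool.Agent.Helper57.LH

open Pool.Agent.Helper57.LS

open Pool.Agent.Helper57.UV

open Pool.Agent.Helper4.PC (Tr)

open Pool.Agent.Helper57.PC (SN SN_pos)

open Pool.Agent.Helper4.PU (AT)

lemma TrGW_int {X : ℝ} (hX : 0 < X) (T b : ℝ) : Integrable (fun v => Tr X v * GW T b v) := by
  unfold GW WP
  have e : (fun v => Tr X v * ∑ p ∈ Zeta.Zf T ×ˢ Zeta.Zf T, (PC.mult p.1 : ℝ) * (PC.mult p.2 : ℝ) * Gm ((PC.nd T p - v) / b)) =
      fun v => ∑ p ∈ Zeta.Zf T ×ˢ Zeta.Zf T, ((PC.mult p.1 : ℝ) * (PC.mult p.2 : ℝ)) * (Tr X v * Gm ((PC.nd T p - v) / b)) := by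
    funext v
    rw [Finset.mul_sum]
    refine Finset.sum_congr rfl fun p _ => ?_
    ring
  rw [e]
  exact integrable_finsetSum _ fun p _ => (TrG_int hX b _).const_mul _

lemma DW_ii (T X : ℝ) {θ : ℝ → ℝ} (hθm : Measurable θ) {c d : ℝ} (hcd : c ≤ d) (hθ : ∀ B ∈ Ioc c d, |θ B| ≤ 1) :
    IntervalIntegrable (fun B => θ B * DW T X B) volume c d := by
  rw [intervalIntegrable_iff_integrableOn_Ioc_of_le hcd]
  unfold DW WP
  have e : (fun B => θ B * ∑ p ∈ Zeta.Zf T ×ˢ Zeta.Zf T, (PC.mult p.1 : ℝ) * (PC.mult p.2 : ℝ) * Dl X B (PC.nd T p)) =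
      fun B => ∑ p ∈ Zeta.Zf T ×ˢ Zeta.Zf T, ((PC.mult p.1 : ℝ) * (PC.mult p.2 : ℝ)) * (θ B * Dl X B (PC.nd T p)) := by
    funext v
    rw [Finset.mul_sum]
    refine Finset.sum_congr rfl fun p _ => ?_
    ring
  rw [e]
  exact integrable_finsetSum _ fun p _ => (Dl_ii X _ hθm hcd hθ).const_mul _

lemma Tr_nonneg {X : ℝ} (hX : 0 < X) (v : ℝ) : 0 ≤ Tr X v := by
  rw [Tr_def]
  exact mul_nonneg hX.le (tri_nonneg _)

lemma Tr_zero {X v : ℝ} (hX : 0 < X) (hv : X ≤ |v|) : Tr X v = 0 := by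
  rw [Tr_def, tri_zero_of, mul_zero]
  rw [abs_div, abs_of_pos hX, le_div_iff₀ hX, one_mul]
  exact hv

/-- the smoothed triangle at the top scale -/
lemma top {T X b S A C : ℝ} {P : ℝ → ℝ} (hX : 0 < X) (hXb : X ≤ b) (hS : 0 ≤ S) (hC : 0 ≤ C) (hb : 1 ≤ b)
    (hP : ∀ v, |P v| ≤ 4) (h : ∀ v, |v| ≤ b → |GW T b v - S * (A * b + P v / b)| ≤ C * (S / b ^ 2)) :
    |1 / b * (∫ v, Tr X v * GW T b v) - S * A * X ^ 2| ≤ (4 + C) * S := by
  have hb0 : 0 < b := by linarith
  have h1 : ∀ v, ‖Tr X v * GW T b v - S * A * b * Tr X v‖ ≤ Tr X v * ((4 + C) * S / b) := by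
    intro v
    have hT0 := Tr_nonneg hX v
    rcases le_total X |v| with hv | hv
    · rw [Tr_zero hX hv]; simp
    have h2 := h v (hv.trans hXb)
    have h3 : |GW T b v - S * A * b| ≤ (4 + C) * S / b := by
      have e1 : GW T b v - S * A * b = (GW T b v - S * (A * b + P v / b)) + S * (P v / b) := by ring
      rw [e1]
      refine (abs_add_le _ _).trans ?_
      have h4 : |S * (P v / b)| ≤ 4 * S / b := by
        rw [abs_mul, abs_div, abs_of_nonneg hS, abs_of_pos hb0]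
        have := hP v
        calc S * (|P v| / b) ≤ S * (4 / b) := by gcongr
          _ = _ := by ring
      have h5 : C * (S / b ^ 2) ≤ C * S / b := by
        rw [← mul_div_assoc]
        apply div_le_div_of_nonneg_left (by positivity) hb0
        nlinarith only [hX, hXb, hb]
      calc |GW T b v - S * (A * b + P v / b)| + |S * (P v / b)| ≤ C * S / b + 4 * S / b := by linarith only [h2, h4, h5]
        _ = _ := by ring
    rw [show Tr X v * GW T b v - S * A * b * Tr X v = Tr X v * (GW T b v - S * A * b) by ring, norm_mul, Real.norm_of_nonneg hT0, Real.norm_eq_abs]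
    gcongr
  have i1 := TrGW_int hX T b
  have i2 : Integrable (fun v => S * A * b * Tr X v) := (Tr_integrable hX).const_mul _
  have h6 := norm_integral_le_of_norm_le ((Tr_integrable hX).mul_const ((4 + C) * S / b)) (Eventually.of_forall h1)
  rw [integral_sub i1 i2, integral_const_mul, integral_mul_const, Pool.Agent.Helper4.PU.Tr_integral hX, Real.norm_eq_abs] at h6
  have e2 : 1 / b * (∫ v, Tr X v * GW T b v) - S * A * X ^ 2 = (1 / b) * ((∫ v, Tr X v * GW T b v) - S * A * b * X ^ 2) := by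
    obtain ⟨J, hJ⟩ : ∃ J, J = ∫ v, Tr X v * GW T b v := ⟨_, rfl⟩
    rw [← hJ]
    field_simp
  rw [e2, abs_mul, abs_of_pos (by positivity)]
  have h7 : X ^ 2 ≤ b ^ 2 := by gcongr
  calc 1 / b * |(∫ v, Tr X v * GW T b v) - S * A * b * X ^ 2| ≤ 1 / b * (X ^ 2 * ((4 + C) * S / b)) := by gcongr
    _ ≤ 1 / b * (b ^ 2 * ((4 + C) * S / b)) := by gcongr
    _ = (4 + C) * S := by field_simp

/-- the law for second differences -/
lemma DW_law {T X B S A C y : ℝ} {P : ℝ → ℝ} (hXy : |X| ≤ y) (hy : 0 ≤ y)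
    (hPe : P (-X) = P X) (h : ∀ v, |v| ≤ y → |GW T B v - S * (A * B + P v / B)| ≤ C * (S / B ^ 2)) :
    |DW T X B - S * (2 * (P 0 - P X) / B)| ≤ 4 * (C * (S / B ^ 2)) := by
  have h0 := abs_le.mp (h 0 (by rw [abs_zero]; exact hy))
  have h1 := abs_le.mp (h X hXy)
  have h2 := abs_le.mp (h (-X) (by rw [abs_neg]; exact hXy))
  rw [hPe] at h2
  rw [DW_eq, abs_le]
  have e : S * (2 * (P 0 - P X) / B) = 2 * (S * (A * B + P 0 / B)) - S * (A * B + P X / B) - S * (A * B + P X / B) := by ring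
  rw [e]
  constructor <;> linarith only [h0, h1, h2, h0.1, h0.2, h1.1, h1.2, h2.1, h2.2]

lemma DW_bd {T X B S C y : ℝ} {P : ℝ → ℝ} {A : ℝ} (hXy : |X| ≤ y) (hy : 0 ≤ y) (hB : 1 ≤ B) (hS : 0 ≤ S) (hC : 0 ≤ C) (hP : ∀ v, |P v| ≤ 4)
    (hPe : P (-X) = P X) (h : ∀ v, |v| ≤ y → |GW T B v - S * (A * B + P v / B)| ≤ C * (S / B ^ 2)) :
    |DW T X B| ≤ (16 + 4 * C) * S / B := by
  have hB0 : 0 < B := by linarith only [hB]
  have h1 := DW_law (A := A) hXy hy hPe h
  have h2 : |S * (2 * (P 0 - P X) / B)| ≤ 16 * S / B := by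
    rw [abs_mul, abs_div, abs_mul, abs_of_nonneg hS, abs_of_pos hB0, abs_two]
    have h3 : |P 0 - P X| ≤ 8 := by
      refine (abs_sub _ _).trans ?_
      linarith only [hP, hP 0, hP X]
    calc S * (2 * |P 0 - P X| / B) ≤ S * (2 * 8 / B) := by gcongr
      _ = _ := by ring
  have h5 : 4 * (C * (S / B ^ 2)) ≤ 4 * C * S / B := by
    have : C * (S / B ^ 2) ≤ C * S / B := by
      rw [← mul_div_assoc]
      apply div_le_div_of_nonneg_left (by positivity) hB0
      nlinarith only [hB]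
    calc 4 * (C * (S / B ^ 2)) ≤ 4 * (C * S / B) := by gcongr
      _ = _ := by ring
  calc |DW T X B| = |(DW T X B - S * (2 * (P 0 - P X) / B)) + S * (2 * (P 0 - P X) / B)| := by congr 1; ring
    _ ≤ 4 * C * S / B + 16 * S / B := (abs_add_le _ _).trans (add_le_add (h1.trans h5) h2)
    _ = _ := by ring

end Pool.Agent.Helper57.UB

end

/-! ### Helper57.UB.Mid -/

section

namespace Pool.Agent.Helper57.UB

open Set MeasureTheory Filter Topology

open Pool.Agent.Helper57.LH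

open Pool.Agent.Helper57.LS

open Pool.Agent.Helper57.UV

open Pool.Agent.Helper4.PC (Tr)

open Pool.Agent.Helper57.PC (SN SN_pos)

open Pool.Agent.Helper4.PU (AT)

/-- the low scales -/
lemma low_bd {T X S C' B0 : ℝ} (hB0 : 0 ≤ B0) (hS : 0 ≤ S) (hC : 0 ≤ C') (hg : ∀ B v, 0 ≤ GW T B v) (hu : ∀ B : ℝ, 0 < B → ∀ v : ℝ, GW T B v ≤ C' * (1 + B) * S) :
    |∫ B in (0:ℝ)..B0, DW T X B| ≤ 4 * C' * (1 + B0) * B0 * S := by
  have h1 : ∀ B ∈ uIoc 0 B0, ‖DW T X B‖ ≤ 4 * C' * (1 + B0) * S := by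
    intro B hB
    rw [uIoc_of_le hB0] at hB
    have a1 := hu B hB.1 0
    have a2 := hu B hB.1 X
    have a3 := hu B hB.1 (-X)
    have b1 := hg B 0
    have b2 := hg B X
    have b3 := hg B (-X)
    have c1 : C' * (1 + B) * S ≤ C' * (1 + B0) * S := by
      have := hB.2
      gcongr
    rw [Real.norm_eq_abs, DW_eq, abs_le]
    constructor <;> linarith
  have h2 := intervalIntegral.norm_integral_le_of_norm_le_const h1
  rw [Real.norm_eq_abs, sub_zero, abs_of_nonneg hB0] at h2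
  calc |∫ B in (0:ℝ)..B0, DW T X B| ≤ 4 * C' * (1 + B0) * S * B0 := h2
    _ = _ := by ring

lemma inv_sq_int {c d : ℝ} (hc : 0 < c) (hcd : c ≤ d) : ∫ B in c..d, 1 / B ^ 2 ≤ 1 / c := by
  have h1 : ∀ x ∈ uIcc c d, HasDerivAt (fun B : ℝ => -(1 / B)) (1 / x ^ 2) x := by
    intro x hx
    rw [uIcc_of_le hcd] at hx
    have hx0 : x ≠ 0 := by linarith [hx.1]
    have := (hasDerivAt_inv hx0).neg
    simp only [one_div]
    refine this.congr_deriv ?_
    rw [neg_neg]
  have h2 : IntervalIntegrable (fun B : ℝ => 1 / B ^ 2) volume c d := by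
    apply ContinuousOn.intervalIntegrable
    intro x hx
    rw [uIcc_of_le hcd] at hx
    have hx0 : x ≠ 0 := by linarith [hx.1]
    apply ContinuousAt.continuousWithinAt
    fun_prop (disch := positivity)
  rw [intervalIntegral.integral_eq_sub_of_hasDerivAt h1 h2]
  have : 0 < 1 / d := by have : 0 < d := by linarith only [hc, hcd]
                         positivity
  linarith only [this]

lemma inv_sq_ii {c d : ℝ} (hc : 0 < c) (hcd : c ≤ d) : IntervalIntegrable (fun B : ℝ => 1 / B ^ 2) volume c d := by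
  apply ContinuousOn.intervalIntegrable
  intro x hx
  rw [uIcc_of_le hcd] at hx
  have hx0 : x ≠ 0 := by linarith only [hc, hx, hx.1]
  apply ContinuousAt.continuousWithinAt
  fun_prop (disch := positivity)

/-- the middle scales -/
lemma mid_bd {T X S A C y B0 b : ℝ} {P : ℝ → ℝ → ℝ} (hXy : |X| ≤ y) (hy : 0 ≤ y) (hB0 : 1 ≤ B0) (hb : B0 ≤ b) (hby : b ≤ y) (hS : 0 ≤ S) (hC : 0 ≤ C)
    (hPe : ∀ B, P B (-X) = P B X) (hPi : IntervalIntegrable (fun B => 2 * (P B 0 - P B X) / B) volume B0 b)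
    (h : ∀ B v, B0 ≤ B → B ≤ y → |v| ≤ y → |GW T B v - S * (A * B + P B v / B)| ≤ C * (S / B ^ 2)) :
    |(∫ B in B0..b, DW T X B) - S * ∫ B in B0..b, 2 * (P B 0 - P B X) / B| ≤ 4 * C * S := by
  have hB0' : 0 < B0 := by linarith
  have i1 : IntervalIntegrable (fun B => DW T X B) volume B0 b := by
    have := DW_ii T X (θ := fun _ => 1) measurable_const hb (fun _ _ => by simp)
    simpa using this
  have i2 : IntervalIntegrable (fun B => S * (2 * (P B 0 - P B X) / B)) volume B0 b := hPi.const_mul S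
  rw [← intervalIntegral.integral_const_mul, ← intervalIntegral.integral_sub i1 i2]
  have h1 : ∀ B ∈ Ioc B0 b, ‖DW T X B - S * (2 * (P B 0 - P B X) / B)‖ ≤ 4 * C * S * (1 / B ^ 2) := by
    intro B hB
    rw [Real.norm_eq_abs]
    have h3 := DW_law (A := A) hXy hy (hPe B) (h B · hB.1.le (hB.2.trans hby))
    calc _ ≤ 4 * (C * (S / B ^ 2)) := h3
      _ = _ := by ring
  have h2 := intervalIntegral.norm_integral_le_of_norm_le hb (Eventually.of_forall h1) ((inv_sq_ii hB0' hb).const_mul _)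
  rw [intervalIntegral.integral_const_mul, Real.norm_eq_abs] at h2
  have h3 := inv_sq_int hB0' hb
  have h4 : 1 / B0 ≤ 1 := by rw [div_le_one hB0']; exact hB0
  calc _ ≤ 4 * C * S * ∫ B in B0..b, 1 / B ^ 2 := h2
    _ ≤ 4 * C * S * 1 := by gcongr; linarith only [h3, h4]
    _ = _ := mul_one _

/-- the transition scales -/
lemma trans_bd {T X S A C y b : ℝ} {P : ℝ → ℝ → ℝ} (hXy : |X| ≤ y) (hy : 0 ≤ y) (hb : 1 ≤ b) (hby : 2 * b ≤ y) (hS : 0 ≤ S) (hC : 0 ≤ C)
    (hP : ∀ B v, 0 < B → |P B v| ≤ 4) (hPe : ∀ B, P B (-X) = P B X)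
    (h : ∀ B v, b ≤ B → B ≤ y → |v| ≤ y → |GW T B v - S * (A * B + P B v / B)| ≤ C * (S / B ^ 2)) :
    |∫ B in b..(2 * b), (b / B - 1) * DW T X B| ≤ (16 + 4 * C) * S := by
  have hb0 : 0 < b := by linarith
  have h1 : ∀ B ∈ uIoc b (2 * b), ‖(b / B - 1) * DW T X B‖ ≤ (16 + 4 * C) * S / b := by
    intro B hB
    rw [uIoc_of_le (by linarith only [hb])] at hB
    have hB0 : 0 < B := lt_trans hb0 hB.1
    have h3 : b / B ≤ 1 := by rw [div_le_one hB0]; exact hB.1.le
    have h4 : 0 ≤ b / B := by positivity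
    have h5 : |b / B - 1| ≤ 1 := by rw [abs_le]; constructor <;> linarith
    have h6 := DW_bd (A := A) hXy hy (by linarith only [hb, hB, hB.1]) hS hC (hP B · hB0) (hPe B) (h B · hB.1.le (hB.2.trans hby))
    have h7 : (16 + 4 * C) * S / B ≤ (16 + 4 * C) * S / b := by
      have := hB.1
      gcongr
    rw [norm_mul, Real.norm_eq_abs, Real.norm_eq_abs]
    calc |b / B - 1| * |DW T X B| ≤ 1 * ((16 + 4 * C) * S / b) := by
          gcongr
          exact h6.trans h7
      _ = _ := one_mul _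
  have h2 := intervalIntegral.norm_integral_le_of_norm_le_const h1
  rw [Real.norm_eq_abs, show 2 * b - b = b by ring, abs_of_pos hb0] at h2
  calc _ ≤ (16 + 4 * C) * S / b * b := h2
    _ = _ := by field_simp

/-- combination of all scales -/
theorem comb {T X S A C C' y B0 b : ℝ} {P : ℝ → ℝ → ℝ} (hX : 0 < X) (hXb : X ≤ b) (hB0 : 1 ≤ B0) (hb : B0 ≤ b) (hby : 2 * b ≤ y)
    (hS : 0 ≤ S) (hC : 0 ≤ C) (hC' : 0 ≤ C') (hP : ∀ B v, 0 < B → |P B v| ≤ 4) (hPe : ∀ B, P B (-X) = P B X)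
    (hPi : IntervalIntegrable (fun B => 2 * (P B 0 - P B X) / B) volume B0 b)
    (h : ∀ B v, B0 ≤ B → B ≤ y → |v| ≤ y → |GW T B v - S * (A * B + P B v / B)| ≤ C * (S / B ^ 2))
    (hg : ∀ B v, 0 ≤ GW T B v) (hu : ∀ B : ℝ, 0 < B → ∀ v : ℝ, GW T B v ≤ C' * (1 + B) * S) :
    |WP T (Tr X) - S * (A * X ^ 2 + 3 / Real.pi ^ 2 * ∫ B in B0..b, 2 * (P B 0 - P B X) / B)| ≤ (100 + 30 * C + 4 * C' * (1 + B0) * B0) * S := by
  have hpi := Real.pi_gt_three
  have hpi2 : 9 < Real.pi ^ 2 := by nlinarith only [hpi]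
  have hb0 : 0 < b := by linarith
  have hb1 : 1 ≤ b := by linarith
  have hy : 0 ≤ y := by linarith
  have hXy : |X| ≤ y := by rw [abs_of_pos hX]; linarith only [hX, hXb, hby]
  have t1 := top hX hXb hS hC hb1 (P := P b) (hP b · hb0) (fun v hv => h b v hb (by linarith) (by linarith))
  have t2 := top hX (by linarith only [hX, hXb] : X ≤ 2 * b) hS hC (by linarith only [hX, hXb, hB0, hb] : 1 ≤ 2 * b) (P := P (2 * b)) (hP (2 * b) · (by linarith only [hX, hXb]))
    (fun v hv => h (2 * b) v (by linarith only [hX, hXb, hb]) hby (by linarith only [hby, hv]))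
  have t3 := low_bd (X := X) (by linarith only [hB0] : 0 ≤ B0) hS hC' hg hu
  have t4 := mid_bd hXy hy hB0 hb (by linarith only [hX, hXb, hby]) hS hC hPe hPi h
  have t5 := trans_bd hXy hy hb1 hby hS hC hP hPe (fun B v hB hBy hv => h B v (hb.trans hB) hBy hv)
  have t6 := DW_bd (A := A) hXy hy hb1 hS hC (hP b · hb0) (hPe b) (h b · hb (by linarith only [hX, hXb, hby]))
  have t7 := DW_bd (A := A) hXy hy (by linarith only [hX, hXb, hB0, hb] : 1 ≤ 2 * b) hS hC (hP (2 * b) · (by linarith only [hX, hXb])) (hPe (2 * b)) (h (2 * b) · (by linarith only [hX, hXb, hb]) hby)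
  have hsplit : (∫ B in (0:ℝ)..b, DW T X B) = (∫ B in (0:ℝ)..B0, DW T X B) + ∫ B in B0..b, DW T X B := by
    have j1 := DW_ii T X (θ := fun _ => 1) measurable_const (by linarith only [hB0] : (0:ℝ) ≤ B0) (fun _ _ => by simp)
    have j2 := DW_ii T X (θ := fun _ => 1) measurable_const hb (fun _ _ => by simp)
    simp only [one_mul] at j1 j2
    rw [intervalIntegral.integral_add_adjacent_intervals j1 j2]
  have hid := WP_ident hX hb0 T
  rw [hsplit] at hid
  obtain ⟨I1, hI1⟩ : ∃ I1, I1 = ∫ v, Tr X v * GW T b v := ⟨_, rfl⟩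
  obtain ⟨I2, hI2⟩ : ∃ I2, I2 = ∫ v, Tr X v * GW T (2 * b) v := ⟨_, rfl⟩
  obtain ⟨I3, hI3⟩ : ∃ I3, I3 = ∫ B in (0:ℝ)..B0, DW T X B := ⟨_, rfl⟩
  obtain ⟨I4, hI4⟩ : ∃ I4, I4 = ∫ B in B0..b, DW T X B := ⟨_, rfl⟩
  obtain ⟨I5, hI5⟩ : ∃ I5, I5 = ∫ B in b..(2 * b), (b / B - 1) * DW T X B := ⟨_, rfl⟩
  obtain ⟨I6, hI6⟩ : ∃ I6, I6 = DW T X b := ⟨_, rfl⟩
  obtain ⟨I7, hI7⟩ : ∃ I7, I7 = DW T X (2 * b) := ⟨_, rfl⟩
  obtain ⟨J, hJ⟩ : ∃ J, J = ∫ B in B0..b, 2 * (P B 0 - P B X) / B := ⟨_, rfl⟩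
  rw [← hI1, ← hI2, ← hI3, ← hI4, ← hI5, ← hI6, ← hI7] at hid
  rw [← hI1] at t1
  rw [← hI2] at t2
  rw [← hI3] at t3
  rw [← hI4, ← hJ] at t4
  rw [← hI5] at t5
  rw [← hI6] at t6
  rw [← hI7] at t7
  rw [← hJ, hid]
  have e : 2 / b * I1 - 1 / (2 * b) * I2 + 3 / Real.pi ^ 2 * (I3 + I4) + 3 / Real.pi ^ 2 * I5 - b / (2 * Real.pi ^ 2) * I6 + b / (2 * Real.pi ^ 2) * I7 -
      S * (A * X ^ 2 + 3 / Real.pi ^ 2 * J) = 2 * (1 / b * I1 - S * A * X ^ 2) - (1 / (2 * b) * I2 - S * A * X ^ 2) + 3 / Real.pi ^ 2 * I3 + 3 / Real.pi ^ 2 * (I4 - S * J) +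
      3 / Real.pi ^ 2 * I5 - 1 / (2 * Real.pi ^ 2) * (b * I6) + 1 / (2 * Real.pi ^ 2) * (b * I7) := by
    ring
  rw [e]
  have k3 : 3 / Real.pi ^ 2 ≤ 1 := by rw [div_le_one (by positivity)]; linarith only [hpi2]
  have k4 : 1 / (2 * Real.pi ^ 2) ≤ 1 := by rw [div_le_one (by positivity)]; linarith only [hpi2]
  have k30 : 0 ≤ 3 / Real.pi ^ 2 := by positivity
  have k40 : 0 ≤ 1 / (2 * Real.pi ^ 2) := by positivity
  have s3 : |3 / Real.pi ^ 2 * I3| ≤ 4 * C' * (1 + B0) * B0 * S := by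
    rw [abs_mul, abs_of_nonneg k30]
    calc 3 / Real.pi ^ 2 * |I3| ≤ 1 * (4 * C' * (1 + B0) * B0 * S) := by gcongr
      _ = _ := one_mul _
  have s4 : |3 / Real.pi ^ 2 * (I4 - S * J)| ≤ 4 * C * S := by
    rw [abs_mul, abs_of_nonneg k30]
    calc 3 / Real.pi ^ 2 * |I4 - S * J| ≤ 1 * (4 * C * S) := by gcongr
      _ = _ := one_mul _
  have s5 : |3 / Real.pi ^ 2 * I5| ≤ (16 + 4 * C) * S := by
    rw [abs_mul, abs_of_nonneg k30]
    calc 3 / Real.pi ^ 2 * |I5| ≤ 1 * ((16 + 4 * C) * S) := by gcongr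
      _ = _ := one_mul _
  have s6 : |1 / (2 * Real.pi ^ 2) * (b * I6)| ≤ (16 + 4 * C) * S := by
    rw [abs_mul, abs_mul, abs_of_nonneg k40, abs_of_pos hb0]
    calc 1 / (2 * Real.pi ^ 2) * (b * |I6|) ≤ 1 * (b * ((16 + 4 * C) * S / b)) := by gcongr
      _ = _ := by field_simp
  have s7 : |1 / (2 * Real.pi ^ 2) * (b * I7)| ≤ (16 + 4 * C) * S := by
    rw [abs_mul, abs_mul, abs_of_nonneg k40, abs_of_pos hb0]
    calc 1 / (2 * Real.pi ^ 2) * (b * |I7|) ≤ 1 * (b * ((16 + 4 * C) * S / (2 * b))) := by gcongr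
      _ = (16 + 4 * C) * S / 2 := by field_simp
      _ ≤ _ := by
          have : 0 ≤ (16 + 4 * C) * S := by positivity
          linarith only [this]
  have hCS : 0 ≤ C * S := by positivity
  have u1 := abs_le.mp t1
  have u2 := abs_le.mp t2
  have u3 := abs_le.mp s3
  have u4 := abs_le.mp s4
  have u5 := abs_le.mp s5
  have u6 := abs_le.mp s6
  have u7 := abs_le.mp s7
  rw [abs_le]
  constructor
  · linarith only [hS, hCS, u1, u2, u3, u4, u5, u6, u7, u1.1, u1.2, u2.1, u2.2, u3.1, u4.1, u5.1, u6.2, u7.1]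
  · linarith only [hS, hCS, u1, u2, u3, u4, u5, u6, u7, u1.1, u1.2, u2.1, u2.2, u3.2, u4.2, u5.2, u6.1, u7.2]

end Pool.Agent.Helper57.UB

end

/-! ### Helper57.UB.AllK -/

section

namespace Pool.Agent.Helper57.UB

open Set MeasureTheory Filter Topology

open Pool.Agent.Helper57.LH

open Pool.Agent.Helper57.LS

open Pool.Agent.Helper57.UV

open Pool.Agent.Helper57.PC (pcDensity pcDensity_le_one pcDensity_nonneg SN SN_pos)

open Pool.Agent.Helper4.PU (AT AT_close CAT CAT_pos)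

open Pool.Agent.Helper4.PC (Gs_integrable pcDensity_measurable)

open scoped SchwartzMap

lemma tc_cont : Continuous (fun u : ℝ => ∫ t in (0:ℝ)..1, t * Real.cos (2 * Real.pi * u * t)) :=
  intervalIntegral.continuous_parametric_intervalIntegral_of_continuous' (f := fun u t => t * Real.cos (2 * Real.pi * u * t)) (by
    unfold Function.uncurry; fun_prop) 0 1

lemma tc_abs (u : ℝ) : |∫ t in (0:ℝ)..1, t * Real.cos (2 * Real.pi * u * t)| ≤ 1 := by
  have h := intervalIntegral.norm_integral_le_of_norm_le_const (a := 0) (b := 1) (C := 1) (f := fun t => t * Real.cos (2 * Real.pi * u * t)) (by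
    intro t ht
    rw [uIoc_of_le zero_le_one] at ht
    rw [norm_mul, Real.norm_of_nonneg ht.1.le, Real.norm_eq_abs]
    have h1 := Real.abs_cos_le_one (2 * Real.pi * u * t)
    calc t * |Real.cos (2 * Real.pi * u * t)| ≤ 1 * 1 := by
          gcongr
          exact ht.2
      _ = 1 := one_mul _)
  rw [Real.norm_eq_abs, sub_zero, abs_one, mul_one] at h
  exact h

lemma KD_cont (T : ℝ) : Continuous (KD T) := by
  unfold KD
  have h1 := PT_cont (Real.log T)
  have h2 := tc_cont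
  fun_prop

lemma rh_meas (T : ℝ) : Measurable (rh T) := by
  unfold rh
  exact pcDensity_measurable.add (KD_cont T).measurable

lemma rh_abs {T : ℝ} (hT : 3 ≤ T) (hA : |AT T| ≤ 2) (u : ℝ) : |rh T u| ≤ 8 + 2 * CMe := by
  have hL := one_le_log hT
  have h1 := PT_abs hL u
  have h2 := tc_abs u
  have h3 := pcDensity_nonneg u
  have h4 := pcDensity_le_one u
  unfold rh KD
  have a1 := abs_le.mp h1
  have a2 := abs_le.mp h2
  have a3 := abs_le.mp hA
  rw [abs_le]
  constructor <;> linarith [a1.1, a1.2, a2.1, a2.2, a3.1, a3.2]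

lemma EF_add {T : ℝ} {ρ φ ψ : ℝ → ℝ} {M : ℝ} (hφ : Integrable φ) (hψ : Integrable ψ) (hρ : Measurable ρ) (hM : ∀ u, |ρ u| ≤ M) :
    EF T ρ (fun u => φ u + ψ u) = EF T ρ φ + EF T ρ ψ := by
  have i1 : Integrable (fun u => φ u * ρ u) := hφ.mul_bdd (c := M) hρ.aestronglyMeasurable (Eventually.of_forall fun u => by rw [Real.norm_eq_abs]; exact hM u)
  have i2 : Integrable (fun u => ψ u * ρ u) := hψ.mul_bdd (c := M) hρ.aestronglyMeasurable (Eventually.of_forall fun u => by rw [Real.norm_eq_abs]; exact hM u)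
  unfold EF
  rw [WP_add]
  have e : ∫ u, (φ u + ψ u) * ρ u = (∫ u, φ u * ρ u) + ∫ u, ψ u * ρ u := by
    rw [← integral_add i1 i2]
    congr 1
    funext u
    ring
  rw [e]
  ring

/-- integrable majorant of the weight -/
noncomputable def Dq (f : 𝓢(ℝ, ℝ)) (x : ℝ) : ℝ := |D3 f x| / 4 * (1 + x ^ 6)

lemma Dq_int (f : 𝓢(ℝ, ℝ)) : IntegrableOn (Dq f) (Ioi 0) := by
  have h0 : Integrable (fun x => ‖x‖ ^ 0 * ‖D3 f x‖) := (D3 f).integrable_pow_mul volume 0
  have h6 : Integrable (fun x => ‖x‖ ^ 6 * ‖D3 f x‖) := (D3 f).integrable_pow_mul volume 6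
  have h := ((h0.add h6).const_mul (1/4)).integrableOn (s := Ioi (0:ℝ))
  refine h.congr ?_
  filter_upwards with x
  unfold Dq
  simp only [Pi.add_apply]
  rw [Real.norm_eq_abs, Real.norm_eq_abs, pow_zero, ← abs_pow, abs_of_nonneg (by positivity : 0 ≤ x ^ 6)]
  ring

lemma Dq_nonneg (f : 𝓢(ℝ, ℝ)) (x : ℝ) : 0 ≤ Dq f x := by unfold Dq; positivity

lemma wt_abs (f : 𝓢(ℝ, ℝ)) (x : ℝ) : |wt f x| = x ^ 2 * (|D3 f x| / 4) := by
  unfold wt
  rw [abs_neg, abs_mul, abs_of_nonneg (by positivity)]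
  ring

/-- elementary power bounds -/
lemma pow_bds {x : ℝ} (hx : 0 < x) : 1 ≤ 1 + x ^ 6 ∧ x ≤ 1 + x ^ 6 ∧ x ^ 2 ≤ 1 + x ^ 6 ∧ x ^ 3 ≤ 1 + x ^ 6 ∧ x ^ 4 ≤ 1 + x ^ 6 ∧ x ^ 5 ≤ 1 + x ^ 6 ∧ x ^ 6 ≤ 1 + x ^ 6 := by
  have key : ∀ k : ℕ, k ≤ 6 → x ^ k ≤ 1 + x ^ 6 := by
    intro k hk
    rcases le_total x 1 with h | h
    · have : x ^ k ≤ 1 := pow_le_one₀ hx.le h
      have : 0 ≤ x ^ 6 := by positivity
      linarith
    · have : x ^ k ≤ x ^ 6 := pow_le_pow_right₀ h hk
      linarith only [this]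
  have h0 := key 0 (by norm_num)
  have h1 := key 1 (by norm_num)
  rw [pow_zero] at h0
  rw [pow_one] at h1
  exact ⟨h0, h1, key 2 (by norm_num), key 3 (by norm_num), key 4 (by norm_num), key 5 (by norm_num), key 6 le_rfl⟩

lemma bd_even {x R s Y d : ℝ} (hx : 0 < x) (hR : 0 < R) (hY : 0 < Y) (hd : 0 ≤ d) :
    (x ^ 2 * d) * x * (1 / (R / x) ^ 2 + (1 + R / x) * ((R / x / Y) ^ 2 + (s / Y) ^ 2)) ≤ d * (1 + x ^ 6) * (1 / R ^ 2 + (1 + R) * (R ^ 2 + 2 * s ^ 2) / Y ^ 2) := by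
  obtain ⟨p0, p1, p2, p3, p4, p5, p6⟩ := pow_bds hx
  have e : (x ^ 2 * d) * x * (1 / (R / x) ^ 2 + (1 + R / x) * ((R / x / Y) ^ 2 + (s / Y) ^ 2)) =
      d * (x ^ 5 * (1 / R ^ 2) + (x + R * 1) * (R ^ 2 / Y ^ 2) + (x ^ 3 + R * x ^ 2) * (s ^ 2 / Y ^ 2)) := by
    field_simp
    ring
  have h1 : x ^ 5 * (1 / R ^ 2) ≤ (1 + x ^ 6) * (1 / R ^ 2) := by gcongr
  have h2 : (x + R * 1) * (R ^ 2 / Y ^ 2) ≤ ((1 + x ^ 6) + R * (1 + x ^ 6)) * (R ^ 2 / Y ^ 2) := by gcongr
  have h3 : (x ^ 3 + R * x ^ 2) * (s ^ 2 / Y ^ 2) ≤ ((1 + x ^ 6) + R * (1 + x ^ 6)) * (s ^ 2 / Y ^ 2) := by gcongr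
  have h4 : 0 ≤ ((1 + x ^ 6) + R * (1 + x ^ 6)) * (s ^ 2 / Y ^ 2) := by positivity
  rw [e]
  calc d * (x ^ 5 * (1 / R ^ 2) + (x + R * 1) * (R ^ 2 / Y ^ 2) + (x ^ 3 + R * x ^ 2) * (s ^ 2 / Y ^ 2))
      ≤ d * ((1 + x ^ 6) * (1 / R ^ 2) + ((1 + x ^ 6) + R * (1 + x ^ 6)) * (R ^ 2 / Y ^ 2) + (((1 + x ^ 6) + R * (1 + x ^ 6)) * (s ^ 2 / Y ^ 2) + ((1 + x ^ 6) + R * (1 + x ^ 6)) * (s ^ 2 / Y ^ 2))) := by
        apply mul_le_mul_of_nonneg_left _ hd
        linarith
    _ = _ := by ring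

lemma bd_odd {x R s t Y d a : ℝ} (hx : 0 < x) (hR : 0 < R) (hY : 0 < Y) (hd : 0 ≤ d) (ha : 0 ≤ a) :
    (2 * Real.pi * (x ^ 2 * d) * x ^ 2 * a) * (1 / (R / x) ^ 2 + (1 + R / x) * ((R / x / Y) ^ 2 + ((s + t * (R / x)) / Y) ^ 2)) ≤
      (2 * Real.pi * (d * (1 + x ^ 6)) * (1 / R ^ 2 + (1 + R) * (R ^ 2 + 2 * s ^ 2) / Y ^ 2)) * (a * (1 + 2 * t ^ 2)) := by
  obtain ⟨p0, p1, p2, p3, p4, p5, p6⟩ := pow_bds hx
  have hpi := Real.pi_pos
  have h0 : ((s + t * (R / x)) / Y) ^ 2 ≤ 2 * (s / Y) ^ 2 + 2 * t ^ 2 * (R / x / Y) ^ 2 := by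
    have e : 2 * (s / Y) ^ 2 + 2 * t ^ 2 * (R / x / Y) ^ 2 - ((s + t * (R / x)) / Y) ^ 2 = ((s - t * (R / x)) / Y) ^ 2 := by ring
    have := sq_nonneg ((s - t * (R / x)) / Y)
    linarith only [e, this]
  have h1 : (1 / (R / x) ^ 2 + (1 + R / x) * ((R / x / Y) ^ 2 + ((s + t * (R / x)) / Y) ^ 2)) ≤
      (1 + 2 * t ^ 2) * (1 / (R / x) ^ 2 + (1 + R / x) * ((R / x / Y) ^ 2 + 2 * (s / Y) ^ 2)) := by
    have k1 : 0 ≤ 2 * t ^ 2 * (1 / (R / x) ^ 2) := by positivity
    have k2 : 0 ≤ 2 * t ^ 2 * ((1 + R / x) * (2 * (s / Y) ^ 2)) := by positivity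
    have k3 : (1 + R / x) * ((R / x / Y) ^ 2 + ((s + t * (R / x)) / Y) ^ 2) ≤ (1 + R / x) * ((R / x / Y) ^ 2 + (2 * (s / Y) ^ 2 + 2 * t ^ 2 * (R / x / Y) ^ 2)) := by
      gcongr
    calc _ ≤ 1 / (R / x) ^ 2 + (1 + R / x) * ((R / x / Y) ^ 2 + (2 * (s / Y) ^ 2 + 2 * t ^ 2 * (R / x / Y) ^ 2)) := by linarith only [k3]
      _ ≤ 1 / (R / x) ^ 2 + (1 + R / x) * ((R / x / Y) ^ 2 + (2 * (s / Y) ^ 2 + 2 * t ^ 2 * (R / x / Y) ^ 2)) + (2 * t ^ 2 * (1 / (R / x) ^ 2) + 2 * t ^ 2 * ((1 + R / x) * (2 * (s / Y) ^ 2))) := by linarith only [k1, k2]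
      _ = _ := by ring
  have h2 : x ^ 4 * (1 / (R / x) ^ 2 + (1 + R / x) * ((R / x / Y) ^ 2 + 2 * (s / Y) ^ 2)) ≤ (1 + x ^ 6) * (1 / R ^ 2 + (1 + R) * (R ^ 2 + 2 * s ^ 2) / Y ^ 2) := by
    have e : x ^ 4 * (1 / (R / x) ^ 2 + (1 + R / x) * ((R / x / Y) ^ 2 + 2 * (s / Y) ^ 2)) =
        x ^ 6 * (1 / R ^ 2) + (x ^ 2 + R * x) * (R ^ 2 / Y ^ 2) + (x ^ 4 + R * x ^ 3) * (2 * s ^ 2 / Y ^ 2) := by
      field_simp
      ring
    have k1 : x ^ 6 * (1 / R ^ 2) ≤ (1 + x ^ 6) * (1 / R ^ 2) := by gcongr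
    have k2 : (x ^ 2 + R * x) * (R ^ 2 / Y ^ 2) ≤ ((1 + x ^ 6) + R * (1 + x ^ 6)) * (R ^ 2 / Y ^ 2) := by gcongr
    have k3 : (x ^ 4 + R * x ^ 3) * (2 * s ^ 2 / Y ^ 2) ≤ ((1 + x ^ 6) + R * (1 + x ^ 6)) * (2 * s ^ 2 / Y ^ 2) := by gcongr
    rw [e]
    calc _ ≤ (1 + x ^ 6) * (1 / R ^ 2) + ((1 + x ^ 6) + R * (1 + x ^ 6)) * (R ^ 2 / Y ^ 2) + ((1 + x ^ 6) + R * (1 + x ^ 6)) * (2 * s ^ 2 / Y ^ 2) := by linarith only [k1, k2, k3]
      _ = _ := by ring
  calc _ ≤ (2 * Real.pi * (x ^ 2 * d) * x ^ 2 * a) * ((1 + 2 * t ^ 2) * (1 / (R / x) ^ 2 + (1 + R / x) * ((R / x / Y) ^ 2 + 2 * (s / Y) ^ 2))) := by gcongr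
    _ = (2 * Real.pi * d * a * (1 + 2 * t ^ 2)) * (x ^ 4 * (1 / (R / x) ^ 2 + (1 + R / x) * ((R / x / Y) ^ 2 + 2 * (s / Y) ^ 2))) := by ring
    _ ≤ (2 * Real.pi * d * a * (1 + 2 * t ^ 2)) * ((1 + x ^ 6) * (1 / R ^ 2 + (1 + R) * (R ^ 2 + 2 * s ^ 2) / Y ^ 2)) := by gcongr
    _ = _ := by ring

lemma E_bd {R s Z Y : ℝ} (hR : 0 < R) (hRZ : R ≤ Z) (hs : |s| ≤ Z) (hZ : 1 ≤ Z) (hY : Z ^ 5 = Y ^ 2) (hY0 : 0 < Y) :
    1 / R ^ 2 + (1 + R) * (R ^ 2 + 2 * s ^ 2) / Y ^ 2 ≤ 7 / R ^ 2 := by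
  have h1 : s ^ 2 ≤ Z ^ 2 := by rw [← sq_abs]; gcongr
  have h2 : (1 + R) * (R ^ 2 + 2 * s ^ 2) * R ^ 2 ≤ 6 * Y ^ 2 := by
    have h3 : 1 + R ≤ 2 * Z := by linarith only [hRZ, hZ]
    calc (1 + R) * (R ^ 2 + 2 * s ^ 2) * R ^ 2 ≤ (2 * Z) * (Z ^ 2 + 2 * Z ^ 2) * Z ^ 2 := by gcongr
      _ = 6 * Z ^ 5 := by ring
      _ = 6 * Y ^ 2 := by rw [hY]
  have h4 : (1 + R) * (R ^ 2 + 2 * s ^ 2) / Y ^ 2 ≤ 6 / R ^ 2 := by
    rw [div_le_div_iff₀ (by positivity) (by positivity)]
    exact h2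
  calc _ ≤ 1 / R ^ 2 + 6 / R ^ 2 := by linarith only [h4]
    _ = _ := by ring

end Pool.Agent.Helper57.UB

end

/-! ### Helper57.UB.SupK -/

section

namespace Pool.Agent.Helper57.UB

open Set MeasureTheory Filter Topology

open Pool.Agent.Helper57.LH

open Pool.Agent.Helper57.LS

open Pool.Agent.Helper57.UV

open Pool.Agent.Helper57.PC (pcDensity pcDensity_le_one pcDensity_nonneg SN SN_pos)

open Pool.Agent.Helper4.PU (AT AT_close CAT CAT_pos)

open Pool.Agent.Helper4.PC (Gs_integrable pcDensity_measurable)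

/-- the kernel law relative to the arithmetic density, at all scales and shifts -/
theorem EF_kernel : ∃ C : ℝ, 0 < C ∧ ∀ᶠ T : ℝ in atTop,
    (∀ B v : ℝ, 0 < B → B ≤ T ^ (1/100 : ℝ) → |v| ≤ T ^ (1/100 : ℝ) → |EF T (rh T) (fun u => Gm ((u - v) / B))| ≤ C / B ^ 2 * SN T) ∧
    (∀ B v : ℝ, 0 < B → |EF T (rh T) (fun u => Gm ((u - v) / B))| ≤ C * (1 + B) * SN T) := by
  obtain ⟨C, hC, hU⟩ := ULawP_holds
  obtain ⟨C', hC', hu⟩ := uni
  have hCM := CMe_pos
  unfold ULawP at hU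
  set D : ℝ := C' + (6 + 2 * CMe) with hD
  have hD0 : 0 < D := by rw [hD]; positivity
  refine ⟨D * (9601 * 9600 ^ 2) + C, by positivity, ?_⟩
  filter_upwards [hU, hu, eventually_ge_atTop 3, Real.tendsto_log_atTop.eventually_ge_atTop CAT] with T h1 h2 h3 h4
  have hL := one_le_log h3
  have hL0 : 0 < Real.log T := by linarith only [hL]
  have hS := SN_pos (show 1 < T by linarith only [h3])
  have hA : |AT T| ≤ 2 := by
    have h5 := AT_close h3
    have h6 : CAT / Real.log T ≤ 1 := by rw [div_le_one hL0]; exact h4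
    have h7 : |AT T| ≤ |AT T - 1| + |(1:ℝ)| := by
      have := abs_add_le (AT T - 1) 1
      rwa [sub_add_cancel] at this
    rw [abs_one] at h7
    linarith only [h5, h6, h7]
  have hall : ∀ B v : ℝ, 0 < B → |EF T (rh T) (fun u => Gm ((u - v) / B))| ≤ D * (1 + B) * SN T := by
    intro B v hB
    unfold EF
    refine (abs_sub _ _).trans ?_
    have a1 : |WP T (fun u => Gm ((u - v) / B))| ≤ C' * (1 + B) * SN T := by
      rw [abs_of_nonneg (WP_nonneg fun _ => Gm_nonneg _)]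
      exact h2 B hB v
    have a2 := pred_bd h3 hA hB v
    rw [abs_mul, abs_of_pos hS]
    calc _ ≤ C' * (1 + B) * SN T + SN T * ((6 + 2 * CMe) * (1 + B)) := by gcongr
      _ = _ := by rw [hD]; ring
  refine ⟨fun B v hB hBY hv => ?_, fun B v hB => (hall B v hB).trans ?_⟩
  · rcases le_total 9600 B with hB1 | hB1
    · have k := h1 B v hB1 hBY hv
      unfold EF
      rw [pred_eq hL (by linarith only [hB1]) v]
      refine k.trans ?_
      have : 0 ≤ D * (9601 * 9600 ^ 2) * (SN T / B ^ 2) := by positivity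
      calc C * (SN T / B ^ 2) ≤ C * (SN T / B ^ 2) + D * (9601 * 9600 ^ 2) * (SN T / B ^ 2) := by linarith only [this]
        _ = _ := by ring
    · refine (hall B v hB).trans ?_
      have h5 : (1 + B) * B ^ 2 ≤ 9601 * 9600 ^ 2 := by
        have : 1 + B ≤ 9601 := by linarith only [hB1]
        gcongr
      have h6 : 1 + B ≤ 9601 * 9600 ^ 2 / B ^ 2 := by rwa [le_div_iff₀ (by positivity)]
      have h7 : D * (1 + B) ≤ (D * (9601 * 9600 ^ 2) + C) / B ^ 2 := by
        calc D * (1 + B) ≤ D * (9601 * 9600 ^ 2 / B ^ 2) := by gcongr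
          _ = (D * (9601 * 9600 ^ 2)) / B ^ 2 := by ring
          _ ≤ _ := by
              gcongr
              linarith only [hC]
      gcongr
  · have : D ≤ D * (9601 * 9600 ^ 2) + C := by nlinarith only [hC, hC', hCM]
    have hB1 : 0 ≤ 1 + B := by linarith only [hB]
    gcongr

section gen

variable {X : Type*} [MeasurableSpace X] {μ : Measure X} [SFinite μ] {w B v : X → ℝ} {ρ : ℝ → ℝ} {M : ℝ}

lemma gR_prod (hw : Measurable w) (hBm : Measurable B) (hv : Measurable v) (hB : ∀ᵐ x ∂μ, 0 < B x)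
    (h1 : Integrable (fun x => |w x| * (1 + B x)) μ) (hρ : Measurable ρ) (hM : ∀ u, |ρ u| ≤ M) :
    Integrable (fun p : X × ℝ => w p.1 * Gm ((p.2 - v p.1) / B p.1) * ρ p.2) (μ.prod volume) := by
  have hM0 : 0 ≤ M := (abs_nonneg _).trans (hM 0)
  have hm : AEStronglyMeasurable (fun p : X × ℝ => w p.1 * Gm ((p.2 - v p.1) / B p.1) * ρ p.2) (μ.prod volume) := by
    apply Measurable.aestronglyMeasurable
    apply Measurable.mul
    · exact (hw.comp measurable_fst).mul (Gm_cont.measurable.comp ((measurable_snd.sub (hv.comp measurable_fst)).div (hBm.comp measurable_fst)))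
    · exact hρ.comp measurable_snd
  rw [integrable_prod_iff hm]
  have hF : ∀ x : X, 0 < B x → Integrable (fun u => w x * Gm ((u - v x) / B x) * ρ u) := by
    intro x hx
    have := (Gs_bdmul hx (v x) hρ.aestronglyMeasurable hM).const_mul (w x)
    refine this.congr ?_
    filter_upwards with u
    ring
  constructor
  · filter_upwards [hB] with x hx
    exact hF x hx
  · refine (h1.mul_const M).mono' ?_ ?_
    · exact (hm.norm.integral_prod_right')
    · filter_upwards [hB] with x hx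
      rw [Real.norm_of_nonneg (integral_nonneg fun _ => norm_nonneg _)]
      have h2 : ∫ u, ‖w x * Gm ((u - v x) / B x) * ρ u‖ ≤ ∫ u, |w x| * M * Gm ((u - v x) / B x) := by
        apply integral_mono (hF x hx).norm ((Gs_integrable hx _).const_mul _)
        intro u
        simp only
        rw [norm_mul, norm_mul, Real.norm_eq_abs, Real.norm_of_nonneg (Gm_nonneg _), Real.norm_eq_abs]
        have := Gm_nonneg ((u - v x) / B x)
        have := hM u
        calc |w x| * Gm ((u - v x) / B x) * |ρ u| ≤ |w x| * Gm ((u - v x) / B x) * M := by gcongr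
          _ = _ := by ring
      refine h2.trans ?_
      rw [integral_const_mul, Gs_integral hx]
      have : |w x| * M * B x ≤ |w x| * M * (1 + B x) := by
        gcongr
        linarith
      calc _ ≤ |w x| * M * (1 + B x) := this
        _ = _ := by ring

/-- the deviation of a general superposition of kernels -/
theorem EF_gen (hw : Measurable w) (hBm : Measurable B) (hv : Measurable v) (hB : ∀ᵐ x ∂μ, 0 < B x)
    (h1 : Integrable (fun x => |w x| * (1 + B x)) μ) (hρ : Measurable ρ) (hM : ∀ u, |ρ u| ≤ M) (T : ℝ) :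
    EF T ρ (fun u => ∫ x, w x * Gm ((u - v x) / B x) ∂μ) = ∫ x, w x * EF T ρ (fun u => Gm ((u - v x) / B x)) ∂μ := by
  have hprod := gR_prod hw hBm hv hB h1 hρ hM
  have hKi : ∀ u, Integrable (fun x => w x * Gm ((u - v x) / B x)) μ := gK_int hw hBm hv hB h1
  have hi1 : Integrable (fun x => WP T (fun u => w x * Gm ((u - v x) / B x))) μ := by
    unfold WP
    apply integrable_finsetSum
    intro p _
    exact (hKi _).const_mul _
  have hi2 : Integrable (fun x => w x * Gm ((0 - v x) / B x)) μ := hKi 0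
  have hi3 : Integrable (fun x => ∫ u, w x * Gm ((u - v x) / B x) * ρ u) μ := hprod.integral_prod_left
  have he : ∀ x, w x * EF T ρ (fun u => Gm ((u - v x) / B x)) = WP T (fun u => w x * Gm ((u - v x) / B x)) -
      SN T * (w x * Gm ((0 - v x) / B x) + ∫ u, w x * Gm ((u - v x) / B x) * ρ u) := by
    intro x
    unfold EF
    have h1 : WP T (fun u => w x * Gm ((u - v x) / B x)) = w x * WP T (fun u => Gm ((u - v x) / B x)) := by
      rw [WP_smul]
    have h2 : ∫ u, w x * Gm ((u - v x) / B x) * ρ u = w x * ∫ u, Gm ((u - v x) / B x) * ρ u := by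
      rw [← integral_const_mul]
      congr 1
      funext u
      ring
    rw [h1, h2]
    ring
  simp_rw [he]
  have e1 : ∫ x, (WP T (fun u => w x * Gm ((u - v x) / B x)) - SN T * (w x * Gm ((0 - v x) / B x) + ∫ u, w x * Gm ((u - v x) / B x) * ρ u)) ∂μ =
      (∫ x, WP T (fun u => w x * Gm ((u - v x) / B x)) ∂μ) - SN T * ((∫ x, w x * Gm ((0 - v x) / B x) ∂μ) + ∫ x, ∫ u, w x * Gm ((u - v x) / B x) * ρ u ∂volume ∂μ) := by
    have i4 : Integrable (fun x => SN T * (w x * Gm ((0 - v x) / B x) + ∫ u, w x * Gm ((u - v x) / B x) * ρ u)) μ := (hi2.add hi3).const_mul (SN T)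
    rw [integral_sub hi1 i4, integral_const_mul, integral_add hi2 hi3]
  rw [e1]
  unfold EF
  rw [WP_integral' μ T (fun x u => w x * Gm ((u - v x) / B x)) hKi]
  congr 3
  have h3 : ∀ u, (∫ x, w x * Gm ((u - v x) / B x) ∂μ) * ρ u = ∫ x, w x * Gm ((u - v x) / B x) * ρ u ∂μ := by
    intro u
    rw [integral_mul_const]
  simp_rw [h3]
  exact (integral_integral_swap hprod).symm

/-- the law for a general superposition, at finite `T` -/
theorem law_fin {C Y T : ℝ} (hC : 0 ≤ C) (hY : 0 < Y) (hS : 0 ≤ SN T)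
    (hL : ∀ B v : ℝ, 0 < B → B ≤ Y → |v| ≤ Y → |EF T ρ (fun u => Gm ((u - v) / B))| ≤ C / B ^ 2 * SN T)
    (hU : ∀ B v : ℝ, 0 < B → |EF T ρ (fun u => Gm ((u - v) / B))| ≤ C * (1 + B) * SN T)
    (hw : Measurable w) (hBm : Measurable B) (hv : Measurable v) (hB : ∀ᵐ x ∂μ, 0 < B x)
    (h1 : Integrable (fun x => |w x| * (1 + B x)) μ) (hρ : Measurable ρ) (hM : ∀ u, |ρ u| ≤ M)
    {b : X → ℝ} (hb : Integrable b μ) (hbb : ∀ᵐ x ∂μ, |w x| * (1 / B x ^ 2 + (1 + B x) * ((B x / Y) ^ 2 + (v x / Y) ^ 2)) ≤ b x) :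
    |EF T ρ (fun u => ∫ x, w x * Gm ((u - v x) / B x) ∂μ)| ≤ C * SN T * ∫ x, b x ∂μ := by
  rw [EF_gen hw hBm hv hB h1 hρ hM T]
  have h2 : ∀ᵐ x ∂μ, ‖w x * EF T ρ (fun u => Gm ((u - v x) / B x))‖ ≤ C * SN T * b x := by
    filter_upwards [hB, hbb] with x hx hx2
    have hCS : 0 ≤ C * SN T := by positivity
    have h3 : |EF T ρ (fun u => Gm ((u - v x) / B x))| ≤ C * SN T * (1 / B x ^ 2 + (1 + B x) * ((B x / Y) ^ 2 + (v x / Y) ^ 2)) := by
      have hn : 0 ≤ (1 + B x) * ((B x / Y) ^ 2 + (v x / Y) ^ 2) := by positivity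
      have hn2 : 0 ≤ 1 / B x ^ 2 := by positivity
      by_cases h4 : B x ≤ Y ∧ |v x| ≤ Y
      · refine (hL _ _ hx h4.1 h4.2).trans ?_
        have h10 : 1 / B x ^ 2 ≤ 1 / B x ^ 2 + (1 + B x) * ((B x / Y) ^ 2 + (v x / Y) ^ 2) := by linarith
        calc C / B x ^ 2 * SN T = C * SN T * (1 / B x ^ 2) := by ring
          _ ≤ _ := mul_le_mul_of_nonneg_left h10 hCS
      · have h5 : 1 ≤ (B x / Y) ^ 2 + (v x / Y) ^ 2 := by
          rcases not_and_or.mp h4 with h6 | h6
          · push Not at h6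
            have h7 : 1 ≤ B x / Y := by rw [one_le_div hY]; exact h6.le
            have h8 : 1 ≤ (B x / Y) ^ 2 := one_le_pow₀ h7
            have := sq_nonneg (v x / Y)
            linarith only [h8, this]
          · push Not at h6
            have h7 : 1 ≤ |v x| / Y := by rw [one_le_div hY]; exact h6.le
            have h8 : 1 ≤ (|v x| / Y) ^ 2 := one_le_pow₀ h7
            rw [div_pow, sq_abs, ← div_pow] at h8
            have := sq_nonneg (B x / Y)
            linarith only [h8, this]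
        refine (hU _ _ hx).trans ?_
        have h9 : 1 + B x ≤ (1 + B x) * ((B x / Y) ^ 2 + (v x / Y) ^ 2) := le_mul_of_one_le_right (by linarith only [hx]) h5
        have h10 : 1 + B x ≤ 1 / B x ^ 2 + (1 + B x) * ((B x / Y) ^ 2 + (v x / Y) ^ 2) := by linarith only [hn2, h9]
        calc C * (1 + B x) * SN T = C * SN T * (1 + B x) := by ring
          _ ≤ _ := mul_le_mul_of_nonneg_left h10 hCS
    rw [norm_mul, Real.norm_eq_abs, Real.norm_eq_abs]
    calc |w x| * |EF T ρ (fun u => Gm ((u - v x) / B x))| ≤ |w x| * (C * SN T * (1 / B x ^ 2 + (1 + B x) * ((B x / Y) ^ 2 + (v x / Y) ^ 2))) := by gcongr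
      _ = C * SN T * (|w x| * (1 / B x ^ 2 + (1 + B x) * ((B x / Y) ^ 2 + (v x / Y) ^ 2))) := by ring
      _ ≤ C * SN T * b x := by gcongr
  have h3 := norm_integral_le_of_norm_le (hb.const_mul (C * SN T)) h2
  rw [integral_const_mul, Real.norm_eq_abs] at h3
  exact h3

end gen

end Pool.Agent.Helper57.UB

end

/-! ### Helper57.UB.FinK -/

section

namespace Pool.Agent.Helper57.UB

open Set MeasureTheory Filter Topology

open Pool.Agent.Helper57.LH

open Pool.Agent.Helper57.LS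

open Pool.Agent.Helper57.UV

open Pool.Agent.Helper57.PC (pcDensity pcDensity_le_one pcDensity_nonneg SN SN_pos)

open Pool.Agent.Helper4.PU (AT AT_close CAT CAT_pos)

open Pool.Agent.Helper4.PC (Gs_integrable pcDensity_measurable)

open scoped SchwartzMap

/-- what is known about the kernels at a given `T` -/
def KerOK (C Y T : ℝ) : Prop :=
  (∀ B v : ℝ, 0 < B → B ≤ Y → |v| ≤ Y → |EF T (rh T) (fun u => Gm ((u - v) / B))| ≤ C / B ^ 2 * SN T) ∧
  (∀ B v : ℝ, 0 < B → |EF T (rh T) (fun u => Gm ((u - v) / B))| ≤ C * (1 + B) * SN T)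

lemma even_law {C Y Z T M : ℝ} (hC : 0 ≤ C) (hY : 0 < Y) (hZ : 1 ≤ Z) (hZY : Z ^ 5 = Y ^ 2) (hS : 0 ≤ SN T) (hK : KerOK C Y T) (hM : ∀ u, |rh T u| ≤ M)
    (g : 𝓢(ℝ, ℝ)) (hg : ∀ x, g (-x) = g x) {R s : ℝ} (hR : 0 < R) (hRZ : R ≤ Z) (hs : |s| ≤ Z) :
    |EF T (rh T) (fun u => g ((u - s) / R))| ≤ C * (7 * ∫ x in Ioi (0:ℝ), Dq (Ph g) x) / R ^ 2 * SN T := by
  set μ : Measure ℝ := volume.restrict (Ioi (0:ℝ)) with hμ
  set w : ℝ → ℝ := fun x => wg g x * x with hw
  set B : ℝ → ℝ := fun x => R / x with hB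
  set v : ℝ → ℝ := fun _ => s with hv
  have hwm : Measurable w := (wg_cont g).measurable.mul measurable_id
  have hBm : Measurable B := measurable_const.div measurable_id
  have hvm : Measurable v := measurable_const
  have hpos : ∀ᵐ x ∂μ, 0 < x := ae_restrict_mem measurableSet_Ioi
  have hBp : ∀ᵐ x ∂μ, 0 < B x := by
    filter_upwards [hpos] with x hx
    rw [hB]
    positivity
  have h1 : Integrable (fun x => |w x| * (1 + B x)) μ := by
    have j1 : IntegrableOn (fun x => |wg g x| * x ^ 1 + R * (|wg g x| * x ^ 0)) (Ioi 0) := (wg_int g 1).add ((wg_int g 0).const_mul R)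
    refine j1.congr ?_
    filter_upwards [hpos] with x hx
    rw [hw, hB]
    simp only
    rw [abs_mul, abs_of_pos hx]
    field_simp
  have hf : (fun u => g ((u - s) / R)) = fun u => ∫ x, w x * Gm ((u - v x) / B x) ∂μ := by
    funext u
    have h2 := super g ((u - s) / R)
    rw [hg] at h2
    have h3 : g ((u - s) / R) = ∫ x in Ioi (0:ℝ), wg g x * x * Gm (x * ((u - s) / R)) := by linarith only [h2]
    rw [h3]
    apply setIntegral_congr_fun measurableSet_Ioi
    intro x hx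
    have hx0 : 0 < x := hx
    rw [hw, hB, hv]
    simp only
    rw [show x * ((u - s) / R) = (u - s) / (R / x) by field_simp]
  rw [hf]
  have h4 := law_fin (μ := μ) (b := fun x => Dq (Ph g) x * (1 / R ^ 2 + (1 + R) * (R ^ 2 + 2 * s ^ 2) / Y ^ 2)) hC hY hS hK.1 hK.2 hwm hBm hvm hBp h1 (rh_meas T) hM
    ((Dq_int (Ph g)).mul_const _) (by
      filter_upwards [hpos] with x hx
      rw [hw, hB, hv]
      simp only
      rw [abs_mul, abs_of_pos hx]
      have h5 : |wg g x| = x ^ 2 * (|D3 (Ph g) x| / 4) := wt_abs (Ph g) x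
      rw [h5]
      exact bd_even hx hR hY (by positivity))
  refine h4.trans ?_
  rw [integral_mul_const]
  have h6 := E_bd hR hRZ hs hZ hZY hY
  have h7 : 0 ≤ ∫ x, Dq (Ph g) x ∂μ := integral_nonneg fun x => Dq_nonneg _ x
  calc C * SN T * ((∫ x, Dq (Ph g) x ∂μ) * (1 / R ^ 2 + (1 + R) * (R ^ 2 + 2 * s ^ 2) / Y ^ 2)) ≤ C * SN T * ((∫ x, Dq (Ph g) x ∂μ) * (7 / R ^ 2)) := by gcongr
    _ = _ := by ring

lemma a1_sq_int (a : 𝓢(ℝ, ℝ)) : Integrable (fun t => |a1 a t| * (1 + 2 * t ^ 2)) := by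
  have h0 : Integrable (fun x => ‖x‖ ^ 0 * ‖a x‖) := a.integrable_pow_mul volume 0
  have h2 : Integrable (fun x => ‖x‖ ^ 2 * ‖a x‖) := a.integrable_pow_mul volume 2
  have h := h0.add (h2.const_mul 2)
  have h' := h.add h.comp_neg
  refine h'.mono' ?_ ?_
  · apply Continuous.aestronglyMeasurable
    have := a1_cont a
    fun_prop
  · filter_upwards with t
    rw [Real.norm_of_nonneg (by positivity)]
    simp only [Pi.add_apply, norm_neg, pow_zero, one_mul]
    have h3 : |a1 a t| ≤ ‖a t‖ + ‖a (-t)‖ := by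
      unfold a1
      rw [abs_div, abs_two]
      have h4 := norm_sub_le (a t) (a (-t))
      rw [Real.norm_eq_abs (a t - a (-t))] at h4
      have : 0 ≤ |a t - a (-t)| := abs_nonneg _
      linarith
    have h5 : ‖t‖ ^ 2 = t ^ 2 := by rw [Real.norm_eq_abs, sq_abs]
    rw [h5]
    calc |a1 a t| * (1 + 2 * t ^ 2) ≤ (‖a t‖ + ‖a (-t)‖) * (1 + 2 * t ^ 2) := by gcongr
      _ = _ := by ring

lemma odd_law' {a : 𝓢(ℝ, ℝ)} (ha : ∀ ξ ∈ Icc (0:ℝ) 1, ∫ t, a t * Real.sin (2 * Real.pi * t * ξ) = ξ)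
    {C Y Z T M : ℝ} (hC : 0 ≤ C) (hY : 0 < Y) (hZ : 1 ≤ Z) (hZY : Z ^ 5 = Y ^ 2) (hS : 0 ≤ SN T) (hK : KerOK C Y T) (hM : ∀ u, |rh T u| ≤ M)
    (g : 𝓢(ℝ, ℝ)) (hg : ∀ x, g (-x) = -g x) {R s : ℝ} (hR : 0 < R) (hRZ : R ≤ Z) (hs : |s| ≤ Z) :
    |EF T (rh T) (fun u => g ((u - s) / R))| ≤ C * (7 * (2 * Real.pi * (∫ x in Ioi (0:ℝ), Dq (Ph (prS g hg)) x) * ∫ t, |a1 a t| * (1 + 2 * t ^ 2))) / R ^ 2 * SN T := by
  have hpi := Real.pi_pos
  set q := wg (prS g hg) with hq
  have hqc : Continuous q := wg_cont _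
  set μ : Measure (ℝ × ℝ) := (volume.restrict (Ioi (0:ℝ))).prod volume with hμ
  set w : ℝ × ℝ → ℝ := fun p => (-(2 * Real.pi) * q p.1 * p.1 ^ 2) * a1 a p.2 with hw
  set B : ℝ × ℝ → ℝ := fun p => R / p.1 with hB
  set v : ℝ × ℝ → ℝ := fun p => s + p.2 * (R / p.1) with hv
  have hwm : Measurable w := by
    apply Continuous.measurable
    have := a1_cont a
    fun_prop
  have hBm : Measurable B := measurable_const.div measurable_fst
  have hvm : Measurable v := measurable_const.add (measurable_snd.mul (measurable_const.div measurable_fst))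
  have hpos : ∀ᵐ p : ℝ × ℝ ∂μ, 0 < p.1 := by
    have h3 := Measure.quasiMeasurePreserving_fst (μ := volume.restrict (Ioi (0:ℝ))) (ν := (volume : Measure ℝ))
    exact h3.ae (ae_restrict_mem measurableSet_Ioi)
  have hBp : ∀ᵐ p : ℝ × ℝ ∂μ, 0 < B p := by
    filter_upwards [hpos] with p hp
    rw [hB]
    positivity
  have h1 : Integrable (fun p => |w p| * (1 + B p)) μ := by
    have j1 : IntegrableOn (fun x => 2 * Real.pi * (|q x| * x ^ 2 + R * (|q x| * x ^ 1))) (Ioi 0) :=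
      ((wg_int (prS g hg) 2).add ((wg_int (prS g hg) 1).const_mul R)).const_mul _
    have j2 := Integrable.mul_prod (f := fun x => 2 * Real.pi * (|q x| * x ^ 2 + R * (|q x| * x ^ 1))) (g := fun t => |a1 a t|) j1 (a1_int a).abs
    refine j2.congr ?_
    filter_upwards [hpos] with p hp
    rw [hw, hB]
    simp only
    rw [abs_mul, abs_mul, abs_mul, abs_neg, abs_of_pos (by positivity : 0 < 2 * Real.pi), abs_of_nonneg (by positivity : 0 ≤ p.1 ^ 2)]
    field_simp
  have hf : (fun u => g ((u - s) / R)) = fun u => ∫ p, w p * Gm ((u - v p) / B p) ∂μ := by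
    funext u
    have hint := gK_int (μ := μ) hwm hBm hvm hBp h1 u
    rw [hμ, integral_prod _ hint, odd_rep g hg]
    apply setIntegral_congr_fun measurableSet_Ioi
    intro x hx
    have hx0 : 0 < x := hx
    simp only
    rw [Ho_conv' a ha, ← integral_const_mul]
    congr 1
    funext t
    rw [hw, hB, hv]
    simp only
    have e : x * ((u - s) / R) - t = (u - (s + t * (R / x))) / (R / x) := by
      field_simp
      ring
    rw [e]
    ring
  rw [hf]
  set E : ℝ := 1 / R ^ 2 + (1 + R) * (R ^ 2 + 2 * s ^ 2) / Y ^ 2 with hE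
  have hbi : Integrable (fun p : ℝ × ℝ => (2 * Real.pi * Dq (Ph (prS g hg)) p.1 * E) * (|a1 a p.2| * (1 + 2 * p.2 ^ 2))) μ := by
    have j1 : IntegrableOn (fun x => 2 * Real.pi * Dq (Ph (prS g hg)) x * E) (Ioi 0) := ((Dq_int (Ph (prS g hg))).const_mul _).mul_const _
    exact Integrable.mul_prod (f := fun x => 2 * Real.pi * Dq (Ph (prS g hg)) x * E) (g := fun t => |a1 a t| * (1 + 2 * t ^ 2)) j1 (a1_sq_int a)
  have h4 := law_fin (μ := μ) (b := fun p => (2 * Real.pi * Dq (Ph (prS g hg)) p.1 * E) * (|a1 a p.2| * (1 + 2 * p.2 ^ 2))) hC hY hS hK.1 hK.2 hwm hBm hvm hBp h1 (rh_meas T) hM hbi (by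
      filter_upwards [hpos] with p hp
      rw [hw, hB, hv]
      simp only
      rw [abs_mul, abs_mul, abs_mul, abs_neg, abs_of_pos (by positivity : 0 < 2 * Real.pi), abs_of_nonneg (by positivity : 0 ≤ p.1 ^ 2)]
      have h5 : |q p.1| = p.1 ^ 2 * (|D3 (Ph (prS g hg)) p.1| / 4) := wt_abs (Ph (prS g hg)) p.1
      rw [h5]
      have h6 := bd_odd (s := s) (t := p.2) (a := |a1 a p.2|) (d := |D3 (Ph (prS g hg)) p.1| / 4) hp hR hY (by positivity) (abs_nonneg _)
      exact h6)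
  refine h4.trans ?_
  rw [hμ, integral_prod_mul (fun x => 2 * Real.pi * Dq (Ph (prS g hg)) x * E) (fun t => |a1 a t| * (1 + 2 * t ^ 2)), integral_mul_const, integral_const_mul]
  have h6 := E_bd hR hRZ hs hZ hZY hY
  have h7 : 0 ≤ ∫ x in Ioi (0:ℝ), Dq (Ph (prS g hg)) x := integral_nonneg fun x => Dq_nonneg _ x
  have h8 : 0 ≤ ∫ t, |a1 a t| * (1 + 2 * t ^ 2) := integral_nonneg fun t => by positivity
  calc C * SN T * (2 * Real.pi * (∫ x in Ioi (0:ℝ), Dq (Ph (prS g hg)) x) * E * ∫ t, |a1 a t| * (1 + 2 * t ^ 2))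
      ≤ C * SN T * (2 * Real.pi * (∫ x in Ioi (0:ℝ), Dq (Ph (prS g hg)) x) * (7 / R ^ 2) * ∫ t, |a1 a t| * (1 + 2 * t ^ 2)) := by gcongr
    _ = _ := by ring

/-- the law for all Schwartz functions at all scales and positions up to a power of `T` -/
theorem large_scale_full : ∃ T₀ : ℝ, 3 ≤ T₀ ∧ ∀ g : 𝓢(ℝ, ℝ), ∃ K : ℝ, 0 ≤ K ∧ ∀ T : ℝ, T₀ ≤ T → ∀ R s : ℝ, 0 < R → R ≤ T ^ (1/250 : ℝ) → |s| ≤ T ^ (1/250 : ℝ) →
    |EF T (rh T) (fun u => g ((u - s) / R))| ≤ K / R ^ 2 * SN T := by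
  obtain ⟨C, hC, hev⟩ := EF_kernel
  obtain ⟨a, ha⟩ := exists_sine
  obtain ⟨T₀, hT₀⟩ := eventually_atTop.mp (hev.and ((eventually_ge_atTop 3).and (Real.tendsto_log_atTop.eventually_ge_atTop CAT)))
  refine ⟨max T₀ 3, le_max_right _ _, fun g => ?_⟩
  have hod : ∀ x, odS g (-x) = -odS g x := by
    intro x
    rw [odS_apply, odS_apply, neg_neg]
    ring
  have hevn : ∀ x, evS g (-x) = evS g x := by
    intro x
    rw [evS_apply, evS_apply, neg_neg]
    ring
  set K1 : ℝ := C * (7 * ∫ x in Ioi (0:ℝ), Dq (Ph (evS g)) x) with hK1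
  set K2 : ℝ := C * (7 * (2 * Real.pi * (∫ x in Ioi (0:ℝ), Dq (Ph (prS (odS g) hod)) x) * ∫ t, |a1 a t| * (1 + 2 * t ^ 2))) with hK2
  have hK1' : 0 ≤ K1 := by
    have : 0 ≤ ∫ x in Ioi (0:ℝ), Dq (Ph (evS g)) x := integral_nonneg fun x => Dq_nonneg _ x
    positivity
  have hK2' : 0 ≤ K2 := by
    have := Real.pi_pos
    have : 0 ≤ ∫ x in Ioi (0:ℝ), Dq (Ph (prS (odS g) hod)) x := integral_nonneg fun x => Dq_nonneg _ x
    have : 0 ≤ ∫ t, |a1 a t| * (1 + 2 * t ^ 2) := integral_nonneg fun t => by positivity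
    positivity
  refine ⟨K1 + K2, by positivity, fun T hT R s hR hRT hsT => ?_⟩
  obtain ⟨h1, h2, h3⟩ := hT₀ T ((le_max_left _ _).trans hT)
  have hT0 : 0 < T := by linarith only [h2]
  have hL := one_le_log h2
  have hL0 : 0 < Real.log T := by linarith only [hL]
  have hS := SN_pos (show 1 < T by linarith only [h2])
  have hA : |AT T| ≤ 2 := by
    have h5 := AT_close h2
    have h6 : CAT / Real.log T ≤ 1 := by rw [div_le_one hL0]; exact h3
    have h7 : |AT T| ≤ |AT T - 1| + |(1:ℝ)| := by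
      have := abs_add_le (AT T - 1) 1
      rwa [sub_add_cancel] at this
    rw [abs_one] at h7
    linarith only [h5, h6, h7]
  have hM := rh_abs h2 hA
  have hY : 0 < T ^ (1/100 : ℝ) := Real.rpow_pos_of_pos hT0 _
  have hZ : 1 ≤ T ^ (1/250 : ℝ) := Real.one_le_rpow (by linarith only [h2]) (by norm_num)
  have hZY : (T ^ (1/250 : ℝ)) ^ 5 = (T ^ (1/100 : ℝ)) ^ 2 := by
    rw [← Real.rpow_natCast, ← Real.rpow_natCast, ← Real.rpow_mul hT0.le, ← Real.rpow_mul hT0.le]
    norm_num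
  have k1 := even_law hC.le hY hZ hZY hS.le h1 hM (evS g) hevn hR hRT hsT
  have k2 := odd_law' ha hC.le hY hZ hZY hS.le h1 hM (odS g) hod hR hRT hsT
  have hsum : (fun u => g ((u - s) / R)) = fun u => evS g ((u - s) / R) + odS g ((u - s) / R) := by
    funext u
    rw [evS_apply, odS_apply]
    ring
  rw [hsum, EF_add (sch_comp_int _ hR s) (sch_comp_int _ hR s) (rh_meas T) hM]
  refine (abs_add_le _ _).trans ((add_le_add k1 k2).trans (le_of_eq ?_))
  rw [hK1, hK2]
  ring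

end Pool.Agent.Helper57.UB

end

/-! ### Helper57.UB.Berry -/

section

namespace Pool.Agent.Helper57.UB

open Set MeasureTheory Filter Topology

open Pool.Agent.Helper57.LH

open Pool.Agent.Helper57.LS

open Pool.Agent.Helper57.UV

open Pool.Agent.Helper4.PC (Tr)

open Pool.Agent.Helper57.PC (SN SN_pos pairCount)

open Pool.Agent.Helper4.PU (AT)

lemma GW_nonneg (T B v : ℝ) : 0 ≤ GW T B v := WP_nonneg fun _ => Gm_nonneg _

lemma PXc_even (X δ : ℝ) : PXc X (-δ) = PXc X δ := by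
  unfold PXc
  congr 1
  refine Finset.sum_congr rfl fun n _ => ?_
  rw [neg_mul, Real.cos_neg]

lemma QB_ii {L B0 b : ℝ} (hL : 0 < L) (hB0 : 0 < B0) (hb : B0 ≤ b) (h : ℝ) :
    IntervalIntegrable (fun B => 2 * (PXc (L / B) 0 - PXc (L / B) h) / B) volume B0 b := by
  have h1 : IntervalIntegrable (QB L h (NX (L / B0))) volume B0 b := (QB_cont L h _).intervalIntegrable _ _
  refine h1.congr ?_
  intro B hB
  rw [uIoc_of_le hb] at hB
  exact (QB_eq hL hB0 hB.1.le h).symm

lemma QB_integral {L B0 b : ℝ} (hL : 0 < L) (hB0 : 0 < B0) (hb : B0 ≤ b) (h : ℝ) :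
    ∫ B in B0..b, 2 * (PXc (L / B) 0 - PXc (L / B) h) / B = ∫ B in B0..b, QB L h (NX (L / B0)) B := by
  apply intervalIntegral.integral_congr
  intro B hB
  rw [uIcc_of_le hb] at hB
  exact QB_eq hL hB0 hB.1 h

lemma scale_ev : ∀ᶠ T : ℝ in atTop, T ^ (1/200 : ℝ) ≤ T ^ (1/100 : ℝ) / 2 ∧ 9600 ≤ T ^ (1/100 : ℝ) / 2 ∧ Real.log T ≤ T ^ (1/100 : ℝ) / 2 * Real.log 2 := by
  have hlog2 : 0 < Real.log 2 := Real.log_pos (by norm_num)
  have h1 : Tendsto (fun T : ℝ => T ^ (1/200 : ℝ)) atTop atTop := tendsto_rpow_atTop (by norm_num)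
  have h2 := (isLittleO_log_rpow_atTop (r := 1/100) (by norm_num)).bound (c := Real.log 2 / 2) (by positivity)
  filter_upwards [h1.eventually_ge_atTop 2, (tendsto_rpow_atTop (show (0:ℝ) < 1/100 by norm_num)).eventually_ge_atTop 19200, h2, eventually_ge_atTop 1] with T h3 h4 h5 h6
  have hT0 : 0 < T := by linarith only [h6]
  refine ⟨?_, by linarith only [h4], ?_⟩
  · have e : T ^ (1/100 : ℝ) = T ^ (1/200 : ℝ) * T ^ (1/200 : ℝ) := by
      rw [← Real.rpow_add hT0]; norm_num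
    rw [e, le_div_iff₀ (by norm_num)]
    have : 0 < T ^ (1/200 : ℝ) := by linarith only [h3]
    gcongr
  · rw [Real.norm_of_nonneg (Real.log_nonneg h6), Real.norm_of_nonneg (by positivity)] at h5
    linarith

/-- the law for the triangle, at all scales up to a power of `T` -/
theorem tri_law : ∃ C : ℝ, 0 ≤ C ∧ ∀ᶠ T : ℝ in atTop, ∀ X : ℝ, 0 < X → X ≤ T ^ (1/200 : ℝ) →
    |WP T (Tr X) - SN T * (AT T * X ^ 2 + (Real.log (Real.log T) -
      Real.log ‖riemannZeta (((1 + 1 / Real.log T : ℝ) : ℂ) + ((2 * Real.pi * X / Real.log T : ℝ) : ℂ) * Complex.I)‖) / Real.pi ^ 2)| ≤ C * SN T := by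
  obtain ⟨C, hC, hU⟩ := ULawP_holds
  obtain ⟨C', hC', hu⟩ := uni
  unfold ULawP at hU
  have hCM := CMe_pos
  have hKz : 0 ≤ Kz 9600 := by
    unfold Kz
    have := Kp_nonneg
    have := CNP_nonneg
    have : 0 < Real.log 2 := Real.log_pos (by norm_num)
    positivity
  refine ⟨(100 + 30 * C + 4 * C' * (1 + 9600) * 9600) + (12 * (1 + CMe) + Kz 9600), by positivity, ?_⟩
  have hz := Real.tendsto_log_atTop.eventually (zeta_cmp (B0 := 9600) (by norm_num))
  filter_upwards [hU, hu, scale_ev, hz, eventually_ge_atTop 3, Real.tendsto_log_atTop.eventually_ge_atTop 9600] with T h1 h2 h3 h4 h5 h6 X hX0 hXT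
  obtain ⟨h3a, h3b, h3c⟩ := h3
  have hL : 0 < Real.log T := by linarith only [h6]
  have hpi := Real.pi_gt_three
  have hpi2 : 1 ≤ Real.pi ^ 2 := by nlinarith only [hpi]
  have hS := SN_pos (show 1 < T by linarith only [h5])
  have hb : (9600:ℝ) ≤ T ^ (1/100 : ℝ) / 2 := h3b
  have k := comb (T := T) (S := SN T) (A := AT T) (C := C) (C' := C') (y := T ^ (1/100 : ℝ)) (B0 := 9600) (b := T ^ (1/100 : ℝ) / 2)
    (P := fun B v => PXc (Real.log T / B) (2 * Real.pi * v / Real.log T)) hX0 (hXT.trans h3a) (by norm_num) hb (by linarith only []) hS.le hC hC'.le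
    (fun B v hB => PXc_abs (by positivity) _)
    (fun B => by
      rw [show 2 * Real.pi * -X / Real.log T = -(2 * Real.pi * X / Real.log T) by ring, PXc_even])
    (by
      simp only [mul_zero, zero_div]
      exact QB_ii hL (by norm_num) hb _)
    (fun B v hB hB' hv => h1 B v hB hB' hv)
    (fun B v => GW_nonneg T B v) (fun B hB v => h2 B hB v)
  simp only [mul_zero, zero_div] at k
  rw [QB_integral hL (by norm_num) hb, QB_int hL h3c] at k
  have k2 := EN_cmp (B0 := 9600) (by norm_num) h6 (2 * Real.pi * X / Real.log T)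
  have k3 := h4 (2 * Real.pi * X / Real.log T)
  obtain ⟨W, hW⟩ : ∃ W, W = WP T (Tr X) := ⟨_, rfl⟩
  obtain ⟨Z, hZ⟩ : ∃ Z, Z = Real.log (Real.log T) - Real.log ‖riemannZeta (((1 + 1 / Real.log T : ℝ) : ℂ) + ((2 * Real.pi * X / Real.log T : ℝ) : ℂ) * Complex.I)‖ := ⟨_, rfl⟩
  obtain ⟨E1, hE1⟩ : ∃ E1, E1 = ∑ n ∈ Finset.range (NX (Real.log T / 9600) + 1), ArithmeticFunction.vonMangoldt n ^ 2 / (n * Real.log n ^ 2) * (1 - Real.cos (2 * Real.pi * X / Real.log T * Real.log n)) * Rc (9600 * (Real.log n / Real.log T)) := ⟨_, rfl⟩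
  rw [← hW, ← hE1] at k
  rw [← hE1] at k2
  rw [← hZ] at k3
  rw [← hW, ← hZ]
  have k4 : |E1 - Z| ≤ 12 * (1 + CMe) + Kz 9600 := by
    have := abs_add_le (E1 - EN (2 * Real.pi * X / Real.log T) (NX (Real.log T / 9600))) (EN (2 * Real.pi * X / Real.log T) (NX (Real.log T / 9600)) - Z)
    rw [sub_add_sub_cancel] at this
    linarith only [k3, k2, this]
  have e : W - SN T * (AT T * X ^ 2 + Z / Real.pi ^ 2) = (W - SN T * (AT T * X ^ 2 + 1 / Real.pi ^ 2 * E1)) + SN T * ((E1 - Z) / Real.pi ^ 2) := by ring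
  rw [e]
  refine (abs_add_le _ _).trans ?_
  have k5 : |SN T * ((E1 - Z) / Real.pi ^ 2)| ≤ (12 * (1 + CMe) + Kz 9600) * SN T := by
    rw [abs_mul, abs_div, abs_of_pos hS, abs_of_pos (by positivity : 0 < Real.pi ^ 2)]
    have : |E1 - Z| / Real.pi ^ 2 ≤ 12 * (1 + CMe) + Kz 9600 := by
      rw [div_le_iff₀ (by positivity)]
      refine k4.trans ?_
      exact le_mul_of_one_le_right (by positivity) hpi2
    calc SN T * (|E1 - Z| / Real.pi ^ 2) ≤ SN T * (12 * (1 + CMe) + Kz 9600) := by gcongr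
      _ = _ := by ring
  linarith only [k, k5]

/-- unconditional number variance up to a power of `T` -/
theorem berry : ∃ C T₀ : ℝ, 0 < C ∧ ∀ T : ℝ, T₀ ≤ T → ∀ X : ℝ, 0 < X → X ≤ T ^ (1/200 : ℝ) →
    |(∫ β in (0:ℝ)..X, pairCount T (-β) β) - (T * Real.log T / (2 * Real.pi)) *
        ((∫ t in (0:ℝ)..T, Real.log (t / (2 * Real.pi)) ^ 2) / (T * Real.log T ^ 2) * X ^ 2 +
          (Real.log (Real.log T) - Real.log ‖riemannZeta (1 + 1 / Real.log T + 2 * Real.pi * X / Real.log T * Complex.I)‖) / Real.pi ^ 2)| ≤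
      C * (T * Real.log T / (2 * Real.pi)) := by
  obtain ⟨C, hC, h⟩ := tri_law
  obtain ⟨T₀, hT₀⟩ := eventually_atTop.mp (h.and (eventually_ge_atTop 3))
  refine ⟨C + 1, T₀, by positivity, fun T hT X hX0 hX => ?_⟩
  obtain ⟨h1, h2⟩ := hT₀ T hT
  have h3 := h1 X hX0 hX
  have hT0 : 0 < T := by linarith only [h2]
  have hS := SN_pos (show 1 < T by linarith only [h2])
  have e1 : WP T (Tr X) = ∫ β in (0:ℝ)..X, pairCount T (-β) β := by
    have e1 : ∀ β, pairCount T (-β) β = WP T (fun u => ic (Icc (-β) β) u) := fun β => pairCount_WP T _ _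
    simp_rw [e1]
    rw [Pool.Agent.Helper4.PC.integral_WP T (fun β u => ic (Icc (-β) β) u) (fun u => Pool.Agent.Helper4.PC.ic_beta_int u 0 X)]
    congr 1; funext u
    exact Pool.Agent.Helper4.PC.Tr_int_ic hX0 u
  rw [e1, Pool.Agent.Helper4.PU.AT_eq hT0] at h3
  have e2 : ((1 + 1 / Real.log T : ℝ) : ℂ) + ((2 * Real.pi * X / Real.log T : ℝ) : ℂ) * Complex.I =
      1 + 1 / Real.log T + 2 * Real.pi * X / Real.log T * Complex.I := by push_cast; ring
  rw [e2] at h3
  have hS2 : SN T = T * Real.log T / (2 * Real.pi) := rfl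
  rw [hS2] at h3 hS
  refine h3.trans ?_
  linarith only [hS]

end Pool.Agent.Helper57.UB

end

/-! ### Helper4.PF.BE -/

section

namespace Pool.Agent.Helper4.PF

open Set MeasureTheory Filter Topology

open Pool.Agent.Helper57.Zeta

open Pool.Agent.Helper57.PC

open Pool.Agent.Helper57.LH (WP WP_mono WP_nonneg WP_add WP_smul WP_neg WP_sum CLA CLA_pos one_le_log Gm Gm_nonneg gB gB_cont gB_le gB_nonneg log_pow_le NT_le_ev ic ic_apply ic_nonneg ic_le_one pairCount_WP)

open Pool.Agent.Helper4.PC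

open Pool.Agent.Helper4.PU

lemma Wf_nonneg {B : ℝ} (hB : 0 < B) (α β u : ℝ) : 0 ≤ Wf B α β u := by
  unfold Wf
  apply integral_nonneg
  intro s
  apply mul_nonneg _ (kk_nonneg hB _)
  unfold Sw
  exact indicator_nonneg (fun _ _ => zero_le_one) _

lemma CT_Aw_abs {B : ℝ} (hB : 0 < B) {α β : ℝ} (hab : α ≤ β) : ∫ u, |CT (Aw B α β) u| = β - α := by
  have e : (fun u => |CT (Aw B α β) u|) = CT (Aw B α β) := by
    funext u
    apply abs_of_nonneg
    rw [CT_Aw hB]
    have h1 := Wf_nonneg hB α β u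
    have h2 := Wf_nonneg hB α β (-u)
    positivity
  rw [e, CT_Aw_integral hB hab]

/-- The bounded error law for windows up to a power of T. -/
theorem bounded_error_P {c K : ℝ} (hc : 0 < c) (hc1 : c ≤ 1/20) (hK : 1 ≤ K) (hP : ∀ᶠ T : ℝ in atTop, PackP c K T) :
    ∃ C : ℝ, 0 < C ∧ ∀ᶠ T : ℝ in atTop, ∀ α β : ℝ, α ≤ β → |α| ≤ T ^ (1/2 : ℝ) → |β| ≤ T ^ (1/2 : ℝ) → β - α ≤ T ^ c →
    |pairCount T α β - SN T * AT T * (β - α)| ≤ C * SN T := by
  set B₀ : ℝ := 9600 with hB₀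
  have hB0 : 0 < B₀ := by rw [hB₀]; norm_num
  have hB4 : 0 < 4 * B₀ := by positivity
  have hg := g0_pos
  have hc3 := C3_pos
  have hl := Real.tendsto_log_atTop
  have hW0 := W0_pos
  refine ⟨2 * C3 * (K * (4 * B₀)) + (8 / g0) * (2 * (K / B₀)) + 1, by positivity, ?_⟩
  filter_upwards [hP, pow_small (2 * (4 * B₀ * W0 / g0)) (s := 1/10) (by norm_num), eventually_ge_atTop (7:ℝ)] with T hT g1 g2 α β hab hα hβ hwin
  obtain ⟨hbig, hCAL, hB4L, hker, hQQ⟩ := hT
  have hT3 := hbig.h3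
  have hT1 : 1 < T := by linarith only [hc, hc1, g2]
  have hT0 : 0 < T := by linarith only [hc, hc1, g2]
  have hS := SN_pos hT1
  have hba : 0 ≤ β - α := by linarith only [hab]
  have hfin := nuS_finite hbig
  -- the scale
  obtain ⟨J, hJ1, hJ2⟩ := exists_nat_pow_near (x := max 1 ((β - α) / B₀)) (y := (2:ℝ)) (le_max_left _ _) (by norm_num)
  have hJ' : β - α ≤ 2 * (2 ^ J * B₀) := by
    have h1 : (β - α) / B₀ < 2 ^ (J + 1) := lt_of_le_of_lt (le_max_right _ _) hJ2
    rw [div_lt_iff₀ hB0, pow_succ] at h1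
    linarith only [h1]
  have hJL : 2 ^ J * B₀ ≤ T ^ c := by
    rcases le_total 1 ((β - α) / B₀) with h | h
    · rw [max_eq_right h, le_div_iff₀ hB0] at hJ1
      linarith only [hwin, hJ1]
    · rw [max_eq_left h] at hJ1
      nlinarith only [hc, hc1, hB4L, hJ1]
  have hpos : ∀ i : ℕ, 0 < 2 ^ i * B₀ := fun i => by positivity
  have hge : ∀ i : ℕ, 9600 ≤ 2 ^ i * B₀ := by
    intro i
    have : (1:ℝ) ≤ 2 ^ i := one_le_pow₀ (by norm_num)
    rw [hB₀]; linarith only [this]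
  have hle : ∀ i ∈ Finset.range (J + 1), 2 ^ i * B₀ ≤ T ^ c := by
    intro i hi
    rw [Finset.mem_range, Nat.lt_succ_iff] at hi
    refine le_trans ?_ hJL
    have : (2:ℝ) ^ i ≤ 2 ^ J := pow_le_pow_right₀ (by norm_num) hi
    gcongr
  -- main comparison
  have h1 := hQQ (CT (Aw (4 * B₀) α β)) ((β - α) * om (T ^ (1/2 : ℝ)) * (4 * B₀ * W0 / g0)) (β - α)
    (Wb_CT_Aw (by rw [hB₀]; norm_num) hab hα hβ) (CT_Aw_abs hB4 hab).le (by
      have a1 : om (T ^ (1/2 : ℝ)) ≤ 2 * T ^ (1/4 : ℝ) := by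
        unfold om
        rw [abs_of_pos (by positivity), Real.sqrt_eq_rpow, ← Real.rpow_mul hT0.le]
        have : (1:ℝ) ≤ T ^ (1/4 : ℝ) := Real.one_le_rpow hT1.le (by norm_num)
        have e : (1/2 : ℝ) * (1/2) = 1/4 := by norm_num
        rw [e]
        linarith only [this]
      have a2 := om_pos (T ^ (1/2 : ℝ))
      have a3 : β - α ≤ T ^ (1/20 : ℝ) := hwin.trans (Real.rpow_le_rpow_of_exponent_le hT1.le hc1)
      have e2 : T ^ (2/5 : ℝ) = T ^ (1/10 : ℝ) * (T ^ (1/4 : ℝ) * T ^ (1/20 : ℝ)) := by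
        rw [← Real.rpow_add hT0, ← Real.rpow_add hT0]; norm_num
      rw [e2]
      calc (β - α) * om (T ^ (1/2 : ℝ)) * (4 * B₀ * W0 / g0) ≤ T ^ (1/20 : ℝ) * (2 * T ^ (1/4 : ℝ)) * (4 * B₀ * W0 / g0) := by gcongr
        _ = (2 * (4 * B₀ * W0 / g0)) * (T ^ (1/4 : ℝ) * T ^ (1/20 : ℝ)) := by ring
        _ ≤ T ^ (1/10 : ℝ) * (T ^ (1/4 : ℝ) * T ^ (1/20 : ℝ)) := by gcongr) hwin
  rw [CT_Aw_integral hB4 hab] at h1
  have h1' : SN T / T ^ c ≤ SN T := by
    apply div_le_self hS.le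
    linarith only [hc, hc1, hB4L]
  -- the smooth part
  have h4 : |QQ (muT T) (nuS T) (CT (Aw (4 * B₀) α β))| ≤ ∑ i ∈ Finset.range (J + 1), (8 / g0) * QQ (muT T) (nuS T) (gB (2 ^ i * B₀)) := by
    have h5 := QQ_dom (muT T) (nuS T) (Aw_integrable hB4 α β)
      (A' := fun ξ => ∑ i ∈ Finset.range (J + 1), (8 / g0) * gh (2 ^ i * B₀) ξ)
      (integrable_finsetSum _ fun i _ => (gh_integrable (hpos i)).const_mul _) (Aw_dom hB0 hab J hJ')
    rw [QQ_sum _ _ _ _ _ (fun i _ => gh_integrable (hpos i))] at h5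
    refine h5.trans (le_of_eq ?_)
    apply Finset.sum_congr rfl
    intro i _
    rw [CT_gh_fun (hpos i)]
  have h5 : ∑ i ∈ Finset.range (J + 1), (8 / g0) * QQ (muT T) (nuS T) (gB (2 ^ i * B₀)) ≤ ((8 / g0) * (2 * (K / B₀))) * SN T := by
    calc ∑ i ∈ Finset.range (J + 1), (8 / g0) * QQ (muT T) (nuS T) (gB (2 ^ i * B₀))
        ≤ ∑ i ∈ Finset.range (J + 1), (8 / g0) * (SN T * ((K / B₀) / 2 ^ i)) := by
          apply Finset.sum_le_sum
          intro i hi
          have h6 := (hker (2 ^ i * B₀) (hge i) (hle i hi)).2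
          have e : K * (SN T / (2 ^ i * B₀)) = SN T * ((K / B₀) / 2 ^ i) := by field_simp
          rw [e] at h6
          gcongr
      _ = (8 / g0) * SN T * (∑ i ∈ Finset.range (J + 1), (K / B₀) / 2 ^ i) := by
          rw [Finset.mul_sum]
          apply Finset.sum_congr rfl
          intro i _
          ring
      _ ≤ (8 / g0) * SN T * (2 * (K / B₀)) := by
          have := sum_geom (K / B₀) (by positivity) J
          gcongr
      _ = _ := by ring
  have h6 : WP T (CT (Aw (4 * B₀) α β)) = WP T (Wf (4 * B₀) α β) := by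
    have e : CT (Aw (4 * B₀) α β) = fun u => (1 / 2) * (Wf (4 * B₀) α β u + Wf (4 * B₀) α β (-u)) := funext (CT_Aw hB4 α β)
    rw [e, WP_smul, WP_add, WP_neg]; ring
  -- the sharp part
  have h3 : WP T (gB (4 * B₀)) ≤ K * (SN T * (4 * B₀)) := (hker (4 * B₀) (by rw [hB₀]; norm_num) (by rw [hB₀]; linarith only [hB4L])).1
  have h7 : |WP T (ic (Icc α β)) - WP T (Wf (4 * B₀) α β)| ≤ 2 * C3 * (K * (SN T * (4 * B₀))) := by
    have e1 : WP T (ic (Icc α β)) - WP T (Wf (4 * B₀) α β) = WP T (fun u => ic (Icc α β) u - Wf (4 * B₀) α β u) := by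
      have := WP_add T (fun u => ic (Icc α β) u) (fun u => (-1) * Wf (4 * B₀) α β u)
      rw [WP_smul] at this
      have e2 : (fun u => ic (Icc α β) u - Wf (4 * B₀) α β u) = fun u => ic (Icc α β) u + (-1) * Wf (4 * B₀) α β u := by
        funext u; ring
      rw [e2, this]; ring
    have e3 : WP T (fun u => C3 * Gm ((u - α) / (4 * B₀)) + C3 * Gm ((u - β) / (4 * B₀))) ≤ 2 * C3 * (K * (SN T * (4 * B₀))) := by
      rw [WP_add, WP_smul, WP_smul]
      have a1 := (WP_shift hB4 T α).trans h3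
      have a2 := (WP_shift hB4 T β).trans h3
      have a3 : C3 * WP T (fun u => Gm ((u - α) / (4 * B₀))) ≤ C3 * (K * (SN T * (4 * B₀))) := by gcongr
      have a4 : C3 * WP T (fun u => Gm ((u - β) / (4 * B₀))) ≤ C3 * (K * (SN T * (4 * B₀))) := by gcongr
      linarith only [a3, a4]
    rw [e1]
    have hcl := Wf_close hB4 α β
    rw [abs_le]
    constructor
    · have a1 : WP T (fun u => -(C3 * Gm ((u - α) / (4 * B₀)) + C3 * Gm ((u - β) / (4 * B₀)))) ≤ WP T (fun u => ic (Icc α β) u - Wf (4 * B₀) α β u) :=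
        WP_mono (fun u => (abs_le.mp (hcl u)).1)
      have a2 : WP T (fun u => -(C3 * Gm ((u - α) / (4 * B₀)) + C3 * Gm ((u - β) / (4 * B₀)))) = - WP T (fun u => C3 * Gm ((u - α) / (4 * B₀)) + C3 * Gm ((u - β) / (4 * B₀))) := by
        have := WP_smul T (-1) (fun u => C3 * Gm ((u - α) / (4 * B₀)) + C3 * Gm ((u - β) / (4 * B₀)))
        simp only [neg_mul, one_mul] at this
        exact this
      rw [a2] at a1
      exact (neg_le_neg e3).trans a1
    · exact (WP_mono (fun u => (abs_le.mp (hcl u)).2)).trans e3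
  rw [pairCount_WP]
  rw [h6] at h1
  have b1 := abs_le.mp (h1.trans h1')
  have b2 := abs_le.mp (h4.trans h5)
  have b3 := abs_le.mp h7
  obtain ⟨c1, hc1'⟩ : ∃ c, c = 2 * C3 * (K * (4 * B₀)) := ⟨_, rfl⟩
  obtain ⟨c2, hc2'⟩ : ∃ c, c = (8 / g0) * (2 * (K / B₀)) := ⟨_, rfl⟩
  have hc1'' : 2 * C3 * (K * (SN T * (4 * B₀))) = c1 * SN T := by rw [hc1']; ring
  rw [hc1''] at b3
  rw [← hc2'] at b2
  rw [← hc1', ← hc2']
  rw [abs_le]
  constructor
  · linarith only [b1, b3, b2, b1.1, b1.2, b2.1, b2.2, b3.1, b3.2]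
  · linarith only [b1, b3, b2, b1.1, b1.2, b2.1, b2.2, b3.1, b3.2]

lemma long_indA {T C w R A : ℝ} (hC : 0 ≤ C) (hw : 0 < w) (hS : 0 ≤ SN T)
    (h : ∀ α β : ℝ, α ≤ β → |α| ≤ R → |β| ≤ R → β - α ≤ w → |pairCount T α β - A * (β - α)| ≤ C * SN T) (n : ℕ) :
    ∀ α β : ℝ, α ≤ β → |α| ≤ R → |β| ≤ R → β - α ≤ (n + 1) * w → |pairCount T α β - A * (β - α)| ≤ (n + 1) * (2 * C * SN T) := by
  induction n with
  | zero =>
    intro α β h1 h2 h3 h4
    have := h α β h1 h2 h3 (by simpa using h4)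
    have h5 : 0 ≤ C * SN T := by positivity
    refine this.trans ?_
    push_cast
    linarith only [h5]
  | succ n ih =>
    intro α β h1 h2 h3 h4
    have h5 : 0 ≤ C * SN T := by positivity
    rcases le_or_gt (β - α) w with h6 | h6
    · refine (h α β h1 h2 h3 h6).trans ?_
      push_cast
      have : (0:ℝ) ≤ n := Nat.cast_nonneg n
      nlinarith only [h5, this, mul_nonneg this h5]
    · push_cast at h4
      have hm1 : α ≤ β - w := by linarith only [h6]
      have hm2 : β - w ≤ β := by linarith only [hw]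
      have hm3 : |β - w| ≤ R := by
        rw [abs_le] at h2 h3 ⊢
        constructor <;> linarith [h2.1, h3.2]
      have k1 := abs_le.mp (ih α (β - w) hm1 h2 hm3 (by linarith only [h4]))
      have k2 := abs_le.mp (h (β - w) β hm2 hm3 h3 (by linarith only []))
      have k3 := abs_le.mp (h (β - w) (β - w) le_rfl hm3 hm3 (by linarith only [hw]))
      have k4 := pairCount_split T α (β - w) β
      have k5 := pairCount_super T hm1 hm2
      rw [sub_self, mul_zero, sub_zero] at k3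
      have e1 : A * (β - w - α) + A * (β - (β - w)) = A * (β - α) := by ring
      rw [abs_le]
      push_cast
      constructor
      · linarith only [k1, k2, k3, k5, k1.1, k2.1, k3.2]
      · linarith only [h5, k1, k2, k4, k1.2, k2.2]

theorem long_windows_P {c C : ℝ} (hc : 0 < c) (hC : 0 < C) (h : ∀ᶠ T : ℝ in atTop, ∀ α β : ℝ, α ≤ β → |α| ≤ T ^ (1/2 : ℝ) → |β| ≤ T ^ (1/2 : ℝ) → β - α ≤ T ^ c →
      |pairCount T α β - SN T * AT T * (β - α)| ≤ C * SN T) :
    ∀ᶠ T : ℝ in atTop, ∀ α β : ℝ, α ≤ β → |α| ≤ T ^ (1/2 : ℝ) → |β| ≤ T ^ (1/2 : ℝ) →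
      |pairCount T α β - SN T * AT T * (β - α)| ≤ 2 * C * (1 + (β - α) / T ^ c) * SN T := by
  filter_upwards [h, eventually_gt_atTop 1] with T hT hT1 α β hab hα hβ
  have hS := SN_pos hT1
  have hw : 0 < T ^ c := by positivity
  have hba : 0 ≤ β - α := by linarith only [hab]
  have hn := Nat.lt_floor_add_one ((β - α) / T ^ c)
  have hn2 := Nat.floor_le (show 0 ≤ (β - α) / T ^ c by positivity)
  set n := ⌊(β - α) / T ^ c⌋₊ with hnd
  rw [div_lt_iff₀ hw] at hn
  have h1 := long_indA hC.le hw hS.le hT n α β hab hα hβ hn.le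
  refine h1.trans ?_
  calc ((n:ℝ) + 1) * (2 * C * SN T) ≤ (1 + (β - α) / T ^ c) * (2 * C * SN T) := by
        have h2 : 0 ≤ 2 * C * SN T := by positivity
        have h3 : (n:ℝ) + 1 ≤ 1 + (β - α) / T ^ c := by linarith only [hn2]
        exact mul_le_mul_of_nonneg_right h3 h2
    _ = _ := by ring

end Pool.Agent.Helper4.PF

end

/-! ### Helper4.PF.Main -/

section

namespace Pool.Agent.Helper4.PF

open Set MeasureTheory Filter Topology

open Pool.Agent.Helper57.Zeta

open Pool.Agent.Helper57.PC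

open Pool.Agent.Helper4.PC

open Pool.Agent.Helper4.PU

/-- bounded error for all windows up to a power of `T`, anywhere up to `√T`, with the exact mean value -/
theorem bounded_full {c θ C C' : ℝ} (hc : 0 < c) (hc1 : c ≤ 1/20) (hθ : 0 ≤ θ) (hcθ : 2 * c + θ < 1) (hC : 0 ≤ C) (hC' : 0 ≤ C')
    (hU : ULP c C) (hN : NLP θ C') :
    ∃ D : ℝ, 0 < D ∧ ∀ᶠ T : ℝ in atTop, ∀ α β : ℝ, α ≤ β → |α| ≤ Real.sqrt T → |β| ≤ Real.sqrt T →
      |pairCount T α β - SN T * AT T * (β - α)| ≤ D * (1 + (β - α) / T ^ c) * SN T := by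
  obtain ⟨K, hK, hP⟩ := exists_packP hc hc1 hθ hcθ hC hC' hU hN
  obtain ⟨C2, hC2, hB⟩ := bounded_error_P hc hc1 hK hP
  have hL := long_windows_P hc hC2 hB
  refine ⟨2 * C2, by linarith only [hC2], ?_⟩
  filter_upwards [hL] with T hT α β hab hα hβ
  rw [Real.sqrt_eq_rpow] at hα hβ
  exact hT α β hab hα hβ

/-- the same with the pair correlation density -/
theorem bounded_full_F {c θ C C' : ℝ} (hc : 0 < c) (hc1 : c ≤ 1/20) (hθ : 0 ≤ θ) (hcθ : 2 * c + θ < 1) (hC : 0 ≤ C) (hC' : 0 ≤ C')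
    (hU : ULP c C) (hN : NLP θ C') :
    ∃ D : ℝ, 0 < D ∧ ∀ᶠ T : ℝ in atTop, ∀ α β : ℝ, 0 < α → α < β → β ≤ Real.sqrt T →
      |pairCount T α β - SN T * ∫ u in α..β, (pcDensity u + (AT T - 1))| ≤ D * (1 + (β - α) / T ^ c) * SN T := by
  obtain ⟨D, hD, h⟩ := bounded_full hc hc1 hθ hcθ hC hC' hU hN
  refine ⟨D + 1, by linarith, ?_⟩
  filter_upwards [h, eventually_gt_atTop 1] with T hT hT1 α β hα hαβ hβ
  have hS := SN_pos hT1
  have h1 := abs_le.mp (hT α β hαβ.le (by rw [abs_of_pos hα]; linarith only [hαβ, hβ]) (by rw [abs_of_pos (by linarith only [hα, hαβ])]; exact hβ))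
  have h2 := abs_le.mp (int_F_close hα.le hαβ.le)
  have e : ∫ u in α..β, (pcDensity u + (AT T - 1)) = (∫ u in α..β, pcDensity u) + (AT T - 1) * (β - α) := by
    rw [intervalIntegral.integral_add (intervalIntegrable_pcDensity _ _) intervalIntegrable_const, intervalIntegral.integral_const, smul_eq_mul]
    ring
  rw [e]
  have h3 : 0 ≤ (β - α) / T ^ c := div_nonneg (by linarith only [hαβ]) (by positivity)
  have e2 : (D + 1) * (1 + (β - α) / T ^ c) * SN T = D * (1 + (β - α) / T ^ c) * SN T + (1 + (β - α) / T ^ c) * SN T := by ring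
  have h5 : 1 * SN T ≤ (1 + (β - α) / T ^ c) * SN T := by
    apply mul_le_mul_of_nonneg_right _ hS.le
    linarith only [h3]
  have a1 : SN T * ((∫ u in α..β, pcDensity u) - (β - α)) ≤ SN T * (1 / 2) := by
    apply mul_le_mul_of_nonneg_left h2.2 hS.le
  have a2 : SN T * (-(1 / 2)) ≤ SN T * ((∫ u in α..β, pcDensity u) - (β - α)) := by
    apply mul_le_mul_of_nonneg_left h2.1 hS.le
  rw [e2, abs_le]
  constructor
  · nlinarith only [hS, h1, h5, a1, h1.1, h1.2]
  · nlinarith only [hS, h1, h5, a2, h1.1, h1.2]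

end Pool.Agent.Helper4.PF

end
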