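import Pool.Agent.Helper13.M.DefsC

/-!
# Project M, block G2M: Brun-Titchmarsh with several options for every root

The conditions and the characters of an option depend only on its root: so this is block G2.
-/

set_option autoImplicit false

namespace Pool.Agent.HG

open Polynomial NumberField IsDedekindDomain

/-- **BLOCK G2M** -/
theorem g2M : StmtG2M := by
  intro hG2 hBTL hM k L _ _ _ _ _ _ f X hm hfin ι Vι g ε hε
  obtain ⟨C, A, hC, h⟩ := hG2 hBTL hM k L f X hm hfin (fun _ _ _ => 1) ε hε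
  refine ⟨C, A, hC, fun j m hmEx τ hτ t h' hh hN S hS => ?_⟩
  refine h j m hmEx (fun p => (τ p).1) (fun p hp => (Finset.mem_sigma.1 (hτ p hp)).1) t h' hh hN S
    fun Q hQ => ?_
  obtain ⟨h1, h2, h3, o, ho, hoj, hχ⟩ := hS Q hQ
  exact ⟨h1, h2, h3, o.1, (Finset.mem_sigma.1 ho).1, hoj, hχ⟩

end Pool.Agent.HG
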