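import Pool.Agent.Helper13.M.Defs

/-!
# Project M, block COC: Hilbert 90 for signs
-/

set_option autoImplicit false

namespace Pool.Agent.M

theorem coc : StmtCOC := by
  intro k E _ _ _ _ _ S _ _ ε hε hL
  classical
  choose L hLf hLε using hL
  -- one field
  let L' : IntermediateField k E := ⨆ π, L π
  have hfin : FiniteDimensional k L' := IntermediateField.finiteDimensional_iSup_of_finite
  have hle : ∀ π, L π ≤ L' := le_iSup L
  have htriv : ∀ g : E ≃ₐ[k] E, (∀ x ∈ L', g x = x) → ∀ π, ε g π = 1 ∧ g • π = π :=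
    fun g hg π => hLε π g fun x hx => hg x (hle π hx)
  have hcomp : ∀ g g' : E ≃ₐ[k] E, (∀ x ∈ L', g x = g' x) →
      ∀ π, ε g π = ε g' π ∧ g⁻¹ • π = g'⁻¹ • π := by
    intro g g' h π
    have h1 : ∀ x ∈ L', (g'⁻¹ * g) x = x := by
      intro x hx
      rw [AlgEquiv.mul_apply, h x hx]
      exact g'.symm_apply_apply x
    have h2 : g = g' * (g'⁻¹ * g) := by group
    have h3 : ∀ π : S, g • π = g' • π := by
      intro π
      conv_lhs => rw [h2, mul_smul, (htriv _ h1 π).2]
    constructor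
    · conv_lhs => rw [h2, hε, (htriv _ h1 π).1, (htriv _ h1 π).2, one_mul]
    · rw [eq_comm, inv_smul_eq_iff, ← h3, smul_inv_smul]
  -- lifts of the embeddings
  have hlift : ∀ φ : L' →ₐ[k] E, ∃ g : E ≃ₐ[k] E, ∀ x : L', g x = φ x := by
    intro φ
    refine ⟨AlgEquiv.ofBijective (φ.liftNormal E) (AlgHom.normal_bijective k E E _), fun x => ?_⟩
    exact AlgHom.liftNormal_commutes φ E x
  choose G hG using hlift
  let c : S → (L' →ₐ[k] E) → ℤˣ := fun π φ => ε (G φ) ((G φ)⁻¹ • π)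
  let T : S → (L' →ₗ[k] E) := fun π => ∑ φ : L' →ₐ[k] E, ((c π φ : ℤ) : E) • φ.toLinearMap
  have hT : ∀ π, T π ≠ 0 := by
    intro π h
    have h1 := (Fintype.linearIndependent_iff.1 (linearIndependent_toLinearMap k L' E))
      (fun φ => ((c π φ : ℤ) : E)) h L'.val
    rcases Int.units_eq_one_or (c π L'.val) with h2 | h2
    · simp [h2] at h1
    · simp [h2] at h1
  -- a good element
  obtain ⟨x, hx⟩ : ∃ x : L', ∀ π, T π x ≠ 0 := by
    by_contra hcon
    push Not at hcon
    have h1 : ⊤ ∉ Finset.image (fun π => LinearMap.ker (T π))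
        (@Finset.univ S (Fintype.ofFinite S)) := by
      intro h2
      obtain ⟨π, -, h3⟩ := Finset.mem_image.1 h2
      exact hT π (LinearMap.ker_eq_top.1 h3)
    refine Subspace.biUnion_ne_univ_of_top_notMem h1 (Set.eq_univ_of_forall fun x => ?_)
    obtain ⟨π, hπ⟩ := hcon x
    refine Set.mem_iUnion₂.2 ⟨LinearMap.ker (T π), ?_, hπ⟩
    exact Finset.mem_image.2 ⟨π, @Finset.mem_univ S (Fintype.ofFinite S) π, rfl⟩
  refine ⟨fun π => T π x, hx, fun g π => ?_⟩
  have hTx : ∀ π, T π x = ∑ φ : L' →ₐ[k] E, ((c π φ : ℤ) : E) * φ x := by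
    intro π
    simp [T, LinearMap.sum_apply]
  -- composition with `g`
  let e : (L' →ₐ[k] E) ≃ (L' →ₐ[k] E) :=
    { toFun := fun φ => (g : E →ₐ[k] E).comp φ
      invFun := fun φ => ((g⁻¹ : E ≃ₐ[k] E) : E →ₐ[k] E).comp φ
      left_inv := fun φ => by
        ext y
        exact g.symm_apply_apply (φ y)
      right_inv := fun φ => by
        ext y
        exact g.apply_symm_apply (φ y) }
  have hc : ∀ φ, c π φ = ε g π * c (g • π) (e φ) := by
    intro φ
    have h1 : ∀ y ∈ L', G (e φ) y = (g * G φ) y := by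
      intro y hy
      have h2 := hG (e φ) ⟨y, hy⟩
      have h3 := hG φ ⟨y, hy⟩
      change G (e φ) y = _ at h2
      change G φ y = _ at h3
      rw [h2, AlgEquiv.mul_apply, h3]
      rfl
    have h2 : c (g • π) (e φ) = ε (g * G φ) ((g * G φ)⁻¹ • g • π) := by
      change ε (G (e φ)) ((G (e φ))⁻¹ • g • π) = _
      rw [(hcomp _ _ h1 _).1, (hcomp _ _ h1 _).2]
    have h3 : (g * G φ)⁻¹ • g • π = (G φ)⁻¹ • π := by
      rw [mul_inv_rev, mul_smul, inv_smul_smul]
    rw [h2, h3, hε, smul_inv_smul]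
    change ε (G φ) ((G φ)⁻¹ • π) = _
    rw [mul_comm, mul_assoc, Int.units_mul_self, mul_one]
  change g (T π x) = ((ε g π : ℤ) : E) * T (g • π) x
  rw [hTx, hTx, map_sum, Finset.mul_sum]
  refine Fintype.sum_equiv e _ _ fun φ => ?_
  rw [map_mul, map_intCast, hc φ]
  push_cast
  rw [mul_assoc]
  rfl

end Pool.Agent.M
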