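import Mathlib

/-!
# Merged library file (short import chain), part B
-/

namespace Pool.Agent.Helper57.Zeta
end Pool.Agent.Helper57.Zeta

/-! ### Helper57.LH.Digam -/

section

namespace Pool.Agent.Helper57.LH

open Complex Set MeasureTheory Filter Topology Metric

/-- real digamma -/
noncomputable def dg (x : ℝ) : ℝ := deriv Real.Gamma x / Real.Gamma x

lemma ne_neg_nat {x : ℝ} (hx : 0 < x) (m : ℕ) : (x : ℂ) ≠ -m := by
  intro h
  have := congrArg Complex.re h
  simp at this
  have : (0:ℝ) ≤ m := Nat.cast_nonneg m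
  linarith

lemma ne_neg_nat_re {s : ℂ} (hs : 0 < s.re) (m : ℕ) : s ≠ -m := by
  intro h
  have := congrArg Complex.re h
  simp at this
  have : (0:ℝ) ≤ m := Nat.cast_nonneg m
  linarith

lemma digamma_ofReal {x : ℝ} (hx : 0 < x) : Complex.digamma (x : ℂ) = ((dg x : ℝ) : ℂ) := by
  have h1 : HasDerivAt (fun y : ℝ => Complex.Gamma (y : ℂ)) (deriv Complex.Gamma (x : ℂ)) x :=
    ((Complex.differentiableAt_Gamma (x:ℂ) (ne_neg_nat hx)).hasDerivAt).comp_ofReal
  have h2 : HasDerivAt (fun y : ℝ => ((Real.Gamma y : ℝ) : ℂ)) ((deriv Real.Gamma x : ℝ) : ℂ) x :=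
    ((Real.differentiableAt_Gamma (s := x) (fun m h => by
      have : (0:ℝ) ≤ m := Nat.cast_nonneg m
      linarith only [hx, h])).hasDerivAt).ofReal_comp
  have h3 : (fun y : ℝ => Complex.Gamma (y : ℂ)) = fun y : ℝ => ((Real.Gamma y : ℝ) : ℂ) := by
    funext y; exact Complex.Gamma_ofReal y
  rw [h3] at h1
  have h4 := h1.unique h2
  rw [Complex.digamma_def, logDeriv_apply, h4, Complex.Gamma_ofReal]
  unfold dg
  push_cast
  rfl

lemma deriv_logGamma {x : ℝ} (hx : 0 < x) : deriv (Real.log ∘ Real.Gamma) x = dg x := by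
  have hd : DifferentiableAt ℝ Real.Gamma x := Real.differentiableAt_Gamma (s := x) (fun m h => by
      have : (0:ℝ) ≤ m := Nat.cast_nonneg m
      linarith)
  have := (hd.hasDerivAt.log (Real.Gamma_pos_of_pos hx).ne').deriv
  unfold dg
  rw [← this]
  rfl

lemma dg_le_log {x : ℝ} (hx : 0 < x) : dg x ≤ Real.log x := by
  have hd : DifferentiableAt ℝ (Real.log ∘ Real.Gamma) x := by
    have h1 : DifferentiableAt ℝ Real.Gamma x := Real.differentiableAt_Gamma (s := x) (fun m h => by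
      have : (0:ℝ) ≤ m := Nat.cast_nonneg m
      linarith)
    exact (Real.differentiableAt_log (Real.Gamma_pos_of_pos hx).ne').comp x h1
  have h := Real.convexOn_log_Gamma.deriv_le_slope (mem_Ioi.mpr hx) (mem_Ioi.mpr (show 0 < x + 1 by linarith)) (by linarith) hd
  rw [deriv_logGamma hx] at h
  refine h.trans (le_of_eq ?_)
  rw [slope_def_field]
  simp only [Function.comp_apply, add_sub_cancel_left, div_one]
  rw [Real.Gamma_add_one hx.ne', Real.log_mul hx.ne' (Real.Gamma_pos_of_pos hx).ne']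
  ring

lemma log_le_dg {x : ℝ} (hx : 0 < x) : Real.log x ≤ dg (x + 1) := by
  have hx1 : 0 < x + 1 := by linarith
  have hd : DifferentiableAt ℝ (Real.log ∘ Real.Gamma) (x + 1) := by
    have h1 : DifferentiableAt ℝ Real.Gamma (x + 1) := Real.differentiableAt_Gamma (s := x + 1) (fun m h => by
      have : (0:ℝ) ≤ m := Nat.cast_nonneg m
      linarith)
    exact (Real.differentiableAt_log (Real.Gamma_pos_of_pos hx1).ne').comp _ h1
  have h := Real.convexOn_log_Gamma.slope_le_deriv (mem_Ioi.mpr hx) (mem_Ioi.mpr hx1) (by linarith) hd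
  rw [deriv_logGamma hx1] at h
  refine le_trans (le_of_eq ?_) h
  rw [slope_def_field]
  simp only [Function.comp_apply, add_sub_cancel_left, div_one]
  rw [Real.Gamma_add_one hx.ne', Real.log_mul hx.ne' (Real.Gamma_pos_of_pos hx).ne']
  ring

lemma digamma_add_nat {s : ℂ} (hs : 0 < s.re) (n : ℕ) :
    Complex.digamma (s + n) = Complex.digamma s + ∑ k ∈ Finset.range n, 1 / ((k:ℂ) + s) := by
  induction n with
  | zero => simp
  | succ n ih =>
    rw [Finset.sum_range_succ, ← add_assoc, ← ih]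
    push_cast
    rw [← add_assoc, Complex.digamma_apply_add_one (s + n) (ne_neg_nat_re (by simp; positivity))]
    rw [one_div, add_comm (n:ℂ) s]

lemma term_bound {M : ℝ} {s : ℂ} (h1 : 1 / 2 < s.re) (h2 : ‖s‖ < M) (n : ℕ) :
    ‖1 / ((n:ℂ) + 1) - 1 / ((n:ℂ) + s)‖ ≤ (M + 1) * (4 / ((n:ℝ) + 1) ^ 2) := by
  have hn0 : (0:ℝ) ≤ n := Nat.cast_nonneg n
  have hn1 : (n:ℂ) + 1 ≠ 0 := by exact_mod_cast Nat.succ_ne_zero n
  have hre : (n:ℝ) + 1 / 2 ≤ ‖(n:ℂ) + s‖ := by
    have := Complex.re_le_norm ((n:ℂ) + s)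
    simp at this
    linarith
  have hns : (n:ℂ) + s ≠ 0 := by
    intro h; rw [h, norm_zero] at hre; linarith only [hre]
  have e : 1 / ((n:ℂ) + 1) - 1 / ((n:ℂ) + s) = (s - 1) / (((n:ℂ) + 1) * ((n:ℂ) + s)) := by
    field_simp
    ring
  rw [e, norm_div, norm_mul]
  have h3 : ‖(n:ℂ) + 1‖ = (n:ℝ) + 1 := by
    have : ((n:ℂ) + 1) = ((n + 1 : ℝ) : ℂ) := by push_cast; rfl
    rw [this, Complex.norm_real, Real.norm_of_nonneg (by positivity)]
  rw [h3]
  have h4 : ‖s - 1‖ ≤ M + 1 := by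
    have := norm_sub_le s 1
    rw [norm_one] at this
    linarith only [h2, this]
  have hM : 0 < M := lt_of_le_of_lt (norm_nonneg s) h2
  calc ‖s - 1‖ / (((n:ℝ) + 1) * ‖(n:ℂ) + s‖) ≤ (M + 1) / (((n:ℝ) + 1) * ((n:ℝ) + 1 / 2)) := by gcongr
    _ ≤ (M + 1) / (((n:ℝ) + 1) * (((n:ℝ) + 1) / 4)) := by
        gcongr
        linarith only []
    _ = _ := by field_simp

lemma summable_sq (M : ℝ) : Summable (fun n : ℕ => (M + 1) * (4 / ((n:ℝ) + 1) ^ 2)) := by
  apply Summable.mul_left
  have h := (summable_nat_add_iff 1).mpr (Real.summable_one_div_nat_pow.mpr (show 1 < 2 by norm_num))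
  refine (h.mul_left 4).congr fun n => ?_
  push_cast
  ring

lemma digam_summable {s : ℂ} (h1 : 1 / 2 < s.re) : Summable (fun n : ℕ => 1 / ((n:ℂ) + 1) - 1 / ((n:ℂ) + s)) :=
  Summable.of_norm_bounded (summable_sq (‖s‖ + 1)) (fun n => term_bound h1 (by linarith only []) n)

lemma digam_real {x : ℝ} (hx : 1 / 2 < x) :
    ∑' n : ℕ, (1 / ((n:ℂ) + 1) - 1 / ((n:ℂ) + (x:ℂ))) = Complex.digamma x + Real.eulerMascheroniConstant := by
  have hx0 : 0 < x := by linarith
  have h1 := (digam_summable (s := (x:ℂ)) (by simpa using hx)).hasSum.tendsto_sum_nat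
  refine tendsto_nhds_unique h1 ?_
  have e : ∀ N : ℕ, ∑ n ∈ Finset.range N, (1 / ((n:ℂ) + 1) - 1 / ((n:ℂ) + (x:ℂ))) =
      (((harmonic N : ℝ) - Real.log N : ℝ) : ℂ) + ((Real.log N - dg (x + N) : ℝ) : ℂ) + ((dg x : ℝ) : ℂ) := by
    intro N
    rw [Finset.sum_sub_distrib]
    have h2 := digamma_add_nat (s := (x:ℂ)) (by simpa using hx0) N
    have h3 : ∑ k ∈ Finset.range N, 1 / ((k:ℂ) + (x:ℂ)) = ((dg (x + N) : ℝ) : ℂ) - ((dg x : ℝ) : ℂ) := by
      rw [digamma_ofReal hx0] at h2
      rw [show (x:ℂ) + (N:ℂ) = ((x + N : ℝ) : ℂ) by push_cast; rfl, digamma_ofReal (by positivity)] at h2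
      rw [h2]; ring
    rw [h3]
    have h4 : ∑ n ∈ Finset.range N, 1 / ((n:ℂ) + 1) = ((harmonic N : ℝ) : ℂ) := by
      unfold harmonic
      push_cast
      refine Finset.sum_congr rfl fun n _ => ?_
      rw [one_div]
    rw [h4]
    push_cast
    ring
  simp_rw [e]
  rw [digamma_ofReal hx0, add_comm ((dg x : ℝ) : ℂ)]
  apply Tendsto.add _ tendsto_const_nhds
  have h5 : Tendsto (fun N : ℕ => ((harmonic N : ℝ) - Real.log N) + (Real.log N - dg (x + N))) atTop
      (𝓝 (Real.eulerMascheroniConstant + 0)) := by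
    apply Tendsto.add Real.tendsto_harmonic_sub_log
    have hA : Tendsto (fun N : ℕ => Real.log ((N:ℝ) + x) - Real.log N) atTop (𝓝 0) :=
      (Real.tendsto_log_comp_add_sub_log x).comp tendsto_natCast_atTop_atTop
    have hB : Tendsto (fun N : ℕ => Real.log ((N:ℝ) + (x - 1)) - Real.log N) atTop (𝓝 0) :=
      (Real.tendsto_log_comp_add_sub_log (x - 1)).comp tendsto_natCast_atTop_atTop
    have hA' := hA.neg
    have hB' := hB.neg
    rw [neg_zero] at hA' hB'
    refine tendsto_of_tendsto_of_tendsto_of_le_of_le' hA' hB' ?_ ?_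
    · filter_upwards with N
      have := dg_le_log (x := x + N) (by positivity)
      rw [add_comm (N:ℝ) x]
      linarith only [this]
    · filter_upwards [eventually_ge_atTop 1] with N hN
      have hN1 : (1:ℝ) ≤ N := by exact_mod_cast hN
      have := log_le_dg (x := (N:ℝ) + (x - 1)) (by linarith only [hx, hN1])
      rw [show (N:ℝ) + (x - 1) + 1 = x + N by ring] at this
      linarith
  rw [add_zero] at h5
  have h6 := (Complex.continuous_ofReal.tendsto _).comp h5
  refine h6.congr fun N => ?_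
  simp only [Function.comp_apply]
  push_cast
  ring

/-- The series of the digamma function. -/
theorem digamma_hasSum {s : ℂ} (hs : 1 / 2 < s.re) :
    HasSum (fun n : ℕ => 1 / ((n:ℂ) + 1) - 1 / ((n:ℂ) + s)) (Complex.digamma s + Real.eulerMascheroniConstant) := by
  have h := (digam_summable hs).hasSum
  suffices h2 : ∑' n : ℕ, (1 / ((n:ℂ) + 1) - 1 / ((n:ℂ) + s)) = Complex.digamma s + Real.eulerMascheroniConstant by
    rwa [h2] at h
  set M : ℝ := ‖s‖ + 2 with hM
  set U : Set ℂ := {z | 1 / 2 < z.re} ∩ ball 0 M with hU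
  have hUo : IsOpen U := (isOpen_lt continuous_const Complex.continuous_re).inter isOpen_ball
  have hUc : IsPreconnected U := ((convex_halfSpace_re_gt (1/2)).inter (convex_ball 0 M)).isPreconnected
  have hmem : ∀ z ∈ U, 1 / 2 < z.re ∧ ‖z‖ < M := by
    intro z hz
    exact ⟨hz.1, by simpa using hz.2⟩
  have hf : AnalyticOnNhd ℂ (fun z => ∑' n : ℕ, (1 / ((n:ℂ) + 1) - 1 / ((n:ℂ) + z))) U := by
    apply DifferentiableOn.analyticOnNhd _ hUo
    apply differentiableOn_tsum_of_summable_norm (summable_sq M)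
    · intro n z hz
      have hne : (n:ℂ) + z ≠ 0 := by
        intro h0
        have := congrArg Complex.re h0
        simp at this
        have h3 := (hmem z hz).1
        have : (0:ℝ) ≤ n := Nat.cast_nonneg n
        linarith
      apply DifferentiableAt.differentiableWithinAt
      apply DifferentiableAt.sub (differentiableAt_const _)
      exact (differentiableAt_const _).div (by fun_prop) hne
    · exact hUo
    · intro n z hz
      exact term_bound (hmem z hz).1 (hmem z hz).2 n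
  have hg : AnalyticOnNhd ℂ (fun z => Complex.digamma z + Real.eulerMascheroniConstant) U := by
    have hGam : DifferentiableOn ℂ Complex.Gamma {z | 0 < z.re} := fun z hz =>
      (Complex.differentiableAt_Gamma z (ne_neg_nat_re hz)).differentiableWithinAt
    have hV : IsOpen {z : ℂ | 0 < z.re} := isOpen_lt continuous_const Complex.continuous_re
    apply DifferentiableOn.analyticOnNhd _ hUo
    intro z hz
    have hz0 : 0 < z.re := by have := (hmem z hz).1; linarith only [this]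
    have h1 : DifferentiableAt ℂ (deriv Complex.Gamma) z :=
      ((hGam.analyticOnNhd hV) z hz0).deriv.differentiableAt
    have h2 : DifferentiableAt ℂ Complex.Gamma z := Complex.differentiableAt_Gamma z (ne_neg_nat_re hz0)
    have h3 : DifferentiableAt ℂ Complex.digamma z := by
      rw [Complex.digamma_def]
      exact h1.div h2 (Complex.Gamma_ne_zero_of_re_pos hz0)
    exact (h3.add_const _).differentiableWithinAt
  have h1U : (1:ℂ) ∈ U := by
    constructor
    · simp; norm_num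
    · simp [hM]; have := norm_nonneg s; linarith only [this]
  have hfreq : ∃ᶠ z in 𝓝[≠] (1:ℂ), (∑' n : ℕ, (1 / ((n:ℂ) + 1) - 1 / ((n:ℂ) + z))) =
      Complex.digamma z + Real.eulerMascheroniConstant := by
    have ht : Tendsto (fun k : ℕ => ((1 + 1 / ((k:ℝ) + 1) : ℝ) : ℂ)) atTop (𝓝[≠] (1:ℂ)) := by
      rw [tendsto_nhdsWithin_iff]
      constructor
      · have h1 : Tendsto (fun k : ℕ => (1 + 1 / ((k:ℝ) + 1) : ℝ)) atTop (𝓝 (1 + 0)) :=
          tendsto_const_nhds.add tendsto_one_div_add_atTop_nhds_zero_nat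
        rw [add_zero] at h1
        have h2 := (Complex.continuous_ofReal.tendsto _).comp h1
        rw [Complex.ofReal_one] at h2
        exact h2
      · filter_upwards with k
        simp only [mem_compl_iff, mem_singleton_iff]
        intro h
        have := congrArg Complex.re h
        rw [Complex.ofReal_re, Complex.one_re] at this
        have : (0:ℝ) < 1 / ((k:ℝ) + 1) := by positivity
        linarith
    apply ht.frequently
    apply Eventually.frequently
    filter_upwards with k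
    apply digam_real
    have : (0:ℝ) < 1 / ((k:ℝ) + 1) := by positivity
    linarith
  have := hf.eqOn_of_preconnected_of_frequently_eq hg hUc h1U hfreq
  exact this (show s ∈ U from ⟨hs, by simp [hM]⟩)

end Pool.Agent.Helper57.LH

end

/-! ### Helper57.LH.Kern -/

section

namespace Pool.Agent.Helper57.LH

open Complex Set MeasureTheory Filter Topology

open scoped FourierTransform

/-- the basic integral -/
noncomputable def JJ (X : ℝ) (z : ℂ) : ℂ := ∫ x in (0:ℝ)..X, ((1 - x / X : ℝ) : ℂ) * cexp (z * x)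

lemma JJ_eq {X : ℝ} (hX : 0 < X) {z : ℂ} (hz : z ≠ 0) :
    JJ X z = -(1 / z) + (cexp (z * X) - 1) / (X * z ^ 2) := by
  unfold JJ
  have hX' : (X : ℂ) ≠ 0 := by exact_mod_cast hX.ne'
  have hd : ∀ x ∈ uIcc (0:ℝ) X, HasDerivAt (fun x : ℝ => ((1 - x / X : ℝ) : ℂ) * cexp (z * x) / z + cexp (z * x) / (X * z ^ 2))
      (((1 - x / X : ℝ) : ℂ) * cexp (z * x)) x := by
    intro x _
    have h1 : HasDerivAt (fun x : ℝ => ((1 - x / X : ℝ) : ℂ)) (((-(1 / X) : ℝ)) : ℂ) x := by
      apply HasDerivAt.ofReal_comp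
      have := ((hasDerivAt_id x).div_const X).const_sub 1
      simpa using this
    have h2 : HasDerivAt (fun x : ℝ => cexp (z * x)) (cexp (z * x) * z) x := by
      have h3 : HasDerivAt (fun w : ℂ => cexp (z * w)) (cexp (z * x) * z) (x : ℂ) := by
        have := ((hasDerivAt_id (x:ℂ)).const_mul z).cexp
        simpa using this
      exact h3.comp_ofReal
    have h4 := ((h1.fun_mul h2).div_const z).fun_add (h2.div_const (X * z ^ 2))
    refine h4.congr_deriv ?_
    push_cast
    field_simp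
    ring
  rw [intervalIntegral.integral_eq_sub_of_hasDerivAt hd]
  · simp only [div_self hX.ne', sub_self, Complex.ofReal_zero, zero_mul, zero_div, mul_zero, Complex.exp_zero, sub_zero,
      Complex.ofReal_one]
    ring
  · apply Continuous.intervalIntegrable
    fun_prop

lemma JJ_re (X a w : ℝ) : (JJ X (a + w * I)).re = ∫ x in (0:ℝ)..X, (1 - x / X) * (Real.exp (a * x) * Real.cos (w * x)) := by
  unfold JJ
  have hi : IntervalIntegrable (fun x : ℝ => ((1 - x / X : ℝ) : ℂ) * cexp ((a + w * I) * x)) volume 0 X := by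
    apply Continuous.intervalIntegrable
    fun_prop
  have h := Complex.reCLM.intervalIntegral_comp_comm hi
  simp only [Complex.reCLM_apply] at h
  rw [← h]
  apply intervalIntegral.integral_congr
  intro x _
  simp only
  rw [Complex.re_ofReal_mul, Complex.exp_re]
  congr 2
  · simp
  · simp

lemma JJ_re_le {X : ℝ} (hX : 0 < X) {z : ℂ} (hz : z ≠ 0) :
    |(JJ X z).re| ≤ (|z.re| + (Real.exp (z.re * X) + 1) / X) / Complex.normSq z := by
  have hn : 0 < Complex.normSq z := Complex.normSq_pos.mpr hz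
  rw [JJ_eq hX hz, Complex.add_re, Complex.neg_re, one_div, Complex.inv_re]
  have h1 : |((cexp (z * X) - 1) / (X * z ^ 2)).re| ≤ (Real.exp (z.re * X) + 1) / X / Complex.normSq z := by
    refine (Complex.abs_re_le_norm _).trans ?_
    rw [norm_div, norm_mul, norm_pow, Complex.norm_real, Real.norm_of_nonneg hX.le, ← Complex.normSq_eq_norm_sq, div_div]
    gcongr
    refine (norm_sub_le _ _).trans ?_
    rw [Complex.norm_exp, norm_one]
    simp
  calc |-(z.re / Complex.normSq z) + ((cexp (z * X) - 1) / (X * z ^ 2)).re|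
      ≤ |-(z.re / Complex.normSq z)| + |((cexp (z * X) - 1) / (X * z ^ 2)).re| := abs_add_le _ _
    _ ≤ |z.re| / Complex.normSq z + (Real.exp (z.re * X) + 1) / X / Complex.normSq z := by
        gcongr
        rw [abs_neg, abs_div, abs_of_pos hn]
    _ = _ := by ring

/-- the kernel -/
noncomputable def kpp (X x : ℝ) : ℝ := 2 / X * Real.exp (3 / 2 * |x|) * max 0 (1 - |x| / X)

lemma kpp_cont (X : ℝ) : Continuous (kpp X) := by unfold kpp; fun_prop

lemma kpp_zero_of {X x : ℝ} (hX : 0 < X) (hx : X ≤ |x|) : kpp X x = 0 := by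
  unfold kpp
  have : 1 - |x| / X ≤ 0 := by
    rw [sub_nonpos, le_div_iff₀ hX]; linarith
  rw [max_eq_left this, mul_zero]

lemma kpp_compact {X : ℝ} (hX : 0 < X) : HasCompactSupport (kpp X) := by
  apply HasCompactSupport.of_support_subset_isCompact (isCompact_Icc (a := -X) (b := X))
  intro x hx
  by_contra h
  apply hx
  apply kpp_zero_of hX
  by_contra h2
  push Not at h2
  exact h (abs_le.mp h2.le)

lemma kpp_integrable {X : ℝ} (hX : 0 < X) : Integrable (kpp X) := (kpp_cont X).integrable_of_hasCompactSupport (kpp_compact hX)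

lemma kpp_pos {X x : ℝ} (hX : 0 < X) (hx0 : 0 ≤ x) (hx : x ≤ X) : kpp X x = 2 / X * ((1 - x / X) * Real.exp (3 / 2 * x)) := by
  unfold kpp
  rw [abs_of_nonneg hx0, max_eq_right]
  · ring
  · rw [sub_nonneg, div_le_one hX]; exact hx

/-- integration of the kernel on the half line -/
lemma kpp_half {X : ℝ} (hX : 0 < X) (φ : ℝ → ℝ) :
    ∫ x in Ioi (0:ℝ), kpp X x * φ x = 2 / X * ∫ x in (0:ℝ)..X, (1 - x / X) * (Real.exp (3 / 2 * x) * φ x) := by
  rw [← intervalIntegral.integral_const_mul, intervalIntegral.integral_of_le hX.le]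
  rw [setIntegral_eq_of_subset_of_forall_sdiff_eq_zero (s := Ioc 0 X) measurableSet_Ioi Ioc_subset_Ioi_self]
  · apply setIntegral_congr_fun measurableSet_Ioc
    intro x hx
    simp only
    rw [kpp_pos hX hx.1.le hx.2]
    ring
  · intro x hx
    have h1 : 0 < x := hx.1
    have h2 : X ≤ |x| := by
      rw [abs_of_pos h1]
      by_contra h3
      push Not at h3
      exact hx.2 ⟨h1, h3.le⟩
    rw [kpp_zero_of hX h2, zero_mul]

/-- the inverse transform of the kernel -/
noncomputable def kk (X τ : ℝ) : ℝ := (2 * Real.pi)⁻¹ * ∫ x, kpp X x * Real.cos (x * τ)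

lemma kk_eq {X : ℝ} (hX : 0 < X) (τ : ℝ) : kk X τ = 2 / (Real.pi * X) * (JJ X ((3 / 2 : ℝ) + τ * I)).re := by
  unfold kk
  have h1 : ∀ x : ℝ, kpp X x * Real.cos (x * τ) = (fun y => kpp X y * Real.cos (y * τ)) |x| := by
    intro x
    simp only
    have e1 : kpp X |x| = kpp X x := by unfold kpp; rw [abs_abs]
    rw [e1]
    congr 1
    rcases abs_cases x with ⟨h, _⟩ | ⟨h, _⟩
    · rw [h]
    · rw [h, neg_mul, Real.cos_neg]
  have h1' : ∫ x, kpp X x * Real.cos (x * τ) = ∫ x, (fun y => kpp X y * Real.cos (y * τ)) |x| := by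
    congr 1
    funext x
    exact h1 x
  rw [h1', integral_comp_abs (f := fun y => kpp X y * Real.cos (y * τ)), kpp_half hX, JJ_re]
  have e2 : ∫ x in (0:ℝ)..X, (1 - x / X) * (Real.exp (3 / 2 * x) * Real.cos (x * τ)) =
      ∫ x in (0:ℝ)..X, (1 - x / X) * (Real.exp (3 / 2 * x) * Real.cos (τ * x)) := by
    apply intervalIntegral.integral_congr
    intro x _
    simp only
    rw [mul_comm x τ]
  rw [e2]
  have := Real.pi_pos
  generalize (∫ x in (0:ℝ)..X, (1 - x / X) * (Real.exp (3 / 2 * x) * Real.cos (τ * x))) = Q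
  field_simp

lemma z_ne {a : ℝ} (ha : a ≠ 0) (τ : ℝ) : ((a : ℝ) : ℂ) + τ * I ≠ 0 := by
  intro h
  have := congrArg Complex.re h
  simp at this
  exact ha this

lemma normSq_z (a τ : ℝ) : Complex.normSq ((a : ℂ) + τ * I) = a ^ 2 + τ ^ 2 := by
  rw [Complex.normSq_apply]
  simp
  ring

/-- constant -/
noncomputable def Ck (X : ℝ) : ℝ := 2 / (Real.pi * X) * (3 / 2 + (Real.exp (3 / 2 * X) + 1) / X)

lemma Ck_pos {X : ℝ} (hX : 0 < X) : 0 < Ck X := by
  unfold Ck
  have := Real.pi_pos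
  positivity

lemma kk_bound {X : ℝ} (hX : 0 < X) (τ : ℝ) : |kk X τ| ≤ Ck X * (1 + τ ^ 2)⁻¹ := by
  rw [kk_eq hX, abs_mul]
  have hpi := Real.pi_pos
  have h1 := JJ_re_le hX (z_ne (a := 3/2) (by norm_num) τ)
  rw [normSq_z] at h1
  have e1 : (((3/2 : ℝ) : ℂ) + τ * I).re = 3 / 2 := by simp
  rw [e1, abs_of_pos (by norm_num : (0:ℝ) < 3/2)] at h1
  rw [abs_of_pos (by positivity : 0 < 2 / (Real.pi * X))]
  unfold Ck
  rw [mul_assoc]
  gcongr
  refine h1.trans ?_
  rw [div_eq_mul_inv]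
  gcongr
  norm_num

lemma kk_cont {X : ℝ} (hX : 0 < X) : Continuous (kk X) := by
  have : kk X = fun τ : ℝ => 2 / (Real.pi * X) * (-(1 / (((3 / 2 : ℝ) : ℂ) + τ * I)) +
      (cexp ((((3 / 2 : ℝ) : ℂ) + τ * I) * X) - 1) / (X * (((3 / 2 : ℝ) : ℂ) + τ * I) ^ 2)).re := by
    funext τ
    rw [kk_eq hX, JJ_eq hX (z_ne (by norm_num) τ)]
  rw [this]
  apply continuous_const.mul
  apply Complex.continuous_re.comp
  have hz : ∀ τ : ℝ, (((3 / 2 : ℝ) : ℂ) + τ * I) ≠ 0 := fun τ => z_ne (by norm_num) τ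
  have hX' : (X:ℂ) ≠ 0 := by exact_mod_cast hX.ne'
  apply Continuous.add
  · apply Continuous.neg
    exact continuous_const.div (by fun_prop) hz
  · apply Continuous.div (by fun_prop) (by fun_prop)
    intro τ
    exact mul_ne_zero hX' (pow_ne_zero _ (hz τ))

lemma kk_integrable {X : ℝ} (hX : 0 < X) : Integrable (kk X) := by
  refine (integrable_inv_one_add_sq.const_mul (Ck X)).mono' (kk_cont hX).aestronglyMeasurable ?_
  filter_upwards with τ
  rw [Real.norm_eq_abs]
  exact kk_bound hX τ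

lemma FT_kpp {X : ℝ} (hX : 0 < X) (τ : ℝ) :
    ∫ x : ℝ, cexp ((τ * x : ℝ) * I) * (kpp X x : ℂ) = ((2 * Real.pi * kk X τ : ℝ) : ℂ) := by
  have hint : Integrable (fun x : ℝ => cexp ((τ * x : ℝ) * I) * (kpp X x : ℂ)) := by
    have hI : Integrable (fun x : ℝ => (kpp X x : ℂ)) := (kpp_integrable hX).ofReal
    refine hI.mono ?_ ?_
    · apply Continuous.aestronglyMeasurable
      have := kpp_cont X
      fun_prop
    · filter_upwards with x
      rw [norm_mul, Complex.norm_exp_ofReal_mul_I, one_mul]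
  apply Complex.ext
  · rw [← Complex.reCLM_apply, ← Complex.reCLM.integral_comp_comm hint, Complex.ofReal_re]
    simp only [Complex.reCLM_apply]
    unfold kk
    rw [mul_inv_cancel_left₀ (by have := Real.pi_pos; positivity)]
    congr 1
    funext x
    rw [mul_comm, Complex.re_ofReal_mul, Complex.exp_ofReal_mul_I_re, mul_comm τ x]
  · rw [← Complex.imCLM_apply, ← Complex.imCLM.integral_comp_comm hint, Complex.ofReal_im]
    simp only [Complex.imCLM_apply]
    -- odd integrand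
    set f : ℝ → ℝ := fun x => (cexp ((τ * x : ℝ) * I) * (kpp X x : ℂ)).im with hf
    have hodd : ∀ x, f (-x) = - f x := by
      intro x
      simp only [hf]
      have e1 : kpp X (-x) = kpp X x := by unfold kpp; rw [abs_neg]
      rw [e1, mul_comm, Complex.im_ofReal_mul, Complex.exp_ofReal_mul_I_im, mul_comm (cexp _), Complex.im_ofReal_mul, Complex.exp_ofReal_mul_I_im,
        mul_neg, Real.sin_neg]
      ring
    have h1 := integral_neg_eq_self f volume
    simp_rw [hodd] at h1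
    rw [integral_neg] at h1
    linarith

/-- Fourier inversion for the kernel. -/
lemma kk_inv {X : ℝ} (hX : 0 < X) (y : ℝ) : ∫ τ : ℝ, cexp ((y * τ : ℝ) * I) * (kk X τ : ℂ) = (kpp X y : ℂ) := by
  set f : ℝ → ℂ := fun x => (kpp X x : ℂ) with hf
  have hfi : Integrable f := (kpp_integrable hX).ofReal
  have hpi := Real.pi_pos
  have hF : ∀ w : ℝ, 𝓕 f w = ((2 * Real.pi * kk X (-(2 * Real.pi * w)) : ℝ) : ℂ) := by
    intro w
    rw [Real.fourier_real_eq_integral_exp_smul, ← FT_kpp hX]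
    congr 1
    funext x
    rw [smul_eq_mul]
    congr 3
    push_cast
    ring
  have hkk : ∀ w : ℝ, kk X (-w) = kk X w := by
    intro w
    unfold kk
    congr 1
    congr 1
    funext x
    rw [mul_neg, Real.cos_neg]
  simp_rw [hkk] at hF
  have hFi : Integrable (𝓕 f) := by
    have h1 : 𝓕 f = fun w : ℝ => ((2 * Real.pi * kk X (2 * Real.pi * w) : ℝ) : ℂ) := funext hF
    rw [h1]
    apply Integrable.ofReal
    apply Integrable.const_mul
    exact (kk_integrable hX).comp_mul_left' (by positivity)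
  have h := hfi.fourierInv_fourier_eq hFi (v := y) ((Complex.continuous_ofReal.comp (kpp_cont X)).continuousAt)
  rw [Real.fourierInv_eq'] at h
  show _ = f y
  rw [← h]
  simp_rw [hF]
  have h2 := Measure.integral_comp_mul_left (fun τ : ℝ => cexp ((y * τ : ℝ) * I) * (kk X τ : ℂ)) (2 * Real.pi)
  have h3 : ∫ τ : ℝ, cexp ((y * τ : ℝ) * I) * (kk X τ : ℂ) = (2 * Real.pi : ℝ) • ∫ (x : ℝ), cexp ((y * (2 * Real.pi * x) : ℝ) * I) * (kk X (2 * Real.pi * x) : ℂ) := by
    rw [h2, abs_of_pos (by positivity), smul_smul, mul_inv_cancel₀ (by positivity), one_smul]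
  rw [h3, ← integral_smul]
  congr 1
  funext w
  rw [smul_eq_mul, Complex.real_smul]
  have e : ((y * (2 * Real.pi * w) : ℝ) : ℂ) = ((2 * Real.pi * inner ℝ w y : ℝ) : ℂ) := by
    congr 1
    simp
    ring
  rw [e]
  push_cast
  ring

/-- the operator on cosines -/
lemma T_cos {X : ℝ} (hX : 0 < X) (y t : ℝ) : ∫ u : ℝ, kk X (t - u) * Real.cos (y * u) = kpp X y * Real.cos (y * t) := by
  have h1 := kk_inv hX y
  have hint : Integrable (fun τ : ℝ => cexp ((y * τ : ℝ) * I) * (kk X τ : ℂ)) := by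
    have hI : Integrable (fun x : ℝ => (kk X x : ℂ)) := (kk_integrable hX).ofReal
    refine hI.mono ?_ ?_
    · apply Continuous.aestronglyMeasurable
      have := kk_cont hX
      fun_prop
    · filter_upwards with x
      rw [norm_mul, Complex.norm_exp_ofReal_mul_I, one_mul]
  have h2 : ∫ u : ℝ, kk X (t - u) * Real.cos (y * u) = ∫ w : ℝ, kk X w * Real.cos (y * (t - w)) := by
    have := integral_sub_left_eq_self (fun w => kk X w * Real.cos (y * (t - w))) volume t
    rw [← this]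
    congr 1
    funext u
    rw [sub_sub_cancel]
  rw [h2]
  have h3 : ∫ w : ℝ, kk X w * Real.cos (y * (t - w)) = (∫ w : ℝ, cexp ((-(y * t) : ℝ) * I) * (cexp ((y * w : ℝ) * I) * (kk X w : ℂ))).re := by
    rw [← Complex.reCLM_apply, ← Complex.reCLM.integral_comp_comm (hint.const_mul _)]
    congr 1
    funext w
    rw [Complex.reCLM_apply, ← mul_assoc, ← Complex.exp_add, ← add_mul, ← Complex.ofReal_add, mul_comm, mul_comm (cexp _), Complex.re_ofReal_mul,
      Complex.exp_ofReal_mul_I_re, mul_comm (Real.cos _)]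
    congr 1
    rw [← Real.cos_neg]
    congr 1
    ring
  rw [h3, integral_const_mul, h1, mul_comm, Complex.re_ofReal_mul, Complex.exp_ofReal_mul_I_re, Real.cos_neg]

lemma poisson_int {a : ℝ} (ha : 0 < a) (u : ℝ) : ∫ x in Ioi (0:ℝ), Real.exp (-a * x) * Real.cos (x * u) = a / (a ^ 2 + u ^ 2) := by
  have hz : (-(a:ℂ) + u * I).re < 0 := by simp [ha]
  have h := integral_exp_mul_complex_Ioi hz 0
  have hi := integrableOn_exp_mul_complex_Ioi hz 0
  have h2 := congrArg Complex.re h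
  rw [← Complex.reCLM_apply, ← Complex.reCLM.integral_comp_comm hi] at h2
  have e1 : ∀ x : ℝ, Complex.reCLM (cexp ((-(a:ℂ) + u * I) * x)) = Real.exp (-a * x) * Real.cos (x * u) := by
    intro x
    rw [Complex.reCLM_apply, Complex.exp_re]
    congr 2
    · simp
    · simp; ring
  simp_rw [e1] at h2
  rw [h2]
  have e2 : -(a:ℂ) + u * I = ((-a : ℝ) : ℂ) + u * I := by push_cast; ring
  rw [e2]
  simp only [Complex.ofReal_zero, mul_zero, Complex.exp_zero]
  rw [neg_div, Complex.neg_re, one_div, Complex.inv_re, normSq_z]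
  simp
  ring

/-- the operator on Poisson kernels -/
lemma T_poisson {X : ℝ} (hX : 0 < X) {a : ℝ} (ha : 0 < a) (t : ℝ) :
    ∫ u : ℝ, kk X (t - u) * (a / (a ^ 2 + u ^ 2)) = 2 / X * (JJ X ((3 / 2 - a : ℝ) + t * I)).re := by
  have h1 : ∀ u : ℝ, kk X (t - u) * (a / (a ^ 2 + u ^ 2)) = ∫ x in Ioi (0:ℝ), kk X (t - u) * (Real.exp (-a * x) * Real.cos (x * u)) := by
    intro u
    rw [integral_const_mul, poisson_int ha]
  simp_rw [h1]
  have hexp : IntegrableOn (fun x : ℝ => Real.exp (-a * x)) (Ioi 0) := integrableOn_exp_mul_Ioi (by linarith) 0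
  have hkt : Integrable (fun u => kk X (t - u)) := (kk_integrable hX).comp_sub_left t
  rw [integral_integral_swap]
  · have h2 : ∀ x : ℝ, ∫ u : ℝ, kk X (t - u) * (Real.exp (-a * x) * Real.cos (x * u)) =
        kpp X x * (Real.exp (-a * x) * Real.cos (x * t)) := by
      intro x
      have e : ∀ u : ℝ, kk X (t - u) * (Real.exp (-a * x) * Real.cos (x * u)) = Real.exp (-a * x) * (kk X (t - u) * Real.cos (x * u)) := by
        intro u; ring
      simp_rw [e]
      rw [integral_const_mul, T_cos hX]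
      ring
    simp_rw [h2]
    rw [kpp_half hX, JJ_re]
    congr 1
    apply intervalIntegral.integral_congr
    intro x _
    simp only
    rw [← mul_assoc (Real.exp _), ← Real.exp_add, mul_comm x t]
    congr 3
    ring
  · have h3 : Integrable (Function.uncurry fun (u x : ℝ) => kk X (t - u) * Real.exp (-a * x)) (volume.prod (volume.restrict (Ioi 0))) :=
      hkt.mul_prod hexp
    refine h3.mono ?_ ?_
    · apply Continuous.aestronglyMeasurable
      have := kk_cont hX
      simp only [Function.uncurry_def]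
      fun_prop
    · filter_upwards with p
      simp only [Function.uncurry_def, norm_mul]
      gcongr
      calc ‖Real.exp (-a * p.2)‖ * ‖Real.cos (p.2 * p.1)‖ ≤ ‖Real.exp (-a * p.2)‖ * 1 := by
            gcongr
            exact Real.abs_cos_le_one _
        _ = _ := mul_one _

end Pool.Agent.Helper57.LH

end

/-! ### Helper57.LH.Gam -/

section

namespace Pool.Agent.Helper57.LH

open Complex Filter Topology

lemma norm_Gamma_I_sq {y : ℝ} (hy : 0 < y) : 2 * Real.pi / y * Real.exp (-(Real.pi * y)) ≤ ‖Gamma (I * y)‖ ^ 2 := by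
  have hy' : (y : ℂ) ≠ 0 := by exact_mod_cast hy.ne'
  have h1 := Complex.Gamma_mul_Gamma_one_sub (-(I * y))
  have h3 : Gamma (I * y + 1) = (I * y) * Gamma (I * y) := by
    apply Complex.Gamma_add_one
    simp [hy.ne']
  rw [show (1:ℂ) - -(I * y) = I * y + 1 by ring, h3] at h1
  have h2 : Gamma (-(I * y)) = starRingEnd ℂ (Gamma (I * y)) := by
    rw [← Complex.Gamma_conj]
    congr 1
    simp
  have h6 : Complex.sin (Real.pi * -(I * y)) = -(Complex.sinh (Real.pi * y) * I) := by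
    rw [show (Real.pi : ℂ) * -(I * y) = -((Real.pi * y) * I) by ring, Complex.sin_neg,
      Complex.sin_mul_I]
  rw [h2, h6] at h1
  have h7 := congrArg norm h1
  rw [norm_mul, norm_mul, norm_mul, norm_div, norm_neg, norm_mul, Complex.norm_I, RCLike.norm_conj,
    Complex.norm_real, Complex.norm_real] at h7
  have h8 : Complex.sinh (Real.pi * y) = ((Real.sinh (Real.pi * y) : ℝ) : ℂ) := by push_cast; rfl
  rw [h8, Complex.norm_real, Real.norm_of_nonneg hy.le, Real.norm_of_nonneg Real.pi_pos.le] at h7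
  have hu : 0 < Real.pi * y := mul_pos Real.pi_pos hy
  have hs : 0 < Real.sinh (Real.pi * y) := Real.sinh_pos_iff.mpr hu
  rw [Real.norm_of_nonneg hs.le] at h7
  have h9 : ‖Gamma (I * y)‖ ^ 2 = Real.pi / (y * Real.sinh (Real.pi * y)) := by
    rw [eq_div_iff (by positivity)]
    rw [mul_one, one_mul] at h7
    have h10 : Real.sinh (Real.pi * y) ≠ 0 := hs.ne'
    rw [eq_div_iff h10] at h7
    linear_combination h7
  rw [h9, le_div_iff₀ (by positivity), Real.sinh_eq]
  have h10 : Real.exp (-(Real.pi * y)) * Real.exp (Real.pi * y) = 1 := by rw [← Real.exp_add]; simp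
  have h11 : 0 < Real.exp (-(Real.pi * y)) := Real.exp_pos _
  have : 2 * Real.pi / y * Real.exp (-(Real.pi * y)) * (y * ((Real.exp (Real.pi * y) - Real.exp (-(Real.pi * y))) / 2))
    = Real.pi * (Real.exp (-(Real.pi * y)) * Real.exp (Real.pi * y)) - Real.pi * Real.exp (-(Real.pi * y)) ^ 2 := by
    field_simp
  rw [this, h10]
  nlinarith only [Real.pi_pos, sq_nonneg (Real.exp (-(Real.pi * y)))]

lemma norm_Gamma_half_sq (y : ℝ) : ‖Gamma (1 / 2 + I * y)‖ ^ 2 = Real.pi / Real.cosh (Real.pi * y) := by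
  have h1 := Complex.Gamma_mul_Gamma_one_sub (1 / 2 + I * y)
  have h2 : Gamma (1 - (1 / 2 + I * y)) = starRingEnd ℂ (Gamma (1 / 2 + I * y)) := by
    rw [← Complex.Gamma_conj]
    congr 1
    simp only [map_add, map_div₀, map_one, map_ofNat, map_mul, Complex.conj_I, Complex.conj_ofReal]
    ring
  have h6 : Complex.sin (Real.pi * (1 / 2 + I * y)) = ((Real.cosh (Real.pi * y) : ℝ) : ℂ) := by
    rw [show (Real.pi : ℂ) * (1 / 2 + I * y) = (Real.pi * y) * I + Real.pi / 2 by ring,
      Complex.sin_add_pi_div_two, Complex.cos_mul_I]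
    push_cast; rfl
  rw [h2, h6] at h1
  have h7 := congrArg norm h1
  rw [norm_mul, norm_div, RCLike.norm_conj, Complex.norm_real, Complex.norm_real,
    Real.norm_of_nonneg Real.pi_pos.le, Real.norm_of_nonneg (Real.cosh_pos _).le] at h7
  rw [sq]; exact h7

lemma norm_Gamma_half_sq_ge {y : ℝ} (hy : 0 ≤ y) :
    Real.pi * Real.exp (-(Real.pi * y)) ≤ ‖Gamma (1 / 2 + I * y)‖ ^ 2 := by
  rw [norm_Gamma_half_sq, le_div_iff₀ (Real.cosh_pos _), mul_assoc]
  have : Real.exp (-(Real.pi * y)) * Real.cosh (Real.pi * y) ≤ 1 := by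
    rw [Real.cosh_eq]
    have h10 : Real.exp (-(Real.pi * y)) * Real.exp (Real.pi * y) = 1 := by rw [← Real.exp_add]; simp
    have h11 : Real.exp (-(Real.pi * y)) ≤ 1 := Real.exp_le_one_iff.mpr (by
      have := Real.pi_pos; nlinarith [mul_nonneg this.le hy])
    have h12 : 0 < Real.exp (-(Real.pi * y)) := Real.exp_pos _
    nlinarith only [h10, h11, h12]
  nlinarith only [this, Real.pi_pos]

lemma one_sub_sum_le_prod (x : ℕ → ℝ) (h0 : ∀ j, 0 ≤ x j) (h1 : ∀ j, x j ≤ 1) (n : ℕ) :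
    1 - ∑ j ∈ Finset.range n, x j ≤ ∏ j ∈ Finset.range n, (1 - x j) ∧
    0 ≤ ∏ j ∈ Finset.range n, (1 - x j) ∧ ∏ j ∈ Finset.range n, (1 - x j) ≤ 1 := by
  induction n with
  | zero => simp
  | succ n ih =>
    obtain ⟨a, b, c⟩ := ih
    rw [Finset.sum_range_succ, Finset.prod_range_succ]
    have := h0 n
    have := h1 n
    refine ⟨?_, ?_, ?_⟩
    · nlinarith
    · apply mul_nonneg b; linarith
    · nlinarith

lemma sum_inv_sq_le (n : ℕ) : ∑ j ∈ Finset.range n, 1 / ((j:ℝ) + 1) ^ 2 ≤ 2 := by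
  have h : ∀ n : ℕ, ∑ j ∈ Finset.range n, 1 / ((j:ℝ) + 1) ^ 2 ≤ 2 * (1 - 1 / (n + 1 : ℝ)) := by
    intro n
    induction n with
    | zero => simp
    | succ n ih =>
      rw [Finset.sum_range_succ]
      push_cast
      have h2 : 1 / ((n:ℝ) + 1) ^ 2 ≤ 2 * (1 / ((n:ℝ) + 1) - 1 / (n + 1 + 1)) := by
        have e : 2 * (1 / ((n:ℝ) + 1) - 1 / (n + 1 + 1)) = 2 / (((n:ℝ) + 1) * (n + 1 + 1)) := by
          field_simp
          ring
        rw [e, div_le_div_iff₀ (by positivity) (by positivity)]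
        have : (0:ℝ) ≤ n := Nat.cast_nonneg n
        nlinarith only []
      linarith
  have := h n
  have h2 : (0:ℝ) < 1 / (n + 1) := by positivity
  linarith only [this, h2]

lemma GammaSeq_quarter {y : ℝ} (hy : 1 / 2 ≤ y) {n : ℕ} (hn : 0 < n) :
    1 / 2 * (‖Complex.GammaSeq (I * y) n‖ * ‖Complex.GammaSeq (1 / 2 + I * y) n‖)
      ≤ ‖Complex.GammaSeq (1 / 4 + I * y) n‖ ^ 2 := by
  have hn0 : (0:ℝ) < n := by exact_mod_cast hn
  have key : ∀ c : ℝ, ‖Complex.GammaSeq ((c:ℂ) + I * y) n‖ =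
      (n:ℝ) ^ c * (n.factorial : ℝ) / ∏ j ∈ Finset.range (n + 1), ‖((c:ℂ) + I * y) + j‖ := by
    intro c
    unfold Complex.GammaSeq
    rw [norm_div, norm_mul, Finset.prod_congr rfl (fun j _ => rfl), norm_prod]
    congr 2
    · have := Complex.norm_cpow_eq_rpow_re_of_pos hn0 ((c:ℂ) + I * y)
      rw [← Complex.ofReal_natCast, this]
      simp
    · simp
  have k0 := key 0
  have k1 := key (1/2)
  have k2 := key (1/4)
  simp only [Complex.ofReal_zero, zero_add] at k0
  push_cast at k1 k2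
  rw [k0, k1, k2]
  have hpos : ∀ c : ℝ, ∀ j : ℕ, 0 < ‖((c:ℂ) + I * y) + j‖ := by
    intro c j
    rw [norm_pos_iff]
    intro h
    have := congrArg Complex.im h
    simp at this
    linarith only [hy, this]
  have hp0 := hpos 0
  have hp1 := hpos (1/2)
  have hp2 := hpos (1/4)
  simp only [Complex.ofReal_zero, zero_add] at hp0
  push_cast at hp1 hp2
  set x : ℕ → ℝ := fun j => 1 / (16 * (((j:ℝ) + 1 / 4) ^ 2 + y ^ 2)) with hx
  have hx0 : ∀ j, 0 ≤ x j := by intro j; rw [hx]; positivity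
  have hx1 : ∀ j, x j ≤ 1 / (16 * (1 / 4)) := by
    intro j
    rw [hx]
    apply one_div_le_one_div_of_le (by norm_num)
    nlinarith only [hy, sq_nonneg ((j:ℝ) + 1 / 4)]
  have hfac : ∀ j : ℕ, 1 - x j ≤ ‖I * (y:ℂ) + j‖ * ‖(1 / 2 + I * y : ℂ) + j‖ / ‖(1 / 4 + I * y : ℂ) + j‖ ^ 2 := by
    intro j
    rw [← norm_mul, ← norm_pow, ← norm_div]
    have h4 : ((1 / 4 + I * y : ℂ) + j) ≠ 0 := norm_pos_iff.mp (hp2 j)
    have e : (I * (y:ℂ) + j) * ((1 / 2 + I * y : ℂ) + j) / ((1 / 4 + I * y : ℂ) + j) ^ 2 =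
        1 - 1 / (16 * ((1 / 4 + I * y : ℂ) + j) ^ 2) := by
      rw [show (I * (y:ℂ) + j) = ((1 / 4 + I * y : ℂ) + j) - 1 / 4 by ring,
        show ((1 / 2 + I * y : ℂ) + j) = ((1 / 4 + I * y : ℂ) + j) + 1 / 4 by ring]
      generalize ((1 / 4 + I * y : ℂ) + j) = w at h4 ⊢
      field_simp
      ring
    rw [e]
    have h5 := norm_sub_norm_le (1:ℂ) (1 / (16 * ((1 / 4 + I * y : ℂ) + j) ^ 2))
    rw [norm_one] at h5
    refine le_trans (le_of_eq ?_) h5
    congr 1
    rw [hx]
    simp only [norm_div, norm_one, norm_mul, norm_pow]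
    rw [← Complex.normSq_eq_norm_sq, Complex.normSq_apply]
    simp
    ring
  have hprod : 1 / 2 ≤ ∏ j ∈ Finset.range (n + 1), (‖I * (y:ℂ) + j‖ * ‖(1 / 2 + I * y : ℂ) + j‖ / ‖(1 / 4 + I * y : ℂ) + j‖ ^ 2) := by
    have h6 : ∏ j ∈ Finset.range (n + 1), (1 - x j) ≤ ∏ j ∈ Finset.range (n + 1), (‖I * (y:ℂ) + j‖ * ‖(1 / 2 + I * y : ℂ) + j‖ / ‖(1 / 4 + I * y : ℂ) + j‖ ^ 2) := by
      apply Finset.prod_le_prod
      · intro j _
        have := hx1 j
        norm_num at this ⊢
        linarith only [this]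
      · intro j _; exact hfac j
    refine le_trans ?_ h6
    refine le_trans ?_ (one_sub_sum_le_prod x hx0 (fun j => (hx1 j).trans (by norm_num)) (n + 1)).1
    rw [Finset.sum_range_succ']
    have h7 : x 0 ≤ 1 / 4 := (hx1 0).trans (by norm_num)
    have h8 : ∑ j ∈ Finset.range n, x (j + 1) ≤ 1 / 16 * ∑ j ∈ Finset.range n, 1 / ((j:ℝ) + 1) ^ 2 := by
      rw [Finset.mul_sum]
      apply Finset.sum_le_sum
      intro j _
      rw [hx]
      simp only
      rw [div_mul_div_comm, mul_one]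
      apply one_div_le_one_div_of_le (by positivity)
      push_cast
      nlinarith only [sq_nonneg y, (Nat.cast_nonneg j : (0:ℝ) ≤ j)]
    have h9 := sum_inv_sq_le n
    linarith only [h7, h8, h9]
  rw [Finset.prod_div_distrib, Finset.prod_mul_distrib, Finset.prod_pow] at hprod
  have hP0 : 0 < ∏ j ∈ Finset.range (n + 1), ‖I * (y:ℂ) + j‖ := Finset.prod_pos fun j _ => hp0 j
  have hP1 : 0 < ∏ j ∈ Finset.range (n + 1), ‖(1 / 2 + I * y : ℂ) + j‖ := Finset.prod_pos fun j _ => hp1 j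
  have hP2 : 0 < ∏ j ∈ Finset.range (n + 1), ‖(1 / 4 + I * y : ℂ) + j‖ := Finset.prod_pos fun j _ => hp2 j
  rw [le_div_iff₀ (by positivity)] at hprod
  rw [div_pow, div_mul_div_comm, mul_div_assoc', div_le_div_iff₀ (by positivity) (by positivity)]
  have e1 : (n:ℝ) ^ (0:ℝ) * (n.factorial : ℝ) * ((n:ℝ) ^ (1/2 : ℝ) * (n.factorial : ℝ)) =
      ((n:ℝ) ^ (1/4 : ℝ) * (n.factorial : ℝ)) ^ 2 := by
    rw [Real.rpow_zero]
    have : ((n:ℝ) ^ (1/4 : ℝ)) ^ 2 = (n:ℝ) ^ (1/2 : ℝ) := by
      rw [← Real.rpow_natCast, ← Real.rpow_mul hn0.le]; norm_num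
    rw [mul_pow, this]
    ring
  rw [e1]
  have hF : 0 ≤ ((n:ℝ) ^ (1/4 : ℝ) * (n.factorial : ℝ)) ^ 2 := by positivity
  calc 1 / 2 * ((n:ℝ) ^ (1/4 : ℝ) * (n.factorial : ℝ)) ^ 2 * (∏ j ∈ Finset.range (n + 1), ‖(1 / 4 + I * y : ℂ) + j‖) ^ 2
      = ((n:ℝ) ^ (1/4 : ℝ) * (n.factorial : ℝ)) ^ 2 * (1 / 2 * (∏ j ∈ Finset.range (n + 1), ‖(1 / 4 + I * y : ℂ) + j‖) ^ 2) := by ring
    _ ≤ _ := mul_le_mul_of_nonneg_left hprod hF

/-- sharp lower bound for the Gamma function on the line Re s = 1/4 -/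
theorem norm_Gamma_quarter_ge {y : ℝ} (hy : 1 / 2 ≤ y) :
    Real.exp (-(Real.pi * y)) / Real.sqrt y ≤ ‖Gamma (1 / 4 + I * y)‖ ^ 2 := by
  have hy0 : 0 < y := by linarith only [hy]
  have h1 : 1 / 2 * (‖Gamma (I * y)‖ * ‖Gamma (1 / 2 + I * y)‖) ≤ ‖Gamma (1 / 4 + I * y)‖ ^ 2 := by
    have t0 := (Complex.GammaSeq_tendsto_Gamma (I * y)).norm
    have t1 := (Complex.GammaSeq_tendsto_Gamma (1 / 2 + I * y)).norm
    have t2 := (Complex.GammaSeq_tendsto_Gamma (1 / 4 + I * y)).norm
    refine le_of_tendsto_of_tendsto ((t0.mul t1).const_mul (1/2)) (t2.pow 2) ?_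
    filter_upwards [eventually_gt_atTop 0] with n hn
    exact GammaSeq_quarter hy hn
  refine le_trans ?_ h1
  have h2 := norm_Gamma_I_sq hy0
  have h3 := norm_Gamma_half_sq_ge hy0.le
  have h4 : (2 * (Real.exp (-(Real.pi * y)) / Real.sqrt y)) ^ 2 ≤ (‖Gamma (I * y)‖ * ‖Gamma (1 / 2 + I * y)‖) ^ 2 := by
    rw [mul_pow (‖Gamma (I * y)‖)]
    have e0 : 0 < Real.exp (-(Real.pi * y)) := Real.exp_pos _
    calc (2 * (Real.exp (-(Real.pi * y)) / Real.sqrt y)) ^ 2
        = (2 / y * Real.exp (-(Real.pi * y))) * (2 * Real.exp (-(Real.pi * y))) := by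
          rw [mul_pow, div_pow, Real.sq_sqrt hy0.le]; ring
      _ ≤ (2 * Real.pi / y * Real.exp (-(Real.pi * y))) * (Real.pi * Real.exp (-(Real.pi * y))) := by
          have := Real.pi_gt_three
          gcongr
          · linarith only [this]
          · linarith only [this]
      _ ≤ _ := by gcongr
  have h5 := (pow_le_pow_iff_left₀ (by positivity) (by positivity) two_ne_zero).mp h4
  linarith only [h5]

end Pool.Agent.Helper57.LH

end

/-! ### Helper57.LH.Planch -/

section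

open MeasureTheory Real

namespace Pool.Agent.Helper57.LH

/-- Fourier transform in the convention `∫ e^{iτu} f(u) du`. -/
noncomputable def FT (f : ℝ → ℂ) (τ : ℝ) : ℂ := ∫ u : ℝ, Complex.exp (Complex.I * τ * u) * f u

lemma norm_exp_I_mul (τ u : ℝ) : ‖Complex.exp (Complex.I * τ * u)‖ = 1 := by
  rw [show Complex.I * τ * u = ((τ * u : ℝ) : ℂ) * Complex.I by push_cast; ring]
  exact Complex.norm_exp_ofReal_mul_I _

lemma integrable_FT {f : ℝ → ℂ} (hf : Integrable f) (τ : ℝ) :
    Integrable (fun u : ℝ => Complex.exp (Complex.I * τ * u) * f u) := by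
  refine hf.mono ?_ ?_
  · exact (Continuous.aestronglyMeasurable (by fun_prop)).mul hf.aestronglyMeasurable
  · refine Filter.Eventually.of_forall fun u => ?_
    rw [norm_mul, norm_exp_I_mul, one_mul]

lemma norm_FT_le {f : ℝ → ℂ} (τ : ℝ) : ‖FT f τ‖ ≤ ∫ u, ‖f u‖ := by
  unfold FT
  refine (norm_integral_le_integral_norm _).trans (le_of_eq ?_)
  refine integral_congr_ae (Filter.Eventually.of_forall fun u => ?_)
  simp only
  rw [norm_mul, norm_exp_I_mul, one_mul]

lemma continuous_FT {f : ℝ → ℂ} (hf : Integrable f) : Continuous (FT f) := by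
  unfold FT
  apply continuous_of_dominated (bound := fun u => ‖f u‖)
  · intro τ; exact (integrable_FT hf τ).aestronglyMeasurable
  · intro τ
    refine Filter.Eventually.of_forall fun u => ?_
    rw [norm_mul, norm_exp_I_mul, one_mul]
  · exact hf.norm
  · refine Filter.Eventually.of_forall fun u => ?_
    fun_prop

lemma gauss_FT {ε : ℝ} (hε : 0 < ε) (x : ℝ) :
    ∫ τ : ℝ, Complex.exp (Complex.I * x * τ) * Complex.exp (-(ε:ℂ) * τ ^ 2)
      = ((√(π / ε) * Real.exp (-x ^ 2 / (4 * ε)) : ℝ) : ℂ) := by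
  rw [fourierIntegral_gaussian (b := (ε:ℂ)) (by simpa using hε)]
  push_cast
  congr 1
  · rw [Real.sqrt_eq_rpow, Complex.ofReal_cpow (by positivity)]
    push_cast
    norm_num

/-- Gaussian-regularised Plancherel inequality -/
lemma planch_gauss {f : ℝ → ℂ} (hf : Integrable f) (hf2 : Integrable (fun u => ‖f u‖ ^ 2))
    {ε : ℝ} (hε : 0 < ε) :
    ∫ τ : ℝ, Real.exp (-ε * τ ^ 2) * ‖FT f τ‖ ^ 2 ≤ 2 * π * ∫ u, ‖f u‖ ^ 2 := by
  -- integrand as a double integral
  have hgauss : Integrable (fun τ : ℝ => Real.exp (-ε * τ ^ 2)) := integrable_exp_neg_mul_sq hε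
  set g : ℝ × ℝ → ℂ := fun p => f p.1 * (starRingEnd ℂ) (f p.2) with hg
  have hconj : Integrable (fun v => (starRingEnd ℂ) (f v)) := by
    refine hf.mono (Complex.continuous_conj.comp_aestronglyMeasurable hf.aestronglyMeasurable) ?_
    exact Filter.Eventually.of_forall fun v => by simp
  have hgint : Integrable g (volume.prod volume) := hf.mul_prod hconj
  have h1 : ∀ τ : ℝ, ((‖FT f τ‖ ^ 2 : ℝ) : ℂ) = ∫ p : ℝ × ℝ, Complex.exp (Complex.I * ((p.1 - p.2 : ℝ) : ℂ) * τ) * g p := by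
    intro τ
    have : ((‖FT f τ‖ ^ 2 : ℝ) : ℂ) = FT f τ * (starRingEnd ℂ) (FT f τ) := by
      rw [Complex.mul_conj, Complex.normSq_eq_norm_sq]
    rw [this]
    unfold FT
    rw [← integral_conj, ← integral_prod_mul]
    refine integral_congr_ae (Filter.Eventually.of_forall fun p => ?_)
    simp only [hg, map_mul]
    rw [← Complex.exp_conj]
    simp only [map_mul, Complex.conj_I, Complex.conj_ofReal]
    have e : Complex.exp (Complex.I * ((p.1 - p.2 : ℝ) : ℂ) * τ)
        = Complex.exp (Complex.I * τ * p.1) * Complex.exp (-Complex.I * τ * p.2) := by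
      rw [← Complex.exp_add]
      congr 1
      push_cast
      ring
    rw [e]
    ring
  have h2 : ((∫ τ : ℝ, Real.exp (-ε * τ ^ 2) * ‖FT f τ‖ ^ 2 : ℝ) : ℂ)
      = ∫ p : ℝ × ℝ, g p * ((√(π / ε) * Real.exp (-(p.1 - p.2) ^ 2 / (4 * ε)) : ℝ) : ℂ) := by
    rw [← integral_complex_ofReal]
    have e1 : ∀ τ : ℝ, ((Real.exp (-ε * τ ^ 2) * ‖FT f τ‖ ^ 2 : ℝ) : ℂ)
        = ∫ p : ℝ × ℝ, Complex.exp (-(ε:ℂ) * τ ^ 2) * (Complex.exp (Complex.I * ((p.1 - p.2 : ℝ) : ℂ) * τ) * g p) := by
      intro τ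
      rw [integral_const_mul, ← h1 τ]
      push_cast
      ring
    rw [integral_congr_ae (Filter.Eventually.of_forall e1)]
    rw [integral_integral_swap]
    · refine integral_congr_ae (Filter.Eventually.of_forall fun p => ?_)
      simp only
      rw [← gauss_FT hε (p.1 - p.2), ← integral_const_mul]
      refine integral_congr_ae (Filter.Eventually.of_forall fun τ => ?_)
      simp only
      ring
    · have hh : Integrable (fun q : ℝ × (ℝ × ℝ) => ((Real.exp (-ε * q.1 ^ 2) : ℝ) : ℂ) * g q.2)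
        (volume.prod (volume.prod volume)) := (hgauss.ofReal (𝕜 := ℂ)).mul_prod hgint
      refine hh.mono ?_ ?_
      · have : (Function.uncurry fun (τ : ℝ) (p : ℝ × ℝ) =>
            Complex.exp (-(ε:ℂ) * τ ^ 2) * (Complex.exp (Complex.I * ((p.1 - p.2 : ℝ) : ℂ) * τ) * g p))
            = fun q : ℝ × (ℝ × ℝ) => Complex.exp (Complex.I * ((q.2.1 - q.2.2 : ℝ) : ℂ) * q.1) *
              (((Real.exp (-ε * q.1 ^ 2) : ℝ) : ℂ) * g q.2) := by
          funext q
          simp only [Function.uncurry]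
          push_cast
          ring
        rw [this]
        exact (Continuous.aestronglyMeasurable (by fun_prop)).mul hh.aestronglyMeasurable
      · refine Filter.Eventually.of_forall fun q => ?_
        simp only [Function.uncurry, norm_mul]
        have e2 : ‖Complex.exp (Complex.I * ((q.2.1 - q.2.2 : ℝ) : ℂ) * q.1)‖ = 1 := norm_exp_I_mul _ _
        rw [e2, one_mul]
        apply le_of_eq
        congr 2
        push_cast
        rfl
  -- bound the norm
  have h3 : ∫ τ : ℝ, Real.exp (-ε * τ ^ 2) * ‖FT f τ‖ ^ 2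
      ≤ ‖∫ p : ℝ × ℝ, g p * ((√(π / ε) * Real.exp (-(p.1 - p.2) ^ 2 / (4 * ε)) : ℝ) : ℂ)‖ := by
    rw [← h2, Complex.norm_real]
    exact le_abs_self _
  refine h3.trans ?_
  set G : ℝ → ℝ := fun x => √(π / ε) * Real.exp (-x ^ 2 / (4 * ε)) with hG
  have hG0 : ∀ x, 0 ≤ G x := fun x => by positivity
  have hGint : Integrable G := by
    have := (integrable_exp_neg_mul_sq (b := 1 / (4 * ε)) (by positivity)).const_mul (√(π / ε))
    refine this.congr (Filter.Eventually.of_forall fun x => ?_)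
    simp only [hG]
    congr 2
    ring
  have hGval : ∫ x, G x = 2 * π := by
    simp only [hG]
    rw [integral_const_mul]
    have e : (fun x : ℝ => Real.exp (-x ^ 2 / (4 * ε))) = fun x => Real.exp (-(1 / (4 * ε)) * x ^ 2) := by
      funext x; congr 1; ring
    rw [e, integral_gaussian, ← Real.sqrt_mul (by positivity)]
    have : π / ε * (π / (1 / (4 * ε))) = (2 * π) ^ 2 := by field_simp; ring
    rw [this, Real.sqrt_sq (by positivity)]
  have hGsymm : ∀ x, G (-x) = G x := fun x => by simp [hG]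
  have hprod : Integrable (fun p : ℝ × ℝ => ‖f p.1‖ ^ 2 * G p.2) (volume.prod volume) := hf2.mul_prod hGint
  have hval : ∫ p : ℝ × ℝ, ‖f p.1‖ ^ 2 * G p.2 = (∫ u, ‖f u‖ ^ 2) * (2 * π) := by
    rw [← hGval]
    exact integral_prod_mul (μ := volume) (ν := volume) (fun u => ‖f u‖ ^ 2) G
  have m1 : MeasurePreserving (fun z : ℝ × ℝ => (z.1, z.2 - z.1)) (volume.prod volume) (volume.prod volume) :=
    measurePreserving_prod_sub volume volume
  have m2 : MeasurePreserving (fun z : ℝ × ℝ => (z.2, z.1 - z.2)) (volume.prod volume) (volume.prod volume) :=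
    measurePreserving_prod_sub_swap volume volume
  have i1 : Integrable (fun p : ℝ × ℝ => ‖f p.1‖ ^ 2 * G (p.1 - p.2)) (volume.prod volume) := by
    refine (m1.integrable_comp_of_integrable hprod).congr (Filter.Eventually.of_forall fun p => ?_)
    simp only [Function.comp]
    rw [← hGsymm (p.1 - p.2), neg_sub]
  have i2 : Integrable (fun p : ℝ × ℝ => ‖f p.2‖ ^ 2 * G (p.1 - p.2)) (volume.prod volume) := by
    exact m2.integrable_comp_of_integrable hprod
  have v1 : ∫ p : ℝ × ℝ, ‖f p.1‖ ^ 2 * G (p.1 - p.2) = (∫ u, ‖f u‖ ^ 2) * (2 * π) := by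
    rw [← hval]
    have := integral_map (μ := volume.prod volume) m1.measurable.aemeasurable
      (f := fun p : ℝ × ℝ => ‖f p.1‖ ^ 2 * G p.2) (by rw [m1.map_eq]; exact hprod.aestronglyMeasurable)
    rw [m1.map_eq] at this
    refine Eq.trans ?_ this.symm
    refine integral_congr_ae (Filter.Eventually.of_forall fun p => ?_)
    simp only
    rw [← hGsymm (p.1 - p.2), neg_sub]
  have v2 : ∫ p : ℝ × ℝ, ‖f p.2‖ ^ 2 * G (p.1 - p.2) = (∫ u, ‖f u‖ ^ 2) * (2 * π) := by
    rw [← hval]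
    have := integral_map (μ := volume.prod volume) m2.measurable.aemeasurable
      (f := fun p : ℝ × ℝ => ‖f p.1‖ ^ 2 * G p.2) (by rw [m2.map_eq]; exact hprod.aestronglyMeasurable)
    rw [m2.map_eq] at this
    exact this.symm
  calc ‖∫ p : ℝ × ℝ, g p * ((√(π / ε) * Real.exp (-(p.1 - p.2) ^ 2 / (4 * ε)) : ℝ) : ℂ)‖
      ≤ ∫ p : ℝ × ℝ, ‖g p * ((√(π / ε) * Real.exp (-(p.1 - p.2) ^ 2 / (4 * ε)) : ℝ) : ℂ)‖ :=
        norm_integral_le_integral_norm _
    _ ≤ ∫ p : ℝ × ℝ, (1 / 2 * (‖f p.1‖ ^ 2 * G (p.1 - p.2)) + 1 / 2 * (‖f p.2‖ ^ 2 * G (p.1 - p.2))) := by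
        apply integral_mono_of_nonneg
        · exact Filter.Eventually.of_forall fun p => norm_nonneg _
        · exact (i1.const_mul _).add (i2.const_mul _)
        · refine Filter.Eventually.of_forall fun p => ?_
          have e4 : ‖g p * ((√(π / ε) * Real.exp (-(p.1 - p.2) ^ 2 / (4 * ε)) : ℝ) : ℂ)‖
              = ‖f p.1‖ * ‖f p.2‖ * G (p.1 - p.2) := by
            rw [norm_mul, Complex.norm_real, Real.norm_of_nonneg (hG0 (p.1 - p.2))]
            simp only [hg, norm_mul, RCLike.norm_conj]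
          show ‖g p * ((√(π / ε) * Real.exp (-(p.1 - p.2) ^ 2 / (4 * ε)) : ℝ) : ℂ)‖ ≤
            1 / 2 * (‖f p.1‖ ^ 2 * G (p.1 - p.2)) + 1 / 2 * (‖f p.2‖ ^ 2 * G (p.1 - p.2))
          rw [e4]
          have h5 := two_mul_le_add_sq ‖f p.1‖ ‖f p.2‖
          have h6 := hG0 (p.1 - p.2)
          nlinarith only [h5, h6]
    _ = 2 * π * ∫ u, ‖f u‖ ^ 2 := by
        have v1' : ∫ p : ℝ × ℝ, ‖f p.1‖ ^ 2 * G (p.1 - p.2) ∂(volume.prod volume) = (∫ u, ‖f u‖ ^ 2) * (2 * π) := v1
        have v2' : ∫ p : ℝ × ℝ, ‖f p.2‖ ^ 2 * G (p.1 - p.2) ∂(volume.prod volume) = (∫ u, ‖f u‖ ^ 2) * (2 * π) := v2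
        have e5 := integral_add (i1.const_mul (1 / 2)) (i2.const_mul (1 / 2))
        refine Eq.trans e5 ?_
        rw [integral_const_mul, integral_const_mul, v1', v2']
        ring

/-- Plancherel inequality on bounded intervals -/
lemma planch {f : ℝ → ℂ} (hf : Integrable f) (hf2 : Integrable (fun u => ‖f u‖ ^ 2)) {a b : ℝ} (hab : a ≤ b) :
    ∫ τ in a..b, ‖FT f τ‖ ^ 2 ≤ 2 * π * ∫ u, ‖f u‖ ^ 2 := by
  set M := max (a ^ 2) (b ^ 2) with hM
  have hM0 : 0 ≤ M := le_max_of_le_left (sq_nonneg _)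
  have hI : 0 ≤ ∫ u, ‖f u‖ ^ 2 := integral_nonneg fun u => sq_nonneg _
  have hcont : Continuous (fun τ => ‖FT f τ‖ ^ 2) := ((continuous_FT hf).norm).pow 2
  have key : ∀ ε : ℝ, 0 < ε → ∫ τ in a..b, ‖FT f τ‖ ^ 2 ≤ Real.exp (ε * M) * (2 * π * ∫ u, ‖f u‖ ^ 2) := by
    intro ε hε
    have h1 := planch_gauss hf hf2 hε
    have hint : Integrable (fun τ : ℝ => Real.exp (-ε * τ ^ 2) * ‖FT f τ‖ ^ 2) := by
      refine ((integrable_exp_neg_mul_sq hε).mul_const ((∫ u, ‖f u‖) ^ 2)).mono ?_ ?_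
      · exact (Continuous.aestronglyMeasurable (by fun_prop))
      · refine Filter.Eventually.of_forall fun τ => ?_
        rw [norm_mul, norm_mul]
        gcongr
        rw [Real.norm_of_nonneg (sq_nonneg _), Real.norm_of_nonneg (sq_nonneg _)]
        gcongr
        exact norm_FT_le τ
    have h2 : ∫ τ in a..b, Real.exp (-ε * τ ^ 2) * ‖FT f τ‖ ^ 2 ≤ 2 * π * ∫ u, ‖f u‖ ^ 2 := by
      rw [intervalIntegral.integral_of_le hab]
      refine le_trans (setIntegral_le_integral hint (Filter.Eventually.of_forall fun τ => ?_)) h1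
      positivity
    have h3 : ∫ τ in a..b, ‖FT f τ‖ ^ 2 ≤ ∫ τ in a..b, Real.exp (ε * M) * (Real.exp (-ε * τ ^ 2) * ‖FT f τ‖ ^ 2) := by
      apply intervalIntegral.integral_mono_on hab (hcont.intervalIntegrable _ _)
      · apply Continuous.intervalIntegrable
        have := continuous_FT hf
        fun_prop
      · intro τ hτ
        have h4 : τ ^ 2 ≤ M := by
          rcases le_or_gt 0 τ with h | h
          · exact le_max_of_le_right (by nlinarith only [hτ, h, hτ.2])
          · exact le_max_of_le_left (by nlinarith only [hτ, h, hτ.1])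
        have h5 : 1 ≤ Real.exp (ε * M) * Real.exp (-ε * τ ^ 2) := by
          rw [← Real.exp_add]
          apply Real.one_le_exp
          nlinarith only [hε, h4]
        calc ‖FT f τ‖ ^ 2 = 1 * ‖FT f τ‖ ^ 2 := (one_mul _).symm
          _ ≤ (Real.exp (ε * M) * Real.exp (-ε * τ ^ 2)) * ‖FT f τ‖ ^ 2 := by gcongr
          _ = _ := by ring
    rw [intervalIntegral.integral_const_mul] at h3
    refine h3.trans ?_
    gcongr
  have hlim : Filter.Tendsto (fun ε : ℝ => Real.exp (ε * M) * (2 * π * ∫ u, ‖f u‖ ^ 2)) (nhdsWithin 0 (Set.Ioi 0))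
      (nhds (2 * π * ∫ u, ‖f u‖ ^ 2)) := by
    have : Filter.Tendsto (fun ε : ℝ => Real.exp (ε * M) * (2 * π * ∫ u, ‖f u‖ ^ 2)) (nhds 0)
      (nhds (Real.exp (0 * M) * (2 * π * ∫ u, ‖f u‖ ^ 2))) := by
      apply Continuous.tendsto; fun_prop
    simp only [zero_mul, Real.exp_zero, one_mul] at this
    exact this.mono_left nhdsWithin_le_nhds
  exact ge_of_tendsto hlim (by filter_upwards [self_mem_nhdsWithin] with ε hε using key ε hε)

end Pool.Agent.Helper57.LH

end

/-! ### Helper57.LH.ThreeLines -/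

section

namespace Pool.Agent.Helper57.LH

open Complex Set MeasureTheory Filter Topology

open Complex.HadamardThreeLines

/-- Cauchy-Schwarz -/
lemma cs_gen {α : Type*} [MeasurableSpace α] {μ : Measure α} {f g : α → ℝ}
    (hf0 : ∀ x, 0 ≤ f x) (hg0 : ∀ x, 0 ≤ g x)
    (hf : AEStronglyMeasurable f μ) (hg : AEStronglyMeasurable g μ)
    (hf2 : Integrable (fun x => f x ^ 2) μ) (hg2 : Integrable (fun x => g x ^ 2) μ) :
    ∫ x, f x * g x ∂μ ≤ Real.sqrt (∫ x, f x ^ 2 ∂μ) * Real.sqrt (∫ x, g x ^ 2 ∂μ) := by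
  have h1 := integral_mul_le_Lp_mul_Lq_of_nonneg (μ := μ) (f := f) (g := g) (p := 2) (q := 2)
    (Real.HolderConjugate.two_two) (Eventually.of_forall hf0) (Eventually.of_forall hg0)
    (by
      have : (ENNReal.ofReal 2) = 2 := by norm_num
      rw [this]; exact (memLp_two_iff_integrable_sq hf).mpr hf2)
    (by
      have : (ENNReal.ofReal 2) = 2 := by norm_num
      rw [this]; exact (memLp_two_iff_integrable_sq hg).mpr hg2)
  have e : ∀ x : ℝ, x ^ (2:ℝ) = x ^ 2 := fun x => by norm_cast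
  simp_rw [e] at h1
  rw [Real.sqrt_eq_rpow, Real.sqrt_eq_rpow]
  exact h1

/-- the smoothed function -/
noncomputable def GK (H : ℂ → ℂ) (φ : ℝ → ℂ) (K : ℝ) (w : ℂ) : ℂ := ∫ t in (-K)..K, H (w + t * I) * φ t

lemma GK_diff {H : ℂ → ℂ} {c : ℝ} (hH : DifferentiableOn ℂ H {s | c < s.re}) {φ : ℝ → ℂ} (hφ : Continuous φ)
    (K : ℝ) : DifferentiableOn ℂ (GK H φ K) {s | c < s.re} := by
  have hU : IsOpen {s : ℂ | c < s.re} := isOpen_lt continuous_const Complex.continuous_re
  intro w0 hw0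
  have hw0' : c < w0.re := hw0
  apply DifferentiableAt.differentiableWithinAt
  set ε := (w0.re - c) / 2 with hε
  have hε0 : 0 < ε := by rw [hε]; linarith only [hw0']
  have hmem : ∀ w ∈ Metric.closedBall w0 ε, ∀ t : ℝ, w + t * I ∈ {s : ℂ | c < s.re} := by
    intro w hw t
    rw [Metric.mem_closedBall, dist_eq_norm] at hw
    have := (Complex.abs_re_le_norm (w - w0)).trans hw
    rw [Complex.sub_re, abs_le] at this
    show c < (w + t * I).re
    simp
    linarith
  have hdc : ContinuousOn (deriv H) {s | c < s.re} := (hH.deriv hU).continuousOn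
  set S : Set ℂ := (fun p : ℂ × ℝ => p.1 + p.2 * I) '' (Metric.closedBall w0 ε ×ˢ uIcc (-K) K) with hS
  have hSc : IsCompact S := by
    apply IsCompact.image
    · exact (isCompact_closedBall _ _).prod isCompact_uIcc
    · fun_prop
  have hSU : S ⊆ {s | c < s.re} := by
    rintro _ ⟨⟨w, t⟩, ⟨hw, _⟩, rfl⟩
    exact hmem w hw t
  obtain ⟨M, hM⟩ := hSc.exists_bound_of_continuousOn (hdc.mono hSU)
  have hline : ∀ w ∈ Metric.closedBall w0 ε, Continuous (fun t : ℝ => H (w + t * I)) := by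
    intro w hw
    rw [continuous_iff_continuousAt]
    intro t
    have h1 : ContinuousAt H (w + t * I) := (hH.continuousOn).continuousAt (hU.mem_nhds (hmem w hw t))
    exact ContinuousAt.comp (f := fun t : ℝ => w + t * I) h1 (by fun_prop)
  have key := intervalIntegral.hasDerivAt_integral_of_dominated_loc_of_deriv_le (μ := volume) (a := -K) (b := K)
      (F := fun w (t:ℝ) => H (w + t * I) * φ t)
      (F' := fun w (t:ℝ) => deriv H (w + t * I) * φ t)
      (x₀ := w0) (s := Metric.ball w0 ε)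
      (bound := fun t : ℝ => M * ‖φ t‖)
      (Metric.ball_mem_nhds _ hε0) ?_ ?_ ?_ ?_ ?_ ?_
  · exact key.2.differentiableAt
  · filter_upwards [Metric.ball_mem_nhds w0 hε0] with w hw
    exact ((hline w (Metric.ball_subset_closedBall hw)).mul hφ).aestronglyMeasurable
  · exact ((hline w0 (Metric.mem_closedBall_self hε0.le)).mul hφ).intervalIntegrable _ _
  · apply Continuous.aestronglyMeasurable
    refine Continuous.mul ?_ hφ
    rw [continuous_iff_continuousAt]
    intro t
    have h1 : ContinuousAt (deriv H) (w0 + t * I) :=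
      hdc.continuousAt (hU.mem_nhds (hmem w0 (Metric.mem_closedBall_self hε0.le) t))
    exact ContinuousAt.comp (f := fun t : ℝ => w0 + t * I) h1 (by fun_prop)
  · refine Eventually.of_forall fun t ht w hw => ?_
    rw [norm_mul]
    gcongr
    exact hM _ ⟨(w, t), ⟨Metric.ball_subset_closedBall hw, uIoc_subset_uIcc ht⟩, rfl⟩
  · exact (hφ.norm.const_mul M).intervalIntegrable _ _
  · refine Eventually.of_forall fun t ht w hw => ?_
    apply HasDerivAt.mul_const
    have h1 : HasDerivAt H (deriv H (w + t * I)) (w + t * I) :=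
      (hH.differentiableAt (hU.mem_nhds (hmem w (Metric.ball_subset_closedBall hw) t))).hasDerivAt
    exact h1.comp_add_const w (t * I)

/-- L² three lines theorem -/
theorem three_lines {H : ℂ → ℂ} {c l u : ℝ} (hcl : c < l) (hlu : l < u)
    (hH : DifferentiableOn ℂ H {s | c < s.re}) {Bd : ℝ} (hBd : ∀ s : ℂ, l ≤ s.re → s.re ≤ u → ‖H s‖ ≤ Bd)
    {A B : ℝ}
    (hAi : Integrable (fun t : ℝ => ‖H (l + t * I)‖ ^ 2)) (hA : ∫ t : ℝ, ‖H (l + t * I)‖ ^ 2 ≤ A)
    (hBi : Integrable (fun t : ℝ => ‖H (u + t * I)‖ ^ 2)) (hB : ∫ t : ℝ, ‖H (u + t * I)‖ ^ 2 ≤ B)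
    {σ : ℝ} (hl : l ≤ σ) (hu : σ ≤ u) {K : ℝ} (hK : 0 ≤ K) :
    ∫ t in (-K)..K, ‖H (σ + t * I)‖ ^ 2 ≤ A ^ (1 - (σ - l) / (u - l)) * B ^ ((σ - l) / (u - l)) := by
  have hU : IsOpen {s : ℂ | c < s.re} := isOpen_lt continuous_const Complex.continuous_re
  have hA0 : 0 ≤ A := le_trans (integral_nonneg fun t => by positivity) hA
  have hB0 : 0 ≤ B := le_trans (integral_nonneg fun t => by positivity) hB
  have hline : ∀ w : ℂ, c < w.re → Continuous (fun t : ℝ => H (w + t * I)) := by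
    intro w hw
    rw [continuous_iff_continuousAt]
    intro t
    have h1 : ContinuousAt H (w + t * I) := (hH.continuousOn).continuousAt (hU.mem_nhds (by
      show c < (w + t * I).re
      simpa using hw))
    exact ContinuousAt.comp (f := fun t : ℝ => w + t * I) h1 (by fun_prop)
  set φ : ℝ → ℂ := fun t => starRingEnd ℂ (H (σ + t * I)) with hφdef
  have hφ : Continuous φ := Complex.continuous_conj.comp (hline σ (by simp; linarith only [hcl, hl]))
  set N := ∫ t in (-K)..K, ‖H (σ + t * I)‖ ^ 2 with hN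
  have hKK : -K ≤ K := by linarith only [hK]
  have hN0 : 0 ≤ N := intervalIntegral.integral_nonneg hKK fun t _ => by positivity
  have hNφ : ∫ t in Ioc (-K) K, ‖φ t‖ ^ 2 = N := by
    rw [hN, intervalIntegral.integral_of_le hKK]
    refine setIntegral_congr_fun measurableSet_Ioc fun t _ => ?_
    rw [hφdef]; simp only; rw [RCLike.norm_conj]
  have hφ2 : Integrable (fun t => ‖φ t‖ ^ 2) (volume.restrict (Ioc (-K) K)) := by
    have : IntervalIntegrable (fun t => ‖φ t‖ ^ 2) volume (-K) K := (hφ.norm.pow 2).intervalIntegrable _ _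
    rwa [intervalIntegrable_iff_integrableOn_Ioc_of_le hKK] at this
  -- pointwise bound via Cauchy-Schwarz
  have hCS : ∀ w : ℂ, c < w.re → ‖GK H φ K w‖ ≤ Real.sqrt (∫ t in Ioc (-K) K, ‖H (w + t * I)‖ ^ 2) * Real.sqrt N := by
    intro w hw
    unfold GK
    rw [intervalIntegral.integral_of_le hKK]
    refine (norm_integral_le_integral_norm _).trans ?_
    rw [← hNφ]
    simp_rw [norm_mul]
    have hc := hline w hw
    apply cs_gen (fun t => norm_nonneg _) (fun t => norm_nonneg _) hc.norm.aestronglyMeasurable hφ.norm.aestronglyMeasurable _ hφ2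
    have : IntervalIntegrable (fun t : ℝ => ‖H (w + t * I)‖ ^ 2) volume (-K) K := (hc.norm.pow 2).intervalIntegrable _ _
    rwa [intervalIntegrable_iff_integrableOn_Ioc_of_le hKK] at this
  have hedge : ∀ {x : ℝ} {D : ℝ}, c < x → Integrable (fun t : ℝ => ‖H (x + t * I)‖ ^ 2) →
      ∫ t : ℝ, ‖H (x + t * I)‖ ^ 2 ≤ D → ∀ z ∈ re ⁻¹' {x}, ‖GK H φ K z‖ ≤ Real.sqrt D * Real.sqrt N := by
    intro x D hx hi hD z hz
    have hzx : z.re = x := hz
    refine (hCS z (by rw [hzx]; exact hx)).trans ?_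
    gcongr
    have e : ∀ t : ℝ, H (z + t * I) = H (x + ((z.im + t : ℝ) : ℂ) * I) := by
      intro t
      congr 1
      rw [← Complex.re_add_im z, hzx]
      push_cast
      simp
      ring
    simp_rw [e]
    calc ∫ t in Ioc (-K) K, ‖H (x + ((z.im + t : ℝ) : ℂ) * I)‖ ^ 2
        ≤ ∫ t : ℝ, ‖H (x + ((z.im + t : ℝ) : ℂ) * I)‖ ^ 2 := by
          apply setIntegral_le_integral
          · exact hi.comp_add_left z.im
          · exact Eventually.of_forall fun t => by positivity
      _ = ∫ t : ℝ, ‖H (x + t * I)‖ ^ 2 := integral_add_left_eq_self (fun t : ℝ => ‖H (x + t * I)‖ ^ 2) z.im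
      _ ≤ D := hD
  have hGd := GK_diff hH hφ K
  have hstrip : closure (verticalStrip l u) ⊆ {s | c < s.re} := by
    have h1 : closure (verticalStrip l u) ⊆ re ⁻¹' Icc l u := by
      apply closure_minimal
      · exact preimage_mono Ioo_subset_Icc_self
      · exact isClosed_Icc.preimage Complex.continuous_re
    refine h1.trans fun s hs => ?_
    exact lt_of_lt_of_le hcl hs.1
  have hDC : DiffContOnCl ℂ (GK H φ K) (verticalStrip l u) := (hGd.mono hstrip).diffContOnCl
  have hBdd : BddAbove ((norm ∘ GK H φ K) '' verticalClosedStrip l u) := by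
    refine ⟨Real.sqrt (Bd ^ 2 * (2 * K)) * Real.sqrt N, ?_⟩
    rintro _ ⟨z, hz, rfl⟩
    have hz1 : l ≤ z.re := hz.1
    have hz2 : z.re ≤ u := hz.2
    refine (hCS z (by linarith)).trans ?_
    gcongr
    calc ∫ t in Ioc (-K) K, ‖H (z + t * I)‖ ^ 2 ≤ ∫ t in Ioc (-K) K, Bd ^ 2 := by
          apply setIntegral_mono_on
          · have : IntervalIntegrable (fun t : ℝ => ‖H (z + t * I)‖ ^ 2) volume (-K) K :=
              (((hline z (by linarith only [hcl, hz1])).norm).pow 2).intervalIntegrable _ _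
            rwa [intervalIntegrable_iff_integrableOn_Ioc_of_le hKK] at this
          · exact integrableOn_const (by simp)
          · exact measurableSet_Ioc
          · intro t _
            have := hBd (z + t * I) (by simpa using hz1) (by simpa using hz2)
            gcongr
      _ = Bd ^ 2 * (2 * K) := by
          rw [setIntegral_const, Measure.real, Real.volume_Ioc, ENNReal.toReal_ofReal (by linarith only [hK]), smul_eq_mul]
          ring
  have hmain := norm_le_interp_of_mem_verticalClosedStrip' hlu (z := (σ:ℂ)) (f := GK H φ K)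
    (by show (σ:ℂ).re ∈ Icc l u; simp [hl, hu]) hDC hBdd
    (hedge hcl hAi hA) (hedge (by linarith only [hcl, hlu]) hBi hB)
  have hval : ‖GK H φ K σ‖ = N := by
    have : GK H φ K σ = ((N : ℝ) : ℂ) := by
      unfold GK
      rw [hN, ← intervalIntegral.integral_ofReal]
      refine intervalIntegral.integral_congr fun t _ => ?_
      rw [hφdef]
      simp only
      rw [Complex.mul_conj']
      push_cast; rfl
    rw [this, Complex.norm_real, Real.norm_of_nonneg hN0]
  rw [hval, Complex.ofReal_re] at hmain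
  set θ := (σ - l) / (u - l) with hθ
  have hθ0 : 0 ≤ θ := div_nonneg (by linarith only [hl]) (by linarith only [hlu])
  have hθ1 : θ ≤ 1 := by rw [hθ, div_le_one (by linarith only [hlu])]; linarith only [hu]
  have hsA := Real.sqrt_nonneg A
  have hsB := Real.sqrt_nonneg B
  have hsN := Real.sqrt_nonneg N
  have h1 : (Real.sqrt A * Real.sqrt N) ^ (1 - θ) * (Real.sqrt B * Real.sqrt N) ^ θ =
      (Real.sqrt A ^ (1 - θ) * Real.sqrt B ^ θ) * Real.sqrt N := by
    rw [Real.mul_rpow hsA hsN, Real.mul_rpow hsB hsN]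
    have : Real.sqrt N ^ (1 - θ) * Real.sqrt N ^ θ = Real.sqrt N := by
      rcases eq_or_lt_of_le hsN with h | h
      · rw [← h]
        rcases eq_or_ne θ 0 with h0 | h0
        · rw [h0]; simp
        · rw [Real.zero_rpow h0, mul_zero]
      · rw [← Real.rpow_add h]; simp
    calc _ = (Real.sqrt A ^ (1 - θ) * Real.sqrt B ^ θ) * (Real.sqrt N ^ (1 - θ) * Real.sqrt N ^ θ) := by ring
      _ = _ := by rw [this]
  rw [h1] at hmain
  rcases eq_or_lt_of_le hN0 with h | h
  · rw [← h]; positivity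
  have hsNpos : 0 < Real.sqrt N := Real.sqrt_pos.mpr h
  have h2 : Real.sqrt N ≤ Real.sqrt A ^ (1 - θ) * Real.sqrt B ^ θ := by
    have h3 : Real.sqrt N * Real.sqrt N ≤ (Real.sqrt A ^ (1 - θ) * Real.sqrt B ^ θ) * Real.sqrt N := by
      rw [Real.mul_self_sqrt hN0]; exact hmain
    exact le_of_mul_le_mul_right h3 hsNpos
  calc N = Real.sqrt N ^ 2 := (Real.sq_sqrt hN0).symm
    _ ≤ (Real.sqrt A ^ (1 - θ) * Real.sqrt B ^ θ) ^ 2 := by gcongr
    _ = (Real.sqrt A ^ 2) ^ (1 - θ) * (Real.sqrt B ^ 2) ^ θ := by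
        rw [mul_pow, ← Real.rpow_natCast, ← Real.rpow_natCast, ← Real.rpow_mul hsA, ← Real.rpow_mul hsB,
          ← Real.rpow_natCast, ← Real.rpow_natCast, ← Real.rpow_mul hsA, ← Real.rpow_mul hsB]
        congr 2 <;> ring
    _ = _ := by rw [Real.sq_sqrt hA0, Real.sq_sqrt hB0]

end Pool.Agent.Helper57.LH

end

/-! ### Helper57.LS.L2 -/

section

namespace Pool.Agent.Helper57.LS

open Set MeasureTheory Filter Topology

open Pool.Agent.Helper57.LH

open Pool.Agent.Helper57.Zeta

/-- Cauchy-Schwarz for continuous functions on a compact interval -/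
lemma cs_icc {f g : ℝ → ℝ} (hf : Continuous f) (hg : Continuous g) (a b : ℝ) :
    |∫ t in Icc a b, f t * g t| ≤ Real.sqrt (∫ t in Icc a b, f t ^ 2) * Real.sqrt (∫ t in Icc a b, g t ^ 2) := by
  have h := cs_gen (μ := volume.restrict (Icc a b)) (f := fun t => |f t|) (g := fun t => |g t|) (fun _ => abs_nonneg _)
    (fun t => abs_nonneg _) hf.abs.aestronglyMeasurable hg.abs.aestronglyMeasurable
    ((hf.abs.pow 2).continuousOn.integrableOn_compact isCompact_Icc)
    ((hg.abs.pow 2).continuousOn.integrableOn_compact isCompact_Icc)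
  simp_rw [sq_abs] at h
  refine le_trans ?_ h
  rw [← Real.norm_eq_abs]
  refine (norm_integral_le_integral_norm _).trans (le_of_eq ?_)
  congr 1
  funext t
  rw [Real.norm_eq_abs, abs_mul]

lemma ioc {f : ℝ → ℝ} (hf : Continuous f) (a b : ℝ) : IntegrableOn f (Icc a b) :=
  hf.continuousOn.integrableOn_compact isCompact_Icc

lemma shift_int {f : ℝ → ℝ} (hf : Continuous f) (h0 : ∀ t, 0 ≤ f t) {a b a' b' δ : ℝ} (ha : a' ≤ a + δ) (hb : b + δ ≤ b') :
    ∫ t in Icc a b, f (t + δ) ≤ ∫ t in Icc a' b', f t := by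
  have h1 : ∫ t in Icc a b, f (t + δ) = ∫ t in Icc (a + δ) (b + δ), f t := by
    have h2 : ∫ t, (Icc (a + δ) (b + δ)).indicator f (t + δ) = ∫ t, (Icc (a + δ) (b + δ)).indicator f t :=
      integral_add_right_eq_self _ δ
    rw [← integral_indicator measurableSet_Icc, ← integral_indicator measurableSet_Icc, ← h2]
    congr 1
    funext t
    by_cases h : t ∈ Icc a b
    · have h' : t + δ ∈ Icc (a + δ) (b + δ) := ⟨by linarith [h.1], by linarith [h.2]⟩
      rw [indicator_of_mem h, indicator_of_mem h']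
    · have h' : t + δ ∉ Icc (a + δ) (b + δ) := fun h' => h ⟨by linarith only [h', h'.1], by linarith [h'.2]⟩
      rw [indicator_of_notMem h, indicator_of_notMem h']
  rw [h1]
  apply setIntegral_mono_set (ioc hf a' b')
  · exact Eventually.of_forall h0
  · exact (Icc_subset_Icc ha hb).eventuallyLE

end Pool.Agent.Helper57.LS

end

/-! ### Helper57.LS.OddA -/

section

namespace Pool.Agent.Helper57.LS

open Set MeasureTheory Filter Topology

open Pool.Agent.Helper57.LH

open scoped SchwartzMap FourierTransform ContDiff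

/-- a Schwartz function whose sine transform is the identity on `[0,1]` -/
theorem exists_sine : ∃ a : 𝓢(ℝ, ℝ), ∀ ξ ∈ Icc (0:ℝ) 1, ∫ t, a t * Real.sin (2 * Real.pi * t * ξ) = ξ := by
  -- a bump function equal to one on [-1,1]
  let χ : ContDiffBump (0:ℝ) := ⟨1, 2, one_pos, one_lt_two⟩
  have hm1 : HasCompactSupport (fun ξ : ℝ => ((ξ * χ ξ : ℝ) : ℂ)) := by
    have : HasCompactSupport (fun ξ : ℝ => (ξ * χ ξ : ℝ)) := χ.hasCompactSupport.mul_left
    exact this.comp_left (g := fun x : ℝ => (x : ℂ)) (by simp)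
  have hm2 : ContDiff ℝ ∞ (fun ξ : ℝ => ((ξ * χ ξ : ℝ) : ℂ)) :=
    Complex.ofRealCLM.contDiff.comp (contDiff_id.mul χ.contDiff)
  let M : 𝓢(ℝ, ℂ) := hm1.toSchwartzMap hm2
  have hM : ∀ ξ, M ξ = ((ξ * χ ξ : ℝ) : ℂ) := fun ξ => rfl
  let A : 𝓢(ℝ, ℂ) := 𝓕⁻ M
  have hA : 𝓕 A = M := FourierTransform.fourier_fourierInv_eq M
  let a : 𝓢(ℝ, ℝ) := A.postcompCLM Complex.imCLM
  have ha : ∀ t, a t = (A t).im := by
    intro t
    change (A.postcompCLM Complex.imCLM) t = _
    rw [SchwartzMap.postcompCLM_apply]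
    rfl
  have hint : ∀ ξ : ℝ, Integrable (fun t : ℝ => Complex.exp ((-(2 * Real.pi * t * ξ) : ℝ) * Complex.I) * A t) := by
    intro ξ
    have hI : Integrable (fun t : ℝ => A t) := A.integrable
    refine hI.mono ?_ ?_
    · apply Continuous.aestronglyMeasurable
      have := A.continuous
      fun_prop
    · filter_upwards with x
      rw [norm_mul, Complex.norm_exp_ofReal_mul_I, one_mul]
  have hF : ∀ ξ : ℝ, ((ξ * χ ξ : ℝ) : ℂ) = ∫ t : ℝ, Complex.exp ((-(2 * Real.pi * t * ξ) : ℝ) * Complex.I) * A t := by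
    intro ξ
    rw [← hM ξ, ← hA, SchwartzMap.fourier_coe, Real.fourier_eq']
    congr 1
    funext t
    rw [smul_eq_mul]
    congr 3
    push_cast
    simp
    ring
  have hR : ∀ ξ : ℝ, ξ * χ ξ = ∫ t : ℝ, ((A t).re * Real.cos (2 * Real.pi * t * ξ) + (A t).im * Real.sin (2 * Real.pi * t * ξ)) := by
    intro ξ
    have h := congrArg Complex.re (hF ξ)
    rw [Complex.ofReal_re, ← Complex.reCLM_apply (∫ t : ℝ, _), ← Complex.reCLM.integral_comp_comm (hint ξ)] at h
    rw [h]
    congr 1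
    funext t
    rw [Complex.reCLM_apply, Complex.mul_re, Complex.exp_ofReal_mul_I_re, Complex.exp_ofReal_mul_I_im, Real.cos_neg, Real.sin_neg]
    ring
  have hint2 : ∀ ξ : ℝ, Integrable (fun t : ℝ => ((A t).re * Real.cos (2 * Real.pi * t * ξ) + (A t).im * Real.sin (2 * Real.pi * t * ξ))) := by
    intro ξ
    have h := (hint ξ).re
    refine h.congr ?_
    filter_upwards with t
    simp only [RCLike.re_to_complex]
    rw [Complex.mul_re, Complex.exp_ofReal_mul_I_re, Complex.exp_ofReal_mul_I_im, Real.cos_neg, Real.sin_neg]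
    ring
  refine ⟨a, fun ξ hξ => ?_⟩
  have h1 := hR ξ
  have h2 := hR (-ξ)
  have hχ : χ ξ = 1 := χ.one_of_mem_closedBall (by
    rw [mem_closedBall_zero_iff, Real.norm_eq_abs, abs_of_nonneg hξ.1]
    exact hξ.2)
  have hχ' : χ (-ξ) = 1 := χ.one_of_mem_closedBall (by
    rw [mem_closedBall_zero_iff, Real.norm_eq_abs, abs_neg, abs_of_nonneg hξ.1]
    exact hξ.2)
  rw [hχ, mul_one] at h1
  rw [hχ', mul_one] at h2
  have h3 := integral_sub (hint2 ξ) (hint2 (-ξ))
  rw [← h1, ← h2] at h3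
  have h4 : ∫ t : ℝ, ((A t).re * Real.cos (2 * Real.pi * t * ξ) + (A t).im * Real.sin (2 * Real.pi * t * ξ) -
      ((A t).re * Real.cos (2 * Real.pi * t * -ξ) + (A t).im * Real.sin (2 * Real.pi * t * -ξ))) = ∫ t : ℝ, 2 * ((A t).im * Real.sin (2 * Real.pi * t * ξ)) := by
    congr 1
    funext t
    rw [mul_neg, Real.cos_neg, Real.sin_neg]
    ring
  rw [h4, integral_const_mul] at h3
  simp_rw [ha]
  linarith

end Pool.Agent.Helper57.LS

end

/-! ### Helper4.PC.CT -/

section

namespace Pool.Agent.Helper4.PC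

open Set MeasureTheory Filter Topology

open scoped FourierTransform

/-- the cosine transform -/
noncomputable def CT (A : ℝ → ℝ) (u : ℝ) : ℝ := ∫ ξ, A ξ * Real.cos (2 * Real.pi * u * ξ)

lemma norm_cos_le (x : ℝ) : ‖Real.cos x‖ ≤ 1 := Real.abs_cos_le_one x

lemma CT_int {A : ℝ → ℝ} (hA : Integrable A) (u : ℝ) :
    Integrable (fun ξ => A ξ * Real.cos (2 * Real.pi * u * ξ)) := by
  refine hA.norm.mono' (hA.aestronglyMeasurable.mul (by fun_prop)) ?_
  filter_upwards with ξ
  rw [norm_mul]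
  exact mul_le_of_le_one_right (norm_nonneg _) (norm_cos_le _)

lemma CT_cont {A : ℝ → ℝ} (hA : Integrable A) : Continuous (CT A) := by
  unfold CT
  apply continuous_of_dominated (bound := fun ξ => ‖A ξ‖)
  · intro u; exact (CT_int hA u).aestronglyMeasurable
  · intro u
    filter_upwards with ξ
    rw [norm_mul]
    exact mul_le_of_le_one_right (norm_nonneg _) (norm_cos_le _)
  · exact hA.norm
  · filter_upwards with ξ
    fun_prop

lemma CT_even (A : ℝ → ℝ) (u : ℝ) : CT A (-u) = CT A u := by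
  unfold CT
  congr 1; funext ξ
  rw [← Real.cos_neg]
  congr 2; ring

lemma CT_abs_le {A : ℝ → ℝ} (hA : Integrable A) (u : ℝ) : |CT A u| ≤ ∫ ξ, |A ξ| := by
  unfold CT
  have h0 := norm_integral_le_integral_norm (μ := volume) (fun ξ => A ξ * Real.cos (2 * Real.pi * u * ξ))
  refine h0.trans ?_
  apply integral_mono_of_nonneg
  · filter_upwards with ξ; positivity
  · exact hA.abs
  · filter_upwards with ξ
    rw [norm_mul]
    exact mul_le_of_le_one_right (norm_nonneg _) (norm_cos_le _)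

/-- for even functions the Fourier transform is the cosine transform -/
lemma fourier_eq_CT {A : ℝ → ℝ} (hA : Integrable A) (he : ∀ x, A (-x) = A x) (u : ℝ) :
    𝓕 (fun x => (A x : ℂ)) u = (CT A u : ℂ) := by
  rw [Real.fourier_real_eq_integral_exp_smul]
  set f : ℝ → ℂ := fun v => Complex.exp (↑(-2 * Real.pi * v * u) * Complex.I) • (A v : ℂ) with hf
  have hfi : Integrable f := by
    refine hA.norm.mono' ?_ ?_
    · have m1 : AEStronglyMeasurable (fun v : ℝ => Complex.exp (↑(-2 * Real.pi * v * u) * Complex.I)) volume := by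
        apply Continuous.aestronglyMeasurable; fun_prop
      have m2 : AEStronglyMeasurable (fun v : ℝ => (A v : ℂ)) volume :=
        Complex.continuous_ofReal.comp_aestronglyMeasurable hA.aestronglyMeasurable
      exact m1.smul m2
    · filter_upwards with v
      rw [hf]
      simp only
      rw [norm_smul, Complex.norm_exp_ofReal_mul_I, one_mul, Complex.norm_real]
  have h1 : ∫ v, f v = ∫ v, f (-v) := (integral_neg_eq_self f volume).symm
  have h2 : 2 * ∫ v, f v = ∫ v, (f v + f (-v)) := by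
    rw [integral_add hfi hfi.comp_neg, ← h1]; ring
  have h3 : ∀ v, f v + f (-v) = 2 * ((A v * Real.cos (2 * Real.pi * u * v) : ℝ) : ℂ) := by
    intro v
    rw [hf]
    simp only
    rw [he]
    push_cast
    rw [Complex.cos]
    simp only [smul_eq_mul]
    have e1 : -2 * (Real.pi:ℂ) * v * u * Complex.I = -(2 * Real.pi * u * v) * Complex.I := by ring
    have e2 : -2 * (Real.pi:ℂ) * -v * u * Complex.I = (2 * Real.pi * u * v) * Complex.I := by ring
    rw [e1, e2]
    ring
  simp_rw [h3] at h2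
  rw [integral_const_mul] at h2
  have h4 : (2:ℂ) ≠ 0 := two_ne_zero
  have h5 := mul_left_cancel₀ h4 h2
  rw [h5, integral_complex_ofReal]
  rfl

/-- inversion -/
lemma CT_CT {A : ℝ → ℝ} (hc : Continuous A) (hA : Integrable A) (he : ∀ x, A (-x) = A x)
    (hi : Integrable (CT A)) (x : ℝ) : CT (CT A) x = A x := by
  have h1 : 𝓕 (fun x => (A x : ℂ)) = fun u => (CT A u : ℂ) := by
    funext u; exact fourier_eq_CT hA he u
  have h2 : Continuous (fun x => (A x : ℂ)) := Complex.continuous_ofReal.comp hc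
  have h3 := h2.fourierInv_fourier_eq hA.ofReal (by rw [h1]; exact hi.ofReal)
  have h4 := congrFun h3 x
  rw [h1, Real.fourierInv_eq_fourier_neg, fourier_eq_CT hi (CT_even A), CT_even] at h4
  exact_mod_cast h4

/-- the transform of a product -/
lemma CT_mul_CT {A S : ℝ → ℝ} (hA : Integrable A) (hS : Integrable S) (u : ℝ) :
    CT (fun ξ => A ξ * CT S ξ) u = (1 / 2) * ((∫ s, S s * CT A (u - s)) + ∫ s, S s * CT A (-u - s)) := by
  have hprod : Integrable (fun p : ℝ × ℝ => S p.1 * A p.2) (volume.prod volume) := hS.mul_prod hA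
  have e1 : CT (fun ξ => A ξ * CT S ξ) u = ∫ ξ, ∫ s, S s * A ξ * (Real.cos (2 * Real.pi * ξ * s) * Real.cos (2 * Real.pi * u * ξ)) := by
    unfold CT
    congr 1; funext ξ
    simp only
    rw [← integral_const_mul, ← integral_mul_const]
    congr 1; funext s
    ring
  have hSA : ∀ v, Integrable (fun s => S s * CT A (v - s)) := by
    intro v
    refine (hS.norm.mul_const (∫ ξ, |A ξ|)).mono' (hS.aestronglyMeasurable.mul ((CT_cont hA).comp (by fun_prop)).aestronglyMeasurable) ?_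
    filter_upwards with s
    rw [norm_mul]
    exact mul_le_mul_of_nonneg_left (CT_abs_le hA _) (norm_nonneg _)
  rw [e1, ← integral_add (hSA u) (hSA (-u)), ← integral_const_mul, integral_integral_swap]
  · congr 1; funext s
    unfold CT
    have i1 := CT_int hA (u - s)
    have i2 := CT_int hA (-u - s)
    rw [← mul_add, ← integral_add i1 i2, ← integral_const_mul, ← integral_const_mul]
    congr 1; funext ξ
    have h1 : Real.cos (2 * Real.pi * (u - s) * ξ) = Real.cos (2 * Real.pi * u * ξ) * Real.cos (2 * Real.pi * ξ * s) + Real.sin (2 * Real.pi * u * ξ) * Real.sin (2 * Real.pi * ξ * s) := by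
      rw [← Real.cos_sub]; congr 1; ring
    have h2 : Real.cos (2 * Real.pi * (-u - s) * ξ) = Real.cos (2 * Real.pi * u * ξ) * Real.cos (2 * Real.pi * ξ * s) - Real.sin (2 * Real.pi * u * ξ) * Real.sin (2 * Real.pi * ξ * s) := by
      rw [← Real.cos_add, ← Real.cos_neg]; congr 1; ring
    rw [h1, h2]
    ring
  · have h0 : Integrable (fun p : ℝ × ℝ => A p.1 * S p.2) (volume.prod volume) := hA.mul_prod hS
    refine h0.norm.mono' ?_ ?_
    · have : (Function.uncurry fun (ξ s : ℝ) => S s * A ξ * (Real.cos (2 * Real.pi * ξ * s) * Real.cos (2 * Real.pi * u * ξ))) =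
        fun p : ℝ × ℝ => (A p.1 * S p.2) * (Real.cos (2 * Real.pi * p.1 * p.2) * Real.cos (2 * Real.pi * u * p.1)) := by
        funext p; simp only [Function.uncurry]; ring
      rw [this]
      exact h0.aestronglyMeasurable.mul (Continuous.aestronglyMeasurable (by fun_prop))
    · filter_upwards with p
      simp only [Function.uncurry]
      rw [norm_mul, norm_mul (Real.cos _), mul_comm (S p.2)]
      have h1 := norm_cos_le (2 * Real.pi * p.1 * p.2)
      have h2 := norm_cos_le (2 * Real.pi * u * p.1)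
      have h3 : ‖Real.cos (2 * Real.pi * p.1 * p.2)‖ * ‖Real.cos (2 * Real.pi * u * p.1)‖ ≤ 1 :=
        mul_le_one₀ h1 (norm_nonneg _) h2
      exact mul_le_of_le_one_right (norm_nonneg _) h3

/-- scaling -/
lemma CT_scale (A : ℝ → ℝ) {B : ℝ} (hB : 0 < B) (u : ℝ) :
    CT (fun ξ => A (B * ξ)) u = (1 / B) * CT A (u / B) := by
  unfold CT
  have h := Measure.integral_comp_mul_left (fun ξ => A ξ * Real.cos (2 * Real.pi * (u / B) * ξ)) B
  rw [abs_of_pos (inv_pos.mpr hB), smul_eq_mul] at h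
  rw [one_div, ← h]
  congr 1; funext ξ
  congr 2
  field_simp

lemma CT_const_mul (c : ℝ) (A : ℝ → ℝ) (u : ℝ) : CT (fun ξ => c * A ξ) u = c * CT A u := by
  unfold CT
  rw [← integral_const_mul]
  congr 1; funext ξ; ring

/-- modulation -/
lemma CT_mod {A : ℝ → ℝ} (hA : Integrable A) (v u : ℝ) :
    CT (fun ξ => A ξ * Real.cos (2 * Real.pi * v * ξ)) u = (1 / 2) * (CT A (u - v) + CT A (u + v)) := by
  unfold CT
  have i1 := CT_int hA (u - v)
  have i2 := CT_int hA (u + v)
  rw [← integral_add i1 i2, ← integral_const_mul]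
  congr 1; funext ξ
  have h1 : Real.cos (2 * Real.pi * (u - v) * ξ) = Real.cos (2 * Real.pi * u * ξ) * Real.cos (2 * Real.pi * v * ξ) + Real.sin (2 * Real.pi * u * ξ) * Real.sin (2 * Real.pi * v * ξ) := by
    rw [← Real.cos_sub]; congr 1; ring
  have h2 : Real.cos (2 * Real.pi * (u + v) * ξ) = Real.cos (2 * Real.pi * u * ξ) * Real.cos (2 * Real.pi * v * ξ) - Real.sin (2 * Real.pi * u * ξ) * Real.sin (2 * Real.pi * v * ξ) := by
    rw [← Real.cos_add]; congr 1; ring
  rw [h1, h2]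
  ring

/-- integral of the transform -/
lemma integral_CT_zero {A : ℝ → ℝ} (u : ℝ) (hu : u = 0) : CT A u = ∫ ξ, A ξ := by
  unfold CT
  rw [hu]
  simp

end Pool.Agent.Helper4.PC

end

/-! ### Helper4.PC.Quad -/

section

namespace Pool.Agent.Helper4.PC

open Set MeasureTheory Filter Topology

/-- bilinear sums over two measures -/
noncomputable def II (μ ν : Measure ℝ) (φ : ℝ → ℝ) : ℝ := ∫ x, ∫ y, φ (x - y) ∂ν ∂μ

noncomputable def cm (μ : Measure ℝ) (ξ : ℝ) : ℝ := ∫ x, Real.cos (2 * Real.pi * x * ξ) ∂μ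

noncomputable def sm (μ : Measure ℝ) (ξ : ℝ) : ℝ := ∫ x, Real.sin (2 * Real.pi * x * ξ) ∂μ

section

variable (μ ν : Measure ℝ) [IsFiniteMeasure μ] [IsFiniteMeasure ν]

lemma cos_int (ξ : ℝ) : Integrable (fun x => Real.cos (2 * Real.pi * x * ξ)) μ := by
  apply Integrable.of_bound (C := 1)
  · apply Continuous.aestronglyMeasurable; fun_prop
  · filter_upwards with x; exact norm_cos_le _

lemma sin_int (ξ : ℝ) : Integrable (fun x => Real.sin (2 * Real.pi * x * ξ)) μ := by
  apply Integrable.of_bound (C := 1)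
  · apply Continuous.aestronglyMeasurable; fun_prop
  · filter_upwards with x; exact Real.abs_sin_le_one _

lemma cm_cont : Continuous (cm μ) := by
  unfold cm
  apply continuous_of_dominated (bound := fun _ => 1)
  · intro u; exact (cos_int μ u).aestronglyMeasurable
  · intro u; filter_upwards with x; exact norm_cos_le _
  · exact integrable_const _
  · filter_upwards with x; fun_prop

lemma sm_cont : Continuous (sm μ) := by
  unfold sm
  apply continuous_of_dominated (bound := fun _ => 1)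
  · intro u; exact (sin_int μ u).aestronglyMeasurable
  · intro u; filter_upwards with x; exact Real.abs_sin_le_one _
  · exact integrable_const _
  · filter_upwards with x; fun_prop

lemma cm_le (ξ : ℝ) : |cm μ ξ| ≤ μ.real univ := by
  unfold cm
  have h := norm_integral_le_of_norm_le_const (μ := μ) (f := fun x => Real.cos (2 * Real.pi * x * ξ)) (C := 1)
    (by filter_upwards with x; exact norm_cos_le _)
  rwa [one_mul] at h

lemma sm_le (ξ : ℝ) : |sm μ ξ| ≤ μ.real univ := by
  unfold sm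
  have h := norm_integral_le_of_norm_le_const (μ := μ) (f := fun x => Real.sin (2 * Real.pi * x * ξ)) (C := 1)
    (by filter_upwards with x; exact Real.abs_sin_le_one _)
  rwa [one_mul] at h

lemma cc_eq (ξ : ℝ) : cm μ ξ * cm ν ξ + sm μ ξ * sm ν ξ = ∫ p : ℝ × ℝ, Real.cos (2 * Real.pi * (p.1 - p.2) * ξ) ∂(μ.prod ν) := by
  unfold cm sm
  rw [← integral_prod_mul, ← integral_prod_mul, ← integral_add]
  · congr 1; funext p
    rw [← Real.cos_sub]; congr 1; ring
  · exact (cos_int μ ξ).mul_prod (cos_int ν ξ)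
  · exact (sin_int μ ξ).mul_prod (sin_int ν ξ)

lemma phi_int {φ : ℝ → ℝ} (hc : Continuous φ) {C : ℝ} (hb : ∀ x, |φ x| ≤ C) :
    Integrable (fun p : ℝ × ℝ => φ (p.1 - p.2)) (μ.prod ν) := by
  apply Integrable.of_bound (C := C)
  · apply Continuous.aestronglyMeasurable; fun_prop
  · filter_upwards with x; exact hb _

lemma II_prod {φ : ℝ → ℝ} (hc : Continuous φ) {C : ℝ} (hb : ∀ x, |φ x| ≤ C) :
    II μ ν φ = ∫ p : ℝ × ℝ, φ (p.1 - p.2) ∂(μ.prod ν) := by
  unfold II
  rw [integral_prod _ (phi_int μ ν hc hb)]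

lemma CT_II {A : ℝ → ℝ} (hA : Integrable A) :
    II μ ν (CT A) = ∫ ξ, A ξ * (cm μ ξ * cm ν ξ + sm μ ξ * sm ν ξ) := by
  rw [II_prod μ ν (CT_cont hA) (CT_abs_le hA)]
  have e1 : ∀ ξ, A ξ * (cm μ ξ * cm ν ξ + sm μ ξ * sm ν ξ) = ∫ p : ℝ × ℝ, A ξ * Real.cos (2 * Real.pi * (p.1 - p.2) * ξ) ∂(μ.prod ν) := by
    intro ξ
    rw [cc_eq, integral_const_mul]
  simp_rw [e1]
  unfold CT
  rw [integral_integral_swap]
  have h0 : Integrable (fun q : (ℝ × ℝ) × ℝ => (1:ℝ) * A q.2) ((μ.prod ν).prod volume) :=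
    (integrable_const (1:ℝ)).mul_prod hA
  refine h0.norm.mono' ?_ ?_
  · have : (Function.uncurry fun (p : ℝ × ℝ) (ξ : ℝ) => A ξ * Real.cos (2 * Real.pi * (p.1 - p.2) * ξ)) =
      fun q : (ℝ × ℝ) × ℝ => ((1:ℝ) * A q.2) * Real.cos (2 * Real.pi * (q.1.1 - q.1.2) * q.2) := by
      funext q; simp only [Function.uncurry]; ring
    rw [this]
    exact h0.aestronglyMeasurable.mul (Continuous.aestronglyMeasurable (by fun_prop))
  · filter_upwards with q
    simp only [Function.uncurry, one_mul]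
    rw [norm_mul]
    exact mul_le_of_le_one_right (norm_nonneg _) (norm_cos_le _)

/-- the quadratic form of the signed measure μ - ν -/
noncomputable def QQ (φ : ℝ → ℝ) : ℝ := II μ μ φ - 2 * II μ ν φ + II ν ν φ

noncomputable def DD (ξ : ℝ) : ℝ := (cm μ ξ - cm ν ξ) ^ 2 + (sm μ ξ - sm ν ξ) ^ 2

lemma cmm_int {A : ℝ → ℝ} (hA : Integrable A) : Integrable (fun ξ => A ξ * (cm μ ξ * cm ν ξ + sm μ ξ * sm ν ξ)) := by
  refine (hA.norm.mul_const (2 * (μ.real univ * ν.real univ))).mono' ?_ ?_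
  · exact hA.aestronglyMeasurable.mul (((cm_cont μ).mul (cm_cont ν)).add ((sm_cont μ).mul (sm_cont ν))).aestronglyMeasurable
  · filter_upwards with ξ
    rw [norm_mul]
    apply mul_le_mul_of_nonneg_left _ (norm_nonneg _)
    refine (norm_add_le _ _).trans ?_
    rw [norm_mul, norm_mul]
    have h1 : ‖cm μ ξ‖ * ‖cm ν ξ‖ ≤ μ.real univ * ν.real univ :=
      mul_le_mul (cm_le μ ξ) (cm_le ν ξ) (norm_nonneg _) measureReal_nonneg
    have h2 : ‖sm μ ξ‖ * ‖sm ν ξ‖ ≤ μ.real univ * ν.real univ :=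
      mul_le_mul (sm_le μ ξ) (sm_le ν ξ) (norm_nonneg _) measureReal_nonneg
    linarith

lemma QQ_eq {A : ℝ → ℝ} (hA : Integrable A) : QQ μ ν (CT A) = ∫ ξ, A ξ * DD μ ν ξ := by
  unfold QQ
  have i12 : Integrable (fun ξ => A ξ * (cm μ ξ * cm μ ξ + sm μ ξ * sm μ ξ) - 2 * (A ξ * (cm μ ξ * cm ν ξ + sm μ ξ * sm ν ξ))) :=
    (cmm_int μ μ hA).sub ((cmm_int μ ν hA).const_mul 2)
  rw [CT_II μ μ hA, CT_II μ ν hA, CT_II ν ν hA, ← integral_const_mul, ← integral_sub (cmm_int μ μ hA) ((cmm_int μ ν hA).const_mul 2),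
    ← integral_add i12 (cmm_int ν ν hA)]
  congr 1; funext ξ
  unfold DD
  ring

omit [IsFiniteMeasure μ] [IsFiniteMeasure ν] in
lemma DD_nonneg (ξ : ℝ) : 0 ≤ DD μ ν ξ := by unfold DD; positivity

lemma DD_int {A : ℝ → ℝ} (hA : Integrable A) : Integrable (fun ξ => A ξ * DD μ ν ξ) := by
  have h := ((cmm_int μ μ hA).sub ((cmm_int μ ν hA).const_mul 2)).add (cmm_int ν ν hA)
  refine h.congr ?_
  filter_upwards with ξ
  simp only [Pi.add_apply, Pi.sub_apply]
  unfold DD
  ring

/-- domination -/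
theorem QQ_dom {A A' : ℝ → ℝ} (hA : Integrable A) (hA' : Integrable A') (h : ∀ ξ, |A ξ| ≤ A' ξ) :
    |QQ μ ν (CT A)| ≤ QQ μ ν (CT A') := by
  rw [QQ_eq μ ν hA, QQ_eq μ ν hA']
  have h0 := norm_integral_le_integral_norm (μ := volume) (fun ξ => A ξ * DD μ ν ξ)
  refine h0.trans ?_
  apply integral_mono (DD_int μ ν hA).norm (DD_int μ ν hA')
  intro ξ
  simp only
  rw [norm_mul, Real.norm_of_nonneg (DD_nonneg μ ν ξ)]
  exact mul_le_mul_of_nonneg_right (h ξ) (DD_nonneg μ ν ξ)

omit [IsFiniteMeasure μ] in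
lemma QQ_zero (φ : ℝ → ℝ) : QQ μ 0 φ = II μ μ φ := by
  unfold QQ II
  simp

theorem II_dom {A A' : ℝ → ℝ} (hA : Integrable A) (hA' : Integrable A') (h : ∀ ξ, |A ξ| ≤ A' ξ) :
    |II μ μ (CT A)| ≤ II μ μ (CT A') := by
  have := QQ_dom μ 0 hA hA' h
  rwa [QQ_zero, QQ_zero] at this

end

end Pool.Agent.Helper4.PC

end
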