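import Pool.Agent.Helper57.M.A
import Pool.Agent.Helper57.M.B
import Pool.Agent.Helper57.M.Z

/-!
# Merged library file (short import chain), part D
-/

/-! ### Helper57.LH.Omega -/

section

namespace Pool.Agent.Helper57.LH

open Complex MeasureTheory Filter Topology Finset

/-- mollified theta remainder -/
noncomputable def Om (X : ℝ) (z : ℂ) (x : ℝ) : ℂ := ∑ h ∈ Ioc 0 ⌊X⌋₊, (amol X h : ℂ) * om z ((h:ℝ) ^ 2 * x)

/-- the mollifier -/
noncomputable def Mol (X : ℝ) (w : ℂ) : ℂ := ∑ h ∈ Ioc 0 ⌊X⌋₊, (amol X h : ℂ) * (h:ℂ) ^ (-w)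

lemma Om_mellin {z : ℂ} (hz : 0 < z.re) (X : ℝ) {s : ℂ} (hs : 0 < s.re) (hs2 : s.re < 1 / 2) :
    HasMellin (Om X z) s (Mol X (2 * s) * (2 * z ^ (-s) * completedRiemannZeta (2 * s))) := by
  have h1 : ∀ h ∈ Ioc 0 ⌊X⌋₊, HasMellin (fun x => (amol X h : ℂ) * om z ((h:ℝ) ^ 2 * x)) s
      ((amol X h : ℂ) * ((h:ℂ) ^ (-(2 * s)) * (2 * z ^ (-s) * completedRiemannZeta (2 * s)))) := by
    intro h hh
    rw [mem_Ioc] at hh
    have hh0 : (0:ℝ) < h := by exact_mod_cast hh.1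
    have hh2 : (0:ℝ) < (h:ℝ) ^ 2 := by positivity
    have hc := (MellinConvergent.comp_mul_left (f := om z) (s := s) hh2)
    have hm := mellin_comp_mul_left (om z) s hh2
    have h2 : MellinConvergent (fun x => (amol X h : ℂ) • om z ((h:ℝ) ^ 2 * x)) s :=
      MellinConvergent.const_smul (hc.mpr (om_conv hz hs hs2)) _
    refine ⟨h2, ?_⟩
    have h3 : mellin (fun x => (amol X h : ℂ) • om z ((h:ℝ) ^ 2 * x)) s = (amol X h : ℂ) • mellin (fun x => om z ((h:ℝ) ^ 2 * x)) s :=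
      mellin_const_smul _ _ _
    simp only [smul_eq_mul] at h3
    rw [h3, hm, om_mellin hz hs hs2]
    congr 1
    rw [smul_eq_mul]
    congr 1
    push_cast
    rw [sq]
    have e : (h:ℂ) = ((h:ℝ):ℂ) := by push_cast; rfl
    rw [e, Complex.mul_cpow_ofReal_nonneg hh0.le hh0.le, ← Complex.cpow_add _ _ (by exact_mod_cast hh0.ne')]
    congr 1
    ring
  have h2 : ∀ S : Finset ℕ, (∀ h ∈ S, HasMellin (fun x => (amol X h : ℂ) * om z ((h:ℝ) ^ 2 * x)) s
      ((amol X h : ℂ) * ((h:ℂ) ^ (-(2 * s)) * (2 * z ^ (-s) * completedRiemannZeta (2 * s))))) →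
      HasMellin (fun x => ∑ h ∈ S, (amol X h : ℂ) * om z ((h:ℝ) ^ 2 * x)) s
      (∑ h ∈ S, (amol X h : ℂ) * ((h:ℂ) ^ (-(2 * s)) * (2 * z ^ (-s) * completedRiemannZeta (2 * s)))) := by
    intro S
    induction S using Finset.induction_on with
    | empty =>
      intro _
      simp only [sum_empty]
      refine ⟨?_, ?_⟩
      · unfold MellinConvergent; simp
      · unfold mellin; simp
    | insert a S ha ih =>
      intro hS
      simp only [sum_insert ha]
      have i1 := hS a (mem_insert_self _ _)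
      have i2 := ih (fun h hh => hS h (mem_insert_of_mem hh))
      have := hasMellin_add i1.1 i2.1
      rw [i1.2, i2.2] at this
      exact this
  have h3 := h2 _ h1
  have e : Mol X (2 * s) * (2 * z ^ (-s) * completedRiemannZeta (2 * s)) =
      ∑ h ∈ Ioc 0 ⌊X⌋₊, (amol X h : ℂ) * ((h:ℂ) ^ (-(2 * s)) * (2 * z ^ (-s) * completedRiemannZeta (2 * s))) := by
    unfold Mol
    rw [sum_mul]
    refine sum_congr rfl fun h _ => ?_
    ring
  rw [e]
  exact h3

lemma sum_Ioc_range (f : ℕ → ℂ) (K : ℕ) : ∑ n ∈ Ioc 0 K, f n = ∑ i ∈ range K, f (i + 1) := by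
  induction K with
  | zero => simp
  | succ K ih => rw [Finset.sum_Ioc_succ_top (by omega), ih, sum_range_succ]

lemma tendsto_th {z : ℂ} (hz : 0 < z.re) {x : ℝ} (hx : 0 < x) :
    Tendsto (fun K : ℕ => ∑ n ∈ Ioc 0 K, cexp (-(Real.pi * (n:ℂ) ^ 2 * x * z))) atTop (𝓝 ((th z x - 1) / 2)) := by
  have := (hasSum_th hz hx).tendsto_sum_nat
  refine this.congr fun K => ?_
  rw [sum_Ioc_range]
  refine sum_congr rfl fun i _ => ?_
  push_cast
  rfl

lemma sum_Ioc_dvd (f : ℕ → ℂ) {h : ℕ} (hh : 0 < h) (K : ℕ) :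
    ∑ N ∈ (Ioc 0 K).filter (fun N => h ∣ N), f N = ∑ n ∈ Ioc 0 (K / h), f (h * n) := by
  symm
  apply Finset.sum_bij (fun n _ => h * n)
  · intro n hn
    rw [mem_Ioc] at hn
    rw [mem_filter, mem_Ioc]
    refine ⟨⟨Nat.mul_pos hh hn.1, ?_⟩, dvd_mul_right _ _⟩
    calc h * n ≤ h * (K / h) := Nat.mul_le_mul_left _ hn.2
      _ ≤ K := Nat.mul_div_le _ _
  · intro a _ b _ hab
    exact Nat.eq_of_mul_eq_mul_left hh hab
  · intro N hN
    rw [mem_filter, mem_Ioc] at hN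
    obtain ⟨⟨h1, h2⟩, m, rfl⟩ := hN
    refine ⟨m, ?_, rfl⟩
    rw [mem_Ioc]
    refine ⟨Nat.pos_of_ne_zero (by rintro rfl; simp at h1), ?_⟩
    rw [Nat.le_div_iff_mul_le hh]
    linarith [mul_comm h m]
  · intro n _; rfl

/-- the truncated sums of the first half converge -/
lemma tendsto_half1 {z : ℂ} (hz : 0 < z.re) (X : ℝ) {x : ℝ} (hx : 0 < x) :
    Tendsto (fun K : ℕ => ∑ N ∈ Ioc 0 K, (bmol X N : ℂ) * cexp (-(Real.pi * (((N:ℝ)) : ℂ) ^ 2 * x * z))) atTop
      (𝓝 (∑ h ∈ Ioc 0 ⌊X⌋₊, (amol X h : ℂ) * ((th z ((h:ℝ) ^ 2 * x) - 1) / 2))) := by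
  have e1 : ∀ K : ℕ, ∑ N ∈ Ioc 0 K, (bmol X N : ℂ) * cexp (-(Real.pi * (((N:ℝ)) : ℂ) ^ 2 * x * z)) =
      ∑ h ∈ Ioc 0 ⌊X⌋₊, (amol X h : ℂ) * ∑ n ∈ Ioc 0 (K / h), cexp (-(Real.pi * (n:ℂ) ^ 2 * (((h:ℝ) ^ 2 * x : ℝ) : ℂ) * z)) := by
    intro K
    have e2 : ∀ N ∈ Ioc 0 K, (bmol X N : ℂ) * cexp (-(Real.pi * (((N:ℝ)) : ℂ) ^ 2 * x * z)) =
        ∑ h ∈ Ioc 0 ⌊X⌋₊, (if h ∣ N then (amol X h : ℂ) * cexp (-(Real.pi * (((N:ℝ)) : ℂ) ^ 2 * x * z)) else 0) := by
      intro N _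
      unfold bmol
      rw [sum_filter]
      push_cast
      rw [sum_mul]
      refine sum_congr rfl fun h _ => ?_
      split_ifs <;> simp
    rw [sum_congr rfl e2, sum_comm]
    refine sum_congr rfl fun h hh => ?_
    rw [mem_Ioc] at hh
    rw [← sum_filter, sum_Ioc_dvd _ hh.1, mul_sum]
    refine sum_congr rfl fun n _ => ?_
    congr 2
    push_cast
    ring
  simp_rw [e1]
  apply tendsto_finsetSum
  intro h hh
  rw [mem_Ioc] at hh
  have hh0 : (0:ℝ) < h := by exact_mod_cast hh.1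
  apply Tendsto.const_mul
  exact (tendsto_th hz (x := (h:ℝ) ^ 2 * x) (by positivity)).comp (Nat.tendsto_div_const_atTop hh.1.ne')

/-- the truncated sums of the second half converge -/
lemma tendsto_half2 {z : ℂ} (hz : 0 < z.re) (X : ℝ) {y : ℝ} (hy : 0 < y) :
    Tendsto (fun K : ℕ => ∑ i ∈ Iq ⌊X⌋₊ K, (yq X 0 i.1 : ℂ) * cexp (-(Real.pi * (((i.2:ℝ) / i.1 : ℝ) : ℂ) ^ 2 * y * z))) atTop
      (𝓝 (∑ h ∈ Ioc 0 ⌊X⌋₊, ((amol X h * ew 0 h : ℝ) : ℂ) * ((th z (y / (h:ℝ) ^ 2) - 1) / 2))) := by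
  have e1 : ∀ K : ℕ, ∑ i ∈ Iq ⌊X⌋₊ K, (yq X 0 i.1 : ℂ) * cexp (-(Real.pi * (((i.2:ℝ) / i.1 : ℝ) : ℂ) ^ 2 * y * z)) =
      ∑ h ∈ Ioc 0 ⌊X⌋₊, ((amol X h * ew 0 h : ℝ) : ℂ) * ∑ n ∈ Ioc 0 (K * h), cexp (-(Real.pi * (n:ℂ) ^ 2 * ((y / (h:ℝ) ^ 2 : ℝ) : ℂ) * z)) := by
    intro K
    have h1 := regroup (fun h => ((amol X h * ew 0 h : ℝ) : ℂ)) (fun r => cexp (-(Real.pi * (r : ℂ) ^ 2 * y * z))) ⌊X⌋₊ K
    have e3 : ∀ i ∈ Iq ⌊X⌋₊ K, (yq X 0 i.1 : ℂ) * cexp (-(Real.pi * (((i.2:ℝ) / i.1 : ℝ) : ℂ) ^ 2 * y * z)) =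
        (∑ h ∈ (Ioc 0 ⌊X⌋₊).filter (fun h => i.1 ∣ h), ((amol X h * ew 0 h : ℝ) : ℂ)) * cexp (-(Real.pi * (((i.2:ℝ) / i.1 : ℝ) : ℂ) ^ 2 * y * z)) := by
      intro i _
      unfold yq
      push_cast
      rfl
    rw [sum_congr rfl e3, ← h1]
    refine sum_congr rfl fun h hh => ?_
    rw [mem_Ioc] at hh
    have hh0 : (h:ℂ) ≠ 0 := by exact_mod_cast hh.1.ne'
    congr 1
    refine sum_congr rfl fun n _ => ?_
    congr 2
    push_cast
    field_simp
  simp_rw [e1]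
  apply tendsto_finsetSum
  intro h hh
  rw [mem_Ioc] at hh
  have hh0 : (0:ℝ) < h := by exact_mod_cast hh.1
  apply Tendsto.const_mul
  exact (tendsto_th hz (x := y / (h:ℝ) ^ 2) (by positivity)).comp (tendsto_id.atTop_mul_const' hh.1)

/-- Fatou -/
lemma fatou_L2 (f : ℕ → ℝ → ℂ) (g : ℝ → ℂ) (B : ℝ)
    (hi : ∀ K, IntegrableOn (fun x : ℝ => x ^ (-(1/2) : ℝ) * ‖f K x‖ ^ 2) (Set.Ioi 1))
    (hb : ∀ K, ∫ x in Set.Ioi (1:ℝ), x ^ (-(1/2) : ℝ) * ‖f K x‖ ^ 2 ≤ B)
    (ht : ∀ x : ℝ, 1 < x → Tendsto (fun K => f K x) atTop (𝓝 (g x))) :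
    ∫⁻ x in Set.Ioi (1:ℝ), ENNReal.ofReal (x ^ (-(1/2) : ℝ) * ‖g x‖ ^ 2) ≤ ENNReal.ofReal B := by
  have h1 : ∀ K, ∫⁻ x in Set.Ioi (1:ℝ), ENNReal.ofReal (x ^ (-(1/2) : ℝ) * ‖f K x‖ ^ 2) ≤ ENNReal.ofReal B := by
    intro K
    rw [← ofReal_integral_eq_lintegral_ofReal (hi K)]
    · exact ENNReal.ofReal_le_ofReal (hb K)
    · filter_upwards [ae_restrict_mem measurableSet_Ioi] with x hx
      have hx1 : (1:ℝ) < x := hx
      have hp : 0 ≤ x ^ (-(1/2) : ℝ) := Real.rpow_nonneg (by linarith) _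
      simp only [Pi.zero_apply]
      positivity
  calc ∫⁻ x in Set.Ioi (1:ℝ), ENNReal.ofReal (x ^ (-(1/2) : ℝ) * ‖g x‖ ^ 2)
      = ∫⁻ x in Set.Ioi (1:ℝ), liminf (fun K => ENNReal.ofReal (x ^ (-(1/2) : ℝ) * ‖f K x‖ ^ 2)) atTop := by
        refine setLIntegral_congr_fun measurableSet_Ioi fun x hx => ?_
        have h2 : Tendsto (fun K => ENNReal.ofReal (x ^ (-(1/2) : ℝ) * ‖f K x‖ ^ 2)) atTop
            (𝓝 (ENNReal.ofReal (x ^ (-(1/2) : ℝ) * ‖g x‖ ^ 2))) := by
          apply ENNReal.tendsto_ofReal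
          exact (((ht x hx).norm).pow 2).const_mul _
        exact h2.liminf_eq.symm
    _ ≤ liminf (fun K => ∫⁻ x in Set.Ioi (1:ℝ), ENNReal.ofReal (x ^ (-(1/2) : ℝ) * ‖f K x‖ ^ 2)) atTop :=
        lintegral_liminf_le' fun K => (hi K).aestronglyMeasurable.aemeasurable.ennreal_ofReal
    _ ≤ ENNReal.ofReal B := by
        refine (liminf_le_liminf (Eventually.of_forall h1)).trans ?_
        simp

end Pool.Agent.Helper57.LH

end

/-! ### Helper57.LH.Edge -/

section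

namespace Pool.Agent.Helper57.LH

open Complex Set MeasureTheory Filter Topology

open Pool.Agent.Helper57.Zeta

lemma norm_Mol_le {X : ℝ} (hX : 1 < X) {w : ℂ} (hw : 0 ≤ w.re) : ‖Mol X w‖ ≤ X := by
  unfold Mol
  calc ‖∑ h ∈ Finset.Ioc 0 ⌊X⌋₊, (amol X h : ℂ) * (h:ℂ) ^ (-w)‖
      ≤ ∑ h ∈ Finset.Ioc 0 ⌊X⌋₊, ‖(amol X h : ℂ) * (h:ℂ) ^ (-w)‖ := norm_sum_le _ _
    _ ≤ ∑ h ∈ Finset.Ioc 0 ⌊X⌋₊, (1:ℝ) := by
        refine Finset.sum_le_sum fun h hh => ?_
        rw [Finset.mem_Ioc] at hh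
        have hh0 : (0:ℝ) < h := by exact_mod_cast hh.1
        have hh1 : (1:ℝ) ≤ h := by exact_mod_cast hh.1
        rw [norm_mul, Complex.norm_real, Real.norm_eq_abs]
        have h1 := abs_amol_le hX h
        have h2 : ‖(h:ℂ) ^ (-w)‖ ≤ 1 := by
          have := Complex.norm_cpow_eq_rpow_re_of_pos hh0 (-w)
          rw [Complex.ofReal_natCast] at this
          rw [this]
          exact Real.rpow_le_one_of_one_le_of_nonpos hh1 (by simpa using hw)
        calc |amol X h| * ‖(h:ℂ) ^ (-w)‖ ≤ 1 * 1 := by gcongr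
          _ = 1 := one_mul _
    _ = ⌊X⌋₊ := by simp
    _ ≤ X := Nat.floor_le (by linarith only [hX])

/-- real series 1/N^(3/2) with value zero at zero -/
noncomputable def q32 (N : ℕ) : ℝ := if N = 0 then 0 else (N:ℝ) ^ (-(3/2) : ℝ)

lemma q32_nonneg (N : ℕ) : 0 ≤ q32 N := by
  unfold q32; split_ifs <;> positivity

lemma summable_q32 : Summable q32 := by
  have h := Real.summable_nat_rpow.mpr (show -(3/2 : ℝ) < -1 by norm_num)
  refine h.of_nonneg_of_le q32_nonneg fun N => ?_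
  unfold q32
  split_ifs with h0
  · positivity
  · exact le_rfl

noncomputable def Z32 : ℝ := ∑' N, q32 N

lemma Z32_pos : 0 < Z32 := by
  apply summable_q32.tsum_pos q32_nonneg 1
  simp [q32]

lemma q32_mul {h : ℕ} (hh : h ≠ 0) (n : ℕ) : q32 (h * n) = q32 h * q32 n := by
  unfold q32
  rcases Nat.eq_zero_or_pos n with rfl | hn
  · simp
  · rw [if_neg (Nat.mul_ne_zero hh hn.ne'), if_neg hh, if_neg hn.ne', Nat.cast_mul,
      Real.mul_rpow (Nat.cast_nonneg _) (Nat.cast_nonneg _)]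

lemma hasSum_q32_dvd {h : ℕ} (hh : h ≠ 0) : HasSum (fun N => if h ∣ N then q32 N else 0) (q32 h * Z32) := by
  have h1 : HasSum (fun n => q32 h * q32 n) (q32 h * Z32) := summable_q32.hasSum.mul_left _
  have hinj : Function.Injective (fun n : ℕ => h * n) := fun a b hab =>
    Nat.eq_of_mul_eq_mul_left (Nat.pos_of_ne_zero hh) hab
  rw [← hinj.hasSum_iff]
  · convert h1 using 1
    funext n
    simp only [Function.comp, dvd_mul_right, if_true]
    exact q32_mul hh n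
  · intro N hN
    rw [if_neg]
    rintro ⟨n, rfl⟩
    exact hN ⟨n, rfl⟩

/-- complex powers with value zero at zero -/
noncomputable def cps (s : ℂ) (N : ℕ) : ℂ := if N = 0 then 0 else (N:ℂ) ^ (-s)

lemma cps_mul {s : ℂ} {h : ℕ} (hh : h ≠ 0) (n : ℕ) : cps s (h * n) = cps s h * cps s n := by
  unfold cps
  rcases Nat.eq_zero_or_pos n with rfl | hn
  · simp
  · rw [if_neg (Nat.mul_ne_zero hh hn.ne'), if_neg hh, if_neg hn.ne']
    have e1 : ((h * n : ℕ) : ℂ) = ((h:ℝ):ℂ) * ((n:ℝ):ℂ) := by push_cast; rfl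
    rw [e1, Complex.mul_cpow_ofReal_nonneg (Nat.cast_nonneg _) (Nat.cast_nonneg _)]
    simp

lemma hasSum_cps {s : ℂ} (hs : 1 < s.re) : HasSum (cps s) (riemannZeta s) := by
  have h := LSeriesHasSum_one hs
  unfold LSeriesHasSum at h
  convert h using 1
  funext N
  unfold cps LSeries.term
  split_ifs with h0
  · rfl
  · rw [Complex.cpow_neg]; simp

lemma hasSum_cps_dvd {s : ℂ} (hs : 1 < s.re) {h : ℕ} (hh : h ≠ 0) :
    HasSum (fun N => if h ∣ N then cps s N else 0) (cps s h * riemannZeta s) := by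
  have h1 : HasSum (fun n => cps s h * cps s n) (cps s h * riemannZeta s) := (hasSum_cps hs).mul_left _
  have hinj : Function.Injective (fun n : ℕ => h * n) := fun a b hab =>
    Nat.eq_of_mul_eq_mul_left (Nat.pos_of_ne_zero hh) hab
  rw [← hinj.hasSum_iff]
  · convert h1 using 1
    funext n
    simp only [Function.comp, dvd_mul_right, if_true]
    exact cps_mul hh n
  · intro N hN
    rw [if_neg]
    rintro ⟨n, rfl⟩
    exact hN ⟨n, rfl⟩

lemma hasSum_zM {s : ℂ} (hs : 1 < s.re) (X : ℝ) : HasSum (fun N => (bmol X N : ℂ) * cps s N) (riemannZeta s * Mol X s) := by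
  have h1 : HasSum (fun N => ∑ h ∈ Finset.Ioc 0 ⌊X⌋₊, (amol X h : ℂ) * (if h ∣ N then cps s N else 0))
      (∑ h ∈ Finset.Ioc 0 ⌊X⌋₊, (amol X h : ℂ) * (cps s h * riemannZeta s)) := by
    apply hasSum_sum
    intro h hh
    rw [Finset.mem_Ioc] at hh
    exact (hasSum_cps_dvd hs hh.1.ne').mul_left _
  convert h1 using 1
  · funext N
    unfold bmol
    rw [Finset.sum_filter]
    push_cast
    rw [Finset.sum_mul]
    refine Finset.sum_congr rfl fun h _ => ?_
    split_ifs <;> simp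
  · unfold Mol
    rw [Finset.mul_sum]
    refine Finset.sum_congr rfl fun h hh => ?_
    rw [Finset.mem_Ioc] at hh
    unfold cps
    rw [if_neg hh.1.ne']
    ring

/-- bound to the right of Re s = 2 -/
theorem right_bound {X : ℝ} (hX : 1 < X) {s : ℂ} (hs : 2 ≤ s.re) :
    ‖riemannZeta s * Mol X s - 1‖ ≤ Z32 ^ 2 * X ^ (-(1/4) : ℝ) := by
  have hX0 : 0 < X := by linarith only [hX]
  have h1 := hasSum_zM (s := s) (by linarith) X
  have h2 : HasSum (fun N : ℕ => if N = 1 then (1:ℂ) else 0) 1 := hasSum_ite_eq 1 1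
  have h3 := h1.sub h2
  rw [← h3.tsum_eq]
  -- majorant
  have h4 : HasSum (fun N => ∑ h ∈ Finset.Ioc 0 ⌊X⌋₊, (if h ∣ N then q32 N else 0)) (∑ h ∈ Finset.Ioc 0 ⌊X⌋₊, q32 h * Z32) := by
    apply hasSum_sum
    intro h hh
    rw [Finset.mem_Ioc] at hh
    exact hasSum_q32_dvd hh.1.ne'
  have h5 := h4.mul_left (X ^ (-(1/4) : ℝ))
  have h6 : X ^ (-(1/4) : ℝ) * ∑ h ∈ Finset.Ioc 0 ⌊X⌋₊, q32 h * Z32 ≤ Z32 ^ 2 * X ^ (-(1/4) : ℝ) := by
    rw [← Finset.sum_mul]
    have h7 : ∑ h ∈ Finset.Ioc 0 ⌊X⌋₊, q32 h ≤ Z32 := summable_q32.sum_le_tsum _ (fun N _ => q32_nonneg N)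
    have := Z32_pos
    have h8 : 0 ≤ X ^ (-(1/4) : ℝ) := by positivity
    calc X ^ (-(1/4) : ℝ) * ((∑ h ∈ Finset.Ioc 0 ⌊X⌋₊, q32 h) * Z32) ≤ X ^ (-(1/4) : ℝ) * (Z32 * Z32) := by gcongr
      _ = _ := by ring
  refine le_trans (tsum_of_norm_bounded h5 fun N => ?_) h6
  rcases Nat.eq_zero_or_pos N with rfl | hN
  · unfold cps
    simp
    have : ∀ x ∈ Finset.Ioc 0 ⌊X⌋₊, q32 0 = 0 := fun _ _ => by simp [q32]
    unfold q32; simp
  · have hN0 : (0:ℝ) < N := by exact_mod_cast hN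
    by_cases hN1 : N = 1
    · subst hN1
      have hz : (bmol X 1 : ℂ) * cps s 1 - (if (1:ℕ) = 1 then (1:ℂ) else 0) = 0 := by
        rw [bmol_one hX]; simp [cps]
      rw [hz, norm_zero]
      apply mul_nonneg (by positivity)
      exact Finset.sum_nonneg fun h _ => by split_ifs <;> [exact q32_nonneg _; exact le_rfl]
    · rw [if_neg hN1, sub_zero]
      by_cases hNX : (N:ℝ) ≤ √X
      · rw [bmol_eq_zero hX (by omega) hNX]
        simp
        apply mul_nonneg (by positivity)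
        exact Finset.sum_nonneg fun h _ => by split_ifs <;> [exact q32_nonneg _; exact le_rfl]
      · push Not at hNX
        rw [norm_mul, Complex.norm_real, Real.norm_eq_abs]
        have h7 : ‖cps s N‖ ≤ X ^ (-(1/4) : ℝ) * q32 N := by
          unfold cps q32
          rw [if_neg hN.ne', if_neg hN.ne']
          have := Complex.norm_cpow_eq_rpow_re_of_pos hN0 (-s)
          rw [Complex.ofReal_natCast] at this
          rw [this]
          have hN1' : (1:ℝ) ≤ N := by exact_mod_cast hN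
          calc (N:ℝ) ^ (-s).re ≤ (N:ℝ) ^ (-2 : ℝ) := by
                apply Real.rpow_le_rpow_of_exponent_le hN1'
                simp; linarith only [hs]
            _ = (N:ℝ) ^ (-(1/2) : ℝ) * (N:ℝ) ^ (-(3/2) : ℝ) := by
                rw [← Real.rpow_add hN0]; norm_num
            _ ≤ X ^ (-(1/4) : ℝ) * (N:ℝ) ^ (-(3/2) : ℝ) := by
                gcongr
                have e : X ^ (-(1/4) : ℝ) = (√X) ^ (-(1/2) : ℝ) := by
                  rw [Real.sqrt_eq_rpow, ← Real.rpow_mul hX0.le]; norm_num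
                rw [e]
                exact Real.rpow_le_rpow_of_nonpos (Real.sqrt_pos.mpr hX0) hNX.le (by norm_num)
        have h8 : |bmol X N| * q32 N ≤ ∑ h ∈ Finset.Ioc 0 ⌊X⌋₊, (if h ∣ N then q32 N else 0) := by
          have h9 : |bmol X N| ≤ ∑ h ∈ (Finset.Ioc 0 ⌊X⌋₊).filter (fun h => h ∣ N), (1:ℝ) := by
            unfold bmol
            exact (Finset.abs_sum_le_sum_abs _ _).trans (Finset.sum_le_sum fun h _ => abs_amol_le hX h)
          calc |bmol X N| * q32 N ≤ (∑ h ∈ (Finset.Ioc 0 ⌊X⌋₊).filter (fun h => h ∣ N), (1:ℝ)) * q32 N := by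
                gcongr
                exact q32_nonneg N
            _ = _ := by rw [Finset.sum_mul, Finset.sum_filter]; simp
        calc |bmol X N| * ‖cps s N‖ ≤ |bmol X N| * (X ^ (-(1/4) : ℝ) * q32 N) := by gcongr
          _ = X ^ (-(1/4) : ℝ) * (|bmol X N| * q32 N) := by ring
          _ ≤ _ := by gcongr

end Pool.Agent.Helper57.LH

end

/-! ### Helper57.LH.OmegaB -/

section

namespace Pool.Agent.Helper57.LH

open Complex MeasureTheory Filter Topology Finset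

lemma rpow_half_mul {x : ℝ} (hx : 0 < x) (h : ℕ) (hh : 0 < h) :
    (((h:ℝ) ^ 2 * x) ^ (-(1/2) : ℝ)) = 1 / h * x ^ (-(1/2) : ℝ) := by
  have hh0 : (0:ℝ) < h := by exact_mod_cast hh
  rw [Real.mul_rpow (by positivity) hx.le, ← Real.rpow_natCast, ← Real.rpow_mul hh0.le]
  norm_num
  left
  rw [Real.rpow_neg_one]

lemma Om_large {z : ℂ} (X : ℝ) {x : ℝ} (hx : 0 < x) :
    Om X z x = 2 * ∑ h ∈ Ioc 0 ⌊X⌋₊, (amol X h : ℂ) * ((th z ((h:ℝ) ^ 2 * x) - 1) / 2)
      - z ^ (-(1/2) : ℂ) * ((x ^ (-(1/2) : ℝ) : ℝ) : ℂ) * ((yq X 0 1 : ℝ) : ℂ) := by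
  unfold Om yq om
  rw [mul_sum]
  have e : (Ioc 0 ⌊X⌋₊).filter (fun h => 1 ∣ h) = Ioc 0 ⌊X⌋₊ := by
    apply filter_true_of_mem; intros; exact one_dvd _
  rw [e]
  push_cast
  rw [mul_sum, ← sum_sub_distrib]
  refine sum_congr rfl fun h hh => ?_
  rw [mem_Ioc] at hh
  rw [rpow_half_mul hx h hh.1, ew_eq _ hh.1.ne']
  push_cast
  simp only [neg_zero, zero_mul, Complex.exp_zero]
  ring

lemma norm_z_pow {z : ℂ} (hz1 : ‖z‖ = 1) : ‖z ^ (-(1/2) : ℂ)‖ = 1 := by
  have hz0 : z ≠ 0 := by intro h; rw [h] at hz1; simp at hz1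
  have e : (-(1/2) : ℂ) = ((-(1/2) : ℝ) : ℂ) := by push_cast; rfl
  rw [e, Complex.norm_cpow_of_ne_zero hz0]
  simp [hz1]

lemma yq_one_le {X : ℝ} (hX : 3 ≤ X) : yq X 0 1 ^ 2 ≤ CQ / Real.log X := by
  have h := QF_le (X := X) (ε := 0) hX le_rfl (by simp)
  refine le_trans ?_ h
  have h1 : 1 ∈ Ioc 0 ⌊X⌋₊ := by
    rw [mem_Ioc]
    exact ⟨by norm_num, (Nat.one_le_floor_iff X).mpr (by linarith only [hX])⟩
  refine le_trans (le_of_eq ?_) (single_le_sum (f := fun q : ℕ => (q:ℝ) * Real.exp (0 * Real.log q) * yq X 0 q ^ 2) (fun q _ => by positivity) h1)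
  simp

lemma int_three_half : ∫ x in Set.Ioi (1:ℝ), x ^ (-(3/2) : ℝ) = 2 := by
  rw [integral_Ioi_rpow_of_lt (by norm_num) one_pos]; norm_num

lemma lint_three_half (c : ℝ) (hc : 0 ≤ c) :
    ∫⁻ x in Set.Ioi (1:ℝ), ENNReal.ofReal (c * x ^ (-(3/2) : ℝ)) = ENNReal.ofReal (c * 2) := by
  have hi : IntegrableOn (fun x : ℝ => c * x ^ (-(3/2) : ℝ)) (Set.Ioi 1) :=
    (integrableOn_Ioi_rpow_of_lt (by norm_num) one_pos).const_mul c
  rw [← ofReal_integral_eq_lintegral_ofReal hi]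
  · rw [integral_const_mul, int_three_half]
  · filter_upwards [ae_restrict_mem measurableSet_Ioi] with x hx
    have hx1 : (1:ℝ) < x := hx
    have hp : 0 ≤ x ^ (-(3/2) : ℝ) := Real.rpow_nonneg (by linarith only [hx1]) _
    simp only [Pi.zero_apply]
    positivity

lemma norm_sub_sq_le (a b : ℂ) : ‖a - b‖ ^ 2 ≤ 2 * ‖a‖ ^ 2 + 2 * ‖b‖ ^ 2 := by
  have := norm_sub_le a b
  have h1 : ‖a - b‖ ^ 2 ≤ (‖a‖ + ‖b‖) ^ 2 := by gcongr
  nlinarith [sq_nonneg (‖a‖ - ‖b‖)]

theorem bound_large {X : ℝ} {z : ℂ} (hX : 3 ≤ X) (hz : 0 < z.re) (hz1 : ‖z‖ = 1) (hzi : 1 / 2 ≤ |z.im|)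
    (hXs : 20 * Real.log X ≤ Real.log (1 / z.re)) :
    ∫⁻ x in Set.Ioi (1:ℝ), ENNReal.ofReal (x ^ (-(1/2) : ℝ) * ‖Om X z x‖ ^ 2)
      ≤ ENNReal.ofReal (300 * Real.exp 1 * CQ * Real.log (1 / z.re) / (Real.sqrt z.re * Real.log X)) := by
  have hlX : 1 ≤ Real.log X := by
    rw [Real.le_log_iff_exp_le (by linarith only [hX])]
    have := Real.exp_one_lt_d9
    linarith only [hX, this]
  set L := Real.log (1 / z.re) with hL
  have hsq : 0 < Real.sqrt z.re := Real.sqrt_pos.mpr hz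
  have hre1 : z.re ≤ 1 := by
    have := Complex.re_le_norm z; linarith only [hz1, this]
  have hsq1 : Real.sqrt z.re ≤ 1 := Real.sqrt_le_one.mpr hre1
  have hCQ := CQ_pos
  set B := 34 * Real.exp 1 * CQ * L / (Real.sqrt z.re * Real.log X) with hB
  have hB0 : 0 ≤ B := by
    have : 0 ≤ L := by linarith only [hlX, hXs]
    positivity
  have hf := fatou_L2 _ _ B
    (fun K => (half1_fin hX hz hzi (by linarith only [hlX, hXs]) (by linarith only [hlX, hXs]) K).1)
    (fun K => (half1_fin hX hz hzi (by linarith only [hlX, hXs]) (by linarith only [hlX, hXs]) K).2)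
    (fun x hx => tendsto_half1 hz X (by linarith only [hx]))
  set S : ℝ → ℂ := fun x => ∑ h ∈ Ioc 0 ⌊X⌋₊, (amol X h : ℂ) * ((th z ((h:ℝ) ^ 2 * x) - 1) / 2) with hS
  have hY := yq_one_le hX
  set Y := yq X 0 1 with hYdef
  have hpt : ∀ x ∈ Set.Ioi (1:ℝ), ENNReal.ofReal (x ^ (-(1/2) : ℝ) * ‖Om X z x‖ ^ 2) ≤
      8 * ENNReal.ofReal (x ^ (-(1/2) : ℝ) * ‖S x‖ ^ 2) + ENNReal.ofReal ((2 * Y ^ 2) * x ^ (-(3/2) : ℝ)) := by
    intro x hx
    have hx1 : (1:ℝ) < x := hx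
    have hx0 : 0 < x := by linarith only [hx1]
    have hp : 0 ≤ x ^ (-(1/2) : ℝ) := Real.rpow_nonneg (by linarith only [hx1]) _
    have hp3 : 0 ≤ x ^ (-(3/2) : ℝ) := Real.rpow_nonneg (by linarith only [hx1]) _
    have h8 : (8 : ENNReal) = ENNReal.ofReal 8 := by norm_num
    rw [h8, ← ENNReal.ofReal_mul (by norm_num), ← ENNReal.ofReal_add (by positivity) (by positivity)]
    apply ENNReal.ofReal_le_ofReal
    rw [Om_large X hx0]
    have h1 := norm_sub_sq_le (2 * S x) (z ^ (-(1/2) : ℂ) * ((x ^ (-(1/2) : ℝ) : ℝ) : ℂ) * ((Y : ℝ) : ℂ))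
    have h2 : ‖z ^ (-(1/2) : ℂ) * ((x ^ (-(1/2) : ℝ) : ℝ) : ℂ) * ((Y : ℝ) : ℂ)‖ ^ 2 = x ^ (-1 : ℝ) * Y ^ 2 := by
      rw [norm_mul, norm_mul, norm_z_pow hz1, Complex.norm_real, Complex.norm_real, one_mul, mul_pow,
        Real.norm_of_nonneg hp, Real.norm_eq_abs, sq_abs]
      congr 1
      rw [← Real.rpow_natCast, ← Real.rpow_mul hx0.le]
      norm_num
    have h3 : ‖2 * S x‖ ^ 2 = 4 * ‖S x‖ ^ 2 := by
      rw [norm_mul, mul_pow]; norm_num
    rw [h2, h3] at h1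
    have h4 : x ^ (-(1/2) : ℝ) * x ^ (-1 : ℝ) = x ^ (-(3/2) : ℝ) := by
      rw [← Real.rpow_add hx0]; norm_num
    calc x ^ (-(1/2) : ℝ) * ‖2 * S x - z ^ (-(1/2) : ℂ) * ((x ^ (-(1/2) : ℝ) : ℝ) : ℂ) * ((Y : ℝ) : ℂ)‖ ^ 2
        ≤ x ^ (-(1/2) : ℝ) * (2 * (4 * ‖S x‖ ^ 2) + 2 * (x ^ (-1 : ℝ) * Y ^ 2)) := by gcongr
      _ = 8 * (x ^ (-(1/2) : ℝ) * ‖S x‖ ^ 2) + 2 * Y ^ 2 * (x ^ (-(1/2) : ℝ) * x ^ (-1 : ℝ)) := by ring
      _ = _ := by rw [h4]
  calc ∫⁻ x in Set.Ioi (1:ℝ), ENNReal.ofReal (x ^ (-(1/2) : ℝ) * ‖Om X z x‖ ^ 2)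
      ≤ ∫⁻ x in Set.Ioi (1:ℝ), (8 * ENNReal.ofReal (x ^ (-(1/2) : ℝ) * ‖S x‖ ^ 2) + ENNReal.ofReal ((2 * Y ^ 2) * x ^ (-(3/2) : ℝ))) :=
        setLIntegral_mono' measurableSet_Ioi hpt
    _ = 8 * (∫⁻ x in Set.Ioi (1:ℝ), ENNReal.ofReal (x ^ (-(1/2) : ℝ) * ‖S x‖ ^ 2)) + ENNReal.ofReal ((2 * Y ^ 2) * 2) := by
        rw [lintegral_add_right' _ (by
          apply AEMeasurable.ennreal_ofReal
          apply AEMeasurable.const_mul
          apply Measurable.aemeasurable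
          fun_prop), lint_three_half _ (by positivity), lintegral_const_mul' _ _ (by norm_num)]
    _ ≤ 8 * ENNReal.ofReal B + ENNReal.ofReal ((2 * Y ^ 2) * 2) := by gcongr
    _ = ENNReal.ofReal (8 * B + (2 * Y ^ 2) * 2) := by
        have h8 : (8 : ENNReal) = ENNReal.ofReal 8 := by norm_num
        rw [h8, ← ENNReal.ofReal_mul (by norm_num), ← ENNReal.ofReal_add (by positivity) (by positivity)]
    _ ≤ _ := by
        apply ENNReal.ofReal_le_ofReal
        have h5 : CQ / Real.log X ≤ Real.exp 1 * CQ * L / (Real.sqrt z.re * Real.log X) := by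
          rw [div_le_div_iff₀ (by linarith only [hlX]) (by positivity)]
          have he : 1 ≤ Real.exp 1 := Real.one_le_exp (by norm_num)
          have h6 : Real.sqrt z.re ≤ Real.exp 1 * L := by nlinarith only [hlX, hXs, hsq1, he]
          calc CQ * (Real.sqrt z.re * Real.log X) ≤ CQ * ((Real.exp 1 * L) * Real.log X) := by gcongr
            _ = _ := by ring
        have h7 : 300 * Real.exp 1 * CQ * L / (Real.sqrt z.re * Real.log X) =
            300 * (Real.exp 1 * CQ * L / (Real.sqrt z.re * Real.log X)) := by ring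
        have h8 : B = 34 * (Real.exp 1 * CQ * L / (Real.sqrt z.re * Real.log X)) := by rw [hB]; ring
        rw [h7, h8]
        have h9 : 0 ≤ Real.exp 1 * CQ * L / (Real.sqrt z.re * Real.log X) := by
          have : 0 ≤ L := by linarith only [hlX, hXs]
          positivity
        linarith only [hB0, hY, h5, h8]

/-- the value of the mollified remainder at small arguments -/
lemma Om_small {z : ℂ} (hz : 0 < z.re) (X : ℝ) {y : ℝ} (hy : 0 < y) :
    Om X z (1 / y) = 2 * (z ^ (-(1/2) : ℂ) * ((y ^ (1/2 : ℝ) : ℝ) : ℂ)) *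
      ∑ h ∈ Ioc 0 ⌊X⌋₊, ((amol X h * ew 0 h : ℝ) : ℂ) * ((th z⁻¹ (y / (h:ℝ) ^ 2) - 1) / 2)
      - ∑ h ∈ Ioc 0 ⌊X⌋₊, (amol X h : ℂ) := by
  unfold Om om
  rw [mul_sum, ← sum_sub_distrib]
  refine sum_congr rfl fun h hh => ?_
  rw [mem_Ioc] at hh
  have hh0 : (0:ℝ) < h := by exact_mod_cast hh.1
  have e1 : (h:ℝ) ^ 2 * (1 / y) = 1 / (y / (h:ℝ) ^ 2) := by field_simp
  rw [e1, th_inv hz (x := y / (h:ℝ) ^ 2) (by positivity)]
  have e2 : (1 / (y / (h:ℝ) ^ 2)) ^ (-(1/2) : ℝ) = (y / (h:ℝ) ^ 2) ^ (1/2 : ℝ) := by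
    rw [one_div, Real.inv_rpow (by positivity), Real.rpow_neg (by positivity), inv_inv]
  have e3 : (y / (h:ℝ) ^ 2) ^ (1/2 : ℝ) = y ^ (1/2 : ℝ) * (1 / h) := by
    rw [Real.div_rpow hy.le (by positivity), ← Real.rpow_natCast, ← Real.rpow_mul hh0.le]
    norm_num
    ring
  rw [e2, e3, ew_eq _ hh.1.ne']
  push_cast
  simp only [neg_zero, zero_mul, Complex.exp_zero]
  ring

theorem bound_small {X : ℝ} {z : ℂ} (hX : 3 ≤ X) (hz : 0 < z.re) (hz1 : ‖z‖ = 1) (hzi : 1 / 2 ≤ |z.im|)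
    (hXs : 20 * Real.log X ≤ Real.log (1 / z.re)) :
    ∫⁻ y in Set.Ioi (1:ℝ), ENNReal.ofReal (y ^ (-(3/2) : ℝ) * ‖Om X z (1 / y)‖ ^ 2)
      ≤ ENNReal.ofReal (50 * Real.exp 1 * CQ * Real.log (1 / z.re) / (Real.sqrt z.re * Real.log X)) := by
  have hlX : 1 ≤ Real.log X := by
    rw [Real.le_log_iff_exp_le (by linarith only [hX])]
    have := Real.exp_one_lt_d9
    linarith only [hX, this]
  have hX0 : 0 < X := by linarith only [hX]
  have hzinv : z⁻¹ = starRingEnd ℂ z := by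
    rw [Complex.inv_def, Complex.normSq_eq_norm_sq, hz1]; simp
  have hzi_re : (z⁻¹).re = z.re := by rw [hzinv, Complex.conj_re]
  have hzi_im : |(z⁻¹).im| = |z.im| := by rw [hzinv, Complex.conj_im, abs_neg]
  set L := Real.log (1 / z.re) with hL
  have hsq : 0 < Real.sqrt z.re := Real.sqrt_pos.mpr hz
  have hre1 : z.re ≤ 1 := by
    have := Complex.re_le_norm z; linarith only [hz1, this]
  have hsq1 : Real.sqrt z.re ≤ 1 := Real.sqrt_le_one.mpr hre1
  have hCQ := CQ_pos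
  set B := 5 * Real.exp 1 * CQ * L / (Real.sqrt z.re * Real.log X) with hB
  have hB0 : 0 ≤ B := by
    have : 0 ≤ L := by linarith only [hlX, hXs]
    positivity
  have hz' : 0 < (z⁻¹).re := by rw [hzi_re]; exact hz
  have hfin := fun K => half2_fin (z := z⁻¹) hX hz' (by rw [hzi_im]; exact hzi) (by rw [hzi_re]; exact hXs) K
  simp only [hzi_re] at hfin
  have hf := fatou_L2 _ _ B
    (fun K => (hfin K).1)
    (fun K => (hfin K).2)
    (fun x hx => tendsto_half2 hz' X (by linarith only [hx]))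
  set S : ℝ → ℂ := fun y => ∑ h ∈ Ioc 0 ⌊X⌋₊, ((amol X h * ew 0 h : ℝ) : ℂ) * ((th z⁻¹ (y / (h:ℝ) ^ 2) - 1) / 2) with hS
  set A : ℂ := ∑ h ∈ Ioc 0 ⌊X⌋₊, (amol X h : ℂ) with hA
  have hAX : ‖A‖ ≤ X := by
    calc ‖A‖ ≤ ∑ h ∈ Ioc 0 ⌊X⌋₊, ‖(amol X h : ℂ)‖ := norm_sum_le _ _
      _ ≤ ∑ h ∈ Ioc 0 ⌊X⌋₊, (1:ℝ) := by
          refine sum_le_sum fun h _ => ?_
          rw [Complex.norm_real, Real.norm_eq_abs]
          exact abs_amol_le (by linarith only [hX]) h
      _ = ⌊X⌋₊ := by simp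
      _ ≤ X := Nat.floor_le hX0.le
  have hpt : ∀ y ∈ Set.Ioi (1:ℝ), ENNReal.ofReal (y ^ (-(3/2) : ℝ) * ‖Om X z (1 / y)‖ ^ 2) ≤
      8 * ENNReal.ofReal (y ^ (-(1/2) : ℝ) * ‖S y‖ ^ 2) + ENNReal.ofReal ((2 * X ^ 2) * y ^ (-(3/2) : ℝ)) := by
    intro y hy
    have hy1 : (1:ℝ) < y := hy
    have hy0 : 0 < y := by linarith only [hy1]
    have hp : 0 ≤ y ^ (-(1/2) : ℝ) := Real.rpow_nonneg (by linarith only [hy1]) _
    have hp3 : 0 ≤ y ^ (-(3/2) : ℝ) := Real.rpow_nonneg (by linarith only [hy1]) _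
    have h8 : (8 : ENNReal) = ENNReal.ofReal 8 := by norm_num
    rw [h8, ← ENNReal.ofReal_mul (by norm_num), ← ENNReal.ofReal_add (by positivity) (by positivity)]
    apply ENNReal.ofReal_le_ofReal
    rw [Om_small hz X hy0]
    have h1 := norm_sub_sq_le (2 * (z ^ (-(1/2) : ℂ) * ((y ^ (1/2 : ℝ) : ℝ) : ℂ)) * S y) A
    have h2 : ‖2 * (z ^ (-(1/2) : ℂ) * ((y ^ (1/2 : ℝ) : ℝ) : ℂ)) * S y‖ ^ 2 = 4 * (y * ‖S y‖ ^ 2) := by
      rw [norm_mul, norm_mul, norm_mul, norm_z_pow hz1, Complex.norm_real, one_mul, mul_pow, mul_pow,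
        Real.norm_of_nonneg (Real.rpow_nonneg hy0.le _)]
      have : (y ^ (1/2 : ℝ)) ^ 2 = y := by
        rw [← Real.rpow_natCast, ← Real.rpow_mul hy0.le]; norm_num
      rw [this]
      norm_num
      ring
    rw [h2] at h1
    have h4 : y ^ (-(3/2) : ℝ) * y = y ^ (-(1/2) : ℝ) := by
      nth_rewrite 2 [← Real.rpow_one y]
      rw [← Real.rpow_add hy0]; norm_num
    have h5 : ‖A‖ ^ 2 ≤ X ^ 2 := by gcongr
    calc y ^ (-(3/2) : ℝ) * ‖2 * (z ^ (-(1/2) : ℂ) * ((y ^ (1/2 : ℝ) : ℝ) : ℂ)) * S y - A‖ ^ 2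
        ≤ y ^ (-(3/2) : ℝ) * (2 * (4 * (y * ‖S y‖ ^ 2)) + 2 * X ^ 2) := by
          gcongr
          linarith only [h1, h5]
      _ = 8 * ((y ^ (-(3/2) : ℝ) * y) * ‖S y‖ ^ 2) + 2 * X ^ 2 * y ^ (-(3/2) : ℝ) := by ring
      _ = _ := by rw [h4]
  calc ∫⁻ y in Set.Ioi (1:ℝ), ENNReal.ofReal (y ^ (-(3/2) : ℝ) * ‖Om X z (1 / y)‖ ^ 2)
      ≤ ∫⁻ y in Set.Ioi (1:ℝ), (8 * ENNReal.ofReal (y ^ (-(1/2) : ℝ) * ‖S y‖ ^ 2) + ENNReal.ofReal ((2 * X ^ 2) * y ^ (-(3/2) : ℝ))) :=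
        setLIntegral_mono' measurableSet_Ioi hpt
    _ = 8 * (∫⁻ x in Set.Ioi (1:ℝ), ENNReal.ofReal (x ^ (-(1/2) : ℝ) * ‖S x‖ ^ 2)) + ENNReal.ofReal ((2 * X ^ 2) * 2) := by
        rw [lintegral_add_right' _ (by
          apply AEMeasurable.ennreal_ofReal
          apply AEMeasurable.const_mul
          apply Measurable.aemeasurable
          fun_prop), lint_three_half _ (by positivity), lintegral_const_mul' _ _ (by norm_num)]
    _ ≤ 8 * ENNReal.ofReal B + ENNReal.ofReal ((2 * X ^ 2) * 2) := by gcongr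
    _ = ENNReal.ofReal (8 * B + (2 * X ^ 2) * 2) := by
        have h8 : (8 : ENNReal) = ENNReal.ofReal 8 := by norm_num
        rw [h8, ← ENNReal.ofReal_mul (by norm_num), ← ENNReal.ofReal_add (by positivity) (by positivity)]
    _ ≤ _ := by
        apply ENNReal.ofReal_le_ofReal
        have h5 : X ^ 2 ≤ Real.exp 1 * CQ * L / (Real.sqrt z.re * Real.log X) := by
          have hX2 : X ^ 2 ≤ 1 / Real.sqrt z.re := by
            have e1 : X ^ 2 = Real.exp (2 * Real.log X) := by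
              rw [show (2:ℝ) * Real.log X = ((2:ℕ):ℝ) * Real.log X by norm_num, Real.exp_nat_mul, Real.exp_log hX0]
            have e2 : 1 / Real.sqrt z.re = Real.exp (1 / 2 * L) := by
              rw [hL, one_div z.re, Real.log_inv]
              rw [show 1 / 2 * -Real.log z.re = -Real.log (Real.sqrt z.re) by rw [Real.log_sqrt hz.le]; ring, Real.exp_neg,
                Real.exp_log hsq, one_div]
            rw [e1, e2]
            apply Real.exp_le_exp.mpr
            linarith only [hlX, hXs]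
          have he : 1 ≤ Real.exp 1 := Real.one_le_exp (by norm_num)
          have hC1 : 1 ≤ CQ := by
            unfold CQ
            have h6 : (1:ℝ) ≤ Real.exp 6 := Real.one_le_exp (by norm_num)
            calc (1:ℝ) ≤ 128 ^ 2 * 1 * 1 * 2 := by norm_num
              _ ≤ _ := by gcongr
          have hfin : 1 ≤ L / Real.log X := by rw [le_div_iff₀ (by linarith only [hlX])]; linarith only [hlX, hXs]
          calc X ^ 2 ≤ 1 / Real.sqrt z.re := hX2
            _ = 1 * 1 * (1 / Real.sqrt z.re) * 1 := by ring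
            _ ≤ Real.exp 1 * CQ * (1 / Real.sqrt z.re) * (L / Real.log X) := by gcongr
            _ = _ := by field_simp
        have h7 : 50 * Real.exp 1 * CQ * L / (Real.sqrt z.re * Real.log X) =
            50 * (Real.exp 1 * CQ * L / (Real.sqrt z.re * Real.log X)) := by ring
        have h8 : B = 5 * (Real.exp 1 * CQ * L / (Real.sqrt z.re * Real.log X)) := by rw [hB]; ring
        rw [h7, h8]
        have h9 : 0 ≤ Real.exp 1 * CQ * L / (Real.sqrt z.re * Real.log X) := by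
          have : 0 ≤ L := by linarith only [hlX, hXs]
          positivity
        linarith only [hB0, h5, h8]

end Pool.Agent.Helper57.LH

end

/-! ### Helper57.LH.Conv -/

section

namespace Pool.Agent.Helper57.LH

open Complex Set MeasureTheory Filter Topology

open Pool.Agent.Helper57.Zeta

lemma Zt_conj (s : ℂ) : Zt (starRingEnd ℂ s) = starRingEnd ℂ (Zt s) := by
  unfold Zt
  rw [xi_conj]
  simp only [map_mul, map_div₀, map_inv₀, map_ofNat]
  congr 1
  congr 1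
  congr 1
  · have h := Complex.cpow_conj (Real.pi : ℂ) (s / 2) (by
      rw [Complex.arg_ofReal_of_nonneg Real.pi_pos.le]; exact Real.pi_pos.ne)
    rw [Complex.conj_ofReal] at h
    rw [← h, map_div₀, Complex.conj_ofNat]
  · rw [← Complex.Gamma_conj, map_add, map_one, map_div₀, Complex.conj_ofNat]

lemma Mol_conj (X : ℝ) (s : ℂ) : Mol X (starRingEnd ℂ s) = starRingEnd ℂ (Mol X s) := by
  unfold Mol
  rw [map_sum]
  refine Finset.sum_congr rfl fun h hh => ?_
  rw [map_mul, Complex.conj_ofReal]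
  congr 1
  have hc := Complex.cpow_conj (h : ℂ) (-s) (by
      rw [Complex.natCast_arg]; exact Real.pi_pos.ne)
  rw [Complex.conj_natCast] at hc
  rw [← hc, map_neg]

lemma differentiable_Mol (X : ℝ) : Differentiable ℂ (Mol X) := by
  unfold Mol
  apply Differentiable.fun_sum
  intro h hh
  rw [Finset.mem_Ioc] at hh
  have hh0 : (h:ℂ) ≠ 0 := by exact_mod_cast hh.1.ne'
  apply Differentiable.const_mul
  intro s
  exact (differentiableAt_id.neg).const_cpow (Or.inl hh0)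

/-- mollifier length -/
noncomputable def XT (T : ℝ) : ℝ := T ^ (1/40 : ℝ)

/-- auxiliary function for the convexity argument -/
noncomputable def HT (T : ℝ) (s : ℂ) : ℂ := (Zt s * Mol (XT T) s - (s - 1)) / (s + 2) * cexp (s ^ 2 / T ^ 2)

lemma HT_diff (T : ℝ) : DifferentiableOn ℂ (HT T) {s | (-1:ℝ) < s.re} := by
  unfold HT
  have h1 := differentiable_Zt
  have h2 := differentiable_Mol (XT T)
  have h3 : ∀ s ∈ {s : ℂ | (-1:ℝ) < s.re}, s + 2 ≠ 0 := by
    intro s hs h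
    have hs' : (-1:ℝ) < s.re := hs
    have := congrArg Complex.re h
    simp at this
    linarith
  apply DifferentiableOn.mul
  · apply DifferentiableOn.div
    · exact ((h1.mul h2).sub (differentiable_id.sub_const (1 : ℂ))).differentiableOn
    · exact (differentiable_id.add_const (2 : ℂ)).differentiableOn
    · exact h3
  · exact (((differentiable_id.pow 2).div_const ((T : ℂ) ^ 2)).cexp).differentiableOn

lemma HT_conj (T : ℝ) (s : ℂ) : HT T (starRingEnd ℂ s) = starRingEnd ℂ (HT T s) := by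
  unfold HT
  rw [Zt_conj, Mol_conj]
  simp only [map_mul, map_div₀, map_sub, map_add, map_one, map_ofNat, ← Complex.exp_conj, map_pow, Complex.conj_ofReal]

lemma norm_exp_sq (T : ℝ) (σ t : ℝ) : ‖cexp ((σ + t * I) ^ 2 / T ^ 2)‖ = Real.exp ((σ ^ 2 - t ^ 2) / T ^ 2) := by
  rw [Complex.norm_exp]
  congr 1
  have e : ((σ + t * I : ℂ) ^ 2 / T ^ 2) = ((((σ ^ 2 - t ^ 2) / T ^ 2 : ℝ)) : ℂ) + ((2 * σ * t / T ^ 2 : ℝ) : ℂ) * I := by
    push_cast
    linear_combination ((t:ℂ) ^ 2 / (T:ℂ) ^ 2) * I_sq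
  rw [e, Complex.add_re, Complex.ofReal_re, Complex.re_ofReal_mul, Complex.I_re, mul_zero, add_zero]

lemma norm_sub_one_le_add_two {s : ℂ} (hs : -(1/2) ≤ s.re) : ‖s - 1‖ ≤ ‖s + 2‖ := by
  rw [← sq_le_sq₀ (norm_nonneg _) (norm_nonneg _), ← Complex.normSq_eq_norm_sq, ← Complex.normSq_eq_norm_sq,
    Complex.normSq_apply, Complex.normSq_apply]
  simp
  nlinarith

/-- relation with the mollified zeta function -/
lemma HT_eq {T : ℝ} {s : ℂ} (h0 : 0 < s.re) (h1 : s ≠ 1) :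
    HT T s = (s - 1) / (s + 2) * (riemannZeta s * Mol (XT T) s - 1) * cexp (s ^ 2 / T ^ 2) := by
  unfold HT
  rw [Zt_eq h0 h1]
  ring

lemma HT_crude0 {T : ℝ} (hT : 1 < T) {s : ℂ} (h1 : 1 / 4 ≤ s.re) :
    ‖(Zt s * Mol (XT T) s - (s - 1)) / (s + 2)‖ ≤ 10 * (1 + ‖s‖) * XT T := by
  have hT0 : 0 < T := by linarith only [hT]
  have hX1 : 1 < XT T := Real.one_lt_rpow hT (by norm_num)
  have hZ : ‖Zt s‖ ≤ 5 * (1 + ‖s‖) ^ 2 := norm_Zt_le h1
  have hM : ‖Mol (XT T) s‖ ≤ XT T := norm_Mol_le hX1 (by linarith only [h1])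
  have hs2 : ‖s‖ + 1 ≤ ‖s + 2‖ + 1 := by
    have : ‖s‖ ≤ ‖s + 2‖ := by
      rw [← sq_le_sq₀ (norm_nonneg _) (norm_nonneg _), ← Complex.normSq_eq_norm_sq, ← Complex.normSq_eq_norm_sq,
        Complex.normSq_apply, Complex.normSq_apply]
      simp only [Complex.add_re, Complex.add_im, Complex.re_ofNat, Complex.im_ofNat, add_zero]
      nlinarith only [h1]
    linarith only [this]
  have hs2' : 2 ≤ ‖s + 2‖ := by
    have := Complex.re_le_norm (s + 2)
    simp at this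
    linarith
  have hs1 : ‖s - 1‖ ≤ ‖s + 2‖ := norm_sub_one_le_add_two (by linarith only [h1])
  rw [norm_div, div_le_iff₀ (by linarith only [hs2'])]
  have h5 : 1 + ‖s‖ ≤ 3 / 2 * ‖s + 2‖ := by linarith
  calc ‖Zt s * Mol (XT T) s - (s - 1)‖ ≤ ‖Zt s‖ * ‖Mol (XT T) s‖ + ‖s - 1‖ := by
        refine (norm_sub_le _ _).trans ?_
        rw [norm_mul]
    _ ≤ (5 * (1 + ‖s‖) ^ 2) * XT T + ‖s + 2‖ := by gcongr
    _ ≤ 5 * (1 + ‖s‖) * (3 / 2 * ‖s + 2‖) * XT T + 1 * 1 * ‖s + 2‖ := by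
        have : (1 + ‖s‖) ^ 2 ≤ (1 + ‖s‖) * (3 / 2 * ‖s + 2‖) := by
          rw [sq]; gcongr
        have hX0 : 0 < XT T := by linarith only [hX1]
        nlinarith only [hX1, this]
    _ ≤ 5 * (1 + ‖s‖) * (3 / 2 * ‖s + 2‖) * XT T + (1 + ‖s‖) * XT T * ‖s + 2‖ := by
        have : 0 ≤ ‖s‖ := norm_nonneg s
        gcongr
        linarith only [this]
    _ ≤ _ := by
        have hX0 : 0 < XT T := by linarith only [hX1]
        have : 0 ≤ ‖s‖ := norm_nonneg s
        have h6 : 0 ≤ (1 + ‖s‖) * XT T * ‖s + 2‖ := by positivity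
        nlinarith only [h6]

/-- crude bound -/
lemma HT_crude {T : ℝ} (hT : 1 < T) {σ t : ℝ} (h1 : 1 / 4 ≤ σ) (h2 : σ ≤ 9) :
    ‖HT T (σ + t * I)‖ ^ 2 ≤ 10 ^ 5 * Real.exp (162 / T ^ 2) * XT T ^ 2 * T ^ 2 * Real.exp (-(t / T) ^ 2) := by
  have hT0 : 0 < T := by linarith only [hT]
  have hX1 : 1 < XT T := Real.one_lt_rpow hT (by norm_num)
  set s : ℂ := σ + t * I with hs
  have hre : s.re = σ := by rw [hs]; simp
  have him : s.im = t := by rw [hs]; simp
  have hA := HT_crude0 hT (s := s) (by rw [hre]; exact h1)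
  have hns : 1 + ‖s‖ ≤ 10 + |t| := by
    have := Complex.norm_le_abs_re_add_abs_im s
    rw [hre, him, abs_of_nonneg (by linarith only [h1])] at this
    linarith only [h2, this]
  have hpoly : (10 + |t|) ^ 2 * Real.exp (-(t / T) ^ 2) ≤ 202 * T ^ 2 := by
    have e1 : Real.exp (-(t / T) ^ 2) ≤ 1 := Real.exp_le_one_iff.mpr (by
      have := sq_nonneg (t / T); linarith only [this])
    have e2 : (t / T) ^ 2 * Real.exp (-(t / T) ^ 2) ≤ 1 := by
      have h3 := Real.add_one_le_exp ((t / T) ^ 2)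
      rw [Real.exp_neg, ← div_eq_mul_inv, div_le_one (Real.exp_pos _)]
      linarith only [h3]
    have e3 : (10 + |t|) ^ 2 ≤ 2 * 100 + 2 * t ^ 2 := by
      have := sq_abs t
      nlinarith only [this, sq_nonneg (10 - |t|)]
    have e4 : t ^ 2 * Real.exp (-(t / T) ^ 2) ≤ T ^ 2 := by
      have : t ^ 2 * Real.exp (-(t / T) ^ 2) = T ^ 2 * ((t / T) ^ 2 * Real.exp (-(t / T) ^ 2)) := by
        field_simp
      rw [this]
      nlinarith only [e2, sq_nonneg T]
    have e5 := Real.exp_pos (-(t / T) ^ 2)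
    have hT2 : 1 ≤ T ^ 2 := by nlinarith only [hT]
    calc (10 + |t|) ^ 2 * Real.exp (-(t / T) ^ 2) ≤ (2 * 100 + 2 * t ^ 2) * Real.exp (-(t / T) ^ 2) := by gcongr
      _ = 200 * Real.exp (-(t / T) ^ 2) + 2 * (t ^ 2 * Real.exp (-(t / T) ^ 2)) := by ring
      _ ≤ 200 * 1 + 2 * T ^ 2 := by gcongr
      _ ≤ _ := by nlinarith only [hT2]
  unfold HT
  rw [norm_mul, mul_pow, hs, norm_exp_sq, ← hs]
  have he : Real.exp ((σ ^ 2 - t ^ 2) / T ^ 2) ^ 2 ≤ Real.exp (162 / T ^ 2) * (Real.exp (-(t / T) ^ 2) * Real.exp (-(t / T) ^ 2)) := by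
    rw [← Real.exp_nat_mul, ← Real.exp_add, ← Real.exp_add]
    apply Real.exp_le_exp.mpr
    have : σ ^ 2 ≤ 81 := by nlinarith only [h1, h2]
    have e : ((2:ℕ):ℝ) * ((σ ^ 2 - t ^ 2) / T ^ 2) = (2 * σ ^ 2) / T ^ 2 + (-(t / T) ^ 2 + -(t / T) ^ 2) := by
      push_cast; field_simp; ring
    rw [e]
    gcongr
    linarith only [this]
  calc ‖(Zt s * Mol (XT T) s - (s - 1)) / (s + 2)‖ ^ 2 * Real.exp ((σ ^ 2 - t ^ 2) / T ^ 2) ^ 2
      ≤ (10 * (10 + |t|) * XT T) ^ 2 * (Real.exp (162 / T ^ 2) * (Real.exp (-(t / T) ^ 2) * Real.exp (-(t / T) ^ 2))) := by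
        have hX0 : 0 < XT T := by linarith only [hX1]
        gcongr
        exact hA.trans (by gcongr)
    _ = 100 * XT T ^ 2 * Real.exp (162 / T ^ 2) * ((10 + |t|) ^ 2 * Real.exp (-(t / T) ^ 2)) * Real.exp (-(t / T) ^ 2) := by ring
    _ ≤ 100 * XT T ^ 2 * Real.exp (162 / T ^ 2) * (202 * T ^ 2) * Real.exp (-(t / T) ^ 2) := by gcongr
    _ ≤ _ := by
        have : 0 ≤ XT T ^ 2 * Real.exp (162 / T ^ 2) * T ^ 2 * Real.exp (-(t / T) ^ 2) := by positivity
        nlinarith only [this]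

end Pool.Agent.Helper57.LH

end

/-! ### Helper57.LH.SecMom -/

section

namespace Pool.Agent.Helper57.LH

open Complex MeasureTheory Filter Topology

/-- logarithmic change of variables -/
noncomputable def Fu (X : ℝ) (z : ℂ) (u : ℝ) : ℂ := (Real.exp (-(1/4) * u) : ℂ) * Om X z (Real.exp (-u))

lemma en_deriv : ∀ x ∈ (Set.univ : Set ℝ), HasDerivWithinAt (fun u => Real.exp (-u)) (-Real.exp (-x)) Set.univ x := by
  intro x _
  have := ((Real.hasDerivAt_exp (-x)).comp x (hasDerivAt_neg x)).hasDerivWithinAt (s := Set.univ)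
  rw [mul_neg_one] at this
  exact this

lemma en_image : (fun u : ℝ => Real.exp (-u)) '' Set.univ = Set.Ioi 0 := by
  ext x
  simp only [Set.image_univ, Set.mem_range, Set.mem_Ioi]
  constructor
  · rintro ⟨y, rfl⟩; exact Real.exp_pos _
  · intro hx
    exact ⟨-Real.log x, by rw [neg_neg, Real.exp_log hx]⟩

lemma en_inj : Set.InjOn (fun u : ℝ => Real.exp (-u)) Set.univ := by
  intro a _ b _ h
  have := Real.exp_injective h
  linarith

lemma Fu_integrable {z : ℂ} (hz : 0 < z.re) (X : ℝ) : Integrable (Fu X z) := by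
  have h1 := (Om_mellin hz X (s := 1/4) (by norm_num) (by norm_num)).1
  unfold MellinConvergent at h1
  rw [← en_image, integrableOn_image_iff_integrableOn_abs_deriv_smul MeasurableSet.univ en_deriv en_inj] at h1
  rw [integrableOn_univ] at h1
  refine h1.congr (Eventually.of_forall fun u => ?_)
  simp only
  unfold Fu
  rw [abs_neg, abs_of_pos (Real.exp_pos _), smul_eq_mul, Complex.real_smul, ← mul_assoc]
  congr 1
  have e : (((Real.exp (-u) : ℝ)) : ℂ) ^ ((1/4 : ℂ) - 1) = ((Real.exp (3/4 * u) : ℝ) : ℂ) := by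
    have : ((1/4 : ℂ) - 1) = ((-(3/4) : ℝ) : ℂ) := by push_cast; norm_num
    rw [this, ← Complex.ofReal_cpow (Real.exp_pos _).le, ← Real.exp_mul]
    congr 2
    ring
  rw [e, ← Complex.ofReal_mul, ← Real.exp_add]
  congr 2
  ring

lemma FT_Fu {z : ℂ} (hz : 0 < z.re) (X : ℝ) (τ : ℝ) :
    FT (Fu X z) (-τ) = Mol X (2 * (1/4 + I * τ)) * (2 * z ^ (-(1/4 + I * τ) : ℂ) * completedRiemannZeta (2 * (1/4 + I * τ))) := by
  have h := (Om_mellin hz X (s := 1/4 + I * τ) (by simp) (by simp; norm_num)).2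
  rw [← h]
  unfold mellin FT
  rw [← en_image, integral_image_eq_integral_abs_deriv_smul MeasurableSet.univ en_deriv en_inj]
  rw [setIntegral_univ]
  refine integral_congr_ae (Eventually.of_forall fun u => ?_)
  simp only
  unfold Fu
  rw [abs_neg, abs_of_pos (Real.exp_pos _), smul_eq_mul, Complex.real_smul, ← mul_assoc, ← mul_assoc]
  congr 1
  have hne : (((Real.exp (-u) : ℝ)) : ℂ) ≠ 0 := by exact_mod_cast (Real.exp_pos _).ne'
  rw [Complex.cpow_def_of_ne_zero hne, ← Complex.ofReal_log (Real.exp_pos _).le, Real.log_exp]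
  push_cast
  rw [← Complex.exp_add, ← Complex.exp_add]
  congr 1
  ring

lemma lint_Fu {X : ℝ} {z : ℂ} (hX : 3 ≤ X) (hz : 0 < z.re) (hz1 : ‖z‖ = 1) (hzi : 1 / 2 ≤ |z.im|)
    (hXs : 20 * Real.log X ≤ Real.log (1 / z.re)) :
    ∫⁻ u, ENNReal.ofReal (‖Fu X z u‖ ^ 2) ≤
      ENNReal.ofReal (350 * Real.exp 1 * CQ * Real.log (1 / z.re) / (Real.sqrt z.re * Real.log X)) := by
  have hb1 := bound_large hX hz hz1 hzi hXs
  have hb2 := bound_small hX hz hz1 hzi hXs
  have himg : Real.exp '' Set.Ioi 0 = Set.Ioi 1 := by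
    ext x
    simp only [Set.mem_image, Set.mem_Ioi]
    constructor
    · rintro ⟨y, hy, rfl⟩; exact Real.one_lt_exp_iff.mpr hy
    · intro hx
      exact ⟨Real.log x, Real.log_pos hx, Real.exp_log (by linarith only [hx])⟩
  have hder : ∀ x ∈ Set.Ioi (0:ℝ), HasDerivWithinAt Real.exp (Real.exp x) (Set.Ioi 0) x :=
    fun x _ => (Real.hasDerivAt_exp x).hasDerivWithinAt
  have hinj : Set.InjOn Real.exp (Set.Ioi 0) := Real.exp_injective.injOn
  have h2 : ∫⁻ u in Set.Ioi (0:ℝ), ENNReal.ofReal (‖Fu X z u‖ ^ 2) =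
      ∫⁻ y in Set.Ioi (1:ℝ), ENNReal.ofReal (y ^ (-(3/2) : ℝ) * ‖Om X z (1 / y)‖ ^ 2) := by
    rw [← himg, lintegral_image_eq_lintegral_abs_deriv_mul measurableSet_Ioi hder hinj]
    refine setLIntegral_congr_fun measurableSet_Ioi fun u hu => ?_
    rw [← ENNReal.ofReal_mul (abs_nonneg _)]
    congr 1
    unfold Fu
    have e1 : 1 / Real.exp u = Real.exp (-u) := by rw [Real.exp_neg, one_div]
    rw [e1]
    rw [norm_mul, Complex.norm_real, Real.norm_of_nonneg (Real.exp_pos _).le, mul_pow, ← Real.exp_nat_mul,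
      abs_of_pos (Real.exp_pos _), ← Real.exp_mul]
    rw [← mul_assoc (Real.exp u), ← Real.exp_add]
    congr 2
    push_cast
    ring
  have h1 : ∫⁻ u in Set.Iio (0:ℝ), ENNReal.ofReal (‖Fu X z u‖ ^ 2) =
      ∫⁻ x in Set.Ioi (1:ℝ), ENNReal.ofReal (x ^ (-(1/2) : ℝ) * ‖Om X z x‖ ^ 2) := by
    have himg2 : (fun u : ℝ => Real.exp (-u)) '' Set.Iio 0 = Set.Ioi 1 := by
      ext x
      simp only [Set.mem_image, Set.mem_Iio, Set.mem_Ioi]
      constructor
      · rintro ⟨y, hy, rfl⟩; exact Real.one_lt_exp_iff.mpr (by linarith only [hy])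
      · intro hx
        refine ⟨-Real.log x, ?_, ?_⟩
        · have := Real.log_pos hx; linarith only [this]
        · rw [neg_neg, Real.exp_log (by linarith only [hx])]
    have hder2 : ∀ x ∈ Set.Iio (0:ℝ), HasDerivWithinAt (fun u : ℝ => Real.exp (-u)) (-Real.exp (-x)) (Set.Iio 0) x :=
      fun x _ => (en_deriv x (Set.mem_univ x)).mono (Set.subset_univ _)
    have hinj2 : Set.InjOn (fun u : ℝ => Real.exp (-u)) (Set.Iio 0) := en_inj.mono (Set.subset_univ _)
    rw [← himg2, lintegral_image_eq_lintegral_abs_deriv_mul measurableSet_Iio hder2 hinj2]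
    refine setLIntegral_congr_fun measurableSet_Iio fun u hu => ?_
    rw [← ENNReal.ofReal_mul (abs_nonneg _)]
    congr 1
    unfold Fu
    rw [norm_mul, Complex.norm_real, Real.norm_of_nonneg (Real.exp_pos _).le, mul_pow, ← Real.exp_nat_mul,
      abs_neg, abs_of_pos (Real.exp_pos _), ← Real.exp_mul]
    rw [← mul_assoc (Real.exp (-u)), ← Real.exp_add]
    congr 2
    push_cast
    ring
  have hsplit : ∫⁻ u, ENNReal.ofReal (‖Fu X z u‖ ^ 2) =
      (∫⁻ u in Set.Iio (0:ℝ), ENNReal.ofReal (‖Fu X z u‖ ^ 2)) + ∫⁻ u in Set.Ioi (0:ℝ), ENNReal.ofReal (‖Fu X z u‖ ^ 2) := by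
    rw [← lintegral_add_compl _ (measurableSet_Iio (a := (0:ℝ))), Set.compl_Iio,
      setLIntegral_congr (Ioi_ae_eq_Ici (a := (0:ℝ))).symm]
  have hlX : 1 ≤ Real.log X := by
    rw [Real.le_log_iff_exp_le (by linarith only [hX])]
    have := Real.exp_one_lt_d9
    linarith only [hX, this]
  have hCQ := CQ_pos
  have hL : 0 ≤ Real.log (1 / z.re) := by linarith only [hXs, hlX]
  rw [hsplit, h1, h2]
  refine (add_le_add hb1 hb2).trans ?_
  rw [← ENNReal.ofReal_add (by positivity) (by positivity)]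
  apply ENNReal.ofReal_le_ofReal
  apply le_of_eq
  ring

lemma Fu_sq {X : ℝ} {z : ℂ} (hX : 3 ≤ X) (hz : 0 < z.re) (hz1 : ‖z‖ = 1) (hzi : 1 / 2 ≤ |z.im|)
    (hXs : 20 * Real.log X ≤ Real.log (1 / z.re)) :
    Integrable (fun u => ‖Fu X z u‖ ^ 2) ∧
    ∫ u, ‖Fu X z u‖ ^ 2 ≤ 350 * Real.exp 1 * CQ * Real.log (1 / z.re) / (Real.sqrt z.re * Real.log X) := by
  have h := lint_Fu hX hz hz1 hzi hXs
  have hm : AEStronglyMeasurable (fun u => ‖Fu X z u‖ ^ 2) volume :=
    ((Fu_integrable hz X).aestronglyMeasurable.norm).pow 2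
  have hlX : 1 ≤ Real.log X := by
    rw [Real.le_log_iff_exp_le (by linarith only [hX])]
    have := Real.exp_one_lt_d9
    linarith only [hX, this]
  have hCQ := CQ_pos
  have hL : 0 ≤ Real.log (1 / z.re) := by linarith only [hXs, hlX]
  constructor
  · refine ⟨hm, ?_⟩
    rw [hasFiniteIntegral_iff_ofReal (Eventually.of_forall fun u => by positivity)]
    exact lt_of_le_of_lt h ENNReal.ofReal_lt_top
  · rw [integral_eq_lintegral_of_nonneg_ae (Eventually.of_forall fun u => by positivity) hm]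
    apply ENNReal.toReal_le_of_le_ofReal (by positivity) h

/-- the twist parameter -/
noncomputable def zT (T : ℝ) : ℂ := Complex.exp (((Real.pi / 2 - 1 / T : ℝ) : ℂ) * I)

lemma zT_re (T : ℝ) : (zT T).re = Real.sin (1 / T) := by
  unfold zT
  rw [Complex.exp_ofReal_mul_I_re, Real.cos_pi_div_two_sub]

lemma zT_im (T : ℝ) : (zT T).im = Real.cos (1 / T) := by
  unfold zT
  rw [Complex.exp_ofReal_mul_I_im, Real.sin_pi_div_two_sub]

lemma zT_norm (T : ℝ) : ‖zT T‖ = 1 := by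
  unfold zT
  exact Complex.norm_exp_ofReal_mul_I _

lemma zT_arg {T : ℝ} (hT : 1 ≤ T) : (zT T).arg = Real.pi / 2 - 1 / T := by
  unfold zT
  rw [Complex.arg_exp_mul_I, toIocMod_eq_self]
  have h1 : 1 / T ≤ 1 := by rw [div_le_one (by linarith)]; exact hT
  have h2 : 0 < 1 / T := by positivity
  have := Real.pi_gt_three
  constructor
  · linarith only [h1, this]
  · linarith only [h2, this]

/-- lower bound for the transform -/
lemma FT_lower {X T : ℝ} (hT : 2 ≤ T) {t : ℝ} (ht1 : 1 ≤ t) :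
    ‖riemannZeta (1 / 2 + I * t) * Mol X (1 / 2 + I * t)‖ ^ 2 * Real.exp (-(2 * (t / T) ^ 2)) ≤
      Real.sqrt T * ‖FT (Fu X (zT T)) (-(t / 2))‖ ^ 2 := by
  have hT0 : 0 < T := by linarith only [hT]
  have ht0 : 0 < t := by linarith
  have hre : 0 < (zT T).re := by
    rw [zT_re]
    apply Real.sin_pos_of_pos_of_lt_pi (by positivity)
    have h1 : 1 / T ≤ 1 := by rw [div_le_one (by linarith)]; linarith
    linarith [Real.pi_gt_three]
  rw [FT_Fu hre]
  have e1 : (2 * (1 / 4 + I * ((t / 2 : ℝ) : ℂ)) : ℂ) = 1 / 2 + I * t := by push_cast; ring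
  rw [e1]
  have hs0 : (1 / 2 + I * t : ℂ) ≠ 0 := by
    intro h
    have := congrArg Complex.re h
    simp at this
  have hG : Gammaℝ (1 / 2 + I * t) ≠ 0 := Complex.Gammaℝ_ne_zero_of_re_pos (by simp)
  have hΛ : completedRiemannZeta (1 / 2 + I * t) = Gammaℝ (1 / 2 + I * t) * riemannZeta (1 / 2 + I * t) := by
    rw [riemannZeta_def_of_ne_zero hs0, mul_div_cancel₀ _ hG]
  rw [hΛ]
  have hGn : ‖Gammaℝ (1 / 2 + I * t)‖ ^ 2 = Real.pi ^ (-(1/2) : ℝ) * ‖Gamma (1 / 4 + I * ((t / 2 : ℝ) : ℂ))‖ ^ 2 := by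
    rw [Complex.Gammaℝ_def, norm_mul, mul_pow, Complex.norm_cpow_eq_rpow_re_of_pos Real.pi_pos]
    congr 1
    · rw [← Real.rpow_natCast, ← Real.rpow_mul Real.pi_pos.le]
      congr 1
      simp
    · congr 3
      push_cast
      ring
  have hGam := norm_Gamma_quarter_ge (y := t / 2) (by linarith only [ht1])
  have hz0 : zT T ≠ 0 := by intro h; rw [h] at hre; simp at hre
  have hzp : ‖(zT T) ^ (-(1 / 4 + I * ((t / 2 : ℝ) : ℂ)) : ℂ)‖ = Real.exp ((Real.pi / 2 - 1 / T) * (t / 2)) := by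
    rw [Complex.norm_cpow_of_ne_zero hz0, zT_norm, Real.one_rpow, zT_arg (by linarith only [hT]), one_div, ← Real.exp_neg]
    congr 1
    simp
  rw [norm_mul, norm_mul, norm_mul, norm_mul, norm_mul, hzp]
  have hpi : Real.pi ^ (-(1/2) : ℝ) = 1 / Real.sqrt Real.pi := by
    rw [Real.rpow_neg Real.pi_pos.le, ← Real.sqrt_eq_rpow, one_div]
  have hsqpi : Real.sqrt Real.pi ≤ 2 := by
    rw [Real.sqrt_le_left (by norm_num)]
    have := Real.pi_lt_d2
    norm_num at this ⊢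
    linarith only [this]
  set a := ‖riemannZeta (1 / 2 + I * t)‖ with ha
  set m := ‖Mol X (1 / 2 + I * t)‖ with hm
  have h2 : ‖(2:ℂ)‖ = 2 := by norm_num
  rw [h2]
  have hx0 : 0 < t / T := by positivity
  have hxx : Real.exp (-(2 * (t / T) ^ 2)) * Real.sqrt (t / T) ≤ Real.exp (-(t / T)) := by
    have h1 : t / T ≤ Real.exp (t / T - 1) := by
      have := Real.add_one_le_exp (t / T - 1); linarith only [this]
    have h2 : Real.sqrt (t / T) ≤ Real.exp ((t / T - 1) / 2) := by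
      rw [Real.sqrt_le_left (Real.exp_pos _).le, ← Real.exp_nat_mul]
      refine h1.trans (le_of_eq ?_)
      congr 1
      push_cast; ring
    calc Real.exp (-(2 * (t / T) ^ 2)) * Real.sqrt (t / T) ≤ Real.exp (-(2 * (t / T) ^ 2)) * Real.exp ((t / T - 1) / 2) := by gcongr
      _ = Real.exp (-(2 * (t / T) ^ 2) + (t / T - 1) / 2) := by rw [Real.exp_add]
      _ ≤ _ := by
          apply Real.exp_le_exp.mpr
          nlinarith only [sq_nonneg (t / T - 3 / 8)]
  have key : Real.exp (-(2 * (t / T) ^ 2)) ≤ Real.sqrt T * (4 * Real.exp ((Real.pi / 2 - 1 / T) * (t / 2)) ^ 2 * ‖Gammaℝ (1 / 2 + I * t)‖ ^ 2) := by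
    rw [hGn, hpi]
    have h3 : Real.exp ((Real.pi / 2 - 1 / T) * (t / 2)) ^ 2 * Real.exp (-(Real.pi * (t / 2))) = Real.exp (-(t / T)) := by
      rw [← Real.exp_nat_mul, ← Real.exp_add]
      congr 1
      push_cast; field_simp; ring
    have h4 : 0 < Real.sqrt (t / 2) := Real.sqrt_pos.mpr (by linarith only [ht1])
    have h5 : Real.sqrt (t / 2) ≤ Real.sqrt t := Real.sqrt_le_sqrt (by linarith only [ht1])
    have h6 : 0 < Real.sqrt Real.pi := Real.sqrt_pos.mpr Real.pi_pos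
    have h7 : 0 < Real.sqrt T := Real.sqrt_pos.mpr hT0
    have h8 : 0 < Real.sqrt t := Real.sqrt_pos.mpr ht0
    have h9 : Real.sqrt (t / T) = Real.sqrt t / Real.sqrt T := Real.sqrt_div ht0.le _
    rw [h9] at hxx
    have h10 : Real.exp (-(2 * (t / T) ^ 2)) ≤ Real.sqrt T * (Real.exp (-(t / T)) / Real.sqrt t) := by
      calc Real.exp (-(2 * (t / T) ^ 2)) = (Real.exp (-(2 * (t / T) ^ 2)) * (Real.sqrt t / Real.sqrt T)) * (Real.sqrt T / Real.sqrt t) := by
            field_simp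
        _ ≤ Real.exp (-(t / T)) * (Real.sqrt T / Real.sqrt t) := by gcongr
        _ = _ := by ring
    calc Real.exp (-(2 * (t / T) ^ 2)) ≤ Real.sqrt T * (Real.exp (-(t / T)) / Real.sqrt t) := h10
      _ ≤ Real.sqrt T * (4 * (1 / 2) * (Real.exp (-(t / T)) / Real.sqrt t)) := by
          have : 0 ≤ Real.exp (-(t / T)) / Real.sqrt t := by positivity
          gcongr
          linarith only [this]
      _ ≤ Real.sqrt T * (4 * (1 / Real.sqrt Real.pi) * (Real.exp (-(t / T)) / Real.sqrt (t / 2))) := by gcongr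
      _ = Real.sqrt T * (4 * (1 / Real.sqrt Real.pi) *
          ((Real.exp ((Real.pi / 2 - 1 / T) * (t / 2)) ^ 2 * Real.exp (-(Real.pi * (t / 2)))) / Real.sqrt (t / 2))) := by
          rw [h3]
      _ = Real.sqrt T * (4 * Real.exp ((Real.pi / 2 - 1 / T) * (t / 2)) ^ 2 *
          (1 / Real.sqrt Real.pi * (Real.exp (-(Real.pi * (t / 2))) / Real.sqrt (t / 2)))) := by ring
      _ ≤ _ := by gcongr
  calc (a * m) ^ 2 * Real.exp (-(2 * (t / T) ^ 2))
      ≤ (a * m) ^ 2 * (Real.sqrt T * (4 * Real.exp ((Real.pi / 2 - 1 / T) * (t / 2)) ^ 2 * ‖Gammaℝ (1 / 2 + I * t)‖ ^ 2)) := by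
        gcongr
    _ = _ := by ring

/-- mollified second moment on the critical line -/
theorem second_moment : ∃ C : ℝ, 0 < C ∧ ∀ T X R : ℝ, 2 ≤ T → 3 ≤ X → 20 * Real.log X ≤ Real.log T → 1 ≤ R →
    ∫ t in (1:ℝ)..R, ‖riemannZeta (1 / 2 + I * t) * Mol X (1 / 2 + I * t)‖ ^ 2 * Real.exp (-(2 * (t / T) ^ 2)) ≤
      C * T * (Real.log T / Real.log X) := by
  refine ⟨2 * (2 * Real.pi * (350 * Real.exp 1 * CQ * 4)), by have := CQ_pos; positivity, ?_⟩
  intro T X R hT hX hXT hR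
  have hT0 : 0 < T := by linarith
  have hlX : 1 ≤ Real.log X := by
    rw [Real.le_log_iff_exp_le (by linarith only [hX])]
    have := Real.exp_one_lt_d9
    linarith only [hX, this]
  have hCQ := CQ_pos
  have hlT : 0 < Real.log T := by linarith
  have hTi : 1 / T ≤ 1 / 2 := one_div_le_one_div_of_le (by norm_num) hT
  have hTi0 : 0 < 1 / T := by positivity
  have hsin1 : Real.sin (1 / T) ≤ 1 / T := Real.sin_le hTi0.le
  have hsin2 : 1 / (2 * T) ≤ Real.sin (1 / T) := by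
    have h1 := Real.mul_le_sin hTi0.le (by linarith only [hTi, hTi0, Real.pi_gt_three])
    have h2 : 1 / 2 ≤ 2 / Real.pi := by
      rw [div_le_div_iff₀ (by norm_num) Real.pi_pos]
      linarith [Real.pi_lt_d2]
    calc 1 / (2 * T) = 1 / 2 * (1 / T) := by ring
      _ ≤ 2 / Real.pi * (1 / T) := by gcongr
      _ ≤ _ := h1
  have hre : 0 < (zT T).re := by rw [zT_re]; exact lt_of_lt_of_le (by positivity) hsin2
  have him : 1 / 2 ≤ |(zT T).im| := by
    rw [zT_im]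
    have : 1 / 2 ≤ Real.cos (1 / T) := by
      have h1 := Real.one_sub_sq_div_two_le_cos (x := 1 / T)
      nlinarith only [hTi, hTi0, h1]
    exact this.trans (le_abs_self _)
  have hXs : 20 * Real.log X ≤ Real.log (1 / (zT T).re) := by
    refine hXT.trans ?_
    apply Real.log_le_log hT0
    rw [le_div_iff₀ hre, zT_re]
    calc T * Real.sin (1 / T) ≤ T * (1 / T) := by gcongr
      _ = 1 := by field_simp
  have hFi := Fu_integrable hre X
  have hFs := Fu_sq hX hre (zT_norm T) him hXs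
  set A := 350 * Real.exp 1 * CQ * Real.log (1 / (zT T).re) / (Real.sqrt (zT T).re * Real.log X) with hA
  have hpl := planch hFi hFs.1 (a := -(R / 2)) (b := -(1 / 2)) (by linarith only [hR])
  have hcont : Continuous (fun t : ℝ => ‖FT (Fu X (zT T)) (-(t / 2))‖ ^ 2) := by
    have := continuous_FT hFi
    fun_prop
  have hsub : ∫ t in (1:ℝ)..R, ‖FT (Fu X (zT T)) (-(t / 2))‖ ^ 2 =
      2 * ∫ τ in (-(R / 2))..(-(1 / 2)), ‖FT (Fu X (zT T)) τ‖ ^ 2 := by
    have h1 := intervalIntegral.integral_comp_mul_left (a := 1) (b := R)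
      (fun τ => ‖FT (Fu X (zT T)) τ‖ ^ 2) (c := -(1/2)) (by norm_num)
    have h2 : ∀ t : ℝ, -(1/2) * t = -(t / 2) := fun t => by ring
    simp_rw [h2] at h1
    rw [h1, intervalIntegral.integral_symm]
    rw [smul_eq_mul]
    norm_num
  have hL : ∫ t in (1:ℝ)..R, ‖riemannZeta (1 / 2 + I * t) * Mol X (1 / 2 + I * t)‖ ^ 2 * Real.exp (-(2 * (t / T) ^ 2)) ≤
      ∫ t in (1:ℝ)..R, Real.sqrt T * ‖FT (Fu X (zT T)) (-(t / 2))‖ ^ 2 := by
    apply intervalIntegral.integral_mono_on (by linarith only [hR])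
    · apply ContinuousOn.intervalIntegrable
      intro t _
      apply ContinuousAt.continuousWithinAt
      have hne : (1 / 2 + I * t : ℂ) ≠ 1 := by
        intro h
        have := congrArg Complex.re h
        simp at this
      have hz : ContinuousAt (fun t : ℝ => riemannZeta (1 / 2 + I * t)) t :=
        ContinuousAt.comp (f := fun t : ℝ => (1 / 2 + I * t : ℂ)) (differentiableAt_riemannZeta hne).continuousAt
          (continuous_const.add (continuous_const.mul Complex.continuous_ofReal)).continuousAt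
      have hm : ContinuousAt (fun t : ℝ => Mol X (1 / 2 + I * t)) t := by
        unfold Mol
        apply tendsto_finsetSum
        intro h hh
        rw [Finset.mem_Ioc] at hh
        have hh0 : (h:ℂ) ≠ 0 := by exact_mod_cast hh.1.ne'
        apply Tendsto.const_mul
        exact ContinuousAt.const_cpow (f := fun t : ℝ => -(1 / 2 + I * t : ℂ))
          (continuous_const.add (continuous_const.mul Complex.continuous_ofReal)).neg.continuousAt (Or.inl hh0)
      exact (((hz.mul hm).norm).pow 2).mul (by fun_prop)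
    · exact (hcont.const_mul _).intervalIntegrable _ _
    · intro t ht
      exact FT_lower hT ht.1
  rw [intervalIntegral.integral_const_mul, hsub] at hL
  refine hL.trans ?_
  have hA2 : A ≤ 350 * Real.exp 1 * CQ * 4 * (Real.sqrt T * (Real.log T / Real.log X)) := by
    rw [hA]
    have h1 : Real.log (1 / (zT T).re) ≤ 2 * Real.log T := by
      have : 1 / (zT T).re ≤ T ^ 2 := by
        rw [div_le_iff₀ hre, zT_re]
        calc (1:ℝ) ≤ T ^ 2 * (1 / (2 * T)) := by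
              have : T ^ 2 * (1 / (2 * T)) = T / 2 := by field_simp
              rw [this]; linarith only [hT]
          _ ≤ _ := by gcongr
      calc Real.log (1 / (zT T).re) ≤ Real.log (T ^ 2) := Real.log_le_log (by positivity) this
        _ = 2 * Real.log T := by rw [Real.log_pow]; norm_num
    have h2 : 1 / Real.sqrt (zT T).re ≤ 2 * Real.sqrt T := by
      have h3 : Real.sqrt (1 / (2 * T)) ≤ Real.sqrt (zT T).re := by
        apply Real.sqrt_le_sqrt; rw [zT_re]; exact hsin2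
      have h4 : 0 < Real.sqrt (1 / (2 * T)) := Real.sqrt_pos.mpr (by positivity)
      calc 1 / Real.sqrt (zT T).re ≤ 1 / Real.sqrt (1 / (2 * T)) := one_div_le_one_div_of_le h4 h3
        _ = Real.sqrt (2 * T) := by
            rw [Real.sqrt_div zero_le_one, Real.sqrt_one, one_div_one_div]
        _ = Real.sqrt 2 * Real.sqrt T := Real.sqrt_mul (by norm_num) _
        _ ≤ 2 * Real.sqrt T := by
            gcongr
            rw [Real.sqrt_le_left (by norm_num)]; norm_num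
    have h3 : 0 ≤ Real.log (1 / (zT T).re) := by linarith only [hlX, hTi, hTi0, hXs]
    calc 350 * Real.exp 1 * CQ * Real.log (1 / (zT T).re) / (Real.sqrt (zT T).re * Real.log X)
        = 350 * Real.exp 1 * CQ * (1 / Real.sqrt (zT T).re) * (Real.log (1 / (zT T).re) / Real.log X) := by
          have := Real.sqrt_pos.mpr hre
          field_simp
      _ ≤ 350 * Real.exp 1 * CQ * (2 * Real.sqrt T) * (2 * Real.log T / Real.log X) := by gcongr
      _ = _ := by ring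
  have h5 : ∫ τ in (-(R / 2))..(-(1 / 2)), ‖FT (Fu X (zT T)) τ‖ ^ 2 ≤
      2 * Real.pi * (350 * Real.exp 1 * CQ * 4 * (Real.sqrt T * (Real.log T / Real.log X))) := by
    refine hpl.trans ?_
    have := Real.pi_pos
    gcongr
    exact hFs.2.trans hA2
  calc Real.sqrt T * (2 * ∫ τ in (-(R / 2))..(-(1 / 2)), ‖FT (Fu X (zT T)) τ‖ ^ 2)
      ≤ Real.sqrt T * (2 * (2 * Real.pi * (350 * Real.exp 1 * CQ * 4 * (Real.sqrt T * (Real.log T / Real.log X))))) := by
        gcongr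
    _ = 2 * (2 * Real.pi * (350 * Real.exp 1 * CQ * 4)) * (Real.sqrt T * Real.sqrt T) * (Real.log T / Real.log X) := by ring
    _ = _ := by rw [Real.mul_self_sqrt hT0.le]

end Pool.Agent.Helper57.LH

end

/-! ### Helper57.LH.Energy -/

section

namespace Pool.Agent.Helper57.LH

open Complex Set MeasureTheory Filter Topology

open Pool.Agent.Helper57.Zeta

lemma HT_cont (T : ℝ) {σ : ℝ} (hσ : -1 < σ) : Continuous (fun t : ℝ => HT T (σ + t * I)) := by
  have hU : IsOpen {s : ℂ | (-1:ℝ) < s.re} := isOpen_lt continuous_const Complex.continuous_re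
  rw [continuous_iff_continuousAt]
  intro t
  have h1 : ContinuousAt (HT T) (σ + t * I) := ((HT_diff T).continuousOn).continuousAt (hU.mem_nhds (by
    show -1 < (σ + t * I : ℂ).re
    simpa using hσ))
  exact ContinuousAt.comp (f := fun t : ℝ => (σ + t * I : ℂ)) h1
    (continuous_const.add (Complex.continuous_ofReal.mul continuous_const)).continuousAt

lemma gauss_T {T : ℝ} (hT : 0 < T) : Integrable (fun t : ℝ => Real.exp (-(t / T) ^ 2)) ∧
    ∫ t : ℝ, Real.exp (-(t / T) ^ 2) ≤ 2 * T := by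
  have e : ∀ t : ℝ, Real.exp (-(t / T) ^ 2) = Real.exp (-(1 / T ^ 2) * t ^ 2) := by
    intro t; congr 1; field_simp
  simp_rw [e]
  refine ⟨integrable_exp_neg_mul_sq (by positivity), ?_⟩
  rw [integral_gaussian, div_div_eq_mul_div, div_one, Real.sqrt_mul Real.pi_pos.le, Real.sqrt_sq hT.le]
  have : Real.sqrt Real.pi ≤ 2 := by
    rw [Real.sqrt_le_left (by norm_num)]
    have := Real.pi_lt_d2
    norm_num at this ⊢
    linarith only [this]
  gcongr

lemma HT_int {T : ℝ} (hT : 1 < T) {σ : ℝ} (h1 : 1 / 4 ≤ σ) (h2 : σ ≤ 9) :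
    Integrable (fun t : ℝ => ‖HT T (σ + t * I)‖ ^ 2) := by
  refine (((gauss_T (T := T) (by linarith only [hT])).1).const_mul (10 ^ 5 * Real.exp (162 / T ^ 2) * XT T ^ 2 * T ^ 2)).mono' ?_ ?_
  · exact ((HT_cont T (by linarith only [h1])).norm.pow 2).aestronglyMeasurable
  · refine Eventually.of_forall fun t => ?_
    rw [Real.norm_of_nonneg (by positivity)]
    exact HT_crude hT h1 h2

lemma le_of_int {f : ℝ → ℝ} (hf : Integrable f) {D : ℝ} (h : ∀ K : ℝ, 1 ≤ K → ∫ t in (-K)..K, f t ≤ D) :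
    ∫ t, f t ≤ D := by
  have ht := intervalIntegral_tendsto_integral hf (a := fun K : ℝ => -K) (b := fun K : ℝ => K) (l := atTop)
    tendsto_neg_atTop_atBot tendsto_id
  refine le_of_tendsto ht ?_
  filter_upwards [eventually_ge_atTop 1] with K hK
  exact h K hK

lemma exp162 {T : ℝ} (hT : 20 ≤ T) : Real.exp (162 / T ^ 2) ≤ 3 := by
  have h1 : 162 / T ^ 2 ≤ 1 := by
    rw [div_le_one (by positivity)]; nlinarith
  have := Real.exp_one_lt_d9
  exact (Real.exp_le_exp.mpr h1).trans (by linarith only [this])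

lemma XT_sq_le {T : ℝ} (hT : 1 ≤ T) : XT T ^ 2 ≤ T := by
  unfold XT
  rw [← Real.rpow_natCast, ← Real.rpow_mul (by linarith)]
  calc T ^ ((1/40 : ℝ) * ((2:ℕ):ℝ)) ≤ T ^ (1:ℝ) := Real.rpow_le_rpow_of_exponent_le hT (by norm_num)
    _ = T := Real.rpow_one T

lemma edge_quarter {T : ℝ} (hT : 20 ≤ T) : ∫ t : ℝ, ‖HT T ((1/4 : ℝ) + t * I)‖ ^ 2 ≤ 10 ^ 6 * T ^ 4 := by
  have hT0 : 0 < T := by linarith only [hT]
  have hg := gauss_T hT0
  calc ∫ t : ℝ, ‖HT T ((1/4 : ℝ) + t * I)‖ ^ 2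
      ≤ ∫ t : ℝ, (10 ^ 5 * Real.exp (162 / T ^ 2) * XT T ^ 2 * T ^ 2) * Real.exp (-(t / T) ^ 2) := by
        apply integral_mono (HT_int (by linarith only [hT]) le_rfl (by norm_num)) (hg.1.const_mul _)
        intro t
        exact HT_crude (by linarith only [hT]) le_rfl (by norm_num)
    _ = (10 ^ 5 * Real.exp (162 / T ^ 2) * XT T ^ 2 * T ^ 2) * ∫ t : ℝ, Real.exp (-(t / T) ^ 2) := integral_const_mul _ _
    _ ≤ (10 ^ 5 * 3 * T * T ^ 2) * (2 * T) := by
        have h1 := exp162 hT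
        have h2 := XT_sq_le (T := T) (by linarith only [hT])
        have h3 : 0 ≤ ∫ t : ℝ, Real.exp (-(t / T) ^ 2) := integral_nonneg fun t => (Real.exp_pos _).le
        gcongr
        exact hg.2
    _ ≤ _ := by nlinarith only [hT0, pow_pos hT0 4]

lemma edge_right {T : ℝ} (hT : 20 ≤ T) {σ : ℝ} (h1 : 2 ≤ σ) (h2 : σ ≤ 9) :
    ∫ t : ℝ, ‖HT T (σ + t * I)‖ ^ 2 ≤ 6 * Z32 ^ 4 * (T * XT T ^ (-(1/2) : ℝ)) := by
  have hT0 : 0 < T := by linarith
  have hX1 : 1 < XT T := Real.one_lt_rpow (by linarith only [hT]) (by norm_num)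
  have hX0 : 0 < XT T := by linarith
  have hg := gauss_T hT0
  have hpt : ∀ t : ℝ, ‖HT T (σ + t * I)‖ ^ 2 ≤ (3 * Z32 ^ 4 * XT T ^ (-(1/2) : ℝ)) * Real.exp (-(t / T) ^ 2) := by
    intro t
    have hne : (σ + t * I : ℂ) ≠ 1 := by
      intro h
      have := congrArg Complex.re h
      simp at this
      linarith only [h1, this]
    rw [HT_eq (by simp; linarith only [h1]) hne, norm_mul, norm_mul, norm_exp_sq, norm_div]
    have hb := right_bound hX1 (s := σ + t * I) (by simpa using h1)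
    have hs1 : ‖(σ + t * I : ℂ) - 1‖ ≤ ‖(σ + t * I : ℂ) + 2‖ := norm_sub_one_le_add_two (by simp; linarith only [h1])
    have hs2 : ‖(σ + t * I : ℂ) - 1‖ / ‖(σ + t * I : ℂ) + 2‖ ≤ 1 := div_le_one_of_le₀ hs1 (norm_nonneg _)
    have he : Real.exp ((σ ^ 2 - t ^ 2) / T ^ 2) ^ 2 ≤ 3 * Real.exp (-(t / T) ^ 2) := by
      refine le_trans ?_ (mul_le_mul_of_nonneg_right (exp162 hT) (Real.exp_pos _).le)
      rw [← Real.exp_nat_mul, ← Real.exp_add]
      apply Real.exp_le_exp.mpr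
      have : σ ^ 2 ≤ 81 := by nlinarith only [h1, h2]
      have e : ((2:ℕ):ℝ) * ((σ ^ 2 - t ^ 2) / T ^ 2) = (2 * σ ^ 2) / T ^ 2 + (-(t / T) ^ 2 + -(t / T) ^ 2) := by
        push_cast; field_simp; ring
      rw [e]
      have h5 : (2 * σ ^ 2) / T ^ 2 ≤ 162 / T ^ 2 := by gcongr; linarith only [this]
      have h6 := sq_nonneg (t / T)
      linarith only [h5, h6]
    calc (‖(σ + t * I : ℂ) - 1‖ / ‖(σ + t * I : ℂ) + 2‖ * ‖riemannZeta (σ + t * I) * Mol (XT T) (σ + t * I) - 1‖ *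
          Real.exp ((σ ^ 2 - t ^ 2) / T ^ 2)) ^ 2
        ≤ (1 * (Z32 ^ 2 * XT T ^ (-(1/4) : ℝ)) * Real.exp ((σ ^ 2 - t ^ 2) / T ^ 2)) ^ 2 := by gcongr
      _ = Z32 ^ 4 * (XT T ^ (-(1/4) : ℝ)) ^ 2 * Real.exp ((σ ^ 2 - t ^ 2) / T ^ 2) ^ 2 := by ring
      _ ≤ Z32 ^ 4 * (XT T ^ (-(1/4) : ℝ)) ^ 2 * (3 * Real.exp (-(t / T) ^ 2)) := by gcongr
      _ = _ := by
          have : (XT T ^ (-(1/4) : ℝ)) ^ 2 = XT T ^ (-(1/2) : ℝ) := by
            rw [← Real.rpow_natCast, ← Real.rpow_mul hX0.le]; norm_num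
          rw [this]; ring
  calc ∫ t : ℝ, ‖HT T (σ + t * I)‖ ^ 2
      ≤ ∫ t : ℝ, (3 * Z32 ^ 4 * XT T ^ (-(1/2) : ℝ)) * Real.exp (-(t / T) ^ 2) := by
        exact integral_mono (HT_int (by linarith only [hT]) (by linarith only [h1]) h2) (hg.1.const_mul _) hpt
    _ = (3 * Z32 ^ 4 * XT T ^ (-(1/2) : ℝ)) * ∫ t : ℝ, Real.exp (-(t / T) ^ 2) := integral_const_mul _ _
    _ ≤ (3 * Z32 ^ 4 * XT T ^ (-(1/2) : ℝ)) * (2 * T) := by
        gcongr
        exact hg.2
    _ = _ := by ring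

lemma edge_half : ∃ C : ℝ, 0 < C ∧ ∀ T : ℝ, 3 ^ 40 ≤ T → ∫ t : ℝ, ‖HT T ((1/2 : ℝ) + t * I)‖ ^ 2 ≤ C * T := by
  obtain ⟨C2, hC2, hsm⟩ := second_moment
  refine ⟨2 * (2700 + (4 * (C2 * 40) + 8)), by positivity, ?_⟩
  intro T hT
  have hT20 : (20:ℝ) ≤ T := le_trans (by norm_num) hT
  have hT0 : 0 < T := by linarith
  have hX3 : 3 ≤ XT T := by
    unfold XT
    calc (3:ℝ) = ((3:ℝ) ^ (40:ℕ)) ^ (1/40 : ℝ) := by
          rw [← Real.rpow_natCast, ← Real.rpow_mul (by norm_num)]; norm_num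
      _ ≤ T ^ (1/40 : ℝ) := by gcongr
  have hX0 : 0 < XT T := by linarith only [hX3]
  have hlX : Real.log (XT T) = 1 / 40 * Real.log T := by
    unfold XT; rw [Real.log_rpow hT0]
  have hlT : 0 < Real.log T := Real.log_pos (by linarith only [hT])
  set f : ℝ → ℝ := fun t => ‖HT T ((1/2 : ℝ) + t * I)‖ ^ 2 with hf
  have hfc : Continuous f := (HT_cont T (by norm_num)).norm.pow 2
  have hfe : ∀ t, f (-t) = f t := by
    intro t
    rw [hf]
    simp only
    have : (((1/2 : ℝ) : ℂ) + ((-t : ℝ) : ℂ) * I) = starRingEnd ℂ (((1/2 : ℝ) : ℂ) + (t : ℂ) * I) := by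
      simp only [map_add, map_mul, Complex.conj_ofReal, Complex.conj_I]
      push_cast; ring
    rw [this, HT_conj, RCLike.norm_conj]
  apply le_of_int (HT_int (by linarith only [hT]) (by norm_num) (by norm_num))
  intro R hR
  have h1 : ∫ t in (-R)..R, f t = 2 * ∫ t in (0:ℝ)..R, f t := by
    have e1 : ∫ t in (-R)..R, f t = (∫ t in (-R)..0, f t) + ∫ t in (0:ℝ)..R, f t :=
      (intervalIntegral.integral_add_adjacent_intervals (hfc.intervalIntegrable _ _) (hfc.intervalIntegrable _ _)).symm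
    have e2 : ∫ t in (-R)..0, f t = ∫ t in (0:ℝ)..R, f t := by
      have := intervalIntegral.integral_comp_neg (a := 0) (b := R) f
      rw [neg_zero] at this
      rw [← this]
      exact intervalIntegral.integral_congr fun t _ => hfe t
    rw [e1, e2]; ring
  have h2 : ∫ t in (0:ℝ)..R, f t = (∫ t in (0:ℝ)..1, f t) + ∫ t in (1:ℝ)..R, f t :=
    (intervalIntegral.integral_add_adjacent_intervals (hfc.intervalIntegrable _ _) (hfc.intervalIntegrable _ _)).symm
  have h3 : ∫ t in (0:ℝ)..1, f t ≤ 2700 * T := by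
    have hb : ∀ t ∈ Icc (0:ℝ) 1, f t ≤ 2700 * T := by
      intro t ht
      rw [hf]
      simp only
      unfold HT
      rw [norm_mul, mul_pow, norm_exp_sq]
      have hA := HT_crude0 (T := T) (by linarith only [hT]) (s := ((1/2 : ℝ) : ℂ) + t * I) (by simp; norm_num)
      have hns : ‖(((1/2 : ℝ) : ℂ) + (t : ℂ) * I)‖ ≤ 1.5 := by
        refine (norm_add_le _ _).trans ?_
        rw [norm_mul, Complex.norm_I, Complex.norm_real, Complex.norm_real, Real.norm_of_nonneg (by norm_num),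
          Real.norm_of_nonneg ht.1]
        linarith only [ht, ht.2]
      have he : Real.exp ((((1/2 : ℝ)) ^ 2 - t ^ 2) / T ^ 2) ^ 2 ≤ 3 := by
        refine le_trans ?_ (exp162 hT20)
        rw [← Real.exp_nat_mul]
        apply Real.exp_le_exp.mpr
        rw [← mul_div_assoc]
        gcongr
        push_cast
        nlinarith only [sq_nonneg t]
      have hXT := XT_sq_le (T := T) (by linarith only [hT])
      calc _ ≤ (10 * (1 + 1.5) * XT T) ^ 2 * 3 := by
            gcongr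
            exact hA.trans (by gcongr)
        _ = 1875 * XT T ^ 2 := by ring
        _ ≤ 2700 * T := by nlinarith only [hT, hXT, sq_nonneg (XT T)]
    have := intervalIntegral.integral_mono_on (μ := volume) zero_le_one (hfc.intervalIntegrable _ _)
      (continuous_const.intervalIntegrable (μ := volume) (0:ℝ) 1) hb
    simpa using this
  have h4 : ∫ t in (1:ℝ)..R, f t ≤ (4 * (C2 * 40) + 8) * T := by
    have hsm' := hsm T (XT T) R (by linarith only [hT]) hX3 (by rw [hlX]; linarith only [hlT]) hR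
    rw [hlX] at hsm'
    have e5 : Real.log T / (1 / 40 * Real.log T) = 40 := by field_simp
    rw [e5] at hsm'
    have hgi : IntervalIntegrable (fun t : ℝ => Real.exp (-(t / T) ^ 2)) volume 1 R := by
      apply Continuous.intervalIntegrable; fun_prop
    have hzi : IntervalIntegrable (fun t : ℝ => ‖riemannZeta (1 / 2 + I * t) * Mol (XT T) (1 / 2 + I * t)‖ ^ 2 * Real.exp (-(2 * (t / T) ^ 2))) volume 1 R := by
      apply ContinuousOn.intervalIntegrable
      intro t _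
      apply ContinuousAt.continuousWithinAt
      have hne : (1 / 2 + I * t : ℂ) ≠ 1 := by
        intro h
        have := congrArg Complex.re h
        simp at this
      have hz : ContinuousAt (fun t : ℝ => riemannZeta (1 / 2 + I * t)) t :=
        ContinuousAt.comp (f := fun t : ℝ => (1 / 2 + I * t : ℂ)) (differentiableAt_riemannZeta hne).continuousAt
          (continuous_const.add (continuous_const.mul Complex.continuous_ofReal)).continuousAt
      have hm : ContinuousAt (fun t : ℝ => Mol (XT T) (1 / 2 + I * t)) t :=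
        ContinuousAt.comp (f := fun t : ℝ => (1 / 2 + I * t : ℂ)) ((differentiable_Mol _).continuous.continuousAt)
          (continuous_const.add (continuous_const.mul Complex.continuous_ofReal)).continuousAt
      exact (((hz.mul hm).norm).pow 2).mul (by fun_prop)
    have hpt : ∀ t ∈ Icc (1:ℝ) R, f t ≤ 4 * (‖riemannZeta (1 / 2 + I * t) * Mol (XT T) (1 / 2 + I * t)‖ ^ 2 * Real.exp (-(2 * (t / T) ^ 2))) +
        4 * Real.exp (-(t / T) ^ 2) := by
      intro t ht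
      rw [hf]
      simp only
      have hs : (((1/2 : ℝ) : ℂ) + (t : ℂ) * I) = 1 / 2 + I * t := by push_cast; ring
      have hne : (((1/2 : ℝ) : ℂ) + (t : ℂ) * I) ≠ 1 := by
        intro h
        have := congrArg Complex.re h
        simp at this
      rw [HT_eq (by simp) hne, norm_mul, norm_mul, norm_exp_sq, norm_div, ← hs]
      have hs1 : ‖(((1/2 : ℝ) : ℂ) + (t : ℂ) * I) - 1‖ ≤ ‖(((1/2 : ℝ) : ℂ) + (t : ℂ) * I) + 2‖ := norm_sub_one_le_add_two (by simp)
      have hs2 : ‖(((1/2 : ℝ) : ℂ) + (t : ℂ) * I) - 1‖ / ‖(((1/2 : ℝ) : ℂ) + (t : ℂ) * I) + 2‖ ≤ 1 := div_le_one_of_le₀ hs1 (norm_nonneg _)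
      set Q := riemannZeta (((1/2 : ℝ) : ℂ) + (t : ℂ) * I) * Mol (XT T) (((1/2 : ℝ) : ℂ) + (t : ℂ) * I) with hQ
      have hQ1 : ‖Q - 1‖ ^ 2 ≤ 2 * ‖Q‖ ^ 2 + 2 := by
        have := norm_sub_sq_le Q 1
        simpa using this
      have he : Real.exp ((((1/2 : ℝ)) ^ 2 - t ^ 2) / T ^ 2) ^ 2 ≤ 2 * Real.exp (-(2 * (t / T) ^ 2)) := by
        have h5 : Real.exp (1 / 2 / T ^ 2) ≤ 2 := by
          have h6 : 1 / 2 / T ^ 2 ≤ 1 / 2 := div_le_self (by norm_num) (by nlinarith only [hT])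
          have h7 : Real.exp (1/2) ≤ 2 := by
            have h8 : Real.exp (1/2) ^ 2 ≤ 2 ^ 2 := by
              rw [← Real.exp_nat_mul]
              norm_num
              have := Real.exp_one_lt_d9
              linarith only [this]
            exact (pow_le_pow_iff_left₀ (Real.exp_pos _).le (by norm_num) two_ne_zero).mp h8
          exact (Real.exp_le_exp.mpr h6).trans h7
        refine le_trans (le_of_eq ?_) (mul_le_mul_of_nonneg_right h5 (Real.exp_pos _).le)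
        rw [← Real.exp_nat_mul, ← Real.exp_add]
        congr 1
        push_cast; field_simp; ring
      have he2 : Real.exp (-(2 * (t / T) ^ 2)) ≤ Real.exp (-(t / T) ^ 2) := by
        apply Real.exp_le_exp.mpr
        have := sq_nonneg (t / T)
        linarith only [this]
      calc (‖(((1/2 : ℝ) : ℂ) + (t : ℂ) * I) - 1‖ / ‖(((1/2 : ℝ) : ℂ) + (t : ℂ) * I) + 2‖ * ‖Q - 1‖ *
          Real.exp ((((1/2 : ℝ)) ^ 2 - t ^ 2) / T ^ 2)) ^ 2
          ≤ (1 * ‖Q - 1‖ * Real.exp ((((1/2 : ℝ)) ^ 2 - t ^ 2) / T ^ 2)) ^ 2 := by gcongr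
        _ = ‖Q - 1‖ ^ 2 * Real.exp ((((1/2 : ℝ)) ^ 2 - t ^ 2) / T ^ 2) ^ 2 := by ring
        _ ≤ (2 * ‖Q‖ ^ 2 + 2) * (2 * Real.exp (-(2 * (t / T) ^ 2))) := by gcongr
        _ = 4 * (‖Q‖ ^ 2 * Real.exp (-(2 * (t / T) ^ 2))) + 4 * Real.exp (-(2 * (t / T) ^ 2)) := by ring
        _ ≤ _ := by gcongr
    have h5 := intervalIntegral.integral_mono_on hR (hfc.intervalIntegrable _ _) ((hzi.const_mul 4).add (hgi.const_mul 4)) hpt
    rw [intervalIntegral.integral_add (hzi.const_mul 4) (hgi.const_mul 4), intervalIntegral.integral_const_mul,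
      intervalIntegral.integral_const_mul] at h5
    have hg := gauss_T hT0
    have h6 : ∫ t in (1:ℝ)..R, Real.exp (-(t / T) ^ 2) ≤ 2 * T := by
      refine le_trans ?_ hg.2
      rw [intervalIntegral.integral_of_le hR]
      exact setIntegral_le_integral hg.1 (Eventually.of_forall fun t => (Real.exp_pos _).le)
    linarith only [hsm', h5, h6]
  rw [h1, h2]
  linarith only [h3, h4]

/-- decay factor -/
noncomputable def dec (T σ : ℝ) : ℝ := Real.exp (-(Real.log T / 120 * min (max (σ - 1 / 2) 0) (3 / 2)))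

/-- energy bound on vertical lines -/
theorem energy : ∃ C : ℝ, 1 ≤ C ∧ ∀ T : ℝ, 3 ^ 40 ≤ T → ∀ σ : ℝ, 1 / 2 - 1 / Real.log T ≤ σ → σ ≤ 9 →
    ∫ t : ℝ, ‖HT T (σ + t * I)‖ ^ 2 ≤ C * T * dec T σ := by
  obtain ⟨C1, hC1, hh⟩ := edge_half
  set D := 10 ^ 6 + C1 + 6 * Z32 ^ 4 with hD
  have hZ := Z32_pos
  have hD1 : 1 ≤ D := by rw [hD]; have := pow_pos hZ 4; linarith
  refine ⟨D * Real.exp 12, by nlinarith only [hD1, Real.one_le_exp (show (0:ℝ) ≤ 12 by norm_num)], ?_⟩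
  intro T hT σ h1 h2
  have hT20 : (20:ℝ) ≤ T := le_trans (by norm_num) hT
  have hT0 : 0 < T := by linarith only [hT]
  have hT1 : 1 < T := by linarith only [hT]
  have hlT : 40 ≤ Real.log T := by
    have h3 : Real.log (3 ^ 40) ≤ Real.log T := Real.log_le_log (by norm_num) hT
    rw [Real.log_pow] at h3
    have h4 : 1 ≤ Real.log 3 := by
      rw [Real.le_log_iff_exp_le (by norm_num)]
      have := Real.exp_one_lt_d9
      linarith only [this]
    push_cast at h3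
    linarith only [h3, h4]
  have hlT0 : 0 < Real.log T := by linarith only [hlT]
  have hLinv : 1 / Real.log T ≤ 1 / 4 := one_div_le_one_div_of_le (by norm_num) (by linarith only [hlT])
  have hX1 : 1 < XT T := Real.one_lt_rpow hT1 (by norm_num)
  have hX0 : 0 < XT T := by linarith only [hX1]
  have hXlog : XT T = Real.exp (Real.log T / 40) := by
    unfold XT
    rw [Real.rpow_def_of_pos hT0]; ring_nf
  have he12 : 1 ≤ Real.exp 12 := Real.one_le_exp (by norm_num)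
  have hTexp : T = Real.exp (Real.log T) := (Real.exp_log hT0).symm
  rcases le_or_gt σ (1/2) with hs | hs
  · -- left of the critical line
    have hdec : dec T σ = 1 := by
      unfold dec
      rw [max_eq_right (by linarith only [hs]), min_eq_left (by norm_num)]
      simp
    rw [hdec, mul_one]
    apply le_of_int (HT_int hT1 (by linarith only [h1, hLinv]) h2)
    intro K hK
    have h3 := three_lines (H := HT T) (c := -1) (l := 1/4) (u := 1/2) (by norm_num) (by norm_num) (HT_diff T)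
      (Bd := Real.sqrt (10 ^ 5 * Real.exp (162 / T ^ 2) * XT T ^ 2 * T ^ 2)) (by
        intro s hs1 hs2
        apply Real.le_sqrt_of_sq_le
        have := HT_crude hT1 (σ := s.re) (t := s.im) hs1 (by linarith only [hs2])
        rw [Complex.re_add_im] at this
        refine this.trans ?_
        have : Real.exp (-(s.im / T) ^ 2) ≤ 1 := Real.exp_le_one_iff.mpr (by have := sq_nonneg (s.im / T); linarith only [this])
        calc _ ≤ (10 ^ 5 * Real.exp (162 / T ^ 2) * XT T ^ 2 * T ^ 2) * 1 := by gcongr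
          _ = _ := mul_one _)
      (A := 10 ^ 6 * T ^ 4) (B := C1 * T)
      (HT_int hT1 le_rfl (by norm_num)) (edge_quarter hT20)
      (HT_int hT1 (by norm_num) (by norm_num)) (hh T hT)
      (σ := σ) (by linarith only [h1, hLinv]) hs (K := K) (by linarith only [hK])
    refine h3.trans ?_
    set θ := (σ - 1/4) / (1/2 - 1/4) with hθ
    have hθ0 : 0 ≤ θ := div_nonneg (by linarith only [h1, hLinv]) (by norm_num)
    have hθ1 : θ ≤ 1 := by rw [hθ, div_le_one (by norm_num)]; linarith only [hs]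
    have hθ2 : 1 - θ ≤ 4 / Real.log T := by
      rw [hθ]
      have : (σ - 1/4) / (1/2 - 1/4) = 4 * σ - 1 := by ring
      rw [this]
      have : 4 / Real.log T = 4 * (1 / Real.log T) := by ring
      rw [this]; linarith only [h1]
    calc (10 ^ 6 * T ^ 4) ^ (1 - θ) * (C1 * T) ^ θ ≤ (D * T ^ 4) ^ (1 - θ) * (D * T) ^ θ := by
          have hz : 0 ≤ 6 * Z32 ^ 4 := by positivity
          gcongr <;> first | linarith | (rw [hD]; linarith)
      _ = D * T * T ^ (3 * (1 - θ)) := by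
          have hD0 : 0 < D := by linarith only [hD1]
          have e1 : (D * T ^ 4) = (D * T) * T ^ (3:ℝ) := by
            rw [show (T ^ (3:ℝ) : ℝ) = T ^ 3 by norm_cast]; ring
          rw [e1, Real.mul_rpow (by positivity) (by positivity), ← Real.rpow_mul hT0.le]
          have e2 : (D * T) ^ (1 - θ) * (D * T) ^ θ = D * T := by
            rw [← Real.rpow_add (by positivity)]; simp
          calc (D * T) ^ (1 - θ) * T ^ (3 * (1 - θ)) * (D * T) ^ θ = ((D * T) ^ (1 - θ) * (D * T) ^ θ) * T ^ (3 * (1 - θ)) := by ring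
            _ = _ := by rw [e2]
      _ ≤ D * T * Real.exp 12 := by
          have hD0 : 0 < D := by linarith only [hD1]
          gcongr
          rw [Real.rpow_def_of_pos hT0]
          apply Real.exp_le_exp.mpr
          calc Real.log T * (3 * (1 - θ)) ≤ Real.log T * (3 * (4 / Real.log T)) := by gcongr
            _ = 12 := by field_simp; norm_num
      _ = _ := by ring
  · rcases le_or_gt σ 2 with hs2 | hs2
    · have hdec : dec T σ = Real.exp (-(Real.log T / 120 * (σ - 1/2))) := by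
        unfold dec
        rw [max_eq_left (by linarith only [hs]), min_eq_left (by linarith only [hs2])]
      apply le_of_int (HT_int hT1 (by linarith only [h1, hLinv]) h2)
      intro K hK
      have h3 := three_lines (H := HT T) (c := -1) (l := 1/2) (u := 2) (by norm_num) (by norm_num) (HT_diff T)
        (Bd := Real.sqrt (10 ^ 5 * Real.exp (162 / T ^ 2) * XT T ^ 2 * T ^ 2)) (by
          intro s hs1 hs2
          apply Real.le_sqrt_of_sq_le
          have := HT_crude hT1 (σ := s.re) (t := s.im) (by linarith only [hs1]) (by linarith only [hs2])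
          rw [Complex.re_add_im] at this
          refine this.trans ?_
          have : Real.exp (-(s.im / T) ^ 2) ≤ 1 := Real.exp_le_one_iff.mpr (by have := sq_nonneg (s.im / T); linarith only [this])
          calc _ ≤ (10 ^ 5 * Real.exp (162 / T ^ 2) * XT T ^ 2 * T ^ 2) * 1 := by gcongr
            _ = _ := mul_one _)
        (A := C1 * T) (B := 6 * Z32 ^ 4 * (T * XT T ^ (-(1/2) : ℝ)))
        (HT_int hT1 (by norm_num) (by norm_num)) (hh T hT)
        (HT_int hT1 (by norm_num) (by norm_num)) (edge_right hT20 le_rfl (by norm_num))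
        (σ := σ) (by linarith only [hs]) hs2 (K := K) (by linarith only [hK])
      refine h3.trans ?_
      set θ := (σ - 1/2) / (2 - 1/2) with hθ
      have hθ0 : 0 ≤ θ := div_nonneg (by linarith only [hs]) (by norm_num)
      have hθ1 : θ ≤ 1 := by rw [hθ, div_le_one (by norm_num)]; linarith only [hs2]
      calc (C1 * T) ^ (1 - θ) * (6 * Z32 ^ 4 * (T * XT T ^ (-(1/2) : ℝ))) ^ θ
          ≤ (D * T) ^ (1 - θ) * (D * (T * XT T ^ (-(1/2) : ℝ))) ^ θ := by
            have hz : 0 ≤ 6 * Z32 ^ 4 := by positivity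
            gcongr <;> first | linarith | (rw [hD]; linarith)
        _ = D * T * (XT T ^ (-(1/2) : ℝ)) ^ θ := by
            have hD0 : 0 < D := by linarith only [hD1]
            rw [show D * (T * XT T ^ (-(1/2) : ℝ)) = (D * T) * XT T ^ (-(1/2) : ℝ) by ring,
              Real.mul_rpow (x := D * T) (y := XT T ^ (-(1/2) : ℝ)) (by positivity) (by positivity)]
            have e2 : (D * T) ^ (1 - θ) * (D * T) ^ θ = D * T := by
              rw [← Real.rpow_add (by positivity)]; simp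
            calc (D * T) ^ (1 - θ) * ((D * T) ^ θ * (XT T ^ (-(1/2) : ℝ)) ^ θ) = ((D * T) ^ (1 - θ) * (D * T) ^ θ) * (XT T ^ (-(1/2) : ℝ)) ^ θ := by ring
              _ = _ := by rw [e2]
        _ = D * T * dec T σ := by
            rw [hdec, ← Real.rpow_mul hX0.le, hXlog, ← Real.exp_mul]
            congr 2
            rw [hθ]; ring
        _ ≤ D * Real.exp 12 * T * dec T σ := by
            have hD0 : 0 < D := by linarith only [hD1]
            have : 0 < dec T σ := Real.exp_pos _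
            have h7 : D * T ≤ D * Real.exp 12 * T := by nlinarith only [hT0, he12, hD0, mul_pos hD0 hT0]
            gcongr
    · have hdec : dec T σ = Real.exp (-(Real.log T / 120 * (3/2))) := by
        unfold dec
        rw [max_eq_left (by linarith only [hs]), min_eq_right (by linarith only [hs2])]
      refine (edge_right hT20 hs2.le h2).trans ?_
      have hXX : XT T ^ (-(1/2) : ℝ) = dec T σ := by
        rw [hdec, hXlog, ← Real.exp_mul]
        congr 1
        ring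
      rw [hXX]
      have : 0 < dec T σ := Real.exp_pos _
      have hD0 : 0 < D := by linarith only [hD1]
      have hz : 6 * Z32 ^ 4 ≤ D := by rw [hD]; linarith only [hC1]
      have hz2 : 6 * Z32 ^ 4 ≤ D * Real.exp 12 := by
        calc 6 * Z32 ^ 4 ≤ D * 1 := by linarith only [hC1]
          _ ≤ D * Real.exp 12 := by gcongr
      calc 6 * Z32 ^ 4 * (T * dec T σ) ≤ (D * Real.exp 12) * (T * dec T σ) := by
            gcongr
        _ = _ := by ring

end Pool.Agent.Helper57.LH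

end

/-! ### Helper57.LH.LocA -/

section

namespace Pool.Agent.Helper57.LH

open Complex Set MeasureTheory Filter Topology Metric

open Pool.Agent.Helper57.Zeta

/-- mollified zeta minus one -/
noncomputable def ET (T : ℝ) (s : ℂ) : ℂ := riemannZeta s * Mol (XT T) s - 1

lemma ET_le {T : ℝ} (hT : 20 ≤ T) {s : ℂ} (h0 : 0 < s.re) (h9 : s.re ≤ 9) (h1 : 1 ≤ |s.im|)
    (h4 : |s.im| ≤ 4 * T) : ‖ET T s‖ ^ 2 ≤ 122 * Real.exp 32 * ‖HT T s‖ ^ 2 := by
  have hT0 : 0 < T := by linarith only [hT]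
  have hs1 : s ≠ 1 := by rintro rfl; simp at h1; linarith only [h1]
  have him2 : 1 ≤ s.im ^ 2 := by rw [← sq_abs]; nlinarith only [h1]
  have hA : ‖s + 2‖ ^ 2 ≤ 122 * ‖s - 1‖ ^ 2 := by
    rw [← Complex.normSq_eq_norm_sq, ← Complex.normSq_eq_norm_sq, Complex.normSq_apply, Complex.normSq_apply]
    simp only [Complex.add_re, Complex.add_im, Complex.re_ofNat, Complex.im_ofNat, add_zero,
      Complex.sub_re, Complex.sub_im, Complex.one_re, Complex.one_im, sub_zero]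
    nlinarith only [h9, him2, sq_nonneg (s.re - 1)]
  have hs2 : 0 < ‖s + 2‖ := by
    rw [norm_pos_iff]
    intro h
    have := congrArg Complex.re h
    simp at this
    linarith
  have hse : s = (s.re : ℂ) + (s.im : ℂ) * I := (Complex.re_add_im s).symm
  have hexp : ‖cexp (s ^ 2 / T ^ 2)‖ ^ 2 ≥ Real.exp (-32) := by
    rw [hse, norm_exp_sq, ← Real.exp_nat_mul]
    apply Real.exp_le_exp.mpr
    have h5 : s.im ^ 2 ≤ 16 * T ^ 2 := by rw [← sq_abs]; nlinarith only [hT, h1, h4, abs_nonneg s.im]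
    have h6 : -16 ≤ (s.re ^ 2 - s.im ^ 2) / T ^ 2 := by
      rw [le_div_iff₀ (by positivity)]
      nlinarith only [h5, sq_nonneg s.re]
    push_cast
    linarith only [h6]
  rw [HT_eq h0 hs1]
  have e1 : ‖(s - 1) / (s + 2) * (riemannZeta s * Mol (XT T) s - 1) * cexp (s ^ 2 / T ^ 2)‖ ^ 2 =
      (‖s - 1‖ ^ 2 / ‖s + 2‖ ^ 2) * ‖ET T s‖ ^ 2 * ‖cexp (s ^ 2 / T ^ 2)‖ ^ 2 := by
    rw [norm_mul, norm_mul, norm_div]
    unfold ET
    rw [mul_pow, mul_pow, div_pow]
  rw [e1]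
  have hr : 1 / 122 ≤ ‖s - 1‖ ^ 2 / ‖s + 2‖ ^ 2 := by
    rw [le_div_iff₀ (by positivity)]
    linarith only [hA]
  calc ‖ET T s‖ ^ 2 = 122 * (Real.exp 32 * Real.exp (-32)) * (1 / 122 * ‖ET T s‖ ^ 2) := by
        rw [← Real.exp_add]; norm_num; ring
    _ = 122 * Real.exp 32 * (1 / 122 * ‖ET T s‖ ^ 2 * Real.exp (-32)) := by ring
    _ ≤ 122 * Real.exp 32 * (‖s - 1‖ ^ 2 / ‖s + 2‖ ^ 2 * ‖ET T s‖ ^ 2 * ‖cexp (s ^ 2 / T ^ 2)‖ ^ 2) := by
        gcongr

/-- the entire function used in Jensen's formula -/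
noncomputable def Ph (T : ℝ) (s : ℂ) : ℂ := Zt s * Mol (XT T) s

lemma differentiable_Ph (T : ℝ) : Differentiable ℂ (Ph T) := differentiable_Zt.mul (differentiable_Mol _)

lemma Ph_eq {T : ℝ} {s : ℂ} (h0 : 0 < s.re) (h1 : s ≠ 1) : Ph T s = (s - 1) * (1 + ET T s) := by
  unfold Ph ET
  rw [Zt_eq h0 h1]; ring

lemma order_Ph_ge {T : ℝ} {a : ℂ} (ha : Ph T a ≠ 0) (ρ : ℂ) :
    analyticOrderNatAt xi ρ ≤ analyticOrderNatAt (Ph T) ρ := by
  have h1 : Ph T = xi * (fun s => ((Real.pi : ℂ) ^ (s / 2) * (Gamma (1 + s / 2))⁻¹ / 2) * Mol (XT T) s) := by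
    funext s
    unfold Ph Zt
    simp only [Pi.mul_apply]
    ring
  have hd1 : Differentiable ℂ (fun s : ℂ => (Real.pi : ℂ) ^ (s / 2)) := by
    intro s
    exact (differentiableAt_id.div_const 2).const_cpow (Or.inl (by exact_mod_cast Real.pi_ne_zero))
  have hd2 : Differentiable ℂ (fun s : ℂ => (Gamma (1 + s / 2))⁻¹) :=
    Complex.differentiable_one_div_Gamma.comp (by fun_prop)
  have hd : Differentiable ℂ (fun s => ((Real.pi : ℂ) ^ (s / 2) * (Gamma (1 + s / 2))⁻¹ / 2) * Mol (XT T) s) :=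
    ((hd1.mul hd2).div_const 2).mul (differentiable_Mol _)
  have h2 : analyticOrderAt (Ph T) ρ = analyticOrderAt xi ρ + analyticOrderAt (fun s => ((Real.pi : ℂ) ^ (s / 2) * (Gamma (1 + s / 2))⁻¹ / 2) * Mol (XT T) s) ρ := by
    rw [h1]
    exact analyticOrderAt_mul (differentiable_xi.analyticAt ρ) (hd.analyticAt ρ)
  have h3 := order_ne_top (differentiable_Ph T) ha ρ
  have h4 : analyticOrderAt xi ρ ≤ analyticOrderAt (Ph T) ρ := by
    rw [h2]; exact le_self_add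
  unfold analyticOrderNatAt
  exact ENat.toNat_le_toNat h4 h3

lemma circleAverage_log_sub_one {c : ℂ} {R : ℝ} (hR : 0 < R) (hc : R < ‖c - 1‖) :
    Real.circleAverage (fun z => Real.log ‖z - 1‖) c R = Real.log ‖c - 1‖ := by
  have hd : Differentiable ℂ (fun z : ℂ => z - 1) := by fun_prop
  have hc1 : (fun z : ℂ => z - 1) c ≠ 0 := by
    simp only
    intro h
    rw [h, norm_zero] at hc
    linarith only [hR, hc]
  have h := jensen_formula hd hc1 hR
  rw [h]
  have he : (zset_finite hd hc1 c R).toFinset = ∅ := by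
    rw [Set.Finite.toFinset_eq_empty]
    rw [Set.eq_empty_iff_forall_notMem]
    rintro u ⟨hu1, hu2⟩
    have : u = 1 := sub_eq_zero.mp hu1
    rw [this, norm_sub_rev] at hu2
    linarith only [hc, hu2]
  rw [he]
  simp

/-- Jensen's inequality for the mollified zeta function. -/
lemma count_le {T : ℝ} {c : ℂ} {r R : ℝ} (hr : 0 < r) (hrR : r < R)
    (him : R + 1 ≤ |c.im|) (hre : R < c.re) (hc : ‖ET T c‖ ≤ 1 / 2)
    (F : Finset ℂ) (hF : ∀ ρ ∈ F, xi ρ = 0 ∧ ‖ρ - c‖ ≤ r) :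
    (∑ ρ ∈ F, (analyticOrderNatAt xi ρ : ℝ)) * (1 - r / R) ≤
      Real.circleAverage (fun z => Real.log (1 + ‖ET T z‖)) c R + 2 * ‖ET T c‖ := by
  have hR : 0 < R := hr.trans hrR
  have hc0 : 0 < c.re := by linarith only [hr, hrR, hre]
  have hcim : 1 ≤ |c.im| := by linarith only [hr, hrR, him]
  have hc1 : c ≠ 1 := by rintro rfl; simp at hcim; linarith only [hcim]
  have hball : ∀ z ∈ sphere c |R|, 0 < z.re ∧ z ≠ 1 ∧ 1 ≤ ‖z - 1‖ := by
    intro z hz
    rw [abs_of_pos hR, mem_sphere, dist_eq_norm] at hz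
    have h1 : |(z - c).re| ≤ R := by rw [← hz]; exact Complex.abs_re_le_norm _
    have h2 : |(z - c).im| ≤ R := by rw [← hz]; exact Complex.abs_im_le_norm _
    have h3 : 0 < z.re := by
      have := (abs_le.mp h1).1
      rw [Complex.sub_re] at this
      linarith only [hre, this]
    have h4 : 1 ≤ |z.im| := by
      have h5 : |c.im| ≤ |z.im| + |(z - c).im| := by
        have h6 := abs_sub_le c.im z.im 0
        rw [sub_zero, sub_zero] at h6
        have h7 : |c.im - z.im| = |(z - c).im| := by rw [Complex.sub_im, abs_sub_comm]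
        linarith only [h6, h7]
      linarith only [him, h2, h5]
    have h5 : 1 ≤ ‖z - 1‖ := by
      have := Complex.abs_im_le_norm (z - 1)
      rw [Complex.sub_im, Complex.one_im, sub_zero] at this
      linarith only [h4, this]
    refine ⟨h3, ?_, h5⟩
    rintro rfl
    simp at h5
    linarith only [h5]
  have hEc : 1 + ET T c ≠ 0 := by
    intro h
    have : ET T c = -1 := by linear_combination h
    rw [this] at hc; norm_num at hc
  have hPc : Ph T c ≠ 0 := by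
    rw [Ph_eq hc0 hc1]
    exact mul_ne_zero (sub_ne_zero.mpr hc1) hEc
  have hJ := (jensen_compare (differentiable_Ph T) hPc hr hrR.le).1
  have hJ2 := jensen_lower (differentiable_Ph T) hPc hr
  -- count
  have hcount : ∑ ρ ∈ F, (analyticOrderNatAt xi ρ : ℝ) ≤ ncount (Ph T) c r := by
    rw [ncount_eq (differentiable_Ph T) hPc c r]
    calc ∑ ρ ∈ F, (analyticOrderNatAt xi ρ : ℝ) ≤ ∑ ρ ∈ F, (analyticOrderNatAt (Ph T) ρ : ℝ) := by
          apply Finset.sum_le_sum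
          intro ρ _
          exact_mod_cast order_Ph_ge hPc ρ
      _ ≤ _ := by
          apply Finset.sum_le_sum_of_subset_of_nonneg
          · intro ρ hρ
            rw [Set.Finite.mem_toFinset]
            refine ⟨?_, (hF ρ hρ).2⟩
            unfold Ph Zt
            rw [(hF ρ hρ).1]; ring
          · intro i _ _; positivity
  have hlog : 1 - r / R ≤ Real.log (R / r) := by
    have := Real.one_sub_inv_le_log_of_pos (show 0 < R / r by positivity)
    rwa [inv_div] at this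
  have h1r : 0 ≤ 1 - r / R := by
    rw [sub_nonneg, div_le_one hR]; exact hrR.le
  have hS0 : 0 ≤ ∑ ρ ∈ F, (analyticOrderNatAt xi ρ : ℝ) := Finset.sum_nonneg fun _ _ => Nat.cast_nonneg _
  -- upper bound of the circle average
  have hc1R : R < ‖c - 1‖ := by
    have := Complex.abs_im_le_norm (c - 1)
    rw [Complex.sub_im, Complex.one_im, sub_zero] at this
    linarith only [him, this]
  have hcont : ContinuousOn (fun z => Real.log (1 + ‖ET T z‖)) (sphere c |R|) := by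
    apply ContinuousOn.log
    · apply ContinuousOn.add continuousOn_const
      apply ContinuousOn.norm
      unfold ET
      apply ContinuousOn.sub _ continuousOn_const
      apply ContinuousOn.mul
      · intro z hz
        exact (differentiableAt_riemannZeta (hball z hz).2.1).continuousAt.continuousWithinAt
      · exact (differentiable_Mol _).continuous.continuousOn
    · intro z _
      have := norm_nonneg (ET T z)
      linarith only [this]
  have hcI : CircleIntegrable (fun z => Real.log (1 + ‖ET T z‖)) c R := by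
    apply ContinuousOn.circleIntegrable'
    exact hcont
  have hcI1 : CircleIntegrable (fun z => Real.log ‖z - 1‖) c R :=
    circleIntegrable_log (f := fun z => z - 1) (by fun_prop) c R
  have hup : Real.circleAverage (fun z => Real.log ‖Ph T z‖) c R ≤
      Real.log ‖c - 1‖ + Real.circleAverage (fun z => Real.log (1 + ‖ET T z‖)) c R := by
    rw [← circleAverage_log_sub_one hR hc1R]
    rw [← Real.circleAverage_add hcI1 hcI]
    apply Real.circleAverage_mono (circleIntegrable_log (differentiable_Ph T) c R) (hcI1.add hcI)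
    intro z hz
    obtain ⟨hz0, hz1, hz2⟩ := hball z hz
    simp only [Pi.add_apply]
    have hnn : 0 ≤ Real.log ‖z - 1‖ := Real.log_nonneg hz2
    have hE := norm_nonneg (ET T z)
    have hnn2 : 0 ≤ Real.log (1 + ‖ET T z‖) := Real.log_nonneg (by linarith only [hE])
    rcases eq_or_ne (Ph T z) 0 with h | h
    · rw [h, norm_zero, Real.log_zero]; positivity
    · rw [← Real.log_mul (by linarith only [hz2]) (by linarith only [hE])]
      apply Real.log_le_log (norm_pos_iff.mpr h)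
      rw [Ph_eq hz0 hz1, norm_mul]
      gcongr
      calc ‖1 + ET T z‖ ≤ ‖(1:ℂ)‖ + ‖ET T z‖ := norm_add_le _ _
        _ = _ := by rw [norm_one]
  have hlow : Real.log ‖c - 1‖ - 2 * ‖ET T c‖ ≤ Real.log ‖Ph T c‖ := by
    rw [Ph_eq hc0 hc1, norm_mul, Real.log_mul (by
      rw [norm_ne_zero_iff]; exact sub_ne_zero.mpr hc1) (norm_ne_zero_iff.mpr hEc)]
    have h2 : 1 - ‖ET T c‖ ≤ ‖1 + ET T c‖ := by
      have := norm_sub_norm_le (1:ℂ) (-(ET T c))
      rw [norm_one, norm_neg, sub_neg_eq_add] at this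
      exact this
    have h3 : -(2 * ‖ET T c‖) ≤ Real.log (1 - ‖ET T c‖) := by
      have hx := norm_nonneg (ET T c)
      set x := ‖ET T c‖
      have := Real.one_sub_inv_le_log_of_pos (show 0 < 1 - x by linarith only [hc])
      refine le_trans ?_ this
      have h5 : (1 - x)⁻¹ ≤ 1 + 2 * x := by
        rw [inv_le_comm₀ (by linarith only [hc]) (by linarith only [hx]), inv_le_iff_one_le_mul₀ (by linarith only [hx])]
        nlinarith only [hc, hx]
      linarith only [h5]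
    have h4 : Real.log (1 - ‖ET T c‖) ≤ Real.log ‖1 + ET T c‖ := Real.log_le_log (by linarith only [hc]) h2
    linarith only [h3, h4]
  calc (∑ ρ ∈ F, (analyticOrderNatAt xi ρ : ℝ)) * (1 - r / R)
      ≤ ncount (Ph T) c r * Real.log (R / r) := by
        apply mul_le_mul hcount hlog h1r (hS0.trans hcount)
    _ ≤ _ := by linarith

end Pool.Agent.Helper57.LH

end

/-! ### Helper57.LH.LocB -/

section

namespace Pool.Agent.Helper57.LH

open Complex Set MeasureTheory Filter Topology Metric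

open Pool.Agent.Helper57.Zeta

/-- circle average of the square -/
noncomputable def AH (T : ℝ) (c : ℂ) (R : ℝ) : ℝ := Real.circleAverage (fun z => ‖HT T z‖ ^ 2) c R

/-- the constant -/
noncomputable def KK : ℝ := 122 * Real.exp 32

lemma KK_pos : 0 < KK := by unfold KK; positivity

lemma AH_nonneg (T : ℝ) (c : ℂ) (R : ℝ) : 0 ≤ AH T c R := by
  unfold AH
  apply Real.circleAverage_nonneg_of_nonneg
  intro x _; positivity

lemma region {T τ σ R : ℝ} (hT : 20 ≤ T) (hτ : 10 ≤ |τ|) (hτ3 : |τ| ≤ 3 * T) (_hR : 0 ≤ R) (hR5 : R ≤ 9 / 2)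
    (hRσ : R < σ) (hσ : σ + R ≤ 9) {z : ℂ} (hz : ‖z - (σ + τ * I)‖ ≤ R) :
    0 < z.re ∧ z.re ≤ 9 ∧ 1 ≤ |z.im| ∧ |z.im| ≤ 4 * T := by
  have h1 : |(z - (σ + τ * I)).re| ≤ R := (Complex.abs_re_le_norm _).trans hz
  have h2 : |(z - (σ + τ * I)).im| ≤ R := (Complex.abs_im_le_norm _).trans hz
  have e1 : (z - (σ + τ * I)).re = z.re - σ := by simp
  have e2 : (z - (σ + τ * I)).im = z.im - τ := by simp
  rw [e1] at h1
  rw [e2] at h2
  have h3 := abs_le.mp h1
  have h4 : |τ| ≤ |z.im| + |z.im - τ| := by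
    have h6 := abs_sub_le τ z.im 0
    rw [sub_zero, sub_zero, abs_sub_comm τ] at h6
    linarith only [h6]
  have h5 : |z.im| ≤ |τ| + |z.im - τ| := by
    have h6 := abs_sub_le z.im τ 0
    rw [sub_zero, sub_zero] at h6
    linarith only [h6]
  exact ⟨by linarith only [hRσ, h3], by linarith only [hσ, h3], by linarith, by linarith only [hT, hτ3, hR5, h2, h5]⟩

lemma sphere_norm {c z : ℂ} {R : ℝ} (hR : 0 ≤ R) (hz : z ∈ sphere c |R|) : ‖z - c‖ ≤ R := by
  rw [abs_of_nonneg hR, mem_sphere, dist_eq_norm] at hz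
  exact hz.le

lemma ET_contOn {T τ σ R : ℝ} (hT : 20 ≤ T) (hτ : 10 ≤ |τ|) (hτ3 : |τ| ≤ 3 * T) (hR : 0 ≤ R) (hR5 : R ≤ 9 / 2)
    (hRσ : R < σ) (hσ : σ + R ≤ 9) : ContinuousOn (ET T) (sphere (σ + τ * I) |R|) := by
  unfold ET
  apply ContinuousOn.sub _ continuousOn_const
  apply ContinuousOn.mul
  · intro z hz
    have h := region hT hτ hτ3 hR hR5 hRσ hσ (sphere_norm hR hz)
    have hz1 : z ≠ 1 := by
      rintro rfl
      have := h.2.2.1
      simp at this; linarith only [this]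
    exact (differentiableAt_riemannZeta hz1).continuousAt.continuousWithinAt
  · exact (differentiable_Mol _).continuous.continuousOn

lemma HT_contOn {T τ σ R : ℝ} (hR : 0 ≤ R) (hRσ : R < σ) : ContinuousOn (HT T) (sphere (σ + τ * I) |R|) := by
  apply (HT_diff T).continuousOn.mono
  intro z hz
  have h1 := (abs_le.mp ((Complex.abs_re_le_norm _).trans (sphere_norm hR hz))).1
  have e1 : (z - (σ + τ * I)).re = z.re - σ := by simp
  rw [e1] at h1
  show -1 < z.re
  linarith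

lemma log_circ {T : ℝ} {c : ℂ} {R : ℝ} (hE : ContinuousOn (ET T) (sphere c |R|)) :
    CircleIntegrable (fun z => Real.log (1 + ‖ET T z‖)) c R := by
  have hc : ContinuousOn (fun z => 1 + ‖ET T z‖) (sphere c |R|) := continuousOn_const.add hE.norm
  apply ContinuousOn.circleIntegrable'
  exact hc.log (fun z _ => by positivity)

lemma avg_sq_le {g : ℂ → ℝ} {c : ℂ} {R : ℝ} (hg : ContinuousOn g (sphere c |R|)) :
    (Real.circleAverage g c R) ^ 2 ≤ Real.circleAverage (fun z => g z ^ 2) c R := by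
  set a := Real.circleAverage g c R with ha
  have h1 : CircleIntegrable g c R := hg.circleIntegrable'
  have h2 : CircleIntegrable (fun z => g z ^ 2) c R := (hg.pow 2).circleIntegrable'
  have h3 : CircleIntegrable (fun z => 2 * a * g z - a ^ 2) c R := by
    apply ContinuousOn.circleIntegrable'
    fun_prop
  have h4 := Real.circleAverage_mono h3 h2 (fun z _ => by nlinarith only [sq_nonneg (g z - a)])
  have h5 : Real.circleAverage (fun z => 2 * a * g z - a ^ 2) c R = 2 * a * a - a ^ 2 := by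
    have h6 : CircleIntegrable (fun z => (2 * a) • g z) c R := by
      apply ContinuousOn.circleIntegrable'
      fun_prop
    have h7 : CircleIntegrable (fun _ : ℂ => a ^ 2) c R := by
      apply ContinuousOn.circleIntegrable'
      fun_prop
    have e := Real.circleAverage_fun_sub h6 h7
    rw [Real.circleAverage_const, Real.circleAverage_fun_smul, ← ha] at e
    simpa [smul_eq_mul] using e
  rw [h5] at h4
  nlinarith only [h4]

/-- bound of the mean of ‖E‖ -/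
lemma avg_E_sq {T τ σ R : ℝ} (hT : 20 ≤ T) (hτ : 10 ≤ |τ|) (hτ3 : |τ| ≤ 3 * T) (hR : 0 ≤ R) (hR5 : R ≤ 9 / 2)
    (hRσ : R < σ) (hσ : σ + R ≤ 9) :
    (Real.circleAverage (fun z => ‖ET T z‖) (σ + τ * I) R) ^ 2 ≤ KK * AH T (σ + τ * I) R := by
  have hE := ET_contOn hT hτ hτ3 hR hR5 hRσ hσ
  have hH := HT_contOn (T := T) (τ := τ) hR hRσ
  refine (avg_sq_le hE.norm).trans ?_
  unfold AH
  rw [← smul_eq_mul KK, ← Real.circleAverage_fun_smul]
  apply Real.circleAverage_mono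
  · exact (hE.norm.pow 2).circleIntegrable'
  · apply ContinuousOn.circleIntegrable'
    exact (hH.norm.pow 2).const_smul KK
  · intro z hz
    have h := region hT hτ hτ3 hR hR5 hRσ hσ (sphere_norm hR hz)
    simp only [smul_eq_mul]
    exact ET_le hT h.1 h.2.1 h.2.2.1 h.2.2.2

lemma ET_c_le {T τ σ : ℝ} (hT : 20 ≤ T) (hτ : 10 ≤ |τ|) (hτ3 : |τ| ≤ 3 * T) (hσ0 : 0 < σ) (hσ : σ ≤ 9) :
    ‖ET T (σ + τ * I)‖ ^ 2 ≤ KK * ‖HT T (σ + τ * I)‖ ^ 2 := by
  have e1 : (σ + τ * I : ℂ).re = σ := by simp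
  have e2 : (σ + τ * I : ℂ).im = τ := by simp
  apply ET_le hT
  · rw [e1]; exact hσ0
  · rw [e1]; exact hσ
  · rw [e2]; linarith only [hτ]
  · rw [e2]; linarith only [hT, hτ3]

/-- the centre of the disc at scale V -/
noncomputable def sg (L V : ℝ) : ℝ := 1 / 2 + 4 * V / L

lemma dist_scale {L V τ : ℝ} (hL : 0 < L) {ρ : ℂ} {v u r : ℝ} (hv : v = L * (ρ.re - 1 / 2)) (hu : u = L * |ρ.im - τ|)
    (hr : 0 ≤ r) (h : (v - 4 * V) ^ 2 + u ^ 2 ≤ r ^ 2) : ‖ρ - ((sg L V : ℝ) + τ * I)‖ ≤ r / L := by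
  rw [← sq_le_sq₀ (norm_nonneg _) (by positivity), ← Complex.normSq_eq_norm_sq, Complex.normSq_apply]
  have e1 : (ρ - ((sg L V : ℝ) + τ * I)).re = (v - 4 * V) / L := by
    rw [hv]
    unfold sg
    simp
    field_simp
    ring
  have e2 : (ρ - ((sg L V : ℝ) + τ * I)).im = ρ.im - τ := by simp
  rw [e1, e2]
  have e3 : (ρ.im - τ) * (ρ.im - τ) = (u / L) ^ 2 := by
    rw [hu, mul_div_cancel_left₀ _ hL.ne', sq_abs]; ring
  rw [e3, div_pow, div_pow, ← sq, div_pow, ← add_div]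
  gcongr

/-- good classes: few zeros -/
lemma classG {T L w τ : ℝ} (hT : 20 ≤ T) (hL : L = Real.log T) (hL40 : 40 ≤ L) (hw : 1 ≤ w) (hwL : w ≤ L)
    (hτ : 10 ≤ |τ|) (hτ3 : |τ| ≤ 3 * T) (hgood : ‖ET T ((sg L w : ℝ) + τ * I)‖ ≤ 1 / 2)
    (F : Finset ℂ) (hF : ∀ ρ ∈ F, xi ρ = 0 ∧ w ≤ L * (ρ.re - 1 / 2) ∧ L * (ρ.re - 1 / 2) ≤ 2 * w ∧
      L * |ρ.im - τ| ≤ 1) :
    (∑ ρ ∈ F, (analyticOrderNatAt xi ρ : ℝ)) ^ 2 ≤
      KK * (72 * AH T ((sg L w : ℝ) + τ * I) (39 / 10 * w / L) + 288 * ‖HT T ((sg L w : ℝ) + τ * I)‖ ^ 2) := by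
  have hL0 : 0 < L := by linarith only [hL40]
  set σ := sg L w with hσ
  have hwL1 : w / L ≤ 1 := by rw [div_le_one hL0]; exact hwL
  have hwL0 : 0 < w / L := by positivity
  set R := 39 / 10 * w / L with hR
  set r := 32 / 10 * w / L with hr
  have hR' : R = 39 / 10 * (w / L) := by rw [hR]; ring
  have hr' : r = 32 / 10 * (w / L) := by rw [hr]; ring
  have hσ' : σ = 1 / 2 + 4 * (w / L) := by rw [hσ]; unfold sg; ring
  have hr0 : 0 < r := by rw [hr']; positivity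
  have hrR : r < R := by rw [hr', hR']; linarith only [hwL0]
  have hR0 : 0 < R := hr0.trans hrR
  have hR5 : R ≤ 9 / 2 := by rw [hR']; linarith only [hwL1]
  have hRσ : R < σ := by rw [hR', hσ']; linarith only [hwL0]
  have hσ9 : σ + R ≤ 9 := by rw [hR', hσ']; linarith only [hwL1]
  have e1 : (σ + τ * I : ℂ).re = σ := by simp
  have e2 : (σ + τ * I : ℂ).im = τ := by simp
  have hcount := count_le (T := T) (c := σ + τ * I) hr0 hrR (by rw [e2]; linarith only [hτ, hwL1, hR']) (by rw [e1]; exact hRσ) hgood F (by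
    intro ρ hρ
    obtain ⟨h0, h1, h2, h3⟩ := hF ρ hρ
    refine ⟨h0, ?_⟩
    rw [hr]
    apply dist_scale hL0 rfl rfl (by positivity)
    have : 0 ≤ L * |ρ.im - τ| := by positivity
    nlinarith only [hw, h1, h2, h3, this])
  have hE := ET_contOn hT hτ hτ3 hR0.le hR5 hRσ hσ9
  set a := Real.circleAverage (fun z => ‖ET T z‖) (σ + τ * I) R with ha
  have ha2 : a ^ 2 ≤ KK * AH T (σ + τ * I) R := avg_E_sq hT hτ hτ3 hR0.le hR5 hRσ hσ9
  have ha0 : 0 ≤ a := Real.circleAverage_nonneg_of_nonneg (fun _ _ => norm_nonneg _)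
  have hloga : Real.circleAverage (fun z => Real.log (1 + ‖ET T z‖)) (σ + τ * I) R ≤ a := by
    apply Real.circleAverage_mono
    · exact log_circ hE
    · exact hE.norm.circleIntegrable'
    · intro z _
      have := norm_nonneg (ET T z)
      have h2 := Real.log_le_sub_one_of_pos (show 0 < 1 + ‖ET T z‖ by linarith only [this])
      linarith only [h2]
  have he2 := ET_c_le (σ := σ) hT hτ hτ3 (by linarith only [hwL0, hr', hrR, hRσ]) (by linarith only [hwL1, hR', hr', hσ', hrR])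
  set e := ‖ET T (σ + τ * I)‖ with he
  have he0 : 0 ≤ e := norm_nonneg _
  set n := ∑ ρ ∈ F, (analyticOrderNatAt xi ρ : ℝ) with hn
  have hn0 : 0 ≤ n := Finset.sum_nonneg fun _ _ => Nat.cast_nonneg _
  have hfrac : 1 / 6 ≤ 1 - r / R := by
    rw [hr', hR', mul_div_mul_right _ _ hwL0.ne']
    norm_num
  have h1 : n * (1 / 6) ≤ a + 2 * e := by
    calc n * (1 / 6) ≤ n * (1 - r / R) := by gcongr
      _ ≤ _ := by linarith only [hloga, hcount]
  have h2 : n ≤ 6 * (a + 2 * e) := by linarith only [h1]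
  calc n ^ 2 ≤ (6 * (a + 2 * e)) ^ 2 := by gcongr
    _ ≤ 72 * a ^ 2 + 288 * e ^ 2 := by nlinarith only [sq_nonneg (a - 2 * e)]
    _ ≤ 72 * (KK * AH T (σ + τ * I) R) + 288 * (KK * ‖HT T (σ + τ * I)‖ ^ 2) := by gcongr
    _ = _ := by ring

/-- larger discs -/
lemma classH {T L V τ : ℝ} (hT : 20 ≤ T) (hL : L = Real.log T) (hL40 : 40 ≤ L) (hV : 1 ≤ V) (hVL : V ≤ L)
    (hτ : 10 ≤ |τ|) (hτ3 : |τ| ≤ 3 * T) (hgood : ‖ET T ((sg L V : ℝ) + τ * I)‖ ≤ 1 / 2)
    (F : Finset ℂ) (hF : ∀ ρ ∈ F, xi ρ = 0 ∧ 0 ≤ L * (ρ.re - 1 / 2) ∧ L * (ρ.re - 1 / 2) ≤ V ∧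
      L * |ρ.im - τ| ≤ 1) :
    ∃ a : ℝ, 0 ≤ a ∧ a ^ 2 ≤ KK * AH T ((sg L V : ℝ) + τ * I) ((4 * V + 1) / L) ∧
    (∑ ρ ∈ F, (analyticOrderNatAt xi ρ : ℝ)) ^ 2 ≤ 200 * V ^ 2 * (4 * a + 1) := by
  have hL0 : 0 < L := by linarith only [hL40]
  set σ := sg L V with hσ
  have hVL1 : V / L ≤ 1 := by rw [div_le_one hL0]; exact hVL
  have hVL0 : 0 < V / L := by positivity
  have hL1 : 1 / L ≤ 1 / 40 := by gcongr
  have hL1' : 0 < 1 / L := by positivity
  set R := (4 * V + 1) / L with hR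
  set r := (4 * V + 1 / 2) / L with hr
  have hR' : R = 4 * (V / L) + 1 / L := by rw [hR]; ring
  have hr' : r = 4 * (V / L) + 1 / L / 2 := by rw [hr]; ring
  have hσ' : σ = 1 / 2 + 4 * (V / L) := by rw [hσ]; unfold sg; ring
  have hr0 : 0 < r := by rw [hr']; positivity
  have hrR : r < R := by rw [hr', hR']; linarith only [hL1']
  have hR0 : 0 < R := hr0.trans hrR
  have hR5 : R ≤ 9 / 2 := by rw [hR']; linarith only [hVL1, hL1]
  have hRσ : R < σ := by rw [hR', hσ']; linarith only [hL1]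
  have hσ9 : σ + R ≤ 9 := by rw [hR', hσ']; linarith only [hVL1, hL1]
  have e1 : (σ + τ * I : ℂ).re = σ := by simp
  have e2 : (σ + τ * I : ℂ).im = τ := by simp
  have hcount := count_le (T := T) (c := σ + τ * I) hr0 hrR (by rw [e2]; linarith only [hτ, hVL1, hL1, hL1', hR']) (by rw [e1]; exact hRσ) hgood F (by
    intro ρ hρ
    obtain ⟨h0, h1, h2, h3⟩ := hF ρ hρ
    refine ⟨h0, ?_⟩
    rw [hr]
    apply dist_scale hL0 rfl rfl (by positivity)
    have : 0 ≤ L * |ρ.im - τ| := by positivity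
    nlinarith only [hV, h1, h2, h3, this])
  have hE := ET_contOn hT hτ hτ3 hR0.le hR5 hRσ hσ9
  set a := Real.circleAverage (fun z => ‖ET T z‖) (σ + τ * I) R with ha
  have ha2 : a ^ 2 ≤ KK * AH T (σ + τ * I) R := avg_E_sq hT hτ hτ3 hR0.le hR5 hRσ hσ9
  have ha0 : 0 ≤ a := Real.circleAverage_nonneg_of_nonneg (fun _ _ => norm_nonneg _)
  set b := Real.circleAverage (fun z => Real.sqrt ‖ET T z‖) (σ + τ * I) R with hb
  have hb0 : 0 ≤ b := Real.circleAverage_nonneg_of_nonneg (fun _ _ => Real.sqrt_nonneg _)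
  have hsq : ContinuousOn (fun z => Real.sqrt ‖ET T z‖) (sphere (σ + τ * I) |R|) :=
    Real.continuous_sqrt.comp_continuousOn hE.norm
  have hb2 : b ^ 2 ≤ a := by
    have := avg_sq_le hsq
    rw [← hb] at this
    refine this.trans (le_of_eq ?_)
    rw [ha]
    congr 1
    funext z
    exact Real.sq_sqrt (norm_nonneg _)
  have hlogb : Real.circleAverage (fun z => Real.log (1 + ‖ET T z‖)) (σ + τ * I) R ≤ 2 * b := by
    rw [show 2 * b = Real.circleAverage (fun z => (2:ℝ) • Real.sqrt ‖ET T z‖) (σ + τ * I) R by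
      rw [Real.circleAverage_fun_smul, smul_eq_mul]]
    apply Real.circleAverage_mono
    · exact log_circ hE
    · apply ContinuousOn.circleIntegrable'
      exact hsq.const_smul (2:ℝ)
    · intro z _
      simp only [smul_eq_mul]
      have hx := norm_nonneg (ET T z)
      set x := ‖ET T z‖
      have hs := Real.sqrt_nonneg x
      have hss := Real.sq_sqrt hx
      have h2 := Real.log_le_sub_one_of_pos (show 0 < 1 + Real.sqrt x by linarith only [hs])
      have h3 : Real.log (1 + x) ≤ Real.log ((1 + Real.sqrt x) ^ 2) := by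
        apply Real.log_le_log (by linarith only [hx])
        nlinarith only [hs, hss]
      rw [Real.log_pow] at h3
      push_cast at h3
      linarith only [h2, h3]
  set e := ‖ET T (σ + τ * I)‖ with he
  set n := ∑ ρ ∈ F, (analyticOrderNatAt xi ρ : ℝ) with hn
  have hn0 : 0 ≤ n := Finset.sum_nonneg fun _ _ => Nat.cast_nonneg _
  have hfrac : 1 / (10 * V) ≤ 1 - r / R := by
    have e3 : 1 - r / R = (1 / 2) / (4 * V + 1) := by
      rw [hr, hR]
      field_simp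
      ring
    rw [e3, div_le_div_iff₀ (by positivity) (by positivity)]
    linarith only [hV]
  have h1 : n * (1 / (10 * V)) ≤ 2 * b + 1 := by
    calc n * (1 / (10 * V)) ≤ n * (1 - r / R) := by gcongr
      _ ≤ _ := by linarith only [hlogb, hgood, hcount]
  have h2 : n ≤ 10 * V * (2 * b + 1) := by
    rw [mul_one_div, div_le_iff₀ (by positivity)] at h1
    linarith only [h1]
  refine ⟨a, ha0, ha2, ?_⟩
  calc n ^ 2 ≤ (10 * V * (2 * b + 1)) ^ 2 := by gcongr
    _ = 100 * V ^ 2 * (2 * b + 1) ^ 2 := by ring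
    _ ≤ 100 * V ^ 2 * (2 * (4 * a + 1)) := by
        gcongr
        nlinarith only [hb2, sq_nonneg (2 * b - 1)]
    _ = _ := by ring

lemma classH0 {T L τ : ℝ} (hT : 20 ≤ T) (hL : L = Real.log T) (hL40 : 40 ≤ L)
    (hτ : 10 ≤ |τ|) (hτ3 : |τ| ≤ 3 * T) (hgood : ‖ET T ((sg L 1 : ℝ) + τ * I)‖ ≤ 1 / 2)
    (F : Finset ℂ) (hF : ∀ ρ ∈ F, xi ρ = 0 ∧ 0 ≤ L * (ρ.re - 1 / 2) ∧ L * (ρ.re - 1 / 2) ≤ 1 ∧
      L * |ρ.im - τ| ≤ 1) :
    (∑ ρ ∈ F, (analyticOrderNatAt xi ρ : ℝ)) ^ 2 ≤ 600 + 400 * KK * AH T ((sg L 1 : ℝ) + τ * I) (5 / L) := by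
  obtain ⟨a, ha0, ha2, h⟩ := classH hT hL hL40 le_rfl (by linarith only [hL40]) hτ hτ3 hgood F hF
  rw [show (4 * 1 + 1 : ℝ) / L = 5 / L by norm_num] at ha2
  calc (∑ ρ ∈ F, (analyticOrderNatAt xi ρ : ℝ)) ^ 2 ≤ 200 * 1 ^ 2 * (4 * a + 1) := h
    _ ≤ 600 + 400 * a ^ 2 := by nlinarith only [sq_nonneg (a - 1)]
    _ ≤ 600 + 400 * (KK * AH T ((sg L 1 : ℝ) + τ * I) (5 / L)) := by gcongr
    _ = _ := by ring

lemma classH1 {T L V τ lam : ℝ} (hT : 20 ≤ T) (hL : L = Real.log T) (hL40 : 40 ≤ L) (hV : 2 ≤ V) (hVL : V ≤ L)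
    (hlam : 1 ≤ lam)
    (hτ : 10 ≤ |τ|) (hτ3 : |τ| ≤ 3 * T) (hgood : ‖ET T ((sg L V : ℝ) + τ * I)‖ ≤ 1 / 2)
    (hbad : 1 / 2 < ‖ET T ((sg L (V / 2) : ℝ) + τ * I)‖)
    (F : Finset ℂ) (hF : ∀ ρ ∈ F, xi ρ = 0 ∧ 0 ≤ L * (ρ.re - 1 / 2) ∧ L * (ρ.re - 1 / 2) ≤ V ∧
      L * |ρ.im - τ| ≤ 1) :
    (∑ ρ ∈ F, (analyticOrderNatAt xi ρ : ℝ)) ^ 2 ≤
      400 * V ^ 2 * KK * (lam⁻¹ * AH T ((sg L V : ℝ) + τ * I) ((4 * V + 1) / L) +
        6 * lam * ‖HT T ((sg L (V / 2) : ℝ) + τ * I)‖ ^ 2) := by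
  obtain ⟨a, ha0, ha2, h⟩ := classH hT hL hL40 (by linarith only [hV]) hVL hτ hτ3 hgood F hF
  have hL0 : 0 < L := by linarith only [hL40]
  have hlam0 : 0 < lam := by linarith only [hlam]
  have hVL0 : V / L ≤ 1 := by rw [div_le_one hL0]; exact hVL
  have hVLp : 0 < V / L := by positivity
  have hσ : sg L (V / 2) = 1 / 2 + 2 * (V / L) := by unfold sg; ring
  have h1 := ET_c_le (σ := sg L (V / 2)) hT hτ hτ3 (by rw [hσ]; linarith only [hVLp]) (by rw [hσ]; linarith only [hVL0])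
  have h2 : 1 ≤ 4 * (KK * ‖HT T ((sg L (V / 2) : ℝ) + τ * I)‖ ^ 2) := by
    have h3 : (1/2:ℝ) ^ 2 ≤ ‖ET T ((sg L (V / 2) : ℝ) + τ * I)‖ ^ 2 := by
      apply pow_le_pow_left₀ (by norm_num) hbad.le
    linarith only [h1, h3]
  set H := KK * ‖HT T ((sg L (V / 2) : ℝ) + τ * I)‖ ^ 2 with hH
  have h4 : 4 * a + 1 ≤ 2 * (lam⁻¹ * a ^ 2) + 3 * lam := by
    have h5 : 4 * a ≤ 2 * (lam⁻¹ * a ^ 2) + 2 * lam := by
      have h6 : lam⁻¹ * (a - lam) ^ 2 ≥ 0 := by positivity
      have h7 : lam⁻¹ * (a - lam) ^ 2 = lam⁻¹ * a ^ 2 - 2 * a + lam := by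
        field_simp
        ring
      linarith only [h6, h7]
    linarith only [hlam, h5]
  calc (∑ ρ ∈ F, (analyticOrderNatAt xi ρ : ℝ)) ^ 2 ≤ 200 * V ^ 2 * (4 * a + 1) := h
    _ ≤ 200 * V ^ 2 * (2 * (lam⁻¹ * a ^ 2) + 3 * lam * (4 * H)) := by
        apply mul_le_mul_of_nonneg_left _ (by positivity)
        refine h4.trans ?_
        have : 3 * lam * 1 ≤ 3 * lam * (4 * H) := by gcongr
        linarith only [this]
    _ ≤ 200 * V ^ 2 * (2 * (lam⁻¹ * (KK * AH T ((sg L V : ℝ) + τ * I) ((4 * V + 1) / L))) + 3 * lam * (4 * H)) := by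
        gcongr
    _ = _ := by rw [hH]; ring

end Pool.Agent.Helper57.LH

end

/-! ### Helper57.LH.LocC -/

section

namespace Pool.Agent.Helper57.LH

open Complex Set MeasureTheory Filter Topology Metric

open Pool.Agent.Helper57.Zeta

open scoped ENNReal

lemma HT_cont2 (T : ℝ) {σ R : ℝ} (hR : 0 ≤ R) (hRσ : R < σ) :
    Continuous (Function.uncurry (fun τ θ : ℝ => ‖HT T (circleMap (σ + τ * I) R θ)‖ ^ 2)) := by
  have h1 : Continuous (fun p : ℝ × ℝ => circleMap ((σ:ℂ) + (p.1:ℂ) * I) R p.2) := by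
    unfold circleMap
    fun_prop
  have h2 : Continuous (fun p : ℝ × ℝ => HT T (circleMap ((σ:ℂ) + (p.1:ℂ) * I) R p.2)) := by
    rw [← continuousOn_univ]
    apply (HT_diff T).continuousOn.comp h1.continuousOn
    intro p _
    show -1 < (circleMap ((σ:ℂ) + (p.1:ℂ) * I) R p.2).re
    have h3 : ‖circleMap ((σ:ℂ) + (p.1:ℂ) * I) R p.2 - ((σ:ℂ) + (p.1:ℂ) * I)‖ = R := by
      simp [circleMap, abs_of_nonneg hR]
    have h4 := (abs_le.mp ((Complex.abs_re_le_norm _).trans h3.le)).1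
    have e1 : (circleMap ((σ:ℂ) + (p.1:ℂ) * I) R p.2 - ((σ:ℂ) + (p.1:ℂ) * I)).re =
      (circleMap ((σ:ℂ) + (p.1:ℂ) * I) R p.2).re - σ := by
      rw [Complex.sub_re]
      congr 1
      simp
    rw [e1] at h4
    linarith
  exact h2.norm.pow 2

lemma AH_eq (T : ℝ) (c : ℂ) (R : ℝ) : AH T c R = (2 * Real.pi)⁻¹ * ∫ θ in (0:ℝ)..(2 * Real.pi), ‖HT T (circleMap c R θ)‖ ^ 2 := rfl

lemma AH_cont (T : ℝ) {σ R : ℝ} (hR : 0 ≤ R) (hRσ : R < σ) : Continuous (fun τ : ℝ => AH T (σ + τ * I) R) := by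
  simp_rw [AH_eq]
  exact continuous_const.mul
    (intervalIntegral.continuous_parametric_intervalIntegral_of_continuous' (HT_cont2 T hR hRσ) _ _)

lemma dec_anti {T : ℝ} (hT : 1 ≤ T) {a b : ℝ} (h : a ≤ b) : dec T b ≤ dec T a := by
  unfold dec
  apply Real.exp_le_exp.mpr
  apply neg_le_neg
  have := Real.log_nonneg hT
  gcongr

/-- the energy constant -/
noncomputable def CE : ℝ := energy.choose

lemma CE_one : 1 ≤ CE := energy.choose_spec.1

lemma CE_energy {T σ : ℝ} (hT : 3 ^ 40 ≤ T) (h1 : 1 / 2 - 1 / Real.log T ≤ σ) (h2 : σ ≤ 9) :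
    ∫ t : ℝ, ‖HT T (σ + t * I)‖ ^ 2 ≤ CE * T * dec T σ := energy.choose_spec.2 T hT σ h1 h2

lemma log_T40 {T : ℝ} (hT : 3 ^ 40 ≤ T) : 40 ≤ Real.log T := by
  have h3 : Real.log (3 ^ 40) ≤ Real.log T := Real.log_le_log (by norm_num) hT
  rw [Real.log_pow] at h3
  have h4 : 1 ≤ Real.log 3 := by
    rw [Real.le_log_iff_exp_le (by norm_num)]
    have := Real.exp_one_lt_d9
    linarith
  push_cast at h3
  linarith only [h3, h4]

lemma int_H {T σ : ℝ} (hT : 3 ^ 40 ≤ T) (h1 : 1 / 2 - 1 / Real.log T ≤ σ) (h2 : σ ≤ 9) :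
    ∫⁻ t : ℝ, ENNReal.ofReal (‖HT T (σ + t * I)‖ ^ 2) ≤ ENNReal.ofReal (CE * T * dec T σ) := by
  have hT20 : (20:ℝ) ≤ T := le_trans (by norm_num) hT
  have hl := log_T40 hT
  have h14 : 1 / 4 ≤ σ := by
    have : 1 / Real.log T ≤ 1 / 40 := by gcongr
    linarith
  rw [← ofReal_integral_eq_lintegral_ofReal (HT_int (by linarith only [hT]) h14 h2) (Eventually.of_forall fun t => by positivity)]
  exact ENNReal.ofReal_le_ofReal (CE_energy hT h1 h2)

lemma int_AH {T σ R : ℝ} (hT : 3 ^ 40 ≤ T) (hR : 0 ≤ R) (h1 : 1 / 2 - 1 / Real.log T ≤ σ - R) (h2 : σ + R ≤ 9) :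
    ∫⁻ t : ℝ, ENNReal.ofReal (AH T (σ + t * I) R) ≤ ENNReal.ofReal (CE * T * dec T (σ - R)) := by
  have hT20 : (20:ℝ) ≤ T := le_trans (by norm_num) hT
  have hl := log_T40 hT
  have hl1 : 1 / Real.log T ≤ 1 / 40 := by gcongr
  have hRσ : R < σ := by linarith only [h1, hl1]
  have hc := HT_cont2 T hR hRσ
  have hCE := CE_one
  have hpi := Real.pi_pos
  -- pointwise expression as a lintegral
  have e1 : ∀ t : ℝ, ENNReal.ofReal (AH T (σ + t * I) R) =
      ENNReal.ofReal ((2 * Real.pi)⁻¹) * ∫⁻ θ in Ioc 0 (2 * Real.pi), ENNReal.ofReal (‖HT T (circleMap (σ + t * I) R θ)‖ ^ 2) := by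
    intro t
    have hct : Continuous (fun θ : ℝ => ‖HT T (circleMap (σ + t * I) R θ)‖ ^ 2) :=
        hc.uncurry_left t
    have hint : Integrable (fun θ : ℝ => ‖HT T (circleMap (σ + t * I) R θ)‖ ^ 2) (volume.restrict (Ioc 0 (2 * Real.pi))) :=
      (hct.intervalIntegrable 0 (2 * Real.pi)).1
    rw [AH_eq, ENNReal.ofReal_mul (by positivity), intervalIntegral.integral_of_le (by positivity),
      ofReal_integral_eq_lintegral_ofReal hint (Eventually.of_forall fun θ => by positivity)]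
  simp_rw [e1]
  rw [lintegral_const_mul' _ _ ENNReal.ofReal_ne_top]
  rw [lintegral_lintegral_swap]
  swap
  · exact (hc.measurable.ennreal_ofReal).aemeasurable
  have h3 : ∀ θ : ℝ, ∫⁻ t : ℝ, ENNReal.ofReal (‖HT T (circleMap (σ + t * I) R θ)‖ ^ 2) ≤
      ENNReal.ofReal (CE * T * dec T (σ - R)) := by
    intro θ
    have hcos := Real.neg_one_le_cos θ
    have hcos2 := Real.cos_le_one θ
    have hlo : -R ≤ R * Real.cos θ := by nlinarith only [hR, hcos]
    have hhi : R * Real.cos θ ≤ R := by nlinarith only [hR, hcos2]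
    have e2 : ∀ t : ℝ, circleMap (σ + t * I) R θ = ((σ + R * Real.cos θ : ℝ) : ℂ) + ((t + R * Real.sin θ : ℝ) : ℂ) * I := by
      intro t
      unfold circleMap
      rw [Complex.exp_mul_I]
      push_cast
      ring
    simp_rw [e2]
    rw [lintegral_add_right_eq_self (fun t : ℝ => ENNReal.ofReal (‖HT T (((σ + R * Real.cos θ : ℝ) : ℂ) + (t : ℂ) * I)‖ ^ 2)) (R * Real.sin θ)]
    refine (int_H hT (by linarith only [h1, hlo]) (by linarith only [h2, hhi])).trans ?_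
    apply ENNReal.ofReal_le_ofReal
    have : dec T (σ + R * Real.cos θ) ≤ dec T (σ - R) := dec_anti (by linarith only [hT]) (by linarith only [hlo])
    gcongr
  calc ENNReal.ofReal ((2 * Real.pi)⁻¹) * ∫⁻ θ in Ioc 0 (2 * Real.pi), ∫⁻ t : ℝ, ENNReal.ofReal (‖HT T (circleMap (σ + t * I) R θ)‖ ^ 2)
      ≤ ENNReal.ofReal ((2 * Real.pi)⁻¹) * ∫⁻ θ in Ioc 0 (2 * Real.pi), ENNReal.ofReal (CE * T * dec T (σ - R)) := by
        gcongr with θ
        exact h3 θ
    _ = _ := by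
        rw [setLIntegral_const, Real.volume_Ioc, sub_zero, mul_comm (ENNReal.ofReal (CE * T * dec T (σ - R))), ← mul_assoc,
          ← ENNReal.ofReal_mul (by positivity), inv_mul_cancel₀ (by positivity), ENNReal.ofReal_one, one_mul]

/-- the range of ordinates -/
def RA (T : ℝ) : Set ℝ := {τ | 10 ≤ |τ| ∧ |τ| ≤ 3 * T}

lemma RA_compact (T : ℝ) : IsCompact (RA T) := by
  apply Metric.isCompact_of_isClosed_isBounded
  · exact (isClosed_le continuous_const continuous_abs).inter (isClosed_le continuous_abs continuous_const)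
  · apply (Metric.isBounded_closedBall (x := (0:ℝ)) (r := 3 * T)).subset
    rintro τ ⟨_, h2⟩
    rw [Metric.mem_closedBall, Real.dist_eq, sub_zero]
    exact h2

lemma RA_meas (T : ℝ) : MeasurableSet (RA T) := (RA_compact T).measurableSet

lemma set_le_of_lint {f : ℝ → ℝ} (hf : Continuous f) (hf0 : ∀ t, 0 ≤ f t) {D : ℝ} (hD : 0 ≤ D)
    (h : ∫⁻ t, ENNReal.ofReal (f t) ≤ ENNReal.ofReal D) (S : Set ℝ) : ∫ t in S, f t ≤ D := by
  rw [integral_eq_lintegral_of_nonneg_ae (Eventually.of_forall hf0) hf.aestronglyMeasurable]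
  apply ENNReal.toReal_le_of_le_ofReal hD
  exact (setLIntegral_le_lintegral _ _).trans h

lemma RA_vol {T : ℝ} (hT : 0 ≤ T) : ∫ _ in RA T, (1:ℝ) ≤ 6 * T := by
  rw [setIntegral_const, smul_eq_mul, mul_one]
  have h1 : RA T ⊆ Icc (-(3 * T)) (3 * T) := by
    rintro τ ⟨_, h2⟩
    exact abs_le.mp h2
  calc volume.real (RA T) ≤ volume.real (Icc (-(3 * T)) (3 * T)) := measureReal_mono h1 (by simp)
    _ = 6 * T := by rw [Real.volume_real_Icc_of_le (by linarith only [hT])]; ring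

/-- integral bounds for the two types of terms -/
lemma setint_AH {T σ R : ℝ} (hT : 3 ^ 40 ≤ T) (hR : 0 ≤ R) (h1 : 1 / 2 - 1 / Real.log T ≤ σ - R) (h2 : σ + R ≤ 9) :
    ∫ t in RA T, AH T (σ + t * I) R ≤ CE * T * dec T (σ - R) := by
  have hT20 : (20:ℝ) ≤ T := le_trans (by norm_num) hT
  have hl := log_T40 hT
  have hl1 : 1 / Real.log T ≤ 1 / 40 := by gcongr
  have hCE := CE_one
  have : 0 < dec T (σ - R) := Real.exp_pos _
  exact set_le_of_lint (AH_cont T hR (by linarith)) (fun t => AH_nonneg _ _ _) (by positivity) (int_AH hT hR h1 h2) _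

lemma setint_H {T σ : ℝ} (hT : 3 ^ 40 ≤ T) (h1 : 1 / 2 - 1 / Real.log T ≤ σ) (h2 : σ ≤ 9) :
    ∫ t in RA T, ‖HT T (σ + t * I)‖ ^ 2 ≤ CE * T * dec T σ := by
  have hT20 : (20:ℝ) ≤ T := le_trans (by norm_num) hT
  have hl := log_T40 hT
  have hl1 : 1 / Real.log T ≤ 1 / 40 := by gcongr
  have hCE := CE_one
  have : 0 < dec T σ := Real.exp_pos _
  exact set_le_of_lint ((HT_cont T (by linarith)).norm.pow 2) (fun t => sq_nonneg _) (by positivity) (int_H hT h1 h2) _

end Pool.Agent.Helper57.LH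

end

/-! ### Helper57.LH.LocD -/

section

namespace Pool.Agent.Helper57.LH

open Complex Set MeasureTheory Filter Topology Metric

open Pool.Agent.Helper57.Zeta

open scoped ENNReal

/-- the weight -/
noncomputable def Wt (B v : ℝ) : ℝ := (v / B) ^ 2 * Real.exp (v / B)

lemma Wt_nonneg (B v : ℝ) : 0 ≤ Wt B v := by unfold Wt; positivity

lemma Wt_mono {B : ℝ} (hB : 0 < B) {u v : ℝ} (hu : 0 ≤ u) (huv : u ≤ v) : Wt B u ≤ Wt B v := by
  unfold Wt; gcongr

/-- the good scales -/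
def good (T L : ℝ) (j : ℕ) (τ : ℝ) : Prop := ‖ET T ((sg L (2 ^ j) : ℝ) + τ * I)‖ ≤ 1 / 2

open Classical in
/-- number of zeros in the good classes -/
noncomputable def Gc (T L τ : ℝ) (F : Finset ℂ) (j : ℕ) : ℝ :=
  if good T L j τ then ∑ ρ ∈ F.filter (fun ρ => (2:ℝ) ^ j ≤ L * (ρ.re - 1 / 2) ∧ L * (ρ.re - 1 / 2) < 2 ^ (j + 1)),
    (analyticOrderNatAt xi ρ : ℝ) else 0

open Classical in
/-- number of zeros below the first good scale -/
noncomputable def Hc (T L τ : ℝ) (F : Finset ℂ) (j : ℕ) : ℝ :=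
  if good T L j τ ∧ (j = 0 ∨ ¬ good T L (j - 1) τ) then ∑ ρ ∈ F.filter (fun ρ => L * (ρ.re - 1 / 2) ≤ 2 ^ j),
    (analyticOrderNatAt xi ρ : ℝ) else 0

lemma split_scales {T L B τ : ℝ} (hB : 0 < B) {K : ℕ} (hK : good T L K τ) (F : Finset ℂ)
    (hF : ∀ ρ ∈ F, 0 ≤ L * (ρ.re - 1 / 2) ∧ L * (ρ.re - 1 / 2) < 2 ^ K) :
    ∑ ρ ∈ F, (analyticOrderNatAt xi ρ : ℝ) * Wt B (L * (ρ.re - 1 / 2)) ≤
      ∑ j ∈ Finset.range (K + 1), (Wt B (2 ^ (j + 1)) * Gc T L τ F j + Wt B (2 ^ j) * Hc T L τ F j) := by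
  classical
  have e : ∀ j : ℕ, Wt B (2 ^ (j + 1)) * Gc T L τ F j + Wt B (2 ^ j) * Hc T L τ F j =
      ∑ ρ ∈ F, (analyticOrderNatAt xi ρ : ℝ) *
        ((if good T L j τ ∧ ((2:ℝ) ^ j ≤ L * (ρ.re - 1 / 2) ∧ L * (ρ.re - 1 / 2) < 2 ^ (j + 1)) then Wt B (2 ^ (j + 1)) else 0) +
        (if (good T L j τ ∧ (j = 0 ∨ ¬ good T L (j - 1) τ)) ∧ L * (ρ.re - 1 / 2) ≤ 2 ^ j then Wt B (2 ^ j) else 0)) := by
    intro j
    simp_rw [mul_add]
    rw [Finset.sum_add_distrib]
    congr 1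
    · unfold Gc
      by_cases h : good T L j τ
      · rw [if_pos h, Finset.mul_sum, Finset.sum_filter]
        refine Finset.sum_congr rfl fun ρ _ => ?_
        by_cases h2 : ((2:ℝ) ^ j ≤ L * (ρ.re - 1 / 2) ∧ L * (ρ.re - 1 / 2) < 2 ^ (j + 1))
        · rw [if_pos h2, if_pos ⟨h, h2⟩]; ring
        · rw [if_neg h2, if_neg (fun h3 => h2 h3.2)]; ring
      · rw [if_neg h, mul_zero]
        symm
        apply Finset.sum_eq_zero
        intro ρ _
        rw [if_neg (fun h3 => h h3.1), mul_zero]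
    · unfold Hc
      by_cases h : good T L j τ ∧ (j = 0 ∨ ¬ good T L (j - 1) τ)
      · rw [if_pos h, Finset.mul_sum, Finset.sum_filter]
        refine Finset.sum_congr rfl fun ρ _ => ?_
        by_cases h2 : L * (ρ.re - 1 / 2) ≤ 2 ^ j
        · rw [if_pos h2, if_pos ⟨h, h2⟩]; ring
        · rw [if_neg h2, if_neg (fun h3 => h2 h3.2)]; ring
      · rw [if_neg h, mul_zero]
        symm
        apply Finset.sum_eq_zero
        intro ρ _
        rw [if_neg (fun h3 => h h3.1), mul_zero]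
  simp_rw [e]
  rw [Finset.sum_comm]
  refine Finset.sum_le_sum fun ρ hρ => ?_
  rw [← Finset.mul_sum]
  apply mul_le_mul_of_nonneg_left _ (Nat.cast_nonneg _)
  obtain ⟨h0, h1⟩ := hF ρ hρ
  set v := L * (ρ.re - 1 / 2) with hv
  have hex : ∃ j : ℕ, good T L j τ ∧ v < 2 ^ j := ⟨K, hK, h1⟩
  set j := Nat.find hex with hj
  have hj1 : good T L j τ ∧ v < 2 ^ j := Nat.find_spec hex
  have hjK : j ≤ K := Nat.find_min' hex ⟨hK, h1⟩
  have hnn : ∀ i ∈ Finset.range (K + 1), 0 ≤ ((if good T L i τ ∧ ((2:ℝ) ^ i ≤ v ∧ v < 2 ^ (i + 1)) then Wt B (2 ^ (i + 1)) else 0) +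
        (if (good T L i τ ∧ (i = 0 ∨ ¬ good T L (i - 1) τ)) ∧ v ≤ 2 ^ i then Wt B (2 ^ i) else 0)) := by
    intro i _
    apply add_nonneg
    · split_ifs
      · exact Wt_nonneg _ _
      · exact le_rfl
    · split_ifs
      · exact Wt_nonneg _ _
      · exact le_rfl
  by_cases hc : j = 0 ∨ ¬ good T L (j - 1) τ
  · refine le_trans ?_ (Finset.single_le_sum hnn (Finset.mem_range.mpr (Nat.lt_succ_of_le hjK)))
    rw [if_pos (c := (good T L j τ ∧ (j = 0 ∨ ¬ good T L (j - 1) τ)) ∧ v ≤ 2 ^ j) ⟨⟨hj1.1, hc⟩, hj1.2.le⟩]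
    have h2 := Wt_mono hB h0 hj1.2.le
    have h3 : 0 ≤ (if good T L j τ ∧ ((2:ℝ) ^ j ≤ v ∧ v < 2 ^ (j + 1)) then Wt B (2 ^ (j + 1)) else 0) := by
      split_ifs
      · exact Wt_nonneg _ _
      · exact le_rfl
    linarith only [h2, h3]
  · push Not at hc
    obtain ⟨hj0, hgm⟩ := hc
    have hjm : j - 1 + 1 = j := Nat.succ_pred_eq_of_ne_zero hj0
    have hmin := Nat.find_min hex (m := j - 1) (by rw [← hj]; omega)
    have hv2 : (2:ℝ) ^ (j - 1) ≤ v := by
      by_contra hlt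
      exact hmin ⟨hgm, not_le.mp hlt⟩
    refine le_trans ?_ (Finset.single_le_sum hnn (Finset.mem_range.mpr (show j - 1 < K + 1 by omega)))
    rw [if_pos (c := good T L (j - 1) τ ∧ ((2:ℝ) ^ (j - 1) ≤ v ∧ v < 2 ^ (j - 1 + 1))) ⟨hgm, hv2, by rw [hjm]; exact hj1.2⟩, hjm]
    have h2 := Wt_mono hB h0 hj1.2.le
    have h3 : 0 ≤ (if (good T L (j - 1) τ ∧ (j - 1 = 0 ∨ ¬ good T L (j - 1 - 1) τ)) ∧ v ≤ 2 ^ (j - 1) then Wt B (2 ^ (j - 1)) else 0) := by
      split_ifs
      · exact Wt_nonneg _ _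
      · exact le_rfl
    linarith only [h2, h3]

lemma sum_half_pow (K : ℕ) : ∑ j ∈ Finset.range K, ((1:ℝ) / 2) ^ j ≤ 2 := by
  have h : ∑ j ∈ Finset.range K, ((1:ℝ) / 2) ^ j = 2 - 2 * (1 / 2) ^ K := by
    induction K with
    | zero => simp
    | succ K ih => rw [Finset.sum_range_succ, ih]; ring
  rw [h]
  have : (0:ℝ) < (1 / 2) ^ K := by positivity
  linarith

lemma cs_scales (K : ℕ) (a b : ℕ → ℝ) :
    (∑ j ∈ Finset.range (K + 1), (a j + b j)) ^ 2 ≤ ∑ j ∈ Finset.range (K + 1), 4 * 2 ^ j * (a j ^ 2 + b j ^ 2) := by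
  have h := Finset.sq_sum_div_le_sum_sq_div (Finset.range (K + 1)) (fun j => a j + b j) (g := fun j => ((1:ℝ) / 2) ^ j)
    (fun i _ => by positivity)
  have hS : 0 < ∑ j ∈ Finset.range (K + 1), ((1:ℝ) / 2) ^ j := by
    apply Finset.sum_pos
    · intro i _; positivity
    · exact ⟨0, by simp⟩
  rw [div_le_iff₀ hS] at h
  refine h.trans ?_
  have hnn : 0 ≤ ∑ i ∈ Finset.range (K + 1), (a i + b i) ^ 2 / ((1:ℝ) / 2) ^ i := by positivity
  calc (∑ i ∈ Finset.range (K + 1), (a i + b i) ^ 2 / ((1:ℝ) / 2) ^ i) * ∑ j ∈ Finset.range (K + 1), ((1:ℝ) / 2) ^ j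
      ≤ (∑ i ∈ Finset.range (K + 1), (a i + b i) ^ 2 / ((1:ℝ) / 2) ^ i) * 2 := by
        gcongr
        exact sum_half_pow _
    _ = ∑ i ∈ Finset.range (K + 1), 2 * 2 ^ i * (a i + b i) ^ 2 := by
        rw [Finset.sum_mul]
        refine Finset.sum_congr rfl fun i _ => ?_
        rw [one_div, inv_pow, div_inv_eq_mul]
        ring
    _ ≤ _ := by
        refine Finset.sum_le_sum fun i _ => ?_
        have h2 : (0:ℝ) < 2 ^ i := by positivity
        nlinarith only [h2, sq_nonneg (a i - b i)]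

/-- The dominating function. -/
noncomputable def Psi (T L B : ℝ) (j : ℕ) (τ : ℝ) : ℝ :=
  4 * 2 ^ j * ((Wt B (2 * 2 ^ j)) ^ 2 * (KK * (72 * AH T ((sg L (2 ^ j) : ℝ) + τ * I) (39 / 10 * 2 ^ j / L) +
      288 * ‖HT T ((sg L (2 ^ j) : ℝ) + τ * I)‖ ^ 2)) +
    (Wt B (2 ^ j)) ^ 2 * (if j = 0 then 600 + 400 * KK * AH T ((sg L 1 : ℝ) + τ * I) (5 / L) else
      400 * (2 ^ j) ^ 2 * KK * ((Real.exp (2 ^ j / 160))⁻¹ * AH T ((sg L (2 ^ j) : ℝ) + τ * I) ((4 * 2 ^ j + 1) / L) +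
        6 * Real.exp (2 ^ j / 160) * ‖HT T ((sg L (2 ^ j / 2) : ℝ) + τ * I)‖ ^ 2)))

/-- pointwise bound for local counts with weights -/
lemma pointwise_Q {T L B τ : ℝ} (hT : 3 ^ 40 ≤ T) (hL : L = Real.log T) (hB : 0 < B) {K : ℕ} (hK : good T L K τ)
    (hKL : (2:ℝ) ^ K ≤ L) (hτ : τ ∈ RA T) (F : Finset ℂ)
    (hF : ∀ ρ ∈ F, xi ρ = 0 ∧ 0 ≤ L * (ρ.re - 1 / 2) ∧ L * (ρ.re - 1 / 2) < 2 ^ K ∧ L * |ρ.im - τ| ≤ 1) :
    (∑ ρ ∈ F, (analyticOrderNatAt xi ρ : ℝ) * Wt B (L * (ρ.re - 1 / 2))) ^ 2 ≤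
      ∑ j ∈ Finset.range (K + 1), Psi T L B j τ := by
  classical
  have hT20 : (20:ℝ) ≤ T := le_trans (by norm_num) hT
  have hL40 : 40 ≤ L := by rw [hL]; exact log_T40 hT
  have h1 := split_scales hB hK F (fun ρ hρ => ⟨(hF ρ hρ).2.1, (hF ρ hρ).2.2.1⟩)
  have h0 : 0 ≤ ∑ ρ ∈ F, (analyticOrderNatAt xi ρ : ℝ) * Wt B (L * (ρ.re - 1 / 2)) :=
    Finset.sum_nonneg fun ρ _ => mul_nonneg (Nat.cast_nonneg _) (Wt_nonneg _ _)
  refine (pow_le_pow_left₀ h0 h1 2).trans ((cs_scales K _ _).trans ?_)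
  refine Finset.sum_le_sum fun j hj => ?_
  rw [Finset.mem_range] at hj
  have h2j : (2:ℝ) ^ j ≤ L := le_trans (pow_le_pow_right₀ (by norm_num) (by omega)) hKL
  have h1j : (1:ℝ) ≤ 2 ^ j := one_le_pow₀ (by norm_num)
  unfold Psi
  rw [mul_pow, mul_pow]
  rw [show (2:ℝ) ^ (j + 1) = 2 * 2 ^ j by ring]
  apply mul_le_mul_of_nonneg_left _ (by positivity)
  apply add_le_add
  · apply mul_le_mul_of_nonneg_left _ (by positivity)
    unfold Gc
    by_cases hg : good T L j τ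
    · rw [if_pos hg]
      apply classG hT20 hL hL40 h1j h2j hτ.1 hτ.2 hg
      intro ρ hρ
      rw [Finset.mem_filter] at hρ
      obtain ⟨hρF, hρ1, hρ2⟩ := hρ
      obtain ⟨hx, hv0, _, hu⟩ := hF ρ hρF
      refine ⟨hx, hρ1, ?_, hu⟩
      rw [pow_succ] at hρ2
      linarith only [hρ2]
    · rw [if_neg hg]
      have := AH_nonneg T ((sg L (2 ^ j) : ℝ) + τ * I) (39 / 10 * 2 ^ j / L)
      have := KK_pos
      rw [zero_pow two_ne_zero]
      positivity
  · apply mul_le_mul_of_nonneg_left _ (by positivity)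
    unfold Hc
    by_cases hg : good T L j τ ∧ (j = 0 ∨ ¬ good T L (j - 1) τ)
    · rw [if_pos hg]
      by_cases hj0 : j = 0
      · rw [if_pos hj0]
        subst hj0
        apply classH0 hT20 hL hL40 hτ.1 hτ.2
        · have := hg.1
          unfold good at this
          rwa [pow_zero] at this
        · intro ρ hρ
          rw [Finset.mem_filter] at hρ
          obtain ⟨hρF, hρ1⟩ := hρ
          obtain ⟨hx, hv0, _, hu⟩ := hF ρ hρF
          rw [pow_zero] at hρ1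
          exact ⟨hx, hv0, hρ1, hu⟩
      · rw [if_neg hj0]
        have hbad : ¬ good T L (j - 1) τ := by
          rcases hg.2 with h | h
          · exact absurd h hj0
          · exact h
        obtain ⟨i, rfl⟩ : ∃ i, j = i + 1 := ⟨j - 1, by omega⟩
        apply classH1 (lam := Real.exp (2 ^ (i + 1) / 160)) hT20 hL hL40 _ h2j (Real.one_le_exp (by positivity)) hτ.1 hτ.2 hg.1
        · unfold good at hbad
          rw [show (2:ℝ) ^ (i + 1) / 2 = 2 ^ (i + 1 - 1) by rw [pow_succ]; simp]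
          exact not_le.mp hbad
        · intro ρ hρ
          rw [Finset.mem_filter] at hρ
          obtain ⟨hρF, hρ1⟩ := hρ
          obtain ⟨hx, hv0, _, hu⟩ := hF ρ hρF
          exact ⟨hx, hv0, hρ1, hu⟩
        · have : (1:ℝ) ≤ 2 ^ i := one_le_pow₀ (by norm_num)
          rw [pow_succ]; linarith only [this]
    · rw [if_neg hg]
      split_ifs with hj0
      · have := AH_nonneg T ((sg L 1 : ℝ) + τ * I) (5 / L)
        have := KK_pos
        rw [zero_pow two_ne_zero]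
        positivity
      · have := AH_nonneg T ((sg L (2 ^ j) : ℝ) + τ * I) ((4 * 2 ^ j + 1) / L)
        have := KK_pos
        rw [zero_pow two_ne_zero]
        positivity

end Pool.Agent.Helper57.LH

end

/-! ### Helper57.LH.LocE -/

section

namespace Pool.Agent.Helper57.LH

open Complex Set MeasureTheory Filter Topology Metric

open Pool.Agent.Helper57.Zeta

open scoped ENNReal

lemma dec_le_one {T : ℝ} (hT : 1 ≤ T) (σ : ℝ) : dec T σ ≤ 1 := by
  unfold dec
  apply Real.exp_le_one_iff.mpr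
  have := Real.log_nonneg hT
  have h2 : 0 ≤ min (max (σ - 1 / 2) 0) (3 / 2) := le_min (le_max_right _ _) (by norm_num)
  have := mul_nonneg (div_nonneg this (by norm_num : (0:ℝ) ≤ 120)) h2
  linarith

lemma dec_half {T x : ℝ} (hx : 0 ≤ x) (hx2 : x ≤ 3 / 2) : dec T (1 / 2 + x) = Real.exp (-(Real.log T / 120 * x)) := by
  unfold dec
  rw [show 1 / 2 + x - 1 / 2 = x by ring, max_eq_left hx, min_eq_left hx2]

/-- polynomial versus exponential -/
lemma poly_exp {w : ℝ} (hw : 1 ≤ w) {k : ℕ} (hk : k ≤ 7) :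
    w ^ k * Real.exp (-(w / 2400)) ≤ (40320 * 2400 ^ 8) * (1 / w) := by
  have h := Real.pow_div_factorial_le_exp (w / 2400) (by positivity) 8
  have h8 : ((Nat.factorial 8 : ℕ) : ℝ) = 40320 := by norm_num [Nat.factorial]
  rw [h8, div_pow, div_div, div_le_iff₀ (by positivity)] at h
  have hw0 : 0 < w := by linarith only [hw]
  have h2 : w ^ k ≤ w ^ 7 := pow_le_pow_right₀ hw hk
  have h3 : w ^ 7 * Real.exp (-(w / 2400)) ≤ (40320 * 2400 ^ 8) * (1 / w) := by
    rw [Real.exp_neg, ← div_eq_mul_inv, div_le_iff₀ (Real.exp_pos _), mul_one_div, div_mul_eq_mul_div, le_div_iff₀ hw0]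
    calc w ^ 7 * w = w ^ 8 := by ring
      _ ≤ _ := by linarith only [h]
  refine le_trans ?_ h3
  gcongr

/-- constant -/
noncomputable def C8 : ℝ := 40320 * 2400 ^ 8

lemma C8_pos : 0 < C8 := by unfold C8; positivity

lemma WtG_le {B w : ℝ} (hB : 9600 ≤ B) (hw : 1 ≤ w) :
    (Wt B (2 * w)) ^ 2 ≤ 16 / B ^ 4 * (w ^ 4 * Real.exp (w / 2400)) := by
  unfold Wt
  have hB0 : 0 < B := by linarith
  rw [mul_pow, ← Real.exp_nat_mul]
  have h1 : Real.exp (((2:ℕ):ℝ) * (2 * w / B)) ≤ Real.exp (w / 2400) := by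
    apply Real.exp_le_exp.mpr
    rw [show ((2:ℕ):ℝ) * (2 * w / B) = 4 * w / B by push_cast; ring, div_le_div_iff₀ hB0 (by norm_num)]
    nlinarith only [hB, hw]
  calc ((2 * w / B) ^ 2) ^ 2 * Real.exp (((2:ℕ):ℝ) * (2 * w / B)) ≤ ((2 * w / B) ^ 2) ^ 2 * Real.exp (w / 2400) := by gcongr
    _ = _ := by
      field_simp
      ring

lemma WtH_le {B w : ℝ} (hB : 9600 ≤ B) (hw : 1 ≤ w) :
    (Wt B w) ^ 2 ≤ 1 / B ^ 4 * (w ^ 4 * Real.exp (w / 4800)) := by
  unfold Wt
  have hB0 : 0 < B := by linarith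
  rw [mul_pow, ← Real.exp_nat_mul]
  have h1 : Real.exp (((2:ℕ):ℝ) * (w / B)) ≤ Real.exp (w / 4800) := by
    apply Real.exp_le_exp.mpr
    rw [show ((2:ℕ):ℝ) * (w / B) = 2 * w / B by push_cast; ring, div_le_div_iff₀ hB0 (by norm_num)]
    nlinarith only [hB, hw]
  calc ((w / B) ^ 2) ^ 2 * Real.exp (((2:ℕ):ℝ) * (w / B)) ≤ ((w / B) ^ 2) ^ 2 * Real.exp (w / 4800) := by gcongr
    _ = _ := by
      field_simp

lemma ion {f : ℝ → ℝ} (hf : Continuous f) (T : ℝ) : IntegrableOn f (RA T) :=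
  hf.continuousOn.integrableOn_compact (RA_compact T)

/-- constant -/
noncomputable def CP : ℝ := 23040 * KK * CE * C8 + 11200 * KK * CE * C8 + 8 * (3600 + 400 * KK * CE)

lemma CP_pos : 0 < CP := by
  unfold CP
  have := KK_pos
  have := C8_pos
  have := CE_one
  positivity

lemma Psi_cont {T L B : ℝ} (hL40 : 40 ≤ L) (j : ℕ) :
    Continuous (fun τ => Psi T L B j τ) := by
  have hL0 : 0 < L := by linarith
  have hw : (1:ℝ) ≤ 2 ^ j := one_le_pow₀ (by norm_num)
  set w : ℝ := 2 ^ j with hwdef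
  have h1L : 1 / L ≤ 1 / 40 := by gcongr
  have hwLp : 0 < w / L := by positivity
  have hsw : sg L w = 1 / 2 + 4 * (w / L) := by unfold sg; ring
  have c1 : Continuous (fun τ : ℝ => AH T ((sg L w : ℝ) + τ * I) (39 / 10 * w / L)) := by
    apply AH_cont T (by positivity)
    rw [hsw]
    have : 39 / 10 * w / L = 39 / 10 * (w / L) := by ring
    linarith only [hwLp, this]
  have c2 : Continuous (fun τ : ℝ => ‖HT T ((sg L w : ℝ) + τ * I)‖ ^ 2) := (HT_cont T (by rw [hsw]; linarith only [hwLp])).norm.pow 2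
  have c3 : Continuous (fun τ : ℝ => AH T ((sg L 1 : ℝ) + τ * I) (5 / L)) := by
    apply AH_cont T (by positivity)
    have h1 : sg L 1 = 1 / 2 + 4 * (1 / L) := by unfold sg; ring
    have : 5 / L = 5 * (1 / L) := by ring
    rw [h1]
    linarith only [h1L, this]
  have c4 : Continuous (fun τ : ℝ => AH T ((sg L w : ℝ) + τ * I) ((4 * w + 1) / L)) := by
    apply AH_cont T (by positivity)
    rw [hsw]
    have : (4 * w + 1) / L = 4 * (w / L) + 1 / L := by ring
    linarith only [h1L, this]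
  have c5 : Continuous (fun τ : ℝ => ‖HT T ((sg L (w / 2) : ℝ) + τ * I)‖ ^ 2) := by
    have h1 : sg L (w / 2) = 1 / 2 + 2 * (w / L) := by unfold sg; ring
    exact (HT_cont T (by rw [h1]; linarith only [hwLp])).norm.pow 2
  unfold Psi
  simp only [← hwdef]
  apply continuous_const.mul
  apply Continuous.add
  · exact continuous_const.mul (continuous_const.mul ((continuous_const.mul c1).add (continuous_const.mul c2)))
  · apply continuous_const.mul
    by_cases hj : j = 0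
    · simp only [hj, if_true]
      exact continuous_const.add (continuous_const.mul c3)
    · simp only [hj, if_false]
      exact continuous_const.mul ((continuous_const.mul c4).add (continuous_const.mul c5))

lemma Psi_nonneg (T L B : ℝ) (j : ℕ) (τ : ℝ) : 0 ≤ Psi T L B j τ := by
  unfold Psi
  have hK := KK_pos
  have h1 := AH_nonneg T ((sg L (2 ^ j) : ℝ) + τ * I) (39 / 10 * 2 ^ j / L)
  have h2 := AH_nonneg T ((sg L 1 : ℝ) + τ * I) (5 / L)
  have h3 := AH_nonneg T ((sg L (2 ^ j) : ℝ) + τ * I) ((4 * 2 ^ j + 1) / L)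
  apply mul_nonneg (by positivity)
  apply add_nonneg (by positivity)
  apply mul_nonneg (by positivity)
  split_ifs <;> positivity

lemma lin2 {f g : ℝ → ℝ} (hf : Continuous f) (hg : Continuous g) (T a b : ℝ) :
    ∫ τ in RA T, (a * f τ + b * g τ) = a * (∫ τ in RA T, f τ) + b * ∫ τ in RA T, g τ := by
  have h := integral_add (μ := volume.restrict (RA T)) (f := fun τ => a * f τ) (g := fun τ => b * g τ)
    (ion (continuous_const.mul hf) T) (ion (continuous_const.mul hg) T)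
  rw [h, integral_const_mul, integral_const_mul]

lemma calcG {w B T I1 I2 : ℝ} (hB : 9600 ≤ B) (hw : 1 ≤ w) (hT : 0 < T)
    (h1 : I1 ≤ CE * T * Real.exp (-(w / 1200))) (h2 : I2 ≤ CE * T * Real.exp (-(w / 1200)))
    (h10 : 0 ≤ I1) (h20 : 0 ≤ I2) :
    4 * w * ((Wt B (2 * w)) ^ 2 * (KK * (72 * I1 + 288 * I2))) ≤ 23040 * KK * CE * C8 * (T / B ^ 4) * (1 / w) := by
  have hWG := WtG_le hB hw
  have hCE := CE_one
  have hKK := KK_pos
  have hC8 := C8_pos
  calc 4 * w * ((Wt B (2 * w)) ^ 2 * (KK * (72 * I1 + 288 * I2)))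
        ≤ 4 * w * ((16 / B ^ 4 * (w ^ 4 * Real.exp (w / 2400))) * (KK *
        (72 * (CE * T * Real.exp (-(w / 1200))) + 288 * (CE * T * Real.exp (-(w / 1200)))))) := by
          gcongr
      _ = 23040 * KK * CE * (T / B ^ 4) * (w ^ 5 * (Real.exp (w / 2400) * Real.exp (-(w / 1200)))) := by ring
      _ = 23040 * KK * CE * (T / B ^ 4) * (w ^ 5 * Real.exp (-(w / 2400))) := by
          rw [← Real.exp_add]
          have : w / 2400 + -(w / 1200) = -(w / 2400) := by ring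
          rw [this]
      _ ≤ 23040 * KK * CE * (T / B ^ 4) * (C8 * (1 / w)) := by
          have := poly_exp hw (k := 5) (by norm_num)
          unfold C8
          gcongr
      _ = _ := by ring

lemma calcH1 {w B T I4 I5 : ℝ} (hB : 9600 ≤ B) (hw : 1 ≤ w) (hT : 0 < T)
    (h1 : I4 ≤ CE * T) (h2 : I5 ≤ CE * T * Real.exp (-(w / 80)))
    (h10 : 0 ≤ I4) (h20 : 0 ≤ I5) :
    4 * w * ((Wt B w) ^ 2 * (400 * w ^ 2 * KK * ((Real.exp (w / 160))⁻¹ * I4 + 6 * Real.exp (w / 160) * I5)))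
      ≤ 11200 * KK * CE * C8 * (T / B ^ 4) * (1 / w) := by
  have hWH := WtH_le hB hw
  have hCE := CE_one
  have hKK := KK_pos
  have hC8 := C8_pos
  calc 4 * w * ((Wt B w) ^ 2 * (400 * w ^ 2 * KK * ((Real.exp (w / 160))⁻¹ * I4 + 6 * Real.exp (w / 160) * I5)))
          ≤ 4 * w * ((1 / B ^ 4 * (w ^ 4 * Real.exp (w / 4800))) * (400 * w ^ 2 * KK * ((Real.exp (w / 160))⁻¹ * (CE * T) +
        6 * Real.exp (w / 160) * (CE * T * Real.exp (-(w / 80)))))) := by
            gcongr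
        _ = 1600 * KK * CE * (T / B ^ 4) * (w ^ 7 * (Real.exp (w / 4800) * Real.exp (-(w / 160)) + 6 * (Real.exp (w / 4800) * Real.exp (w / 160) * Real.exp (-(w / 80))))) := by
            rw [← Real.exp_neg]; ring
        _ = 1600 * KK * CE * (T / B ^ 4) * (w ^ 7 * (7 * Real.exp (w / 4800 - w / 160))) := by
            rw [← Real.exp_add, ← Real.exp_add, ← Real.exp_add]
            rw [show w / 4800 + -(w / 160) = w / 4800 - w / 160 by ring,
              show w / 4800 + w / 160 + -(w / 80) = w / 4800 - w / 160 by ring]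
            ring
        _ ≤ 1600 * KK * CE * (T / B ^ 4) * (w ^ 7 * (7 * Real.exp (-(w / 2400)))) := by
            gcongr
            linarith only [hw]
        _ = 11200 * KK * CE * (T / B ^ 4) * (w ^ 7 * Real.exp (-(w / 2400))) := by ring
        _ ≤ 11200 * KK * CE * (T / B ^ 4) * (C8 * (1 / w)) := by
            have := poly_exp hw (k := 7) (by norm_num)
            unfold C8
            gcongr
        _ = _ := by ring

lemma calcH0 {B T I0 I3 : ℝ} (hB : 9600 ≤ B) (hT : 0 < T)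
    (h1 : I0 ≤ 6 * T) (h2 : I3 ≤ CE * T) (h10 : 0 ≤ I0) (h20 : 0 ≤ I3) :
    4 * 1 * ((Wt B 1) ^ 2 * (600 * I0 + 400 * KK * I3)) ≤ 8 * (3600 + 400 * KK * CE) * (T / B ^ 4) := by
  have hWH := WtH_le hB (w := 1) le_rfl
  have hCE := CE_one
  have hKK := KK_pos
  have hexp : Real.exp (1 / 4800) ≤ 2 := by
    have h2 : Real.exp (1 / 4800) ≤ Real.exp (1 / 2) := Real.exp_le_exp.mpr (by norm_num)
    have h3 : Real.exp (1 / 2) ^ 2 = Real.exp 1 := by rw [← Real.exp_nat_mul]; norm_num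
    have h4 := Real.exp_one_lt_d9
    have h5 := Real.exp_pos (1 / 2)
    nlinarith only [h2, h3, h4, h5]
  have hW2 : (Wt B 1) ^ 2 ≤ 1 / B ^ 4 * (1 ^ 4 * 2) := by
    refine hWH.trans ?_
    gcongr
  calc 4 * 1 * ((Wt B 1) ^ 2 * (600 * I0 + 400 * KK * I3))
      ≤ 4 * 1 * ((1 / B ^ 4 * (1 ^ 4 * 2)) * (600 * (6 * T) + 400 * KK * (CE * T))) := by
        gcongr
    _ = _ := by ring

lemma int_Psi {T L B : ℝ} (hT : 3 ^ 40 ≤ T) (hL : L = Real.log T) (hB : 9600 ≤ B) {j : ℕ} (hj : (2:ℝ) ^ j ≤ L) :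
    ∫ τ in RA T, Psi T L B j τ ≤ CP * (T / B ^ 4) * (1 / 2) ^ j := by
  have hT20 : (20:ℝ) ≤ T := le_trans (by norm_num) hT
  have hL40 : 40 ≤ L := by rw [hL]; exact log_T40 hT
  have hL0 : 0 < L := by linarith
  have hB0 : 0 < B := by linarith only [hB]
  have hT0 : 0 < T := by linarith only [hT]
  have hw : (1:ℝ) ≤ 2 ^ j := one_le_pow₀ (by norm_num)
  have hinv : ((1:ℝ) / 2) ^ j = 1 / 2 ^ j := by rw [one_div_pow]
  rw [hinv]
  have h1L : 1 / L ≤ 1 / 40 := by gcongr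
  have h1Lp : 0 < 1 / L := by positivity
  have hCE := CE_one
  have hKK := KK_pos
  have hC8 := C8_pos
  have hwL : (2:ℝ) ^ j / L ≤ 1 := by rw [div_le_one hL0]; exact hj
  have hwLp : 0 < (2:ℝ) ^ j / L := by positivity
  have e0 : ∀ τ, Psi T L B j τ =
    4 * 2 ^ j * ((Wt B (2 * 2 ^ j)) ^ 2 * (KK * (72 * AH T ((sg L (2 ^ j) : ℝ) + τ * I) (39 / 10 * 2 ^ j / L) +
      288 * ‖HT T ((sg L (2 ^ j) : ℝ) + τ * I)‖ ^ 2)) +
    (Wt B (2 ^ j)) ^ 2 * (if j = 0 then 600 + 400 * KK * AH T ((sg L 1 : ℝ) + τ * I) (5 / L) else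
      400 * (2 ^ j) ^ 2 * KK * ((Real.exp (2 ^ j / 160))⁻¹ * AH T ((sg L (2 ^ j) : ℝ) + τ * I) ((4 * 2 ^ j + 1) / L) +
        6 * Real.exp (2 ^ j / 160) * ‖HT T ((sg L (2 ^ j / 2) : ℝ) + τ * I)‖ ^ 2))) := fun τ => rfl
  have hw0 : j = 0 → (2:ℝ) ^ j = 1 := fun h => by rw [h, pow_zero]
  generalize (2:ℝ) ^ j = w at *
  have hsw : sg L w = 1 / 2 + 4 * (w / L) := by unfold sg; ring
  have eR1 : 39 / 10 * w / L = 39 / 10 * (w / L) := by ring
  have eR4 : (4 * w + 1) / L = 4 * (w / L) + 1 / L := by ring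
  have hs5 : sg L (w / 2) = 1 / 2 + 2 * (w / L) := by unfold sg; ring
  have hs1 : sg L 1 = 1 / 2 + 4 * (1 / L) := by unfold sg; ring
  have eR3 : 5 / L = 5 * (1 / L) := by ring
  have c1 : Continuous (fun τ : ℝ => AH T ((sg L w : ℝ) + τ * I) (39 / 10 * w / L)) := by
    apply AH_cont T (by positivity)
    rw [hsw, eR1]; linarith only [h1L, h1Lp, hwLp]
  have c2 : Continuous (fun τ : ℝ => ‖HT T ((sg L w : ℝ) + τ * I)‖ ^ 2) := (HT_cont T (by rw [hsw]; linarith only [h1L, h1Lp, hwLp])).norm.pow 2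
  have c3 : Continuous (fun τ : ℝ => AH T ((sg L 1 : ℝ) + τ * I) (5 / L)) := by
    apply AH_cont T (by positivity)
    rw [hs1, eR3]
    linarith only [h1L, h1Lp]
  have c4 : Continuous (fun τ : ℝ => AH T ((sg L w : ℝ) + τ * I) ((4 * w + 1) / L)) := by
    apply AH_cont T (by positivity)
    rw [hsw, eR4]
    linarith only [h1L, h1Lp]
  have c5 : Continuous (fun τ : ℝ => ‖HT T ((sg L (w / 2) : ℝ) + τ * I)‖ ^ 2) :=
    (HT_cont T (by rw [hs5]; linarith only [h1L, h1Lp, hwLp])).norm.pow 2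
  -- the integrals
  have hdec1 : dec T (1 / 2 + 1 / 10 * (w / L)) = Real.exp (-(w / 1200)) := by
    rw [dec_half (by positivity) (by linarith only [h1L, h1Lp, hwL]), ← hL]
    congr 1
    field_simp
    ring
  have hdec5 : dec T (1 / 2 + 3 / 2 * (w / L)) = Real.exp (-(w / 80)) := by
    rw [dec_half (by positivity) (by linarith only [hwL]), ← hL]
    congr 1
    field_simp
    ring
  have i1 : ∫ τ in RA T, AH T ((sg L w : ℝ) + τ * I) (39 / 10 * w / L) ≤ CE * T * Real.exp (-(w / 1200)) := by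
    have h := setint_AH (σ := sg L w) (R := 39 / 10 * w / L) hT (by positivity) (by rw [hsw, eR1, ← hL]; linarith only [h1Lp, hwLp]) (by rw [hsw, eR1]; linarith only [h1L, h1Lp, hwL])
    rw [show sg L w - 39 / 10 * w / L = 1 / 2 + 1 / 10 * (w / L) by rw [hsw]; ring, hdec1] at h
    exact h
  have i2 : ∫ τ in RA T, ‖HT T ((sg L w : ℝ) + τ * I)‖ ^ 2 ≤ CE * T * Real.exp (-(w / 1200)) := by
    have h := setint_H (σ := sg L w) hT (by rw [hsw, ← hL]; linarith only [h1Lp, hwLp]) (by rw [hsw]; linarith only [h1L, h1Lp, hwL])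
    refine h.trans ?_
    rw [← hdec1]
    have : dec T (sg L w) ≤ dec T (1 / 2 + 1 / 10 * (w / L)) := dec_anti (by linarith only [hT, h1L, h1Lp]) (by rw [hsw]; linarith only [hwLp])
    gcongr
  have i3 : ∫ τ in RA T, AH T ((sg L 1 : ℝ) + τ * I) (5 / L) ≤ CE * T := by
    have h := setint_AH (σ := sg L 1) (R := 5 / L) hT (by positivity) (by rw [hs1, eR3, ← hL]; linarith only []) (by rw [hs1, eR3]; linarith only [h1L, h1Lp])
    refine h.trans ?_
    calc CE * T * dec T (sg L 1 - 5 / L) ≤ CE * T * 1 := by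
          have := dec_le_one (T := T) (by linarith only [hT, h1L, h1Lp]) (sg L 1 - 5 / L)
          gcongr
      _ = _ := by ring
  have i4 : ∫ τ in RA T, AH T ((sg L w : ℝ) + τ * I) ((4 * w + 1) / L) ≤ CE * T := by
    have h := setint_AH (σ := sg L w) (R := (4 * w + 1) / L) hT (by positivity) (by rw [hsw, eR4, ← hL]; linarith only []) (by rw [hsw, eR4]; linarith only [h1L, h1Lp, hwL])
    refine h.trans ?_
    calc CE * T * dec T (sg L w - (4 * w + 1) / L) ≤ CE * T * 1 := by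
          have := dec_le_one (T := T) (by linarith only [hT, h1L, h1Lp]) (sg L w - (4 * w + 1) / L)
          gcongr
      _ = _ := by ring
  have i5 : ∫ τ in RA T, ‖HT T ((sg L (w / 2) : ℝ) + τ * I)‖ ^ 2 ≤ CE * T * Real.exp (-(w / 80)) := by
    have h := setint_H (σ := sg L (w / 2)) hT (by rw [hs5, ← hL]; linarith only [h1Lp, hwLp]) (by rw [hs5]; linarith only [h1L, h1Lp, hwL])
    refine h.trans ?_
    rw [← hdec5]
    have : dec T (sg L (w / 2)) ≤ dec T (1 / 2 + 3 / 2 * (w / L)) := dec_anti (by linarith only [hT, h1L, h1Lp]) (by rw [hs5]; linarith only [hwLp])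
    gcongr
  -- split
  have hG := calcG hB hw hT0 i1 i2 (integral_nonneg fun _ => AH_nonneg _ _ _) (integral_nonneg fun _ => sq_nonneg _)
  rw [← lin2 c1 c2, ← integral_const_mul, ← integral_const_mul, ← integral_const_mul] at hG
  simp_rw [e0, mul_add (4 * w)]
  have cG : Continuous (fun τ : ℝ => 4 * w * ((Wt B (2 * w)) ^ 2 * (KK * (72 * AH T ((sg L w : ℝ) + τ * I) (39 / 10 * w / L) +
      288 * ‖HT T ((sg L w : ℝ) + τ * I)‖ ^ 2)))) :=
    continuous_const.mul (continuous_const.mul (continuous_const.mul ((continuous_const.mul c1).add (continuous_const.mul c2))))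
  by_cases hj0 : j = 0
  · have hw1 : w = 1 := hw0 hj0
    simp only [hj0, if_true]
    have hH := calcH0 hB hT0 (RA_vol hT0.le) i3 (integral_nonneg fun _ => zero_le_one) (integral_nonneg fun _ => AH_nonneg _ _ _)
    rw [← lin2 (f := fun _ => (1:ℝ)) continuous_const c3, ← integral_const_mul, ← integral_const_mul] at hH
    have cH : Continuous (fun τ : ℝ => 4 * w * ((Wt B w) ^ 2 * (600 + 400 * KK * AH T ((sg L 1 : ℝ) + τ * I) (5 / L)))) :=
      continuous_const.mul (continuous_const.mul (continuous_const.add (continuous_const.mul c3)))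
    have hadd := integral_add (ion cG T) (ion cH T)
    rw [hadd]
    have hH' : ∫ τ in RA T, 4 * w * ((Wt B w) ^ 2 * (600 + 400 * KK * AH T ((sg L 1 : ℝ) + τ * I) (5 / L))) ≤
        8 * (3600 + 400 * KK * CE) * (T / B ^ 4) * (1 / w) := by
      rw [hw1, div_one]
      simp only [mul_one] at hH ⊢
      exact hH
    refine (add_le_add hG hH').trans ?_
    unfold CP
    have : 0 ≤ 11200 * KK * CE * C8 * (T / B ^ 4) * (1 / w) := by positivity
    linarith only [this]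
  · simp only [hj0, if_false]
    have hH := calcH1 hB hw hT0 i4 i5 (integral_nonneg fun _ => AH_nonneg _ _ _) (integral_nonneg fun _ => sq_nonneg _)
    rw [← lin2 c4 c5, ← integral_const_mul, ← integral_const_mul, ← integral_const_mul] at hH
    have cH : Continuous (fun τ : ℝ => 4 * w * ((Wt B w) ^ 2 * (400 * w ^ 2 * KK * ((Real.exp (w / 160))⁻¹ * AH T ((sg L w : ℝ) + τ * I) ((4 * w + 1) / L) +
        6 * Real.exp (w / 160) * ‖HT T ((sg L (w / 2) : ℝ) + τ * I)‖ ^ 2)))) :=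
      continuous_const.mul (continuous_const.mul (continuous_const.mul ((continuous_const.mul c4).add (continuous_const.mul c5))))
    have hadd := integral_add (ion cG T) (ion cH T)
    rw [hadd]
    refine (add_le_add hG hH).trans ?_
    unfold CP
    have : 0 ≤ 8 * (3600 + 400 * KK * CE) * (T / B ^ 4) * (1 / w) := by positivity
    linarith only [this]

/-- Bound for the weighted local counts of zeros to the right of the critical line. -/
theorem Qbound : ∃ C : ℝ, 0 < C ∧ ∃ T0 : ℝ, 3 ^ 40 ≤ T0 ∧ ∀ T : ℝ, T0 ≤ T → ∀ B : ℝ, 9600 ≤ B →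
    ∃ Ψ : ℝ → ℝ, Continuous Ψ ∧ (∀ τ, 0 ≤ Ψ τ) ∧ ∫ τ in RA T, Ψ τ ≤ C * (T / B ^ 4) ∧
    ∀ τ ∈ RA T, ∀ F : Finset ℂ, (∀ ρ ∈ F, xi ρ = 0 ∧ 1 / 2 ≤ ρ.re ∧ Real.log T * |ρ.im - τ| ≤ 1) →
      (∑ ρ ∈ F, (analyticOrderNatAt xi ρ : ℝ) * Wt B (Real.log T * (ρ.re - 1 / 2))) ^ 2 ≤ Ψ τ := by
  have hCP := CP_pos
  refine ⟨2 * CP, by positivity, max (3 ^ 40) ((2 * Z32 ^ 2 + 1) ^ 160), le_max_left _ _, ?_⟩
  intro T hT B hB
  have hT1 : 3 ^ 40 ≤ T := (le_max_left _ _).trans hT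
  have hT2 : (2 * Z32 ^ 2 + 1) ^ 160 ≤ T := (le_max_right _ _).trans hT
  have hT20 : (20:ℝ) ≤ T := le_trans (by norm_num) hT1
  have hB0 : 0 < B := by linarith only [hB]
  set L := Real.log T with hL
  have hL40 : 40 ≤ L := log_T40 hT1
  have hL0 : 0 < L := by linarith only [hL40]
  obtain ⟨n, hn1, hn2⟩ := exists_nat_pow_near (show (1:ℝ) ≤ L / 2 by linarith only [hL40]) (show (1:ℝ) < 2 by norm_num)
  set K := n + 1 with hK
  have hKL : (2:ℝ) ^ K ≤ L := by rw [hK, pow_succ]; linarith only [hn1]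
  refine ⟨fun τ => ∑ j ∈ Finset.range (K + 1), Psi T L B j τ, ?_, ?_, ?_, ?_⟩
  · exact continuous_finsetSum _ fun j _ => Psi_cont hL40 j
  · intro τ
    exact Finset.sum_nonneg fun j _ => Psi_nonneg _ _ _ _ _
  · rw [integral_finsetSum _ (fun j _ => ion (Psi_cont hL40 j) T)]
    calc ∑ j ∈ Finset.range (K + 1), ∫ τ in RA T, Psi T L B j τ
        ≤ ∑ j ∈ Finset.range (K + 1), CP * (T / B ^ 4) * (1 / 2) ^ j := by
          refine Finset.sum_le_sum fun j hj => ?_
          rw [Finset.mem_range] at hj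
          apply int_Psi hT1 hL hB
          exact le_trans (pow_le_pow_right₀ (by norm_num) (by omega)) hKL
      _ = CP * (T / B ^ 4) * ∑ j ∈ Finset.range (K + 1), (1 / 2) ^ j := by rw [Finset.mul_sum]
      _ ≤ CP * (T / B ^ 4) * 2 := by
          gcongr
          exact sum_half_pow _
      _ = _ := by ring
  · intro τ hτ F hF
    have hKgood : good T L K τ := by
      unfold good
      have hre : 2 ≤ (((sg L (2 ^ K) : ℝ) : ℂ) + τ * I).re := by
        have e1 : (((sg L (2 ^ K) : ℝ) : ℂ) + τ * I).re = 1 / 2 + 4 * (2 ^ K / L) := by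
          rw [Complex.add_re, Complex.ofReal_re, Complex.mul_I_re, Complex.ofReal_im]
          unfold sg
          ring
        rw [e1]
        have : 1 / 2 ≤ 2 ^ K / L := by
          rw [le_div_iff₀ hL0]; linarith only [hn2]
        linarith only [this]
      have hX1 : 1 < XT T := Real.one_lt_rpow (by linarith only [hT1]) (by norm_num)
      have h1 := right_bound hX1 hre
      unfold ET
      refine h1.trans ?_
      have hZ := Z32_pos
      have h2 : 2 * Z32 ^ 2 ≤ XT T ^ (1 / 4 : ℝ) := by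
        unfold XT
        rw [← Real.rpow_mul (by linarith only [hT1])]
        have h3 : ((2 * Z32 ^ 2 + 1) ^ 160) ^ ((1 / 40 : ℝ) * (1 / 4)) ≤ T ^ ((1 / 40 : ℝ) * (1 / 4)) := by
          gcongr
        have h4 : ((2 * Z32 ^ 2 + 1) ^ 160) ^ ((1 / 40 : ℝ) * (1 / 4)) = 2 * Z32 ^ 2 + 1 := by
          rw [← Real.rpow_natCast, ← Real.rpow_mul (by positivity)]
          norm_num
        linarith only [h3, h4]
      rw [Real.rpow_neg (by linarith only [hX1]), ← div_eq_mul_inv, div_le_iff₀ (Real.rpow_pos_of_pos (by linarith only [hX1]) _)]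
      linarith only [h2]
    apply pointwise_Q hT1 hL hB0 hKgood hKL hτ F
    intro ρ hρ
    obtain ⟨h1, h2, h3⟩ := hF ρ hρ
    have h4 := (xi_eq_zero_iff.mp h1).2.1
    refine ⟨h1, mul_nonneg hL0.le (by linarith only [h2]), ?_, h3⟩
    rw [hK]
    nlinarith only [hL40, hn2, h4]

end Pool.Agent.Helper57.LH

end
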