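import Pool.Agent.Helper57.M.C
import Pool.Agent.Helper57.M.D

/-!
# Merged library file (short import chain), part E
-/

/-! ### Helper57.LH.EOne -/

section

namespace Pool.Agent.Helper57.LH

open Set MeasureTheory Filter Topology

open Pool.Agent.Helper57.Zeta

lemma loc_count (F : Finset ZS) (τ : ℝ) (h : ∀ ρ ∈ F, |(ρ:ℂ).im - τ| ≤ 1) : ∑ ρ ∈ F, mx ρ ≤ 5 / 2 * Afun τ := by
  have h1 : ∑ ρ ∈ F, fz ρ τ ≤ Afun τ := sum_le_hasSum F (fun i _ => fz_nonneg i τ) (fz_hasSum τ)
  have h2 : ∑ ρ ∈ F, mx ρ ≤ ∑ ρ ∈ F, 5 / 2 * fz ρ τ := by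
    refine Finset.sum_le_sum fun ρ hρ => ?_
    have hr := zs_re ρ
    have hu := h ρ hρ
    unfold fz
    set a := 2 - (ρ:ℂ).re with ha
    have ha1 : 1 < a := by rw [ha]; linarith only [hr]
    have ha2 : a < 2 := by rw [ha]; linarith only [hr]
    have hm := mx_nonneg (ρ:ℂ)
    have h3 : (τ - (ρ:ℂ).im) ^ 2 ≤ 1 := by
      rw [← sq_abs, abs_sub_comm]
      nlinarith only [hr, hu, abs_nonneg ((ρ:ℂ).im - τ)]
    have h4 : 2 / 5 ≤ a / (a ^ 2 + (τ - (ρ:ℂ).im) ^ 2) := by
      rw [div_le_div_iff₀ (by norm_num) (by positivity)]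
      nlinarith only [hr, h3]
    nlinarith only [hr, hm, h4]
  rw [← Finset.mul_sum] at h2
  linarith

lemma Kd_cont (X : ℝ) : Continuous (Kd X) := by
  unfold Kd
  apply Continuous.inv₀ (by fun_prop)
  intro w; positivity

lemma Kd_pos (X w : ℝ) : 0 < Kd X w := by unfold Kd; positivity

lemma Kd_integrable {X : ℝ} (hX : 0 < X) : Integrable (Kd X) := by
  unfold Kd
  exact integrable_inv_one_add_sq.comp_mul_left' hX.ne'

lemma Kd_integral {X : ℝ} (hX : 0 < X) : ∫ w, Kd X w = Real.pi / X := by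
  unfold Kd
  have h := Measure.integral_comp_mul_left (fun x : ℝ => (1 + x ^ 2)⁻¹) X
  rw [h, integral_univ_inv_one_add_sq, abs_of_pos (by positivity), smul_eq_mul]
  ring

lemma Kd_smooth {L B X t τ γ : ℝ} (hL : 0 < L) (hB : 1 ≤ B) (hX : X = L / B) (h : |τ - γ| ≤ 1 / L) :
    Kd X (t - γ) ≤ 3 * Kd X (t - τ) := by
  unfold Kd
  have h1 : (X * (γ - τ)) ^ 2 ≤ 1 := by
    rw [← sq_abs, abs_mul, abs_sub_comm, hX, abs_of_pos (by positivity)]
    have h2 : L / B * |τ - γ| ≤ L / B * (1 / L) := by gcongr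
    have h3 : L / B * (1 / L) = 1 / B := by field_simp
    have h4 : 1 / B ≤ 1 := by rw [div_le_one (by linarith only [hB])]; exact hB
    have h5 : 0 ≤ L / B * |τ - γ| := by positivity
    nlinarith only [h2, h3, h4, h5]
  rw [← div_eq_mul_inv, inv_eq_one_div, div_le_div_iff₀ (by positivity) (by positivity)]
  nlinarith only [h1, sq_nonneg (X * (t - γ) - X * (γ - τ)), sq_nonneg (X * (t - γ))]

/-- integrable majorant -/
noncomputable def wf (τ : ℝ) : ℝ := (1 + ‖τ‖) ^ (-(5/4) : ℝ)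

lemma wf_integrable : Integrable wf := integrable_one_add_norm (by simp; norm_num)

lemma wf_nonneg (τ : ℝ) : 0 ≤ wf τ := by unfold wf; positivity

/-- constant -/
noncomputable def C1 : ℝ := ∫ τ, wf τ

lemma C1_nonneg : 0 ≤ C1 := integral_nonneg wf_nonneg

lemma far_bound {X T t τ : ℝ} (hX : 1 ≤ X) (ht : 20 ≤ t) (htT : t ≤ T) (hτ : τ ∉ RA T) :
    Kd X (t - τ) * wg τ ≤ 16 * t ^ (-(1/4) : ℝ) * wf τ := by
  have ht0 : 0 < t := by linarith
  have hd : (t + |τ|) / 4 ≤ |t - τ| := by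
    unfold RA at hτ
    simp only [mem_ofPred_eq, not_and_or, not_le] at hτ
    have h1 := abs_sub_abs_le_abs_sub t τ
    have h2 := abs_sub_abs_le_abs_sub τ t
    rw [abs_of_pos ht0] at h1 h2
    rw [abs_sub_comm τ t] at h2
    rcases hτ with h | h
    · linarith only [ht, h1, h]
    · linarith
  have h0 := abs_nonneg τ
  have hs : 0 < t + |τ| := by linarith only [ht, h0]
  have h3 : Kd X (t - τ) ≤ 16 * ((t + |τ|) ^ 2)⁻¹ := by
    unfold Kd
    have h4 : (t + |τ|) ^ 2 / 16 ≤ 1 + (X * (t - τ)) ^ 2 := by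
      have h5 : (t + |τ|) / 4 ≤ X * |t - τ| := by nlinarith only [hX, ht, hd, h0, abs_nonneg (t - τ)]
      have h6 : ((t + |τ|) / 4) ^ 2 ≤ (X * |t - τ|) ^ 2 := by
        apply pow_le_pow_left₀ (by positivity) h5
      rw [mul_pow, sq_abs, ← mul_pow] at h6
      nlinarith only [h6]
    calc (1 + (X * (t - τ)) ^ 2)⁻¹ ≤ ((t + |τ|) ^ 2 / 16)⁻¹ := by gcongr
      _ = _ := by rw [inv_div, div_eq_mul_inv]
  have h7 : ((t + |τ|) ^ 2)⁻¹ ≤ t ^ (-(1/4) : ℝ) * (1 + |τ|) ^ (-(7/4) : ℝ) := by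
    have e1 : ((t + |τ|) ^ 2)⁻¹ = (t + |τ|) ^ (-(1/4) : ℝ) * (t + |τ|) ^ (-(7/4) : ℝ) := by
      rw [← Real.rpow_add hs, ← Real.rpow_natCast, ← Real.rpow_neg hs.le]
      norm_num
    rw [e1]
    apply mul_le_mul
    · exact Real.rpow_le_rpow_of_nonpos ht0 (by linarith only [h0]) (by norm_num)
    · exact Real.rpow_le_rpow_of_nonpos (by linarith only [h0]) (by linarith only [ht]) (by norm_num)
    · positivity
    · positivity
  have h8 : (1 + |τ|) ^ (-(7/4) : ℝ) * wg τ = wf τ := by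
    unfold wg wf
    rw [Real.sqrt_eq_rpow, ← Real.rpow_add (by linarith only [h0]), Real.norm_eq_abs]
    norm_num
  have hwg : 0 ≤ wg τ := le_trans zero_le_one (wg_one_le τ)
  calc Kd X (t - τ) * wg τ ≤ (16 * (t ^ (-(1/4) : ℝ) * (1 + |τ|) ^ (-(7/4) : ℝ))) * wg τ := by
        gcongr
        exact h3.trans (by gcongr)
    _ = 16 * t ^ (-(1/4) : ℝ) * ((1 + |τ|) ^ (-(7/4) : ℝ) * wg τ) := by ring
    _ = _ := by rw [h8]

/-- weights of zeros to the right -/
noncomputable def qw (B L : ℝ) (ρ : ZS) : ℝ := mx ρ * Wt B (L * ((ρ:ℂ).re - 1 / 2))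

lemma qw_nonneg (B L : ℝ) (ρ : ZS) : 0 ≤ qw B L ρ := mul_nonneg (mx_nonneg _) (Wt_nonneg _ _)

/-- the maximal weight -/
noncomputable def WM (B L : ℝ) : ℝ := Wt B (L / 2)

/-- finite sums over zeros to the right -/
lemma finite_right {T L B X t : ℝ} (hL : L = Real.log T) (hL40 : 40 ≤ L) (hB : 9600 ≤ B) (hX : X = L / B) (hX1 : 1 ≤ X)
    (ht : 20 ≤ t) (htT : t ≤ T) {Ψ : ℝ → ℝ} (hΨc : Continuous Ψ)
    (hΨ : ∀ τ ∈ RA T, ∀ F : Finset ℂ, (∀ ρ ∈ F, xi ρ = 0 ∧ 1 / 2 ≤ ρ.re ∧ Real.log T * |ρ.im - τ| ≤ 1) →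
      (∑ ρ ∈ F, (analyticOrderNatAt xi ρ : ℝ) * Wt B (Real.log T * (ρ.re - 1 / 2))) ^ 2 ≤ Ψ τ)
    (F : Finset ZS) (hF : ∀ ρ ∈ F, 1 / 2 ≤ (ρ:ℂ).re) :
    ∑ ρ ∈ F, qw B L ρ * Kd X (t - (ρ:ℂ).im) ≤
      3 * L / 2 * ((∫ τ in RA T, Kd X (t - τ) * Real.sqrt (Ψ τ)) + WM B L * (5 / 2 * CA) * (16 * t ^ (-(1/4) : ℝ) * C1)) := by
  classical
  have hL0 : 0 < L := by linarith only [hL40]
  have hB0 : 0 < B := by linarith only [hB]
  have hX0 : 0 < X := by linarith
  set Iρ : ZS → Set ℝ := fun ρ => Icc ((ρ:ℂ).im - 1 / L) ((ρ:ℂ).im + 1 / L) with hIρ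
  have hmemI : ∀ (ρ : ZS) (τ : ℝ), τ ∈ Iρ ρ ↔ |τ - (ρ:ℂ).im| ≤ 1 / L := by
    intro ρ τ
    rw [hIρ]
    simp only [mem_Icc, abs_le]
    constructor <;> rintro ⟨h1, h2⟩ <;> constructor <;> linarith
  have hKc : Continuous (fun τ => Kd X (t - τ)) := (Kd_cont X).comp (by fun_prop)
  -- smoothing of one term
  have h1 : ∀ ρ : ZS, Kd X (t - (ρ:ℂ).im) ≤ 3 * L / 2 * ∫ τ in Iρ ρ, Kd X (t - τ) := by
    intro ρ
    have h2 : ∫ _ in Iρ ρ, Kd X (t - (ρ:ℂ).im) / 3 ≤ ∫ τ in Iρ ρ, Kd X (t - τ) := by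
      apply setIntegral_mono_on
      · exact continuous_const.continuousOn.integrableOn_compact isCompact_Icc
      · exact hKc.continuousOn.integrableOn_compact isCompact_Icc
      · exact measurableSet_Icc
      · intro τ hτ
        have := Kd_smooth (t := t) hL0 (by linarith : (1:ℝ) ≤ B) hX ((hmemI ρ τ).mp hτ)
        linarith only [this]
    rw [setIntegral_const, hIρ, Real.volume_real_Icc_of_le (by
      have : 0 < 1 / L := by positivity
      linarith only [this]), smul_eq_mul] at h2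
    have e : ((ρ:ℂ).im + 1 / L - ((ρ:ℂ).im - 1 / L)) * (Kd X (t - (ρ:ℂ).im) / 3) = 2 / (3 * L) * Kd X (t - (ρ:ℂ).im) := by
      field_simp
      ring
    rw [e] at h2
    calc Kd X (t - (ρ:ℂ).im) = 3 * L / 2 * (2 / (3 * L) * Kd X (t - (ρ:ℂ).im)) := by field_simp
      _ ≤ _ := by gcongr
  set h : ℝ → ℝ := fun τ => ∑ ρ ∈ F, qw B L ρ * (Iρ ρ).indicator (fun τ => Kd X (t - τ)) τ with hh
  have hint1 : ∀ ρ : ZS, Integrable ((Iρ ρ).indicator (fun τ => Kd X (t - τ))) := by
    intro ρ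
    rw [integrable_indicator_iff measurableSet_Icc]
    exact hKc.continuousOn.integrableOn_compact isCompact_Icc
  have hint : Integrable h := by
    rw [hh]
    exact integrable_finsetSum F fun ρ _ => (hint1 ρ).const_mul _
  have h2 : ∑ ρ ∈ F, qw B L ρ * Kd X (t - (ρ:ℂ).im) ≤ 3 * L / 2 * ∫ τ, h τ := by
    have e1 : ∫ τ, h τ = ∑ ρ ∈ F, qw B L ρ * ∫ τ in Iρ ρ, Kd X (t - τ) := by
      rw [hh, integral_finsetSum F fun ρ _ => (hint1 ρ).const_mul _]
      refine Finset.sum_congr rfl fun ρ _ => ?_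
      rw [integral_const_mul, integral_indicator measurableSet_Icc]
    rw [e1, Finset.mul_sum]
    refine Finset.sum_le_sum fun ρ _ => ?_
    calc qw B L ρ * Kd X (t - (ρ:ℂ).im) ≤ qw B L ρ * (3 * L / 2 * ∫ τ in Iρ ρ, Kd X (t - τ)) := by
          have := qw_nonneg B L ρ
          have := h1 ρ
          gcongr
      _ = _ := by ring
  refine h2.trans ?_
  have hL32 : 0 ≤ 3 * L / 2 := by positivity
  apply mul_le_mul_of_nonneg_left _ hL32
  rw [← integral_add_compl (RA_meas T) hint]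
  -- pointwise description of h
  have hpt : ∀ τ, h τ = Kd X (t - τ) * ∑ ρ ∈ F.filter (fun ρ => τ ∈ Iρ ρ), qw B L ρ := by
    intro τ
    rw [hh, Finset.sum_filter, Finset.mul_sum]
    refine Finset.sum_congr rfl fun ρ _ => ?_
    by_cases hm : τ ∈ Iρ ρ
    · rw [indicator_of_mem hm, if_pos hm]; ring
    · rw [indicator_of_notMem hm, if_neg hm]; ring
  apply add_le_add
  · apply setIntegral_mono_on hint.integrableOn
    · exact (hKc.mul (Real.continuous_sqrt.comp hΨc)).continuousOn.integrableOn_compact (RA_compact T)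
    · exact RA_meas T
    · intro τ hτ
      rw [hpt]
      have hK := (Kd_pos X (t - τ)).le
      apply mul_le_mul_of_nonneg_left _ hK
      apply Real.le_sqrt_of_sq_le
      have := hΨ τ hτ ((F.filter (fun ρ => τ ∈ Iρ ρ)).map (Function.Embedding.subtype _)) (by
        intro ρ hρ
        rw [Finset.mem_map] at hρ
        obtain ⟨ρ', hρ', rfl⟩ := hρ
        rw [Finset.mem_filter] at hρ'
        refine ⟨ρ'.2, hF ρ' hρ'.1, ?_⟩
        have h3 := (hmemI ρ' τ).mp hρ'.2
        rw [abs_sub_comm] at h3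
        simp only [Function.Embedding.subtype_apply]
        rw [← hL]
        calc L * |(ρ':ℂ).im - τ| ≤ L * (1 / L) := by gcongr
          _ = 1 := by field_simp)
      rw [Finset.sum_map] at this
      simp only [Function.Embedding.subtype_apply] at this
      rw [← hL] at this
      exact this
  · have hWM : 0 ≤ WM B L := Wt_nonneg _ _
    have hb : ∀ τ ∈ (RA T)ᶜ, h τ ≤ WM B L * (5 / 2 * CA) * (16 * t ^ (-(1/4) : ℝ)) * wf τ := by
      intro τ hτ
      rw [hpt]
      have h3 : ∑ ρ ∈ F.filter (fun ρ => τ ∈ Iρ ρ), qw B L ρ ≤ WM B L * (5 / 2 * Afun τ) := by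
        have h4 := loc_count (F.filter (fun ρ => τ ∈ Iρ ρ)) τ (by
          intro ρ hρ
          rw [Finset.mem_filter] at hρ
          have h5 := (hmemI ρ τ).mp hρ.2
          rw [abs_sub_comm] at h5
          have : 1 / L ≤ 1 := by rw [div_le_one hL0]; linarith only [hL40]
          linarith only [h5, this])
        calc ∑ ρ ∈ F.filter (fun ρ => τ ∈ Iρ ρ), qw B L ρ ≤ ∑ ρ ∈ F.filter (fun ρ => τ ∈ Iρ ρ), WM B L * mx ρ := by
              refine Finset.sum_le_sum fun ρ hρ => ?_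
              rw [Finset.mem_filter] at hρ
              unfold qw WM
              rw [mul_comm]
              have hr := zs_re ρ
              have h6 := hF ρ hρ.1
              have h7 : Wt B (L * ((ρ:ℂ).re - 1 / 2)) ≤ Wt B (L / 2) := by
                apply Wt_mono hB0
                · exact mul_nonneg hL0.le (by linarith only [h6])
                · nlinarith only [hL40, hr]
              have := mx_nonneg (ρ:ℂ)
              gcongr
          _ = WM B L * ∑ ρ ∈ F.filter (fun ρ => τ ∈ Iρ ρ), mx ρ := by rw [Finset.mul_sum]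
          _ ≤ _ := by gcongr
      have hA := Afun_bound τ
      have hA2 : Afun τ ≤ CA * wg τ := (le_abs_self _).trans hA
      have hK := (Kd_pos X (t - τ)).le
      have hfar := far_bound hX1 ht htT hτ
      have hCA : 0 ≤ CA := by
        have h0 := (abs_nonneg _).trans (Afun_bound 0)
        have h00 : 0 < wg 0 := lt_of_lt_of_le zero_lt_one (wg_one_le 0)
        by_contra hneg
        push Not at hneg
        nlinarith only [h0, h00, hneg]
      calc Kd X (t - τ) * ∑ ρ ∈ F.filter (fun ρ => τ ∈ Iρ ρ), qw B L ρ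
          ≤ Kd X (t - τ) * (WM B L * (5 / 2 * (CA * wg τ))) := by
            gcongr
            exact h3.trans (by gcongr)
        _ = WM B L * (5 / 2 * CA) * (Kd X (t - τ) * wg τ) := by ring
        _ ≤ WM B L * (5 / 2 * CA) * (16 * t ^ (-(1/4) : ℝ) * wf τ) := by gcongr
        _ = _ := by ring
    have hCA : 0 ≤ CA := by
      have h0 := (abs_nonneg _).trans (Afun_bound 0)
      have h00 : 0 < wg 0 := lt_of_lt_of_le zero_lt_one (wg_one_le 0)
      by_contra hneg
      push Not at hneg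
      nlinarith only [h0, h00, hneg]
    calc ∫ τ in (RA T)ᶜ, h τ ≤ ∫ τ in (RA T)ᶜ, WM B L * (5 / 2 * CA) * (16 * t ^ (-(1/4) : ℝ)) * wf τ := by
          apply setIntegral_mono_on hint.integrableOn (wf_integrable.const_mul _).integrableOn (RA_meas T).compl hb
      _ ≤ ∫ τ, WM B L * (5 / 2 * CA) * (16 * t ^ (-(1/4) : ℝ)) * wf τ := by
          apply setIntegral_le_integral (wf_integrable.const_mul _)
          filter_upwards with τ
          have := wf_nonneg τ
          have ht0 : 0 < t := by linarith only [ht]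
          positivity
      _ = _ := by
          rw [integral_const_mul]
          unfold C1
          ring

end Pool.Agent.Helper57.LH

end

/-! ### Helper57.LH.ETwo -/

section

namespace Pool.Agent.Helper57.LH

open Set MeasureTheory Filter Topology

open Pool.Agent.Helper57.Zeta

lemma CA_nonneg : 0 ≤ CA := by
  have h0 := (abs_nonneg _).trans (Afun_bound 0)
  have h00 : 0 < wg 0 := lt_of_lt_of_le zero_lt_one (wg_one_le 0)
  by_contra hneg
  push Not at hneg
  nlinarith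

/-- bound for the off-line contribution -/
noncomputable def RB (T L B X : ℝ) (Ψ : ℝ → ℝ) (t : ℝ) : ℝ :=
  3 * L / 2 * ((∫ τ in RA T, Kd X (t - τ) * Real.sqrt (Ψ τ)) + WM B L * (5 / 2 * CA) * (16 * t ^ (-(1/4) : ℝ) * C1))

/-- the hypothesis on the dominating function -/
def DomPsi (T B : ℝ) (Ψ : ℝ → ℝ) : Prop :=
  ∀ τ ∈ RA T, ∀ F : Finset ℂ, (∀ ρ ∈ F, xi ρ = 0 ∧ 1 / 2 ≤ ρ.re ∧ Real.log T * |ρ.im - τ| ≤ 1) →
      (∑ ρ ∈ F, (analyticOrderNatAt xi ρ : ℝ) * Wt B (Real.log T * (ρ.re - 1 / 2))) ^ 2 ≤ Ψ τ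

lemma E1_finite {T L B X t : ℝ} (hL : L = Real.log T) (hL40 : 40 ≤ L) (hB : 9600 ≤ B) (hX : X = L / B) (hX1 : 1 ≤ X)
    (ht : 20 ≤ t) (htT : t ≤ T) {Ψ : ℝ → ℝ} (hΨc : Continuous Ψ) (hΨ : DomPsi T B Ψ) (F : Finset ZS) :
    ∑ ρ ∈ F, mx ρ * |gs X ((ρ:ℂ).re - 1 / 2) (t - (ρ:ℂ).im) - gs X 0 (t - (ρ:ℂ).im)| ≤ 16 * RB T L B X Ψ t := by
  classical
  have hL0 : 0 < L := by linarith only [hL40]
  have hB0 : 0 < B := by linarith only [hB]
  have hX0 : 0 < X := by linarith
  set f : ZS → ℝ := fun ρ => mx ρ * Wt B (L * |(ρ:ℂ).re - 1 / 2|) * Kd X (t - (ρ:ℂ).im) with hf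
  have h1 : ∑ ρ ∈ F, mx ρ * |gs X ((ρ:ℂ).re - 1 / 2) (t - (ρ:ℂ).im) - gs X 0 (t - (ρ:ℂ).im)| ≤ 8 * ∑ ρ ∈ F, f ρ := by
    rw [Finset.mul_sum]
    refine Finset.sum_le_sum fun ρ _ => ?_
    have h2 := gs_diff_bound hX0 ((ρ:ℂ).re - 1 / 2) (t - (ρ:ℂ).im)
    have h3 : (|(ρ:ℂ).re - 1 / 2| * X) ^ 2 * Real.exp (|(ρ:ℂ).re - 1 / 2| * X) = Wt B (L * |(ρ:ℂ).re - 1 / 2|) := by
      unfold Wt
      rw [hX]
      rw [show |(ρ:ℂ).re - 1 / 2| * (L / B) = L * |(ρ:ℂ).re - 1 / 2| / B by ring]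
    rw [h3] at h2
    have hm := mx_nonneg (ρ:ℂ)
    calc mx ρ * |gs X ((ρ:ℂ).re - 1 / 2) (t - (ρ:ℂ).im) - gs X 0 (t - (ρ:ℂ).im)|
        ≤ mx ρ * (8 * Wt B (L * |(ρ:ℂ).re - 1 / 2|) * Kd X (t - (ρ:ℂ).im)) := by gcongr
      _ = 8 * f ρ := by rw [hf]; ring
  refine h1.trans ?_
  rw [← Finset.sum_filter_add_sum_filter_not F (fun ρ : ZS => 1 / 2 ≤ (ρ:ℂ).re)]
  have hA : ∑ ρ ∈ F.filter (fun ρ : ZS => 1 / 2 ≤ (ρ:ℂ).re), f ρ ≤ RB T L B X Ψ t := by
    have h2 := finite_right hL hL40 hB hX hX1 ht htT hΨc hΨ (F.filter (fun ρ : ZS => 1 / 2 ≤ (ρ:ℂ).re)) (by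
      intro ρ hρ
      exact (Finset.mem_filter.mp hρ).2)
    refine le_trans (le_of_eq ?_) h2
    refine Finset.sum_congr rfl fun ρ hρ => ?_
    have h3 := (Finset.mem_filter.mp hρ).2
    rw [hf]
    simp only
    unfold qw
    rw [abs_of_nonneg (by linarith only [h3])]
  have hBB : ∑ ρ ∈ F.filter (fun ρ : ZS => ¬ 1 / 2 ≤ (ρ:ℂ).re), f ρ ≤ RB T L B X Ψ t := by
    have h2 := finite_right hL hL40 hB hX hX1 ht htT hΨc hΨ ((F.filter (fun ρ : ZS => ¬ 1 / 2 ≤ (ρ:ℂ).re)).map refl.toEmbedding) (by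
      intro ρ hρ
      rw [Finset.mem_map] at hρ
      obtain ⟨ρ', hρ', rfl⟩ := hρ
      have h3 := (Finset.mem_filter.mp hρ').2
      rw [Equiv.coe_toEmbedding, refl_re]
      push Not at h3
      linarith only [h3])
    refine le_trans (le_of_eq ?_) h2
    rw [Finset.sum_map]
    refine Finset.sum_congr rfl fun ρ hρ => ?_
    have h3 := (Finset.mem_filter.mp hρ).2
    push Not at h3
    rw [hf, Equiv.coe_toEmbedding, refl_im]
    simp only
    unfold qw
    rw [refl_re, refl_mx, abs_of_neg (by linarith only [h3])]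
    congr 3
    ring
  linarith only [hA, hBB]

/-- upper bound for finite Fejer sums over zeros -/
theorem Y_le {T L B X t : ℝ} (hL : L = Real.log T) (hL40 : 40 ≤ L) (hB : 9600 ≤ B) (hX : X = L / B) (hX1 : 1 ≤ X)
    (ht : 20 ≤ t) (htT : t ≤ T) {Ψ : ℝ → ℝ} (hΨc : Continuous Ψ) (hΨ : DomPsi T B Ψ) (F : Finset ZS) :
    ∑ ρ ∈ F, mx ρ * gs X 0 (t - (ρ:ℂ).im) ≤ MT X t / X - PS X t + 16 * RB T L B X Ψ t := by
  have hX0 : 0 < X := by linarith only [hX1]
  set d : ZS → ℝ := fun ρ => mx ρ * |gs X ((ρ:ℂ).re - 1 / 2) (t - (ρ:ℂ).im) - gs X 0 (t - (ρ:ℂ).im)| with hd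
  have hd0 : ∀ ρ, 0 ≤ d ρ := fun ρ => mul_nonneg (mx_nonneg _) (abs_nonneg _)
  have hfin := E1_finite hL hL40 hB hX hX1 ht htT hΨc hΨ
  have hds : Summable d := summable_of_sum_le hd0 (fun F => hfin F)
  have hdt : ∑' ρ, d ρ ≤ 16 * RB T L B X Ψ t := hds.tsum_le_of_sum_le (fun F => hfin F)
  have hex := explicit hX0 t
  have hg0 : ∀ ρ : ZS, 0 ≤ mx ρ * gs X 0 (t - (ρ:ℂ).im) := fun ρ => mul_nonneg (mx_nonneg _) (gs_zero_nonneg hX0 _)
  have hle : ∀ ρ : ZS, mx ρ * gs X 0 (t - (ρ:ℂ).im) ≤ mx ρ * gs X ((ρ:ℂ).re - 1 / 2) (t - (ρ:ℂ).im) + d ρ := by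
    intro ρ
    rw [hd]
    simp only
    rw [← mul_add]
    apply mul_le_mul_of_nonneg_left _ (mx_nonneg _)
    have := neg_abs_le (gs X ((ρ:ℂ).re - 1 / 2) (t - (ρ:ℂ).im) - gs X 0 (t - (ρ:ℂ).im))
    linarith only [this]
  have hsum2 := hex.summable.add hds
  have hg0s : Summable (fun ρ : ZS => mx ρ * gs X 0 (t - (ρ:ℂ).im)) := Summable.of_nonneg_of_le hg0 hle hsum2
  calc ∑ ρ ∈ F, mx ρ * gs X 0 (t - (ρ:ℂ).im) ≤ ∑' ρ : ZS, mx ρ * gs X 0 (t - (ρ:ℂ).im) := hg0s.sum_le_tsum F (fun i _ => hg0 i)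
    _ ≤ ∑' ρ : ZS, (mx ρ * gs X ((ρ:ℂ).re - 1 / 2) (t - (ρ:ℂ).im) + d ρ) := hg0s.tsum_le_tsum hle hsum2
    _ = (MT X t / X - PS X t) + ∑' ρ, d ρ := by rw [hex.summable.tsum_add hds, hex.tsum_eq]
    _ ≤ _ := by linarith only [hdt]

end Pool.Agent.Helper57.LH

end

/-! ### Helper57.LH.EThree -/

section

namespace Pool.Agent.Helper57.LH

open Set MeasureTheory Filter Topology

open Pool.Agent.Helper57.Zeta

/-- the convolution -/
noncomputable def Cv (T X : ℝ) (Ψ : ℝ → ℝ) (t : ℝ) : ℝ := ∫ τ in RA T, Kd X (t - τ) * Real.sqrt (Ψ τ)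

lemma Kd2_cont (X : ℝ) : Continuous (fun p : ℝ × ℝ => Kd X (p.1 - p.2)) := (Kd_cont X).comp (by fun_prop)

lemma Cv_cont (T X : ℝ) {Ψ : ℝ → ℝ} (hΨc : Continuous Ψ) : Continuous (Cv T X Ψ) := by
  unfold Cv
  apply continuous_parametric_integral_of_continuous _ (RA_compact T)
  simp only [Function.uncurry_def]
  exact (Kd2_cont X).mul ((Real.continuous_sqrt.comp hΨc).comp continuous_snd)

lemma Cv_nonneg (T X : ℝ) (Ψ : ℝ → ℝ) (t : ℝ) : 0 ≤ Cv T X Ψ t :=
  integral_nonneg fun τ => mul_nonneg (Kd_pos _ _).le (Real.sqrt_nonneg _)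

lemma Kd_int_left {X : ℝ} (hX : 0 < X) (t : ℝ) (S : Set ℝ) : ∫ τ in S, Kd X (t - τ) ≤ Real.pi / X := by
  rw [← Kd_integral hX]
  have h1 : ∫ τ, Kd X (t - τ) = ∫ w, Kd X w := integral_sub_left_eq_self (Kd X) volume t
  rw [← h1]
  exact setIntegral_le_integral ((Kd_integrable hX).comp_sub_left t) (Eventually.of_forall fun τ => (Kd_pos _ _).le)

lemma Kd_int_right {X : ℝ} (hX : 0 < X) (τ : ℝ) (S : Set ℝ) : ∫ t in S, Kd X (t - τ) ≤ Real.pi / X := by
  rw [← Kd_integral hX]
  have h1 : ∫ t, Kd X (t - τ) = ∫ w, Kd X w := integral_sub_right_eq_self (Kd X) τ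
  rw [← h1]
  exact setIntegral_le_integral ((Kd_integrable hX).comp_sub_right τ) (Eventually.of_forall fun τ => (Kd_pos _ _).le)

lemma Cv_sq_le {T X : ℝ} (hX : 0 < X) {Ψ : ℝ → ℝ} (hΨc : Continuous Ψ) (hΨ0 : ∀ τ, 0 ≤ Ψ τ) (t : ℝ) :
    Cv T X Ψ t ^ 2 ≤ Real.pi / X * ∫ τ in RA T, Kd X (t - τ) * Ψ τ := by
  have hKc : Continuous (fun τ => Kd X (t - τ)) := (Kd_cont X).comp (by fun_prop)
  have hs1 : Continuous (fun τ => Real.sqrt (Kd X (t - τ))) := Real.continuous_sqrt.comp hKc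
  have hs2 : Continuous (fun τ => Real.sqrt (Kd X (t - τ)) * Real.sqrt (Ψ τ)) := hs1.mul (Real.continuous_sqrt.comp hΨc)
  have h := cs_gen (μ := volume.restrict (RA T)) (f := fun τ => Real.sqrt (Kd X (t - τ))) (g := fun τ => Real.sqrt (Kd X (t - τ)) * Real.sqrt (Ψ τ))
    (fun τ => Real.sqrt_nonneg _) (fun τ => mul_nonneg (Real.sqrt_nonneg _) (Real.sqrt_nonneg _))
    hs1.aestronglyMeasurable hs2.aestronglyMeasurable
    (ion (hs1.pow 2) T) (ion (hs2.pow 2) T)
  have e1 : ∀ τ, Real.sqrt (Kd X (t - τ)) * (Real.sqrt (Kd X (t - τ)) * Real.sqrt (Ψ τ)) = Kd X (t - τ) * Real.sqrt (Ψ τ) := by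
    intro τ
    rw [← mul_assoc, Real.mul_self_sqrt (Kd_pos _ _).le]
  have e2 : ∀ τ, Real.sqrt (Kd X (t - τ)) ^ 2 = Kd X (t - τ) := fun τ => Real.sq_sqrt (Kd_pos _ _).le
  have e3 : ∀ τ, (Real.sqrt (Kd X (t - τ)) * Real.sqrt (Ψ τ)) ^ 2 = Kd X (t - τ) * Ψ τ := by
    intro τ
    rw [mul_pow, e2, Real.sq_sqrt (hΨ0 τ)]
  simp_rw [e1, e2, e3] at h
  have hA : 0 ≤ ∫ τ in RA T, Kd X (t - τ) := integral_nonneg fun τ => (Kd_pos _ _).le
  have hB : 0 ≤ ∫ τ in RA T, Kd X (t - τ) * Ψ τ := integral_nonneg fun τ => mul_nonneg (Kd_pos _ _).le (hΨ0 τ)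
  have h2 : Cv T X Ψ t ^ 2 ≤ (Real.sqrt (∫ τ in RA T, Kd X (t - τ)) * Real.sqrt (∫ τ in RA T, Kd X (t - τ) * Ψ τ)) ^ 2 :=
    pow_le_pow_left₀ (Cv_nonneg _ _ _ _) h 2
  rw [mul_pow, Real.sq_sqrt hA, Real.sq_sqrt hB] at h2
  refine h2.trans ?_
  gcongr
  exact Kd_int_left hX t _

lemma Cv_int {T X a : ℝ} (hX : 0 < X) {Ψ : ℝ → ℝ} (hΨc : Continuous Ψ) (hΨ0 : ∀ τ, 0 ≤ Ψ τ) :
    ∫ t in Icc a T, Cv T X Ψ t ^ 2 ≤ (Real.pi / X) ^ 2 * ∫ τ in RA T, Ψ τ := by
  have hc2 : Continuous (fun p : ℝ × ℝ => Kd X (p.1 - p.2) * Ψ p.2) := (Kd2_cont X).mul (hΨc.comp continuous_snd)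
  have hpi := Real.pi_pos
  have hci : Continuous (fun t => ∫ τ in RA T, Kd X (t - τ) * Ψ τ) := by
    apply continuous_parametric_integral_of_continuous _ (RA_compact T)
    simp only [Function.uncurry_def]
    exact hc2
  have h1 : ∫ t in Icc a T, Cv T X Ψ t ^ 2 ≤ ∫ t in Icc a T, Real.pi / X * ∫ τ in RA T, Kd X (t - τ) * Ψ τ := by
    apply setIntegral_mono_on
    · exact ((Cv_cont T X hΨc).pow 2).continuousOn.integrableOn_compact isCompact_Icc
    · exact (continuous_const.mul hci).continuousOn.integrableOn_compact isCompact_Icc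
    · exact measurableSet_Icc
    · intro t _
      exact Cv_sq_le hX hΨc hΨ0 t
  refine h1.trans ?_
  rw [integral_const_mul, integral_integral_swap]
  · have h2 : ∫ τ in RA T, ∫ t in Icc a T, Kd X (t - τ) * Ψ τ ≤ ∫ τ in RA T, Real.pi / X * Ψ τ := by
      have hci2 : Continuous (fun τ => ∫ t in Icc a T, Kd X (t - τ) * Ψ τ) := by
        apply continuous_parametric_integral_of_continuous _ isCompact_Icc
        simp only [Function.uncurry_def]
        exact hc2.comp continuous_swap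
      apply setIntegral_mono_on (ion hci2 T) (ion (continuous_const.mul hΨc) T) (RA_meas T)
      intro τ _
      rw [integral_mul_const]
      exact mul_le_mul_of_nonneg_right (Kd_int_right hX τ (Icc a T)) (hΨ0 τ)
    rw [integral_const_mul] at h2
    calc Real.pi / X * ∫ τ in RA T, ∫ t in Icc a T, Kd X (t - τ) * Ψ τ ≤ Real.pi / X * (Real.pi / X * ∫ τ in RA T, Ψ τ) := by gcongr
      _ = _ := by ring
  · have : IntegrableOn (fun p : ℝ × ℝ => Kd X (p.1 - p.2) * Ψ p.2) (Icc a T ×ˢ RA T) (volume.prod volume) :=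
      hc2.continuousOn.integrableOn_compact (isCompact_Icc.prod (RA_compact T))
    rw [IntegrableOn, ← Measure.prod_restrict] at this
    exact this

/-- constant in the secondary term -/
noncomputable def DC (B L : ℝ) : ℝ := WM B L * (5 / 2 * CA) * (16 * C1)

lemma DC_nonneg (B L : ℝ) : 0 ≤ DC B L := by
  unfold DC
  have := CA_nonneg
  have := C1_nonneg
  have : 0 ≤ WM B L := Wt_nonneg _ _
  positivity

lemma RB_eq (T L B X : ℝ) (Ψ : ℝ → ℝ) (t : ℝ) : RB T L B X Ψ t = 3 * L / 2 * (Cv T X Ψ t + DC B L * t ^ (-(1/4) : ℝ)) := by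
  unfold RB Cv DC; ring

lemma RB_nonneg {T L B X : ℝ} (hL : 0 ≤ L) (Ψ : ℝ → ℝ) {t : ℝ} (ht : 0 < t) : 0 ≤ RB T L B X Ψ t := by
  rw [RB_eq]
  have := Cv_nonneg T X Ψ t
  have := DC_nonneg B L
  positivity

lemma RB_contOn {T L B X a : ℝ} (ha : 0 < a) {Ψ : ℝ → ℝ} (hΨc : Continuous Ψ) : ContinuousOn (RB T L B X Ψ) (Icc a T) := by
  have e : RB T L B X Ψ = fun t => 3 * L / 2 * (Cv T X Ψ t + DC B L * t ^ (-(1/4) : ℝ)) := funext (RB_eq T L B X Ψ)
  rw [e]
  apply continuousOn_const.mul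
  apply (Cv_cont T X hΨc).continuousOn.add
  apply continuousOn_const.mul
  apply ContinuousOn.rpow_const continuousOn_id
  intro t ht
  left
  have : a ≤ t := ht.1
  simp only [id]
  linarith only [ha, this]

/-- L² bound of the off-line contribution -/
theorem RB_sq {T L B X a C : ℝ} (hL0 : 0 < L) (hB0 : 0 < B) (hX : X = L / B) (ha1 : 1 ≤ a) (haT : a ≤ T) (haT2 : Real.sqrt T ≤ a)
    {Ψ : ℝ → ℝ} (hΨc : Continuous Ψ) (hΨ0 : ∀ τ, 0 ≤ Ψ τ) (hΨi : ∫ τ in RA T, Ψ τ ≤ C * (T / B ^ 4)) :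
    ∫ t in Icc a T, (16 * RB T L B X Ψ t) ^ 2 ≤ 1152 * Real.pi ^ 2 * C * (T / B ^ 2) + 1152 * L ^ 2 * DC B L ^ 2 * T ^ (3/4 : ℝ) := by
  have hX0 : 0 < X := by rw [hX]; positivity
  have hT0 : 0 < T := by linarith only [ha1, haT]
  have hCv := Cv_int (T := T) (a := a) hX0 hΨc hΨ0
  have hcont1 : Continuous (fun t => 1152 * L ^ 2 * Cv T X Ψ t ^ 2) := continuous_const.mul ((Cv_cont T X hΨc).pow 2)
  have hcont2 : Continuous (fun _ : ℝ => 1152 * L ^ 2 * (DC B L ^ 2 * T ^ (-(1/4) : ℝ))) := continuous_const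
  have h1 : ∫ t in Icc a T, (16 * RB T L B X Ψ t) ^ 2 ≤ ∫ t in Icc a T, (1152 * L ^ 2 * Cv T X Ψ t ^ 2 + 1152 * L ^ 2 * (DC B L ^ 2 * T ^ (-(1/4) : ℝ))) := by
    apply setIntegral_mono_on
    · exact ((continuousOn_const.mul (RB_contOn (by linarith only [ha1]) hΨc)).pow 2).integrableOn_compact isCompact_Icc
    · exact (hcont1.add hcont2).continuousOn.integrableOn_compact isCompact_Icc
    · exact measurableSet_Icc
    · intro t ht
      rw [RB_eq]
      have ht0 : 0 < t := by have := ht.1; linarith only [ha1, this]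
      have h2 : (t ^ (-(1/4) : ℝ)) ^ 2 ≤ T ^ (-(1/4) : ℝ) := by
        rw [← Real.rpow_natCast, ← Real.rpow_mul ht0.le]
        have h3 : T ^ (-(1/4) : ℝ) = (Real.sqrt T) ^ (-(1/2) : ℝ) := by
          rw [Real.sqrt_eq_rpow, ← Real.rpow_mul hT0.le]
          norm_num
        rw [h3]
        have e4 : (-(1/4) : ℝ) * ((2:ℕ):ℝ) = -(1/2) := by norm_num
        rw [e4]
        exact Real.rpow_le_rpow_of_nonpos (Real.sqrt_pos.mpr hT0) (haT2.trans ht.1) (by norm_num)
      set x := Cv T X Ψ t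
      set y := t ^ (-(1/4) : ℝ)
      set D := DC B L
      have h5 : (x + D * y) ^ 2 ≤ 2 * x ^ 2 + 2 * (D * y) ^ 2 := by nlinarith only [sq_nonneg (x - D * y)]
      calc (16 * (3 * L / 2 * (x + D * y))) ^ 2 = 576 * L ^ 2 * (x + D * y) ^ 2 := by ring
        _ ≤ 576 * L ^ 2 * (2 * x ^ 2 + 2 * (D * y) ^ 2) := by gcongr
        _ = 1152 * L ^ 2 * x ^ 2 + 1152 * L ^ 2 * (D ^ 2 * y ^ 2) := by ring
        _ ≤ _ := by gcongr
  refine h1.trans ?_
  rw [integral_add (hcont1.continuousOn.integrableOn_compact isCompact_Icc) (hcont2.continuousOn.integrableOn_compact isCompact_Icc),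
    integral_const_mul, setIntegral_const, Real.volume_real_Icc_of_le haT, smul_eq_mul]
  have hD := DC_nonneg B L
  have hT34 : T * T ^ (-(1/4) : ℝ) = T ^ (3/4 : ℝ) := by
    nth_rewrite 1 [← Real.rpow_one T]
    rw [← Real.rpow_add hT0]
    norm_num
  have hTq : 0 < T ^ (-(1/4) : ℝ) := Real.rpow_pos_of_pos hT0 _
  calc 1152 * L ^ 2 * (∫ t in Icc a T, Cv T X Ψ t ^ 2) + (T - a) * (1152 * L ^ 2 * (DC B L ^ 2 * T ^ (-(1/4) : ℝ)))
      ≤ 1152 * L ^ 2 * ((Real.pi / X) ^ 2 * (C * (T / B ^ 4))) + T * (1152 * L ^ 2 * (DC B L ^ 2 * T ^ (-(1/4) : ℝ))) := by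
        gcongr
        · refine hCv.trans ?_
          gcongr
        · linarith only [ha1]
    _ = 1152 * Real.pi ^ 2 * C * (T / B ^ 2) + 1152 * L ^ 2 * DC B L ^ 2 * (T * T ^ (-(1/4) : ℝ)) := by
        rw [hX]
        field_simp
    _ = _ := by rw [hT34]

end Pool.Agent.Helper57.LH

end

/-! ### Helper57.LH.VOne -/

section

namespace Pool.Agent.Helper57.LH

open Set MeasureTheory Filter Topology

open Pool.Agent.Helper57.Zeta

/-- growth constant, logarithmic version -/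
noncomputable def CLA : ℝ := 2 * CA + 13 + |(Real.log Real.pi + Real.eulerMascheroniConstant) / 2| + ∑' n, cV n

lemma CLA_pos : 0 < CLA := by
  unfold CLA
  have h1 := CA_nonneg
  have h2 : 0 ≤ ∑' n, cV n := tsum_nonneg cV_nonneg
  have h3 := abs_nonneg ((Real.log Real.pi + Real.eulerMascheroniConstant) / 2)
  linarith

lemma one_le_log {T : ℝ} (hT : 3 ≤ T) : 1 ≤ Real.log T := by
  rw [Real.le_log_iff_exp_le (by linarith)]
  have := Real.exp_one_lt_d9; linarith only [hT, this]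

lemma Afun_log {T u : ℝ} (hT : 3 ≤ T) (hu0 : 0 ≤ u) (huT : u ≤ T) : Afun u ≤ CLA * Real.log T := by
  have hL1 := one_le_log hT
  have hsum : 0 ≤ ∑' n, cV n := tsum_nonneg cV_nonneg
  have hK0 := abs_nonneg ((Real.log Real.pi + Real.eulerMascheroniConstant) / 2)
  have hCA := CA_nonneg
  rcases le_total u 1 with h | h
  · have h2 : Afun u ≤ CA * wg u := (le_abs_self _).trans (Afun_bound u)
    have h3 : wg u ≤ 2 := by
      unfold wg
      rw [abs_of_nonneg hu0, Real.sqrt_le_left (by norm_num)]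
      linarith only [h]
    have h4 : CA * wg u ≤ CA * 2 := by gcongr
    have h5 : 2 * CA ≤ CLA := by unfold CLA; linarith
    have h6 : CLA * 1 ≤ CLA * Real.log T := by
      have := CLA_pos
      gcongr
    linarith
  · rw [Afun_eq']
    have h1 := Dn_sum h
    have h1' : ∑' n, Dn n u ≤ Real.log u + 20 := by
      have := (abs_le.mp h1).2
      linarith only [this]
    have h2 : |∑' n : ℕ, cV n * Real.cos (Real.log n * u)| ≤ (∑' n, cV n) * 1 := tsum_bound cV_summable (fun n => by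
      rw [abs_mul, abs_of_nonneg (cV_nonneg n)]
      have := Real.abs_cos_le_one (Real.log n * u)
      have := cV_nonneg n
      gcongr)
    have h2' := (abs_le.mp h2).1
    have h3 : 2 / (2 ^ 2 + u ^ 2) ≤ 1 := by
      rw [div_le_one (by positivity)]
      nlinarith only [sq_nonneg u]
    have h4 : 1 / (1 ^ 2 + u ^ 2) ≤ 1 := by
      rw [div_le_one (by positivity)]
      nlinarith only [sq_nonneg u]
    have h5 := neg_abs_le ((Real.log Real.pi + Real.eulerMascheroniConstant) / 2)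
    have h6 : Real.log u ≤ Real.log T := Real.log_le_log (by linarith only [h]) huT
    set K := |(Real.log Real.pi + Real.eulerMascheroniConstant) / 2| with hK
    have h7 : CLA * Real.log T ≥ (13 + K + ∑' n, cV n) * Real.log T := by
      have : 13 + K + ∑' n, cV n ≤ CLA := by unfold CLA; linarith only [hCA]
      have h0 : 0 ≤ Real.log T := by linarith only [hL1]
      gcongr
    have h8 : (13 + K + ∑' n, cV n) * Real.log T ≥ 13 * Real.log T + K + ∑' n, cV n := by nlinarith only [hL1, hsum, hK0]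
    linarith

/-- the finite Fejer sum over zeros -/
noncomputable def Yf (F : Finset ZS) (X t : ℝ) : ℝ := ∑ ρ ∈ F, mx ρ * gs X 0 (t - (ρ:ℂ).im)

lemma gs_cont (X v : ℝ) : Continuous (gs X v) := by
  have e : gs X v = fun w => 2 / X * ∫ x in (0:ℝ)..X, (1 - x / X) * (Real.cosh (v * x) * Real.cos (w * x)) := funext (gs_eq X v)
  rw [e]
  apply continuous_const.mul
  apply intervalIntegral.continuous_parametric_intervalIntegral_of_continuous'
  simp only [Function.uncurry_def]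
  fun_prop

lemma Yf_cont (F : Finset ZS) (X : ℝ) : Continuous (Yf F X) := by
  unfold Yf
  apply continuous_finsetSum
  intro ρ _
  exact continuous_const.mul ((gs_cont X 0).comp (by fun_prop))

lemma Yf_nonneg (F : Finset ZS) {X : ℝ} (hX : 0 < X) (t : ℝ) : 0 ≤ Yf F X t := by
  unfold Yf
  exact Finset.sum_nonneg fun ρ _ => mul_nonneg (mx_nonneg _) (gs_zero_nonneg hX _)

lemma Kd_le_one {X : ℝ} (hX : 1 ≤ X) (w : ℝ) : Kd X w ≤ (1 + w ^ 2)⁻¹ := by
  unfold Kd
  have h1 : w ^ 2 ≤ (X * w) ^ 2 := by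
    rw [mul_pow]
    have : 1 ≤ X ^ 2 := by nlinarith
    nlinarith only [this, sq_nonneg w]
  gcongr

lemma Yf_le_log {F : Finset ZS} {T X : ℝ} (hT : 3 ≤ T) (hX : 1 ≤ X) (hF : ∀ ρ ∈ F, 0 ≤ (ρ:ℂ).im ∧ (ρ:ℂ).im ≤ T) (t : ℝ) :
    Yf F X t ≤ 20 * CLA * Real.log T := by
  have hX0 : 0 < X := by linarith only [hX]
  set s := max 0 (min t T) with hs
  have hs0 : 0 ≤ s := le_max_left _ _
  have hsT : s ≤ T := max_le (by linarith only [hT]) (min_le_right _ _)
  have hA := Afun_log hT hs0 hsT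
  have h1 : ∑ ρ ∈ F, fz ρ s ≤ Afun s := sum_le_hasSum F (fun i _ => fz_nonneg i s) (fz_hasSum s)
  have h2 : Yf F X t ≤ ∑ ρ ∈ F, 20 * fz ρ s := by
    unfold Yf
    refine Finset.sum_le_sum fun ρ hρ => ?_
    have hr := zs_re ρ
    obtain ⟨hg0, hgT⟩ := hF ρ hρ
    have hm := mx_nonneg (ρ:ℂ)
    have h3 : gs X 0 (t - (ρ:ℂ).im) ≤ 5 * (1 + (t - (ρ:ℂ).im) ^ 2)⁻¹ :=
      (gs_zero_decay hX0 _).trans (by have := Kd_le_one hX (t - (ρ:ℂ).im); linarith)
    have h4 : (s - (ρ:ℂ).im) ^ 2 ≤ (t - (ρ:ℂ).im) ^ 2 := by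
      rw [sq_le_sq]
      rcases le_total t 0 with h | h
      · have e1 : s = 0 := by
          rw [hs, min_eq_left (by linarith only [hT, hr, h]), max_eq_left h]
        rw [e1, abs_of_nonpos (by linarith only [hg0]), abs_of_nonpos (by linarith only [hg0, h])]
        linarith only [h]
      · rcases le_total t T with h' | h'
        · have e1 : s = t := by
            rw [hs, min_eq_left h', max_eq_right h]
          rw [e1]
        · have e1 : s = T := by
            rw [hs, min_eq_right h', max_eq_right (by linarith only [hT, hr])]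
          rw [e1, abs_of_nonneg (by linarith only [hgT]), abs_of_nonneg (by linarith only [hgT, h'])]
          linarith only [h']
    have h5 : 5 * (1 + (t - (ρ:ℂ).im) ^ 2)⁻¹ ≤ 5 * (1 + (s - (ρ:ℂ).im) ^ 2)⁻¹ := by gcongr
    unfold fz
    set a := 2 - (ρ:ℂ).re with ha
    have ha1 : 1 < a := by rw [ha]; linarith only [hr]
    have ha2 : a < 2 := by rw [ha]; linarith only [hr]
    set w := s - (ρ:ℂ).im with hw
    have h6 : 5 * (1 + w ^ 2)⁻¹ ≤ 20 * (a / (a ^ 2 + w ^ 2)) := by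
      rw [← div_eq_mul_inv, ← mul_div_assoc, div_le_div_iff₀ (by positivity) (by positivity)]
      nlinarith only [hr, sq_nonneg w]
    calc mx ρ * gs X 0 (t - (ρ:ℂ).im) ≤ mx ρ * (20 * (a / (a ^ 2 + w ^ 2))) := by
          gcongr
          exact h3.trans (h5.trans h6)
      _ = _ := by ring
  rw [← Finset.mul_sum] at h2
  have : CLA * Real.log T ≥ 0 := by
    have := CLA_pos
    have := one_le_log hT
    positivity
  nlinarith only [hA, h1, h2]

/-- far-away decay against the fixed integrable majorant -/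
lemma Kd_far {X M w : ℝ} (hX : 1 ≤ X) (hM : 1 ≤ M) (hw : M ≤ |w|) : Kd X w ≤ 4 * M ^ (-(3/4) : ℝ) * wf w := by
  have hw1 : 1 ≤ |w| := hM.trans hw
  have hw0 : 0 < |w| := by linarith only [hM, hw]
  refine (Kd_le_one hX w).trans ?_
  have h1 : (1 + w ^ 2)⁻¹ ≤ (|w| ^ 2)⁻¹ := by
    rw [sq_abs]
    have : 0 < w ^ 2 := by rw [← sq_abs]; positivity
    gcongr
    linarith
  have h2 : (|w| ^ 2)⁻¹ = |w| ^ (-(3/4) : ℝ) * |w| ^ (-(5/4) : ℝ) := by
    rw [← Real.rpow_add hw0, ← Real.rpow_natCast, ← Real.rpow_neg hw0.le]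
    norm_num
  have h3 : |w| ^ (-(3/4) : ℝ) ≤ M ^ (-(3/4) : ℝ) := Real.rpow_le_rpow_of_nonpos (by linarith only [hM]) hw (by norm_num)
  have h4 : |w| ^ (-(5/4) : ℝ) ≤ 4 * wf w := by
    unfold wf
    rw [Real.norm_eq_abs]
    have h5 : (1 + |w|) ^ (-(5/4) : ℝ) ≥ (2 * |w|) ^ (-(5/4) : ℝ) := Real.rpow_le_rpow_of_nonpos (by linarith only [hM, hw]) (by linarith only [hM, hw]) (by norm_num)
    rw [Real.mul_rpow (by norm_num) hw0.le] at h5
    have h6 : (1/4 : ℝ) ≤ (2:ℝ) ^ (-(5/4) : ℝ) := by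
      have : (2:ℝ) ^ (-(2) : ℝ) ≤ (2:ℝ) ^ (-(5/4) : ℝ) := Real.rpow_le_rpow_of_exponent_le (by norm_num) (by norm_num)
      have e : (2:ℝ) ^ (-(2) : ℝ) = 1/4 := by
        rw [Real.rpow_neg (by norm_num)]
        norm_num
      linarith only [this]
    have h7 : 0 ≤ |w| ^ (-(5/4) : ℝ) := by positivity
    nlinarith only [h5, h6, h7]
  calc (1 + w ^ 2)⁻¹ ≤ |w| ^ (-(3/4) : ℝ) * |w| ^ (-(5/4) : ℝ) := h1.trans h2.le
    _ ≤ M ^ (-(3/4) : ℝ) * (4 * wf w) := by gcongr
    _ = _ := by ring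

end Pool.Agent.Helper57.LH

end

/-! ### Helper57.LH.VTwo -/

section

namespace Pool.Agent.Helper57.LH

open Set MeasureTheory Filter Topology

open Pool.Agent.Helper57.Zeta

/-- the main region -/
lemma main_region {T L B X a e W : ℝ} (hL : L = Real.log T) (hL40 : 40 ≤ L) (hB : 9600 ≤ B) (hX : X = L / B) (hX1 : 1 ≤ X)
    (ha : 20 ≤ a) (haT : a ≤ T) {Ψ : ℝ → ℝ} (hΨc : Continuous Ψ) (hΨ : DomPsi T B Ψ)
    (he0 : 0 ≤ e) (he : ∀ t ∈ Icc a T, |MT X t / X - B| ≤ e) (hW : ∫ t in Icc a T, (16 * RB T L B X Ψ t) ^ 2 ≤ W) (F : Finset ZS) :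
    ∫ t in Icc a T, Yf F X t ^ 2 ≤ B ^ 2 * T + 2 * B * (e * T + 12 * Real.exp X + Real.sqrt T * Real.sqrt W) +
      3 * (e ^ 2 * T + (8 * T + 32 * Real.exp (3 * X)) + W) := by
  have hX0 : 0 < X := by linarith
  have hB0 : 0 < B := by linarith only [hB]
  have hL0 : 0 < L := by linarith only [hL40]
  have ha0 : 0 < a := by linarith only [ha]
  have hT0 : 0 < T := by linarith only [ha, haT]
  obtain ⟨R, hR⟩ : ∃ R : ℝ → ℝ, R = fun t => 16 * RB T L B X Ψ t := ⟨_, rfl⟩
  have hRc : ContinuousOn R (Icc a T) := by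
    rw [hR]; exact continuousOn_const.mul (RB_contOn ha0 hΨc)
  have hW' : ∫ t in Icc a T, R t ^ 2 ≤ W := by rw [hR]; exact hW
  have hPc : ContinuousOn (PS X) (Icc a T) := (PS_cont hX0).continuousOn
  have iR : IntegrableOn R (Icc a T) := hRc.integrableOn_compact isCompact_Icc
  have iP : IntegrableOn (PS X) (Icc a T) := hPc.integrableOn_compact isCompact_Icc
  have iR2 : IntegrableOn (fun t => R t ^ 2) (Icc a T) := (hRc.pow 2).integrableOn_compact isCompact_Icc
  have iP2 : IntegrableOn (fun t => PS X t ^ 2) (Icc a T) := (hPc.pow 2).integrableOn_compact isCompact_Icc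
  have ic : ∀ c : ℝ, IntegrableOn (fun _ : ℝ => c) (Icc a T) := fun c => (continuousOn_const).integrableOn_compact isCompact_Icc
  -- pointwise
  have hpt : ∀ t ∈ Icc a T, Yf F X t ^ 2 ≤ (B ^ 2 + 2 * B * e + 3 * e ^ 2) + ((2 * B) * (R t) + ((-(2 * B)) * (PS X t) + (3 * PS X t ^ 2 + 3 * R t ^ 2))) := by
    intro t ht
    have h1 := Y_le hL hL40 hB hX hX1 (ha.trans ht.1) ht.2 hΨc hΨ F
    have h2 := (abs_le.mp (he t ht)).2
    have h3 : Yf F X t ≤ B + (e - PS X t + R t) := by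
      unfold Yf
      rw [hR]
      simp only
      linarith only [h1, h2]
    have h4 := Yf_nonneg F hX0 t
    have h5 : Yf F X t ^ 2 ≤ (B + (e - PS X t + R t)) ^ 2 := pow_le_pow_left₀ h4 h3 2
    nlinarith only [h5, sq_nonneg (e + PS X t), sq_nonneg (e - R t), sq_nonneg (PS X t + R t)]
  have h1 : ∫ t in Icc a T, Yf F X t ^ 2 ≤ ∫ t in Icc a T, ((B ^ 2 + 2 * B * e + 3 * e ^ 2) + ((2 * B) * (R t) + ((-(2 * B)) * (PS X t) + (3 * PS X t ^ 2 + 3 * R t ^ 2)))) := by
    apply setIntegral_mono_on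
    · exact ((Yf_cont F X).pow 2).continuousOn.integrableOn_compact isCompact_Icc
    · exact (ic _).add ((iR.const_mul _).add ((iP.const_mul _).add ((iP2.const_mul _).add (iR2.const_mul _))))
    · exact measurableSet_Icc
    · exact hpt
  have e1 := integral_add (μ := volume.restrict (Icc a T)) (f := fun t => (B ^ 2 + 2 * B * e + 3 * e ^ 2))
    (g := fun t => ((2 * B) * (R t) + ((-(2 * B)) * (PS X t) + (3 * PS X t ^ 2 + 3 * R t ^ 2)))) (ic _)
    ((iR.const_mul _).add ((iP.const_mul _).add ((iP2.const_mul _).add (iR2.const_mul _))))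
  have e2 := integral_add (μ := volume.restrict (Icc a T)) (f := fun t => (2 * B) * (R t))
    (g := fun t => ((-(2 * B)) * (PS X t) + (3 * PS X t ^ 2 + 3 * R t ^ 2))) (iR.const_mul _)
    ((iP.const_mul _).add ((iP2.const_mul _).add (iR2.const_mul _)))
  have e3 := integral_add (μ := volume.restrict (Icc a T)) (f := fun t => (-(2 * B)) * (PS X t))
    (g := fun t => (3 * PS X t ^ 2 + 3 * R t ^ 2)) (iP.const_mul _) ((iP2.const_mul _).add (iR2.const_mul _))
  have e4 := integral_add (μ := volume.restrict (Icc a T)) (f := fun t => 3 * PS X t ^ 2)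
    (g := fun t => 3 * R t ^ 2) (iP2.const_mul _) (iR2.const_mul _)
  rw [e1, e2, e3, e4, integral_const_mul, integral_const_mul, integral_const_mul, integral_const_mul, setIntegral_const,
    Real.volume_real_Icc_of_le haT, smul_eq_mul] at h1
  -- the prime sums
  have hP1 : |∫ t in Icc a T, PS X t| ≤ 12 * Real.exp X := by
    rw [integral_Icc_eq_integral_Ioc, ← intervalIntegral.integral_of_le haT]
    exact PS_mean hX0 a T
  have hP2 : ∫ t in Icc a T, PS X t ^ 2 ≤ 8 * (T - a) + 32 * Real.exp (3 * X) := by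
    rw [integral_Icc_eq_integral_Ioc, ← intervalIntegral.integral_of_le haT]
    exact PS_sq hX0 haT
  -- Cauchy-Schwarz
  have hR1 : ∫ t in Icc a T, R t ≤ Real.sqrt T * Real.sqrt W := by
    have hR0 : ∀ t ∈ Icc a T, 0 ≤ R t := by
      intro t ht
      have := RB_nonneg (T := T) (L := L) (B := B) (X := X) hL0.le Ψ (t := t) (by have := ht.1; linarith only [ha, this])
      rw [hR]
      simp only
      linarith only [this]
    have hcs := cs_gen (μ := volume.restrict (Icc a T)) (f := fun _ => (1:ℝ)) (g := fun t => |R t|) (fun _ => zero_le_one)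
      (fun t => abs_nonneg _) aestronglyMeasurable_const
      ((hRc.aestronglyMeasurable measurableSet_Icc).norm) (by simp) (by
        simp_rw [sq_abs]
        exact iR2)
    simp only [one_mul, one_pow, sq_abs] at hcs
    have e5 : ∫ t in Icc a T, R t = ∫ t in Icc a T, |R t| := by
      apply setIntegral_congr_fun measurableSet_Icc
      intro t ht
      simp only
      rw [abs_of_nonneg (hR0 t ht)]
    rw [e5]
    refine hcs.trans ?_
    rw [setIntegral_const, Real.volume_real_Icc_of_le haT, smul_eq_mul, mul_one]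
    apply mul_le_mul
    · apply Real.sqrt_le_sqrt; linarith only [ha]
    · exact Real.sqrt_le_sqrt hW'
    · exact Real.sqrt_nonneg _
    · exact Real.sqrt_nonneg _
  have hP1' := (abs_le.mp hP1).1
  have hP1'' : -(2 * B) * ∫ t in Icc a T, PS X t ≤ 2 * B * (12 * Real.exp X) := by nlinarith only [hB, hP1']
  have hR1' : 2 * B * ∫ t in Icc a T, R t ≤ 2 * B * (Real.sqrt T * Real.sqrt W) := by gcongr
  have h2 : (T - a) * (B ^ 2 + 2 * B * e + 3 * e ^ 2) ≤ T * (B ^ 2 + 2 * B * e + 3 * e ^ 2) := by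
    have : 0 ≤ B ^ 2 + 2 * B * e + 3 * e ^ 2 := by positivity
    nlinarith only [hB, ha, he0, this]
  linarith only [ha, hW', h1, hP2, hP1'', hR1', h2]

lemma Yf_sq_integrable (F : Finset ZS) {X : ℝ} (hX : 1 ≤ X) : Integrable (fun t => Yf F X t ^ 2) := by
  have hX0 : 0 < X := by linarith
  have hG : Integrable (fun t => (∑ ρ ∈ F, mx ρ) * ∑ ρ ∈ F, mx ρ * (5 * Kd X (t - (ρ:ℂ).im))) := by
    apply Integrable.const_mul
    apply integrable_finsetSum
    intro ρ _
    exact (((Kd_integrable hX0).comp_sub_right _).const_mul 5).const_mul _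
  refine hG.mono' ((Yf_cont F X).pow 2).aestronglyMeasurable ?_
  filter_upwards with t
  rw [Real.norm_of_nonneg (by positivity), pow_two]
  have h1 : Yf F X t ≤ ∑ ρ ∈ F, mx ρ := by
    unfold Yf
    refine Finset.sum_le_sum fun ρ _ => ?_
    have := gs_zero_le_one hX0 (t - (ρ:ℂ).im)
    have := mx_nonneg (ρ:ℂ)
    nlinarith
  have h2 : Yf F X t ≤ ∑ ρ ∈ F, mx ρ * (5 * Kd X (t - (ρ:ℂ).im)) := by
    unfold Yf
    refine Finset.sum_le_sum fun ρ _ => ?_
    have := gs_zero_decay hX0 (t - (ρ:ℂ).im)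
    have := mx_nonneg (ρ:ℂ)
    gcongr
  have h3 := Yf_nonneg F hX0 t
  apply mul_le_mul h1 h2 h3 (h3.trans h1)

/-- the complementary region -/
lemma compl_region {T X a M : ℝ} (hT : 3 ≤ T) (hX : 1 ≤ X) (hM : 1 ≤ M) (ha : 0 ≤ a) {F : Finset ZS}
    (hF : ∀ ρ ∈ F, 0 ≤ (ρ:ℂ).im ∧ (ρ:ℂ).im ≤ T) :
    ∫ t in (Icc a T)ᶜ, Yf F X t ^ 2 ≤ (20 * CLA * Real.log T) ^ 2 * (a + 2 * M) +
      400 * CLA * Real.log T * M ^ (-(3/4) : ℝ) * (∑ ρ ∈ F, mx ρ) * C1 := by
  have hX0 : 0 < X := by linarith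
  have hCLA := CLA_pos
  have hL := one_le_log hT
  set c := 20 * CLA * Real.log T with hc
  have hc0 : 0 < c := by rw [hc]; positivity
  set S : Set ℝ := Icc (-M) a ∪ Icc T (T + M) with hS
  have hSm : MeasurableSet S := measurableSet_Icc.union measurableSet_Icc
  have hSv : volume S < ⊤ := by
    refine (measure_union_le _ _).trans_lt ?_
    rw [Real.volume_Icc, Real.volume_Icc]
    exact ENNReal.add_lt_top.mpr ⟨ENNReal.ofReal_lt_top, ENNReal.ofReal_lt_top⟩
  set G1 : ℝ → ℝ := S.indicator (fun _ => c ^ 2) with hG1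
  set G2 : ℝ → ℝ := fun t => ∑ ρ ∈ F, (c * (20 * M ^ (-(3/4) : ℝ)) * mx ρ) * wf (t - (ρ:ℂ).im) with hG2
  have iG1 : Integrable G1 := by
    rw [hG1, integrable_indicator_iff hSm]
    exact integrableOn_const hSv.ne
  have iG2 : Integrable G2 := by
    apply integrable_finsetSum
    intro ρ _
    exact (wf_integrable.comp_sub_right _).const_mul _
  have hMp : 0 < M ^ (-(3/4) : ℝ) := Real.rpow_pos_of_pos (by linarith only [hM]) _
  have hG10 : ∀ t, 0 ≤ G1 t := fun t => by
    rw [hG1]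
    exact indicator_nonneg (fun _ _ => by positivity) t
  have hG20 : ∀ t, 0 ≤ G2 t := fun t => by
    rw [hG2]
    refine Finset.sum_nonneg fun ρ _ => ?_
    have := mx_nonneg (ρ:ℂ)
    have := wf_nonneg (t - (ρ:ℂ).im)
    positivity
  have hpt : ∀ t ∈ (Icc a T)ᶜ, Yf F X t ^ 2 ≤ G1 t + G2 t := by
    intro t ht
    have hy := Yf_le_log hT hX hF t
    have hy0 := Yf_nonneg F hX0 t
    by_cases htS : t ∈ S
    · have e1 : G1 t = c ^ 2 := by rw [hG1]; exact indicator_of_mem htS _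
      rw [e1]
      have := pow_le_pow_left₀ hy0 hy 2
      linarith only [hG20, this, hG20 t]
    · have h2 : Yf F X t ^ 2 ≤ c * Yf F X t := by
        rw [pow_two]; gcongr
      have h3 : c * Yf F X t ≤ G2 t := by
        unfold Yf
        rw [hG2]
        simp only
        rw [Finset.mul_sum]
        refine Finset.sum_le_sum fun ρ hρ => ?_
        obtain ⟨hg0, hgT⟩ := hF ρ hρ
        have hfar : M ≤ |t - (ρ:ℂ).im| := by
          rw [hS, mem_union, not_or] at htS
          obtain ⟨h4, h5⟩ := htS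
          simp only [mem_Icc, not_and_or, not_le] at h4 h5
          rw [mem_compl_iff, mem_Icc, not_and_or, not_le, not_le] at ht
          rw [le_abs]
          rcases ht with h | h
          · right
            rcases h4 with h4 | h4
            · linarith only [hg0, h4]
            · linarith only [h, h4]
          · left
            rcases h5 with h5 | h5
            · linarith only [h, h5]
            · linarith only [hgT, h5]
        have h6 := gs_zero_decay hX0 (t - (ρ:ℂ).im)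
        have h7 := Kd_far hX hM hfar
        have := mx_nonneg (ρ:ℂ)
        calc c * (mx ρ * gs X 0 (t - (ρ:ℂ).im)) ≤ c * (mx ρ * (5 * (4 * M ^ (-(3/4) : ℝ) * wf (t - (ρ:ℂ).im)))) := by
              gcongr
              exact h6.trans (by linarith only [h7])
          _ = _ := by ring
      linarith only [hG10, h2, h3, hG10 t]
  have h1 : ∫ t in (Icc a T)ᶜ, Yf F X t ^ 2 ≤ ∫ t in (Icc a T)ᶜ, (G1 t + G2 t) := by
    apply setIntegral_mono_on (Yf_sq_integrable F hX).integrableOn (iG1.add iG2).integrableOn measurableSet_Icc.compl hpt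
  have h2 : ∫ t in (Icc a T)ᶜ, (G1 t + G2 t) ≤ ∫ t, (G1 t + G2 t) :=
    setIntegral_le_integral (iG1.add iG2) (Eventually.of_forall fun t => add_nonneg (hG10 t) (hG20 t))
  have h3 : ∫ t, (G1 t + G2 t) = (∫ t, G1 t) + ∫ t, G2 t := integral_add iG1 iG2
  have h4 : ∫ t, G1 t ≤ c ^ 2 * (a + 2 * M) := by
    rw [hG1, integral_indicator hSm, setIntegral_const, smul_eq_mul, mul_comm]
    have h5 : volume.real S ≤ a + 2 * M := by
      rw [hS]
      refine (measureReal_union_le _ _).trans ?_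
      rw [Real.volume_real_Icc_of_le (by linarith only [hM, ha]), Real.volume_real_Icc_of_le (by linarith only [hM])]
      linarith only []
    gcongr
  have h5 : ∫ t, G2 t = 400 * CLA * Real.log T * M ^ (-(3/4) : ℝ) * (∑ ρ ∈ F, mx ρ) * C1 := by
    rw [hG2, integral_finsetSum]
    · have e1 : ∀ ρ : ZS, ∫ t, (c * (20 * M ^ (-(3/4) : ℝ)) * mx ρ) * wf (t - (ρ:ℂ).im) = (c * (20 * M ^ (-(3/4) : ℝ)) * C1) * mx ρ := by
        intro ρ
        rw [integral_const_mul]
        have e2 : ∫ t, wf (t - (ρ:ℂ).im) = C1 := integral_sub_right_eq_self wf (ρ:ℂ).im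
        rw [e2]
        ring
      simp_rw [e1]
      rw [← Finset.mul_sum, hc]
      ring
    · intro ρ _
      exact (wf_integrable.comp_sub_right _).const_mul _
  linarith only [h1, h2, h3, h4, h5]

end Pool.Agent.Helper57.LH

end

/-! ### Helper57.LH.VThree -/

section

namespace Pool.Agent.Helper57.LH

open Set MeasureTheory Filter Topology

open Pool.Agent.Helper57.Zeta

open Pool.Agent.Helper57.PC (mult IsNontrivialZero zerosUpTo)

lemma log_pow_le (c : ℝ) (k : ℕ) {s : ℝ} (hs : s < 1) : ∀ᶠ T : ℝ in atTop, c * Real.log T ^ k * T ^ s ≤ T := by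
  have h := isLittleO_log_rpow_rpow_atTop (k:ℝ) (s := 1 - s) (by linarith)
  have hc : 0 < |c| + 1 := by positivity
  have h2 := h.bound (c := 1 / (|c| + 1)) (by positivity)
  filter_upwards [h2, eventually_gt_atTop (0:ℝ)] with T hT hT0
  rw [Real.rpow_natCast, Real.norm_of_nonneg (Real.rpow_nonneg hT0.le _), Real.norm_eq_abs] at hT
  have hTs : 0 < T ^ s := Real.rpow_pos_of_pos hT0 _
  have hTs' : 0 < T ^ (1 - s) := Real.rpow_pos_of_pos hT0 _
  have e : T ^ (1 - s) * T ^ s = T := by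
    rw [← Real.rpow_add hT0]; simp
  have h3 : c * Real.log T ^ k ≤ T ^ (1 - s) := by
    calc c * Real.log T ^ k ≤ |c * Real.log T ^ k| := le_abs_self _
      _ = |c| * |Real.log T ^ k| := abs_mul _ _
      _ ≤ (|c| + 1) * (1 / (|c| + 1) * T ^ (1 - s)) := by
          gcongr
          linarith only []
      _ = _ := by field_simp
  calc c * Real.log T ^ k * T ^ s ≤ T ^ (1 - s) * T ^ s := by gcongr
    _ = T := e

open Classical in
/-- zeros with ordinate in [0,T], as a finset of the subtype -/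
noncomputable def ZT (T : ℝ) : Finset ZS := (Zf T).subtype (fun ρ => xi ρ = 0)

lemma mem_ZT {T : ℝ} {ρ : ZS} : ρ ∈ ZT T ↔ 0 ≤ (ρ:ℂ).im ∧ (ρ:ℂ).im ≤ T := by
  unfold ZT
  rw [Finset.mem_subtype, mem_Zf, isNontrivialZero_iff]
  constructor
  · exact fun h => h.2
  · exact fun h => ⟨ρ.2, h⟩

lemma sum_ZT (T : ℝ) (f : ℂ → ℝ) : ∑ ρ ∈ ZT T, f ρ = ∑ ρ ∈ Zf T, f ρ := by
  classical
  unfold ZT
  apply Finset.sum_subtype_of_mem
  intro ρ hρ
  rw [mem_Zf] at hρ
  exact isNontrivialZero_iff.mp hρ.1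

lemma sum_ZT_mx (T : ℝ) : ∑ ρ ∈ ZT T, mx ρ = NT T := by
  rw [sum_ZT T (fun ρ => mx ρ)]
  unfold NT
  refine Finset.sum_congr rfl fun ρ hρ => ?_
  rw [mem_Zf] at hρ
  rw [mult_eq hρ.1]
  rfl

lemma NT_le_ev : ∀ᶠ T : ℝ in atTop, NT T ≤ T * Real.log T := by
  obtain ⟨T₀, h⟩ := NT_upper 1 one_pos
  filter_upwards [eventually_ge_atTop T₀, eventually_ge_atTop 3] with T hT hT3
  have h1 := h T hT
  have hL := one_le_log hT3
  have hpi := Real.pi_gt_three
  have h2 : (1 + 1) * (T * Real.log T / (2 * Real.pi)) = T * Real.log T / Real.pi := by ring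
  have h3 : T * Real.log T / Real.pi ≤ T * Real.log T := by
    apply div_le_self
    · positivity
    · linarith only [hpi]
  linarith

/-- The error function of the main term. -/
noncomputable def ee (B L : ℝ) : ℝ := B * (CM + 3 * Real.log L) / L

lemma CM_pos : 0 < CM := by unfold CM; positivity

lemma ee_small {B : ℝ} (hB : 0 < B) : ∀ᶠ T : ℝ in atTop, ee B (Real.log T) ≤ 1 / B := by
  have hl := Real.tendsto_log_atTop
  filter_upwards [hl.eventually_ge_atTop (2 * B ^ 2 * CM), hl.eventually_ge_atTop ((12 * B ^ 2) ^ 2), hl.eventually_ge_atTop 1] with T h1 h2 h3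
  set L := Real.log T
  have hL0 : 0 < L := by linarith
  unfold ee
  have h4 := log_le_two_sqrt hL0
  have h5 : 12 * B ^ 2 ≤ Real.sqrt L := by
    rw [← Real.sqrt_sq (by positivity : (0:ℝ) ≤ 12 * B ^ 2)]
    exact Real.sqrt_le_sqrt h2
  have h6 : Real.sqrt L * Real.sqrt L = L := Real.mul_self_sqrt hL0.le
  have h7 : 12 * B ^ 2 * Real.sqrt L ≤ L := by
    nlinarith only [h2, h5, h6, Real.sqrt_nonneg L]
  rw [div_le_div_iff₀ hL0 hB]
  have h8 : B * (CM + 3 * Real.log L) * B ≤ B ^ 2 * CM + B ^ 2 * (6 * Real.sqrt L) := by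
    have : 0 < B ^ 2 := by positivity
    nlinarith only [h4]
  linarith only [h1, h7, h8]

lemma ee_bound {T B L X t : ℝ} (hL : L = Real.log T) (hL40 : 40 ≤ L) (hB : 9600 ≤ B) (hX : X = L / B) (hX1 : 1 ≤ X)
    (hT : 1 ≤ T) (haT2 : Real.sqrt T ≤ T / L ^ 3) (ht : t ∈ Icc (T / L ^ 3) T) : |MT X t / X - B| ≤ ee B L := by
  have hL0 : 0 < L := by linarith only [hL40]
  have hB0 : 0 < B := by linarith only [hB]
  have hX0 : 0 < X := by linarith only [hX1]
  have hT0 : 0 < T := by linarith only [hT]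
  have hs1 : 1 ≤ Real.sqrt T := by rw [Real.one_le_sqrt]; exact hT
  obtain ⟨h1, h2⟩ := ht
  have ht1 : 1 ≤ t := by linarith
  have hXt : Real.exp (X / 2) ≤ t ^ 2 := by
    have h3 : Real.exp (X / 2) ≤ T := by
      rw [← Real.exp_log hT0, ← hL]
      apply Real.exp_le_exp.mpr
      rw [hX]
      have : L / B ≤ L := div_le_self hL0.le (by linarith only [hB])
      linarith only [hL40, this]
    have h4 : T ≤ t ^ 2 := by
      have h5 : Real.sqrt T ≤ t := haT2.trans h1
      calc T = Real.sqrt T ^ 2 := (Real.sq_sqrt hT0.le).symm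
        _ ≤ t ^ 2 := by gcongr
    exact h3.trans h4
  have h3 := MT_bound hX1 ht1 hXt
  have h4 : Real.log t ≤ L := by rw [hL]; exact Real.log_le_log (by linarith only [haT2, hs1, h1]) h2
  have h5 : L - 3 * Real.log L ≤ Real.log t := by
    have h6 : Real.log (T / L ^ 3) = L - 3 * Real.log L := by
      rw [Real.log_div hT0.ne' (by positivity), Real.log_pow, ← hL]
      norm_num
    rw [← h6]
    exact Real.log_le_log (by positivity) h1
  have h6 : |MT X t - L| ≤ CM + 3 * Real.log L := by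
    rw [abs_le] at h3 ⊢
    constructor
    · linarith only [h3, h5, h3.1]
    · have : 0 ≤ Real.log L := Real.log_nonneg (by linarith only [hL40])
      linarith only [h3, h4, h5, h3.2]
  have h7 : MT X t / X - B = (MT X t - L) / X := by
    rw [hX]; field_simp
  rw [h7, abs_div, abs_of_pos hX0]
  unfold ee
  rw [hX]
  calc |MT (L / B) t - L| / (L / B) = B * |MT (L / B) t - L| / L := by field_simp
    _ ≤ _ := by
        rw [← hX]
        gcongr

/-- The second moment of the Fejer sum over zeros. -/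
theorem YT_sq : ∃ C : ℝ, 0 < C ∧ ∀ B : ℝ, 9600 ≤ B → ∀ᶠ T : ℝ in atTop,
    ∫ t, Yf (ZT T) (Real.log T / B) t ^ 2 ≤ T * (B ^ 2 + C) := by
  obtain ⟨CQ, hCQ, T0, hT0, hQ⟩ := Qbound
  set K : ℝ := 1152 * Real.pi ^ 2 * CQ + 1 with hK
  have hK0 : 0 < K := by rw [hK]; positivity
  refine ⟨32 + 2 * Real.sqrt K + 3 * K, by positivity, fun B hB => ?_⟩
  have hB0 : 0 < B := by linarith only [hB]
  have hl := Real.tendsto_log_atTop
  have hCLA := CLA_pos
  have hC1 := C1_nonneg
  have hCA := CA_nonneg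
  have hB1 : 1 / B < 1 / 4 := by
    apply one_div_lt_one_div_of_lt <;> linarith
  have hB3 : 3 / B < 1 := by
    rw [div_lt_one hB0]; linarith only [hB]
  filter_upwards [eventually_ge_atTop T0, eventually_ge_atTop (400:ℝ), hl.eventually_ge_atTop 40, hl.eventually_ge_atTop B,
    log_pow_le 1 3 (s := 1/2) (by norm_num), ee_small hB0, log_pow_le (24 * B) 0 (s := 1/B) (by linarith only [hB1]),
    log_pow_le 96 0 (s := 3/B) hB3, log_pow_le (B ^ 2 * (1152 * (40 * CA * C1) ^ 2 / (16 * B ^ 4))) 6 (s := 1/B + 3/4) (by linarith only [hB1]),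
    NT_le_ev, hl.eventually_ge_atTop (1600 * CLA ^ 2), log_pow_le (3200 * CLA ^ 2) 2 (s := 1/2) (by norm_num),
    log_pow_le (1600 * CLA * C1) 2 (s := 5/8) (by norm_num)] with T g1 g2 g3 g4 g5 g6 g7 g8 g9 g10 g11 g12 g13
  have hT0' : 0 < T := by linarith only [hT0, g1]
  have e7 : Real.exp (Real.log T / B) = T ^ (1 / B) := by
    rw [Real.rpow_def_of_pos hT0']; congr 1; ring
  have e8 : Real.exp (3 * (Real.log T / B)) = T ^ (3 / B) := by
    rw [Real.rpow_def_of_pos hT0']; congr 1; ring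
  obtain ⟨L, hL⟩ : ∃ L, L = Real.log T := ⟨_, rfl⟩
  obtain ⟨X, hX⟩ : ∃ X, X = L / B := ⟨_, rfl⟩
  rw [← hL, ← hX] at e7 e8
  rw [← hL] at g3 g4 g5 g6 g7 g8 g9 g10 g11 g12 g13 ⊢
  rw [← hX]
  have hL0 : 0 < L := by linarith only [hB, g4]
  have hX1 : 1 ≤ X := by rw [hX, le_div_iff₀ hB0]; linarith only [g4]
  have hX0 : 0 < X := by linarith only [hX1]
  have hsT : Real.sqrt T = T ^ (1/2 : ℝ) := Real.sqrt_eq_rpow T
  have hsT20 : 20 ≤ Real.sqrt T := by
    rw [Real.le_sqrt (by norm_num) hT0'.le]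
    linarith only [hT0, g1]
  have haT2 : Real.sqrt T ≤ T / L ^ 3 := by
    rw [le_div_iff₀ (by positivity), hsT]
    linarith only [g5]
  have ha20 : 20 ≤ T / L ^ 3 := hsT20.trans haT2
  have haT : T / L ^ 3 ≤ T := by
    apply div_le_self hT0'.le
    have : (1:ℝ) ≤ L := by linarith only [hB, g4]
    exact one_le_pow₀ this
  obtain ⟨Ψ, hΨc, hΨ0, hΨi, hΨd⟩ := hQ T g1 B hB
  have hdom : DomPsi T B Ψ := hΨd
  have hZT : ∀ ρ ∈ ZT T, 0 ≤ (ρ:ℂ).im ∧ (ρ:ℂ).im ≤ T := fun ρ hρ => mem_ZT.mp hρ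
  have hRB := RB_sq (T := T) (L := L) (B := B) (X := X) (a := T / L ^ 3) (C := CQ) hL0 hB0 hX (by linarith only [hsT20, haT2]) haT haT2 hΨc hΨ0 hΨi
  -- W
  have hDC : 1152 * L ^ 2 * DC B L ^ 2 * T ^ (3/4 : ℝ) ≤ T / B ^ 2 := by
    have e1 : DC B L ^ 2 = L ^ 4 * (40 * CA * C1) ^ 2 / (16 * B ^ 4) * T ^ (1 / B) := by
      unfold DC WM Wt
      have e2 : Real.exp (L / 2 / B) ^ 2 = T ^ (1 / B) := by
        rw [← e7, ← Real.exp_nat_mul, hX]
        congr 1
        push_cast
        ring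
      rw [← e2]
      field_simp
      ring
    rw [e1, le_div_iff₀ (by positivity)]
    refine le_trans (le_of_eq ?_) g9
    rw [Real.rpow_add hT0']
    ring
  have hW : ∫ t in Icc (T / L ^ 3) T, (16 * RB T L B X Ψ t) ^ 2 ≤ K * (T / B ^ 2) := by
    refine hRB.trans ?_
    rw [hK]
    linarith only [hDC]
  have hee0 : 0 ≤ ee B L := by
    unfold ee
    have := CM_pos
    have : 0 ≤ Real.log L := Real.log_nonneg (by linarith only [hB, g4])
    positivity
  have hmain := main_region hL g3 hB hX hX1 ha20 haT hΨc hdom hee0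
    (fun t ht => ee_bound hL g3 hB hX hX1 (by linarith only [hT0, g1]) haT2 ht) hW (ZT T)
  have hcompl := compl_region (T := T) (X := X) (a := T / L ^ 3) (M := Real.sqrt T) (by linarith only [hT0, g1]) hX1 (by linarith only [hsT20]) (by positivity) hZT
  have hint := integral_add_compl (μ := volume) (f := fun t => Yf (ZT T) X t ^ 2) (measurableSet_Icc (a := T / L ^ 3) (b := T)) (Yf_sq_integrable (ZT T) hX1)
  rw [← hint]
  have hM1 : ∫ t in Icc (T / L ^ 3) T, Yf (ZT T) X t ^ 2 ≤ T * (B ^ 2 + (31 + 2 * Real.sqrt K + 3 * K)) := by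
    refine hmain.trans ?_
    have q1 : 2 * B * (ee B L * T) ≤ 2 * T := by
      have h1 : ee B L * B ≤ 1 := by
        rw [le_div_iff₀ hB0] at g6; exact g6
      calc 2 * B * (ee B L * T) = 2 * (ee B L * B) * T := by ring
        _ ≤ 2 * 1 * T := by gcongr
        _ = _ := by ring
    have q2 : 24 * B * Real.exp X ≤ T := by
      rw [e7]; simpa using g7
    have q3 : 96 * Real.exp (3 * X) ≤ T := by
      rw [e8]; simpa using g8
    have q4 : 2 * B * (Real.sqrt T * Real.sqrt (K * (T / B ^ 2))) = 2 * Real.sqrt K * T := by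
      rw [Real.sqrt_mul hK0.le, Real.sqrt_div hT0'.le, Real.sqrt_sq hB0.le]
      have := Real.mul_self_sqrt hT0'.le
      field_simp
      rw [Real.sq_sqrt hT0'.le]
    have q5 : ee B L ^ 2 ≤ 1 := by
      have : ee B L ≤ 1 := g6.trans (by rw [div_le_one hB0]; linarith only [hB])
      exact pow_le_one₀ hee0 this
    have q6 : K * (T / B ^ 2) ≤ K * T := by
      have : T / B ^ 2 ≤ T := by
        apply div_le_self hT0'.le
        nlinarith only [hB]
      gcongr
    have q5' : ee B L ^ 2 * T ≤ 1 * T := mul_le_mul_of_nonneg_right q5 hT0'.le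
    linarith only [g8, e8, q1, q2, q4, q6, q5']
  have hM2 : ∫ t in (Icc (T / L ^ 3) T)ᶜ, Yf (ZT T) X t ^ 2 ≤ T := by
    refine hcompl.trans ?_
    rw [sum_ZT_mx, ← hL]
    have r1 : Real.sqrt T ^ (-(3/4) : ℝ) = T ^ (-(3/8) : ℝ) := by
      rw [hsT, ← Real.rpow_mul hT0'.le]
      norm_num
    rw [r1]
    have r2 : (20 * CLA * L) ^ 2 * (T / L ^ 3 + 2 * Real.sqrt T) = 400 * CLA ^ 2 * (T / L) + 800 * CLA ^ 2 * L ^ 2 * T ^ (1/2 : ℝ) := by
      rw [hsT]
      field_simp
      ring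
    have r3 : 400 * CLA ^ 2 * (T / L) ≤ T / 4 := by
      rw [← mul_div_assoc, div_le_div_iff₀ hL0 (by norm_num)]
      nlinarith only [hT0, g1, g11]
    have r4 : 800 * CLA ^ 2 * L ^ 2 * T ^ (1/2 : ℝ) ≤ T / 4 := by linarith only [g12]
    have r5 : 400 * CLA * L * T ^ (-(3/8) : ℝ) * NT T * C1 ≤ T / 4 := by
      have hp : 0 < T ^ (-(3/8) : ℝ) := Real.rpow_pos_of_pos hT0' _
      have r6 : T * T ^ (-(3/8) : ℝ) = T ^ (5/8 : ℝ) := by
        nth_rewrite 1 [← Real.rpow_one T]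
        rw [← Real.rpow_add hT0']
        norm_num
      calc 400 * CLA * L * T ^ (-(3/8) : ℝ) * NT T * C1 ≤ 400 * CLA * L * T ^ (-(3/8) : ℝ) * (T * L) * C1 := by gcongr
        _ = 400 * CLA * C1 * L ^ 2 * (T * T ^ (-(3/8) : ℝ)) := by ring
        _ = 400 * CLA * C1 * L ^ 2 * T ^ (5/8 : ℝ) := by rw [r6]
        _ ≤ _ := by linarith only [g13]
    rw [r2]
    linarith only [hT0, g1, g12, r3, r5]
  linarith only [hM1, hM2]

end Pool.Agent.Helper57.LH

end

/-! ### Helper57.LH.Gone -/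

section

namespace Pool.Agent.Helper57.LH

open Set MeasureTheory Filter Topology

open Pool.Agent.Helper57.Zeta

open Pool.Agent.Helper57.PC (fejer_integral fejer_pointwise norm_sq_le_one measurable_sq ii_of_bdd intervalIntegrable_sq integral_sq_ge sq_nonneg')

/-- ∫_{-N/2}^{N/2} sinc² ≤ 1. -/
lemma integral_sq_le (N : ℕ) (hN : 0 < N) :
    ∫ u in (-((N:ℝ)/2))..((N:ℝ)/2), PC.sq u ≤ 1 := by
  have hN0 : (0:ℝ) < N := by exact_mod_cast hN
  have hsub : ∫ u in (-((N:ℝ)/2))..((N:ℝ)/2), PC.sq u =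
      N * ∫ x in (-(1/2):ℝ)..(1/2), PC.sq (N * x) := by
    have := intervalIntegral.integral_comp_mul_left (a := (-(1/2):ℝ)) (b := 1/2) (fun u => PC.sq u) hN0.ne'
    rw [this, smul_eq_mul, ← mul_assoc, mul_inv_cancel₀ hN0.ne', one_mul]
    congr 1 <;> ring
  have hpt : ∀ x ∈ Icc (-(1/2):ℝ) (1/2), x ≠ 0 →
      (N:ℝ) ^ 2 * PC.sq (N * x) ≤ ‖∑ k ∈ Finset.range N, Complex.exp (2 * Real.pi * Complex.I * k * x)‖ ^ 2 := by
    intro x hx hx0
    have hpx : |Real.pi * x| ≤ Real.pi / 2 := by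
      rw [abs_mul, abs_of_pos Real.pi_pos]
      have : |x| ≤ 1 / 2 := abs_le.mpr hx
      nlinarith only [this, Real.pi_pos]
    have hpx0 : Real.pi * x ≠ 0 := mul_ne_zero Real.pi_ne_zero hx0
    have hsin : Real.sin (Real.pi * x) ≠ 0 := by
      intro h
      have := Real.sin_eq_zero_iff_of_lt_of_lt (x := Real.pi * x)
        (by rw [abs_le] at hpx; linarith only [hpx, Real.pi_pos, hpx.1])
        (by rw [abs_le] at hpx; linarith only [hpx, Real.pi_pos, hpx.2])
      exact hpx0 (this.mp h)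
    rw [fejer_pointwise N x hsin]
    have h2 : (N:ℝ) ^ 2 * PC.sq (N * x) = Real.sin (Real.pi * N * x) ^ 2 / (Real.pi * x) ^ 2 := by
      unfold PC.sq
      rw [show Real.pi * (N * x) = Real.pi * N * x by ring]
      field_simp
    rw [h2]
    have h3 : Real.sin (Real.pi * x) ^ 2 ≤ (Real.pi * x) ^ 2 := sq_le_sq.mpr Real.abs_sin_le_abs
    have h4 : 0 < Real.sin (Real.pi * x) ^ 2 := by positivity
    gcongr
  have hint : IntervalIntegrable (fun x => (N:ℝ) ^ 2 * PC.sq (N * x)) volume (-(1/2)) (1/2) := by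
    apply IntervalIntegrable.const_mul
    exact ii_of_bdd (measurable_sq.comp (measurable_const_mul _)) (fun x => norm_sq_le_one _) _ _
  have hmono : ∫ x in (-(1/2):ℝ)..(1/2), ((N:ℝ) ^ 2 * PC.sq (N * x)) ≤
      ∫ x in (-(1/2):ℝ)..(1/2), ‖∑ k ∈ Finset.range N, Complex.exp (2 * Real.pi * Complex.I * k * x)‖ ^ 2 := by
    apply intervalIntegral.integral_mono_ae_restrict (by norm_num)
    · exact hint
    · apply Continuous.intervalIntegrable
      fun_prop
    · have h0 : ∀ᵐ x : ℝ ∂(volume.restrict (Icc (-(1/2):ℝ) (1/2))), x ≠ 0 :=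
        ae_restrict_of_ae (by
          rw [ae_iff]
          simp)
      filter_upwards [h0, ae_restrict_mem measurableSet_Icc] with x h1 h2
      exact hpt x h2 h1
  rw [fejer_integral N, intervalIntegral.integral_const_mul] at hmono
  rw [hsub]
  have h5 : (N:ℝ) * (N * ∫ x in (-(1/2):ℝ)..(1/2), PC.sq (N * x)) ≤ N * 1 := by
    calc (N:ℝ) * (N * ∫ x in (-(1/2):ℝ)..(1/2), PC.sq (N * x)) = (N:ℝ) ^ 2 * ∫ x in (-(1/2):ℝ)..(1/2), PC.sq (N * x) := by ring
      _ ≤ N := hmono
      _ = _ := by ring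
  exact le_of_mul_le_mul_left h5 hN0

/-- continuous sinc squared -/
noncomputable def sc (w : ℝ) : ℝ := gs (2 * Real.pi) 0 w

lemma two_pi_pos' : (0:ℝ) < 2 * Real.pi := by positivity

lemma sc_eq {w : ℝ} (hw : w ≠ 0) : sc w = PC.sq w := by
  unfold sc
  rw [gs_zero_eq two_pi_pos' hw]
  congr 1
  field_simp

lemma sc_zero : sc 0 = 1 := gs_zero_zero two_pi_pos'

lemma sc_nonneg (w : ℝ) : 0 ≤ sc w := gs_zero_nonneg two_pi_pos' w

lemma sc_le_one (w : ℝ) : sc w ≤ 1 := gs_zero_le_one two_pi_pos' w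

lemma sc_cont : Continuous sc := gs_cont _ _

lemma sc_decay (w : ℝ) : sc w ≤ 5 * Kd (2 * Real.pi) w := gs_zero_decay two_pi_pos' w

lemma sc_even (w : ℝ) : sc (-w) = sc w := by
  by_cases h : w = 0
  · simp [h]
  · rw [sc_eq h, sc_eq (neg_ne_zero.mpr h), PC.sq_even]

lemma gs_sc {X : ℝ} (hX : 0 < X) (w : ℝ) : gs X 0 w = sc (X / (2 * Real.pi) * w) := by
  by_cases h : w = 0
  · rw [h, mul_zero, gs_zero_zero hX, sc_zero]
  · have h2 : X / (2 * Real.pi) * w ≠ 0 := mul_ne_zero (by positivity) h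
    rw [gs_zero_eq hX h, sc_eq h2]
    congr 1
    ring

lemma sc_integrable : Integrable sc := by
  refine ((Kd_integrable two_pi_pos').const_mul 5).mono' sc_cont.aestronglyMeasurable ?_
  filter_upwards with w
  rw [Real.norm_of_nonneg (sc_nonneg w)]
  exact sc_decay w

lemma sc_ae : sc =ᵐ[volume] PC.sq := by
  have : ∀ᵐ w : ℝ, w ≠ 0 := by
    rw [ae_iff]; simp
  filter_upwards [this] with w hw
  exact sc_eq hw

lemma sc_interval (a b : ℝ) : ∫ w in a..b, sc w = ∫ w in a..b, PC.sq w := by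
  apply intervalIntegral.integral_congr_ae
  filter_upwards [sc_ae] with w hw _
  exact hw

lemma sc_integral : ∫ w, sc w = 1 := by
  have ht : Tendsto (fun N : ℕ => ∫ w in (-((N:ℝ)/2))..((N:ℝ)/2), sc w) atTop (𝓝 (∫ w, sc w)) := by
    apply intervalIntegral_tendsto_integral sc_integrable
    · have : Tendsto (fun N : ℕ => (N:ℝ)/2) atTop atTop := tendsto_natCast_atTop_atTop.atTop_div_const (by norm_num)
      exact tendsto_neg_atTop_atBot.comp this
    · exact tendsto_natCast_atTop_atTop.atTop_div_const (by norm_num)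
  apply le_antisymm
  · refine le_of_tendsto ht ?_
    filter_upwards [eventually_gt_atTop 0] with N hN
    rw [sc_interval]
    exact integral_sq_le N hN
  · have h1 : Tendsto (fun N : ℕ => 1 - 1 / (N:ℝ)) atTop (𝓝 (1 - 0)) :=
      tendsto_const_nhds.sub tendsto_one_div_atTop_nhds_zero_nat
    rw [sub_zero] at h1
    refine le_of_tendsto_of_tendsto h1 ht ?_
    filter_upwards [eventually_gt_atTop 0] with N hN
    rw [sc_interval]
    exact integral_sq_ge N hN

open scoped Convolution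

/-- the convolution square of sinc squared -/
noncomputable def Gm (y : ℝ) : ℝ := ∫ x, sc x * sc (y - x)

lemma Gm_conv : Gm = (sc ⋆[ContinuousLinearMap.mul ℝ ℝ, volume] sc) := by
  funext y
  rw [convolution_def]
  rfl

lemma Gm_integrable : Integrable Gm := by
  rw [Gm_conv]
  exact Integrable.integrable_convolution _ sc_integrable sc_integrable

lemma Gm_integral : ∫ y, Gm y = 1 := by
  rw [Gm_conv, integral_convolution _ sc_integrable sc_integrable, sc_integral]
  simp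

lemma Gm_nonneg (y : ℝ) : 0 ≤ Gm y := integral_nonneg fun x => mul_nonneg (sc_nonneg _) (sc_nonneg _)

lemma scsc_integrable (y : ℝ) : Integrable (fun x => sc x * sc (y - x)) := by
  refine sc_integrable.mono' (sc_cont.mul (sc_cont.comp (by fun_prop))).aestronglyMeasurable ?_
  filter_upwards with x
  rw [Real.norm_of_nonneg (mul_nonneg (sc_nonneg _) (sc_nonneg _))]
  have := sc_le_one (y - x)
  have := sc_nonneg x
  nlinarith

lemma Gm_cont : Continuous Gm := by
  unfold Gm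
  apply continuous_of_dominated (bound := sc)
  · intro y
    exact (sc_cont.mul (sc_cont.comp (by fun_prop))).aestronglyMeasurable
  · intro y
    filter_upwards with x
    rw [Real.norm_of_nonneg (mul_nonneg (sc_nonneg _) (sc_nonneg _))]
    have := sc_le_one (y - x)
    have := sc_nonneg x
    nlinarith
  · exact sc_integrable
  · filter_upwards with x
    exact continuous_const.mul (sc_cont.comp (by fun_prop))

lemma Gm_even (y : ℝ) : Gm (-y) = Gm y := by
  unfold Gm
  rw [← integral_neg_eq_self (fun x => sc x * sc (y - x)) volume]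
  congr 1
  funext x
  rw [sc_even, ← sc_even (-y - x)]
  congr 2
  ring

lemma Gm_le (y : ℝ) : Gm y ≤ Gm 0 := by
  have h2 : ∀ x, sc x * sc (y - x) ≤ (1/2) * sc x ^ 2 + (1/2) * sc (y - x) ^ 2 := by
    intro x
    nlinarith only [sq_nonneg (sc x - sc (y - x))]
  have i2 : Integrable (fun x => sc x ^ 2) := by
    have := scsc_integrable 0
    refine this.congr ?_
    filter_upwards with x
    rw [zero_sub, sc_even, pow_two]
  have i3 : Integrable (fun x => sc (y - x) ^ 2) := i2.comp_sub_left y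
  have h3 : Gm y ≤ ∫ x, ((1/2) * sc x ^ 2 + (1/2) * sc (y - x) ^ 2) :=
    integral_mono (scsc_integrable y) ((i2.const_mul _).add (i3.const_mul _)) h2
  rw [integral_add (i2.const_mul _) (i3.const_mul _), integral_const_mul, integral_const_mul,
    integral_sub_left_eq_self (fun x => sc x ^ 2) volume y] at h3
  have h4 : Gm 0 = ∫ x, sc x ^ 2 := by
    unfold Gm
    congr 1
    funext x
    rw [zero_sub, sc_even, pow_two]
  rw [h4]
  linarith only [h3]

lemma Gm_zero_pos : 0 < Gm 0 := by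
  by_contra h
  push Not at h
  have h1 : ∀ y, Gm y = 0 := fun y => le_antisymm ((Gm_le y).trans h) (Gm_nonneg y)
  have h2 := Gm_integral
  simp_rw [h1] at h2
  simp at h2

/-- Pair identity. -/
lemma gs_pair {X : ℝ} (hX : 0 < X) (g g' : ℝ) :
    ∫ t, gs X 0 (t - g) * gs X 0 (t - g') = 2 * Real.pi / X * Gm (X / (2 * Real.pi) * (g - g')) := by
  have hc : 0 < X / (2 * Real.pi) := by positivity
  set c := X / (2 * Real.pi) with hcd
  have e1 : ∀ t, gs X 0 (t - g) * gs X 0 (t - g') = (fun x => sc x * sc (c * (g - g') - x)) (c * (t - g')) := by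
    intro t
    simp only
    rw [gs_sc hX, gs_sc hX, ← hcd, mul_comm, ← sc_even (c * (t - g))]
    congr 2
    ring
  simp_rw [e1]
  have h1 : ∫ t, (fun x => sc x * sc (c * (g - g') - x)) (c * (t - g')) = ∫ t, (fun x => sc x * sc (c * (g - g') - x)) (c * t) :=
    integral_sub_right_eq_self (fun t => (fun x => sc x * sc (c * (g - g') - x)) (c * t)) g'
  rw [h1, Measure.integral_comp_mul_left (fun x => sc x * sc (c * (g - g') - x)) c, smul_eq_mul, abs_of_pos (by positivity)]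
  unfold Gm
  rw [hcd]
  congr 1
  field_simp

lemma gs_pair_integrable {X : ℝ} (hX : 0 < X) (g g' : ℝ) : Integrable (fun t => gs X 0 (t - g) * gs X 0 (t - g')) := by
  refine (((Kd_integrable hX).comp_sub_right g).const_mul 5).mono' (((gs_cont X 0).comp (by fun_prop)).mul ((gs_cont X 0).comp (by fun_prop))).aestronglyMeasurable ?_
  filter_upwards with t
  have h1 := gs_zero_nonneg hX (t - g)
  have h2 := gs_zero_nonneg hX (t - g')
  have h3 := gs_zero_le_one hX (t - g')
  have h4 := gs_zero_decay hX (t - g)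
  rw [Real.norm_of_nonneg (mul_nonneg h1 h2)]
  nlinarith only [h1, h3, h4]

end Pool.Agent.Helper57.LH

end

/-! ### Helper57.LH.Gtwo -/

section

namespace Pool.Agent.Helper57.LH

open Set MeasureTheory Filter Topology

open Pool.Agent.Helper57.Zeta

open Pool.Agent.Helper57.PC (mult IsNontrivialZero zerosUpTo nd SN SN_pos)

lemma Yf_sq_eq (T : ℝ) {X : ℝ} (hX : 0 < X) :
    ∫ t, Yf (ZT T) X t ^ 2 = 2 * Real.pi / X * ∑ p ∈ Zf T ×ˢ Zf T, (mult p.1 : ℝ) * (mult p.2 : ℝ) * Gm (X / (2 * Real.pi) * (p.1.im - p.2.im)) := by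
  have e1 : ∀ t, Yf (ZT T) X t ^ 2 = ∑ ρ ∈ ZT T, ∑ ρ' ∈ ZT T, (mx ρ * mx ρ') * (gs X 0 (t - (ρ:ℂ).im) * gs X 0 (t - (ρ':ℂ).im)) := by
    intro t
    unfold Yf
    rw [pow_two, Finset.sum_mul_sum]
    refine Finset.sum_congr rfl fun ρ _ => Finset.sum_congr rfl fun ρ' _ => ?_
    ring
  simp_rw [e1]
  rw [integral_finsetSum]
  · have e2 : ∀ ρ : ZS, ∫ t, ∑ ρ' ∈ ZT T, (mx ρ * mx ρ') * (gs X 0 (t - (ρ:ℂ).im) * gs X 0 (t - (ρ':ℂ).im)) =
        ∑ ρ' ∈ ZT T, (mx ρ * mx ρ') * (2 * Real.pi / X * Gm (X / (2 * Real.pi) * ((ρ:ℂ).im - (ρ':ℂ).im))) := by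
      intro ρ
      rw [integral_finsetSum]
      · refine Finset.sum_congr rfl fun ρ' _ => ?_
        rw [integral_const_mul, gs_pair hX]
      · intro ρ' _
        exact (gs_pair_integrable hX _ _).const_mul _
    simp_rw [e2]
    have e3 : ∀ ρ : ZS, ∑ ρ' ∈ ZT T, (mx ρ * mx ρ') * (2 * Real.pi / X * Gm (X / (2 * Real.pi) * ((ρ:ℂ).im - (ρ':ℂ).im))) =
        ∑ ρ' ∈ Zf T, (mx ρ * mx ρ') * (2 * Real.pi / X * Gm (X / (2 * Real.pi) * ((ρ:ℂ).im - ρ'.im))) := fun ρ =>
      sum_ZT T (fun ρ' => (mx ρ * mx ρ') * (2 * Real.pi / X * Gm (X / (2 * Real.pi) * ((ρ:ℂ).im - ρ'.im))))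
    simp_rw [e3]
    rw [sum_ZT T (fun ρ => ∑ ρ' ∈ Zf T, (mx ρ * mx ρ') * (2 * Real.pi / X * Gm (X / (2 * Real.pi) * (ρ.im - ρ'.im)))),
      Finset.mul_sum, Finset.sum_product]
    refine Finset.sum_congr rfl fun ρ hρ => Finset.sum_congr rfl fun ρ' hρ' => ?_
    rw [mem_Zf] at hρ hρ'
    rw [mult_eq hρ.1, mult_eq hρ'.1]
    unfold mx
    ring
  · intro ρ _
    apply integrable_finsetSum
    intro ρ' _
    exact (gs_pair_integrable hX _ _).const_mul _

/-- The smoothed pair sum is at most B + C/B. -/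
theorem pair_bound : ∃ C : ℝ, 0 < C ∧ ∀ B : ℝ, 9600 ≤ B → ∀ᶠ T : ℝ in atTop,
    ∑ p ∈ Zf T ×ˢ Zf T, (mult p.1 : ℝ) * (mult p.2 : ℝ) * Gm (nd T p / B) ≤ SN T * (B + C / B) := by
  obtain ⟨C, hC, h⟩ := YT_sq
  refine ⟨C, hC, fun B hB => ?_⟩
  have hB0 : 0 < B := by linarith
  filter_upwards [h B hB, eventually_ge_atTop 3] with T hT hT3
  have hL := one_le_log hT3
  have hX0 : 0 < Real.log T / B := by positivity
  rw [Yf_sq_eq T hX0] at hT
  have e1 : ∑ p ∈ Zf T ×ˢ Zf T, (mult p.1 : ℝ) * (mult p.2 : ℝ) * Gm (nd T p / B) =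
      ∑ p ∈ Zf T ×ˢ Zf T, (mult p.1 : ℝ) * (mult p.2 : ℝ) * Gm (Real.log T / B / (2 * Real.pi) * (p.1.im - p.2.im)) := by
    refine Finset.sum_congr rfl fun p _ => ?_
    congr 2
    unfold nd
    ring
  rw [e1]
  set S := ∑ p ∈ Zf T ×ˢ Zf T, (mult p.1 : ℝ) * (mult p.2 : ℝ) * Gm (Real.log T / B / (2 * Real.pi) * (p.1.im - p.2.im))
  have hpi := Real.pi_pos
  have hL0 : 0 < Real.log T := by linarith only [hL]
  have e2 : S = (Real.log T / B / (2 * Real.pi)) * (2 * Real.pi / (Real.log T / B) * S) := by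
    field_simp
  rw [e2]
  calc (Real.log T / B / (2 * Real.pi)) * (2 * Real.pi / (Real.log T / B) * S)
      ≤ (Real.log T / B / (2 * Real.pi)) * (T * (B ^ 2 + C)) := by gcongr
    _ = SN T * (B + C / B) := by
        unfold SN
        field_simp

end Pool.Agent.Helper57.LH

end

/-! ### Helper57.LH.Deduce -/

section

namespace Pool.Agent.Helper57.LH

open Set MeasureTheory Filter Topology

open Pool.Agent.Helper57.Zeta

open Pool.Agent.Helper57.PC

lemma even_integral {f : ℝ → ℝ} (hf : Integrable f) (he : ∀ x, f (-x) = f x) (R : ℝ) :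
    ∫ u in (-R)..R, f u = 2 * ∫ u in (0:ℝ)..R, f u := by
  rw [← intervalIntegral.integral_add_adjacent_intervals (b := 0) hf.intervalIntegrable hf.intervalIntegrable]
  have h3 : ∫ u in (-R)..0, f u = ∫ u in (0:ℝ)..R, f u := by
    have := intervalIntegral.integral_comp_neg (a := 0) (b := R) (fun u => f u)
    simp only [he, neg_zero] at this
    exact this.symm
  rw [h3]; ring

lemma int_sq_le_half {a b : ℝ} (ha : 0 ≤ a) (hab : a ≤ b) : ∫ u in a..b, PC.sq u ≤ 1 / 2 := by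
  have h1 : ∫ u in a..b, PC.sq u ≤ ∫ u in (0:ℝ)..b, PC.sq u := by
    rw [← intervalIntegral.integral_add_adjacent_intervals (a := 0) (b := a) (c := b) (intervalIntegrable_sq _ _) (intervalIntegrable_sq _ _)]
    have : 0 ≤ ∫ u in (0:ℝ)..a, PC.sq u := intervalIntegral.integral_nonneg ha fun u _ => PC.sq_nonneg' u
    linarith
  have h2 := even_integral sc_integrable sc_even b
  have h3 : ∫ u in (-b)..b, sc u ≤ 1 := by
    rw [← sc_integral, intervalIntegral.integral_of_le (by linarith only [ha, hab])]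
    exact setIntegral_le_integral sc_integrable (Eventually.of_forall sc_nonneg)
  rw [sc_interval 0 b] at h2
  linarith

lemma Gm_half {τ : ℝ} (hτ : 0 < τ) : ∃ R0 : ℝ, 0 < R0 ∧ ∀ R : ℝ, R0 ≤ R → 1 / 2 - τ ≤ ∫ u in (0:ℝ)..R, Gm u := by
  have ht : Tendsto (fun R : ℝ => ∫ w in (-R)..R, Gm w) atTop (𝓝 (∫ w, Gm w)) :=
    intervalIntegral_tendsto_integral Gm_integrable tendsto_neg_atTop_atBot tendsto_id
  rw [Gm_integral] at ht
  have h1 := ht.eventually (eventually_ge_nhds (show (1 - 2 * τ : ℝ) < 1 by linarith))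
  obtain ⟨R0, hR0⟩ := (h1.and (eventually_gt_atTop 0)).exists_forall_of_atTop
  refine ⟨R0, (hR0 R0 le_rfl).2, fun R hR => ?_⟩
  have h2 := (hR0 R hR).1
  rw [even_integral Gm_integrable Gm_even] at h2
  linarith only [h2]

/-- The test function. -/
noncomputable def gB (B u : ℝ) : ℝ := Gm (u / B)

lemma gB_cont (B : ℝ) : Continuous (gB B) := Gm_cont.comp (by fun_prop)

lemma gB_nonneg (B u : ℝ) : 0 ≤ gB B u := Gm_nonneg _

lemma gB_le (B u : ℝ) : gB B u ≤ Gm 0 := Gm_le _

lemma gB_even (B u : ℝ) : gB B (-u) = gB B u := by unfold gB; rw [neg_div, Gm_even]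

lemma main_lb {B τ : ℝ} (hB : 0 < B) (hτ : 0 < τ) : ∃ ε0 : ℝ, 0 < ε0 ∧ ∃ R0 : ℝ, ∀ ε : ℝ, 0 < ε → ε ≤ ε0 → ∀ R : ℝ, R0 ≤ R → ε ≤ R →
    B / 2 - Gm 0 / 2 - τ ≤ ∫ u in ε..R, gB B u * pcDensity u := by
  have hG := Gm_zero_pos
  obtain ⟨R0, hR0, h⟩ := Gm_half (τ := τ / (2 * B)) (by positivity)
  refine ⟨τ / (2 * Gm 0), by positivity, B * R0, fun ε hε hε0 R hR hεR => ?_⟩
  have hgi : ∀ a b : ℝ, IntervalIntegrable (gB B) volume a b := fun a b => (gB_cont B).intervalIntegrable a b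
  have hgs : ∀ a b : ℝ, IntervalIntegrable (fun u => gB B u * PC.sq u) volume a b := fun a b =>
    (intervalIntegrable_sq a b).continuousOn_mul (gB_cont B).continuousOn
  have h1 : ∫ u in ε..R, gB B u * pcDensity u = (∫ u in ε..R, gB B u) - ∫ u in ε..R, gB B u * PC.sq u := by
    rw [← intervalIntegral.integral_sub (hgi _ _) (hgs _ _)]
    apply intervalIntegral.integral_congr
    intro u _
    simp only
    rw [pcDensity_eq]; ring
  have h2 : ∫ u in ε..R, gB B u * PC.sq u ≤ Gm 0 / 2 := by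
    have h3 : ∫ u in ε..R, gB B u * PC.sq u ≤ ∫ u in ε..R, Gm 0 * PC.sq u := by
      apply intervalIntegral.integral_mono_on hεR (hgs _ _) ((intervalIntegrable_sq _ _).const_mul _)
      intro u _
      have := gB_le B u
      have := PC.sq_nonneg' u
      gcongr
    rw [intervalIntegral.integral_const_mul] at h3
    have h4 := int_sq_le_half hε.le hεR
    nlinarith only [hG, h3, h4]
  have h3 : B / 2 - τ / 2 ≤ ∫ u in (0:ℝ)..R, gB B u := by
    have h4 : ∫ u in (0:ℝ)..R, gB B u = B * ∫ u in (0:ℝ)..(R / B), Gm u := by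
      unfold gB
      rw [intervalIntegral.integral_comp_div (fun u => Gm u) hB.ne', smul_eq_mul, zero_div]
    rw [h4]
    have h5 := h (R / B) (by rw [le_div_iff₀ hB]; linarith only [hR])
    calc B / 2 - τ / 2 = B * (1 / 2 - τ / (2 * B)) := by field_simp
      _ ≤ _ := by gcongr
  have h4 : ∫ u in (0:ℝ)..ε, gB B u ≤ τ / 2 := by
    have h5 : ∫ u in (0:ℝ)..ε, gB B u ≤ ∫ _ in (0:ℝ)..ε, Gm 0 := by
      apply intervalIntegral.integral_mono_on hε.le (hgi _ _) intervalIntegrable_const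
      intro u _
      exact gB_le B u
    rw [intervalIntegral.integral_const, smul_eq_mul, sub_zero] at h5
    rw [le_div_iff₀ (by positivity)] at hε0
    linarith only [hε0, h5]
  have h5 := intervalIntegral.integral_add_adjacent_intervals (hgi 0 ε) (hgi ε R)
  linarith

/-- decomposition of the total sum -/
lemma WP_split {T B τ ε R : ℝ} (hε : 0 < ε) (hnear : ∀ x : ℝ, |x| ≤ ε → Gm 0 - τ ≤ gB B x) :
    (Gm 0 - τ) * pairCount T (-ε) ε + 2 * WP T ((Ioc ε R).indicator (gB B)) ≤ WP T (gB B) := by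
  classical
  rw [pairCount_WP, ← WP_smul, two_mul]
  nth_rewrite 2 [← WP_neg]
  rw [← WP_add, ← WP_add]
  apply WP_mono
  intro x
  rw [ic_apply, indicator_apply, indicator_apply]
  have h0 := gB_nonneg B x
  have he := gB_even B x
  by_cases h1 : x ∈ Icc (-ε) ε
  · have h2 : x ∉ Ioc ε R := fun h => absurd h.1 (not_lt.mpr h1.2)
    have h3 : -x ∉ Ioc ε R := fun h => by
      have := h.1; linarith only [h1, this, h1.1]
    rw [if_pos h1, if_neg h2, if_neg h3]
    have := hnear x (abs_le.mpr h1)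
    linarith only [this]
  · rw [if_neg h1]
    by_cases h2 : x ∈ Ioc ε R
    · have h3 : -x ∉ Ioc ε R := fun h => by
        have := h.1; linarith only [hε, h2, this, h2.1]
      rw [if_pos h2, if_neg h3]
      linarith
    · rw [if_neg h2]
      split_ifs <;> linarith

lemma near_zero {B τ : ℝ} (hB : 0 < B) (hτ : 0 < τ) : ∃ r : ℝ, 0 < r ∧ ∀ x : ℝ, |x| ≤ r → Gm 0 - τ ≤ gB B x := by
  have h := Metric.continuous_iff.mp (gB_cont B) 0 τ hτ
  obtain ⟨r, hr, h⟩ := h
  refine ⟨r / 2, by positivity, fun x hx => ?_⟩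
  have h1 := h x (by rw [Real.dist_eq, sub_zero]; linarith)
  rw [Real.dist_eq] at h1
  have h2 := (abs_lt.mp h1).1
  have h3 : gB B 0 = Gm 0 := by unfold gB; rw [zero_div]
  rw [h3] at h2
  linarith only [h2]

/-- near-diagonal bound -/
theorem diag_upper {l : Filter ℝ} (hl : l ≤ atTop) (hLH : LowHalf l) {δ : ℝ} (hδ : 0 < δ) :
    ∃ ε : ℝ, 0 < ε ∧ ∀ᶠ T : ℝ in l, pairCount T (-ε) ε ≤ (1 + δ) * SN T := by
  obtain ⟨C, hC, hpb⟩ := pair_bound
  have hG := Gm_zero_pos
  set δ' := min δ 1 with hδ'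
  have hd0 : 0 < δ' := lt_min hδ one_pos
  have hd1 : δ' ≤ 1 := min_le_right _ _
  have hd2 : δ' ≤ δ := min_le_left _ _
  set τ := δ' * Gm 0 / 9 with hτ
  have hτ0 : 0 < τ := by rw [hτ]; positivity
  set B := max 9600 (C / τ) with hB
  have hB1 : 9600 ≤ B := le_max_left _ _
  have hB0 : 0 < B := by linarith only [hB1]
  have hCB : C / B ≤ τ := by
    rw [div_le_iff₀ hB0]
    have : C / τ ≤ B := le_max_right _ _
    rw [div_le_iff₀ hτ0] at this
    linarith only [this]
  obtain ⟨ε0, hε0, R0, hlb⟩ := main_lb hB0 hτ0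
  obtain ⟨r, hr, hnear⟩ := near_zero hB0 hτ0
  set ε := min ε0 r with hε
  have he0 : 0 < ε := lt_min hε0 hr
  have he1 : ε ≤ ε0 := min_le_left _ _
  have he2 : ε ≤ r := min_le_right _ _
  set R := max R0 (ε + 1) with hR
  have hR1 : R0 ≤ R := le_max_left _ _
  have hR2 : ε + 1 ≤ R := le_max_right _ _
  refine ⟨ε, he0, ?_⟩
  have hlow := lower_cont hl hLH he0 (show ε < R by linarith only [hR2]) (gB_cont B) (fun y _ => gB_nonneg B y) hτ0
  filter_upwards [hlow, hl (hpb B hB1), hl (eventually_gt_atTop 1)] with T h1 h2 hT1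
  have hS := SN_pos hT1
  have h3 := WP_split (T := T) (B := B) (τ := τ) (ε := ε) (R := R) he0 (fun x hx => hnear x (hx.trans he2))
  have h4 := hlb ε he0 he1 R hR1 (by linarith only [hR2])
  have h2' : WP T (gB B) ≤ SN T * (B + C / B) := h2
  have h5 : (B / 2 - Gm 0 / 2 - τ - τ) * SN T ≤ ((∫ u in ε..R, gB B u * pcDensity u) - τ) * SN T := by
    apply mul_le_mul_of_nonneg_right _ hS.le
    linarith only [h4]
  have h6 : SN T * (B + C / B) ≤ SN T * (B + τ) := by gcongr
  have h7 : (Gm 0 - τ) * pairCount T (-ε) ε ≤ (Gm 0 + 5 * τ) * SN T := by linarith only [h1, h3, h2', h5, h6]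
  have h8 : 0 < Gm 0 - τ := by rw [hτ]; nlinarith only [hG, hd1]
  have h9 : Gm 0 + 5 * τ ≤ (Gm 0 - τ) * (1 + δ) := by
    have : Gm 0 + 5 * τ ≤ (Gm 0 - τ) * (1 + δ') := by
      rw [hτ]; nlinarith only [hd0, hd1, hτ, hτ0]
    nlinarith only [hδ, hG, hd0, hd2, this]
  have h10 : (Gm 0 - τ) * pairCount T (-ε) ε ≤ (Gm 0 - τ) * ((1 + δ) * SN T) := by
    calc (Gm 0 - τ) * pairCount T (-ε) ε ≤ (Gm 0 + 5 * τ) * SN T := h7
      _ ≤ ((Gm 0 - τ) * (1 + δ)) * SN T := by gcongr
      _ = _ := by ring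
  exact le_of_mul_le_mul_left h10 h8

/-- The diagonal contains all zeros. -/
lemma NT_le_diag (T : ℝ) : NT T ≤ pairCount T 0 0 := by
  classical
  rw [pairCount_eq, Finset.sum_product]
  unfold NT
  refine Finset.sum_le_sum fun ρ hρ => ?_
  have h1 : (if nd T (ρ, ρ) ∈ Icc (0:ℝ) 0 then (mult ρ : ℝ) * (mult ρ : ℝ) else 0) ≤
      ∑ ρ' ∈ Zf T, if nd T (ρ, ρ') ∈ Icc (0:ℝ) 0 then (mult (ρ, ρ').1 : ℝ) * (mult (ρ, ρ').2 : ℝ) else 0 := by
    apply Finset.single_le_sum (f := fun ρ' => if nd T (ρ, ρ') ∈ Icc (0:ℝ) 0 then (mult (ρ, ρ').1 : ℝ) * (mult (ρ, ρ').2 : ℝ) else 0) _ hρ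
    intro ρ' _
    simp only
    split_ifs <;> positivity
  refine le_trans ?_ h1
  have h2 : nd T (ρ, ρ) = 0 := by unfold nd; simp
  rw [h2, if_pos (by simp)]
  have h3 : mult ρ ≤ mult ρ * mult ρ := by
    rcases Nat.eq_zero_or_pos (mult ρ) with h | h
    · rw [h]
    · exact Nat.le_mul_of_pos_left _ h
  exact_mod_cast h3

lemma diag_lower {l : Filter ℝ} (hl : l ≤ atTop) {δ : ℝ} (hδ : 0 < δ) :
    ∀ᶠ T : ℝ in l, (1 - δ) * SN T ≤ pairCount T 0 0 := by
  obtain ⟨T₀, h⟩ := NT_lower δ hδ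
  filter_upwards [hl (eventually_ge_atTop T₀)] with T hT
  exact (h T hT).trans (NT_le_diag T)

/-- The upper half. -/
theorem upper_half {l : Filter ℝ} (hl : l ≤ atTop) (hLH : LowHalf l) {α β : ℝ} (hα : 0 < α) (hαβ : α < β) {δ : ℝ} (hδ : 0 < δ) :
    ∀ᶠ T : ℝ in l, pairCount T α β ≤ ((∫ u in α..β, pcDensity u) + δ) * SN T := by
  obtain ⟨C, hC, hpb⟩ := pair_bound
  have hG := Gm_zero_pos
  set g0 := Gm 0 with hg0
  obtain ⟨α', hα'0, hα'1, hα'2⟩ : ∃ α' : ℝ, 0 < α' ∧ α' < α ∧ α - α' ≤ δ / 4 := by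
    refine ⟨max (α / 2) (α - δ / 4), ?_, ?_, ?_⟩
    · exact lt_max_of_lt_left (by linarith only [hα])
    · apply max_lt <;> linarith
    · have := le_max_right (α / 2) (α - δ / 4)
      linarith only [this]
  set τ := min (g0 / 2) (δ * g0 / (4 * (9 + g0))) with hτ
  have hτ0 : 0 < τ := by rw [hτ]; apply lt_min <;> positivity
  have hτ1 : τ ≤ g0 / 2 := min_le_left _ _
  have hτ2 : τ * (9 + g0) ≤ δ * g0 / 4 := by
    have : τ ≤ δ * g0 / (4 * (9 + g0)) := min_le_right _ _
    rw [le_div_iff₀ (by positivity)] at this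
    linarith only [this]
  -- threshold for the lower bound by half the maximum
  obtain ⟨r1, hr1, hnear1⟩ := near_zero (B := 1) one_pos (show 0 < g0 / 2 by positivity)
  set B := max (max 9600 (4 * C / (δ * g0))) (β / r1) with hB
  have hB1 : 9600 ≤ B := (le_max_left _ _).trans (le_max_left _ _)
  have hB2 : 4 * C / (δ * g0) ≤ B := (le_max_right _ _).trans (le_max_left _ _)
  have hB3 : β / r1 ≤ B := le_max_right _ _
  have hB0 : 0 < B := by linarith only [hB1]
  have hCB : C / B ≤ δ * g0 / 4 := by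
    rw [div_le_div_iff₀ hB0 (by norm_num)]
    rw [div_le_iff₀ (by positivity)] at hB2
    linarith only [hB2]
  have hhalf : ∀ u : ℝ, 0 ≤ u → u ≤ β → g0 / 2 ≤ gB B u := by
    intro u hu0 hu
    have h1 := hnear1 (u / B) (by
      rw [abs_of_nonneg (by positivity), div_le_iff₀ hB0]
      rw [div_le_iff₀ hr1] at hB3
      linarith only [hB3, hu])
    unfold gB at h1 ⊢
    rw [div_one] at h1
    linarith only [h1]
  obtain ⟨ε0, hε0, R0, hlb⟩ := main_lb hB0 hτ0
  obtain ⟨r, hr, hnear⟩ := near_zero hB0 hτ0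
  set ε := min (min ε0 r) (α' / 2) with hε
  have he0 : 0 < ε := lt_min (lt_min hε0 hr) (by positivity)
  have he1 : ε ≤ ε0 := (min_le_left _ _).trans (min_le_left _ _)
  have he2 : ε ≤ r := (min_le_left _ _).trans (min_le_right _ _)
  have he3 : ε ≤ α' / 2 := min_le_right _ _
  set R := max R0 (β + 1) with hR
  have hR1 : R0 ≤ R := le_max_left _ _
  have hR2 : β + 1 ≤ R := le_max_right _ _
  have hlow1 := lower_cont hl hLH he0 (show ε < α' by linarith only [he0, he3]) (gB_cont B) (fun y _ => gB_nonneg B y) hτ0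
  have hlow2 := lower_cont hl hLH hα'0 (show α' < β by linarith only [hαβ, hα'1]) (h := fun u => gB B u - g0 / 2) ((gB_cont B).sub continuous_const)
    (fun y hy => by have := hhalf y (by linarith only [he0, he3, hy, hy.1]) hy.2; linarith only [this]) hτ0
  have hlow3 := lower_cont hl hLH (show 0 < β by linarith only [hαβ, hα'1, he0, he3]) (show β < R by linarith only [hR2]) (gB_cont B) (fun y _ => gB_nonneg B y) hτ0
  filter_upwards [hlow1, hlow2, hlow3, hl (hpb B hB1), hl (eventually_gt_atTop 1), diag_lower hl hτ0] with T h1 h2 h3 h4 hT1 hdiag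
  have hS := SN_pos hT1
  have h5 := WP_split (T := T) (B := B) (τ := τ) (ε := ε) (R := R) he0 (fun x hx => hnear x (hx.trans he2))
  have h6 := hlb ε he0 he1 R hR1 (by linarith only [hαβ, hα'1, he0, he3, hR2])
  have h4' : WP T (gB B) ≤ SN T * (B + C / B) := h4
  -- integrals
  have hgi : ∀ a b : ℝ, IntervalIntegrable (fun u => gB B u * pcDensity u) volume a b := fun a b =>
    (intervalIntegrable_pcDensity a b).continuousOn_mul (gB_cont B).continuousOn
  have hI : (∫ u in ε..R, gB B u * pcDensity u) = (∫ u in ε..α', gB B u * pcDensity u) + (∫ u in α'..β, (gB B u - g0 / 2) * pcDensity u) +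
      (∫ u in β..R, gB B u * pcDensity u) + g0 / 2 * ∫ u in α'..β, pcDensity u := by
    rw [← intervalIntegral.integral_add_adjacent_intervals (hgi ε β) (hgi β R),
      ← intervalIntegral.integral_add_adjacent_intervals (hgi ε α') (hgi α' β)]
    have e1 : ∫ u in α'..β, (gB B u - g0 / 2) * pcDensity u = (∫ u in α'..β, gB B u * pcDensity u) - g0 / 2 * ∫ u in α'..β, pcDensity u := by
      rw [← intervalIntegral.integral_const_mul, ← intervalIntegral.integral_sub (hgi _ _) ((intervalIntegrable_pcDensity _ _).const_mul _)]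
      apply intervalIntegral.integral_congr
      intro u _
      simp only
      ring
    rw [e1]
    ring
  -- splitting of the sum
  have h7 : WP T ((Ioc ε α').indicator (gB B)) + WP T ((Ioc α' β).indicator (fun u => gB B u - g0 / 2)) + WP T ((Ioc β R).indicator (gB B)) +
      g0 / 2 * pairCount T α β ≤ WP T ((Ioc ε R).indicator (gB B)) := by
    classical
    have h8 : pairCount T α β ≤ WP T (ic (Ioc α' β)) := by
      rw [pairCount_WP]
      apply WP_mono
      apply ic_mono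
      intro x hx
      exact ⟨by linarith only [hα'1, hx, hx.1], hx.2⟩
    have h9 : WP T ((Ioc ε α').indicator (gB B)) + WP T ((Ioc α' β).indicator (fun u => gB B u - g0 / 2)) + WP T ((Ioc β R).indicator (gB B)) +
      g0 / 2 * WP T (ic (Ioc α' β)) ≤ WP T ((Ioc ε R).indicator (gB B)) := by
      rw [← WP_smul, ← WP_add, ← WP_add, ← WP_add]
      apply WP_mono
      intro x
      rw [ic_apply, indicator_apply, indicator_apply, indicator_apply, indicator_apply]
      have h0 := gB_nonneg B x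
      by_cases c1 : x ∈ Ioc ε α'
      · have c2 : x ∉ Ioc α' β := fun h => absurd h.1 (not_lt.mpr c1.2)
        have c3 : x ∉ Ioc β R := fun h => by have := h.1; have := c1.2; linarith
        have c4 : x ∈ Ioc ε R := ⟨c1.1, by have := c1.2; linarith only [hαβ, hα'1, hR2, this]⟩
        rw [if_pos c1, if_neg c2, if_neg c2, if_neg c3, if_pos c4]
        linarith only []
      · rw [if_neg c1]
        by_cases c2 : x ∈ Ioc α' β
        · have c3 : x ∉ Ioc β R := fun h => absurd h.1 (not_lt.mpr c2.2)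
          have c4 : x ∈ Ioc ε R := ⟨by have := c2.1; linarith only [he0, he3, this], by have := c2.2; linarith only [hR2, this]⟩
          rw [if_pos c2, if_pos c2, if_neg c3, if_pos c4]
          linarith only []
        · rw [if_neg c2, if_neg c2]
          by_cases c3 : x ∈ Ioc β R
          · have c4 : x ∈ Ioc ε R := ⟨by have := c3.1; linarith only [hαβ, hα'1, he0, he3, this], c3.2⟩
            rw [if_pos c3, if_pos c4]
            linarith only []
          · rw [if_neg c3]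
            split_ifs <;> linarith
    have h10 : g0 / 2 * pairCount T α β ≤ g0 / 2 * WP T (ic (Ioc α' β)) := by gcongr
    linarith only [h9, h10]
  -- the diagonal
  have hdiag2 : (1 - τ) * SN T ≤ pairCount T (-ε) ε := hdiag.trans (pairCount_mono T (by linarith only [he0]) he0.le)
  have h11 : (g0 - τ) * ((1 - τ) * SN T) ≤ (g0 - τ) * pairCount T (-ε) ε := by
    have : 0 ≤ g0 - τ := by linarith only [hτ0, hτ1]
    gcongr
  have h12 : (g0 - τ - g0 * τ) * SN T ≤ (g0 - τ) * ((1 - τ) * SN T) := by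
    rw [← mul_assoc]
    apply mul_le_mul_of_nonneg_right _ hS.le
    nlinarith only [hτ0]
  have h13 : (B / 2 - g0 / 2 - τ) * SN T ≤ (∫ u in ε..R, gB B u * pcDensity u) * SN T := by gcongr
  rw [hI] at h13
  have h14 : SN T * (B + C / B) ≤ SN T * (B + δ * g0 / 4) := by gcongr
  have h15 : (∫ u in α'..β, pcDensity u) ≤ (∫ u in α..β, pcDensity u) + δ / 4 := by
    rw [← intervalIntegral.integral_add_adjacent_intervals (intervalIntegrable_pcDensity α' α) (intervalIntegrable_pcDensity α β)]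
    have := int_F_le hα'1.le
    linarith only [hα'2, this]
  have h16 : g0 * pairCount T α β ≤ (δ * g0 / 4 + τ * (9 + g0) + g0 * ∫ u in α'..β, pcDensity u) * SN T := by
    linarith only [h1, h2, h3, h5, h4', h7, h11, h12, h13, h14]
  have h17 : (δ * g0 / 4 + τ * (9 + g0) + g0 * ∫ u in α'..β, pcDensity u) * SN T ≤ (g0 * ((∫ u in α..β, pcDensity u) + δ)) * SN T := by
    apply mul_le_mul_of_nonneg_right _ hS.le
    have h20 : g0 * ∫ u in α'..β, pcDensity u ≤ g0 * ((∫ u in α..β, pcDensity u) + δ / 4) := by gcongr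
    have h21 : 0 < δ * g0 := by positivity
    linarith only [hτ2, h20, h21]
  have h18 : g0 * pairCount T α β ≤ g0 * (((∫ u in α..β, pcDensity u) + δ) * SN T) := by
    linarith only [h1, h2, h3, h5, h4', h7, h11, h12, h13, h14, h17]
  exact le_of_mul_le_mul_left h18 hG

end Pool.Agent.Helper57.LH

end

/-! ### Helper57.LH.Law -/

section

namespace Pool.Agent.Helper57.LH

open Set MeasureTheory Filter Topology

open Pool.Agent.Helper57.Zeta

open Pool.Agent.Helper57.PC

lemma pc_even (u : ℝ) : pcDensity (-u) = pcDensity u := by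
  rw [pcDensity_eq, pcDensity_eq, PC.sq_even]

lemma int_pc_neg (a b : ℝ) : ∫ u in a..b, pcDensity u = ∫ u in (-b)..(-a), pcDensity u := by
  have h := intervalIntegral.integral_comp_neg (a := a) (b := b) pcDensity
  simp only [pc_even] at h
  exact h

lemma int_pc_split (a b : ℝ) : ∫ u in a..b, pcDensity u = (∫ u in (0:ℝ)..(-a), pcDensity u) + ∫ u in (0:ℝ)..b, pcDensity u := by
  rw [← intervalIntegral.integral_add_adjacent_intervals (intervalIntegrable_pcDensity a 0) (intervalIntegrable_pcDensity 0 b),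
    int_pc_neg a 0, neg_zero]

section

variable {l : Filter ℝ} (hl : l ≤ atTop) (hLH : LowHalf l)

include hl hLH

/-- upper bounds for windows in [0,∞) excluding the diagonal -/
lemma pos_upper {ε x : ℝ} (hε : 0 < ε) (hx : 0 ≤ x) {δ : ℝ} (hδ : 0 < δ) :
    ∀ᶠ T : ℝ in l, pairCount T ε x ≤ ((∫ u in (0:ℝ)..x, pcDensity u) + δ) * SN T := by
  have h0 := int_F_nonneg hx
  rcases lt_or_ge ε x with h | h
  · have h1 : (∫ u in ε..x, pcDensity u) ≤ ∫ u in (0:ℝ)..x, pcDensity u := by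
      rw [← intervalIntegral.integral_add_adjacent_intervals (intervalIntegrable_pcDensity 0 ε) (intervalIntegrable_pcDensity ε x)]
      have := int_F_nonneg hε.le
      linarith
    filter_upwards [upper_half hl hLH hε h hδ, hl (eventually_gt_atTop 1)] with T h2 hT1
    have hS := SN_pos hT1
    refine h2.trans ?_
    gcongr
  · have h1 := upper_half hl hLH hε (show ε < ε + δ / 2 by linarith only [hδ]) (show 0 < δ / 2 by linarith)
    filter_upwards [h1, hl (eventually_gt_atTop 1)] with T h2 hT1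
    have hS := SN_pos hT1
    have h3 : pairCount T ε x ≤ pairCount T ε (ε + δ / 2) := pairCount_mono T le_rfl (by linarith only [hδ, h])
    have h4 := int_F_le (show ε ≤ ε + δ / 2 by linarith only [hδ])
    refine h3.trans (h2.trans ?_)
    apply mul_le_mul_of_nonneg_right _ hS.le
    linarith only [h0, h4]

omit hLH in
include hLH in
lemma pos_lower {x : ℝ} (hx : 0 ≤ x) {δ : ℝ} (hδ : 0 < δ) :
    ∀ᶠ T : ℝ in l, ((∫ u in (0:ℝ)..x, pcDensity u) - δ) * SN T ≤ WP T (ic (Ioc 0 x)) := by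
  rcases hx.eq_or_lt with h | h
  · filter_upwards [hl (eventually_gt_atTop 1)] with T hT1
    have hS := SN_pos hT1
    have h1 : 0 ≤ WP T (ic (Ioc 0 x)) := WP_nonneg (ic_nonneg _)
    rw [← h, intervalIntegral.integral_same]
    rw [← h] at h1
    nlinarith only [hδ, hS, h1]
  · set ε := min (δ / 2) (x / 2) with hε
    have he0 : 0 < ε := lt_min (by linarith only [hδ]) (by linarith only [h])
    have he1 : ε ≤ δ / 2 := min_le_left _ _
    have he2 : ε ≤ x / 2 := min_le_right _ _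
    filter_upwards [lower_Ioc hl hLH he0 (show ε < x by linarith only [he0, he2]) (show 0 < δ / 2 by linarith), hl (eventually_gt_atTop 1)] with T h1 hT1
    have hS := SN_pos hT1
    have h2 : WP T (ic (Ioc ε x)) ≤ WP T (ic (Ioc 0 x)) := WP_mono (ic_mono (Ioc_subset_Ioc_left he0.le))
    have h3 : (∫ u in (0:ℝ)..x, pcDensity u) ≤ (∫ u in ε..x, pcDensity u) + δ / 2 := by
      rw [← intervalIntegral.integral_add_adjacent_intervals (intervalIntegrable_pcDensity 0 ε) (intervalIntegrable_pcDensity ε x)]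
      have := int_F_le he0.le
      linarith only [he1, this]
    have h4 : ((∫ u in (0:ℝ)..x, pcDensity u) - δ) * SN T ≤ ((∫ u in ε..x, pcDensity u) - δ / 2) * SN T := by
      apply mul_le_mul_of_nonneg_right _ hS.le
      linarith only [h3]
    linarith only [h1, h2, h4]

/-- windows containing zero -/
lemma law_zero {α β : ℝ} (hα : α ≤ 0) (hβ : 0 ≤ β) {δ : ℝ} (hδ : 0 < δ) :
    ∀ᶠ T : ℝ in l, |pairCount T α β / SN T - ((∫ u in α..β, pcDensity u) + 1)| ≤ δ := by
  obtain ⟨ε, he0, hdu⟩ := diag_upper hl hLH (show 0 < δ / 3 by linarith)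
  filter_upwards [hdu, pos_upper hl hLH he0 hβ (show 0 < δ / 3 by linarith), pos_upper hl hLH he0 (show 0 ≤ -α by linarith) (show 0 < δ / 3 by linarith),
    diag_lower hl (show 0 < δ / 3 by linarith), pos_lower hl hLH hβ (show 0 < δ / 3 by linarith),
    pos_lower hl hLH (show 0 ≤ -α by linarith only [hα]) (show 0 < δ / 3 by linarith only [hδ]), hl (eventually_gt_atTop 1)] with T h1 h2 h3 h4 h5 h6 hT1
  have hS := SN_pos hT1
  have hint := int_pc_split α β
  have hup : pairCount T α β ≤ (((∫ u in α..β, pcDensity u) + 1) + δ) * SN T := by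
    have q1 := pairCount_split T α (-ε) β
    have q2 := pairCount_split T (-ε) ε β
    have q3 := pairCount_neg T ε (-α)
    rw [neg_neg] at q3
    rw [hint]
    linarith only [h1, h2, h3, q1, q2, q3]
  have hlo : (((∫ u in α..β, pcDensity u) + 1) - δ) * SN T ≤ pairCount T α β := by
    have q1 : WP T (ic (Ioc 0 β)) + WP T (ic (Ioc 0 (-α))) + pairCount T 0 0 ≤ pairCount T α β := by
      classical
      rw [pairCount_WP, pairCount_WP]
      nth_rewrite 2 [← WP_neg]
      rw [← WP_add, ← WP_add]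
      apply WP_mono
      intro x
      rw [ic_apply, ic_apply, ic_apply, ic_apply]
      rcases lt_trichotomy x 0 with hx | hx | hx
      · have c1 : x ∉ Ioc 0 β := fun h => absurd h.1 (by linarith only [hx])
        have c2 : x ∉ Icc (0:ℝ) 0 := fun h => absurd h.1 (by linarith only [hx])
        rw [if_neg c1, if_neg c2]
        by_cases c3 : -x ∈ Ioc 0 (-α)
        · have c4 : x ∈ Icc α β := ⟨by linarith only [c3, c3.2], by linarith only [hβ, hx]⟩
          rw [if_pos c3, if_pos c4]; norm_num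
        · rw [if_neg c3]
          split_ifs <;> norm_num
      · have c1 : x ∉ Ioc 0 β := fun h => absurd h.1 (by linarith only [hx])
        have c2 : -x ∉ Ioc 0 (-α) := fun h => absurd h.1 (by linarith only [hx])
        have c3 : x ∈ Icc α β := ⟨by linarith only [hα, hx], by linarith only [hβ, hx]⟩
        rw [if_neg c1, if_neg c2, if_pos c3]
        split_ifs <;> norm_num
      · have c1 : -x ∉ Ioc 0 (-α) := fun h => absurd h.1 (by linarith only [hx])
        have c2 : x ∉ Icc (0:ℝ) 0 := fun h => absurd h.2 (by linarith only [hx])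
        rw [if_neg c1, if_neg c2]
        by_cases c3 : x ∈ Ioc 0 β
        · have c4 : x ∈ Icc α β := ⟨by linarith only [hα, hx, c3.1], c3.2⟩
          rw [if_pos c3, if_pos c4]; norm_num
        · rw [if_neg c3]
          split_ifs <;> norm_num
    rw [hint]
    linarith only [h4, h5, h6, q1]
  rw [abs_le]
  constructor
  · have := (le_div_iff₀ hS).mpr hlo
    linarith only [this]
  · have := (div_le_iff₀ hS).mpr hup
    linarith only [this]

/-- windows to the right of zero -/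
lemma law_pos {α β : ℝ} (hα : 0 < α) (hαβ : α ≤ β) {δ : ℝ} (hδ : 0 < δ) :
    ∀ᶠ T : ℝ in l, |pairCount T α β / SN T - (∫ u in α..β, pcDensity u)| ≤ δ := by
  rcases hαβ.eq_or_lt with h | h
  · have h1 := upper_half hl hLH hα (show α < α + δ / 2 by linarith only [hδ]) (show 0 < δ / 2 by linarith only [hδ])
    filter_upwards [h1, hl (eventually_gt_atTop 1)] with T h2 hT1
    have hS := SN_pos hT1
    have h3 : pairCount T α β ≤ pairCount T α (α + δ / 2) := pairCount_mono T le_rfl (by linarith only [hδ, h])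
    have h4 := int_F_le (show α ≤ α + δ / 2 by linarith)
    rw [← h] at h3 ⊢
    rw [intervalIntegral.integral_same, sub_zero, abs_of_nonneg (div_nonneg (pairCount_nonneg T α α) hS.le), div_le_iff₀ hS]
    refine h3.trans (h2.trans ?_)
    apply mul_le_mul_of_nonneg_right _ hS.le
    linarith only [h4]
  · filter_upwards [upper_half hl hLH hα h hδ, hLH α β hα h δ hδ, hl (eventually_gt_atTop 1)] with T h1 h2 hT1
    have hS := SN_pos hT1
    rw [abs_le]
    constructor
    · have := (le_div_iff₀ hS).mpr h2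
      linarith only [this]
    · have := (div_le_iff₀ hS).mpr h1
      linarith only [this]

open Classical in
/-- The pair correlation law for all windows. -/
theorem full_law {α β : ℝ} (hαβ : α ≤ β) :
    Tendsto (fun T => pairCount T α β / (T * Real.log T / (2 * Real.pi))) l
      (𝓝 ((∫ u in α..β, pcDensity u) + if α ≤ 0 ∧ 0 ≤ β then 1 else 0)) := by
  rw [Metric.tendsto_nhds]
  intro δ hδ
  have hd : (0:ℝ) < δ / 2 := by linarith only [hδ]
  have key : ∀ᶠ T : ℝ in l, |pairCount T α β / SN T - ((∫ u in α..β, pcDensity u) + if α ≤ 0 ∧ 0 ≤ β then 1 else 0)| ≤ δ / 2 := by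
    by_cases h1 : α ≤ 0
    · by_cases h2 : 0 ≤ β
      · rw [if_pos ⟨h1, h2⟩]
        exact law_zero hl hLH h1 h2 hd
      · rw [if_neg (fun h => h2 h.2), add_zero]
        push Not at h2
        filter_upwards [law_pos hl hLH (α := -β) (β := -α) (by linarith only [h2]) (by linarith only [hαβ]) hd] with T hT
        rw [pairCount_neg, ← int_pc_neg] at hT
        exact hT
    · rw [if_neg (fun h => h1 h.1), add_zero]
      push Not at h1
      exact law_pos hl hLH h1 hαβ hd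
  filter_upwards [key] with T hT
  rw [Real.dist_eq]
  exact lt_of_le_of_lt hT (by linarith only [hδ])

end

end Pool.Agent.Helper57.LH

end

/-! ### Helper57.LS.GmFT -/

section

namespace Pool.Agent.Helper57.LS

open Set MeasureTheory Filter Topology Complex

open Pool.Agent.Helper57.LH

open scoped FourierTransform

/-- the triangle function -/
noncomputable def tri (v : ℝ) : ℝ := max 0 (1 - |v|)

lemma tri_cont : Continuous tri := by unfold tri; fun_prop

lemma tri_nonneg (v : ℝ) : 0 ≤ tri v := le_max_left _ _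

lemma tri_le_one (v : ℝ) : tri v ≤ 1 := by
  unfold tri; have := abs_nonneg v; exact max_le (by norm_num) (by linarith)

lemma tri_even (v : ℝ) : tri (-v) = tri v := by unfold tri; rw [abs_neg]

lemma tri_zero_of {v : ℝ} (hv : 1 ≤ |v|) : tri v = 0 := by
  unfold tri; exact max_eq_left (by linarith)

lemma tri_of {v : ℝ} (hv0 : 0 ≤ v) (hv : v ≤ 1) : tri v = 1 - v := by
  unfold tri; rw [abs_of_nonneg hv0]; exact max_eq_right (by linarith)

lemma tri_compact : HasCompactSupport tri := by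
  apply HasCompactSupport.intro (isCompact_Icc (a := (-1:ℝ)) (b := 1))
  intro x hx
  apply tri_zero_of
  by_contra h
  push Not at h
  exact hx (abs_le.mp h.le)

lemma tri_integrable : Integrable tri := tri_cont.integrable_of_hasCompactSupport tri_compact

/-- integrals of even functions against the triangle -/
lemma tri_half (n : ℕ) (hn : n ≠ 0) (φ : ℝ → ℝ) (he : ∀ v, φ (-v) = φ v) :
    ∫ v, tri v ^ n * φ v = 2 * ∫ v in (0:ℝ)..1, (1 - v) ^ n * φ v := by
  have h1 : ∀ x : ℝ, tri x ^ n * φ x = (fun y => tri y ^ n * φ y) |x| := by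
    intro x
    simp only
    rcases abs_cases x with ⟨h, _⟩ | ⟨h, _⟩
    · rw [h]
    · rw [h, he, tri_even]
  have h1' : ∫ x, tri x ^ n * φ x = ∫ x, (fun y => tri y ^ n * φ y) |x| := by
    congr 1
    funext x
    exact h1 x
  rw [h1', integral_comp_abs (f := fun y => tri y ^ n * φ y)]
  congr 1
  rw [intervalIntegral.integral_of_le zero_le_one]
  rw [setIntegral_eq_of_subset_of_forall_sdiff_eq_zero (s := Ioc 0 1) measurableSet_Ioi Ioc_subset_Ioi_self]
  · apply setIntegral_congr_fun measurableSet_Ioc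
    intro x hx
    simp only
    rw [tri_of hx.1.le hx.2]
  · intro x hx
    have h1 : 0 < x := hx.1
    have h2 : 1 ≤ |x| := by
      rw [abs_of_pos h1]
      by_contra h3
      push Not at h3
      exact hx.2 ⟨h1, h3.le⟩
    rw [tri_zero_of h2, zero_pow hn, zero_mul]

lemma sc_tri (w : ℝ) : sc w = 2 * ∫ v in (0:ℝ)..1, (1 - v) * Real.cos (2 * Real.pi * w * v) := by
  unfold sc
  rw [gs_eq]
  have hpi := Real.pi_pos
  have h1 := intervalIntegral.integral_comp_mul_left (a := 0) (b := 1)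
    (fun x => (1 - x / (2 * Real.pi)) * (Real.cosh (0 * x) * Real.cos (w * x))) (show (2 * Real.pi : ℝ) ≠ 0 by positivity)
  simp only [mul_zero, mul_one, zero_mul, Real.cosh_zero, one_mul, smul_eq_mul] at h1 ⊢
  have h2 : ∫ x in (0:ℝ)..(2 * Real.pi), (1 - x / (2 * Real.pi)) * Real.cos (w * x) =
      (2 * Real.pi) * ∫ x in (0:ℝ)..1, (1 - 2 * Real.pi * x / (2 * Real.pi)) * Real.cos (w * (2 * Real.pi * x)) := by
    rw [h1, ← mul_assoc, mul_inv_cancel₀ (by positivity : (2 * Real.pi : ℝ) ≠ 0), one_mul]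
  rw [h2]
  have h3 : ∫ x in (0:ℝ)..1, (1 - 2 * Real.pi * x / (2 * Real.pi)) * Real.cos (w * (2 * Real.pi * x)) =
      ∫ v in (0:ℝ)..1, (1 - v) * Real.cos (2 * Real.pi * w * v) := by
    apply intervalIntegral.integral_congr
    intro x _
    simp only
    rw [mul_div_assoc, mul_div_cancel₀ _ (by positivity : (2 * Real.pi : ℝ) ≠ 0)]
    congr 2
    ring
  rw [h3, ← mul_assoc, div_mul_cancel₀ _ (by positivity : (2 * Real.pi : ℝ) ≠ 0)]

lemma sc_int (w : ℝ) : ∫ v, tri v * Real.cos (2 * Real.pi * w * v) = sc w := by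
  have h := tri_half 1 one_ne_zero (fun v => Real.cos (2 * Real.pi * w * v)) (fun v => by
    rw [mul_neg, Real.cos_neg])
  simp only [pow_one] at h
  rw [h, sc_tri]

lemma even_FT {f : ℝ → ℝ} (hf : Integrable f) (hc : AEStronglyMeasurable f) (he : ∀ v, f (-v) = f v) (w : ℝ) :
    ∫ x : ℝ, cexp ((w * x : ℝ) * I) * (f x : ℂ) = ((∫ x, f x * Real.cos (w * x) : ℝ) : ℂ) := by
  have hint : Integrable (fun x : ℝ => cexp ((w * x : ℝ) * I) * (f x : ℂ)) := by
    have hI : Integrable (fun x : ℝ => (f x : ℂ)) := hf.ofReal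
    refine hI.mono ?_ ?_
    · apply AEStronglyMeasurable.mul
      · apply Continuous.aestronglyMeasurable; fun_prop
      · exact Complex.continuous_ofReal.comp_aestronglyMeasurable hc
    · filter_upwards with x
      rw [norm_mul, Complex.norm_exp_ofReal_mul_I, one_mul]
  apply Complex.ext
  · rw [← Complex.reCLM_apply, ← Complex.reCLM.integral_comp_comm hint, Complex.ofReal_re]
    simp only [Complex.reCLM_apply]
    congr 1
    funext x
    rw [mul_comm, Complex.re_ofReal_mul, Complex.exp_ofReal_mul_I_re]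
  · rw [← Complex.imCLM_apply, ← Complex.imCLM.integral_comp_comm hint, Complex.ofReal_im]
    simp only [Complex.imCLM_apply]
    set g : ℝ → ℝ := fun x => (cexp ((w * x : ℝ) * I) * (f x : ℂ)).im with hg
    have hodd : ∀ x, g (-x) = - g x := by
      intro x
      simp only [hg]
      rw [he, mul_comm, Complex.im_ofReal_mul, Complex.exp_ofReal_mul_I_im, mul_comm (cexp _), Complex.im_ofReal_mul, Complex.exp_ofReal_mul_I_im,
        mul_neg, Real.sin_neg]
      ring
    have h1 := integral_neg_eq_self g volume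
    simp_rw [hodd] at h1
    rw [integral_neg] at h1
    linarith

lemma fourier_even {f : ℝ → ℝ} (hf : Integrable f) (hc : AEStronglyMeasurable f) (he : ∀ v, f (-v) = f v) (w : ℝ) :
    𝓕 (fun x : ℝ => (f x : ℂ)) w = ((∫ x, f x * Real.cos (2 * Real.pi * w * x) : ℝ) : ℂ) := by
  rw [Real.fourier_real_eq_integral_exp_smul]
  have h1 := even_FT hf hc he (-(2 * Real.pi * w))
  have h2 : ∀ x : ℝ, Real.cos (-(2 * Real.pi * w) * x) = Real.cos (2 * Real.pi * w * x) := by
    intro x; rw [neg_mul, Real.cos_neg]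
  simp_rw [h2] at h1
  rw [← h1]
  congr 1
  funext x
  rw [smul_eq_mul]
  congr 3
  push_cast
  ring

/-- inversion for even real functions -/
lemma inv_even {f g : ℝ → ℝ} (hf : Integrable f) (hfc : Continuous f) (he : ∀ v, f (-v) = f v)
    (hg : Integrable g) (hge : ∀ v, g (-v) = g v) (h : ∀ w, ∫ x, f x * Real.cos (2 * Real.pi * w * x) = g w) (y : ℝ) :
    ∫ w, g w * Real.cos (2 * Real.pi * y * w) = f y := by
  set F : ℝ → ℂ := fun x => (f x : ℂ) with hF
  have hfi : Integrable F := hf.ofReal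
  have hFF : 𝓕 F = fun w => (g w : ℂ) := by
    funext w
    rw [hF, fourier_even hf hf.aestronglyMeasurable he, h]
  have hFi : Integrable (𝓕 F) := by rw [hFF]; exact hg.ofReal
  have h1 := hfi.fourierInv_fourier_eq hFi (v := y) ((Complex.continuous_ofReal.comp hfc).continuousAt)
  rw [Real.fourierInv_eq', hFF] at h1
  have h2 := even_FT hg hg.aestronglyMeasurable hge (2 * Real.pi * y)
  have h3 : ∫ v : ℝ, cexp (((2 * Real.pi * inner ℝ v y : ℝ) : ℂ) * I) • (g v : ℂ) = ∫ x : ℝ, cexp ((2 * Real.pi * y * x : ℝ) * I) * (g x : ℂ) := by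
    congr 1
    funext v
    rw [smul_eq_mul]
    congr 3
    simp
    ring
  rw [h3, h2, hF] at h1
  exact Complex.ofReal_injective h1

/-- the Fourier transform of sinc squared -/
lemma sc_FT (v : ℝ) : ∫ x, sc x * Real.cos (2 * Real.pi * v * x) = tri v :=
  inv_even tri_integrable tri_cont tri_even sc_integrable sc_even sc_int v

lemma cos_sub_expand (y x v : ℝ) : Real.cos (2 * Real.pi * (y - x) * v) =
    Real.cos (2 * Real.pi * y * v) * Real.cos (2 * Real.pi * v * x) + Real.sin (2 * Real.pi * y * v) * Real.sin (2 * Real.pi * v * x) := by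
  rw [← Real.cos_sub]; congr 1; ring

lemma odd_int {f : ℝ → ℝ} (he : ∀ v, f (-v) = f v) (a : ℝ) : ∫ x, f x * Real.sin (a * x) = 0 := by
  have h1 := integral_neg_eq_self (fun x => f x * Real.sin (a * x)) volume
  have h2 : ∀ x, f (-x) * Real.sin (a * -x) = -(f x * Real.sin (a * x)) := by
    intro x; rw [he, mul_neg, Real.sin_neg]; ring
  simp_rw [h2] at h1
  rw [integral_neg] at h1
  linarith

lemma int_shift_cos {f : ℝ → ℝ} (hf : Integrable f) (he : ∀ v, f (-v) = f v) (y v : ℝ) :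
    ∫ x, f x * Real.cos (2 * Real.pi * (y - x) * v) = Real.cos (2 * Real.pi * y * v) * ∫ x, f x * Real.cos (2 * Real.pi * v * x) := by
  have e1 : ∀ x, f x * Real.cos (2 * Real.pi * (y - x) * v) = Real.cos (2 * Real.pi * y * v) * (f x * Real.cos (2 * Real.pi * v * x)) +
      Real.sin (2 * Real.pi * y * v) * (f x * Real.sin (2 * Real.pi * v * x)) := by
    intro x; rw [cos_sub_expand]; ring
  simp_rw [e1]
  have i1 : Integrable (fun x => f x * Real.cos (2 * Real.pi * v * x)) := by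
    refine hf.mono (hf.aestronglyMeasurable.mul (by fun_prop)) ?_
    filter_upwards with x
    rw [norm_mul]
    have := Real.abs_cos_le_one (2 * Real.pi * v * x)
    rw [Real.norm_eq_abs (Real.cos _)]
    nlinarith only [this, norm_nonneg (f x)]
  have i2 : Integrable (fun x => f x * Real.sin (2 * Real.pi * v * x)) := by
    refine hf.mono (hf.aestronglyMeasurable.mul (by fun_prop)) ?_
    filter_upwards with x
    rw [norm_mul]
    have := Real.abs_sin_le_one (2 * Real.pi * v * x)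
    rw [Real.norm_eq_abs (Real.sin _)]
    nlinarith only [this, norm_nonneg (f x)]
  rw [integral_add (i1.const_mul _) (i2.const_mul _), integral_const_mul, integral_const_mul, odd_int he, mul_zero, add_zero]

/-- convolution of an integrable even function with a cosine transform of the triangle power -/
lemma conv_tri {f h : ℝ → ℝ} (hf : Integrable f) (he : ∀ v, f (-v) = f v) (hh : Integrable h) (y : ℝ) :
    ∫ x, f x * ∫ v, h v * Real.cos (2 * Real.pi * (y - x) * v) =
      ∫ v, h v * (Real.cos (2 * Real.pi * y * v) * ∫ x, f x * Real.cos (2 * Real.pi * v * x)) := by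
  have e1 : ∀ x, f x * ∫ v, h v * Real.cos (2 * Real.pi * (y - x) * v) = ∫ v, f x * (h v * Real.cos (2 * Real.pi * (y - x) * v)) := by
    intro x; rw [integral_const_mul]
  simp_rw [e1]
  rw [integral_integral_swap]
  · congr 1
    funext v
    have e2 : ∀ x, f x * (h v * Real.cos (2 * Real.pi * (y - x) * v)) = h v * (f x * Real.cos (2 * Real.pi * (y - x) * v)) := by
      intro x; ring
    simp_rw [e2]
    rw [integral_const_mul, int_shift_cos hf he]
  · have h1 : Integrable (fun p : ℝ × ℝ => f p.1 * h p.2) (volume.prod volume) := hf.mul_prod hh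
    refine h1.mono ?_ ?_
    · have h2 : AEStronglyMeasurable (fun p : ℝ × ℝ => f p.1 * h p.2 * Real.cos (2 * Real.pi * (y - p.1) * p.2)) (volume.prod volume) :=
        h1.aestronglyMeasurable.mul (by fun_prop)
      refine h2.congr ?_
      filter_upwards with p
      simp only [Function.uncurry]
      ring
    · filter_upwards with p
      simp only [Function.uncurry]
      rw [show f p.1 * (h p.2 * Real.cos (2 * Real.pi * (y - p.1) * p.2)) = f p.1 * h p.2 * Real.cos (2 * Real.pi * (y - p.1) * p.2) by ring, norm_mul]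
      have := Real.abs_cos_le_one (2 * Real.pi * (y - p.1) * p.2)
      rw [Real.norm_eq_abs (Real.cos _)]
      nlinarith [norm_nonneg (f p.1 * h p.2)]

/-- Fourier representation of the kernel -/
lemma Gm_int (y : ℝ) : Gm y = ∫ v, tri v ^ 2 * Real.cos (2 * Real.pi * y * v) := by
  unfold Gm
  have e1 : ∀ x, sc x * sc (y - x) = sc x * ∫ v, tri v * Real.cos (2 * Real.pi * (y - x) * v) := by
    intro x; rw [sc_int]
  simp_rw [e1]
  rw [conv_tri sc_integrable sc_even tri_integrable]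
  congr 1
  funext v
  rw [sc_FT]
  ring

lemma Gm_FT (y : ℝ) : Gm y = 2 * ∫ v in (0:ℝ)..1, (1 - v) ^ 2 * Real.cos (2 * Real.pi * y * v) := by
  rw [Gm_int]
  exact tri_half 2 two_ne_zero (fun v => Real.cos (2 * Real.pi * y * v)) (fun v => by rw [mul_neg, Real.cos_neg])

end Pool.Agent.Helper57.LS

end

/-! ### Helper57.LS.OddB -/

section

namespace Pool.Agent.Helper57.LS

open Set MeasureTheory Filter Topology

open Pool.Agent.Helper57.LH

open scoped SchwartzMap FourierTransform ContDiff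

/-- the odd kernel -/
noncomputable def Ho (u : ℝ) : ℝ := 2 * ∫ v in (0:ℝ)..1, (1 - v) ^ 2 * v * Real.sin (2 * Real.pi * u * v)

lemma Gm_diff (u t : ℝ) : (Gm (u - t) - Gm (u + t)) / 2 = ∫ v in Ioc (0:ℝ) 1, 2 * ((1 - v) ^ 2 * Real.sin (2 * Real.pi * u * v) * Real.sin (2 * Real.pi * t * v)) := by
  rw [← intervalIntegral.integral_of_le zero_le_one, Gm_FT, Gm_FT, ← mul_sub, ← intervalIntegral.integral_sub, mul_div_assoc, ← intervalIntegral.integral_div, ← intervalIntegral.integral_const_mul]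
  · apply intervalIntegral.integral_congr
    intro v _
    simp only
    have h1 : Real.cos (2 * Real.pi * (u - t) * v) = Real.cos (2 * Real.pi * u * v) * Real.cos (2 * Real.pi * t * v) + Real.sin (2 * Real.pi * u * v) * Real.sin (2 * Real.pi * t * v) := by
      rw [← Real.cos_sub]; congr 1; ring
    have h2 : Real.cos (2 * Real.pi * (u + t) * v) = Real.cos (2 * Real.pi * u * v) * Real.cos (2 * Real.pi * t * v) - Real.sin (2 * Real.pi * u * v) * Real.sin (2 * Real.pi * t * v) := by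
      rw [← Real.cos_add]; congr 1; ring
    rw [h1, h2]
    ring
  · apply Continuous.intervalIntegrable; fun_prop
  · apply Continuous.intervalIntegrable; fun_prop

lemma Ho_conv (a : 𝓢(ℝ, ℝ)) (ha : ∀ ξ ∈ Icc (0:ℝ) 1, ∫ t, a t * Real.sin (2 * Real.pi * t * ξ) = ξ) (u : ℝ) :
    Ho u = ∫ t, a t * ((Gm (u - t) - Gm (u + t)) / 2) := by
  simp_rw [Gm_diff]
  have h1 : ∀ t : ℝ, a t * ∫ v in Ioc (0:ℝ) 1, 2 * ((1 - v) ^ 2 * Real.sin (2 * Real.pi * u * v) * Real.sin (2 * Real.pi * t * v)) =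
      ∫ v in Ioc (0:ℝ) 1, a t * (2 * ((1 - v) ^ 2 * Real.sin (2 * Real.pi * u * v) * Real.sin (2 * Real.pi * t * v))) := by
    intro t
    exact (integral_const_mul _ _).symm
  simp_rw [h1]
  have hprod : Integrable (Function.uncurry fun (t v : ℝ) => a t * (2 * ((1 - v) ^ 2 * Real.sin (2 * Real.pi * u * v) * Real.sin (2 * Real.pi * t * v))))
      (volume.prod (volume.restrict (Ioc (0:ℝ) 1))) := by
    have h2 : Integrable (fun z : ℝ × ℝ => ‖a z.1‖ * (2:ℝ)) (volume.prod (volume.restrict (Ioc (0:ℝ) 1))) :=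
      Integrable.mul_prod (f := fun t => ‖a t‖) (g := fun _ : ℝ => (2:ℝ)) a.integrable.norm (integrable_const _)
    refine h2.mono' ?_ ?_
    · apply Continuous.aestronglyMeasurable
      have := a.continuous
      unfold Function.uncurry
      fun_prop
    · have h3 : ∀ᵐ z : ℝ × ℝ ∂(volume.prod (volume.restrict (Ioc (0:ℝ) 1))), z.2 ∈ Ioc (0:ℝ) 1 := by
        have := Measure.quasiMeasurePreserving_snd (μ := (volume : Measure ℝ)) (ν := volume.restrict (Ioc (0:ℝ) 1))
        exact this.ae (ae_restrict_mem measurableSet_Ioc)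
      filter_upwards [h3] with z hz
      unfold Function.uncurry
      simp only
      rw [norm_mul, norm_mul, norm_mul, norm_mul, norm_pow]
      have e1 : ‖(1 - z.2)‖ ≤ 1 := by
        rw [Real.norm_eq_abs, abs_le]
        constructor <;> linarith only [hz, hz.1, hz.2]
      have e2 := Real.abs_sin_le_one (2 * Real.pi * u * z.2)
      have e3 := Real.abs_sin_le_one (2 * Real.pi * z.1 * z.2)
      rw [← Real.norm_eq_abs] at e2 e3
      have e4 : ‖(1 - z.2)‖ ^ 2 * ‖Real.sin (2 * Real.pi * u * z.2)‖ * ‖Real.sin (2 * Real.pi * z.1 * z.2)‖ ≤ 1 ^ 2 * 1 * 1 := by gcongr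
      have e5 : ‖(2:ℝ)‖ = 2 := by norm_num
      rw [e5]
      have e6 : 0 ≤ ‖a z.1‖ := norm_nonneg _
      calc ‖a z.1‖ * (2 * (‖(1 - z.2)‖ ^ 2 * ‖Real.sin (2 * Real.pi * u * z.2)‖ * ‖Real.sin (2 * Real.pi * z.1 * z.2)‖)) ≤ ‖a z.1‖ * (2 * (1 ^ 2 * 1 * 1)) := by gcongr
        _ = ‖a z.1‖ * 2 := by ring
  rw [integral_integral_swap hprod]
  unfold Ho
  rw [← intervalIntegral.integral_const_mul, intervalIntegral.integral_of_le zero_le_one]
  apply setIntegral_congr_fun measurableSet_Ioc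
  intro v hv
  simp only
  have h4 : ∀ t : ℝ, a t * (2 * ((1 - v) ^ 2 * Real.sin (2 * Real.pi * u * v) * Real.sin (2 * Real.pi * t * v))) =
      (2 * ((1 - v) ^ 2 * Real.sin (2 * Real.pi * u * v))) * (a t * Real.sin (2 * Real.pi * t * v)) := fun t => by ring
  simp_rw [h4]
  rw [integral_const_mul, ha v ⟨hv.1.le, hv.2⟩]
  ring

lemma Gm_hasDeriv (u : ℝ) : HasDerivAt Gm (-(2 * Real.pi) * Ho u) u := by
  have hG : Gm = fun y => 2 * ∫ v in (0:ℝ)..1, (1 - v) ^ 2 * Real.cos (2 * Real.pi * y * v) := by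
    funext y; exact Gm_FT y
  rw [hG]
  have h := intervalIntegral.hasDerivAt_integral_of_dominated_loc_of_deriv_le (μ := volume) (a := 0) (b := 1)
    (F := fun y v => (1 - v) ^ 2 * Real.cos (2 * Real.pi * y * v)) (F' := fun y v => (1 - v) ^ 2 * (-Real.sin (2 * Real.pi * y * v) * (2 * Real.pi * v)))
    (x₀ := u) (s := univ) (bound := fun _ => 2 * Real.pi) univ_mem ?_ ?_ ?_ ?_ ?_ ?_
  · refine (h.2.const_mul 2).congr_deriv ?_
    unfold Ho
    rw [← intervalIntegral.integral_const_mul, ← mul_assoc, ← intervalIntegral.integral_const_mul]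
    apply intervalIntegral.integral_congr
    intro v _
    simp only
    ring
  · filter_upwards with x
    apply Continuous.aestronglyMeasurable; fun_prop
  · apply Continuous.intervalIntegrable; fun_prop
  · apply Continuous.aestronglyMeasurable; fun_prop
  · filter_upwards with v hv x _
    rw [uIoc_of_le zero_le_one] at hv
    have hpi := Real.pi_pos
    rw [norm_mul, norm_mul, norm_neg, norm_pow, Real.norm_of_nonneg (by have := hv.1; positivity : 0 ≤ 2 * Real.pi * v)]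
    have e1 : ‖(1 - v)‖ ≤ 1 := by
      rw [Real.norm_eq_abs, abs_le]
      constructor <;> linarith [hv.1, hv.2]
    have e2 := Real.abs_sin_le_one (2 * Real.pi * x * v)
    rw [← Real.norm_eq_abs] at e2
    have e3 : 2 * Real.pi * v ≤ 2 * Real.pi * 1 := by
      have := hv.2
      gcongr
    have e4 : 0 ≤ 2 * Real.pi * v := by have := hv.1; positivity
    calc ‖(1 - v)‖ ^ 2 * (‖Real.sin (2 * Real.pi * x * v)‖ * (2 * Real.pi * v)) ≤ 1 ^ 2 * (1 * (2 * Real.pi * 1)) := by gcongr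
      _ = _ := by ring
  · apply Continuous.intervalIntegrable; fun_prop
  · filter_upwards with v _ x _
    have h1 : HasDerivAt (fun y : ℝ => 2 * Real.pi * y * v) (2 * Real.pi * v) x := by
      have h2 := ((hasDerivAt_id x).const_mul (2 * Real.pi)).mul_const v
      simpa using h2
    exact (h1.cos).const_mul _

lemma Ho_bound (u : ℝ) : |Ho u| ≤ 2 := by
  unfold Ho
  rw [abs_mul, abs_of_pos two_pos]
  have h := intervalIntegral.norm_integral_le_of_norm_le_const (a := 0) (b := 1) (C := 1) (f := fun v => (1 - v) ^ 2 * v * Real.sin (2 * Real.pi * u * v)) (by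
    intro v hv
    rw [uIoc_of_le zero_le_one] at hv
    rw [norm_mul, norm_mul, norm_pow]
    have e1 : ‖(1 - v)‖ ≤ 1 := by
      rw [Real.norm_eq_abs, abs_le]
      constructor <;> linarith [hv.1, hv.2]
    have e2 := Real.abs_sin_le_one (2 * Real.pi * u * v)
    rw [← Real.norm_eq_abs] at e2
    have e3 : ‖v‖ ≤ 1 := by
      rw [Real.norm_eq_abs, abs_le]
      constructor <;> linarith [hv.1, hv.2]
    calc ‖(1 - v)‖ ^ 2 * ‖v‖ * ‖Real.sin (2 * Real.pi * u * v)‖ ≤ 1 ^ 2 * 1 * 1 := by gcongr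
      _ = 1 := by norm_num)
  rw [Real.norm_eq_abs, sub_zero, abs_one, mul_one] at h
  linarith

lemma Ho_cont : Continuous Ho := by
  unfold Ho
  apply Continuous.mul continuous_const
  exact intervalIntegral.continuous_parametric_intervalIntegral_of_continuous' (f := fun u v => (1 - v) ^ 2 * v * Real.sin (2 * Real.pi * u * v)) (by
    unfold Function.uncurry; fun_prop) 0 1

end Pool.Agent.Helper57.LS

end

/-! ### Helper57.LS.Rep -/

section

namespace Pool.Agent.Helper57.LS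

open Set MeasureTheory Filter Topology

open Pool.Agent.Helper57.LH

open scoped SchwartzMap FourierTransform

lemma sch_int (f : 𝓢(ℝ, ℝ)) {S : ℝ → ℝ} {k : ℕ} (hSc : Continuous S) (hb : ∀ x, 0 ≤ x → |S x| ≤ x ^ k) :
    IntegrableOn (fun x => f x * S x) (Ioi 0) := by
  have h := (f.integrable_pow_mul volume k).integrableOn (s := Ioi (0:ℝ))
  refine h.mono' ((f.continuous.mul hSc).aestronglyMeasurable) ?_
  rw [ae_restrict_iff' measurableSet_Ioi]
  filter_upwards with x hx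
  have hx0 : 0 ≤ x := le_of_lt hx
  rw [norm_mul, Real.norm_eq_abs, Real.norm_eq_abs, Real.norm_eq_abs, abs_of_nonneg hx0, mul_comm]
  have := hb x hx0
  gcongr

lemma parts (f : 𝓢(ℝ, ℝ)) {S S' : ℝ → ℝ} {k : ℕ} (hS : ∀ x, HasDerivAt S (S' x) x) (hSc : Continuous S') (h0 : S 0 = 0)
    (hb : ∀ x, 0 ≤ x → |S x| ≤ x ^ (k + 1)) (hb' : ∀ x, 0 ≤ x → |S' x| ≤ x ^ k) :
    ∫ x in Ioi (0:ℝ), f x * S' x = -∫ x in Ioi (0:ℝ), (SchwartzMap.derivCLM ℝ ℝ f) x * S x := by
  have hSC : Continuous S := continuous_iff_continuousAt.mpr fun x => (hS x).continuousAt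
  have hd : ∀ x, HasDerivAt f ((SchwartzMap.derivCLM ℝ ℝ f) x) x := by
    intro x
    rw [SchwartzMap.derivCLM_apply]
    exact (f.differentiable x).hasDerivAt
  have h := integral_Ioi_mul_deriv_eq_deriv_mul (a := 0) (a' := 0) (b' := 0) (u := f) (v := S) (u' := (SchwartzMap.derivCLM ℝ ℝ f)) (v' := S')
    (fun x _ => hd x) (fun x _ => hS x) (sch_int f hSc hb') (sch_int _ hSC hb) (by
      have h1 : Tendsto (fun x => f x * S x) (𝓝 0) (𝓝 (f 0 * S 0)) := (f.continuous.mul hSC).continuousAt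
      rw [h0, mul_zero] at h1
      exact h1.mono_left nhdsWithin_le_nhds) (by
      obtain ⟨C, hC, hdec⟩ := f.decay (k + 2) 0
      apply squeeze_zero_norm' (a := fun x : ℝ => C * x⁻¹)
      · filter_upwards [eventually_gt_atTop 0] with x hx
        have h2 := hdec x
        rw [norm_iteratedFDeriv_zero, Real.norm_eq_abs, abs_of_pos hx] at h2
        have h3 := hb x hx.le
        simp only [Pi.mul_apply]
        rw [norm_mul, Real.norm_eq_abs (S x)]
        calc ‖f x‖ * |S x| ≤ ‖f x‖ * x ^ (k + 1) := by gcongr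
          _ = (x ^ (k + 2) * ‖f x‖) * x⁻¹ := by
              field_simp
              ring
          _ ≤ C * x⁻¹ := by gcongr
      · have := tendsto_inv_atTop_zero (𝕜 := ℝ)
        simpa using this.const_mul C)
  rw [h]
  ring

/-- iterated primitives of the cosine -/
noncomputable def S1 (u x : ℝ) : ℝ := ∫ y in (0:ℝ)..x, Real.cos (2 * Real.pi * u * y)

noncomputable def S2 (u x : ℝ) : ℝ := ∫ y in (0:ℝ)..x, S1 u y

noncomputable def S3 (u x : ℝ) : ℝ := ∫ y in (0:ℝ)..x, S2 u y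

lemma S1_deriv (u x : ℝ) : HasDerivAt (S1 u) (Real.cos (2 * Real.pi * u * x)) x :=
  intervalIntegral.integral_hasDerivAt_right (by apply Continuous.intervalIntegrable; fun_prop) (by
    apply Continuous.stronglyMeasurableAtFilter; fun_prop) (by fun_prop)

lemma S1_cont (u : ℝ) : Continuous (S1 u) := continuous_iff_continuousAt.mpr fun x => (S1_deriv u x).continuousAt

lemma S2_deriv (u x : ℝ) : HasDerivAt (S2 u) (S1 u x) x :=
  intervalIntegral.integral_hasDerivAt_right ((S1_cont u).intervalIntegrable _ _)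
    ((S1_cont u).stronglyMeasurableAtFilter _ _) (S1_cont u).continuousAt

lemma S2_cont (u : ℝ) : Continuous (S2 u) := continuous_iff_continuousAt.mpr fun x => (S2_deriv u x).continuousAt

lemma S3_deriv (u x : ℝ) : HasDerivAt (S3 u) (S2 u x) x :=
  intervalIntegral.integral_hasDerivAt_right ((S2_cont u).intervalIntegrable _ _)
    ((S2_cont u).stronglyMeasurableAtFilter _ _) (S2_cont u).continuousAt

lemma prim_bound {f : ℝ → ℝ} {k : ℕ} (hf : ∀ x, 0 ≤ x → |f x| ≤ x ^ k) {x : ℝ} (hx : 0 ≤ x) :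
    |∫ y in (0:ℝ)..x, f y| ≤ x ^ (k + 1) := by
  have h := intervalIntegral.norm_integral_le_of_norm_le_const (a := 0) (b := x) (C := x ^ k) (f := f) (by
    intro y hy
    rw [uIoc_of_le hx] at hy
    rw [Real.norm_eq_abs]
    refine (hf y hy.1.le).trans ?_
    exact pow_le_pow_left₀ hy.1.le hy.2 k)
  rw [sub_zero, abs_of_nonneg hx, Real.norm_eq_abs] at h
  rw [pow_succ]
  exact h

lemma S0_bound (u x : ℝ) (_hx : 0 ≤ x) : |Real.cos (2 * Real.pi * u * x)| ≤ x ^ 0 := by
  rw [pow_zero]; exact Real.abs_cos_le_one _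

lemma S1_bound (u x : ℝ) (hx : 0 ≤ x) : |S1 u x| ≤ x ^ 1 := prim_bound (k := 0) (S0_bound u) hx

lemma S2_bound (u x : ℝ) (hx : 0 ≤ x) : |S2 u x| ≤ x ^ 2 := prim_bound (k := 1) (S1_bound u) hx

lemma S3_bound (u x : ℝ) (hx : 0 ≤ x) : |S3 u x| ≤ x ^ 3 := prim_bound (k := 2) (S2_bound u) hx

lemma S3_eq (u x : ℝ) : S3 u x = (1 / 2) * ∫ y in (0:ℝ)..x, (x - y) ^ 2 * Real.cos (2 * Real.pi * u * y) := by
  have hd2 : ∀ y : ℝ, HasDerivAt (fun y : ℝ => (x - y) ^ 2) (-(2 * (x - y))) y := by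
    intro y
    have h1 : HasDerivAt (fun y : ℝ => x - y) (-1) y := by simpa using (hasDerivAt_id y).const_sub x
    have := h1.fun_pow 2
    refine this.congr_deriv ?_
    simp
  have hd1 : ∀ y : ℝ, HasDerivAt (fun y : ℝ => x - y) (-1) y := by
    intro y; simpa using (hasDerivAt_id y).const_sub x
  have h1 := intervalIntegral.integral_mul_deriv_eq_deriv_mul (a := 0) (b := x) (u := fun y => (x - y) ^ 2) (v := S1 u) (u' := fun y => -(2 * (x - y)))
    (v' := fun y => Real.cos (2 * Real.pi * u * y)) (fun y _ => hd2 y) (fun y _ => S1_deriv u y)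
    (by apply Continuous.intervalIntegrable; fun_prop) (by apply Continuous.intervalIntegrable; fun_prop)
  have h2 := intervalIntegral.integral_mul_deriv_eq_deriv_mul (a := 0) (b := x) (u := fun y => (x - y)) (v := S2 u) (u' := fun _ => -1)
    (v' := S1 u) (fun y _ => hd1 y) (fun y _ => S2_deriv u y)
    (by apply Continuous.intervalIntegrable; fun_prop) ((S1_cont u).intervalIntegrable _ _)
  have z1 : S1 u 0 = 0 := by unfold S1; simp
  have z2 : S2 u 0 = 0 := by unfold S2; simp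
  simp only [sub_self, z1, z2, mul_zero, ne_eq, OfNat.ofNat_ne_zero, not_false_eq_true, zero_pow, zero_mul, zero_sub] at h1 h2
  have h3 : ∫ y in (0:ℝ)..x, -(2 * (x - y)) * S1 u y = -2 * ∫ y in (0:ℝ)..x, (x - y) * S1 u y := by
    rw [← intervalIntegral.integral_const_mul]
    apply intervalIntegral.integral_congr
    intro y _
    simp only
    ring
  have h4 : ∫ y in (0:ℝ)..x, (-1) * S2 u y = -S3 u x := by
    rw [intervalIntegral.integral_const_mul]
    unfold S3
    ring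
  rw [h1, h3, h2, h4]
  ring

lemma S3_Gm {x : ℝ} (hx : 0 < x) (u : ℝ) : S3 u x = x ^ 3 / 4 * Gm (x * u) := by
  rw [S3_eq, Gm_FT]
  have h1 := intervalIntegral.integral_comp_mul_left (a := 0) (b := 1) (fun y => (x - y) ^ 2 * Real.cos (2 * Real.pi * u * y)) hx.ne'
  rw [mul_zero, mul_one, smul_eq_mul] at h1
  have h2 : ∫ y in (0:ℝ)..x, (x - y) ^ 2 * Real.cos (2 * Real.pi * u * y) =
      x * ∫ v in (0:ℝ)..1, (x - x * v) ^ 2 * Real.cos (2 * Real.pi * u * (x * v)) := by
    rw [h1, ← mul_assoc, mul_inv_cancel₀ hx.ne', one_mul]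
  have h3 : ∫ v in (0:ℝ)..1, (x - x * v) ^ 2 * Real.cos (2 * Real.pi * u * (x * v)) = x ^ 2 * ∫ v in (0:ℝ)..1, (1 - v) ^ 2 * Real.cos (2 * Real.pi * (x * u) * v) := by
    rw [← intervalIntegral.integral_const_mul]
    apply intervalIntegral.integral_congr
    intro v _
    simp only
    rw [show 2 * Real.pi * u * (x * v) = 2 * Real.pi * (x * u) * v by ring]
    ring
  rw [h2, h3]
  ring

/-- third derivative of a Schwartz function -/
noncomputable def D3 (f : 𝓢(ℝ, ℝ)) : 𝓢(ℝ, ℝ) := SchwartzMap.derivCLM ℝ ℝ (SchwartzMap.derivCLM ℝ ℝ (SchwartzMap.derivCLM ℝ ℝ f))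

/-- the weight of the superposition -/
noncomputable def wt (f : 𝓢(ℝ, ℝ)) (x : ℝ) : ℝ := -(x ^ 2 / 4 * D3 f x)

lemma cos_rep (f : 𝓢(ℝ, ℝ)) (u : ℝ) :
    ∫ x in Ioi (0:ℝ), f x * Real.cos (2 * Real.pi * u * x) = ∫ x in Ioi (0:ℝ), wt f x * x * Gm (x * u) := by
  have z1 : S1 u 0 = 0 := by unfold S1; simp
  have z2 : S2 u 0 = 0 := by unfold S2; simp
  have z3 : S3 u 0 = 0 := by unfold S3; simp
  rw [parts (k := 0) f (S1_deriv u) (by fun_prop) z1 (S1_bound u) (S0_bound u)]
  rw [parts (k := 1) _ (S2_deriv u) (S1_cont u) z2 (S2_bound u) (S1_bound u)]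
  rw [parts (k := 2) _ (S3_deriv u) (S2_cont u) z3 (S3_bound u) (S2_bound u)]
  rw [neg_neg, ← integral_neg]
  apply setIntegral_congr_fun measurableSet_Ioi
  intro x hx
  simp only
  rw [S3_Gm hx]
  unfold wt D3
  ring

lemma wt_cont (f : 𝓢(ℝ, ℝ)) : Continuous (wt f) := by
  unfold wt
  have := (D3 f).continuous
  fun_prop

lemma wt_int (f : 𝓢(ℝ, ℝ)) (k : ℕ) : IntegrableOn (fun x => |wt f x| * x ^ k) (Ioi 0) := by
  have h := (((D3 f).integrable_pow_mul volume (k + 2)).const_mul (1/4)).integrableOn (s := Ioi (0:ℝ))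
  refine h.mono' ((wt_cont f).abs.mul (by fun_prop)).aestronglyMeasurable ?_
  rw [ae_restrict_iff' measurableSet_Ioi]
  filter_upwards with x hx
  have hx0 : 0 ≤ x := le_of_lt hx
  unfold wt
  rw [norm_mul, Real.norm_eq_abs, Real.norm_eq_abs, Real.norm_eq_abs, Real.norm_eq_abs, abs_abs, abs_neg, abs_mul, abs_of_nonneg (by positivity : 0 ≤ x ^ 2 / 4),
    abs_of_nonneg hx0, abs_of_nonneg (by positivity : 0 ≤ x ^ k)]
  apply le_of_eq
  ring

end Pool.Agent.Helper57.LS

end

/-! ### Helper57.LS.TwoSided -/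

section

namespace Pool.Agent.Helper57.LS

open Set MeasureTheory Filter Topology

open Pool.Agent.Helper57.LH

open Pool.Agent.Helper57.Zeta

/-- integral of the kernel -/
lemma gs_integral {X : ℝ} (hX : 0 < X) : ∫ w, gs X 0 w = 2 * Real.pi / X := by
  have hc : 0 < X / (2 * Real.pi) := by positivity
  simp_rw [gs_sc hX]
  rw [Measure.integral_comp_mul_left (fun x => sc x) (X / (2 * Real.pi)), sc_integral, smul_eq_mul, mul_one, abs_of_pos (by positivity), inv_div]

lemma gs_integrable {X : ℝ} (hX : 0 < X) : Integrable (gs X 0) := by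
  refine ((Kd_integrable hX).const_mul 5).mono' (gs_cont X 0).aestronglyMeasurable ?_
  filter_upwards with w
  rw [Real.norm_of_nonneg (gs_zero_nonneg hX w)]
  exact gs_zero_decay hX w

lemma Yf_integrable (F : Finset ZS) {X : ℝ} (hX : 0 < X) : Integrable (Yf F X) := by
  unfold Yf
  apply integrable_finsetSum
  intro ρ _
  exact ((gs_integrable hX).comp_sub_right _).const_mul _

lemma Yf_integral (T : ℝ) {X : ℝ} (hX : 0 < X) : ∫ t, Yf (ZT T) X t = 2 * Real.pi / X * NT T := by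
  unfold Yf
  rw [integral_finsetSum]
  · have e1 : ∀ ρ : ZS, ∫ t, mx ρ * gs X 0 (t - (ρ:ℂ).im) = (2 * Real.pi / X) * mx ρ := by
      intro ρ
      rw [integral_const_mul]
      have e2 : ∫ t, gs X 0 (t - (ρ:ℂ).im) = 2 * Real.pi / X := by
        rw [← gs_integral hX]
        exact integral_sub_right_eq_self (gs X 0) (ρ:ℂ).im
      rw [e2]; ring
    simp_rw [e1]
    rw [← Finset.mul_sum, sum_ZT_mx]
  · intro ρ _
    exact ((gs_integrable hX).comp_sub_right _).const_mul _

end Pool.Agent.Helper57.LS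

end

/-! ### Helper57.LS.SchRep -/

section

namespace Pool.Agent.Helper57.LS

open Set MeasureTheory Filter Topology

open Pool.Agent.Helper57.LH

open scoped SchwartzMap FourierTransform

lemma int_fold {h : ℝ → ℝ} (hh : Integrable h) : ∫ x, h x = ∫ x in Ioi (0:ℝ), (h x + h (-x)) := by
  rw [integral_add hh.integrableOn hh.comp_neg.integrableOn, integral_comp_neg_Ioi, neg_zero,
    ← intervalIntegral.integral_Iic_add_Ioi hh.integrableOn hh.integrableOn (b := 0)]
  ring

/-- complexification -/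
noncomputable def cpx (g : 𝓢(ℝ, ℝ)) : 𝓢(ℝ, ℂ) := g.postcompCLM Complex.ofRealCLM

lemma cpx_apply (g : 𝓢(ℝ, ℝ)) (x : ℝ) : cpx g x = (g x : ℂ) := by
  unfold cpx
  rw [SchwartzMap.postcompCLM_apply]
  rfl

/-- the transform -/
noncomputable def ph (g : 𝓢(ℝ, ℝ)) : 𝓢(ℝ, ℝ) := (𝓕 (cpx g)).postcompCLM Complex.reCLM

lemma ph_apply (g : 𝓢(ℝ, ℝ)) (x : ℝ) : ph g x = (𝓕 (cpx g) x).re := by
  unfold ph
  rw [SchwartzMap.postcompCLM_apply]
  rfl

noncomputable def Ph (g : 𝓢(ℝ, ℝ)) : 𝓢(ℝ, ℝ) :=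
  ph g + SchwartzMap.compCLMOfContinuousLinearEquiv ℝ (LinearIsometryEquiv.neg ℝ (E := ℝ)) (ph g)

lemma Ph_apply (g : 𝓢(ℝ, ℝ)) (x : ℝ) : Ph g x = ph g x + ph g (-x) := by
  unfold Ph
  rw [SchwartzMap.add_apply, SchwartzMap.compCLMOfContinuousLinearEquiv_apply]
  rfl

lemma inv_formula (g : 𝓢(ℝ, ℝ)) (u : ℝ) : (g u : ℂ) = ∫ ξ : ℝ, Complex.exp ((2 * Real.pi * u * ξ : ℝ) * Complex.I) * 𝓕 (cpx g) ξ := by
  have h : 𝓕⁻ (𝓕 (cpx g)) = cpx g := FourierTransform.fourierInv_fourier_eq (cpx g)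
  have h2 : (𝓕⁻ (𝓕 (cpx g))) u = (g u : ℂ) := by rw [h, cpx_apply]
  rw [← h2, SchwartzMap.fourierInv_coe, Real.fourierInv_eq']
  congr 1
  funext ξ
  rw [smul_eq_mul]
  congr 3
  push_cast
  simp
  ring

lemma exp_int (g : 𝓢(ℝ, ℝ)) (u : ℝ) : Integrable (fun ξ : ℝ => Complex.exp ((2 * Real.pi * u * ξ : ℝ) * Complex.I) * 𝓕 (cpx g) ξ) := by
  have hI : Integrable (fun ξ : ℝ => 𝓕 (cpx g) ξ) := (𝓕 (cpx g)).integrable
  refine hI.mono ?_ ?_
  · apply Continuous.aestronglyMeasurable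
    have := (𝓕 (cpx g)).continuous
    fun_prop
  · filter_upwards with x
    rw [norm_mul, Complex.norm_exp_ofReal_mul_I, one_mul]

/-- cosine representation of the even part -/
lemma even_rep (g : 𝓢(ℝ, ℝ)) (u : ℝ) : (g u + g (-u)) / 2 = ∫ x in Ioi (0:ℝ), Ph g x * Real.cos (2 * Real.pi * u * x) := by
  have h1 := inv_formula g u
  have h2 := inv_formula g (-u)
  have h3 : ((g u : ℂ) + (g (-u) : ℂ)) = ∫ ξ : ℝ, (2 * Real.cos (2 * Real.pi * u * ξ) : ℝ) * 𝓕 (cpx g) ξ := by
    rw [h1, h2, ← integral_add (exp_int g u) (exp_int g (-u))]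
    congr 1
    funext ξ
    rw [← add_mul]
    congr 1
    apply Complex.ext
    · rw [Complex.add_re, Complex.exp_ofReal_mul_I_re, Complex.exp_ofReal_mul_I_re, Complex.ofReal_re,
        show 2 * Real.pi * -u * ξ = -(2 * Real.pi * u * ξ) by ring, Real.cos_neg]
      ring
    · rw [Complex.add_im, Complex.exp_ofReal_mul_I_im, Complex.exp_ofReal_mul_I_im, Complex.ofReal_im,
        show 2 * Real.pi * -u * ξ = -(2 * Real.pi * u * ξ) by ring, Real.sin_neg]
      ring
  have hci : Integrable (fun ξ : ℝ => ((2 * Real.cos (2 * Real.pi * u * ξ) : ℝ) : ℂ) * 𝓕 (cpx g) ξ) := by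
    have hI : Integrable (fun ξ : ℝ => (2:ℂ) * 𝓕 (cpx g) ξ) := (𝓕 (cpx g)).integrable.const_mul 2
    refine hI.mono ?_ ?_
    · apply Continuous.aestronglyMeasurable
      have := (𝓕 (cpx g)).continuous
      fun_prop
    · filter_upwards with x
      rw [norm_mul, norm_mul, Complex.norm_real, norm_mul, Real.norm_eq_abs (Real.cos _)]
      have := Real.abs_cos_le_one (2 * Real.pi * u * x)
      simp only [Real.norm_ofNat, Complex.norm_ofNat]
      gcongr
      linarith only [this]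
  have h4 : g u + g (-u) = ∫ ξ : ℝ, 2 * Real.cos (2 * Real.pi * u * ξ) * ph g ξ := by
    have h5 := congrArg Complex.re h3
    rw [Complex.add_re, Complex.ofReal_re, Complex.ofReal_re, ← Complex.reCLM_apply (∫ ξ : ℝ, _), ← Complex.reCLM.integral_comp_comm hci] at h5
    rw [h5]
    congr 1
    funext ξ
    rw [Complex.reCLM_apply, Complex.re_ofReal_mul, ph_apply]
  have hpi : Integrable (fun ξ : ℝ => 2 * Real.cos (2 * Real.pi * u * ξ) * ph g ξ) := by
    have hI : Integrable (fun ξ : ℝ => 2 * ph g ξ) := (ph g).integrable.const_mul 2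
    refine hI.mono ?_ ?_
    · apply Continuous.aestronglyMeasurable
      have := (ph g).continuous
      fun_prop
    · filter_upwards with x
      rw [norm_mul, norm_mul, norm_mul, Real.norm_eq_abs (Real.cos _)]
      have := Real.abs_cos_le_one (2 * Real.pi * u * x)
      simp only [Real.norm_ofNat]
      gcongr
      linarith only [this]
  rw [h4, int_fold hpi, ← integral_div]
  apply setIntegral_congr_fun measurableSet_Ioi
  intro x _
  simp only
  rw [Ph_apply, show 2 * Real.pi * u * -x = -(2 * Real.pi * u * x) by ring, Real.cos_neg]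
  ring

/-- the weight attached to a Schwartz function -/
noncomputable def wg (g : 𝓢(ℝ, ℝ)) : ℝ → ℝ := wt (Ph g)

/-- superposition of kernels -/
theorem super (g : 𝓢(ℝ, ℝ)) (u : ℝ) : (g u + g (-u)) / 2 = ∫ x in Ioi (0:ℝ), wg g x * x * Gm (x * u) := by
  rw [even_rep, cos_rep]
  rfl

end Pool.Agent.Helper57.LS

end

/-! ### Helper57.UB.Scale -/

section

namespace Pool.Agent.Helper57.UB

open Set MeasureTheory Filter Topology

open Pool.Agent.Helper57.LH

open Pool.Agent.Helper57.LS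

/-- positive part -/
noncomputable def mp (y : ℝ) : ℝ := max 0 y

lemma mp_cont : Continuous mp := by unfold mp; fun_prop

lemma mp_nonneg (y : ℝ) : 0 ≤ mp y := le_max_left _ _

lemma mp_mul (y : ℝ) : mp y * mp y = mp y * y := by
  unfold mp
  rcases le_total 0 y with h | h
  · rw [max_eq_right h]
  · rw [max_eq_left h]; ring

lemma mp_of {y : ℝ} (h : 0 ≤ y) : mp y = y := max_eq_right h

lemma mp_zero {y : ℝ} (h : y ≤ 0) : mp y = 0 := max_eq_left h

lemma mp_cube (y : ℝ) : HasDerivAt (fun x => mp x ^ 3) (3 * mp y ^ 2) y := by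
  rcases lt_trichotomy y 0 with h | h | h
  · rw [mp_zero h.le]
    have h1 : HasDerivAt (fun _ : ℝ => (0:ℝ)) (3 * 0 ^ 2) y := by
      norm_num
      exact hasDerivAt_const _ _
    refine h1.congr_of_eventuallyEq ?_
    filter_upwards [gt_mem_nhds h] with x hx
    rw [mp_zero hx.le]; norm_num
  · subst h
    rw [mp_zero le_rfl]
    rw [hasDerivAt_iff_isLittleO_nhds_zero]
    simp only [zero_add, mp_zero le_rfl]
    rw [Asymptotics.isLittleO_iff]
    intro c hc
    have h1 : ∀ᶠ x : ℝ in 𝓝 0, |x| < min c 1 := by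
      have := Metric.ball_mem_nhds (0:ℝ) (lt_min hc one_pos)
      filter_upwards [this] with x hx
      rwa [Metric.mem_ball, dist_zero_right, Real.norm_eq_abs] at hx
    filter_upwards [h1] with x hx
    have h2 : |mp x| ≤ |x| := by
      rw [abs_of_nonneg (mp_nonneg x)]
      exact max_le (abs_nonneg _) (le_abs_self _)
    have h3 : |x| ≤ c := hx.le.trans (min_le_left _ _)
    have h4 : |x| ≤ 1 := hx.le.trans (min_le_right _ _)
    have e : mp x ^ 3 - 0 ^ 3 - x • ((3:ℝ) * 0 ^ 2) = mp x ^ 3 := by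
      rw [smul_eq_mul]; ring
    rw [e, norm_pow, Real.norm_eq_abs, Real.norm_eq_abs]
    have h5 := abs_nonneg x
    calc |mp x| ^ 3 ≤ |x| ^ 3 := by gcongr
      _ = |x| * |x| * |x| := by ring
      _ ≤ c * 1 * |x| := by gcongr
      _ = c * |x| := by ring
  · rw [mp_of h.le]
    have h1 : HasDerivAt (fun x : ℝ => x ^ 3) (3 * y ^ 2) y := by
      have := hasDerivAt_pow 3 y
      norm_num at this
      exact this
    refine h1.congr_of_eventuallyEq ?_
    filter_upwards [lt_mem_nhds h] with x hx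
    rw [mp_of hx.le]

lemma mp_cube_lin (η t : ℝ) : HasDerivAt (fun B => mp (1 - B * η) ^ 3) (3 * mp (1 - t * η) ^ 2 * (-η)) t := by
  have h1 : HasDerivAt (fun B : ℝ => 1 - B * η) (-η) t := by
    have := (hasDerivAt_id t).mul_const η
    simpa using this.const_sub 1
  exact (mp_cube (1 - t * η)).comp t h1

/-- the truncated multiplier -/
lemma J_one (η c d : ℝ) : 12 * η ^ 2 * ∫ B in c..d, B * mp (1 - B * η) ^ 2 =
    mp (1 - c * η) ^ 3 * (1 + 3 * c * η) - mp (1 - d * η) ^ 3 * (1 + 3 * d * η) := by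
  have h1 : ∀ x ∈ uIcc c d, HasDerivAt (fun B => -(mp (1 - B * η) ^ 3 * (1 + 3 * B * η))) (12 * η ^ 2 * (x * mp (1 - x * η) ^ 2)) x := by
    intro x _
    have h2 : HasDerivAt (fun B : ℝ => 1 + 3 * B * η) (3 * η) x := by
      have := ((hasDerivAt_id x).const_mul 3).mul_const η
      simpa using this.const_add 1
    have h3 := ((mp_cube_lin η x).mul h2).neg
    refine h3.congr_deriv ?_
    have h4 := mp_mul (1 - x * η)
    have h5 : mp (1 - x * η) ^ 3 = mp (1 - x * η) ^ 2 * (1 - x * η) := by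
      calc mp (1 - x * η) ^ 3 = mp (1 - x * η) * (mp (1 - x * η) * mp (1 - x * η)) := by ring
        _ = _ := by rw [h4]; ring
    rw [h5]
    ring
  have h6 := intervalIntegral.integral_eq_sub_of_hasDerivAt h1 (by
    apply Continuous.intervalIntegrable
    have := mp_cont
    fun_prop)
  rw [intervalIntegral.integral_const_mul] at h6
  rw [h6]
  ring

lemma J_two (η c d : ℝ) : 3 * η * ∫ B in c..d, mp (1 - B * η) ^ 2 = mp (1 - c * η) ^ 3 - mp (1 - d * η) ^ 3 := by
  have h1 : ∀ x ∈ uIcc c d, HasDerivAt (fun B => -(mp (1 - B * η) ^ 3)) (3 * η * mp (1 - x * η) ^ 2) x := by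
    intro x _
    refine (mp_cube_lin η x).neg.congr_deriv ?_
    ring
  have h6 := intervalIntegral.integral_eq_sub_of_hasDerivAt h1 (by
    apply Continuous.intervalIntegrable
    have := mp_cont
    fun_prop)
  rw [intervalIntegral.integral_const_mul] at h6
  rw [h6]
  ring

lemma tri_mp {B : ℝ} (hB : 0 ≤ B) (ξ : ℝ) : tri (B * ξ) = mp (1 - B * |ξ|) := by
  unfold tri mp
  rw [abs_mul, abs_of_nonneg hB]

/-- the multiplier of the low scales -/
lemma mult_low {b : ℝ} (hb : 0 < b) (ξ : ℝ) : 12 * ξ ^ 2 * ∫ B in (0:ℝ)..b, 1 * (B * tri (B * ξ) ^ 2) =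
    1 - tri (b * ξ) ^ 3 * (1 + 3 * (b * |ξ|)) := by
  have h1 : ∫ B in (0:ℝ)..b, 1 * (B * tri (B * ξ) ^ 2) = ∫ B in (0:ℝ)..b, B * mp (1 - B * |ξ|) ^ 2 := by
    apply intervalIntegral.integral_congr
    intro B hB
    rw [uIcc_of_le hb.le] at hB
    simp only
    rw [one_mul, tri_mp hB.1]
  rw [h1, ← sq_abs ξ, J_one, tri_mp hb.le]
  rw [zero_mul, sub_zero, mp_of zero_le_one]
  ring

/-- the multiplier of the transition scales -/
lemma mult_mid {b : ℝ} (hb : 0 < b) (ξ : ℝ) : 12 * ξ ^ 2 * ∫ B in b..(2 * b), (b / B - 1) * (B * tri (B * ξ) ^ 2) =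
    4 * (b * |ξ|) * (tri (b * ξ) ^ 3 - tri (2 * b * ξ) ^ 3) - tri (b * ξ) ^ 3 * (1 + 3 * (b * |ξ|)) + tri (2 * b * ξ) ^ 3 * (1 + 6 * (b * |ξ|)) := by
  have h1 : ∫ B in b..(2 * b), (b / B - 1) * (B * tri (B * ξ) ^ 2) =
      b * (∫ B in b..(2 * b), mp (1 - B * |ξ|) ^ 2) - ∫ B in b..(2 * b), B * mp (1 - B * |ξ|) ^ 2 := by
    rw [← intervalIntegral.integral_const_mul, ← intervalIntegral.integral_sub]
    · apply intervalIntegral.integral_congr
      intro B hB
      rw [uIcc_of_le (by linarith only [hb])] at hB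
      have hB0 : 0 < B := by linarith [hB.1]
      simp only
      rw [tri_mp hB0.le]
      field_simp
    · apply Continuous.intervalIntegrable
      have := mp_cont
      fun_prop
    · apply Continuous.intervalIntegrable
      have := mp_cont
      fun_prop
  have h2 := J_one |ξ| b (2 * b)
  have h3 := J_two |ξ| b (2 * b)
  rw [h1, tri_mp hb.le, tri_mp (by linarith only [hb] : (0:ℝ) ≤ 2 * b), ← sq_abs ξ]
  linear_combination 4 * b * |ξ| * h3 - h2

/-- the algebraic identity between multipliers -/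
lemma mult_sum {b : ℝ} (hb : 0 < b) (ξ : ℝ) :
    2 * tri (b * ξ) ^ 2 - tri (2 * b * ξ) ^ 2 + (1 - tri (b * ξ) ^ 3 * (1 + 3 * (b * |ξ|))) +
      (4 * (b * |ξ|) * (tri (b * ξ) ^ 3 - tri (2 * b * ξ) ^ 3) - tri (b * ξ) ^ 3 * (1 + 3 * (b * |ξ|)) + tri (2 * b * ξ) ^ 3 * (1 + 6 * (b * |ξ|))) -
      2 * (b * |ξ|) ^ 2 * tri (b * ξ) ^ 2 + 4 * (b * |ξ|) ^ 2 * tri (2 * b * ξ) ^ 2 = 1 := by
  rw [tri_mp hb.le, tri_mp (by linarith only [hb] : (0:ℝ) ≤ 2 * b)]
  have e1 := mp_mul (1 - b * |ξ|)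
  have e2 := mp_mul (1 - 2 * b * |ξ|)
  have c1 : mp (1 - b * |ξ|) ^ 3 = mp (1 - b * |ξ|) ^ 2 * (1 - b * |ξ|) := by
    calc mp (1 - b * |ξ|) ^ 3 = mp (1 - b * |ξ|) * (mp (1 - b * |ξ|) * mp (1 - b * |ξ|)) := by ring
      _ = _ := by rw [e1]; ring
  have c2 : mp (1 - 2 * b * |ξ|) ^ 3 = mp (1 - 2 * b * |ξ|) ^ 2 * (1 - 2 * b * |ξ|) := by
    calc mp (1 - 2 * b * |ξ|) ^ 3 = mp (1 - 2 * b * |ξ|) * (mp (1 - 2 * b * |ξ|) * mp (1 - 2 * b * |ξ|)) := by ring
      _ = _ := by rw [e2]; ring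
  rw [c1, c2]
  ring

end Pool.Agent.Helper57.UB

end

/-! ### Helper57.US.Tail -/

section

namespace Pool.Agent.Helper57.US

open Set MeasureTheory Filter Topology

open Pool.Agent.Helper57.LH

open Pool.Agent.Helper57.Zeta

open Pool.Agent.Helper57.LS hiding wg

lemma Kd_wg {T t τ : ℝ} (hT : 1 ≤ T) (ht0 : 0 ≤ t) (htT : t ≤ T) (h1 : 1 ≤ |t - τ|) (h : T ^ (3/4 : ℝ) / 2 ≤ |t - τ|) :
    Kd 1 (t - τ) * wg τ ≤ 2056 * T ^ (-(1/16) : ℝ) * wf (t - τ) := by
  have hT0 : 0 < T := by linarith only [hT]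
  obtain ⟨w, hw⟩ : ∃ w, w = |t - τ| := ⟨_, rfl⟩
  rw [← hw] at h1 h
  have hw0 : 0 < w := by linarith only [h1]
  obtain ⟨y, hy⟩ : ∃ y, y = w ^ (1/12 : ℝ) := ⟨_, rfl⟩
  obtain ⟨z, hz⟩ : ∃ z, z = T ^ (1/16 : ℝ) := ⟨_, rfl⟩
  have hy1 : 1 ≤ y := by rw [hy]; exact Real.one_le_rpow h1 (by norm_num)
  have hz1 : 1 ≤ z := by rw [hz]; exact Real.one_le_rpow hT (by norm_num)
  have hy12 : y ^ 12 = w := by
    rw [hy, ← Real.rpow_natCast, ← Real.rpow_mul hw0.le]; norm_num
  have hz16 : z ^ 16 = T := by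
    rw [hz, ← Real.rpow_natCast, ← Real.rpow_mul hT0.le]; norm_num
  have hz12 : z ^ 12 = T ^ (3/4 : ℝ) := by
    rw [hz, ← Real.rpow_natCast, ← Real.rpow_mul hT0.le]; norm_num
  have hzm : T ^ (-(1/16) : ℝ) = z⁻¹ := by rw [hz, Real.rpow_neg hT0.le]
  have hy0 : 0 < y := by linarith only [hy1]
  have hz0 : 0 < z := by linarith only [hz1]
  have hzy : z ≤ 2 * y := by
    have h2 : z ^ 12 ≤ (2 * y) ^ 12 := by
      rw [mul_pow, hy12, hz12]
      linarith only [h, h1]
    exact le_of_pow_le_pow_left₀ (by norm_num) (by positivity) h2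
  -- wg
  have hwg : wg τ ≤ 257 * y ^ 8 := by
    unfold wg
    rw [Real.sqrt_le_iff]
    refine ⟨by positivity, ?_⟩
    have h3 : |τ| ≤ T + w := by
      rw [hw, abs_sub_comm]
      have := abs_add_le t (τ - t)
      rw [abs_of_nonneg ht0] at this
      have e : t + (τ - t) = τ := by ring
      rw [e] at this
      linarith only [htT, this]
    have h4 : T ≤ 65536 * y ^ 16 := by
      rw [← hz16]
      calc z ^ 16 ≤ (2 * y) ^ 16 := by gcongr
        _ = _ := by rw [mul_pow]; norm_num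
    have h5 : w ≤ y ^ 16 := by
      rw [← hy12]
      exact pow_le_pow_right₀ hy1 (by norm_num)
    have h6 : 1 ≤ y ^ 16 := one_le_pow₀ hy1
    have e : (257 * y ^ 8) ^ 2 = 66049 * y ^ 16 := by ring
    rw [e]
    linarith only [h1, h3, h4, h5]
  have hK : Kd 1 (t - τ) ≤ (y ^ 24)⁻¹ := by
    unfold Kd
    apply inv_anti₀ (by positivity)
    rw [one_mul, ← sq_abs, ← hw, ← hy12]
    nlinarith only []
  have hwf : (y ^ 15)⁻¹ ≤ 4 * wf (t - τ) := by
    unfold wf
    rw [Real.norm_eq_abs, ← hw, ← hy12, Real.rpow_neg (by positivity)]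
    have h7 : (1 + y ^ 12) ^ (5/4 : ℝ) ≤ 4 * y ^ 15 := by
      have h8 : 1 + y ^ 12 ≤ 2 * y ^ 12 := by
        have : 1 ≤ y ^ 12 := one_le_pow₀ hy1
        linarith only [h1, hy12]
      calc (1 + y ^ 12) ^ (5/4 : ℝ) ≤ (2 * y ^ 12) ^ (5/4 : ℝ) := Real.rpow_le_rpow (by positivity) h8 (by norm_num)
        _ = 2 ^ (5/4 : ℝ) * y ^ 15 := by
            rw [Real.mul_rpow (by norm_num) (by positivity), ← Real.rpow_natCast, ← Real.rpow_mul hy0.le, ← Real.rpow_natCast]
            norm_num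
        _ ≤ 4 * y ^ 15 := by
            gcongr
            calc (2:ℝ) ^ (5/4 : ℝ) ≤ 2 ^ (2:ℝ) := Real.rpow_le_rpow_of_exponent_le (by norm_num) (by norm_num)
              _ = 4 := by norm_num
    rw [← div_eq_mul_inv, inv_eq_one_div, div_le_div_iff₀ (by positivity) (by positivity)]
    linarith only [h7]
  rw [hzm]
  have hwfn := wf_nonneg (t - τ)
  have hwg0 : 0 ≤ wg τ := le_trans zero_le_one (wg_one_le τ)
  calc Kd 1 (t - τ) * wg τ ≤ (y ^ 24)⁻¹ * (257 * y ^ 8) := by gcongr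
    _ = 257 * (y ^ 15)⁻¹ * y⁻¹ := by
        field_simp
    _ ≤ 257 * (4 * wf (t - τ)) * (2 * z⁻¹) := by
        gcongr
        rw [← div_eq_mul_inv, inv_eq_one_div, div_le_div_iff₀ hy0 hz0]
        linarith only [hzy]
    _ = _ := by ring

end Pool.Agent.Helper57.US

end

/-! ### Helper57.UV.GsInt -/

section

namespace Pool.Agent.Helper57.UV

open Set MeasureTheory Filter Topology

open Pool.Agent.Helper57.LH

open Pool.Agent.Helper57.Zeta

open Pool.Agent.Helper57.LS

/-- the even function whose cosine transform is the difference -/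
noncomputable def fD (X v x : ℝ) : ℝ := max 0 (1 - |x| / X) * (Real.cosh (v * x) - 1)

lemma fD_cont (X v : ℝ) : Continuous (fD X v) := by unfold fD; fun_prop

lemma fD_even (X v x : ℝ) : fD X v (-x) = fD X v x := by
  unfold fD
  rw [abs_neg, mul_neg, Real.cosh_neg]

lemma fD_zero_out {X v x : ℝ} (hX : 0 < X) (hx : X ≤ |x|) : fD X v x = 0 := by
  unfold fD
  have : 1 - |x| / X ≤ 0 := by
    have : 1 ≤ |x| / X := by rw [le_div_iff₀ hX]; linarith
    linarith only [this]
  rw [max_eq_left this, zero_mul]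

lemma fD_supp {X : ℝ} (hX : 0 < X) (v : ℝ) {f : ℝ → ℝ} (hf : Continuous f) :
    Integrable (fun x => fD X v x * f x) ∧ ∫ x, fD X v x * f x = ∫ x in (-X)..X, fD X v x * f x := by
  have h0 : ∀ x ∉ Icc (-X) X, fD X v x * f x = 0 := by
    intro x hx
    rw [fD_zero_out hX, zero_mul]
    rw [mem_Icc, not_and_or, not_le, not_le] at hx
    rw [le_abs]
    rcases hx with h | h
    · right; linarith
    · left; linarith
  have hc : Continuous (fun x => fD X v x * f x) := (fD_cont X v).mul hf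
  have hi : IntegrableOn (fun x => fD X v x * f x) (Icc (-X) X) := hc.continuousOn.integrableOn_compact isCompact_Icc
  refine ⟨?_, ?_⟩
  · exact (integrableOn_iff_integrable_of_support_subset (fun x hx => by
      by_contra hn
      exact hx (h0 x hn))).mp hi
  · rw [intervalIntegral.integral_of_le (by linarith), ← integral_Icc_eq_integral_Ioc]
    exact (setIntegral_eq_integral_of_forall_compl_eq_zero h0).symm

lemma gs_even (X v w : ℝ) : gs X v (-w) = gs X v w := by
  rw [gs_eq, gs_eq]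
  congr 1
  apply intervalIntegral.integral_congr
  intro x _
  simp only
  rw [neg_mul, Real.cos_neg]

lemma fD_FT {X : ℝ} (hX : 0 < X) (v w : ℝ) : ∫ x, fD X v x * Real.cos (2 * Real.pi * w * x) = X * (gs X v (2 * Real.pi * w) - gs X 0 (2 * Real.pi * w)) := by
  have hc : Continuous (fun x : ℝ => Real.cos (2 * Real.pi * w * x)) := by fun_prop
  rw [(fD_supp hX v hc).2]
  have hcc : Continuous (fun x => fD X v x * Real.cos (2 * Real.pi * w * x)) := (fD_cont X v).mul hc
  have h1 : ∫ x in (-X)..0, fD X v x * Real.cos (2 * Real.pi * w * x) = ∫ x in (0:ℝ)..X, fD X v x * Real.cos (2 * Real.pi * w * x) := by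
    have h2 := intervalIntegral.integral_comp_neg (a := 0) (b := X) (fun x => fD X v x * Real.cos (2 * Real.pi * w * x))
    rw [neg_zero] at h2
    rw [← h2]
    apply intervalIntegral.integral_congr
    intro x _
    simp only
    rw [fD_even, mul_neg, Real.cos_neg]
  rw [← intervalIntegral.integral_add_adjacent_intervals (hcc.intervalIntegrable _ _) (hcc.intervalIntegrable (0:ℝ) _), h1, gs_diff]
  have h3 : ∫ x in (0:ℝ)..X, fD X v x * Real.cos (2 * Real.pi * w * x) =
      ∫ x in (0:ℝ)..X, (1 - x / X) * (Real.cosh (v * x) - 1) * Real.cos (2 * Real.pi * w * x) := by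
    apply intervalIntegral.integral_congr
    intro x hx
    rw [uIcc_of_le hX.le] at hx
    simp only
    unfold fD
    rw [abs_of_nonneg hx.1, max_eq_right]
    have : x / X ≤ 1 := by rw [div_le_one hX]; exact hx.2
    linarith only [this]
  rw [h3]
  generalize (∫ x in (0:ℝ)..X, (1 - x / X) * (Real.cosh (v * x) - 1) * Real.cos (2 * Real.pi * w * x)) = J
  field_simp
  ring

lemma gsD_integrable {X : ℝ} (hX : 0 < X) (v : ℝ) : Integrable (fun w => gs X v w - gs X 0 w) := by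
  refine ((Kd_integrable hX).const_mul (8 * ((|v| * X) ^ 2 * Real.exp (|v| * X)))).mono' ((gs_cont X v).sub (gs_cont X 0)).aestronglyMeasurable ?_
  filter_upwards with w
  rw [Real.norm_eq_abs]
  exact gs_diff_bound hX v w

/-- the kernel for zeros off the line has the same integral -/
theorem gsD_integral {X : ℝ} (hX : 0 < X) (v : ℝ) : ∫ w, (gs X v w - gs X 0 w) = 0 := by
  have hpi := Real.pi_pos
  have hf : Integrable (fD X v) := by
    have h := (fD_supp hX v (f := fun _ => (1:ℝ)) continuous_const).1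
    simpa using h
  have hg : Integrable (fun w => X * (gs X v (2 * Real.pi * w) - gs X 0 (2 * Real.pi * w))) := by
    apply Integrable.const_mul
    exact (gsD_integrable hX v).comp_mul_left' (by positivity)
  have h := inv_even (f := fD X v) (g := fun w => X * (gs X v (2 * Real.pi * w) - gs X 0 (2 * Real.pi * w))) hf (fD_cont X v) (fD_even X v) hg
    (by intro w; simp only [mul_neg, gs_even]) (fD_FT hX v) 0
  simp only [mul_zero, zero_mul, Real.cos_zero, mul_one] at h
  rw [integral_const_mul, Measure.integral_comp_mul_left (fun w => gs X v w - gs X 0 w) (2 * Real.pi)] at h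
  have h0 : fD X v 0 = 0 := by unfold fD; simp
  rw [h0, smul_eq_mul, mul_eq_zero, mul_eq_zero] at h
  rcases h with h | h | h
  · exact absurd h hX.ne'
  · exfalso
    rw [abs_eq_zero, inv_eq_zero] at h
    linarith only [hpi, h]
  · exact h

end Pool.Agent.Helper57.UV

end

/-! ### Helper57.UV.Ker -/

section

namespace Pool.Agent.Helper57.UV

open Set MeasureTheory Filter Topology

open Pool.Agent.Helper57.LH

open Pool.Agent.Helper57.Zeta

open Pool.Agent.Helper57.LS

open Pool.Agent.Helper57.US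

/-- comparison with the kernel of scale one -/
lemma Kd_q {X q w : ℝ} (hq1 : 1 ≤ q) (hqX : 1 ≤ q * X ^ 2) : Kd X w ≤ q * Kd 1 w := by
  unfold Kd
  rw [one_mul, ← div_eq_mul_inv, inv_eq_one_div, div_le_div_iff₀ (by positivity) (by positivity)]
  have h1 := mul_nonneg (by linarith only [hqX] : 0 ≤ q * X ^ 2 - 1) (sq_nonneg w)
  rw [mul_pow]
  have e : (q * X ^ 2 - 1) * w ^ 2 = q * (X ^ 2 * w ^ 2) - w ^ 2 := by ring
  have e2 : q * (1 + X ^ 2 * w ^ 2) = q + q * (X ^ 2 * w ^ 2) := by ring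
  rw [e] at h1
  rw [e2]
  linarith

/-- kernel sum over a finite set of zeros -/
noncomputable def KS (F : Finset ZS) (t : ℝ) : ℝ := ∑ ρ ∈ F, mx ρ * Kd 1 (t - (ρ:ℂ).im)

lemma KS_nonneg (F : Finset ZS) (t : ℝ) : 0 ≤ KS F t := by
  unfold KS
  exact Finset.sum_nonneg fun ρ _ => mul_nonneg (mx_nonneg _) (Kd_pos _ _).le

lemma KS_integrable (F : Finset ZS) : Integrable (KS F) := by
  unfold KS
  apply integrable_finsetSum
  intro ρ _
  exact ((Kd_integrable one_pos).comp_sub_right _).const_mul _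

lemma KS_le_log {F : Finset ZS} {T : ℝ} (hT : 3 ≤ T) (hF : ∀ ρ ∈ F, 0 ≤ (ρ:ℂ).im ∧ (ρ:ℂ).im ≤ T) (t : ℝ) :
    KS F t ≤ 4 * CLA * Real.log T := by
  set s := max 0 (min t T) with hs
  have hs0 : 0 ≤ s := le_max_left _ _
  have hsT : s ≤ T := max_le (by linarith only [hT]) (min_le_right _ _)
  have hA := Afun_log hT hs0 hsT
  have h1 : ∑ ρ ∈ F, fz ρ s ≤ Afun s := sum_le_hasSum F (fun i _ => fz_nonneg i s) (fz_hasSum s)
  have h2 : KS F t ≤ ∑ ρ ∈ F, 4 * fz ρ s := by
    unfold KS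
    refine Finset.sum_le_sum fun ρ hρ => ?_
    have hr := zs_re ρ
    obtain ⟨hg0, hgT⟩ := hF ρ hρ
    have hm := mx_nonneg (ρ:ℂ)
    have h3 : Kd 1 (t - (ρ:ℂ).im) ≤ (1 + (t - (ρ:ℂ).im) ^ 2)⁻¹ := Kd_le_one le_rfl _
    have h4 : (s - (ρ:ℂ).im) ^ 2 ≤ (t - (ρ:ℂ).im) ^ 2 := by
      rw [sq_le_sq]
      rcases le_total t 0 with h | h
      · have e1 : s = 0 := by
          rw [hs, min_eq_left (by linarith only [hT, hr, h]), max_eq_left h]
        rw [e1, abs_of_nonpos (by linarith only [hg0]), abs_of_nonpos (by linarith only [hg0, h])]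
        linarith only [h]
      · rcases le_total t T with h' | h'
        · have e1 : s = t := by
            rw [hs, min_eq_left h', max_eq_right h]
          rw [e1]
        · have e1 : s = T := by
            rw [hs, min_eq_right h', max_eq_right (by linarith only [hT, hr])]
          rw [e1, abs_of_nonneg (by linarith only [hgT]), abs_of_nonneg (by linarith only [hgT, h'])]
          linarith only [h']
    have h5 : (1 + (t - (ρ:ℂ).im) ^ 2)⁻¹ ≤ (1 + (s - (ρ:ℂ).im) ^ 2)⁻¹ := by gcongr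
    unfold fz
    set a := 2 - (ρ:ℂ).re with ha
    have ha1 : 1 < a := by rw [ha]; linarith only [hr]
    have ha2 : a < 2 := by rw [ha]; linarith only [hr]
    set w := s - (ρ:ℂ).im with hw
    have h6 : (1 + w ^ 2)⁻¹ ≤ 4 * (a / (a ^ 2 + w ^ 2)) := by
      rw [inv_eq_one_div, ← mul_div_assoc, div_le_div_iff₀ (by positivity) (by positivity)]
      nlinarith only [hr, sq_nonneg w]
    calc mx ρ * Kd 1 (t - (ρ:ℂ).im) ≤ mx ρ * (4 * (a / (a ^ 2 + w ^ 2))) := by
          gcongr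
          exact h3.trans (h5.trans h6)
      _ = _ := by ring
  rw [← Finset.mul_sum] at h2
  nlinarith only [hA, h1, h2]

/-- integral outside an interval -/
lemma KS_compl {T a b M : ℝ} (hT : 3 ≤ T) (hM : 1 ≤ M) (ha : 0 ≤ a) (hbT : b ≤ T) {F : Finset ZS}
    (hF : ∀ ρ ∈ F, 0 ≤ (ρ:ℂ).im ∧ (ρ:ℂ).im ≤ T) :
    ∫ t in (Icc a b)ᶜ, KS F t ≤ (4 * CLA * Real.log T) * (a + (T - b) + 2 * M) +
      4 * M ^ (-(3/4) : ℝ) * (∑ ρ ∈ F, mx ρ) * C1 := by
  have hCLA := CLA_pos
  have hL := one_le_log hT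
  set c := 4 * CLA * Real.log T with hc
  have hc0 : 0 < c := by rw [hc]; positivity
  set S : Set ℝ := Icc (-M) a ∪ Icc b (T + M) with hS
  have hSm : MeasurableSet S := measurableSet_Icc.union measurableSet_Icc
  have hSv : volume S < ⊤ := by
    refine (measure_union_le _ _).trans_lt ?_
    rw [Real.volume_Icc, Real.volume_Icc]
    exact ENNReal.add_lt_top.mpr ⟨ENNReal.ofReal_lt_top, ENNReal.ofReal_lt_top⟩
  set G1 : ℝ → ℝ := S.indicator (fun _ => c) with hG1
  set G2 : ℝ → ℝ := fun t => ∑ ρ ∈ F, ((4 * M ^ (-(3/4) : ℝ)) * mx ρ) * wf (t - (ρ:ℂ).im) with hG2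
  have iG1 : Integrable G1 := by
    rw [hG1, integrable_indicator_iff hSm]
    exact integrableOn_const hSv.ne
  have iG2 : Integrable G2 := by
    apply integrable_finsetSum
    intro ρ _
    exact (wf_integrable.comp_sub_right _).const_mul _
  have hMp : 0 < M ^ (-(3/4) : ℝ) := Real.rpow_pos_of_pos (by linarith only [hM]) _
  have hG10 : ∀ t, 0 ≤ G1 t := fun t => by
    rw [hG1]
    exact indicator_nonneg (fun _ _ => by positivity) t
  have hG20 : ∀ t, 0 ≤ G2 t := fun t => by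
    rw [hG2]
    refine Finset.sum_nonneg fun ρ _ => ?_
    have := mx_nonneg (ρ:ℂ)
    have := wf_nonneg (t - (ρ:ℂ).im)
    positivity
  have hpt : ∀ t ∈ (Icc a b)ᶜ, KS F t ≤ G1 t + G2 t := by
    intro t ht
    have hy := KS_le_log hT hF t
    have hy0 := KS_nonneg F t
    by_cases htS : t ∈ S
    · have e1 : G1 t = c := by rw [hG1]; exact indicator_of_mem htS _
      rw [e1]
      linarith only [hG20, hy, hG20 t]
    · have h3 : KS F t ≤ G2 t := by
        unfold KS
        rw [hG2]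
        simp only
        refine Finset.sum_le_sum fun ρ hρ => ?_
        obtain ⟨hg0, hgT⟩ := hF ρ hρ
        have hfar : M ≤ |t - (ρ:ℂ).im| := by
          rw [hS, mem_union, not_or] at htS
          obtain ⟨h4, h5⟩ := htS
          simp only [mem_Icc, not_and_or, not_le] at h4 h5
          rw [mem_compl_iff, mem_Icc, not_and_or, not_le, not_le] at ht
          rw [le_abs]
          rcases ht with h | h
          · right
            rcases h4 with h4 | h4
            · linarith only [hg0, h4]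
            · linarith only [h, h4]
          · left
            rcases h5 with h5 | h5
            · linarith only [h, h5]
            · linarith only [hgT, h5]
        have h7 := Kd_far (X := 1) le_rfl hM hfar
        have := mx_nonneg (ρ:ℂ)
        calc mx ρ * Kd 1 (t - (ρ:ℂ).im) ≤ mx ρ * (4 * M ^ (-(3/4) : ℝ) * wf (t - (ρ:ℂ).im)) := by
              gcongr
          _ = _ := by ring
      linarith only [hG10, h3, hG10 t]
  have h1 : ∫ t in (Icc a b)ᶜ, KS F t ≤ ∫ t in (Icc a b)ᶜ, (G1 t + G2 t) := by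
    apply setIntegral_mono_on (KS_integrable F).integrableOn (iG1.add iG2).integrableOn measurableSet_Icc.compl hpt
  have h2 : ∫ t in (Icc a b)ᶜ, (G1 t + G2 t) ≤ ∫ t, (G1 t + G2 t) :=
    setIntegral_le_integral (iG1.add iG2) (Eventually.of_forall fun t => add_nonneg (hG10 t) (hG20 t))
  have h3 : ∫ t, (G1 t + G2 t) = (∫ t, G1 t) + ∫ t, G2 t := integral_add iG1 iG2
  have h4 : ∫ t, G1 t ≤ c * (a + (T - b) + 2 * M) := by
    rw [hG1, integral_indicator hSm, setIntegral_const, smul_eq_mul, mul_comm]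
    have h5 : volume.real S ≤ a + (T - b) + 2 * M := by
      rw [hS]
      refine (measureReal_union_le _ _).trans ?_
      rw [Real.volume_real_Icc_of_le (by linarith only [hM, ha]), Real.volume_real_Icc_of_le (by linarith only [hM, hbT])]
      linarith only []
    gcongr
  have h5 : ∫ t, G2 t = 4 * M ^ (-(3/4) : ℝ) * (∑ ρ ∈ F, mx ρ) * C1 := by
    rw [hG2, integral_finsetSum]
    · have e1 : ∀ ρ : ZS, ∫ t, ((4 * M ^ (-(3/4) : ℝ)) * mx ρ) * wf (t - (ρ:ℂ).im) = ((4 * M ^ (-(3/4) : ℝ)) * C1) * mx ρ := by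
        intro ρ
        rw [integral_const_mul]
        have e2 : ∫ t, wf (t - (ρ:ℂ).im) = C1 := integral_sub_right_eq_self wf (ρ:ℂ).im
        rw [e2]
        ring
      simp_rw [e1]
      rw [← Finset.mul_sum]
      ring
    · intro ρ _
      exact (wf_integrable.comp_sub_right _).const_mul _
  linarith

/-- constant for the tail -/
noncomputable def CT2 : ℝ := (3 / 2) * (5 / 2 * CA) * 2056 * C1

lemma CT2_nonneg : 0 ≤ CT2 := by
  have := CA_nonneg
  have := C1_nonneg
  unfold CT2; positivity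

/-- tail of zeros outside `[0,T]` seen from well inside -/
lemma KS_tail {T t : ℝ} (hT : 1 ≤ T) (ha4 : 4 ≤ T ^ (3/4 : ℝ)) (ht : T ^ (3/4 : ℝ) ≤ t) (htT : t ≤ T - T ^ (3/4 : ℝ))
    (F : Finset ZS) (hF : ∀ ρ ∈ F, ρ ∉ ZT T) :
    KS F t ≤ CT2 * T ^ (-(1/16) : ℝ) := by
  classical
  obtain ⟨a, ha⟩ : ∃ a, a = T ^ (3/4 : ℝ) := ⟨_, rfl⟩
  rw [← ha] at ha4 ht htT
  have hfar : ∀ ρ ∈ F, a ≤ |t - (ρ:ℂ).im| := by
    intro ρ hρ
    have hn := hF ρ hρ
    rw [mem_ZT, not_and_or, not_le, not_le] at hn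
    rw [le_abs]
    rcases hn with h | h
    · left; linarith only [ht, h]
    · right; linarith only [htT, h]
  set Iρ : ZS → Set ℝ := fun ρ => Icc ((ρ:ℂ).im - 1) ((ρ:ℂ).im + 1) with hIρ
  have hmemI : ∀ (ρ : ZS) (τ : ℝ), τ ∈ Iρ ρ ↔ |τ - (ρ:ℂ).im| ≤ 1 := by
    intro ρ τ
    rw [hIρ]
    simp only [mem_Icc, abs_le]
    constructor <;> rintro ⟨h1, h2⟩ <;> constructor <;> linarith
  have hKc : Continuous (fun τ => Kd 1 (t - τ)) := (Kd_cont 1).comp (by fun_prop)
  have h1 : ∀ ρ : ZS, Kd 1 (t - (ρ:ℂ).im) ≤ (3 / 2) * ∫ τ in Iρ ρ, Kd 1 (t - τ) := by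
    intro ρ
    have h2 : ∫ _ in Iρ ρ, Kd 1 (t - (ρ:ℂ).im) / 3 ≤ ∫ τ in Iρ ρ, Kd 1 (t - τ) := by
      apply setIntegral_mono_on
      · exact continuous_const.continuousOn.integrableOn_compact isCompact_Icc
      · exact hKc.continuousOn.integrableOn_compact isCompact_Icc
      · exact measurableSet_Icc
      · intro τ hτ
        have := Kd_smooth (L := 1) (B := 1) (X := 1) (t := t) (τ := τ) (γ := (ρ:ℂ).im) one_pos le_rfl (by norm_num) (by
          rw [div_one]; exact (hmemI ρ τ).mp hτ)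
        linarith only [this]
    rw [setIntegral_const, hIρ, Real.volume_real_Icc_of_le (by linarith only []), smul_eq_mul] at h2
    have e : ((ρ:ℂ).im + 1 - ((ρ:ℂ).im - 1)) * (Kd 1 (t - (ρ:ℂ).im) / 3) = 2 / 3 * Kd 1 (t - (ρ:ℂ).im) := by ring
    rw [e] at h2
    linarith only [h2]
  set h : ℝ → ℝ := fun τ => ∑ ρ ∈ F, mx ρ * (Iρ ρ).indicator (fun τ => Kd 1 (t - τ)) τ with hh
  have hint1 : ∀ ρ : ZS, Integrable ((Iρ ρ).indicator (fun τ => Kd 1 (t - τ))) := by
    intro ρ
    rw [integrable_indicator_iff measurableSet_Icc]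
    exact hKc.continuousOn.integrableOn_compact isCompact_Icc
  have hint : Integrable h := by
    rw [hh]
    exact integrable_finsetSum F fun ρ _ => (hint1 ρ).const_mul _
  have h2 : KS F t ≤ (3 / 2) * ∫ τ, h τ := by
    have e1 : ∫ τ, h τ = ∑ ρ ∈ F, mx ρ * ∫ τ in Iρ ρ, Kd 1 (t - τ) := by
      rw [hh, integral_finsetSum F fun ρ _ => (hint1 ρ).const_mul _]
      refine Finset.sum_congr rfl fun ρ _ => ?_
      rw [integral_const_mul, integral_indicator measurableSet_Icc]
    rw [e1, Finset.mul_sum]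
    unfold KS
    refine Finset.sum_le_sum fun ρ _ => ?_
    have := mx_nonneg (ρ:ℂ)
    calc mx ρ * Kd 1 (t - (ρ:ℂ).im) ≤ mx ρ * ((3 / 2) * ∫ τ in Iρ ρ, Kd 1 (t - τ)) := by
          have := h1 ρ
          gcongr
      _ = _ := by ring
  have hpt : ∀ τ, h τ = Kd 1 (t - τ) * ∑ ρ ∈ F.filter (fun ρ => τ ∈ Iρ ρ), mx ρ := by
    intro τ
    rw [hh, Finset.sum_filter, Finset.mul_sum]
    refine Finset.sum_congr rfl fun ρ _ => ?_
    by_cases hm : τ ∈ Iρ ρ
    · rw [indicator_of_mem hm, if_pos hm]; ring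
    · rw [indicator_of_notMem hm, if_neg hm]; ring
  have hCA := CA_nonneg
  have hTp : 0 < T ^ (-(1/16) : ℝ) := Real.rpow_pos_of_pos (by linarith only [htT, ht, ha4]) _
  have hb : ∀ τ, h τ ≤ 5 / 2 * CA * (2056 * T ^ (-(1/16) : ℝ)) * wf (t - τ) := by
    intro τ
    rw [hpt]
    have hwf := wf_nonneg (t - τ)
    rcases (F.filter (fun ρ => τ ∈ Iρ ρ)).eq_empty_or_nonempty with he | ⟨ρ, hρ⟩
    · rw [he, Finset.sum_empty, mul_zero]; positivity
    · rw [Finset.mem_filter] at hρ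
      have h5 := (hmemI ρ τ).mp hρ.2
      have h6 := hfar ρ hρ.1
      have h7 : a - 1 ≤ |t - τ| := by
        have := abs_sub_le t τ (ρ:ℂ).im
        linarith only [h5, h6, this]
      have h3 : ∑ ρ ∈ F.filter (fun ρ => τ ∈ Iρ ρ), mx ρ ≤ 5 / 2 * Afun τ := loc_count _ τ (by
        intro ρ' hρ'
        rw [Finset.mem_filter] at hρ'
        rw [abs_sub_comm]
        exact (hmemI ρ' τ).mp hρ'.2)
      have hA2 : Afun τ ≤ CA * wg τ := (le_abs_self _).trans (Afun_bound τ)
      have hK := (Kd_pos 1 (t - τ)).le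
      have hkw := Kd_wg (T := T) (t := t) (τ := τ) hT (by linarith only [ht, ha4]) (by linarith only [htT, ha4]) (by linarith only [ha4, h7]) (by rw [← ha]; linarith only [ha4, h7])
      calc Kd 1 (t - τ) * ∑ ρ ∈ F.filter (fun ρ => τ ∈ Iρ ρ), mx ρ ≤ Kd 1 (t - τ) * (5 / 2 * (CA * wg τ)) := by
            gcongr
            exact h3.trans (by gcongr)
        _ = 5 / 2 * CA * (Kd 1 (t - τ) * wg τ) := by ring
        _ ≤ 5 / 2 * CA * (2056 * T ^ (-(1/16) : ℝ) * wf (t - τ)) := by gcongr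
        _ = _ := by ring
  have hI : ∫ τ, h τ ≤ 5 / 2 * CA * (2056 * T ^ (-(1/16) : ℝ)) * C1 := by
    have e : ∫ τ, 5 / 2 * CA * (2056 * T ^ (-(1/16) : ℝ)) * wf (t - τ) = 5 / 2 * CA * (2056 * T ^ (-(1/16) : ℝ)) * C1 := by
      rw [integral_const_mul]
      congr 1
      exact integral_sub_left_eq_self wf volume t
    rw [← e]
    exact integral_mono hint ((wf_integrable.comp_sub_left t).const_mul _) hb
  calc KS F t ≤ (3 / 2) * ∫ τ, h τ := h2
    _ ≤ (3 / 2) * (5 / 2 * CA * (2056 * T ^ (-(1/16) : ℝ)) * C1) := by gcongr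
    _ = _ := by unfold CT2; ring

end Pool.Agent.Helper57.UV

end
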