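import Pool.Agent.Helper57.M.B
import Pool.Agent.Helper57.M.Z

/-!
# Merged library file (short import chain), part C
-/

/-! ### Helper57.LH.LogD -/

section

namespace Pool.Agent.Helper57.LH

open Complex Set MeasureTheory Filter Topology

open Pool.Agent.Helper57.Zeta

open scoped ArithmeticFunction

lemma logDeriv_xi {s : ℂ} (hs : 1 < s.re) : logDeriv xi s =
    1 / s + (1 / (s - 1) + (-(Real.log Real.pi : ℂ) / 2 + (Complex.digamma (s / 2) / 2 + logDeriv riemannZeta s))) := by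
  have hpi : (Real.pi : ℂ) ≠ 0 := by exact_mod_cast Real.pi_ne_zero
  have hs0 : s ≠ 0 := by rintro rfl; norm_num at hs
  have hs1 : s ≠ 1 := by rintro rfl; norm_num at hs
  have hev : xi =ᶠ[𝓝 s] fun z => z * ((z - 1) * ((Real.pi : ℂ) ^ (-z / 2) * (Gamma (z / 2) * riemannZeta z))) := by
    filter_upwards [(isOpen_lt continuous_const Complex.continuous_re).mem_nhds hs] with z hz
    have hz' : 1 < z.re := hz
    rw [xi_eq_zeta (by linarith) (by rintro rfl; norm_num at hz'), Gammaℝ_def]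
    ring
  have h1 := (logDeriv_congr_nhds hev).self_of_nhds
  rw [h1]
  have hs2 : 0 < (s / 2).re := by
    rw [show s / 2 = ((1/2 : ℝ) : ℂ) * s by push_cast; ring, Complex.re_ofReal_mul]; linarith only [hs]
  have hG : Gamma (s / 2) ≠ 0 := Complex.Gamma_ne_zero_of_re_pos hs2
  have hz : riemannZeta s ≠ 0 := riemannZeta_ne_zero_of_one_le_re hs.le
  have hdz : DifferentiableAt ℂ riemannZeta s := differentiableAt_riemannZeta hs1
  have hdG0 : DifferentiableAt ℂ Gamma (s / 2) := Complex.differentiableAt_Gamma _ (ne_neg_nat_re hs2)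
  have hdG : DifferentiableAt ℂ (fun z => Gamma (z / 2)) s :=
    DifferentiableAt.comp s hdG0 (by fun_prop)
  have hP : HasDerivAt (fun z : ℂ => (Real.pi : ℂ) ^ (-z / 2)) ((Real.pi : ℂ) ^ (-s / 2) * Complex.log Real.pi * (-1 / 2)) s :=
    HasDerivAt.const_cpow ((hasDerivAt_id s).fun_neg.div_const 2) (Or.inl hpi)
  have hP0 : (Real.pi : ℂ) ^ (-s / 2) ≠ 0 := by
    rw [Complex.cpow_def_of_ne_zero hpi]; exact Complex.exp_ne_zero _
  rw [logDeriv_mul (f := fun z => z) (g := fun z => (z - 1) * ((Real.pi : ℂ) ^ (-z / 2) * (Gamma (z / 2) * riemannZeta z))) s hs0 (mul_ne_zero (sub_ne_zero.mpr hs1) (mul_ne_zero hP0 (mul_ne_zero hG hz))) differentiableAt_id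
    ((by fun_prop : DifferentiableAt ℂ (fun z : ℂ => z - 1) s).mul (hP.differentiableAt.mul (hdG.mul hdz)))]
  rw [logDeriv_mul (f := fun z => z - 1) (g := fun z => ((Real.pi : ℂ) ^ (-z / 2) * (Gamma (z / 2) * riemannZeta z))) s (sub_ne_zero.mpr hs1) (mul_ne_zero hP0 (mul_ne_zero hG hz)) (by fun_prop)
    (hP.differentiableAt.mul (hdG.mul hdz))]
  rw [logDeriv_mul (f := fun z => (Real.pi : ℂ) ^ (-z / 2)) (g := fun z => (Gamma (z / 2) * riemannZeta z)) s hP0 (mul_ne_zero hG hz) hP.differentiableAt (hdG.mul hdz)]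
  rw [logDeriv_mul (f := fun z => Gamma (z / 2)) (g := riemannZeta) s hG hz hdG hdz]
  congr 1
  · rw [logDeriv_apply]; simp
  congr 1
  · rw [logDeriv_apply]; simp
  congr 1
  · rw [logDeriv_apply, hP.deriv, Complex.ofReal_log Real.pi_pos.le]
    field_simp
  congr 1
  · rw [logDeriv_apply, Complex.digamma_def, logDeriv_apply]
    have h2 : HasDerivAt (fun z => Gamma (z / 2)) (deriv Gamma (s / 2) * (1 / 2)) s := by
      have h3 : HasDerivAt (fun z : ℂ => z / 2) (1 / 2) s := (hasDerivAt_id s).div_const 2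
      exact HasDerivAt.comp s hdG0.hasDerivAt h3
    rw [h2.deriv]
    ring

/-- von Mangoldt series on the line Re s = 2 -/
lemma vM_hasSum (u : ℝ) : HasSum (fun n : ℕ => (ArithmeticFunction.vonMangoldt n / (n:ℝ) ^ 2) * Real.cos (Real.log n * u))
    (-(logDeriv riemannZeta ((2:ℝ) + u * I)).re) := by
  set s : ℂ := ((2:ℝ) : ℂ) + u * I with hs
  have hre : 1 < s.re := by rw [hs]; simp
  have h1 := ArithmeticFunction.LSeries_vonMangoldt_eq_deriv_riemannZeta_div hre
  have h2 := (ArithmeticFunction.LSeriesSummable_vonMangoldt hre).hasSum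
  have h3 : ∑' n, LSeries.term (fun n => ((ArithmeticFunction.vonMangoldt n : ℝ) : ℂ)) s n = -(logDeriv riemannZeta s) := by
    rw [logDeriv_apply, ← neg_div, ← h1]
    rfl
  rw [h3] at h2
  have h4 := Complex.hasSum_re h2
  rw [Complex.neg_re] at h4
  refine h4.congr_fun ?_
  intro n
  rcases Nat.eq_zero_or_pos n with rfl | hn
  · simp
  · rw [LSeries.term_of_ne_zero hn.ne']
    have hn0 : (0:ℝ) < n := by exact_mod_cast hn
    have e1 : (n:ℂ) ^ s = (((n:ℝ) ^ 2 : ℝ) : ℂ) * cexp ((Real.log n * u : ℝ) * I) := by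
      rw [Complex.cpow_def_of_ne_zero (by exact_mod_cast hn.ne'), ← Complex.natCast_log, hs, mul_add, Complex.exp_add]
      congr 1
      · rw [← Complex.ofReal_mul, ← Complex.ofReal_exp, mul_comm (Real.log n), ← Real.log_rpow hn0, Real.exp_log (by positivity)]
        norm_num
      · congr 1
        push_cast
        ring
    rw [e1]
    have e2 : ((ArithmeticFunction.vonMangoldt n : ℝ) : ℂ) / ((((n:ℝ) ^ 2 : ℝ) : ℂ) * cexp ((Real.log n * u : ℝ) * I)) =
      ((ArithmeticFunction.vonMangoldt n / (n:ℝ) ^ 2 : ℝ) : ℂ) * cexp ((-(Real.log n * u) : ℝ) * I) := by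
      rw [Complex.ofReal_neg, neg_mul, Complex.exp_neg]
      push_cast
      field_simp
    rw [e2, Complex.re_ofReal_mul, Complex.exp_ofReal_mul_I_re, Real.cos_neg]

/-- digamma series on the line -/
lemma dig_hasSum (u : ℝ) : HasSum (fun n : ℕ => 1 / ((n:ℝ) + 1) - 2 * ((2 * ((n:ℝ) + 1)) / ((2 * ((n:ℝ) + 1)) ^ 2 + u ^ 2)))
    ((Complex.digamma ((((2:ℝ) : ℂ) + u * I) / 2)).re + Real.eulerMascheroniConstant) := by
  set s : ℂ := (((2:ℝ) : ℂ) + u * I) / 2 with hs
  have hs' : s = ((1:ℝ) : ℂ) + ((u / 2 : ℝ) : ℂ) * I := by rw [hs]; push_cast; ring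
  have hre : 1 / 2 < s.re := by rw [hs']; simp; norm_num
  have h1 := Complex.hasSum_re (digamma_hasSum hre)
  rw [Complex.add_re, Complex.ofReal_re] at h1
  refine h1.congr_fun ?_
  intro n
  rw [Complex.sub_re]
  have e1 : (1 / ((n:ℂ) + 1)).re = 1 / ((n:ℝ) + 1) := by
    have : 1 / ((n:ℂ) + 1) = ((1 / ((n:ℝ) + 1) : ℝ) : ℂ) := by push_cast; rfl
    rw [this, Complex.ofReal_re]
  have e2 : (1 / ((n:ℂ) + s)).re = 2 * ((2 * ((n:ℝ) + 1)) / ((2 * ((n:ℝ) + 1)) ^ 2 + u ^ 2)) := by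
    have : (n:ℂ) + s = (((n:ℝ) + 1 : ℝ) : ℂ) + ((u / 2 : ℝ) : ℂ) * I := by
      rw [hs']; push_cast; ring
    rw [this, one_div, Complex.inv_re, normSq_z]
    simp only [Complex.add_re, Complex.ofReal_re, Complex.mul_re, Complex.I_re, mul_zero, Complex.ofReal_im, Complex.I_im, mul_one,
      sub_self, add_zero]
    have : (0:ℝ) ≤ n := Nat.cast_nonneg n
    field_simp
  rw [e1, e2]

/-- real part of the logarithmic derivative on the line Re s = 2 -/
noncomputable def Afun (u : ℝ) : ℝ := (logDeriv xi (((2:ℝ) : ℂ) + u * I)).re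

lemma Afun_eq (u : ℝ) : Afun u = 2 / (2 ^ 2 + u ^ 2) + 1 / (1 ^ 2 + u ^ 2) - (Real.log Real.pi + Real.eulerMascheroniConstant) / 2 +
    (∑' n : ℕ, (1 / ((n:ℝ) + 1) - 2 * ((2 * ((n:ℝ) + 1)) / ((2 * ((n:ℝ) + 1)) ^ 2 + u ^ 2)))) / 2 -
    ∑' n : ℕ, (ArithmeticFunction.vonMangoldt n / (n:ℝ) ^ 2) * Real.cos (Real.log n * u) := by
  unfold Afun
  rw [logDeriv_xi (by simp)]
  rw [(dig_hasSum u).tsum_eq, (vM_hasSum u).tsum_eq]
  simp only [Complex.add_re]
  have e1 : (1 / (((2:ℝ) : ℂ) + u * I)).re = 2 / (2 ^ 2 + u ^ 2) := by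
    rw [one_div, Complex.inv_re, normSq_z]; simp
  have e2 : (1 / (((2:ℝ) : ℂ) + u * I - 1)).re = 1 / (1 ^ 2 + u ^ 2) := by
    rw [show ((2:ℝ) : ℂ) + u * I - 1 = ((1:ℝ) : ℂ) + u * I by push_cast; ring, one_div, Complex.inv_re, normSq_z]; simp
  have e3 : (-(Real.log Real.pi : ℂ) / 2).re = -(Real.log Real.pi) / 2 := by
    have : (-(Real.log Real.pi : ℂ) / 2) = ((-(Real.log Real.pi) / 2 : ℝ) : ℂ) := by push_cast; rfl
    rw [this, Complex.ofReal_re]
  have e4 : ∀ z : ℂ, (z / 2).re = z.re / 2 := fun z => by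
    rw [show z / 2 = ((1/2 : ℝ) : ℂ) * z by push_cast; ring, Complex.re_ofReal_mul]; ring
  rw [e1, e2, e3, e4]
  ring

end Pool.Agent.Helper57.LH

end

/-! ### Helper57.LH.Expl -/

section

namespace Pool.Agent.Helper57.LH

open Complex Set MeasureTheory Filter Topology

open Pool.Agent.Helper57.Zeta

open scoped ArithmeticFunction

/-- growth weight -/
noncomputable def wg (u : ℝ) : ℝ := Real.sqrt (1 + |u|)

lemma wg_cont : Continuous wg := by unfold wg; fun_prop

lemma wg_one_le (u : ℝ) : 1 ≤ wg u := by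
  unfold wg
  rw [Real.one_le_sqrt]
  have := abs_nonneg u
  linarith

lemma kk_shift_cont {X : ℝ} (hX : 0 < X) (t : ℝ) : Continuous (fun u => kk X (t - u)) :=
  (kk_cont hX).comp (by fun_prop)

lemma kk_wg_integrable {X : ℝ} (hX : 0 < X) (t : ℝ) : Integrable (fun u => |kk X (t - u)| * wg u) := by
  have h1 : Integrable (fun v : ℝ => (1 + ‖v‖) ^ (-(3/2) : ℝ)) := integrable_one_add_norm (by simp; norm_num)
  have h2 : Integrable (fun u : ℝ => Ck X * wg t * (2 * (1 + ‖t - u‖) ^ (-(3/2) : ℝ))) :=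
    ((h1.comp_sub_left t).const_mul 2).const_mul _
  refine h2.mono' ?_ ?_
  · exact ((kk_shift_cont hX t).abs.mul wg_cont).aestronglyMeasurable
  · filter_upwards with u
    have hC := Ck_pos hX
    rw [Real.norm_of_nonneg (mul_nonneg (abs_nonneg _) (le_trans zero_le_one (wg_one_le u)))]
    have h3 := kk_bound hX (t - u)
    rw [Real.norm_eq_abs]
    have h4 : wg u ≤ wg t * Real.sqrt (1 + |t - u|) := by
      unfold wg
      rw [← Real.sqrt_mul (by positivity)]
      apply Real.sqrt_le_sqrt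
      have h5 : |u| ≤ |t| + |t - u| := by
        have := abs_sub_le u t 0
        rw [sub_zero, sub_zero, abs_sub_comm u t] at this
        linarith only [this]
      nlinarith only [h5, mul_nonneg (abs_nonneg t) (abs_nonneg (t - u))]
    have h6 : (1 + (t - u) ^ 2)⁻¹ * Real.sqrt (1 + |t - u|) ≤ 2 * (1 + |t - u|) ^ (-(3/2) : ℝ) := by
      set y := |t - u| with hy
      have hy0 : 0 ≤ y := abs_nonneg _
      have e1 : (t - u) ^ 2 = y ^ 2 := by rw [hy, sq_abs]
      rw [e1, Real.sqrt_eq_rpow]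
      have hp : 0 < 1 + y := by linarith
      have e2 : (1 + y) ^ (-(3/2) : ℝ) = ((1 + y) ^ 2)⁻¹ * (1 + y) ^ (1/2 : ℝ) := by
        rw [← Real.rpow_natCast, ← Real.rpow_neg hp.le, ← Real.rpow_add hp]
        norm_num
      rw [e2, ← mul_assoc]
      gcongr
      rw [inv_le_comm₀ (by positivity) (by positivity), mul_inv, inv_inv]
      nlinarith only [sq_nonneg (1 - y)]
    calc |kk X (t - u)| * wg u ≤ (Ck X * (1 + (t - u) ^ 2)⁻¹) * (wg t * Real.sqrt (1 + |t - u|)) := by
          gcongr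
          exact Real.sqrt_nonneg _
      _ = Ck X * wg t * ((1 + (t - u) ^ 2)⁻¹ * Real.sqrt (1 + |t - u|)) := by ring
      _ ≤ _ := by
          have : 0 ≤ wg t := Real.sqrt_nonneg _
          gcongr

lemma T_integrable {X : ℝ} (hX : 0 < X) (t : ℝ) {φ : ℝ → ℝ} (hφ : AEStronglyMeasurable φ) {c : ℝ}
    (hb : ∀ u, |φ u| ≤ c * wg u) : Integrable (fun u => kk X (t - u) * φ u) := by
  refine ((kk_wg_integrable hX t).const_mul c).mono' ((kk_shift_cont hX t).aestronglyMeasurable.mul hφ) ?_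
  filter_upwards with u
  rw [Real.norm_eq_abs, abs_mul]
  calc |kk X (t - u)| * |φ u| ≤ |kk X (t - u)| * (c * wg u) := by
        gcongr
        exact hb u
    _ = _ := by ring

lemma T_hasSum {X : ℝ} (hX : 0 < X) (t : ℝ) {ι : Type*} [Countable ι] {φ : ι → ℝ → ℝ} (hφ : ∀ i, Continuous (φ i))
    {c : ι → ℝ} (hc : Summable c) (hb : ∀ i u, |φ i u| ≤ c i * wg u) :
    HasSum (fun i => ∫ u, kk X (t - u) * φ i u) (∫ u, kk X (t - u) * ∑' i, φ i u) := by
  have hI : ∀ i, Integrable (fun u => kk X (t - u) * φ i u) := fun i =>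
    T_integrable hX t (hφ i).aestronglyMeasurable (hb i)
  have h := hasSum_integral_of_summable_integral_norm hI (by
    refine Summable.of_nonneg_of_le (fun i => integral_nonneg fun _ => norm_nonneg _) (fun i => ?_)
      (hc.mul_right (∫ u, |kk X (t - u)| * wg u))
    rw [← integral_const_mul]
    apply integral_mono (hI i).norm ((kk_wg_integrable hX t).const_mul _)
    intro u
    simp only
    rw [Real.norm_eq_abs, abs_mul]
    calc |kk X (t - u)| * |φ i u| ≤ |kk X (t - u)| * (c i * wg u) := by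
          gcongr
          exact hb i u
      _ = _ := by ring)
  have e : (fun u => kk X (t - u) * ∑' i, φ i u) = fun u => ∑' i, kk X (t - u) * φ i u := by
    funext u
    rw [tsum_mul_left]
  rw [e]
  exact h

/-- the digamma terms -/
noncomputable def Dn (n : ℕ) (u : ℝ) : ℝ := 1 / ((n:ℝ) + 1) - 2 * ((2 * ((n:ℝ) + 1)) / ((2 * ((n:ℝ) + 1)) ^ 2 + u ^ 2))

/-- summable majorant -/
noncomputable def cD (n : ℕ) : ℝ := 1 / (Real.sqrt ((n:ℝ) + 1)) ^ 3

lemma cD_summable : Summable cD := by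
  have h := (summable_nat_add_iff 1).mpr (Real.summable_one_div_nat_rpow.mpr (show (1:ℝ) < 3 / 2 by norm_num))
  refine h.congr fun n => ?_
  unfold cD
  rw [Real.sqrt_eq_rpow, ← Real.rpow_natCast, ← Real.rpow_mul (by positivity)]
  push_cast
  norm_num

lemma Dn_bound (n : ℕ) (u : ℝ) : |Dn n u| ≤ cD n * wg u := by
  have hn : (0:ℝ) < (n:ℝ) + 1 := by positivity
  set N : ℝ := (n:ℝ) + 1 with hN
  have hN1 : 1 ≤ N := by rw [hN]; have : (0:ℝ) ≤ n := Nat.cast_nonneg n; linarith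
  have e : Dn n u = u ^ 2 / (N * (4 * N ^ 2 + u ^ 2)) := by
    unfold Dn
    rw [← hN]
    field_simp
    ring
  rw [e, abs_of_nonneg (by positivity)]
  unfold cD wg
  rw [← hN]
  set q := Real.sqrt N with hq
  have hq0 : 0 < q := Real.sqrt_pos.mpr hn
  have hq2 : q ^ 2 = N := Real.sq_sqrt hn.le
  set s := Real.sqrt |u| with hs
  have hs0 : 0 ≤ s := Real.sqrt_nonneg _
  have hs2 : s ^ 2 = |u| := Real.sq_sqrt (abs_nonneg u)
  have hsw : s ≤ Real.sqrt (1 + |u|) := Real.sqrt_le_sqrt (by linarith only [])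
  have hu2 : u ^ 2 = s ^ 4 := by rw [← sq_abs, ← hs2]; ring
  have key : u ^ 2 / (N * (4 * N ^ 2 + u ^ 2)) ≤ 1 / q ^ 3 * s := by
    rw [hu2, ← hq2, one_div, inv_mul_eq_div, div_le_div_iff₀ (by positivity) (by positivity)]
    -- s^4 q^3 ≤ s (q^2 (4 q^4 + s^4))
    have h1 : s ^ 4 * q ^ 3 ≤ s * (q ^ 2 * (4 * (q ^ 2) ^ 2 + s ^ 4)) := by
      have h2 : 0 ≤ 4 * q ^ 4 + s ^ 4 - s ^ 3 * q := by
        nlinarith only [hq2, sq_nonneg (s ^ 2 - s * q), sq_nonneg (s ^ 2 - 2 * s * q), sq_nonneg (s * q - q ^ 2), sq_nonneg (s * q), sq_nonneg (q^2), sq_nonneg (s^2), sq_nonneg (s ^ 2 - s * q / 2)]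
      have h3 : 0 ≤ s * q ^ 2 * (4 * q ^ 4 + s ^ 4 - s ^ 3 * q) := by positivity
      nlinarith only [h3]
    linarith only [h1]
  refine key.trans ?_
  gcongr

lemma Dn_cont (n : ℕ) : Continuous (Dn n) := by
  unfold Dn
  apply Continuous.sub continuous_const
  apply continuous_const.mul
  apply Continuous.div continuous_const (by fun_prop)
  intro u
  positivity

/-- the prime terms -/
noncomputable def cV (n : ℕ) : ℝ := ArithmeticFunction.vonMangoldt n / (n:ℝ) ^ 2

lemma cV_nonneg (n : ℕ) : 0 ≤ cV n := by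
  unfold cV
  have := @ArithmeticFunction.vonMangoldt_nonneg n
  positivity

lemma cV_summable : Summable cV := by
  refine (vM_hasSum 0).summable.congr fun n => ?_
  unfold cV
  simp

lemma Vn_bound (n : ℕ) (u : ℝ) : |cV n * Real.cos (Real.log n * u)| ≤ cV n * wg u := by
  rw [abs_mul, abs_of_nonneg (cV_nonneg n)]
  have h1 := Real.abs_cos_le_one (Real.log n * u)
  have h2 := wg_one_le u
  have := cV_nonneg n
  gcongr
  linarith

lemma Afun_eq' (u : ℝ) : Afun u = 2 / (2 ^ 2 + u ^ 2) + 1 / (1 ^ 2 + u ^ 2) - (Real.log Real.pi + Real.eulerMascheroniConstant) / 2 +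
    (∑' n : ℕ, Dn n u) / 2 - ∑' n : ℕ, cV n * Real.cos (Real.log n * u) := Afun_eq u

lemma Afun_cont : Continuous Afun := by
  unfold Afun
  apply Complex.continuous_re.comp
  have h1 : Continuous (deriv xi) := (differentiable_xi.contDiff (n := 1)).continuous_deriv le_rfl
  have h2 : Continuous xi := differentiable_xi.continuous
  simp only [logDeriv_apply]
  apply Continuous.div (h1.comp (by fun_prop)) (h2.comp (by fun_prop))
  intro u
  apply xi_ne_zero_of_one_le_re
  simp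

/-- growth constant -/
noncomputable def CA : ℝ := 2 + |(Real.log Real.pi + Real.eulerMascheroniConstant) / 2| + (∑' n, cD n) / 2 + ∑' n, cV n

lemma tsum_bound {ι : Type*} {φ : ι → ℝ} {c : ι → ℝ} {w : ℝ} (hc : Summable c) (h : ∀ i, |φ i| ≤ c i * w) :
    |∑' i, φ i| ≤ (∑' i, c i) * w := by
  have hs : Summable (fun i => c i * w) := hc.mul_right w
  have h1 : Summable φ := Summable.of_norm_bounded hs (fun i => by rw [Real.norm_eq_abs]; exact h i)
  rw [← tsum_mul_right, ← Real.norm_eq_abs]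
  exact tsum_of_norm_bounded hs.hasSum (fun i => by rw [Real.norm_eq_abs]; exact h i)

lemma Afun_bound (u : ℝ) : |Afun u| ≤ CA * wg u := by
  rw [Afun_eq']
  have h1 : |∑' n : ℕ, Dn n u| ≤ (∑' n, cD n) * wg u := tsum_bound cD_summable (fun n => Dn_bound n u)
  have h2 : |∑' n : ℕ, cV n * Real.cos (Real.log n * u)| ≤ (∑' n, cV n) * wg u := tsum_bound cV_summable (fun n => Vn_bound n u)
  have h3 : |2 / (2 ^ 2 + u ^ 2)| ≤ 1 := by
    rw [abs_of_pos (by positivity), div_le_one (by positivity)]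
    nlinarith [sq_nonneg u]
  have h4 : |1 / (1 ^ 2 + u ^ 2)| ≤ 1 := by
    rw [abs_of_pos (by positivity), div_le_one (by positivity)]
    nlinarith only [sq_nonneg u]
  set K := (Real.log Real.pi + Real.eulerMascheroniConstant) / 2 with hK
  have h5 : |(∑' n : ℕ, Dn n u) / 2| ≤ (∑' n, cD n) / 2 * wg u := by
    rw [abs_div, abs_of_pos (by norm_num : (0:ℝ) < 2)]
    linarith only [h1]
  have hw := wg_one_le u
  have h6 : |2 / (2 ^ 2 + u ^ 2) + 1 / (1 ^ 2 + u ^ 2) - K + (∑' n : ℕ, Dn n u) / 2 - ∑' n : ℕ, cV n * Real.cos (Real.log n * u)| ≤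
      |2 / (2 ^ 2 + u ^ 2)| + |1 / (1 ^ 2 + u ^ 2)| + |K| + |(∑' n : ℕ, Dn n u) / 2| + |∑' n : ℕ, cV n * Real.cos (Real.log n * u)| := by
    refine (abs_sub _ _).trans ?_
    gcongr
    refine (abs_add_le _ _).trans ?_
    gcongr
    refine (abs_sub _ _).trans ?_
    gcongr
    exact abs_add_le _ _
  refine h6.trans ?_
  unfold CA
  have hK0 := abs_nonneg K
  nlinarith only [h2, h3, h4, h5, hw, hK0]

/-- the archimedean main term -/
noncomputable def MT (X t : ℝ) : ℝ := 2 * (JJ X ((3 / 2 - 2 : ℝ) + t * I)).re + 2 * (JJ X ((3 / 2 - 1 : ℝ) + t * I)).re -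
  (Real.log Real.pi + Real.eulerMascheroniConstant) +
  ∑' n : ℕ, (1 / ((n:ℝ) + 1) - 2 * (JJ X ((3 / 2 - 2 * ((n:ℝ) + 1) : ℝ) + t * I)).re)

/-- the prime sum -/
noncomputable def PS (X t : ℝ) : ℝ := ∑' n : ℕ, cV n * (kpp X (Real.log n) * Real.cos (Real.log n * t))

lemma T_one {X : ℝ} (hX : 0 < X) (t : ℝ) : ∫ u, kk X (t - u) = 2 / X := by
  have h := T_cos hX 0 t
  simp only [zero_mul, Real.cos_zero, mul_one] at h
  rw [h]
  unfold kpp
  simp

lemma T_Dn {X : ℝ} (hX : 0 < X) (t : ℝ) (n : ℕ) : ∫ u, kk X (t - u) * Dn n u =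
    2 / X * (1 / ((n:ℝ) + 1) - 2 * (JJ X ((3 / 2 - 2 * ((n:ℝ) + 1) : ℝ) + t * I)).re) := by
  have ha : 0 < 2 * ((n:ℝ) + 1) := by positivity
  have h1 := T_poisson hX ha t
  have hi1 : Integrable (fun u => kk X (t - u)) := (kk_integrable hX).comp_sub_left t
  have hi2 : Integrable (fun u => kk X (t - u) * ((2 * ((n:ℝ) + 1)) / ((2 * ((n:ℝ) + 1)) ^ 2 + u ^ 2))) := by
    apply T_integrable hX t (c := 1)
    · apply Continuous.aestronglyMeasurable
      apply Continuous.div continuous_const (by fun_prop)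
      intro u; positivity
    · intro u
      have := wg_one_le u
      rw [abs_of_pos (by positivity)]
      have h2 : (2 * ((n:ℝ) + 1)) / ((2 * ((n:ℝ) + 1)) ^ 2 + u ^ 2) ≤ 1 := by
        rw [div_le_one (by positivity)]
        have : (0:ℝ) ≤ n := Nat.cast_nonneg n
        nlinarith only [sq_nonneg u]
      linarith only [this, h2]
  have e : ∀ u, kk X (t - u) * Dn n u = (1 / ((n:ℝ) + 1)) * kk X (t - u) - 2 * (kk X (t - u) * ((2 * ((n:ℝ) + 1)) / ((2 * ((n:ℝ) + 1)) ^ 2 + u ^ 2))) := by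
    intro u; unfold Dn; ring
  simp_rw [e]
  rw [integral_sub (hi1.const_mul _) (hi2.const_mul _), integral_const_mul, integral_const_mul, h1, T_one hX]
  ring

lemma lin5 {f1 f2 f3 f4 f5 : ℝ → ℝ} (h1 : Integrable f1) (h2 : Integrable f2) (h3 : Integrable f3) (h4 : Integrable f4)
    (h5 : Integrable f5) (a b : ℝ) : ∫ u, (f1 u + f2 u - a * f3 u + b * f4 u - f5 u) =
      (∫ u, f1 u) + (∫ u, f2 u) - a * (∫ u, f3 u) + b * (∫ u, f4 u) - ∫ u, f5 u := by
  have e1 := integral_sub (μ := volume) (f := fun u => f1 u + f2 u - a * f3 u + b * f4 u) (g := f5)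
    (((h1.add h2).sub (h3.const_mul a)).add (h4.const_mul b)) h5
  have e2 := integral_add (μ := volume) (f := fun u => f1 u + f2 u - a * f3 u) (g := fun u => b * f4 u)
    ((h1.add h2).sub (h3.const_mul a)) (h4.const_mul b)
  have e3 := integral_sub (μ := volume) (f := fun u => f1 u + f2 u) (g := fun u => a * f3 u) (h1.add h2) (h3.const_mul a)
  have e4 := integral_add (μ := volume) (f := f1) (g := f2) h1 h2
  rw [e1, e2, e3, e4, integral_const_mul, integral_const_mul]

/-- integral of Afun against the kernel -/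
theorem T_Afun {X : ℝ} (hX : 0 < X) (t : ℝ) : ∫ u, kk X (t - u) * Afun u = MT X t / X - PS X t := by
  have hD := T_hasSum hX t Dn_cont cD_summable Dn_bound
  have hV := T_hasSum hX t (φ := fun n u => cV n * Real.cos (Real.log n * u)) (fun n => by fun_prop) cV_summable Vn_bound
  have hi0 : Integrable (fun u => kk X (t - u)) := (kk_integrable hX).comp_sub_left t
  have hDc : Continuous (fun u => ∑' n : ℕ, Dn n u) := by
    have e : (fun u => ∑' n : ℕ, Dn n u) = fun u => 2 * (Afun u - (2 / (2 ^ 2 + u ^ 2) + 1 / (1 ^ 2 + u ^ 2) - (Real.log Real.pi + Real.eulerMascheroniConstant) / 2) + ∑' n : ℕ, cV n * Real.cos (Real.log n * u)) := by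
      funext u
      rw [Afun_eq']
      ring
    rw [e]
    have hc1 : Continuous (fun u : ℝ => (2:ℝ) / (2 ^ 2 + u ^ 2)) := Continuous.div continuous_const (by fun_prop) (fun u => by positivity)
    have hc2 : Continuous (fun u : ℝ => (1:ℝ) / (1 ^ 2 + u ^ 2)) := Continuous.div continuous_const (by fun_prop) (fun u => by positivity)
    have hc3 : Continuous (fun u : ℝ => ∑' n : ℕ, cV n * Real.cos (Real.log n * u)) := by
      apply continuous_tsum (fun n => by fun_prop) cV_summable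
      intro n u
      rw [Real.norm_eq_abs, abs_mul, abs_of_nonneg (cV_nonneg n)]
      have := Real.abs_cos_le_one (Real.log n * u)
      have := cV_nonneg n
      nlinarith
    exact continuous_const.mul ((Afun_cont.sub ((hc1.add hc2).sub continuous_const)).add hc3)
  have hVc : Continuous (fun u : ℝ => ∑' n : ℕ, cV n * Real.cos (Real.log n * u)) := by
    apply continuous_tsum (fun n => by fun_prop) cV_summable
    intro n u
    rw [Real.norm_eq_abs, abs_mul, abs_of_nonneg (cV_nonneg n)]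
    have := Real.abs_cos_le_one (Real.log n * u)
    have := cV_nonneg n
    nlinarith
  have hiD : Integrable (fun u => kk X (t - u) * ∑' n : ℕ, Dn n u) :=
    T_integrable hX t hDc.aestronglyMeasurable (fun u => tsum_bound cD_summable (fun n => Dn_bound n u))
  have hiV : Integrable (fun u => kk X (t - u) * ∑' n : ℕ, cV n * Real.cos (Real.log n * u)) :=
    T_integrable hX t hVc.aestronglyMeasurable (fun u => tsum_bound cV_summable (fun n => Vn_bound n u))
  have hi2 : Integrable (fun u => kk X (t - u) * (2 / (2 ^ 2 + u ^ 2))) := by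
    apply T_integrable hX t (c := 1)
    · exact (Continuous.div continuous_const (by fun_prop) (fun u => by positivity)).aestronglyMeasurable
    · intro u
      have := wg_one_le u
      rw [abs_of_pos (by positivity)]
      have h2 : 2 / (2 ^ 2 + u ^ 2) ≤ 1 := by
        rw [div_le_one (by positivity)]
        nlinarith only [sq_nonneg u]
      linarith
  have hi1 : Integrable (fun u => kk X (t - u) * (1 / (1 ^ 2 + u ^ 2))) := by
    apply T_integrable hX t (c := 1)
    · exact (Continuous.div continuous_const (by fun_prop) (fun u => by positivity)).aestronglyMeasurable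
    · intro u
      have := wg_one_le u
      rw [abs_of_pos (by positivity)]
      have h2 : 1 / (1 ^ 2 + u ^ 2) ≤ 1 := by
        rw [div_le_one (by positivity)]
        nlinarith only [sq_nonneg u]
      linarith
  have e : ∀ u, kk X (t - u) * Afun u = kk X (t - u) * (2 / (2 ^ 2 + u ^ 2)) + kk X (t - u) * (1 / (1 ^ 2 + u ^ 2)) -
      (Real.log Real.pi + Real.eulerMascheroniConstant) / 2 * kk X (t - u) + (1 / 2) * (kk X (t - u) * ∑' n : ℕ, Dn n u) -
      kk X (t - u) * ∑' n : ℕ, cV n * Real.cos (Real.log n * u) := by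
    intro u; rw [Afun_eq']; ring
  simp_rw [e]
  rw [lin5 hi2 hi1 hi0 hiD hiV, T_poisson hX (by norm_num : (0:ℝ) < 2), T_poisson hX (by norm_num : (0:ℝ) < 1), T_one hX, ← hD.tsum_eq, ← hV.tsum_eq]
  simp_rw [T_Dn hX t]
  have e2 : ∀ n : ℕ, ∫ u, kk X (t - u) * (cV n * Real.cos (Real.log n * u)) = cV n * (kpp X (Real.log n) * Real.cos (Real.log n * t)) := by
    intro n
    have e3 : ∀ u, kk X (t - u) * (cV n * Real.cos (Real.log n * u)) = cV n * (kk X (t - u) * Real.cos (Real.log n * u)) := by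
      intro u; ring
    simp_rw [e3]
    rw [integral_const_mul, T_cos hX]
  simp_rw [e2]
  rw [tsum_mul_left]
  unfold MT PS
  generalize (∑' n : ℕ, (1 / ((n:ℝ) + 1) - 2 * (JJ X ((3 / 2 - 2 * ((n:ℝ) + 1) : ℝ) + t * I)).re)) = S1
  generalize (∑' n : ℕ, cV n * (kpp X (Real.log n) * Real.cos (Real.log n * t))) = S2
  generalize (JJ X ((3 / 2 - 2 : ℝ) + t * I)).re = a1
  generalize (JJ X ((3 / 2 - 1 : ℝ) + t * I)).re = a2
  field_simp

end Pool.Agent.Helper57.LH

end

/-! ### Helper57.LH.Expl2 -/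

section

namespace Pool.Agent.Helper57.LH

open Complex Set MeasureTheory Filter Topology

open Pool.Agent.Helper57.Zeta

instance : Countable ZS := by
  have h : {ρ : ℂ | xi ρ = 0} ⊆ ⋃ n : ℕ, zset xi 2 n := by
    intro ρ hρ
    rw [mem_iUnion]
    obtain ⟨n, hn⟩ := exists_nat_ge ‖ρ - 2‖
    exact ⟨n, hρ, hn⟩
  have h2 : (⋃ n : ℕ, zset xi 2 n).Countable :=
    countable_iUnion fun n => (zset_finite differentiable_xi xi_two_ne 2 n).countable
  exact (h2.mono h).to_subtype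

/-- the terms of the partial fraction expansion -/
noncomputable def fz (ρ : ZS) (u : ℝ) : ℝ := mx ρ * ((2 - (ρ:ℂ).re) / ((2 - (ρ:ℂ).re) ^ 2 + (u - (ρ:ℂ).im) ^ 2))

lemma zs_re (ρ : ZS) : 0 < (ρ:ℂ).re ∧ (ρ:ℂ).re < 1 := by
  have := xi_eq_zero_iff.mp ρ.2
  exact ⟨this.1, this.2.1⟩

lemma fz_nonneg (ρ : ZS) (u : ℝ) : 0 ≤ fz ρ u := by
  unfold fz
  have := zs_re ρ
  apply mul_nonneg (mx_nonneg _)
  apply div_nonneg (by linarith) (by positivity)

lemma fz_cont (ρ : ZS) : Continuous (fz ρ) := by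
  unfold fz
  have := zs_re ρ
  apply continuous_const.mul
  apply Continuous.div continuous_const (by fun_prop)
  intro u
  have h1 : 0 < (2 - (ρ:ℂ).re) ^ 2 := by
    apply pow_pos; linarith
  positivity

lemma fz_hasSum (u : ℝ) : HasSum (fun ρ : ZS => fz ρ u) (Afun u) := by
  have h := pf_hasSum (s := ((2:ℝ) : ℂ) + u * I) (by simp)
  unfold Afun
  refine h.congr_fun ?_
  intro ρ
  unfold fz
  congr 1
  rw [one_div, Complex.inv_re]
  have e : ((2:ℝ) : ℂ) + u * I - (ρ:ℂ) = ((2 - (ρ:ℂ).re : ℝ) : ℂ) + ((u - (ρ:ℂ).im : ℝ) : ℂ) * I := by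
    apply Complex.ext <;> simp
  rw [e, normSq_z]
  simp

lemma fz_le (ρ : ZS) (u : ℝ) : fz ρ u ≤ Afun u := by
  have h := fz_hasSum u
  exact h.summable.le_tsum ρ (fun i _ => fz_nonneg i u) |>.trans (le_of_eq h.tsum_eq)

lemma Afun_nonneg (u : ℝ) : 0 ≤ Afun u := (fz_hasSum u).nonneg (fun ρ => fz_nonneg ρ u)

lemma kkA_integrable {X : ℝ} (hX : 0 < X) (t : ℝ) : Integrable (fun u => |kk X (t - u)| * Afun u) := by
  refine ((kk_wg_integrable hX t).const_mul CA).mono' ((kk_shift_cont hX t).abs.mul Afun_cont).aestronglyMeasurable ?_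
  filter_upwards with u
  rw [Real.norm_of_nonneg (mul_nonneg (abs_nonneg _) (Afun_nonneg u))]
  have h := Afun_bound u
  rw [abs_of_nonneg (Afun_nonneg u)] at h
  calc |kk X (t - u)| * Afun u ≤ |kk X (t - u)| * (CA * wg u) := by gcongr
    _ = _ := by ring

lemma T_fz {X : ℝ} (hX : 0 < X) (t : ℝ) (ρ : ZS) : ∫ u, kk X (t - u) * fz ρ u =
    mx ρ * (2 / X * (JJ X (((ρ:ℂ).re - 1 / 2 : ℝ) + ((t - (ρ:ℂ).im : ℝ)) * I)).re) := by
  have hr := zs_re ρ
  have h := T_poisson hX (a := 2 - (ρ:ℂ).re) (by linarith) (t - (ρ:ℂ).im)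
  have e1 : ∫ u, kk X (t - u) * fz ρ u = mx ρ * ∫ u, kk X (t - (ρ:ℂ).im - u) * ((2 - (ρ:ℂ).re) / ((2 - (ρ:ℂ).re) ^ 2 + u ^ 2)) := by
    rw [← integral_const_mul]
    rw [← integral_sub_right_eq_self (fun u => mx ρ * (kk X (t - (ρ:ℂ).im - u) * ((2 - (ρ:ℂ).re) / ((2 - (ρ:ℂ).re) ^ 2 + u ^ 2)))) (ρ:ℂ).im]
    congr 1
    funext u
    unfold fz
    rw [show t - (ρ:ℂ).im - (u - (ρ:ℂ).im) = t - u by ring]
    ring
  rw [e1, h]
  rw [show (3 / 2 - (2 - (ρ:ℂ).re) : ℝ) = (ρ:ℂ).re - 1 / 2 by ring]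

/-- explicit formula, one-sided form -/
theorem explicit1 {X : ℝ} (hX : 0 < X) (t : ℝ) :
    HasSum (fun ρ : ZS => mx ρ * (2 / X * (JJ X (((ρ:ℂ).re - 1 / 2 : ℝ) + ((t - (ρ:ℂ).im : ℝ)) * I)).re)) (MT X t / X - PS X t) := by
  have hI : ∀ ρ : ZS, Integrable (fun u => kk X (t - u) * fz ρ u) := by
    intro ρ
    refine (kkA_integrable hX t).mono' ((kk_shift_cont hX t).mul (fz_cont ρ)).aestronglyMeasurable ?_
    filter_upwards with u
    rw [norm_mul, Real.norm_eq_abs, Real.norm_of_nonneg (fz_nonneg ρ u)]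
    gcongr
    exact fz_le ρ u
  have h := hasSum_integral_of_summable_integral_norm hI (by
    apply summable_of_sum_le (c := ∫ u, |kk X (t - u)| * Afun u)
    · intro ρ
      exact integral_nonneg fun _ => norm_nonneg _
    · intro F
      rw [← integral_finsetSum F (fun ρ _ => (hI ρ).norm)]
      apply integral_mono (integrable_finsetSum F fun ρ _ => (hI ρ).norm) (kkA_integrable hX t)
      intro u
      simp only
      have e : ∀ ρ : ZS, ‖kk X (t - u) * fz ρ u‖ = |kk X (t - u)| * fz ρ u := by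
        intro ρ
        rw [norm_mul, Real.norm_eq_abs, Real.norm_of_nonneg (fz_nonneg ρ u)]
      simp_rw [e]
      rw [← Finset.mul_sum]
      gcongr
      exact sum_le_hasSum F (fun i _ => fz_nonneg i u) (fz_hasSum u))
  have e : (fun u => ∑' ρ : ZS, kk X (t - u) * fz ρ u) = fun u => kk X (t - u) * Afun u := by
    funext u
    rw [tsum_mul_left, (fz_hasSum u).tsum_eq]
  rw [e, T_Afun hX] at h
  simp_rw [T_fz hX] at h
  exact h

/-- symmetrised kernel -/
noncomputable def gs (X v w : ℝ) : ℝ := 1 / X * ((JJ X ((v : ℝ) + w * I)).re + (JJ X ((-v : ℝ) + w * I)).re)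

/-- explicit formula -/
theorem explicit {X : ℝ} (hX : 0 < X) (t : ℝ) :
    HasSum (fun ρ : ZS => mx ρ * gs X ((ρ:ℂ).re - 1 / 2) (t - (ρ:ℂ).im)) (MT X t / X - PS X t) := by
  have h1 := explicit1 hX t
  have h2 := (refl.hasSum_iff).mpr h1
  have h3 := (h1.add h2).mul_left (1/2 : ℝ)
  rw [show (1/2 : ℝ) * (MT X t / X - PS X t + (MT X t / X - PS X t)) = MT X t / X - PS X t by ring] at h3
  refine h3.congr_fun ?_
  intro ρ
  simp only [Function.comp_apply]
  rw [refl_re, refl_im, refl_mx]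
  unfold gs
  rw [show (1 - (ρ:ℂ).re - 1 / 2 : ℝ) = -((ρ:ℂ).re - 1 / 2) by ring]
  ring

end Pool.Agent.Helper57.LH

end

/-! ### Helper57.LH.MainT -/

section

namespace Pool.Agent.Helper57.LH

open Complex Set MeasureTheory Filter Topology

open Pool.Agent.Helper57.Zeta

lemma tel_sum (M : ℕ) (hM : 1 ≤ M) (K : ℕ) : ∑ n ∈ Finset.range K, 1 / (((n:ℝ) + M) * ((n:ℝ) + M + 1)) = 1 / (M:ℝ) - 1 / ((K:ℝ) + M) := by
  have hM0 : (0:ℝ) < M := by exact_mod_cast hM
  induction K with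
  | zero => simp
  | succ K ih =>
    rw [Finset.sum_range_succ, ih]
    push_cast
    have : (0:ℝ) ≤ K := Nat.cast_nonneg K
    field_simp
    ring

lemma Dn_nonneg (n : ℕ) (u : ℝ) : 0 ≤ Dn n u := by
  have hn : (0:ℝ) < (n:ℝ) + 1 := by positivity
  have e : Dn n u = u ^ 2 / (((n:ℝ) + 1) * (4 * ((n:ℝ) + 1) ^ 2 + u ^ 2)) := by
    unfold Dn
    field_simp
    ring
  rw [e]; positivity

lemma Dn_summable (u : ℝ) : Summable (fun n => Dn n u) :=
  Summable.of_norm_bounded (cD_summable.mul_right (wg u)) (fun n => by rw [Real.norm_eq_abs]; exact Dn_bound n u)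

/-- the digamma sum is log u + O(1) -/
lemma Dn_sum {u : ℝ} (hu : 1 ≤ u) : |∑' n, Dn n u - Real.log u| ≤ 20 := by
  set M : ℕ := ⌈u⌉₊ with hM
  have hM1 : 1 ≤ M := Nat.one_le_ceil_iff.mpr (by linarith only [hu])
  have hMu : u ≤ M := Nat.le_ceil u
  have hMu2 : (M:ℝ) ≤ 2 * u := by
    have := Nat.ceil_lt_add_one (show 0 ≤ u by linarith only [hu])
    linarith only [hu, this]
  have hM0 : (0:ℝ) < M := by exact_mod_cast hM1
  have hsplit := (Dn_summable u).sum_add_tsum_nat_add M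
  rw [← hsplit]
  -- the tail
  have htail0 : 0 ≤ ∑' n, Dn (n + M) u := tsum_nonneg fun n => Dn_nonneg _ _
  have htail : ∑' n, Dn (n + M) u ≤ 1 := by
    apply Real.tsum_le_of_sum_range_le (fun n => Dn_nonneg _ _)
    intro K
    have h1 : ∀ n : ℕ, Dn (n + M) u ≤ M * (1 / (((n:ℝ) + M) * ((n:ℝ) + M + 1))) := by
      intro n
      have e : Dn (n + M) u = u ^ 2 / ((((n:ℝ) + M) + 1) * (4 * (((n:ℝ) + M) + 1) ^ 2 + u ^ 2)) := by
        unfold Dn
        push_cast
        have : (0:ℝ) ≤ n := Nat.cast_nonneg n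
        field_simp
        ring
      have hn0 : (0:ℝ) ≤ n := Nat.cast_nonneg n
      set p : ℝ := (n:ℝ) + M with hp
      have hpM : (M:ℝ) ≤ p := by rw [hp]; linarith only []
      rw [e, mul_one_div, div_le_div_iff₀ (by positivity) (by positivity)]
      have h2 : u ^ 2 ≤ M * p := by nlinarith
      have h3 : 0 < p + 1 := by linarith
      calc u ^ 2 * (p * (p + 1)) ≤ (M * p) * (p * (p + 1)) := by gcongr
        _ = M * ((p + 1) * p ^ 2) := by ring
        _ ≤ M * ((p + 1) * (4 * (p + 1) ^ 2 + u ^ 2)) := by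
            gcongr
            nlinarith [sq_nonneg u]
    calc ∑ n ∈ Finset.range K, Dn (n + M) u ≤ ∑ n ∈ Finset.range K, M * (1 / (((n:ℝ) + M) * ((n:ℝ) + M + 1))) :=
          Finset.sum_le_sum fun n _ => h1 n
      _ = M * (1 / (M:ℝ) - 1 / ((K:ℝ) + M)) := by rw [← Finset.mul_sum, tel_sum M hM1]
      _ ≤ M * (1 / (M:ℝ)) := by
          have : 0 ≤ 1 / ((K:ℝ) + M) := by positivity
          gcongr
          linarith only [this]
      _ = 1 := by field_simp
  -- the head
  have hhead : ∑ n ∈ Finset.range M, Dn n u = (harmonic M : ℝ) - ∑ n ∈ Finset.range M, 2 * ((2 * ((n:ℝ) + 1)) / ((2 * ((n:ℝ) + 1)) ^ 2 + u ^ 2)) := by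
    unfold Dn
    rw [Finset.sum_sub_distrib]
    congr 1
    unfold harmonic
    push_cast
    refine Finset.sum_congr rfl fun n _ => ?_
    rw [one_div]
  have hH1 := harmonic_le_one_add_log M
  have hH2 := log_add_one_le_harmonic M
  have hS0 : 0 ≤ ∑ n ∈ Finset.range M, 2 * ((2 * ((n:ℝ) + 1)) / ((2 * ((n:ℝ) + 1)) ^ 2 + u ^ 2)) :=
    Finset.sum_nonneg fun n _ => by positivity
  have hS1 : ∑ n ∈ Finset.range M, 2 * ((2 * ((n:ℝ) + 1)) / ((2 * ((n:ℝ) + 1)) ^ 2 + u ^ 2)) ≤ 16 := by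
    calc ∑ n ∈ Finset.range M, 2 * ((2 * ((n:ℝ) + 1)) / ((2 * ((n:ℝ) + 1)) ^ 2 + u ^ 2))
        ≤ ∑ n ∈ Finset.range M, 4 * M / u ^ 2 := by
          refine Finset.sum_le_sum fun n hn => ?_
          rw [Finset.mem_range] at hn
          have hn1 : (n:ℝ) + 1 ≤ M := by exact_mod_cast hn
          have : (0:ℝ) ≤ n := Nat.cast_nonneg n
          calc 2 * ((2 * ((n:ℝ) + 1)) / ((2 * ((n:ℝ) + 1)) ^ 2 + u ^ 2)) ≤ 2 * ((2 * M) / (u ^ 2)) := by
                gcongr
                nlinarith only [sq_nonneg (2 * ((n:ℝ) + 1))]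
            _ = _ := by ring
      _ = M * (4 * M / u ^ 2) := by rw [Finset.sum_const, Finset.card_range, nsmul_eq_mul]
      _ = 4 * (M / u) ^ 2 := by ring
      _ ≤ 4 * 2 ^ 2 := by
          gcongr
          rw [div_le_iff₀ (by linarith only [hu])]
          exact hMu2
      _ = 16 := by norm_num
  have hlog1 : Real.log u ≤ Real.log ((M:ℝ) + 1) := Real.log_le_log (by linarith only [hu]) (by linarith only [hMu])
  have hlog2 : Real.log M ≤ Real.log u + 1 := by
    have h1 : Real.log M ≤ Real.log (2 * u) := Real.log_le_log hM0 hMu2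
    rw [Real.log_mul (by norm_num) (by linarith only [hu])] at h1
    have := Real.log_two_lt_d9
    linarith only [h1, this]
  have hH2' : Real.log ((M:ℝ) + 1) ≤ (harmonic M : ℝ) := by exact_mod_cast hH2
  rw [hhead, abs_le]
  constructor <;> linarith

/-- difference of the two main sums, termwise -/
lemma term_diff {X t : ℝ} (hX : 1 ≤ X) (ht : 1 ≤ t) (n : ℕ) :
    |(1 / ((n:ℝ) + 1) - 2 * (JJ X ((3 / 2 - 2 * ((n:ℝ) + 1) : ℝ) + t * I)).re) - Dn n t| ≤ 14 * (1 / ((n:ℝ) + 1) ^ 2) := by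
  have hX0 : 0 < X := by linarith
  have hn0 : (0:ℝ) ≤ n := Nat.cast_nonneg n
  set b : ℝ := 2 * ((n:ℝ) + 1) - 3 / 2 with hb
  have hb0 : 0 < b := by rw [hb]; linarith only []
  have hz : (((3 / 2 - 2 * ((n:ℝ) + 1) : ℝ) : ℂ) + t * I) = ((-b : ℝ) : ℂ) + t * I := by
    congr 2; rw [hb]; ring
  rw [hz]
  have hz0 : ((-b : ℝ) : ℂ) + t * I ≠ 0 := z_ne (by linarith only [hb0]) t
  rw [JJ_eq hX0 hz0, Complex.add_re, Complex.neg_re, one_div, one_div, Complex.inv_re, normSq_z]
  have e1 : (((-b : ℝ) : ℂ) + t * I).re = -b := by simp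
  rw [e1]
  set q := ((cexp ((((-b : ℝ) : ℂ) + t * I) * X) - 1) / (X * (((-b : ℝ) : ℂ) + t * I) ^ 2)).re with hq
  have hq1 : |q| ≤ 2 / (b ^ 2 + t ^ 2) := by
    rw [hq]
    refine (Complex.abs_re_le_norm _).trans ?_
    rw [norm_div, norm_mul, norm_pow, Complex.norm_real, Real.norm_of_nonneg hX0.le, ← Complex.normSq_eq_norm_sq, normSq_z, neg_sq]
    have h1 : ‖cexp ((((-b : ℝ) : ℂ) + t * I) * X) - 1‖ ≤ 2 := by
      refine (norm_sub_le _ _).trans ?_
      rw [Complex.norm_exp, norm_one]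
      have : ((((-b : ℝ) : ℂ) + t * I) * X).re ≤ 0 := by
        simp
        positivity
      have := Real.exp_le_one_iff.mpr this
      linarith only [this]
    calc ‖cexp ((((-b : ℝ) : ℂ) + t * I) * X) - 1‖ / (X * (b ^ 2 + t ^ 2)) ≤ 2 / (1 * (b ^ 2 + t ^ 2)) := by gcongr
      _ = _ := by rw [one_mul]
  unfold Dn
  have hab : 2 * ((n:ℝ) + 1) = b + 3 / 2 := by rw [hb]; ring
  rw [hab]
  have e2 : (((n:ℝ) + 1)⁻¹ - 2 * (-(-b / ((-b) ^ 2 + t ^ 2)) + q)) - (1 / ((n:ℝ) + 1) - 2 * ((b + 3 / 2) / ((b + 3 / 2) ^ 2 + t ^ 2))) =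
      -(3 * (b * (b + 3 / 2) - t ^ 2) / ((b ^ 2 + t ^ 2) * ((b + 3 / 2) ^ 2 + t ^ 2))) - 2 * q := by
    field_simp
    ring
  rw [e2]
  have h3 : |3 * (b * (b + 3 / 2) - t ^ 2) / ((b ^ 2 + t ^ 2) * ((b + 3 / 2) ^ 2 + t ^ 2))| ≤ 3 / (b ^ 2 + t ^ 2) := by
    rw [abs_div, abs_of_pos (by positivity : 0 < (b ^ 2 + t ^ 2) * ((b + 3 / 2) ^ 2 + t ^ 2)), div_le_div_iff₀ (by positivity) (by positivity), abs_mul,
      abs_of_pos (by norm_num : (0:ℝ) < 3)]
    have h4 : |b * (b + 3 / 2) - t ^ 2| ≤ (b + 3 / 2) ^ 2 + t ^ 2 := by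
      rw [abs_le]
      constructor <;> nlinarith only [hb0, sq_nonneg t, mul_pos hb0 hb0]
    calc 3 * |b * (b + 3 / 2) - t ^ 2| * (b ^ 2 + t ^ 2) ≤ 3 * ((b + 3 / 2) ^ 2 + t ^ 2) * (b ^ 2 + t ^ 2) := by gcongr
      _ = _ := by ring
  have h5 : 7 / (b ^ 2 + t ^ 2) ≤ 14 * (1 / ((n:ℝ) + 1) ^ 2) := by
    rw [mul_one_div, div_le_div_iff₀ (by positivity) (by positivity)]
    rw [hb]
    nlinarith
  calc |-(3 * (b * (b + 3 / 2) - t ^ 2) / ((b ^ 2 + t ^ 2) * ((b + 3 / 2) ^ 2 + t ^ 2))) - 2 * q|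
      ≤ |-(3 * (b * (b + 3 / 2) - t ^ 2) / ((b ^ 2 + t ^ 2) * ((b + 3 / 2) ^ 2 + t ^ 2)))| + |2 * q| := abs_sub _ _
    _ ≤ 3 / (b ^ 2 + t ^ 2) + 2 * (2 / (b ^ 2 + t ^ 2)) := by
        rw [abs_neg, abs_mul, abs_of_pos (by norm_num : (0:ℝ) < 2)]
        gcongr
    _ = 7 / (b ^ 2 + t ^ 2) := by ring
    _ ≤ _ := h5

lemma sum_inv_sq : ∑' n : ℕ, 14 * (1 / ((n:ℝ) + 1) ^ 2) ≤ 28 ∧ Summable (fun n : ℕ => 14 * (1 / ((n:ℝ) + 1) ^ 2)) := by
  have hs : Summable (fun n : ℕ => 14 * (1 / ((n:ℝ) + 1) ^ 2)) := by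
    apply Summable.mul_left
    have h := (summable_nat_add_iff 1).mpr (Real.summable_one_div_nat_pow.mpr (show 1 < 2 by norm_num))
    refine h.congr fun n => ?_
    push_cast
    rfl
  refine ⟨?_, hs⟩
  apply Real.tsum_le_of_sum_range_le (fun n => by positivity)
  intro K
  rcases K with _ | K
  · simp
  · rw [Finset.sum_range_succ']
    have h1 : ∑ k ∈ Finset.range K, 14 * (1 / (((k + 1 : ℕ):ℝ) + 1) ^ 2) ≤ 14 := by
      calc ∑ k ∈ Finset.range K, 14 * (1 / (((k + 1 : ℕ):ℝ) + 1) ^ 2)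
          ≤ ∑ k ∈ Finset.range K, 14 * (1 / (((k:ℝ) + (1:ℕ)) * ((k:ℝ) + (1:ℕ) + 1))) := by
            refine Finset.sum_le_sum fun k _ => ?_
            have : (0:ℝ) ≤ k := Nat.cast_nonneg k
            push_cast
            gcongr
            nlinarith
        _ = 14 * (1 / ((1:ℕ):ℝ) - 1 / ((K:ℝ) + (1:ℕ))) := by rw [← Finset.mul_sum, tel_sum 1 le_rfl]
        _ ≤ 14 := by
            have : 0 ≤ 1 / ((K:ℝ) + (1:ℕ)) := by positivity
            norm_num at this ⊢
            linarith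
    have h2 : (14:ℝ) * (1 / (((0:ℕ):ℝ) + 1) ^ 2) = 14 := by norm_num
    rw [h2]
    linarith only [h1]

/-- constant for the main term -/
noncomputable def CM : ℝ := 60 + |Real.log Real.pi + Real.eulerMascheroniConstant|

/-- size of the main term -/
theorem MT_bound {X t : ℝ} (hX : 1 ≤ X) (ht : 1 ≤ t) (hXt : Real.exp (X / 2) ≤ t ^ 2) : |MT X t - Real.log t| ≤ CM := by
  have hX0 : 0 < X := by linarith only [hX]
  have hJ1 : |(JJ X ((3 / 2 - 2 : ℝ) + t * I)).re| ≤ 3 := by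
    have h := JJ_re_le hX0 (z_ne (a := 3/2 - 2) (by norm_num) t)
    rw [normSq_z] at h
    refine h.trans ?_
    have e1 : (((3 / 2 - 2 : ℝ) : ℂ) + t * I).re = -(1/2) := by simp; norm_num
    rw [e1, div_le_iff₀ (by positivity)]
    have h2 : Real.exp (-(1/2) * X) ≤ 1 := Real.exp_le_one_iff.mpr (by linarith only [hX])
    have h3 : (Real.exp (-(1/2) * X) + 1) / X ≤ 2 := by
      rw [div_le_iff₀ hX0]; linarith only [hX, h2]
    rw [abs_neg, abs_of_pos (by norm_num : (0:ℝ) < 1/2)]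
    nlinarith only [ht, h3]
  have hJ2 : |(JJ X ((3 / 2 - 1 : ℝ) + t * I)).re| ≤ 3 := by
    have h := JJ_re_le hX0 (z_ne (a := 3/2 - 1) (by norm_num) t)
    rw [normSq_z] at h
    refine h.trans ?_
    have e1 : (((3 / 2 - 1 : ℝ) : ℂ) + t * I).re = 1/2 := by simp; norm_num
    rw [e1, div_le_iff₀ (by positivity)]
    have h2 : Real.exp (1/2 * X) ≤ t ^ 2 := by rw [show 1/2 * X = X / 2 by ring]; exact hXt
    have h3 : (Real.exp (1/2 * X) + 1) / X ≤ t ^ 2 + 1 := by
      rw [div_le_iff₀ hX0]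
      nlinarith only [hX, h2, sq_nonneg t]
    rw [abs_of_pos (by norm_num : (0:ℝ) < 1/2)]
    nlinarith only [ht, h3]
  -- the sum
  obtain ⟨hs28, hs⟩ := sum_inv_sq
  set Tn : ℕ → ℝ := fun n => 1 / ((n:ℝ) + 1) - 2 * (JJ X ((3 / 2 - 2 * ((n:ℝ) + 1) : ℝ) + t * I)).re with hTn
  have hd : Summable (fun n => Tn n - Dn n t) := Summable.of_norm_bounded hs (fun n => by
    rw [Real.norm_eq_abs]; exact term_diff hX ht n)
  have hTs : Summable Tn := by
    have := hd.add (Dn_summable t)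
    refine this.congr fun n => by ring
  have h1 : |∑' n, Tn n - ∑' n, Dn n t| ≤ 28 := by
    rw [← hTs.tsum_sub (Dn_summable t), ← Real.norm_eq_abs]
    refine (tsum_of_norm_bounded hs.hasSum (fun n => ?_)).trans hs28
    rw [Real.norm_eq_abs]; exact term_diff hX ht n
  have h2 := Dn_sum ht
  unfold MT CM
  have e : (2 * (JJ X ((3 / 2 - 2 : ℝ) + t * I)).re + 2 * (JJ X ((3 / 2 - 1 : ℝ) + t * I)).re -
      (Real.log Real.pi + Real.eulerMascheroniConstant) + ∑' n, Tn n) - Real.log t =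
      2 * (JJ X ((3 / 2 - 2 : ℝ) + t * I)).re + 2 * (JJ X ((3 / 2 - 1 : ℝ) + t * I)).re -
      (Real.log Real.pi + Real.eulerMascheroniConstant) + (∑' n, Tn n - ∑' n, Dn n t) + (∑' n, Dn n t - Real.log t) := by ring
  have hTT : (∑' n : ℕ, (1 / ((n:ℝ) + 1) - 2 * (JJ X ((3 / 2 - 2 * ((n:ℝ) + 1) : ℝ) + t * I)).re)) = ∑' n, Tn n := rfl
  rw [hTT, e]
  set A1 := (JJ X ((3 / 2 - 2 : ℝ) + t * I)).re
  set A2 := (JJ X ((3 / 2 - 1 : ℝ) + t * I)).re
  set A3 := Real.log Real.pi + Real.eulerMascheroniConstant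
  have g1 := abs_le.mp hJ1
  have g2 := abs_le.mp hJ2
  have g3 := le_abs_self A3
  have g4 := neg_abs_le A3
  have g5 := abs_le.mp h1
  have g6 := abs_le.mp h2
  rw [abs_le]
  constructor <;> linarith [g1.1, g1.2, g2.1, g2.2, g5.1, g5.2, g6.1, g6.2]

end Pool.Agent.Helper57.LH

end

/-! ### Helper57.LH.Prime -/

section

namespace Pool.Agent.Helper57.LH

open Set MeasureTheory Filter Topology

open scoped ArithmeticFunction

lemma sum_vM (N : ℕ) : ∑ d ∈ Finset.range (N + 1), Λ d / d ≤ 2 * Real.log N := by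
  classical
  rcases Nat.eq_zero_or_pos N with rfl | hN
  · simp
  have hN0 : (0:ℝ) < N := by exact_mod_cast hN
  have h1 : ∑ n ∈ Finset.range (N + 1), Real.log n = ∑ d ∈ Finset.range (N + 1), Λ d * ((N / d : ℕ) : ℝ) := by
    have e1 : ∀ n ∈ Finset.range (N + 1), Real.log n = ∑ d ∈ Finset.range (N + 1), if (n ≠ 0 ∧ d ∣ n) then Λ d else 0 := by
      intro n hn
      rw [Finset.mem_range] at hn
      rw [← ArithmeticFunction.vonMangoldt_sum, ← Finset.sum_filter]
      apply Finset.sum_congr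
      · ext d
        rw [Nat.mem_divisors, Finset.mem_filter, Finset.mem_range]
        constructor
        · rintro ⟨h1, h2⟩
          have := Nat.le_of_dvd (Nat.pos_of_ne_zero h2) h1
          exact ⟨by omega, h2, h1⟩
        · rintro ⟨_, h2, h1⟩
          exact ⟨h1, h2⟩
      · intro d _; rfl
    rw [Finset.sum_congr rfl e1, Finset.sum_comm]
    refine Finset.sum_congr rfl fun d _ => ?_
    rw [← Finset.sum_filter, Finset.sum_const, nsmul_eq_mul, ← Nat.card_multiples' N d]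
    ring
  have h2 : ∑ n ∈ Finset.range (N + 1), Real.log n ≤ N * Real.log N := by
    rw [Finset.sum_range_succ']
    simp only [Nat.cast_zero, Real.log_zero, add_zero]
    calc ∑ k ∈ Finset.range N, Real.log ((k + 1 : ℕ) : ℝ) ≤ ∑ k ∈ Finset.range N, Real.log N := by
          refine Finset.sum_le_sum fun k hk => ?_
          rw [Finset.mem_range] at hk
          apply Real.log_le_log (by positivity)
          exact_mod_cast hk
      _ = _ := by rw [Finset.sum_const, Finset.card_range, nsmul_eq_mul]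
  have h3 : ∑ d ∈ Finset.range (N + 1), (N:ℝ) / 2 * (Λ d / d) ≤ ∑ d ∈ Finset.range (N + 1), Λ d * ((N / d : ℕ) : ℝ) := by
    refine Finset.sum_le_sum fun d hd => ?_
    rw [Finset.mem_range] at hd
    rcases Nat.eq_zero_or_pos d with rfl | hd0
    · simp
    · have hd0' : (0:ℝ) < d := by exact_mod_cast hd0
      have h4 : (N:ℝ) / (2 * d) ≤ ((N / d : ℕ) : ℝ) := by
        have h5 : 1 ≤ N / d := (Nat.one_le_div_iff hd0).mpr (by omega)
        have h6 : N < d * (N / d) + d := by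
          have := Nat.div_add_mod N d
          have := Nat.mod_lt N hd0
          omega
        have h7 : N ≤ 2 * (d * (N / d)) := by nlinarith only [h5, h6]
        have h8 : (N:ℝ) ≤ 2 * (d * ((N / d : ℕ) : ℝ)) := by exact_mod_cast h7
        rw [div_le_iff₀ (by positivity)]
        linarith only [h8]
      have h9 := @ArithmeticFunction.vonMangoldt_nonneg d
      calc (N:ℝ) / 2 * (Λ d / d) = Λ d * ((N:ℝ) / (2 * d)) := by field_simp
        _ ≤ _ := by gcongr
  rw [← Finset.mul_sum] at h3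
  have h4 : (N:ℝ) / 2 * ∑ d ∈ Finset.range (N + 1), Λ d / d ≤ (N:ℝ) / 2 * (2 * Real.log N) := by
    calc (N:ℝ) / 2 * ∑ d ∈ Finset.range (N + 1), Λ d / d ≤ N * Real.log N := by linarith only [h1, h2, h3]
      _ = _ := by ring
  exact le_of_mul_le_mul_left h4 (by positivity)

/-- the coefficients -/
noncomputable def ap (X : ℝ) (n : ℕ) : ℝ := cV n * kpp X (Real.log n)

/-- the length -/
noncomputable def NX (X : ℝ) : ℕ := ⌊Real.exp X⌋₊

lemma kpp_nonneg {X : ℝ} (hX : 0 < X) (x : ℝ) : 0 ≤ kpp X x := by unfold kpp; positivity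

lemma ap_nonneg {X : ℝ} (hX : 0 < X) (n : ℕ) : 0 ≤ ap X n := mul_nonneg (cV_nonneg n) (kpp_nonneg hX _)

lemma ap_zero_lt {X : ℝ} {n : ℕ} (hn : n < 2) : ap X n = 0 := by
  unfold ap cV
  interval_cases n <;> simp

lemma ap_zero_ge {X : ℝ} (hX : 0 < X) {n : ℕ} (hn : NX X < n) : ap X n = 0 := by
  unfold ap
  rw [kpp_zero_of hX, mul_zero]
  have h1 : Real.exp X < n := (Nat.floor_lt (Real.exp_pos X).le).mp hn
  have hn0 : (0:ℝ) < n := lt_trans (Real.exp_pos X) h1
  have h2 : X < Real.log n := by rwa [Real.lt_log_iff_exp_lt hn0]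
  exact h2.le.trans (le_abs_self _)

lemma ap_eq {X : ℝ} (hX : 0 < X) {n : ℕ} (hn : 1 ≤ n) (hnX : n ≤ NX X) :
    ap X n = 2 / X * (Λ n * (1 - Real.log n / X) / Real.sqrt n) := by
  have hn0 : (0:ℝ) < n := by exact_mod_cast hn
  have hn1 : (1:ℝ) ≤ n := by exact_mod_cast hn
  have h1 : (n:ℝ) ≤ Real.exp X := (Nat.le_floor_iff (Real.exp_pos X).le).mp hnX
  have h2 : Real.log n ≤ X := by rwa [Real.log_le_iff_le_exp hn0]
  unfold ap cV
  rw [kpp_pos hX (Real.log_nonneg hn1) h2]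
  have hs := Real.sq_sqrt hn0.le
  have hs0 := Real.sqrt_pos.mpr hn0
  have h3 : Real.exp (3 / 2 * Real.log n) = Real.sqrt n ^ 3 := by
    rw [← Real.exp_log hs0, ← Real.exp_nat_mul, Real.log_sqrt hn0.le]
    congr 1
    push_cast
    ring
  rw [h3]
  have h4 : (n:ℝ) ^ 2 = Real.sqrt n ^ 4 := by
    calc (n:ℝ) ^ 2 = (Real.sqrt n ^ 2) ^ 2 := by rw [hs]
      _ = _ := by ring
  rw [h4]
  field_simp

lemma ap_le {X : ℝ} (hX : 0 < X) (n : ℕ) : ap X n ≤ 2 := by
  rcases Nat.lt_or_ge n 1 with h | h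
  · rw [ap_zero_lt (by omega)]; norm_num
  rcases lt_or_ge (NX X) n with h2 | h2
  · rw [ap_zero_ge hX h2]; norm_num
  rw [ap_eq hX h h2]
  have hn0 : (0:ℝ) < n := by exact_mod_cast h
  have hn1 : (1:ℝ) ≤ n := by exact_mod_cast h
  have h1 : (n:ℝ) ≤ Real.exp X := (Nat.le_floor_iff (Real.exp_pos X).le).mp h2
  have h3 : Real.log n ≤ X := by rwa [Real.log_le_iff_le_exp hn0]
  have hl0 := Real.log_nonneg hn1
  have h4 := @ArithmeticFunction.vonMangoldt_le_log n
  have h5 := @ArithmeticFunction.vonMangoldt_nonneg n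
  have hs1 : 1 ≤ Real.sqrt n := by rw [Real.one_le_sqrt]; exact hn1
  have h6 : 0 ≤ 1 - Real.log n / X := by rw [sub_nonneg, div_le_one hX]; exact h3
  have h7 : 1 - Real.log n / X ≤ 1 := by
    have : 0 ≤ Real.log n / X := by positivity
    linarith only [this]
  calc 2 / X * (Λ n * (1 - Real.log n / X) / Real.sqrt n) ≤ 2 / X * (X * 1 / 1) := by
        gcongr
        linarith only [h3, h4]
    _ = 2 := by field_simp

lemma ap_sq {X : ℝ} (hX : 0 < X) (n : ℕ) : ap X n ^ 2 ≤ 4 / X * (Λ n / n) := by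
  rcases Nat.lt_or_ge n 1 with h | h
  · rw [ap_zero_lt (by omega)]
    have := @ArithmeticFunction.vonMangoldt_nonneg n
    rw [zero_pow two_ne_zero]
    positivity
  have h5 := @ArithmeticFunction.vonMangoldt_nonneg n
  rcases lt_or_ge (NX X) n with h2 | h2
  · rw [ap_zero_ge hX h2, zero_pow two_ne_zero]
    positivity
  rw [ap_eq hX h h2]
  have hn0 : (0:ℝ) < n := by exact_mod_cast h
  have hn1 : (1:ℝ) ≤ n := by exact_mod_cast h
  have h1 : (n:ℝ) ≤ Real.exp X := (Nat.le_floor_iff (Real.exp_pos X).le).mp h2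
  have h3 : Real.log n ≤ X := by rwa [Real.log_le_iff_le_exp hn0]
  have hl0 := Real.log_nonneg hn1
  have h4 := @ArithmeticFunction.vonMangoldt_le_log n
  have h6 : 0 ≤ 1 - Real.log n / X := by rw [sub_nonneg, div_le_one hX]; exact h3
  have h7 : 1 - Real.log n / X ≤ 1 := by
    have : 0 ≤ Real.log n / X := by positivity
    linarith only [this]
  have hs := Real.sq_sqrt hn0.le
  calc (2 / X * (Λ n * (1 - Real.log n / X) / Real.sqrt n)) ^ 2
      = 4 / X ^ 2 * (Λ n * Λ n * (1 - Real.log n / X) ^ 2 / Real.sqrt n ^ 2) := by ring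
    _ = 4 / X ^ 2 * (Λ n * Λ n * (1 - Real.log n / X) ^ 2 / n) := by rw [hs]
    _ ≤ 4 / X ^ 2 * (Λ n * X * 1 ^ 2 / n) := by
        gcongr
        linarith only [h3, h4]
    _ = _ := by field_simp

lemma sum_ap_sq {X : ℝ} (hX : 0 < X) : ∑ n ∈ Finset.range (NX X + 1), ap X n ^ 2 ≤ 8 := by
  have h1 : ∑ n ∈ Finset.range (NX X + 1), ap X n ^ 2 ≤ 4 / X * ∑ n ∈ Finset.range (NX X + 1), Λ n / n := by
    rw [Finset.mul_sum]
    exact Finset.sum_le_sum fun n _ => ap_sq hX n
  refine h1.trans ?_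
  have h2 := sum_vM (NX X)
  have h3 : Real.log (NX X) ≤ X := by
    have h4 : (NX X : ℝ) ≤ Real.exp X := Nat.floor_le (Real.exp_pos X).le
    have h5 : (0:ℝ) < NX X := by
      have : 1 ≤ NX X := by
        unfold NX
        rw [Nat.le_floor_iff (Real.exp_pos X).le]
        push_cast
        exact Real.one_le_exp hX.le
      exact_mod_cast this
    rwa [Real.log_le_iff_le_exp h5]
  calc 4 / X * ∑ n ∈ Finset.range (NX X + 1), Λ n / n ≤ 4 / X * (2 * X) := by
        gcongr
        linarith only [h2, h3]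
    _ = 8 := by field_simp; norm_num

lemma sum_ap_le {X : ℝ} (hX : 0 < X) : ∑ n ∈ Finset.range (NX X + 1), ap X n ≤ 4 * Real.exp X := by
  have h4 : (NX X : ℝ) ≤ Real.exp X := Nat.floor_le (Real.exp_pos X).le
  have h5 := Real.one_le_exp hX.le
  calc ∑ n ∈ Finset.range (NX X + 1), ap X n ≤ ∑ n ∈ Finset.range (NX X + 1), 2 := Finset.sum_le_sum fun n _ => ap_le hX n
    _ = 2 * (NX X + 1) := by rw [Finset.sum_const, Finset.card_range, nsmul_eq_mul]; push_cast; ring
    _ ≤ _ := by linarith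

lemma PS_eq {X : ℝ} (hX : 0 < X) (t : ℝ) : PS X t = ∑ n ∈ Finset.range (NX X + 1), ap X n * Real.cos (Real.log n * t) := by
  unfold PS
  rw [tsum_eq_sum (s := Finset.range (NX X + 1))]
  · refine Finset.sum_congr rfl fun n _ => ?_
    unfold ap; ring
  · intro n hn
    rw [Finset.mem_range, not_lt] at hn
    have := ap_zero_ge hX (n := n) (by omega)
    unfold ap at this
    rw [← mul_assoc, this, zero_mul]

lemma PS_cont {X : ℝ} (hX : 0 < X) : Continuous (PS X) := by
  have : PS X = fun t => ∑ n ∈ Finset.range (NX X + 1), ap X n * Real.cos (Real.log n * t) := funext (PS_eq hX)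
  rw [this]
  fun_prop

lemma int_cos {c : ℝ} (hc : c ≠ 0) (a b : ℝ) : |∫ t in a..b, Real.cos (c * t)| ≤ 2 / |c| := by
  rw [intervalIntegral.integral_comp_mul_left (fun t => Real.cos t) hc, integral_cos, smul_eq_mul, abs_mul, abs_inv, ← div_eq_inv_mul]
  gcongr
  refine (abs_sub _ _).trans ?_
  have := Real.abs_sin_le_one (c * b)
  have := Real.abs_sin_le_one (c * a)
  linarith

lemma PS_mean {X : ℝ} (hX : 0 < X) (a b : ℝ) : |∫ t in a..b, PS X t| ≤ 12 * Real.exp X := by
  have h1 : ∫ t in a..b, PS X t = ∑ n ∈ Finset.range (NX X + 1), ap X n * ∫ t in a..b, Real.cos (Real.log n * t) := by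
    simp_rw [PS_eq hX]
    rw [intervalIntegral.integral_finsetSum]
    · refine Finset.sum_congr rfl fun n _ => ?_
      rw [intervalIntegral.integral_const_mul]
    · intro n _
      apply Continuous.intervalIntegrable
      fun_prop
  rw [h1]
  refine (Finset.abs_sum_le_sum_abs _ _).trans ?_
  have h2 : ∀ n ∈ Finset.range (NX X + 1), |ap X n * ∫ t in a..b, Real.cos (Real.log n * t)| ≤ ap X n * 3 := by
    intro n _
    rcases Nat.lt_or_ge n 2 with h | h
    · rw [ap_zero_lt h]; simp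
    · rw [abs_mul, abs_of_nonneg (ap_nonneg hX n)]
      apply mul_le_mul_of_nonneg_left _ (ap_nonneg hX n)
      have hn2 : (2:ℝ) ≤ n := by exact_mod_cast h
      have hl : Real.log 2 ≤ Real.log n := Real.log_le_log (by norm_num) hn2
      have hl2 := Real.log_two_gt_d9
      refine (int_cos (by linarith only [hl, hl2]) a b).trans ?_
      rw [abs_of_pos (by linarith only [hl, hl2]), div_le_iff₀ (by linarith)]
      linarith only [hl, hl2]
  refine (Finset.sum_le_sum h2).trans ?_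
  rw [← Finset.sum_mul]
  have := sum_ap_le hX
  linarith

lemma int_cos_cos {c d : ℝ} (h1 : c - d ≠ 0) (h2 : c + d ≠ 0) (a b : ℝ) :
    |∫ t in a..b, Real.cos (c * t) * Real.cos (d * t)| ≤ 1 / |c - d| + 1 / |c + d| := by
  have e : ∀ t : ℝ, Real.cos (c * t) * Real.cos (d * t) = (1 / 2) * Real.cos ((c - d) * t) + (1 / 2) * Real.cos ((c + d) * t) := by
    intro t
    rw [sub_mul, add_mul, Real.cos_sub, Real.cos_add]
    ring
  simp_rw [e]
  rw [intervalIntegral.integral_add (by apply Continuous.intervalIntegrable; fun_prop) (by apply Continuous.intervalIntegrable; fun_prop),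
    intervalIntegral.integral_const_mul, intervalIntegral.integral_const_mul]
  refine (abs_add_le _ _).trans ?_
  rw [abs_mul, abs_mul, abs_of_pos (by norm_num : (0:ℝ) < 1/2)]
  have i1 := int_cos h1 a b
  have i2 := int_cos h2 a b
  have e1 : 1 / 2 * (2 / |c - d|) = 1 / |c - d| := by ring
  have e2 : 1 / 2 * (2 / |c + d|) = 1 / |c + d| := by ring
  rw [← e1, ← e2]
  gcongr

lemma log_diff {X : ℝ} {m n : ℕ} (hn : 1 ≤ n) (hmn : n < m) (hm : m ≤ NX X) : Real.exp (-X) ≤ Real.log m - Real.log n := by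
  have hn0 : (0:ℝ) < n := by exact_mod_cast hn
  have hm0 : (0:ℝ) < m := by exact_mod_cast (by omega : 0 < m)
  have h1 : (m:ℝ) ≤ Real.exp X := (Nat.le_floor_iff (Real.exp_pos X).le).mp hm
  have h2 := Real.one_sub_inv_le_log_of_pos (show (0:ℝ) < m / n by positivity)
  rw [Real.log_div hm0.ne' hn0.ne', inv_div] at h2
  have h3 : (n:ℝ) + 1 ≤ m := by exact_mod_cast hmn
  have h4 : 1 / (m:ℝ) ≤ 1 - n / m := by
    rw [div_le_iff₀ hm0, sub_mul, div_mul_cancel₀ _ hm0.ne']
    linarith only [h3]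
  have h5 : Real.exp (-X) ≤ 1 / m := by
    rw [Real.exp_neg, ← one_div]
    gcongr
  linarith only [h2, h4, h5]

/-- mean square of the prime sum -/
lemma PS_sq {X : ℝ} (hX : 0 < X) {a b : ℝ} (hab : a ≤ b) : ∫ t in a..b, PS X t ^ 2 ≤ 8 * (b - a) + 32 * Real.exp (3 * X) := by
  have h1 : ∫ t in a..b, PS X t ^ 2 = ∑ m ∈ Finset.range (NX X + 1), ∑ n ∈ Finset.range (NX X + 1),
      ap X m * ap X n * ∫ t in a..b, Real.cos (Real.log m * t) * Real.cos (Real.log n * t) := by
    have e : ∀ t : ℝ, PS X t ^ 2 = ∑ m ∈ Finset.range (NX X + 1), ∑ n ∈ Finset.range (NX X + 1),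
        ap X m * ap X n * (Real.cos (Real.log m * t) * Real.cos (Real.log n * t)) := by
      intro t
      rw [PS_eq hX, sq, Finset.sum_mul_sum]
      refine Finset.sum_congr rfl fun m _ => Finset.sum_congr rfl fun n _ => ?_
      ring
    simp_rw [e]
    rw [intervalIntegral.integral_finsetSum]
    · refine Finset.sum_congr rfl fun m _ => ?_
      rw [intervalIntegral.integral_finsetSum]
      · refine Finset.sum_congr rfl fun n _ => ?_
        rw [intervalIntegral.integral_const_mul]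
      · intro n _
        apply Continuous.intervalIntegrable
        fun_prop
    · intro m _
      apply Continuous.intervalIntegrable
      fun_prop
  rw [h1]
  have hterm : ∀ m ∈ Finset.range (NX X + 1), ∀ n ∈ Finset.range (NX X + 1),
      ap X m * ap X n * ∫ t in a..b, Real.cos (Real.log m * t) * Real.cos (Real.log n * t) ≤
        (if m = n then ap X m ^ 2 * (b - a) else 0) + ap X m * ap X n * (2 * Real.exp X) := by
    intro m hm n hn
    rw [Finset.mem_range] at hm hn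
    have ham := ap_nonneg hX m
    have han := ap_nonneg hX n
    by_cases hmn : m = n
    · rw [if_pos hmn]
      subst hmn
      have h2 : ∫ t in a..b, Real.cos (Real.log m * t) * Real.cos (Real.log m * t) ≤ b - a := by
        have h3 : ∫ t in a..b, Real.cos (Real.log m * t) * Real.cos (Real.log m * t) ≤ ∫ _ in a..b, (1:ℝ) := by
          apply intervalIntegral.integral_mono_on hab
          · apply Continuous.intervalIntegrable; fun_prop
          · exact intervalIntegrable_const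
          · intro t _
            have := Real.abs_cos_le_one (Real.log m * t)
            rw [← abs_mul_abs_self]
            nlinarith only [this, abs_nonneg (Real.cos (Real.log m * t))]
        simpa using h3
      calc ap X m * ap X m * ∫ t in a..b, Real.cos (Real.log m * t) * Real.cos (Real.log m * t) ≤ ap X m * ap X m * (b - a) := by gcongr
        _ = ap X m ^ 2 * (b - a) := by ring
        _ ≤ _ := by
          have : 0 ≤ ap X m * ap X m * (2 * Real.exp X) := by positivity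
          linarith only [this]
    · rw [if_neg hmn, zero_add]
      rcases Nat.lt_or_ge m 2 with h2 | h2
      · rw [ap_zero_lt h2]; simp
      rcases Nat.lt_or_ge n 2 with h3 | h3
      · rw [ap_zero_lt h3]; simp
      apply mul_le_mul_of_nonneg_left _ (by positivity)
      have hlm : 0 < Real.log m := Real.log_pos (by exact_mod_cast (by omega : 1 < m))
      have hln : 0 < Real.log n := Real.log_pos (by exact_mod_cast (by omega : 1 < n))
      have hd : Real.exp (-X) ≤ |Real.log m - Real.log n| := by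
        rcases lt_or_gt_of_ne hmn with h | h
        · have := log_diff (X := X) (m := n) (n := m) (by omega) h (by omega)
          rw [abs_sub_comm]
          exact this.trans (le_abs_self _)
        · exact (log_diff (X := X) (by omega) h (by omega)).trans (le_abs_self _)
      have hs : |Real.log m - Real.log n| ≤ |Real.log m + Real.log n| := by
        rw [abs_of_pos (by linarith only [hlm, hln] : 0 < Real.log m + Real.log n), abs_le]
        constructor <;> linarith
      have hE := Real.exp_pos (-X)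
      have hdpos : 0 < |Real.log m - Real.log n| := lt_of_lt_of_le hE hd
      refine (le_abs_self _).trans ((int_cos_cos (by rwa [← abs_pos]) (by linarith only [hlm, hln]) a b).trans ?_)
      calc 1 / |Real.log m - Real.log n| + 1 / |Real.log m + Real.log n|
          ≤ 1 / Real.exp (-X) + 1 / Real.exp (-X) := by
            gcongr
            exact hd.trans hs
        _ = 2 * Real.exp X := by rw [Real.exp_neg, one_div, inv_inv]; ring
  calc ∑ m ∈ Finset.range (NX X + 1), ∑ n ∈ Finset.range (NX X + 1),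
      ap X m * ap X n * ∫ t in a..b, Real.cos (Real.log m * t) * Real.cos (Real.log n * t)
      ≤ ∑ m ∈ Finset.range (NX X + 1), ∑ n ∈ Finset.range (NX X + 1),
        ((if m = n then ap X m ^ 2 * (b - a) else 0) + ap X m * ap X n * (2 * Real.exp X)) :=
        Finset.sum_le_sum fun m hm => Finset.sum_le_sum fun n hn => hterm m hm n hn
    _ = (∑ m ∈ Finset.range (NX X + 1), ap X m ^ 2) * (b - a) + (∑ m ∈ Finset.range (NX X + 1), ap X m) ^ 2 * (2 * Real.exp X) := by
        simp_rw [Finset.sum_add_distrib]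
        congr 1
        · rw [Finset.sum_mul]
          refine Finset.sum_congr rfl fun m hm => ?_
          rw [Finset.sum_ite_eq, if_pos hm]
        · rw [sq, Finset.sum_mul_sum, Finset.sum_mul]
          refine Finset.sum_congr rfl fun m _ => ?_
          rw [Finset.sum_mul]
    _ ≤ 8 * (b - a) + (4 * Real.exp X) ^ 2 * (2 * Real.exp X) := by
        have h5 := sum_ap_sq hX
        have h6 := sum_ap_le hX
        have h7 : 0 ≤ ∑ m ∈ Finset.range (NX X + 1), ap X m := Finset.sum_nonneg fun m _ => ap_nonneg hX m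
        have h8 : 0 ≤ b - a := by linarith
        gcongr
    _ = _ := by
        have : Real.exp (3 * X) = Real.exp X ^ 3 := by rw [← Real.exp_nat_mul]; norm_num
        rw [this]; ring

end Pool.Agent.Helper57.LH

end

/-! ### Helper57.LH.GsB -/

section

namespace Pool.Agent.Helper57.LH

open Set MeasureTheory Filter Topology

open Pool.Agent.Helper57.PC

lemma gs_eq (X v w : ℝ) : gs X v w = 2 / X * ∫ x in (0:ℝ)..X, (1 - x / X) * (Real.cosh (v * x) * Real.cos (w * x)) := by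
  unfold gs
  rw [JJ_re, JJ_re, ← intervalIntegral.integral_add]
  · have e : ∫ x in (0:ℝ)..X, ((1 - x / X) * (Real.exp (v * x) * Real.cos (w * x)) + (1 - x / X) * (Real.exp (-v * x) * Real.cos (w * x))) =
      2 * ∫ x in (0:ℝ)..X, (1 - x / X) * (Real.cosh (v * x) * Real.cos (w * x)) := by
      rw [← intervalIntegral.integral_const_mul]
      apply intervalIntegral.integral_congr
      intro x _
      simp only
      rw [Real.cosh_eq, neg_mul]
      ring
    rw [e]; ring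
  · apply Continuous.intervalIntegrable; fun_prop
  · apply Continuous.intervalIntegrable; fun_prop

lemma exp_sub_one_le (y : ℝ) : Real.exp y - 1 ≤ y * Real.exp y := by
  have h := Real.add_one_le_exp (-y)
  have h2 := Real.exp_pos y
  have h3 : Real.exp (-y) * Real.exp y = 1 := by rw [← Real.exp_add]; simp
  nlinarith

lemma cosh_sub_one_le {y : ℝ} (hy : 0 ≤ y) : Real.cosh y - 1 ≤ y ^ 2 / 2 * Real.exp y := by
  have h1 := exp_sub_one_le y
  have h0 : 0 ≤ Real.exp y - 1 := by have := Real.add_one_le_exp y; linarith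
  have hE := Real.exp_pos y
  have e : Real.cosh y - 1 = Real.exp (-y) * (Real.exp y - 1) ^ 2 / 2 := by
    have h3 : Real.exp (-y) * Real.exp y = 1 := by rw [← Real.exp_add]; simp
    rw [Real.cosh_eq]
    have : Real.exp (-y) * (Real.exp y - 1) ^ 2 = (Real.exp (-y) * Real.exp y) * Real.exp y - 2 * (Real.exp (-y) * Real.exp y) + Real.exp (-y) := by ring
    rw [this, h3]; ring
  rw [e]
  have h4 : (Real.exp y - 1) ^ 2 ≤ (y * Real.exp y) ^ 2 := by gcongr
  have hEn := Real.exp_pos (-y)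
  calc Real.exp (-y) * (Real.exp y - 1) ^ 2 / 2 ≤ Real.exp (-y) * (y * Real.exp y) ^ 2 / 2 := by gcongr
    _ = y ^ 2 / 2 * (Real.exp (-y) * Real.exp y) * Real.exp y := by ring
    _ = _ := by rw [← Real.exp_add]; simp

lemma cosh_sub_one_le' {y U : ℝ} (hy : |y| ≤ U) : Real.cosh y - 1 ≤ U ^ 2 / 2 * Real.exp U := by
  have h0 := abs_nonneg y
  rw [← Real.cosh_abs]
  refine (cosh_sub_one_le h0).trans ?_
  gcongr

lemma cosh_le' {y U : ℝ} (hy : |y| ≤ U) : Real.cosh y ≤ Real.exp U := by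
  rw [← Real.cosh_abs, Real.cosh_eq]
  have h1 : Real.exp |y| ≤ Real.exp U := Real.exp_le_exp.mpr hy
  have h2 : Real.exp (-|y|) ≤ Real.exp U := Real.exp_le_exp.mpr (by have := abs_nonneg y; linarith)
  linarith

lemma sinh_le' {y U : ℝ} (hy : |y| ≤ U) : |Real.sinh y| ≤ U * Real.exp U := by
  have h0 := abs_nonneg y
  rw [Real.abs_sinh, Real.sinh_eq]
  have h1 := exp_sub_one_le (2 * |y|)
  have hE := Real.exp_pos |y|
  have hEn := Real.exp_pos (-|y|)
  have h3 : Real.exp (-|y|) * Real.exp |y| = 1 := by rw [← Real.exp_add]; simp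
  have h2 : Real.exp (2 * |y|) = Real.exp |y| ^ 2 := by rw [← Real.exp_nat_mul]; norm_num
  rw [h2] at h1
  have h4 : Real.exp |y| - Real.exp (-|y|) ≤ 2 * |y| * Real.exp |y| := by
    have h5 : Real.exp (-|y|) * (Real.exp |y| ^ 2 - 1) ≤ Real.exp (-|y|) * (2 * |y| * Real.exp |y| ^ 2) := by gcongr
    have e1 : Real.exp (-|y|) * (Real.exp |y| ^ 2 - 1) = (Real.exp (-|y|) * Real.exp |y|) * Real.exp |y| - Real.exp (-|y|) := by ring
    have e2 : Real.exp (-|y|) * (2 * |y| * Real.exp |y| ^ 2) = 2 * |y| * (Real.exp (-|y|) * Real.exp |y|) * Real.exp |y| := by ring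
    rw [e1, e2, h3] at h5
    linarith
  calc (Real.exp |y| - Real.exp (-|y|)) / 2 ≤ |y| * Real.exp |y| := by linarith only [h4]
    _ ≤ U * Real.exp U := by
        have : 0 ≤ U := h0.trans hy
        gcongr

/-- the difference as an integral -/
lemma gs_diff (X v w : ℝ) : gs X v w - gs X 0 w = 2 / X * ∫ x in (0:ℝ)..X, (1 - x / X) * (Real.cosh (v * x) - 1) * Real.cos (w * x) := by
  rw [gs_eq, gs_eq, ← mul_sub, ← intervalIntegral.integral_sub]
  · congr 1
    apply intervalIntegral.integral_congr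
    intro x _
    simp only [zero_mul, Real.cosh_zero]
    ring
  · apply Continuous.intervalIntegrable; fun_prop
  · apply Continuous.intervalIntegrable; fun_prop

lemma gs_diff_le {X : ℝ} (hX : 0 < X) (v w : ℝ) : |gs X v w - gs X 0 w| ≤ (|v| * X) ^ 2 * Real.exp (|v| * X) := by
  set U := |v| * X with hU
  rw [gs_diff, abs_mul, abs_of_pos (by positivity)]
  have h1 : |∫ x in (0:ℝ)..X, (1 - x / X) * (Real.cosh (v * x) - 1) * Real.cos (w * x)| ≤ (U ^ 2 / 2 * Real.exp U) * |X - 0| := by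
    rw [← Real.norm_eq_abs]
    apply intervalIntegral.norm_integral_le_of_norm_le_const
    intro x hx
    rw [uIoc_of_le hX.le] at hx
    have hx1 : x / X ≤ 1 := by rw [div_le_one hX]; exact hx.2
    have hx0 : 0 ≤ x / X := div_nonneg hx.1.le hX.le
    have hvx : |v * x| ≤ U := by
      rw [abs_mul, abs_of_pos hx.1, hU]
      have := hx.2
      gcongr
    have hc := cosh_sub_one_le' hvx
    have hc0 := Real.one_le_cosh (v * x)
    rw [Real.norm_eq_abs, abs_mul, abs_mul, abs_of_nonneg (by linarith only [hx1] : 0 ≤ 1 - x / X), abs_of_nonneg (by linarith only [hc0] : 0 ≤ Real.cosh (v * x) - 1)]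
    calc (1 - x / X) * (Real.cosh (v * x) - 1) * |Real.cos (w * x)| ≤ 1 * (U ^ 2 / 2 * Real.exp U) * 1 := by
          gcongr
          · linarith only [hx0]
          · exact Real.abs_cos_le_one _
      _ = _ := by ring
  rw [sub_zero, abs_of_pos hX] at h1
  calc 2 / X * |∫ x in (0:ℝ)..X, (1 - x / X) * (Real.cosh (v * x) - 1) * Real.cos (w * x)| ≤ 2 / X * ((U ^ 2 / 2 * Real.exp U) * X) := by gcongr
    _ = _ := by field_simp

lemma gs_diff_decay {X : ℝ} (hX : 0 < X) (v : ℝ) {w : ℝ} (hw : w ≠ 0) :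
    |gs X v w - gs X 0 w| ≤ 7 * ((|v| * X) ^ 2 * Real.exp (|v| * X)) / (X * w) ^ 2 := by
  set U := |v| * X with hU
  have hU0 : 0 ≤ U := by positivity
  rw [gs_diff, abs_mul, abs_of_pos (by positivity)]
  set φ : ℝ → ℝ := fun x => (1 - x / X) * (Real.cosh (v * x) - 1) with hφ
  set φ1 : ℝ → ℝ := fun x => -(1 / X) * (Real.cosh (v * x) - 1) + (1 - x / X) * (v * Real.sinh (v * x)) with hφ1
  set φ2 : ℝ → ℝ := fun x => -(2 / X) * (v * Real.sinh (v * x)) + (1 - x / X) * (v ^ 2 * Real.cosh (v * x)) with hφ2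
  have hvx : ∀ x : ℝ, HasDerivAt (fun x : ℝ => v * x) v x := fun x => by simpa using (hasDerivAt_id x).const_mul v
  have hwx : ∀ x : ℝ, HasDerivAt (fun x : ℝ => w * x) w x := fun x => by simpa using (hasDerivAt_id x).const_mul w
  have hlin : ∀ x : ℝ, HasDerivAt (fun x : ℝ => 1 - x / X) (-(1 / X)) x := fun x => by
    simpa using ((hasDerivAt_id x).div_const X).const_sub 1
  have hch : ∀ x : ℝ, HasDerivAt (fun x : ℝ => Real.cosh (v * x)) (Real.sinh (v * x) * v) x := fun x => (hvx x).cosh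
  have hsh : ∀ x : ℝ, HasDerivAt (fun x : ℝ => Real.sinh (v * x)) (Real.cosh (v * x) * v) x := fun x => (hvx x).sinh
  have d0 : ∀ x, HasDerivAt φ (φ1 x) x := by
    intro x
    have := (hlin x).fun_mul ((hch x).sub_const 1)
    refine this.congr_deriv ?_
    simp only [hφ1]; ring
  have d1 : ∀ x, HasDerivAt φ1 (φ2 x) x := by
    intro x
    have h1 := ((hch x).sub_const 1).const_mul (-(1 / X))
    have h2 := (hlin x).fun_mul ((hsh x).const_mul v)
    have := h1.fun_add h2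
    refine this.congr_deriv ?_
    simp only [hφ2]; ring
  have hc : ∀ x : ℝ, HasDerivAt (fun x : ℝ => Real.cos (w * x)) (-Real.sin (w * x) * w) x := fun x => (hwx x).cos
  have hs : ∀ x : ℝ, HasDerivAt (fun x : ℝ => Real.sin (w * x)) (Real.cos (w * x) * w) x := fun x => (hwx x).sin
  have hF : ∀ x ∈ uIcc 0 X, HasDerivAt (fun x => φ x * Real.sin (w * x) / w + φ1 x * Real.cos (w * x) / w ^ 2)
      (φ x * Real.cos (w * x) + φ2 x * Real.cos (w * x) / w ^ 2) x := by
    intro x _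
    have := (((d0 x).fun_mul (hs x)).div_const w).fun_add (((d1 x).fun_mul (hc x)).div_const (w ^ 2))
    refine this.congr_deriv ?_
    field_simp
    ring
  have hφc : Continuous φ := by simp only [hφ]; fun_prop
  have hφ2c : Continuous φ2 := by simp only [hφ2]; fun_prop
  have hint := intervalIntegral.integral_eq_sub_of_hasDerivAt hF (by apply Continuous.intervalIntegrable; fun_prop)
  rw [intervalIntegral.integral_add (by apply Continuous.intervalIntegrable; fun_prop) (by apply Continuous.intervalIntegrable; fun_prop)] at hint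
  have hval : (φ X * Real.sin (w * X) / w + φ1 X * Real.cos (w * X) / w ^ 2) - (φ 0 * Real.sin (w * 0) / w + φ1 0 * Real.cos (w * 0) / w ^ 2) =
      -(1 / X) * (Real.cosh (v * X) - 1) * Real.cos (w * X) / w ^ 2 := by
    simp only [hφ, hφ1, div_self hX.ne', sub_self, zero_mul, zero_div, mul_zero, Real.cosh_zero, Real.sinh_zero, add_zero, zero_add, sub_zero]
  rw [hval] at hint
  have hw2 : 0 < w ^ 2 := by positivity
  have hb1 : |-(1 / X) * (Real.cosh (v * X) - 1) * Real.cos (w * X) / w ^ 2| ≤ (U ^ 2 / 2 * Real.exp U) / X / w ^ 2 := by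
    rw [abs_div, abs_of_pos hw2]
    gcongr
    rw [abs_mul, abs_mul, abs_neg, abs_of_pos (by positivity : 0 < 1 / X)]
    have hc0 := Real.one_le_cosh (v * X)
    rw [abs_of_nonneg (by linarith only [hc0] : 0 ≤ Real.cosh (v * X) - 1)]
    have hvX : |v * X| ≤ U := by rw [abs_mul, abs_of_pos hX]
    have hc1 := cosh_sub_one_le' hvX
    calc 1 / X * (Real.cosh (v * X) - 1) * |Real.cos (w * X)| ≤ 1 / X * (U ^ 2 / 2 * Real.exp U) * 1 := by
          gcongr
          exact Real.abs_cos_le_one _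
      _ = _ := by ring
  have hb2 : |∫ x in (0:ℝ)..X, φ2 x * Real.cos (w * x) / w ^ 2| ≤ (3 * (U ^ 2 * Real.exp U) / X ^ 2 / w ^ 2) * |X - 0| := by
    rw [← Real.norm_eq_abs]
    apply intervalIntegral.norm_integral_le_of_norm_le_const
    intro x hx
    rw [uIoc_of_le hX.le] at hx
    have hx1 : x / X ≤ 1 := by rw [div_le_one hX]; exact hx.2
    have hx0 : 0 ≤ x / X := div_nonneg hx.1.le hX.le
    have hvx' : |v * x| ≤ U := by
      rw [abs_mul, abs_of_pos hx.1, hU]
      have := hx.2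
      gcongr
    have hv : |v| = U / X := by rw [hU]; field_simp
    have h1 : |φ2 x| ≤ 3 * (U ^ 2 * Real.exp U) / X ^ 2 := by
      simp only [hφ2]
      refine (abs_add_le _ _).trans ?_
      rw [abs_mul, abs_mul, abs_mul, abs_mul, abs_neg, abs_of_pos (by positivity : 0 < 2 / X), abs_of_nonneg (by linarith only [hx1] : 0 ≤ 1 - x / X),
        abs_of_pos (Real.cosh_pos (v * x)), abs_pow, hv]
      have hs1 := sinh_le' hvx'
      have hc1 := cosh_le' hvx'
      calc 2 / X * (U / X * |Real.sinh (v * x)|) + (1 - x / X) * ((U / X) ^ 2 * Real.cosh (v * x))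
          ≤ 2 / X * (U / X * (U * Real.exp U)) + 1 * ((U / X) ^ 2 * Real.exp U) := by
            gcongr
            linarith only [hx0]
        _ = _ := by field_simp; ring
    rw [Real.norm_eq_abs, abs_div, abs_of_pos hw2, abs_mul]
    gcongr
    calc |φ2 x| * |Real.cos (w * x)| ≤ (3 * (U ^ 2 * Real.exp U) / X ^ 2) * 1 := by
          gcongr
          exact Real.abs_cos_le_one _
      _ = _ := mul_one _
  rw [sub_zero, abs_of_pos hX] at hb2
  have hI : ∫ x in (0:ℝ)..X, (1 - x / X) * (Real.cosh (v * x) - 1) * Real.cos (w * x) =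
      -(1 / X) * (Real.cosh (v * X) - 1) * Real.cos (w * X) / w ^ 2 - ∫ x in (0:ℝ)..X, φ2 x * Real.cos (w * x) / w ^ 2 := by
    rw [← hint]
    ring
  rw [hI]
  have hE := Real.exp_pos U
  calc 2 / X * |-(1 / X) * (Real.cosh (v * X) - 1) * Real.cos (w * X) / w ^ 2 - ∫ x in (0:ℝ)..X, φ2 x * Real.cos (w * x) / w ^ 2|
      ≤ 2 / X * ((U ^ 2 / 2 * Real.exp U) / X / w ^ 2 + (3 * (U ^ 2 * Real.exp U) / X ^ 2 / w ^ 2) * X) := by
        gcongr
        exact (abs_sub _ _).trans (add_le_add hb1 hb2)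
    _ = _ := by field_simp; ring

/-- the decay kernel -/
noncomputable def Kd (X w : ℝ) : ℝ := (1 + (X * w) ^ 2)⁻¹

theorem gs_diff_bound {X : ℝ} (hX : 0 < X) (v w : ℝ) :
    |gs X v w - gs X 0 w| ≤ 8 * ((|v| * X) ^ 2 * Real.exp (|v| * X)) * Kd X w := by
  unfold Kd
  set A := (|v| * X) ^ 2 * Real.exp (|v| * X) with hA
  have hA0 : 0 ≤ A := by positivity
  have h1 := gs_diff_le hX v w
  rw [← hA] at h1
  rcases le_or_gt ((X * w) ^ 2) 7 with h | h
  · refine h1.trans ?_
    rw [← div_eq_mul_inv, le_div_iff₀ (by positivity)]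
    nlinarith only [hA0, h]
  · have hw : w ≠ 0 := by
      rintro rfl
      norm_num at h
    have h2 := gs_diff_decay hX v hw
    rw [← hA] at h2
    refine h2.trans ?_
    rw [← div_eq_mul_inv, div_le_div_iff₀ (by positivity) (by positivity)]
    nlinarith only [hA0, h]

/-- closed form of the Fejer kernel -/
lemma gs_zero_eq {X : ℝ} (hX : 0 < X) {w : ℝ} (hw : w ≠ 0) : gs X 0 w = PC.sq (X * w / (2 * Real.pi)) := by
  unfold gs
  have hz : (((0:ℝ) : ℂ) + w * Complex.I) ≠ 0 := by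
    intro h
    have := congrArg Complex.im h
    simp at this
    exact hw this
  have hz' : (((-0 : ℝ) : ℂ) + w * Complex.I) = (((0:ℝ) : ℂ) + w * Complex.I) := by simp
  rw [hz', JJ_eq hX hz]
  have e1 : (-(1 / (((0:ℝ) : ℂ) + w * Complex.I)) + (Complex.exp ((((0:ℝ) : ℂ) + w * Complex.I) * X) - 1) / (X * (((0:ℝ) : ℂ) + w * Complex.I) ^ 2)).re =
      (1 - Real.cos (w * X)) / (X * w ^ 2) := by
    rw [Complex.add_re, Complex.neg_re, one_div, Complex.inv_re]
    have e2 : (X : ℂ) * (((0:ℝ) : ℂ) + w * Complex.I) ^ 2 = ((-(X * w ^ 2) : ℝ) : ℂ) := by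
      push_cast
      rw [zero_add, mul_pow, Complex.I_sq]
      ring
    have e3 : (((0:ℝ) : ℂ) + w * Complex.I) * X = ((w * X : ℝ) : ℂ) * Complex.I := by push_cast; ring
    rw [e2, e3, Complex.div_ofReal_re, Complex.sub_re, Complex.exp_ofReal_mul_I_re]
    simp
    rw [div_neg, ← neg_div]
    congr 1
    ring
  rw [e1]
  unfold PC.sq
  have hpi := Real.pi_pos
  rw [show Real.pi * (X * w / (2 * Real.pi)) = w * X / 2 by field_simp]
  have h4 : 1 - Real.cos (w * X) = 2 * Real.sin (w * X / 2) ^ 2 := by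
    have := Real.cos_sq (w * X / 2)
    have h5 := Real.sin_sq_add_cos_sq (w * X / 2)
    rw [show 2 * (w * X / 2) = w * X by ring] at this
    linarith
  rw [h4]
  field_simp
  ring

lemma gs_zero_zero {X : ℝ} (hX : 0 < X) : gs X 0 0 = 1 := by
  rw [gs_eq]
  simp only [zero_mul, Real.cosh_zero, Real.cos_zero, mul_one]
  have : ∫ x in (0:ℝ)..X, (1 - x / X) = X / 2 := by
    rw [intervalIntegral.integral_sub (by simp) (by apply Continuous.intervalIntegrable; fun_prop)]
    rw [intervalIntegral.integral_div, integral_id]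
    simp
    field_simp
    ring
  rw [this]
  field_simp

lemma gs_zero_nonneg {X : ℝ} (hX : 0 < X) (w : ℝ) : 0 ≤ gs X 0 w := by
  rcases eq_or_ne w 0 with rfl | hw
  · rw [gs_zero_zero hX]; norm_num
  · rw [gs_zero_eq hX hw]; exact sq_nonneg' _

lemma gs_zero_le_one {X : ℝ} (hX : 0 < X) (w : ℝ) : gs X 0 w ≤ 1 := by
  rcases eq_or_ne w 0 with rfl | hw
  · rw [gs_zero_zero hX]
  · rw [gs_zero_eq hX hw]; exact sq_le_one _

lemma gs_zero_decay {X : ℝ} (hX : 0 < X) (w : ℝ) : gs X 0 w ≤ 5 * Kd X w := by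
  unfold Kd
  rcases eq_or_ne w 0 with rfl | hw
  · rw [gs_zero_zero hX]; norm_num
  · have h1 : gs X 0 w ≤ 4 / (X * w) ^ 2 := by
      rw [gs_zero_eq hX hw]
      unfold PC.sq
      have hpi := Real.pi_pos
      rw [show Real.pi * (X * w / (2 * Real.pi)) = w * X / 2 by field_simp, div_pow]
      have h2 : Real.sin (w * X / 2) ^ 2 ≤ 1 := Real.sin_sq_le_one _
      calc Real.sin (w * X / 2) ^ 2 / (w * X / 2) ^ 2 ≤ 1 / (w * X / 2) ^ 2 := by gcongr
        _ = _ := by field_simp; norm_num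
    have h2 := gs_zero_le_one hX w
    rcases le_or_gt ((X * w) ^ 2) 4 with h | h
    · refine h2.trans ?_
      rw [← div_eq_mul_inv, le_div_iff₀ (by positivity)]
      linarith only [h]
    · refine h1.trans ?_
      rw [← div_eq_mul_inv, div_le_div_iff₀ (by positivity) (by positivity)]
      linarith only [h]

end Pool.Agent.Helper57.LH

end

/-! ### Helper57.LS.Mertens -/

section

namespace Pool.Agent.Helper57.LS

open Set MeasureTheory Filter Topology

open Pool.Agent.Helper57.LH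

open scoped ArithmeticFunction

lemma log_fact (N : ℕ) : ∑ n ∈ Finset.range (N + 1), Real.log n = ∑ d ∈ Finset.range (N + 1), Λ d * ((N / d : ℕ) : ℝ) := by
  classical
  have e1 : ∀ n ∈ Finset.range (N + 1), Real.log n = ∑ d ∈ Finset.range (N + 1), if (n ≠ 0 ∧ d ∣ n) then Λ d else 0 := by
    intro n hn
    rw [Finset.mem_range] at hn
    rw [← ArithmeticFunction.vonMangoldt_sum, ← Finset.sum_filter]
    apply Finset.sum_congr
    · ext d
      rw [Nat.mem_divisors, Finset.mem_filter, Finset.mem_range]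
      constructor
      · rintro ⟨h1, h2⟩
        have := Nat.le_of_dvd (Nat.pos_of_ne_zero h2) h1
        exact ⟨by omega, h2, h1⟩
      · rintro ⟨_, h2, h1⟩
        exact ⟨h1, h2⟩
    · intro d _; rfl
  rw [Finset.sum_congr rfl e1, Finset.sum_comm]
  refine Finset.sum_congr rfl fun d _ => ?_
  rw [← Finset.sum_filter, Finset.sum_const, nsmul_eq_mul, ← Nat.card_multiples' N d]
  ring

lemma log_fact_lower (N : ℕ) : N * Real.log N - N ≤ ∑ n ∈ Finset.range (N + 1), Real.log n := by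
  induction N with
  | zero => simp
  | succ N ih =>
    rw [Finset.sum_range_succ]
    rcases Nat.eq_zero_or_pos N with rfl | hN
    · simp
    have hN0 : (0:ℝ) < N := by exact_mod_cast hN
    have h1 : Real.log ((N + 1 : ℕ) : ℝ) - Real.log N ≤ 1 / N := by
      rw [← Real.log_div (by positivity) hN0.ne']
      have h2 := Real.log_le_sub_one_of_pos (show (0:ℝ) < ((N + 1 : ℕ) : ℝ) / N by positivity)
      have h3 : ((N + 1 : ℕ) : ℝ) / N - 1 = 1 / N := by push_cast; field_simp; ring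
      linarith only [h2, h3]
    have h4 : N * (Real.log ((N + 1 : ℕ) : ℝ) - Real.log N) ≤ N * (1 / N) := by gcongr
    rw [mul_one_div_cancel hN0.ne'] at h4
    push_cast at h4 ih ⊢
    linarith only [ih, h4]

lemma log_fact_upper (N : ℕ) : ∑ n ∈ Finset.range (N + 1), Real.log n ≤ N * Real.log N := by
  rw [Finset.sum_range_succ']
  simp only [Nat.cast_zero, Real.log_zero, add_zero]
  calc ∑ k ∈ Finset.range N, Real.log ((k + 1 : ℕ) : ℝ) ≤ ∑ k ∈ Finset.range N, Real.log N := by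
        refine Finset.sum_le_sum fun k hk => ?_
        rw [Finset.mem_range] at hk
        apply Real.log_le_log (by positivity)
        exact_mod_cast hk
    _ = _ := by rw [Finset.sum_const, Finset.card_range, nsmul_eq_mul]

lemma psi_range (N : ℕ) : ∑ d ∈ Finset.range (N + 1), Λ d ≤ (Real.log 4 + 4) * N := by
  have h := Chebyshev.psi_le_const_mul_self (x := (N:ℝ)) (by positivity)
  rw [Chebyshev.psi_eq_sum_Icc, Nat.floor_natCast] at h
  refine le_trans (le_of_eq ?_) h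
  apply Finset.sum_congr _ (fun _ _ => rfl)
  ext d
  simp

lemma vM_lower {N : ℕ} (hN : 1 ≤ N) : Real.log N - 1 ≤ ∑ d ∈ Finset.range (N + 1), Λ d / d := by
  have hN0 : (0:ℝ) < N := by exact_mod_cast hN
  have h1 := log_fact_lower N
  rw [log_fact] at h1
  have h3 : ∑ d ∈ Finset.range (N + 1), Λ d * ((N / d : ℕ) : ℝ) ≤ ∑ d ∈ Finset.range (N + 1), (N:ℝ) * (Λ d / d) := by
    refine Finset.sum_le_sum fun d _ => ?_
    have h9 := @ArithmeticFunction.vonMangoldt_nonneg d
    have h10 : ((N / d : ℕ) : ℝ) ≤ (N:ℝ) / d := Nat.cast_div_le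
    calc Λ d * ((N / d : ℕ) : ℝ) ≤ Λ d * ((N:ℝ) / d) := by gcongr
      _ = _ := by ring
  rw [← Finset.mul_sum] at h3
  have h4 : N * (Real.log N - 1) ≤ N * ∑ d ∈ Finset.range (N + 1), Λ d / d := by linarith
  exact le_of_mul_le_mul_left h4 hN0

lemma vM_upper {N : ℕ} (hN : 1 ≤ N) : ∑ d ∈ Finset.range (N + 1), Λ d / d ≤ Real.log N + (Real.log 4 + 4) := by
  have hN0 : (0:ℝ) < N := by exact_mod_cast hN
  have h1 := log_fact_upper N
  rw [log_fact] at h1
  have h3 : ∑ d ∈ Finset.range (N + 1), (N:ℝ) * (Λ d / d) ≤ ∑ d ∈ Finset.range (N + 1), (Λ d * ((N / d : ℕ) : ℝ) + Λ d) := by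
    refine Finset.sum_le_sum fun d _ => ?_
    have h9 := @ArithmeticFunction.vonMangoldt_nonneg d
    rcases Nat.eq_zero_or_pos d with rfl | hd
    · simp
    have hd0 : (0:ℝ) < d := by exact_mod_cast hd
    have h10 : (N:ℝ) / d ≤ ((N / d : ℕ) : ℝ) + 1 := by
      rw [div_le_iff₀ hd0]
      have h6 : N < d * (N / d) + d := by
        have := Nat.div_add_mod N d
        have := Nat.mod_lt N hd
        omega
      have h8 : (N:ℝ) < d * ((N / d : ℕ) : ℝ) + d := by exact_mod_cast h6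
      linarith only [h8]
    calc (N:ℝ) * (Λ d / d) = Λ d * ((N:ℝ) / d) := by ring
      _ ≤ Λ d * (((N / d : ℕ) : ℝ) + 1) := by gcongr
      _ = _ := by ring
  rw [← Finset.mul_sum, Finset.sum_add_distrib] at h3
  have h4 := psi_range N
  have h5 : N * ∑ d ∈ Finset.range (N + 1), Λ d / d ≤ N * (Real.log N + (Real.log 4 + 4)) := by linarith only [h1, h3, h4]
  exact le_of_mul_le_mul_left h5 hN0

/-- the constant in Mertens' theorem -/
noncomputable def CMe : ℝ := Real.log 4 + 6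

lemma CMe_pos : 0 < CMe := by
  unfold CMe
  have : 0 < Real.log 4 := Real.log_pos (by norm_num)
  linarith

lemma NX_one_le {y : ℝ} (hy : 0 ≤ y) : 1 ≤ NX y := by
  unfold NX
  rw [Nat.le_floor_iff (Real.exp_pos y).le]
  push_cast
  exact Real.one_le_exp hy

/-- Mertens -/
lemma mertens {y : ℝ} (hy : 0 ≤ y) : |(∑ n ∈ Finset.range (NX y + 1), Λ n / n) - y| ≤ CMe := by
  have h1 := NX_one_le hy
  have hN0 : (0:ℝ) < NX y := by exact_mod_cast h1
  have h2 : (NX y : ℝ) ≤ Real.exp y := Nat.floor_le (Real.exp_pos y).le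
  have h3 : Real.exp y < NX y + 1 := Nat.lt_floor_add_one _
  have h1' : (1:ℝ) ≤ NX y := by exact_mod_cast h1
  have h4 : Real.log (NX y) ≤ y := by rwa [Real.log_le_iff_le_exp hN0]
  have h5 : y - 1 ≤ Real.log (NX y) := by
    rw [Real.le_log_iff_exp_le hN0, Real.exp_sub]
    have h6 : 2 ≤ Real.exp 1 := by
      have := Real.add_one_le_exp (1:ℝ)
      linarith only [this]
    rw [div_le_iff₀ (by positivity)]
    nlinarith only [h3, h1', h6]
  have h7 := vM_lower h1
  have h8 := vM_upper h1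
  have : 0 < Real.log 4 := Real.log_pos (by norm_num)
  unfold CMe
  rw [abs_le]
  constructor <;> linarith

/-- discrete Abel summation bound -/
lemma abel_le {a : ℕ → ℝ} {D : ℕ → ℝ} (hD : ∀ N, ∑ n ∈ Finset.range (N + 1), a n = D N) (N : ℕ) :
    ∑ n ∈ Finset.range (N + 1), a (n + 1) / ((n:ℝ) + 1) =
      (D (N + 1) - D 0) / ((N:ℝ) + 1) + ∑ n ∈ Finset.range N, (D (n + 1) - D 0) * (1 / ((n:ℝ) + 1) - 1 / ((n:ℝ) + 2)) := by
  have hs : ∀ n, a (n + 1) = D (n + 1) - D n := by
    intro n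
    rw [← hD (n + 1), ← hD n, Finset.sum_range_succ]; ring
  induction N with
  | zero => simp [hs]
  | succ N ih =>
    rw [Finset.sum_range_succ, ih, Finset.sum_range_succ, hs]
    push_cast
    have h1 : (N:ℝ) + 1 ≠ 0 := by positivity
    have h2 : (N:ℝ) + 2 ≠ 0 := by positivity
    have h3 : (N:ℝ) + 1 + 1 = N + 2 := by ring
    rw [h3]
    field_simp
    ring

open Classical in
/-- the von Mangoldt function off the primes -/
noncomputable def aN (n : ℕ) : ℝ := if n.Prime then 0 else Λ n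

lemma aN_nonneg (n : ℕ) : 0 ≤ aN n := by
  unfold aN
  split_ifs
  · exact le_rfl
  · exact ArithmeticFunction.vonMangoldt_nonneg

lemma aN_sum_le {N : ℕ} (hN : 1 ≤ N) : ∑ n ∈ Finset.range (N + 1), aN n ≤ 8 * (N:ℝ) ^ (3/4 : ℝ) := by
  have hN1 : (1:ℝ) ≤ N := by exact_mod_cast hN
  have hN0 : (0:ℝ) < N := by linarith only [hN1]
  have h := Chebyshev.psi_sub_theta_le hN1
  rw [Chebyshev.psi_sub_theta_eq_sum_not_prime, Nat.floor_natCast] at h
  have e1 : ∑ n ∈ Finset.range (N + 1), aN n = ∑ n ∈ Finset.Ioc 0 N with ¬ n.Prime, Λ n := by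
    rw [Finset.sum_filter]
    symm
    have e2 : ∀ n ∈ Finset.Ioc 0 N, (if ¬ n.Prime then Λ n else 0) = aN n := by
      intro n _
      unfold aN
      split_ifs <;> simp_all
    rw [Finset.sum_congr rfl e2]
    apply Finset.sum_subset
    · intro n hn
      rw [Finset.mem_Ioc] at hn
      rw [Finset.mem_range]
      omega
    · intro n hn hn2
      rw [Finset.mem_range] at hn
      rw [Finset.mem_Ioc] at hn2
      have : n = 0 := by omega
      subst this
      unfold aN; simp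
  rw [e1]
  refine h.trans ?_
  have h2 := Real.log_le_rpow_div hN0.le (show (0:ℝ) < 1/4 by norm_num)
  have h3 : Real.sqrt N = (N:ℝ) ^ (1/2 : ℝ) := Real.sqrt_eq_rpow _
  have h4 : (N:ℝ) ^ (3/4 : ℝ) = (N:ℝ) ^ (1/2 : ℝ) * (N:ℝ) ^ (1/4 : ℝ) := by
    rw [← Real.rpow_add hN0]; norm_num
  rw [h3, h4]
  calc 2 * (N:ℝ) ^ (1/2 : ℝ) * Real.log N ≤ 2 * (N:ℝ) ^ (1/2 : ℝ) * ((N:ℝ) ^ (1/4 : ℝ) / (1/4)) := by gcongr
    _ = _ := by ring

/-- the constant for non-primes -/
noncomputable def CNP : ℝ := 8 + 8 * ∑' n : ℕ, 1 / ((n:ℝ) + 1) ^ (5/4 : ℝ)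

lemma rp_summable : Summable (fun n : ℕ => 1 / ((n:ℝ) + 1) ^ (5/4 : ℝ)) := by
  have h := (Real.summable_one_div_nat_rpow (p := 5/4)).mpr (by norm_num)
  have := (summable_nat_add_iff 1).mpr h
  refine this.congr ?_
  intro n
  push_cast
  rfl

lemma CNP_nonneg : 0 ≤ CNP := by
  unfold CNP
  have : 0 ≤ ∑' n : ℕ, 1 / ((n:ℝ) + 1) ^ (5/4 : ℝ) := tsum_nonneg fun n => by positivity
  linarith

lemma nonprime_sum (N : ℕ) : ∑ n ∈ Finset.range (N + 1), aN n / n ≤ CNP := by
  rcases Nat.eq_zero_or_pos N with rfl | hN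
  · simp; exact CNP_nonneg
  obtain ⟨M, rfl⟩ : ∃ M, N = M + 1 := ⟨N - 1, by omega⟩
  rw [Finset.sum_range_succ']
  simp only [Nat.cast_zero, div_zero, add_zero]
  have h := abel_le (a := aN) (D := fun N => ∑ n ∈ Finset.range (N + 1), aN n) (fun _ => rfl) M
  have e1 : ∑ k ∈ Finset.range (M + 1), aN (k + 1) / ((k + 1 : ℕ) : ℝ) = ∑ n ∈ Finset.range (M + 1), aN (n + 1) / ((n:ℝ) + 1) := by
    refine Finset.sum_congr rfl fun n _ => ?_
    push_cast; rfl
  rw [e1, h]
  have e0 : ∑ n ∈ Finset.range (0 + 1), aN n = 0 := by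
    simp; unfold aN; simp
  simp only [e0, sub_zero]
  unfold CNP
  have hD : ∀ m : ℕ, ∑ n ∈ Finset.range (m + 1 + 1), aN n ≤ 8 * ((m:ℝ) + 1) ^ (3/4 : ℝ) := by
    intro m
    have := aN_sum_le (N := m + 1) (by omega)
    push_cast at this
    exact this
  apply add_le_add
  · have h1 := hD M
    rw [div_le_iff₀ (by positivity)]
    refine h1.trans ?_
    have h2 : ((M:ℝ) + 1) ^ (3/4 : ℝ) ≤ ((M:ℝ) + 1) ^ (1 : ℝ) := by
      apply Real.rpow_le_rpow_of_exponent_le
      · have : (0:ℝ) ≤ M := by positivity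
        linarith only []
      · norm_num
    rw [Real.rpow_one] at h2
    linarith only [h2]
  · rw [← tsum_mul_left]
    refine le_trans ?_ ((rp_summable.mul_left 8).sum_le_tsum (Finset.range M) (fun n _ => by positivity))
    refine Finset.sum_le_sum fun n _ => ?_
    have h1 := hD n
    have h2 : 1 / ((n:ℝ) + 1) - 1 / ((n:ℝ) + 2) ≤ 1 / ((n:ℝ) + 1) ^ 2 := by
      have h3 : (0:ℝ) < (n:ℝ) + 1 := by positivity
      have h4 : (0:ℝ) < (n:ℝ) + 2 := by positivity
      rw [div_sub_div _ _ h3.ne' h4.ne', div_le_div_iff₀ (by positivity) (by positivity)]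
      nlinarith only []
    have h5 : 0 ≤ 1 / ((n:ℝ) + 1) - 1 / ((n:ℝ) + 2) := by
      rw [sub_nonneg]
      apply one_div_le_one_div_of_le <;> [positivity; linarith only []]
    have h6 : ((n:ℝ) + 1) ^ 2 = ((n:ℝ) + 1) ^ (3/4 : ℝ) * ((n:ℝ) + 1) ^ (5/4 : ℝ) := by
      rw [← Real.rpow_add (by positivity), ← Real.rpow_natCast]
      norm_num
    have h7 : 0 < ((n:ℝ) + 1) ^ (3/4 : ℝ) := by positivity
    have h8 : 0 < ((n:ℝ) + 1) ^ (5/4 : ℝ) := by positivity
    calc (∑ n ∈ Finset.range (n + 1 + 1), aN n) * (1 / ((n:ℝ) + 1) - 1 / ((n:ℝ) + 2))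
        ≤ (8 * ((n:ℝ) + 1) ^ (3/4 : ℝ)) * (1 / ((n:ℝ) + 1) ^ 2) := by gcongr
      _ = 8 * (1 / ((n:ℝ) + 1) ^ (5/4 : ℝ)) := by
          rw [h6]; field_simp

end Pool.Agent.Helper57.LS

end

/-! ### Helper57.LS.PrimeAsym -/

section

namespace Pool.Agent.Helper57.LS

open Set MeasureTheory Filter Topology

open Pool.Agent.Helper57.LH

open scoped ArithmeticFunction

/-- summatory function -/
noncomputable def Me (y : ℝ) : ℝ := ∑ n ∈ Finset.range (NX y + 1), Λ n / n

lemma Me_eq {X y : ℝ} (hyX : y ≤ X) (_hy0 : 0 ≤ y) :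
    ∑ n ∈ Finset.range (NX X + 1), (Λ n / n) * (if Real.log n ≤ y then (1:ℝ) else 0) = Me y := by
  unfold Me
  have hsub : Finset.range (NX y + 1) ⊆ Finset.range (NX X + 1) := by
    apply Finset.range_mono
    have : NX y ≤ NX X := by
      unfold NX
      exact Nat.floor_mono (Real.exp_le_exp.mpr hyX)
    omega
  rw [← Finset.sum_subset hsub]
  · refine Finset.sum_congr rfl fun n hn => ?_
    rw [Finset.mem_range] at hn
    rcases Nat.eq_zero_or_pos n with rfl | hn0
    · simp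
    have h1 : (0:ℝ) < n := by exact_mod_cast hn0
    have h2 : (n:ℝ) ≤ Real.exp y := (Nat.le_floor_iff (Real.exp_pos y).le).mp (by unfold NX at hn; omega)
    rw [if_pos, mul_one]
    rwa [Real.log_le_iff_le_exp h1]
  · intro n _ hn
    rw [Finset.mem_range, not_lt] at hn
    have h2 : Real.exp y < n := (Nat.floor_lt (Real.exp_pos y).le).mp (by unfold NX at hn; omega)
    have h1 : (0:ℝ) < n := (Real.exp_pos y).trans h2
    rw [if_neg, mul_zero]
    rw [not_le]
    rwa [Real.lt_log_iff_exp_lt h1]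

end Pool.Agent.Helper57.LS

end

/-! ### Helper57.LS.PSCross -/

section

namespace Pool.Agent.Helper57.LS

open Set MeasureTheory Filter Topology

open Pool.Agent.Helper57.LH

open Pool.Agent.Helper57.Zeta

lemma int_cos_sh {c : ℝ} (hc : c ≠ 0) (θ a b : ℝ) : |∫ t in a..b, Real.cos (c * t + θ)| ≤ 2 / |c| := by
  rw [intervalIntegral.integral_comp_mul_add (fun t => Real.cos t) hc, integral_cos, smul_eq_mul, abs_mul, abs_inv, ← div_eq_inv_mul]
  gcongr
  refine (abs_sub _ _).trans ?_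
  have := Real.abs_sin_le_one (c * b + θ)
  have := Real.abs_sin_le_one (c * a + θ)
  linarith

lemma cos_cos_sh (c d δ t : ℝ) : Real.cos (c * t) * Real.cos (d * (t + δ)) =
    (1 / 2) * Real.cos ((c - d) * t + (-(d * δ))) + (1 / 2) * Real.cos ((c + d) * t + d * δ) := by
  have e1 : (c - d) * t + (-(d * δ)) = c * t - d * (t + δ) := by ring
  have e2 : (c + d) * t + d * δ = c * t + d * (t + δ) := by ring
  rw [e1, e2, Real.cos_sub, Real.cos_add]
  ring

lemma int_cos_cos_sh {c d : ℝ} (h1 : c - d ≠ 0) (h2 : c + d ≠ 0) (δ a b : ℝ) :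
    |∫ t in a..b, Real.cos (c * t) * Real.cos (d * (t + δ))| ≤ 1 / |c - d| + 1 / |c + d| := by
  simp_rw [cos_cos_sh]
  rw [intervalIntegral.integral_add (by apply Continuous.intervalIntegrable; fun_prop) (by apply Continuous.intervalIntegrable; fun_prop),
    intervalIntegral.integral_const_mul, intervalIntegral.integral_const_mul]
  refine (abs_add_le _ _).trans ?_
  rw [abs_mul, abs_mul, abs_of_pos (by norm_num : (0:ℝ) < 1/2)]
  have i1 := int_cos_sh h1 (-(d * δ)) a b
  have i2 := int_cos_sh h2 (d * δ) a b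
  have e1 : 1 / 2 * (2 / |c - d|) = 1 / |c - d| := by ring
  have e2 : 1 / 2 * (2 / |c + d|) = 1 / |c + d| := by ring
  rw [← e1, ← e2]
  gcongr

lemma int_cos_diag {c : ℝ} (hc : 1 / 2 ≤ c) (δ a b : ℝ) :
    |(∫ t in a..b, Real.cos (c * t) * Real.cos (c * (t + δ))) - (b - a) / 2 * Real.cos (δ * c)| ≤ 1 := by
  simp_rw [cos_cos_sh]
  rw [intervalIntegral.integral_add (by apply Continuous.intervalIntegrable; fun_prop) (by apply Continuous.intervalIntegrable; fun_prop),
    intervalIntegral.integral_const_mul, intervalIntegral.integral_const_mul]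
  have e1 : ∫ t in a..b, Real.cos ((c - c) * t + (-(c * δ))) = (b - a) * Real.cos (δ * c) := by
    have : ∀ t : ℝ, Real.cos ((c - c) * t + (-(c * δ))) = Real.cos (δ * c) := by
      intro t; rw [sub_self, zero_mul, zero_add, Real.cos_neg, mul_comm]
    simp_rw [this]
    rw [intervalIntegral.integral_const, smul_eq_mul]
  rw [e1]
  have e2 : 1 / 2 * ((b - a) * Real.cos (δ * c)) + 1 / 2 * (∫ t in a..b, Real.cos ((c + c) * t + c * δ)) - (b - a) / 2 * Real.cos (δ * c) =
      1 / 2 * (∫ t in a..b, Real.cos ((c + c) * t + c * δ)) := by ring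
  rw [e2, abs_mul, abs_of_pos (by norm_num : (0:ℝ) < 1/2)]
  have h := int_cos_sh (c := c + c) (by linarith only [hc]) (c * δ) a b
  rw [abs_of_pos (by linarith only [hc] : 0 < c + c)] at h
  have h2 : 2 / (c + c) ≤ 2 := by
    rw [div_le_iff₀ (by linarith only [hc])]; linarith only [hc]
  linarith only [h, h2]

/-- correlation of the prime sum -/
lemma PS_cross {X : ℝ} (hX : 0 < X) (δ a b : ℝ) :
    |(∫ t in a..b, PS X t * PS X (t + δ)) - (b - a) / 2 * ∑ n ∈ Finset.range (NX X + 1), ap X n ^ 2 * Real.cos (δ * Real.log n)| ≤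
      40 * Real.exp (3 * X) := by
  have h1 : ∫ t in a..b, PS X t * PS X (t + δ) = ∑ m ∈ Finset.range (NX X + 1), ∑ n ∈ Finset.range (NX X + 1),
      ap X m * ap X n * ∫ t in a..b, Real.cos (Real.log m * t) * Real.cos (Real.log n * (t + δ)) := by
    have e : ∀ t : ℝ, PS X t * PS X (t + δ) = ∑ m ∈ Finset.range (NX X + 1), ∑ n ∈ Finset.range (NX X + 1),
        ap X m * ap X n * (Real.cos (Real.log m * t) * Real.cos (Real.log n * (t + δ))) := by
      intro t
      rw [PS_eq hX, PS_eq hX, Finset.sum_mul_sum]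
      refine Finset.sum_congr rfl fun m _ => Finset.sum_congr rfl fun n _ => ?_
      ring
    simp_rw [e]
    rw [intervalIntegral.integral_finsetSum]
    · refine Finset.sum_congr rfl fun m _ => ?_
      rw [intervalIntegral.integral_finsetSum]
      · refine Finset.sum_congr rfl fun n _ => ?_
        rw [intervalIntegral.integral_const_mul]
      · intro n _
        apply Continuous.intervalIntegrable
        fun_prop
    · intro m _
      apply Continuous.intervalIntegrable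
      fun_prop
  have h0 : (b - a) / 2 * ∑ n ∈ Finset.range (NX X + 1), ap X n ^ 2 * Real.cos (δ * Real.log n) =
      ∑ m ∈ Finset.range (NX X + 1), ∑ n ∈ Finset.range (NX X + 1), (if m = n then ap X m * ap X n * ((b - a) / 2 * Real.cos (δ * Real.log n)) else 0) := by
    rw [Finset.mul_sum]
    refine Finset.sum_congr rfl fun m hm => ?_
    rw [Finset.sum_ite_eq, if_pos hm]
    ring
  rw [h1, h0, ← Finset.sum_sub_distrib]
  simp_rw [← Finset.sum_sub_distrib]
  have hterm : ∀ m ∈ Finset.range (NX X + 1), ∀ n ∈ Finset.range (NX X + 1),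
      |ap X m * ap X n * (∫ t in a..b, Real.cos (Real.log m * t) * Real.cos (Real.log n * (t + δ))) -
        (if m = n then ap X m * ap X n * ((b - a) / 2 * Real.cos (δ * Real.log n)) else 0)| ≤
        (if m = n then ap X m ^ 2 else 0) + ap X m * ap X n * (2 * Real.exp X) := by
    intro m hm n hn
    rw [Finset.mem_range] at hm hn
    have ham := ap_nonneg hX m
    have han := ap_nonneg hX n
    by_cases hmn : m = n
    · rw [if_pos hmn, if_pos hmn]
      subst hmn
      rcases Nat.lt_or_ge m 2 with h2 | h2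
      · rw [ap_zero_lt h2]; simp
      rw [← mul_sub, abs_mul, abs_of_nonneg (mul_nonneg ham ham)]
      have hl : 1 / 2 ≤ Real.log m := by
        have hn2 : (2:ℝ) ≤ m := by exact_mod_cast h2
        have := Real.log_le_log (by norm_num) hn2
        have := Real.log_two_gt_d9
        linarith
      have h3 := int_cos_diag hl δ a b
      calc ap X m * ap X m * |(∫ t in a..b, Real.cos (Real.log m * t) * Real.cos (Real.log m * (t + δ))) - (b - a) / 2 * Real.cos (δ * Real.log m)|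
          ≤ ap X m * ap X m * 1 := by gcongr
        _ = ap X m ^ 2 := by ring
        _ ≤ _ := by
          have : 0 ≤ ap X m * ap X m * (2 * Real.exp X) := by positivity
          linarith only [this]
    · rw [if_neg hmn, if_neg hmn, zero_add, sub_zero]
      rcases Nat.lt_or_ge m 2 with h2 | h2
      · rw [ap_zero_lt h2]; simp
      rcases Nat.lt_or_ge n 2 with h3 | h3
      · rw [ap_zero_lt h3]; simp
      rw [abs_mul, abs_of_nonneg (mul_nonneg ham han)]
      apply mul_le_mul_of_nonneg_left _ (by positivity)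
      have hlm : 0 < Real.log m := Real.log_pos (by exact_mod_cast (by omega : 1 < m))
      have hln : 0 < Real.log n := Real.log_pos (by exact_mod_cast (by omega : 1 < n))
      have hd : Real.exp (-X) ≤ |Real.log m - Real.log n| := by
        rcases lt_or_gt_of_ne hmn with h | h
        · have := log_diff (X := X) (m := n) (n := m) (by omega) h (by omega)
          rw [abs_sub_comm]
          exact this.trans (le_abs_self _)
        · exact (log_diff (X := X) (by omega) h (by omega)).trans (le_abs_self _)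
      have hs : |Real.log m - Real.log n| ≤ |Real.log m + Real.log n| := by
        rw [abs_of_pos (by linarith only [hlm, hln] : 0 < Real.log m + Real.log n), abs_le]
        constructor <;> linarith
      have hE := Real.exp_pos (-X)
      have hdpos : 0 < |Real.log m - Real.log n| := lt_of_lt_of_le hE hd
      refine (int_cos_cos_sh (by rwa [← abs_pos]) (by linarith only [hlm, hln]) δ a b).trans ?_
      calc 1 / |Real.log m - Real.log n| + 1 / |Real.log m + Real.log n|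
          ≤ 1 / Real.exp (-X) + 1 / Real.exp (-X) := by
            gcongr
            exact hd.trans hs
        _ = 2 * Real.exp X := by rw [Real.exp_neg, one_div, inv_inv]; ring
  refine (Finset.abs_sum_le_sum_abs _ _).trans ?_
  refine (Finset.sum_le_sum fun m _ => Finset.abs_sum_le_sum_abs _ _).trans ?_
  calc ∑ m ∈ Finset.range (NX X + 1), ∑ n ∈ Finset.range (NX X + 1),
      |ap X m * ap X n * (∫ t in a..b, Real.cos (Real.log m * t) * Real.cos (Real.log n * (t + δ))) -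
        (if m = n then ap X m * ap X n * ((b - a) / 2 * Real.cos (δ * Real.log n)) else 0)|
      ≤ ∑ m ∈ Finset.range (NX X + 1), ∑ n ∈ Finset.range (NX X + 1),
        ((if m = n then ap X m ^ 2 else 0) + ap X m * ap X n * (2 * Real.exp X)) :=
        Finset.sum_le_sum fun m hm => Finset.sum_le_sum fun n hn => hterm m hm n hn
    _ = (∑ m ∈ Finset.range (NX X + 1), ap X m ^ 2) + (∑ m ∈ Finset.range (NX X + 1), ap X m) ^ 2 * (2 * Real.exp X) := by
        simp_rw [Finset.sum_add_distrib]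
        congr 1
        · refine Finset.sum_congr rfl fun m hm => ?_
          rw [Finset.sum_ite_eq, if_pos hm]
        · rw [sq, Finset.sum_mul_sum, Finset.sum_mul]
          refine Finset.sum_congr rfl fun m _ => ?_
          rw [Finset.sum_mul]
    _ ≤ 8 + (4 * Real.exp X) ^ 2 * (2 * Real.exp X) := by
        have h5 := sum_ap_sq hX
        have h6 := sum_ap_le hX
        have h7 : 0 ≤ ∑ m ∈ Finset.range (NX X + 1), ap X m := Finset.sum_nonneg fun m _ => ap_nonneg hX m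
        gcongr
    _ ≤ _ := by
        have : Real.exp (3 * X) = Real.exp X ^ 3 := by rw [← Real.exp_nat_mul]; norm_num
        have h8 : 1 ≤ Real.exp (3 * X) := Real.one_le_exp (by linarith only [hX])
        calc 8 + (4 * Real.exp X) ^ 2 * (2 * Real.exp X) = 8 + 32 * Real.exp (3 * X) := by rw [this]; ring
          _ ≤ _ := by linarith only [h8]

end Pool.Agent.Helper57.LS

end

/-! ### Helper57.US.Dig -/

section

namespace Pool.Agent.Helper57.US

open Complex Set MeasureTheory Filter Topology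

open Pool.Agent.Helper57.Zeta

open Pool.Agent.Helper57.LH

/-- telescoping bound -/
lemma sum_inv_add_sq {w : ℝ} (hw : 1 ≤ w) (K : ℕ) : ∑ n ∈ Finset.range K, 1 / ((n:ℝ) ^ 2 + w ^ 2) ≤ 4 / w := by
  have h1 : ∀ n : ℕ, 1 / ((n:ℝ) ^ 2 + w ^ 2) ≤ 2 * (1 / ((n:ℝ) + w - 1/2) - 1 / (((n + 1 : ℕ) : ℝ) + w - 1/2)) := by
    intro n
    have hn : (0:ℝ) ≤ n := Nat.cast_nonneg n
    have ha : 0 < (n:ℝ) + w - 1/2 := by linarith
    have hb : 0 < ((n + 1 : ℕ) : ℝ) + w - 1/2 := by push_cast; linarith only [hw]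
    have e : 2 * (1 / ((n:ℝ) + w - 1/2) - 1 / (((n + 1 : ℕ) : ℝ) + w - 1/2)) = 2 / (((n:ℝ) + w - 1/2) * (((n + 1 : ℕ) : ℝ) + w - 1/2)) := by
      have e0 : ((n + 1 : ℕ) : ℝ) + w - 1/2 = ((n:ℝ) + w - 1/2) + 1 := by push_cast; ring
      rw [e0] at hb ⊢
      generalize (n:ℝ) + w - 1/2 = p at ha hb ⊢
      field_simp
      ring
    rw [e, div_le_div_iff₀ (by positivity) (by positivity)]
    push_cast
    nlinarith only [sq_nonneg ((n:ℝ) - w)]
  have h2 : ∑ n ∈ Finset.range K, (1 / ((n:ℝ) + w - 1/2) - 1 / (((n + 1 : ℕ) : ℝ) + w - 1/2)) = 1 / (w - 1/2) - 1 / ((K:ℝ) + w - 1/2) := by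
    have := Finset.sum_range_sub' (fun n : ℕ => 1 / ((n:ℝ) + w - 1/2)) K
    simp only [Nat.cast_zero, zero_add] at this
    exact this
  have hK : 0 ≤ 1 / ((K:ℝ) + w - 1/2) := by
    have : (0:ℝ) ≤ K := Nat.cast_nonneg K
    apply one_div_nonneg.mpr; linarith only [hw]
  calc ∑ n ∈ Finset.range K, 1 / ((n:ℝ) ^ 2 + w ^ 2) ≤ ∑ n ∈ Finset.range K, 2 * (1 / ((n:ℝ) + w - 1/2) - 1 / (((n + 1 : ℕ) : ℝ) + w - 1/2)) :=
        Finset.sum_le_sum fun n _ => h1 n
    _ = 2 * (1 / (w - 1/2) - 1 / ((K:ℝ) + w - 1/2)) := by rw [← Finset.mul_sum, h2]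
    _ ≤ 2 * (1 / (w - 1/2)) := by linarith only [hK]
    _ ≤ 4 / w := by
        rw [mul_one_div, div_le_div_iff₀ (by linarith only [hw]) (by linarith only [hw])]
        linarith only [hw]

/-- one step of the comparison with the logarithm -/
lemma log_step {w : ℝ} (hw : 0 < w) (n : ℕ) :
    |(1 / 2 * Real.log (((n + 1 : ℕ) : ℝ) ^ 2 + w ^ 2) - 1 / 2 * Real.log ((n:ℝ) ^ 2 + w ^ 2)) - ((n:ℝ) + 1) / (((n:ℝ) + 1) ^ 2 + w ^ 2)| ≤ 1 / ((n:ℝ) ^ 2 + w ^ 2) := by
  have hn : (0:ℝ) ≤ n := Nat.cast_nonneg n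
  have hder : ∀ x : ℝ, HasDerivAt (fun x : ℝ => 1 / 2 * Real.log (x ^ 2 + w ^ 2)) (x / (x ^ 2 + w ^ 2)) x := by
    intro x
    have h1 : HasDerivAt (fun x : ℝ => x ^ 2 + w ^ 2) (2 * x) x := by
      have := (hasDerivAt_pow 2 x).add_const (w ^ 2)
      simpa using this
    have h2 := (h1.log (by positivity)).const_mul (1/2)
    refine h2.congr_deriv ?_
    field_simp
  obtain ⟨ξ, hξ, hξ2⟩ := exists_hasDerivAt_eq_slope (fun x : ℝ => 1 / 2 * Real.log (x ^ 2 + w ^ 2)) (fun x => x / (x ^ 2 + w ^ 2))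
    (show (n:ℝ) < (n:ℝ) + 1 by linarith) (fun x _ => (hder x).continuousAt.continuousWithinAt) (fun x _ => hder x)
  rw [show (n:ℝ) + 1 - n = 1 by ring, div_one] at hξ2
  push_cast
  rw [← hξ2]
  set k := (n:ℝ) + 1 with hk
  have hk0 : 0 < k := by rw [hk]; linarith only []
  have hξ1 : (n:ℝ) < ξ := hξ.1
  have hξk : ξ < k := hξ.2
  have e : ξ / (ξ ^ 2 + w ^ 2) - k / (k ^ 2 + w ^ 2) = (k - ξ) * (ξ * k - w ^ 2) / ((ξ ^ 2 + w ^ 2) * (k ^ 2 + w ^ 2)) := by
    field_simp
    ring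
  rw [e, abs_div, abs_mul, abs_of_pos (by positivity : 0 < (ξ ^ 2 + w ^ 2) * (k ^ 2 + w ^ 2)), abs_of_pos (by linarith only [hξk] : 0 < k - ξ)]
  have h3 : |ξ * k - w ^ 2| ≤ k ^ 2 + w ^ 2 := by
    rw [abs_le]
    constructor <;> nlinarith [sq_nonneg w, mul_nonneg (by linarith only [hξ1] : 0 ≤ ξ) hk0.le]
  have h4 : (n:ℝ) ^ 2 + w ^ 2 ≤ ξ ^ 2 + w ^ 2 := by nlinarith only [hξ1]
  have hn2 : 0 < (n:ℝ) ^ 2 + w ^ 2 := by positivity
  calc (k - ξ) * |ξ * k - w ^ 2| / ((ξ ^ 2 + w ^ 2) * (k ^ 2 + w ^ 2)) ≤ 1 * (k ^ 2 + w ^ 2) / (((n:ℝ) ^ 2 + w ^ 2) * (k ^ 2 + w ^ 2)) := by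
        gcongr
        linarith only [hξ1]
    _ = _ := by field_simp

/-- partial sums -/
lemma Dn_partial {t : ℝ} (ht : 2 ≤ t) (K : ℕ) :
    |∑ n ∈ Finset.range K, Dn n t - ((harmonic K : ℝ) - 1 / 2 * Real.log ((K:ℝ) ^ 2 + (t / 2) ^ 2) + Real.log (t / 2))| ≤ 8 / t := by
  set w := t / 2 with hw
  have hw1 : 1 ≤ w := by rw [hw]; linarith only [ht]
  have hw0 : 0 < w := by linarith only [ht, hw]
  have h1 : ∀ n : ℕ, Dn n t = 1 / ((n:ℝ) + 1) - ((n:ℝ) + 1) / (((n:ℝ) + 1) ^ 2 + w ^ 2) := by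
    intro n
    have hn : (0:ℝ) ≤ n := Nat.cast_nonneg n
    have : t = 2 * w := by rw [hw]; ring
    unfold Dn
    rw [this]
    have e : 2 * (2 * ((n:ℝ) + 1) / ((2 * ((n:ℝ) + 1)) ^ 2 + (2 * w) ^ 2)) = ((n:ℝ) + 1) / (((n:ℝ) + 1) ^ 2 + w ^ 2) := by
      field_simp
    rw [e]
  have h2 : (harmonic K : ℝ) = ∑ n ∈ Finset.range K, 1 / ((n:ℝ) + 1) := by
    unfold harmonic
    push_cast
    refine Finset.sum_congr rfl fun n _ => ?_
    rw [one_div]
  have h3 : 1 / 2 * Real.log ((K:ℝ) ^ 2 + w ^ 2) - Real.log w = ∑ n ∈ Finset.range K, (1 / 2 * Real.log (((n + 1 : ℕ) : ℝ) ^ 2 + w ^ 2) - 1 / 2 * Real.log ((n:ℝ) ^ 2 + w ^ 2)) := by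
    rw [Finset.sum_range_sub (fun n : ℕ => 1 / 2 * Real.log ((n:ℝ) ^ 2 + w ^ 2)) K]
    have : 1 / 2 * Real.log (((0:ℕ):ℝ) ^ 2 + w ^ 2) = Real.log w := by
      rw [Nat.cast_zero, zero_pow two_ne_zero, zero_add, Real.log_pow]
      push_cast
      ring
    rw [this]
  have e : ∑ n ∈ Finset.range K, Dn n t - ((harmonic K : ℝ) - 1 / 2 * Real.log ((K:ℝ) ^ 2 + w ^ 2) + Real.log w) =
      ∑ n ∈ Finset.range K, ((1 / 2 * Real.log (((n + 1 : ℕ) : ℝ) ^ 2 + w ^ 2) - 1 / 2 * Real.log ((n:ℝ) ^ 2 + w ^ 2)) - ((n:ℝ) + 1) / (((n:ℝ) + 1) ^ 2 + w ^ 2)) := by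
    rw [Finset.sum_sub_distrib, ← h3, h2]
    simp_rw [h1]
    rw [Finset.sum_sub_distrib]
    ring
  rw [e]
  refine (Finset.abs_sum_le_sum_abs _ _).trans ?_
  refine (Finset.sum_le_sum fun n _ => log_step hw0 n).trans ?_
  refine (sum_inv_add_sq hw1 K).trans (le_of_eq ?_)
  rw [hw]
  field_simp
  norm_num

lemma lim_log {w : ℝ} (hw : 0 < w) : Tendsto (fun K : ℕ => Real.log K - 1 / 2 * Real.log ((K:ℝ) ^ 2 + w ^ 2)) atTop (𝓝 0) := by
  have h1 : Tendsto (fun K : ℕ => 1 / 2 * Real.log (1 + (w / (K:ℝ)) ^ 2)) atTop (𝓝 0) := by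
    have h2 : Tendsto (fun K : ℕ => w / (K:ℝ)) atTop (𝓝 0) := tendsto_const_div_atTop_nhds_zero_nat w
    have h3 : Tendsto (fun K : ℕ => 1 + (w / (K:ℝ)) ^ 2) atTop (𝓝 (1 + 0 ^ 2)) := (h2.pow 2).const_add 1
    have h4 := (h3.log (by norm_num)).const_mul (1 / 2 : ℝ)
    simpa using h4
  have h5 := h1.neg
  rw [neg_zero] at h5
  refine h5.congr' ?_
  filter_upwards [eventually_ge_atTop 1] with K hK
  have hK0 : (0:ℝ) < K := by exact_mod_cast hK
  have e : (K:ℝ) ^ 2 + w ^ 2 = K ^ 2 * (1 + (w / (K:ℝ)) ^ 2) := by field_simp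
  rw [e, Real.log_mul (by positivity) (by positivity), Real.log_pow]
  push_cast
  ring

/-- the digamma sum, precisely -/
lemma Dn_sum_asym {t : ℝ} (ht : 2 ≤ t) : |∑' n, Dn n t - (Real.eulerMascheroniConstant + Real.log (t / 2))| ≤ 8 / t := by
  have h1 : Tendsto (fun K : ℕ => ∑ n ∈ Finset.range K, Dn n t) atTop (𝓝 (∑' n, Dn n t)) := (Dn_summable t).hasSum.tendsto_sum_nat
  have h2 := Real.tendsto_harmonic_sub_log
  have h3 := lim_log (show 0 < t / 2 by linarith)
  have h4 : Tendsto (fun K : ℕ => (harmonic K : ℝ) - 1 / 2 * Real.log ((K:ℝ) ^ 2 + (t / 2) ^ 2) + Real.log (t / 2)) atTop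
      (𝓝 (Real.eulerMascheroniConstant + Real.log (t / 2))) := by
    have h5 := (h2.add h3).add_const (Real.log (t / 2))
    rw [add_zero] at h5
    refine h5.congr fun K => ?_
    ring
  have h6 := (h1.sub h4).abs
  exact le_of_tendsto' h6 (fun K => Dn_partial ht K)

end Pool.Agent.Helper57.US

end

/-! ### Helper57.UV.MTq -/

section

namespace Pool.Agent.Helper57.UV

open Complex Set MeasureTheory Filter Topology

open Pool.Agent.Helper57.Zeta

open Pool.Agent.Helper57.LH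

open Pool.Agent.Helper57.US

/-- difference of the two main sums, termwise, all scales -/
lemma term_diff_r {X r t : ℝ} (hX0 : 0 < X) (hr : 1 ≤ r) (hrX : 1 ≤ r * X) (ht : 1 ≤ t) (n : ℕ) :
    |(1 / ((n:ℝ) + 1) - 2 * (JJ X ((3 / 2 - 2 * ((n:ℝ) + 1) : ℝ) + t * I)).re) - Dn n t| ≤ 7 * r * (1 / ((n:ℝ) ^ 2 + t ^ 2)) := by
  have hn0 : (0:ℝ) ≤ n := Nat.cast_nonneg n
  have hr0 : 0 < r := by linarith
  set b : ℝ := 2 * ((n:ℝ) + 1) - 3 / 2 with hb
  have hb0 : 0 < b := by rw [hb]; linarith only []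
  have hz : (((3 / 2 - 2 * ((n:ℝ) + 1) : ℝ) : ℂ) + t * I) = ((-b : ℝ) : ℂ) + t * I := by
    congr 2; rw [hb]; ring
  rw [hz]
  have hz0 : ((-b : ℝ) : ℂ) + t * I ≠ 0 := z_ne (by linarith only [hb0]) t
  rw [JJ_eq hX0 hz0, Complex.add_re, Complex.neg_re, one_div, one_div, Complex.inv_re, normSq_z]
  have e1 : (((-b : ℝ) : ℂ) + t * I).re = -b := by simp
  rw [e1]
  set q := ((cexp ((((-b : ℝ) : ℂ) + t * I) * X) - 1) / (X * (((-b : ℝ) : ℂ) + t * I) ^ 2)).re with hq
  have hq1 : |q| ≤ 2 * r / (b ^ 2 + t ^ 2) := by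
    rw [hq]
    refine (Complex.abs_re_le_norm _).trans ?_
    rw [norm_div, norm_mul, norm_pow, Complex.norm_real, Real.norm_of_nonneg hX0.le, ← Complex.normSq_eq_norm_sq, normSq_z, neg_sq]
    have h1 : ‖cexp ((((-b : ℝ) : ℂ) + t * I) * X) - 1‖ ≤ 2 := by
      refine (norm_sub_le _ _).trans ?_
      rw [Complex.norm_exp, norm_one]
      have : ((((-b : ℝ) : ℂ) + t * I) * X).re ≤ 0 := by
        simp
        positivity
      have := Real.exp_le_one_iff.mpr this
      linarith only [this]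
    have hP : 0 < b ^ 2 + t ^ 2 := by positivity
    calc ‖cexp ((((-b : ℝ) : ℂ) + t * I) * X) - 1‖ / (X * (b ^ 2 + t ^ 2)) ≤ 2 / (X * (b ^ 2 + t ^ 2)) := by gcongr
      _ ≤ 2 * r / (b ^ 2 + t ^ 2) := by
          rw [div_le_div_iff₀ (by positivity) hP]
          have h2 : 2 * (b ^ 2 + t ^ 2) * 1 ≤ 2 * (b ^ 2 + t ^ 2) * (r * X) := by gcongr
          linarith only [h2]
  unfold Dn
  have hab : 2 * ((n:ℝ) + 1) = b + 3 / 2 := by rw [hb]; ring
  rw [hab]
  have e2 : (((n:ℝ) + 1)⁻¹ - 2 * (-(-b / ((-b) ^ 2 + t ^ 2)) + q)) - (1 / ((n:ℝ) + 1) - 2 * ((b + 3 / 2) / ((b + 3 / 2) ^ 2 + t ^ 2))) =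
      -(3 * (b * (b + 3 / 2) - t ^ 2) / ((b ^ 2 + t ^ 2) * ((b + 3 / 2) ^ 2 + t ^ 2))) - 2 * q := by
    field_simp
    ring
  rw [e2]
  have h3 : |3 * (b * (b + 3 / 2) - t ^ 2) / ((b ^ 2 + t ^ 2) * ((b + 3 / 2) ^ 2 + t ^ 2))| ≤ 3 / (b ^ 2 + t ^ 2) := by
    rw [abs_div, abs_of_pos (by positivity : 0 < (b ^ 2 + t ^ 2) * ((b + 3 / 2) ^ 2 + t ^ 2)), div_le_div_iff₀ (by positivity) (by positivity), abs_mul,
      abs_of_pos (by norm_num : (0:ℝ) < 3)]
    have h4 : |b * (b + 3 / 2) - t ^ 2| ≤ (b + 3 / 2) ^ 2 + t ^ 2 := by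
      rw [abs_le]
      constructor <;> nlinarith only [hb0, sq_nonneg t, mul_pos hb0 hb0]
    calc 3 * |b * (b + 3 / 2) - t ^ 2| * (b ^ 2 + t ^ 2) ≤ 3 * ((b + 3 / 2) ^ 2 + t ^ 2) * (b ^ 2 + t ^ 2) := by gcongr
      _ = _ := by ring
  have h5 : 7 * r / (b ^ 2 + t ^ 2) ≤ 7 * r * (1 / ((n:ℝ) ^ 2 + t ^ 2)) := by
    rw [mul_one_div]
    gcongr
    rw [hb]; linarith only []
  have hD : 0 < b ^ 2 + t ^ 2 := by positivity
  calc |-(3 * (b * (b + 3 / 2) - t ^ 2) / ((b ^ 2 + t ^ 2) * ((b + 3 / 2) ^ 2 + t ^ 2))) - 2 * q|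
      ≤ |-(3 * (b * (b + 3 / 2) - t ^ 2) / ((b ^ 2 + t ^ 2) * ((b + 3 / 2) ^ 2 + t ^ 2)))| + |2 * q| := abs_sub _ _
    _ ≤ 3 * r / (b ^ 2 + t ^ 2) + 2 * (2 * r / (b ^ 2 + t ^ 2)) := by
        rw [abs_neg, abs_mul, abs_of_pos (by norm_num : (0:ℝ) < 2)]
        gcongr
        refine h3.trans ?_
        gcongr
        linarith only [hr]
    _ = 7 * r / (b ^ 2 + t ^ 2) := by ring
    _ ≤ _ := h5

/-- the archimedean main term at all scales -/
theorem MT_asym_r {X r t : ℝ} (hX0 : 0 < X) (hr : 1 ≤ r) (hrX : 1 ≤ r * X) (ht : 2 ≤ t) (hXt : Real.exp (X / 2) ≤ t) :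
    |MT X t - Real.log (t / (2 * Real.pi))| ≤ 50 * r / t := by
  have ht0 : 0 < t := by linarith only [ht]
  have hr0 : 0 < r := by linarith
  have hpi := Real.pi_pos
  have hXr : 1 / X ≤ r := by rw [div_le_iff₀ hX0]; exact hrX
  have hJ1 : |(JJ X ((3 / 2 - 2 : ℝ) + t * I)).re| ≤ 3 * r / t := by
    have h := JJ_re_le hX0 (z_ne (a := 3/2 - 2) (by norm_num) t)
    rw [normSq_z] at h
    refine h.trans ?_
    have e1 : (((3 / 2 - 2 : ℝ) : ℂ) + t * I).re = -(1/2) := by simp; norm_num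
    rw [e1]
    have h2 : Real.exp (-(1/2) * X) ≤ 1 := Real.exp_le_one_iff.mpr (by linarith only [hX0])
    have h3 : (Real.exp (-(1/2) * X) + 1) / X ≤ 2 * r := by
      calc (Real.exp (-(1/2) * X) + 1) / X ≤ (1 + 1) / X := by gcongr
        _ = 2 * (1 / X) := by ring
        _ ≤ 2 * r := by gcongr
    rw [abs_neg, abs_of_pos (by norm_num : (0:ℝ) < 1/2), div_le_div_iff₀ (by positivity) ht0]
    calc (1 / 2 + (Real.exp (-(1/2) * X) + 1) / X) * t ≤ (1 / 2 + 2 * r) * t := by gcongr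
      _ ≤ 3 * r * t := by
          apply mul_le_mul_of_nonneg_right _ ht0.le
          linarith only [hr]
      _ ≤ 3 * r * ((3 / 2 - 2) ^ 2 + t ^ 2) := by
          apply mul_le_mul_of_nonneg_left _ (by positivity)
          nlinarith only [ht]
  have hJ2 : |(JJ X ((3 / 2 - 1 : ℝ) + t * I)).re| ≤ 4 * r / t := by
    have h := JJ_re_le hX0 (z_ne (a := 3/2 - 1) (by norm_num) t)
    rw [normSq_z] at h
    refine h.trans ?_
    have e1 : (((3 / 2 - 1 : ℝ) : ℂ) + t * I).re = 1/2 := by simp; norm_num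
    rw [e1]
    have h2 : Real.exp (1/2 * X) ≤ t := by rw [show 1/2 * X = X / 2 by ring]; exact hXt
    have h3 : (Real.exp (1/2 * X) + 1) / X ≤ (t + 1) * r := by
      calc (Real.exp (1/2 * X) + 1) / X ≤ (t + 1) / X := by gcongr
        _ = (t + 1) * (1 / X) := by ring
        _ ≤ (t + 1) * r := by gcongr
    rw [abs_of_pos (by norm_num : (0:ℝ) < 1/2), div_le_div_iff₀ (by positivity) ht0]
    calc (1 / 2 + (Real.exp (1/2 * X) + 1) / X) * t ≤ (1 / 2 + (t + 1) * r) * t := by gcongr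
      _ ≤ (4 * r * t) * t := by
          apply mul_le_mul_of_nonneg_right _ ht0.le
          nlinarith only [hr, ht]
      _ = 4 * r * t ^ 2 := by ring
      _ ≤ 4 * r * ((3 / 2 - 1) ^ 2 + t ^ 2) := by
          apply mul_le_mul_of_nonneg_left _ (by positivity)
          nlinarith only []
  -- the sum
  set Tn : ℕ → ℝ := fun n => 1 / ((n:ℝ) + 1) - 2 * (JJ X ((3 / 2 - 2 * ((n:ℝ) + 1) : ℝ) + t * I)).re with hTn
  have hs0 : ∀ K : ℕ, ∑ n ∈ Finset.range K, 7 * r * (1 / ((n:ℝ) ^ 2 + t ^ 2)) ≤ 28 * r / t := by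
    intro K
    rw [← Finset.mul_sum]
    have := sum_inv_add_sq (w := t) (by linarith only [ht]) K
    calc 7 * r * ∑ n ∈ Finset.range K, 1 / ((n:ℝ) ^ 2 + t ^ 2) ≤ 7 * r * (4 / t) := by gcongr
      _ = _ := by ring
  have hs : Summable (fun n : ℕ => 7 * r * (1 / ((n:ℝ) ^ 2 + t ^ 2))) :=
    summable_of_sum_range_le (fun n => by positivity) hs0
  have hs28 : ∑' n : ℕ, 7 * r * (1 / ((n:ℝ) ^ 2 + t ^ 2)) ≤ 28 * r / t := Real.tsum_le_of_sum_range_le (fun n => by positivity) hs0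
  have hd : Summable (fun n => Tn n - Dn n t) := Summable.of_norm_bounded hs (fun n => by
    rw [Real.norm_eq_abs]; exact term_diff_r hX0 hr hrX (by linarith only [ht]) n)
  have hTs : Summable Tn := by
    have := hd.add (Dn_summable t)
    refine this.congr fun n => by ring
  have h1 : |∑' n, Tn n - ∑' n, Dn n t| ≤ 28 * r / t := by
    rw [← hTs.tsum_sub (Dn_summable t), ← Real.norm_eq_abs]
    refine (tsum_of_norm_bounded hs.hasSum (fun n => ?_)).trans hs28
    rw [Real.norm_eq_abs]; exact term_diff_r hX0 hr hrX (by linarith only [ht]) n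
  have h2 := Dn_sum_asym ht
  have hlog : Real.log (t / (2 * Real.pi)) = Real.log (t / 2) - Real.log Real.pi := by
    rw [← Real.log_div (by positivity) hpi.ne']
    congr 1
    field_simp
  unfold MT
  rw [hlog]
  have e : (2 * (JJ X ((3 / 2 - 2 : ℝ) + t * I)).re + 2 * (JJ X ((3 / 2 - 1 : ℝ) + t * I)).re -
      (Real.log Real.pi + Real.eulerMascheroniConstant) + ∑' n, Tn n) - (Real.log (t / 2) - Real.log Real.pi) =
      2 * (JJ X ((3 / 2 - 2 : ℝ) + t * I)).re + 2 * (JJ X ((3 / 2 - 1 : ℝ) + t * I)).re +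
      (∑' n, Tn n - ∑' n, Dn n t) + (∑' n, Dn n t - (Real.eulerMascheroniConstant + Real.log (t / 2))) := by ring
  have hTT : (∑' n : ℕ, (1 / ((n:ℝ) + 1) - 2 * (JJ X ((3 / 2 - 2 * ((n:ℝ) + 1) : ℝ) + t * I)).re)) = ∑' n, Tn n := rfl
  rw [hTT, e]
  set A1 := (JJ X ((3 / 2 - 2 : ℝ) + t * I)).re
  set A2 := (JJ X ((3 / 2 - 1 : ℝ) + t * I)).re
  have h8 : 8 / t ≤ 8 * r / t := by
    gcongr
    linarith only [hr]
  have g1 := abs_le.mp hJ1
  have g2 := abs_le.mp hJ2
  have g5 := abs_le.mp h1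
  have g6 := abs_le.mp (h2.trans h8)
  have e3 : 3 * r / t = 3 * (r / t) := by ring
  have e4 : 4 * r / t = 4 * (r / t) := by ring
  have e28 : 28 * r / t = 28 * (r / t) := by ring
  have e8 : 8 * r / t = 8 * (r / t) := by ring
  have e50 : 50 * r / t = 50 * (r / t) := by ring
  rw [e3] at g1
  rw [e4] at g2
  rw [e28] at g5
  rw [e8] at g6
  rw [e50]
  rw [abs_le]
  constructor <;> linarith only [g1, g2, g5, g6, g1.1, g1.2, g2.1, g2.2, g5.1, g5.2, g6.1, g6.2]

end Pool.Agent.Helper57.UV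

end

/-! ### Helper57.UB.Zc -/

section

namespace Pool.Agent.Helper57.UB

open Set MeasureTheory Filter Topology

open Pool.Agent.Helper57.LH

open Pool.Agent.Helper57.LS

open Pool.Agent.Helper57.UV

open scoped ArithmeticFunction

lemma cpow_norm {n : ℕ} (hn : 2 ≤ n) (σ h : ℝ) : ‖(n : ℂ) ^ (-((σ : ℂ) + h * Complex.I))‖ = (n:ℝ) ^ (-σ) := by
  rw [Complex.norm_natCast_cpow_of_pos (by omega)]
  simp

lemma cpow_re {n : ℕ} (hn : 2 ≤ n) (σ h : ℝ) : ((n : ℂ) ^ (-((σ : ℂ) + h * Complex.I))).re = (n:ℝ) ^ (-σ) * Real.cos (h * Real.log n) := by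
  have hn0 : (0:ℝ) < n := by
    have : 0 < n := by omega
    exact_mod_cast this
  have hn1 : (n : ℂ) ≠ 0 := by
    have : n ≠ 0 := by omega
    exact_mod_cast this
  rw [Complex.cpow_def_of_ne_zero hn1, ← Complex.natCast_log, Real.rpow_def_of_pos hn0]
  have e : (Real.log n : ℂ) * -((σ : ℂ) + h * Complex.I) = ((Real.log n * -σ : ℝ) : ℂ) + ((-(h * Real.log n) : ℝ) : ℂ) * Complex.I := by
    push_cast
    ring
  rw [e, Complex.exp_add, ← Complex.ofReal_exp, Complex.re_ofReal_mul, Complex.exp_ofReal_mul_I_re, Real.cos_neg]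

/-- sum of inverse squares of primes -/
noncomputable def Kp : ℝ := ∑' p : Nat.Primes, (p : ℝ) ^ (-(2:ℝ))

lemma Kp_summable : Summable (fun p : Nat.Primes => (p : ℝ) ^ (-(2:ℝ))) := Nat.Primes.summable_rpow.mpr (by norm_num)

lemma Kp_nonneg : 0 ≤ Kp := tsum_nonneg fun p => by positivity

lemma prime_cast (p : Nat.Primes) : (2:ℝ) ≤ (p : ℕ) := by exact_mod_cast p.2.two_le

lemma psum {σ : ℝ} (hσ : 1 < σ) : Summable (fun p : Nat.Primes => (p : ℝ) ^ (-σ)) := Nat.Primes.summable_rpow.mpr (by linarith)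

lemma psum_cos {σ : ℝ} (hσ : 1 < σ) (h : ℝ) : Summable (fun p : Nat.Primes => (p : ℝ) ^ (-σ) * Real.cos (h * Real.log p)) := by
  refine Summable.of_norm_bounded (psum hσ) fun p => ?_
  rw [norm_mul, Real.norm_of_nonneg (by positivity), Real.norm_eq_abs]
  exact mul_le_of_le_one_right (by positivity) (Real.abs_cos_le_one _)

lemma log_zeta {σ : ℝ} (hσ : 1 < σ) (h : ℝ) :
    |Real.log ‖riemannZeta ((σ : ℂ) + h * Complex.I)‖ - ∑' p : Nat.Primes, (p : ℝ) ^ (-σ) * Real.cos (h * Real.log p)| ≤ Kp := by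
  set s : ℂ := (σ : ℂ) + h * Complex.I with hs
  have hre : 1 < s.re := by rw [hs]; simpa using hσ
  have hz : ∀ p : Nat.Primes, ‖((p : ℕ) : ℂ) ^ (-s)‖ = (p : ℝ) ^ (-σ) := fun p => cpow_norm p.2.two_le σ h
  have hhalf : ∀ p : Nat.Primes, (p : ℝ) ^ (-σ) ≤ 1 / 2 := by
    intro p
    have h2 := prime_cast p
    calc (p : ℝ) ^ (-σ) ≤ (p : ℝ) ^ (-(1:ℝ)) := Real.rpow_le_rpow_of_exponent_le (by linarith) (by linarith)
      _ = 1 / p := by rw [Real.rpow_neg_one, one_div]
      _ ≤ 1 / 2 := by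
          apply one_div_le_one_div_of_le (by norm_num) h2
  have hsumz : Summable (fun p : Nat.Primes => ((p : ℕ) : ℂ) ^ (-s)) := by
    apply Summable.of_norm
    simp_rw [hz]
    exact psum hσ
  have hsuml : Summable (fun p : Nat.Primes => -Complex.log (1 - ((p : ℕ) : ℂ) ^ (-s))) := hsumz.clog_one_sub.neg
  have he := riemannZeta_eulerProduct_exp_log hre
  have h1 : Real.log ‖riemannZeta s‖ = (∑' p : Nat.Primes, -Complex.log (1 - ((p : ℕ) : ℂ) ^ (-s))).re := by
    rw [← he, Complex.norm_exp, Real.log_exp]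
  rw [h1, Complex.re_tsum hsuml]
  have hbd : ∀ p : Nat.Primes, ‖(-Complex.log (1 - ((p : ℕ) : ℂ) ^ (-s))).re - (p : ℝ) ^ (-σ) * Real.cos (h * Real.log p)‖ ≤ (p : ℝ) ^ (-(2:ℝ)) := by
    intro p
    have h2 := prime_cast p
    rw [← cpow_re p.2.two_le σ h, ← hs, ← Complex.sub_re, Real.norm_eq_abs]
    refine (Complex.abs_re_le_norm _).trans ?_
    set z : ℂ := ((p : ℕ) : ℂ) ^ (-s) with hzd
    have hz1 : ‖z‖ ≤ 1 / 2 := by rw [hzd, hz]; exact hhalf p
    have h3 := Complex.norm_log_one_add_sub_self_le (z := -z) (by rw [norm_neg]; linarith only [hz1])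
    rw [norm_neg, ← sub_eq_add_neg] at h3
    have e : -Complex.log (1 - z) - z = -(Complex.log (1 - z) - -z) := by ring
    rw [e, norm_neg]
    have h4 : (1 - ‖z‖)⁻¹ ≤ 2 := by
      rw [inv_le_comm₀ (by linarith only [hz1]) (by norm_num)]
      linarith only [hz1]
    have h5 : ‖z‖ ≤ (p : ℝ) ^ (-(1:ℝ)) := by
      rw [hzd, hz]
      exact Real.rpow_le_rpow_of_exponent_le (by linarith only [h2]) (by linarith only [hσ])
    calc ‖Complex.log (1 - z) - -z‖ ≤ ‖z‖ ^ 2 * (1 - ‖z‖)⁻¹ / 2 := h3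
      _ ≤ ‖z‖ ^ 2 * 2 / 2 := by gcongr
      _ = ‖z‖ ^ 2 := by ring
      _ ≤ ((p : ℝ) ^ (-(1:ℝ))) ^ 2 := by gcongr
      _ = (p : ℝ) ^ (-(2:ℝ)) := by
          rw [← Real.rpow_natCast, ← Real.rpow_mul (by linarith only [h2])]
          norm_num
  have hs1 : Summable (fun p : Nat.Primes => (-Complex.log (1 - ((p : ℕ) : ℂ) ^ (-s))).re) := (Complex.hasSum_re hsuml.hasSum).summable
  rw [← hs1.tsum_sub (psum_cos hσ h)]
  have := tsum_of_norm_bounded Kp_summable.hasSum hbd
  rwa [Real.norm_eq_abs] at this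

/-- von Mangoldt sum just to the right of 1 -/
lemma vM_right {L : ℝ} (hL : 0 < L) (M : ℕ) : ∑ n ∈ Finset.range M, Λ n / n * (n:ℝ) ^ (-(1 / L)) ≤ L + CMe := by
  have e1 : ∀ n ∈ Finset.range M, Λ n / n * (n:ℝ) ^ (-(1 / L)) = ∫ t in Ioi (0:ℝ), Λ n / n * (Ioi (Real.log n / L)).indicator (fun t => Real.exp (-t)) t := by
    intro n _
    rcases Nat.lt_or_ge n 2 with hn | hn
    · have : Λ n = 0 := by interval_cases n <;> simp
      rw [this]
      simp
    have hn2 : (2:ℝ) ≤ n := by exact_mod_cast hn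
    have hl : 0 ≤ Real.log n / L := by
      have : 0 ≤ Real.log n := Real.log_nonneg (by linarith only [hn2])
      positivity
    rw [integral_const_mul, setIntegral_indicator measurableSet_Ioi, Ioi_inter_Ioi, max_eq_right hl, integral_exp_neg_Ioi,
      Real.rpow_def_of_pos (by linarith only [hn2])]
    congr 2
    ring
  have hint : ∀ n : ℕ, IntegrableOn (fun t => Λ n / n * (Ioi (Real.log n / L)).indicator (fun t => Real.exp (-t)) t) (Ioi 0) := by
    intro n
    apply Integrable.const_mul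
    have h := integrableOn_exp_neg_Ioi 0
    exact h.indicator measurableSet_Ioi
  rw [Finset.sum_congr rfl e1, ← integral_finsetSum _ (fun n _ => hint n)]
  have hC := CMe_pos
  have hG : IntegrableOn (fun t => Real.exp (-t) * t ^ ((2:ℝ) - 1)) (Ioi 0) := Real.GammaIntegral_convergent (by norm_num)
  have hG1 : ∫ t in Ioi (0:ℝ), Real.exp (-t) * t ^ ((2:ℝ) - 1) = 1 := by
    rw [← Real.Gamma_eq_integral (by norm_num)]
    exact Real.Gamma_two
  have hi2 : IntegrableOn (fun t => L * (Real.exp (-t) * t ^ ((2:ℝ) - 1)) + CMe * Real.exp (-t)) (Ioi 0) :=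
    (hG.const_mul L).add ((integrableOn_exp_neg_Ioi 0).const_mul CMe)
  have h2 : ∫ t in Ioi (0:ℝ), ∑ n ∈ Finset.range M, Λ n / n * (Ioi (Real.log n / L)).indicator (fun t => Real.exp (-t)) t ≤
      ∫ t in Ioi (0:ℝ), (L * (Real.exp (-t) * t ^ ((2:ℝ) - 1)) + CMe * Real.exp (-t)) := by
    apply setIntegral_mono_on (integrable_finsetSum _ fun n _ => hint n) hi2 measurableSet_Ioi
    intro t ht
    have ht0 : 0 < t := ht
    have h3 : ∑ n ∈ Finset.range M, Λ n / n * (Ioi (Real.log n / L)).indicator (fun t => Real.exp (-t)) t ≤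
        Real.exp (-t) * ∑ n ∈ Finset.range (NX (t * L) + 1), Λ n / n := by
      rw [Finset.mul_sum]
      have h4 : ∑ n ∈ Finset.range M, Λ n / n * (Ioi (Real.log n / L)).indicator (fun t => Real.exp (-t)) t ≤
          ∑ n ∈ Finset.range (M + (NX (t * L) + 1)), Λ n / n * (Ioi (Real.log n / L)).indicator (fun t => Real.exp (-t)) t := by
        apply Finset.sum_le_sum_of_subset_of_nonneg
        · intro n hn
          rw [Finset.mem_range] at hn ⊢
          omega
        · intro n _ _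
          have := @ArithmeticFunction.vonMangoldt_nonneg n
          apply mul_nonneg (by positivity)
          apply indicator_nonneg
          intro x _
          exact (Real.exp_pos _).le
      refine h4.trans ?_
      have h5 : ∑ n ∈ Finset.range (M + (NX (t * L) + 1)), Λ n / n * (Ioi (Real.log n / L)).indicator (fun t => Real.exp (-t)) t =
          ∑ n ∈ Finset.range (NX (t * L) + 1), Λ n / n * (Ioi (Real.log n / L)).indicator (fun t => Real.exp (-t)) t := by
        symm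
        apply Finset.sum_subset
        · intro n hn
          rw [Finset.mem_range] at hn ⊢
          omega
        · intro n _ hn
          rw [Finset.mem_range] at hn
          have hn' : NX (t * L) < n := by omega
          have h6 : Real.exp (t * L) < n := (Nat.floor_lt (Real.exp_pos _).le).mp hn'
          have hn0 : (0:ℝ) < n := lt_trans (Real.exp_pos _) h6
          have h7 : t * L < Real.log n := by rwa [Real.lt_log_iff_exp_lt hn0]
          rw [indicator_of_notMem, mul_zero]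
          rw [mem_Ioi, not_lt, le_div_iff₀ hL]
          exact h7.le
      rw [h5]
      apply Finset.sum_le_sum
      intro n _
      have := @ArithmeticFunction.vonMangoldt_nonneg n
      rw [mul_comm (Real.exp (-t))]
      apply mul_le_mul_of_nonneg_left _ (by positivity)
      apply indicator_le_self'
      intro _ _
      exact (Real.exp_pos _).le
    have h8 := (abs_le.mp (mertens (y := t * L) (by positivity))).2
    have h9 : t ^ ((2:ℝ) - 1) = t := by
      rw [show (2:ℝ) - 1 = 1 by norm_num, Real.rpow_one]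
    rw [h9]
    calc _ ≤ Real.exp (-t) * ∑ n ∈ Finset.range (NX (t * L) + 1), Λ n / n := h3
      _ ≤ Real.exp (-t) * (t * L + CMe) := by
          gcongr
          linarith only [h8]
      _ = _ := by ring
  refine h2.trans ?_
  rw [integral_add (hG.const_mul L) ((integrableOn_exp_neg_Ioi 0).const_mul CMe), integral_const_mul, integral_const_mul, hG1, integral_exp_neg_Ioi]
  simp

/-- behaviour at the pole -/
lemma zeta_pole : ∀ᶠ L : ℝ in atTop, |Real.log ‖riemannZeta (((1 + 1 / L : ℝ) : ℂ) + (0:ℝ) * Complex.I)‖ - Real.log L| ≤ 1 := by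
  have h1 : Tendsto (fun L : ℝ => ((1 + 1 / L : ℝ) : ℂ)) atTop (𝓝[≠] 1) := by
    rw [tendsto_nhdsWithin_iff]
    constructor
    · have h0 : Tendsto (fun L : ℝ => 1 / L) atTop (𝓝 0) := by
        simp_rw [one_div]
        exact tendsto_inv_atTop_zero
      have h2 : Tendsto (fun L : ℝ => 1 + 1 / L) atTop (𝓝 (1 + 0)) := tendsto_const_nhds.add h0
      rw [add_zero] at h2
      have := (Complex.continuous_ofReal.tendsto 1).comp h2
      rw [Complex.ofReal_one] at this
      exact this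
    · filter_upwards [eventually_gt_atTop 0] with L hL
      rw [mem_compl_iff, mem_singleton_iff]
      intro h3
      have h4 : (1 + 1 / L : ℝ) = 1 := by exact_mod_cast h3
      have : 0 < 1 / L := by positivity
      linarith only [h4, this]
  have h2 := riemannZeta_residue_one.comp h1
  have h3 : Tendsto (fun L : ℝ => Real.log ‖(((1 + 1 / L : ℝ) : ℂ) - 1) * riemannZeta ((1 + 1 / L : ℝ) : ℂ)‖) atTop (𝓝 (Real.log ‖(1:ℂ)‖)) := by
    have h4 := h2.norm
    exact (Real.continuousAt_log (by simp)).tendsto.comp h4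
  rw [norm_one, Real.log_one] at h3
  have h5 : ∀ᶠ L : ℝ in atTop, |Real.log ‖(((1 + 1 / L : ℝ) : ℂ) - 1) * riemannZeta ((1 + 1 / L : ℝ) : ℂ)‖| < 1 := by
    have := h3.abs
    rw [abs_zero] at this
    exact this.eventually (gt_mem_nhds one_pos)
  filter_upwards [h5, eventually_gt_atTop 0] with L h6 hL
  have hz : riemannZeta ((1 + 1 / L : ℝ) : ℂ) ≠ 0 := by
    apply riemannZeta_ne_zero_of_one_lt_re
    rw [Complex.ofReal_re]
    have : 0 < 1 / L := by positivity
    linarith only [this]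
  have e1 : (((1 + 1 / L : ℝ) : ℂ) - 1) = ((1 / L : ℝ) : ℂ) := by push_cast; ring
  rw [e1, norm_mul, Real.log_mul (by rw [norm_ne_zero_iff]; exact_mod_cast (by positivity : (1 / L : ℝ) ≠ 0)) (norm_ne_zero_iff.mpr hz),
    Complex.norm_real, Real.norm_of_nonneg (by positivity), one_div, Real.log_inv] at h6
  have e2 : ((1 + 1 / L : ℝ) : ℂ) + (0:ℝ) * Complex.I = ((1 + 1 / L : ℝ) : ℂ) := by simp
  rw [e2]
  have e3 : Real.log ‖riemannZeta ((1 + 1 / L : ℝ) : ℂ)‖ - Real.log L = -Real.log L + Real.log ‖riemannZeta ((1 + 1 / L : ℝ) : ℂ)‖ := by ring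
  rw [e3, one_div]
  exact h6.le

end Pool.Agent.Helper57.UB

end

/-! ### Helper4.PC.Meas -/

section

namespace Pool.Agent.Helper4.PC

open Set MeasureTheory Filter Topology

open Pool.Agent.Helper57.Zeta

open Pool.Agent.Helper57.PC

open Pool.Agent.Helper57.LH (WP)

/-- rescaled ordinates -/
noncomputable def xp (T : ℝ) (ρ : ℂ) : ℝ := ρ.im * Real.log T / (2 * Real.pi)

lemma nd_eq (T : ℝ) (p : ℂ × ℂ) : nd T p = xp T p.1 - xp T p.2 := by
  unfold nd xp; ring

/-- the counting measure of the rescaled ordinates -/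
noncomputable def muT (T : ℝ) : Measure ℝ := ∑ ρ ∈ Zf T, (mult ρ : ENNReal) • Measure.dirac (xp T ρ)

lemma isFinite_smul_dirac (n : ℕ) (x : ℝ) : IsFiniteMeasure ((n : ENNReal) • Measure.dirac x) := by
  constructor
  simp

instance (T : ℝ) : IsFiniteMeasure (muT T) := by
  unfold muT
  constructor
  rw [Measure.coe_finsetSum, Finset.sum_apply]
  apply ENNReal.sum_lt_top.mpr
  intro ρ _
  exact (isFinite_smul_dirac (mult ρ) (xp T ρ)).measure_univ_lt_top

lemma integral_muT (T : ℝ) (f : ℝ → ℝ) : ∫ x, f x ∂(muT T) = ∑ ρ ∈ Zf T, (mult ρ : ℝ) * f (xp T ρ) := by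
  unfold muT
  rw [integral_finsetSum_measure]
  · apply Finset.sum_congr rfl
    intro ρ _
    rw [integral_smul_measure, integral_dirac, smul_eq_mul]
    simp
  · intro ρ _
    apply Integrable.smul_measure
    · exact integrable_dirac (by simp)
    · simp

lemma muT_real (T : ℝ) {s : Set ℝ} (hs : MeasurableSet s) : (muT T).real s = ∑ ρ ∈ Zf T, (mult ρ : ℝ) * s.indicator (fun _ => 1) (xp T ρ) := by
  rw [← integral_muT, integral_indicator hs, setIntegral_const]
  simp

lemma II_muT (T : ℝ) (φ : ℝ → ℝ) : II (muT T) (muT T) φ = WP T φ := by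
  unfold II WP
  simp_rw [integral_muT]
  rw [Finset.sum_product]
  apply Finset.sum_congr rfl
  intro ρ _
  rw [Finset.mul_sum]
  apply Finset.sum_congr rfl
  intro ρ' _
  rw [nd_eq]
  ring

end Pool.Agent.Helper4.PC

end
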