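import Mathlib

/-!
# Merged library file (short import chain), part A
-/

/-! ### Helper57.LH.Gf -/

section

open ArithmeticFunction Finset

namespace Pool.Agent.Helper57.LH

/-- `Gf d y = ∑_{m ≤ y, (m,d)=1} μ(m)/m · log(y/m)`. -/
noncomputable def Gf (d : ℕ) (y : ℝ) : ℝ :=
  ∑ m ∈ (Ioc 0 ⌊y⌋₊).filter (fun m => m.Coprime d), (moebius m : ℝ) / m * Real.log (y / m)

lemma Gf_of_lt_one (d : ℕ) {y : ℝ} (hy : y < 1) : Gf d y = 0 := by
  unfold Gf
  have : ⌊y⌋₊ = 0 := Nat.floor_eq_zero.mpr hy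
  simp [this]

lemma sum_moebius_floor {N : ℕ} (hN : 1 ≤ N) :
    ∑ m ∈ Ioc 0 N, (moebius m : ℝ) * ((N / m : ℕ) : ℝ) = 1 := by
  have h := sum_Ioc_mul_zeta_eq_sum (moebius : ArithmeticFunction ℤ) N
  rw [moebius_mul_coe_zeta] at h
  have h1 : ∑ n ∈ Ioc 0 N, (1 : ArithmeticFunction ℤ) n = 1 := by
    rw [Finset.sum_eq_single 1]
    · simp
    · intro b _ hb
      simp [one_apply, hb]
    · intro h
      exact absurd (Finset.mem_Ioc.mpr ⟨by norm_num, hN⟩) h
  rw [h1] at h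
  have h2 : ((∑ n ∈ Ioc 0 N, moebius n * ((N / n : ℕ) : ℤ) : ℤ) : ℝ) = 1 := by
    rw [← h]; simp
  rw [Int.cast_sum] at h2
  rw [← h2]
  refine sum_congr rfl fun m _ => ?_
  rw [Int.cast_mul, Int.cast_natCast]

lemma abs_sum_moebius_div {N : ℕ} (hN : 1 ≤ N) :
    |∑ m ∈ Ioc 0 N, (moebius m : ℝ) / m| ≤ 2 := by
  have hN0 : (0:ℝ) < N := by exact_mod_cast hN
  have h := sum_moebius_floor hN
  have key : |(N:ℝ) * ∑ m ∈ Ioc 0 N, (moebius m : ℝ) / m - 1| ≤ N := by
    have : (N:ℝ) * ∑ m ∈ Ioc 0 N, (moebius m : ℝ) / m - 1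
        = ∑ m ∈ Ioc 0 N, (moebius m : ℝ) * ((N:ℝ) / m - ((N / m : ℕ) : ℝ)) := by
      rw [← h, mul_sum, ← sum_sub_distrib]
      refine sum_congr rfl fun m _ => ?_
      ring
    rw [this]
    calc |∑ m ∈ Ioc 0 N, (moebius m : ℝ) * ((N:ℝ) / m - ((N / m : ℕ) : ℝ))|
        ≤ ∑ m ∈ Ioc 0 N, |(moebius m : ℝ) * ((N:ℝ) / m - ((N / m : ℕ) : ℝ))| := abs_sum_le_sum_abs _ _
      _ ≤ ∑ m ∈ Ioc 0 N, (1:ℝ) := by
          refine sum_le_sum fun m hm => ?_
          rw [abs_mul]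
          have h1 : |(moebius m : ℝ)| ≤ 1 := by
            have := abs_moebius_le_one (n := m)
            exact_mod_cast this
          have hm0 : 0 < m := (mem_Ioc.mp hm).1
          have hm0' : (0:ℝ) < m := by exact_mod_cast hm0
          have h2 : ((N / m : ℕ) : ℝ) ≤ (N:ℝ) / m := Nat.cast_div_le
          have h3 : (N:ℝ) / m < ((N / m : ℕ) : ℝ) + 1 := by
            rw [div_lt_iff₀ hm0']
            have h4 : N < (N / m + 1) * m := by
              nlinarith only [hm0, Nat.div_add_mod N m, Nat.mod_lt N hm0]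
            exact_mod_cast h4
          have h5 : |(N:ℝ) / m - ((N / m : ℕ) : ℝ)| ≤ 1 := by
            rw [abs_le]; constructor <;> linarith
          calc |(moebius m : ℝ)| * |(N:ℝ) / m - ((N / m : ℕ) : ℝ)| ≤ 1 * 1 :=
                mul_le_mul h1 h5 (abs_nonneg _) (by norm_num)
            _ = 1 := by norm_num
      _ = N := by simp
  have h6 : |(N:ℝ) * ∑ m ∈ Ioc 0 N, (moebius m : ℝ) / m| ≤ N + 1 := by
    have := abs_add_le ((N:ℝ) * ∑ m ∈ Ioc 0 N, (moebius m : ℝ) / m - 1) 1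
    simp only [sub_add_cancel, abs_one] at this
    linarith only [key, this]
  rw [abs_mul, abs_of_pos hN0] at h6
  have h7 : (1:ℝ) ≤ N := by exact_mod_cast hN
  by_contra hcon
  push Not at hcon
  nlinarith only [hN0, h6, h7, hcon]

/-- harmonic number estimate -/
lemma log_sub_harmonic {u : ℝ} (hu : 1 ≤ u) :
    |Real.log u - (harmonic ⌊u⌋₊ : ℝ) + Real.eulerMascheroniConstant| ≤ 2 / u := by
  set n := ⌊u⌋₊ with hn
  have hn1 : 1 ≤ n := (Nat.one_le_floor_iff u).mpr hu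
  have hn0 : (0:ℝ) < n := by exact_mod_cast hn1
  have hu0 : 0 < u := by linarith only [hu]
  have h1 := Real.eulerMascheroniSeq_lt_eulerMascheroniConstant n
  have h2 := Real.eulerMascheroniConstant_lt_eulerMascheroniSeq' n
  have hne : n ≠ 0 := by omega
  unfold Real.eulerMascheroniSeq at h1
  unfold Real.eulerMascheroniSeq' at h2
  rw [if_neg hne] at h2
  have hnu : (n:ℝ) ≤ u := Nat.floor_le hu0.le
  have hun : u < n + 1 := Nat.lt_floor_add_one u
  have hl1 : Real.log n ≤ Real.log u := Real.log_le_log hn0 hnu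
  have hl2 : Real.log u ≤ Real.log (n + 1) := Real.log_le_log hu0 hun.le
  have hl3 : Real.log (n + 1) - Real.log n ≤ 1 / n := by
    rw [← Real.log_div (by positivity) (by positivity)]
    have := Real.log_le_sub_one_of_pos (x := ((n:ℝ) + 1) / n) (by positivity)
    have h3 : ((n:ℝ) + 1) / n - 1 = 1 / n := by field_simp; ring
    linarith only [this, h3]
  have h4 : (1:ℝ) / n ≤ 2 / u := by
    rw [div_le_div_iff₀ hn0 hu0]
    have : (1:ℝ) ≤ n := by exact_mod_cast hn1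
    nlinarith only [hun, this]
  rw [abs_le]
  constructor <;> linarith

lemma sum_moebius_harmonic {N : ℕ} (hN : 1 ≤ N) :
    ∑ m ∈ Ioc 0 N, (moebius m : ℝ) / m * (harmonic (N / m) : ℝ) = 1 := by
  -- use sum_Ioc_mul_eq_sum_sum with f = μ/id and g = 1/id
  let f : ArithmeticFunction ℝ := ⟨fun n => (moebius n : ℝ) / n, by simp⟩
  let g : ArithmeticFunction ℝ := ⟨fun n => (n : ℝ)⁻¹, by simp⟩
  have h := sum_Ioc_mul_eq_sum_sum f g N
  have hfg : ∀ n ∈ Ioc 0 N, (f * g) n = if n = 1 then 1 else 0 := by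
    intro n hn
    have hn0 : n ≠ 0 := (mem_Ioc.mp hn).1.ne'
    rw [mul_apply]
    have : ∑ x ∈ n.divisorsAntidiagonal, f x.1 * g x.2
        = ∑ x ∈ n.divisorsAntidiagonal, (moebius x.1 : ℝ) / n := by
      refine sum_congr rfl fun x hx => ?_
      obtain ⟨hx1, hx2⟩ := Nat.mem_divisorsAntidiagonal.mp hx
      show (moebius x.1 : ℝ) / x.1 * (x.2 : ℝ)⁻¹ = _
      rw [← hx1]
      push_cast
      rw [div_mul_eq_div_div, div_eq_mul_inv (_ / _)]
    rw [this, ← sum_div]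
    have h2 : ∑ x ∈ n.divisorsAntidiagonal, (moebius x.1 : ℝ) = if n = 1 then 1 else 0 := by
      have h3 : ((moebius * (zeta : ArithmeticFunction ℤ)) n : ℤ) = (1 : ArithmeticFunction ℤ) n := by
        rw [moebius_mul_coe_zeta]
      rw [mul_apply] at h3
      have h4 := congrArg (fun z : ℤ => (z : ℝ)) h3
      simp only [one_apply] at h4
      push_cast at h4
      rw [← h4]
      refine sum_congr rfl fun x hx => ?_
      obtain ⟨hx1, hx2⟩ := Nat.mem_divisorsAntidiagonal.mp hx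
      have : x.2 ≠ 0 := by rintro h0; rw [h0] at hx1; simp at hx1; omega
      simp [natCoe_apply, zeta_apply, this]
    rw [h2]
    split_ifs with h1
    · simp [h1]
    · simp
  rw [sum_congr rfl hfg] at h
  rw [Finset.sum_ite_eq' , if_pos (Finset.mem_Ioc.mpr ⟨by norm_num, hN⟩)] at h
  rw [h]
  refine sum_congr rfl fun m hm => ?_
  congr 1
  rw [harmonic_eq_sum_Icc]
  push_cast
  rfl

lemma abs_Gf_one (y : ℝ) : |Gf 1 y| ≤ 8 := by
  rcases lt_or_ge y 1 with hy | hy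
  · rw [Gf_of_lt_one 1 hy]; norm_num
  set N := ⌊y⌋₊ with hN
  have hN1 : 1 ≤ N := (Nat.one_le_floor_iff y).mpr hy
  have hy0 : 0 < y := by linarith only [hy]
  have hfl : ∀ m : ℕ, ⌊y / m⌋₊ = N / m := fun m => Nat.floor_div_natCast y m
  have e1 : Gf 1 y = ∑ m ∈ Ioc 0 N, (moebius m : ℝ) / m *
      (Real.log (y / m) - (harmonic (N / m) : ℝ) + Real.eulerMascheroniConstant) + 1
      - Real.eulerMascheroniConstant * ∑ m ∈ Ioc 0 N, (moebius m : ℝ) / m := by
    rw [← sum_moebius_harmonic hN1, mul_sum, ← sum_add_distrib, ← sum_sub_distrib]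
    unfold Gf
    rw [← hN]
    rw [Finset.filter_true_of_mem (fun m _ => Nat.coprime_one_right m)]
    refine sum_congr rfl fun m _ => ?_
    ring
  have b1 : |∑ m ∈ Ioc 0 N, (moebius m : ℝ) / m *
      (Real.log (y / m) - (harmonic (N / m) : ℝ) + Real.eulerMascheroniConstant)| ≤ 4 := by
    calc _ ≤ ∑ m ∈ Ioc 0 N, |(moebius m : ℝ) / m *
      (Real.log (y / m) - (harmonic (N / m) : ℝ) + Real.eulerMascheroniConstant)| := abs_sum_le_sum_abs _ _
      _ ≤ ∑ m ∈ Ioc 0 N, 2 / y := by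
          refine sum_le_sum fun m hm => ?_
          obtain ⟨hm0, hmN⟩ := mem_Ioc.mp hm
          have hm0' : (0:ℝ) < m := by exact_mod_cast hm0
          have hmy : (m:ℝ) ≤ y := le_trans (by exact_mod_cast hmN) (Nat.floor_le hy0.le)
          have h1 : |(moebius m : ℝ)| ≤ 1 := by
            have := abs_moebius_le_one (n := m)
            exact_mod_cast this
          have h2 := log_sub_harmonic (u := y / m) (by rw [le_div_iff₀ hm0']; linarith only [hmy])
          rw [hfl] at h2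
          rw [abs_mul, abs_div, abs_of_pos hm0']
          calc |(moebius m : ℝ)| / m * |Real.log (y / m) - (harmonic (N / m) : ℝ) + Real.eulerMascheroniConstant|
              ≤ 1 / m * (2 / (y / m)) := by gcongr
            _ = 2 / y := by field_simp
      _ = N * (2 / y) := by simp
      _ ≤ 4 := by
          have : (N:ℝ) ≤ y := Nat.floor_le hy0.le
          rw [mul_div_assoc', div_le_iff₀ hy0]
          linarith only [hy, this]
  have b2 := abs_sum_moebius_div hN1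
  have g1 := Real.one_half_lt_eulerMascheroniConstant
  have g2 := Real.eulerMascheroniConstant_lt_two_thirds
  rw [e1]
  rw [abs_le] at b1 b2 ⊢
  constructor <;> nlinarith only [b1, b2, g1, g2]

lemma Gf_rec {d p : ℕ} (hp : p.Prime) (hpd : ¬ p ∣ d) (y : ℝ) :
    Gf (d * p) y = Gf d y + (1 / p) * Gf (d * p) (y / p) := by
  have hp0 : (0:ℝ) < p := by exact_mod_cast hp.pos
  unfold Gf
  -- split coprime to d into coprime to dp and multiples of p
  have hsplit : (Ioc 0 ⌊y⌋₊).filter (fun m => m.Coprime d)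
      = (Ioc 0 ⌊y⌋₊).filter (fun m => m.Coprime (d * p)) ∪
        ((Ioc 0 ⌊y⌋₊).filter (fun m => m.Coprime d ∧ p ∣ m)) := by
    ext m
    simp only [mem_filter, mem_union, mem_Ioc, Nat.coprime_mul_iff_right]
    constructor
    · rintro ⟨h1, h2⟩
      by_cases h : p ∣ m
      · exact Or.inr ⟨h1, h2, h⟩
      · exact Or.inl ⟨h1, h2, ((Nat.Prime.coprime_iff_not_dvd hp).mpr h).symm⟩
    · rintro (⟨h1, h2, _⟩ | ⟨h1, h2, _⟩) <;> exact ⟨h1, h2⟩
  have hdisj : Disjoint ((Ioc 0 ⌊y⌋₊).filter (fun m => m.Coprime (d * p)))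
      ((Ioc 0 ⌊y⌋₊).filter (fun m => m.Coprime d ∧ p ∣ m)) := by
    rw [Finset.disjoint_left]
    intro m hm hm'
    simp only [mem_filter, Nat.coprime_mul_iff_right] at hm hm'
    exact ((Nat.Prime.coprime_iff_not_dvd hp).mp hm.2.2.symm) hm'.2.2
  rw [hsplit, sum_union hdisj, add_assoc]
  symm
  rw [add_eq_left]
  -- image of the second sum
  have himg : ∑ m ∈ (Ioc 0 ⌊y⌋₊).filter (fun m => m.Coprime d ∧ p ∣ m),
        (moebius m : ℝ) / m * Real.log (y / m)
      = ∑ k ∈ (Ioc 0 ⌊y / p⌋₊).filter (fun k => k.Coprime d),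
        (moebius (p * k) : ℝ) / ((p * k : ℕ) : ℝ) * Real.log (y / ((p * k : ℕ) : ℝ)) := by
    symm
    apply Finset.sum_bij (fun k _ => p * k)
    · intro k hk
      simp only [mem_filter, mem_Ioc] at hk ⊢
      obtain ⟨⟨h1, h2⟩, h3⟩ := hk
      refine ⟨⟨Nat.mul_pos hp.pos h1, ?_⟩, Nat.Coprime.mul_left ((Nat.Prime.coprime_iff_not_dvd hp).mpr hpd) h3, dvd_mul_right _ _⟩
      rw [Nat.floor_div_natCast] at h2
      calc p * k ≤ p * (⌊y⌋₊ / p) := by gcongr
        _ ≤ ⌊y⌋₊ := Nat.mul_div_le _ _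
    · intro k1 _ k2 _ h
      exact Nat.eq_of_mul_eq_mul_left hp.pos h
    · intro m hm
      simp only [mem_filter, mem_Ioc] at hm
      obtain ⟨⟨h1, h2⟩, h3, k, hk⟩ := hm
      refine ⟨k, ?_, hk.symm⟩
      simp only [mem_filter, mem_Ioc]
      subst hk
      refine ⟨⟨Nat.pos_of_ne_zero (by rintro rfl; simp at h1), ?_⟩, Nat.Coprime.coprime_mul_left h3⟩
      rw [Nat.floor_div_natCast]
      rw [Nat.le_div_iff_mul_le hp.pos]
      linarith only [h2]
    · intro k hk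
      rfl
  rw [himg]
  have hsplit2 : (Ioc 0 ⌊y / p⌋₊).filter (fun k => k.Coprime (d * p))
      = ((Ioc 0 ⌊y / p⌋₊).filter (fun k => k.Coprime d)).filter (fun k => k.Coprime p) := by
    rw [Finset.filter_filter]
    ext k
    simp [Nat.coprime_mul_iff_right]
  rw [hsplit2]
  have hin : ∀ k ∈ (Ioc 0 ⌊y / p⌋₊).filter (fun k => k.Coprime d),
      0 < k ∧ k ≤ ⌊y / p⌋₊ ∧ k.Coprime d := by
    intro k hk
    simp only [mem_filter, mem_Ioc] at hk
    exact ⟨hk.1.1, hk.1.2, hk.2⟩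
  generalize (Ioc 0 ⌊y / p⌋₊).filter (fun k => k.Coprime d) = S at hin ⊢
  rw [Finset.sum_filter, mul_sum, ← sum_add_distrib]
  apply sum_eq_zero
  intro k hk
  replace hk := hin k hk
  obtain ⟨h1, h2, h3⟩ := hk
  have hk0 : (0:ℝ) < k := by exact_mod_cast h1
  split_ifs with hc
  · have hm : moebius (p * k) = - moebius k := by
      rw [isMultiplicative_moebius.map_mul_of_coprime hc.symm, moebius_apply_prime hp]
      ring
    rw [hm]
    push_cast
    have : y / (p * k) = y / p / k := by rw [div_div]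
    rw [this]
    field_simp
    ring
  · have hpk : p ∣ k := by
      by_contra h
      exact hc ((Nat.Prime.coprime_iff_not_dvd hp).mpr h).symm
    have : ¬ Squarefree (p * k) := by
      intro hsq
      obtain ⟨j, rfl⟩ := hpk
      have := hsq p (by use j; ring)
      exact hp.one_lt.ne' (Nat.isUnit_iff.mp this)
    rw [moebius_eq_zero_of_not_squarefree this]
    simp

end Pool.Agent.Helper57.LH

end

/-! ### Helper57.LH.Gf2 -/

section

open ArithmeticFunction Finset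

namespace Pool.Agent.Helper57.LH

/-- `kap d = ∏_{p | d} (1-1/p)⁻¹`. -/
noncomputable def kap (d : ℕ) : ℝ := ∏ p ∈ d.primeFactors, (1 - 1 / (p : ℝ))⁻¹

lemma kap_factor_pos {p : ℕ} (hp : p.Prime) : (0:ℝ) < 1 - 1 / (p : ℝ) := by
  have : (2:ℝ) ≤ p := by exact_mod_cast hp.two_le
  have : 1 / (p:ℝ) ≤ 1 / 2 := one_div_le_one_div_of_le (by norm_num) this
  linarith

lemma kap_pos (d : ℕ) : 0 < kap d :=
  prod_pos fun p hp => inv_pos.mpr (kap_factor_pos (Nat.prime_of_mem_primeFactors hp))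

lemma Gf_step {d p : ℕ} (hp : p.Prime) (hpd : ¬ p ∣ d) {C : ℝ} (hC : ∀ y, |Gf d y| ≤ C) (y : ℝ) :
    |Gf (d * p) y| ≤ C * (1 - 1 / (p : ℝ))⁻¹ := by
  have hpos := kap_factor_pos hp
  have hC0 : 0 ≤ C := (abs_nonneg _).trans (hC 0)
  have hp2 : (2:ℝ) ≤ p := by exact_mod_cast hp.two_le
  have key : ∀ n : ℕ, ∀ y : ℝ, y < 2 ^ n → |Gf (d * p) y| ≤ C * (1 - 1 / (p : ℝ))⁻¹ := by
    intro n
    induction n with
    | zero =>
      intro y hy
      rw [Gf_of_lt_one _ (by simpa using hy)]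
      simp only [abs_zero]
      positivity
    | succ n ih =>
      intro y hy
      rcases lt_or_ge y 1 with h1 | h1
      · rw [Gf_of_lt_one _ h1]
        simp only [abs_zero]
        positivity
      · rw [Gf_rec hp hpd y]
        have h2 : y / p < 2 ^ n := by
          rw [div_lt_iff₀ (by linarith only [hp2])]
          calc y < 2 ^ (n + 1) := hy
            _ = 2 ^ n * 2 := by ring
            _ ≤ 2 ^ n * p := by gcongr
        have h3 := ih (y / p) h2
        have h4 := hC y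
        calc |Gf d y + 1 / (p:ℝ) * Gf (d * p) (y / p)|
            ≤ |Gf d y| + |1 / (p:ℝ) * Gf (d * p) (y / p)| := abs_add_le _ _
          _ = |Gf d y| + 1 / (p:ℝ) * |Gf (d * p) (y / p)| := by
              rw [abs_mul, abs_of_pos (a := 1 / (p:ℝ)) (by positivity)]
          _ ≤ C + 1 / (p:ℝ) * (C * (1 - 1 / (p : ℝ))⁻¹) := by gcongr
          _ = C * (1 - 1 / (p : ℝ))⁻¹ := by
              have hq : (1 - 1 / (p:ℝ)) * (1 - 1 / (p:ℝ))⁻¹ = 1 := mul_inv_cancel₀ hpos.ne'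
              linear_combination (-C) * hq
  obtain ⟨n, hn⟩ := pow_unbounded_of_one_lt y (one_lt_two)
  exact key n y hn

lemma abs_Gf_prod (S : Finset ℕ) (hS : ∀ p ∈ S, p.Prime) (y : ℝ) :
    |Gf (∏ p ∈ S, p) y| ≤ 8 * ∏ p ∈ S, (1 - 1 / (p : ℝ))⁻¹ := by
  induction S using Finset.induction generalizing y with
  | empty => simpa using abs_Gf_one y
  | insert p S hp ih =>
    rw [prod_insert hp, prod_insert hp, mul_comm p]
    have hpp := hS p (mem_insert_self _ _)
    have hS' : ∀ q ∈ S, q.Prime := fun q hq => hS q (mem_insert_of_mem hq)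
    have hnd : ¬ p ∣ ∏ q ∈ S, q := by
      intro h
      obtain ⟨q, hq, hpq⟩ := (Prime.dvd_finsetProd_iff (Nat.prime_iff.mp hpp) _).mp h
      have := (Nat.prime_dvd_prime_iff_eq hpp (hS' q hq)).mp hpq
      exact hp (this ▸ hq)
    have := Gf_step hpp hnd (fun y => ih hS' y) y
    calc _ ≤ _ := this
      _ = _ := by ring

lemma abs_Gf_le {d : ℕ} (hd : Squarefree d) (y : ℝ) : |Gf d y| ≤ 8 * kap d := by
  have := abs_Gf_prod d.primeFactors (fun p hp => Nat.prime_of_mem_primeFactors hp) y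
  rwa [Nat.prod_primeFactors_of_squarefree hd] at this

/-- weight identity -/
lemma W_identity (ε L t : ℝ) :
    Real.exp (-ε * t) * (L - t) = Real.exp (-ε * L) * (L - t) +
      ∫ u in t..L, Real.exp (-ε * u) * (2 * ε + ε ^ 2 * (L - u)) * (u - t) := by
  have h : ∫ u in t..L, Real.exp (-ε * u) * (2 * ε + ε ^ 2 * (L - u)) * (u - t)
      = (-Real.exp (-ε * L) * (1 + ε * (L - L)) * (L - t) - Real.exp (-ε * L) * (L - L))
        - (-Real.exp (-ε * t) * (1 + ε * (L - t)) * (t - t) - Real.exp (-ε * t) * (L - t)) := by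
    refine intervalIntegral.integral_eq_sub_of_hasDerivAt
      (f := fun u => -Real.exp (-ε * u) * (1 + ε * (L - u)) * (u - t) - Real.exp (-ε * u) * (L - u)) ?_ ?_
    · intro u _
      have h1 : HasDerivAt (fun u : ℝ => Real.exp (-ε * u)) (Real.exp (-ε * u) * (-ε)) u := by
        have : HasDerivAt (fun u : ℝ => -ε * u) (-ε) u := by
          simpa using (hasDerivAt_id u).const_mul (-ε)
        exact this.exp
      have h2 : HasDerivAt (fun u : ℝ => L - u) (-1) u := by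
        simpa using (hasDerivAt_id u).const_sub L
      have h3 : HasDerivAt (fun u : ℝ => 1 + ε * (L - u)) (ε * (-1)) u := (h2.const_mul ε).const_add 1
      have h4 : HasDerivAt (fun u : ℝ => u - t) 1 u := (hasDerivAt_id u).sub_const t
      have h5 := ((h1.neg.mul h3).mul h4).sub (h1.mul h2)
      refine h5.congr_deriv ?_
      simp only [Pi.mul_apply, Pi.neg_apply]
      ring
    · apply Continuous.intervalIntegrable
      fun_prop
  rw [h]
  simp only [sub_self, mul_zero, add_zero, mul_one, zero_sub]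
  ring

lemma twisted_bound {d : ℕ} (hd : Squarefree d) {ε Y : ℝ} (hε : 0 ≤ ε) (hY : 1 ≤ Y)
    (hεY : ε * Real.log Y ≤ 1) :
    |∑ m ∈ (Ioc 0 ⌊Y⌋₊).filter (fun m => m.Coprime d),
      (moebius m : ℝ) / m * (Real.exp (-ε * Real.log m) * Real.log (Y / m))| ≤ 32 * kap d := by
  set L := Real.log Y with hL
  have hY0 : 0 < Y := by linarith
  have hL0 : 0 ≤ L := Real.log_nonneg hY
  set S := (Ioc 0 ⌊Y⌋₊).filter (fun m => m.Coprime d) with hS
  have hmem : ∀ m ∈ S, (0:ℝ) < m ∧ 0 ≤ Real.log m ∧ Real.log m ≤ L := by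
    intro m hm
    simp only [hS, mem_filter, mem_Ioc] at hm
    have h1 : (0:ℝ) < m := by exact_mod_cast hm.1.1
    have h2 : (1:ℝ) ≤ m := by exact_mod_cast hm.1.1
    have h3 : (m:ℝ) ≤ Y := (Nat.le_floor_iff hY0.le).mp hm.1.2
    exact ⟨h1, Real.log_nonneg h2, Real.log_le_log h1 h3⟩
  -- rewrite each term
  have hterm : ∀ m ∈ S, (moebius m : ℝ) / m * (Real.exp (-ε * Real.log m) * Real.log (Y / m))
      = Real.exp (-ε * L) * ((moebius m : ℝ) / m * Real.log (Y / m)) +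
        ∫ u in (0:ℝ)..L, Real.exp (-ε * u) * (2 * ε + ε ^ 2 * (L - u)) *
          ((moebius m : ℝ) / m * max (u - Real.log m) 0) := by
    intro m hm
    obtain ⟨h1, h2, h3⟩ := hmem m hm
    have e1 : Real.log (Y / m) = L - Real.log m := by rw [Real.log_div hY0.ne' h1.ne']
    have e2 := W_identity ε L (Real.log m)
    have e3 : ∫ u in (0:ℝ)..L, Real.exp (-ε * u) * (2 * ε + ε ^ 2 * (L - u)) *
          ((moebius m : ℝ) / m * max (u - Real.log m) 0)
        = (moebius m : ℝ) / m * ∫ u in (Real.log m)..L,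
          Real.exp (-ε * u) * (2 * ε + ε ^ 2 * (L - u)) * (u - Real.log m) := by
      rw [← intervalIntegral.integral_add_adjacent_intervals (b := Real.log m)]
      · have z : ∫ u in (0:ℝ)..(Real.log m), Real.exp (-ε * u) * (2 * ε + ε ^ 2 * (L - u)) *
          ((moebius m : ℝ) / m * max (u - Real.log m) 0) = 0 := by
          rw [intervalIntegral.integral_zero_ae]
          refine Filter.Eventually.of_forall fun u hu => ?_
          rw [Set.uIoc_of_le h2] at hu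
          rw [max_eq_right (by linarith only [hu, hu.2])]
          ring
        rw [z, zero_add, ← intervalIntegral.integral_const_mul]
        apply intervalIntegral.integral_congr
        intro u hu
        rw [Set.uIcc_of_le h3] at hu
        simp only
        rw [max_eq_left (by linarith only [hu, hu.1])]
        ring
      · apply Continuous.intervalIntegrable; fun_prop
      · apply Continuous.intervalIntegrable; fun_prop
    rw [e3, e1, e2]
    ring
  rw [sum_congr rfl hterm, sum_add_distrib, ← mul_sum]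
  rw [← intervalIntegral.integral_finsetSum (fun m _ => by apply Continuous.intervalIntegrable; fun_prop)]
  have hG1 : ∑ m ∈ S, (moebius m : ℝ) / m * Real.log (Y / m) = Gf d Y := rfl
  have hG2 : ∀ u ∈ Set.uIcc 0 L, ∑ m ∈ S, Real.exp (-ε * u) * (2 * ε + ε ^ 2 * (L - u)) *
          ((moebius m : ℝ) / m * max (u - Real.log m) 0)
      = Real.exp (-ε * u) * (2 * ε + ε ^ 2 * (L - u)) * Gf d (Real.exp u) := by
    intro u hu
    rw [Set.uIcc_of_le hL0] at hu
    rw [← mul_sum]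
    congr 1
    unfold Gf
    have hsub : (Ioc 0 ⌊Real.exp u⌋₊).filter (fun m => m.Coprime d) ⊆ S := by
      intro m hm
      simp only [hS, mem_filter, mem_Ioc] at hm ⊢
      refine ⟨⟨hm.1.1, hm.1.2.trans (Nat.floor_le_floor ?_)⟩, hm.2⟩
      calc Real.exp u ≤ Real.exp L := Real.exp_le_exp.mpr hu.2
        _ = Y := Real.exp_log hY0
    rw [← Finset.sum_subset hsub]
    · refine sum_congr rfl fun m hm => ?_
      simp only [mem_filter, mem_Ioc] at hm
      have h1 : (0:ℝ) < m := by exact_mod_cast hm.1.1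
      have h2 : (m:ℝ) ≤ Real.exp u := (Nat.le_floor_iff (Real.exp_pos u).le).mp hm.1.2
      have h3 : Real.log m ≤ u := by
        rw [← Real.log_exp u]; exact Real.log_le_log h1 h2
      rw [Real.log_div (Real.exp_pos u).ne' h1.ne', Real.log_exp, max_eq_left (by linarith only [h3])]
    · intro m hm hm'
      have h0 := hmem m hm
      simp only [hS, mem_filter, mem_Ioc] at hm
      simp only [mem_filter, mem_Ioc, not_and] at hm'
      have h4 : ¬ (m ≤ ⌊Real.exp u⌋₊) := fun h => (hm' ⟨hm.1.1, h⟩) hm.2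
      rw [Nat.le_floor_iff (Real.exp_pos u).le] at h4
      have h5 : u < Real.log m := by
        rw [Real.lt_log_iff_exp_lt h0.1]; exact lt_of_not_ge h4
      rw [max_eq_right (by linarith only [h5])]
      ring
  rw [intervalIntegral.integral_congr hG2, hG1]
  have hb1 : |Real.exp (-ε * L) * Gf d Y| ≤ 8 * kap d := by
    rw [abs_mul, abs_of_pos (Real.exp_pos _)]
    have : Real.exp (-ε * L) ≤ 1 := by
      rw [Real.exp_le_one_iff]; nlinarith only [hε, hL0]
    calc Real.exp (-ε * L) * |Gf d Y| ≤ 1 * (8 * kap d) := by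
          gcongr
          exact abs_Gf_le hd Y
      _ = _ := one_mul _
  have hb2 : |∫ u in (0:ℝ)..L, Real.exp (-ε * u) * (2 * ε + ε ^ 2 * (L - u)) * Gf d (Real.exp u)|
      ≤ 24 * kap d := by
    have h1 : ∀ u ∈ Set.uIoc 0 L, ‖Real.exp (-ε * u) * (2 * ε + ε ^ 2 * (L - u)) * Gf d (Real.exp u)‖
        ≤ (2 * ε + ε ^ 2 * L) * (8 * kap d) := by
      intro u hu
      rw [Set.uIoc_of_le hL0] at hu
      rw [Real.norm_eq_abs, abs_mul, abs_mul, abs_of_pos (Real.exp_pos _)]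
      have hh : 0 ≤ 2 * ε + ε ^ 2 * (L - u) := by nlinarith only [hε, hu, hu.2, sq_nonneg ε]
      rw [abs_of_nonneg hh]
      have h2 : Real.exp (-ε * u) ≤ 1 := by
        rw [Real.exp_le_one_iff]; nlinarith only [hε, hu, hu.1]
      have h3 : 2 * ε + ε ^ 2 * (L - u) ≤ 2 * ε + ε ^ 2 * L := by nlinarith only [hu, hu.1, sq_nonneg ε]
      calc Real.exp (-ε * u) * (2 * ε + ε ^ 2 * (L - u)) * |Gf d (Real.exp u)|
          ≤ 1 * (2 * ε + ε ^ 2 * L) * (8 * kap d) := by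
            gcongr
            exact abs_Gf_le hd _
        _ = _ := by ring
    have h2 := intervalIntegral.norm_integral_le_of_norm_le_const h1
    rw [Real.norm_eq_abs, sub_zero, abs_of_nonneg hL0] at h2
    have h3 : (2 * ε + ε ^ 2 * L) * L ≤ 3 := by
      have : 0 ≤ ε * L := by positivity
      nlinarith only [hεY, this]
    have hk := kap_pos d
    calc _ ≤ _ := h2
      _ = (2 * ε + ε ^ 2 * L) * L * (8 * kap d) := by ring
      _ ≤ 3 * (8 * kap d) := by gcongr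
      _ = _ := by ring
  calc _ ≤ |Real.exp (-ε * L) * Gf d Y| + _ := abs_add_le _ _
    _ ≤ 8 * kap d + 24 * kap d := add_le_add hb1 hb2
    _ = _ := by ring

end Pool.Agent.Helper57.LH

end

/-! ### Helper57.LH.Kap -/

section

open ArithmeticFunction Finset

namespace Pool.Agent.Helper57.LH

lemma sum_divisors_prod {n : ℕ} (hn : Squarefree n) (f : ℕ → ℝ) :
    ∏ p ∈ n.primeFactors, (1 + f p) = ∑ d ∈ n.divisors, ∏ p ∈ d.primeFactors, f p := by
  have h := (IsMultiplicative.prodPrimeFactors f).prodPrimeFactors_one_add_of_squarefree hn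
  have h1 : ∏ p ∈ n.primeFactors, (1 + f p)
      = ∏ p ∈ n.primeFactors, (1 + (prodPrimeFactors f) p) := by
    refine prod_congr rfl fun p hp => ?_
    have hpp := Nat.prime_of_mem_primeFactors hp
    rw [prodPrimeFactors_apply hpp.ne_zero, hpp.primeFactors, prod_singleton]
  rw [h1, h]
  refine sum_congr rfl fun d hd => ?_
  rw [prodPrimeFactors_apply (Nat.pos_of_mem_divisors hd).ne']

/-- the local factor -/
noncomputable def gp (p : ℕ) : ℝ := (2 * p - 1) / ((p:ℝ) - 1) ^ 2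

lemma gp_nonneg {p : ℕ} (hp : p.Prime) : 0 ≤ gp p := by
  have : (2:ℝ) ≤ p := by exact_mod_cast hp.two_le
  unfold gp
  apply div_nonneg (by linarith only [this]) (sq_nonneg _)

lemma gp_div_le {p : ℕ} (hp : p.Prime) : gp p / p ≤ 6 / (p:ℝ) ^ 2 := by
  have h2 : (2:ℝ) ≤ p := by exact_mod_cast hp.two_le
  unfold gp
  have h1 : (0:ℝ) < p - 1 := by linarith
  rw [div_div, div_le_div_iff₀ (by positivity) (by positivity)]
  nlinarith only [h2, mul_nonneg (mul_nonneg (show (0:ℝ) ≤ p by linarith) (show (0:ℝ) ≤ p - 2 by linarith)) (show (0:ℝ) ≤ 4 * p - 3 by linarith)]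

lemma kap_sq {q : ℕ} (hq : Squarefree q) : kap q ^ 2 = ∑ d ∈ q.divisors, ∏ p ∈ d.primeFactors, gp p := by
  rw [← sum_divisors_prod hq]
  unfold kap
  rw [← prod_pow]
  refine prod_congr rfl fun p hp => ?_
  have hpp := Nat.prime_of_mem_primeFactors hp
  have h2 : (2:ℝ) ≤ p := by exact_mod_cast hpp.two_le
  have h1 : ((p:ℝ) - 1) ≠ 0 := by intro h; linarith
  have h0 : (p:ℝ) ≠ 0 := by intro h; linarith
  unfold gp
  have : (1 - 1 / (p:ℝ)) = (p - 1) / p := by field_simp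
  rw [this]
  field_simp
  ring

lemma sum_inv_le {N : ℕ} (hN : 1 ≤ N) : ∑ n ∈ Ioc 0 N, (1:ℝ) / n ≤ 1 + Real.log N := by
  have h := harmonic_le_one_add_log N
  rw [harmonic_eq_sum_Icc] at h
  push_cast at h
  have : Ioc 0 N = Icc 1 N := rfl
  rw [this]
  simpa [one_div] using h

lemma sum_mult_inv_le {N d : ℕ} (hd : 1 ≤ d) (hN : 1 ≤ N) :
    ∑ q ∈ (Ioc 0 N).filter (fun q => d ∣ q), (1:ℝ) / q ≤ (1 / d) * (1 + Real.log N) := by
  have hd0 : (0:ℝ) < d := by exact_mod_cast hd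
  have h1 : ∑ q ∈ (Ioc 0 N).filter (fun q => d ∣ q), (1:ℝ) / q
      = ∑ m ∈ Ioc 0 (N / d), (1:ℝ) / ((d * m : ℕ) : ℝ) := by
    symm
    apply Finset.sum_bij (fun m _ => d * m)
    · intro m hm
      simp only [mem_filter, mem_Ioc] at hm ⊢
      refine ⟨⟨Nat.mul_pos (by omega) hm.1, ?_⟩, dvd_mul_right _ _⟩
      calc d * m ≤ d * (N / d) := by gcongr; exact hm.2
        _ ≤ N := Nat.mul_div_le _ _
    · intro a _ b _ h
      exact Nat.eq_of_mul_eq_mul_left (by omega) h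
    · intro q hq
      simp only [mem_filter, mem_Ioc] at hq
      obtain ⟨⟨h1, h2⟩, m, rfl⟩ := hq
      refine ⟨m, ?_, rfl⟩
      rw [mem_Ioc]
      refine ⟨Nat.pos_of_ne_zero (by rintro rfl; simp at h1), ?_⟩
      rw [Nat.le_div_iff_mul_le (by omega)]
      linarith only [h2]
    · intro m _; rfl
  rw [h1]
  have h2 : ∑ m ∈ Ioc 0 (N / d), (1:ℝ) / ((d * m : ℕ) : ℝ) = (1 / d) * ∑ m ∈ Ioc 0 (N / d), (1:ℝ) / m := by
    rw [mul_sum]
    refine sum_congr rfl fun m _ => ?_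
    push_cast
    rw [one_div_mul_one_div]
  rw [h2]
  gcongr
  calc ∑ m ∈ Ioc 0 (N / d), (1:ℝ) / m ≤ ∑ m ∈ Ioc 0 N, (1:ℝ) / m := by
        apply sum_le_sum_of_subset_of_nonneg
        · exact Ioc_subset_Ioc_right (Nat.div_le_self _ _)
        · intros; positivity
    _ ≤ _ := sum_inv_le hN

lemma sum_sq_inv_le (N : ℕ) : ∑ n ∈ Ioc 1 N, (1:ℝ) / (n:ℝ) ^ 2 ≤ 1 := by
  have h : ∀ N : ℕ, ∑ n ∈ Ioc 1 N, (1:ℝ) / (n:ℝ) ^ 2 ≤ 1 - 1 / (max N 1 : ℕ) := by
    intro N
    induction N with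
    | zero => simp
    | succ N ih =>
      rcases Nat.eq_zero_or_pos N with h0 | h0
      · subst h0; simp
      · rw [Finset.sum_Ioc_succ_top (by omega)]
        have e1 : max N 1 = N := by omega
        have e2 : max (N + 1) 1 = N + 1 := by omega
        rw [e1] at ih
        rw [e2]
        have hN : (0:ℝ) < N := by exact_mod_cast h0
        have : (1:ℝ) / ((N + 1 : ℕ) : ℝ) ^ 2 ≤ 1 / N - 1 / ((N + 1 : ℕ) : ℝ) := by
          push_cast
          rw [div_sub_div _ _ hN.ne' (by positivity), div_le_div_iff₀ (by positivity) (by positivity)]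
          nlinarith only [hN]
        linarith only [ih, this]
  refine (h N).trans ?_
  have : (0:ℝ) ≤ 1 / (max N 1 : ℕ) := by positivity
  linarith

lemma sum_prod_gp_le (N : ℕ) :
    ∑ d ∈ (Ioc 0 N).filter Squarefree, (∏ p ∈ d.primeFactors, gp p) / d ≤ Real.exp 6 := by
  have hterm : ∀ d ∈ (Ioc 0 N).filter Squarefree, (∏ p ∈ d.primeFactors, gp p) / (d:ℝ)
      = ∏ p ∈ d.primeFactors, (gp p / p) := by
    intro d hd
    rw [mem_filter] at hd
    rw [prod_div_distrib]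
    congr 1
    have := Nat.prod_primeFactors_of_squarefree hd.2
    conv_lhs => rw [← this]
    push_cast
    rfl
  rw [sum_congr rfl hterm]
  set P := (Ioc 1 N).filter Nat.Prime with hP
  have h1 : ∑ d ∈ (Ioc 0 N).filter Squarefree, ∏ p ∈ d.primeFactors, (gp p / p)
      ≤ ∑ S ∈ P.powerset, ∏ p ∈ S, (gp p / p) := by
    have hinj : Set.InjOn Nat.primeFactors ((Ioc 0 N).filter Squarefree : Finset ℕ) := by
      intro a ha b hb hab
      simp only [coe_filter, mem_Ioc, Set.mem_ofPred_eq] at ha hb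
      rw [← Nat.prod_primeFactors_of_squarefree ha.2, ← Nat.prod_primeFactors_of_squarefree hb.2, hab]
    rw [← Finset.sum_image (f := fun S : Finset ℕ => ∏ p ∈ S, (gp p / (p:ℝ))) hinj]
    apply sum_le_sum_of_subset_of_nonneg
    · intro S hS
      simp only [mem_image, mem_filter, mem_Ioc] at hS
      obtain ⟨d, ⟨⟨hd0, hdN⟩, hd⟩, rfl⟩ := hS
      rw [mem_powerset]
      intro p hp
      have hpp := Nat.prime_of_mem_primeFactors hp
      rw [hP, mem_filter, mem_Ioc]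
      exact ⟨⟨hpp.one_lt, (Nat.le_of_mem_primeFactors hp).trans hdN⟩, hpp⟩
    · intro S hS _
      apply prod_nonneg
      intro p hp
      have : p ∈ P := mem_powerset.mp hS hp
      rw [hP, mem_filter] at this
      exact div_nonneg (gp_nonneg this.2) (Nat.cast_nonneg _)
  refine h1.trans ?_
  rw [← prod_one_add]
  calc ∏ p ∈ P, (1 + gp p / p) ≤ ∏ p ∈ P, Real.exp (6 / (p:ℝ) ^ 2) := by
        apply prod_le_prod
        · intro p hp
          rw [hP, mem_filter] at hp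
          have := div_nonneg (gp_nonneg hp.2) (Nat.cast_nonneg (α := ℝ) p)
          linarith only [this]
        · intro p hp
          rw [hP, mem_filter] at hp
          have h2 := gp_div_le hp.2
          have h3 := Real.add_one_le_exp (6 / (p:ℝ) ^ 2)
          linarith only [h2, h3]
    _ = Real.exp (∑ p ∈ P, 6 / (p:ℝ) ^ 2) := (Real.exp_sum _ _).symm
    _ ≤ Real.exp 6 := by
        apply Real.exp_le_exp.mpr
        calc ∑ p ∈ P, 6 / (p:ℝ) ^ 2 ≤ ∑ n ∈ Ioc 1 N, 6 / (n:ℝ) ^ 2 := by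
              apply sum_le_sum_of_subset_of_nonneg (filter_subset _ _)
              intros; positivity
          _ = 6 * ∑ n ∈ Ioc 1 N, 1 / (n:ℝ) ^ 2 := by
              rw [mul_sum]; refine sum_congr rfl fun n _ => by ring
          _ ≤ 6 * 1 := by gcongr; exact sum_sq_inv_le N
          _ = 6 := by norm_num

lemma sum_kap_sq {N : ℕ} (hN : 1 ≤ N) :
    ∑ q ∈ (Ioc 0 N).filter Squarefree, kap q ^ 2 / q ≤ Real.exp 6 * (1 + Real.log N) := by
  have hG : ∀ d : ℕ, 0 ≤ ∏ p ∈ d.primeFactors, gp p := fun d =>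
    prod_nonneg fun p hp => gp_nonneg (Nat.prime_of_mem_primeFactors hp)
  calc ∑ q ∈ (Ioc 0 N).filter Squarefree, kap q ^ 2 / q
      = ∑ q ∈ (Ioc 0 N).filter Squarefree, ∑ d ∈ (Ioc 0 N).filter Squarefree,
          (if d ∣ q then (∏ p ∈ d.primeFactors, gp p) * (1 / q) else 0) := by
        refine sum_congr rfl fun q hq => ?_
        rw [mem_filter, mem_Ioc] at hq
        rw [kap_sq hq.2, sum_div, ← sum_filter]
        have : q.divisors = ((Ioc 0 N).filter Squarefree).filter (fun d => d ∣ q) := by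
          ext d
          simp only [Nat.mem_divisors, mem_filter, mem_Ioc]
          constructor
          · rintro ⟨h1, h2⟩
            exact ⟨⟨⟨Nat.pos_of_dvd_of_pos h1 hq.1.1, (Nat.le_of_dvd hq.1.1 h1).trans hq.1.2⟩,
              hq.2.squarefree_of_dvd h1⟩, h1⟩
          · rintro ⟨_, h⟩
            exact ⟨h, hq.2.ne_zero⟩
        rw [this]
        refine sum_congr rfl fun d _ => by ring
    _ = ∑ d ∈ (Ioc 0 N).filter Squarefree, (∏ p ∈ d.primeFactors, gp p) *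
          ∑ q ∈ ((Ioc 0 N).filter Squarefree).filter (fun q => d ∣ q), (1:ℝ) / q := by
        rw [sum_comm]
        refine sum_congr rfl fun d _ => ?_
        rw [mul_sum, ← sum_filter]
    _ ≤ ∑ d ∈ (Ioc 0 N).filter Squarefree, (∏ p ∈ d.primeFactors, gp p) * ((1 / d) * (1 + Real.log N)) := by
        refine sum_le_sum fun d hd => ?_
        rw [mem_filter, mem_Ioc] at hd
        apply mul_le_mul_of_nonneg_left _ (hG d)
        refine le_trans ?_ (sum_mult_inv_le (d := d) (by omega) hN)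
        apply sum_le_sum_of_subset_of_nonneg
        · rw [filter_filter]
          intro q hq
          simp only [mem_filter] at hq ⊢
          exact ⟨hq.1, hq.2.2⟩
        · intros; positivity
    _ = (∑ d ∈ (Ioc 0 N).filter Squarefree, (∏ p ∈ d.primeFactors, gp p) / d) * (1 + Real.log N) := by
        rw [sum_mul]
        refine sum_congr rfl fun d _ => by ring
    _ ≤ _ := by
        have : 0 ≤ 1 + Real.log N := by
          have := Real.log_nonneg (show (1:ℝ) ≤ N by exact_mod_cast hN)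
          linarith only [this]
        gcongr
        exact sum_prod_gp_le N

end Pool.Agent.Helper57.LH

end

/-! ### Helper57.LH.Moll -/

section

open ArithmeticFunction Finset

namespace Pool.Agent.Helper57.LH

/-- `h^{-1-ε}` -/
noncomputable def ew (ε : ℝ) (h : ℕ) : ℝ := Real.exp (-(1 + ε) * Real.log h)

lemma ew_pos (ε : ℝ) (h : ℕ) : 0 < ew ε h := Real.exp_pos _

lemma ew_mul (ε : ℝ) {h k : ℕ} (hh : h ≠ 0) (hk : k ≠ 0) : ew ε (h * k) = ew ε h * ew ε k := by
  unfold ew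
  rw [← Real.exp_add]
  push_cast
  rw [Real.log_mul (by exact_mod_cast hh) (by exact_mod_cast hk)]
  ring_nf

lemma ew_eq (ε : ℝ) {h : ℕ} (hh : h ≠ 0) : ew ε h = Real.exp (-ε * Real.log h) / h := by
  unfold ew
  have h0 : (0:ℝ) < h := by exact_mod_cast Nat.pos_of_ne_zero hh
  rw [show -(1 + ε) * Real.log h = -ε * Real.log h - Real.log h by ring, Real.exp_sub,
    Real.exp_log h0]

lemma ew_le {ε : ℝ} (hε : 0 ≤ ε) {h : ℕ} (hh : h ≠ 0) : ew ε h ≤ 1 / h := by
  rw [ew_eq ε hh]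
  have h0 : (1:ℝ) ≤ h := by exact_mod_cast Nat.one_le_iff_ne_zero.mpr hh
  gcongr
  rw [Real.exp_le_one_iff]
  nlinarith [Real.log_nonneg h0]

/-- one-parameter sum -/
noncomputable def A1 (Y ε : ℝ) (q : ℕ) : ℝ :=
  ∑ h ∈ (Ioc 0 ⌊Y⌋₊).filter (fun h => q ∣ h), (moebius h : ℝ) * ew ε h * Real.log (Y / h)

lemma A1_eq {Y ε : ℝ} {q : ℕ} (hq : 0 < q) :
    A1 Y ε q = (moebius q : ℝ) * ew ε q *
      ∑ m ∈ (Ioc 0 ⌊Y / q⌋₊).filter (fun m => m.Coprime q),
      (moebius m : ℝ) / m * (Real.exp (-ε * Real.log m) * Real.log (Y / q / m)) := by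
  unfold A1
  have h1 : ∑ h ∈ (Ioc 0 ⌊Y⌋₊).filter (fun h => q ∣ h), (moebius h : ℝ) * ew ε h * Real.log (Y / h)
      = ∑ m ∈ Ioc 0 ⌊Y / q⌋₊, (moebius (q * m) : ℝ) * ew ε (q * m) * Real.log (Y / ((q * m : ℕ) : ℝ)) := by
    symm
    apply Finset.sum_bij (fun m _ => q * m)
    · intro m hm
      simp only [mem_filter, mem_Ioc, Nat.floor_div_natCast] at hm ⊢
      refine ⟨⟨Nat.mul_pos hq hm.1, ?_⟩, dvd_mul_right _ _⟩
      calc q * m ≤ q * (⌊Y⌋₊ / q) := by gcongr; exact hm.2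
        _ ≤ _ := Nat.mul_div_le _ _
    · intro a _ b _ h
      exact Nat.eq_of_mul_eq_mul_left hq h
    · intro h hh
      simp only [mem_filter, mem_Ioc] at hh
      obtain ⟨⟨h1, h2⟩, m, rfl⟩ := hh
      refine ⟨m, ?_, rfl⟩
      rw [mem_Ioc, Nat.floor_div_natCast]
      refine ⟨Nat.pos_of_ne_zero (by rintro rfl; simp at h1), ?_⟩
      rw [Nat.le_div_iff_mul_le hq]
      linarith only [h2]
    · intro m _; rfl
  rw [h1, sum_filter, mul_sum]
  refine sum_congr rfl fun m hm => ?_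
  have hm0 : m ≠ 0 := (mem_Ioc.mp hm).1.ne'
  split_ifs with hc
  · rw [isMultiplicative_moebius.map_mul_of_coprime hc.symm, ew_mul ε hq.ne' hm0, ew_eq ε hm0]
    push_cast
    rw [div_div]
    ring
  · have : ¬ Squarefree (q * m) := by
      intro hsq
      exact hc (Nat.coprime_of_squarefree_mul hsq).symm
    rw [moebius_eq_zero_of_not_squarefree this]
    simp

lemma abs_A1_le {Y ε : ℝ} {q : ℕ} (hq : 0 < q) (hε : 0 ≤ ε) (hY : 1 ≤ Y) (hεY : ε * Real.log Y ≤ 1) :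
    |A1 Y ε q| ≤ if Squarefree q then 32 * kap q / q else 0 := by
  rw [A1_eq hq]
  have hq0 : (0:ℝ) < q := by exact_mod_cast hq
  split_ifs with hsq
  · rw [abs_mul, abs_mul, abs_of_pos (ew_pos _ _)]
    have h1 : |(moebius q : ℝ)| ≤ 1 := by
      have := abs_moebius_le_one (n := q)
      exact_mod_cast this
    have h2 : |∑ m ∈ (Ioc 0 ⌊Y / q⌋₊).filter (fun m => m.Coprime q),
      (moebius m : ℝ) / m * (Real.exp (-ε * Real.log m) * Real.log (Y / q / m))| ≤ 32 * kap q := by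
      rcases lt_or_ge (Y / q) 1 with h | h
      · rw [Nat.floor_eq_zero.mpr h]
        simp [(kap_pos q).le]
      · refine twisted_bound hsq hε h ?_
        calc ε * Real.log (Y / q) ≤ ε * Real.log Y := by
              gcongr
              apply div_le_self (by linarith only [hY])
              exact_mod_cast hq
          _ ≤ 1 := hεY
    calc |(moebius q : ℝ)| * ew ε q * _ ≤ 1 * (1 / q) * (32 * kap q) := by
          gcongr
          · exact (ew_pos _ _).le
          · exact ew_le hε hq.ne'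
      _ = _ := by ring
  · rw [moebius_eq_zero_of_not_squarefree hsq]
    simp

/-- mollifier coefficients -/
noncomputable def amol (X : ℝ) (h : ℕ) : ℝ :=
  (moebius h : ℝ) * (2 / Real.log X * (max 0 (Real.log (X / h)) - max 0 (Real.log (√X / h))))

lemma log_sqrt' {X : ℝ} (hX : 0 ≤ X) : Real.log (√X) = Real.log X / 2 := Real.log_sqrt hX

lemma abs_amol_le {X : ℝ} (hX : 1 < X) (h : ℕ) : |amol X h| ≤ 1 := by
  rcases Nat.eq_zero_or_pos h with rfl | hh
  · simp [amol]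
  have hl : 0 < Real.log X := Real.log_pos hX
  have hs : 0 < √X := Real.sqrt_pos.mpr (by linarith only [hX])
  have hh0 : (0:ℝ) < h := by exact_mod_cast hh
  have hh1 : (0:ℝ) ≤ Real.log h := Real.log_nonneg (by exact_mod_cast hh)
  unfold amol
  rw [abs_mul]
  have h1 : |(moebius h : ℝ)| ≤ 1 := by
    have := abs_moebius_le_one (n := h)
    exact_mod_cast this
  have h2 : |2 / Real.log X * (max 0 (Real.log (X / h)) - max 0 (Real.log (√X / h)))| ≤ 1 := by
    rw [Real.log_div (by linarith only [hX]) hh0.ne', Real.log_div hs.ne' hh0.ne', log_sqrt' (by linarith)]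
    rw [abs_mul, abs_of_pos (a := 2 / Real.log X) (by positivity)]
    have h3 : |max 0 (Real.log X - Real.log h) - max 0 (Real.log X / 2 - Real.log h)| ≤ Real.log X / 2 := by
      rw [abs_le]
      constructor
      · rcases max_cases (0:ℝ) (Real.log X - Real.log h) with ⟨h4, _⟩ | ⟨h4, _⟩ <;>
        rcases max_cases (0:ℝ) (Real.log X / 2 - Real.log h) with ⟨h5, _⟩ | ⟨h5, _⟩ <;> rw [h4, h5] <;> linarith
      · rcases max_cases (0:ℝ) (Real.log X - Real.log h) with ⟨h4, _⟩ | ⟨h4, _⟩ <;>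
        rcases max_cases (0:ℝ) (Real.log X / 2 - Real.log h) with ⟨h5, _⟩ | ⟨h5, _⟩ <;> rw [h4, h5] <;> linarith
    calc 2 / Real.log X * _ ≤ 2 / Real.log X * (Real.log X / 2) := by gcongr
      _ = 1 := by field_simp
  calc |(moebius h : ℝ)| * _ ≤ 1 * 1 := by gcongr
    _ = 1 := by norm_num

lemma amol_of_le_sqrt {X : ℝ} (hX : 1 < X) {h : ℕ} (hh : (h:ℝ) ≤ √X) : amol X h = moebius h := by
  rcases Nat.eq_zero_or_pos h with rfl | hh1
  · simp [amol]
  have hl : 0 < Real.log X := Real.log_pos hX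
  have hs : 0 < √X := Real.sqrt_pos.mpr (by linarith only [hX])
  have hh0 : (0:ℝ) < h := by exact_mod_cast hh1
  unfold amol
  have hsX : √X ≤ X := by
    rw [Real.sqrt_le_left (by linarith only [hX])]
    nlinarith only [hX]
  have h1 : Real.log h ≤ Real.log (√X) := Real.log_le_log hh0 hh
  rw [log_sqrt' (by linarith)] at h1
  rw [Real.log_div (by linarith only [hX]) hh0.ne', Real.log_div hs.ne' hh0.ne', log_sqrt' (by linarith only [hX])]
  rw [max_eq_right (by linarith only [hl, h1]), max_eq_right (by linarith only [h1])]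
  field_simp
  ring

lemma amol_not_squarefree {X : ℝ} {h : ℕ} (hh : ¬ Squarefree h) : amol X h = 0 := by
  unfold amol
  rw [moebius_eq_zero_of_not_squarefree hh]
  simp

/-- `y_q` -/
noncomputable def yq (X ε : ℝ) (q : ℕ) : ℝ :=
  ∑ h ∈ (Ioc 0 ⌊X⌋₊).filter (fun h => q ∣ h), amol X h * ew ε h

lemma yq_eq {X ε : ℝ} (hX : 1 < X) (q : ℕ) :
    yq X ε q = 2 / Real.log X * (A1 X ε q - A1 (√X) ε q) := by
  have hs : 0 < √X := Real.sqrt_pos.mpr (by linarith)
  have hX0 : 0 < X := by linarith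
  have hsX : √X ≤ X := by
    rw [Real.sqrt_le_left (by linarith)]
    nlinarith only [hX]
  have h2 : A1 (√X) ε q = ∑ h ∈ (Ioc 0 ⌊X⌋₊).filter (fun h => q ∣ h),
      (moebius h : ℝ) * ew ε h * max 0 (Real.log (√X / h)) := by
    unfold A1
    trans ∑ h ∈ (Ioc 0 ⌊√X⌋₊).filter (fun h => q ∣ h),
      (moebius h : ℝ) * ew ε h * max 0 (Real.log (√X / h))
    · refine sum_congr rfl fun h hh => ?_
      simp only [mem_filter, mem_Ioc] at hh
      have hh0 : (0:ℝ) < h := by exact_mod_cast hh.1.1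
      have : (h:ℝ) ≤ √X := (Nat.le_floor_iff hs.le).mp hh.1.2
      rw [max_eq_right]
      apply Real.log_nonneg
      rw [le_div_iff₀ hh0]; linarith only [this]
    apply Finset.sum_subset
    · intro h hh
      simp only [mem_filter, mem_Ioc] at hh ⊢
      exact ⟨⟨hh.1.1, hh.1.2.trans (Nat.floor_le_floor hsX)⟩, hh.2⟩
    · intro h hh hh'
      simp only [mem_filter, mem_Ioc] at hh hh'
      have hh0 : (0:ℝ) < h := by exact_mod_cast hh.1.1
      have h3 : ¬ (h ≤ ⌊√X⌋₊) := fun h4 => hh' ⟨⟨hh.1.1, h4⟩, hh.2⟩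
      rw [Nat.le_floor_iff hs.le] at h3
      push Not at h3
      rw [max_eq_left]
      · ring
      · apply Real.log_nonpos (by positivity)
        rw [div_le_one hh0]; exact h3.le
  rw [h2]
  unfold A1 yq
  rw [← sum_sub_distrib, mul_sum]
  refine sum_congr rfl fun h hh => ?_
  simp only [mem_filter, mem_Ioc] at hh
  have hh0 : (0:ℝ) < h := by exact_mod_cast hh.1.1
  have h4 : (h:ℝ) ≤ X := (Nat.le_floor_iff hX0.le).mp hh.1.2
  unfold amol
  rw [max_eq_right (a := 0) (b := Real.log (X / h))]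
  · ring
  · apply Real.log_nonneg
    rw [le_div_iff₀ hh0]; linarith only [h4]

lemma abs_yq_le {X ε : ℝ} (hX : 1 < X) (hε : 0 ≤ ε) (hεX : ε * Real.log X ≤ 1) {q : ℕ} (hq : 0 < q) :
    |yq X ε q| ≤ if Squarefree q then 128 * kap q / (q * Real.log X) else 0 := by
  have hl : 0 < Real.log X := Real.log_pos hX
  have hs1 : 1 ≤ √X := Real.one_le_sqrt.mpr hX.le
  rw [yq_eq hX, abs_mul, abs_of_pos (a := 2 / Real.log X) (by positivity)]
  have h1 := abs_A1_le (Y := X) hq hε hX.le hεX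
  have h2 := abs_A1_le (Y := √X) hq hε hs1 (by
    rw [log_sqrt' (by linarith only [hX])]
    nlinarith only [hεX])
  have h3 : |A1 X ε q - A1 (√X) ε q| ≤ |A1 X ε q| + |A1 (√X) ε q| := abs_sub _ _
  have hq0 : (0:ℝ) < q := by exact_mod_cast hq
  split_ifs at h1 h2 ⊢ with hsq
  · calc 2 / Real.log X * |A1 X ε q - A1 (√X) ε q|
        ≤ 2 / Real.log X * (32 * kap q / q + 32 * kap q / q) := by gcongr; linarith only [h3, h1, h2]
      _ = _ := by field_simp; ring
  · have : |A1 X ε q - A1 (√X) ε q| ≤ 0 := by linarith only [h3, h1, h2]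
    have h5 : 0 < 2 / Real.log X := by positivity
    nlinarith only [h3, h1, h2, h5]

/-- constant -/
noncomputable def CQ : ℝ := 128 ^ 2 * Real.exp 1 * Real.exp 6 * 2

lemma CQ_pos : 0 < CQ := by unfold CQ; positivity

lemma QF_le {X ε : ℝ} (hX : 3 ≤ X) (hε : 0 ≤ ε) (hεX : ε * Real.log X ≤ 1) :
    ∑ q ∈ Ioc 0 ⌊X⌋₊, (q:ℝ) * Real.exp (ε * Real.log q) * yq X ε q ^ 2 ≤ CQ / Real.log X := by
  have hl : 1 ≤ Real.log X := by
    rw [Real.le_log_iff_exp_le (by linarith)]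
    have := Real.exp_one_lt_d9
    linarith only [hX, this]
  have hX0 : 0 < X := by linarith
  have hN1 : 1 ≤ ⌊X⌋₊ := (Nat.one_le_floor_iff X).mpr (by linarith)
  calc ∑ q ∈ Ioc 0 ⌊X⌋₊, (q:ℝ) * Real.exp (ε * Real.log q) * yq X ε q ^ 2
      ≤ ∑ q ∈ Ioc 0 ⌊X⌋₊, (if Squarefree q then 128 ^ 2 * Real.exp 1 / Real.log X ^ 2 * (kap q ^ 2 / q) else 0) := by
        refine sum_le_sum fun q hq => ?_
        rw [mem_Ioc] at hq
        have hq0 : (0:ℝ) < q := by exact_mod_cast hq.1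
        have hqX : (q:ℝ) ≤ X := (Nat.le_floor_iff hX0.le).mp hq.2
        have h1 := abs_yq_le (X := X) (ε := ε) (by linarith only [hX]) hε hεX hq.1
        have h2 : Real.exp (ε * Real.log q) ≤ Real.exp 1 := by
          apply Real.exp_le_exp.mpr
          calc ε * Real.log q ≤ ε * Real.log X := by gcongr
            _ ≤ 1 := hεX
        split_ifs at h1 ⊢ with hsq
        · have h3 : yq X ε q ^ 2 ≤ (128 * kap q / (q * Real.log X)) ^ 2 := by
            rw [← sq_abs]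
            gcongr
          calc (q:ℝ) * Real.exp (ε * Real.log q) * yq X ε q ^ 2
              ≤ q * Real.exp 1 * (128 * kap q / (q * Real.log X)) ^ 2 := by gcongr
            _ = _ := by field_simp
        · have : yq X ε q = 0 := abs_nonpos_iff.mp h1
          rw [this]
          simp
    _ = 128 ^ 2 * Real.exp 1 / Real.log X ^ 2 * ∑ q ∈ (Ioc 0 ⌊X⌋₊).filter Squarefree, kap q ^ 2 / q := by
        rw [← sum_filter, mul_sum]
    _ ≤ 128 ^ 2 * Real.exp 1 / Real.log X ^ 2 * (Real.exp 6 * (1 + Real.log ⌊X⌋₊)) := by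
        gcongr
        exact sum_kap_sq hN1
    _ ≤ 128 ^ 2 * Real.exp 1 / Real.log X ^ 2 * (Real.exp 6 * (2 * Real.log X)) := by
        gcongr
        have : Real.log ⌊X⌋₊ ≤ Real.log X := Real.log_le_log (by exact_mod_cast hN1) (Nat.floor_le hX0.le)
        linarith only [hl, this]
    _ = CQ / Real.log X := by unfold CQ; field_simp

end Pool.Agent.Helper57.LH

end

/-! ### Helper57.LH.Bmol -/

section

open ArithmeticFunction Finset

namespace Pool.Agent.Helper57.LH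

/-- `J_{1+ε}` on squarefree numbers -/
noncomputable def Jf (ε : ℝ) (d : ℕ) : ℝ := ∏ p ∈ d.primeFactors, (Real.exp ((1 + ε) * Real.log p) - 1)

lemma Jf_nonneg {ε : ℝ} (hε : 0 ≤ ε) (d : ℕ) : 0 ≤ Jf ε d := by
  apply prod_nonneg
  intro p hp
  have hpp := Nat.prime_of_mem_primeFactors hp
  have : (1:ℝ) ≤ p := by exact_mod_cast hpp.one_le
  have h1 := Real.log_nonneg this
  have := Real.one_le_exp (x := (1 + ε) * Real.log p) (by positivity)
  linarith

lemma exp_log_eq_prod {g : ℕ} (hg : Squarefree g) (c : ℝ) :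
    Real.exp (c * Real.log g) = ∏ p ∈ g.primeFactors, Real.exp (c * Real.log p) := by
  rw [← Real.exp_sum, ← mul_sum]
  congr 2
  conv_lhs => rw [← Nat.prod_primeFactors_of_squarefree hg]
  push_cast
  rw [Real.log_prod]
  intro p hp
  have := (Nat.prime_of_mem_primeFactors hp).ne_zero
  exact_mod_cast this

lemma Jf_le {ε : ℝ} (hε : 0 ≤ ε) {d : ℕ} (hd : Squarefree d) : Jf ε d ≤ Real.exp ((1 + ε) * Real.log d) := by
  rw [exp_log_eq_prod hd]
  apply prod_le_prod
  · intro p hp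
    have hpp := Nat.prime_of_mem_primeFactors hp
    have : (1:ℝ) ≤ p := by exact_mod_cast hpp.one_le
    have h1 := Real.log_nonneg this
    have := Real.one_le_exp (x := (1 + ε) * Real.log p) (by positivity)
    linarith
  · intro p hp
    linarith

lemma exp_log_eq_sum_Jf {g : ℕ} (hg : Squarefree g) (ε : ℝ) :
    Real.exp ((1 + ε) * Real.log g) = ∑ d ∈ g.divisors, Jf ε d := by
  rw [exp_log_eq_prod hg]
  unfold Jf
  rw [← sum_divisors_prod hg]
  refine prod_congr rfl fun p _ => by ring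

lemma ew_lcm (ε : ℝ) {h k : ℕ} (hh : h ≠ 0) (hk : k ≠ 0) :
    ew ε (h.lcm k) = ew ε h * ew ε k * Real.exp ((1 + ε) * Real.log (h.gcd k)) := by
  have hg : h.gcd k ≠ 0 := Nat.gcd_ne_zero_left hh
  have hl : h.lcm k ≠ 0 := Nat.lcm_ne_zero hh hk
  have h1 := Nat.gcd_mul_lcm h k
  have h2 : ew ε (h.gcd k) * ew ε (h.lcm k) = ew ε h * ew ε k := by
    rw [← ew_mul ε hg hl, h1, ew_mul ε hh hk]
  have h3 : ew ε (h.gcd k) * Real.exp ((1 + ε) * Real.log (h.gcd k)) = 1 := by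
    unfold ew
    rw [← Real.exp_add]
    rw [show -(1 + ε) * Real.log (h.gcd k) + (1 + ε) * Real.log (h.gcd k) = 0 by ring, Real.exp_zero]
  calc ew ε (h.lcm k) = (ew ε (h.gcd k) * Real.exp ((1 + ε) * Real.log (h.gcd k))) * ew ε (h.lcm k) := by
        rw [h3, one_mul]
    _ = (ew ε (h.gcd k) * ew ε (h.lcm k)) * Real.exp ((1 + ε) * Real.log (h.gcd k)) := by ring
    _ = _ := by rw [h2]

lemma yq_not_squarefree {X ε : ℝ} {q : ℕ} (hq : ¬ Squarefree q) : yq X ε q = 0 := by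
  unfold yq
  apply sum_eq_zero
  intro h hh
  rw [mem_filter] at hh
  rw [amol_not_squarefree (fun hs => hq (hs.squarefree_of_dvd hh.2))]
  simp

lemma quad_eq (X ε : ℝ) :
    ∑ h ∈ Ioc 0 ⌊X⌋₊, ∑ k ∈ Ioc 0 ⌊X⌋₊, amol X h * amol X k * ew ε (h.lcm k)
      = ∑ q ∈ Ioc 0 ⌊X⌋₊, Jf ε q * yq X ε q ^ 2 := by
  have h1 : ∀ q ∈ Ioc 0 ⌊X⌋₊, Jf ε q * yq X ε q ^ 2
      = ∑ h ∈ Ioc 0 ⌊X⌋₊, ∑ k ∈ Ioc 0 ⌊X⌋₊,
        (if q ∣ h ∧ q ∣ k then Jf ε q * (amol X h * ew ε h) * (amol X k * ew ε k) else 0) := by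
    intro q _
    unfold yq
    rw [sum_filter, sq, sum_mul_sum, mul_sum]
    refine sum_congr rfl fun h _ => ?_
    rw [mul_sum]
    refine sum_congr rfl fun k _ => ?_
    by_cases hh : q ∣ h <;> by_cases hk : q ∣ k <;> simp [hh, hk]
    ring
  rw [sum_congr rfl h1]
  symm
  rw [sum_comm]
  refine sum_congr rfl fun h hh => ?_
  rw [sum_comm]
  refine sum_congr rfl fun k hk => ?_
  symm
  rw [mem_Ioc] at hh hk
  by_cases hsh : Squarefree h
  swap
  · rw [amol_not_squarefree hsh]; simp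
  have hsg : Squarefree (h.gcd k) := hsh.squarefree_of_dvd (Nat.gcd_dvd_left _ _)
  rw [ew_lcm ε hh.1.ne' hk.1.ne', exp_log_eq_sum_Jf hsg, ← sum_filter]
  have h2 : (h.gcd k).divisors = (Ioc 0 ⌊X⌋₊).filter (fun q => q ∣ h ∧ q ∣ k) := by
    ext q
    simp only [Nat.mem_divisors, mem_filter, mem_Ioc]
    constructor
    · rintro ⟨h3, _⟩
      have h4 := (Nat.dvd_gcd_iff.mp h3)
      exact ⟨⟨Nat.pos_of_dvd_of_pos h4.1 hh.1, (Nat.le_of_dvd hh.1 h4.1).trans hh.2⟩, h4⟩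
    · rintro ⟨_, h3⟩
      exact ⟨Nat.dvd_gcd h3.1 h3.2, Nat.gcd_ne_zero_left hh.1.ne'⟩
  rw [h2, mul_sum, mul_sum]
  refine sum_congr rfl fun q _ => by ring

lemma quad_le {X ε : ℝ} (hX : 3 ≤ X) (hε : 0 ≤ ε) (hεX : ε * Real.log X ≤ 1) :
    ∑ h ∈ Ioc 0 ⌊X⌋₊, ∑ k ∈ Ioc 0 ⌊X⌋₊, amol X h * amol X k * ew ε (h.lcm k) ≤ CQ / Real.log X := by
  rw [quad_eq]
  refine le_trans ?_ (QF_le hX hε hεX)
  refine sum_le_sum fun q hq => ?_
  rw [mem_Ioc] at hq
  have hq0 : (0:ℝ) < q := by exact_mod_cast hq.1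
  by_cases hsq : Squarefree q
  · apply mul_le_mul_of_nonneg_right _ (sq_nonneg _)
    refine (Jf_le hε hsq).trans (le_of_eq ?_)
    rw [show (1 + ε) * Real.log q = Real.log q + ε * Real.log q by ring, Real.exp_add,
      Real.exp_log hq0]
  · rw [yq_not_squarefree hsq]; simp

lemma quad_nonneg {X ε : ℝ} (hε : 0 ≤ ε) :
    0 ≤ ∑ h ∈ Ioc 0 ⌊X⌋₊, ∑ k ∈ Ioc 0 ⌊X⌋₊, amol X h * amol X k * ew ε (h.lcm k) := by
  rw [quad_eq]
  exact sum_nonneg fun q _ => mul_nonneg (Jf_nonneg hε q) (sq_nonneg _)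

/-- zeta(1+ε) bound: telescoping -/
lemma ew_succ_le {ε : ℝ} (hε : 0 < ε) {n : ℕ} (hn : 1 ≤ n) :
    ew ε (n + 1) ≤ (Real.exp (-ε * Real.log n) - Real.exp (-ε * Real.log ((n + 1 : ℕ) : ℝ))) / ε := by
  have hn0 : (0:ℝ) < n := by exact_mod_cast hn
  have hn1 : (0:ℝ) < ((n + 1 : ℕ) : ℝ) := by positivity
  rw [ew_eq ε (by omega), le_div_iff₀ hε]
  have h1 : 1 / ((n + 1 : ℕ) : ℝ) ≤ Real.log ((n + 1 : ℕ) : ℝ) - Real.log n := by
    rw [← Real.log_div hn1.ne' hn0.ne']
    have := Real.one_sub_inv_le_log_of_pos (x := ((n + 1 : ℕ) : ℝ) / n) (by positivity)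
    refine le_trans (le_of_eq ?_) this
    push_cast
    field_simp
    ring
  have h2 : Real.exp (-ε * Real.log n) = Real.exp (-ε * Real.log ((n + 1 : ℕ) : ℝ)) *
      Real.exp (ε * (Real.log ((n + 1 : ℕ) : ℝ) - Real.log n)) := by
    rw [← Real.exp_add]; ring_nf
  rw [h2]
  have h3 := Real.add_one_le_exp (ε * (Real.log ((n + 1 : ℕ) : ℝ) - Real.log n))
  have h4 : ε * (1 / ((n + 1 : ℕ) : ℝ)) ≤ ε * (Real.log ((n + 1 : ℕ) : ℝ) - Real.log n) := by gcongr
  have h5 := Real.exp_pos (-ε * Real.log ((n + 1 : ℕ) : ℝ))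
  calc Real.exp (-ε * Real.log ((n + 1 : ℕ) : ℝ)) / ((n + 1 : ℕ) : ℝ) * ε
      = Real.exp (-ε * Real.log ((n + 1 : ℕ) : ℝ)) * (ε * (1 / ((n + 1 : ℕ) : ℝ))) := by ring
    _ ≤ Real.exp (-ε * Real.log ((n + 1 : ℕ) : ℝ)) *
        (Real.exp (ε * (Real.log ((n + 1 : ℕ) : ℝ) - Real.log n)) - 1) := by
        gcongr; linarith only [h3, h4]
    _ = _ := by ring

lemma sum_ew_le {ε : ℝ} (hε : 0 < ε) (K : ℕ) : ∑ n ∈ Ioc 0 K, ew ε n ≤ 1 + 1 / ε := by
  have h : ∀ K : ℕ, ∑ n ∈ Ioc 0 (K + 1), ew ε n ≤ 1 + (1 - Real.exp (-ε * Real.log ((K + 1 : ℕ) : ℝ))) / ε := by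
    intro K
    induction K with
    | zero => simp [ew]
    | succ K ih =>
      rw [Finset.sum_Ioc_succ_top (by omega)]
      have := ew_succ_le hε (n := K + 1) (by omega)
      have e : (1 - Real.exp (-ε * Real.log ((K + 1 + 1 : ℕ) : ℝ))) / ε
        = (1 - Real.exp (-ε * Real.log ((K + 1 : ℕ) : ℝ))) / ε +
          (Real.exp (-ε * Real.log ((K + 1 : ℕ) : ℝ)) - Real.exp (-ε * Real.log ((K + 1 + 1 : ℕ) : ℝ))) / ε := by
        ring
      rw [e]
      linarith
  have h0 : ∑ n ∈ Ioc 0 K, ew ε n ≤ ∑ n ∈ Ioc 0 (K + 1), ew ε n := by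
    apply sum_le_sum_of_subset_of_nonneg
    · exact Ioc_subset_Ioc_right (by omega)
    · intros; exact (ew_pos _ _).le
  refine h0.trans ((h K).trans ?_)
  gcongr
  have := Real.exp_pos (-ε * Real.log ((K + 1 : ℕ) : ℝ))
  linarith only [this]

/-- extension by zero at 0 -/
noncomputable def ew0 (ε : ℝ) (n : ℕ) : ℝ := if n = 0 then 0 else ew ε n

lemma ew0_nonneg (ε : ℝ) (n : ℕ) : 0 ≤ ew0 ε n := by
  unfold ew0; split_ifs; exacts [le_rfl, (ew_pos _ _).le]

lemma summable_ew0 {ε : ℝ} (hε : 0 < ε) : Summable (ew0 ε) := by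
  apply summable_of_sum_range_le (c := 1 + 1 / ε) (ew0_nonneg ε)
  intro n
  refine le_trans ?_ (sum_ew_le hε n)
  rw [Finset.range_eq_Ico]
  calc ∑ i ∈ Ico 0 n, ew0 ε i ≤ ∑ i ∈ Icc 0 n, ew0 ε i := by
        apply sum_le_sum_of_subset_of_nonneg Ico_subset_Icc_self
        intros; exact ew0_nonneg _ _
    _ = ∑ n ∈ Ioc 0 n, ew ε n := by
        rw [← Finset.Ioc_insert_left (Nat.zero_le n), sum_insert (by simp)]
        simp only [ew0, if_true, zero_add]
        refine sum_congr rfl fun m hm => ?_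
        rw [if_neg (mem_Ioc.mp hm).1.ne']

lemma tsum_ew0_le {ε : ℝ} (hε : 0 < ε) : ∑' n, ew0 ε n ≤ 1 + 1 / ε := by
  apply (summable_ew0 hε).tsum_le_of_sum_range_le
  intro n
  refine le_trans ?_ (sum_ew_le hε n)
  rw [Finset.range_eq_Ico]
  calc ∑ i ∈ Ico 0 n, ew0 ε i ≤ ∑ i ∈ Icc 0 n, ew0 ε i := by
        apply sum_le_sum_of_subset_of_nonneg Ico_subset_Icc_self
        intros; exact ew0_nonneg _ _
    _ = ∑ n ∈ Ioc 0 n, ew ε n := by
        rw [← Finset.Ioc_insert_left (Nat.zero_le n), sum_insert (by simp)]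
        simp only [ew0, if_true, zero_add]
        refine sum_congr rfl fun m hm => ?_
        rw [if_neg (mem_Ioc.mp hm).1.ne']

lemma hasSum_mult {ε : ℝ} (hε : 0 < ε) {l : ℕ} (hl : l ≠ 0) :
    HasSum (fun N => if l ∣ N then ew0 ε N else 0) (ew ε l * ∑' n, ew0 ε n) := by
  have h1 : HasSum (fun n => ew ε l * ew0 ε n) (ew ε l * ∑' n, ew0 ε n) :=
    (summable_ew0 hε).hasSum.mul_left _
  have hinj : Function.Injective (fun n : ℕ => l * n) := fun a b h =>
    Nat.eq_of_mul_eq_mul_left (Nat.pos_of_ne_zero hl) h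
  rw [← hinj.hasSum_iff]
  · convert h1 using 1
    funext n
    simp only [Function.comp, dvd_mul_right, if_true]
    unfold ew0
    rcases Nat.eq_zero_or_pos n with rfl | hn
    · simp
    · rw [if_neg (Nat.mul_ne_zero hl hn.ne'), if_neg hn.ne', ew_mul ε hl hn.ne']
  · intro N hN
    simp only [Set.mem_range, not_exists] at hN
    rw [if_neg]
    rintro ⟨m, rfl⟩
    exact hN m rfl

/-- `b_N = ∑_{h | N, h ≤ X} a_h` -/
noncomputable def bmol (X : ℝ) (N : ℕ) : ℝ := ∑ h ∈ (Ioc 0 ⌊X⌋₊).filter (fun h => h ∣ N), amol X h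

lemma sum_bmol_sq_le {X ε : ℝ} (hX : 3 ≤ X) (hε : 0 < ε) (hεX : ε * Real.log X ≤ 1) (K : ℕ) :
    ∑ N ∈ Ioc 0 K, bmol X N ^ 2 * ew ε N ≤ (1 + 1 / ε) * (CQ / Real.log X) := by
  have hsum : HasSum (fun N => bmol X N ^ 2 * ew0 ε N)
      (∑ h ∈ Ioc 0 ⌊X⌋₊, ∑ k ∈ Ioc 0 ⌊X⌋₊, amol X h * amol X k * (ew ε (h.lcm k) * ∑' n, ew0 ε n)) := by
    have h1 : HasSum (fun N => ∑ h ∈ Ioc 0 ⌊X⌋₊, ∑ k ∈ Ioc 0 ⌊X⌋₊,
        amol X h * amol X k * (if h.lcm k ∣ N then ew0 ε N else 0))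
        (∑ h ∈ Ioc 0 ⌊X⌋₊, ∑ k ∈ Ioc 0 ⌊X⌋₊, amol X h * amol X k * (ew ε (h.lcm k) * ∑' n, ew0 ε n)) := by
      apply hasSum_sum
      intro h hh
      apply hasSum_sum
      intro k hk
      rw [mem_Ioc] at hh hk
      exact (hasSum_mult hε (Nat.lcm_ne_zero hh.1.ne' hk.1.ne')).mul_left _
    convert h1 using 1
    funext N
    unfold bmol
    rw [sum_filter, sq, sum_mul_sum, sum_mul]
    refine sum_congr rfl fun h _ => ?_
    rw [sum_mul]
    refine sum_congr rfl fun k _ => ?_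
    by_cases hh : h ∣ N <;> by_cases hk : k ∣ N <;> simp [hh, hk, Nat.lcm_dvd_iff]
  have h2 : ∑ N ∈ Ioc 0 K, bmol X N ^ 2 * ew ε N = ∑ N ∈ Ioc 0 K, bmol X N ^ 2 * ew0 ε N := by
    refine sum_congr rfl fun N hN => ?_
    unfold ew0
    rw [if_neg (mem_Ioc.mp hN).1.ne']
  rw [h2]
  have h3 : ∑ N ∈ Ioc 0 K, bmol X N ^ 2 * ew0 ε N ≤ _ := sum_le_hasSum _
    (fun N _ => mul_nonneg (sq_nonneg _) (ew0_nonneg _ _)) hsum
  refine h3.trans ?_
  have h4 : ∑ h ∈ Ioc 0 ⌊X⌋₊, ∑ k ∈ Ioc 0 ⌊X⌋₊, amol X h * amol X k * (ew ε (h.lcm k) * ∑' n, ew0 ε n)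
      = (∑' n, ew0 ε n) * ∑ h ∈ Ioc 0 ⌊X⌋₊, ∑ k ∈ Ioc 0 ⌊X⌋₊, amol X h * amol X k * ew ε (h.lcm k) := by
    rw [mul_sum]
    refine sum_congr rfl fun h _ => ?_
    rw [mul_sum]
    refine sum_congr rfl fun k _ => by ring
  rw [h4]
  have h5 := quad_le hX hε.le hεX
  have h6 := quad_nonneg (X := X) hε.le
  have h7 := tsum_ew0_le hε
  have h8 : 0 ≤ 1 + 1 / ε := by positivity
  exact mul_le_mul h7 h5 h6 h8

lemma bmol_one {X : ℝ} (hX : 1 < X) : bmol X 1 = 1 := by
  unfold bmol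
  have h1 : (Ioc 0 ⌊X⌋₊).filter (fun h => h ∣ 1) = {1} := by
    ext h
    simp only [mem_filter, mem_Ioc, Nat.dvd_one, mem_singleton]
    constructor
    · exact fun h => h.2
    · rintro rfl
      exact ⟨⟨by norm_num, (Nat.one_le_floor_iff X).mpr hX.le⟩, rfl⟩
  rw [h1, sum_singleton, amol_of_le_sqrt hX]
  · simp
  · simp [hX.le]

lemma bmol_eq_zero {X : ℝ} (hX : 1 < X) {N : ℕ} (hN : 1 < N) (hNX : (N:ℝ) ≤ √X) : bmol X N = 0 := by
  unfold bmol
  have hsX : √X ≤ X := by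
    rw [Real.sqrt_le_left (by linarith only [hX])]
    nlinarith only [hX]
  have h1 : (Ioc 0 ⌊X⌋₊).filter (fun h => h ∣ N) = N.divisors := by
    ext h
    simp only [mem_filter, mem_Ioc, Nat.mem_divisors]
    constructor
    · rintro ⟨_, h⟩; exact ⟨h, by omega⟩
    · rintro ⟨h2, _⟩
      refine ⟨⟨Nat.pos_of_dvd_of_pos h2 (by omega), ?_⟩, h2⟩
      rw [Nat.le_floor_iff (by linarith only [hX])]
      have : (h:ℝ) ≤ N := by exact_mod_cast Nat.le_of_dvd (by omega) h2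
      linarith only [hNX, hsX, this]
  rw [h1]
  have h2 : ∑ h ∈ N.divisors, amol X h = ∑ h ∈ N.divisors, (moebius h : ℝ) := by
    refine sum_congr rfl fun h hh => ?_
    apply amol_of_le_sqrt hX
    have : (h:ℝ) ≤ N := by exact_mod_cast Nat.le_of_dvd (by omega) (Nat.dvd_of_mem_divisors hh)
    linarith only [hNX, this]
  rw [h2]
  have h3 : (∑ h ∈ N.divisors, moebius h : ℤ) = 0 := by
    rw [← coe_mul_zeta_apply, moebius_mul_coe_zeta, one_apply_ne (by omega)]
  exact_mod_cast h3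

end Pool.Agent.Helper57.LH

end

/-! ### Helper57.LH.Off -/

section

namespace Pool.Agent.Helper57.LH

open Finset

/-- harmonic sums -/
noncomputable def Hs (n : ℕ) : ℝ := ∑ i ∈ range n, 1 / ((i:ℝ) + 1)

lemma Hs_le (n : ℕ) (hn : 0 < n) : Hs n ≤ 1 + Real.log n := by
  have := harmonic_le_one_add_log n
  refine le_trans (le_of_eq ?_) this
  unfold Hs harmonic
  push_cast
  refine sum_congr rfl fun i _ => by rw [one_div]

lemma Hs_mono {a b : ℕ} (h : a ≤ b) : Hs a ≤ Hs b := by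
  unfold Hs
  apply sum_le_sum_of_subset_of_nonneg (range_mono h)
  intros; positivity

lemma Hs_succ (n : ℕ) : Hs (n + 1) = Hs n + 1 / ((n:ℝ) + 1) := by
  unfold Hs; rw [sum_range_succ]

/-- upper part -/
lemma NL_up {N : ℕ} (hN : 0 < N) (J : ℕ) :
    ∑ j ∈ range J, 1 / |((N:ℝ)) ^ 2 - ((N + (j + 1) : ℕ) : ℝ) ^ 2| ≤ Hs (2 * N) / (2 * N) := by
  have hN0 : (0:ℝ) < N := by exact_mod_cast hN
  have h : ∀ J : ℕ, ∑ j ∈ range J, 1 / |((N:ℝ)) ^ 2 - ((N + (j + 1) : ℕ) : ℝ) ^ 2| =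
      (Hs J - (Hs (J + 2 * N) - Hs (2 * N))) / (2 * N) := by
    intro J
    induction J with
    | zero => simp [Hs]
    | succ J ih =>
      rw [sum_range_succ, ih, show J + 1 + 2 * N = (J + 2 * N) + 1 by ring, Hs_succ, Hs_succ]
      have e : |((N:ℝ)) ^ 2 - ((N + (J + 1) : ℕ) : ℝ) ^ 2| = ((J:ℝ) + 1) * (J + 2 * N + 1) := by
        rw [abs_of_nonpos]
        · push_cast; ring
        · push_cast
          nlinarith [(Nat.cast_nonneg J : (0:ℝ) ≤ J)]
      rw [e]
      push_cast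
      field_simp
      ring
  rw [h]
  gcongr
  have := Hs_mono (show J ≤ J + 2 * N by omega)
  linarith only [this]

/-- lower part -/
lemma NL_low {N : ℕ} (hN : 0 < N) :
    ∑ j ∈ range (N - 1), 1 / |((N:ℝ)) ^ 2 - ((N - (j + 1) : ℕ) : ℝ) ^ 2| ≤ Hs N / N := by
  have hN0 : (0:ℝ) < N := by exact_mod_cast hN
  calc ∑ j ∈ range (N - 1), 1 / |((N:ℝ)) ^ 2 - ((N - (j + 1) : ℕ) : ℝ) ^ 2|
      ≤ ∑ j ∈ range (N - 1), 1 / ((j:ℝ) + 1) / N := by
        refine sum_le_sum fun j hj => ?_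
        rw [mem_range] at hj
        rw [div_div]
        apply one_div_le_one_div_of_le (by positivity)
        rw [Nat.cast_sub (by omega)]
        push_cast
        have h1 : (0:ℝ) ≤ N - (j + 1) := by
          have : (j + 1 : ℕ) ≤ N := by omega
          have h2 : ((j + 1 : ℕ) : ℝ) ≤ N := by exact_mod_cast this
          push_cast at h2; linarith only [h2]
        rw [abs_of_nonneg (by nlinarith only [hN0, h1, (Nat.cast_nonneg j : (0:ℝ) ≤ j)])]
        nlinarith only [h1, (Nat.cast_nonneg j : (0:ℝ) ≤ j)]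
    _ = Hs (N - 1) / N := by unfold Hs; rw [sum_div]
    _ ≤ Hs N / N := by
        gcongr
        exact Hs_mono (by omega)

lemma NL {N : ℕ} (hN : 0 < N) (K : ℕ) :
    ∑ M ∈ Ioc 0 K, (if N = M then 0 else 1 / |((N:ℝ)) ^ 2 - (M:ℝ) ^ 2|) ≤ 2 * (1 + Real.log N) / N := by
  have hN0 : (0:ℝ) < N := by exact_mod_cast hN
  set f : ℕ → ℝ := fun M => (if N = M then 0 else 1 / |((N:ℝ)) ^ 2 - (M:ℝ) ^ 2|) with hf
  have hf0 : ∀ M, 0 ≤ f M := by intro M; rw [hf]; simp only; split_ifs <;> positivity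
  have h1 : ∑ M ∈ Ioc 0 K, f M ≤ ∑ M ∈ Ioo 0 N, f M + ∑ M ∈ Ioc N (N + K), f M := by
    have hsub : Ioc 0 K ⊆ (Ioo 0 N ∪ {N}) ∪ Ioc N (N + K) := by
      intro M hM
      simp only [mem_union, mem_Ioo, mem_singleton, mem_Ioc] at hM ⊢
      omega
    calc ∑ M ∈ Ioc 0 K, f M ≤ ∑ M ∈ (Ioo 0 N ∪ {N}) ∪ Ioc N (N + K), f M :=
          sum_le_sum_of_subset_of_nonneg hsub (fun _ _ _ => hf0 _)
      _ ≤ ∑ M ∈ (Ioo 0 N ∪ {N}), f M + ∑ M ∈ Ioc N (N + K), f M := by
          rw [← sum_union_inter]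
          have : 0 ≤ ∑ M ∈ (Ioo 0 N ∪ {N}) ∩ Ioc N (N + K), f M := sum_nonneg fun _ _ => hf0 _
          linarith only [this]
      _ ≤ (∑ M ∈ Ioo 0 N, f M + ∑ M ∈ ({N} : Finset ℕ), f M) + ∑ M ∈ Ioc N (N + K), f M := by
          apply add_le_add _ le_rfl
          rw [← sum_union_inter]
          have : 0 ≤ ∑ M ∈ (Ioo 0 N ∩ {N}), f M := sum_nonneg fun _ _ => hf0 _
          linarith only [this]
      _ = _ := by
          rw [sum_singleton]
          have : f N = 0 := by simp [hf]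
          rw [this, add_zero]
  have h2 : ∑ M ∈ Ioo 0 N, f M = ∑ j ∈ range (N - 1), 1 / |((N:ℝ)) ^ 2 - ((N - (j + 1) : ℕ) : ℝ) ^ 2| := by
    symm
    apply sum_bij (fun j _ => N - (j + 1))
    · intro j hj
      rw [mem_range] at hj
      rw [mem_Ioo]; omega
    · intro a ha b hb h
      rw [mem_range] at ha hb
      omega
    · intro M hM
      rw [mem_Ioo] at hM
      exact ⟨N - M - 1, by rw [mem_range]; omega, by omega⟩
    · intro j hj
      rw [mem_range] at hj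
      rw [hf]
      simp only
      rw [if_neg (by omega)]
  have h3 : ∑ M ∈ Ioc N (N + K), f M = ∑ j ∈ range K, 1 / |((N:ℝ)) ^ 2 - ((N + (j + 1) : ℕ) : ℝ) ^ 2| := by
    symm
    apply sum_bij (fun j _ => N + (j + 1))
    · intro j hj
      rw [mem_range] at hj
      rw [mem_Ioc]; omega
    · intro a ha b hb h
      omega
    · intro M hM
      rw [mem_Ioc] at hM
      exact ⟨M - N - 1, by rw [mem_range]; omega, by omega⟩
    · intro j hj
      rw [hf]
      simp only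
      rw [if_neg (by omega)]
  refine h1.trans ?_
  rw [h2, h3]
  have h4 := NL_low hN
  have h5 := NL_up hN K
  have h6 := Hs_le N hN
  have h7 := Hs_le (2 * N) (by omega)
  have h8 : Real.log ((2 * N : ℕ) : ℝ) ≤ 1 + Real.log N := by
    push_cast
    rw [Real.log_mul (by norm_num) hN0.ne']
    have := Real.log_two_lt_d9
    linarith only [this]
  have h9 : Hs N / N ≤ (1 + Real.log N) / N := by gcongr
  have h10 : Hs (2 * N) / (2 * N) ≤ (1 + Real.log N) / N := by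
    rw [div_le_div_iff₀ (by positivity) hN0]
    have : 0 ≤ Real.log N := Real.log_nonneg (by exact_mod_cast hN)
    nlinarith only [h7, h8, this]
  calc _ ≤ (1 + Real.log N) / N + (1 + Real.log N) / N := by linarith only [h4, h5, h9, h10]
    _ = _ := by ring

lemma off_gen (b : ℕ → ℝ) (K : ℕ) {s : ℝ} (hs : 0 < s) :
    ∑ N ∈ Ioc 0 K, ∑ M ∈ Ioc 0 K, (if N = M then 0 else
      |b N| * |b M| * (2 * Real.exp (-(Real.pi * ((N:ℝ) ^ 2 + (M:ℝ) ^ 2) * s)) / |(N:ℝ) ^ 2 - (M:ℝ) ^ 2|))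
    ≤ 4 * ∑ N ∈ Ioc 0 K, b N ^ 2 * Real.exp (-(Real.pi * (N:ℝ) ^ 2 * s)) * (1 + Real.log N) / N := by
  set r : ℕ → ℝ := fun N => b N ^ 2 * Real.exp (-(Real.pi * (N:ℝ) ^ 2 * s)) with hr
  set κ : ℕ → ℕ → ℝ := fun N M => (if N = M then 0 else 1 / |((N:ℝ)) ^ 2 - (M:ℝ) ^ 2|) with hκ
  have hκ0 : ∀ N M, 0 ≤ κ N M := by intro N M; rw [hκ]; simp only; split_ifs <;> positivity
  have hκs : ∀ N M, κ N M = κ M N := by
    intro N M
    rw [hκ]
    simp only
    rw [abs_sub_comm]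
    by_cases h : N = M
    · rw [if_pos h, if_pos h.symm]
    · rw [if_neg h, if_neg (fun h' => h h'.symm)]
  have hpt : ∀ N M : ℕ, (if N = M then 0 else
      |b N| * |b M| * (2 * Real.exp (-(Real.pi * ((N:ℝ) ^ 2 + (M:ℝ) ^ 2) * s)) / |(N:ℝ) ^ 2 - (M:ℝ) ^ 2|))
      ≤ r N * κ N M + r M * κ N M := by
    intro N M
    rw [hκ, hr]
    simp only
    split_ifs with h
    · simp
    · have e0 : Real.exp (-(Real.pi * ((N:ℝ) ^ 2 + (M:ℝ) ^ 2) * s)) =
          Real.exp (-(Real.pi * (N:ℝ) ^ 2 * s)) * Real.exp (-(Real.pi * (M:ℝ) ^ 2 * s)) := by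
        rw [← Real.exp_add]; congr 1; ring
      rw [e0]
      have hN1 : Real.exp (-(Real.pi * (N:ℝ) ^ 2 * s)) ≤ 1 := by
        apply Real.exp_le_one_iff.mpr
        have := Real.pi_pos
        have : 0 ≤ Real.pi * (N:ℝ) ^ 2 * s := by positivity
        linarith only [this]
      have hM1 : Real.exp (-(Real.pi * (M:ℝ) ^ 2 * s)) ≤ 1 := by
        apply Real.exp_le_one_iff.mpr
        have := Real.pi_pos
        have : 0 ≤ Real.pi * (M:ℝ) ^ 2 * s := by positivity
        linarith only [this]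
      have hN2 := Real.exp_pos (-(Real.pi * (N:ℝ) ^ 2 * s))
      have hM2 := Real.exp_pos (-(Real.pi * (M:ℝ) ^ 2 * s))
      set x := Real.exp (-(Real.pi * (N:ℝ) ^ 2 * s))
      set y := Real.exp (-(Real.pi * (M:ℝ) ^ 2 * s))
      have hk : 0 ≤ 1 / |((N:ℝ)) ^ 2 - (M:ℝ) ^ 2| := by positivity
      have key : |b N| * |b M| * (2 * (x * y)) ≤ b N ^ 2 * x + b M ^ 2 * y := by
        have h1 : 2 * (|b N| * |b M|) ≤ b N ^ 2 + b M ^ 2 := by
          rw [← sq_abs (b N), ← sq_abs (b M)]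
          nlinarith only [sq_nonneg (|b N| - |b M|)]
        have h2 : 0 ≤ b N ^ 2 := sq_nonneg _
        have h3 : 0 ≤ b M ^ 2 := sq_nonneg _
        calc |b N| * |b M| * (2 * (x * y)) = 2 * (|b N| * |b M|) * (x * y) := by ring
          _ ≤ (b N ^ 2 + b M ^ 2) * (x * y) := by gcongr
          _ = b N ^ 2 * x * y + b M ^ 2 * y * x := by ring
          _ ≤ b N ^ 2 * x * 1 + b M ^ 2 * y * 1 := by gcongr
          _ = _ := by ring
      calc |b N| * |b M| * (2 * (x * y) / |(N:ℝ) ^ 2 - (M:ℝ) ^ 2|)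
          = (|b N| * |b M| * (2 * (x * y))) * (1 / |((N:ℝ)) ^ 2 - (M:ℝ) ^ 2|) := by ring
        _ ≤ (b N ^ 2 * x + b M ^ 2 * y) * (1 / |((N:ℝ)) ^ 2 - (M:ℝ) ^ 2|) := by gcongr
        _ = _ := by ring
  calc _ ≤ ∑ N ∈ Ioc 0 K, ∑ M ∈ Ioc 0 K, (r N * κ N M + r M * κ N M) :=
        sum_le_sum fun N _ => sum_le_sum fun M _ => hpt N M
    _ = ∑ N ∈ Ioc 0 K, ∑ M ∈ Ioc 0 K, r N * κ N M + ∑ N ∈ Ioc 0 K, ∑ M ∈ Ioc 0 K, r M * κ N M := by
        rw [← sum_add_distrib]
        refine sum_congr rfl fun N _ => by rw [sum_add_distrib]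
    _ = 2 * ∑ N ∈ Ioc 0 K, ∑ M ∈ Ioc 0 K, r N * κ N M := by
        rw [sum_comm (f := fun N M => r M * κ N M)]
        rw [two_mul]
        congr 1
        refine sum_congr rfl fun N _ => sum_congr rfl fun M _ => by rw [hκs]
    _ ≤ 2 * ∑ N ∈ Ioc 0 K, r N * (2 * (1 + Real.log N) / N) := by
        apply mul_le_mul_of_nonneg_left _ (by norm_num)
        refine sum_le_sum fun N hN => ?_
        rw [mem_Ioc] at hN
        rw [← mul_sum]
        apply mul_le_mul_of_nonneg_left (NL hN.1 K)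
        rw [hr]; positivity
    _ = _ := by
        rw [mul_sum, mul_sum]
        refine sum_congr rfl fun N _ => by rw [hr]; ring

/-- weights -/
lemma wt0 {s : ℝ} (hs : 0 < s) (hs1 : 1 ≤ Real.log (1 / s)) {N : ℕ} (hN : 0 < N) :
    Real.exp (-(Real.pi * (N:ℝ) ^ 2 * s)) ≤ Real.exp 1 * Real.exp (-(1 / Real.log (1 / s)) * Real.log N) := by
  set L := Real.log (1 / s) with hL
  have hN0 : (1:ℝ) ≤ N := by exact_mod_cast hN
  have hlN : 0 ≤ Real.log N := Real.log_nonneg hN0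
  rw [← Real.exp_add]
  apply Real.exp_le_exp.mpr
  have hpi := Real.pi_gt_three
  rcases le_or_gt (N:ℝ) (1 / s) with h | h
  · have h1 : Real.log N ≤ L := Real.log_le_log (by linarith only [hN0]) h
    have h2 : 1 / L * Real.log N ≤ 1 := by
      rw [div_mul_eq_mul_div, one_mul, div_le_one (by linarith only [hs1])]; exact h1
    have h3 : 0 ≤ Real.pi * (N:ℝ) ^ 2 * s := by positivity
    linarith only [h2, h3]
  · have h1 : 1 < N * s := by rwa [div_lt_iff₀ hs] at h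
    have h2 : 1 / L * Real.log N ≤ 1 * Real.log N := by
      gcongr
      rw [div_le_one (by linarith only [hs1])]; exact hs1
    have h3 : Real.log N ≤ N := by
      have := Real.log_le_sub_one_of_pos (show (0:ℝ) < N by linarith only [hN0])
      linarith only [this]
    have h4 : (N:ℝ) ≤ Real.pi * (N:ℝ) ^ 2 * s := by
      have : (N:ℝ) * 1 ≤ N * (N * s) := by gcongr
      nlinarith only [hN0, hpi, h1, this]
    linarith

lemma wt1 {s : ℝ} (hs : 0 < s) (hs1 : 1 ≤ Real.log (1 / s)) {N : ℕ} (hN : 0 < N) :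
    (1 + Real.log N) * Real.exp (-(Real.pi * (N:ℝ) ^ 2 * s)) ≤
      Real.exp 1 * (1 + Real.log (1 / s)) * Real.exp (-(1 / Real.log (1 / s)) * Real.log N) := by
  set L := Real.log (1 / s) with hL
  have hN0 : (1:ℝ) ≤ N := by exact_mod_cast hN
  have hlN : 0 ≤ Real.log N := Real.log_nonneg hN0
  have hpi := Real.pi_gt_three
  rcases le_or_gt (N:ℝ) (1 / s) with h | h
  · have h1 : Real.log N ≤ L := Real.log_le_log (by linarith only [hN0]) h
    have h2 := wt0 hs hs1 hN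
    rw [← hL] at h2
    calc (1 + Real.log N) * Real.exp (-(Real.pi * (N:ℝ) ^ 2 * s)) ≤
        (1 + L) * (Real.exp 1 * Real.exp (-(1 / L) * Real.log N)) := by gcongr
      _ = _ := by ring
  · have h1 : 1 < N * s := by rwa [div_lt_iff₀ hs] at h
    have h2 : 1 / L * Real.log N ≤ 1 * Real.log N := by
      gcongr
      rw [div_le_one (by linarith only [hs1])]; exact hs1
    have h3 : 1 + Real.log N ≤ N := by
      have := Real.log_le_sub_one_of_pos (show (0:ℝ) < N by linarith only [hN0])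
      linarith only [this]
    have h4 : 3 * (N:ℝ) ≤ Real.pi * (N:ℝ) ^ 2 * s := by
      have : (N:ℝ) * 1 ≤ N * (N * s) := by gcongr
      nlinarith only [hN0, hpi, h1, this]
    have h5 : Real.exp (Real.log (1 + Real.log N)) = 1 + Real.log N := Real.exp_log (by linarith only [hlN])
    calc (1 + Real.log N) * Real.exp (-(Real.pi * (N:ℝ) ^ 2 * s))
        ≤ Real.exp N * Real.exp (-(3 * N)) := by
          gcongr
          · have := Real.add_one_le_exp (N:ℝ); linarith only [h3, this]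
      _ = Real.exp (N - 3 * N) := by rw [← Real.exp_add]; ring_nf
      _ ≤ Real.exp (1 + -(1 / L) * Real.log N) := by
          apply Real.exp_le_exp.mpr
          linarith
      _ = Real.exp 1 * 1 * Real.exp (-(1 / L) * Real.log N) := by rw [Real.exp_add]; ring
      _ ≤ _ := by gcongr; linarith only [hs1]

end Pool.Agent.Helper57.LH

end

/-! ### Helper57.LH.GamInt -/

section

namespace Pool.Agent.Helper57.LH

open Complex Set MeasureTheory Filter Topology

lemma integrableOn_gam {s : ℝ} (hs : -1 < s) {b : ℝ} (hb : 0 < b) :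
    IntegrableOn (fun x : ℝ => x ^ s * Real.exp (-(b * x))) (Ioi 0) := by
  have := integrableOn_rpow_mul_exp_neg_mul_rpow (s := s) (p := 1) (b := b) hs one_pos hb
  refine this.congr_fun (fun x hx => ?_) measurableSet_Ioi
  simp only [Real.rpow_one, neg_mul]

lemma norm_gam (s w : ℂ) {x : ℝ} (hx : 0 < x) :
    ‖(x:ℂ) ^ s * cexp (-(w * x))‖ = x ^ s.re * Real.exp (-(w.re * x)) := by
  rw [norm_mul, Complex.norm_cpow_eq_rpow_re_of_pos hx, Complex.norm_exp]
  simp

lemma aesm_gam (s w : ℂ) : AEStronglyMeasurable (fun x : ℝ => (x:ℂ) ^ s * cexp (-(w * x)))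
    (volume.restrict (Ioi 0)) := by
  apply ContinuousOn.aestronglyMeasurable _ measurableSet_Ioi
  intro x hx
  apply ContinuousAt.continuousWithinAt
  apply ContinuousAt.mul
  · exact (Complex.continuousAt_ofReal_cpow_const _ _ (Or.inr (ne_of_gt hx)))
  · fun_prop

lemma integrableOn_gamc {s w : ℂ} (hs : -1 < s.re) (hw : 0 < w.re) :
    IntegrableOn (fun x : ℝ => (x:ℂ) ^ s * cexp (-(w * x))) (Ioi 0) := by
  refine (integrableOn_gam hs hw).mono' (aesm_gam s w) ?_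
  filter_upwards [ae_restrict_mem measurableSet_Ioi] with x hx
  rw [norm_gam s w hx]

theorem gam_int {s w : ℂ} (hs : 0 < s.re) (hw : 0 < w.re) :
    ∫ x in Ioi (0:ℝ), (x:ℂ) ^ (s - 1) * cexp (-(w * x)) = (1 / w) ^ s * Gamma s := by
  set U : Set ℂ := {w | 0 < w.re} with hU
  have hUo : IsOpen U := isOpen_lt continuous_const Complex.continuous_re
  have hUc : IsPreconnected U := (convex_halfSpace_re_gt 0).isPreconnected
  set f : ℂ → ℂ := fun w => ∫ x in Ioi (0:ℝ), (x:ℂ) ^ (s - 1) * cexp (-(w * x)) with hf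
  set g : ℂ → ℂ := fun w => (1 / w) ^ s * Gamma s with hg
  have hfd : DifferentiableOn ℂ f U := by
    intro w0 hw0
    have hw0' : 0 < w0.re := hw0
    have key := hasDerivAt_integral_of_dominated_loc_of_deriv_le (μ := volume.restrict (Ioi (0:ℝ)))
      (F := fun w (x:ℝ) => (x:ℂ) ^ (s - 1) * cexp (-(w * x)))
      (F' := fun w (x:ℝ) => (x:ℂ) ^ (s - 1) * (cexp (-(w * x)) * (-x)))
      (x₀ := w0) (s := Metric.ball w0 (w0.re / 2))
      (bound := fun x : ℝ => x ^ (s.re) * Real.exp (-((w0.re / 2) * x)))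
      (Metric.ball_mem_nhds _ (by linarith)) ?_ ?_ ?_ ?_ ?_ ?_
    · exact key.2.differentiableAt.differentiableWithinAt
    · exact Eventually.of_forall fun w => aesm_gam _ _
    · exact integrableOn_gamc (by simp; linarith) hw0'
    · have : (fun x : ℝ => (x:ℂ) ^ (s - 1) * (cexp (-(w0 * x)) * (-x))) =
        fun x : ℝ => ((x:ℂ) ^ (s - 1) * cexp (-(w0 * x))) * (-(x:ℂ)) := by
        funext x; ring
      rw [this]
      exact (aesm_gam _ _).mul (Continuous.aestronglyMeasurable (by fun_prop))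
    · filter_upwards [ae_restrict_mem measurableSet_Ioi] with x hx w hw
      have hx0 : 0 < x := hx
      rw [← mul_assoc, norm_mul, norm_gam _ _ hx0, norm_neg, Complex.norm_real, Real.norm_eq_abs,
        abs_of_pos hx0]
      have hre : w0.re / 2 ≤ w.re := by
        rw [Metric.mem_ball, dist_eq_norm] at hw
        have := (Complex.abs_re_le_norm (w - w0)).trans hw.le
        rw [Complex.sub_re, abs_le] at this
        linarith only [this]
      have e : x ^ s.re = x ^ (s - 1).re * x := by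
        rw [Complex.sub_re, Complex.one_re]
        nth_rewrite 3 [← Real.rpow_one x]
        rw [← Real.rpow_add hx0]
        ring_nf
      rw [e]
      have : Real.exp (-(w.re * x)) ≤ Real.exp (-((w0.re / 2) * x)) := by
        apply Real.exp_le_exp.mpr
        nlinarith only [hx0, hre]
      have h2 : 0 ≤ x ^ (s - 1).re := Real.rpow_nonneg hx0.le _
      calc x ^ (s - 1).re * Real.exp (-(w.re * x)) * x = (x ^ (s - 1).re * x) * Real.exp (-(w.re * x)) := by ring
        _ ≤ (x ^ (s - 1).re * x) * Real.exp (-((w0.re / 2) * x)) := by gcongr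
    · exact integrableOn_gam (by linarith only [hs]) (by linarith only [hw0'])
    · filter_upwards with x w hw
      have h1 : HasDerivAt (fun w : ℂ => -(w * x)) (-(x:ℂ)) w := by
        have h2 := ((hasDerivAt_id w).mul_const (x:ℂ)).neg
        rw [one_mul] at h2
        exact h2
      exact (h1.cexp).const_mul _
  have hgd : DifferentiableOn ℂ g U := by
    intro w hw
    have hw' : 0 < w.re := hw
    have hne : w ≠ 0 := fun h => by simp [h] at hw'
    apply DifferentiableAt.differentiableWithinAt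
    apply DifferentiableAt.mul_const
    apply DifferentiableAt.cpow
    · apply DifferentiableAt.div <;> first | fun_prop | exact hne
    · fun_prop
    · left
      rw [one_div, Complex.inv_re]
      have := Complex.normSq_pos.mpr hne
      positivity
  have hfa := hfd.analyticOnNhd hUo
  have hga := hgd.analyticOnNhd hUo
  have hfr : ∃ᶠ w in 𝓝[≠] (1:ℂ), f w = g w := by
    have ht : Tendsto (fun t : ℝ => (t:ℂ)) (𝓝[≠] 1) (𝓝[≠] 1) := by
      apply tendsto_nhdsWithin_of_tendsto_nhds_of_eventually_within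
      · exact (Complex.continuous_ofReal.tendsto' 1 1 (by simp)).mono_left nhdsWithin_le_nhds
      · filter_upwards [self_mem_nhdsWithin] with t ht
        simp only [mem_compl_iff, mem_singleton_iff] at ht ⊢
        exact_mod_cast ht
    refine ht.frequently (Eventually.frequently ?_)
    have : ∀ᶠ t : ℝ in 𝓝[≠] 1, 0 < t := (eventually_gt_nhds one_pos).filter_mono nhdsWithin_le_nhds
    filter_upwards [this] with t ht
    exact Complex.integral_cpow_mul_exp_neg_mul_Ioi hs ht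
  exact hfa.eqOn_of_preconnected_of_frequently_eq hga hUc (by simp [hU]) hfr hw

end Pool.Agent.Helper57.LH

end

/-! ### Helper57.LH.L2 -/

section

namespace Pool.Agent.Helper57.LH

open Complex Set MeasureTheory Filter Topology Finset

/-- oscillatory integral -/
lemma osc_int {w : ℂ} (hw : 0 < w.re) :
    IntegrableOn (fun x : ℝ => ((x ^ (-(1/2) : ℝ) : ℝ) : ℂ) * cexp (-(w * x))) (Ioi 1) ∧
    ‖∫ x in Ioi (1:ℝ), ((x ^ (-(1/2) : ℝ) : ℝ) : ℂ) * cexp (-(w * x))‖ ≤ 2 * Real.exp (-w.re) / ‖w‖ := by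
  have hw0 : w ≠ 0 := fun h => by simp [h] at hw
  have hwn : 0 < ‖w‖ := norm_pos_iff.mpr hw0
  have hnorm : ∀ x : ℝ, ‖cexp (-(w * x))‖ = Real.exp (-(w.re * x)) := by
    intro x
    rw [Complex.norm_exp]; simp
  have hint1 : IntegrableOn (fun x : ℝ => ((x ^ (-(1/2) : ℝ) : ℝ) : ℂ) * cexp (-(w * x))) (Ioi 1) := by
    have h1 : IntegrableOn (fun x : ℝ => x ^ (-(1/2) : ℝ) * Real.exp (-(w.re * x))) (Ioi 1) :=
      (integrableOn_gam (by norm_num) hw).mono_set (Set.Ioi_subset_Ioi zero_le_one)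
    refine h1.mono' ?_ ?_
    · apply ContinuousOn.aestronglyMeasurable _ measurableSet_Ioi
      intro x hx
      have hx1 : (1:ℝ) < x := hx
      apply ContinuousAt.continuousWithinAt
      apply ContinuousAt.mul
      · apply Complex.continuous_ofReal.continuousAt.comp
        exact Real.continuousAt_rpow_const _ _ (Or.inl (by linarith))
      · fun_prop
    · filter_upwards [ae_restrict_mem measurableSet_Ioi] with x hx
      have hx1 : (1:ℝ) < x := hx
      rw [norm_mul, hnorm, Complex.norm_real, Real.norm_of_nonneg (Real.rpow_nonneg (by linarith) _)]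
  refine ⟨hint1, ?_⟩
  have hint2 : IntegrableOn (fun x : ℝ => ((1/2 * x ^ (-(3/2) : ℝ) : ℝ) : ℂ) * (cexp (-(w * x)) / w)) (Ioi 1) := by
    have h1 : IntegrableOn (fun x : ℝ => x ^ (-(3/2) : ℝ)) (Ioi 1) :=
      integrableOn_Ioi_rpow_of_lt (by norm_num) one_pos
    refine (h1.const_mul (1 / ‖w‖)).mono' ?_ ?_
    · apply ContinuousOn.aestronglyMeasurable _ measurableSet_Ioi
      intro x hx
      have hx1 : (1:ℝ) < x := hx
      apply ContinuousAt.continuousWithinAt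
      apply ContinuousAt.mul
      · apply Complex.continuous_ofReal.continuousAt.comp
        apply ContinuousAt.mul continuousAt_const
        exact Real.continuousAt_rpow_const _ _ (Or.inl (by linarith))
      · fun_prop
    · filter_upwards [ae_restrict_mem measurableSet_Ioi] with x hx
      have hx1 : (1:ℝ) < x := hx
      have hp : 0 ≤ x ^ (-(3/2) : ℝ) := Real.rpow_nonneg (by linarith) _
      rw [norm_mul, norm_div, hnorm, Complex.norm_real, Real.norm_of_nonneg (by positivity)]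
      have h3 : Real.exp (-(w.re * x)) ≤ 1 := Real.exp_le_one_iff.mpr (by nlinarith only [hw, hx1])
      calc 1 / 2 * x ^ (-(3/2) : ℝ) * (Real.exp (-(w.re * x)) / ‖w‖)
          ≤ 1 * x ^ (-(3/2) : ℝ) * (1 / ‖w‖) := by gcongr; norm_num
        _ = 1 / ‖w‖ * x ^ (-(3/2) : ℝ) := by ring
  set G : ℝ → ℂ := fun x => -(((x ^ (-(1/2) : ℝ) : ℝ) : ℂ) * (cexp (-(w * x)) / w)) with hG
  have hderiv : ∀ x ∈ Ici (1:ℝ), HasDerivAt G
      (((x ^ (-(1/2) : ℝ) : ℝ) : ℂ) * cexp (-(w * x)) + ((1/2 * x ^ (-(3/2) : ℝ) : ℝ) : ℂ) * (cexp (-(w * x)) / w)) x := by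
    intro x hx
    have hx1 : (1:ℝ) ≤ x := hx
    have d1 : HasDerivAt (fun x : ℝ => ((x ^ (-(1/2) : ℝ) : ℝ) : ℂ)) (((-(1/2)) * x ^ (-(1/2) - 1 : ℝ) : ℝ) : ℂ) x :=
      (Real.hasDerivAt_rpow_const (Or.inl (by linarith only [hx1]))).ofReal_comp
    have d2 : HasDerivAt (fun x : ℝ => cexp (-(w * x)) / w) (cexp (-(w * x)) * (-(w * 1)) / w) x := by
      have d3 : HasDerivAt (fun x : ℝ => -(w * (x:ℂ))) (-(w * 1)) x := by
        have := ((Complex.ofRealCLM.hasDerivAt (x := x)).const_mul w).fun_neg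
        simpa using this
      exact d3.cexp.div_const w
    have d4 := (d1.fun_mul d2).fun_neg
    have e5 : (((x ^ (-(1/2) : ℝ) : ℝ) : ℂ) * cexp (-(w * x)) + ((1/2 * x ^ (-(3/2) : ℝ) : ℝ) : ℂ) * (cexp (-(w * x)) / w))
      = -((((-(1/2)) * x ^ (-(1/2) - 1 : ℝ) : ℝ) : ℂ) * (cexp (-(w * x)) / w) +
        ((x ^ (-(1/2) : ℝ) : ℝ) : ℂ) * (cexp (-(w * x)) * (-(w * 1)) / w)) := by
      rw [show (-(1/2) - 1 : ℝ) = -(3/2) by norm_num]
      push_cast
      field_simp
      ring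
    rw [e5]
    exact d4
  have htop : Tendsto G atTop (𝓝 0) := by
    rw [tendsto_zero_iff_norm_tendsto_zero]
    have h1 : Tendsto (fun x : ℝ => 1 / ‖w‖ * Real.exp (-(w.re * x))) atTop (𝓝 0) := by
      have : Tendsto (fun x : ℝ => Real.exp (-(w.re * x))) atTop (𝓝 0) :=
        Real.tendsto_exp_atBot.comp (tendsto_neg_atTop_atBot.comp (tendsto_id.const_mul_atTop hw))
      simpa using this.const_mul (1 / ‖w‖)
    refine squeeze_zero' (Eventually.of_forall fun x => norm_nonneg _) ?_ h1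
    filter_upwards [eventually_ge_atTop 1] with x hx
    rw [hG]
    simp only
    rw [norm_neg, norm_mul, norm_div, hnorm, Complex.norm_real,
      Real.norm_of_nonneg (Real.rpow_nonneg (by linarith only [hx]) _)]
    have h3 : x ^ (-(1/2) : ℝ) ≤ 1 := Real.rpow_le_one_of_one_le_of_nonpos hx (by norm_num)
    calc x ^ (-(1/2) : ℝ) * (Real.exp (-(w.re * x)) / ‖w‖) ≤ 1 * (Real.exp (-(w.re * x)) / ‖w‖) := by gcongr
      _ = _ := by ring
  have hFTC := integral_Ioi_of_hasDerivAt_of_tendsto' hderiv (hint1.add hint2) htop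
  rw [integral_add hint1 hint2] at hFTC
  have hb : ‖∫ x in Ioi (1:ℝ), ((1/2 * x ^ (-(3/2) : ℝ) : ℝ) : ℂ) * (cexp (-(w * x)) / w)‖ ≤ Real.exp (-w.re) / ‖w‖ := by
    have h1 : IntegrableOn (fun x : ℝ => x ^ (-(3/2) : ℝ)) (Ioi 1) :=
      integrableOn_Ioi_rpow_of_lt (by norm_num) one_pos
    have h2 : ∀ᵐ x ∂(volume.restrict (Ioi (1:ℝ))), ‖((1/2 * x ^ (-(3/2) : ℝ) : ℝ) : ℂ) * (cexp (-(w * x)) / w)‖
        ≤ (Real.exp (-w.re) / ‖w‖ * (1/2)) * x ^ (-(3/2) : ℝ) := by
      filter_upwards [ae_restrict_mem measurableSet_Ioi] with x hx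
      have hx1 : (1:ℝ) < x := hx
      have hp : 0 ≤ x ^ (-(3/2) : ℝ) := Real.rpow_nonneg (by linarith only [hx1]) _
      rw [norm_mul, norm_div, hnorm, Complex.norm_real, Real.norm_of_nonneg (by positivity)]
      have h3 : Real.exp (-(w.re * x)) ≤ Real.exp (-w.re) := Real.exp_le_exp.mpr (by nlinarith only [hw, hx1])
      calc 1 / 2 * x ^ (-(3/2) : ℝ) * (Real.exp (-(w.re * x)) / ‖w‖)
          ≤ 1 / 2 * x ^ (-(3/2) : ℝ) * (Real.exp (-w.re) / ‖w‖) := by gcongr
        _ = _ := by ring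
    refine (norm_integral_le_of_norm_le (h1.const_mul _) h2).trans ?_
    rw [integral_const_mul, integral_Ioi_rpow_of_lt (by norm_num) one_pos]
    norm_num
    exact le_of_eq (by ring)
  have hG1 : ‖G 1‖ = Real.exp (-w.re) / ‖w‖ := by
    rw [hG]
    simp only
    rw [norm_neg, norm_mul, norm_div, hnorm]
    simp
  have : ∫ x in Ioi (1:ℝ), ((x ^ (-(1/2) : ℝ) : ℝ) : ℂ) * cexp (-(w * x)) =
      (-G 1) - ∫ x in Ioi (1:ℝ), ((1/2 * x ^ (-(3/2) : ℝ) : ℝ) : ℂ) * (cexp (-(w * x)) / w) := by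
    linear_combination hFTC
  rw [this]
  refine (norm_sub_le _ _).trans ?_
  rw [norm_neg, hG1]
  calc _ ≤ Real.exp (-w.re) / ‖w‖ + Real.exp (-w.re) / ‖w‖ := by gcongr
    _ = _ := by ring

/-- diagonal integral -/
lemma diag_int {a : ℝ} (ha : 0 < a) :
    IntegrableOn (fun x : ℝ => x ^ (-(1/2) : ℝ) * Real.exp (-(2 * a * x))) (Ioi 1) ∧
    ∫ x in Ioi (1:ℝ), x ^ (-(1/2) : ℝ) * Real.exp (-(2 * a * x)) ≤ Real.exp (-a) * Real.sqrt (Real.pi / a) := by
  have hi : IntegrableOn (fun x : ℝ => x ^ (-(1/2) : ℝ) * Real.exp (-(2 * a * x))) (Ioi 1) :=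
    (integrableOn_gam (s := -(1/2)) (b := 2 * a) (by norm_num) (by positivity)).mono_set (Set.Ioi_subset_Ioi zero_le_one)
  refine ⟨hi, ?_⟩
  have hi2 : IntegrableOn (fun x : ℝ => x ^ (-(1/2) : ℝ) * Real.exp (-(a * x))) (Ioi 0) :=
    integrableOn_gam (by norm_num) ha
  calc ∫ x in Ioi (1:ℝ), x ^ (-(1/2) : ℝ) * Real.exp (-(2 * a * x))
      ≤ ∫ x in Ioi (1:ℝ), Real.exp (-a) * (x ^ (-(1/2) : ℝ) * Real.exp (-(a * x))) := by
        apply setIntegral_mono_on hi
        · exact (hi2.mono_set (Set.Ioi_subset_Ioi zero_le_one)).const_mul _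
        · exact measurableSet_Ioi
        · intro x hx
          have hx1 : (1:ℝ) < x := hx
          have hp : 0 ≤ x ^ (-(1/2) : ℝ) := Real.rpow_nonneg (by linarith) _
          have : Real.exp (-(2 * a * x)) ≤ Real.exp (-a) * Real.exp (-(a * x)) := by
            rw [← Real.exp_add]
            apply Real.exp_le_exp.mpr
            nlinarith only [ha, hx1]
          calc _ ≤ x ^ (-(1/2) : ℝ) * (Real.exp (-a) * Real.exp (-(a * x))) := by gcongr
            _ = _ := by ring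
    _ = Real.exp (-a) * ∫ x in Ioi (1:ℝ), (x ^ (-(1/2) : ℝ) * Real.exp (-(a * x))) := by
        rw [integral_const_mul]
    _ ≤ Real.exp (-a) * ∫ x in Ioi (0:ℝ), (x ^ (-(1/2) : ℝ) * Real.exp (-(a * x))) := by
        apply mul_le_mul_of_nonneg_left _ (Real.exp_pos _).le
        apply setIntegral_mono_set hi2
        · filter_upwards [ae_restrict_mem measurableSet_Ioi] with x hx
          have hx1 : (0:ℝ) < x := hx
          have hp : 0 ≤ x ^ (-(1/2) : ℝ) := Real.rpow_nonneg (by linarith) _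
          simp only [Pi.zero_apply]
          positivity
        · exact (Set.Ioi_subset_Ioi zero_le_one).eventuallyLE
    _ = Real.exp (-a) * Real.sqrt (Real.pi / a) := by
        have := Real.integral_rpow_mul_exp_neg_mul_Ioi (a := 1/2) (r := a) (by norm_num) ha
        rw [show (1/2 - 1 : ℝ) = -(1/2) by norm_num] at this
        rw [this, Real.Gamma_one_half_eq, ← Real.sqrt_eq_rpow, ← Real.sqrt_mul (by positivity)]
        congr 2
        ring

/-- finite L² bound -/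
theorem L2_fin {ι : Type*} [DecidableEq ι] (I : Finset ι) (lam : ι → ℝ) (c : ι → ℝ) (z : ℂ) (hz : 0 < z.re)
    (hzi : 1 / 2 ≤ |z.im|) (hlam : ∀ i ∈ I, 0 < lam i)
    (hinj : ∀ i ∈ I, ∀ j ∈ I, i ≠ j → lam i ≠ lam j) :
    IntegrableOn (fun x : ℝ => x ^ (-(1/2) : ℝ) * ‖∑ i ∈ I, (c i : ℂ) * cexp (-(Real.pi * (lam i : ℂ) ^ 2 * x * z))‖ ^ 2) (Ioi 1) ∧
    ∫ x in Ioi (1:ℝ), x ^ (-(1/2) : ℝ) * ‖∑ i ∈ I, (c i : ℂ) * cexp (-(Real.pi * (lam i : ℂ) ^ 2 * x * z))‖ ^ 2
      ≤ ∑ i ∈ I, c i ^ 2 * Real.exp (-(Real.pi * lam i ^ 2 * z.re)) / (lam i * Real.sqrt z.re)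
      + ∑ i ∈ I, ∑ j ∈ I, (if i = j then 0 else
          |c i| * |c j| * (2 * Real.exp (-(Real.pi * (lam i ^ 2 + lam j ^ 2) * z.re)) / |lam i ^ 2 - lam j ^ 2|)) := by
  set w : ι → ι → ℂ := fun i j => Real.pi * (lam i : ℂ) ^ 2 * z + Real.pi * (lam j : ℂ) ^ 2 * (starRingEnd ℂ z) with hw
  have hwre : ∀ i j, (w i j).re = Real.pi * (lam i ^ 2 + lam j ^ 2) * z.re := by
    intro i j
    rw [hw]
    simp only [Complex.add_re]
    rw [show (Real.pi * (lam i : ℂ) ^ 2 * z : ℂ) = ((Real.pi * lam i ^ 2 : ℝ) : ℂ) * z by push_cast; ring,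
      show (Real.pi * (lam j : ℂ) ^ 2 * (starRingEnd ℂ z) : ℂ) = ((Real.pi * lam j ^ 2 : ℝ) : ℂ) * (starRingEnd ℂ z) by push_cast; ring,
      Complex.re_ofReal_mul, Complex.re_ofReal_mul, Complex.conj_re]
    ring
  have hwim : ∀ i j, (w i j).im = Real.pi * (lam i ^ 2 - lam j ^ 2) * z.im := by
    intro i j
    rw [hw]
    simp only [Complex.add_im]
    rw [show (Real.pi * (lam i : ℂ) ^ 2 * z : ℂ) = ((Real.pi * lam i ^ 2 : ℝ) : ℂ) * z by push_cast; ring,
      show (Real.pi * (lam j : ℂ) ^ 2 * (starRingEnd ℂ z) : ℂ) = ((Real.pi * lam j ^ 2 : ℝ) : ℂ) * (starRingEnd ℂ z) by push_cast; ring,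
      Complex.im_ofReal_mul, Complex.im_ofReal_mul, Complex.conj_im]
    ring
  have hwpos : ∀ i ∈ I, ∀ j ∈ I, 0 < (w i j).re := by
    intro i hi j hj
    rw [hwre]
    have := hlam i hi
    positivity
  set g : ι → ι → ℝ → ℂ := fun i j x => ((c i * c j : ℝ) : ℂ) * (((x ^ (-(1/2) : ℝ) : ℝ) : ℂ) * cexp (-(w i j * x))) with hg
  have hexp : ∀ x : ℝ, ((x ^ (-(1/2) : ℝ) * ‖∑ i ∈ I, (c i : ℂ) * cexp (-(Real.pi * (lam i : ℂ) ^ 2 * x * z))‖ ^ 2 : ℝ) : ℂ)
      = ∑ i ∈ I, ∑ j ∈ I, g i j x := by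
    intro x
    push_cast
    rw [← Complex.mul_conj', map_sum, sum_mul_sum, mul_sum]
    refine Finset.sum_congr rfl fun i _ => ?_
    rw [mul_sum]
    refine Finset.sum_congr rfl fun j _ => ?_
    rw [hg]
    simp only [map_mul, Complex.conj_ofReal]
    rw [← Complex.exp_conj]
    have e2 : cexp (-(w i j * x)) = cexp (-(Real.pi * (lam i : ℂ) ^ 2 * x * z)) *
        cexp ((starRingEnd ℂ) (-(Real.pi * (lam j : ℂ) ^ 2 * x * z))) := by
      rw [← Complex.exp_add]
      congr 1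
      rw [hw]
      simp only [map_neg, map_mul, map_pow, Complex.conj_ofReal]
      ring
    rw [e2]
    push_cast
    ring
  have hgi : ∀ i ∈ I, ∀ j ∈ I, IntegrableOn (g i j) (Ioi 1) := by
    intro i hi j hj
    exact (osc_int (hwpos i hi j hj)).1.const_mul _
  have hSi : IntegrableOn (fun x => ∑ i ∈ I, ∑ j ∈ I, g i j x) (Ioi 1) := by
    apply integrable_finsetSum
    intro i hi
    apply integrable_finsetSum
    intro j hj
    exact hgi i hi j hj
  have hmain : IntegrableOn (fun x : ℝ => ((x ^ (-(1/2) : ℝ) * ‖∑ i ∈ I, (c i : ℂ) * cexp (-(Real.pi * (lam i : ℂ) ^ 2 * x * z))‖ ^ 2 : ℝ) : ℂ)) (Ioi 1) := by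
    have : (fun x : ℝ => ((x ^ (-(1/2) : ℝ) * ‖∑ i ∈ I, (c i : ℂ) * cexp (-(Real.pi * (lam i : ℂ) ^ 2 * x * z))‖ ^ 2 : ℝ) : ℂ)) = fun x => ∑ i ∈ I, ∑ j ∈ I, g i j x := by
      funext x; exact hexp x
    rw [this]; exact hSi
  have hre : IntegrableOn (fun x : ℝ => x ^ (-(1/2) : ℝ) * ‖∑ i ∈ I, (c i : ℂ) * cexp (-(Real.pi * (lam i : ℂ) ^ 2 * x * z))‖ ^ 2) (Ioi 1) := by
    exact hmain.re.congr (Eventually.of_forall fun x => Complex.ofReal_re _)
  refine ⟨hre, ?_⟩
  have hval : ((∫ x in Ioi (1:ℝ), x ^ (-(1/2) : ℝ) * ‖∑ i ∈ I, (c i : ℂ) * cexp (-(Real.pi * (lam i : ℂ) ^ 2 * x * z))‖ ^ 2 : ℝ) : ℂ)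
      = ∑ i ∈ I, ∑ j ∈ I, ∫ x in Ioi (1:ℝ), g i j x := by
    rw [← integral_complex_ofReal]
    rw [setIntegral_congr_fun measurableSet_Ioi (fun x _ => hexp x), integral_finsetSum]
    · refine Finset.sum_congr rfl fun i hi => ?_
      rw [integral_finsetSum]
      intro j hj
      exact hgi i hi j hj
    · intro i hi
      apply integrable_finsetSum
      intro j hj
      exact hgi i hi j hj
  have hnn : 0 ≤ ∫ x in Ioi (1:ℝ), x ^ (-(1/2) : ℝ) * ‖∑ i ∈ I, (c i : ℂ) * cexp (-(Real.pi * (lam i : ℂ) ^ 2 * x * z))‖ ^ 2 := by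
    apply setIntegral_nonneg measurableSet_Ioi
    intro x hx
    have hx1 : (1:ℝ) < x := hx
    have hp : 0 ≤ x ^ (-(1/2) : ℝ) := Real.rpow_nonneg (by linarith only [hx1]) _
    positivity
  rw [← Real.norm_of_nonneg hnn, ← Complex.norm_real, hval]
  refine (norm_sum_le _ _).trans ?_
  rw [← Finset.sum_add_distrib]
  refine Finset.sum_le_sum fun i hi => ?_
  refine (norm_sum_le _ _).trans ?_
  have hdiag : ‖∫ x in Ioi (1:ℝ), g i i x‖ ≤ c i ^ 2 * Real.exp (-(Real.pi * lam i ^ 2 * z.re)) / (lam i * Real.sqrt z.re) := by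
    have hl := hlam i hi
    have e : ∀ x : ℝ, g i i x = ((c i ^ 2 * (x ^ (-(1/2) : ℝ) * Real.exp (-(2 * (Real.pi * lam i ^ 2 * z.re) * x))) : ℝ) : ℂ) := by
      intro x
      rw [hg]
      simp only
      have : w i i = ((2 * (Real.pi * lam i ^ 2 * z.re) : ℝ) : ℂ) := by
        apply Complex.ext
        · rw [hwre, Complex.ofReal_re]; ring
        · rw [hwim, Complex.ofReal_im]; ring
      rw [this]
      push_cast
      ring
    rw [setIntegral_congr_fun measurableSet_Ioi (fun x _ => e x), integral_complex_ofReal, Complex.norm_real,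
      integral_const_mul]
    have hd := diag_int (a := Real.pi * lam i ^ 2 * z.re) (by positivity)
    have hd0 : 0 ≤ ∫ x in Ioi (1:ℝ), x ^ (-(1/2) : ℝ) * Real.exp (-(2 * (Real.pi * lam i ^ 2 * z.re) * x)) := by
      apply setIntegral_nonneg measurableSet_Ioi
      intro x hx
      have hx1 : (1:ℝ) < x := hx
      have hp : 0 ≤ x ^ (-(1/2) : ℝ) := Real.rpow_nonneg (by linarith only [hx1]) _
      positivity
    rw [Real.norm_of_nonneg (by positivity)]
    have hsq : Real.sqrt (Real.pi / (Real.pi * lam i ^ 2 * z.re)) = 1 / (lam i * Real.sqrt z.re) := by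
      have e3 : Real.pi / (Real.pi * lam i ^ 2 * z.re) = (1 / lam i) ^ 2 * (1 / z.re) := by
        field_simp
      rw [e3, Real.sqrt_mul (by positivity), Real.sqrt_sq (by positivity), Real.sqrt_div zero_le_one, Real.sqrt_one]
      field_simp
    rw [hsq] at hd
    calc c i ^ 2 * _ ≤ c i ^ 2 * (Real.exp (-(Real.pi * lam i ^ 2 * z.re)) * (1 / (lam i * Real.sqrt z.re))) :=
          mul_le_mul_of_nonneg_left hd.2 (sq_nonneg _)
      _ = _ := by ring
  have hoff : ∀ j ∈ I, i ≠ j → ‖∫ x in Ioi (1:ℝ), g i j x‖ ≤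
      |c i| * |c j| * (2 * Real.exp (-(Real.pi * (lam i ^ 2 + lam j ^ 2) * z.re)) / |lam i ^ 2 - lam j ^ 2|) := by
    intro j hj hij
    have h1 := (osc_int (hwpos i hi j hj)).2
    have hli := hlam i hi
    have hlj := hlam j hj
    have hne : lam i ^ 2 - lam j ^ 2 ≠ 0 := by
      intro h
      have h2 : (lam i - lam j) * (lam i + lam j) = 0 := by linear_combination h
      rcases mul_eq_zero.mp h2 with h3 | h3
      · exact hinj i hi j hj hij (by linarith only [h3])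
      · linarith only [hli, hlj, h3]
    have habs : 0 < |lam i ^ 2 - lam j ^ 2| := abs_pos.mpr hne
    have hwn : |lam i ^ 2 - lam j ^ 2| ≤ ‖w i j‖ := by
      have h4 := Complex.abs_im_le_norm (w i j)
      rw [hwim, abs_mul, abs_mul, abs_of_pos Real.pi_pos] at h4
      refine le_trans ?_ h4
      have := Real.pi_gt_three
      have h5 : 1 ≤ Real.pi * |z.im| := by nlinarith only [hzi, this, abs_nonneg z.im]
      calc |lam i ^ 2 - lam j ^ 2| = |lam i ^ 2 - lam j ^ 2| * 1 := by ring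
        _ ≤ |lam i ^ 2 - lam j ^ 2| * (Real.pi * |z.im|) := by gcongr
        _ = _ := by ring
    rw [hg]
    simp only
    rw [integral_const_mul, norm_mul, Complex.norm_real, Real.norm_eq_abs, abs_mul]
    apply mul_le_mul_of_nonneg_left _ (by positivity)
    refine h1.trans ?_
    rw [hwre]
    gcongr
  calc ∑ j ∈ I, ‖∫ x in Ioi (1:ℝ), g i j x‖
      = ‖∫ x in Ioi (1:ℝ), g i i x‖ + ∑ j ∈ I.erase i, ‖∫ x in Ioi (1:ℝ), g i j x‖ := by
        rw [Finset.add_sum_erase I (fun j => ‖∫ x in Ioi (1:ℝ), g i j x‖) hi]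
    _ ≤ c i ^ 2 * Real.exp (-(Real.pi * lam i ^ 2 * z.re)) / (lam i * Real.sqrt z.re) +
        ∑ j ∈ I.erase i, (if i = j then 0 else
          |c i| * |c j| * (2 * Real.exp (-(Real.pi * (lam i ^ 2 + lam j ^ 2) * z.re)) / |lam i ^ 2 - lam j ^ 2|)) := by
        apply add_le_add hdiag
        refine Finset.sum_le_sum fun j hj => ?_
        rw [Finset.mem_erase] at hj
        rw [if_neg hj.1.symm]
        exact hoff j hj.2 hj.1.symm
    _ ≤ _ := by
        apply add_le_add le_rfl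
        apply Finset.sum_le_sum_of_subset_of_nonneg (Finset.erase_subset _ _)
        intro j _ _
        split_ifs
        · exact le_rfl
        · positivity

end Pool.Agent.Helper57.LH

end

/-! ### Helper57.LH.Half1 -/

section

namespace Pool.Agent.Helper57.LH

open Finset MeasureTheory

lemma L_le {s : ℝ} (hs : 0 < s) : Real.log (1 / s) ≤ 2 / Real.sqrt s := by
  have h1 : Real.log (1 / s) = 2 * Real.log (1 / Real.sqrt s) := by
    rw [one_div, one_div, Real.log_inv, Real.log_inv, Real.log_sqrt hs.le]; ring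
  have h2 := Real.log_le_sub_one_of_pos (show 0 < 1 / Real.sqrt s by positivity)
  rw [h1]
  have : 2 / Real.sqrt s = 2 * (1 / Real.sqrt s) := by ring
  rw [this]
  linarith only [h2]

lemma half1_num {X s : ℝ} (hX : 3 ≤ X) (hs : 0 < s) (hs1 : 1 ≤ Real.log (1 / s)) (hXs : Real.log X ≤ Real.log (1 / s))
    (K : ℕ) :
    ∑ N ∈ Ioc 0 K, bmol X N ^ 2 * Real.exp (-(Real.pi * (N:ℝ) ^ 2 * s)) / (N * Real.sqrt s)
      + ∑ N ∈ Ioc 0 K, ∑ M ∈ Ioc 0 K, (if N = M then 0 else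
        |bmol X N| * |bmol X M| * (2 * Real.exp (-(Real.pi * ((N:ℝ) ^ 2 + (M:ℝ) ^ 2) * s)) / |(N:ℝ) ^ 2 - (M:ℝ) ^ 2|))
    ≤ 34 * Real.exp 1 * CQ * Real.log (1 / s) / (Real.sqrt s * Real.log X) := by
  set L := Real.log (1 / s) with hL
  have hlX : 0 < Real.log X := Real.log_pos (by linarith only [hX])
  have hL0 : 0 < L := by linarith only [hs1]
  have hsq : 0 < Real.sqrt s := Real.sqrt_pos.mpr hs
  have hCQ := CQ_pos
  have hb : ∑ N ∈ Ioc 0 K, bmol X N ^ 2 * ew (1 / L) N ≤ (1 + L) * (CQ / Real.log X) := by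
    have := sum_bmol_sq_le (X := X) (ε := 1 / L) hX (by positivity) (by
      rw [div_mul_eq_mul_div, one_mul, div_le_one hL0]; exact hXs) K
    simpa using this
  have hew : ∀ N : ℕ, 0 < N → Real.exp (-(1 / L) * Real.log N) / N = ew (1 / L) N := by
    intro N hN
    rw [ew_eq _ hN.ne']
  have h1 : ∑ N ∈ Ioc 0 K, bmol X N ^ 2 * Real.exp (-(Real.pi * (N:ℝ) ^ 2 * s)) / (N * Real.sqrt s)
      ≤ Real.exp 1 / Real.sqrt s * ((1 + L) * (CQ / Real.log X)) := by
    refine le_trans ?_ (mul_le_mul_of_nonneg_left hb (by positivity))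
    rw [mul_sum]
    refine sum_le_sum fun N hN => ?_
    rw [mem_Ioc] at hN
    have hN0 : (0:ℝ) < N := by exact_mod_cast hN.1
    rw [← hew N hN.1]
    have := wt0 hs hs1 hN.1
    rw [← hL] at this
    calc bmol X N ^ 2 * Real.exp (-(Real.pi * (N:ℝ) ^ 2 * s)) / (N * Real.sqrt s)
        ≤ bmol X N ^ 2 * (Real.exp 1 * Real.exp (-(1 / L) * Real.log N)) / (N * Real.sqrt s) := by gcongr
      _ = _ := by field_simp
  have h2 : ∑ N ∈ Ioc 0 K, ∑ M ∈ Ioc 0 K, (if N = M then 0 else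
        |bmol X N| * |bmol X M| * (2 * Real.exp (-(Real.pi * ((N:ℝ) ^ 2 + (M:ℝ) ^ 2) * s)) / |(N:ℝ) ^ 2 - (M:ℝ) ^ 2|))
      ≤ 4 * (Real.exp 1 * (1 + L)) * ((1 + L) * (CQ / Real.log X)) := by
    refine (off_gen (bmol X) K hs).trans ?_
    refine le_trans ?_ (mul_le_mul_of_nonneg_left hb (by positivity))
    rw [mul_sum, mul_sum]
    refine sum_le_sum fun N hN => ?_
    rw [mem_Ioc] at hN
    have hN0 : (0:ℝ) < N := by exact_mod_cast hN.1
    rw [← hew N hN.1]
    have := wt1 hs hs1 hN.1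
    rw [← hL] at this
    calc 4 * (bmol X N ^ 2 * Real.exp (-(Real.pi * (N:ℝ) ^ 2 * s)) * (1 + Real.log N) / N)
        = 4 * (bmol X N ^ 2 * ((1 + Real.log N) * Real.exp (-(Real.pi * (N:ℝ) ^ 2 * s))) / N) := by ring
      _ ≤ 4 * (bmol X N ^ 2 * (Real.exp 1 * (1 + L) * Real.exp (-(1 / L) * Real.log N)) / N) := by gcongr
      _ = _ := by ring
  have h3 : L ≤ 2 / Real.sqrt s := L_le hs
  have h4 : 1 + L ≤ 2 * L := by linarith only [hs1]
  have h5 : 4 * (1 + L) ≤ 16 / Real.sqrt s := by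
    have : 16 / Real.sqrt s = 8 * (2 / Real.sqrt s) := by ring
    rw [this]; linarith only [hs1, h3]
  calc _ ≤ Real.exp 1 / Real.sqrt s * ((1 + L) * (CQ / Real.log X)) +
        4 * (Real.exp 1 * (1 + L)) * ((1 + L) * (CQ / Real.log X)) := add_le_add h1 h2
    _ = Real.exp 1 * ((1 + L) * (CQ / Real.log X)) * (1 / Real.sqrt s + 4 * (1 + L)) := by ring
    _ ≤ Real.exp 1 * ((2 * L) * (CQ / Real.log X)) * (1 / Real.sqrt s + 16 / Real.sqrt s) := by gcongr
    _ = _ := by field_simp; ring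

open Complex in
/-- truncated first half -/
theorem half1_fin {X : ℝ} {z : ℂ} (hX : 3 ≤ X) (hz : 0 < z.re) (hzi : 1 / 2 ≤ |z.im|)
    (hs1 : 1 ≤ Real.log (1 / z.re)) (hXs : Real.log X ≤ Real.log (1 / z.re)) (K : ℕ) :
    IntegrableOn (fun x : ℝ => x ^ (-(1/2) : ℝ) *
      ‖∑ N ∈ Ioc 0 K, (bmol X N : ℂ) * cexp (-(Real.pi * (((N:ℝ)) : ℂ) ^ 2 * x * z))‖ ^ 2) (Set.Ioi 1) ∧
    ∫ x in Set.Ioi (1:ℝ), x ^ (-(1/2) : ℝ) *
      ‖∑ N ∈ Ioc 0 K, (bmol X N : ℂ) * cexp (-(Real.pi * (((N:ℝ)) : ℂ) ^ 2 * x * z))‖ ^ 2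
      ≤ 34 * Real.exp 1 * CQ * Real.log (1 / z.re) / (Real.sqrt z.re * Real.log X) := by
  have h := L2_fin (Ioc 0 K) (fun N : ℕ => (N:ℝ)) (bmol X) z hz hzi
    (fun i hi => by rw [mem_Ioc] at hi; exact_mod_cast hi.1)
    (fun i _ j _ hij => by exact_mod_cast hij)
  exact ⟨h.1, h.2.trans (half1_num hX hz hs1 hXs K)⟩

end Pool.Agent.Helper57.LH

end

/-! ### Helper57.LH.Half2 -/

section

namespace Pool.Agent.Helper57.LH

open Finset MeasureTheory

/-- reduced fractions p/q, stored as (q,p) -/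
def Iq (X0 K : ℕ) : Finset (ℕ × ℕ) :=
  (Ioc 0 X0 ×ˢ Ioc 0 (K * X0)).filter (fun i => i.2 ≤ K * i.1 ∧ Nat.Coprime i.2 i.1)

lemma mem_Iq {X0 K : ℕ} {i : ℕ × ℕ} : i ∈ Iq X0 K ↔
    (0 < i.1 ∧ i.1 ≤ X0) ∧ (0 < i.2 ∧ i.2 ≤ K * X0) ∧ i.2 ≤ K * i.1 ∧ Nat.Coprime i.2 i.1 := by
  unfold Iq
  simp only [mem_filter, mem_product, mem_Ioc]
  tauto

lemma regroup_one (F : ℝ → ℂ) (X0 K : ℕ) {h : ℕ} (hh : h ∈ Ioc 0 X0) :
    ∑ n ∈ Ioc 0 (K * h), F ((n:ℝ) / h) = ∑ i ∈ (Iq X0 K).filter (fun i => i.1 ∣ h), F ((i.2:ℝ) / i.1) := by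
  rw [mem_Ioc] at hh
  obtain ⟨h0, hX⟩ := hh
  apply Finset.sum_nbij' (fun n => (h / Nat.gcd n h, n / Nat.gcd n h)) (fun i => i.2 * (h / i.1))
  · intro n hn
    rw [mem_Ioc] at hn
    have hg : 0 < Nat.gcd n h := Nat.gcd_pos_of_pos_left _ hn.1
    have hgh : Nat.gcd n h ∣ h := Nat.gcd_dvd_right _ _
    have hgn : Nat.gcd n h ∣ n := Nat.gcd_dvd_left _ _
    have hq0 : 0 < h / Nat.gcd n h := Nat.div_pos (Nat.le_of_dvd h0 hgh) hg
    have hp0 : 0 < n / Nat.gcd n h := Nat.div_pos (Nat.le_of_dvd hn.1 hgn) hg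
    have hqX : h / Nat.gcd n h ≤ X0 := (Nat.div_le_self _ _).trans hX
    have hpK : n / Nat.gcd n h ≤ K * (h / Nat.gcd n h) := by
      rw [← Nat.mul_div_assoc _ hgh]
      exact Nat.div_le_div_right hn.2
    rw [mem_filter, mem_Iq]
    refine ⟨⟨⟨hq0, hqX⟩, ⟨hp0, ?_⟩, hpK, Nat.coprime_div_gcd_div_gcd hg⟩, Nat.div_dvd_of_dvd hgh⟩
    exact hpK.trans (Nat.mul_le_mul_left _ hqX)
  · intro i hi
    rw [mem_filter, mem_Iq] at hi
    obtain ⟨⟨⟨hq0, hqX⟩, ⟨hp0, hp1⟩, hpK, hc⟩, hd⟩ := hi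
    rw [mem_Ioc]
    refine ⟨Nat.mul_pos hp0 (Nat.div_pos (Nat.le_of_dvd h0 hd) hq0), ?_⟩
    calc i.2 * (h / i.1) ≤ (K * i.1) * (h / i.1) := Nat.mul_le_mul_right _ hpK
      _ = K * (i.1 * (h / i.1)) := by ring
      _ = K * h := by rw [Nat.mul_div_cancel' hd]
  · intro n hn
    rw [mem_Ioc] at hn
    have hg : 0 < Nat.gcd n h := Nat.gcd_pos_of_pos_left _ hn.1
    have hgh : Nat.gcd n h ∣ h := Nat.gcd_dvd_right _ _
    have hgn : Nat.gcd n h ∣ n := Nat.gcd_dvd_left _ _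
    simp only
    rw [Nat.div_div_self hgh h0.ne', Nat.div_mul_cancel hgn]
  · intro i hi
    rw [mem_filter, mem_Iq] at hi
    obtain ⟨⟨⟨hq0, hqX⟩, ⟨hp0, hp1⟩, hpK, hc⟩, hd⟩ := hi
    obtain ⟨m, rfl⟩ := hd
    have hm : 0 < m := Nat.pos_of_mul_pos_left h0 |> fun _ => by
      rcases Nat.eq_zero_or_pos m with rfl | h
      · simp at h0
      · exact h
    have e1 : i.1 * m / i.1 = m := Nat.mul_div_cancel_left _ hq0
    have e2 : Nat.gcd (i.2 * m) (i.1 * m) = m := by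
      rw [Nat.gcd_mul_right, hc, one_mul]
    rw [e1, e2, Nat.mul_div_cancel _ hm, Nat.mul_div_cancel _ hm]
  · intro n hn
    rw [mem_Ioc] at hn
    have hg : 0 < Nat.gcd n h := Nat.gcd_pos_of_pos_left _ hn.1
    have hgh : Nat.gcd n h ∣ h := Nat.gcd_dvd_right _ _
    have hgn : Nat.gcd n h ∣ n := Nat.gcd_dvd_left _ _
    congr 1
    simp only
    have hgR : ((Nat.gcd n h : ℕ) : ℝ) ≠ 0 := by exact_mod_cast hg.ne'
    rw [Nat.cast_div hgn hgR, Nat.cast_div hgh hgR]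
    have : (h:ℝ) ≠ 0 := by exact_mod_cast h0.ne'
    field_simp

lemma regroup (w : ℕ → ℂ) (F : ℝ → ℂ) (X0 K : ℕ) :
    ∑ h ∈ Ioc 0 X0, w h * ∑ n ∈ Ioc 0 (K * h), F ((n:ℝ) / h) =
      ∑ i ∈ Iq X0 K, (∑ h ∈ (Ioc 0 X0).filter (fun h => i.1 ∣ h), w h) * F ((i.2:ℝ) / i.1) := by
  have h1 : ∀ i ∈ Iq X0 K, (∑ h ∈ (Ioc 0 X0).filter (fun h => i.1 ∣ h), w h) * F ((i.2:ℝ) / i.1)
      = ∑ h ∈ Ioc 0 X0, (if i.1 ∣ h then w h * F ((i.2:ℝ) / i.1) else 0) := by
    intro i _
    rw [sum_filter, sum_mul]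
    refine sum_congr rfl fun h _ => ?_
    split_ifs <;> simp
  rw [sum_congr rfl h1, sum_comm]
  refine sum_congr rfl fun h hh => ?_
  rw [regroup_one F X0 K hh, mul_sum, sum_filter]

lemma Iq_inj {X0 K : ℕ} : ∀ i ∈ Iq X0 K, ∀ j ∈ Iq X0 K, i ≠ j → i.2 * j.1 ≠ j.2 * i.1 := by
  intro i hi j hj hij h
  rw [mem_Iq] at hi hj
  obtain ⟨⟨hq0, _⟩, ⟨hp0, _⟩, _, hc⟩ := hi
  obtain ⟨⟨hq0', _⟩, ⟨hp0', _⟩, _, hc'⟩ := hj
  apply hij
  have h1 : i.1 ∣ j.1 := by
    have : i.1 ∣ i.2 * j.1 := by rw [h]; exact dvd_mul_left _ _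
    exact (Nat.Coprime.dvd_of_dvd_mul_left hc.symm this)
  have h2 : j.1 ∣ i.1 := by
    have : j.1 ∣ j.2 * i.1 := by rw [← h]; exact dvd_mul_left _ _
    exact (Nat.Coprime.dvd_of_dvd_mul_left hc'.symm this)
  have h3 := Nat.dvd_antisymm h1 h2
  have h4 : i.2 = j.2 := by
    rw [h3] at h
    exact Nat.eq_of_mul_eq_mul_right hq0' h
  exact Prod.ext h3 h4

lemma sum_mul_le {φ : ℕ → ℝ} (hφ : ∀ n, 0 ≤ φ n) {c P X0 : ℕ} (hc : 0 < c) (hcX : c ≤ X0) :
    ∑ p ∈ Ioc 0 P, φ (p * c) ≤ ∑ A ∈ Ioc 0 (P * X0), φ A := by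
  have hinj : Set.InjOn (fun p : ℕ => p * c) (Ioc 0 P : Finset ℕ) := by
    intro a _ b _ h
    exact Nat.eq_of_mul_eq_mul_right hc h
  rw [← sum_image (f := φ) hinj]
  apply sum_le_sum_of_subset_of_nonneg
  · intro A hA
    rw [mem_image] at hA
    obtain ⟨p, hp, rfl⟩ := hA
    rw [mem_Ioc] at hp ⊢
    exact ⟨Nat.mul_pos hp.1 hc, Nat.mul_le_mul hp.2 hcX⟩
  · intros; exact hφ _

/-- the sum with unit coefficients -/
lemma unit_off {s : ℝ} (hs : 0 < s) (hs1 : 1 ≤ Real.log (1 / s)) (K : ℕ) :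
    ∑ N ∈ Ioc 0 K, ∑ M ∈ Ioc 0 K, (if N = M then 0 else
      (2 * Real.exp (-(Real.pi * ((N:ℝ) ^ 2 + (M:ℝ) ^ 2) * s)) / |(N:ℝ) ^ 2 - (M:ℝ) ^ 2|))
    ≤ 4 * Real.exp 1 * (1 + Real.log (1 / s)) ^ 2 := by
  have h := off_gen (fun _ => 1) K hs
  simp only [abs_one, one_mul, one_pow] at h
  refine h.trans ?_
  set L := Real.log (1 / s) with hL
  have hL0 : 0 < L := by linarith only [hs1]
  have h2 := sum_ew_le (ε := 1 / L) (by positivity) K
  have h3 : ∑ N ∈ Ioc 0 K, Real.exp (-(Real.pi * (N:ℝ) ^ 2 * s)) * (1 + Real.log N) / N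
      ≤ Real.exp 1 * (1 + L) * ∑ n ∈ Ioc 0 K, ew (1 / L) n := by
    rw [mul_sum]
    refine sum_le_sum fun N hN => ?_
    rw [mem_Ioc] at hN
    have hN0 : (0:ℝ) < N := by exact_mod_cast hN.1
    rw [ew_eq _ hN.1.ne']
    have := wt1 hs hs1 hN.1
    rw [← hL] at this
    calc Real.exp (-(Real.pi * (N:ℝ) ^ 2 * s)) * (1 + Real.log N) / N
        = ((1 + Real.log N) * Real.exp (-(Real.pi * (N:ℝ) ^ 2 * s))) / N := by ring
      _ ≤ (Real.exp 1 * (1 + L) * Real.exp (-(1 / L) * Real.log N)) / N := by gcongr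
      _ = _ := by ring
  calc _ ≤ 4 * (Real.exp 1 * (1 + L) * ∑ n ∈ Ioc 0 K, ew (1 / L) n) := by linarith only [h3]
    _ ≤ 4 * (Real.exp 1 * (1 + L) * (1 + 1 / (1 / L))) := by gcongr
    _ = _ := by rw [one_div_one_div]; ring

lemma abs_yq_le_X {X : ℝ} (hX : 1 < X) (q : ℕ) : |yq X 0 q| ≤ X := by
  unfold yq
  calc |∑ h ∈ (Ioc 0 ⌊X⌋₊).filter (fun h => q ∣ h), amol X h * ew 0 h|
      ≤ ∑ h ∈ (Ioc 0 ⌊X⌋₊).filter (fun h => q ∣ h), |amol X h * ew 0 h| := abs_sum_le_sum_abs _ _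
    _ ≤ ∑ h ∈ (Ioc 0 ⌊X⌋₊).filter (fun h => q ∣ h), (1:ℝ) := by
        refine sum_le_sum fun h hh => ?_
        rw [mem_filter, mem_Ioc] at hh
        rw [abs_mul, abs_of_pos (ew_pos _ _)]
        have h1 := abs_amol_le hX h
        have h2 := ew_le (le_refl (0:ℝ)) hh.1.1.ne'
        have h3 : (1:ℝ) / h ≤ 1 := by
          rw [div_le_one (by exact_mod_cast hh.1.1)]
          exact_mod_cast hh.1.1
        have h4 := ew_pos 0 h
        nlinarith only [h1, h2, h3, h4, abs_nonneg (amol X h)]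
    _ ≤ ∑ h ∈ Ioc 0 ⌊X⌋₊, (1:ℝ) := sum_le_sum_of_subset_of_nonneg (filter_subset _ _) (fun _ _ _ => zero_le_one)
    _ = ⌊X⌋₊ := by simp
    _ ≤ X := Nat.floor_le (by linarith)

lemma half2_diag {X s : ℝ} (hX : 3 ≤ X) (hs : 0 < s) (hs1 : 1 ≤ Real.log (1 / s)) (hXs : Real.log X ≤ Real.log (1 / s))
    (K : ℕ) :
    ∑ i ∈ Iq ⌊X⌋₊ K, yq X 0 i.1 ^ 2 * Real.exp (-(Real.pi * ((i.2:ℝ) / i.1) ^ 2 * s)) / ((i.2:ℝ) / i.1 * Real.sqrt s)
    ≤ 4 * Real.exp 1 * CQ * Real.log (1 / s) / (Real.sqrt s * Real.log X) := by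
  set L := Real.log (1 / s) with hL
  have hlX : 0 < Real.log X := Real.log_pos (by linarith only [hX])
  have hX0 : 0 < X := by linarith only [hX]
  have hL0 : 0 < L := by linarith
  have hsq : 0 < Real.sqrt s := Real.sqrt_pos.mpr hs
  have hCQ := CQ_pos
  calc ∑ i ∈ Iq ⌊X⌋₊ K, yq X 0 i.1 ^ 2 * Real.exp (-(Real.pi * ((i.2:ℝ) / i.1) ^ 2 * s)) / ((i.2:ℝ) / i.1 * Real.sqrt s)
      ≤ ∑ i ∈ Ioc 0 ⌊X⌋₊ ×ˢ Ioc 0 (K * ⌊X⌋₊), yq X 0 i.1 ^ 2 * Real.exp (-(Real.pi * ((i.2:ℝ) / i.1) ^ 2 * s)) / ((i.2:ℝ) / i.1 * Real.sqrt s) := by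
        apply sum_le_sum_of_subset_of_nonneg (filter_subset _ _)
        intro i _ _
        positivity
    _ = ∑ q ∈ Ioc 0 ⌊X⌋₊, ∑ p ∈ Ioc 0 (K * ⌊X⌋₊), yq X 0 q ^ 2 * Real.exp (-(Real.pi * ((p:ℝ) / q) ^ 2 * s)) / ((p:ℝ) / q * Real.sqrt s) := by
        rw [sum_product]
    _ ≤ ∑ q ∈ Ioc 0 ⌊X⌋₊, (4 * Real.exp 1 * L / Real.sqrt s) * ((q:ℝ) * Real.exp (0 * Real.log q) * yq X 0 q ^ 2) := by
        refine sum_le_sum fun q hq => ?_
        rw [mem_Ioc] at hq
        have hq0 : (0:ℝ) < q := by exact_mod_cast hq.1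
        have hq1 : (1:ℝ) ≤ q := by exact_mod_cast hq.1
        have hqX : (q:ℝ) ≤ X := by
          have := Nat.floor_le hX0.le
          have h2 : (q:ℝ) ≤ ⌊X⌋₊ := by exact_mod_cast hq.2
          linarith only [this, h2]
        set s' := s / (q:ℝ) ^ 2 with hs'
        have hs'0 : 0 < s' := by positivity
        have hL' : Real.log (1 / s') = L + 2 * Real.log q := by
          rw [hs', one_div_div, Real.log_div (by positivity) hs.ne', Real.log_pow, hL, one_div, Real.log_inv]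
          push_cast; ring
        have hlq : 0 ≤ Real.log q := Real.log_nonneg hq1
        have hlq2 : Real.log q ≤ L := (Real.log_le_log hq0 hqX).trans hXs
        have hs'1 : 1 ≤ Real.log (1 / s') := by rw [hL']; linarith only [hs1, hlq]
        set L' := Real.log (1 / s') with hL'def
        have hL'0 : 0 < L' := by linarith only [hs1, hlq, hL']
        have hsum := sum_ew_le (ε := 1 / L') (by positivity) (K * ⌊X⌋₊)
        rw [one_div_one_div] at hsum
        have hbd : ∑ p ∈ Ioc 0 (K * ⌊X⌋₊), yq X 0 q ^ 2 * Real.exp (-(Real.pi * ((p:ℝ) / q) ^ 2 * s)) / ((p:ℝ) / q * Real.sqrt s)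
            ≤ (yq X 0 q ^ 2 * q / Real.sqrt s * Real.exp 1) * ∑ n ∈ Ioc 0 (K * ⌊X⌋₊), ew (1 / L') n := by
          rw [mul_sum]
          refine sum_le_sum fun p hp => ?_
          rw [mem_Ioc] at hp
          have hp0 : (0:ℝ) < p := by exact_mod_cast hp.1
          have hw := wt0 hs'0 hs'1 hp.1
          rw [← hL'def] at hw
          have e : Real.pi * ((p:ℝ) / q) ^ 2 * s = Real.pi * (p:ℝ) ^ 2 * s' := by
            rw [hs']; field_simp
          rw [e, ew_eq _ hp.1.ne']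
          calc yq X 0 q ^ 2 * Real.exp (-(Real.pi * (p:ℝ) ^ 2 * s')) / ((p:ℝ) / q * Real.sqrt s)
              ≤ yq X 0 q ^ 2 * (Real.exp 1 * Real.exp (-(1 / L') * Real.log p)) / ((p:ℝ) / q * Real.sqrt s) := by gcongr
            _ = _ := by field_simp
        refine hbd.trans ?_
        calc (yq X 0 q ^ 2 * q / Real.sqrt s * Real.exp 1) * ∑ n ∈ Ioc 0 (K * ⌊X⌋₊), ew (1 / L') n
            ≤ (yq X 0 q ^ 2 * q / Real.sqrt s * Real.exp 1) * (4 * L) := by
              gcongr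
              linarith only [hs1, hlq2, hL', hsum]
          _ = _ := by
              rw [zero_mul, Real.exp_zero]
              ring
    _ = (4 * Real.exp 1 * L / Real.sqrt s) * ∑ q ∈ Ioc 0 ⌊X⌋₊, ((q:ℝ) * Real.exp (0 * Real.log q) * yq X 0 q ^ 2) := by
        rw [mul_sum]
    _ ≤ (4 * Real.exp 1 * L / Real.sqrt s) * (CQ / Real.log X) := by
        gcongr
        exact QF_le hX le_rfl (by simp)
    _ = _ := by field_simp

lemma half2_off {X s : ℝ} (hX : 3 ≤ X) (hs : 0 < s) (hXs : 20 * Real.log X ≤ Real.log (1 / s))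
    (K : ℕ) :
    ∑ i ∈ Iq ⌊X⌋₊ K, ∑ j ∈ Iq ⌊X⌋₊ K, (if i = j then 0 else
        |yq X 0 i.1| * |yq X 0 j.1| * (2 * Real.exp (-(Real.pi * (((i.2:ℝ) / i.1) ^ 2 + ((j.2:ℝ) / j.1) ^ 2) * s)) /
          |((i.2:ℝ) / i.1) ^ 2 - ((j.2:ℝ) / j.1) ^ 2|))
    ≤ Real.exp 1 * CQ * Real.log (1 / s) / (Real.sqrt s * Real.log X) := by
  set L := Real.log (1 / s) with hL
  have hX0 : 0 < X := by linarith only [hX]
  have hlX : 1 ≤ Real.log X := by
    rw [Real.le_log_iff_exp_le (by linarith only [hX])]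
    have := Real.exp_one_lt_d9
    linarith only [hX, this]
  have hL20 : 20 ≤ L := by linarith
  have hL0 : 0 < L := by linarith
  have hsq : 0 < Real.sqrt s := Real.sqrt_pos.mpr hs
  have hCQ := CQ_pos
  set X0 := ⌊X⌋₊ with hX0def
  have hX0X : (X0:ℝ) ≤ X := Nat.floor_le hX0.le
  set P := K * X0 with hP
  -- kernel for fixed denominators
  have hker : ∀ q ∈ Ioc 0 X0, ∀ q' ∈ Ioc 0 X0,
      ∑ p ∈ Ioc 0 P, ∑ p' ∈ Ioc 0 P, (if p * q' = p' * q then 0 else
        (2 * Real.exp (-(Real.pi * (((p:ℝ) / q) ^ 2 + ((p':ℝ) / q') ^ 2) * s)) /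
          |((p:ℝ) / q) ^ 2 - ((p':ℝ) / q') ^ 2|)) ≤ X ^ 4 * (144 * Real.exp 1 * L ^ 2) := by
    intro q hq q' hq'
    rw [mem_Ioc] at hq hq'
    have hq0 : (0:ℝ) < q := by exact_mod_cast hq.1
    have hq1 : (1:ℝ) ≤ q := by exact_mod_cast hq.1
    have hq0' : (0:ℝ) < q' := by exact_mod_cast hq'.1
    have hq1' : (1:ℝ) ≤ q' := by exact_mod_cast hq'.1
    have hqX : (q:ℝ) ≤ X := by
      have h2 : (q:ℝ) ≤ X0 := by exact_mod_cast hq.2
      linarith only [hX0X, h2]
    have hqX' : (q':ℝ) ≤ X := by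
      have h2 : (q':ℝ) ≤ X0 := by exact_mod_cast hq'.2
      linarith only [hX0X, h2]
    set D : ℝ := q * q' with hD
    have hD0 : 0 < D := by positivity
    set s' := s / D ^ 2 with hs'
    have hs'0 : 0 < s' := by positivity
    have hL' : Real.log (1 / s') = L + 2 * (Real.log q + Real.log q') := by
      rw [hs', one_div_div, Real.log_div (by positivity) hs.ne', Real.log_pow, hD,
        Real.log_mul hq0.ne' hq0'.ne', hL, one_div, Real.log_inv]
      push_cast; ring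
    have hlq : 0 ≤ Real.log q := Real.log_nonneg hq1
    have hlq' : 0 ≤ Real.log q' := Real.log_nonneg hq1'
    have hlq2 : Real.log q ≤ Real.log X := (Real.log_le_log hq0 hqX)
    have hlq2' : Real.log q' ≤ Real.log X := (Real.log_le_log hq0' hqX')
    have hs'1 : 1 ≤ Real.log (1 / s') := by rw [hL']; linarith only [hXs, hlX, hlq, hlq']
    have hL'5 : Real.log (1 / s') ≤ 5 * L := by rw [hL']; linarith only [hXs, hlX, hlq2, hlq2']
    set G : ℕ → ℕ → ℝ := fun A B => (if A = B then 0 else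
      D ^ 2 * (2 * Real.exp (-(Real.pi * ((A:ℝ) ^ 2 + (B:ℝ) ^ 2) * s')) / |(A:ℝ) ^ 2 - (B:ℝ) ^ 2|)) with hG
    have hG0 : ∀ A B, 0 ≤ G A B := by intro A B; rw [hG]; simp only; split_ifs <;> positivity
    have hterm : ∀ p p' : ℕ, (if p * q' = p' * q then 0 else
        (2 * Real.exp (-(Real.pi * (((p:ℝ) / q) ^ 2 + ((p':ℝ) / q') ^ 2) * s)) /
          |((p:ℝ) / q) ^ 2 - ((p':ℝ) / q') ^ 2|)) = G (p * q') (p' * q) := by
      intro p p'
      rw [hG]
      simp only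
      split_ifs with h
      · rfl
      · have e1 : ((p:ℝ) / q) ^ 2 + ((p':ℝ) / q') ^ 2 = (((p * q' : ℕ) : ℝ) ^ 2 + ((p' * q : ℕ) : ℝ) ^ 2) / D ^ 2 := by
          rw [hD]; push_cast; field_simp
        have e2 : ((p:ℝ) / q) ^ 2 - ((p':ℝ) / q') ^ 2 = (((p * q' : ℕ) : ℝ) ^ 2 - ((p' * q : ℕ) : ℝ) ^ 2) / D ^ 2 := by
          rw [hD]; push_cast; field_simp
        rw [e1, e2, abs_div, abs_of_pos (show 0 < D ^ 2 by positivity)]
        rw [show Real.pi * ((((p * q' : ℕ) : ℝ) ^ 2 + ((p' * q : ℕ) : ℝ) ^ 2) / D ^ 2) * s =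
          Real.pi * (((p * q' : ℕ) : ℝ) ^ 2 + ((p' * q : ℕ) : ℝ) ^ 2) * s' by rw [hs']; ring]
        rw [div_div_eq_mul_div]
        ring
    calc ∑ p ∈ Ioc 0 P, ∑ p' ∈ Ioc 0 P, (if p * q' = p' * q then 0 else
        (2 * Real.exp (-(Real.pi * (((p:ℝ) / q) ^ 2 + ((p':ℝ) / q') ^ 2) * s)) /
          |((p:ℝ) / q) ^ 2 - ((p':ℝ) / q') ^ 2|))
        = ∑ p ∈ Ioc 0 P, ∑ p' ∈ Ioc 0 P, G (p * q') (p' * q) :=
          sum_congr rfl fun p _ => sum_congr rfl fun p' _ => hterm p p'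
      _ ≤ ∑ p ∈ Ioc 0 P, ∑ B ∈ Ioc 0 (P * X0), G (p * q') B :=
          sum_le_sum fun p _ => sum_mul_le (φ := fun B => G (p * q') B) (fun B => hG0 _ _) hq.1 hq.2
      _ ≤ ∑ A ∈ Ioc 0 (P * X0), ∑ B ∈ Ioc 0 (P * X0), G A B :=
          sum_mul_le (φ := fun A => ∑ B ∈ Ioc 0 (P * X0), G A B)
            (fun A => sum_nonneg fun B _ => hG0 _ _) hq'.1 hq'.2
      _ = D ^ 2 * ∑ A ∈ Ioc 0 (P * X0), ∑ B ∈ Ioc 0 (P * X0), (if A = B then 0 else
          (2 * Real.exp (-(Real.pi * ((A:ℝ) ^ 2 + (B:ℝ) ^ 2) * s')) / |(A:ℝ) ^ 2 - (B:ℝ) ^ 2|)) := by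
          rw [mul_sum]
          refine sum_congr rfl fun A _ => ?_
          rw [mul_sum]
          refine sum_congr rfl fun B _ => ?_
          rw [hG]
          simp only
          split_ifs <;> simp
      _ ≤ D ^ 2 * (4 * Real.exp 1 * (1 + Real.log (1 / s')) ^ 2) := by
          gcongr
          exact unit_off hs'0 hs'1 _
      _ ≤ X ^ 4 * (4 * Real.exp 1 * (6 * L) ^ 2) := by
          have hDX : D ^ 2 ≤ X ^ 4 := by
            have : D ≤ X * X := by rw [hD]; gcongr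
            calc D ^ 2 ≤ (X * X) ^ 2 := by gcongr
              _ = X ^ 4 := by ring
          have h6 : 1 + Real.log (1 / s') ≤ 6 * L := by linarith only [hXs, hlX, hL', hlq2, hlq2']
          gcongr
      _ = _ := by ring
  -- total
  have htot : ∑ i ∈ Iq X0 K, ∑ j ∈ Iq X0 K, (if i = j then 0 else
        |yq X 0 i.1| * |yq X 0 j.1| * (2 * Real.exp (-(Real.pi * (((i.2:ℝ) / i.1) ^ 2 + ((j.2:ℝ) / j.1) ^ 2) * s)) /
          |((i.2:ℝ) / i.1) ^ 2 - ((j.2:ℝ) / j.1) ^ 2|)) ≤ X ^ 8 * (144 * Real.exp 1 * L ^ 2) := by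
    set T : ℕ × ℕ → ℕ × ℕ → ℝ := fun i j => X * X * (if i.2 * j.1 = j.2 * i.1 then 0 else
        (2 * Real.exp (-(Real.pi * (((i.2:ℝ) / i.1) ^ 2 + ((j.2:ℝ) / j.1) ^ 2) * s)) /
          |((i.2:ℝ) / i.1) ^ 2 - ((j.2:ℝ) / j.1) ^ 2|)) with hT
    have hT0 : ∀ i j, 0 ≤ T i j := by
      intro i j; rw [hT]; simp only
      apply mul_nonneg (by positivity)
      split_ifs <;> positivity
    have hle : ∀ i ∈ Iq X0 K, ∀ j ∈ Iq X0 K, (if i = j then 0 else
        |yq X 0 i.1| * |yq X 0 j.1| * (2 * Real.exp (-(Real.pi * (((i.2:ℝ) / i.1) ^ 2 + ((j.2:ℝ) / j.1) ^ 2) * s)) /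
          |((i.2:ℝ) / i.1) ^ 2 - ((j.2:ℝ) / j.1) ^ 2|)) ≤ T i j := by
      intro i hi j hj
      split_ifs with h
      · exact hT0 _ _
      · rw [hT]
        simp only
        rw [if_neg (Iq_inj i hi j hj h)]
        have hy1 := abs_yq_le_X (show 1 < X by linarith only [hX]) i.1
        have hy2 := abs_yq_le_X (show 1 < X by linarith only [hX]) j.1
        gcongr
    calc _ ≤ ∑ i ∈ Iq X0 K, ∑ j ∈ Iq X0 K, T i j := sum_le_sum fun i hi => sum_le_sum fun j hj => hle i hi j hj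
      _ ≤ ∑ i ∈ Ioc 0 X0 ×ˢ Ioc 0 P, ∑ j ∈ Ioc 0 X0 ×ˢ Ioc 0 P, T i j := by
          refine (sum_le_sum_of_subset_of_nonneg (filter_subset _ _) ?_).trans ?_
          · intro i _ _; exact sum_nonneg fun j _ => hT0 _ _
          · refine sum_le_sum fun i _ => ?_
            exact sum_le_sum_of_subset_of_nonneg (filter_subset _ _) (fun j _ _ => hT0 _ _)
      _ = ∑ q ∈ Ioc 0 X0, ∑ q' ∈ Ioc 0 X0, ∑ p ∈ Ioc 0 P, ∑ p' ∈ Ioc 0 P, T (q, p) (q', p') := by
          rw [sum_product]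
          refine sum_congr rfl fun q _ => ?_
          rw [sum_comm]
          rw [sum_product]
          refine sum_congr rfl fun q' _ => ?_
          rw [sum_comm]
      _ ≤ ∑ q ∈ Ioc 0 X0, ∑ q' ∈ Ioc 0 X0, X * X * (X ^ 4 * (144 * Real.exp 1 * L ^ 2)) := by
          refine sum_le_sum fun q hq => sum_le_sum fun q' hq' => ?_
          have := hker q hq q' hq'
          rw [hT]
          simp only
          simp_rw [← mul_sum]
          gcongr
      _ = X0 * (X0 * (X * X * (X ^ 4 * (144 * Real.exp 1 * L ^ 2)))) := by simp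
      _ ≤ X * (X * (X * X * (X ^ 4 * (144 * Real.exp 1 * L ^ 2)))) := by gcongr
      _ = _ := by ring
  refine htot.trans ?_
  have hX8 : X ^ 8 ≤ Real.exp (2 / 5 * L) := by
    have : X ^ 8 = Real.exp (8 * Real.log X) := by
      rw [show (8:ℝ) * Real.log X = ((8:ℕ):ℝ) * Real.log X by norm_num, Real.exp_nat_mul, Real.exp_log hX0]
    rw [this]
    apply Real.exp_le_exp.mpr
    linarith only [hXs]
  have hL2 : L ^ 2 ≤ 400 * Real.exp (1 / 10 * L) := by
    have h1 := Real.add_one_le_exp (L / 20)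
    have h2 : L ≤ 20 * Real.exp (L / 20) := by linarith only [h1]
    calc L ^ 2 ≤ (20 * Real.exp (L / 20)) ^ 2 := by gcongr
      _ = 400 * Real.exp (1 / 10 * L) := by
          rw [mul_pow, ← Real.exp_nat_mul]
          congr 1
          · norm_num
          · congr 1; push_cast; ring
  have hsqrt : Real.exp (1 / 2 * L) = 1 / Real.sqrt s := by
    rw [hL, one_div s, Real.log_inv]
    rw [show 1 / 2 * -Real.log s = -Real.log (Real.sqrt s) by rw [Real.log_sqrt hs.le]; ring, Real.exp_neg,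
      Real.exp_log hsq, one_div]
  have hCQ2 : 57600 ≤ CQ := by
    unfold CQ
    have h1 : 1 ≤ Real.exp 1 := Real.one_le_exp (by norm_num)
    have h6 : (2:ℝ) ≤ Real.exp 6 := by
      have := Real.add_one_le_exp (6:ℝ); linarith only [this]
    calc (57600:ℝ) ≤ 128 ^ 2 * 1 * 2 * 2 := by norm_num
      _ ≤ _ := by gcongr
  have hfin : 1 ≤ L / Real.log X := by rw [le_div_iff₀ (by linarith only [hlX])]; linarith only [hXs, hlX]
  calc X ^ 8 * (144 * Real.exp 1 * L ^ 2) ≤ Real.exp (2 / 5 * L) * (144 * Real.exp 1 * (400 * Real.exp (1 / 10 * L))) := by gcongr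
    _ = 57600 * Real.exp 1 * (Real.exp (2 / 5 * L) * Real.exp (1 / 10 * L)) := by ring
    _ = 57600 * Real.exp 1 * (1 / Real.sqrt s) := by
        rw [← Real.exp_add, ← hsqrt]; congr 2; ring
    _ ≤ CQ * Real.exp 1 * (1 / Real.sqrt s) * 1 := by rw [mul_one]; gcongr
    _ ≤ CQ * Real.exp 1 * (1 / Real.sqrt s) * (L / Real.log X) := by gcongr
    _ = _ := by field_simp

open Complex in
/-- truncated second half -/
theorem half2_fin {X : ℝ} {z : ℂ} (hX : 3 ≤ X) (hz : 0 < z.re) (hzi : 1 / 2 ≤ |z.im|)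
    (hXs : 20 * Real.log X ≤ Real.log (1 / z.re)) (K : ℕ) :
    IntegrableOn (fun x : ℝ => x ^ (-(1/2) : ℝ) *
      ‖∑ i ∈ Iq ⌊X⌋₊ K, (yq X 0 i.1 : ℂ) * cexp (-(Real.pi * (((i.2:ℝ) / i.1 : ℝ) : ℂ) ^ 2 * x * z))‖ ^ 2) (Set.Ioi 1) ∧
    ∫ x in Set.Ioi (1:ℝ), x ^ (-(1/2) : ℝ) *
      ‖∑ i ∈ Iq ⌊X⌋₊ K, (yq X 0 i.1 : ℂ) * cexp (-(Real.pi * (((i.2:ℝ) / i.1 : ℝ) : ℂ) ^ 2 * x * z))‖ ^ 2
      ≤ 5 * Real.exp 1 * CQ * Real.log (1 / z.re) / (Real.sqrt z.re * Real.log X) := by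
  have hlX : 1 ≤ Real.log X := by
    rw [Real.le_log_iff_exp_le (by linarith only [hX])]
    have := Real.exp_one_lt_d9
    linarith only [hX, this]
  have h := L2_fin (Iq ⌊X⌋₊ K) (fun i : ℕ × ℕ => (i.2:ℝ) / i.1) (fun i => yq X 0 i.1) z hz hzi
    (fun i hi => by
      rw [mem_Iq] at hi
      have h1 : (0:ℝ) < i.1 := by exact_mod_cast hi.1.1
      have h2 : (0:ℝ) < i.2 := by exact_mod_cast hi.2.1.1
      positivity)
    (fun i hi j hj hij => by
      have h0 := Iq_inj i hi j hj hij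
      rw [mem_Iq] at hi hj
      have h1 : (i.1:ℝ) ≠ 0 := by exact_mod_cast hi.1.1.ne'
      have h2 : (j.1:ℝ) ≠ 0 := by exact_mod_cast hj.1.1.ne'
      intro h
      apply h0
      rw [div_eq_div_iff h1 h2] at h
      exact_mod_cast h)
  refine ⟨h.1, h.2.trans ?_⟩
  have h1 := half2_diag hX hz (by linarith only [hXs, hlX]) (by linarith only [hXs, hlX]) K
  have h2 := half2_off hX hz hXs K
  refine (add_le_add h1 h2).trans (le_of_eq ?_)
  ring

end Pool.Agent.Helper57.LH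

end

/-! ### Helper57.LH.Theta -/

section

namespace Pool.Agent.Helper57.LH

open Complex Set MeasureTheory Filter Topology Asymptotics

/-- twisted theta function -/
noncomputable def th (z : ℂ) (x : ℝ) : ℂ := jacobiTheta (I * x * z)

lemma im_arg {z : ℂ} (x : ℝ) : (I * x * z).im = x * z.re := by
  simp [Complex.mul_im, Complex.mul_re]

lemma im_arg_pos {z : ℂ} (hz : 0 < z.re) {x : ℝ} (hx : 0 < x) : 0 < (I * x * z).im := by
  rw [im_arg]; positivity

lemma hasSum_th {z : ℂ} (hz : 0 < z.re) {x : ℝ} (hx : 0 < x) :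
    HasSum (fun n : ℕ => cexp (-(Real.pi * ((n:ℂ) + 1) ^ 2 * x * z))) ((th z x - 1) / 2) := by
  have := hasSum_nat_jacobiTheta (im_arg_pos hz hx)
  have e : (fun n : ℕ => cexp (-(Real.pi * ((n:ℂ) + 1) ^ 2 * x * z))) =
      fun n : ℕ => cexp (Real.pi * I * ((n : ℂ) + 1) ^ 2 * (I * x * z)) := by
    funext n
    congr 1
    linear_combination (-(Real.pi : ℂ) * ((n:ℂ) + 1) ^ 2 * x * z) * I_sq
  rw [e]
  exact this

lemma continuousAt_th {z : ℂ} (hz : 0 < z.re) {x : ℝ} (hx : 0 < x) : ContinuousAt (th z) x := by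
  unfold th
  have h1 := continuousAt_jacobiTheta (im_arg_pos hz hx)
  exact ContinuousAt.comp (f := fun x : ℝ => I * x * z) h1 (by fun_prop)

lemma locallyIntegrable_th {z : ℂ} (hz : 0 < z.re) : LocallyIntegrableOn (th z) (Ioi 0) := by
  refine ContinuousOn.locallyIntegrableOn ?_ measurableSet_Ioi
  exact fun x hx => (continuousAt_th hz hx).continuousWithinAt

lemma norm_th_sub_one_le {z : ℂ} (hz : 0 < z.re) {x : ℝ} (hx : 0 < x) :
    ‖th z x - 1‖ ≤ 2 / (1 - Real.exp (-Real.pi * (x * z.re))) * Real.exp (-Real.pi * (x * z.re)) := by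
  have := norm_jacobiTheta_sub_one_le (im_arg_pos hz hx)
  rw [im_arg] at this
  exact this

lemma th_top {z : ℂ} (hz : 0 < z.re) (r : ℝ) :
    (fun x => th z x - 1) =O[atTop] (fun x : ℝ => x ^ r) := by
  have h1 : (fun x => th z x - 1) =O[atTop] (fun x : ℝ => Real.exp (-(Real.pi * z.re) * x)) := by
    have hev : ∀ᶠ x : ℝ in atTop, ‖th z x - 1‖ ≤ 4 * ‖Real.exp (-(Real.pi * z.re) * x)‖ := by
      have ht : Tendsto (fun x : ℝ => Real.exp (-Real.pi * (x * z.re))) atTop (𝓝 0) := by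
        apply Real.tendsto_exp_atBot.comp
        have : (fun x : ℝ => -Real.pi * (x * z.re)) = fun x : ℝ => -((Real.pi * z.re) * x) := by
          funext x; ring
        rw [this]
        exact tendsto_neg_atTop_atBot.comp (tendsto_id.const_mul_atTop (by positivity))
      filter_upwards [eventually_gt_atTop 0, ht.eventually (gt_mem_nhds (show (0:ℝ) < 1/2 by norm_num))]
        with x hx hx2
      refine (norm_th_sub_one_le hz hx).trans ?_
      rw [Real.norm_eq_abs, Real.abs_exp]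
      rw [show -(Real.pi * z.re) * x = -Real.pi * (x * z.re) by ring]
      gcongr
      rw [div_le_iff₀ (by linarith only [hx2])]
      linarith only [hx2]
    exact IsBigO.of_bound 4 hev
  refine h1.trans ?_
  exact (isLittleO_exp_neg_mul_rpow_atTop (by positivity) r).isBigO

lemma re_inv_pos {z : ℂ} (hz : 0 < z.re) : 0 < (z⁻¹).re := by
  rw [Complex.inv_re]
  have : z ≠ 0 := fun h => by simp [h] at hz
  have := Complex.normSq_pos.mpr this
  positivity

lemma real_mul_cpow {x : ℝ} (hx : 0 < x) {z : ℂ} (hz : z ≠ 0) (c : ℂ) :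
    ((x:ℂ) * z) ^ c = (x:ℂ) ^ c * z ^ c := by
  have hx0 : (x:ℂ) ≠ 0 := by exact_mod_cast hx.ne'
  rw [Complex.cpow_def_of_ne_zero (mul_ne_zero hx0 hz), Complex.cpow_def_of_ne_zero hx0,
    Complex.cpow_def_of_ne_zero hz, Complex.log_ofReal_mul hx hz, ← Complex.exp_add,
    Complex.ofReal_log hx.le]
  ring_nf

/-- functional equation -/
lemma th_inv {z : ℂ} (hz : 0 < z.re) {x : ℝ} (hx : 0 < x) :
    th z (1 / x) = (z ^ (-(1/2) : ℂ) * ((x ^ (1/2 : ℝ) : ℝ) : ℂ)) * th z⁻¹ x := by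
  have hz0 : z ≠ 0 := fun h => by simp [h] at hz
  have hx0 : (x:ℂ) ≠ 0 := by exact_mod_cast hx.ne'
  have h1 := jacobiTheta₂_functional_equation 0 (I * (1 / x : ℝ) * z)
  rw [← jacobiTheta_eq_jacobiTheta₂] at h1
  unfold th
  rw [h1]
  have e1 : -I * (I * ((1 / x : ℝ) : ℂ) * z) = ((1 / x : ℝ) : ℂ) * z := by
    linear_combination (-(((1 / x : ℝ) : ℂ)) * z) * I_sq
  have e2 : -1 / (I * ((1 / x : ℝ) : ℂ) * z) = I * x * z⁻¹ := by
    push_cast
    field_simp
    linear_combination (-1 : ℂ) * I_sq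
  rw [e1]
  simp only [zero_div, zero_pow two_ne_zero, mul_zero, Complex.exp_zero, mul_one]
  rw [e2, ← jacobiTheta_eq_jacobiTheta₂]
  congr 1
  rw [real_mul_cpow (by positivity) hz0]
  rw [Complex.cpow_neg, one_div, mul_inv]
  rw [mul_comm]
  congr 1
  rw [← Complex.cpow_neg, Complex.ofReal_cpow hx.le]
  push_cast
  rw [one_div, Complex.inv_cpow, Complex.cpow_neg, inv_inv]
  rw [Complex.arg_ofReal_of_nonneg hx.le]
  exact Real.pi_pos.ne

/-- the FE pair -/
noncomputable def FEP (z : ℂ) (hz : 0 < z.re) : WeakFEPair ℂ where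
  f := th z
  g := th z⁻¹
  k := 1 / 2
  ε := z ^ (-(1/2) : ℂ)
  f₀ := 1
  g₀ := 1
  hf_int := locallyIntegrable_th hz
  hg_int := locallyIntegrable_th (re_inv_pos hz)
  hk := by norm_num
  hε := by
    have hz0 : z ≠ 0 := fun h => by simp [h] at hz
    rw [Complex.cpow_neg]
    exact inv_ne_zero ((Complex.cpow_ne_zero_iff_of_exponent_ne_zero (by norm_num)).mpr hz0)
  h_feq := by
    intro x hx
    rw [smul_eq_mul]
    exact th_inv hz hx
  hf_top := th_top hz
  hg_top := th_top (re_inv_pos hz)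

lemma arg_ne_pi {z : ℂ} (hz : 0 < z.re) : z.arg ≠ Real.pi := by
  intro h
  have := (Complex.abs_arg_lt_pi_div_two_iff).mpr (Or.inl hz)
  rw [h, abs_of_pos Real.pi_pos] at this
  linarith only [this, Real.pi_pos]

lemma one_div_real_mul_cpow {c : ℝ} (hc : 0 < c) {z : ℂ} (hz : 0 < z.re) (s : ℂ) :
    (1 / ((c:ℂ) * z)) ^ s = (c:ℂ) ^ (-s) * z ^ (-s) := by
  have hz0 : z ≠ 0 := fun h => by simp [h] at hz
  have e : (1 / ((c:ℂ) * z)) = ((c⁻¹ : ℝ) : ℂ) * z⁻¹ := by
    push_cast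
    rw [one_div, mul_inv]
  rw [e, real_mul_cpow (inv_pos.mpr hc) (inv_ne_zero hz0), Complex.inv_cpow _ _ (arg_ne_pi hz),
    ← Complex.cpow_neg]
  congr 1
  push_cast
  rw [Complex.inv_cpow, Complex.cpow_neg]
  rw [Complex.arg_ofReal_of_nonneg hc.le]
  exact Real.pi_pos.ne

/-- Mellin transform of theta minus one in the half plane of absolute convergence -/
lemma mellin_th {z : ℂ} (hz : 0 < z.re) {s : ℂ} (hs : 1 / 2 < s.re) :
    mellin (fun x => th z x - 1) s = 2 * z ^ (-s) * completedRiemannZeta (2 * s) := by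
  have hs0 : 0 < s.re := by linarith
  have hz0 : z ≠ 0 := fun h => by simp [h] at hz
  set F : ℕ → ℝ → ℂ := fun n x => (x:ℂ) ^ (s - 1) * cexp (-((Real.pi * ((n:ℂ) + 1) ^ 2 * z) * x)) with hF
  have hrn : ∀ n : ℕ, 0 < ((Real.pi * ((n:ℂ) + 1) ^ 2 * z) : ℂ).re := by
    intro n
    have : ((Real.pi * ((n:ℂ) + 1) ^ 2 * z) : ℂ) = ((Real.pi * ((n:ℝ) + 1) ^ 2 : ℝ) : ℂ) * z := by
      push_cast; ring
    rw [this, Complex.re_ofReal_mul]
    positivity
  have hnorm : ∀ n : ℕ, ∀ x ∈ Ioi (0:ℝ), ‖F n x‖ = x ^ (s.re - 1) *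
      Real.exp (-((Real.pi * ((n:ℝ) + 1) ^ 2 * z.re) * x)) := by
    intro n x hx
    rw [hF]
    simp only
    rw [norm_mul, Complex.norm_cpow_eq_rpow_re_of_pos hx, Complex.norm_exp]
    congr 2
    have : (-((Real.pi * ((n:ℂ) + 1) ^ 2 * z) * x) : ℂ) = ((-(Real.pi * ((n:ℝ) + 1) ^ 2 * x) : ℝ) : ℂ) * z := by
      push_cast; ring
    rw [this, Complex.re_ofReal_mul]
    ring
  have hint : ∀ n : ℕ, ∫ x in Ioi (0:ℝ), ‖F n x‖ =
      Real.Gamma s.re * (Real.pi * z.re) ^ (-s.re) * (1 / ((n:ℝ) + 1) ^ (2 * s.re)) := by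
    intro n
    rw [setIntegral_congr_fun measurableSet_Ioi (hnorm n)]
    rw [Real.integral_rpow_mul_exp_neg_mul_Ioi hs0 (by positivity)]
    rw [mul_comm, mul_assoc (Real.Gamma s.re)]
    refine congrArg (fun t => Real.Gamma s.re * t) ?_
    rw [one_div, Real.inv_rpow (by positivity), ← Real.rpow_neg (by positivity),
      show Real.pi * ((n:ℝ) + 1) ^ 2 * z.re = (Real.pi * z.re) * (((n:ℝ) + 1) ^ 2) by ring,
      Real.mul_rpow (by positivity) (by positivity)]
    congr 1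
    rw [← Real.rpow_natCast, ← Real.rpow_mul (by positivity), one_div, ← Real.rpow_neg (by positivity)]
    congr 1
    push_cast; ring
  have hmeas : ∀ n : ℕ, IntegrableOn (F n) (Ioi 0) := by
    intro n
    have hi : IntegrableOn (fun x : ℝ => x ^ (s.re - 1) *
      Real.exp (-(Real.pi * ((n:ℝ) + 1) ^ 2 * z.re) * x)) (Ioi 0) := by
      have := integrableOn_gam (s := s.re - 1)
        (b := Real.pi * ((n:ℝ) + 1) ^ 2 * z.re) (by linarith) (by positivity)
      refine this.congr_fun (fun x hx => ?_) measurableSet_Ioi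
      simp only [neg_mul]
    refine hi.mono' ?_ ?_
    · apply ContinuousOn.aestronglyMeasurable _ measurableSet_Ioi
      intro x hx
      apply ContinuousAt.continuousWithinAt
      apply ContinuousAt.mul
      · exact (Complex.continuousAt_ofReal_cpow_const _ _ (Or.inr (ne_of_gt hx)))
      · fun_prop
    · filter_upwards [ae_restrict_mem measurableSet_Ioi] with x hx
      rw [hnorm n x hx, neg_mul]
  have hsum : Summable (fun n : ℕ => ∫ x in Ioi (0:ℝ), ‖F n x‖) := by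
    simp_rw [hint]
    apply Summable.mul_left
    have := (summable_nat_add_iff 1).mpr (Real.summable_one_div_nat_rpow.mpr (show 1 < 2 * s.re by linarith))
    simpa using this
  have hH := hasSum_integral_of_summable_integral_norm hmeas hsum
  have hval : ∀ n : ℕ, ∫ x in Ioi (0:ℝ), F n x =
      (z ^ (-s) * ((Real.pi : ℂ) ^ (-s) * Gamma s)) * (1 / ((n:ℂ) + 1) ^ (2 * s)) := by
    intro n
    rw [hF]
    simp only
    rw [gam_int hs0 (hrn n)]
    rw [show (Real.pi * ((n:ℂ) + 1) ^ 2 * z : ℂ) = ((Real.pi * ((n:ℝ) + 1) ^ 2 : ℝ) : ℂ) * z by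
      push_cast; ring, one_div_real_mul_cpow (by positivity) hz]
    rw [Complex.ofReal_mul, real_mul_cpow Real.pi_pos (by
      have : ((((n:ℝ) + 1) ^ 2 : ℝ)) ≠ 0 := by positivity
      exact_mod_cast this)]
    have e : (((((n:ℝ) + 1) ^ 2 : ℝ)) : ℂ) ^ (-s) = 1 / ((n:ℂ) + 1) ^ (2 * s) := by
      rw [one_div, ← Complex.cpow_neg]
      have h2 : ((n:ℂ) + 1) = (((n:ℝ) + 1 : ℝ) : ℂ) := by push_cast; ring
      rw [h2, sq, Complex.ofReal_mul]
      rw [Complex.mul_cpow_ofReal_nonneg (by positivity) (by positivity), ← Complex.cpow_add _ _ (by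
        have : ((n:ℝ) + 1) ≠ 0 := by positivity
        exact_mod_cast this)]
      congr 1
      push_cast
      ring
    rw [e]
    ring
  simp_rw [hval] at hH
  have hz2 : 1 < (2 * s).re := by
    rw [show (2 * s) = ((2:ℝ):ℂ) * s by push_cast; ring, Complex.re_ofReal_mul]
    linarith only [hs]
  have hs2 : (2 * s) ≠ 0 := fun h => by rw [h] at hz2; simp at hz2; linarith
  have hzeta := zeta_eq_tsum_one_div_nat_add_one_cpow hz2
  have hH2 := hH.tsum_eq
  rw [tsum_mul_left, ← hzeta] at hH2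
  have e1 : mellin (fun x => th z x - 1) s = 2 * ∫ a in Ioi (0:ℝ), ∑' i, F i a := by
    unfold mellin
    rw [← integral_const_mul]
    refine setIntegral_congr_fun measurableSet_Ioi (fun x hx => ?_)
    simp only
    have h1 := (hasSum_th hz hx).mul_left ((x:ℂ) ^ (s - 1))
    have h2 : (∑' i, F i x) = (x:ℂ) ^ (s - 1) * ((th z x - 1) / 2) := by
      rw [← h1.tsum_eq]
      congr 1
      funext n
      rw [hF]
      simp only
      congr 2
      ring
    rw [h2, smul_eq_mul]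
    ring
  rw [e1, ← hH2, riemannZeta_def_of_ne_zero hs2]
  have hG : Gammaℝ (2 * s) = (Real.pi : ℂ) ^ (-s) * Gamma s := by
    rw [Complex.Gammaℝ_def]
    congr 2
    · ring
    · ring
  rw [← hG]
  have hGne : Gammaℝ (2 * s) ≠ 0 := Complex.Gammaℝ_ne_zero_of_re_pos (by linarith only [hz2])
  field_simp

/-- theta minus its main terms at zero and infinity -/
noncomputable def om (z : ℂ) (x : ℝ) : ℂ := th z x - 1 - z ^ (-(1/2) : ℂ) * ((x ^ (-(1/2) : ℝ) : ℝ) : ℂ)

lemma om_loc {z : ℂ} (hz : 0 < z.re) : LocallyIntegrableOn (om z) (Ioi 0) := by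
  refine ContinuousOn.locallyIntegrableOn ?_ measurableSet_Ioi
  intro x hx
  apply ContinuousAt.continuousWithinAt
  unfold om
  apply ContinuousAt.sub
  · exact (continuousAt_th hz hx).sub continuousAt_const
  · apply ContinuousAt.mul continuousAt_const
    apply Complex.continuous_ofReal.continuousAt.comp
    exact Real.continuousAt_rpow_const _ _ (Or.inl (ne_of_gt hx))

lemma om_conv {z : ℂ} (hz : 0 < z.re) {s : ℂ} (hs : 0 < s.re) (hs2 : s.re < 1 / 2) :
    MellinConvergent (om z) s := by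
  apply mellinConvergent_of_isBigO_rpow (a := 1 / 2) (b := 0) (om_loc hz) ?_ hs2 ?_ hs
  · unfold om
    apply IsBigO.sub
    · exact th_top hz _
    · apply IsBigO.const_mul_left
      apply IsBigO.of_bound 1
      filter_upwards [eventually_gt_atTop 0] with x hx
      rw [Complex.norm_real, one_mul]
  · have h1 := (FEP z hz).hf_zero 0
    have h2 : (fun x : ℝ => (1:ℂ)) =O[𝓝[>] 0] (fun x : ℝ => x ^ (0:ℝ)) := by
      apply IsBigO.of_bound 1
      filter_upwards with x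
      simp
    have h3 := h1.sub h2
    have e : (fun x => om z x) = fun x => ((FEP z hz).f x - ((FEP z hz).ε * ↑(x ^ (-(FEP z hz).k))) • (FEP z hz).g₀) - 1 := by
      funext x
      simp only [om, FEP, smul_eq_mul, mul_one]
      ring
    have h4 : (fun x => om z x) =O[𝓝[>] 0] (fun x : ℝ => x ^ (-0:ℝ)) := by
      rw [e]; simpa using h3
    exact h4

lemma om_mellin_Λ {z : ℂ} (hz : 0 < z.re) {s : ℂ} (hs : 0 < s.re) (hs2 : s.re < 1 / 2) :
    mellin (om z) s = (FEP z hz).Λ s := by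
  have hc := om_conv hz hs hs2
  set P := FEP z hz with hP
  have hc2 : MellinConvergent P.f_modif s := by
    have h := P.isStrongFEPair_toStrongFEPair
    obtain ⟨t, ht⟩ := exists_gt s.re
    obtain ⟨u, hu⟩ := exists_lt s.re
    exact mellinConvergent_of_isBigO_rpow P.hf_modif_int (h.hf_top _) ht (h.hf_zero _) hu
  -- the difference
  set d : ℝ → ℂ := fun x => P.f_modif x - om z x with hd
  have hdiff : HasMellin (fun x => P.f_modif x - om z x) s (mellin P.f_modif s - mellin (om z) s) :=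
    hasMellin_sub hc2 hc
  have hval : mellin d s = 1 / s + (P.ε / (P.k - s)) := by
    have hae : mellin d s = ∫ x in Ioi (0:ℝ), ((Ioc (0:ℝ) 1).indicator (fun x : ℝ => (x:ℂ) ^ (s - 1)) x
        + (Ioi (1:ℝ)).indicator (fun x : ℝ => P.ε * (x:ℂ) ^ (s - 1 - 1 / 2)) x) := by
      unfold mellin
      refine setIntegral_congr_ae measurableSet_Ioi ?_
      have hne : ∀ᵐ x : ℝ, x ≠ 1 := by
        rw [ae_iff]
        simp
      filter_upwards [hne] with x hx1 hx
      have hx0 : 0 < x := hx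
      rw [hd]
      simp only [smul_eq_mul]
      rcases lt_or_gt_of_ne hx1 with h | h
      · rw [indicator_of_mem (show x ∈ Ioc (0:ℝ) 1 from ⟨hx0, h.le⟩),
          indicator_of_notMem (show x ∉ Ioi (1:ℝ) by simp [h.le])]
        unfold WeakFEPair.f_modif
        simp only [Pi.add_apply]
        rw [indicator_of_notMem (show x ∉ Ioi (1:ℝ) by simp [h.le]),
          indicator_of_mem (show x ∈ Ioo (0:ℝ) 1 from ⟨hx0, h⟩)]
        simp only [om, hP, FEP, smul_eq_mul, mul_one]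
        ring
      · rw [indicator_of_notMem (show x ∉ Ioc (0:ℝ) 1 by simp [h]),
          indicator_of_mem (show x ∈ Ioi (1:ℝ) from h)]
        unfold WeakFEPair.f_modif
        simp only [Pi.add_apply]
        rw [indicator_of_mem (show x ∈ Ioi (1:ℝ) from h),
          indicator_of_notMem (show x ∉ Ioo (0:ℝ) 1 by simp [h.le])]
        simp only [om, hP, FEP, add_zero, zero_add]
        have e : ((x ^ (-(1/2) : ℝ) : ℝ) : ℂ) = (x:ℂ) ^ (-(1/2) : ℂ) := by
          rw [Complex.ofReal_cpow hx0.le]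
          push_cast
          rfl
        rw [e, show s - 1 - 1 / 2 = (s - 1) + (-(1/2)) by ring, Complex.cpow_add _ _ (by exact_mod_cast hx0.ne')]
        ring
    rw [hae, integral_add]
    · congr 1
      · have := (hasMellin_one_Ioc hs).2
        unfold mellin at this
        rw [← this]
        refine setIntegral_congr_fun measurableSet_Ioi (fun x hx => ?_)
        simp only [smul_eq_mul]
        by_cases h : x ∈ Ioc (0:ℝ) 1
        · rw [indicator_of_mem h, indicator_of_mem h, mul_one]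
        · rw [indicator_of_notMem h, indicator_of_notMem h, mul_zero]
      · rw [setIntegral_indicator measurableSet_Ioi, show Ioi (0:ℝ) ∩ Ioi 1 = Ioi 1 by
          rw [Ioi_inter_Ioi]; simp, integral_const_mul,
          integral_Ioi_cpow_of_lt (by simp; linarith only [hs2]) one_pos]
        simp only [Complex.ofReal_one, Complex.one_cpow]
        have hk : (P.k : ℂ) = 1 / 2 := by simp [hP, FEP]
        rw [hk]
        have h1 : (1 / 2 - s) ≠ 0 := by
          intro h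
          have := congrArg Complex.re h
          simp at this
          linarith only [hs2, this]
        rw [show s - 1 - 1 / 2 + 1 = -(1 / 2 - s) by ring]
        rw [neg_div_neg_eq, mul_one_div]
    · have := (hasMellin_one_Ioc hs).1
      unfold MellinConvergent at this
      refine this.congr_fun (fun x hx => ?_) measurableSet_Ioi
      simp only [smul_eq_mul]
      by_cases h : x ∈ Ioc (0:ℝ) 1
      · rw [indicator_of_mem h, indicator_of_mem h, mul_one]
      · rw [indicator_of_notMem h, indicator_of_notMem h, mul_zero]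
    · rw [← IntegrableOn, integrableOn_indicator_iff measurableSet_Ioi]
      refine IntegrableOn.mono_set ?_ inter_subset_left
      exact (integrableOn_Ioi_cpow_of_lt (by simp; linarith only [hs2]) one_pos).const_mul _
  have hlast : mellin d s = mellin P.f_modif s - mellin (om z) s := hdiff.2
  have hΛ : P.Λ s = mellin P.f_modif s - (1 / s) - (P.ε / (P.k - s)) := by
    unfold WeakFEPair.Λ WeakFEPair.Λ₀
    have h1 : P.f₀ = 1 := rfl
    have h2 : P.g₀ = 1 := rfl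
    rw [h1, h2]
    simp
  rw [hΛ]
  linear_combination hlast - hval

lemma FEP_Λ {z : ℂ} (hz : 0 < z.re) {s : ℂ} (hs : s ≠ 0) (hs2 : s ≠ 1 / 2) :
    (FEP z hz).Λ s = 2 * z ^ (-s) * completedRiemannZeta (2 * s) := by
  have hz0 : z ≠ 0 := fun h => by simp [h] at hz
  set P := FEP z hz with hP
  have h1 : P.f₀ = 1 := rfl
  have h2 : P.g₀ = 1 := rfl
  have hk : (P.k : ℂ) = 1 / 2 := by simp [hP, FEP]
  set A : ℂ → ℂ := fun s => s * (1 / 2 - s) * P.Λ₀ s - (1 / 2 - s) - P.ε * s with hA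
  set B : ℂ → ℂ := fun s => s * (1 / 2 - s) * (2 * z ^ (-s) * completedRiemannZeta₀ (2 * s))
    - z ^ (-s) * (1 / 2 - s) - z ^ (-s) * s with hB
  have hΛA : ∀ s : ℂ, s ≠ 0 → s ≠ 1 / 2 → s * (1 / 2 - s) * P.Λ s = A s := by
    intro s hs hs2
    have h3 : (1 / 2 - s) ≠ 0 := fun h => hs2 (by linear_combination -h)
    rw [hA]
    simp only
    unfold WeakFEPair.Λ
    rw [h1, h2, hk]
    simp only [smul_eq_mul, mul_one]
    have e1 : s * (1 / s) = 1 := mul_one_div_cancel hs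
    have e2 : (1 / 2 - s) * (P.ε / (1 / 2 - s)) = P.ε := mul_div_cancel₀ _ h3
    linear_combination (-(1 / 2 - s)) * e1 - s * e2
  have hΛB : ∀ s : ℂ, s ≠ 0 → s ≠ 1 / 2 → s * (1 / 2 - s) * (2 * z ^ (-s) * completedRiemannZeta (2 * s)) = B s := by
    intro s hs hs2
    have h3 : (1 - 2 * s) ≠ 0 := fun h => hs2 (by linear_combination -h / 2)
    rw [hB]
    simp only
    rw [completedRiemannZeta_eq]
    have e1 : s * (1 / (2 * s)) = 1 / 2 := by field_simp
    have e2 : (1 / 2 - s) * (1 / (1 - 2 * s)) = 1 / 2 := by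
      rw [mul_one_div, div_eq_iff h3]
      ring
    linear_combination (-(2 * z ^ (-s) * (1 / 2 - s))) * e1 - (2 * z ^ (-s) * s) * e2
  have hzpow : Differentiable ℂ (fun s : ℂ => z ^ (-s)) := by
    intro s
    exact (differentiableAt_id.neg).const_cpow (Or.inl hz0)
  have hAd : Differentiable ℂ A := by
    have := P.differentiable_Λ₀
    rw [hA]
    fun_prop
  have hBd : Differentiable ℂ B := by
    have := differentiable_completedZeta₀
    have h5 : Differentiable ℂ (fun s : ℂ => completedRiemannZeta₀ (2 * s)) := this.comp (by fun_prop)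
    rw [hB]
    fun_prop
  have hAB : A = B := by
    have hAa : AnalyticOnNhd ℂ A univ := hAd.differentiableOn.analyticOnNhd isOpen_univ
    have hBa : AnalyticOnNhd ℂ B univ := hBd.differentiableOn.analyticOnNhd isOpen_univ
    apply hAa.eq_of_eventuallyEq hBa (z₀ := 1)
    have hev : ∀ᶠ s : ℂ in 𝓝 1, 1 / 2 < s.re := by
      refine (isOpen_lt continuous_const Complex.continuous_re).mem_nhds ?_
      simp only [mem_ofPred_eq, Complex.one_re]
      norm_num
    filter_upwards [hev] with s hs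
    have hs0 : s ≠ 0 := fun h => by rw [h] at hs; simp at hs; linarith only [hs]
    have hs1 : s ≠ 1 / 2 := fun h => by rw [h] at hs; simp at hs
    rw [← hΛA s hs0 hs1, ← hΛB s hs0 hs1]
    congr 1
    have hkk : P.k < s.re := by simpa [hP, FEP] using hs
    have hm := (P.hasMellin hkk).2
    rw [← hm]
    exact mellin_th hz hs
  have h3 : (1 / 2 - s) ≠ 0 := fun h => hs2 (by linear_combination -h)
  have := hΛA s hs hs2
  rw [hAB, ← hΛB s hs hs2] at this
  exact mul_left_cancel₀ (mul_ne_zero hs h3) this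

/-- Mellin transform in the critical strip -/
theorem om_mellin {z : ℂ} (hz : 0 < z.re) {s : ℂ} (hs : 0 < s.re) (hs2 : s.re < 1 / 2) :
    mellin (om z) s = 2 * z ^ (-s) * completedRiemannZeta (2 * s) := by
  rw [om_mellin_Λ hz hs hs2, FEP_Λ hz]
  · intro h; rw [h] at hs; simp at hs
  · intro h; rw [h] at hs2; simp at hs2

end Pool.Agent.Helper57.LH

end
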