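import Pool.Agent.Helper57.M.E

/-!
# Merged library file (short import chain), part F
-/

/-! ### Helper57.LS.KernelLaw -/

section

namespace Pool.Agent.Helper57.LS

open Set MeasureTheory Filter Topology

open Pool.Agent.Helper57.LH

open Pool.Agent.Helper57.Zeta

open Pool.Agent.Helper57.PC (mult IsNontrivialZero zerosUpTo nd SN SN_pos)

lemma Yf_corr_eq (T δ : ℝ) {X : ℝ} (hX : 0 < X) :
    ∫ t, Yf (ZT T) X t * Yf (ZT T) X (t + δ) = 2 * Real.pi / X * ∑ p ∈ Zf T ×ˢ Zf T, (mult p.1 : ℝ) * (mult p.2 : ℝ) * Gm (X / (2 * Real.pi) * (p.1.im - p.2.im + δ)) := by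
  have e1 : ∀ t, Yf (ZT T) X t * Yf (ZT T) X (t + δ) = ∑ ρ ∈ ZT T, ∑ ρ' ∈ ZT T, (mx ρ * mx ρ') * (gs X 0 (t - (ρ:ℂ).im) * gs X 0 (t - ((ρ':ℂ).im - δ))) := by
    intro t
    unfold Yf
    rw [Finset.sum_mul_sum]
    refine Finset.sum_congr rfl fun ρ _ => Finset.sum_congr rfl fun ρ' _ => ?_
    rw [show t - ((ρ':ℂ).im - δ) = t + δ - (ρ':ℂ).im by ring]
    ring
  simp_rw [e1]
  rw [integral_finsetSum]
  · have e2 : ∀ ρ : ZS, ∫ t, ∑ ρ' ∈ ZT T, (mx ρ * mx ρ') * (gs X 0 (t - (ρ:ℂ).im) * gs X 0 (t - ((ρ':ℂ).im - δ))) =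
        ∑ ρ' ∈ ZT T, (mx ρ * mx ρ') * (2 * Real.pi / X * Gm (X / (2 * Real.pi) * ((ρ:ℂ).im - (ρ':ℂ).im + δ))) := by
      intro ρ
      rw [integral_finsetSum]
      · refine Finset.sum_congr rfl fun ρ' _ => ?_
        rw [integral_const_mul, gs_pair hX, show (ρ:ℂ).im - ((ρ':ℂ).im - δ) = (ρ:ℂ).im - (ρ':ℂ).im + δ by ring]
      · intro ρ' _
        exact (gs_pair_integrable hX _ _).const_mul _
    simp_rw [e2]
    have e3 : ∀ ρ : ZS, ∑ ρ' ∈ ZT T, (mx ρ * mx ρ') * (2 * Real.pi / X * Gm (X / (2 * Real.pi) * ((ρ:ℂ).im - (ρ':ℂ).im + δ))) =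
        ∑ ρ' ∈ Zf T, (mx ρ * mx ρ') * (2 * Real.pi / X * Gm (X / (2 * Real.pi) * ((ρ:ℂ).im - ρ'.im + δ))) := fun ρ =>
      sum_ZT T (fun ρ' => (mx ρ * mx ρ') * (2 * Real.pi / X * Gm (X / (2 * Real.pi) * ((ρ:ℂ).im - ρ'.im + δ))))
    simp_rw [e3]
    rw [sum_ZT T (fun ρ => ∑ ρ' ∈ Zf T, (mx ρ * mx ρ') * (2 * Real.pi / X * Gm (X / (2 * Real.pi) * (ρ.im - ρ'.im + δ)))),
      Finset.mul_sum, Finset.sum_product]
    refine Finset.sum_congr rfl fun ρ hρ => Finset.sum_congr rfl fun ρ' hρ' => ?_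
    rw [mem_Zf] at hρ hρ'
    rw [mult_eq hρ.1, mult_eq hρ'.1]
    unfold mx
    ring
  · intro ρ _
    apply integrable_finsetSum
    intro ρ' _
    exact (gs_pair_integrable hX _ _).const_mul _

end Pool.Agent.Helper57.LS

end

/-! ### Helper57.US.NLaw -/

section

namespace Pool.Agent.Helper57.US

open Set MeasureTheory Filter Topology

open Pool.Agent.Helper57.LH

open Pool.Agent.Helper57.Zeta

open Pool.Agent.Helper57.LS

open Pool.Agent.Helper57.PC (SN SN_pos)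

lemma int_log2pi {a b : ℝ} (ha : 0 < a) (hab : a ≤ b) : ∫ t in a..b, Real.log (t / (2 * Real.pi)) =
    (b * Real.log (b / (2 * Real.pi)) - b) - (a * Real.log (a / (2 * Real.pi)) - a) := by
  have hpi := Real.pi_pos
  have h1 : ∀ t ∈ uIcc a b, HasDerivAt (fun t : ℝ => t * Real.log (t / (2 * Real.pi)) - t) (Real.log (t / (2 * Real.pi))) t := by
    intro t ht
    rw [uIcc_of_le hab] at ht
    have ht0 : 0 < t := by linarith [ht.1]
    have h2 : HasDerivAt (fun t : ℝ => t / (2 * Real.pi)) (1 / (2 * Real.pi)) t := (hasDerivAt_id t).div_const _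
    have h3 := (hasDerivAt_id t).mul (h2.log (by positivity))
    have h4 := h3.sub (hasDerivAt_id t)
    refine h4.congr_deriv ?_
    simp only [id]
    field_simp
    ring
  exact intervalIntegral.integral_eq_sub_of_hasDerivAt h1 (by
    apply ContinuousOn.intervalIntegrable
    rw [uIcc_of_le hab]
    apply ContinuousOn.log (continuous_id.div_const (2 * Real.pi)).continuousOn
    intro t ht
    have : 0 < t := by linarith [ht.1]
    positivity)

lemma log2pi_abs {T L t : ℝ} (hL : L = Real.log T) (hL2 : 2 ≤ L) (ht : 1 ≤ t) (htT : t ≤ T) : |Real.log (t / (2 * Real.pi))| ≤ L := by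
  have hpi := Real.pi_pos
  have hpi4 := Real.pi_lt_four
  have h1 : Real.log (t / (2 * Real.pi)) = Real.log t - Real.log (2 * Real.pi) := Real.log_div (by linarith only [ht]) (by positivity)
  have h2 : 0 ≤ Real.log (2 * Real.pi) := Real.log_nonneg (by linarith only [hpi, Real.pi_gt_three])
  have h3 : Real.log (2 * Real.pi) ≤ 2 + 1/9 := by
    have h4 : Real.log (2 * Real.pi) ≤ Real.log 8 := Real.log_le_log (by positivity) (by linarith only [hpi4])
    have h5 : Real.log 8 = 3 * Real.log 2 := by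
      rw [show (8:ℝ) = 2 ^ 3 by norm_num, Real.log_pow]; norm_num
    have := Real.log_two_lt_d9
    linarith only [h4, h5, this]
  have h4 : 0 ≤ Real.log t := Real.log_nonneg ht
  have h5 : Real.log t ≤ L := by rw [hL]; exact Real.log_le_log (by linarith only [ht]) htT
  have h6 : Real.log (2 * Real.pi) ≤ 2 := by
    have h7 : (2:ℝ) * Real.pi ≤ Real.exp 2 := by
      have h8 : Real.exp 2 = Real.exp 1 ^ 2 := by rw [← Real.exp_nat_mul]; norm_num
      have h9 := Real.exp_one_gt_d9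
      have h10 := Real.pi_lt_d2
      rw [h8]
      nlinarith only [hpi4, h9, h10]
    calc Real.log (2 * Real.pi) ≤ Real.log (Real.exp 2) := Real.log_le_log (by positivity) h7
      _ = 2 := Real.log_exp 2
  rw [h1, abs_le]
  constructor <;> linarith

end Pool.Agent.Helper57.US

end

/-! ### Helper57.UV.Approx -/

section

namespace Pool.Agent.Helper57.UV

open Set MeasureTheory Filter Topology

open Pool.Agent.Helper57.LH

open Pool.Agent.Helper57.Zeta

open Pool.Agent.Helper57.LS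

open Pool.Agent.Helper57.US

/-- bound for the off-line contribution -/
noncomputable def RBq (T L B X q : ℝ) (Ψ : ℝ → ℝ) (t : ℝ) : ℝ :=
  3 * L / 2 * (Cv T X Ψ t + q * DC B L * t ^ (-(1/4) : ℝ))

lemma far_q {X q T t τ : ℝ} (hq1 : 1 ≤ q) (hqX : 1 ≤ q * X ^ 2) (ht : 20 ≤ t) (htT : t ≤ T) (hτ : τ ∉ RA T) :
    Kd X (t - τ) * wg τ ≤ q * (16 * t ^ (-(1/4) : ℝ) * wf τ) := by
  have h1 := far_bound (X := 1) le_rfl ht htT hτ
  have hwg : 0 ≤ wg τ := le_trans zero_le_one (wg_one_le τ)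
  calc Kd X (t - τ) * wg τ ≤ (q * Kd 1 (t - τ)) * wg τ := by
        gcongr
        exact Kd_q hq1 hqX
    _ = q * (Kd 1 (t - τ) * wg τ) := by ring
    _ ≤ _ := by gcongr

lemma finite_right_q {T L B X q t : ℝ} (hL : L = Real.log T) (hL40 : 40 ≤ L) (hB : 9600 ≤ B) (hX : X = L / B)
    (hq1 : 1 ≤ q) (hqX : 1 ≤ q * X ^ 2)
    (ht : 20 ≤ t) (htT : t ≤ T) {Ψ : ℝ → ℝ} (hΨc : Continuous Ψ) (hΨ : DomPsi T B Ψ)
    (F : Finset ZS) (hF : ∀ ρ ∈ F, 1 / 2 ≤ (ρ:ℂ).re) :
    ∑ ρ ∈ F, qw B L ρ * Kd X (t - (ρ:ℂ).im) ≤ RBq T L B X q Ψ t := by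
  classical
  have hL0 : 0 < L := by linarith
  have hB0 : 0 < B := by linarith only [hB]
  have hX0 : 0 < X := by rw [hX]; positivity
  set Iρ : ZS → Set ℝ := fun ρ => Icc ((ρ:ℂ).im - 1 / L) ((ρ:ℂ).im + 1 / L) with hIρ
  have hmemI : ∀ (ρ : ZS) (τ : ℝ), τ ∈ Iρ ρ ↔ |τ - (ρ:ℂ).im| ≤ 1 / L := by
    intro ρ τ
    rw [hIρ]
    simp only [mem_Icc, abs_le]
    constructor <;> rintro ⟨h1, h2⟩ <;> constructor <;> linarith
  have hKc : Continuous (fun τ => Kd X (t - τ)) := (Kd_cont X).comp (by fun_prop)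
  have h1 : ∀ ρ : ZS, Kd X (t - (ρ:ℂ).im) ≤ 3 * L / 2 * ∫ τ in Iρ ρ, Kd X (t - τ) := by
    intro ρ
    have h2 : ∫ _ in Iρ ρ, Kd X (t - (ρ:ℂ).im) / 3 ≤ ∫ τ in Iρ ρ, Kd X (t - τ) := by
      apply setIntegral_mono_on
      · exact continuous_const.continuousOn.integrableOn_compact isCompact_Icc
      · exact hKc.continuousOn.integrableOn_compact isCompact_Icc
      · exact measurableSet_Icc
      · intro τ hτ
        have := Kd_smooth (t := t) hL0 (by linarith only [hB] : (1:ℝ) ≤ B) hX ((hmemI ρ τ).mp hτ)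
        linarith only [this]
    rw [setIntegral_const, hIρ, Real.volume_real_Icc_of_le (by
      have : 0 < 1 / L := by positivity
      linarith only [this]), smul_eq_mul] at h2
    have e : ((ρ:ℂ).im + 1 / L - ((ρ:ℂ).im - 1 / L)) * (Kd X (t - (ρ:ℂ).im) / 3) = 2 / (3 * L) * Kd X (t - (ρ:ℂ).im) := by
      field_simp
      ring
    rw [e] at h2
    calc Kd X (t - (ρ:ℂ).im) = 3 * L / 2 * (2 / (3 * L) * Kd X (t - (ρ:ℂ).im)) := by field_simp
      _ ≤ _ := by gcongr
  set h : ℝ → ℝ := fun τ => ∑ ρ ∈ F, qw B L ρ * (Iρ ρ).indicator (fun τ => Kd X (t - τ)) τ with hh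
  have hint1 : ∀ ρ : ZS, Integrable ((Iρ ρ).indicator (fun τ => Kd X (t - τ))) := by
    intro ρ
    rw [integrable_indicator_iff measurableSet_Icc]
    exact hKc.continuousOn.integrableOn_compact isCompact_Icc
  have hint : Integrable h := by
    rw [hh]
    exact integrable_finsetSum F fun ρ _ => (hint1 ρ).const_mul _
  have h2 : ∑ ρ ∈ F, qw B L ρ * Kd X (t - (ρ:ℂ).im) ≤ 3 * L / 2 * ∫ τ, h τ := by
    have e1 : ∫ τ, h τ = ∑ ρ ∈ F, qw B L ρ * ∫ τ in Iρ ρ, Kd X (t - τ) := by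
      rw [hh, integral_finsetSum F fun ρ _ => (hint1 ρ).const_mul _]
      refine Finset.sum_congr rfl fun ρ _ => ?_
      rw [integral_const_mul, integral_indicator measurableSet_Icc]
    rw [e1, Finset.mul_sum]
    refine Finset.sum_le_sum fun ρ _ => ?_
    calc qw B L ρ * Kd X (t - (ρ:ℂ).im) ≤ qw B L ρ * (3 * L / 2 * ∫ τ in Iρ ρ, Kd X (t - τ)) := by
          have := qw_nonneg B L ρ
          have := h1 ρ
          gcongr
      _ = _ := by ring
  refine h2.trans ?_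
  unfold RBq
  have hL32 : 0 ≤ 3 * L / 2 := by positivity
  apply mul_le_mul_of_nonneg_left _ hL32
  rw [← integral_add_compl (RA_meas T) hint]
  -- pointwise description of h
  have hpt : ∀ τ, h τ = Kd X (t - τ) * ∑ ρ ∈ F.filter (fun ρ => τ ∈ Iρ ρ), qw B L ρ := by
    intro τ
    rw [hh, Finset.sum_filter, Finset.mul_sum]
    refine Finset.sum_congr rfl fun ρ _ => ?_
    by_cases hm : τ ∈ Iρ ρ
    · rw [indicator_of_mem hm, if_pos hm]; ring
    · rw [indicator_of_notMem hm, if_neg hm]; ring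
  have hCA := CA_nonneg
  apply add_le_add
  · unfold Cv
    apply setIntegral_mono_on hint.integrableOn
    · exact (hKc.mul (Real.continuous_sqrt.comp hΨc)).continuousOn.integrableOn_compact (RA_compact T)
    · exact RA_meas T
    · intro τ hτ
      rw [hpt]
      have hK := (Kd_pos X (t - τ)).le
      apply mul_le_mul_of_nonneg_left _ hK
      apply Real.le_sqrt_of_sq_le
      have := hΨ τ hτ ((F.filter (fun ρ => τ ∈ Iρ ρ)).map (Function.Embedding.subtype _)) (by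
        intro ρ hρ
        rw [Finset.mem_map] at hρ
        obtain ⟨ρ', hρ', rfl⟩ := hρ
        rw [Finset.mem_filter] at hρ'
        refine ⟨ρ'.2, hF ρ' hρ'.1, ?_⟩
        have h3 := (hmemI ρ' τ).mp hρ'.2
        rw [abs_sub_comm] at h3
        simp only [Function.Embedding.subtype_apply]
        rw [← hL]
        calc L * |(ρ':ℂ).im - τ| ≤ L * (1 / L) := by gcongr
          _ = 1 := by field_simp)
      rw [Finset.sum_map] at this
      simp only [Function.Embedding.subtype_apply] at this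
      rw [← hL] at this
      exact this
  · have hWM : 0 ≤ WM B L := Wt_nonneg _ _
    have hb : ∀ τ ∈ (RA T)ᶜ, h τ ≤ WM B L * (5 / 2 * CA) * (q * (16 * t ^ (-(1/4) : ℝ))) * wf τ := by
      intro τ hτ
      rw [hpt]
      have h3 : ∑ ρ ∈ F.filter (fun ρ => τ ∈ Iρ ρ), qw B L ρ ≤ WM B L * (5 / 2 * Afun τ) := by
        have h4 := loc_count (F.filter (fun ρ => τ ∈ Iρ ρ)) τ (by
          intro ρ hρ
          rw [Finset.mem_filter] at hρ
          have h5 := (hmemI ρ τ).mp hρ.2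
          rw [abs_sub_comm] at h5
          have : 1 / L ≤ 1 := by rw [div_le_one hL0]; linarith only [hL40]
          linarith only [h5, this])
        calc ∑ ρ ∈ F.filter (fun ρ => τ ∈ Iρ ρ), qw B L ρ ≤ ∑ ρ ∈ F.filter (fun ρ => τ ∈ Iρ ρ), WM B L * mx ρ := by
              refine Finset.sum_le_sum fun ρ hρ => ?_
              rw [Finset.mem_filter] at hρ
              unfold qw WM
              rw [mul_comm]
              have hr := zs_re ρ
              have h6 := hF ρ hρ.1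
              have h7 : Wt B (L * ((ρ:ℂ).re - 1 / 2)) ≤ Wt B (L / 2) := by
                apply Wt_mono hB0
                · exact mul_nonneg hL0.le (by linarith only [h6])
                · nlinarith only [hL40, hr]
              have := mx_nonneg (ρ:ℂ)
              gcongr
          _ = WM B L * ∑ ρ ∈ F.filter (fun ρ => τ ∈ Iρ ρ), mx ρ := by rw [Finset.mul_sum]
          _ ≤ _ := by gcongr
      have hA := Afun_bound τ
      have hA2 : Afun τ ≤ CA * wg τ := (le_abs_self _).trans hA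
      have hK := (Kd_pos X (t - τ)).le
      have hfar := far_q hq1 hqX ht htT hτ
      calc Kd X (t - τ) * ∑ ρ ∈ F.filter (fun ρ => τ ∈ Iρ ρ), qw B L ρ
          ≤ Kd X (t - τ) * (WM B L * (5 / 2 * (CA * wg τ))) := by
            gcongr
            exact h3.trans (by gcongr)
        _ = WM B L * (5 / 2 * CA) * (Kd X (t - τ) * wg τ) := by ring
        _ ≤ WM B L * (5 / 2 * CA) * (q * (16 * t ^ (-(1/4) : ℝ) * wf τ)) := by gcongr
        _ = _ := by ring
    have hint2 : Integrable (fun τ => WM B L * (5 / 2 * CA) * (q * (16 * t ^ (-(1/4) : ℝ))) * wf τ) := wf_integrable.const_mul _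
    calc ∫ τ in (RA T)ᶜ, h τ ≤ ∫ τ in (RA T)ᶜ, WM B L * (5 / 2 * CA) * (q * (16 * t ^ (-(1/4) : ℝ))) * wf τ := by
          apply setIntegral_mono_on hint.integrableOn hint2.integrableOn (RA_meas T).compl hb
      _ ≤ ∫ τ, WM B L * (5 / 2 * CA) * (q * (16 * t ^ (-(1/4) : ℝ))) * wf τ := by
          apply setIntegral_le_integral hint2
          filter_upwards with τ
          have := wf_nonneg τ
          have ht0 : 0 < t := by linarith only [ht]
          have hq0 : 0 < q := by linarith only [hq1]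
          positivity
      _ = _ := by
          rw [integral_const_mul]
          unfold DC C1
          ring

lemma E1_q {T L B X q t : ℝ} (hL : L = Real.log T) (hL40 : 40 ≤ L) (hB : 9600 ≤ B) (hX : X = L / B)
    (hq1 : 1 ≤ q) (hqX : 1 ≤ q * X ^ 2)
    (ht : 20 ≤ t) (htT : t ≤ T) {Ψ : ℝ → ℝ} (hΨc : Continuous Ψ) (hΨ : DomPsi T B Ψ) (F : Finset ZS) :
    ∑ ρ ∈ F, mx ρ * |gs X ((ρ:ℂ).re - 1 / 2) (t - (ρ:ℂ).im) - gs X 0 (t - (ρ:ℂ).im)| ≤ 16 * RBq T L B X q Ψ t := by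
  classical
  have hL0 : 0 < L := by linarith
  have hB0 : 0 < B := by linarith only [hB]
  have hX0 : 0 < X := by rw [hX]; positivity
  set f : ZS → ℝ := fun ρ => mx ρ * Wt B (L * |(ρ:ℂ).re - 1 / 2|) * Kd X (t - (ρ:ℂ).im) with hf
  have h1 : ∑ ρ ∈ F, mx ρ * |gs X ((ρ:ℂ).re - 1 / 2) (t - (ρ:ℂ).im) - gs X 0 (t - (ρ:ℂ).im)| ≤ 8 * ∑ ρ ∈ F, f ρ := by
    rw [Finset.mul_sum]
    refine Finset.sum_le_sum fun ρ _ => ?_
    have h2 := gs_diff_bound hX0 ((ρ:ℂ).re - 1 / 2) (t - (ρ:ℂ).im)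
    have h3 : (|(ρ:ℂ).re - 1 / 2| * X) ^ 2 * Real.exp (|(ρ:ℂ).re - 1 / 2| * X) = Wt B (L * |(ρ:ℂ).re - 1 / 2|) := by
      unfold Wt
      rw [hX]
      rw [show |(ρ:ℂ).re - 1 / 2| * (L / B) = L * |(ρ:ℂ).re - 1 / 2| / B by ring]
    rw [h3] at h2
    have hm := mx_nonneg (ρ:ℂ)
    calc mx ρ * |gs X ((ρ:ℂ).re - 1 / 2) (t - (ρ:ℂ).im) - gs X 0 (t - (ρ:ℂ).im)|
        ≤ mx ρ * (8 * Wt B (L * |(ρ:ℂ).re - 1 / 2|) * Kd X (t - (ρ:ℂ).im)) := by gcongr
      _ = 8 * f ρ := by rw [hf]; ring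
  refine h1.trans ?_
  rw [← Finset.sum_filter_add_sum_filter_not F (fun ρ : ZS => 1 / 2 ≤ (ρ:ℂ).re)]
  have hA : ∑ ρ ∈ F.filter (fun ρ : ZS => 1 / 2 ≤ (ρ:ℂ).re), f ρ ≤ RBq T L B X q Ψ t := by
    have h2 := finite_right_q hL hL40 hB hX hq1 hqX ht htT hΨc hΨ (F.filter (fun ρ : ZS => 1 / 2 ≤ (ρ:ℂ).re)) (by
      intro ρ hρ
      exact (Finset.mem_filter.mp hρ).2)
    refine le_trans (le_of_eq ?_) h2
    refine Finset.sum_congr rfl fun ρ hρ => ?_
    have h3 := (Finset.mem_filter.mp hρ).2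
    rw [hf]
    simp only
    unfold qw
    rw [abs_of_nonneg (by linarith only [h3])]
  have hBB : ∑ ρ ∈ F.filter (fun ρ : ZS => ¬ 1 / 2 ≤ (ρ:ℂ).re), f ρ ≤ RBq T L B X q Ψ t := by
    have h2 := finite_right_q hL hL40 hB hX hq1 hqX ht htT hΨc hΨ ((F.filter (fun ρ : ZS => ¬ 1 / 2 ≤ (ρ:ℂ).re)).map refl.toEmbedding) (by
      intro ρ hρ
      rw [Finset.mem_map] at hρ
      obtain ⟨ρ', hρ', rfl⟩ := hρ
      have h3 := (Finset.mem_filter.mp hρ').2
      rw [Equiv.coe_toEmbedding, refl_re]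
      push Not at h3
      linarith only [h3])
    refine le_trans (le_of_eq ?_) h2
    rw [Finset.sum_map]
    refine Finset.sum_congr rfl fun ρ hρ => ?_
    have h3 := (Finset.mem_filter.mp hρ).2
    push Not at h3
    rw [hf, Equiv.coe_toEmbedding, refl_im]
    simp only
    unfold qw
    rw [refl_re, refl_mx, abs_of_neg (by linarith only [h3])]
    congr 3
    ring
  linarith

lemma RBq_nonneg {T L B X q : ℝ} (hL : 0 ≤ L) (hq : 0 ≤ q) (Ψ : ℝ → ℝ) {t : ℝ} (ht : 0 < t) : 0 ≤ RBq T L B X q Ψ t := by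
  unfold RBq
  have := Cv_nonneg T X Ψ t
  have := DC_nonneg B L
  positivity

lemma RBq_contOn {T L B X q a : ℝ} (ha : 0 < a) {Ψ : ℝ → ℝ} (hΨc : Continuous Ψ) : ContinuousOn (RBq T L B X q Ψ) (Icc a T) := by
  unfold RBq
  apply continuousOn_const.mul
  apply (Cv_cont T X hΨc).continuousOn.add
  apply continuousOn_const.mul
  apply ContinuousOn.rpow_const continuousOn_id
  intro t ht
  left
  have : a ≤ t := ht.1
  simp only [id]
  linarith

/-- L² bound of the off-line contribution -/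
theorem RBq_sq {T L B X q a C : ℝ} (hL0 : 0 < L) (hB0 : 0 < B) (hX : X = L / B) (hq0 : 0 ≤ q) (ha1 : 1 ≤ a) (haT : a ≤ T) (haT2 : Real.sqrt T ≤ a)
    {Ψ : ℝ → ℝ} (hΨc : Continuous Ψ) (hΨ0 : ∀ τ, 0 ≤ Ψ τ) (hΨi : ∫ τ in RA T, Ψ τ ≤ C * (T / B ^ 4)) :
    ∫ t in Icc a T, (16 * RBq T L B X q Ψ t) ^ 2 ≤ 1152 * Real.pi ^ 2 * C * (T / B ^ 2) + 1152 * L ^ 2 * (q * DC B L) ^ 2 * T ^ (3/4 : ℝ) := by
  have hX0 : 0 < X := by rw [hX]; positivity
  have hT0 : 0 < T := by linarith only [ha1, haT]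
  have hCv := Cv_int (T := T) (a := a) hX0 hΨc hΨ0
  have hcont1 : Continuous (fun t => 1152 * L ^ 2 * Cv T X Ψ t ^ 2) := continuous_const.mul ((Cv_cont T X hΨc).pow 2)
  have hcont2 : Continuous (fun _ : ℝ => 1152 * L ^ 2 * ((q * DC B L) ^ 2 * T ^ (-(1/4) : ℝ))) := continuous_const
  have h1 : ∫ t in Icc a T, (16 * RBq T L B X q Ψ t) ^ 2 ≤ ∫ t in Icc a T, (1152 * L ^ 2 * Cv T X Ψ t ^ 2 + 1152 * L ^ 2 * ((q * DC B L) ^ 2 * T ^ (-(1/4) : ℝ))) := by
    apply setIntegral_mono_on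
    · exact ((continuousOn_const.mul (RBq_contOn (by linarith only [ha1]) hΨc)).pow 2).integrableOn_compact isCompact_Icc
    · exact (hcont1.add hcont2).continuousOn.integrableOn_compact isCompact_Icc
    · exact measurableSet_Icc
    · intro t ht
      unfold RBq
      have ht0 : 0 < t := by have := ht.1; linarith only [ha1, this]
      have h2 : (t ^ (-(1/4) : ℝ)) ^ 2 ≤ T ^ (-(1/4) : ℝ) := by
        rw [← Real.rpow_natCast, ← Real.rpow_mul ht0.le]
        have h3 : T ^ (-(1/4) : ℝ) = (Real.sqrt T) ^ (-(1/2) : ℝ) := by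
          rw [Real.sqrt_eq_rpow, ← Real.rpow_mul hT0.le]
          norm_num
        rw [h3]
        have e4 : (-(1/4) : ℝ) * ((2:ℕ):ℝ) = -(1/2) := by norm_num
        rw [e4]
        exact Real.rpow_le_rpow_of_nonpos (Real.sqrt_pos.mpr hT0) (haT2.trans ht.1) (by norm_num)
      set x := Cv T X Ψ t
      set y := t ^ (-(1/4) : ℝ)
      set D := q * DC B L
      have h5 : (x + D * y) ^ 2 ≤ 2 * x ^ 2 + 2 * (D * y) ^ 2 := by nlinarith only [sq_nonneg (x - D * y)]
      calc (16 * (3 * L / 2 * (x + D * y))) ^ 2 = 576 * L ^ 2 * (x + D * y) ^ 2 := by ring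
        _ ≤ 576 * L ^ 2 * (2 * x ^ 2 + 2 * (D * y) ^ 2) := by gcongr
        _ = 1152 * L ^ 2 * x ^ 2 + 1152 * L ^ 2 * (D ^ 2 * y ^ 2) := by ring
        _ ≤ _ := by gcongr
  refine h1.trans ?_
  rw [integral_add (hcont1.continuousOn.integrableOn_compact isCompact_Icc) (hcont2.continuousOn.integrableOn_compact isCompact_Icc),
    integral_const_mul, setIntegral_const, Real.volume_real_Icc_of_le haT, smul_eq_mul]
  have hD := mul_nonneg hq0 (DC_nonneg B L)
  have hT34 : T * T ^ (-(1/4) : ℝ) = T ^ (3/4 : ℝ) := by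
    nth_rewrite 1 [← Real.rpow_one T]
    rw [← Real.rpow_add hT0]
    norm_num
  have hTq : 0 < T ^ (-(1/4) : ℝ) := Real.rpow_pos_of_pos hT0 _
  calc 1152 * L ^ 2 * (∫ t in Icc a T, Cv T X Ψ t ^ 2) + (T - a) * (1152 * L ^ 2 * ((q * DC B L) ^ 2 * T ^ (-(1/4) : ℝ)))
      ≤ 1152 * L ^ 2 * ((Real.pi / X) ^ 2 * (C * (T / B ^ 4))) + T * (1152 * L ^ 2 * ((q * DC B L) ^ 2 * T ^ (-(1/4) : ℝ))) := by
        gcongr
        · refine hCv.trans ?_
          gcongr
        · linarith only [ha1]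
    _ = 1152 * Real.pi ^ 2 * C * (T / B ^ 2) + 1152 * L ^ 2 * (q * DC B L) ^ 2 * (T * T ^ (-(1/4) : ℝ)) := by
        rw [hX]
        field_simp
    _ = _ := by rw [hT34]

/-- two sided approximation of the Fejer sum over the zeros in `[0,T]`, away from the ends -/
theorem Y_far_q {T L B X q t : ℝ} (hL : L = Real.log T) (hL40 : 40 ≤ L) (hB : 9600 ≤ B) (hX : X = L / B)
    (hq1 : 1 ≤ q) (hqX : 1 ≤ q * X ^ 2)
    (hT3 : 3 ≤ T) (ha : 20 ≤ T ^ (3/4 : ℝ)) (ht : T ^ (3/4 : ℝ) ≤ t) (htT : t ≤ T - T ^ (3/4 : ℝ)) {Ψ : ℝ → ℝ} (hΨc : Continuous Ψ) (hΨ : DomPsi T B Ψ) :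
    |Yf (ZT T) X t - (MT X t / X - PS X t)| ≤ 16 * RBq T L B X q Ψ t + 5 * q * CT2 * T ^ (-(1/16) : ℝ) := by
  have hX0 : 0 < X := by rw [hX]; have : 0 < L := by linarith only [hL40]
                         have : 0 < B := by linarith only [hB]
                         positivity
  have hT1 : 1 ≤ T := by linarith only [ha, ht, htT]
  have ha0 : 0 < T ^ (3/4 : ℝ) := by positivity
  have htT' : t ≤ T := by linarith only [ha, htT]
  set d : ZS → ℝ := fun ρ => mx ρ * |gs X ((ρ:ℂ).re - 1 / 2) (t - (ρ:ℂ).im) - gs X 0 (t - (ρ:ℂ).im)| with hd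
  have hd0 : ∀ ρ, 0 ≤ d ρ := fun ρ => mul_nonneg (mx_nonneg _) (abs_nonneg _)
  have hfin := E1_q hL hL40 hB hX hq1 hqX (by linarith only [ha, ht] : 20 ≤ t) htT' hΨc hΨ
  have hds : Summable d := summable_of_sum_le hd0 (fun F => hfin F)
  have hdt : ∑' ρ, d ρ ≤ 16 * RBq T L B X q Ψ t := hds.tsum_le_of_sum_le (fun F => hfin F)
  have hex := explicit hX0 t
  have hg0 : ∀ ρ : ZS, 0 ≤ mx ρ * gs X 0 (t - (ρ:ℂ).im) := fun ρ => mul_nonneg (mx_nonneg _) (gs_zero_nonneg hX0 _)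
  have hle : ∀ ρ : ZS, mx ρ * gs X 0 (t - (ρ:ℂ).im) ≤ mx ρ * gs X ((ρ:ℂ).re - 1 / 2) (t - (ρ:ℂ).im) + d ρ := by
    intro ρ
    rw [hd]
    simp only
    rw [← mul_add]
    apply mul_le_mul_of_nonneg_left _ (mx_nonneg _)
    have := neg_abs_le (gs X ((ρ:ℂ).re - 1 / 2) (t - (ρ:ℂ).im) - gs X 0 (t - (ρ:ℂ).im))
    linarith only [this]
  have hle2 : ∀ ρ : ZS, mx ρ * gs X ((ρ:ℂ).re - 1 / 2) (t - (ρ:ℂ).im) - d ρ ≤ mx ρ * gs X 0 (t - (ρ:ℂ).im) := by
    intro ρ
    rw [hd]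
    simp only
    rw [← mul_sub]
    apply mul_le_mul_of_nonneg_left _ (mx_nonneg _)
    have := le_abs_self (gs X ((ρ:ℂ).re - 1 / 2) (t - (ρ:ℂ).im) - gs X 0 (t - (ρ:ℂ).im))
    linarith only [this]
  have hsum2 := hex.summable.add hds
  have hg0s : Summable (fun ρ : ZS => mx ρ * gs X 0 (t - (ρ:ℂ).im)) := Summable.of_nonneg_of_le hg0 hle hsum2
  have hup : ∑' ρ : ZS, mx ρ * gs X 0 (t - (ρ:ℂ).im) ≤ (MT X t / X - PS X t) + 16 * RBq T L B X q Ψ t := by
    calc ∑' ρ : ZS, mx ρ * gs X 0 (t - (ρ:ℂ).im)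
        ≤ ∑' ρ : ZS, (mx ρ * gs X ((ρ:ℂ).re - 1 / 2) (t - (ρ:ℂ).im) + d ρ) := hg0s.tsum_le_tsum hle hsum2
      _ = (MT X t / X - PS X t) + ∑' ρ, d ρ := by rw [hex.summable.tsum_add hds, hex.tsum_eq]
      _ ≤ _ := by linarith only [hdt]
  have hlo : (MT X t / X - PS X t) - 16 * RBq T L B X q Ψ t ≤ ∑' ρ : ZS, mx ρ * gs X 0 (t - (ρ:ℂ).im) := by
    calc (MT X t / X - PS X t) - 16 * RBq T L B X q Ψ t ≤ (MT X t / X - PS X t) - ∑' ρ, d ρ := by linarith only [hdt]
      _ = ∑' ρ : ZS, (mx ρ * gs X ((ρ:ℂ).re - 1 / 2) (t - (ρ:ℂ).im) - d ρ) := by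
          rw [hex.summable.tsum_sub hds, hex.tsum_eq]
      _ ≤ _ := (hex.summable.sub hds).tsum_le_tsum hle2 hg0s
  have hYle : Yf (ZT T) X t ≤ ∑' ρ : ZS, mx ρ * gs X 0 (t - (ρ:ℂ).im) := hg0s.sum_le_tsum (ZT T) (fun i _ => hg0 i)
  have hYge : (∑' ρ : ZS, mx ρ * gs X 0 (t - (ρ:ℂ).im)) ≤ Yf (ZT T) X t + 5 * q * CT2 * T ^ (-(1/16) : ℝ) := by
    apply hg0s.tsum_le_of_sum_le
    intro F
    classical
    rw [← Finset.sum_filter_add_sum_filter_not F (fun ρ => ρ ∈ ZT T)]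
    apply add_le_add
    · unfold Yf
      apply Finset.sum_le_sum_of_subset_of_nonneg
      · intro ρ hρ
        exact (Finset.mem_filter.mp hρ).2
      · intro ρ _ _
        exact hg0 ρ
    · have h1 := KS_tail hT1 (by linarith only [ha]) ht htT (F.filter (fun ρ => ρ ∉ ZT T)) (by
        intro ρ hρ
        exact (Finset.mem_filter.mp hρ).2)
      have h2 : ∑ ρ ∈ F.filter (fun ρ => ρ ∉ ZT T), mx ρ * gs X 0 (t - (ρ:ℂ).im) ≤ 5 * q * KS (F.filter (fun ρ => ρ ∉ ZT T)) t := by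
        unfold KS
        rw [Finset.mul_sum]
        refine Finset.sum_le_sum fun ρ _ => ?_
        have hm := mx_nonneg (ρ:ℂ)
        calc mx ρ * gs X 0 (t - (ρ:ℂ).im) ≤ mx ρ * (5 * (q * Kd 1 (t - (ρ:ℂ).im))) := by
              gcongr
              exact (gs_zero_decay hX0 _).trans (by gcongr; exact Kd_q hq1 hqX)
          _ = _ := by ring
      calc ∑ ρ ∈ F.filter (fun ρ => ρ ∉ ZT T), mx ρ * gs X 0 (t - (ρ:ℂ).im) ≤ 5 * q * KS (F.filter (fun ρ => ρ ∉ ZT T)) t := h2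
        _ ≤ 5 * q * (CT2 * T ^ (-(1/16) : ℝ)) := by gcongr
        _ = _ := by ring
  have hRB : 0 ≤ 5 * q * CT2 * T ^ (-(1/16) : ℝ) := by
    have := CT2_nonneg
    have hq0 : 0 ≤ q := by linarith only [hq1]
    positivity
  rw [abs_le]
  constructor <;> linarith

end Pool.Agent.Helper57.UV

end

/-! ### Helper57.UV.Osc -/

section

namespace Pool.Agent.Helper57.UV

open Set MeasureTheory Filter Topology

open Pool.Agent.Helper57.LH

open Pool.Agent.Helper57.Zeta

open Pool.Agent.Helper57.LS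

open Pool.Agent.Helper57.US

/-- oscillation against a Lipschitz function -/
lemma osc {g : ℝ → ℝ} {G l c α β : ℝ} (hg : Continuous g) (hG : ∀ t, |g t| ≤ G) (hl : ∀ s t, |g s - g t| ≤ l * |s - t|)
    (hc : 0 < c) (hαβ : α ≤ β) : |∫ t in α..β, Real.cos (c * t) * g t| ≤ Real.pi / c * (l * (β - α) / 2 + G) := by
  have hpi := Real.pi_pos
  obtain ⟨h, hh⟩ : ∃ h, h = Real.pi / c := ⟨_, rfl⟩
  have hh0 : 0 < h := by rw [hh]; positivity
  rw [← hh]
  have hcc : Continuous (fun t => Real.cos (c * t) * g t) := by fun_prop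
  have hch : Continuous (fun t => Real.cos (c * t) * g (t + h)) := by fun_prop
  set I := ∫ t in α..β, Real.cos (c * t) * g t with hI
  have h1 : ∫ t in (α - h)..(β - h), Real.cos (c * t) * g (t + h) = -I := by
    have h2 := intervalIntegral.integral_comp_sub_right (a := α) (b := β) (fun t => Real.cos (c * t) * g (t + h)) h
    rw [← h2, hI, ← intervalIntegral.integral_neg]
    apply intervalIntegral.integral_congr
    intro t _
    simp only
    have e : c * (t - h) = c * t - Real.pi := by rw [hh]; field_simp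
    rw [e, Real.cos_sub_pi, sub_add_cancel]
    ring
  have h3 : ∫ t in (α - h)..(β - h), Real.cos (c * t) * g (t + h) =
      (∫ t in (α - h)..α, Real.cos (c * t) * g (t + h)) + (∫ t in α..β, Real.cos (c * t) * g (t + h)) - ∫ t in (β - h)..β, Real.cos (c * t) * g (t + h) := by
    rw [intervalIntegral.integral_add_adjacent_intervals (hch.intervalIntegrable _ _) (hch.intervalIntegrable _ _), eq_sub_iff_add_eq,
      intervalIntegral.integral_add_adjacent_intervals (hch.intervalIntegrable _ _) (hch.intervalIntegrable _ _)]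
  have h4 : ∫ t in α..β, Real.cos (c * t) * g (t + h) = I + ∫ t in α..β, Real.cos (c * t) * (g (t + h) - g t) := by
    rw [hI, ← intervalIntegral.integral_add (hcc.intervalIntegrable _ _) (by apply Continuous.intervalIntegrable; fun_prop)]
    apply intervalIntegral.integral_congr
    intro t _
    simp only
    ring
  have b1 : ∀ x : ℝ, |∫ t in (x - h)..x, Real.cos (c * t) * g (t + h)| ≤ G * h := by
    intro x
    have := intervalIntegral.norm_integral_le_of_norm_le_const (a := x - h) (b := x) (C := G) (f := fun t => Real.cos (c * t) * g (t + h)) (by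
      intro t _
      rw [Real.norm_eq_abs, abs_mul]
      calc |Real.cos (c * t)| * |g (t + h)| ≤ 1 * G := by
            gcongr
            · exact Real.abs_cos_le_one _
            · exact hG _
        _ = G := one_mul G)
    rw [Real.norm_eq_abs, sub_sub_cancel, abs_of_pos hh0] at this
    exact this
  have b2 : |∫ t in α..β, Real.cos (c * t) * (g (t + h) - g t)| ≤ (l * h) * (β - α) := by
    have := intervalIntegral.norm_integral_le_of_norm_le_const (a := α) (b := β) (C := l * h) (f := fun t => Real.cos (c * t) * (g (t + h) - g t)) (by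
      intro t _
      rw [Real.norm_eq_abs, abs_mul]
      have h5 := hl (t + h) t
      rw [add_sub_cancel_left, abs_of_pos hh0] at h5
      calc |Real.cos (c * t)| * |g (t + h) - g t| ≤ 1 * (l * h) := by
            gcongr
            exact Real.abs_cos_le_one _
        _ = l * h := one_mul _)
    rw [Real.norm_eq_abs, abs_of_nonneg (by linarith only [hαβ] : 0 ≤ β - α)] at this
    exact this
  have c1 := b1 α
  have c2 := b1 β
  rw [h1, h4] at h3
  set A1 := ∫ t in (α - h)..α, Real.cos (c * t) * g (t + h)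
  set A2 := ∫ t in (β - h)..β, Real.cos (c * t) * g (t + h)
  set A3 := ∫ t in α..β, Real.cos (c * t) * (g (t + h) - g t)
  have e : I = -(A1 + A3 - A2) / 2 := by linarith only [h3]
  rw [e]
  have d1 := abs_le.mp c1
  have d2 := abs_le.mp c2
  have d3 := abs_le.mp b2
  have e2 : h * (l * (β - α) / 2 + G) = (l * h * (β - α) + 2 * (G * h)) / 2 := by ring
  rw [e2, abs_le]
  constructor
  · linarith only [d1, d2, d3, d1.1, d1.2, d2.1, d2.2, d3.1, d3.2]
  · linarith only [d1, d2, d3, d1.1, d1.2, d2.1, d2.2, d3.1, d3.2]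

/-- the prime sum against a Lipschitz function -/
lemma PS_osc {X : ℝ} (hX : 0 < X) {g : ℝ → ℝ} {G l α β : ℝ} (hg : Continuous g) (hG : ∀ t, |g t| ≤ G) (hl : ∀ s t, |g s - g t| ≤ l * |s - t|)
    (hl0 : 0 ≤ l) (hαβ : α ≤ β) : |∫ t in α..β, PS X t * g t| ≤ 40 * Real.exp X * (l * (β - α) + G) := by
  have hpi4 := Real.pi_lt_four
  have hpi := Real.pi_pos
  have hG0 : 0 ≤ G := (abs_nonneg _).trans (hG 0)
  have h1 : ∫ t in α..β, PS X t * g t = ∑ n ∈ Finset.range (NX X + 1), ap X n * ∫ t in α..β, Real.cos (Real.log n * t) * g t := by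
    have e : ∀ t : ℝ, PS X t * g t = ∑ n ∈ Finset.range (NX X + 1), ap X n * (Real.cos (Real.log n * t) * g t) := by
      intro t
      rw [PS_eq hX, Finset.sum_mul]
      refine Finset.sum_congr rfl fun n _ => ?_
      ring
    simp_rw [e]
    rw [intervalIntegral.integral_finsetSum]
    · refine Finset.sum_congr rfl fun n _ => ?_
      rw [intervalIntegral.integral_const_mul]
    · intro n _
      apply Continuous.intervalIntegrable
      fun_prop
  rw [h1]
  refine (Finset.abs_sum_le_sum_abs _ _).trans ?_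
  have h2 : ∀ n ∈ Finset.range (NX X + 1), |ap X n * ∫ t in α..β, Real.cos (Real.log n * t) * g t| ≤ ap X n * (10 * (l * (β - α) + G)) := by
    intro n _
    rcases Nat.lt_or_ge n 2 with h3 | h3
    · rw [ap_zero_lt h3]; simp
    rw [abs_mul, abs_of_nonneg (ap_nonneg hX n)]
    apply mul_le_mul_of_nonneg_left _ (ap_nonneg hX n)
    have hlog : 1 / 2 ≤ Real.log n := by
      have hn2 : (2:ℝ) ≤ n := by exact_mod_cast h3
      have := Real.log_le_log (by norm_num) hn2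
      have := Real.log_two_gt_d9
      linarith
    refine (osc hg hG hl (by linarith only [hlog]) hαβ).trans ?_
    have h4 : Real.pi / Real.log n ≤ 10 := by
      rw [div_le_iff₀ (by linarith only [hlog])]
      linarith only [hpi4, hlog]
    have h5 : 0 ≤ l * (β - α) := mul_nonneg hl0 (by linarith only [hαβ])
    calc Real.pi / Real.log n * (l * (β - α) / 2 + G) ≤ 10 * (l * (β - α) + G) := by
          apply mul_le_mul h4 (by linarith only [h5]) (by positivity) (by norm_num)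
      _ = _ := rfl
  refine (Finset.sum_le_sum h2).trans ?_
  rw [← Finset.sum_mul]
  have h6 := sum_ap_le hX
  have h7 : 0 ≤ 10 * (l * (β - α) + G) := by
    have h5 : 0 ≤ l * (β - α) := mul_nonneg hl0 (by linarith)
    positivity
  calc (∑ n ∈ Finset.range (NX X + 1), ap X n) * (10 * (l * (β - α) + G)) ≤ (4 * Real.exp X) * (10 * (l * (β - α) + G)) := by gcongr
    _ = _ := by ring

/-- pointwise majorant used for the single-zero integral -/
lemma wf_half (w : ℝ) : Kd 1 w * Real.sqrt |w| ≤ 2 * wf w := by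
  have h0 := abs_nonneg w
  have hp : 0 < 1 + |w| := by linarith
  have h1 : Kd 1 w ≤ 2 * (1 + |w|) ^ (-2 : ℝ) := by
    unfold Kd
    rw [one_mul, Real.rpow_neg hp.le, ← div_eq_mul_inv, inv_eq_one_div, div_le_div_iff₀ (by positivity) (by positivity)]
    have : (1 + |w|) ^ (2:ℝ) = (1 + |w|) ^ 2 := by norm_num
    rw [this, ← sq_abs w]
    nlinarith only [sq_nonneg (1 - |w|)]
  have h2 : Real.sqrt |w| ≤ (1 + |w|) ^ (1/2 : ℝ) := by
    rw [Real.sqrt_eq_rpow]
    exact Real.rpow_le_rpow h0 (by linarith) (by norm_num)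
  have h3 : (1 + |w|) ^ (-2 : ℝ) * (1 + |w|) ^ (1/2 : ℝ) ≤ (1 + |w|) ^ (-(5/4) : ℝ) := by
    rw [← Real.rpow_add hp]
    exact Real.rpow_le_rpow_of_exponent_le (by linarith only [h0]) (by norm_num)
  have hK := (Kd_pos 1 w).le
  calc Kd 1 w * Real.sqrt |w| ≤ (2 * (1 + |w|) ^ (-2 : ℝ)) * (1 + |w|) ^ (1/2 : ℝ) := by gcongr
    _ = 2 * ((1 + |w|) ^ (-2 : ℝ) * (1 + |w|) ^ (1/2 : ℝ)) := by ring
    _ ≤ 2 * wf w := by
        unfold wf
        rw [Real.norm_eq_abs]
        gcongr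

/-- the single-zero integral -/
lemma gsD_lip {X q : ℝ} (hX : 0 < X) (hq1 : 1 ≤ q) (hqX : 1 ≤ q * X ^ 2) (v γ : ℝ) {A : ℝ} (hA : (|v| * X) ^ 2 * Real.exp (|v| * X) ≤ A) {g : ℝ → ℝ} {G l : ℝ}
    (hg : Continuous g) (hG : ∀ t, |g t| ≤ G) (hl : ∀ s t, |g s - g t| ≤ l * |s - t|) (hl0 : 0 ≤ l) :
    |∫ t, (gs X v (t - γ) - gs X 0 (t - γ)) * g t| ≤ 16 * A * q * Real.sqrt (2 * G * l) * C1 := by
  have hG0 : 0 ≤ G := (abs_nonneg _).trans (hG 0)
  have hA0 : 0 ≤ A := le_trans (by positivity) hA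
  have hDi := gsD_integrable hX v
  have hDc : Continuous (fun w => gs X v w - gs X 0 w) := (gs_cont X v).sub (gs_cont X 0)
  have h1 : ∫ t, (gs X v (t - γ) - gs X 0 (t - γ)) * g t = ∫ w, (gs X v w - gs X 0 w) * g (w + γ) := by
    have h := integral_sub_right_eq_self (μ := volume) (fun w => (gs X v w - gs X 0 w) * g (w + γ)) γ
    rw [← h]
    congr 1
    funext t
    rw [sub_add_cancel]
  have hi1 : Integrable (fun w => (gs X v w - gs X 0 w) * g (w + γ)) := by
    refine (hDi.norm.mul_const G).mono' (hDc.mul (hg.comp (by fun_prop))).aestronglyMeasurable ?_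
    filter_upwards with w
    rw [norm_mul]
    gcongr
    exact hG _
  have h2 : ∫ w, (gs X v w - gs X 0 w) * g (w + γ) = ∫ w, (gs X v w - gs X 0 w) * (g (w + γ) - g γ) := by
    have e : ∀ w, (gs X v w - gs X 0 w) * (g (w + γ) - g γ) = (gs X v w - gs X 0 w) * g (w + γ) - (gs X v w - gs X 0 w) * g γ := fun w => by ring
    simp_rw [e]
    rw [integral_sub hi1 (hDi.mul_const _), integral_mul_const, gsD_integral hX v, zero_mul, sub_zero]
  rw [h1, h2]
  have hpt : ∀ w, ‖(gs X v w - gs X 0 w) * (g (w + γ) - g γ)‖ ≤ (16 * A * q * Real.sqrt (2 * G * l)) * wf w := by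
    intro w
    rw [norm_mul, Real.norm_eq_abs, Real.norm_eq_abs]
    have h3 := gs_diff_bound hX v w
    have h4 : |g (w + γ) - g γ| ≤ l * |w| := by
      have := hl (w + γ) γ
      rwa [add_sub_cancel_right] at this
    have h5 : |g (w + γ) - g γ| ≤ 2 * G := by
      refine (abs_sub _ _).trans ?_
      have := hG (w + γ)
      have := hG γ
      linarith
    have h6 : |g (w + γ) - g γ| ≤ Real.sqrt (2 * G * l) * Real.sqrt |w| := by
      rw [← Real.sqrt_mul (by positivity)]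
      apply Real.le_sqrt_of_sq_le
      calc |g (w + γ) - g γ| ^ 2 = |g (w + γ) - g γ| * |g (w + γ) - g γ| := sq _
        _ ≤ (2 * G) * (l * |w|) := by gcongr
        _ = 2 * G * l * |w| := by ring
    have h7 := wf_half w
    have h8 := Kd_q (w := w) hq1 hqX
    have hK := (Kd_pos X w).le
    have hs := Real.sqrt_nonneg (2 * G * l)
    have hq0 : 0 ≤ q := by linarith only [hq1]
    calc |gs X v w - gs X 0 w| * |g (w + γ) - g γ| ≤ (8 * A * (q * Kd 1 w)) * (Real.sqrt (2 * G * l) * Real.sqrt |w|) := by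
          apply mul_le_mul _ h6 (abs_nonneg _) (by have := (Kd_pos 1 w).le; positivity)
          refine h3.trans ?_
          have hE : 0 ≤ (|v| * X) ^ 2 * Real.exp (|v| * X) := by positivity
          gcongr
      _ = 8 * A * q * Real.sqrt (2 * G * l) * (Kd 1 w * Real.sqrt |w|) := by ring
      _ ≤ 8 * A * q * Real.sqrt (2 * G * l) * (2 * wf w) := by gcongr
      _ = _ := by ring
  rw [← Real.norm_eq_abs]
  refine (norm_integral_le_integral_norm _).trans ?_
  refine (integral_mono_of_nonneg (Eventually.of_forall fun w => norm_nonneg _) (wf_integrable.const_mul _) (Eventually.of_forall hpt)).trans ?_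
  rw [integral_const_mul]
  exact le_of_eq rfl

end Pool.Agent.Helper57.UV

end

/-! ### Helper57.UV.EL2V -/

section

namespace Pool.Agent.Helper57.UV

open Set MeasureTheory Filter Topology

open Pool.Agent.Helper57.LH

open Pool.Agent.Helper57.Zeta

open Pool.Agent.Helper57.LS

open Pool.Agent.Helper57.US

/-- clamped ordinate -/
noncomputable def cl (T t : ℝ) : ℝ := max (T ^ (3/4 : ℝ)) (min t T)

/-- the density of zeros at scale `X`, clamped -/
noncomputable def bt (T X t : ℝ) : ℝ := Real.log (cl T t / (2 * Real.pi)) / X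

lemma cl_cont (T : ℝ) : Continuous (cl T) := by unfold cl; fun_prop

lemma cl_ge (T t : ℝ) : T ^ (3/4 : ℝ) ≤ cl T t := le_max_left _ _

lemma cl_le {T : ℝ} (hT : 1 ≤ T) (t : ℝ) : cl T t ≤ T := by
  unfold cl
  apply max_le _ (min_le_right _ _)
  calc T ^ (3/4 : ℝ) ≤ T ^ (1:ℝ) := Real.rpow_le_rpow_of_exponent_le hT (by norm_num)
    _ = T := Real.rpow_one T

lemma cl_eq {T t : ℝ} (h1 : T ^ (3/4 : ℝ) ≤ t) (h2 : t ≤ T) : cl T t = t := by
  unfold cl
  rw [min_eq_left h2, max_eq_right h1]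

lemma cl_lip (T s t : ℝ) : |cl T s - cl T t| ≤ |s - t| := by
  unfold cl
  have h1 := abs_max_sub_max_le_abs (min s T) (min t T) (T ^ (3/4 : ℝ))
  have h2 := abs_min_sub_min_le_max s T t T
  rw [sub_self, abs_zero, max_eq_left (abs_nonneg _)] at h2
  rw [max_comm (T ^ (3/4 : ℝ)), max_comm (T ^ (3/4 : ℝ))]
  exact h1.trans h2

lemma bt_cont {T : ℝ} (hT : 0 < T) (X : ℝ) : Continuous (bt T X) := by
  unfold bt
  have hpi := Real.pi_pos
  have hp : 0 < T ^ (3/4 : ℝ) := Real.rpow_pos_of_pos hT _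
  apply Continuous.div_const
  apply Continuous.log
  · exact (cl_cont T).div_const _
  · intro t
    have := cl_ge T t
    have : 0 < cl T t := by linarith
    positivity

lemma bt_bound {T X L B : ℝ} (hT : 1 ≤ T) (ha : 8 ≤ T ^ (3/4 : ℝ)) (hL : L = Real.log T) (hB0 : 0 < B) (hL0 : 0 < L) (hX : X = L / B) (t : ℝ) :
    |bt T X t| ≤ B := by
  unfold bt
  have hpi := Real.pi_pos
  have hpi4 := Real.pi_lt_four
  have h1 := cl_ge T t
  have h2 := cl_le hT t
  have hX0 : 0 < X := by rw [hX]; positivity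
  have hc : 0 < cl T t := by linarith
  have h3 : 0 ≤ Real.log (cl T t / (2 * Real.pi)) := by
    apply Real.log_nonneg
    rw [le_div_iff₀ (by positivity)]
    linarith
  have h4 : Real.log (cl T t / (2 * Real.pi)) ≤ L := by
    rw [hL]
    apply Real.log_le_log (by positivity)
    calc cl T t / (2 * Real.pi) ≤ cl T t / 1 := by
          apply div_le_div_of_nonneg_left hc.le one_pos
          linarith only [hpi, Real.pi_gt_three]
      _ ≤ T := by rw [div_one]; exact h2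
  rw [abs_of_nonneg (by positivity), div_le_iff₀ hX0, hX]
  have : B * (L / B) = L := by field_simp
  linarith only [h4, this]

lemma bt_lip {T X : ℝ} (hT : 0 < T) (hX0 : 0 < X) (s t : ℝ) : |bt T X s - bt T X t| ≤ |s - t| / (T ^ (3/4 : ℝ) * X) := by
  unfold bt
  have hpi := Real.pi_pos
  have ha : 0 < T ^ (3/4 : ℝ) := Real.rpow_pos_of_pos hT _
  have key : ∀ x y : ℝ, 0 < x → 0 < y → T ^ (3/4 : ℝ) ≤ y → Real.log x - Real.log y ≤ |x - y| / T ^ (3/4 : ℝ) := by
    intro x y hx hy hya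
    have h1 : Real.log x - Real.log y = Real.log (x / y) := (Real.log_div hx.ne' hy.ne').symm
    have h2 := Real.log_le_sub_one_of_pos (div_pos hx hy)
    have h3 : x / y - 1 = (x - y) / y := by field_simp
    rw [h1]
    calc Real.log (x / y) ≤ (x - y) / y := by rw [← h3]; exact h2
      _ ≤ |x - y| / y := by
          gcongr
          exact le_abs_self _
      _ ≤ |x - y| / T ^ (3/4 : ℝ) := by gcongr
  have hs := cl_ge T s
  have ht := cl_ge T t
  have hs0 : 0 < cl T s := by linarith only [ha, hs]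
  have ht0 : 0 < cl T t := by linarith only [ha, ht]
  rw [Real.log_div hs0.ne' (by positivity), Real.log_div ht0.ne' (by positivity)]
  have e : (Real.log (cl T s) - Real.log (2 * Real.pi)) / X - (Real.log (cl T t) - Real.log (2 * Real.pi)) / X = (Real.log (cl T s) - Real.log (cl T t)) / X := by ring
  rw [e, abs_div, abs_of_pos hX0, div_le_div_iff₀ hX0 (by positivity)]
  have h5 : |Real.log (cl T s) - Real.log (cl T t)| ≤ |s - t| / T ^ (3/4 : ℝ) := by
    have hl := cl_lip T s t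
    rw [abs_le]
    constructor
    · have h6 := key (cl T t) (cl T s) ht0 hs0 hs
      rw [abs_sub_comm (cl T t)] at h6
      have h7 : |cl T s - cl T t| / T ^ (3/4 : ℝ) ≤ |s - t| / T ^ (3/4 : ℝ) := by gcongr
      linarith only [h6, h7]
    · have h6 := key (cl T s) (cl T t) hs0 ht0 ht
      have h7 : |cl T s - cl T t| / T ^ (3/4 : ℝ) ≤ |s - t| / T ^ (3/4 : ℝ) := by gcongr
      linarith only [h6, h7]
  rw [le_div_iff₀ ha] at h5
  nlinarith only [hX0, h5]

lemma pow_small {T c s : ℝ} (hT : 1 ≤ T) (h : c * Real.log T ^ 0 * T ^ s ≤ T) : c * T ^ (s - 1) ≤ 1 := by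
  have hT0 : 0 < T := by linarith
  rw [pow_zero, mul_one] at h
  have e : T ^ (s - 1) = T ^ s / T := by rw [Real.rpow_sub hT0, Real.rpow_one]
  rw [e, ← mul_div_assoc, div_le_one hT0]
  exact h

/-- basic facts about the scale parameters -/
lemma scale_facts {T L B X : ℝ} (hT1 : 1 ≤ T) (hL1 : 1 ≤ L) (hB0 : 0 < B) (hBT : B ≤ T ^ (1/100 : ℝ)) (hX : X = L / B) :
    1 ≤ T ^ (1/100 : ℝ) * X ∧ 1 ≤ T ^ (1/50 : ℝ) * X ^ 2 := by
  have hT0 : 0 < T := by linarith only [hT1]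
  have h1 : 1 ≤ T ^ (1/100 : ℝ) * X := by
    rw [hX, ← mul_div_assoc, le_div_iff₀ hB0, one_mul]
    calc B ≤ T ^ (1/100 : ℝ) := hBT
      _ = T ^ (1/100 : ℝ) * 1 := (mul_one _).symm
      _ ≤ T ^ (1/100 : ℝ) * L := by gcongr
  refine ⟨h1, ?_⟩
  have e0 : (T ^ (1/100 : ℝ)) ^ 2 = T ^ (1/50 : ℝ) := by
    rw [← Real.rpow_natCast, ← Real.rpow_mul hT0.le]
    norm_num
  have e : T ^ (1/50 : ℝ) * X ^ 2 = (T ^ (1/100 : ℝ) * X) ^ 2 := by
    rw [mul_pow, e0]
  rw [e]
  exact one_le_pow₀ h1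

lemma inv16' {B : ℝ} (hB : 1 ≤ B) : (1:ℝ) / (16 * B ^ 2) ≤ 1 := by
  rw [div_le_one (by positivity)]
  nlinarith

lemma sq2' (R i : ℝ) : (R + 2 * i) ^ 2 ≤ 2 * R ^ 2 + 8 * i ^ 2 := by nlinarith only [sq_nonneg (R - 2 * i)]

/-- L² approximation, with the variable density, at all scales up to a power of `T`. -/
theorem E_l2V : ∃ K : ℝ, 0 < K ∧ ∀ᶠ T : ℝ in atTop, ∀ B : ℝ, 9600 ≤ B → B ≤ T ^ (1/100 : ℝ) →
    ∫ t in Icc (T ^ (3/4 : ℝ)) (T - T ^ (3/4 : ℝ)), (Yf (ZT T) (Real.log T / B) t - bt T (Real.log T / B) t + PS (Real.log T / B) t) ^ 2 ≤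
      K * (T / B ^ 2) := by
  obtain ⟨CQ, hCQ, T0, hT0, hQ⟩ := Qbound
  set K : ℝ := 1152 * Real.pi ^ 2 * CQ + 1 with hK
  have hK0 : 0 < K := by rw [hK]; positivity
  refine ⟨2 * K + 8, by positivity, ?_⟩
  have hl := Real.tendsto_log_atTop
  have hC1 := C1_nonneg
  have hCA := CA_nonneg
  have hCT := CT2_nonneg
  filter_upwards [eventually_ge_atTop T0, eventually_ge_atTop (400:ℝ), hl.eventually_ge_atTop 40,
    log_pow_le 2 0 (s := 3/4) (by norm_num), log_pow_le (1152 * (40 * CA * C1) ^ 2) 6 (s := 1/25 + 1/9600 + 3/4) (by norm_num),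
    log_pow_le (5 * CT2) 0 (s := 1/50 + 1/100 + 15/16) (by norm_num), log_pow_le 50 0 (s := 1/50 + 1/100 + 1/4) (by norm_num)] with T g1 g2 g3 g4 g9 g10 g11 B hB hBT
  have hT0' : 0 < T := by linarith only [hT0, g1]
  have hT1 : 1 ≤ T := by linarith only [hT0, g1]
  have hB0 : 0 < B := by linarith only [hB]
  have g10' := pow_small hT1 g10
  have g11' := pow_small hT1 g11
  have e7 : Real.exp (Real.log T / B) = T ^ (1 / B) := by
    rw [Real.rpow_def_of_pos hT0']; congr 1; ring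
  obtain ⟨L, hL⟩ : ∃ L, L = Real.log T := ⟨_, rfl⟩
  obtain ⟨X, hX⟩ : ∃ X, X = L / B := ⟨_, rfl⟩
  rw [← hL, ← hX] at e7
  rw [← hL] at g3 g4 g9 ⊢
  rw [← hX]
  have hL0 : 0 < L := by linarith only [g3]
  have hX0 : 0 < X := by rw [hX]; positivity
  obtain ⟨hrX, hqX⟩ := scale_facts (T := T) (L := L) (B := B) (X := X) hT1 (by linarith only [g3]) hB0 hBT hX
  have hr1 : 1 ≤ T ^ (1/100 : ℝ) := Real.one_le_rpow hT1 (by norm_num)
  have hq1 : 1 ≤ T ^ (1/50 : ℝ) := Real.one_le_rpow hT1 (by norm_num)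
  obtain ⟨q, hq⟩ : ∃ q, q = T ^ (1/50 : ℝ) := ⟨_, rfl⟩
  obtain ⟨r, hr⟩ : ∃ r, r = T ^ (1/100 : ℝ) := ⟨_, rfl⟩
  rw [← hq] at hqX hq1
  rw [← hr] at hrX hr1 hBT
  obtain ⟨a, ha⟩ : ∃ a, a = T ^ (3/4 : ℝ) := ⟨_, rfl⟩
  rw [← ha]
  have hsT : Real.sqrt T = T ^ (1/2 : ℝ) := Real.sqrt_eq_rpow T
  have hsT20 : 20 ≤ Real.sqrt T := by
    rw [Real.le_sqrt (by norm_num) hT0'.le]
    linarith only [hT0, g1]
  have haT2 : Real.sqrt T ≤ a := by
    rw [hsT, ha]
    exact Real.rpow_le_rpow_of_exponent_le (by linarith only [hT0, g1]) (by norm_num)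
  have ha20 : 20 ≤ a := hsT20.trans haT2
  have ha2T : 2 * a ≤ T := by rw [ha]; simpa using g4
  obtain ⟨Ψ, hΨc, hΨ0, hΨi, hΨd⟩ := hQ T g1 B hB
  have hdom : DomPsi T B Ψ := hΨd
  have hRB := RBq_sq (T := T) (L := L) (B := B) (X := X) (q := q) (a := a) (C := CQ) hL0 hB0 hX (by linarith only [hq1]) (by linarith only [hsT20, haT2]) (by linarith only [hT0, g1, g4, ha]) haT2 hΨc hΨ0 hΨi
  have hDC : 1152 * L ^ 2 * (q * DC B L) ^ 2 * T ^ (3/4 : ℝ) ≤ T / B ^ 2 := by
    have e1 : DC B L ^ 2 = L ^ 4 * (40 * CA * C1) ^ 2 / (16 * B ^ 4) * T ^ (1 / B) := by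
      unfold DC WM Wt
      have e2 : Real.exp (L / 2 / B) ^ 2 = T ^ (1 / B) := by
        rw [← e7, ← Real.exp_nat_mul, hX]
        congr 1
        push_cast
        ring
      rw [← e2]
      field_simp
      ring
    have e3 : q ^ 2 = T ^ (1/25 : ℝ) := by
      rw [hq, ← Real.rpow_natCast, ← Real.rpow_mul hT0'.le]; norm_num
    rw [mul_pow, e1, e3, le_div_iff₀ (by positivity)]
    have h1 : T ^ (1 / B) ≤ T ^ (1 / 9600 : ℝ) :=
      Real.rpow_le_rpow_of_exponent_le (by linarith only [hT0, g1]) (one_div_le_one_div_of_le (by norm_num) hB)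
    have h2 : (1:ℝ) / (16 * B ^ 2) ≤ 1 := inv16' (by linarith only [hB])
    have hTp : 0 < T ^ (3/4 : ℝ) := by positivity
    have hTp2 : 0 < T ^ (1/25 : ℝ) := by positivity
    calc 1152 * L ^ 2 * (T ^ (1/25 : ℝ) * (L ^ 4 * (40 * CA * C1) ^ 2 / (16 * B ^ 4) * T ^ (1 / B))) * T ^ (3 / 4 : ℝ) * B ^ 2
        = (1152 * (40 * CA * C1) ^ 2 * L ^ 6) * (1 / (16 * B ^ 2)) * T ^ (1/25 : ℝ) * T ^ (1 / B) * T ^ (3/4 : ℝ) := by
          field_simp
      _ ≤ (1152 * (40 * CA * C1) ^ 2 * L ^ 6) * 1 * T ^ (1/25 : ℝ) * T ^ (1 / 9600 : ℝ) * T ^ (3/4 : ℝ) := by gcongr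
      _ = 1152 * (40 * CA * C1) ^ 2 * L ^ 6 * T ^ (1/25 + 1/9600 + 3/4 : ℝ) := by
          rw [Real.rpow_add hT0', Real.rpow_add hT0']; ring
      _ ≤ T := g9
  have hRc : ContinuousOn (fun t => (16 * RBq T L B X q Ψ t) ^ 2) (Icc a T) :=
    (continuousOn_const.mul (RBq_contOn (by linarith only [hsT20, haT2]) hΨc)).pow 2
  have hsub : Icc a (T - a) ⊆ Icc a T := Icc_subset_Icc le_rfl (by linarith only [hsT20, haT2])
  have iR : IntegrableOn (fun t => (16 * RBq T L B X q Ψ t) ^ 2) (Icc a T) := hRc.integrableOn_compact isCompact_Icc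
  have hW : ∫ t in Icc a (T - a), (16 * RBq T L B X q Ψ t) ^ 2 ≤ K * (T / B ^ 2) := by
    have h1 : ∫ t in Icc a (T - a), (16 * RBq T L B X q Ψ t) ^ 2 ≤ ∫ t in Icc a T, (16 * RBq T L B X q Ψ t) ^ 2 := by
      apply setIntegral_mono_set iR
      · exact Eventually.of_forall fun t => sq_nonneg _
      · exact hsub.eventuallyLE
    refine h1.trans (hRB.trans ?_)
    rw [hK]
    linarith only [hDC]
  have htail : 5 * q * CT2 * T ^ (-(1/16) : ℝ) ≤ 1 / B := by
    rw [le_div_iff₀ hB0]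
    calc 5 * q * CT2 * T ^ (-(1/16) : ℝ) * B ≤ 5 * q * CT2 * T ^ (-(1/16) : ℝ) * r := by gcongr
      _ = 5 * CT2 * (q * r * T ^ (-(1/16) : ℝ)) := by ring
      _ = 5 * CT2 * T ^ (1/50 + 1/100 + 15/16 - 1 : ℝ) := by
          rw [hq, hr, ← Real.rpow_add hT0', ← Real.rpow_add hT0']
          norm_num
      _ ≤ 1 := g10'
  have hMT : ∀ t ∈ Icc a (T - a), |MT X t / X - bt T X t| ≤ 1 / B := by
    intro t ht
    have ht1 : T ^ (3/4 : ℝ) ≤ t := by rw [← ha]; exact ht.1
    have htT : t ≤ T := by linarith only [hsT20, haT2, ht, ht.2]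
    have ht0 : 0 < t := by linarith only [ha, hsT20, haT2, ht1, ht.1]
    have hexp : Real.exp (X / 2) ≤ t := by
      have h1 : Real.exp (X / 2) ≤ Real.exp X := Real.exp_le_exp.mpr (by linarith only [hX0])
      have h2 : T ^ (1 / B) ≤ T ^ (3/4 : ℝ) := by
        apply Real.rpow_le_rpow_of_exponent_le hT1
        have : 1 / B ≤ 1 / 9600 := one_div_le_one_div_of_le (by norm_num) hB
        linarith only [this]
      rw [e7] at h1
      linarith only [ht1, h1, h2]
    have h1 := MT_asym_r (X := X) (r := r) (t := t) hX0 hr1 hrX (by linarith only [ha, hsT20, haT2, ht1, ht.1]) hexp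
    unfold bt
    rw [cl_eq ht1 htT]
    have e : MT X t / X - Real.log (t / (2 * Real.pi)) / X = (MT X t - Real.log (t / (2 * Real.pi))) / X := by ring
    rw [e, abs_div, abs_of_pos hX0, div_le_div_iff₀ hX0 hB0]
    have h2 : 50 * r / t ≤ 50 * r / a := by
      apply div_le_div_of_nonneg_left (by positivity) (by linarith only [hsT20, haT2]) ht.1
    have h3 : 50 * r / a * B ≤ 1 * X := by
      have h4 : 50 * r / a * B ≤ 50 * r / a * r := by gcongr
      have h5 : 50 * (r * r * r) / a ≤ 1 := by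
        have e5 : 50 * (r * r * r) / a = 50 * T ^ (1/50 + 1/100 + 1/4 - 1 : ℝ) := by
          rw [hr, ha, mul_div_assoc, ← Real.rpow_add hT0', ← Real.rpow_add hT0', ← Real.rpow_sub hT0']
          norm_num
        rw [e5]
        exact g11'
      have h6 : 50 * r / a * r ≤ 1 / r := by
        rw [le_div_iff₀ (by linarith only [hB, hBT])]
        calc 50 * r / a * r * r = 50 * (r * r * r) / a := by ring
          _ ≤ 1 := h5
      have h7 : 1 / r ≤ X := by
        rw [div_le_iff₀ (by linarith only [hB, hBT])]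
        linarith only [hrX]
      linarith only [h4, h6, h7]
    calc |MT X t - Real.log (t / (2 * Real.pi))| * B ≤ (50 * r / a) * B := by
          gcongr
          exact h1.trans h2
      _ ≤ 1 * X := h3
  have hpt : ∀ t ∈ Icc a (T - a), (Yf (ZT T) X t - bt T X t + PS X t) ^ 2 ≤ 2 * (16 * RBq T L B X q Ψ t) ^ 2 + 8 / B ^ 2 := by
    intro t ht
    have h1 := Y_far_q (t := t) hL g3 hB hX hq1 hqX (by linarith only [hT0, g1]) (by rw [← ha]; exact ha20) (by rw [← ha]; exact ht.1) (by rw [← ha]; exact ht.2) hΨc hdom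
    have h2 := hMT t ht
    set R := 16 * RBq T L B X q Ψ t with hR
    have h4 : 0 ≤ R := by
      have := RBq_nonneg (T := T) (L := L) (B := B) (X := X) (q := q) hL0.le (by linarith only [hq1]) Ψ (t := t) (by have := ht.1; linarith only [hsT20, haT2, this])
      rw [hR]; linarith only [this]
    have h3 : |Yf (ZT T) X t - (MT X t / X - PS X t)| ≤ R + 1 / B := h1.trans (by linarith only [htail])
    have e : Yf (ZT T) X t - bt T X t + PS X t = (Yf (ZT T) X t - (MT X t / X - PS X t)) + (MT X t / X - bt T X t) := by ring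
    have hiB : 0 < 1 / B := by positivity
    have h6 : |Yf (ZT T) X t - bt T X t + PS X t| ≤ R + 2 * (1 / B) := by
      rw [e]
      refine (abs_add_le _ _).trans ?_
      linarith only [htail, h2, h1]
    have h8 : (8:ℝ) / B ^ 2 = 8 * (1 / B) ^ 2 := by field_simp
    rw [h8]
    obtain ⟨i, hi⟩ : ∃ i, i = 1 / B := ⟨_, rfl⟩
    rw [← hi] at h6 hiB ⊢
    generalize Yf (ZT T) X t - bt T X t + PS X t = p at h6 ⊢
    calc p ^ 2 = |p| ^ 2 := (sq_abs _).symm
      _ ≤ (R + 2 * i) ^ 2 := by gcongr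
      _ ≤ 2 * R ^ 2 + 8 * i ^ 2 := sq2' R i
  have hcE : Continuous (fun t => (Yf (ZT T) X t - bt T X t + PS X t) ^ 2) :=
    (((Yf_cont _ X).sub (bt_cont hT0' X)).add (PS_cont hX0)).pow 2
  have iR' : IntegrableOn (fun t => (16 * RBq T L B X q Ψ t) ^ 2) (Icc a (T - a)) := iR.mono_set hsub
  have haa : a ≤ T - a := by linarith only [g4, ha]
  calc ∫ t in Icc a (T - a), (Yf (ZT T) X t - bt T X t + PS X t) ^ 2
      ≤ ∫ t in Icc a (T - a), (2 * (16 * RBq T L B X q Ψ t) ^ 2 + 8 / B ^ 2) := by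
        apply setIntegral_mono_on (ioc hcE _ _) ((iR'.const_mul 2).add (ioc continuous_const _ _)) measurableSet_Icc hpt
    _ = 2 * (∫ t in Icc a (T - a), (16 * RBq T L B X q Ψ t) ^ 2) + (T - a - a) * (8 / B ^ 2) := by
        rw [integral_add (iR'.const_mul 2) (ioc continuous_const _ _), integral_const_mul, setIntegral_const,
          Real.volume_real_Icc_of_le haa, smul_eq_mul]
    _ ≤ 2 * (K * (T / B ^ 2)) + T * (8 / B ^ 2) := by
        gcongr
        linarith only [hsT20, haT2]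
    _ = (2 * K + 8) * (T / B ^ 2) := by ring

end Pool.Agent.Helper57.UV

end

/-! ### Helper57.UV.CorrV -/

section

namespace Pool.Agent.Helper57.UV

open Set MeasureTheory Filter Topology

open Pool.Agent.Helper57.LH

open Pool.Agent.Helper57.Zeta

open Pool.Agent.Helper57.LS

open Pool.Agent.Helper57.US

/-- The L² comparison for correlations, variable mean. -/
lemma cross_l2v {Y P c : ℝ → ℝ} (hY : Continuous Y) (hP : Continuous P) (hc : Continuous c) {a b δ η p : ℝ}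
    (hE : ∫ t in Icc a b, (Y t - c t + P t) ^ 2 ≤ η) (hp : ∫ t in Icc a b, P t ^ 2 ≤ p) :
    |(∫ t in Icc (a + |δ|) (b - |δ|), Y t * Y (t + δ)) - (∫ t in Icc (a + |δ|) (b - |δ|), P t * P (t + δ)) -
      ((∫ t in Icc (a + |δ|) (b - |δ|), Y t * c (t + δ)) + ∫ t in Icc (a + |δ|) (b - |δ|), Y (t + δ) * c t) +
      ∫ t in Icc (a + |δ|) (b - |δ|), c t * c (t + δ)| ≤
      2 * (Real.sqrt η * Real.sqrt p) + η := by
  set E : ℝ → ℝ := fun t => Y t - c t + P t with hEd
  have hEc : Continuous E := (hY.sub hc).add hP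
  set I := Icc (a + |δ|) (b - |δ|) with hI
  have hδ := abs_nonneg δ
  have hδ1 := le_abs_self δ
  have hδ2 := neg_abs_le δ
  have hs : Continuous (fun t : ℝ => t + δ) := by fun_prop
  have hEd : Continuous (fun t => E (t + δ)) := hEc.comp hs
  have hPd : Continuous (fun t => P (t + δ)) := hP.comp hs
  have hYd : Continuous (fun t => Y (t + δ)) := hY.comp hs
  have hcd : Continuous (fun t => c (t + δ)) := hc.comp hs
  -- pointwise identity
  have hpt : ∀ t, Y t * Y (t + δ) = (P t * P (t + δ)) + (Y t * c (t + δ) + (Y (t + δ) * c t + (-(c t * c (t + δ)) + (-(P t * E (t + δ)) + (-(E t * P (t + δ)) + E t * E (t + δ)))))) := by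
    intro t
    simp only [E]
    ring
  have i1 : IntegrableOn (fun t => P t * P (t + δ)) I := ioc (hP.mul hPd) _ _
  have i2 : IntegrableOn (fun t => Y t * c (t + δ)) I := ioc (hY.mul hcd) _ _
  have i3 : IntegrableOn (fun t => Y (t + δ) * c t) I := ioc (hYd.mul hc) _ _
  have i4 : IntegrableOn (fun t => -(c t * c (t + δ))) I := ioc (hc.mul hcd).neg _ _
  have i5 : IntegrableOn (fun t => -(P t * E (t + δ))) I := ioc (hP.mul hEd).neg _ _
  have i6 : IntegrableOn (fun t => -(E t * P (t + δ))) I := ioc (hEc.mul hPd).neg _ _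
  have i7 : IntegrableOn (fun t => E t * E (t + δ)) I := ioc (hEc.mul hEd) _ _
  have hsum : ∫ t in I, Y t * Y (t + δ) = (∫ t in I, P t * P (t + δ)) + ((∫ t in I, Y t * c (t + δ)) + ((∫ t in I, Y (t + δ) * c t) +
      (-(∫ t in I, c t * c (t + δ)) + (-(∫ t in I, P t * E (t + δ)) + (-(∫ t in I, E t * P (t + δ)) + ∫ t in I, E t * E (t + δ)))))) := by
    simp_rw [hpt]
    have e1 := integral_add (μ := volume.restrict I) i1 (i2.add (i3.add (i4.add (i5.add (i6.add i7)))))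
    have e2 := integral_add (μ := volume.restrict I) i2 (i3.add (i4.add (i5.add (i6.add i7))))
    have e3 := integral_add (μ := volume.restrict I) i3 (i4.add (i5.add (i6.add i7)))
    have e4 := integral_add (μ := volume.restrict I) i4 (i5.add (i6.add i7))
    have e5 := integral_add (μ := volume.restrict I) i5 (i6.add i7)
    have e6 := integral_add (μ := volume.restrict I) i6 i7
    simp only [Pi.add_apply] at e1 e2 e3 e4 e5 e6
    rw [e1, e2, e3, e4, e5, e6, integral_neg, integral_neg, integral_neg]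
  have hη : ∫ t in I, E t ^ 2 ≤ η := by
    refine le_trans ?_ hE
    apply setIntegral_mono_set (ioc (hEc.pow 2) _ _)
    · exact Eventually.of_forall fun t => sq_nonneg _
    · exact (Icc_subset_Icc (by linarith only [hδ]) (by linarith only [hδ])).eventuallyLE
  have hη' : ∫ t in I, E (t + δ) ^ 2 ≤ η := by
    refine le_trans ?_ hE
    exact shift_int (f := fun t => E t ^ 2) (hEc.pow 2) (fun t => sq_nonneg _) (by linarith) (by linarith only [hδ1])
  have hp1 : ∫ t in I, P t ^ 2 ≤ p := by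
    refine le_trans ?_ hp
    apply setIntegral_mono_set (ioc (hP.pow 2) _ _)
    · exact Eventually.of_forall fun t => sq_nonneg _
    · exact (Icc_subset_Icc (by linarith) (by linarith)).eventuallyLE
  have hp2 : ∫ t in I, P (t + δ) ^ 2 ≤ p := by
    refine le_trans ?_ hp
    exact shift_int (f := fun t => P t ^ 2) (hP.pow 2) (fun t => sq_nonneg _) (by linarith only [hδ2]) (by linarith)
  have hη0 : 0 ≤ η := le_trans (integral_nonneg fun t => sq_nonneg _) hE
  have c1 := cs_icc hP hEd (a + |δ|) (b - |δ|)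
  have c2 := cs_icc hEc hPd (a + |δ|) (b - |δ|)
  have c3 := cs_icc hEc hEd (a + |δ|) (b - |δ|)
  rw [← hI] at c1 c2 c3
  have d1 : |∫ t in I, P t * E (t + δ)| ≤ Real.sqrt p * Real.sqrt η := c1.trans (by gcongr)
  have d2 : |∫ t in I, E t * P (t + δ)| ≤ Real.sqrt η * Real.sqrt p := c2.trans (by gcongr)
  have d3 : |∫ t in I, E t * E (t + δ)| ≤ η := by
    calc |∫ t in I, E t * E (t + δ)| ≤ Real.sqrt η * Real.sqrt η := c3.trans (by gcongr)
      _ = η := Real.mul_self_sqrt hη0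
  rw [hsum]
  have e : (∫ t in I, P t * P (t + δ)) + ((∫ t in I, Y t * c (t + δ)) + ((∫ t in I, Y (t + δ) * c t) +
      (-(∫ t in I, c t * c (t + δ)) + (-(∫ t in I, P t * E (t + δ)) + (-(∫ t in I, E t * P (t + δ)) + ∫ t in I, E t * E (t + δ)))))) -
      (∫ t in I, P t * P (t + δ)) - ((∫ t in I, Y t * c (t + δ)) + ∫ t in I, Y (t + δ) * c t) + ∫ t in I, c t * c (t + δ) =
      -(∫ t in I, P t * E (t + δ)) + (-(∫ t in I, E t * P (t + δ)) + ∫ t in I, E t * E (t + δ)) := by ring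
  rw [e]
  have a1 := abs_le.mp d1
  have a2 := abs_le.mp d2
  have a3 := abs_le.mp d3
  have hcomm : Real.sqrt p * Real.sqrt η = Real.sqrt η * Real.sqrt p := mul_comm _ _
  rw [hcomm] at a1
  rw [abs_le]
  constructor <;> linarith only [a1, a2, a3, a1.1, a1.2, a2.1, a2.2, a3.1, a3.2]

/-- translation of a set integral -/
lemma icc_shift (f : ℝ → ℝ) (a b δ : ℝ) : ∫ t in Icc a b, f (t + δ) = ∫ t in Icc (a + δ) (b + δ), f t := by
  have h2 : ∫ t, (Icc (a + δ) (b + δ)).indicator f (t + δ) = ∫ t, (Icc (a + δ) (b + δ)).indicator f t :=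
    integral_add_right_eq_self _ δ
  rw [← integral_indicator measurableSet_Icc, ← integral_indicator measurableSet_Icc, ← h2]
  congr 1
  funext t
  by_cases h : t ∈ Icc a b
  · have h' : t + δ ∈ Icc (a + δ) (b + δ) := ⟨by linarith [h.1], by linarith only [h, h.2]⟩
    rw [indicator_of_mem h, indicator_of_mem h']
  · have h' : t + δ ∉ Icc (a + δ) (b + δ) := fun h' => h ⟨by linarith [h'.1], by linarith [h'.2]⟩
    rw [indicator_of_notMem h, indicator_of_notMem h']

lemma Yf_q {F : Finset ZS} {X q : ℝ} (hX : 0 < X) (hq1 : 1 ≤ q) (hqX : 1 ≤ q * X ^ 2) (t : ℝ) : Yf F X t ≤ 5 * q * KS F t := by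
  unfold Yf KS
  rw [Finset.mul_sum]
  refine Finset.sum_le_sum fun ρ _ => ?_
  have hm := mx_nonneg (ρ:ℂ)
  calc mx ρ * gs X 0 (t - (ρ:ℂ).im) ≤ mx ρ * (5 * (q * Kd 1 (t - (ρ:ℂ).im))) := by
        gcongr
        exact (gs_zero_decay hX _).trans (by gcongr; exact Kd_q hq1 hqX)
    _ = _ := by ring

/-- the correlation integral, deterministic form -/
lemma corr_v {T X q a b δ η p lam kc Y0 : ℝ} (hX : 0 < X) (hq1 : 1 ≤ q) (hqX : 1 ≤ q * X ^ 2) (hT : 0 < T)
    (hE : ∫ t in Icc a b, (Yf (ZT T) X t - bt T X t + PS X t) ^ 2 ≤ η) (hp : ∫ t in Icc a b, PS X t ^ 2 ≤ p)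
    (hl1 : |(∫ t in Icc (a + |δ|) (b - |δ|), Yf (ZT T) X t * bt T X (t + δ)) - ∫ t in Icc (a + |δ|) (b - |δ|), bt T X t * bt T X (t + δ)| ≤ lam)
    (hl2 : |(∫ t in Icc (a + |δ| + δ) (b - |δ| + δ), Yf (ZT T) X t * bt T X (t + -δ)) -
      ∫ t in Icc (a + |δ| + δ) (b - |δ| + δ), bt T X t * bt T X (t + -δ)| ≤ lam)
    (hkc : ∫ t in (Icc (a + |δ|) (b - |δ|))ᶜ, KS (ZT T) t ≤ kc) (hY0 : ∀ t, Yf (ZT T) X t ≤ Y0) :
    |(∫ t, Yf (ZT T) X t * Yf (ZT T) X (t + δ)) - ((∫ t in Icc (a + |δ|) (b - |δ|), bt T X t * bt T X (t + δ)) +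
      ∫ t in Icc (a + |δ|) (b - |δ|), PS X t * PS X (t + δ))| ≤
      2 * (Real.sqrt η * Real.sqrt p) + η + 2 * lam + Y0 * (5 * q * kc) := by
  set Y : ℝ → ℝ := Yf (ZT T) X with hY
  have hYc : Continuous Y := Yf_cont _ _
  have hYn : ∀ t, 0 ≤ Y t := Yf_nonneg _ hX
  have hYi : Integrable Y := Yf_integrable _ hX
  have hcb := bt_cont hT X
  have hs : Continuous (fun t : ℝ => t + δ) := by fun_prop
  have hY00 : 0 ≤ Y0 := (hYn 0).trans (hY0 0)
  have hYY : Integrable (fun t => Y t * Y (t + δ)) := by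
    refine (hYi.const_mul Y0).mono' (hYc.mul (hYc.comp hs)).aestronglyMeasurable ?_
    filter_upwards with t
    rw [Real.norm_of_nonneg (mul_nonneg (hYn _) (hYn _)), mul_comm]
    exact mul_le_mul_of_nonneg_right (hY0 _) (hYn _)
  set J := Icc (a + |δ|) (b - |δ|) with hJ
  have hJm : MeasurableSet J := measurableSet_Icc
  have s1 := integral_add_compl (μ := volume) hJm hYY
  have hA0 : 0 ≤ ∫ t in Jᶜ, Y t * Y (t + δ) := integral_nonneg fun t => mul_nonneg (hYn t) (hYn _)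
  have iKS : Integrable (KS (ZT T)) := KS_integrable _
  have hA1 : ∫ t in Jᶜ, Y t * Y (t + δ) ≤ Y0 * (5 * q * kc) := by
    have h1 : ∫ t in Jᶜ, Y t * Y (t + δ) ≤ ∫ t in Jᶜ, Y0 * (5 * q * KS (ZT T) t) := by
      apply setIntegral_mono_on hYY.integrableOn ((iKS.const_mul (5 * q)).const_mul Y0).integrableOn hJm.compl
      intro t _
      have h2 := Yf_q (F := ZT T) hX hq1 hqX t
      rw [← hY] at h2
      rw [mul_comm]
      exact mul_le_mul (hY0 _) h2 (hYn _) hY00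
    rw [integral_const_mul, integral_const_mul] at h1
    refine h1.trans ?_
    have hq0 : 0 ≤ q := by linarith only [hq1]
    gcongr
  have hcr := cross_l2v (Y := Y) (P := PS X) (c := bt T X) hYc (PS_cont hX) hcb (δ := δ) hE hp
  rw [← hJ] at hcr
  have e2 : ∫ t in J, Y (t + δ) * bt T X t = ∫ t in Icc (a + |δ| + δ) (b - |δ| + δ), Y t * bt T X (t + -δ) := by
    rw [hJ, ← icc_shift (fun t => Y t * bt T X (t + -δ)) (a + |δ|) (b - |δ|) δ]
    congr 1
    funext t
    rw [add_neg_cancel_right]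
  have e3 : ∫ t in J, bt T X t * bt T X (t + δ) = ∫ t in Icc (a + |δ| + δ) (b - |δ| + δ), bt T X t * bt T X (t + -δ) := by
    rw [hJ, ← icc_shift (fun t => bt T X t * bt T X (t + -δ)) (a + |δ|) (b - |δ|) δ]
    congr 1
    funext t
    rw [add_neg_cancel_right, mul_comm]
  rw [← e2, ← e3] at hl2
  rw [← s1]
  set A := ∫ t in J, Y t * Y (t + δ)
  set A' := ∫ t in Jᶜ, Y t * Y (t + δ)
  set Q := ∫ t in J, bt T X t * bt T X (t + δ)
  set PP := ∫ t in J, PS X t * PS X (t + δ)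
  set u1 := ∫ t in J, Y t * bt T X (t + δ)
  set u2 := ∫ t in J, Y (t + δ) * bt T X t
  have a1 := abs_le.mp hcr
  have a2 := abs_le.mp hl1
  have a3 := abs_le.mp hl2
  rw [abs_le]
  constructor <;> linarith [a1.1, a1.2, a2.1, a2.2, a3.1, a3.2]

/-- the density integral -/
lemma btbt {T X L B δ : ℝ} (hT : 1 ≤ T) (ha : 8 ≤ T ^ (3/4 : ℝ)) (hL : L = Real.log T) (hL1 : 1 ≤ L) (hB0 : 0 < B) (hX : X = L / B)
    (hδ : T ^ (3/4 : ℝ) + |δ| ≤ T - T ^ (3/4 : ℝ) - |δ|) :
    |(∫ t in Icc (T ^ (3/4 : ℝ) + |δ|) (T - T ^ (3/4 : ℝ) - |δ|), bt T X t * bt T X (t + δ)) -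
      (1 / X ^ 2) * (T * ((L - Real.log (2 * Real.pi)) ^ 2 - 2 * (L - Real.log (2 * Real.pi)) + 2))| ≤
      B * (|δ| / (T ^ (3/4 : ℝ) * X)) * T + 12 * B ^ 2 * (T ^ (3/4 : ℝ) + |δ|) := by
  have hT0 : 0 < T := by linarith only [hT]
  have hL0 : 0 < L := by linarith only [hL1]
  have hX0 : 0 < X := by rw [hX]; positivity
  have hpi := Real.pi_pos
  have hδ0 := abs_nonneg δ
  have hδ1 := le_abs_self δ
  have hδ2 := neg_abs_le δ
  obtain ⟨a, ha'⟩ : ∃ a, a = T ^ (3/4 : ℝ) := ⟨_, rfl⟩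
  have hbb := bt_bound hT ha hL hB0 hL0 hX
  have hlip := bt_lip hT0 hX0
  rw [← ha'] at hlip hδ ha ⊢
  obtain ⟨α, hα⟩ : ∃ α, α = a + |δ| := ⟨_, rfl⟩
  obtain ⟨β, hβ⟩ : ∃ β, β = T - a - |δ| := ⟨_, rfl⟩
  rw [← hα, ← hβ] at hδ ⊢
  have hα0 : 0 < α := by rw [hα]; linarith only [hδ0, ha]
  have hcb := bt_cont hT0 X
  have hs : Continuous (fun t : ℝ => t + δ) := by fun_prop
  -- step 1: replace the shifted density
  have h1 : |(∫ t in Icc α β, bt T X t * bt T X (t + δ)) - ∫ t in Icc α β, bt T X t * bt T X t| ≤ B * (|δ| / (a * X)) * T := by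
    have i1 : IntegrableOn (fun t => bt T X t * bt T X (t + δ)) (Icc α β) := ioc (hcb.mul (hcb.comp hs)) _ _
    have i2 : IntegrableOn (fun t => bt T X t * bt T X t) (Icc α β) := ioc (hcb.mul hcb) _ _
    rw [← integral_sub i1 i2]
    have h := norm_setIntegral_le_of_norm_le_const (μ := volume) (s := Icc α β) (f := fun t => bt T X t * bt T X (t + δ) - bt T X t * bt T X t) (C := B * (|δ| / (a * X)))
      (by rw [Real.volume_Icc]; exact ENNReal.ofReal_lt_top) (by
        intro t _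
        have e : bt T X t * bt T X (t + δ) - bt T X t * bt T X t = bt T X t * (bt T X (t + δ) - bt T X t) := by ring
        rw [e, norm_mul, Real.norm_eq_abs, Real.norm_eq_abs]
        have h2 := hlip (t + δ) t
        rw [add_sub_cancel_left] at h2
        gcongr
        exact hbb t)
    rw [Real.norm_eq_abs, Real.volume_real_Icc_of_le hδ] at h
    refine h.trans ?_
    gcongr
    rw [hβ]
    linarith only [hδ0, ha, hα]
  -- step 2: evaluate
  have hF : ∀ x y : ℝ, 0 < x → x ≤ y → ∫ t in x..y, Real.log (t / (2 * Real.pi)) ^ 2 =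
      y * (Real.log (y / (2 * Real.pi)) ^ 2 - 2 * Real.log (y / (2 * Real.pi)) + 2) - x * (Real.log (x / (2 * Real.pi)) ^ 2 - 2 * Real.log (x / (2 * Real.pi)) + 2) := by
    intro x y hx hxy
    apply intervalIntegral.integral_eq_sub_of_hasDerivAt (f := fun t => t * (Real.log (t / (2 * Real.pi)) ^ 2 - 2 * Real.log (t / (2 * Real.pi)) + 2))
    · intro t ht
      rw [uIcc_of_le hxy] at ht
      have ht0 : 0 < t := by linarith only [hx, ht, ht.1]
      have h2 : HasDerivAt (fun t : ℝ => t / (2 * Real.pi)) (1 / (2 * Real.pi)) t := (hasDerivAt_id t).div_const _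
      have h3 := h2.log (by positivity)
      have h4 := (hasDerivAt_id t).mul (((h3.pow 2).sub (h3.const_mul 2)).add_const 2)
      refine h4.congr_deriv ?_
      simp only [id, Pi.sub_apply, Pi.pow_apply]
      field_simp
      ring
    · apply ContinuousOn.intervalIntegrable
      rw [uIcc_of_le hxy]
      apply ContinuousOn.pow
      apply ContinuousOn.log (continuous_id.div_const (2 * Real.pi)).continuousOn
      intro t ht
      have : 0 < t := by linarith only [hx, ht, ht.1]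
      positivity
  have h2 : ∫ t in Icc α β, bt T X t * bt T X t = (1 / X ^ 2) * ∫ t in α..β, Real.log (t / (2 * Real.pi)) ^ 2 := by
    rw [← intervalIntegral.integral_const_mul, intervalIntegral.integral_of_le hδ, ← integral_Icc_eq_integral_Ioc]
    apply setIntegral_congr_fun measurableSet_Icc
    intro t ht
    simp only
    unfold bt
    rw [cl_eq (by rw [← ha']; linarith only [hδ0, hα, ht, ht.1]) (by linarith only [hδ0, ha, hβ, ht, ht.2])]
    field_simp
  have hl0 : ∀ t : ℝ, 8 ≤ t → t ≤ T → 0 ≤ Real.log (t / (2 * Real.pi)) ∧ Real.log (t / (2 * Real.pi)) ≤ L := by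
    intro t ht htT
    have hpi4 := Real.pi_lt_four
    constructor
    · apply Real.log_nonneg
      rw [le_div_iff₀ (by positivity)]
      linarith only [ht, hpi4]
    · rw [hL]
      apply Real.log_le_log (by positivity)
      calc t / (2 * Real.pi) ≤ t / 1 := by
            apply div_le_div_of_nonneg_left (by linarith only [ht]) one_pos
            linarith only [hpi, Real.pi_gt_three]
        _ ≤ T := by rw [div_one]; exact htT
  have hTlog : Real.log (T / (2 * Real.pi)) = L - Real.log (2 * Real.pi) := by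
    rw [Real.log_div hT0.ne' (by positivity), hL]
  have h3 := hF α β hα0 hδ
  have h4 := hF β T (by linarith only [hδ0, ha, hα, hδ]) (by linarith only [hδ0, ha, hβ])
  have h5 : |∫ t in β..T, Real.log (t / (2 * Real.pi)) ^ 2| ≤ L ^ 2 * (a + |δ|) := by
    have h := intervalIntegral.norm_integral_le_of_norm_le_const (a := β) (b := T) (C := L ^ 2) (f := fun t => Real.log (t / (2 * Real.pi)) ^ 2) (by
      intro t ht
      rw [uIoc_of_le (by linarith only [hδ0, ha, hβ])] at ht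
      rw [Real.norm_eq_abs, abs_of_nonneg (sq_nonneg _)]
      obtain ⟨h6, h7⟩ := hl0 t (by linarith only [hδ0, ha, hα, hδ, ht, ht.1]) ht.2
      gcongr)
    rw [Real.norm_eq_abs, abs_of_nonneg (by linarith only [hδ0, ha, hβ] : 0 ≤ T - β)] at h
    refine h.trans ?_
    apply mul_le_mul_of_nonneg_left _ (by positivity)
    rw [hβ]
    linarith only []
  have h6 : |α * (Real.log (α / (2 * Real.pi)) ^ 2 - 2 * Real.log (α / (2 * Real.pi)) + 2)| ≤ 5 * L ^ 2 * (a + |δ|) := by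
    obtain ⟨h7, h8⟩ := hl0 α (by linarith only [hδ0, ha, hα]) (by linarith only [hδ0, ha, hδ, hβ])
    set u := Real.log (α / (2 * Real.pi))
    rw [abs_mul, abs_of_pos hα0, mul_comm]
    rw [← hα]
    have h9 : |u ^ 2 - 2 * u + 2| ≤ 5 * L ^ 2 := by
      rw [abs_le]
      constructor <;> nlinarith
    gcongr
  rw [hTlog] at h4
  set J1 := ∫ t in α..β, Real.log (t / (2 * Real.pi)) ^ 2
  set J2 := ∫ t in β..T, Real.log (t / (2 * Real.pi)) ^ 2
  set M := T * ((L - Real.log (2 * Real.pi)) ^ 2 - 2 * (L - Real.log (2 * Real.pi)) + 2)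
  have h7 : |J1 - M| ≤ 6 * L ^ 2 * (a + |δ|) := by
    have e : J1 - M = -J2 - α * (Real.log (α / (2 * Real.pi)) ^ 2 - 2 * Real.log (α / (2 * Real.pi)) + 2) := by linarith only [h3, h4]
    rw [e]
    refine (abs_sub _ _).trans ?_
    rw [abs_neg]
    linarith only [h6, h5]
  have h8 : |(1 / X ^ 2) * J1 - (1 / X ^ 2) * M| ≤ 6 * B ^ 2 * (a + |δ|) := by
    rw [← mul_sub, abs_mul, abs_of_pos (by positivity)]
    calc 1 / X ^ 2 * |J1 - M| ≤ 1 / X ^ 2 * (6 * L ^ 2 * (a + |δ|)) := by gcongr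
      _ = 6 * B ^ 2 * (a + |δ|) := by
          rw [hX]
          field_simp
  rw [h2] at h1
  have hx : 0 ≤ 6 * B ^ 2 * (a + |δ|) := by
    have : 0 ≤ a := by linarith only [ha]
    positivity
  rw [← hα] at h8 hx
  have a1 := abs_le.mp h1
  have a2 := abs_le.mp h8
  rw [abs_le]
  constructor <;> linarith only [hx, a1, a2, a1.1, a1.2, a2.1, a2.2]

end Pool.Agent.Helper57.UV

end

/-! ### Helper57.UV.LawV -/

section

namespace Pool.Agent.Helper57.UV

open Set MeasureTheory Filter Topology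

open Pool.Agent.Helper57.LH

open Pool.Agent.Helper57.Zeta

open Pool.Agent.Helper57.LS

open Pool.Agent.Helper57.US

open Pool.Agent.Helper57.PC (SN SN_pos)

/-- diagonal prime term -/
noncomputable def PXc (X δ : ℝ) : ℝ := 1 / 2 * ∑ n ∈ Finset.range (NX X + 1), ap X n ^ 2 * Real.cos (δ * Real.log n)

lemma PXc_abs {X : ℝ} (hX : 0 < X) (δ : ℝ) : |PXc X δ| ≤ 4 := by
  unfold PXc
  rw [abs_mul, abs_of_pos (by norm_num : (0:ℝ) < 1/2)]
  have h1 : |∑ n ∈ Finset.range (NX X + 1), ap X n ^ 2 * Real.cos (δ * Real.log n)| ≤ ∑ n ∈ Finset.range (NX X + 1), ap X n ^ 2 := by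
    refine (Finset.abs_sum_le_sum_abs _ _).trans ?_
    refine Finset.sum_le_sum fun n _ => ?_
    rw [abs_mul, abs_of_nonneg (sq_nonneg _)]
    calc ap X n ^ 2 * |Real.cos (δ * Real.log n)| ≤ ap X n ^ 2 * 1 := by
          gcongr
          exact Real.abs_cos_le_one _
      _ = _ := mul_one _
  have h2 := sum_ap_sq hX
  linarith

/-- approximation of the archimedean term by the clamped density -/
lemma MT_bt {T X r t : ℝ} (hX0 : 0 < X) (hr : 1 ≤ r) (hrX : 1 ≤ r * X) (ha : 2 ≤ T ^ (3/4 : ℝ)) (ht : T ^ (3/4 : ℝ) ≤ t) (htT : t ≤ T)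
    (hXt : Real.exp (X / 2) ≤ t) : |MT X t / X - bt T X t| ≤ 50 * r ^ 2 / T ^ (3/4 : ℝ) := by
  have h1 := MT_asym_r (X := X) (r := r) (t := t) hX0 hr hrX (by linarith) hXt
  unfold bt
  rw [cl_eq ht htT]
  have e : MT X t / X - Real.log (t / (2 * Real.pi)) / X = (MT X t - Real.log (t / (2 * Real.pi))) / X := by ring
  rw [e, abs_div, abs_of_pos hX0, div_le_iff₀ hX0]
  have h2 : 50 * r / t ≤ 50 * r / T ^ (3/4 : ℝ) := by
    apply div_le_div_of_nonneg_left (by positivity) (by linarith only [ha]) ht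
  have ha0 : 0 < T ^ (3/4 : ℝ) := by linarith only [ha]
  calc |MT X t - Real.log (t / (2 * Real.pi))| ≤ 50 * r / T ^ (3/4 : ℝ) := h1.trans h2
    _ = 50 * r / T ^ (3/4 : ℝ) * 1 := (mul_one _).symm
    _ ≤ 50 * r / T ^ (3/4 : ℝ) * (r * X) := by gcongr
    _ = _ := by ring

/-- bookkeeping of the small errors, part 1 -/
lemma small1 {L y D B E w G l q A S C N kc Ck a T : ℝ} (hL : 1 ≤ L) (hy : 1 ≤ y) (hB0 : 0 ≤ B) (hB : B ≤ y) (hE : E ≤ y)
    (hG : G = B) (hl0 : 0 ≤ l * T) (hl : l * T ≤ y * D) (hq : q = y ^ 2) (hA0 : 0 ≤ A) (hA : A ≤ L ^ 2 * y) (hC : 0 ≤ C)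
    (hSN0 : 0 ≤ S * N) (hSN : S * N ≤ 2 * L * y * D) (hk0 : 0 ≤ kc) (hkc : kc ≤ Ck * L * a) (haD : a ≤ D) (hCk : 0 ≤ Ck) (hD1 : 1 ≤ D)
    (hw : w * T ≤ 50 * y ^ 2 * D + (5 + 8 * A) * y ^ 2 * (C * D)) :
    (40 * E * (l * T + G) + w * G * T + 16 * A * q * S * C * N + 8 * A * q * G * kc) * B ≤
      (80 + 50 + 13 * C + 32 * C + 8 * Ck) * (L ^ 3 * y ^ 5 * D) := by
  subst hG hq
  have hL3 : 1 ≤ L ^ 3 := one_le_pow₀ hL
  have hL0 : 0 ≤ L := by linarith only [hL]
  have hy0 : 0 ≤ y := by linarith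
  have hy2 : 1 ≤ y ^ 2 := one_le_pow₀ hy
  have hy5 : 1 ≤ y ^ 5 := one_le_pow₀ hy
  have key : ∀ {c : ℝ} {m k : ℕ}, 0 ≤ c → m ≤ 3 → k ≤ 5 → c * (L ^ m * y ^ k * D) ≤ c * (L ^ 3 * y ^ 5 * D) := by
    intro c m k hc hm hk
    have h1 : L ^ m ≤ L ^ 3 := pow_le_pow_right₀ hL hm
    have h2 : y ^ k ≤ y ^ 5 := pow_le_pow_right₀ hy hk
    gcongr
  have t1 : 40 * E * (l * T + G) * G ≤ 80 * (L ^ 3 * y ^ 5 * D) := by
    have h1 : l * T + G ≤ 2 * (y * D) := by
      have : G ≤ y * D := hB.trans (le_mul_of_one_le_right hy0 hD1)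
      linarith only [hl, this]
    calc 40 * E * (l * T + G) * G ≤ 40 * y * (2 * (y * D)) * y := by gcongr
      _ = 80 * (L ^ 0 * y ^ 3 * D) := by ring
      _ ≤ 80 * (L ^ 3 * y ^ 5 * D) := key (by norm_num) (by norm_num) (by norm_num)
  have t2 : w * G * T * G ≤ (50 + 13 * C) * (L ^ 3 * y ^ 5 * D) := by
    have h1 : (5 + 8 * A) ≤ 13 * (L ^ 2 * y) := by
      have : 1 ≤ L ^ 2 * y := one_le_mul_of_one_le_of_one_le (one_le_pow₀ hL) hy
      linarith only [hA, this]
    calc w * G * T * G = (w * T) * (G * G) := by ring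
      _ ≤ (50 * y ^ 2 * D + (5 + 8 * A) * y ^ 2 * (C * D)) * (y * y) := by gcongr
      _ ≤ (50 * y ^ 2 * D + (13 * (L ^ 2 * y)) * y ^ 2 * (C * D)) * (y * y) := by gcongr
      _ = 50 * (L ^ 0 * y ^ 4 * D) + 13 * C * (L ^ 2 * y ^ 5 * D) := by ring
      _ ≤ 50 * (L ^ 3 * y ^ 5 * D) + 13 * C * (L ^ 3 * y ^ 5 * D) :=
          add_le_add (key (by norm_num) (by norm_num) (by norm_num)) (key (by positivity) (by norm_num) le_rfl)
      _ = _ := by ring
  have t3 : 16 * A * y ^ 2 * S * C * N * G ≤ 32 * C * (L ^ 3 * y ^ 5 * D) := by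
    calc 16 * A * y ^ 2 * S * C * N * G = 16 * A * y ^ 2 * C * (S * N) * G := by ring
      _ ≤ 16 * (L ^ 2 * y) * y ^ 2 * C * (2 * L * y * D) * y := by gcongr
      _ = 32 * C * (L ^ 3 * y ^ 5 * D) := by ring
  have t4 : 8 * A * y ^ 2 * G * kc * G ≤ 8 * Ck * (L ^ 3 * y ^ 5 * D) := by
    calc 8 * A * y ^ 2 * G * kc * G ≤ 8 * (L ^ 2 * y) * y ^ 2 * y * (Ck * L * D) * y := by
          gcongr
          exact hkc.trans (by gcongr)
      _ = 8 * Ck * (L ^ 3 * y ^ 5 * D) := by ring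
  have e : (40 * E * (l * T + G) + w * G * T + 16 * A * y ^ 2 * S * C * N + 8 * A * y ^ 2 * G * kc) * G =
      40 * E * (l * T + G) * G + w * G * T * G + 16 * A * y ^ 2 * S * C * N * G + 8 * A * y ^ 2 * G * kc * G := by ring
  rw [e]
  linarith only [t1, t2, t3, t4]

/-- bookkeeping of the small errors, part 2 -/
lemma small2 {L y D B q kc Ck a X δ T Cl : ℝ} (hL : 1 ≤ L) (hy : 1 ≤ y) (hD1 : 1 ≤ D) (hB0 : 0 ≤ B) (hB : B ≤ y)
    (hq : q = y ^ 2) (hkc : kc ≤ Ck * L * a) (haD : a ≤ D) (hCk : 0 ≤ Ck) (hCl : 0 ≤ Cl)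
    (hX0 : 0 < X) (ha0 : 0 < a) (hX : 1 / X ≤ y) (hδ : |δ| ≤ y) (hTa : T / a ≤ D) (hT : 0 ≤ T) (hya : y ≤ a) :
    ((5 * q * (4 * Cl * L)) * (5 * q * kc) + (B * (|δ| / (a * X)) * T + 12 * B ^ 2 * (a + |δ|)) + 40 * y + 8 * (a + |δ|)) * B ≤
      (100 * Cl * Ck + 81) * (L ^ 3 * y ^ 5 * D) := by
  subst hq
  have hL0 : 0 ≤ L := by linarith only [hL]
  have hy0 : 0 ≤ y := by linarith only [hy]
  have hD0 : 0 ≤ D := by linarith only [hD1]
  have hδ0 := abs_nonneg δ
  have hya2 : a + |δ| ≤ 2 * D := by linarith only [haD, hδ, hya]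
  have key : ∀ {c : ℝ} {m k : ℕ}, 0 ≤ c → m ≤ 3 → k ≤ 5 → c * (L ^ m * y ^ k * D) ≤ c * (L ^ 3 * y ^ 5 * D) := by
    intro c m k hc hm hk
    have h1 : L ^ m ≤ L ^ 3 := pow_le_pow_right₀ hL hm
    have h2 : y ^ k ≤ y ^ 5 := pow_le_pow_right₀ hy hk
    gcongr
  have t1 : (5 * y ^ 2 * (4 * Cl * L)) * (5 * y ^ 2 * kc) * B ≤ 100 * Cl * Ck * (L ^ 3 * y ^ 5 * D) := by
    calc (5 * y ^ 2 * (4 * Cl * L)) * (5 * y ^ 2 * kc) * B ≤ (5 * y ^ 2 * (4 * Cl * L)) * (5 * y ^ 2 * (Ck * L * D)) * y := by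
          gcongr
          exact hkc.trans (by gcongr)
      _ = 100 * Cl * Ck * (L ^ 2 * y ^ 5 * D) := by ring
      _ ≤ _ := key (by positivity) (by norm_num) le_rfl
  have t2 : B * (|δ| / (a * X)) * T * B ≤ 1 * (L ^ 3 * y ^ 5 * D) := by
    have e : B * (|δ| / (a * X)) * T * B = B * B * |δ| * (1 / X) * (T / a) := by field_simp
    rw [e]
    calc B * B * |δ| * (1 / X) * (T / a) ≤ y * y * y * y * D := by gcongr
      _ = 1 * (L ^ 0 * y ^ 4 * D) := by ring
      _ ≤ _ := key (by norm_num) (by norm_num) (by norm_num)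
  have t3 : 12 * B ^ 2 * (a + |δ|) * B ≤ 24 * (L ^ 3 * y ^ 5 * D) := by
    calc 12 * B ^ 2 * (a + |δ|) * B ≤ 12 * y ^ 2 * (2 * D) * y := by gcongr
      _ = 24 * (L ^ 0 * y ^ 3 * D) := by ring
      _ ≤ _ := key (by norm_num) (by norm_num) (by norm_num)
  have t4 : 40 * y * B ≤ 40 * (L ^ 3 * y ^ 5 * D) := by
    calc 40 * y * B ≤ 40 * y * y * D := by
          calc 40 * y * B ≤ 40 * y * y := by gcongr
            _ ≤ 40 * y * y * D := le_mul_of_one_le_right (by positivity) hD1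
      _ = 40 * (L ^ 0 * y ^ 2 * D) := by ring
      _ ≤ _ := key (by norm_num) (by norm_num) (by norm_num)
  have t5 : 8 * (a + |δ|) * B ≤ 16 * (L ^ 3 * y ^ 5 * D) := by
    calc 8 * (a + |δ|) * B ≤ 8 * (2 * D) * y := by gcongr
      _ = 16 * (L ^ 0 * y ^ 1 * D) := by ring
      _ ≤ _ := key (by norm_num) (by norm_num) (by norm_num)
  have e : ((5 * y ^ 2 * (4 * Cl * L)) * (5 * y ^ 2 * kc) + (B * (|δ| / (a * X)) * T + 12 * B ^ 2 * (a + |δ|)) + 40 * y + 8 * (a + |δ|)) * B =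
      (5 * y ^ 2 * (4 * Cl * L)) * (5 * y ^ 2 * kc) * B + B * (|δ| / (a * X)) * T * B + 12 * B ^ 2 * (a + |δ|) * B + 40 * y * B + 8 * (a + |δ|) * B := by ring
  rw [e]
  linarith only [t1, t2, t3, t4, t5]

end Pool.Agent.Helper57.UV

end

/-! ### Helper57.UV.Lin -/

section

namespace Pool.Agent.Helper57.UV

open Set MeasureTheory Filter Topology

open Pool.Agent.Helper57.LH

open Pool.Agent.Helper57.Zeta

open Pool.Agent.Helper57.LS

open Pool.Agent.Helper57.US

/-- the sum with the true abscissae -/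
noncomputable def Yv (T X t : ℝ) : ℝ := ∑ ρ ∈ ZT T, mx ρ * gs X ((ρ:ℂ).re - 1/2) (t - (ρ:ℂ).im)

lemma Yv_cont (T X : ℝ) : Continuous (Yv T X) := by
  unfold Yv
  apply continuous_finsetSum
  intro ρ _
  exact continuous_const.mul ((gs_cont X _).comp (by fun_prop))

/-- maximal weight off the line -/
noncomputable def AX (X : ℝ) : ℝ := (X / 2) ^ 2 * Real.exp (X / 2)

lemma AX_nonneg (X : ℝ) : 0 ≤ AX X := by unfold AX; positivity

lemma AX_bound {X : ℝ} (hX : 0 < X) (ρ : ZS) : (|(ρ:ℂ).re - 1/2| * X) ^ 2 * Real.exp (|(ρ:ℂ).re - 1/2| * X) ≤ AX X := by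
  have hr := zs_re ρ
  have h1 : |(ρ:ℂ).re - 1/2| ≤ 1/2 := by rw [abs_le]; constructor <;> linarith only [hr]
  have h2 : |(ρ:ℂ).re - 1/2| * X ≤ X / 2 := by
    calc |(ρ:ℂ).re - 1/2| * X ≤ 1/2 * X := by gcongr
      _ = X / 2 := by ring
  have h0 : 0 ≤ |(ρ:ℂ).re - 1/2| * X := by positivity
  unfold AX
  gcongr

lemma gsv_le {X q : ℝ} (hX : 0 < X) (hq1 : 1 ≤ q) (hqX : 1 ≤ q * X ^ 2) (ρ : ZS) (w : ℝ) :
    |gs X ((ρ:ℂ).re - 1/2) w| ≤ (5 + 8 * AX X) * q * Kd 1 w := by
  have h1 := gs_diff_bound hX ((ρ:ℂ).re - 1/2) w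
  have h2 := gs_zero_decay hX w
  have h3 := gs_zero_nonneg hX w
  have h4 := Kd_q (w := w) hq1 hqX
  have hK := (Kd_pos X w).le
  have h5 := AX_bound hX ρ
  have e : gs X ((ρ:ℂ).re - 1/2) w = gs X 0 w + (gs X ((ρ:ℂ).re - 1/2) w - gs X 0 w) := by ring
  rw [e]
  refine (abs_add_le _ _).trans ?_
  rw [abs_of_nonneg h3]
  have hA := AX_nonneg X
  calc gs X 0 w + |gs X ((ρ:ℂ).re - 1/2) w - gs X 0 w| ≤ 5 * Kd X w + 8 * AX X * Kd X w := by
        apply add_le_add h2
        refine h1.trans ?_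
        gcongr
    _ = (5 + 8 * AX X) * Kd X w := by ring
    _ ≤ (5 + 8 * AX X) * (q * Kd 1 w) := by gcongr
    _ = _ := by ring

/-- the explicit formula restricted to zeros in `[0,T]` -/
lemma Yv_approx {T X q t : ℝ} (hT : 1 ≤ T) (ha4 : 4 ≤ T ^ (3/4 : ℝ)) (hX : 0 < X) (hq1 : 1 ≤ q) (hqX : 1 ≤ q * X ^ 2)
    (ht : T ^ (3/4 : ℝ) ≤ t) (htT : t ≤ T - T ^ (3/4 : ℝ)) :
    |MT X t / X - PS X t - Yv T X t| ≤ (5 + 8 * AX X) * q * (CT2 * T ^ (-(1/16) : ℝ)) := by
  classical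
  have hex := explicit hX t
  have h1 : Tendsto (fun F : Finset ZS => |(∑ ρ ∈ F, mx ρ * gs X ((ρ:ℂ).re - 1 / 2) (t - (ρ:ℂ).im)) - Yv T X t|) atTop
      (𝓝 |MT X t / X - PS X t - Yv T X t|) := (Filter.Tendsto.sub_const hex _).abs
  apply le_of_tendsto h1
  filter_upwards [eventually_ge_atTop (ZT T)] with F hF
  have hsd : (∑ ρ ∈ F, mx ρ * gs X ((ρ:ℂ).re - 1 / 2) (t - (ρ:ℂ).im)) - Yv T X t = ∑ ρ ∈ F \ ZT T, mx ρ * gs X ((ρ:ℂ).re - 1 / 2) (t - (ρ:ℂ).im) := by
    unfold Yv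
    rw [← Finset.sum_sdiff hF]
    ring
  rw [hsd]
  refine (Finset.abs_sum_le_sum_abs _ _).trans ?_
  have h2 : ∑ ρ ∈ F \ ZT T, |mx ρ * gs X ((ρ:ℂ).re - 1 / 2) (t - (ρ:ℂ).im)| ≤ (5 + 8 * AX X) * q * KS (F \ ZT T) t := by
    unfold KS
    rw [Finset.mul_sum]
    refine Finset.sum_le_sum fun ρ _ => ?_
    have hm := mx_nonneg (ρ:ℂ)
    rw [abs_mul, abs_of_nonneg hm]
    calc mx ρ * |gs X ((ρ:ℂ).re - 1 / 2) (t - (ρ:ℂ).im)| ≤ mx ρ * ((5 + 8 * AX X) * q * Kd 1 (t - (ρ:ℂ).im)) := by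
          gcongr
          exact gsv_le hX hq1 hqX ρ _
      _ = _ := by ring
  refine h2.trans ?_
  have hA := AX_nonneg X
  have hq0 : 0 ≤ q := by linarith only [hq1]
  have h3 := KS_tail hT ha4 ht htT (F \ ZT T) (fun ρ hρ => (Finset.mem_sdiff.mp hρ).2)
  gcongr

/-- linear statistics of the zeros against a slowly varying weight -/
theorem lin_stat {T X q α β w0 G l kc : ℝ} (hX : 0 < X) (hq1 : 1 ≤ q) (hqX : 1 ≤ q * X ^ 2) (hT : 0 < T) (hαβ : α ≤ β)
    {g : ℝ → ℝ} (hg : Continuous g) (hG : ∀ t, |g t| ≤ G) (hl : ∀ s t, |g s - g t| ≤ l * |s - t|) (hl0 : 0 ≤ l)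
    (hw : ∀ t ∈ Icc α β, |bt T X t - PS X t - Yv T X t| ≤ w0) (hkc : ∫ t in (Icc α β)ᶜ, KS (ZT T) t ≤ kc) :
    |(∫ t in Icc α β, Yf (ZT T) X t * g t) - ∫ t in Icc α β, bt T X t * g t| ≤
      40 * Real.exp X * (l * (β - α) + G) + w0 * G * (β - α) + 16 * AX X * q * Real.sqrt (2 * G * l) * C1 * NT T + 8 * AX X * q * G * kc := by
  have hG0 : 0 ≤ G := (abs_nonneg _).trans (hG 0)
  have hA0 := AX_nonneg X
  have hq0 : 0 ≤ q := by linarith only [hq1]
  have hC1 := C1_nonneg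
  set I := Icc α β with hI
  have hIm : MeasurableSet I := measurableSet_Icc
  have cY := Yf_cont (ZT T) X
  have cYv := Yv_cont T X
  have cb := bt_cont hT X
  have cP := PS_cont hX
  set D : ℝ → ℝ := fun t => Yv T X t - Yf (ZT T) X t with hD
  have cD : Continuous D := cYv.sub cY
  have hDeq : ∀ t, D t = ∑ ρ ∈ ZT T, mx ρ * (gs X ((ρ:ℂ).re - 1/2) (t - (ρ:ℂ).im) - gs X 0 (t - (ρ:ℂ).im)) := by
    intro t
    rw [hD]
    simp only
    unfold Yv Yf
    rw [← Finset.sum_sub_distrib]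
    refine Finset.sum_congr rfl fun ρ _ => ?_
    ring
  have hDle : ∀ t, |D t| ≤ 8 * AX X * q * KS (ZT T) t := by
    intro t
    rw [hDeq]
    refine (Finset.abs_sum_le_sum_abs _ _).trans ?_
    unfold KS
    rw [Finset.mul_sum]
    refine Finset.sum_le_sum fun ρ _ => ?_
    have hm := mx_nonneg (ρ:ℂ)
    rw [abs_mul, abs_of_nonneg hm]
    have h1 := gs_diff_bound hX ((ρ:ℂ).re - 1/2) (t - (ρ:ℂ).im)
    have h4 := Kd_q (w := t - (ρ:ℂ).im) hq1 hqX
    have hK := (Kd_pos X (t - (ρ:ℂ).im)).le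
    have h5 := AX_bound hX ρ
    have h6 : |gs X ((ρ:ℂ).re - 1/2) (t - (ρ:ℂ).im) - gs X 0 (t - (ρ:ℂ).im)| ≤ 8 * AX X * (q * Kd 1 (t - (ρ:ℂ).im)) := by
      refine h1.trans ?_
      gcongr
    calc mx ρ * |gs X ((ρ:ℂ).re - 1/2) (t - (ρ:ℂ).im) - gs X 0 (t - (ρ:ℂ).im)| ≤ mx ρ * (8 * AX X * (q * Kd 1 (t - (ρ:ℂ).im))) := by gcongr
      _ = _ := by ring
  have iKS : Integrable (KS (ZT T)) := KS_integrable _
  have iD : Integrable D := (iKS.const_mul (8 * AX X * q)).mono' cD.aestronglyMeasurable (Eventually.of_forall fun t => by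
    rw [Real.norm_eq_abs]; exact hDle t)
  have iDg : Integrable (fun t => D t * g t) := by
    refine (iD.norm.mul_const G).mono' (cD.mul hg).aestronglyMeasurable ?_
    filter_upwards with t
    rw [norm_mul]
    gcongr
    exact hG _
  -- full integral
  have hfull : |∫ t, D t * g t| ≤ 16 * AX X * q * Real.sqrt (2 * G * l) * C1 * NT T := by
    have e1 : ∫ t, D t * g t = ∑ ρ ∈ ZT T, mx ρ * ∫ t, (gs X ((ρ:ℂ).re - 1/2) (t - (ρ:ℂ).im) - gs X 0 (t - (ρ:ℂ).im)) * g t := by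
      have e2 : ∀ t, D t * g t = ∑ ρ ∈ ZT T, mx ρ * ((gs X ((ρ:ℂ).re - 1/2) (t - (ρ:ℂ).im) - gs X 0 (t - (ρ:ℂ).im)) * g t) := by
        intro t
        rw [hDeq, Finset.sum_mul]
        refine Finset.sum_congr rfl fun ρ _ => ?_
        ring
      simp_rw [e2]
      rw [integral_finsetSum]
      · refine Finset.sum_congr rfl fun ρ _ => ?_
        rw [integral_const_mul]
      · intro ρ _
        apply Integrable.const_mul
        have i0 : Integrable (fun t => gs X ((ρ:ℂ).re - 1/2) (t - (ρ:ℂ).im) - gs X 0 (t - (ρ:ℂ).im)) :=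
          (gsD_integrable hX ((ρ:ℂ).re - 1/2)).comp_sub_right _
        refine (i0.norm.mul_const G).mono' ?_ ?_
        · exact (((gs_cont X _).comp (by fun_prop)).sub ((gs_cont X _).comp (by fun_prop))).aestronglyMeasurable.mul hg.aestronglyMeasurable
        · filter_upwards with t
          rw [norm_mul]
          gcongr
          exact hG _
    rw [e1]
    refine (Finset.abs_sum_le_sum_abs _ _).trans ?_
    rw [← sum_ZT_mx, Finset.mul_sum]
    refine Finset.sum_le_sum fun ρ _ => ?_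
    have hm := mx_nonneg (ρ:ℂ)
    rw [abs_mul, abs_of_nonneg hm, mul_comm]
    gcongr
    exact gsD_lip hX hq1 hqX _ _ (AX_bound hX ρ) hg hG hl hl0
  have hcompl : |∫ t in Iᶜ, D t * g t| ≤ 8 * AX X * q * G * kc := by
    rw [← Real.norm_eq_abs]
    refine (norm_integral_le_integral_norm _).trans ?_
    have h1 : ∫ t in Iᶜ, ‖D t * g t‖ ≤ ∫ t in Iᶜ, (8 * AX X * q * G) * KS (ZT T) t := by
      apply setIntegral_mono_on iDg.norm.integrableOn (iKS.const_mul _).integrableOn hIm.compl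
      intro t _
      rw [norm_mul, Real.norm_eq_abs, Real.norm_eq_abs]
      have hKS := KS_nonneg (ZT T) t
      calc |D t| * |g t| ≤ (8 * AX X * q * KS (ZT T) t) * G := by
            gcongr
            · exact hDle t
            · exact hG t
        _ = _ := by ring
    rw [integral_const_mul] at h1
    refine h1.trans ?_
    gcongr
  have hDI : |∫ t in I, D t * g t| ≤ 16 * AX X * q * Real.sqrt (2 * G * l) * C1 * NT T + 8 * AX X * q * G * kc := by
    have s1 := integral_add_compl (μ := volume) hIm iDg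
    have e : ∫ t in I, D t * g t = (∫ t, D t * g t) - ∫ t in Iᶜ, D t * g t := by rw [← s1]; ring
    rw [e]
    exact (abs_sub _ _).trans (add_le_add hfull hcompl)
  have hPS : |∫ t in I, PS X t * g t| ≤ 40 * Real.exp X * (l * (β - α) + G) := by
    have := PS_osc hX hg hG hl hl0 hαβ
    rwa [intervalIntegral.integral_of_le hαβ, ← integral_Icc_eq_integral_Ioc] at this
  have hW : |∫ t in I, (bt T X t - PS X t - Yv T X t) * g t| ≤ w0 * G * (β - α) := by
    have h := norm_setIntegral_le_of_norm_le_const (μ := volume) (s := I) (f := fun t => (bt T X t - PS X t - Yv T X t) * g t) (C := w0 * G)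
      (by rw [hI, Real.volume_Icc]; exact ENNReal.ofReal_lt_top) (by
        intro t ht
        rw [norm_mul, Real.norm_eq_abs, Real.norm_eq_abs]
        have h1 := hw t ht
        have h0 : 0 ≤ w0 := (abs_nonneg _).trans h1
        gcongr
        exact hG t)
    rw [Real.norm_eq_abs, hI, Real.volume_real_Icc_of_le hαβ] at h
    exact h
  have e : (∫ t in I, Yf (ZT T) X t * g t) - ∫ t in I, bt T X t * g t =
      -(∫ t in I, PS X t * g t) + (-(∫ t in I, (bt T X t - PS X t - Yv T X t) * g t) - ∫ t in I, D t * g t) := by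
    have i1 : IntegrableOn (fun t => Yf (ZT T) X t * g t) I := ioc (cY.mul hg) _ _
    have i2 : IntegrableOn (fun t => bt T X t * g t) I := ioc (cb.mul hg) _ _
    have i3 : IntegrableOn (fun t => -(PS X t * g t)) I := ioc (cP.mul hg).neg _ _
    have i4 : IntegrableOn (fun t => -((bt T X t - PS X t - Yv T X t) * g t)) I := ioc (((cb.sub cP).sub cYv).mul hg).neg _ _
    have i5 : IntegrableOn (fun t => D t * g t) I := ioc (cD.mul hg) _ _
    have i6 : IntegrableOn (fun t => -((bt T X t - PS X t - Yv T X t) * g t) - D t * g t) I := i4.sub i5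
    rw [← integral_neg, ← integral_neg, ← integral_sub i1 i2, ← integral_sub i4 i5, ← integral_add i3 i6]
    congr 1
    funext t
    rw [hD]
    ring
  rw [e]
  have a1 := abs_le.mp hPS
  have a2 := abs_le.mp hW
  have a3 := abs_le.mp hDI
  rw [abs_le]
  constructor <;> linarith only [a1, a2, a3, a1.1, a1.2, a2.1, a2.2, a3.1, a3.2]

end Pool.Agent.Helper57.UV

end

/-! ### Helper57.UB.Pr -/

section

namespace Pool.Agent.Helper57.UB

open Set MeasureTheory Filter Topology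

open Pool.Agent.Helper57.LH

open Pool.Agent.Helper57.LS

open Pool.Agent.Helper57.UV

open scoped ArithmeticFunction

lemma ap_half {X : ℝ} (hX : 0 < X) (n : ℕ) : 1 / 2 * ap X n ^ 2 = 2 * (Λ n ^ 2 / n) * (1 / X ^ 2) * mp (1 - Real.log n / X) ^ 2 := by
  rcases Nat.lt_or_ge n 1 with h | h
  · rw [ap_zero_lt (by omega)]
    have : n = 0 := by omega
    subst this
    simp
  have hn0 : (0:ℝ) < n := by exact_mod_cast h
  rcases lt_or_ge (NX X) n with h2 | h2
  · rw [ap_zero_ge hX h2]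
    have h3 : Real.exp X < n := (Nat.floor_lt (Real.exp_pos X).le).mp h2
    have h4 : X < Real.log n := by rwa [Real.lt_log_iff_exp_lt hn0]
    rw [mp_zero]
    · ring
    · rw [sub_nonpos, one_le_div hX]; exact h4.le
  · rw [ap_eq hX h h2]
    have h3 : (n:ℝ) ≤ Real.exp X := (Nat.le_floor_iff (Real.exp_pos X).le).mp h2
    have h4 : Real.log n ≤ X := by rwa [Real.log_le_iff_le_exp hn0]
    rw [mp_of (by rw [sub_nonneg, div_le_one hX]; exact h4)]
    have hs := Real.sq_sqrt hn0.le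
    calc 1 / 2 * (2 / X * (Λ n * (1 - Real.log n / X) / Real.sqrt n)) ^ 2 = 2 * (Λ n ^ 2 / Real.sqrt n ^ 2) * (1 / X ^ 2) * (1 - Real.log n / X) ^ 2 := by ring
      _ = _ := by rw [hs]

lemma NX_mono {X Y : ℝ} (h : X ≤ Y) : NX X ≤ NX Y := by
  unfold NX
  exact Nat.floor_le_floor (Real.exp_le_exp.mpr h)

/-- the prime term over a fixed range -/
lemma PXc_fixed {L B B0 : ℝ} (hL : 0 < L) (hB0 : 0 < B0) (hB : B0 ≤ B) (δ : ℝ) :
    PXc (L / B) δ = ∑ n ∈ Finset.range (NX (L / B0) + 1), 2 * (Λ n ^ 2 / n) * (B ^ 2 / L ^ 2) * mp (1 - B * (Real.log n / L)) ^ 2 * Real.cos (δ * Real.log n) := by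
  have hB' : 0 < B := by linarith
  have hX : 0 < L / B := by positivity
  have hle : NX (L / B) ≤ NX (L / B0) := NX_mono (by gcongr)
  unfold PXc
  have h1 : ∑ n ∈ Finset.range (NX (L / B) + 1), ap (L / B) n ^ 2 * Real.cos (δ * Real.log n) =
      ∑ n ∈ Finset.range (NX (L / B0) + 1), ap (L / B) n ^ 2 * Real.cos (δ * Real.log n) := by
    apply Finset.sum_subset
    · intro n hn
      rw [Finset.mem_range] at hn ⊢
      omega
    · intro n _ hn
      rw [Finset.mem_range] at hn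
      rw [ap_zero_ge hX (by omega)]
      ring
  rw [h1, Finset.mul_sum]
  refine Finset.sum_congr rfl fun n _ => ?_
  rw [← mul_assoc, ap_half hX]
  have e1 : Real.log n / (L / B) = B * (Real.log n / L) := by field_simp
  have e2 : 1 / (L / B) ^ 2 = B ^ 2 / L ^ 2 := by field_simp
  rw [e1, e2]

/-- difference of prime terms -/
noncomputable def QB (L h : ℝ) (N : ℕ) (B : ℝ) : ℝ := ∑ n ∈ Finset.range (N + 1), 4 * (Λ n ^ 2 / n) * (1 - Real.cos (h * Real.log n)) * (1 / L ^ 2) * (B * mp (1 - B * (Real.log n / L)) ^ 2)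

lemma QB_cont (L h : ℝ) (N : ℕ) : Continuous (QB L h N) := by
  unfold QB
  have := mp_cont
  fun_prop

lemma QB_eq {L B B0 : ℝ} (hL : 0 < L) (hB0 : 0 < B0) (hB : B0 ≤ B) (h : ℝ) :
    2 * (PXc (L / B) 0 - PXc (L / B) h) / B = QB L h (NX (L / B0)) B := by
  have hB' : 0 < B := by linarith
  rw [PXc_fixed hL hB0 hB, PXc_fixed hL hB0 hB, ← Finset.sum_sub_distrib, Finset.mul_sum, Finset.sum_div]
  unfold QB
  refine Finset.sum_congr rfl fun n _ => ?_
  rw [zero_mul, Real.cos_zero]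
  field_simp
  ring

/-- the cut-off -/
noncomputable def Rc (x : ℝ) : ℝ := mp (1 - x) ^ 3 * (1 + 3 * x)

lemma QB_int {L B0 b : ℝ} (hL : 0 < L) (hbL : L ≤ b * Real.log 2) (h : ℝ) (N : ℕ) :
    3 / Real.pi ^ 2 * ∫ B in B0..b, QB L h N B = 1 / Real.pi ^ 2 * ∑ n ∈ Finset.range (N + 1), Λ n ^ 2 / (n * Real.log n ^ 2) * (1 - Real.cos (h * Real.log n)) * Rc (B0 * (Real.log n / L)) := by
  have hpi := Real.pi_pos
  unfold QB
  rw [intervalIntegral.integral_finsetSum]
  · rw [Finset.mul_sum, Finset.mul_sum]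
    refine Finset.sum_congr rfl fun n _ => ?_
    rw [intervalIntegral.integral_const_mul]
    rcases Nat.lt_or_ge n 2 with hn | hn
    · have : Λ n = 0 := by interval_cases n <;> simp
      rw [this]
      ring
    have hn2 : (2:ℝ) ≤ n := by exact_mod_cast hn
    have hl : 0 < Real.log n := Real.log_pos (by linarith)
    have h1 := J_one (Real.log n / L) B0 b
    have h2 : mp (1 - b * (Real.log n / L)) = 0 := by
      apply mp_zero
      have h3 : Real.log 2 ≤ Real.log n := Real.log_le_log (by norm_num) hn2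
      have hlog2 : 0 < Real.log 2 := Real.log_pos (by norm_num)
      have hb0 : 0 < b := by
        by_contra h4
        push Not at h4
        have := mul_nonpos_of_nonpos_of_nonneg h4 hlog2.le
        linarith only [hL, hbL, this]
      rw [sub_nonpos, ← mul_div_assoc, one_le_div hL]
      calc L ≤ b * Real.log 2 := hbL
        _ ≤ b * Real.log n := by gcongr
    rw [h2, zero_pow three_ne_zero, zero_mul, sub_zero] at h1
    obtain ⟨J, hJ⟩ : ∃ J, J = ∫ B in B0..b, B * mp (1 - B * (Real.log n / L)) ^ 2 := ⟨_, rfl⟩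
    rw [← hJ] at h1 ⊢
    have h5 : J = mp (1 - B0 * (Real.log n / L)) ^ 3 * (1 + 3 * B0 * (Real.log n / L)) / (12 * (Real.log n / L) ^ 2) := by
      rw [← h1]
      field_simp
    rw [h5]
    unfold Rc
    field_simp
    ring
  · intro n _
    apply Continuous.intervalIntegrable
    have := mp_cont
    fun_prop

lemma Rc_bd {x : ℝ} (hx0 : 0 ≤ x) (hx1 : x ≤ 1) : |Rc x - 1| ≤ 6 * x ^ 2 := by
  unfold Rc
  rw [mp_of (by linarith)]
  have e : (1 - x) ^ 3 * (1 + 3 * x) - 1 = -(x ^ 2 * (6 - 8 * x + 3 * x ^ 2)) := by ring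
  rw [e, abs_neg, abs_of_nonneg]
  · have : x ^ 2 * (6 - 8 * x + 3 * x ^ 2) ≤ x ^ 2 * 6 := by
      gcongr
      nlinarith only [hx0, hx1]
    linarith only [this]
  · have : 0 ≤ 6 - 8 * x + 3 * x ^ 2 := by nlinarith only [sq_nonneg (3 * x - 4)]
    positivity

/-- the arithmetic sum -/
noncomputable def EN (h : ℝ) (N : ℕ) : ℝ := ∑ n ∈ Finset.range (N + 1), Λ n ^ 2 / (n * Real.log n ^ 2) * (1 - Real.cos (h * Real.log n))

lemma EN_cmp {L B0 : ℝ} (hB0 : 1 ≤ B0) (hL : B0 ≤ L) (h : ℝ) :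
    |(∑ n ∈ Finset.range (NX (L / B0) + 1), Λ n ^ 2 / (n * Real.log n ^ 2) * (1 - Real.cos (h * Real.log n)) * Rc (B0 * (Real.log n / L))) - EN h (NX (L / B0))| ≤
      12 * (1 + CMe) := by
  have hB0' : 0 < B0 := by linarith
  have hL0 : 0 < L := by linarith
  have hX : 0 < L / B0 := by positivity
  unfold EN
  rw [← Finset.sum_sub_distrib]
  have h1 : ∀ n ∈ Finset.range (NX (L / B0) + 1), |Λ n ^ 2 / (n * Real.log n ^ 2) * (1 - Real.cos (h * Real.log n)) * Rc (B0 * (Real.log n / L)) -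
      Λ n ^ 2 / (n * Real.log n ^ 2) * (1 - Real.cos (h * Real.log n))| ≤ 12 * B0 / L * (Λ n / n) := by
    intro n hn
    rw [Finset.mem_range] at hn
    have hv := @ArithmeticFunction.vonMangoldt_nonneg n
    rcases Nat.lt_or_ge n 2 with hn2 | hn2
    · have : Λ n = 0 := by interval_cases n <;> simp
      rw [this]
      simp
    have hn2' : (2:ℝ) ≤ n := by exact_mod_cast hn2
    have hn0 : (0:ℝ) < n := by linarith only [hn2']
    have hl : 0 < Real.log n := Real.log_pos (by linarith only [hn2'])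
    have h3 : (n:ℝ) ≤ Real.exp (L / B0) := (Nat.le_floor_iff (Real.exp_pos _).le).mp (show n ≤ NX (L / B0) by omega)
    have h4 : Real.log n ≤ L / B0 := by rwa [Real.log_le_iff_le_exp hn0]
    have hx0 : 0 ≤ B0 * (Real.log n / L) := by positivity
    have hx1 : B0 * (Real.log n / L) ≤ 1 := by
      rw [← mul_div_assoc, div_le_one hL0]
      rwa [le_div_iff₀' hB0'] at h4
    have h5 := Rc_bd hx0 hx1
    have h6 : |1 - Real.cos (h * Real.log n)| ≤ 2 := by
      have := Real.cos_le_one (h * Real.log n)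
      have := Real.neg_one_le_cos (h * Real.log n)
      rw [abs_le]; constructor <;> linarith
    have h7 := @ArithmeticFunction.vonMangoldt_le_log n
    rw [show Λ n ^ 2 / (n * Real.log n ^ 2) * (1 - Real.cos (h * Real.log n)) * Rc (B0 * (Real.log n / L)) -
      Λ n ^ 2 / (n * Real.log n ^ 2) * (1 - Real.cos (h * Real.log n)) = Λ n ^ 2 / (n * Real.log n ^ 2) * (1 - Real.cos (h * Real.log n)) * (Rc (B0 * (Real.log n / L)) - 1) by ring,
      abs_mul, abs_mul, abs_of_nonneg (by positivity : 0 ≤ Λ n ^ 2 / (n * Real.log n ^ 2))]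
    calc Λ n ^ 2 / (n * Real.log n ^ 2) * |1 - Real.cos (h * Real.log n)| * |Rc (B0 * (Real.log n / L)) - 1|
        ≤ Λ n ^ 2 / (n * Real.log n ^ 2) * 2 * (6 * (B0 * (Real.log n / L)) ^ 2) := by gcongr
      _ = 12 * B0 / L * (Λ n / n) * (Λ n * B0 / L) := by field_simp; ring
      _ ≤ 12 * B0 / L * (Λ n / n) * 1 := by
          gcongr
          rw [div_le_one hL0]
          calc Λ n * B0 ≤ (L / B0) * B0 := by gcongr; linarith only [h4, h7]
            _ = L := by field_simp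
      _ = _ := mul_one _
  refine (Finset.abs_sum_le_sum_abs _ _).trans ((Finset.sum_le_sum h1).trans ?_)
  rw [← Finset.mul_sum]
  have h8 := (abs_le.mp (mertens hX.le)).2
  have hC := CMe_pos
  calc 12 * B0 / L * ∑ n ∈ Finset.range (NX (L / B0) + 1), Λ n / n ≤ 12 * B0 / L * (L / B0 + CMe) := by gcongr; linarith only [h8]
    _ = 12 * (1 + CMe * (B0 / L)) := by field_simp
    _ ≤ 12 * (1 + CMe * 1) := by
        gcongr
        rw [div_le_one hL0]; exact hL
    _ = _ := by ring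

end Pool.Agent.Helper57.UB

end

/-! ### Helper57.UB.Cmp -/

section

namespace Pool.Agent.Helper57.UB

open Set MeasureTheory Filter Topology

open Pool.Agent.Helper57.LH

open Pool.Agent.Helper57.LS

open Pool.Agent.Helper57.UV

open scoped ArithmeticFunction

open Classical in
/-- the prime summand -/
noncomputable def fp (L h : ℝ) (n : ℕ) : ℝ := if n.Prime then (n:ℝ) ^ (-(1 + 1 / L)) * (1 - Real.cos (h * Real.log n)) else 0

lemma cos_bd (x : ℝ) : 0 ≤ 1 - Real.cos x ∧ 1 - Real.cos x ≤ 2 := by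
  have := Real.cos_le_one x
  have := Real.neg_one_le_cos x
  constructor <;> linarith

lemma fp_nonneg (L h : ℝ) (n : ℕ) : 0 ≤ fp L h n := by
  unfold fp
  split_ifs
  · exact mul_nonneg (by positivity) (cos_bd _).1
  · exact le_rfl

lemma rpow_split {n : ℕ} (hn : 2 ≤ n) (L : ℝ) : (n:ℝ) ^ (-(1 + 1 / L)) = 1 / n * (n:ℝ) ^ (-(1 / L)) := by
  have hn0 : (0:ℝ) < n := by
    have : 0 < n := by omega
    exact_mod_cast this
  rw [neg_add, Real.rpow_add hn0, Real.rpow_neg_one]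
  simp only [one_div]

/-- finite part -/
lemma fin_part {L : ℝ} (hL : 0 < L) (h : ℝ) (n : ℕ) :
    |Λ n ^ 2 / (n * Real.log n ^ 2) * (1 - Real.cos (h * Real.log n)) - fp L h n| ≤ 2 / L * (Λ n / n) + 2 / Real.log 2 * (aN n / n) := by
  have hv := @ArithmeticFunction.vonMangoldt_nonneg n
  have hlog2 : 0 < Real.log 2 := Real.log_pos (by norm_num)
  have ha := aN_nonneg n
  have hc := cos_bd (h * Real.log n)
  rcases Nat.lt_or_ge n 2 with hn | hn
  · have h1 : Λ n = 0 := by interval_cases n <;> simp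
    have h2 : ¬ n.Prime := by intro h3; have := h3.two_le; omega
    unfold fp
    rw [if_neg h2, h1]
    simp only [ne_eq, OfNat.ofNat_ne_zero, not_false_eq_true, zero_pow, zero_div, zero_mul, sub_zero, abs_zero, mul_zero, zero_add]
    positivity
  have hn2 : (2:ℝ) ≤ n := by exact_mod_cast hn
  have hn0 : (0:ℝ) < n := by linarith only [hn2]
  have hl : 0 < Real.log n := Real.log_pos (by linarith only [hn2])
  by_cases hp : n.Prime
  · have h1 : Λ n = Real.log n := ArithmeticFunction.vonMangoldt_apply_prime hp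
    have h2 : aN n = 0 := by unfold aN; rw [if_pos hp]
    unfold fp
    rw [if_pos hp, h2, rpow_split hn, h1]
    have h3 : (n:ℝ) ^ (-(1 / L)) = Real.exp (-(Real.log n / L)) := by
      rw [Real.rpow_def_of_pos hn0]
      congr 1
      ring
    have h4 : (n:ℝ) ^ (-(1 / L)) ≤ 1 := by
      rw [h3, Real.exp_le_one_iff]
      have : 0 ≤ Real.log n / L := by positivity
      linarith only [this]
    have h5 : 1 - Real.log n / L ≤ (n:ℝ) ^ (-(1 / L)) := by
      rw [h3]
      have := Real.add_one_le_exp (-(Real.log n / L))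
      linarith only [this]
    have e : Real.log n ^ 2 / (n * Real.log n ^ 2) * (1 - Real.cos (h * Real.log n)) - 1 / n * (n:ℝ) ^ (-(1 / L)) * (1 - Real.cos (h * Real.log n)) =
        1 / n * (1 - (n:ℝ) ^ (-(1 / L))) * (1 - Real.cos (h * Real.log n)) := by
      have : Real.log n ^ 2 / (n * Real.log n ^ 2) = 1 / n := by field_simp
      rw [this]
      ring
    rw [e, abs_of_nonneg (mul_nonneg (mul_nonneg (by positivity) (by linarith only [h4])) hc.1)]
    calc 1 / n * (1 - (n:ℝ) ^ (-(1 / L))) * (1 - Real.cos (h * Real.log n)) ≤ 1 / n * (Real.log n / L) * 2 := by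
          apply mul_le_mul _ hc.2 hc.1 (by positivity)
          apply mul_le_mul_of_nonneg_left _ (by positivity)
          linarith only [h5]
      _ = 2 / L * (Real.log n / n) + 2 / Real.log 2 * (0 / n) := by
          rw [zero_div, mul_zero, add_zero]
          ring
  · have h2 : aN n = Λ n := by unfold aN; rw [if_neg hp]
    unfold fp
    rw [if_neg hp, h2, sub_zero, abs_of_nonneg (mul_nonneg (by positivity) hc.1)]
    have h6 := @ArithmeticFunction.vonMangoldt_le_log n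
    have h7 : Real.log 2 ≤ Real.log n := Real.log_le_log (by norm_num) hn2
    have h8 : Λ n ^ 2 / (n * Real.log n ^ 2) ≤ 1 / Real.log 2 * (Λ n / n) := by
      calc Λ n ^ 2 / (n * Real.log n ^ 2) = (Λ n / Real.log n) * (1 / Real.log n) * (Λ n / n) := by field_simp
        _ ≤ 1 * (1 / Real.log 2) * (Λ n / n) := by
            gcongr
            rw [div_le_one hl]; exact h6
        _ = _ := by ring
    have h9 : 0 ≤ 2 / L * (Λ n / n) := by positivity
    calc Λ n ^ 2 / (n * Real.log n ^ 2) * (1 - Real.cos (h * Real.log n)) ≤ (1 / Real.log 2 * (Λ n / n)) * 2 := by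
          apply mul_le_mul h8 hc.2 hc.1 (by positivity)
      _ = 2 / Real.log 2 * (Λ n / n) := by ring
      _ ≤ _ := by linarith only [h9]

lemma fp_le {L B0 : ℝ} (hL : 0 < L) (hB0 : 0 < B0) (h : ℝ) {n : ℕ} (hn : NX (L / B0) < n) :
    fp L h n ≤ 2 * B0 / L * (Λ n / n * (n:ℝ) ^ (-(1 / L))) := by
  have hv := @ArithmeticFunction.vonMangoldt_nonneg n
  unfold fp
  split_ifs with hp
  · have hn2 : 2 ≤ n := hp.two_le
    have hn2' : (2:ℝ) ≤ n := by exact_mod_cast hn2
    have hn0 : (0:ℝ) < n := by linarith only [hn2']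
    have h1 : Λ n = Real.log n := ArithmeticFunction.vonMangoldt_apply_prime hp
    have h6 : Real.exp (L / B0) < n := (Nat.floor_lt (Real.exp_pos _).le).mp hn
    have h7 : L / B0 < Real.log n := by rwa [Real.lt_log_iff_exp_lt hn0]
    have h8 : 1 ≤ B0 / L * Real.log n := by
      calc (1:ℝ) = B0 / L * (L / B0) := by field_simp
        _ ≤ B0 / L * Real.log n := by gcongr
    rw [rpow_split hn2, h1]
    have hc := cos_bd (h * Real.log n)
    calc 1 / n * (n:ℝ) ^ (-(1 / L)) * (1 - Real.cos (h * Real.log n)) ≤ 1 / n * (n:ℝ) ^ (-(1 / L)) * 2 := by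
          gcongr
          exact hc.2
      _ = 2 * (1 / n * (n:ℝ) ^ (-(1 / L))) * 1 := by ring
      _ ≤ 2 * (1 / n * (n:ℝ) ^ (-(1 / L))) * (B0 / L * Real.log n) := by gcongr
      _ = _ := by ring
  · positivity

lemma prime_tsum {L : ℝ} (h : ℝ) : ∑' p : Nat.Primes, (p : ℝ) ^ (-(1 + 1 / L)) * (1 - Real.cos (h * Real.log p)) = ∑' n : ℕ, fp L h n := by
  have h1 := tsum_subtype {p : ℕ | p.Prime} (fun n : ℕ => (n : ℝ) ^ (-(1 + 1 / L)) * (1 - Real.cos (h * Real.log n)))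
  refine Eq.trans ?_ (h1.trans ?_)
  · rfl
  · congr 1
    funext n
    unfold fp indicator
    simp only [mem_ofPred_eq]

lemma fp_summable {L : ℝ} (hL : 0 < L) (h : ℝ) : Summable (fp L h) := by
  have hs : Summable (fun n : ℕ => 2 * (1 / (n:ℝ) ^ (1 + 1 / L))) := by
    apply Summable.mul_left
    rw [Real.summable_one_div_nat_rpow]
    have : 0 < 1 / L := by positivity
    linarith
  refine Summable.of_nonneg_of_le (fp_nonneg L h) (fun n => ?_) hs
  unfold fp
  split_ifs with hp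
  · have hc := cos_bd (h * Real.log n)
    rw [Real.rpow_neg (by positivity), ← one_div, mul_comm]
    apply mul_le_mul_of_nonneg_right hc.2 (by positivity)
  · positivity

/-- the constant -/
noncomputable def Kz (B0 : ℝ) : ℝ := 2 * Kp + 1 + 2 * (1 + CMe) + 2 / Real.log 2 * CNP + 2 * B0 * (1 + CMe)

/-- comparison of the arithmetic sum with zeta -/
theorem zeta_cmp {B0 : ℝ} (hB0 : 1 ≤ B0) : ∀ᶠ L : ℝ in atTop, ∀ h : ℝ,
    |EN h (NX (L / B0)) - (Real.log L - Real.log ‖riemannZeta (((1 + 1 / L : ℝ) : ℂ) + (h : ℂ) * Complex.I)‖)| ≤ Kz B0 := by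
  filter_upwards [zeta_pole, eventually_ge_atTop 1] with L hzp hL1 h
  have hL : 0 < L := by linarith
  have hB0' : 0 < B0 := by linarith
  have hlog2 : 0 < Real.log 2 := Real.log_pos (by norm_num)
  have hCM := CMe_pos
  have hσ : 1 < 1 + 1 / L := by
    have : 0 < 1 / L := by positivity
    linarith only [this]
  have hX : 0 ≤ L / B0 := by positivity
  have a1 := log_zeta hσ h
  have a0 := log_zeta hσ 0
  simp only [zero_mul, Real.cos_zero, mul_one] at a0
  have e1 : (∑' p : Nat.Primes, (p : ℝ) ^ (-(1 + 1 / L))) - ∑' p : Nat.Primes, (p : ℝ) ^ (-(1 + 1 / L)) * Real.cos (h * Real.log p) = ∑' n : ℕ, fp L h n := by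
    rw [← prime_tsum, ← (psum hσ).tsum_sub (psum_cos hσ h)]
    congr 1
    funext p
    ring
  have hsplit := (fp_summable hL h).sum_add_tsum_nat_add (NX (L / B0) + 1)
  have htail : ∑' i : ℕ, fp L h (i + (NX (L / B0) + 1)) ≤ 2 * B0 * (1 + CMe) := by
    apply Real.tsum_le_of_sum_range_le
    · intro i; exact fp_nonneg _ _ _
    · intro m
      have h1 : ∑ i ∈ Finset.range m, fp L h (i + (NX (L / B0) + 1)) ≤ ∑ i ∈ Finset.range m, 2 * B0 / L * (Λ (i + (NX (L / B0) + 1)) / ((i + (NX (L / B0) + 1) : ℕ) : ℝ) * ((i + (NX (L / B0) + 1) : ℕ) : ℝ) ^ (-(1 / L))) := by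
        apply Finset.sum_le_sum
        intro i _
        exact fp_le hL hB0' h (by omega)
      refine h1.trans ?_
      rw [← Finset.mul_sum]
      have h2 := vM_right hL (m + (NX (L / B0) + 1))
      rw [add_comm m, Finset.sum_range_add] at h2
      have h3 : 0 ≤ ∑ n ∈ Finset.range (NX (L / B0) + 1), Λ n / n * (n:ℝ) ^ (-(1 / L)) := by
        apply Finset.sum_nonneg
        intro n _
        have := @ArithmeticFunction.vonMangoldt_nonneg n
        positivity
      have h4 : ∑ i ∈ Finset.range m, (Λ (i + (NX (L / B0) + 1)) / ((i + (NX (L / B0) + 1) : ℕ) : ℝ) * ((i + (NX (L / B0) + 1) : ℕ) : ℝ) ^ (-(1 / L))) ≤ L + CMe := by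
        have h5 : ∑ i ∈ Finset.range m, (Λ (i + (NX (L / B0) + 1)) / ((i + (NX (L / B0) + 1) : ℕ) : ℝ) * ((i + (NX (L / B0) + 1) : ℕ) : ℝ) ^ (-(1 / L))) =
            ∑ x ∈ Finset.range m, Λ (NX (L / B0) + 1 + x) / ((NX (L / B0) + 1 + x : ℕ) : ℝ) * ((NX (L / B0) + 1 + x : ℕ) : ℝ) ^ (-(1 / L)) := by
          refine Finset.sum_congr rfl fun i _ => ?_
          rw [add_comm i]
        rw [h5]
        linarith only [h2, h3]
      calc 2 * B0 / L * _ ≤ 2 * B0 / L * (L + CMe) := by gcongr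
        _ = 2 * B0 * (1 + CMe / L) := by field_simp
        _ ≤ 2 * B0 * (1 + CMe) := by
            gcongr
            exact div_le_self hCM.le hL1
  have htail0 : 0 ≤ ∑' i : ℕ, fp L h (i + (NX (L / B0) + 1)) := tsum_nonneg fun i => fp_nonneg _ _ _
  have hfin : |EN h (NX (L / B0)) - ∑ n ∈ Finset.range (NX (L / B0) + 1), fp L h n| ≤ 2 * (1 + CMe) + 2 / Real.log 2 * CNP := by
    unfold EN
    rw [← Finset.sum_sub_distrib]
    refine (Finset.abs_sum_le_sum_abs _ _).trans ((Finset.sum_le_sum fun n _ => fin_part hL h n).trans ?_)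
    rw [Finset.sum_add_distrib, ← Finset.mul_sum, ← Finset.mul_sum]
    have h8 := (abs_le.mp (mertens hX)).2
    have h9 := nonprime_sum (NX (L / B0))
    apply add_le_add
    · calc 2 / L * ∑ n ∈ Finset.range (NX (L / B0) + 1), Λ n / n ≤ 2 / L * (L / B0 + CMe) := by gcongr; linarith only [h8]
        _ = 2 * (1 / B0 + CMe / L) := by field_simp
        _ ≤ 2 * (1 + CMe) := by
            gcongr
            · rw [div_le_one hB0']; exact hB0
            · exact div_le_self hCM.le hL1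
    · gcongr
  unfold Kz
  obtain ⟨Z0, hZ0⟩ : ∃ Z0, Z0 = Real.log ‖riemannZeta (((1 + 1 / L : ℝ) : ℂ) + (0:ℝ) * Complex.I)‖ := ⟨_, rfl⟩
  obtain ⟨Z1, hZ1⟩ : ∃ Z1, Z1 = Real.log ‖riemannZeta (((1 + 1 / L : ℝ) : ℂ) + (h : ℂ) * Complex.I)‖ := ⟨_, rfl⟩
  rw [← hZ0] at a0 hzp
  rw [← hZ1] at a1 ⊢
  have u0 := abs_le.mp a0
  have u1 := abs_le.mp a1
  have u2 := abs_le.mp hfin
  have u3 := abs_le.mp hzp
  rw [abs_le]
  constructor
  · linarith [u0.1, u0.2, u1.1, u1.2, u2.1, u2.2, u3.1, u3.2]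
  · linarith [u0.1, u0.2, u1.1, u1.2, u2.1, u2.2, u3.1, u3.2]

end Pool.Agent.Helper57.UB

end
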